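import Mathlib

/-! Definitions used in the statement: flag orbits of a poset, attained pairs. -/

namespace Pool.Agent.Lib.MP_7157e1_co

/-- number of orbits of the group of order automorphisms on the flags (maximal chains) -/
noncomputable def numOrbits (L : Type) [PartialOrder L] : ℕ :=
  Nat.card (Quot fun Φ Ψ : Flag L => ∃ e : L ≃o L, Flag.map e Φ = Ψ)

/-- some convex `d`-polytope has exactly `k` combinatorial flag orbits -/
def Attained (k d : ℕ) : Prop :=
  ∃ V : Finset (EuclideanSpace ℝ (Fin d)),
    (interior (convexHull ℝ (V : Set (EuclideanSpace ℝ (Fin d))))).Nonempty ∧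
    numOrbits {F : Set (EuclideanSpace ℝ (Fin d)) //
      IsExposed ℝ (convexHull ℝ (V : Set (EuclideanSpace ℝ (Fin d)))) F} = k

end Pool.Agent.Lib.MP_7157e1_co
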