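import Pool.Agent.Lib.MP_7157e1_co.FoCox

/-! The arm attached to a branch node. -/

namespace Pool.Agent.FlagOrb

open Set Real

variable {G : Type} [Group G] [DecidableEq G]

/-- successive conjugates along an arm -/
def armC (q : ℕ → G) : ℕ → G
  | 0 => q 0
  | i + 1 => q (i + 1) * armC q i * q (i + 1)

omit [DecidableEq G] in
lemma armC_comm {q : ℕ → G} {s : G} (i : ℕ) (h : ∀ j ≤ i, Commute s (q j)) :
    Commute s (armC q i) := by
  induction i with
  | zero => exact h 0 le_rfl
  | succ i ih =>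
    exact ((h _ le_rfl).mul_right (ih fun j hj => h j (by omega))).mul_right (h _ le_rfl)

omit [DecidableEq G] in
lemma braid_of_cube {a b : G} (ha : a * a = 1) (hb : b * b = 1) (h : (a * b) ^ 3 = 1) :
    a * b * a = b * a * b := by
  have : a * b * a * (b * a * b) = 1 := by rw [← h, pow_three]; simp only [mul_assoc]
  rw [mul_eq_one_iff_eq_inv] at this
  rw [this]
  simp only [mul_inv_rev, inv_eq_of_sq ha, inv_eq_of_sq hb, mul_assoc]

theorem CoxC.arm {S : Set G} {C : G → G → ℝ} (h : CoxC S C) (hfin : S.Finite)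
    (hsq : ∀ g ∈ S, g * g = 1) {b l g g' : G} (hb : b ∈ S) (hl : l ∈ S) (hg : g ∈ S)
    (hg' : g' ∈ S) {S' : Set G} (hS' : S' ⊆ S) (nb : b ∉ S') (nl : l ∉ S') (ng : g ∉ S')
    (ng' : g' ∉ S') (al : ¬ Commute b l) (ag : ¬ Commute b g) (ag' : ¬ Commute b g')
    (lg : l ≠ g) (lg' : l ≠ g') (gg' : g ≠ g') :
    ∃ q m, IsPath S q m ∧ q 0 = g ∧ (∀ i, 1 ≤ i → i ≤ m → q i ∈ S') ∧
      (∀ s ∈ S', (∀ i ≤ m, s ≠ q i) → ∀ i ≤ m, Commute s (q i)) ∧
      (∀ i ≤ m, Commute g' (q i)) ∧ (∀ i < m, (q i * q (i + 1)) ^ 3 = 1) ∧ (b * g) ^ 3 = 1 ∧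
      ∀ γ ∈ Subgroup.closure S', ∃ j ≤ m, γ * g * γ⁻¹ = armC q j := by
  let A : Set ℕ := {m | ∃ q, IsPath S q m ∧ q 0 = g ∧ ∀ i, 1 ≤ i → i ≤ m → q i ∈ S'}
  have hA : A.Finite := by
    apply (Set.finite_Iic S.ncard).subset
    rintro m ⟨q, hq, -⟩
    have := Set.ncard_le_ncard_of_injOn (s := Iic m) q (fun i hi => hq.mem i hi)
      (fun i hi j hj he => hq.inj i hi j hj he) hfin
    simp only [ncard_Iic_nat] at this
    exact mem_Iic.2 (by omega)
  obtain ⟨m, ⟨q, hq, q0, qS⟩, hmax⟩ := Set.exists_max_image A id hA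
    ⟨0, fun _ => g, IsPath.single hg _ rfl, rfl, fun i h1 h2 => by omega⟩
  have nq : ∀ a, a ∉ S' → a ≠ g → ∀ i ≤ m, a ≠ q i := by
    rintro a h1 h2 (_ | i) hi he
    · exact h2 (he.trans q0)
    · exact h1 (he ▸ qS _ (by omega) hi)
  have pb := hq.cons hb (nq b nb (ne_of_adj ag)) (q0 ▸ ag)
  have np : ∀ a, a ∉ S' → a ≠ g → a ≠ b → ∀ i ≤ m + 1,
      a ≠ (Nat.casesOn (motive := fun _ => G) i b q) := by
    rintro a h1 h2 h3 (_ | i) hi
    · exact h3
    · exact nq a h1 h2 i (by omega)
  have pg := pb.cons hg' (np g' ng' gg'.symm (ne_of_adj ag').symm) (adj_symm ag')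
  have fk : ∀ i ≤ m + 1, ∀ B : Finset G, Br S C (Nat.casesOn (motive := fun _ => G) i b q) B
      (1 / 2) → (∀ j ≤ i, (Nat.casesOn (motive := fun _ => G) j b q) ∉ B) → l ∉ B → g' ∉ B →
      False := fun i hi B h1 h2 h3 h4 =>
    h.fork (pb.le hi) h1 h2 hl hg' lg' al ag' h3 h4
      (fun j hj => np l nl lg (ne_of_adj al).symm j (by omega))
      (fun j hj => np g' ng' gg'.symm (ne_of_adj ag').symm j (by omega))
  have ha : ∀ s ∈ S', (∀ i ≤ m, s ≠ q i) → ∀ i ≤ m, Commute s (q i) := by
    intro s hs hn i hi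
    by_contra hc
    rcases hi.eq_or_lt with rfl | hi'
    · have := hmax (i + 1) ⟨_, hq.snoc (hS' hs) hn (adj_symm hc), by simp [q0], fun j h1 h2 => by
        split_ifs with h3
        exacts [qS j h1 h3, hs]⟩
      simp at this
    · have m1 := qS (i + 1) (by omega) hi'
      refine fk (i + 1) (by omega) {q (i + 1), s} (h.br_two (hq.mem i hi) (hq.mem _ hi') (hS' hs)
        (hn _ hi').symm (hq.adj i hi') (adj_symm hc)) ?_ ?_ ?_
      · rintro (_ | j) hj hm <;> simp only [Finset.mem_insert, Finset.mem_singleton] at hm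
        · rcases hm with hm | hm
          exacts [nb ((show b = _ from hm) ▸ m1), nb ((show b = _ from hm) ▸ hs)]
        · rcases hm with hm | hm
          · have := hq.inj j (by omega) _ hi' hm
            omega
          · exact hn j (by omega) hm.symm
      · simp only [Finset.mem_insert, Finset.mem_singleton]
        rintro (hm | hm)
        exacts [nl (hm ▸ m1), nl (hm ▸ hs)]
      · simp only [Finset.mem_insert, Finset.mem_singleton]
        rintro (hm | hm)
        exacts [ng' (hm ▸ m1), ng' (hm ▸ hs)]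
  have hc : ∀ i < m, (q i * q (i + 1)) ^ 3 = 1 := by
    intro i hi
    by_contra hc
    have m1 := qS (i + 1) (by omega) hi
    refine fk (i + 1) (by omega) {q (i + 1)} (h.br_leaf4 (hq.mem i hi.le) (hq.mem _ hi)
      (hq.adj i hi) hc) ?_ ?_ ?_
    · rintro (_ | j) hj hm <;> simp only [Finset.mem_singleton] at hm
      · exact nb ((show b = _ from hm) ▸ m1)
      · have := hq.inj j (by omega) _ hi hm
        omega
    · simp only [Finset.mem_singleton]
      exact fun hm => nl (hm ▸ m1)
    · simp only [Finset.mem_singleton]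
      exact fun hm => ng' (hm ▸ m1)
  refine ⟨q, m, hq, q0, qS, ha, fun i hi => h.path_comm pg (i := 0) (j := i + 2) (by omega)
    (by omega), hc, ?_, ?_⟩
  · by_contra hc
    refine fk 0 (by omega) {g} (h.br_leaf4 hb hg ag hc) ?_ (by simpa using lg)
      (by simpa using gg'.symm)
    intro j hj
    obtain rfl : j = 0 := by omega
    simpa using ne_of_adj ag
  · have sq : ∀ i ≤ m, q i * q i = 1 := fun i hi => hsq _ (hq.mem i hi)
    have c1 : ∀ i j, i + 2 ≤ j → j ≤ m → Commute (q j) (armC q i) := fun i j h1 h2 =>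
      armC_comm i fun k hk => (h.path_comm hq (by omega) h2).symm
    have c2 : ∀ j i, j + 2 ≤ i → i ≤ m → Commute (q (j + 1)) (armC q i) := by
      intro j i h1
      induction i, h1 using Nat.le_induction with
      | base =>
        intro h2
        have br := braid_of_cube (sq _ (by omega)) (sq _ h2) (hc (j + 1) h2)
        have cm := (c1 j (j + 2) le_rfl h2).eq
        have s1 := sq (j + 1) (by omega)
        have s2 := sq (j + 2) h2
        change q (j + 1) * (q (j + 2) * (q (j + 1) * armC q j * q (j + 1)) * q (j + 2)) =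
          q (j + 2) * (q (j + 1) * armC q j * q (j + 1)) * q (j + 2) * q (j + 1)
        change q (j + 1) * q (j + 2) * q (j + 1) = q (j + 2) * q (j + 1) * q (j + 2) at br
        generalize q (j + 1) = a at *
        generalize q (j + 2) = b at *
        generalize armC q j = c at *
        calc a * (b * (a * c * a) * b) = (a * b * a) * c * (a * b) := by simp only [mul_assoc]
          _ = b * a * (b * c) * (a * b) := by rw [br]; simp only [mul_assoc]
          _ = b * a * c * (b * a * b) := by rw [cm]; simp only [mul_assoc]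
          _ = b * (a * c * a) * b * a := by rw [← br]; simp only [mul_assoc]
      | succ i hi ih =>
        intro h2
        have := h.path_comm hq (i := j + 1) (j := i + 1) (by omega) h2
        exact (this.mul_right (ih (by omega))).mul_right this
    have cj : ∀ s c : G, s * s = 1 → Commute s c → s * c * s = c := fun s c h1 h2 => by
      rw [h2.eq, mul_assoc, h1, mul_one]
    have step : ∀ s ∈ S', ∀ i ≤ m, ∃ j ≤ m, s * armC q i * s = armC q j := by
      intro s hs i hi
      by_cases hn : ∀ i ≤ m, s ≠ q i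
      · exact ⟨i, hi, cj _ _ (hsq s (hS' hs)) (armC_comm i fun j hj => ha s hs hn j (by omega))⟩
      · push Not at hn
        obtain ⟨j, hj, rfl⟩ := hn
        rcases j with _ | j
        · exact absurd (q0 ▸ hs) ng
        rcases lt_trichotomy i j with h1 | rfl | h1
        · exact ⟨i, hi, cj _ _ (sq _ hj) (c1 i _ (by omega) hj)⟩
        · exact ⟨i + 1, hj, rfl⟩
        · rcases (show j + 1 ≤ i from h1).eq_or_lt with rfl | h2
          · refine ⟨j, by omega, ?_⟩
            change q (j + 1) * (q (j + 1) * armC q j * q (j + 1)) * q (j + 1) = _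
            simp only [← mul_assoc, sq _ hj, one_mul]
            rw [mul_assoc, sq _ hj, mul_one]
          · exact ⟨i, hi, cj _ _ (sq _ hj) (c2 j i h2 hi)⟩
    intro γ hγ
    induction hγ using Subgroup.closure_induction_left with
    | one => exact ⟨0, by omega, by simp [armC, q0]⟩
    | mul_left x hx y _ ih =>
      obtain ⟨i, hi, he⟩ := ih
      obtain ⟨j, hj, he'⟩ := step x hx i hi
      refine ⟨j, hj, ?_⟩
      rw [← he', ← he, mul_inv_rev, inv_eq_of_sq (hsq x (hS' hx))]
      simp only [mul_assoc]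
    | inv_mul_cancel x hx y _ ih =>
      obtain ⟨i, hi, he⟩ := ih
      obtain ⟨j, hj, he'⟩ := step x hx i hi
      refine ⟨j, hj, ?_⟩
      rw [← he', ← he, mul_inv_rev, inv_inv, inv_eq_of_sq (hsq x (hS' hx))]
      simp only [mul_assoc]

end Pool.Agent.FlagOrb
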