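import Mathlib

/-! Flag systems: basic definitions. -/

namespace Pool.Agent.FlagOrb

open Equiv Set

section Grp

variable {G : Type} [Group G]

/-- The subgroup generated by the `t c`, `c ∈ I`. -/
def W (t : ℕ → G) (I : Set ℕ) : Subgroup G := Subgroup.closure (t '' I)

variable {t : ℕ → G} {I J : Set ℕ}

lemma W_gen {c : ℕ} (h : c ∈ I) : t c ∈ W t I := Subgroup.subset_closure ⟨c, h, rfl⟩

lemma W_mono (h : I ⊆ J) : W t I ≤ W t J := Subgroup.closure_mono (image_mono h)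

lemma W_le {H : Subgroup G} (h : ∀ c ∈ I, t c ∈ H) : W t I ≤ H := by
  rw [W, Subgroup.closure_le]
  rintro _ ⟨c, hc, rfl⟩
  exact h c hc

lemma inv_eq_of_sq {g : G} (h : g * g = 1) : g⁻¹ = g := inv_eq_of_mul_eq_one_right h

lemma W_ind (hinv : ∀ c ∈ I, t c * t c = 1) {P : G → Prop} (h1 : P 1)
    (hs : ∀ g c, c ∈ I → g ∈ W t I → P g → P (t c * g)) : ∀ g ∈ W t I, P g := by
  intro g hg
  induction hg using Subgroup.closure_induction_left with
  | one => exact h1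
  | mul_left x hx y hy ih =>
    obtain ⟨c, hc, rfl⟩ := hx
    exact hs y c hc hy ih
  | inv_mul_cancel x hx y hy ih =>
    obtain ⟨c, hc, rfl⟩ := hx
    rw [inv_eq_of_sq (hinv c hc)]
    exact hs y c hc hy ih

lemma W_comm {z : G} (h : ∀ c ∈ I, Commute z (t c)) {g : G} (hg : g ∈ W t I) : Commute z g := by
  have : W t I ≤ Subgroup.centralizer {z} := by
    apply W_le
    intro c hc
    rw [Subgroup.mem_centralizer_iff]
    rintro _ rfl
    exact h c hc
  have h2 := this hg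
  rw [Subgroup.mem_centralizer_iff] at h2
  exact h2 z rfl

lemma W_comm2 (h : ∀ c ∈ I, ∀ c' ∈ J, Commute (t c) (t c')) {g k : G} (hg : g ∈ W t I)
    (hk : k ∈ W t J) : Commute g k :=
  W_comm (fun c' hc' => (W_comm (fun c hc => (h c hc c' hc').symm) hg).symm) hk

lemma W_empty {g : G} (hg : g ∈ W t ∅) : g = 1 := by
  simpa [W] using hg

/-- two fixed-point-free style palindrome lemma, group form -/
lemma mul_pow_conj (a b : G) (ha : a * a = 1) (m : ℕ) :
    a * (a * b) ^ m * a = (b * a) ^ m := by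
  have : b * a = a * (a * b) * a⁻¹ := by
    rw [← mul_assoc a a b, ha, one_mul, inv_eq_of_sq ha]
  rw [this, conj_pow, inv_eq_of_sq ha]

end Grp

section Act

variable {X : Type} {t : ℕ → Perm X} {I J : Set ℕ} {x y z : X}

/-- `y` is reached from `x` by the moves with colours in `I`. -/
def Rch (t : ℕ → Perm X) (I : Set ℕ) (x y : X) : Prop := ∃ g ∈ W t I, g x = y

lemma Rch.refl (x : X) : Rch t I x x := ⟨1, one_mem _, rfl⟩

lemma Rch.symm (h : Rch t I x y) : Rch t I y x := by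
  obtain ⟨g, hg, rfl⟩ := h
  exact ⟨g⁻¹, inv_mem hg, by simp⟩

lemma Rch.trans (h : Rch t I x y) (h' : Rch t I y z) : Rch t I x z := by
  obtain ⟨g, hg, rfl⟩ := h
  obtain ⟨k, hk, rfl⟩ := h'
  exact ⟨k * g, mul_mem hk hg, rfl⟩

lemma Rch.step {c : ℕ} (hc : c ∈ I) (x : X) : Rch t I x (t c x) := ⟨t c, W_gen hc, rfl⟩

lemma Rch.next (h : Rch t I x y) {c : ℕ} (hc : c ∈ I) : Rch t I x (t c y) :=
  h.trans (Rch.step hc y)

lemma Rch.mono (h : Rch t I x y) (hIJ : I ⊆ J) : Rch t J x y := by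
  obtain ⟨g, hg, rfl⟩ := h
  exact ⟨g, W_mono hIJ hg, rfl⟩

lemma Rch.ind (hinv : ∀ c ∈ I, t c * t c = 1) {P : X → Prop} (h0 : P x)
    (hs : ∀ y c, c ∈ I → Rch t I x y → P y → P (t c y)) (h : Rch t I x y) : P y := by
  obtain ⟨g, hg, rfl⟩ := h
  exact W_ind hinv (P := fun g => P (g x)) h0
    (fun g c hc hg ih => hs (g x) c hc ⟨g, hg, rfl⟩ ih) g hg

lemma Rch.map {g : Perm X} (hg : ∀ c ∈ I, Commute g (t c)) (h : Rch t I x y) :
    Rch t I (g x) (g y) := by
  obtain ⟨k, hk, rfl⟩ := h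
  exact ⟨k, hk, by rw [← Perm.mul_apply, ← (W_comm hg hk).eq, Perm.mul_apply]⟩

lemma Rch.eq_of_empty (h : Rch t ∅ x y) : x = y := by
  obtain ⟨g, hg, rfl⟩ := h
  rw [W_empty hg]; rfl

lemma invol_apply {a : Perm X} (ha : a * a = 1) (x : X) : a (a x) = x := by
  rw [← Perm.mul_apply, ha]; rfl

/-- palindrome lemma -/
lemma pal (m : ℕ) : ∀ (a b : Perm X), a * a = 1 → b * b = 1 → (∀ x, a x ≠ x) → (∀ x, b x ≠ x) →
    ∀ x, ((a * b) ^ m) x ≠ a x := by
  induction m with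
  | zero => intro a b _ _ ha _ x h; exact ha x h.symm
  | succ m ih =>
    intro a b ha hb fa fb x h
    apply ih b a hb ha fb fa (b x)
    have h1 : (a * b) ^ (m + 1) = a * (b * a) ^ m * b := by
      rw [← mul_pow_conj a b ha m, pow_succ]
      simp only [← mul_assoc, ha, one_mul]
    rw [h1] at h
    simp only [Perm.mul_apply] at h
    rw [invol_apply hb]
    exact a.injective h

end Act

/-- Simple connectivity of the system of moves with colours in `[a, b)`. -/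
def SC {F : Type} (r : ℕ → Perm F) (a b : ℕ) : Prop :=
  ∀ (Y : Type) (R : ℕ → Perm Y) (π : Y → F),
    (∀ c ∈ Ico a b, R c * R c = 1) →
    (∀ c ∈ Ico a b, ∀ y, π (R c y) = r c (π y)) →
    (∀ c ∈ Ico a b, ∀ c' ∈ Ico a b, ∀ (y : Y) (m : ℕ),
      ((r c * r c') ^ m) (π y) = π y → ((R c * R c') ^ m) y = y) →
    ∀ y y', Rch R (Ico a b) y y' → π y = π y' → y = y'

/-- A polytopal flag system of rank `n`. -/
structure PS {F L : Type} [Lattice L] (n : ℕ) (r : ℕ → Perm F) (φ : ℕ → F → L) : Prop where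
  inv : ∀ c, r c * r c = 1
  comm : ∀ c c', c + 2 ≤ c' → Commute (r c) (r c')
  triv : ∀ c, n ≤ c → r c = 1
  lt : ∀ i x, i ≤ n → φ i x < φ (i + 1) x
  same : ∀ c i x, i ≠ c + 1 → φ i (r c x) = φ i x
  meet : ∀ c x, c < n → φ (c + 1) (r c x) ⊓ φ (c + 1) x = φ c x
  join : ∀ c x, c < n → φ (c + 1) (r c x) ⊔ φ (c + 1) x = φ (c + 2) x
  conn : ∀ a b x y, a ≤ b → b ≤ n → (∀ i ≤ a, φ i x = φ i y) →
    (∀ i, b + 1 ≤ i → i ≤ n + 1 → φ i x = φ i y) → Rch r (Ico a b) x y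
  bot : ∀ x y, φ 0 x = φ 0 y
  top : ∀ x y, φ (n + 1) x = φ (n + 1) y
  sc : ∀ a b, b ≤ n → SC r a b

/-- The automorphisms of the flag system. -/
def Aut {F : Type} (r : ℕ → Perm F) : Subgroup (Perm F) where
  carrier := {g | ∀ c, Commute g (r c)}
  mul_mem' := fun ha hb c => (ha c).mul_left (hb c)
  one_mem' := fun c => Commute.one_left _
  inv_mem' := fun ha c => (ha c).inv_left

/-- Same type. -/
def Eqv {F : Type} (r : ℕ → Perm F) (x y : F) : Prop := ∃ g ∈ Aut r, g x = y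

section

variable {F : Type} {r : ℕ → Perm F}

lemma Aut.app {g : Perm F} (hg : g ∈ Aut r) (c : ℕ) (x : F) : g (r c x) = r c (g x) := by
  rw [← Perm.mul_apply, (hg c).eq, Perm.mul_apply]

lemma Aut.commW {g k : Perm F} (hg : g ∈ Aut r) {I : Set ℕ} (hk : k ∈ W r I) : Commute g k :=
  W_comm (fun c _ => hg c) hk

lemma Aut.appW {g k : Perm F} (hg : g ∈ Aut r) {I : Set ℕ} (hk : k ∈ W r I) (x : F) :
    g (k x) = k (g x) := by
  rw [← Perm.mul_apply, (Aut.commW hg hk).eq, Perm.mul_apply]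

lemma Aut.rch {g : Perm F} (hg : g ∈ Aut r) {I : Set ℕ} {x y : F} (h : Rch r I x y) :
    Rch r I (g x) (g y) := h.map fun c _ => hg c

lemma Eqv.refl (x : F) : Eqv r x x := ⟨1, one_mem _, rfl⟩

lemma Eqv.symm {x y : F} (h : Eqv r x y) : Eqv r y x := by
  obtain ⟨g, hg, rfl⟩ := h
  exact ⟨g⁻¹, inv_mem hg, by simp⟩

lemma Eqv.trans {x y z : F} (h : Eqv r x y) (h' : Eqv r y z) : Eqv r x z := by
  obtain ⟨g, hg, rfl⟩ := h
  obtain ⟨k, hk, rfl⟩ := h'
  exact ⟨k * g, mul_mem hk hg, rfl⟩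

lemma Eqv.map {x y : F} (h : Eqv r x y) {I : Set ℕ} {k : Perm F} (hk : k ∈ W r I) :
    Eqv r (k x) (k y) := by
  obtain ⟨g, hg, rfl⟩ := h
  exact ⟨g, hg, Aut.appW hg hk x⟩

lemma Eqv.step {x y : F} (h : Eqv r x y) (c : ℕ) : Eqv r (r c x) (r c y) :=
  h.map (I := univ) (W_gen (mem_univ c))

/-- The setoid of types. -/
def tySetoid (r : ℕ → Perm F) : Setoid F := ⟨Eqv r, Eqv.refl, Eqv.symm, Eqv.trans⟩

end

namespace PS

variable {F L : Type} [Lattice L] {n : ℕ} {r : ℕ → Perm F} {φ : ℕ → F → L} (h : PS n r φ)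
include h

lemma rr (c : ℕ) (x : F) : r c (r c x) = x := invol_apply (h.inv c) x

lemma capp {c c' : ℕ} (hc : c + 2 ≤ c') (x : F) : r c (r c' x) = r c' (r c x) := by
  rw [← Perm.mul_apply, (h.comm c c' hc).eq, Perm.mul_apply]

lemma all (x y : F) : Rch r (Ico 0 n) x y := by
  apply h.conn 0 n x y (Nat.zero_le _) le_rfl
  · intro i hi
    obtain rfl : i = 0 := by omega
    exact h.bot x y
  · intro i h1 h2
    obtain rfl : i = n + 1 := by omega
    exact h.top x y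

lemma free {g : Perm F} (hg : g ∈ Aut r) {x : F} (hx : g x = x) : g = 1 := by
  ext y
  obtain ⟨k, hk, rfl⟩ := h.all x y
  rw [Aut.appW hg hk, hx]; rfl

lemma aut_ext {g k : Perm F} (hg : g ∈ Aut r) (hk : k ∈ Aut r) {x : F} (hx : g x = k x) :
    g = k := by
  have := h.free (mul_mem (inv_mem hk) hg) (x := x) (by simp [hx])
  rwa [inv_mul_eq_one, eq_comm] at this

lemma sameR {I : Set ℕ} {x y : F} (hr : Rch r I x y) {i : ℕ} (hi : ∀ c ∈ I, i ≠ c + 1) :
    φ i y = φ i x :=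
  hr.ind (fun c _ => h.inv c) (P := fun y => φ i y = φ i x) rfl
    fun y c hc _ ih => (h.same c i y (hi c hc)).trans ih

lemma mono {i j : ℕ} (hij : i ≤ j) (hj : j ≤ n + 1) (x : F) : φ i x ≤ φ j x := by
  induction j, hij using Nat.le_induction with
  | base => exact le_rfl
  | succ j _ ih => exact (ih (by omega)).trans (h.lt j x (by omega)).le

lemma ne_face {c : ℕ} (hc : c < n) (x : F) : φ (c + 1) (r c x) ≠ φ (c + 1) x := by
  intro he
  have := h.meet c x hc
  rw [he, inf_idem] at this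
  exact (h.lt c x hc.le).ne' this

lemma fpf {c : ℕ} (hc : c < n) (x : F) : r c x ≠ x := fun he => h.ne_face hc x (by rw [he])

lemma ne_col {c c' : ℕ} (hc : c < n) (hcc : c ≠ c') (x : F) : r c x ≠ r c' x := by
  intro he
  apply h.ne_face hc x
  rw [he]
  exact h.same c' (c + 1) x (by omega)

lemma not_comm {c : ℕ} (hc : c + 1 < n) (x : F) : r c (r (c + 1) x) ≠ r (c + 1) (r c x) := by
  intro he
  have h1 := h.join c (r (c + 1) x) (by omega)
  rw [he, h.same (c + 1) (c + 1) _ (by omega), h.same (c + 1) (c + 1) _ (by omega),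
    h.join c x (by omega)] at h1
  exact h.ne_face hc x h1.symm

lemma eq_of_faces {x y : F} (hf : ∀ i ≤ n + 1, φ i x = φ i y) : x = y := by
  have := h.conn n n x y le_rfl le_rfl (fun i hi => hf i (by omega)) (fun i _ hi => hf i hi)
  rw [Ico_self] at this
  exact this.eq_of_empty

end PS

end Pool.Agent.FlagOrb
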