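import Pool.Agent.Lib.MP_7157e1_co.FoType

/-! Sections with constant periods: the affine obstructions. -/

namespace Pool.Agent.FlagOrb

open Equiv Set Real

namespace PS

variable {F L : Type} [Lattice L] {n : ℕ} {r : ℕ → Perm F} {φ : ℕ → F → L} (h : PS n r φ)
include h

lemma cos3 [Finite F] {l : ℕ} (hl : l + 1 < n) (x : F) : 1 / 2 ≤ cos (π / (per r l x : ℝ)) :=
  cos_ge3 (Or.inr (h.per_ge hl x))

theorem E2 [Finite F] {j : ℕ} (hk : j + 3 ≤ n) (x : F)
    (hc : ∀ y, Rch r (Ico j (j + 3)) x y → ∀ i, i + 1 < 3 → per r (j + i) y = per r (j + i) x) :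
    per r j x = 3 ∨ per r (j + 1) x = 3 := by
  by_contra hcon
  push Not at hcon
  have a0 := cos_ge4 (m := per r j x) (by have := h.per_ge (l := j) (by omega) x; omega)
  have a1 := cos_ge4 (m := per r (j + 1) x)
    (by have := h.per_ge (l := j + 1) (by omega) x; omega)
  have s2 : √2 * √2 = 2 := Real.mul_self_sqrt (by norm_num)
  have s0 : 0 < √2 := by positivity
  obtain ⟨a, -, ha⟩ := h.const_gram hk x hc ![1, √2, 1]
    (fun a => by fin_cases a <;> simp) (fun he => by simpa using congrFun he 0)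
  fin_cases a <;> simp [Fin.sum_univ_succ] at ha <;> nlinarith

theorem E3 [Finite F] {j : ℕ} (hk : j + 4 ≤ n) (x : F)
    (hc : ∀ y, Rch r (Ico j (j + 4)) x y → ∀ i, i + 1 < 4 → per r (j + i) y = per r (j + i) x) :
    per r j x = 3 ∨ per r (j + 2) x = 3 := by
  by_contra hcon
  push Not at hcon
  have a0 := cos_ge4 (m := per r j x) (by have := h.per_ge (l := j) (by omega) x; omega)
  have a1 := h.cos3 (l := j + 1) (by omega) x
  have a2 := cos_ge4 (m := per r (j + 2) x)
    (by have := h.per_ge (l := j + 2) (by omega) x; omega)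
  have s2 : √2 * √2 = 2 := Real.mul_self_sqrt (by norm_num)
  have s0 : 0 < √2 := by positivity
  obtain ⟨a, -, ha⟩ := h.const_gram hk x hc ![1, √2, √2, 1]
    (fun a => by fin_cases a <;> simp) (fun he => by simpa using congrFun he 0)
  fin_cases a <;> simp [Fin.sum_univ_succ] at ha <;> nlinarith

theorem E4 [Finite F] {j : ℕ} (hk : j + 5 ≤ n) (x : F)
    (hc : ∀ y, Rch r (Ico j (j + 5)) x y → ∀ i, i + 1 < 5 → per r (j + i) y = per r (j + i) x) :
    per r (j + 1) x = 3 ∧ per r (j + 2) x = 3 := by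
  have s2 : √2 * √2 = 2 := Real.mul_self_sqrt (by norm_num)
  have s0 : 0 < √2 := by positivity
  have a0 := h.cos3 (l := j) (by omega) x
  have a1 := h.cos3 (l := j + 1) (by omega) x
  have a2 := h.cos3 (l := j + 2) (by omega) x
  have a3 := h.cos3 (l := j + 3) (by omega) x
  constructor
  · by_contra hcon
    have b := cos_ge4 (m := per r (j + 1) x)
      (by have := h.per_ge (l := j + 1) (by omega) x; omega)
    obtain ⟨a, -, ha⟩ := h.const_gram hk x hc ![√2, 2 * √2, 3, 2, 1]
      (fun a => by fin_cases a <;> simp) (fun he => by simpa using congrFun he 4)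
    fin_cases a <;> simp [Fin.sum_univ_succ] at ha <;> nlinarith
  · by_contra hcon
    have b := cos_ge4 (m := per r (j + 2) x)
      (by have := h.per_ge (l := j + 2) (by omega) x; omega)
    obtain ⟨a, -, ha⟩ := h.const_gram hk x hc ![1, 2, 3, 2 * √2, √2]
      (fun a => by fin_cases a <;> simp) (fun he => by simpa using congrFun he 0)
    fin_cases a <;> simp [Fin.sum_univ_succ] at ha <;> nlinarith

end PS

end Pool.Agent.FlagOrb
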