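import Pool.Agent.Lib.MP_7157e1_co.FoStr1

/-! The length of a good string is less than the size of the orbit, with three exceptions. -/

namespace Pool.Agent.FlagOrb

open Equiv Set

/-- conclusion of the string theorem -/
def Concl {X : Type} (t : ℕ → Perm X) (a b : ℕ) (x0 : X) : Prop :=
  b - a + 1 ≤ (orb t (Ico a b) x0).ncard ∨ (b - a = (orb t (Ico a b) x0).ncard ∧
    ((orb t (Ico a b) x0).ncard = 3 ∨ (orb t (Ico a b) x0).ncard = 4 ∨
      (orb t (Ico a b) x0).ncard = 6) ∧ NoC t a b x0 ∧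
    ((orb t (Ico a b) x0).ncard = 6 → ∀ c ∈ Ico a b, ∀ y ∈ orb t (Ico a b) x0, t c y ≠ y))

section

variable {X : Type} {n : ℕ} {t : ℕ → Perm X} {p : ℕ → X → ℕ} {a b : ℕ} {x0 : X}

lemma Str.far (hS : Str n t p) (a b c : ℕ) :
    ∀ i ∈ Ico a c, ∀ j ∈ Ico (c + 1) b, Commute (t i) (t j) := fun i hi j hj =>
  hS.comm i j (by have := hi.2; have := hj.1; omega)

lemma gd_left (hS : Str n t p) (hG : Gd t a b x0) {c : ℕ} (hc : c ∈ Ico a b)
    (hT : Tr t a b x0 (Ico a c ∪ Ico (c + 1) b)) : Gd t a c x0 := by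
  have hI : Ico a c ⊆ Ico a b := Ico_subset_Ico_right hc.2.le
  refine ⟨fun g hg hf => two_faith hS hG hI (hS.far a b c) hT hg hf, fun i hi => hG.nt i (hI hi),
    fun z h1 h2 => hG.H z ?_ fun l => W_mono (sdiff_subset_sdiff_left hI) (h2 l)⟩
  intro i hi
  by_cases hic : i < c
  · exact h1 i ⟨hi.1, hic⟩
  · refine (W_comm (fun j hj => (hS.comm j i ?_).symm) (h2 c)).symm
    simp only [Dl, mem_sdiff, mem_Ico, mem_ofPred_eq] at hj
    omega

lemma gd_right (hS : Str n t p) (hG : Gd t a b x0) {c : ℕ} (hc : a < c)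
    (hT : Tr t a b x0 (Ico a c ∪ Ico (c + 1) b)) : Gd t (c + 1) b x0 := by
  have hI : Ico (c + 1) b ⊆ Ico a b := Ico_subset_Ico_left (by omega)
  refine ⟨fun g hg hf => two_faith hS hG hI (fun i hi j hj => (hS.far a b c j hj i hi).symm)
    (union_comm _ _ ▸ hT) hg hf, fun i hi => hG.nt i (hI hi),
    fun z h1 h2 => hG.H z ?_ fun l => W_mono (sdiff_subset_sdiff_left hI) (h2 l)⟩
  intro i hi
  by_cases hic : c + 1 ≤ i
  · exact h1 i ⟨hic, hi.2⟩
  · refine (W_comm (fun j hj => hS.comm i j ?_) (h2 (c - 1))).symm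
    simp only [Dl, mem_sdiff, mem_Ico, mem_ofPred_eq] at hj
    omega

lemma rch_single (hS : Str n t p) {c : ℕ} {y w : X} (h : Rch t {c} y w) : w = y ∨ w = t c y := by
  obtain ⟨g, hg, rfl⟩ := h
  rcases W_single (hS.inv c) hg with rfl | rfl
  exacts [Or.inl rfl, Or.inr rfl]

lemma Gd.diff (hG : Gd t a b x0) {c c' : ℕ} (hc : c ∈ Ico a b) (hc' : c' ∈ Ico a b)
    (hne : t c ≠ t c') : ∃ y ∈ orb t (Ico a b) x0, t c y ≠ t c' y := by
  by_contra hcon
  push Not at hcon
  apply hne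
  have := hG.faith _ (mul_mem (inv_mem (W_gen hc')) (W_gen hc)) fun y hy => by
    rw [Perm.mul_apply, hcon y hy]; simp
  exact (inv_mul_eq_one.1 this).symm

variable [Finite X]

lemma one_drop (hG : Gd t a b x0) {c : ℕ} (hc : c ∈ Ico a b) :
    no t {c} (orb t (Ico a b) x0) < (orb t (Ico a b) x0).ncard := by
  have : ∃ y ∈ orb t (Ico a b) x0, t c y ≠ y := by
    by_contra hcon
    push Not at hcon
    exact hG.nt c hc (hG.faith _ (W_gen hc) hcon)
  obtain ⟨y, hy, hn⟩ := this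
  rw [← no_empty (t := t)]
  exact no_step hc rfl (empty_subset _) hy fun h => hn h.eq_of_empty.symm

lemma two_drop (hS : Str n t p) (hG : Gd t a b x0) {c c' : ℕ} (hc : c ∈ Ico a b)
    (hc' : c' ∈ Ico a b) (hne : t c ≠ t c') :
    no t {c, c'} (orb t (Ico a b) x0) + 2 ≤ (orb t (Ico a b) x0).ncard := by
  by_cases h : ∃ y ∈ orb t (Ico a b) x0, ¬ Rch t {c} y (t c' y)
  · obtain ⟨y, hy, hn⟩ := h
    have := no_step (J := {c, c'}) hc' (by simp) (by simp) hy hn
    have := one_drop hG hc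
    omega
  · push Not at h
    obtain ⟨y, hy, hn⟩ := hG.diff hc hc' hne
    have h1 : t c' y = y := (rch_single hS (h y hy)).resolve_right hn.symm
    have := no_step (I := {c'}) (J := {c, c'}) hc (by simp) (by simp) hy fun hr => by
      rcases rch_single hS hr with h2 | h2
      · exact hn (h2.trans h1.symm)
      · exact hn h2
    have := one_drop hG hc'
    omega

lemma small (hS : Str n t p) (hG : Gd t a b x0) (h2 : (orb t (Ico a b) x0).ncard ≤ 2) :
    b - a + 1 ≤ (orb t (Ico a b) x0).ncard := by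
  have p0 : ∀ I, 1 ≤ no t I (orb t (Ico a b) x0) := fun I => no_pos orb_self
  have p1 := p0 ∅
  rw [no_empty] at p1
  by_cases h0 : b ≤ a
  · omega
  have := one_drop hG (c := a) ⟨le_rfl, by omega⟩
  have := p0 {a}
  by_cases h1 : b ≤ a + 1
  · omega
  have m1 : a ∈ Ico a b := ⟨le_rfl, by omega⟩
  have m2 : a + 1 ∈ Ico a b := ⟨by omega, by omega⟩
  have := two_drop hS hG m1 m2 (hG.ne hS m1 m2 (Or.inl rfl))
  have := p0 {a, a + 1}
  omega

lemma three_noc (hS : Str n t p) (hG : Gd t a b x0) (hab : a < b)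
    (h3 : (orb t (Ico a b) x0).ncard = 3) : NoC t a b x0 := by
  intro z hz hz0
  by_contra hne
  have m : a ∈ Ico a b := ⟨le_rfl, hab⟩
  have zO : MapsTo z (orb t (Ico a b) x0) (orb t (Ico a b) x0) := fun y hy =>
    Rch.trans hz0 (Rch.map hz hy)
  have zf : ∀ y ∈ orb t (Ico a b) x0, z y ≠ y := fun y hy he =>
    hne (cent_fpf hz (fun y hy => hy) hy he x0 orb_self)
  obtain ⟨y, hy, hn⟩ : ∃ y ∈ orb t (Ico a b) x0, t a y ≠ y := by
    by_contra hcon
    push Not at hcon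
    exact hG.nt a m (hG.faith _ (W_gen m) hcon)
  have tO := orb_closed (x0 := x0) (W_gen (t := t) m)
  obtain ⟨w, hw, hw'⟩ := Set.exists_mem_notMem_of_ncard_lt_ncard (s := {y, t a y})
    (t := orb t (Ico a b) x0) (by rw [h3, Set.ncard_pair hn.symm]; omega)
  simp only [mem_insert_iff, mem_singleton_iff, not_or] at hw'
  have hO : ({w, y, t a y} : Set X) = orb t (Ico a b) x0 := by
    apply Set.eq_of_subset_of_ncard_le
    · rintro _ (rfl | rfl | rfl)
      exacts [hw, hy, tO hy]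
    · rw [h3, Set.ncard_insert_of_notMem (by simpa using hw'), Set.ncard_pair hn.symm]
    · exact toFinite _
  have fx : ∀ v ∈ orb t (Ico a b) x0, t a v = v → v = w := by
    intro v hv he
    rw [← hO] at hv
    rcases hv with rfl | rfl | rfl
    · rfl
    · exact absurd he hn
    · exact absurd ((t a).injective he) hn
  have tw : t a w = w := by
    have := tO hw
    rw [← hO] at this
    rcases this with h | h | h
    · exact h
    · exact absurd (by rw [← h, invol_apply (hS.inv a)]) hw'.2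
    · exact absurd ((t a).injective h) hw'.1
  exact zf w hw (fx _ (zO hw) (by rw [← Perm.mul_apply, ← (hz a m).eq, Perm.mul_apply, tw]))

lemma caseII (hS : Str n t p) (hG : Gd t a b x0) {c : ℕ} (hc : c ∈ Ico a b)
    (hT : Tr t a b x0 (Ico a c ∪ Ico (c + 1) b)) (h1 : ¬ Tr t a b x0 (Ico a c))
    (h2 : ¬ Tr t a b x0 (Ico (c + 1) b)) (iL : Concl t a c x0) (iR : Concl t (c + 1) b x0) :
    b - a + 1 ≤ (orb t (Ico a b) x0).ncard := by
  have hI : Ico a c ⊆ Ico a b := Ico_subset_Ico_right hc.2.le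
  have hJ : Ico (c + 1) b ⊆ Ico a b := Ico_subset_Ico_left (by have := hc.1; omega)
  have f1 := hS.far a b c
  have f2 : ∀ i ∈ Ico (c + 1) b, ∀ j ∈ Ico a c, Commute (t i) (t j) :=
    fun i hi j hj => (f1 j hj i hi).symm
  have e1 := two_mul hS hI f1 hT
  have e2 := two_mul hS hJ f2 (union_comm _ _ ▸ hT)
  have b2 := no_ge_two hI h1
  have a2 := no_ge_two hJ h2
  have c1 := two_cent (x0 := x0) hI f1
  have c2 := two_cent (x0 := x0) hJ f2
  have hac : a < c := by
    by_contra hh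
    apply h2
    rwa [Ico_eq_empty hh, empty_union] at hT
  have hcb : c + 1 < b := by
    by_contra hh
    apply h1
    rwa [Ico_eq_empty hh, union_empty] at hT
  have iL' : c - a + 1 ≤ (orb t (Ico a c) x0).ncard ∨ (c - a = (orb t (Ico a c) x0).ncard ∧
      3 ≤ (orb t (Ico a c) x0).ncard ∧
      (orb t (Ico a c) x0).ncard ≤ no t (Ico (c + 1) b) (orb t (Ico a b) x0)) := by
    rcases iL with h | ⟨h, h', h'', -⟩
    · exact Or.inl h
    · refine Or.inr ⟨h, by omega, ?_⟩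
      by_contra hh
      obtain ⟨z, z1, z2, z3⟩ := c1 (not_le.1 hh)
      exact z3 (h'' z z1 z2)
  have iR' : b - (c + 1) + 1 ≤ (orb t (Ico (c + 1) b) x0).ncard ∨
      (b - (c + 1) = (orb t (Ico (c + 1) b) x0).ncard ∧ 3 ≤ (orb t (Ico (c + 1) b) x0).ncard ∧
      (orb t (Ico (c + 1) b) x0).ncard ≤ no t (Ico a c) (orb t (Ico a b) x0)) := by
    rcases iR with h | ⟨h, h', h'', -⟩
    · exact Or.inl h
    · refine Or.inr ⟨h, by omega, ?_⟩
      by_contra hh
      obtain ⟨z, z1, z2, z3⟩ := c2 (not_le.1 hh)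
      exact z3 (h'' z z1 z2)
  generalize (orb t (Ico a b) x0).ncard = s at *
  generalize (orb t (Ico a c) x0).ncard = β at *
  generalize (orb t (Ico (c + 1) b) x0).ncard = δ at *
  generalize no t (Ico a c) (orb t (Ico a b) x0) = B at *
  generalize no t (Ico (c + 1) b) (orb t (Ico a b) x0) = A at *
  have q1 : 2 * β ≤ s := by nlinarith
  have q2 : 2 * δ ≤ s := by nlinarith
  have q3 : 3 ≤ B → 3 * β ≤ s := fun _ => by nlinarith
  have q4 : 3 ≤ A → 3 * δ ≤ s := fun _ => by nlinarith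
  rcases iL' with h | ⟨h, h', h''⟩ <;> rcases iR' with k | ⟨k, k', k''⟩
  · omega
  · have hβ : 2 ≤ β := by omega
    have : β + δ + 1 ≤ s := by nlinarith
    omega
  · have hδ : 2 ≤ δ := by omega
    have : β + δ + 1 ≤ s := by nlinarith
    omega
  · have := q3 (by omega)
    have := q4 (by omega)
    omega

lemma arithI {a b d e hL hR s o o1 o2 : ℕ} (hd : a ≤ d) (hde : d ≤ e) (he : e ≤ b)
    (l2 : 1 ≤ d - 1 - a → 2 ∣ hL) (l3 : 2 * (d - 1 - a) ≤ hL) (r2 : 1 ≤ b - (e + 1) → 2 ∣ hR)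
    (r3 : 2 * (b - (e + 1)) ≤ hR) (h3 : 3 ≤ s) (ch : e - d + 1 ≤ o) (n0 : o ≤ s)
    (n2 : a < d → e < b → a + 5 ≤ b → o + 2 ≤ s) (n1a : a < d → o < s) (n1b : e < b → o < s)
    (oL : 1 ≤ d - 1 - a → 2 ≤ o1) (l1 : s = hL * o1) (nL : o ≤ o1)
    (oR : 1 ≤ b - (e + 1) → 2 ≤ o2) (r1 : s = hR * o2) (nR : o ≤ o2)
    (both : d - 1 - a = 1 → b - (e + 1) = 1 → b ≤ a + 4 ∨ o < o2) :
    b - a + 1 ≤ s ∨ (b - a = s ∧ b - a ≤ 4) := by
  have key : ∀ h o : ℕ, 4 ≤ h → 2 ≤ o → o + h + 2 ≤ h * o := fun h o h1 h2 => by nlinarith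
  by_cases c1 : 4 ≤ hL ∧ (hR ≤ hL ∨ b - (e + 1) = 0) ∧ 1 ≤ d - 1 - a
  · have := key hL o1 c1.1 (oL c1.2.2)
    rw [← l1] at this
    clear l2 r2 n2 n1a n1b oL oR both
    omega
  by_cases c2 : 4 ≤ hR ∧ (hL ≤ hR ∨ d - 1 - a = 0) ∧ 1 ≤ b - (e + 1)
  · have := key hR o2 c2.1 (oR c2.2.2)
    rw [← r1] at this
    clear l2 r2 n2 n1a n1b oL oR both
    omega
  by_cases c5 : 1 ≤ b - (e + 1)
  · have := r2 c5
    have := oR c5
    obtain rfl : hR = 2 := by omega
    clear r2 n2 n1a n1b oL oR l1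
    omega
  by_cases c6 : 1 ≤ d - 1 - a
  · have := l2 c6
    have := oL c6
    obtain rfl : hL = 2 := by omega
    clear l2 r2 n2 n1a n1b oL oR both r1
    omega
  clear l2 r2 oL oR both l1 r1 c1 c2
  omega

lemma arithIII {a b d e s : ℕ} (hd : d ≤ b) (hde : e < d) (hae : a < e) (h3 : 3 ≤ s)
    (l2 : 1 ≤ d - 1 - a → 2 ∣ s) (l3 : 2 * (d - 1 - a) ≤ s) (l4 : 3 ≤ d - 1 - a → 6 ∣ s)
    (l5 : 8 ≤ s → 2 * (d - 1 - a) + 2 ≤ s) (r3 : 2 * (b - (e + 1)) ≤ s)
    (r5 : 8 ≤ s → 2 * (b - (e + 1)) + 2 ≤ s) (sL : d - 1 - a = 3 → s = 6 → e ≤ a + 2)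
    (sR : b - (e + 1) = 3 → s = 6 → b ≤ d + 2) :
    b - a + 1 ≤ s ∨ (s = 4 ∧ b = a + 4) ∨ (s = 4 ∧ b = a + 5 ∧ d = a + 3) ∨
      (s = 6 ∧ d = a + 4 ∧ e = a + 2 ∧ b = a + 6) := by
  have := l2 (by omega)
  by_cases h8 : 8 ≤ s
  · have := l5 h8
    have := r5 h8
    omega
  have : s = 4 ∨ s = 6 := by omega
  rcases this with rfl | rfl <;> omega

lemma caseI (hS : Str n t p) (hG : Gd t a b x0) (hb : b ≤ n) {d e : ℕ} (hd : a ≤ d) (hde : d ≤ e)
    (he : e ≤ b) (Te : Tr t a b x0 (Ico a e)) (Td : Tr t a b x0 (Ico d b))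
    (me : ∀ c < e, ¬ Tr t a b x0 (Ico a c)) (md : ∀ c, d < c → c ≤ b → ¬ Tr t a b x0 (Ico c b))
    (hE : ∀ c ∈ Ico d e, ¬ Tr t a b x0 (Ico a c ∪ Ico (c + 1) b))
    (h3 : 3 ≤ (orb t (Ico a b) x0).ncard) : Concl t a b x0 := by
  have ch := chain hS hd hde he hE
  obtain ⟨hL, -, l1, l2, l3, -⟩ := win hS hG hb (j := a) (f := d - 1 - a) le_rfl (by omega) Td
    fun c hc c' hc' => by have := hc.1; have := hc'.2; have := hc'.1; omega
  obtain ⟨hR, -, r1, r2, r3, -⟩ := win hS hG hb (j := b - (b - (e + 1))) (f := b - (e + 1))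
    (by omega) (by omega) Te fun c hc c' hc' => by
      have := hc.2; have := hc'.1; have := hc'.2; omega
  have fL := fun y hy => win_free hS hG (j := a) (f := d - 1 - a) le_rfl (by omega) Td
    (fun c hc c' hc' => by have := hc.1; have := hc'.2; have := hc'.1; omega) (g := t a)
      (y := y) (hy := hy)
  rw [show b - (b - (e + 1)) + (b - (e + 1)) = b by omega] at r1
  have nL := no_mono (t := t) (O := orb t (Ico a b) x0) (I := Ico a (a + (d - 1 - a)))
    (J := Ico a d ∪ Ico e b) fun c hc => Or.inl ⟨hc.1, by have := hc.1; have := hc.2; omega⟩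
  have nR := no_mono (t := t) (O := orb t (Ico a b) x0) (I := Ico (b - (b - (e + 1))) b)
    (J := Ico a d ∪ Ico e b) fun c hc => Or.inr ⟨by have := hc.1; have := hc.2; omega, hc.2⟩
  have oL : 1 ≤ d - 1 - a → 2 ≤ no t (Ico a (a + (d - 1 - a))) (orb t (Ico a b) x0) := fun h =>
    no_ge_two (Ico_subset_Ico_right (by omega)) (me _ (by omega))
  have oR : 1 ≤ b - (e + 1) → 2 ≤ no t (Ico (b - (b - (e + 1))) b) (orb t (Ico a b) x0) :=
    fun h => no_ge_two (Ico_subset_Ico_left (by omega)) (md _ (by omega) (by omega))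
  have both : d - 1 - a = 1 → b - (e + 1) = 1 → b ≤ a + 4 ∨
      no t (Ico a d ∪ Ico e b) (orb t (Ico a b) x0) <
        no t (Ico (b - (b - (e + 1))) b) (orb t (Ico a b) x0) := by
    intro h1 h2
    by_cases h4 : b ≤ a + 4
    · exact Or.inl h4
    right
    have m1 : a ∈ Ico a b := ⟨le_rfl, by omega⟩
    have m2 : b - 1 ∈ Ico a b := ⟨by omega, by omega⟩
    obtain ⟨y, hy, hn⟩ := hG.diff m1 m2 (hG.ne hS m1 m2 (by omega))
    refine no_step m1 (Or.inl ⟨le_rfl, by omega⟩)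
      (fun c hc => Or.inr ⟨by have := hc.1; have := hc.2; omega, hc.2⟩) hy fun hr => ?_
    rcases rch_single hS (c := b - 1) (hr.mono fun c hc => by
      have := hc.1; have := hc.2; exact mem_singleton_iff.2 (by omega)) with h | h
    · exact hG.nt a m1 (fL y hy (W_gen ⟨le_rfl, by omega⟩) h)
    · exact hn h
  have n0 := no_mono (t := t) (O := orb t (Ico a b) x0) (I := ∅) (J := Ico a d ∪ Ico e b)
    (empty_subset _)
  rw [no_empty] at n0
  have n1 : ∀ c ∈ Ico a d ∪ Ico e b, no t (Ico a d ∪ Ico e b) (orb t (Ico a b) x0) <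
      (orb t (Ico a b) x0).ncard := fun c hc =>
    (no_mono (singleton_subset_iff.2 hc)).trans_lt (one_drop hG (by
      simp only [mem_union, mem_Ico] at hc ⊢
      omega))
  have n2 : a < d → e < b → a + 5 ≤ b → no t (Ico a d ∪ Ico e b) (orb t (Ico a b) x0) + 2 ≤
      (orb t (Ico a b) x0).ncard := by
    intro h1 h2 h4
    have m1 : a ∈ Ico a b := ⟨le_rfl, by omega⟩
    have m2 : b - 1 ∈ Ico a b := ⟨by omega, by omega⟩
    have := two_drop hS hG m1 m2 (hG.ne hS m1 m2 (by omega))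
    have := no_mono (t := t) (O := orb t (Ico a b) x0) (I := {a, b - 1})
      (J := Ico a d ∪ Ico e b) (by
        rintro c (rfl | rfl)
        exacts [Or.inl ⟨le_rfl, h1⟩, Or.inr ⟨by omega, by omega⟩])
    omega
  have n1a : a < d → _ := fun h => n1 a (Or.inl ⟨le_rfl, h⟩)
  have n1b : e < b → _ := fun h => n1 e (Or.inr ⟨le_rfl, h⟩)
  have main := arithI hd hde he l2 l3 r2 r3 h3 ch n0 n2 n1a n1b oL l1 nL oR r1 nR both
  rcases main with h | ⟨h, h'⟩
  · exact Or.inl h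
  · refine Or.inr ⟨h, by omega, ?_, by omega⟩
    by_cases h4 : (orb t (Ico a b) x0).ncard = 3
    · exact three_noc hS hG (by omega) h4
    · exact D4 hS hG (by omega) (by omega)

lemma caseIII (hS : Str n t p) (hG : Gd t a b x0) (hb : b ≤ n) {d e : ℕ} (hd : d ≤ b)
    (hde : e < d) (he : a ≤ e) (Te : Tr t a b x0 (Ico a e)) (Td : Tr t a b x0 (Ico d b))
    (me : ∀ c < e, ¬ Tr t a b x0 (Ico a c)) (md : ∀ c, d < c → c ≤ b → ¬ Tr t a b x0 (Ico c b))
    (h3 : 3 ≤ (orb t (Ico a b) x0).ncard) : Concl t a b x0 := by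
  have farL : ∀ c ∈ Ico d b, ∀ c' ∈ Ico a (a + (d - 1 - a)), c + 2 ≤ c' ∨ c' + 2 ≤ c :=
    fun c hc c' hc' => by have := hc.1; have := hc'.2; have := hc'.1; omega
  have farR : ∀ c ∈ Ico a e, ∀ c' ∈ Ico (e + 1) (e + 1 + (b - (e + 1))),
      c + 2 ≤ c' ∨ c' + 2 ≤ c := fun c hc c' hc' => by have := hc.2; have := hc'.1; omega
  obtain ⟨hL, l0, -, l2, l3, l4, l5, l6⟩ := win hS hG hb (j := a) (f := d - 1 - a) le_rfl
    (by omega) Td farL
  obtain ⟨hR, r0, -, r2, r3, r4, r5, r6⟩ := win hS hG hb (j := e + 1) (f := b - (e + 1))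
    (by omega) (by omega) Te farR
  have fL := fun g hg y hy => win_free hS hG (j := a) (f := d - 1 - a) le_rfl (by omega) Td
    farL (g := g) hg (y := y) hy
  have fR := fun g hg y hy => win_free hS hG (j := e + 1) (f := b - (e + 1)) (by omega)
    (by omega) Te farR (g := g) hg (y := y) hy
  have cR := (win_cube hS hG hb (j := e + 1) (f := b - (e + 1)) (by omega) (by omega) Te farR).1
  have oL : orb t (Ico a (a + (d - 1 - a))) x0 = orb t (Ico a b) x0 :=
    Subset.antisymm (orb_sub (Ico_subset_Ico_right (by omega)) orb_self)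
      (Te.mono (Ico_subset_Ico_right (by omega)))
  have oR : orb t (Ico (e + 1) (e + 1 + (b - (e + 1)))) x0 = orb t (Ico a b) x0 :=
    Subset.antisymm (orb_sub (Ico_subset_Ico (by omega) (by omega)) orb_self)
      (Td.mono (Ico_subset_Ico (by omega) (by omega)))
  rw [oL] at l0
  rw [oR] at r0
  have hae : a < e := by
    by_contra hh
    have : (orb t (Ico a b) x0).ncard ≤ 1 := by
      rw [Set.ncard_le_one_iff (toFinite _)]
      intro y z hy hz
      rw [Ico_eq_empty hh] at Te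
      rw [← (Te y hy).eq_of_empty, ← (Te z hz).eq_of_empty]
    omega
  have pL : ∀ c, a ≤ c → c + 1 < d → ∀ y ∈ orb t (Ico a b) x0, t c y ≠ y := fun c h1 h2 y hy h =>
    hG.nt c ⟨h1, by omega⟩ (fL _ (W_gen ⟨h1, by omega⟩) y hy h)
  have pR : ∀ c, e < c → c < b → ∀ y ∈ orb t (Ico a b) x0, t c y ≠ y := fun c h1 h2 y hy h =>
    hG.nt c ⟨by omega, h2⟩ (fR _ (W_gen ⟨h1, by omega⟩) y hy h)
  have sL : d - 1 - a = 3 → hL = 6 → e ≤ a + 2 := by
    intro h1 h2
    by_contra hh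
    apply me (a + 2) (by omega)
    intro y hy
    obtain ⟨g, hg, rfl⟩ := Te y hy
    refine ⟨g, W_le (fun c hc => ?_) hg, rfl⟩
    by_cases hc2 : c = a + 2
    · rw [hc2, ← l6 h1 h2]; exact W_gen ⟨le_rfl, by omega⟩
    · exact W_gen ⟨hc.1, by have := hc.2; omega⟩
  have sR : b - (e + 1) = 3 → hR = 6 → b ≤ d + 2 := by
    intro h1 h2
    by_contra hh
    apply md (d + 1) (by omega) (by omega)
    intro y hy
    obtain ⟨g, hg, rfl⟩ := Td y hy
    refine ⟨g, W_le (fun c hc => ?_) hg, rfl⟩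
    by_cases hc2 : c = e + 1
    · rw [hc2, r6 h1 h2]; exact W_gen ⟨by omega, by omega⟩
    · exact W_gen ⟨by have := hc.1; omega, hc.2⟩
  subst l0
  subst r0
  rcases arithIII hd hde hae h3 l2 l3 l4 l5 r3 r5 sL sR with
    h | ⟨h4, rfl⟩ | ⟨h4, rfl, rfl⟩ | ⟨h6, rfl, rfl, rfl⟩
  · exact Or.inl h
  · clear l2 l4 l5 r2 r4 r5 sL sR
    exact Or.inr ⟨by omega, by omega, D4 hS hG h4 le_rfl, by omega⟩
  · exfalso
    clear l2 l4 l5 r2 r4 r5 sL sR
    have m1 : a ∈ Ico a (a + 5) := ⟨le_rfl, by omega⟩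
    refine pL a le_rfl (by omega) x0 orb_self
      (D4 hS hG h4 (by omega) (t a) (fun c hc => ?_) (Rch.step m1 x0))
    by_cases hc2 : c = a + 1
    · subst hc2
      exact Q1 hS hG h4 m1 hc (pL _ le_rfl (by omega)) (pL _ (by omega) (by omega))
    · exact hS.comm' (by have := hc.1; omega) hc2
  clear l2 l4 l5 r2 r4 r5 sL sR
  refine Or.inr ⟨by omega, by omega, ?_, fun _ c hc => ?_⟩
  · intro z hz hz0
    obtain ⟨k, hk, ek⟩ := Td _ hz0
    have sub : Ico (a + 4) (a + 6) ⊆ Ico (a + 2 + 1) (a + 2 + 1 + (a + 6 - (a + 2 + 1))) :=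
      Ico_subset_Ico (by omega) (by omega)
    have zk : ∀ y ∈ orb t (Ico a (a + 6)) x0, z y = k y := by
      intro y hy
      have := cent_fpf (z := k⁻¹ * z) (I := Ico a (a + 2)) (fun c hc =>
        (W_comm (fun c' hc' => hS.comm c c' (by have := hc.2; have := hc'.1; omega))
          (inv_mem hk)).symm.mul_left (hz c ⟨hc.1, by have := hc.2; omega⟩)) Te orb_self
        (by rw [Perm.mul_apply, ← ek]; simp) y hy
      rwa [Perm.mul_apply, Perm.inv_eq_iff_eq] at this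
    have ck : ∀ c ∈ Ico (a + 4) (a + 6), Commute k (t c) := by
      intro c hc
      have m : c ∈ Ico a (a + 6) := ⟨by have := hc.1; omega, hc.2⟩
      have := fR ((t c * k)⁻¹ * (k * t c)) (W_mono sub (mul_mem (inv_mem (mul_mem (W_gen hc) hk))
        (mul_mem hk (W_gen hc)))) x0 orb_self (by
          rw [Perm.mul_apply, Perm.inv_eq_iff_eq, Perm.mul_apply, Perm.mul_apply,
            ← zk _ (Rch.step m x0), ← zk _ orb_self, ← Perm.mul_apply, (hz c m).eq]; rfl)
      exact (inv_mul_eq_one.1 this).symm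
    have e35 : t (a + 3) = t (a + 5) := r6 (by omega) (by omega)
    have cube : (t (a + 4) * t (a + 5)) ^ 3 = 1 := by
      rcases cR (a + 3) le_rfl (by omega) with h | h
      · rw [e35] at h
        rw [pow_swap (hS.inv _) (hS.inv _), show (t (a + 5) * t (a + 4)) ^ 3 = 1 from h, inv_one]
      · exact h
    have := s3_center (hS.inv _) (hS.inv _) cube
      (hG.ne hS ⟨by omega, by omega⟩ ⟨by omega, by omega⟩ (Or.inl rfl)) (g := k)
      (W_mono (fun c hc => by
        have := hc.1; have := hc.2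
        simp only [mem_insert_iff, mem_singleton_iff]; omega) hk)
      (ck _ ⟨by omega, by omega⟩) (ck _ ⟨by omega, by omega⟩)
    rw [← ek, this]; rfl
  · by_cases hc2 : c + 1 < a + 4
    · exact pL c hc.1 hc2
    · exact pR c (by omega) hc.2

theorem str (hS : Str n t p) (N : ℕ) : ∀ a b x0, b - a = N → a ≤ b → b ≤ n → Gd t a b x0 →
    Concl t a b x0 := by
  classical
  induction N using Nat.strong_induction_on with
  | _ N ih =>
  intro a b x0 hN hab hb hG
  by_cases h3 : (orb t (Ico a b) x0).ncard ≤ 2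
  · exact Or.inl (small hS hG h3)
  have ex : ∃ e, a ≤ e ∧ Tr t a b x0 (Ico a e) := ⟨b, hab, fun y hy => hy⟩
  have e1 := Nat.find_spec ex
  have e2 : Nat.find ex ≤ b := Nat.find_min' ex ⟨hab, fun y hy => hy⟩
  have e3 : ∀ c < Nat.find ex, ¬ Tr t a b x0 (Ico a c) := by
    intro c hc hT
    by_cases hac : a ≤ c
    · exact Nat.find_min ex hc ⟨hac, hT⟩
    · have : (orb t (Ico a b) x0).ncard ≤ 1 := by
        rw [Set.ncard_le_one_iff (toFinite _)]
        intro y z hy hz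
        rw [Ico_eq_empty (by omega)] at hT
        rw [← (hT y hy).eq_of_empty, ← (hT z hz).eq_of_empty]
      omega
  let P : ℕ → Prop := fun d => Tr t a b x0 (Ico d b)
  have d1 : P (Nat.findGreatest P b) := Nat.findGreatest_spec (m := a) hab fun y hy => hy
  have d2 : a ≤ Nat.findGreatest P b := Nat.le_findGreatest hab fun y hy => hy
  have d3 : Nat.findGreatest P b ≤ b := Nat.findGreatest_le b
  have d4 : ∀ c, Nat.findGreatest P b < c → c ≤ b → ¬ P c := fun c h1 h2 =>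
    Nat.findGreatest_is_greatest h1 h2
  generalize Nat.find ex = e at *
  generalize Nat.findGreatest P b = d at *
  by_cases hde : e < d
  · exact caseIII hS hG hb d3 hde e1.1 e1.2 d1 e3 d4 (by omega)
  by_cases hE : ∀ c ∈ Ico d e, ¬ Tr t a b x0 (Ico a c ∪ Ico (c + 1) b)
  · exact caseI hS hG hb d2 (by omega) e2 e1.2 d1 e3 d4 hE (by omega)
  push Not at hE
  obtain ⟨c, hc, hT⟩ := hE
  have c1 := hc.1
  have c2 := hc.2
  have m : c ∈ Ico a b := ⟨by omega, by omega⟩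
  have h2 := d4 (c + 1) (by omega) (by omega)
  have hac : a < c := by
    by_contra hh
    apply h2
    rwa [Ico_eq_empty hh, empty_union] at hT
  exact Or.inl (caseII hS hG m hT (e3 c c2) h2
    (ih _ (by omega) a c x0 rfl (by omega) (by omega) (gd_left hS hG m hT))
    (ih _ (by omega) (c + 1) b x0 rfl (by omega) hb (gd_right hS hG hac hT)))

end

end Pool.Agent.FlagOrb
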