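import Pool.Agent.Lib.MP_7157e1_co.FoGeoU
import Pool.Agent.Lib.MP_7157e1_co.FoEq
import Pool.Agent.Lib.MP_7157e1_co.FoStr2

/-! The bound for polytopal flag systems. -/

namespace Pool.Agent.FlagOrb

open Equiv Set

/-- reversed colours -/
def rev {F : Type} (n : ℕ) (r : ℕ → Perm F) (c : ℕ) : Perm F := if c < n then r (n - 1 - c) else 1

lemma rev_lt {F : Type} {n : ℕ} {r : ℕ → Perm F} {c : ℕ} (hc : c < n) :
    rev n r c = r (n - 1 - c) := if_pos hc

lemma rev_ge {F : Type} {n : ℕ} {r : ℕ → Perm F} {c : ℕ} (hc : n ≤ c) : rev n r c = 1 :=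
  if_neg (by omega)

lemma W_rev {G : Type} [Group G] {n a b : ℕ} (hb : b ≤ n) {t t' : ℕ → G}
    (h : ∀ c ∈ Ico a b, t' c = t (n - 1 - c)) : W t' (Ico a b) = W t (Ico (n - b) (n - a)) := by
  apply le_antisymm
  · refine W_le fun c hc => ?_
    rw [h c hc]
    exact W_gen ⟨by have := hc.2; omega, by have := hc.1; have := hc.2; omega⟩
  · refine W_le fun c hc => ?_
    have h1 := hc.1
    have h2 := hc.2
    have m : n - 1 - c ∈ Ico a b := ⟨by omega, by omega⟩
    rw [show t c = t' (n - 1 - c) by rw [h _ m]; congr 1; omega]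
    exact W_gen m

/-- the induced permutations of the types -/
def rho {F : Type} (r : ℕ → Perm F) (hi : ∀ c, r c * r c = 1) (c : ℕ) :
    Perm (Quotient (tySetoid r)) :=
  Function.Involutive.toPerm (Quotient.map (r c) fun _ _ h => Eqv.step h c) (by
    rintro ⟨x⟩
    exact congrArg (Quotient.mk _) (invol_apply (hi c) x))

/-- the labels of the types -/
noncomputable def lab {F : Type} (r : ℕ → Perm F) (l : ℕ) : Quotient (tySetoid r) → ℕ :=
  Quotient.lift (per r l) fun _ _ h => Eqv.per_eq h l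

namespace PS

variable {F L : Type} [Lattice L] {n : ℕ} {r : ℕ → Perm F} {φ : ℕ → F → L} (h : PS n r φ)
include h

theorem mirror : PS n (rev n r) fun i x => OrderDual.toDual (φ (n + 1 - i) x) where
  inv c := by
    unfold rev
    split_ifs
    exacts [h.inv _, one_mul _]
  comm c c' hc := by
    by_cases h1 : c' < n
    · rw [rev_lt h1, rev_lt (by omega : c < n)]
      exact (h.comm _ _ (by omega)).symm
    · rw [rev_ge (c := c') (by omega)]; exact Commute.one_right _
  triv c hc := rev_ge hc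
  lt i x hi := by
    rw [OrderDual.toDual_lt_toDual, show n + 1 - i = n + 1 - (i + 1) + 1 by omega]
    exact h.lt _ x (by omega)
  same c i x hi := by
    by_cases h1 : c < n
    · rw [rev_lt h1, h.same _ _ x (by omega)]
    · rw [rev_ge (by omega)]; rfl
  meet c x hc := by
    rw [rev_lt hc, ← toDual_sup, show n + 1 - (c + 1) = n - 1 - c + 1 by omega,
      h.join _ x (by omega), show n - 1 - c + 2 = n + 1 - c by omega]
  join c x hc := by
    rw [rev_lt hc, ← toDual_inf, show n + 1 - (c + 1) = n - 1 - c + 1 by omega,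
      h.meet _ x (by omega), show n + 1 - (c + 2) = n - 1 - c by omega]
  conn a b x y hab hb h1 h2 := by
    unfold Rch
    rw [W_rev hb fun c hc => rev_lt (by have := hc.2; omega)]
    apply h.conn _ _ x y (by omega) (by omega)
    · intro i hi
      have := h2 (n + 1 - i) (by omega) (by omega)
      rwa [show n + 1 - (n + 1 - i) = i by omega, OrderDual.toDual_inj] at this
    · intro i hi hi'
      have := h1 (n + 1 - i) (by omega)
      rwa [show n + 1 - (n + 1 - i) = i by omega, OrderDual.toDual_inj] at this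
  bot x y := congrArg _ (h.top x y)
  top x y := by simpa using h.bot x y
  sc a b hb Y R pr h1 h2 h3 y y' hr he := by
    have m : ∀ c ∈ Ico (n - b) (n - a), n - 1 - c ∈ Ico a b ∧ rev n r (n - 1 - c) = r c := by
      intro c hc
      have := hc.1
      have := hc.2
      refine ⟨⟨by omega, by omega⟩, ?_⟩
      rw [rev_lt (by omega)]; congr 1; omega
    refine h.sc (n - b) (n - a) (by omega) Y (fun c => R (n - 1 - c)) pr
      (fun c hc => h1 _ (m c hc).1) (fun c hc y => by rw [h2 _ (m c hc).1, (m c hc).2])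
      (fun c hc c' hc' y k hk => h3 _ (m c hc).1 _ (m c' hc').1 y k
        (by rwa [(m c hc).2, (m c' hc').2])) y y' ?_ he
    unfold Rch at hr ⊢
    rwa [← W_rev (t' := R) hb fun c hc => by
      have := hc.2
      congr 1; omega]

lemma aut_rev : Aut (rev n r) = Aut r := by
  ext g
  constructor
  · intro hg c
    by_cases hc : c < n
    · have := hg (n - 1 - c)
      rwa [rev_lt (by omega), show n - 1 - (n - 1 - c) = c by omega] at this
    · rw [h.triv c (by omega)]; exact Commute.one_right _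
  · intro hg c
    unfold rev
    split_ifs
    exacts [hg _, Commute.one_right _]

lemma wl_rev {c : ℕ} (hc : c < n) (x : F) : Wl (rev n r) x c ↔ Wl r x (n - 1 - c) := by
  unfold Wl Eqv
  rw [h.aut_rev, rev_lt hc]

lemma nty_rev : nty (rev n r) = nty r := by
  have : tySetoid (rev n r) = tySetoid r := by
    ext x y
    change Eqv _ x y ↔ Eqv _ x y
    unfold Eqv
    rw [h.aut_rev]
  unfold nty
  rw [this]

lemma rho_rch {I : Set ℕ} {x y : F} (hr : Rch r I x y) :
    Rch (rho r h.inv) I (Quotient.mk _ x) (Quotient.mk _ y) :=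
  hr.ind (fun c _ => h.inv c) (P := fun y => Rch (rho r h.inv) I (Quotient.mk _ x) (Quotient.mk _ y))
    (Rch.refl _) fun _ _ hc _ ih => ih.next hc

lemma rho_fix {c : ℕ} {x : F} :
    rho r h.inv c (Quotient.mk _ x) = Quotient.mk _ x ↔ Wl r x c :=
  ⟨fun he => Eqv.symm (Quotient.exact he), fun hw => Quotient.sound (Eqv.symm hw)⟩

theorem toStr [Finite F] : Str n (rho r h.inv) (lab r) where
  inv c := by
    ext ⟨x⟩
    exact congrArg (Quotient.mk _) (h.rr c x)
  comm c c' hc := by
    ext ⟨x⟩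
    exact congrArg (Quotient.mk _) (h.capp hc x)
  pinv l c := by
    rintro ⟨x⟩ h1 h2
    exact h.per_step h1 h2 x
  per l := by
    rintro ⟨x⟩
    have := pow_equiv (A := r l) (B := r (l + 1)) (a := rho r h.inv l) (b := rho r h.inv (l + 1))
      (pr := Quotient.mk (tySetoid r)) (fun _ => rfl) (fun _ => rfl) (per r l x) x
    rw [per_dvd.1 dvd_rfl] at this
    exact this.symm
  e2 j := by
    rintro ⟨x⟩ hj hc
    exact h.E2 hj x fun y hy => hc _ (h.rho_rch hy)
  e3 j := by
    rintro ⟨x⟩ hj hc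
    exact h.E3 hj x fun y hy => hc _ (h.rho_rch hy)
  e4 j := by
    rintro ⟨x⟩ hj hc
    exact h.E4 hj x fun y hy => hc _ (h.rho_rch hy)

theorem core [Finite F] [Nonempty F] (hn : 9 ≤ n) : nty r = 1 ∨ n ≤ nty r + 2 := by
  classical
  have hS := h.toStr
  obtain ⟨x0⟩ := ‹Nonempty F›
  by_cases hall : ∀ c < n, ∀ x, Wl r x c
  · left
    rw [nty, Nat.card_eq_one_iff_exists]
    refine ⟨Quotient.mk _ x0, ?_⟩
    rintro ⟨y⟩
    refine Quotient.sound ((h.all x0 y).ind (fun c _ => h.inv c) (P := fun y => Eqv r y x0)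
      (Eqv.refl _) fun y c hc _ ih => (hall c hc.2 y).symm.trans ih)
  right
  push Not at hall
  let P : ℕ → Prop := fun c => c < n ∧ ∃ x, ¬ Wl r x c
  have u1 : P (Nat.find hall) := Nat.find_spec hall
  have u2 : ∀ c < Nat.find hall, ∀ x, Wl r x c := by
    intro c hc x
    by_contra hx
    exact Nat.find_min hall hc ⟨hc.trans u1.1, x, hx⟩
  have v1 : P (Nat.findGreatest P n) := Nat.findGreatest_spec u1.1.le u1
  have v2 : Nat.find hall ≤ Nat.findGreatest P n := Nat.le_findGreatest u1.1.le u1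
  have v3 : ∀ c, Nat.findGreatest P n < c → ∀ x, Wl r x c := by
    intro c hc x
    by_cases hcn : c < n
    · by_contra hx
      exact Nat.findGreatest_is_greatest hc hcn.le ⟨hcn, x, hx⟩
    · unfold Wl
      rw [h.triv c (by omega)]
      exact Eqv.refl _
  generalize Nat.find hall = u at *
  generalize Nat.findGreatest P n = v at *
  obtain ⟨u0, xu, hxu⟩ := u1
  obtain ⟨v0, xv, hxv⟩ := v1
  by_cases hu : 3 ≤ u
  · obtain ⟨k, rfl⟩ : ∃ k, u = k + 3 := ⟨u - 3, by omega⟩
    exact h.U hn u0 (fun c hc => u2 c (by omega)) hxu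
  by_cases hv : v + 4 ≤ n
  · rw [← h.nty_rev]
    refine h.mirror.U (v := n - v - 4) (x0 := xv) hn (by omega) (fun c hc x => ?_) ?_
    · rw [h.wl_rev (by omega)]
      exact v3 _ (by omega) x
    · rwa [h.wl_rev (by omega), show n - 1 - (n - v - 4 + 3) = v by omega]
  by_cases huv : u = 2 ∧ n = v + 3
  · exact (h.IRR huv.2 (u2 0 (by omega)) (u2 1 (by omega)) (v3 _ (by omega)) (v3 _ (by omega))
      hxv).elim
  have triv : ∀ c, c ∉ Ico u (v + 1) → rho r h.inv c = 1 := by
    intro c hc
    ext ⟨x⟩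
    simp only [mem_Ico] at hc
    refine h.rho_fix.2 ?_
    by_cases h1 : c < u
    exacts [u2 c h1 x, v3 c (by omega) x]
  have hO : orb (rho r h.inv) (Ico u (v + 1)) (Quotient.mk _ x0) = univ := by
    rw [eq_univ_iff_forall]
    rintro ⟨y⟩
    obtain ⟨g, hg, he⟩ := h.rho_rch (h.all x0 y)
    refine ⟨g, W_le (fun c _ => ?_) hg, he⟩
    by_cases hc : c ∈ Ico u (v + 1)
    · exact W_gen hc
    · rw [triv c hc]; exact one_mem _
  have hG : Gd (rho r h.inv) u (v + 1) (Quotient.mk _ x0) := by
    refine ⟨fun g _ hf => ?_, fun c hc he => ?_, fun z h1 h2 => ?_⟩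
    · ext y
      exact hf y (hO ▸ mem_univ y)
    · have : ∃ x, ¬ Wl r x c := by
        rcases hc.1.eq_or_lt with rfl | c1
        · exact ⟨xu, hxu⟩
        rcases (Nat.lt_succ_iff.1 hc.2).eq_or_lt with rfl | c2
        · exact ⟨xv, hxv⟩
        exact h.T c1 c2 v0 ⟨xu, hxu⟩ ⟨xv, hxv⟩
      obtain ⟨x, hx⟩ := this
      exact hx (h.rho_fix.1 (by rw [he]; rfl))
    · ext ⟨x⟩
      obtain ⟨y, hy⟩ := Quotient.exists_rep (z (Quotient.mk _ x))
      have := h.typing (fun x y => z (Quotient.mk _ x) = Quotient.mk _ y) ?_ ?_ hy.symm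
      · exact hy.symm.trans (Quotient.sound this.symm)
      · intro x y c he
        have hc : Commute z (rho r h.inv c) := by
          by_cases hc : c ∈ Ico u (v + 1)
          · exact h1 c hc
          · rw [triv c hc]; exact Commute.one_right _
        change z (rho r h.inv c (Quotient.mk _ x)) = rho r h.inv c (Quotient.mk _ y)
        rw [← Perm.mul_apply, hc.eq, Perm.mul_apply, he]
      · intro x y l he _
        change lab r l (Quotient.mk _ x) = lab r l (Quotient.mk _ y)
        rw [← he]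
        refine Rch.ind (t := rho r h.inv) (I := Ico u (v + 1) \ Dl l) (fun c _ => hS.inv c)
          (P := fun w => lab r l (Quotient.mk _ x) = lab r l w) rfl ?_ ⟨z, h2 l, rfl⟩
        intro w c hc _ ih
        have := hc.2
        simp only [Dl, mem_ofPred_eq, not_or] at this
        rw [hS.pinv l c w this.1 this.2, ih]
  have := str hS _ u (v + 1) _ rfl (by omega) (by omega) hG
  unfold Concl at this
  rw [hO, Set.ncard_univ] at this
  change _ ≤ nty r ∨ _ = nty r ∧ (nty r = 3 ∨ nty r = 4 ∨ nty r = 6) ∧ _ ∧ (nty r = 6 → _) at this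
  rcases this with h1 | ⟨h1, h2, -, h3⟩
  · omega
  exfalso
  have fp : ∀ c, u ≤ c → c ≤ v → ∀ x, ¬ Wl r x c := fun c c1 c2 x hw =>
    h3 (by omega) c ⟨c1, by omega⟩ _ (mem_univ _) (h.rho_fix.2 hw)
  by_cases hu2 : u = 2
  · exact h.TF (by omega) (u2 0 (by omega)) (u2 1 (by omega))
      (fun c c1 c2 => fp c (by omega) (by omega)) x0
  · refine h.mirror.TF (by omega) (fun x => ?_) (fun x => ?_) (fun c c1 c2 x => ?_) x0
    · rw [h.wl_rev (by omega)]; exact v3 _ (by omega) x
    · rw [h.wl_rev (by omega)]; exact v3 _ (by omega) x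
    · rw [h.wl_rev (by omega)]; exact fp _ (by omega) (by omega) x

end PS

end Pool.Agent.FlagOrb
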