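import Pool.Agent.Lib.MP_7157e1_co.FoArm

/-! Counting orbits of strings of involutions. -/

namespace Pool.Agent.FlagOrb

open Equiv Set

section Cnt

variable {X : Type} {t : ℕ → Perm X} {I J : Set ℕ} {O : Set X}

/-- orbit -/
def orb (t : ℕ → Perm X) (I : Set ℕ) (x : X) : Set X := {y | Rch t I x y}

/-- number of orbits meeting `O` -/
noncomputable def no (t : ℕ → Perm X) (I : Set ℕ) (O : Set X) : ℕ := (orb t I '' O).ncard

lemma orb_eq_iff {x y : X} : orb t I x = orb t I y ↔ Rch t I x y :=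
  ⟨fun h => by
    have : y ∈ orb t I y := Rch.refl y
    rwa [← h] at this,
    fun h => Set.ext fun _ => ⟨fun hz => h.symm.trans hz, fun hz => h.trans hz⟩⟩

lemma no_empty : no t ∅ O = O.ncard :=
  Set.ncard_image_of_injective O fun _ _ h => (orb_eq_iff.1 h).eq_of_empty

variable [Finite X]

lemma no_aux (hIJ : I ⊆ J) : orb t J '' O = (fun S => ⋃ z ∈ S, orb t J z) '' (orb t I '' O) := by
  rw [image_image]
  apply image_congr
  intro x _
  ext y
  simp only [mem_iUnion, exists_prop]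
  exact ⟨fun h => ⟨x, Rch.refl x, h⟩, fun ⟨z, h1, h2⟩ => (Rch.mono h1 hIJ).trans h2⟩

lemma no_mono (hIJ : I ⊆ J) : no t J O ≤ no t I O := by
  unfold no
  rw [no_aux hIJ]
  exact Set.ncard_image_le (toFinite _)

lemma no_lt (hIJ : I ⊆ J) {x y : X} (hx : x ∈ O) (hy : y ∈ O) (h1 : Rch t J x y)
    (h2 : ¬ Rch t I x y) : no t J O < no t I O := by
  refine (no_mono hIJ).lt_of_ne fun he => h2 ?_
  unfold no at he
  rw [no_aux hIJ] at he
  have := Set.injOn_of_ncard_image_eq he (toFinite _) (mem_image_of_mem _ hx)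
    (mem_image_of_mem _ hy) (by
      ext w
      simp only [mem_iUnion, exists_prop]
      exact ⟨fun ⟨z, h3, h4⟩ => ⟨y, Rch.refl y, (h1.symm.trans (Rch.mono h3 hIJ)).trans h4⟩,
        fun ⟨z, h3, h4⟩ => ⟨x, Rch.refl x, (h1.trans (Rch.mono h3 hIJ)).trans h4⟩⟩)
  exact orb_eq_iff.1 this

lemma no_pos {x : X} (hx : x ∈ O) : 1 ≤ no t I O :=
  (Set.ncard_pos (toFinite _)).2 ⟨_, mem_image_of_mem _ hx⟩

lemma no_mul {β : ℕ} (hO : ∀ x ∈ O, orb t I x ⊆ O) (hβ : ∀ x ∈ O, (orb t I x).ncard = β) :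
    O.ncard = β * no t I O := by
  classical
  have hf := toFinite O
  rw [Set.ncard_eq_toFinset_card O hf, Finset.card_eq_sum_card_image (orb t I),
    Finset.sum_const_nat (m := β), mul_comm, no, ← Set.ncard_coe_finset, Finset.coe_image,
    Finite.coe_toFinset]
  intro S hS
  obtain ⟨x, hx, rfl⟩ := Finset.mem_image.1 hS
  have hx' : x ∈ O := by simpa using hx
  rw [← hβ x hx', ← Set.ncard_coe_finset]
  congr 1
  ext y
  simp only [Finset.coe_filter, Finite.mem_toFinset, mem_ofPred_eq, orb_eq_iff]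
  exact ⟨fun h => h.2.symm, fun h => ⟨hO x hx' h, Rch.symm h⟩⟩

lemma orb_card_free {x : X} (hf : ∀ g ∈ W t I, g x = x → g = 1) :
    (orb t I x).ncard = Nat.card (W t I) := by
  have : orb t I x = range fun g : W t I => (g : Perm X) x := by
    ext y
    exact ⟨fun ⟨g, hg, he⟩ => ⟨⟨g, hg⟩, he⟩, fun ⟨g, he⟩ => ⟨g, g.2, he⟩⟩
  rw [this, Set.ncard_range_of_injective]
  intro g k he
  have := hf _ (mul_mem (inv_mem k.2) g.2) (by
    rw [Perm.mul_apply, show (g : Perm X) x = (k : Perm X) x from he]; simp)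
  exact Subtype.ext (inv_mul_eq_one.1 this).symm

end Cnt

section Grp

variable {G : Type} [Group G]

lemma card_double [Finite G] {A B : Subgroup G} (h : A ≤ B) {g : G} (hB : g ∈ B) (hA : g ∉ A) :
    2 * Nat.card A ≤ Nat.card B := by
  obtain ⟨k, hk⟩ := Subgroup.card_dvd_of_le h
  have hp : 0 < Nat.card B := Nat.card_pos
  have h1 : k ≠ 1 := by
    rintro rfl
    exact hA ((Subgroup.eq_of_le_of_card_ge h (by omega)).symm ▸ hB)
  have h0 : k ≠ 0 := by rintro rfl; omega
  rw [hk, mul_comm]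
  exact Nat.mul_le_mul_left _ (by omega)

lemma eq_of_comm_cube {a b : G} (ha : a * a = 1) (hb : b * b = 1) (h3 : (a * b) ^ 3 = 1)
    (hc : Commute a b) : a = b := by
  have h2 : (a * b) ^ 2 = 1 := by rw [hc.mul_pow, pow_two, pow_two, ha, hb, one_mul]
  rw [pow_succ, h2, one_mul, mul_eq_one_iff_eq_inv, inv_eq_of_sq hb] at h3
  exact h3

lemma W_single {t : ℕ → G} {j : ℕ} (hj : t j * t j = 1) {g : G} (hg : g ∈ W t {j}) :
    g = 1 ∨ g = t j := by
  refine W_ind (P := fun g => g = 1 ∨ g = t j) (by rintro c rfl; exact hj) (Or.inl rfl) ?_ g hg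
  rintro g c rfl _ (rfl | rfl)
  · exact Or.inr (mul_one _)
  · exact Or.inl hj

lemma s3_center {t : ℕ → G} {i j : ℕ} (ha : t i * t i = 1) (hb : t j * t j = 1)
    (h3 : (t i * t j) ^ 3 = 1) (hne : t i ≠ t j) {g : G} (hg : g ∈ W t {i, j})
    (c1 : Commute g (t i)) (c2 : Commute g (t j)) : g = 1 := by
  have br := braid_of_cube ha hb h3
  have nc : ¬ Commute (t i) (t j) := fun hc => hne (eq_of_comm_cube ha hb h3 hc)
  have : g = 1 ∨ g = t i ∨ g = t j ∨ g = t i * t j ∨ g = t j * t i ∨ g = t i * t j * t i := by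
    refine W_ind (P := fun g => g = 1 ∨ g = t i ∨ g = t j ∨ g = t i * t j ∨ g = t j * t i ∨
      g = t i * t j * t i) (by rintro c (rfl | rfl) <;> assumption) (Or.inl rfl) ?_ g hg
    rintro g c (rfl | rfl) _ (rfl | rfl | rfl | rfl | rfl | rfl)
    all_goals simp only [← mul_assoc, ha, hb, one_mul, mul_one, true_or, or_true]
    · simp only [br, true_or, or_true]
    · have : t c * t i * t c * t i = t i * t c := by
        rw [← br, mul_assoc (t i * t c), ha, mul_one]
      simp only [this, true_or, or_true]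
  rcases this with rfl | rfl | rfl | rfl | rfl | rfl
  · rfl
  · exact absurd c2 nc
  · exact absurd c1.symm nc
  · refine absurd ?_ nc
    have := c1.eq
    rw [mul_assoc] at this
    exact (mul_left_cancel this).symm
  · refine absurd ?_ nc
    have := c2.eq
    rw [mul_assoc] at this
    exact mul_left_cancel this
  · exfalso
    apply nc
    have := c1.eq
    rw [mul_assoc (t i * t j), ha, mul_one, ← mul_assoc, ← mul_assoc, ha, one_mul] at this
    exact this

lemma two_pow_ge (k : ℕ) : 2 * (k + 7) + 2 ≤ 2 ^ (k + 5) := by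
  induction k with
  | zero => norm_num
  | succ k ih => rw [show k + 1 + 5 = (k + 5) + 1 by omega, pow_succ]; omega

/-- size of a group generated by a string of involutions with spherical braid pattern -/
lemma window [Finite G] {t : ℕ → G} {j f : ℕ} (hi : ∀ c, t c * t c = 1)
    (hc : ∀ c c', c + 2 ≤ c' → Commute (t c) (t c'))
    (nt : ∀ c ∈ Ico j (j + f), t c ≠ 1)
    (ad : ∀ l, j ≤ l → l + 1 < j + f → t l ≠ t (l + 1))
    (e2 : ∀ l, j ≤ l → l + 3 ≤ j + f → (t l * t (l + 1)) ^ 3 = 1 ∨ (t (l + 1) * t (l + 2)) ^ 3 = 1)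
    (e3 : ∀ l, j ≤ l → l + 4 ≤ j + f → (t l * t (l + 1)) ^ 3 = 1 ∨ (t (l + 2) * t (l + 3)) ^ 3 = 1)
    (e4 : ∀ l, j ≤ l → l + 5 ≤ j + f →
      (t (l + 1) * t (l + 2)) ^ 3 = 1 ∧ (t (l + 2) * t (l + 3)) ^ 3 = 1) :
    (1 ≤ f → 2 ∣ Nat.card (W t (Ico j (j + f)))) ∧ 2 * f ≤ Nat.card (W t (Ico j (j + f))) ∧
    (3 ≤ f → 6 ∣ Nat.card (W t (Ico j (j + f)))) ∧
    (8 ≤ Nat.card (W t (Ico j (j + f))) → 2 * f + 2 ≤ Nat.card (W t (Ico j (j + f)))) ∧
    (f = 3 → Nat.card (W t (Ico j (j + f))) = 6 → t j = t (j + 2)) := by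
  have one : ∀ c ∈ Ico j (j + f), 2 ≤ Nat.card (W t {c}) := fun c hcc => by
    simpa using card_double (A := ⊥) bot_le (W_gen (t := t) (I := {c}) rfl)
      (by simpa using nt c hcc)
  have two : ∀ c ∈ Ico j (j + f), ∀ c' ∈ Ico j (j + f), t c ≠ t c' → ∀ I : Set ℕ, c ∈ I → c' ∈ I →
      4 ≤ Nat.card (W t I) := by
    intro c hcc c' hcc' hne I h1 h2
    have := card_double (W_mono (t := t) (singleton_subset_iff.2 h1)) (W_gen h2) fun hh =>
      (W_single (hi c) hh).elim (nt c' hcc') hne.symm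
    have := one c hcc
    omega
  have dbl : ∀ l, j ≤ l → l + 1 < j + f → (t l * t (l + 1)) ^ 3 = 1 →
      2 * Nat.card (W t (Ico j l)) ≤ Nat.card (W t (Ico j (l + 1))) := fun l h1 h2 h3 =>
    card_double (W_mono (Ico_subset_Ico_right (by omega))) (W_gen ⟨h1, by omega⟩) fun hh =>
      ad l h1 h2 (eq_of_comm_cube (hi _) (hi _) h3
        (W_comm (fun c hcc => (hc c (l + 1) (by have := hcc.2; omega)).symm) hh).symm)
  have le : ∀ I ⊆ Ico j (j + f), Nat.card (W t I) ≤ Nat.card (W t (Ico j (j + f))) :=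
    fun I hI => Subgroup.card_le_of_le (W_mono hI)
  have d2 : 1 ≤ f → 2 ∣ Nat.card (W t (Ico j (j + f))) := by
    intro hf
    have hm : j ∈ Ico j (j + f) := ⟨le_rfl, by omega⟩
    rw [← orderOf_eq_prime (x := t j) (p := 2) (by rw [pow_two, hi]) (nt j hm)]
    exact Subgroup.orderOf_dvd_natCard _ (W_gen hm)
  have d3 : ∀ l, j ≤ l → l + 1 < j + f → (t l * t (l + 1)) ^ 3 = 1 →
      3 ∣ Nat.card (W t (Ico j (j + f))) := by
    intro l h1 h2 h3
    have : Fact (Nat.Prime 3) := ⟨by norm_num⟩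
    rw [← orderOf_eq_prime h3 (by
      rw [Ne, mul_eq_one_iff_eq_inv, inv_eq_of_sq (hi _)]; exact ad l h1 h2)]
    exact Subgroup.orderOf_dvd_natCard _
      (mul_mem (W_gen ⟨h1, by omega⟩) (W_gen ⟨by omega, h2⟩))
  have d6 : 3 ≤ f → 6 ∣ Nat.card (W t (Ico j (j + f))) := by
    intro hf
    have := d2 (by omega)
    have : 3 ∣ Nat.card (W t (Ico j (j + f))) :=
      (e2 j le_rfl (by omega)).elim (d3 j le_rfl (by omega)) (d3 (j + 1) (by omega) (by omega))
    omega
  have g4 : 2 ≤ f → 4 ≤ Nat.card (W t (Ico j (j + 2))) := fun hf =>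
    two j ⟨le_rfl, by omega⟩ (j + 1) ⟨by omega, by omega⟩ (ad j le_rfl (by omega)) _
      ⟨le_rfl, by omega⟩ ⟨by omega, by omega⟩
  have g8 : 4 ≤ f → 8 ≤ Nat.card (W t (Ico j (j + f))) := by
    intro hf
    rcases e3 j le_rfl (by omega) with h3 | h3
    · have a1 := two (j + 2) ⟨by omega, by omega⟩ (j + 3) ⟨by omega, by omega⟩
        (ad (j + 2) (by omega) (by omega)) (Ico (j + 2) (j + 4)) ⟨le_rfl, by omega⟩
        ⟨by omega, by omega⟩
      have a2 := card_double (A := W t (Ico (j + 2) (j + 4))) (B := W t (Ico j (j + f)))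
        (W_mono (Ico_subset_Ico (by omega) (by omega))) (W_gen (c := j + 1) ⟨by omega, by omega⟩)
        fun hh => ad j le_rfl (by omega) (eq_of_comm_cube (hi _) (hi _) h3
          (W_comm (fun c hcc => hc j c hcc.1) hh))
      omega
    · have a1 := dbl (j + 2) (by omega) (by omega) h3
      have a2 := g4 (by omega)
      have a3 := le (Ico j (j + 2 + 1)) (Ico_subset_Ico_right (by omega))
      omega
  have gp : 5 ≤ f → ∀ i, i + 2 ≤ f - 2 → 2 ^ (i + 2) ≤ Nat.card (W t (Ico j (j + (i + 2)))) := by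
    intro hf i
    induction i with
    | zero => intro _; exact g4 (by omega)
    | succ i ih =>
      intro h1
      have := dbl (j + (i + 2)) (by omega) (by omega) (e4 (j + i) (by omega) (by omega)).2
      have := ih (by omega)
      rw [pow_succ, show j + (i + 1 + 2) = j + (i + 2) + 1 by omega]
      omega
  have gq : 5 ≤ f → 2 ^ (f - 2) ≤ Nat.card (W t (Ico j (j + f))) := by
    intro hf
    have := gp hf (f - 4) (by omega)
    rw [show f - 4 + 2 = f - 2 by omega] at this
    exact this.trans (le _ (Ico_subset_Ico_right (by omega)))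
  have hp : 0 < Nat.card (W t (Ico j (j + f))) := Nat.card_pos
  have g4' : 2 ≤ f → 4 ≤ Nat.card (W t (Ico j (j + f))) := fun hf =>
    (g4 hf).trans (le _ (Ico_subset_Ico_right (by omega)))
  have big : 4 ≤ f → 2 * f + 2 ≤ Nat.card (W t (Ico j (j + f))) := by
    intro hf
    have a1 := d6 (by omega)
    have a2 := g8 hf
    by_cases h7 : 7 ≤ f
    · have a3 := gq (by omega)
      have a4 := two_pow_ge (f - 7)
      rw [show f - 7 + 5 = f - 2 by omega] at a4
      omega
    by_cases h6 : f = 6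
    · have a3 := gq (by omega)
      rw [h6] at a3 ⊢
      norm_num at a3
      omega
    · omega
  refine ⟨d2, ?_, d6, ?_, ?_⟩
  · omega
  · omega
  · intro hf h6
    by_contra hne
    have sub : ({j, j + 2} : Set ℕ) ⊆ Ico j (j + f) := by
      rintro c (rfl | rfl) <;> constructor <;> omega
    have a1 := two j ⟨le_rfl, by omega⟩ (j + 2) ⟨by omega, by omega⟩ hne {j, j + 2} (by simp)
      (by simp)
    have a2 := Subgroup.card_dvd_of_le (W_mono (t := t) sub)
    rw [h6] at a2
    have a3 := Nat.le_of_dvd (by norm_num) a2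
    have a4 : Nat.card (W t {j, j + 2}) = 6 := by
      generalize Nat.card (W t {j, j + 2}) = k at *
      interval_cases k <;> simp_all
    have a5 : t (j + 1) ∈ W t {j, j + 2} := by
      rw [Subgroup.eq_of_le_of_card_ge (W_mono (t := t) sub) (by omega)]
      exact W_gen ⟨by omega, by omega⟩
    rcases e2 j le_rfl (by omega) with h3 | h3
    · refine ad j le_rfl (by omega) (eq_of_comm_cube (hi _) (hi _) h3 (W_comm ?_ a5))
      rintro c (rfl | rfl)
      exacts [Commute.refl _, hc _ _ le_rfl]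
    · refine ad (j + 1) (by omega) (by omega)
        (eq_of_comm_cube (hi _) (hi _) h3 (W_comm ?_ a5).symm)
      rintro c (rfl | rfl)
      exacts [(hc _ _ le_rfl).symm, Commute.refl _]

end Grp

end Pool.Agent.FlagOrb
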