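import Pool.Agent.Lib.MP_7157e1_co.FoWall

/-! Forbidden subdiagrams for a positive set of involutions. -/

namespace Pool.Agent.FlagOrb

open Set Real

variable {G : Type} [Group G] [DecidableEq G]

/-- The positivity data, unbundled. -/
structure CoxC (S : Set G) (C : G → G → ℝ) : Prop where
  nn : ∀ g ∈ S, ∀ k ∈ S, g ≠ k → 0 ≤ C g k
  h3 : ∀ g ∈ S, ∀ k ∈ S, ¬ Commute g k → 1 / 2 ≤ C g k
  h4 : ∀ g ∈ S, ∀ k ∈ S, ¬ Commute g k → (g * k) ^ 3 ≠ 1 → √2 / 2 ≤ C g k
  wit : ∀ Z : Finset G, (∀ g ∈ Z, g ∈ S) → Z.Nonempty → ∀ α : G → ℝ, (∀ g ∈ Z, 0 < α g) →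
      ∃ g ∈ Z, ∑ k ∈ Z.erase g, C g k * α k < α g

lemma Cox.exC {S : Set G} (h : Cox S) : ∃ C, CoxC S C := by
  obtain ⟨C, h1, h2, h3, h4⟩ := h
  exact ⟨C, h1, h2, h3, h4⟩

/-- A path in the diagram. -/
structure IsPath (S : Set G) (q : ℕ → G) (m : ℕ) : Prop where
  mem : ∀ i ≤ m, q i ∈ S
  inj : ∀ i ≤ m, ∀ j ≤ m, q i = q j → i = j
  adj : ∀ i < m, ¬ Commute (q i) (q (i + 1))

omit [DecidableEq G] in
lemma ne_of_adj {g k : G} (h : ¬ Commute g k) : g ≠ k := by
  rintro rfl; exact h (Commute.refl _)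

omit [DecidableEq G] in
lemma adj_symm {g k : G} (h : ¬ Commute g k) : ¬ Commute k g := fun h' => h h'.symm

namespace IsPath

omit [DecidableEq G]

variable {S : Set G} {q : ℕ → G} {m : ℕ}

lemma le (h : IsPath S q m) {m' : ℕ} (hm : m' ≤ m) : IsPath S q m' :=
  ⟨fun i hi => h.mem i (by omega), fun i hi j hj => h.inj i (by omega) j (by omega),
    fun i hi => h.adj i (by omega)⟩

lemma shift (h : IsPath S q m) {a : ℕ} (ha : a ≤ m) : IsPath S (fun i => q (a + i)) (m - a) :=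
  ⟨fun i hi => h.mem _ (by omega),
    fun i hi j hj he => by have := h.inj _ (by omega) _ (by omega) he; omega,
    fun i hi => h.adj (a + i) (by omega)⟩

lemma mono (h : IsPath S q m) {S' : Set G} (hS : S ⊆ S') : IsPath S' q m :=
  ⟨fun i hi => hS (h.mem i hi), h.inj, h.adj⟩

lemma cons (h : IsPath S q m) {g : G} (hg : g ∈ S) (hn : ∀ i ≤ m, g ≠ q i)
    (ha : ¬ Commute g (q 0)) : IsPath S (fun i => Nat.casesOn i g q) (m + 1) := by
  refine ⟨?_, ?_, ?_⟩
  · rintro (_ | i) hi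
    · exact hg
    · exact h.mem i (by omega)
  · rintro (_ | i) hi (_ | j) hj he
    · rfl
    · exact absurd he (hn j (by omega))
    · exact absurd he.symm (hn i (by omega))
    · rw [h.inj i (by omega) j (by omega) he]
  · rintro (_ | i) hi
    · exact ha
    · exact h.adj i (by omega)

lemma snoc (h : IsPath S q m) {g : G} (hg : g ∈ S) (hn : ∀ i ≤ m, g ≠ q i)
    (ha : ¬ Commute (q m) g) : IsPath S (fun i => if i ≤ m then q i else g) (m + 1) := by
  refine ⟨?_, ?_, ?_⟩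
  · intro i hi
    split_ifs with h1
    · exact h.mem i h1
    · exact hg
  · intro i hi j hj he
    split_ifs at he with h1 h2 h2
    · exact h.inj i h1 j h2 he
    · exact absurd he.symm (hn i h1)
    · exact absurd he (hn j h2)
    · omega
  · intro i hi
    rw [if_pos (by omega)]
    split_ifs with h1
    · exact h.adj i h1
    · obtain rfl : i = m := by omega
      exact ha

lemma single {g : G} (hg : g ∈ S) (q : ℕ → G) (h0 : q 0 = g) : IsPath S q 0 :=
  ⟨fun i hi => by obtain rfl : i = 0 := by omega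
                  rwa [h0], fun i hi j hj _ => by omega, fun i hi => by omega⟩

lemma of_conn {g k : G} (hg : g ∈ S)
    (h : Relation.ReflTransGen (fun a b => b ∈ S ∧ ¬ Commute a b) g k) :
    ∃ q m, IsPath S q m ∧ q 0 = g ∧ q m = k := by
  induction h with
  | refl => exact ⟨fun _ => g, 0, single hg _ rfl, rfl, rfl⟩
  | @tail b c _ h2 ih =>
    obtain ⟨q, m, hq, h0, hm⟩ := ih
    by_cases hc : ∃ i ≤ m, c = q i
    · obtain ⟨i, hi, rfl⟩ := hc
      exact ⟨q, i, hq.le hi, h0, rfl⟩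
    · push Not at hc
      refine ⟨_, m + 1, hq.snoc h2.1 hc (hm ▸ h2.2), ?_, ?_⟩
      · simp [h0]
      · simp

end IsPath

/-- A weighted branch hanging at `v`, contributing `ρ`. -/
def Br (S : Set G) (C : G → G → ℝ) (v : G) (B : Finset G) (ρ : ℝ) : Prop :=
  (∀ g ∈ B, g ∈ S) ∧ v ∉ B ∧ ∃ α : G → ℝ, (∀ g ∈ B, 0 < α g) ∧
    (∀ g ∈ B, α g ≤ ∑ k ∈ B.erase g, C g k * α k + C g v) ∧ ρ ≤ ∑ k ∈ B, C v k * α k

namespace CoxC

variable {S : Set G} {C : G → G → ℝ} (h : CoxC S C)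
include h

lemma br_empty (v : G) : Br S C v ∅ 0 :=
  ⟨by simp, by simp, fun _ => 1, by simp, by simp, by simp⟩

lemma br_mono {v : G} {B : Finset G} {ρ ρ' : ℝ} (hb : Br S C v B ρ) (hρ : ρ' ≤ ρ) :
    Br S C v B ρ' := by
  obtain ⟨h1, h2, α, h3, h4, h5⟩ := hb
  exact ⟨h1, h2, α, h3, h4, hρ.trans h5⟩

lemma br_leaf4 {v g : G} (hv : v ∈ S) (hg : g ∈ S) (ha : ¬ Commute v g) (h4 : (v * g) ^ 3 ≠ 1) :
    Br S C v {g} (1 / 2) := by
  have s2 : √2 * √2 = 2 := Real.mul_self_sqrt (by norm_num)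
  have s0 : 0 < √2 := by positivity
  have h4' : (g * v) ^ 3 ≠ 1 := by
    intro he
    apply h4
    have : v * g = v * (g * v) * v⁻¹ := by group
    rw [this, conj_pow, he]; simp
  refine ⟨by simpa, by simpa using ne_of_adj ha, fun _ => √2 / 2, by simp, ?_, ?_⟩
  · simpa using h.h4 g hg v hv (adj_symm ha) h4'
  · have := h.h4 v hv g hg ha h4
    simp only [Finset.sum_singleton]
    nlinarith

lemma br_union {v : G} {B B' : Finset G} {ρ ρ' : ℝ} (hb : Br S C v B ρ) (hb' : Br S C v B' ρ')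
    (hd : Disjoint B B') : Br S C v (B ∪ B') (ρ + ρ') := by
  obtain ⟨h1, h2, α, h3, h4, h5⟩ := hb
  obtain ⟨h1', h2', α', h3', h4', h5'⟩ := hb'
  have hd' := Finset.disjoint_left.1 hd
  have m : ∀ g ∈ B ∪ B', g ∈ S := fun g hg => (Finset.mem_union.1 hg).elim (h1 g) (h1' g)
  let β : G → ℝ := fun g => if g ∈ B then α g else α' g
  have b1 : ∀ g ∈ B, β g = α g := fun g hg => if_pos hg
  have b2 : ∀ g ∈ B', β g = α' g := fun g hg => if_neg fun hh => hd' hh hg
  have bp : ∀ g ∈ B ∪ B', 0 < β g := fun g hg => (Finset.mem_union.1 hg).elim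
    (fun hg => b1 g hg ▸ h3 g hg) (fun hg => b2 g hg ▸ h3' g hg)
  have sub : ∀ g ∈ B ∪ B', ∀ N ⊆ B ∪ B', ∑ k ∈ N.erase g, C g k * β k ≤
      ∑ k ∈ (B ∪ B').erase g, C g k * β k := by
    intro g hg N hN
    apply Finset.sum_le_sum_of_subset_of_nonneg (Finset.erase_subset_erase _ hN)
    intro k hk _
    rw [Finset.mem_erase] at hk
    exact mul_nonneg (h.nn g (m g hg) k (m k hk.2) hk.1.symm) (bp k hk.2).le
  refine ⟨m, by simp [h2, h2'], β, bp, ?_, ?_⟩
  · intro g hg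
    rcases Finset.mem_union.1 hg with hg1 | hg1
    · have := sub g hg B Finset.subset_union_left
      rw [Finset.sum_congr rfl fun k hk => by rw [b1 k (Finset.mem_of_mem_erase hk)]] at this
      have := h4 g hg1
      rw [b1 g hg1]; linarith
    · have := sub g hg B' Finset.subset_union_right
      rw [Finset.sum_congr rfl fun k hk => by rw [b2 k (Finset.mem_of_mem_erase hk)]] at this
      have := h4' g hg1
      rw [b2 g hg1]; linarith
  · rw [Finset.sum_union hd, Finset.sum_congr rfl fun k hk => by rw [b1 k hk],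
      Finset.sum_congr (s₁ := B') rfl fun k hk => by rw [b2 k hk]]
    linarith

lemma br_ext {v g : G} {B : Finset G} {ρ β : ℝ} (hv : v ∈ S) (hg : g ∈ S) (ha : ¬ Commute v g)
    (hb : Br S C g B ρ) (hvB : v ∉ B) (hβ : 0 < β) (hρ : β ≤ ρ * β + 1 / 2) :
    Br S C v (insert g B) (β / 2) := by
  obtain ⟨h1, h2, α, h3, h4, h5⟩ := hb
  let γ : G → ℝ := fun k => if k = g then β else β * α k
  have c1 : γ g = β := if_pos rfl
  have c2 : ∀ k ∈ B, γ k = β * α k := fun k hk => if_neg (by rintro rfl; exact h2 hk)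
  refine ⟨by simpa [hg] using h1, by simp [hvB, ne_of_adj ha], γ, ?_, ?_, ?_⟩
  · intro k hk
    rcases Finset.mem_insert.1 hk with rfl | hk
    · rwa [c1]
    · rw [c2 k hk]; exact mul_pos hβ (h3 k hk)
  · intro k hk
    rcases Finset.mem_insert.1 hk with rfl | hk
    · rw [Finset.erase_insert h2, c1, Finset.sum_congr rfl fun j hj => by
        rw [c2 j hj, mul_left_comm], ← Finset.mul_sum]
      have := h.h3 k hg v hv (adj_symm ha)
      nlinarith
    · have hkg : g ≠ k := by rintro rfl; exact h2 hk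
      rw [Finset.erase_insert_of_ne hkg, Finset.sum_insert (by simp [h2]), c1, c2 k hk,
        Finset.sum_congr rfl fun j hj => by
          rw [c2 j (Finset.mem_of_mem_erase hj), mul_left_comm], ← Finset.mul_sum]
      have a1 := h4 k hk
      have a2 := h.nn k (h1 k hk) v hv (by rintro rfl; exact hvB hk)
      nlinarith
  · rw [Finset.sum_insert h2, c1]
    have a1 := h.h3 v hv g hg ha
    have a2 : 0 ≤ ∑ k ∈ B, C v k * γ k := Finset.sum_nonneg fun k hk =>
      mul_nonneg (h.nn v hv k (h1 k hk) (by rintro rfl; exact hvB hk))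
        (by rw [c2 k hk]; exact (mul_pos hβ (h3 k hk)).le)
    nlinarith

lemma br_leaf {v g : G} (hv : v ∈ S) (hg : g ∈ S) (ha : ¬ Commute v g) :
    Br S C v {g} (1 / 4) := by
  have := h.br_ext (β := 1 / 2) hv hg ha (h.br_empty g) (by simp) (by norm_num) (by norm_num)
  exact h.br_mono (by simpa using this) (by norm_num)

lemma br_false {v : G} {B : Finset G} {ρ : ℝ} (hv : v ∈ S) (hb : Br S C v B ρ) (hρ : 1 ≤ ρ) :
    False := by
  obtain ⟨h1, h2, α, h3, h4, h5⟩ := hb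
  let γ : G → ℝ := fun k => if k = v then 1 else α k
  have c1 : γ v = 1 := if_pos rfl
  have c2 : ∀ k ∈ B, γ k = α k := fun k hk => if_neg (by rintro rfl; exact h2 hk)
  obtain ⟨g, hg, hlt⟩ := h.wit (insert v B) (by simpa [hv] using h1) (by simp) γ (by
    intro k hk
    rcases Finset.mem_insert.1 hk with rfl | hk
    · rw [c1]; exact one_pos
    · rw [c2 k hk]; exact h3 k hk)
  rcases Finset.mem_insert.1 hg with rfl | hg
  · rw [Finset.erase_insert h2, c1, Finset.sum_congr rfl fun j hj => by rw [c2 j hj]] at hlt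
    linarith
  · have hkg : v ≠ g := by rintro rfl; exact h2 hg
    rw [Finset.erase_insert_of_ne hkg, Finset.sum_insert (by simp [h2]), c1, c2 g hg,
      Finset.sum_congr rfl fun j hj => by rw [c2 j (Finset.mem_of_mem_erase hj)]] at hlt
    have := h4 g hg
    linarith

lemma br_path {q : ℕ → G} {m : ℕ} (hq : IsPath S q m) {B : Finset G} (f : ℕ → ℝ)
    (hb : Br S C (q m) B (f 0)) (hd : ∀ i ≤ m, q i ∉ B) (hf : ∀ i, 0 < f (i + 1))
    (hf2 : ∀ i, 2 * f (i + 1) ≤ f i * (2 * f (i + 1)) + 1 / 2) :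
    ∃ B' : Finset G, Br S C (q 0) B' (f m) ∧ ∀ g ∈ B', g ∈ B ∨ ∃ i, 1 ≤ i ∧ i ≤ m ∧ g = q i := by
  have key : ∀ j ≤ m, ∃ B' : Finset G, Br S C (q (m - j)) B' (f j) ∧
      ∀ g ∈ B', g ∈ B ∨ ∃ i, m - j + 1 ≤ i ∧ i ≤ m ∧ g = q i := by
    intro j
    induction j with
    | zero => intro _; exact ⟨B, hb, fun g hg => Or.inl hg⟩
    | succ j ih =>
      intro hj
      obtain ⟨B', b1, b2⟩ := ih (by omega)
      have e : m - j = m - (j + 1) + 1 := by omega
      have := h.br_ext (v := q (m - (j + 1))) (β := 2 * f (j + 1)) (hq.mem _ (by omega))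
        (hq.mem _ (by omega)) (by rw [e]; exact hq.adj _ (by omega)) b1 (by
          intro hm
          rcases b2 _ hm with hm | ⟨i, i1, i2, hm⟩
          · exact hd _ (by omega) hm
          · have := hq.inj _ (by omega) _ i2 hm
            omega) (by have := hf j; linarith) (hf2 j)
      refine ⟨_, h.br_mono this (by linarith), ?_⟩
      intro g hg
      rcases Finset.mem_insert.1 hg with rfl | hg
      · exact Or.inr ⟨m - j, by omega, by omega, rfl⟩
      · rcases b2 g hg with hm | ⟨i, i1, i2, hm⟩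
        · exact Or.inl hm
        · exact Or.inr ⟨i, by omega, i2, hm⟩
  simpa using key m le_rfl

/-- an arm of length `m` at `q 0` -/
lemma br_arm {q : ℕ → G} {m : ℕ} (hq : IsPath S q m) :
    ∃ B' : Finset G, Br S C (q 0) B' (m / (2 * (m + 1))) ∧
      ∀ g ∈ B', ∃ i, 1 ≤ i ∧ i ≤ m ∧ g = q i := by
  obtain ⟨B', b1, b2⟩ := h.br_path hq (fun i => (i : ℝ) / (2 * (i + 1)))
    (by simpa using h.br_empty _) (by simp) (fun i => by positivity) (fun i => by
      push_cast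
      apply le_of_eq
      field_simp
      ring)
  exact ⟨B', b1, fun g hg => by simpa using b2 g hg⟩

lemma br_two {v g k : G} (hv : v ∈ S) (hg : g ∈ S) (hk : k ∈ S) (hgk : g ≠ k)
    (h1 : ¬ Commute v g) (h2 : ¬ Commute v k) : Br S C v {g, k} (1 / 2) := by
  have := h.br_union (h.br_leaf hv hg h1) (h.br_leaf hv hk h2) (by simpa using hgk)
  exact h.br_mono (by simpa using this) (by norm_num)

/-- a fork at `q 0` and a heavy end at `q m` -/
lemma fork {q : ℕ → G} {m : ℕ} (hq : IsPath S q m) {B : Finset G} (hb : Br S C (q m) B (1 / 2))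
    (hd : ∀ i ≤ m, q i ∉ B) {g k : G} (hg : g ∈ S) (hk : k ∈ S) (hgk : g ≠ k)
    (h1 : ¬ Commute (q 0) g) (h2 : ¬ Commute (q 0) k) (g1 : g ∉ B) (k1 : k ∉ B)
    (g2 : ∀ i ≤ m, g ≠ q i) (k2 : ∀ i ≤ m, k ≠ q i) : False := by
  obtain ⟨B', b1, b2⟩ := h.br_path hq (fun _ => 1 / 2) hb hd (fun _ => by norm_num)
    (fun _ => by norm_num)
  have h0 := hq.mem 0 (Nat.zero_le _)
  refine h.br_false h0 (h.br_union b1 (h.br_two h0 hg hk hgk h1 h2) ?_) (by norm_num)
  rw [Finset.disjoint_right]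
  intro a ha hB
  simp only [Finset.mem_insert, Finset.mem_singleton] at ha
  rcases b2 a hB with hm | ⟨i, -, i2, hm⟩ <;> rcases ha with rfl | rfl
  exacts [g1 hm, k1 hm, g2 i i2 hm, k2 i i2 hm]

lemma no_cycle {q : ℕ → G} {m : ℕ} (hq : IsPath S q m) (hm : 2 ≤ m) : Commute (q 0) (q m) := by
  by_contra hc
  obtain ⟨g, hg, hlt⟩ := h.wit ((Finset.range (m + 1)).image q)
    (by
      intro g hg
      obtain ⟨i, hi, rfl⟩ := Finset.mem_image.1 hg
      exact hq.mem i (by simpa [Nat.lt_succ_iff] using hi))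
    ⟨q 0, Finset.mem_image_of_mem _ (by simp)⟩ (fun _ => 1) (by simp)
  obtain ⟨i, hi, rfl⟩ := Finset.mem_image.1 hg
  have hi' : i ≤ m := by simpa [Nat.lt_succ_iff] using hi
  have key : ∃ j ≤ m, ∃ l ≤ m, j ≠ l ∧ ¬ Commute (q i) (q j) ∧ ¬ Commute (q i) (q l) := by
    rcases i with _ | i
    · exact ⟨1, by omega, m, le_rfl, by omega, hq.adj 0 (by omega), hc⟩
    · rcases hi'.eq_or_lt with he | hl
      · exact ⟨i, by omega, 0, by omega, by omega, adj_symm (hq.adj i (by omega)),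
          by rw [he]; exact adj_symm hc⟩
      · exact ⟨i, by omega, i + 2, by omega, by omega, adj_symm (hq.adj i (by omega)),
          hq.adj (i + 1) hl⟩
  obtain ⟨j, hj, l, hl, hjl, a1, a2⟩ := key
  have hne : q j ≠ q l := fun he => hjl (hq.inj j hj l hl he)
  have : ∑ k ∈ {q j, q l}, C (q i) k * 1 ≤
      ∑ k ∈ ((Finset.range (m + 1)).image q).erase (q i), C (q i) k * 1 := by
    apply Finset.sum_le_sum_of_subset_of_nonneg
    · intro a ha
      simp only [Finset.mem_insert, Finset.mem_singleton] at ha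
      rcases ha with rfl | rfl
      · exact Finset.mem_erase.2 ⟨(ne_of_adj a1).symm, Finset.mem_image_of_mem _ (by simp; omega)⟩
      · exact Finset.mem_erase.2 ⟨(ne_of_adj a2).symm, Finset.mem_image_of_mem _ (by simp; omega)⟩
    · intro a ha _
      rw [Finset.mem_erase] at ha
      obtain ⟨j, hj, rfl⟩ := Finset.mem_image.1 ha.2
      rw [mul_one]
      exact h.nn _ (hq.mem i hi') _ (hq.mem j (by simpa [Nat.lt_succ_iff] using hj)) ha.1.symm
  rw [Finset.sum_pair hne] at this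
  have b1 := h.h3 _ (hq.mem i hi') _ (hq.mem j hj) a1
  have b2 := h.h3 _ (hq.mem i hi') _ (hq.mem l hl) a2
  linarith

lemma path_comm {q : ℕ → G} {m : ℕ} (hq : IsPath S q m) {i j : ℕ} (hij : i + 2 ≤ j)
    (hj : j ≤ m) : Commute (q i) (q j) := by
  have := h.no_cycle ((hq.le hj).shift (a := i) (by omega)) (by omega)
  simpa [show i + (j - i) = j by omega] using this

/-- three disjoint arms -/
lemma star {q1 q2 q3 : ℕ → G} {m1 m2 m3 : ℕ} (h1 : IsPath S q1 m1) (h2 : IsPath S q2 m2)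
    (h3 : IsPath S q3 m3) (e2 : q2 0 = q1 0) (e3 : q3 0 = q1 0)
    (d12 : ∀ i j, 1 ≤ i → i ≤ m1 → 1 ≤ j → j ≤ m2 → q1 i ≠ q2 j)
    (d13 : ∀ i j, 1 ≤ i → i ≤ m1 → 1 ≤ j → j ≤ m3 → q1 i ≠ q3 j)
    (d23 : ∀ i j, 1 ≤ i → i ≤ m2 → 1 ≤ j → j ≤ m3 → q2 i ≠ q3 j) :
    (m1 : ℝ) / (2 * (m1 + 1)) + m2 / (2 * (m2 + 1)) + m3 / (2 * (m3 + 1)) < 1 := by
  obtain ⟨B1, b1, c1⟩ := h.br_arm h1
  obtain ⟨B2, b2, c2⟩ := h.br_arm h2
  obtain ⟨B3, b3, c3⟩ := h.br_arm h3
  rw [e2] at b2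
  rw [e3] at b3
  by_contra hcon
  refine h.br_false (h1.mem 0 (Nat.zero_le _)) (h.br_union (h.br_union b1 b2 ?_) b3 ?_)
    (not_lt.1 hcon)
  · rw [Finset.disjoint_left]
    intro a a1 a2
    obtain ⟨i, i1, i2, rfl⟩ := c1 a a1
    obtain ⟨j, j1, j2, he⟩ := c2 _ a2
    exact d12 i j i1 i2 j1 j2 he
  · rw [Finset.disjoint_left]
    intro a a1 a3
    obtain ⟨j, j1, j2, rfl⟩ := c3 a a3
    rcases Finset.mem_union.1 a1 with a1 | a1
    · obtain ⟨i, i1, i2, he⟩ := c1 _ a1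
      exact d13 i j i1 i2 j1 j2 he.symm
    · obtain ⟨i, i1, i2, he⟩ := c2 _ a1
      exact d23 i j i1 i2 j1 j2 he.symm

end CoxC

end Pool.Agent.FlagOrb
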