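import Mathlib

/-! Face lattices of convex polytopes and the number of combinatorial flag orbits. -/

namespace Pool.Agent.FlagOrb

/-- The faces of a set `P` in Euclidean `d`-space: the exposed subsets of `P` (these include the
empty set and `P` itself), ordered by inclusion. -/
abbrev Faces {d : ℕ} (P : Set (EuclideanSpace ℝ (Fin d))) : Type :=
  {F : Set (EuclideanSpace ℝ (Fin d)) // IsExposed ℝ P F}

/-- The number of orbits of the group of order automorphisms of `α` on the flags (maximal chains)
of `α`. -/
noncomputable def flagOrbits (α : Type) [PartialOrder α] : ℕ :=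
  Nat.card (Quot fun Φ Ψ : Flag α => ∃ e : α ≃o α, Flag.map e Φ = Ψ)

end Pool.Agent.FlagOrb
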