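import Pool.Agent.Lib.MP_7157e1_co.FoRf

/-! Trivial colours occur only at the two ends. -/

namespace Pool.Agent.FlagOrb

open Equiv Set

namespace PS

variable {F L : Type} [Lattice L] {n : ℕ} {r : ℕ → Perm F} {φ : ℕ → F → L} (h : PS n r φ)
include h

lemma both_nonwall {c1 c2 : ℕ} (hc : c1 + 2 ≤ c2) (ht : ∀ c, c1 < c → c < c2 → ∀ x, Wl r x c)
    {y1 y2 : F} (h1 : ¬ Wl r y1 c1) (h2 : ¬ Wl r y2 c2) : ∃ x, ¬ Wl r x c1 ∧ ¬ Wl r x c2 := by
  have cm : ∀ c ∈ Iic c1, ∀ c' ∈ Ici c2, Commute (r c) (r c') := fun c hc c' hc' =>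
    h.comm c c' (by have := mem_Iic.1 hc; have := mem_Ici.1 hc'; omega)
  have key : ∃ l ∈ W r (Iic c1), ∃ k ∈ W r (Ici c2), Eqv r y2 (l (k y1)) := by
    refine (h.all y1 y2).ind (fun c _ => h.inv c)
      (P := fun y => ∃ l ∈ W r (Iic c1), ∃ k ∈ W r (Ici c2), Eqv r y (l (k y1)))
      ⟨1, one_mem _, 1, one_mem _, Eqv.refl _⟩ ?_
    rintro y c _ _ ⟨l, hl, k, hk, he⟩
    by_cases e1 : c ≤ c1
    · exact ⟨r c * l, mul_mem (W_gen e1) hl, k, hk, he.step c⟩
    by_cases e2 : c2 ≤ c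
    · refine ⟨l, hl, r c * k, mul_mem (W_gen e2) hk, ?_⟩
      have := (W_comm2 cm hl (W_gen e2)).eq
      rw [Perm.mul_apply, ← Perm.mul_apply l, this]
      exact he.step c
    · exact ⟨l, hl, k, hk, (ht c (by omega) (by omega) y).symm.trans he⟩
  obtain ⟨l, hl, k, hk, he⟩ := key
  refine ⟨k y1, fun hw => h1 ?_, fun hw => h2 ?_⟩
  · simpa using hw.comm (inv_mem hk) (W_comm2 cm (W_gen (mem_Iic.2 le_rfl)) (inv_mem hk)).symm
  · exact (hw.comm hl (W_comm2 cm hl (W_gen (mem_Ici.2 le_rfl)))).eqv he.symm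

lemma T1 [Finite F] {a : ℕ} (hn : a + 2 < n) (ht : ∀ x, Wl r x (a + 1)) {x : F}
    (h1 : ¬ Wl r x a) (h2 : ¬ Wl r x (a + 2)) : False := by
  classical
  have hm := (h.wall (a := a) (b := a + 3) (by omega) x).2
  have cm := h.capp (c := a) (c' := a + 2) le_rfl
  have n1 : ∀ w, ¬ Wl r w a ∧ ¬ Wl r w (a + 2) →
      (¬ Wl r (r a w) a ∧ ¬ Wl r (r a w) (a + 2)) ∧
      ¬ Wl r (r (a + 2) w) a ∧ ¬ Wl r (r (a + 2) w) (a + 2) := fun w hw =>
    ⟨⟨by rw [h.wl_step]; exact hw.1, by rw [h.wl_far (by omega) (by omega)]; exact hw.2⟩,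
      by rw [h.wl_far (by omega) (by omega)]; exact hw.1, by rw [h.wl_step]; exact hw.2⟩
  have hD : ∀ w, InD r a (a + 3) x w → (¬ Wl r w a ∧ ¬ Wl r w (a + 2)) ∧
      (w = x ∨ w = r a x ∨ w = r (a + 2) x ∨ w = r a (r (a + 2) x)) := by
    intro w hw
    refine hw.ind (P := fun w => (¬ Wl r w a ∧ ¬ Wl r w (a + 2)) ∧
      (w = x ∨ w = r a x ∨ w = r (a + 2) x ∨ w = r a (r (a + 2) x))) ⟨⟨h1, h2⟩, Or.inl rfl⟩ ?_
    rintro y c _ hc hw ⟨i1, i2⟩
    have : c = a ∨ c = a + 2 := by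
      have := hc.1
      have := hc.2
      have : c ≠ a + 1 := by rintro rfl; exact hw (ht y)
      omega
    rcases this with rfl | rfl
    · refine ⟨(n1 y i1).1, ?_⟩
      rcases i2 with rfl | rfl | rfl | rfl <;> simp [h.rr]
    · refine ⟨(n1 y i1).2, ?_⟩
      rcases i2 with rfl | rfl | rfl | rfl <;> simp [h.rr, ← cm]
  have hM : ∀ g k, Meet r a (a + 3) x g k → ∃ w, InD r a (a + 3) x w ∧ g = rf r w (a + 1) ∧
      (k = rf r (r a w) (a + 1) ∨ k = rf r (r (a + 2) w) (a + 1)) := by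
    rintro g k ⟨w, c, c', t, w', e, hw, hc, hc', hcc, hwl, hs, rfl, rfl⟩
    have hw2 := (hD w hw).1
    obtain rfl : c = a + 1 := by
      have := hc.1
      have := hc.2
      have : c ≠ a := by rintro rfl; exact hw2.1 hwl
      have : c ≠ a + 2 := by rintro rfl; exact hw2.2 hwl
      omega
    have hc2 : c' = a ∨ c' = a + 2 := by
      have := hc'.1
      have := hc'.2
      omega
    refine ⟨w, hw, rfl, ?_⟩
    cases hs with
    | zero => rcases hc2 with rfl | rfl
              exacts [absurd ‹_› hw2.1, absurd ‹_› hw2.2]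
    | succ _ _ _ t _ _ _ hs =>
      cases hs with
      | zero => rcases hc2 with rfl | rfl
                exacts [Or.inl rfl, Or.inr rfl]
      | succ _ _ _ _ _ _ hn _ => exact absurd (ht _) hn
  have s1 : ∀ w, rf r w (a + 1) ≠ rf r (r a w) (a + 1) := fun w =>
    h.rf_step_ne (ht _) (ht _) (Or.inr ⟨rfl, by omega⟩)
  have s2 : ∀ w, rf r w (a + 1) ≠ rf r (r (a + 2) w) (a + 1) := fun w =>
    h.rf_step_ne (ht _) (ht _) (Or.inl ⟨rfl, hn⟩)
  have s3 : rf r x (a + 1) ≠ rf r (r a (r (a + 2) x)) (a + 1) := by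
    intro he
    have e1 := rf_app (ht (r a (r (a + 2) x)))
    rw [← he, Aut.app (rf_aut _ _), Aut.app (rf_aut _ _), rf_app (ht x)] at e1
    have e2 := congrArg (φ (a + 1)) e1
    rw [h.same (a + 1) (a + 1) _ (by omega), cm, cm, h.same (a + 2) (a + 1) _ (by omega),
      h.same (a + 2) (a + 1) _ (by omega)] at e2
    apply h.ne_face (c := a + 1) (by omega) x
    rw [← h.join a _ (by omega), ← h.join a x (by omega), e2, h.same (a + 1) (a + 1) _ (by omega)]
  have m1 : InD r a (a + 3) x (r (a + 2) x) := (InD.refl x).next ⟨by omega, by omega⟩ h2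
  have m2 : InD r a (a + 3) x (r a (r (a + 2) x)) := m1.next ⟨by omega, by omega⟩ (hD _ m1).1.1
  have t1 := s1 x
  have t2 := s2 x
  have t3 := s1 (r (a + 2) x)
  have t4 := s2 (r a x)
  rw [← cm] at t4
  rcases hm _ (wall_mem (c := a + 1) (InD.refl x) ⟨by omega, by omega⟩ (ht _)) _
    (wall_mem (c := a + 1) m2 ⟨by omega, by omega⟩ (ht _)) s3 with hh | hh <;>
  obtain ⟨w, hw, e1, e2⟩ := hM _ _ hh <;>
  rcases (hD w hw).2 with rfl | rfl | rfl | rfl
  · rcases e2 with e2 | e2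
    exacts [t4 e2.symm, t3 e2.symm]
  · exact t1 e1
  · exact t2 e1
  · exact s3 e1
  · exact s3 e1.symm
  · exact t4 e1.symm
  · exact t3 e1.symm
  · rw [h.rr, ← cm, h.rr] at e2
    rcases e2 with e2 | e2
    exacts [t2 e2, t1 e2]

lemma T2 [Finite F] {a b : ℕ} (hab : a + 3 ≤ b) (hn : b < n)
    (ht : ∀ c, a < c → c < b → ∀ x, Wl r x c) {x : F}
    (h1 : ¬ Wl r x a) (h2 : ¬ Wl r x b) : False := by
  classical
  obtain ⟨C, hC⟩ := (h.wall (a := a) (b := b + 1) (by omega) x).1.exC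
  have cm := h.capp (c := a) (c' := b) (by omega)
  have m0 : InD r a (b + 1) x x := InD.refl x
  have m1 : InD r a (b + 1) x (r a x) := m0.next ⟨by omega, by omega⟩ h1
  have m2 : InD r a (b + 1) x (r b x) := m0.next ⟨by omega, by omega⟩ h2
  have mem : ∀ w, InD r a (b + 1) x w → ∀ c, a < c → c < b → rf r w c ∈ Walls r a (b + 1) x :=
    fun w hw c c1 c2 => wall_mem hw ⟨by omega, by omega⟩ (ht c c1 c2 w)
  have ea : ∀ w c, a + 2 ≤ c → c < b → rf r (r a w) c = rf r w c := fun w c c1 c2 =>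
    h.rf_step (ht c (by omega) c2 w) (by omega) (by omega)
  have eb : ∀ w c, a < c → c + 2 ≤ b → rf r (r b w) c = rf r w c := fun w c c1 c2 =>
    h.rf_step (ht c c1 (by omega) w) (by omega) (by omega)
  have ne : ∀ w c c', a < c → c < b → a < c' → c' < b → c ≠ c' → rf r w c ≠ rf r w c' :=
    fun w c c' c1 c2 c3 c4 c5 => h.rf_ne (ht c c1 c2 w) (ht c' c3 c4 w) (by omega) c5
  have adj : ∀ w c, a < c → c + 1 < b → ¬ Commute (rf r w c) (rf r w (c + 1)) :=
    fun w c c1 c2 => h.rf_adj (ht c c1 (by omega) w) (ht _ (by omega) c2 w) (by omega)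
  have s1 : rf r x (a + 1) ≠ rf r (r a x) (a + 1) :=
    h.rf_step_ne (ht _ (by omega) (by omega) _) (ht _ (by omega) (by omega) _)
      (Or.inr ⟨rfl, by omega⟩)
  obtain ⟨m, rfl⟩ : ∃ m, b = a + 3 + m := ⟨b - (a + 3), by omega⟩
  have s2 : rf r x (a + 2 + m) ≠ rf r (r (a + 3 + m) x) (a + 2 + m) :=
    h.rf_step_ne (ht _ (by omega) (by omega) _) (ht _ (by omega) (by omega) _)
      (Or.inl ⟨by omega, hn⟩)
  have d1 : ∀ c, a + 2 ≤ c → c < a + 3 + m → rf r (r a x) (a + 1) ≠ rf r x c := by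
    intro c c1 c2
    rw [← ea x c c1 c2]
    exact ne _ _ _ (by omega) (by omega) (by omega) (by omega) (by omega)
  have d2 : ∀ c, a < c → c < a + 2 + m → rf r x c ≠ rf r (r (a + 3 + m) x) (a + 2 + m) := by
    intro c c1 c2
    rw [← eb x c c1 (by omega)]
    exact ne _ _ _ (by omega) (by omega) (by omega) (by omega) (by omega)
  have e3 : rf r (r a x) (a + 1) = rf r (r (a + 3 + m) (r a x)) (a + 1) :=
    (eb _ _ (by omega) (by omega)).symm
  have e4 : rf r (r (a + 3 + m) x) (a + 2 + m) = rf r (r (a + 3 + m) (r a x)) (a + 2 + m) := by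
    rw [← cm, ea _ _ (by omega) (by omega)]
  rcases m with _ | m
  · have a1 := adj x (a + 1) (by omega) (by omega)
    have a2 : ¬ Commute (rf r x (a + 2)) (rf r (r a x) (a + 1)) := by
      rw [← ea x (a + 2) le_rfl (by omega)]
      exact adj_symm (adj _ (a + 1) (by omega) (by omega))
    have a3 : ¬ Commute (rf r (r a x) (a + 1)) (rf r (r (a + 3) x) (a + 2)) := by
      rw [e3, show rf r (r (a + 3) x) (a + 2) = _ from e4]
      exact adj _ (a + 1) (by omega) (by omega)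
    have a4 : ¬ Commute (rf r x (a + 1)) (rf r (r (a + 3) x) (a + 2)) := by
      rw [← eb x (a + 1) (by omega) (by omega)]
      exact adj _ (a + 1) (by omega) (by omega)
    have p0 := IsPath.single (mem _ m2 (a + 2) (by omega) (by omega))
      (fun _ => rf r (r (a + 3) x) (a + 2)) rfl
    have p1 := p0.cons (mem _ m1 (a + 1) (by omega) (by omega)) (fun _ _ => ne_of_adj a3) a3
    have p2 := p1.cons (mem _ m0 (a + 2) (by omega) (by omega)) (by
      rintro (_ | i) _
      exacts [ne_of_adj a2, s2]) a2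
    have p3 := p2.cons (mem _ m0 (a + 1) (by omega) (by omega)) (by
      rintro (_ | _ | i) _
      exacts [ne_of_adj a1, s1, ne_of_adj a4]) a1
    exact a4 (hC.no_cycle p3 (by omega))
  · have pq : IsPath (Walls r a (a + 3 + (m + 1) + 1) x) (fun t => rf r x (a + 2 + t)) m :=
      ⟨fun i hi => mem _ m0 _ (by omega) (by omega), fun i hi j hj he => by
        by_contra hij
        exact ne x _ _ (by omega) (by omega) (by omega) (by omega) (by omega) he,
        fun i hi => adj x (a + 2 + i) (by omega) (by omega)⟩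
    refine hC.fork pq (hC.br_two (pq.mem m le_rfl)
      (mem _ m0 (a + 2 + (m + 1)) (by omega) (by omega))
      (mem _ m2 (a + 2 + (m + 1)) (by omega) (by omega)) s2
      (adj x (a + 2 + m) (by omega) (by omega)) ?_) ?_
      (mem _ m0 (a + 1) (by omega) (by omega)) (mem _ m1 (a + 1) (by omega) (by omega)) s1
      (adj_symm (adj x (a + 1) (by omega) (by omega))) ?_ ?_ ?_ ?_ ?_
    · rw [← eb x (a + 2 + m) (by omega) (by omega)]
      exact adj _ (a + 2 + m) (by omega) (by omega)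
    · intro i hi
      simp only [Finset.mem_insert, Finset.mem_singleton, not_or]
      exact ⟨ne x _ _ (by omega) (by omega) (by omega) (by omega) (by omega),
        d2 _ (by omega) (by omega)⟩
    · change ¬ Commute (rf r x (a + 2)) _
      rw [← ea x (a + 2) le_rfl (by omega)]
      exact adj_symm (adj _ (a + 1) (by omega) (by omega))
    · simp only [Finset.mem_insert, Finset.mem_singleton, not_or]
      exact ⟨ne x _ _ (by omega) (by omega) (by omega) (by omega) (by omega),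
        d2 _ (by omega) (by omega)⟩
    · simp only [Finset.mem_insert, Finset.mem_singleton, not_or]
      refine ⟨d1 _ (by omega) (by omega), ?_⟩
      rw [e3, e4]
      exact ne _ _ _ (by omega) (by omega) (by omega) (by omega) (by omega)
    · exact fun i hi => ne x _ _ (by omega) (by omega) (by omega) (by omega) (by omega)
    · exact fun i hi => d1 _ (by omega) (by omega)

theorem T [Finite F] {i j k : ℕ} (hij : i < j) (hjk : j < k) (hk : k < n)
    (hi : ∃ x, ¬ Wl r x i) (hk' : ∃ x, ¬ Wl r x k) : ∃ x, ¬ Wl r x j := by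
  classical
  by_contra hj
  push Not at hj
  let P : ℕ → Prop := fun c => ∃ x, ¬ Wl r x c
  have e2 : ∃ c, j < c ∧ P c := ⟨k, hjk, hk'⟩
  have b1 := Nat.find_spec e2
  have b2 : Nat.find e2 ≤ k := Nat.find_min' e2 ⟨hjk, hk'⟩
  have a1 : P (Nat.findGreatest P j) := Nat.findGreatest_spec hij.le hi
  have a2 : Nat.findGreatest P j ≤ j := Nat.findGreatest_le j
  have a3 : Nat.findGreatest P j ≠ j := by
    intro he
    rw [he] at a1
    obtain ⟨x, hx⟩ := a1
    exact hx (hj x)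
  have ht : ∀ c, Nat.findGreatest P j < c → c < Nat.find e2 → ∀ x, Wl r x c := by
    intro c c1 c2 x
    by_contra hx
    by_cases hc : c ≤ j
    · exact Nat.findGreatest_is_greatest c1 hc ⟨x, hx⟩
    · exact Nat.find_min e2 c2 ⟨by omega, x, hx⟩
  generalize Nat.findGreatest P j = a at *
  generalize Nat.find e2 = b at *
  obtain ⟨y1, h1⟩ := a1
  obtain ⟨b0, y2, h2⟩ := b1
  obtain ⟨x, x1, x2⟩ := h.both_nonwall (by omega) ht h1 h2
  by_cases hb : b = a + 2
  · subst hb
    exact h.T1 (by omega) (ht (a + 1) (by omega) (by omega)) x1 x2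
  · exact h.T2 (by omega) (by omega) ht x1 x2

theorem TF [Finite F] (hn : 5 ≤ n) (h0 : ∀ x, Wl r x 0) (h1 : ∀ x, Wl r x 1)
    (hf : ∀ c, 2 ≤ c → c ≤ 4 → ∀ x, ¬ Wl r x c) (x : F) : False := by
  classical
  obtain ⟨C, hC⟩ := (h.wall (a := 0) (b := n) le_rfl x).1.exC
  have hD : ∀ y, Rch r (Ico 2 5) x y → InD r 0 n x y := fun y hy =>
    hy.ind (fun c _ => h.inv c) (P := fun y => InD r 0 n x y) (InD.refl x)
      fun y c hc _ ih => ih.next ⟨by omega, by have := hc.2; omega⟩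
        (hf c hc.1 (by have := hc.2; omega) y)
  have hr : ∀ i ≤ 3, Rch r (Ico 2 5) x (up r 2 i x) := fun i hi =>
    ⟨_, W_mono (Ico_subset_Ico_right (by omega)) (up_mem r 2 i), rfl⟩
  have mem : ∀ i ≤ 3, rf r (up r 2 i x) 1 ∈ Walls r 0 n x := fun i hi =>
    wall_mem (hD _ (hr i hi)) ⟨by omega, by omega⟩ (h1 _)
  have adj : ∀ i ≤ 3, ¬ Commute (rf r x 0) (rf r (up r 2 i x) 1) := by
    intro i hi
    rw [← h.rf_rch (h0 x) (hr i hi) fun c hc => by have := hc.1; omega]
    exact h.rf_adj (h0 _) (h1 _) (by omega)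
  have ne : ∀ i j, i < j → j ≤ 3 → rf r (up r 2 i x) 1 ≠ rf r (up r 2 j x) 1 :=
    fun i j hij hj => h.rf_dist h1 hij (by omega) x
  have m0 : rf r x 0 ∈ Walls r 0 n x := wall_mem (InD.refl x) ⟨le_rfl, by omega⟩ (h0 x)
  refine hC.br_false m0 (hC.br_union
    (hC.br_two m0 (mem 0 (by omega)) (mem 1 (by omega)) (ne 0 1 (by omega) (by omega))
      (adj 0 (by omega)) (adj 1 (by omega)))
    (hC.br_two m0 (mem 2 (by omega)) (mem 3 (by omega)) (ne 2 3 (by omega) (by omega))
      (adj 2 (by omega)) (adj 3 (by omega))) ?_) (by norm_num)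
  simp only [Finset.disjoint_insert_left, Finset.mem_insert, Finset.mem_singleton, not_or,
    Finset.disjoint_singleton_left]
  exact ⟨⟨ne 0 2 (by omega) (by omega), ne 0 3 (by omega) (by omega)⟩,
    ne 1 2 (by omega) (by omega), ne 1 3 (by omega) (by omega)⟩

end PS

end Pool.Agent.FlagOrb
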