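import Pool.Agent.Lib.MP_7157e1_co.FoGeoT

/-! Long initial runs of trivial colours. -/

namespace Pool.Agent.FlagOrb

open Equiv Set

/-- The number of types. -/
noncomputable def nty {F : Type} (r : ℕ → Perm F) : ℕ := Nat.card (Quotient (tySetoid r))

lemma star_arith {a b c : ℕ} (ha : 1 ≤ a) (hb : 1 ≤ b) (hc : 1 ≤ c) (hs : 8 ≤ a + b + c)
    (h : (a : ℝ) / (2 * (a + 1)) + b / (2 * (b + 1)) + c / (2 * (c + 1)) < 1) :
    (a = 1 ∧ b = 1) ∨ (a = 1 ∧ c = 1) ∨ (b = 1 ∧ c = 1) := by
  have key : ∀ a : ℕ, 1 ≤ a → (a = 1 ∧ 1 / 4 ≤ (a : ℝ) / (2 * (a + 1))) ∨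
      (a = 2 ∧ 1 / 3 ≤ (a : ℝ) / (2 * (a + 1))) ∨
      (3 ≤ a ∧ a ≤ 4 ∧ 3 / 8 ≤ (a : ℝ) / (2 * (a + 1))) ∨
      (5 ≤ a ∧ 5 / 12 ≤ (a : ℝ) / (2 * (a + 1))) := by
    intro a ha
    have hp : (0 : ℝ) < 2 * (a + 1) := by positivity
    simp only [le_div_iff₀ hp]
    by_cases h1 : a = 1
    · left; subst h1; norm_num
    by_cases h2 : a = 2
    · right; left; subst h2; norm_num
    by_cases h3 : a ≤ 4
    · right; right; left
      have : (3 : ℝ) ≤ a := by exact_mod_cast (by omega : 3 ≤ a)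
      exact ⟨by omega, h3, by linarith⟩
    · right; right; right
      have : (5 : ℝ) ≤ a := by exact_mod_cast (by omega : 5 ≤ a)
      exact ⟨by omega, by linarith⟩
  rcases key a ha with ⟨a1, a2⟩ | ⟨a1, a2⟩ | ⟨a1, a0, a2⟩ | ⟨a1, a2⟩ <;>
  rcases key b hb with ⟨b1, b2⟩ | ⟨b1, b2⟩ | ⟨b1, b0, b2⟩ | ⟨b1, b2⟩ <;>
  rcases key c hc with ⟨c1, c2⟩ | ⟨c1, c2⟩ | ⟨c1, c0, c2⟩ | ⟨c1, c2⟩ <;>
  first | omega | (exfalso; linarith)

namespace PS

variable {F L : Type} [Lattice L] {n : ℕ} {r : ℕ → Perm F} {φ : ℕ → F → L} (h : PS n r φ)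
include h

theorem IRR [Finite F] {m : ℕ} (hn : n = m + 3) (h0 : ∀ x, Wl r x 0) (h1 : ∀ x, Wl r x 1)
    (h2 : ∀ x, Wl r x (m + 1)) (h3 : ∀ x, Wl r x (m + 2)) {x0 : F} (hx : ¬ Wl r x0 m) :
    False := by
  classical
  obtain ⟨C, hC⟩ := (h.wall (a := 0) (b := n) le_rfl x0).1.exC
  have hm2 : 2 ≤ m := by
    by_contra hm
    have : m = 0 ∨ m = 1 := by omega
    rcases this with rfl | rfl
    exacts [hx (h0 _), hx (h1 _)]
  set S := WallsI r 0 n x0 (Ico 0 (m + 2)) with hS
  have hSsub : S ⊆ Walls r 0 n x0 := WallsI.sub (Ico_subset_Ico_right (by omega))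
  have hD : ∀ x, InD r 0 n x0 x → Rch r (Ico 2 (m + 1)) x0 x := fun x hx => hx.rch (by
    intro c hc hn y
    simp only [mem_Ico] at hc hn
    have : c = 0 ∨ c = 1 ∨ c = m + 1 ∨ c = m + 2 := by omega
    rcases this with rfl | rfl | rfl | rfl
    exacts [h0 y, h1 y, h2 y, h3 y])
  let Rl : Perm F → Perm F → Prop := fun a b => b ∈ S ∧ ¬ Commute a b
  have g0S : rf r x0 0 ∈ S := ⟨x0, 0, InD.refl _, ⟨le_rfl, by omega⟩, h0 _, rfl⟩
  have conn : ∀ g ∈ S, Relation.ReflTransGen Rl (rf r x0 0) g := by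
    intro g hg
    by_contra hcon
    let S2 : Set (Perm F) := {g | g ∈ S ∧ ¬ Relation.ReflTransGen Rl (rf r x0 0) g}
    have hS2 : S2 ⊆ S := fun g hg => hg.1
    have nrm : ∀ γ ∈ Subgroup.closure S, ∀ k ∈ Subgroup.closure S2,
        γ⁻¹ * k * γ ∈ Subgroup.closure S2 := by
      have one : ∀ s ∈ S, ∀ k ∈ Subgroup.closure S2, s * k * s ∈ Subgroup.closure S2 := by
        intro s hs k hk
        by_cases hs2 : Relation.ReflTransGen Rl (rf r x0 0) s
        · have : Commute s k := by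
            have : Subgroup.closure S2 ≤ Subgroup.centralizer {s} := by
              rw [Subgroup.closure_le]
              intro g hg
              rw [SetLike.mem_coe, Subgroup.mem_centralizer_iff]
              rintro _ rfl
              by_contra hc
              exact hg.2 (hs2.tail ⟨hg.1, hc⟩)
            exact Subgroup.mem_centralizer_iff.1 (this hk) s rfl
          rwa [this.eq, mul_assoc, h.walls_sq (hSsub hs), mul_one]
        · have : s ∈ Subgroup.closure S2 := Subgroup.subset_closure ⟨hs, hs2⟩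
          exact mul_mem (mul_mem this hk) this
      intro γ hγ
      induction hγ using Subgroup.closure_induction_left with
      | one => intro k hk; simpa using hk
      | mul_left s hs y _ ih =>
        intro k hk
        have := ih _ (one s hs k hk)
        rw [mul_inv_rev, inv_eq_of_sq (h.walls_sq (hSsub hs))]
        simpa only [mul_assoc] using this
      | inv_mul_cancel s hs y _ ih =>
        intro k hk
        have := ih _ (one s hs k hk)
        rw [mul_inv_rev, inv_inv, inv_eq_of_sq (h.walls_sq (hSsub hs))]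
        simpa only [mul_assoc] using this
    have hD1 : ∀ x, InD r 0 n x0 x → Rch r (Ico 1 (m + 2)) x0 x := fun x hx =>
      (hD x hx).mono (Ico_subset_Ico (by omega) (by omega))
    have fix : ∀ k ∈ Subgroup.closure S2, ∀ x, InD r 0 n x0 x →
        Rch r (Ico 1 (m + 2)) x (k x) := by
      intro k hk x hx
      refine h.closure_rch hS2 ?_ hD1 hk (hD1 x hx)
      rintro _ ⟨⟨y, c, hy, hc, hw, rfl⟩, hn⟩
      refine ⟨y, c, hy, ⟨?_, hc.2⟩, hw, rfl⟩
      by_contra hc0
      obtain rfl : c = 0 := by omega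
      apply hn
      rw [h.rf_rch (h0 x0) (hD y hy) fun c hc => by have := hc.1; omega]
    have hg2 : g ∈ Subgroup.closure S2 := Subgroup.subset_closure ⟨hg, hcon⟩
    have hga : g ∈ Aut r := WallsI.aut hS2 hg2
    have p1 : ∀ y, Rch r (Ico 0 (m + 2)) x0 y → φ 1 (g y) = φ 1 y := by
      intro y hy
      obtain ⟨γ, hγ, x, hx, rfl⟩ := h.decomp (a := 0) (b := n)
        (Ico_subset_Ico_right (by omega)) hy
      have := Aut.rch (WallsI.aut subset_rfl hγ) (fix _ (nrm γ hγ g hg2) x hx)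
      simp only [Perm.mul_apply, Perm.coe_inv, apply_symm_apply] at this
      exact h.sameR this fun c hc => by have := hc.1; omega
    have p2 : ∀ i, i ≤ m + 2 → ∀ y, Rch r (Ico 0 (m + 2)) x0 y →
        φ i (g y) = φ i y ∧ φ (i + 1) (g y) = φ (i + 1) y := by
      intro i
      induction i with
      | zero => exact fun _ y hy => ⟨h.bot _ _, p1 y hy⟩
      | succ i ih =>
        intro hi y hy
        refine ⟨(ih (by omega) y hy).2, ?_⟩
        rw [← h.join i _ (by omega), ← h.join i y (by omega), ← Aut.app hga,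
          (ih (by omega) y hy).2, (ih (by omega) _ (hy.next ⟨by omega, by omega⟩)).2]
    obtain ⟨x, c, hx, hc, hw, rfl⟩ := hg
    apply h.fpf (c := c) (by have := hc.2; omega) x
    rw [← rf_app hw]
    apply h.eq_of_faces
    intro i hi
    have hr := (hD x hx).mono (J := Ico 0 (m + 2)) (Ico_subset_Ico (by omega) (by omega))
    rcases i with _ | i
    · exact h.bot _ _
    · by_cases hi' : i ≤ m + 2
      · exact (p2 i hi' x hr).2
      · obtain rfl : i = n := by omega
        exact h.top _ _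
  have symm : ∀ g, Relation.ReflTransGen Rl (rf r x0 0) g →
      g ∈ S ∧ Relation.ReflTransGen Rl g (rf r x0 0) := by
    intro g hg
    induction hg with
    | refl => exact ⟨g0S, Relation.ReflTransGen.refl⟩
    | tail _ h2 ih => exact ⟨h2.1, Relation.ReflTransGen.head ⟨ih.1, adj_symm h2.2⟩ ih.2⟩
  have d1 : InD r 0 n x0 (r m x0) := (InD.refl x0).next ⟨by omega, by omega⟩ hx
  have k1 : rf r x0 (m + 1) ∈ S := ⟨x0, _, InD.refl _, ⟨by omega, by omega⟩, h2 _, rfl⟩
  have k2 : rf r (r m x0) (m + 1) ∈ S := ⟨_, _, d1, ⟨by omega, by omega⟩, h2 _, rfl⟩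
  obtain ⟨q, k, hq, q0, qk⟩ := IsPath.of_conn k1 ((symm _ (conn _ k1)).2.trans (conn _ k2))
  have hk : 1 ≤ k := by
    by_contra hk
    obtain rfl : k = 0 := by omega
    exact h.rf_step_ne (h2 _) (h2 _) (Or.inr ⟨rfl, by omega⟩) (q0.symm.trans qk)
  have pc := (hq.mono hSsub).cons (g := rf r x0 (m + 2))
    (wall_mem (InD.refl _) ⟨by omega, by omega⟩ (h3 _)) (by
      intro i hi
      obtain ⟨y, c, hy, hc, hw, he⟩ := hq.mem i hi
      rw [he]
      exact h.rf_sep ((hD y hy).mono (Ico_subset_Ico (by omega) (by omega))) (by simp) hc (h3 _)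
        hw (by omega))
    (by rw [q0]; exact adj_symm (h.rf_adj (h2 _) (h3 _) (by omega)))
  have := hC.no_cycle pc (by omega)
  change Commute (rf r x0 (m + 2)) (q k) at this
  rw [qk, ← h.rf_step (c' := m) (h3 x0) (by omega) (by omega)] at this
  exact h.rf_adj (h2 _) (h3 _) (by omega) this.symm

lemma U2 [Finite F] (hn : 3 ≤ n) (ht : ∀ y, Wl r y 2) (xs : F)
    (h1 : ∀ y, Rch r (Ico 3 n) xs y → rf r y 2 = rf r xs 2 ∨
      ∃ y', Rch r (Ico 3 n) xs y' ∧ ¬ Commute (rf r y 2) (rf r y' 2))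
    (h2 : ∀ y, Rch r (Ico 3 n) xs y → Commute (rf r xs 2) (rf r y 2)) : n ≤ nty r + 2 := by
  have hm : ∀ j, 3 + j ≤ n → up r 3 j ∈ W r (Ico 3 n) := fun j hj =>
    W_mono (Ico_subset_Ico_right hj) (up_mem r 3 j)
  have key : ∀ i j, i < j → 3 + j ≤ n → ¬ Eqv r ((up r 3 i)⁻¹ xs) ((up r 3 j)⁻¹ xs) := by
    rintro i j hij hj ⟨γ, hγ, he⟩
    have e1 : up r 3 i ((up r 3 j)⁻¹ xs) = γ xs := by
      rw [← he, ← Aut.appW hγ (hm i (by omega))]; simp
    have hr : Rch r (Ico 3 n) xs (γ xs) :=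
      ⟨up r 3 i * (up r 3 j)⁻¹, mul_mem (hm i (by omega)) (inv_mem (hm j hj)), e1⟩
    apply h.rf_dist ht hij hj ((up r 3 j)⁻¹ xs)
    rw [e1, show up r (2 + 1) j ((up r 3 j)⁻¹ xs) = xs by simp]
    rcases h1 _ hr with e | ⟨y', hy', hc⟩
    · exact e
    · exfalso
      apply hc
      have r2 : Rch r (Ico 3 n) xs (γ⁻¹ y') := by
        simpa using Aut.rch (inv_mem hγ) (hr.symm.trans hy')
      have := h2 _ r2
      rw [h.rf_conj (ht _) (inv_mem hγ), inv_inv] at this
      rw [h.rf_conj (ht _) hγ]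
      have := (Commute.conj_iff γ).2 this
      simpa [mul_assoc] using this
  have := Nat.card_le_card_of_injective
    (fun i : Fin (n - 2) => Quotient.mk (tySetoid r) ((up r 3 i)⁻¹ xs)) (by
      intro i j he
      have he' := Quotient.exact he
      rcases lt_trichotomy (i : ℕ) j with hl | hl | hl
      · exact absurd he' (key i j hl (by omega))
      · exact Fin.ext hl
      · exact absurd (Eqv.symm he') (key j i hl (by omega)))
  simp only [Nat.card_eq_fintype_card, Fintype.card_fin] at this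
  unfold nty
  omega

lemma U3 [Finite F] (hn : 3 ≤ n) (ht : ∀ y, Wl r y 2) {x0 xs xg : F} {S' : Set (Perm F)}
    (hS' : S' = WallsI r 0 n x0 (Ico 3 n)) (hD : ∀ x, InD r 0 n x0 x → Rch r (Ico 3 n) x0 x)
    (ds : InD r 0 n x0 xs) (dg : InD r 0 n x0 xg)
    (hA : ∀ x, InD r 0 n x0 x → rf r x 2 = rf r xg 2 ∨ rf r x 2 = rf r xs 2)
    (c1 : ∀ s ∈ S', Commute s (rf r xs 2)) (c2 : Commute (rf r xs 2) (rf r xg 2))
    {s : Perm F} (hs : s ∈ S') (c3 : ¬ Commute (rf r xg 2) s) (c4 : (rf r xg 2 * s) ^ 3 = 1) :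
    n ≤ nty r + 2 := by
  subst hS'
  have cγ : ∀ γ ∈ Subgroup.closure (WallsI r 0 n x0 (Ico 3 n)), Commute γ (rf r xs 2) := by
    intro γ hγ
    have : Subgroup.closure (WallsI r 0 n x0 (Ico 3 n)) ≤ Subgroup.centralizer {rf r xs 2} := by
      rw [Subgroup.closure_le]
      intro g hg
      rw [SetLike.mem_coe, Subgroup.mem_centralizer_iff]
      rintro _ rfl
      exact (c1 g hg).symm
    exact (Subgroup.mem_centralizer_iff.1 (this hγ) _ rfl).symm
  have dec : ∀ y, Rch r (Ico 3 n) xs y → ∃ γ ∈ Subgroup.closure (WallsI r 0 n x0 (Ico 3 n)),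
      rf r y 2 = rf r xs 2 ∨ rf r y 2 = γ * rf r xg 2 * γ⁻¹ := by
    intro y hy
    obtain ⟨γ, hγ, x, hx, rfl⟩ := h.decomp (a := 0) (b := n)
      (Ico_subset_Ico_left (by omega)) ((hD xs ds).trans hy)
    refine ⟨γ, hγ, ?_⟩
    rw [h.rf_conj (ht _) (WallsI.aut subset_rfl hγ)]
    rcases hA x hx with e | e
    · right; rw [e]
    · left; rw [e, (cγ γ hγ).eq]; simp
  apply h.U2 hn ht xs
  · intro y hy
    obtain ⟨γ, hγ, e | e⟩ := dec y hy
    · exact Or.inl e
    · right
      have hγs := mul_mem hγ (Subgroup.subset_closure hs)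
      refine ⟨(γ * s) xg, ((hD xs ds).symm.trans (hD xg dg)).trans
        (h.closure_rch subset_rfl (fun g hg => hg) hD hγs (hD xg dg)), ?_⟩
      have ss : s * s = 1 := h.walls_sq (WallsI.sub (Ico_subset_Ico_left (by omega)) hs)
      have gg := h.rf_sq xg 2
      rw [e, h.rf_conj (ht _) (WallsI.aut subset_rfl hγs), mul_inv_rev, inv_eq_of_sq ss,
        show γ * s * rf r xg 2 * (s * γ⁻¹) = γ * (s * rf r xg 2 * s) * γ⁻¹ by
          simp only [mul_assoc], Commute.conj_iff, ← braid_of_cube gg ss c4]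
      intro hc
      apply c3
      have := hc.eq
      simp only [← mul_assoc, gg, one_mul] at this
      rw [mul_assoc _ _ (rf r xg 2), gg, mul_one] at this
      exact this.symm
  · intro y hy
    obtain ⟨γ, hγ, e | e⟩ := dec y hy
    · rw [e]
    · rw [e]
      exact ((cγ γ hγ).symm.mul_right c2).mul_right (cγ γ hγ).symm.inv_right

theorem U [Finite F] {v : ℕ} (hn : 9 ≤ n) (hv : v + 3 < n) (ht : ∀ c ≤ v + 2, ∀ x, Wl r x c)
    {x0 : F} (hx : ¬ Wl r x0 (v + 3)) : n ≤ nty r + 2 := by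
  classical
  obtain ⟨C, hC⟩ := (h.wall (a := 0) (b := n) le_rfl x0).1.exC
  set S' := WallsI r 0 n x0 (Ico (v + 3) n) with hS'
  have hsub : S' ⊆ Walls r 0 n x0 := WallsI.sub (Ico_subset_Ico_left (by omega))
  have hD : ∀ x, InD r 0 n x0 x → Rch r (Ico (v + 3) n) x0 x := fun x hx => hx.rch (by
    intro c hc hn y
    simp only [mem_Ico] at hc hn
    exact ht c (by omega) y)
  have d0 : InD r 0 n x0 x0 := InD.refl _
  have d1 : InD r 0 n x0 (r (v + 3) x0) := d0.next ⟨by omega, hv⟩ hx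
  have mem : ∀ x, InD r 0 n x0 x → ∀ c ≤ v + 2, rf r x c ∈ Walls r 0 n x0 :=
    fun x hx c hc => wall_mem hx ⟨by omega, by omega⟩ (ht c hc x)
  have low : ∀ x, InD r 0 n x0 x → ∀ c ≤ v + 1, rf r x c = rf r x0 c := fun x hx c hc =>
    h.rf_rch (ht c (by omega) _) (hD x hx) fun c' hc' => by have := hc'.1; omega
  have nS : ∀ x, InD r 0 n x0 x → ∀ c ≤ v + 2, rf r x c ∉ S' := by
    rintro x hx c hc ⟨y, c', hy, hc', hw, he⟩
    exact h.rf_sep ((hD x hx).symm.trans (hD y hy)) (fun hh => by have := hh.1; omega) hc'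
      (ht c hc _) hw (by omega) he
  have ab : ∀ x, InD r 0 n x0 x → ¬ Commute (rf r x0 (v + 1)) (rf r x (v + 2)) := by
    intro x hx
    rw [← low x hx _ le_rfl]
    exact h.rf_adj (ht _ (by omega) _) (ht _ (by omega) _) (by omega)
  have nl : ∀ x, InD r 0 n x0 x → ∀ c ≤ v + 1, rf r x0 c ≠ rf r x (v + 2) := by
    intro x hx c hc
    rw [← low x hx c hc]
    exact h.rf_ne (ht _ (by omega) _) (ht _ (by omega) _) (by omega) (by omega)
  have al : ¬ Commute (rf r x0 (v + 1)) (rf r x0 v) :=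
    adj_symm (h.rf_adj (ht _ (by omega) _) (ht _ (by omega) _) (by omega))
  have gg : rf r x0 (v + 2) ≠ rf r (r (v + 3) x0) (v + 2) :=
    h.rf_step_ne (ht _ le_rfl _) (ht _ le_rfl _) (Or.inl ⟨rfl, hv⟩)
  have hA : ∀ x, InD r 0 n x0 x → rf r x (v + 2) = rf r x0 (v + 2) ∨
      rf r x (v + 2) = rf r (r (v + 3) x0) (v + 2) := by
    intro x hx
    by_contra hcon
    push Not at hcon
    have mb := mem x0 d0 (v + 1) (by omega)
    refine hC.br_false mb (hC.br_union
      (hC.br_two mb (mem x0 d0 v (by omega)) (mem x hx _ le_rfl) (nl x hx v (by omega)) al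
        (ab x hx))
      (hC.br_two mb (mem x0 d0 _ le_rfl) (mem _ d1 _ le_rfl) gg (ab _ d0) (ab _ d1)) ?_)
      (by norm_num)
    simp only [Finset.disjoint_insert_left, Finset.mem_insert, Finset.mem_singleton, not_or,
      Finset.disjoint_singleton_left]
    exact ⟨⟨nl _ d0 v (by omega), nl _ d1 v (by omega)⟩, hcon⟩
  obtain ⟨q, m, hq, q0, qS, qa, qg, qc, qb, qo⟩ := hC.arm (Set.toFinite _)
    (fun g hg => h.walls_sq hg) (mem x0 d0 (v + 1) (by omega)) (mem x0 d0 v (by omega))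
    (mem x0 d0 _ le_rfl) (mem _ d1 _ le_rfl) hsub (nS _ d0 _ (by omega)) (nS _ d0 _ (by omega))
    (nS _ d0 _ le_rfl) (nS _ d1 _ le_rfl) al (ab _ d0) (ab _ d1) (nl _ d0 v (by omega))
    (nl _ d1 v (by omega)) gg
  obtain ⟨q', m', hq', q0', qS', qa', qg', qc', qb', qo'⟩ := hC.arm (Set.toFinite _)
    (fun g hg => h.walls_sq hg) (mem x0 d0 (v + 1) (by omega)) (mem x0 d0 v (by omega))
    (mem _ d1 _ le_rfl) (mem x0 d0 _ le_rfl) hsub (nS _ d0 _ (by omega)) (nS _ d0 _ (by omega))
    (nS _ d1 _ le_rfl) (nS _ d0 _ le_rfl) al (ab _ d1) (ab _ d0) (nl _ d1 v (by omega))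
    (nl _ d0 v (by omega)) gg.symm
  have cnt : n - (v + 3) + 1 ≤ (m + 1) + (m' + 1) := by
    have h1 := Finset.card_le_card_of_injOn (s := Finset.range (n - (v + 3) + 1))
      (t := (Finset.range (m + 1)).image (armC q) ∪ (Finset.range (m' + 1)).image (armC q'))
      (fun i => rf r (up r (v + 3) i x0) (v + 2)) ?_ ?_
    · have h2 := Finset.card_union_le ((Finset.range (m + 1)).image (armC q))
        ((Finset.range (m' + 1)).image (armC q'))
      have h3 := Finset.card_image_le (s := Finset.range (m + 1)) (f := armC q)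
      have h4 := Finset.card_image_le (s := Finset.range (m' + 1)) (f := armC q')
      simp only [Finset.card_range] at h1 h3 h4
      omega
    · intro i hi
      have hi' : v + 3 + i ≤ n := by
        have : i < n - (v + 3) + 1 := by simpa using hi
        omega
      obtain ⟨γ, hγ, x, hx, he⟩ := h.decomp (a := 0) (b := n) (x0 := x0)
        (Ico_subset_Ico_left (Nat.zero_le (v + 3)))
        ⟨_, W_mono (Ico_subset_Ico_right hi') (up_mem r (v + 3) i), rfl⟩
      simp only [he, h.rf_conj (ht _ le_rfl _) (WallsI.aut subset_rfl hγ), Finset.coe_union,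
        Finset.coe_image, Finset.coe_range, mem_union, mem_image, mem_Iio]
      rcases hA x hx with e | e <;> rw [e]
      · obtain ⟨j, hj, e2⟩ := qo γ hγ
        exact Or.inl ⟨j, by omega, e2.symm⟩
      · obtain ⟨j, hj, e2⟩ := qo' γ hγ
        exact Or.inr ⟨j, by omega, e2.symm⟩
    · intro i hi j hj he
      have hi' : i < n - (v + 3) + 1 := by simpa using hi
      have hj' : j < n - (v + 3) + 1 := by simpa using hj
      rcases lt_trichotomy i j with hl | hl | hl
      · exact absurd he (h.rf_dist (ht _ le_rfl) hl (by omega) x0)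
      · exact hl
      · exact absurd he.symm (h.rf_dist (ht _ le_rfl) hl (by omega) x0)
  have nq : ∀ c ≤ v + 1, ∀ i ≤ m, rf r x0 c ≠ q i := by
    rintro c hc (_ | i) hi
    · rw [q0]; exact nl _ d0 c hc
    · exact fun he => nS _ d0 c (by omega) (he ▸ qS _ (by omega) hi)
  have nq' : ∀ c ≤ v + 1, ∀ i ≤ m', rf r x0 c ≠ q' i := by
    rintro c hc (_ | i) hi
    · rw [q0']; exact nl _ d1 c hc
    · exact fun he => nS _ d0 c (by omega) (he ▸ qS' _ (by omega) hi)
  have dj : ∀ j ≤ m', ∀ i ≤ m, q i ≠ q' j := by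
    intro j
    induction j with
    | zero =>
      rintro _ (_ | i) hi
      · rw [q0, q0']; exact gg
      · rw [q0']; exact fun he => nS _ d1 _ le_rfl (he ▸ qS _ (by omega) hi)
    | succ j ih =>
      intro hj i hi he
      apply hq'.adj j hj
      rw [← he]
      rcases j with _ | j
      · rw [q0']; exact qg i hi
      · exact qa _ (qS' _ (by omega) (by omega)) (fun k hk => (ih (by omega) k hk).symm) i hi
  have p1 : IsPath (Walls r 0 n x0) (fun t => rf r x0 (v + 1 - t)) (v + 1) :=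
    ⟨fun i hi => mem _ d0 _ (by omega), fun i hi j hj he => by
      by_contra hij
      exact h.rf_ne (ht _ (by omega) _) (ht _ (by omega) _) (by omega) (by omega) he,
      fun i hi => by
        rw [show v + 1 - i = v + 1 - (i + 1) + 1 by omega]
        exact adj_symm (h.rf_adj (ht _ (by omega) _) (ht _ (by omega) _) (by omega))⟩
  have p2 := hq.cons (mem x0 d0 (v + 1) (by omega)) (nq _ le_rfl) (by rw [q0]; exact ab _ d0)
  have p3 := hq'.cons (mem x0 d0 (v + 1) (by omega)) (nq' _ le_rfl) (by rw [q0']; exact ab _ d1)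
  have st := hC.star p1 p2 p3 rfl rfl
    (by
      rintro i (_ | j) i1 i2 j1 j2
      · omega
      · exact nq _ (by omega) j (by omega))
    (by
      rintro i (_ | j) i1 i2 j1 j2
      · omega
      · exact nq' _ (by omega) j (by omega))
    (by
      rintro (_ | i) (_ | j) i1 i2 j1 j2
      · omega
      · omega
      · omega
      · exact dj j (by omega) i (by omega))
  by_cases hmm : m = 0 ∧ m' = 0
  · exfalso
    obtain rfl : n = v + 4 := by omega
    have p3 : ∀ w, per r (v + 1) w = 3 := by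
      intro w
      obtain ⟨γ, hγ, x, hx, rfl⟩ := h.decomp (a := 0) (b := v + 4) (x0 := x0) subset_rfl
        (h.all x0 w)
      rw [← Eqv.per_eq ⟨γ, WallsI.aut subset_rfl hγ, rfl⟩]
      apply h.per_three (ht _ (by omega) _) (ht _ (by omega) _) (by omega)
      rw [low x hx _ le_rfl]
      rcases hA x hx with e | e <;> rw [show rf r x (v + 1 + 1) = _ from e]
      exacts [qb, qb']
    apply hx
    refine h.typing (fun x y => Eqv r x y ∨ Eqv r (r (v + 3) x) y) ?_ ?_ (Or.inr (Eqv.refl _))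
    · rintro x y c (e | e)
      · exact Or.inl (e.step c)
      · right
        by_cases c1 : c ≤ v + 2
        · exact ((Eqv.step (ht c c1 x) (v + 3)).symm.trans e).trans (ht c c1 y)
        by_cases c2 : c = v + 3
        · subst c2
          exact e.step _
        · rw [h.triv c (by omega)]; exact e
    · rintro x y l (e | e) hl
      · exact e.per_eq l
      · by_cases c1 : l = v + 1
        · rw [c1, p3, p3]
        · rw [← e.per_eq l, h.per_step (by omega) (by omega)]
  rcases star_arith (by omega) (by omega) (by omega) (by omega) st with e | e | e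
  · obtain rfl : v = 0 := by omega
    obtain rfl : m = 0 := by omega
    refine h.U3 (by omega) (ht 2 le_rfl) hS' hD d0 d1 (fun x hx => (hA x hx).symm) ?_
      (q0' ▸ qg' 0 (by omega)) (qS' 1 le_rfl (by omega)) (q0' ▸ hq'.adj 0 (by omega))
      (q0' ▸ qc' 0 (by omega))
    intro s hs
    rw [← q0]
    refine qa s hs (fun i hi he => ?_) 0 le_rfl
    obtain rfl : i = 0 := by omega
    exact nS _ d0 _ le_rfl (q0 ▸ he ▸ hs)
  · obtain rfl : v = 0 := by omega
    obtain rfl : m' = 0 := by omega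
    refine h.U3 (by omega) (ht 2 le_rfl) hS' hD d1 d0 hA ?_
      (q0 ▸ qg 0 (by omega)) (qS 1 le_rfl (by omega)) (q0 ▸ hq.adj 0 (by omega))
      (q0 ▸ qc 0 (by omega))
    intro s hs
    rw [← q0']
    refine qa' s hs (fun i hi he => ?_) 0 le_rfl
    obtain rfl : i = 0 := by omega
    exact nS _ d1 _ le_rfl (q0' ▸ he ▸ hs)
  · omega

end PS

end Pool.Agent.FlagOrb
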