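import Mathlib

/-! Tits reflections and the positivity of the Gram form of a finite reflection system. -/

namespace Pool.Agent.FlagOrb

open Real Finset

variable {S : Type} [Fintype S] [DecidableEq S]

/-- Gram entries. -/
noncomputable def gB (M : S → S → ℕ) (a b : S) : ℝ := -cos (π / (M a b : ℝ))

/-- twice the pairing with the basis vector `a` -/
noncomputable def gF (M : S → S → ℕ) (a : S) : Module.Dual ℝ (S → ℝ) where
  toFun v := 2 * ∑ b, gB M a b * v b
  map_add' u v := by simp [mul_add, Finset.sum_add_distrib]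
  map_smul' c v := by
    simp only [Pi.smul_apply, smul_eq_mul, RingHom.id_apply, Finset.mul_sum]
    exact Finset.sum_congr rfl fun b _ => by ring

lemma gF_single (M : S → S → ℕ) (a b : S) : gF M a (Pi.single b 1) = 2 * gB M a b := by
  simp [gF, Pi.single_apply]

lemma gF_self {M : S → S → ℕ} (hd : ∀ a, M a a = 1) (a : S) : gF M a (Pi.single a 1) = 2 := by
  rw [gF_single, gB, hd]; simp

/-- The Tits reflection. -/
noncomputable def gR {M : S → S → ℕ} (hd : ∀ a, M a a = 1) (a : S) : (S → ℝ) ≃ₗ[ℝ] (S → ℝ) :=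
  Module.reflection (gF_self hd a)

lemma gR_sq {M : S → S → ℕ} (hd : ∀ a, M a a = 1) (a : S) : gR hd a * gR hd a = 1 := by
  ext1 v
  exact Module.involutive_reflection (gF_self hd a) v

lemma refl_pow_aux {V : Type} [AddCommGroup V] [Module ℝ V] {x y : V} {f g : Module.Dual ℝ V}
    (hf : f x = 2) (hg : g y = 2) (m : ℕ) (hm : 2 ≤ m)
    (h1 : f y = 2 * -cos (π / (m : ℝ))) (h2 : g x = 2 * -cos (π / (m : ℝ))) :
    (Module.reflection hf * Module.reflection hg) ^ m = 1 := by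
  ext1 z
  rcases hm.eq_or_lt with rfl | hm3
  · have hc : cos (π / ((2 : ℕ) : ℝ)) = 0 := by simp
    rw [hc] at h1 h2
    simp only [neg_zero, mul_zero] at h1 h2
    simp only [pow_two, LinearEquiv.mul_apply, Module.reflection_apply, map_sub, map_smul, hf, hg,
      h1, h2, LinearEquiv.coe_one, id]
    module
  set θ := π / (m : ℝ) with hθ
  have hm0 : (0 : ℝ) < m := by positivity
  have hm3' : (2 : ℝ) < m := by exact_mod_cast hm3
  have hmθ : (m : ℝ) * θ = π := by rw [hθ]; field_simp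
  have hθ0 : 0 < θ := by positivity
  have hs : sin (2 * θ) ≠ 0 := by
    apply (sin_pos_of_pos_of_lt_pi (by positivity) _).ne'
    nlinarith
  have ht : 2 * cos (2 * θ) = f y * g x - 2 := by rw [h1, h2, cos_two_mul]; ring
  rw [Module.reflection_mul_reflection_pow_apply hf hg m z (2 * cos (2 * θ)) ht]
  have key : ∀ j : ℤ, (Polynomial.Chebyshev.S ℝ j).eval (2 * cos (2 * θ)) * sin (2 * θ) =
      sin ((j + 1) * (2 * θ)) := fun j => Polynomial.Chebyshev.S_two_mul_real_cos _ _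
  obtain ⟨k, rfl | rfl⟩ := Nat.even_or_odd' m
  · have e1 : (((2 * k : ℕ) : ℤ) - 2) / 2 = (k : ℤ) - 1 := by push_cast; omega
    have e2 : (((2 * k : ℕ) : ℤ) - 1) / 2 = (k : ℤ) - 1 := by push_cast; omega
    have hz : (Polynomial.Chebyshev.S ℝ ((k : ℤ) - 1)).eval (2 * cos (2 * θ)) = 0 := by
      have := key ((k : ℤ) - 1)
      rw [show ((((k : ℤ) - 1 : ℤ) : ℝ) + 1) * (2 * θ) = π by
        rw [← hmθ]; push_cast; ring, sin_pi] at this
      exact (mul_eq_zero.1 this).resolve_right hs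
    rw [e1, e2, hz]; simp
  · have e1 : (((2 * k + 1 : ℕ) : ℤ) - 1) / 2 = (k : ℤ) := by push_cast; omega
    have e2 : (((2 * k + 1 : ℕ) : ℤ) - 3) / 2 = (k : ℤ) - 1 := by push_cast; omega
    have e3 : ((2 * k + 1 : ℕ) : ℤ) / 2 = (k : ℤ) := by push_cast; omega
    have e4 : (((2 * k + 1 : ℕ) : ℤ) - 2) / 2 = (k : ℤ) - 1 := by push_cast; omega
    have hz : (Polynomial.Chebyshev.S ℝ (k : ℤ)).eval (2 * cos (2 * θ)) +
        (Polynomial.Chebyshev.S ℝ ((k : ℤ) - 1)).eval (2 * cos (2 * θ)) = 0 := by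
      have a1 := key (k : ℤ)
      have a2 := key ((k : ℤ) - 1)
      rw [show (((k : ℤ) : ℝ) + 1) * (2 * θ) = π + θ by
        rw [← hmθ]; push_cast; ring, show π + θ = θ + π by ring, sin_add_pi] at a1
      rw [show ((((k : ℤ) - 1 : ℤ) : ℝ) + 1) * (2 * θ) = π - θ by
        rw [← hmθ]; push_cast; ring, sin_pi_sub] at a2
      apply (mul_eq_zero.1 _).resolve_right hs
      rw [add_mul, a1, a2]; ring
    rw [e1, e2, e3, e4, hz]; simp

lemma gR_pow {M : S → S → ℕ} (hd : ∀ a, M a a = 1) (hs : ∀ a b, M a b = M b a) (a b : S)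
    (hm : a = b ∨ 2 ≤ M a b) {j : ℕ} (hj : M a b ∣ j) : (gR hd a * gR hd b) ^ j = 1 := by
  obtain ⟨i, rfl⟩ := hj
  rcases hm with rfl | hm
  · rw [gR_sq, one_pow]
  · rw [pow_mul, gR, gR, refl_pow_aux _ _ (M a b) hm, one_pow]
    · rw [gF_single, gB]
    · rw [gF_single, gB, hs]

theorem gram_witness {M : S → S → ℕ} (hd : ∀ a, M a a = 1)
    (T : Set ((S → ℝ) ≃ₗ[ℝ] (S → ℝ))) (hT : T.Finite) (h1 : 1 ∈ T)
    (hcl : ∀ g ∈ T, ∀ a, g * gR hd a ∈ T) (v : S → ℝ) (hv : ∀ a, 0 ≤ v a) (hv0 : v ≠ 0) :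
    ∃ a, 0 < v a ∧ 0 < ∑ b, gB M a b * v b := by
  classical
  let Q : (S → ℝ) → (S → ℝ) → ℝ := fun u w => ∑ g ∈ hT.toFinset, (g u) ⬝ᵥ (g w)
  have Qnn : ∀ u, 0 ≤ Q u u := fun u =>
    Finset.sum_nonneg fun g _ => Finset.sum_nonneg fun i _ => mul_self_nonneg _
  have Qpos : 0 < Q v v := by
    apply Finset.sum_pos' (fun g _ => Finset.sum_nonneg fun i _ => mul_self_nonneg _)
    refine ⟨1, by simpa using h1, ?_⟩
    obtain ⟨i, hi⟩ := Function.ne_iff.1 hv0
    exact Finset.sum_pos' (fun i _ => mul_self_nonneg _) ⟨i, mem_univ _, mul_self_pos.2 hi⟩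
  have Qinv : ∀ a u w, Q (gR hd a u) (gR hd a w) = Q u w := by
    intro a u w
    apply Finset.sum_nbij' (fun g => g * gR hd a) (fun g => g * gR hd a)
    · intro g hg; simpa using hcl g (by simpa using hg) a
    · intro g hg; simpa using hcl g (by simpa using hg) a
    · intro g _; rw [mul_assoc, gR_sq, mul_one]
    · intro g _; rw [mul_assoc, gR_sq, mul_one]
    · intro g _; rfl
  have Qa : ∀ a, Q (Pi.single a 1) v = (∑ b, gB M a b * v b) * Q (Pi.single a 1) (Pi.single a 1) := by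
    intro a
    have h := Qinv a (Pi.single a 1) v
    rw [gR, Module.reflection_apply_self, Module.reflection_apply] at h
    have e : Q (-Pi.single a 1) (v - gF M a v • Pi.single a 1) =
        -Q (Pi.single a 1) v + gF M a v * Q (Pi.single a 1) (Pi.single a 1) := by
      simp only [Q, map_neg, map_sub, map_smul, neg_dotProduct, dotProduct_sub, dotProduct_smul,
        smul_eq_mul, Finset.mul_sum, ← Finset.sum_neg_distrib, ← Finset.sum_add_distrib]
      exact Finset.sum_congr rfl fun g _ => by ring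
    rw [e] at h
    have e2 : gF M a v = 2 * ∑ b, gB M a b * v b := rfl
    rw [e2] at h
    linarith
  have Qv : Q v v = ∑ a, v a * Q (Pi.single a 1) v := by
    have hv' : v = ∑ a, v a • (Pi.single a (1 : ℝ) : S → ℝ) := by
      ext i; simp [Finset.sum_apply, Pi.single_apply]
    have : Q (∑ a, v a • (Pi.single a (1 : ℝ) : S → ℝ)) v = ∑ a, v a * Q (Pi.single a 1) v := by
      simp only [Q, map_sum, map_smul, sum_dotProduct, smul_dotProduct, smul_eq_mul,
        Finset.mul_sum]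
      exact Finset.sum_comm
    rw [← this, ← hv']
  by_contra hcon
  push Not at hcon
  have : Q v v ≤ 0 := by
    rw [Qv]
    apply Finset.sum_nonpos
    intro a _
    rcases (hv a).eq_or_lt with h0 | h0
    · rw [← h0, zero_mul]
    · rw [Qa]
      exact mul_nonpos_of_nonneg_of_nonpos h0.le
        (mul_nonpos_of_nonpos_of_nonneg (hcon a h0) (Qnn _))
  linarith

lemma cos_div_mono {k m : ℕ} (hk : 2 ≤ k) (hm : m = 0 ∨ k ≤ m) :
    cos (π / (k : ℝ)) ≤ cos (π / (m : ℝ)) := by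
  rcases hm with rfl | hm
  · simpa using cos_le_one _
  have hk0 : (1 : ℝ) ≤ k := by exact_mod_cast (by omega : 1 ≤ k)
  have hkm : (k : ℝ) ≤ m := by exact_mod_cast hm
  apply cos_le_cos_of_nonneg_of_le_pi (by positivity)
  · exact div_le_self pi_pos.le hk0
  · exact div_le_div_of_nonneg_left pi_pos.le (by linarith) hkm

lemma cos_ge2 {m : ℕ} (hm : m = 0 ∨ 2 ≤ m) : 0 ≤ cos (π / (m : ℝ)) := by
  have := cos_div_mono le_rfl hm
  simpa using this

lemma cos_ge3 {m : ℕ} (hm : m = 0 ∨ 3 ≤ m) : 1 / 2 ≤ cos (π / (m : ℝ)) := by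
  have := cos_div_mono (by norm_num) hm
  rwa [show ((3 : ℕ) : ℝ) = 3 by norm_num, cos_pi_div_three] at this

lemma cos_ge4 {m : ℕ} (hm : m = 0 ∨ 4 ≤ m) : √2 / 2 ≤ cos (π / (m : ℝ)) := by
  have := cos_div_mono (by norm_num) hm
  rwa [show ((4 : ℕ) : ℝ) = 4 by norm_num, cos_pi_div_four] at this

end Pool.Agent.FlagOrb
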