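import Pool.Agent.Lib.MP_7157e1_co.P3
import Pool.Agent.Lib.MP_7157e1_co.Defs58

/-! Flag orbits of the face lattice and of the flag system; convex hulls. -/

namespace Pool.Agent.Lib.MP_7157e1_co
open Module Function

theorem numOrbits_congr {L L' : Type} [PartialOrder L] [PartialOrder L'] (e : L ≃o L') :
    numOrbits L = numOrbits L' := by
  refine Nat.card_congr (Quot.congr (Flag.map e) fun Φ Ψ => ⟨?_, ?_⟩)
  · rintro ⟨f, rfl⟩
    exact ⟨(e.symm.trans f).trans e, Flag.ext (by simp [Set.image_image])⟩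
  · rintro ⟨f, hf⟩
    refine ⟨(e.trans f).trans e.symm, (Flag.map e).injective ?_⟩
    rw [← hf]
    exact Flag.ext (by simp [Set.image_image])

variable {ι : Type} [Fintype ι] {E : Submodule ℝ (ι → ℝ)} {d : ℕ}

theorem le_of_cr {G H : {G // IsF E G}} (h : G ≤ H ∨ H ≤ G) (hc : cr E H ≤ cr E G) : G ≤ H :=
  h.elim id fun k => (Subtype.ext (H.2.eq_of_cr k hc)).ge

theorem cr_iso (e : {G // IsF E G} ≃o {G // IsF E G}) (G : {G // IsF E G}) :
    cr E (e G) = cr E G := by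
  have key : ∀ (e : {G // IsF E G} ≃o {G // IsF E G}) n (G : {G // IsF E G}),
      n ≤ cr E G → n ≤ cr E (e G) := by
    intro e n
    induction n with
    | zero => exact fun _ _ => Nat.zero_le _
    | succ n ih =>
      intro G hG
      obtain ⟨H, h1, h2, -, h3⟩ := graded G.2 isF_univ (Set.subset_univ _) (c := n)
        (by rw [cr_univ]; omega) (by omega)
      have k := ih ⟨H, h1⟩ h3.ge
      by_contra hc
      have := e.injective (Subtype.ext ((e G).2.eq_of_cr (e.monotone (show G ≤ ⟨H, h1⟩ from h2))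
        (by omega)))
      rw [this] at hG
      exact absurd hG (by rw [h3]; omega)
  refine le_antisymm ?_ (key e _ G le_rfl)
  simpa using key e.symm _ (e G) le_rfl

namespace Fl

/-- action of an automorphism of the face lattice -/
def act (e : {G // IsF E G} ≃o {G // IsF E G}) : Equiv.Perm (Fl E d) where
  toFun Φ := ⟨fun j => e ⟨Φ.1 j, Φ.isF j⟩, fun j => ⟨(e _).2, (cr_iso e _).trans (Φ.cr j),
    e.monotone (show (⟨_, Φ.isF j⟩ : {G // IsF E G}) ≤ ⟨_, Φ.isF (j + 1)⟩ from (Φ.2 j).2.2)⟩⟩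
  invFun Φ := ⟨fun j => e.symm ⟨Φ.1 j, Φ.isF j⟩, fun j => ⟨(e.symm _).2,
    (cr_iso e.symm _).trans (Φ.cr j), e.symm.monotone
      (show (⟨_, Φ.isF j⟩ : {G // IsF E G}) ≤ ⟨_, Φ.isF (j + 1)⟩ from (Φ.2 j).2.2)⟩⟩
  left_inv Φ := ext fun j => by simp
  right_inv Φ := ext fun j => by simp

theorem act_r (e : {G // IsF E G} ≃o {G // IsF E G}) (i : ℕ) (Φ : Fl E d) :
    act e (r i Φ) = r i (act e Φ) := by
  by_cases hi : i < d
  · refine (eq_or hi fun j hj => ?_).resolve_left fun k => r_ne' hi Φ ((act e).injective k)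
    exact congrArg (fun G => (e G).1) (Subtype.ext (r_off i Φ hj))
  · rw [r_out (by omega), r_out (by omega)]

variable (hpos : IsF E ∅) (hd : finrank ℝ E = d + 1)
include hd

theorem cr_le (G : Set ι) : MP_7157e1_co.cr E G ≤ d + 1 :=
  (cr_anti (Set.empty_subset _)).trans (by rw [cr_empty, hd])

/-- the maximal chain of a flag -/
def toFlag (Φ : Fl E d) : Flag {G // IsF E G} where
  carrier := {G | ∃ j, G.1 = Φ.1 j}
  Chain' := by
    rintro ⟨_, h1⟩ ⟨i, rfl⟩ ⟨_, h2⟩ ⟨j, rfl⟩ _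
    exact (le_total i j).imp Φ.mono Φ.mono
  max_chain' := by
    intro s hs h
    refine h.antisymm fun G hG => ⟨d + 1 - MP_7157e1_co.cr E G, ?_⟩
    have c := cr_le hd G.1
    have k := hs.total hG (h (a := ⟨_, Φ.isF _⟩) ⟨d + 1 - MP_7157e1_co.cr E G, rfl⟩)
    exact G.2.eq_of_cr (le_of_cr k (by rw [cr]; omega)) (by rw [cr]; omega)

include hpos

theorem toFlag_bij : Bijective (toFlag hd) := by
  constructor
  · intro Φ Ψ h
    refine ext fun j => ?_
    obtain ⟨l, hl⟩ : (⟨_, Φ.isF j⟩ : {G // IsF E G}) ∈ toFlag hd Ψ := h ▸ ⟨j, rfl⟩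
    have c := Φ.cr j
    simp only at hl
    rw [hl, cr] at c
    by_cases k : d + 1 ≤ j
    · rw [Φ.top k, Ψ.top k]
    · rw [hl, show l = j by omega]
  · intro C
    have ex : ∀ j, ∃ G ∈ C, MP_7157e1_co.cr E G.1 = d + 1 - j := by
      intro j
      obtain ⟨A, ⟨a1, a2⟩, a3⟩ := Set.exists_min_image
        {G | G ∈ C ∧ d + 1 - j ≤ MP_7157e1_co.cr E G.1} (fun G => MP_7157e1_co.cr E G.1)
        (Set.toFinite _) ⟨⟨∅, hpos⟩, Flag.mem_iff_forall_le_or_ge.2 fun _ _ =>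
          Or.inl (Set.empty_subset _), by rw [cr_empty]; omega⟩
      obtain ⟨B, ⟨b1, b2⟩, b3⟩ := Set.exists_max_image
        {G | G ∈ C ∧ MP_7157e1_co.cr E G.1 ≤ d + 1 - j} (fun G => MP_7157e1_co.cr E G.1)
        (Set.toFinite _) ⟨⟨_, isF_univ⟩, Flag.mem_iff_forall_le_or_ge.2 fun _ _ =>
          Or.inr (Set.subset_univ _), by rw [cr_univ]; omega⟩
      obtain ⟨G, g1, g2, g3, g4⟩ := graded A.2 B.2 (le_of_cr (C.le_or_le a1 b1) (b2.trans a2)) b2 a2
      refine ⟨⟨G, g1⟩, Flag.mem_iff_forall_le_or_ge.2 fun H hH => ?_, g4⟩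
      rcases le_total (d + 1 - j) (MP_7157e1_co.cr E H.1) with k | k
      · exact Or.inr ((le_of_cr (C.le_or_le hH a1) (a3 H ⟨hH, k⟩)).trans g2)
      · exact Or.inl (le_trans g3 (le_of_cr (C.le_or_le b1 hH) (b3 H ⟨hH, k⟩)))
    choose G h1 h2 using ex
    refine ⟨⟨fun j => G j, fun j => ⟨(G j).2, h2 j,
      le_of_cr (C.le_or_le (h1 _) (h1 _)) (by rw [h2, h2]; omega)⟩⟩,
      Flag.ext ((toFlag hd _).max_chain' C.chain_le ?_)⟩
    rintro H ⟨j, hj⟩
    rw [show H = G j from Subtype.ext hj]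
    exact h1 j

theorem exists_two {G H : {G // IsF E G}} (h : G ≤ H) :
    ∃ (Φ : Fl E d) (i j : ℕ), i ≤ j ∧ G = ⟨_, Φ.isF i⟩ ∧ H = ⟨_, Φ.isF j⟩ := by
  obtain ⟨C, c1, c2⟩ := Flag.exists_mem_mem h
  obtain ⟨Φ, rfl⟩ := (toFlag_bij hpos hd).2 C
  obtain ⟨i, hi⟩ := c1
  obtain ⟨j, hj⟩ := c2
  rcases le_total i j with k | k
  · exact ⟨Φ, i, j, k, Subtype.ext hi, Subtype.ext hj⟩
  · exact ⟨Φ, i, i, le_rfl, Subtype.ext hi,
      Subtype.ext ((Set.Subset.antisymm (hi ▸ hj ▸ Φ.mono k) h).trans hi)⟩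

theorem dep {g : Fl E d → Fl E d} (hg : ∀ i Φ, g (r i Φ) = r i (g Φ)) {Φ Ψ : Fl E d} {i j : ℕ}
    (h : Φ.1 i = Ψ.1 j) : (g Φ).1 i = (g Ψ).1 j := by
  have c := Φ.cr i
  rw [h, cr] at c
  by_cases k : d + 1 ≤ j
  · rw [top _ k, top _ (by omega)]
  obtain rfl : i = j := by omega
  by_cases k0 : i = 0
  · rw [k0, bot hpos hd, bot hpos hd]
  have key : ∀ {a b x y}, Conn r (Set.Ico a b) x y → (i ≤ a ∨ b + 1 ≤ i) →
      (g y).1 i = (g x).1 i := fun c hi =>
    c.ind (fun y => (g y).1 i = _) rfl fun l hl z hz => by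
      rw [hg, r_off l _ (by have := hl.1; have := hl.2; omega), hz]
  let x : Fl E d := ⟨fun l => if l ≤ i then Φ.1 l else Ψ.1 l, fun l => by
    by_cases e : l ≤ i
    · simp only [if_pos e]
      refine ⟨Φ.isF l, Φ.cr l, ?_⟩
      split_ifs
      · exact Φ.mono (by omega)
      · rw [show l = i by omega, h]; exact Ψ.mono (by omega)
    · simp only [if_neg e, if_neg (show ¬ l + 1 ≤ i by omega)]
      exact Ψ.2 l⟩
  have h1 : Ag i d Φ x := fun l hl => by
    rcases hl with hl | hl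
    · exact if_pos hl
    · rw [top _ hl, top _ hl]
  have h2 : Ag 0 (i - 1) x Ψ := fun l hl => by
    rcases hl with hl | hl
    · rw [show l = 0 by omega, bot hpos hd, bot hpos hd]
    · show _ = if _ then _ else _
      split_ifs
      · rw [show l = i by omega, h]
      · rfl
  rw [key (conn (by omega) (by omega) h2) (by omega), key (conn (by omega) le_rfl h1) (by omega)]

theorem exists_iso {g : Equiv.Perm (Fl E d)} (hg : g ∈ (toSys hpos hd).aut) : ∃ e, act e = g := by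
  have ex : ∀ g ∈ (toSys hpos hd).aut, ∃ f : {G // IsF E G} → {G // IsF E G}, Monotone f ∧
      ∀ (Φ : Fl E d) j, f ⟨_, Φ.isF j⟩ = ⟨_, isF (g Φ) j⟩ := by
    intro g hg
    choose Φ i _ _ h _ using fun G : {G // IsF E G} => exists_two hpos hd (le_refl G)
    have k : ∀ (Ψ : Fl E d) j, (⟨_, isF (g (Φ ⟨_, Ψ.isF j⟩)) (i ⟨_, Ψ.isF j⟩)⟩ :
        {G // IsF E G}) = ⟨_, isF (g Ψ) j⟩ := fun Ψ j =>
      Subtype.ext (dep hpos hd hg (congrArg Subtype.val (h _)).symm)
    refine ⟨fun G => ⟨_, isF (g (Φ G)) (i G)⟩, fun G H hGH => ?_, k⟩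
    obtain ⟨Ψ, a, b, hab, rfl, rfl⟩ := exists_two hpos hd hGH
    simp only [k]
    exact mono _ hab
  obtain ⟨f, f1, f2⟩ := ex g hg
  obtain ⟨f', f3, f4⟩ := ex g⁻¹ (Subgroup.inv_mem _ hg)
  refine ⟨Equiv.toOrderIso ⟨f, f', fun G => ?_, fun G => ?_⟩ f1 f3,
    Equiv.ext fun Φ => ext fun j => congrArg Subtype.val (f2 Φ j)⟩
  · obtain ⟨Ψ, a, -, -, rfl, -⟩ := exists_two hpos hd (le_refl G)
    rw [f2, f4]; simp
  · obtain ⟨Ψ, a, -, -, rfl, -⟩ := exists_two hpos hd (le_refl G)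
    rw [f4, f2]; simp

omit hpos in
theorem toFlag_act (e : {G // IsF E G} ≃o {G // IsF E G}) (Φ : Fl E d) :
    Flag.map e (toFlag hd Φ) = toFlag hd (act e Φ) := by
  refine Flag.ext (Set.ext fun G => ⟨?_, ?_⟩)
  · rintro ⟨H, ⟨j, hj⟩, rfl⟩
    exact ⟨j, congrArg (fun G => (e G).1) (Subtype.ext hj)⟩
  · rintro ⟨j, hj⟩
    exact ⟨⟨_, Φ.isF j⟩, ⟨j, rfl⟩, Subtype.ext hj.symm⟩

end Fl

theorem k_eq (hpos : IsF E ∅) (hd : finrank ℝ E = d + 1) :
    (toSys hpos hd).k = numOrbits {G // IsF E G} := by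
  refine Nat.card_congr (Quot.congr (Equiv.ofBijective _ (Fl.toFlag_bij hpos hd))
    fun Φ Ψ => ⟨?_, ?_⟩)
  · rintro ⟨g, rfl⟩
    obtain ⟨e, he⟩ := Fl.exists_iso hpos hd (g⁻¹).2
    refine ⟨e, (Fl.toFlag_act hd e _).trans ?_⟩
    rw [he]
    exact congrArg (Fl.toFlag hd) (inv_smul_smul g Ψ)
  · rintro ⟨e, he⟩
    have := (Fl.toFlag_bij hpos hd).1 ((Fl.toFlag_act hd e Φ).symm.trans he)
    subst this
    exact ⟨⟨(Fl.act e)⁻¹, Subgroup.inv_mem _ (Fl.act_r e)⟩, (Fl.act e).symm_apply_apply Φ⟩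

/-- affine functions evaluated on the points `v i` -/
noncomputable def affT (v : ι → EuclideanSpace ℝ (Fin d)) :
    (ℝ × StrongDual ℝ (EuclideanSpace ℝ (Fin d))) →ₗ[ℝ] ι → ℝ where
  toFun p i := p.1 + p.2 (v i)
  map_add' p q := funext fun i => by simp; ring
  map_smul' c p := funext fun i => by simp; ring

omit [Fintype ι] in
theorem one_mem_aff (v : ι → EuclideanSpace ℝ (Fin d)) : IsF (affT v).range ∅ :=
  ⟨_, ⟨(1, 0), rfl⟩, fun i => by simp [affT], fun i => by simp [affT]⟩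

omit [Fintype ι] in
theorem rank_aff [Nonempty ι] (v : ι → EuclideanSpace ℝ (Fin d)) :
    (interior (convexHull ℝ (Set.range v))).Nonempty ↔ finrank ℝ (affT v).range = d + 1 := by
  have h1 := (affT v).finrank_range_add_finrank_ker
  have h2 : finrank ℝ (ℝ × StrongDual ℝ (EuclideanSpace ℝ (Fin d))) = d + 1 := by
    rw [finrank_prod, ← (LinearMap.toContinuousLinearMap (𝕜 := ℝ)
      (E := EuclideanSpace ℝ (Fin d)) (F' := ℝ)).finrank_eq]
    simp [add_comm]
  obtain ⟨i0⟩ := ‹Nonempty ι›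
  rw [interior_convexHull_nonempty_iff_affineSpan_eq_top,
    AffineSubspace.affineSpan_eq_top_iff_vectorSpan_eq_top_of_nonempty ℝ _ _
      (Set.range_nonempty v), vectorSpan_range_eq_span_range_vsub_right ℝ v i0]
  constructor
  · intro h
    have : (affT v).ker = ⊥ := by
      rw [LinearMap.ker_eq_bot']
      rintro ⟨c, l⟩ hp
      have k : ∀ i, c + l (v i) = 0 := congrFun hp
      have : l = 0 := ContinuousLinearMap.coe_injective (LinearMap.ext_on h (by
        rintro _ ⟨i, rfl⟩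
        simp only [vsub_eq_sub, map_sub, ContinuousLinearMap.coe_coe,
          ContinuousLinearMap.toLinearMap_zero, LinearMap.zero_apply]
        linarith [k i, k i0]))
      subst this
      simpa using k i0
    rw [this, finrank_bot] at h1
    omega
  · intro h
    have k : (affT v).ker = ⊥ := Submodule.finrank_eq_zero.1 (by omega)
    by_contra hc
    obtain ⟨l, l0, hl⟩ := Submodule.exists_le_ker_of_lt_top _ (lt_top_iff_ne_top.2 hc)
    have := LinearMap.ker_eq_bot'.1 k (-l (v i0), LinearMap.toContinuousLinearMap l) (by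
      funext i
      have := hl (Submodule.subset_span ⟨i, rfl⟩)
      simp only [vsub_eq_sub, LinearMap.mem_ker, map_sub] at this
      simp only [affT, LinearMap.coe_mk, AddHom.coe_mk, LinearMap.coe_toContinuousLinearMap',
        Pi.zero_apply]
      linarith)
    exact l0 (LinearMap.toContinuousLinearMap.map_eq_zero_iff.1 (congrArg Prod.snd this))

omit [Fintype ι] in
theorem hull_face (v : ι → EuclideanSpace ℝ (Fin d)) (c : ℝ)
    (l : StrongDual ℝ (EuclideanSpace ℝ (Fin d))) (h : ∀ i, 0 ≤ c + l (v i))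
    {x : EuclideanSpace ℝ (Fin d)} (hx : x ∈ convexHull ℝ (Set.range v)) :
    0 ≤ c + l x ∧ (c + l x = 0 → x ∈ convexHull ℝ (v '' {i | c + l (v i) = 0})) := by
  classical
  rw [convexHull_range_eq_exists_affineCombination] at hx
  obtain ⟨s, w, w0, w1, rfl⟩ := hx
  rw [Finset.affineCombination_eq_linear_combination _ _ _ w1]
  have e : c + l (∑ i ∈ s, w i • v i) = ∑ i ∈ s, w i * (c + l (v i)) := by
    simp only [map_sum, map_smul, smul_eq_mul, mul_add, Finset.sum_add_distrib, ← Finset.sum_mul,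
      w1, one_mul]
  have p : ∀ i ∈ s, 0 ≤ w i * (c + l (v i)) := fun i hi => mul_nonneg (w0 i hi) (h i)
  rw [e]
  refine ⟨Finset.sum_nonneg p, fun k => ?_⟩
  rw [Finset.sum_eq_zero_iff_of_nonneg p] at k
  rw [← Finset.sum_filter_of_ne (p := fun i => w i ≠ 0) fun i _ hi => left_ne_zero_of_smul hi]
  refine (convex_convexHull ℝ _).sum_mem (fun i hi => w0 i (Finset.mem_filter.1 hi).1)
    (by rw [Finset.sum_filter_ne_zero, w1]) fun i hi => subset_convexHull ℝ _ ⟨i, ?_, rfl⟩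
  exact (mul_eq_zero.1 (k i (Finset.mem_filter.1 hi).1)).resolve_left (Finset.mem_filter.1 hi).2

omit [Fintype ι] in
theorem bridge (v : ι → EuclideanSpace ℝ (Fin d)) :
    numOrbits {F // IsExposed ℝ (convexHull ℝ (Set.range v)) F} =
      numOrbits {G // IsF (affT v).range G} := by
  have vm : ∀ i, v i ∈ convexHull ℝ (Set.range v) := fun i => subset_convexHull ℝ _ ⟨i, rfl⟩
  have key : ∀ F, IsExposed ℝ (convexHull ℝ (Set.range v)) F →
      IsF (affT v).range {i | v i ∈ F} ∧ F ⊆ convexHull ℝ (v '' {i | v i ∈ F}) := by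
    intro F hF
    rcases F.eq_empty_or_nonempty with rfl | ⟨x, hx⟩
    · exact ⟨one_mem_aff v, Set.empty_subset _⟩
    obtain ⟨l, rfl⟩ := hF ⟨x, hx⟩
    have h : ∀ i, 0 ≤ l x + (-l) (v i) := fun i => by simpa using hx.2 _ (vm i)
    have z : ∀ y ∈ convexHull ℝ (Set.range v), l x + (-l) y = 0 ↔
        ∀ z ∈ convexHull ℝ (Set.range v), l z ≤ l y := fun y hy => by
      simp only [neg_apply]
      exact ⟨fun k z hz => by linarith [hx.2 z hz], fun k => by linarith [k x hx.1, hx.2 y hy]⟩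
    refine ⟨⟨_, ⟨(l x, -l), rfl⟩, h, fun i => (z _ (vm i)).trans ⟨fun k => ⟨vm i, k⟩, fun k => k.2⟩⟩,
      fun y hy => convexHull_mono (Set.image_mono fun i hi => ?_)
        ((hull_face v _ _ h hy.1).2 ((z y hy.1).2 hy.2))⟩
    exact ⟨vm i, (z _ (vm i)).1 hi⟩
  refine numOrbits_congr (RelIso.ofSurjective (OrderEmbedding.ofMapLEIff
    (fun F => ⟨_, (key F.1 F.2).1⟩) fun F F' => ⟨fun h => (key F.1 F.2).2.trans
      (convexHull_min ?_ (F'.2.convex (convex_convexHull ℝ _))), fun h i hi => h hi⟩) ?_)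
  · rintro _ ⟨i, hi, rfl⟩
    exact h hi
  · rintro ⟨G, _, ⟨⟨c, l⟩, rfl⟩, h1, h2⟩
    refine ⟨⟨{x | x ∈ convexHull ℝ (Set.range v) ∧ c + l x = 0}, fun ⟨x, hx⟩ => ⟨-l, ?_⟩⟩,
      Subtype.ext (Set.ext fun i => ⟨fun k => (h2 i).1 k.2, fun k => ⟨vm i, (h2 i).2 k⟩⟩)⟩
    ext y
    refine and_congr_right fun hy => ?_
    simp only [neg_apply]
    exact ⟨fun k z hz => by linarith [(hull_face v c l h1 hz).1],
      fun k => by linarith [k x hx.1, hx.2, (hull_face v c l h1 hy).1]⟩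

theorem attained_of [Nonempty ι] (v : ι → EuclideanSpace ℝ (Fin d))
    (h : finrank ℝ (affT v).range = d + 1) : Attained (toSys (one_mem_aff v) h).k d := by
  classical
  refine ⟨Finset.univ.image v, ?_, ?_⟩ <;> rw [Finset.coe_image, Finset.coe_univ, Set.image_univ]
  · exact (rank_aff v).2 h
  · rw [bridge, k_eq]

theorem Attained.sys {k d : ℕ} (h : Attained k d) : ∃ S : Sys d, S.k = k := by
  obtain ⟨V, h1, rfl⟩ := h
  have : Nonempty V := by
    rcases V.eq_empty_or_nonempty with rfl | ⟨x, hx⟩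
    · simp at h1
    · exact ⟨⟨x, hx⟩⟩
  rw [← Subtype.range_coe (s := (V : Set (EuclideanSpace ℝ (Fin d))))] at h1 ⊢
  exact ⟨_, (k_eq (one_mem_aff _) ((rank_aff _).1 h1)).trans (bridge _).symm⟩

end Pool.Agent.Lib.MP_7157e1_co
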