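import Pool.Agent.Lib.MP_7157e1_co.FoCore
import Pool.Agent.Lib.MP_7157e1_co.P4

/-! The flag system of a polytope is polytopal; the lower bound for the number of flag orbits. -/

namespace Pool.Agent.FlagOrb

open Equiv Set Pool.Agent.Lib.MP_7157e1_co

variable {ι : Type} [Fintype ι] {E : Submodule ℝ (ι → ℝ)} {d : ℕ}

lemma isF_sInter (s : Set {G // IsF E G}) : IsF E (⋂ G ∈ s, G.1) := by
  induction s, toFinite s using Set.Finite.induction_on with
  | empty => simpa using isF_univ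
  | insert _ _ ih => rw [biInter_insert]; exact IsF.inter (Subtype.prop _) ih

/-- the lattice of faces -/
@[reducible] noncomputable def faceLat (E : Submodule ℝ (ι → ℝ)) : Lattice {G // IsF E G} where
  toPartialOrder := inferInstance
  sup A B := ⟨_, isF_sInter {G | A ≤ G ∧ B ≤ G}⟩
  le_sup_left _ _ := subset_iInter₂ fun _ h => h.1
  le_sup_right _ _ := subset_iInter₂ fun _ h => h.2
  sup_le _ _ C h1 h2 := biInter_subset_of_mem (t := fun G : {G // IsF E G} => G.1) (x := C) ⟨h1, h2⟩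
  inf A B := ⟨_, A.2.inter B.2⟩
  inf_le_left _ _ := inter_subset_left
  inf_le_right _ _ := inter_subset_right
  le_inf _ _ _ h1 h2 := subset_inter h1 h2

/-- the flips as permutations -/
noncomputable def rp (E : Submodule ℝ (ι → ℝ)) (d c : ℕ) : Perm (Lib.MP_7157e1_co.Fl E d) :=
  Function.Involutive.toPerm _ (Fl.r_inv c)

lemma rp_apply (c : ℕ) (x : Lib.MP_7157e1_co.Fl E d) : rp E d c x = Fl.r c x := rfl

lemma rch_of_conn {X : Type} {t : ℕ → Perm X} {I : Set ℕ} {x y : X}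
    (h : Conn (fun c => t c) I x y) : Rch t I x y :=
  h.ind (Rch t I x) (Rch.refl x) fun _ hi _ hx => hx.next hi

lemma conn_of_rch {X : Type} {t : ℕ → Perm X} {I : Set ℕ} (hinv : ∀ c ∈ I, t c * t c = 1)
    {x y : X} (h : Rch t I x y) : Conn (fun c => t c) I x y :=
  h.ind hinv (P := Conn (fun c => t c) I x) (Conn.refl x) fun _ _ hc _ ih => ih.step hc

theorem poly_ps (hpos : IsF E ∅) (hd : Module.finrank ℝ E = d + 1) :
    @PS _ _ (faceLat E) d (rp E d) fun i x => ⟨x.1 i, x.isF i⟩ := by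
  let _ := faceLat E
  have hinv : ∀ c, rp E d c * rp E d c = 1 := fun c => Equiv.ext (Fl.r_inv c)
  have hcomm : ∀ c c', c + 2 ≤ c' → Commute (rp E d c) (rp E d c') := fun c c' h =>
    Equiv.ext (Fl.r_comm h)
  refine ⟨hinv, hcomm, fun c h => Equiv.ext (Fl.r_out h), fun i x hi => ?_,
    fun c i x hi => Subtype.ext (Fl.r_off c x hi), fun c x hc => ?_, fun c x hc => ?_,
    fun a b x y hab hb h1 h2 => ?_, fun x y => Subtype.ext ?_, fun x y => Subtype.ext ?_,
    fun a b hb => ?_⟩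
  · refine lt_of_le_of_ne (x.mono (Nat.le_succ i)) fun e => ?_
    have h1 := x.cr i
    have h2 := x.cr (i + 1)
    rw [show x.1 i = x.1 (i + 1) from congrArg Subtype.val e] at h1
    omega
  · refine le_antisymm (fun z hz => Fl.inter_eq hc x hz.2 hz.1) (le_inf ?_ (x.mono (Nat.le_succ c)))
    change x.1 c ⊆ (Fl.r c x).1 (c + 1)
    rw [← Fl.r_off c x (show c ≠ c + 1 by omega)]
    exact Fl.mono _ (Nat.le_succ c)
  · have s1 : (⟨_, (rp E d c x).isF (c + 1)⟩ : {G // IsF E G}) ≤ ⟨_, x.isF (c + 2)⟩ := by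
      change (Fl.r c x).1 (c + 1) ⊆ x.1 (c + 2)
      rw [← Fl.r_off c x (show c + 2 ≠ c + 1 by omega)]
      exact Fl.mono _ (Nat.le_succ _)
    have s2 : (⟨_, x.isF (c + 1)⟩ : {G // IsF E G}) ≤ ⟨_, x.isF (c + 2)⟩ := x.mono (Nat.le_succ _)
    set J := (⟨_, (rp E d c x).isF (c + 1)⟩ : {G // IsF E G}) ⊔ ⟨_, x.isF (c + 1)⟩ with hJ
    have j1 : (Fl.r c x).1 (c + 1) ⊆ J.1 := (le_sup_left : _ ≤ J)
    have j2 : x.1 (c + 1) ⊆ J.1 := (le_sup_right : _ ≤ J)
    refine Subtype.ext (J.2.eq_of_cr (sup_le s1 s2) ?_)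
    by_contra hcon
    have e1 := ((Fl.r c x).isF (c + 1)).eq_of_cr j1 (by rw [Fl.cr]; rw [Fl.cr] at hcon; omega)
    have e2 := (x.isF (c + 1)).eq_of_cr j2 (by rw [Fl.cr]; rw [Fl.cr] at hcon; omega)
    exact Fl.r_ne hc x (e1.trans e2.symm)
  · refine rch_of_conn (Fl.conn hab hb fun j hj => ?_)
    rcases hj with hj | hj
    · exact (congrArg Subtype.val (h1 j hj)).symm
    · by_cases k : j ≤ d + 1
      · exact (congrArg Subtype.val (h2 j hj k)).symm
      · rw [x.top (by omega), y.top (by omega)]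
  · exact (x.bot hpos hd).trans (y.bot hpos hd).symm
  · exact (x.top le_rfl).trans (y.top le_rfl).symm
  · intro Y R π h1 h2 h3 y y' hr he
    refine Fl.sc (E := E) b (a := a) (by omega) hb Y π (fun c => R c)
      (fun i hi z => invol_apply (h1 i hi) z) h2 (fun i hi j hj hij z => ?_)
      (fun i hi hi' z m hm => ?_) y y' (conn_of_rch h1 hr) he
    · have q := h3 i hi j hj z 2 (by
        rw [(hcomm i j hij).mul_pow, pow_two, pow_two, hinv, hinv, one_mul]; rfl)
      rw [pow_two] at q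
      simp only [Perm.mul_apply] at q
      have q2 := congrArg (fun z => R j (R i z)) q
      simpa only [invol_apply (h1 i hi), invol_apply (h1 j hj)] using q2
    · have q := h3 i hi (i + 1) hi' z m (by rw [Perm.coe_pow]; exact hm)
      rwa [Perm.coe_pow] at q

theorem nty_eq (hpos : IsF E ∅) (hd : Module.finrank ℝ E = d + 1) :
    nty (rp E d) = (toSys hpos hd).k := by
  refine Nat.card_congr (Quotient.congr (Equiv.refl _) fun x y => ⟨?_, ?_⟩)
  · rintro ⟨g, hg, rfl⟩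
    exact ⟨⟨g⁻¹, Subgroup.inv_mem _ fun i z => Aut.app hg i z⟩, g.symm_apply_apply x⟩
  · rintro ⟨g, rfl⟩
    exact Eqv.symm ⟨g.1, fun c => Equiv.ext fun z => g.2 c z, rfl⟩

theorem lower {k d : ℕ} (h : Attained k d) (hd : 9 ≤ d) : k = 1 ∨ d ≤ k + 2 := by
  obtain ⟨V, h1, rfl⟩ := h
  have : Nonempty V := by
    rcases V.eq_empty_or_nonempty with rfl | ⟨x, hx⟩
    · simp at h1
    · exact ⟨⟨x, hx⟩⟩
  rw [← Subtype.range_coe (s := (V : Set (EuclideanSpace ℝ (Fin d))))] at h1 ⊢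
  have hr := (rank_aff _).1 h1
  rw [bridge, ← k_eq (one_mem_aff _) hr, ← nty_eq]
  exact @PS.core _ _ (faceLat _) _ _ _ (poly_ps (one_mem_aff _) hr) _
    (Fl.nonempty (one_mem_aff _) hr) hd

end Pool.Agent.FlagOrb
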