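import Pool.Agent.Lib.MP_7157e1_co.FoArm

/-! Local properties of wall reflections. -/

namespace Pool.Agent.FlagOrb

open Equiv Set

/-- the word `r u * r (u + 1) * ⋯ * r (u + j - 1)` -/
def up {F : Type} (r : ℕ → Perm F) (u : ℕ) : ℕ → Perm F
  | 0 => 1
  | j + 1 => up r u j * r (u + j)

lemma up_mem {F : Type} (r : ℕ → Perm F) (u j : ℕ) : up r u j ∈ W r (Ico u (u + j)) := by
  induction j with
  | zero => exact one_mem _
  | succ j ih =>
    exact mul_mem (W_mono (Ico_subset_Ico_right (by omega)) ih) (W_gen ⟨by omega, by omega⟩)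

/-- walls of the chamber with colour in `I` -/
def WallsI {F : Type} (r : ℕ → Perm F) (a b : ℕ) (x0 : F) (I : Set ℕ) : Set (Perm F) :=
  {g | ∃ x c, InD r a b x0 x ∧ c ∈ I ∧ Wl r x c ∧ g = rf r x c}

lemma WallsI.sub {F : Type} {r : ℕ → Perm F} {a b : ℕ} {x0 : F} {I : Set ℕ} (hI : I ⊆ Ico a b) :
    WallsI r a b x0 I ⊆ Walls r a b x0 := by
  rintro _ ⟨x, c, h1, h2, h3, rfl⟩
  exact wall_mem h1 (hI h2) h3

lemma WallsI.aut {F : Type} {r : ℕ → Perm F} {a b : ℕ} {x0 : F} {I : Set ℕ} {S : Set (Perm F)}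
    (hS : S ⊆ WallsI r a b x0 I) : Subgroup.closure S ≤ Aut r := by
  rw [Subgroup.closure_le]
  intro g hg
  obtain ⟨x, c, -, -, -, rfl⟩ := hS hg
  exact rf_aut x c

lemma InD.rch {F : Type} {r : ℕ → Perm F} {a b : ℕ} {x0 x : F} {I : Set ℕ}
    (hI : ∀ c ∈ Ico a b, c ∉ I → ∀ y, Wl r y c) (h : InD r a b x0 x) : Rch r I x0 x := by
  refine h.ind (Rch.refl _) fun y c _ hc hw ih => ih.next ?_
  by_contra hn
  exact hw (hI c hc hn y)

lemma rf_pow {F : Type} {r : ℕ → Perm F} {x : F} {c c' : ℕ} (hw : Wl r x c) (hw' : Wl r x c')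
    (j : ℕ) : ((rf r x c * rf r x c') ^ j) x = ((r c' * r c) ^ j) x := by
  induction j with
  | zero => rfl
  | succ j ih =>
    have hj : (rf r x c * rf r x c') ^ j ∈ Aut r := pow_mem (mul_mem (rf_aut _ _) (rf_aut _ _)) j
    rw [pow_succ, pow_succ']
    simp only [Perm.mul_apply]
    rw [rf_app hw', Aut.app (rf_aut _ _), rf_app hw, Aut.app hj, Aut.app hj, ih]

namespace PS

variable {F L : Type} [Lattice L] {n : ℕ} {r : ℕ → Perm F} {φ : ℕ → F → L} (h : PS n r φ)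
include h

lemma rf_ne {x : F} {c c' : ℕ} (hw : Wl r x c) (hw' : Wl r x c') (hc : c < n) (hcc : c ≠ c') :
    rf r x c ≠ rf r x c' := by
  intro he
  apply h.ne_col hc hcc x
  rw [← rf_app hw, he, rf_app hw']

lemma rf_adj {x : F} {c : ℕ} (hw : Wl r x c) (hw' : Wl r x (c + 1)) (hc : c + 1 < n) :
    ¬ Commute (rf r x c) (rf r x (c + 1)) := by
  intro he
  have := congrArg (fun g : Perm F => g x) he.eq
  simp only [Perm.mul_apply, rf_app hw, rf_app hw', Aut.app (rf_aut _ _)] at this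
  exact h.not_comm hc x this.symm

lemma rf_step {x : F} {c c' : ℕ} (hw : Wl r x c) (h1 : c ≠ c' + 1) (h2 : c' ≠ c + 1) :
    rf r (r c' x) c = rf r x c :=
  h.rf_comm hw (I := univ) (W_gen (mem_univ c')) (h.comm' h2 h1)

lemma wl_far {x : F} {c c' : ℕ} (h1 : c ≠ c' + 1) (h2 : c' ≠ c + 1) :
    Wl r (r c' x) c ↔ Wl r x c :=
  ⟨fun hw => by
    simpa [h.rr] using hw.comm (I := univ) (W_gen (mem_univ c')) (h.comm' h2 h1),
    fun hw => hw.comm (I := univ) (W_gen (mem_univ c')) (h.comm' h2 h1)⟩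

lemma rf_rch {x y : F} {c : ℕ} {I : Set ℕ} (hw : Wl r x c) (hr : Rch r I x y)
    (hI : ∀ c' ∈ I, c ≠ c' + 1 ∧ c' ≠ c + 1) : rf r y c = rf r x c := by
  obtain ⟨k, hk, rfl⟩ := hr
  exact h.rf_comm hw hk (W_comm (fun c' hc' => h.comm' (hI c' hc').1 (hI c' hc').2) hk).symm

lemma rf_step_ne {x : F} {c c' : ℕ} (hw : Wl r x c) (hw' : Wl r (r c' x) c)
    (hcc : (c' = c + 1 ∧ c' < n) ∨ (c = c' + 1 ∧ c < n)) : rf r x c ≠ rf r (r c' x) c := by
  intro he
  have := rf_app hw'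
  rw [← he, Aut.app (rf_aut _ _), rf_app hw] at this
  rcases hcc with ⟨rfl, hc⟩ | ⟨rfl, hc⟩
  · exact h.not_comm hc x this.symm
  · exact h.not_comm hc x this

lemma per_three [Finite F] {x : F} {c : ℕ} (hw : Wl r x c) (hw' : Wl r x (c + 1))
    (hc : c + 1 < n) (h3 : (rf r x c * rf r x (c + 1)) ^ 3 = 1) : per r c x = 3 := by
  have := rf_pow hw hw' 3
  rw [h3] at this
  have h1 := Nat.le_of_dvd (by norm_num)
    (per_dvd.2 (pow_swap_app (h.inv _) (h.inv _) this.symm))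
  have := h.per_ge hc x
  omega

lemma rf_sep {x y : F} {e c : ℕ} {I : Set ℕ} (hr : Rch r I x y) (he : e ∉ I) (hc : c ∈ I)
    (hw : Wl r x e) (hw' : Wl r y c) (hn : e < n) : rf r x e ≠ rf r y c := by
  intro hq
  have h1 := Aut.rch (rf_aut (r := r) x e) hr
  rw [rf_app hw, hq, rf_app hw'] at h1
  apply h.ne_face hn x
  exact h.sameR ((hr.next hc).trans h1.symm) fun c' hc' hh => he (by
    rwa [show e = c' by omega])

lemma decomp {a b : ℕ} {x0 y : F} {I : Set ℕ} (hI : I ⊆ Ico a b) (hr : Rch r I x0 y) :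
    ∃ γ ∈ Subgroup.closure (WallsI r a b x0 I), ∃ x, InD r a b x0 x ∧ y = γ x := by
  refine hr.ind (fun c _ => h.inv c) (P := fun y => ∃ γ ∈ Subgroup.closure (WallsI r a b x0 I),
    ∃ x, InD r a b x0 x ∧ y = γ x) ⟨1, one_mem _, x0, InD.refl _, rfl⟩ ?_
  rintro _ c hc _ ⟨γ, hγ, x, hx, rfl⟩
  have ha := WallsI.aut subset_rfl hγ
  by_cases hw : Wl r x c
  · refine ⟨γ * rf r x c, mul_mem hγ (Subgroup.subset_closure ⟨x, c, hx, hc, hw, rfl⟩), x, hx, ?_⟩
    rw [Perm.mul_apply, rf_app hw, Aut.app ha]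
  · exact ⟨γ, hγ, r c x, hx.next (hI hc) hw, (Aut.app ha c x).symm⟩

lemma closure_rch {a b : ℕ} {x0 : F} {I J : Set ℕ} {S : Set (Perm F)}
    (hS : S ⊆ WallsI r a b x0 I) (hIJ : ∀ g ∈ S, ∃ x c, InD r a b x0 x ∧ c ∈ J ∧ Wl r x c ∧
      g = rf r x c) (hD : ∀ x, InD r a b x0 x → Rch r J x0 x) {γ : Perm F}
    (hγ : γ ∈ Subgroup.closure S) {y : F} (hy : Rch r J x0 y) : Rch r J y (γ y) := by
  have key : Rch r J x0 (γ x0) := by
    induction hγ using Subgroup.closure_induction with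
    | mem g hg =>
      obtain ⟨x, c, hx, hc, hw, rfl⟩ := hIJ g hg
      have h1 := Aut.rch (rf_aut (r := r) x c) (hD x hx)
      rw [rf_app hw] at h1
      exact ((hD x hx).next hc).trans h1.symm
    | one => exact Rch.refl _
    | mul g k hg _ ih1 ih2 => exact ih1.trans (Aut.rch (WallsI.aut hS hg) ih2)
    | inv g hg ih =>
      have := Aut.rch (inv_mem (WallsI.aut hS hg)) ih
      simpa using this.symm
  exact (hy.symm.trans key).trans (Aut.rch (WallsI.aut hS hγ) hy)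

lemma up_meet {u : ℕ} (j : ℕ) (hj : u + j < n) (y : F) :
    φ (u + 1) (up r u (j + 1) y) ⊓ φ (u + j + 1) y ≤ φ u y := by
  induction j generalizing y with
  | zero => simpa [up] using (h.meet u y hj).le
  | succ j ih =>
    have e : up r u (j + 1 + 1) y = up r u (j + 1) (r (u + (j + 1)) y) := rfl
    rw [e]
    set y' := r (u + (j + 1)) y with hy'
    have h1 := ih (by omega) y'
    have h2 : φ (u + 1) (up r u (j + 1) y') ≤ φ (u + (j + 1) + 1) y' := by
      rw [← h.sameR (x := y') ⟨_, up_mem r u (j + 1), rfl⟩ (i := u + (j + 1) + 1)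
        fun c hc => by have := hc.2; omega]
      exact h.mono (by omega) (by omega) _
    have h3 := h.meet (u + (j + 1)) y hj
    rw [h.same _ u y (by omega), h.same _ (u + j + 1) y (by omega)] at h1
    refine le_trans (le_inf inf_le_left ?_) h1
    rw [show u + j + 1 = u + (j + 1) by omega, ← h3]
    exact inf_le_inf_right _ h2

lemma up_dist {u i j : ℕ} (hij : i < j) (hj : u + j ≤ n) (y : F) :
    φ (u + 1) (up r u i y) ≠ φ (u + 1) (up r u j y) := by
  intro he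
  obtain ⟨j, rfl⟩ : ∃ k, j = k + 1 := ⟨j - 1, by omega⟩
  have h1 := h.up_meet j (by omega) y (u := u)
  have hr : Rch r (Ico u (u + i)) y (up r u i y) := ⟨_, up_mem r u i, rfl⟩
  have h2 : φ (u + 1) (up r u i y) ≤ φ (u + j + 1) y := by
    rw [← h.sameR hr (i := u + j + 1) fun c hc => by have := hc.2; omega]
    exact h.mono (by omega) (by omega) _
  rw [← he, inf_eq_left.2 h2, ← h.sameR hr (i := u) fun c hc => by have := hc.1; omega] at h1
  exact (h.lt u _ (by omega)).not_ge h1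

lemma rf_dist {e i j : ℕ} (ht : ∀ y, Wl r y e) (hij : i < j) (hj : e + 1 + j ≤ n) (y : F) :
    rf r (up r (e + 1) i y) e ≠ rf r (up r (e + 1) j y) e := by
  intro he
  apply h.up_dist hij hj y
  have hr : Rch r (Ici (e + 1)) (up r (e + 1) i y) (up r (e + 1) j y) :=
    Rch.trans (Rch.symm ⟨_, W_mono Ico_subset_Ici_self (up_mem r _ i), rfl⟩)
      ⟨_, W_mono Ico_subset_Ici_self (up_mem r _ j), rfl⟩
  have h1 := Aut.rch (rf_aut (r := r) (up r (e + 1) i y) e) hr
  rw [rf_app (ht _), he, rf_app (ht _)] at h1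
  have hI : ∀ c ∈ Ici (e + 1), e + 1 ≠ c + 1 := fun c hc => by have := mem_Ici.1 hc; omega
  rw [← h.join e _ (by omega), ← h.join e _ (by omega), h.sameR hr hI, h.sameR h1 hI]

end PS

end Pool.Agent.FlagOrb
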