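import Pool.Agent.Lib.MP_7157e1_co.FoCount

/-! Strings of involutions with labels: basic lemmas. -/

namespace Pool.Agent.FlagOrb

open Equiv Set

/-- the colours which may change the label `l` -/
def Dl (l : ℕ) : Set ℕ := {c | c + 1 = l ∨ c = l + 2}

/-- A labelled string of involutions. -/
structure Str {X : Type} (n : ℕ) (t : ℕ → Perm X) (p : ℕ → X → ℕ) : Prop where
  inv : ∀ c, t c * t c = 1
  comm : ∀ c c', c + 2 ≤ c' → Commute (t c) (t c')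
  pinv : ∀ l c x, c + 1 ≠ l → c ≠ l + 2 → p l (t c x) = p l x
  per : ∀ l x, ((t l * t (l + 1)) ^ p l x) x = x
  e2 : ∀ j x, j + 3 ≤ n → (∀ y, Rch t (Ico j (j + 3)) x y → ∀ i, i + 1 < 3 →
    p (j + i) y = p (j + i) x) → p j x = 3 ∨ p (j + 1) x = 3
  e3 : ∀ j x, j + 4 ≤ n → (∀ y, Rch t (Ico j (j + 4)) x y → ∀ i, i + 1 < 4 →
    p (j + i) y = p (j + i) x) → p j x = 3 ∨ p (j + 2) x = 3
  e4 : ∀ j x, j + 5 ≤ n → (∀ y, Rch t (Ico j (j + 5)) x y → ∀ i, i + 1 < 5 →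
    p (j + i) y = p (j + i) x) → p (j + 1) x = 3 ∧ p (j + 2) x = 3

/-- A good interval of colours. -/
structure Gd {X : Type} (t : ℕ → Perm X) (a b : ℕ) (x0 : X) : Prop where
  faith : ∀ g ∈ W t (Ico a b), (∀ y ∈ orb t (Ico a b) x0, g y = y) → g = 1
  nt : ∀ c ∈ Ico a b, t c ≠ 1
  H : ∀ z, (∀ c ∈ Ico a b, Commute z (t c)) → (∀ l, z ∈ W t (Ico a b \ Dl l)) → z = 1

/-- transitivity of a set of colours -/
def Tr {X : Type} (t : ℕ → Perm X) (a b : ℕ) (x0 : X) (I : Set ℕ) : Prop :=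
  ∀ y ∈ orb t (Ico a b) x0, Rch t I x0 y

/-- no centralizing permutation -/
def NoC {X : Type} (t : ℕ → Perm X) (a b : ℕ) (x0 : X) : Prop :=
  ∀ z : Perm X, (∀ c ∈ Ico a b, Commute z (t c)) → z x0 ∈ orb t (Ico a b) x0 → z x0 = x0

set_option synthInstance.maxSize 2000 in
theorem fin4_d4 : ∀ z : Perm (Fin 4), (∀ i, z i ≠ i) → ∃ s : Perm (Fin 4), s ≠ 1 ∧
    (s = z ∨ s = z * z) ∧ ∀ t : Perm (Fin 4), z * t = t * z → t * t = 1 → t ≠ 1 →
    ∀ t' : Perm (Fin 4), z * t' = t' * z → t' * t' = 1 → t' ≠ 1 → t ≠ t' →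
    s = t ∨ s = t' ∨ s = t * t' ∨ s = t * t' * t * t' := by
  decide +kernel

theorem fin4_q1 : ∀ t t' : Perm (Fin 4), (∀ i, t i ≠ i) → (∀ i, t' i ≠ i) → t * t = 1 →
    t' * t' = 1 → t * t' = t' * t := by
  decide +kernel

lemma transport4 {X : Type} [Finite X] {O : Set X} (h4 : O.ncard = 4) :
    ∃ ψ : Perm X → Perm (Fin 4), ∃ e : Fin 4 → X, range e = O ∧ Function.Injective e ∧
      ∀ g : Perm X, MapsTo g O O → ∀ i, e (ψ g i) = g (e i) := by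
  classical
  let e : O ≃ Fin 4 := Finite.equivFinOfCardEq h4
  refine ⟨fun g => if h : ∀ y, g y ∈ O ↔ y ∈ O then e.permCongr (g.subtypePerm h) else 1,
    fun i => e.symm i, ?_, ?_, ?_⟩
  · ext y
    exact ⟨fun ⟨i, hi⟩ => hi ▸ (e.symm i).2, fun hy => ⟨e ⟨y, hy⟩, by simp⟩⟩
  · exact Subtype.val_injective.comp e.symm.injective
  · intro g hg i
    have : ∀ y, g y ∈ O ↔ y ∈ O := by
      intro y
      refine ⟨fun hy => ?_, fun hy => hg hy⟩
      obtain ⟨w, hw, he⟩ := (((toFinite O).injOn_iff_bijOn_of_mapsTo hg).1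
        g.injective.injOn).surjOn hy
      rwa [← g.injective he]
    simp [dif_pos this]

section

variable {X : Type} {n : ℕ} {t : ℕ → Perm X} {p : ℕ → X → ℕ} {a b : ℕ} {x0 : X} {I J : Set ℕ}

lemma orb_self : x0 ∈ orb t I x0 := Rch.refl x0

lemma orb_closed {g : Perm X} (hg : g ∈ W t I) : MapsTo g (orb t I x0) (orb t I x0) :=
  fun _ hy => Rch.trans hy ⟨g, hg, rfl⟩

lemma orb_sub (hI : I ⊆ J) {y : X} (hy : y ∈ orb t J x0) : orb t I y ⊆ orb t J x0 :=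
  fun _ hz => Rch.trans hy (Rch.mono hz hI)

lemma Tr.mono (h : Tr t a b x0 I) (hI : I ⊆ J) : Tr t a b x0 J := fun y hy => (h y hy).mono hI

lemma cent_fpf {z : Perm X} (hz : ∀ c ∈ I, Commute z (t c)) (hT : Tr t a b x0 I) {y : X}
    (hy : y ∈ orb t (Ico a b) x0) (he : z y = y) : ∀ w ∈ orb t (Ico a b) x0, z w = w := by
  intro w hw
  obtain ⟨k, hk, rfl⟩ := (hT y hy).symm.trans (hT w hw)
  rw [← Perm.mul_apply, (W_comm hz hk).eq, Perm.mul_apply, he]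

lemma Str.comm' (hS : Str n t p) {c c' : ℕ} (h1 : c ≠ c' + 1) (h2 : c' ≠ c + 1) :
    Commute (t c) (t c') := by
  rcases lt_trichotomy c c' with hc | rfl | hc
  · exact hS.comm c c' (by omega)
  · exact Commute.refl _
  · exact (hS.comm c' c (by omega)).symm

lemma Gd.ne (hG : Gd t a b x0) (hS : Str n t p) {i j : ℕ} (hi : i ∈ Ico a b) (hj : j ∈ Ico a b)
    (hij : j = i + 1 ∨ i + 4 ≤ j) : t i ≠ t j := by
  intro he
  apply hG.nt i hi
  apply hG.H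
  · intro c _
    by_cases h1 : i ≠ c + 1 ∧ c ≠ i + 1
    · exact hS.comm' h1.1 h1.2
    · rw [he]; exact hS.comm' (by omega) (by omega)
  · intro l
    by_cases h1 : i ∈ Dl l
    · rw [he]
      exact W_gen ⟨hj, fun h2 => by
        simp only [Dl, mem_ofPred_eq] at h1 h2
        omega⟩
    · exact W_gen ⟨hi, h1⟩

lemma dec (hS : Str n t p) (hc : ∀ c ∈ I, ∀ c' ∈ J, Commute (t c) (t c'))
    (hT : Tr t a b x0 (I ∪ J)) {y : X} (hy : y ∈ orb t (Ico a b) x0) :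
    ∃ l ∈ W t I, ∃ k ∈ W t J, y = l (k x0) := by
  refine (hT y hy).ind (fun c _ => hS.inv c) (P := fun y => ∃ l ∈ W t I, ∃ k ∈ W t J, y = l (k x0))
    ⟨1, one_mem _, 1, one_mem _, rfl⟩ ?_
  rintro _ c (h1 | h1) _ ⟨l, hl, k, hk, rfl⟩
  · exact ⟨t c * l, mul_mem (W_gen h1) hl, k, hk, rfl⟩
  · refine ⟨l, hl, t c * k, mul_mem (W_gen h1) hk, ?_⟩
    rw [Perm.mul_apply, ← Perm.mul_apply l (t c), (W_comm2 hc hl (W_gen h1)).eq]; rfl

lemma two_faith (hS : Str n t p) (hG : Gd t a b x0) (hI : I ⊆ Ico a b)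
    (hc : ∀ c ∈ I, ∀ c' ∈ J, Commute (t c) (t c')) (hT : Tr t a b x0 (I ∪ J)) {g : Perm X}
    (hg : g ∈ W t I) (hf : ∀ y ∈ orb t I x0, g y = y) : g = 1 := by
  apply hG.faith g (W_mono hI hg)
  intro y hy
  obtain ⟨l, hl, k, hk, rfl⟩ := dec hS hc hT hy
  have e : l (k x0) = k (l x0) := by rw [← Perm.mul_apply, (W_comm2 hc hl hk).eq]; rfl
  rw [e, ← Perm.mul_apply, (W_comm2 hc hg hk).eq, Perm.mul_apply, hf _ ⟨l, hl, rfl⟩]

variable [Finite X]

lemma two_mul (hS : Str n t p) (hI : I ⊆ Ico a b)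
    (hc : ∀ c ∈ I, ∀ c' ∈ J, Commute (t c) (t c')) (hT : Tr t a b x0 (I ∪ J)) :
    (orb t (Ico a b) x0).ncard = (orb t I x0).ncard * no t I (orb t (Ico a b) x0) := by
  apply no_mul (fun x hx => orb_sub hI hx)
  intro y hy
  obtain ⟨l, hl, k, hk, rfl⟩ := dec hS hc hT hy
  rw [← orb_eq_iff.2 (show Rch t I (k x0) (l (k x0)) from ⟨l, hl, rfl⟩),
    ← Set.ncard_image_of_injective (orb t I x0) k.injective]
  congr 1
  ext w
  constructor
  · rintro ⟨g, hg, rfl⟩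
    exact ⟨g x0, ⟨g, hg, rfl⟩, by rw [← Perm.mul_apply, ← (W_comm2 hc hg hk).eq]; rfl⟩
  · rintro ⟨_, ⟨g, hg, rfl⟩, rfl⟩
    exact ⟨g, hg, by rw [← Perm.mul_apply, (W_comm2 hc hg hk).eq]; rfl⟩

lemma two_cent (hI : I ⊆ Ico a b) (hc : ∀ c ∈ I, ∀ c' ∈ J, Commute (t c) (t c'))
    (hlt : no t J (orb t (Ico a b) x0) < (orb t I x0).ncard) :
    ∃ z : Perm X, (∀ c ∈ I, Commute z (t c)) ∧ z x0 ∈ orb t I x0 ∧ z x0 ≠ x0 := by
  obtain ⟨y, hy, y', hy', hne, he⟩ := Set.exists_ne_map_eq_of_ncard_lt_of_maps_to hlt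
    (f := orb t J) (fun y hy => mem_image_of_mem _ (orb_sub hI orb_self hy)) (toFinite _)
  obtain ⟨k, hk, rfl⟩ := orb_eq_iff.1 he
  obtain ⟨l, hl, rfl⟩ := hy
  have e : k (l x0) = l (k x0) := by rw [← Perm.mul_apply, ← (W_comm2 hc hl hk).eq]; rfl
  refine ⟨k, fun c hcc => (W_comm2 hc (W_gen hcc) hk).symm, ?_, fun h => hne (by rw [e, h])⟩
  rw [e] at hy'
  exact Rch.trans hy' (Rch.symm ⟨l, hl, rfl⟩)

lemma no_ge_two (hI : I ⊆ Ico a b) (hT : ¬ Tr t a b x0 I) : 2 ≤ no t I (orb t (Ico a b) x0) := by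
  unfold Tr at hT
  push Not at hT
  obtain ⟨y, hy, hn⟩ := hT
  have := no_lt hI orb_self hy hy hn
  have := no_pos (t := t) (I := Ico a b) (orb_self (t := t) (I := Ico a b) (x0 := x0))
  omega

lemma no_step {c : ℕ} (hc : c ∈ Ico a b) (hcJ : c ∈ J) (hI : I ⊆ J) {y : X}
    (hy : y ∈ orb t (Ico a b) x0) (hn : ¬ Rch t I y (t c y)) :
    no t J (orb t (Ico a b) x0) < no t I (orb t (Ico a b) x0) :=
  no_lt hI hy (orb_closed (W_gen hc) hy) (Rch.step hcJ y) hn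

lemma chain (hS : Str n t p) {d e : ℕ} (hd : a ≤ d) (hde : d ≤ e) (he : e ≤ b)
    (hE : ∀ c ∈ Ico d e, ¬ Tr t a b x0 (Ico a c ∪ Ico (c + 1) b)) :
    e - d + 1 ≤ no t (Ico a d ∪ Ico e b) (orb t (Ico a b) x0) := by
  have key : ∀ k, d + k ≤ e → k + no t (Ico a (d + k) ∪ Ico e b) (orb t (Ico a b) x0) ≤
      no t (Ico a d ∪ Ico e b) (orb t (Ico a b) x0) := by
    intro k
    induction k with
    | zero => simp
    | succ k ih =>
      intro hk
      have h1 := ih (by omega)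
      have h2 : ∃ y ∈ orb t (Ico a b) x0, ¬ Rch t (Ico a (d + k) ∪ Ico e b) y (t (d + k) y) := by
        by_contra hcon
        push Not at hcon
        apply hE (d + k) ⟨by omega, by omega⟩
        intro y hy
        refine Rch.ind (fun c _ => hS.inv c)
          (P := fun y => Rch t (Ico a (d + k) ∪ Ico (d + k + 1) b) x0 y) (Rch.refl _) ?_ hy
        intro y c hc hy ih
        by_cases hcd : c = d + k
        · subst hcd
          exact ih.trans ((hcon y hy).mono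
            (union_subset_union_right _ (Ico_subset_Ico_left (by omega))))
        · refine ih.next ?_
          simp only [mem_union, mem_Ico] at hc ⊢
          omega
      obtain ⟨y, hy, hn⟩ := h2
      have := no_step (c := d + k) (J := Ico a (d + (k + 1)) ∪ Ico e b) ⟨by omega, by omega⟩
        (Or.inl ⟨by omega, by omega⟩)
        (union_subset_union_left _ (Ico_subset_Ico_right (by omega))) hy hn
      omega
  have h1 := key (e - d) (by omega)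
  have h2 := no_pos (t := t) (I := Ico a (d + (e - d)) ∪ Ico e b)
    (orb_self (t := t) (I := Ico a b) (x0 := x0))
  omega

lemma win_free (hS : Str n t p) (hG : Gd t a b x0) {j f : ℕ} (hj : a ≤ j) (hf : j + f ≤ b)
    {T : Set ℕ} (hT : Tr t a b x0 T) (far : ∀ c ∈ T, ∀ c' ∈ Ico j (j + f), c + 2 ≤ c' ∨ c' + 2 ≤ c)
    {g : Perm X} (hg : g ∈ W t (Ico j (j + f))) {y : X} (hy : y ∈ orb t (Ico a b) x0)
    (he : g y = y) : g = 1 :=
  hG.faith g (W_mono (Ico_subset_Ico hj hf) hg) (cent_fpf (fun c hc =>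
    (W_comm (fun c' hc' => hS.comm' (by have := far c hc c' hc'; omega)
      (by have := far c hc c' hc'; omega)) hg).symm) hT hy he)

lemma win_cube (hS : Str n t p) (hG : Gd t a b x0) (hb : b ≤ n) {j f : ℕ} (hj : a ≤ j)
    (hf : j + f ≤ b) {T : Set ℕ} (hT : Tr t a b x0 T)
    (far : ∀ c ∈ T, ∀ c' ∈ Ico j (j + f), c + 2 ≤ c' ∨ c' + 2 ≤ c) :
    (∀ l, j ≤ l → l + 3 ≤ j + f → (t l * t (l + 1)) ^ 3 = 1 ∨ (t (l + 1) * t (l + 2)) ^ 3 = 1) ∧
    (∀ l, j ≤ l → l + 4 ≤ j + f → (t l * t (l + 1)) ^ 3 = 1 ∨ (t (l + 2) * t (l + 3)) ^ 3 = 1) ∧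
    (∀ l, j ≤ l → l + 5 ≤ j + f →
      (t (l + 1) * t (l + 2)) ^ 3 = 1 ∧ (t (l + 2) * t (l + 3)) ^ 3 = 1) := by
  have const : ∀ l, j ≤ l → l + 1 < j + f → ∀ y ∈ orb t (Ico a b) x0, p l y = p l x0 := by
    intro l h1 h2 y hy
    refine (hT y hy).ind (fun c _ => hS.inv c) (P := fun y => p l y = p l x0) rfl ?_
    intro y c hc _ ih
    have a1 := far c hc l ⟨h1, by omega⟩
    have a2 := far c hc (l + 1) ⟨by omega, h2⟩
    rw [hS.pinv l c y (by omega) (by omega), ih]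
  have cst : ∀ l k, j ≤ l → l + k ≤ j + f → ∀ y, Rch t (Ico l (l + k)) x0 y → ∀ i, i + 1 < k →
      p (l + i) y = p (l + i) x0 := fun l k h1 h2 y hy i hi =>
    const (l + i) (by omega) (by omega) y (hy.mono (Ico_subset_Ico (by omega) (by omega)))
  have cube : ∀ l, j ≤ l → l + 1 < j + f → p l x0 = 3 → (t l * t (l + 1)) ^ 3 = 1 := by
    intro l h1 h2 h3
    refine win_free hS hG hj hf hT far
      (pow_mem (mul_mem (W_gen (mem_Ico.2 ⟨h1, by omega⟩)) (W_gen (mem_Ico.2 ⟨by omega, h2⟩))) 3)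
      orb_self ?_
    rw [← h3]; exact hS.per l x0
  refine ⟨fun l h1 h2 => ?_, fun l h1 h2 => ?_, fun l h1 h2 => ?_⟩
  · exact (hS.e2 l x0 (by omega) (cst l 3 h1 h2)).imp (cube l h1 (by omega))
      (cube (l + 1) (by omega) (by omega))
  · exact (hS.e3 l x0 (by omega) (cst l 4 h1 h2)).imp (cube l h1 (by omega))
      (cube (l + 2) (by omega) (by omega))
  · exact (hS.e4 l x0 (by omega) (cst l 5 h1 h2)).imp (cube (l + 1) (by omega) (by omega))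
      (cube (l + 2) (by omega) (by omega))

lemma win (hS : Str n t p) (hG : Gd t a b x0) (hb : b ≤ n) {j f : ℕ} (hj : a ≤ j)
    (hf : j + f ≤ b) {T : Set ℕ} (hT : Tr t a b x0 T)
    (far : ∀ c ∈ T, ∀ c' ∈ Ico j (j + f), c + 2 ≤ c' ∨ c' + 2 ≤ c) :
    ∃ h, (orb t (Ico j (j + f)) x0).ncard = h ∧
      (orb t (Ico a b) x0).ncard = h * no t (Ico j (j + f)) (orb t (Ico a b) x0) ∧
      (1 ≤ f → 2 ∣ h) ∧ 2 * f ≤ h ∧ (3 ≤ f → 6 ∣ h) ∧ (8 ≤ h → 2 * f + 2 ≤ h) ∧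
      (f = 3 → h = 6 → t j = t (j + 2)) := by
  obtain ⟨e2, e3, e4⟩ := win_cube hS hG hb hj hf hT far
  refine ⟨_, orb_card_free fun g hg => win_free hS hG hj hf hT far hg orb_self, ?_,
    window hS.inv hS.comm (fun c hc => hG.nt c (Ico_subset_Ico hj hf hc))
      (fun l h1 h2 => hG.ne hS ⟨by omega, by omega⟩ ⟨by omega, by omega⟩ (Or.inl rfl)) e2 e3 e4⟩
  exact no_mul (fun x hx => orb_sub (Ico_subset_Ico hj hf) hx)
    fun y hy => orb_card_free fun g hg => win_free hS hG hj hf hT far hg hy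

lemma D4 (hS : Str n t p) (hG : Gd t a b x0) (h4 : (orb t (Ico a b) x0).ncard = 4)
    (hN : a + 4 ≤ b) : NoC t a b x0 := by
  intro z hz hz0
  by_contra hne
  obtain ⟨ψ, e, er, ei, hψ⟩ := transport4 h4
  have eO : ∀ i, e i ∈ orb t (Ico a b) x0 := fun i => er ▸ mem_range_self i
  have zO : MapsTo z (orb t (Ico a b) x0) (orb t (Ico a b) x0) := fun y hy =>
    Rch.trans hz0 (Rch.map hz hy)
  have ψm : ∀ g k : Perm X, MapsTo g (orb t (Ico a b) x0) (orb t (Ico a b) x0) →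
      MapsTo k (orb t (Ico a b) x0) (orb t (Ico a b) x0) → ψ (g * k) = ψ g * ψ k := by
    intro g k hg hk
    ext1 i
    apply ei
    rw [hψ (g * k) (fun y hy => hg (hk hy)), Perm.mul_apply (ψ g), hψ g hg, hψ k hk]; rfl
  have ψW : ∀ g ∈ W t (Ico a b), ∀ k ∈ W t (Ico a b), ψ (g * k) = ψ g * ψ k :=
    fun g hg k hk => ψm g k (orb_closed hg) (orb_closed hk)
  have ψ1 : ψ 1 = 1 := by
    ext1 i
    apply ei
    rw [hψ _ (mapsTo_id _)]; rfl
  have ψi : ∀ g ∈ W t (Ico a b), ∀ k ∈ W t (Ico a b), ψ g = ψ k → g = k := by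
    intro g hg k hk he
    have := hG.faith _ (mul_mem (inv_mem hk) hg) (by
      intro y hy
      rw [← er] at hy
      obtain ⟨i, rfl⟩ := hy
      rw [Perm.mul_apply, ← hψ g (orb_closed hg), he, hψ k (orb_closed hk)]; simp)
    exact (inv_mul_eq_one.1 this).symm
  obtain ⟨s, s1, s2, s3⟩ := fin4_d4 (ψ z) (by
    intro i hi
    have := hψ z zO i
    rw [hi] at this
    exact hne (cent_fpf hz (fun y hy => hy) (eO i) this.symm x0 orb_self))
  have cz : ∀ c ∈ Ico a b, ψ z * ψ (t c) = ψ (t c) * ψ z := fun c hc => by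
    rw [← ψm _ _ zO (orb_closed (W_gen hc)), ← ψm _ _ (orb_closed (W_gen hc)) zO, (hz c hc).eq]
  have pair : ∀ c, a ≤ c → c + 1 < b → ∃ g ∈ W t {c, c + 1}, ψ g = s := by
    intro c h1 h2
    have m1 : c ∈ Ico a b := ⟨h1, by omega⟩
    have m2 : c + 1 ∈ Ico a b := ⟨by omega, h2⟩
    have w1 := W_gen (t := t) m1
    have w2 := W_gen (t := t) m2
    have v1 : t c ∈ W t {c, c + 1} := W_gen (by simp)
    have v2 : t (c + 1) ∈ W t {c, c + 1} := W_gen (by simp)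
    rcases s3 (ψ (t c)) (cz c m1) (by rw [← ψW _ w1 _ w1, hS.inv, ψ1])
      (fun he => hG.nt c m1 (ψi _ w1 _ (one_mem _) (he.trans ψ1.symm))) (ψ (t (c + 1))) (cz _ m2)
      (by rw [← ψW _ w2 _ w2, hS.inv, ψ1])
      (fun he => hG.nt _ m2 (ψi _ w2 _ (one_mem _) (he.trans ψ1.symm)))
      (fun he => hG.ne hS m1 m2 (Or.inl rfl) (ψi _ w1 _ w2 he)) with h | h | h | h
    · exact ⟨_, v1, h.symm⟩
    · exact ⟨_, v2, h.symm⟩
    · exact ⟨_, mul_mem v1 v2, by rw [h, ψW _ w1 _ w2]⟩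
    · exact ⟨_, mul_mem (mul_mem (mul_mem v1 v2) v1) v2, by
        rw [h, ψW _ (mul_mem (mul_mem w1 w2) w1) _ w2, ψW _ (mul_mem w1 w2) _ w1, ψW _ w1 _ w2]⟩
  have sub : ∀ c, a ≤ c → c + 1 < b → ({c, c + 1} : Set ℕ) ⊆ Ico a b := by
    rintro c h1 h2 _ (rfl | rfl) <;> constructor <;> omega
  obtain ⟨g, hg, eg⟩ := pair a le_rfl (by omega)
  have gW := W_mono (sub a le_rfl (by omega)) hg
  apply s1
  rw [← eg, hG.H g, ψ1]
  · intro c hc
    apply ψi _ (mul_mem gW (W_gen hc)) _ (mul_mem (W_gen hc) gW)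
    rw [ψW _ gW _ (W_gen hc), ψW _ (W_gen hc) _ gW, eg]
    rcases s2 with rfl | rfl
    · exact cz c hc
    · rw [mul_assoc, cz c hc, ← mul_assoc, cz c hc, mul_assoc]
  · intro l
    have : ∃ c, a ≤ c ∧ c + 1 < b ∧ c ∉ Dl l ∧ c + 1 ∉ Dl l := by
      simp only [Dl, mem_ofPred_eq]
      by_cases h1 : a ≤ l ∧ l + 1 < b
      · exact ⟨l, by omega⟩
      by_cases h2 : l < a
      · exact ⟨a + 2, by omega⟩
      · exact ⟨a, by omega⟩
    obtain ⟨c, c1, c2, c3, c4⟩ := this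
    obtain ⟨k, hk, ek⟩ := pair c c1 c2
    rw [ψi g gW k (W_mono (sub c c1 c2) hk) (eg.trans ek.symm)]
    refine W_mono ?_ hk
    rintro _ (rfl | rfl)
    exacts [⟨⟨c1, by omega⟩, c3⟩, ⟨⟨by omega, c2⟩, c4⟩]

lemma Q1 (hS : Str n t p) (hG : Gd t a b x0) (h4 : (orb t (Ico a b) x0).ncard = 4)
    {c c' : ℕ} (hc : c ∈ Ico a b) (hc' : c' ∈ Ico a b)
    (f1 : ∀ y ∈ orb t (Ico a b) x0, t c y ≠ y) (f2 : ∀ y ∈ orb t (Ico a b) x0, t c' y ≠ y) :
    Commute (t c) (t c') := by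
  obtain ⟨ψ, e, er, ei, hψ⟩ := transport4 h4
  have eO : ∀ i, e i ∈ orb t (Ico a b) x0 := fun i => er ▸ mem_range_self i
  have o1 := hψ _ (orb_closed (W_gen hc))
  have o2 := hψ _ (orb_closed (W_gen hc'))
  have := fin4_q1 (ψ (t c)) (ψ (t c')) (fun i hi => f1 _ (eO i) (by rw [← o1, hi]))
    (fun i hi => f2 _ (eO i) (by rw [← o2, hi]))
    (by ext1 i; apply ei; rw [Perm.mul_apply, o1, o1, invol_apply (hS.inv c)]; rfl)
    (by ext1 i; apply ei; rw [Perm.mul_apply, o2, o2, invol_apply (hS.inv c')]; rfl)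
  have := hG.faith ((t c' * t c)⁻¹ * (t c * t c'))
    (mul_mem (inv_mem (mul_mem (W_gen hc') (W_gen hc))) (mul_mem (W_gen hc) (W_gen hc'))) (by
      intro y hy
      rw [← er] at hy
      obtain ⟨i, rfl⟩ := hy
      rw [Perm.mul_apply, Perm.inv_eq_iff_eq, Perm.mul_apply, Perm.mul_apply, ← o2, ← o1, ← o1,
        ← o2, ← Perm.mul_apply, this]; rfl)
  exact (inv_mul_eq_one.1 this).symm

end

end Pool.Agent.FlagOrb
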