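import Pool.Agent.Lib.MP_7157e1_co.FoBase
import Pool.Agent.Lib.MP_7157e1_co.FoGram

/-! Periods, typings, sections with constant periods. -/

namespace Pool.Agent.FlagOrb

open Equiv Set Real

lemma pow_swap {G : Type} [Group G] {a b : G} (ha : a * a = 1) (hb : b * b = 1) (m : ℕ) :
    (b * a) ^ m = ((a * b) ^ m)⁻¹ := by
  rw [← inv_pow, mul_inv_rev, inv_eq_of_sq ha, inv_eq_of_sq hb]

lemma pow_swap_app {X : Type} {a b : Perm X} (ha : a * a = 1) (hb : b * b = 1) {m : ℕ} {x : X}
    (hx : ((a * b) ^ m) x = x) : ((b * a) ^ m) x = x := by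
  rw [pow_swap ha hb, Perm.inv_eq_iff_eq]; exact hx.symm

lemma pow_equiv {X Y : Type} {A B : Perm Y} {a b : Perm X} {pr : Y → X}
    (hA : ∀ y, pr (A y) = a (pr y)) (hB : ∀ y, pr (B y) = b (pr y)) (m : ℕ) (y : Y) :
    pr (((A * B) ^ m) y) = ((a * b) ^ m) (pr y) := by
  induction m with
  | zero => rfl
  | succ m ih => simp only [pow_succ', Perm.mul_apply, hA, hB, ih]

lemma SC.rel {F : Type} {r : ℕ → Perm F} {a b : ℕ} (hsc : SC r a b) {Y : Type} (R : ℕ → Perm Y)
    (pr : Y → F) (P : Y → Prop) (h1 : ∀ c ∈ Ico a b, R c * R c = 1)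
    (h2 : ∀ c ∈ Ico a b, ∀ y, pr (R c y) = r c (pr y))
    (hP : ∀ c ∈ Ico a b, ∀ y, P y → P (R c y))
    (h3 : ∀ c ∈ Ico a b, ∀ c' ∈ Ico a b, ∀ (y : Y) (m : ℕ), P y →
      ((r c * r c') ^ m) (pr y) = pr y → ((R c * R c') ^ m) y = y)
    {y y' : Y} (hy : P y) (hr : Rch R (Ico a b) y y') (he : pr y = pr y') : y = y' := by
  classical
  have hP' : ∀ c ∈ Ico a b, ∀ y, P (R c y) ↔ P y := fun c hc y =>
    ⟨fun hh => by simpa [invol_apply (h1 c hc)] using hP c hc _ hh, hP c hc y⟩
  let R' : ℕ → Perm {y // P y} := fun c =>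
    if hc : c ∈ Ico a b then (R c).subtypePerm (hP' c hc) else 1
  have hR' : ∀ c ∈ Ico a b, ∀ y : {y // P y}, (R' c y : Y) = R c y := by
    intro c hc y
    simp only [R', dif_pos hc]
    rfl
  have hy' : ∃ hy' : P y', Rch R' (Ico a b) ⟨y, hy⟩ ⟨y', hy'⟩ := by
    refine hr.ind h1 (P := fun z => ∃ hz : P z, Rch R' (Ico a b) ⟨y, hy⟩ ⟨z, hz⟩)
      ⟨hy, Rch.refl _⟩ ?_
    rintro z c hc _ ⟨hz, hh⟩
    refine ⟨hP c hc z hz, ?_⟩
    have := hh.next hc
    convert this using 1
    exact Subtype.ext (hR' c hc ⟨z, hz⟩).symm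
  obtain ⟨hy', hr'⟩ := hy'
  have := hsc {y // P y} R' (fun y => pr y) ?_ ?_ ?_ _ _ hr' he
  · exact congrArg Subtype.val this
  · intro c hc
    ext y
    rw [Perm.mul_apply, hR' c hc, hR' c hc, invol_apply (h1 c hc)]; rfl
  · intro c hc y
    rw [hR' c hc, h2 c hc]
  · intro c hc c' hc' y m hm
    apply Subtype.ext
    rw [pow_equiv (pr := Subtype.val) (hR' c hc) (hR' c' hc')]
    exact h3 c hc c' hc' y m y.2 hm

/-- The period of the pair of colours `l, l + 1` at a flag. -/
noncomputable def per {F : Type} (r : ℕ → Perm F) (l : ℕ) (x : F) : ℕ :=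
  Function.minimalPeriod (r l * r (l + 1) : Perm F) x

lemma per_dvd {F : Type} {r : ℕ → Perm F} {l m : ℕ} {x : F} :
    per r l x ∣ m ↔ ((r l * r (l + 1)) ^ m) x = x := by
  rw [per, ← Function.isPeriodicPt_iff_minimalPeriod_dvd, Function.IsPeriodicPt,
    Function.IsFixedPt, Perm.iterate_eq_pow]

lemma per_pos {F : Type} [Finite F] (r : ℕ → Perm F) (l : ℕ) (x : F) : 0 < per r l x := by
  classical
  have := Fintype.ofFinite F
  exact Function.minimalPeriod_pos_of_mem_periodicPts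
    ((r l * r (l + 1) : Perm F).injective.mem_periodicPts x)

lemma per_eq_of_comm {F : Type} {r : ℕ → Perm F} {l : ℕ} {g : Perm F}
    (h1 : Commute g (r l)) (h2 : Commute g (r (l + 1))) (x : F) : per r l (g x) = per r l x := by
  have key : ∀ m, ((r l * r (l + 1)) ^ m) (g x) = g (((r l * r (l + 1)) ^ m) x) := by
    intro m
    rw [← Perm.mul_apply, ← ((h1.mul_right h2).pow_right m).eq, Perm.mul_apply]
  apply Nat.dvd_antisymm
  · rw [per_dvd, key, per_dvd.1 dvd_rfl]
  · rw [per_dvd]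
    apply g.injective
    rw [← key, per_dvd.1 dvd_rfl]

lemma Eqv.per_eq {F : Type} {r : ℕ → Perm F} {x y : F} (h : Eqv r x y) (l : ℕ) :
    per r l x = per r l y := by
  obtain ⟨g, hg, rfl⟩ := h
  exact (per_eq_of_comm (hg l) (hg (l + 1)) x).symm

namespace PS

variable {F L : Type} [Lattice L] {n : ℕ} {r : ℕ → Perm F} {φ : ℕ → F → L} (h : PS n r φ)
include h

lemma comm' {c c' : ℕ} (h1 : c ≠ c' + 1) (h2 : c' ≠ c + 1) : Commute (r c) (r c') := by
  rcases lt_trichotomy c c' with hc | rfl | hc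
  · exact h.comm c c' (by omega)
  · exact Commute.refl _
  · exact (h.comm c' c (by omega)).symm

lemma per_ge [Finite F] {l : ℕ} (hl : l + 1 < n) (x : F) : 3 ≤ per r l x := by
  have h0 := per_pos r l x
  have hp := per_dvd.1 (dvd_refl (per r l x))
  by_contra hlt
  have h12 : per r l x = 1 ∨ per r l x = 2 := by omega
  rcases h12 with h1 | h1
  · rw [h1, pow_one, Perm.mul_apply] at hp
    apply h.ne_col (c := l) (c' := l + 1) (by omega) (by omega) x
    rw [← hp, h.rr, hp]
  · rw [h1, pow_two] at hp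
    simp only [Perm.mul_apply] at hp
    apply h.not_comm hl x
    have := congrArg (fun z => r (l + 1) (r l z)) hp
    simpa only [h.rr] using this

lemma per_step {l c : ℕ} (h1 : c + 1 ≠ l) (h2 : c ≠ l + 2) (x : F) :
    per r l (r c x) = per r l x := by
  have hl := h.inv l
  have hl1 := h.inv (l + 1)
  have a1 : ∀ x, per r l (r l x) ∣ per r l x := by
    intro x
    rw [per_dvd]
    apply pow_swap_app hl1 hl
    rw [← mul_pow_conj _ _ hl]
    simp only [Perm.mul_apply, h.rr]
    rw [per_dvd.1 dvd_rfl]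
  have a2 : ∀ x, per r l (r (l + 1) x) ∣ per r l x := by
    intro x
    rw [per_dvd, ← mul_pow_conj _ _ hl1]
    simp only [Perm.mul_apply, h.rr]
    rw [pow_swap_app hl hl1 (per_dvd.1 dvd_rfl)]
  by_cases e1 : c = l
  · subst e1
    exact Nat.dvd_antisymm (a1 x) (by simpa [h.rr] using a1 (r c x))
  by_cases e2 : c = l + 1
  · subst e2
    exact Nat.dvd_antisymm (a2 x) (by simpa [h.rr] using a2 (r (l + 1) x))
  exact per_eq_of_comm (h.comm' (by omega) (by omega)) (h.comm' (by omega) (by omega)) x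

lemma even_of_comm {c c' m : ℕ} (hc : c < n) (hcc : c ≠ c') (hco : Commute (r c) (r c')) {x : F}
    (hx : ((r c * r c') ^ m) x = x) : 2 ∣ m := by
  have h2 : (r c * r c') ^ 2 = 1 := by
    rw [hco.mul_pow, pow_two, pow_two, h.inv, h.inv, one_mul]
  obtain ⟨k, rfl | rfl⟩ := Nat.even_or_odd' m
  · exact Dvd.intro _ rfl
  · exfalso
    rw [pow_succ, pow_mul, h2, one_pow, one_mul, Perm.mul_apply] at hx
    apply h.ne_col hc hcc x
    rw [← hx, h.rr, hx]

lemma rel_transfer {x y : F} (hp : ∀ l, l + 1 < n → per r l x = per r l y) {c c' m : ℕ}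
    (hc : c < n) (hc' : c' < n) (hx : ((r c * r c') ^ m) x = x) : ((r c * r c') ^ m) y = y := by
  by_cases e0 : c = c'
  · subst e0
    rw [h.inv, one_pow]; rfl
  by_cases e1 : c' = c + 1
  · subst e1
    rw [← per_dvd] at hx ⊢
    rwa [← hp c hc']
  by_cases e2 : c = c' + 1
  · subst e2
    apply pow_swap_app (h.inv _) (h.inv _)
    have := pow_swap_app (h.inv _) (h.inv _) hx
    rw [← per_dvd] at this ⊢
    rwa [← hp c' hc]
  have hco := h.comm' e2 e1
  obtain ⟨k, rfl⟩ := h.even_of_comm hc e0 hco hx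
  rw [pow_mul, hco.mul_pow, pow_two, pow_two, h.inv, h.inv, one_mul, one_pow]; rfl

/-- A relation compatible with the moves and the periods comes from automorphisms. -/
theorem typing [Finite F] (E : F → F → Prop) (hs : ∀ x y c, E x y → E (r c x) (r c y))
    (hp : ∀ x y l, E x y → l + 1 < n → per r l x = per r l y) {x y : F} (hxy : E x y) :
    Eqv r x y := by
  let R : ℕ → Perm (F × F) := fun c => Equiv.prodCongr (r c) (r c)
  have hR : ∀ c, R c * R c = 1 := by
    intro c; ext z <;> simp [R, h.rr]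
  have hpow : ∀ c c' m (z : F × F), ((R c * R c') ^ m) z =
      (((r c * r c') ^ m) z.1, ((r c * r c') ^ m) z.2) := by
    intro c c' m z
    exact Prod.ext (pow_equiv (pr := Prod.fst) (fun _ => rfl) (fun _ => rfl) m z)
      (pow_equiv (pr := Prod.snd) (fun _ => rfl) (fun _ => rfl) m z)
  have hE : ∀ z, Rch R (Ico 0 n) (x, y) z → E z.1 z.2 := fun z hz =>
    hz.ind (fun c _ => hR c) (P := fun z => E z.1 z.2) hxy fun z c _ _ ih => hs _ _ c ih
  have u1 : ∀ z z', Rch R (Ico 0 n) (x, y) z → Rch R (Ico 0 n) (x, y) z' → z.1 = z'.1 →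
      z = z' := by
    intro z z' hz hz' he
    refine (h.sc 0 n le_rfl).rel R Prod.fst (fun z => E z.1 z.2) (fun c _ => hR c)
      (fun _ _ _ => rfl) (fun c _ z hz => hs _ _ c hz) ?_ (hE z hz) (hz.symm.trans hz') he
    intro c hc c' hc' z m hz hm
    rw [hpow, hm, h.rel_transfer (fun l hl => hp _ _ l hz hl) hc.2 hc'.2 hm]
  have u2 : ∀ z z', Rch R (Ico 0 n) (x, y) z → Rch R (Ico 0 n) (x, y) z' → z.2 = z'.2 →
      z = z' := by
    intro z z' hz hz' he
    refine (h.sc 0 n le_rfl).rel R Prod.snd (fun z => E z.1 z.2) (fun c _ => hR c)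
      (fun _ _ _ => rfl) (fun c _ z hz => hs _ _ c hz) ?_ (hE z hz) (hz.symm.trans hz') he
    intro c hc c' hc' z m hz hm
    rw [hpow, hm, h.rel_transfer (fun l hl => (hp _ _ l hz hl).symm) hc.2 hc'.2 hm]
  have ex : ∀ a, ∃ b, Rch R (Ico 0 n) (x, y) (a, b) := fun a =>
    (h.all x a).ind (fun c _ => h.inv c) (P := fun a => ∃ b, Rch R (Ico 0 n) (x, y) (a, b))
      ⟨y, Rch.refl _⟩ fun a c hc _ ⟨b, hb⟩ => ⟨r c b, hb.next hc⟩
  choose g hg using ex
  have ginj : Function.Injective g := fun a a' he =>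
    congrArg Prod.fst (u2 _ _ (hg a) (hg a') he)
  refine ⟨Equiv.ofBijective g (Finite.injective_iff_bijective.1 ginj), ?_, ?_⟩
  · intro c
    by_cases hc : c < n
    · ext a
      exact congrArg Prod.snd (u1 _ _ (hg (r c a)) ((hg a).next ⟨Nat.zero_le _, hc⟩) rfl)
    · rw [h.triv c (by omega)]; exact Commute.one_right _
  · exact congrArg Prod.snd (u1 _ _ (hg x) (Rch.refl _) rfl)

/-- Gram inequality for a section with constant periods. -/
theorem const_gram [Finite F] {j k : ℕ} (hk : j + k ≤ n) (x : F)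
    (hc : ∀ y, Rch r (Ico j (j + k)) x y → ∀ i, i + 1 < k → per r (j + i) y = per r (j + i) x)
    (v : Fin k → ℝ) (hv : ∀ a, 0 ≤ v a) (hv0 : v ≠ 0) :
    ∃ a : Fin k, 0 < v a ∧ 0 < ∑ b : Fin k, -cos (π / ((if a = b then 1 else
      if (b : ℕ) = a + 1 then per r (j + a) x else
      if (a : ℕ) = b + 1 then per r (j + b) x else 2 : ℕ) : ℝ)) * v b := by
  classical
  let M : Fin k → Fin k → ℕ := fun a b => if a = b then 1 else
      if (b : ℕ) = a + 1 then per r (j + a) x else
      if (a : ℕ) = b + 1 then per r (j + b) x else 2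
  have hd : ∀ a, M a a = 1 := fun a => by simp [M]
  have hs : ∀ a b, M a b = M b a := by
    intro a b
    simp only [M]
    by_cases e : a = b
    · simp [e]
    · rw [if_neg e, if_neg (Ne.symm e)]
      split_ifs <;> first | rfl | omega
  let s : ℕ → ((Fin k → ℝ) ≃ₗ[ℝ] (Fin k → ℝ)) := fun c =>
    if hc : c - j < k then gR hd ⟨c - j, hc⟩ else 1
  have ss : ∀ c, s c * s c = 1 := by
    intro c
    simp only [s]
    split_ifs
    · exact gR_sq _ _
    · exact one_mul _
  let R : ℕ → Perm (F × ((Fin k → ℝ) ≃ₗ[ℝ] (Fin k → ℝ))) := fun c =>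
    Equiv.prodCongr (r c) (Equiv.mulRight (s c))
  have hR : ∀ c, R c * R c = 1 := by
    intro c; ext1 z
    refine Prod.ext (h.rr c z.1) ?_
    change z.2 * s c * s c = z.2
    rw [mul_assoc, ss, mul_one]
  have hpow : ∀ c c' m (z : F × ((Fin k → ℝ) ≃ₗ[ℝ] (Fin k → ℝ))), ((R c * R c') ^ m) z =
      (((r c * r c') ^ m) z.1, z.2 * (s c' * s c) ^ m) := by
    intro c c' m z
    induction m with
    | zero => simp
    | succ m ih =>
      rw [pow_succ', Perm.mul_apply, ih, pow_succ' (r c * r c'), pow_succ (s c' * s c)]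
      refine Prod.ext rfl ?_
      change z.2 * (s c' * s c) ^ m * s c' * s c = _
      simp only [mul_assoc]
  let O := {z | Rch R (Ico j (j + k)) (x, 1) z}
  have hO : ∀ z ∈ O, Rch r (Ico j (j + k)) x z.1 := fun z hz =>
    Rch.ind (fun c _ => hR c) (P := fun z => Rch r (Ico j (j + k)) x z.1) (Rch.refl _)
      (fun z c hc _ ih => ih.next hc) hz
  have hinj : InjOn Prod.fst O := by
    intro z hz z' hz' he
    refine (h.sc j (j + k) hk).rel R Prod.fst (fun z => Rch r (Ico j (j + k)) x z.1)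
      (fun c _ => hR c) (fun _ _ _ => rfl) (fun c hc z hz => hz.next hc) ?_ (hO z hz)
      (Rch.trans (Rch.symm hz) hz') he
    intro c hcc c' hcc' z m hz hm
    obtain ⟨a, rfl⟩ : ∃ a, c = j + a := ⟨c - j, by have := hcc.1; omega⟩
    obtain ⟨b, rfl⟩ : ∃ a, c' = j + a := ⟨c' - j, by have := hcc'.1; omega⟩
    have ha : a < k := by have := hcc.2; omega
    have hb : b < k := by have := hcc'.2; omega
    have sa : s (j + a) = gR hd ⟨a, ha⟩ := by simp [s, ha]
    have sb : s (j + b) = gR hd ⟨b, hb⟩ := by simp [s, hb]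
    rw [hpow, hm, sa, sb, gR_pow hd hs, mul_one]
    · by_cases e : b = a
      · left; simp [e]
      · right
        simp only [M, Fin.mk.injEq, if_neg e]
        split_ifs
        · have := h.per_ge (l := j + b) (by omega) x; omega
        · have := h.per_ge (l := j + a) (by omega) x; omega
        · exact le_rfl
    · simp only [M, Fin.mk.injEq]
      split_ifs with e0 e1 e2
      · exact one_dvd _
      · subst e1
        rw [← hc _ hz b ha, per_dvd]
        exact pow_swap_app (h.inv _) (h.inv _) hm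
      · subst e2
        rw [← hc _ hz a hb, per_dvd]
        exact hm
      · exact h.even_of_comm (by omega) (by omega) (h.comm' (by omega) (by omega)) hm
  have hfin : O.Finite := Set.Finite.of_finite_image (Set.toFinite _) hinj
  refine gram_witness hd (Prod.snd '' O) (hfin.image _) ⟨_, Rch.refl _, rfl⟩ ?_ v hv hv0
  rintro _ ⟨z, hz, rfl⟩ a
  refine ⟨R (j + a) z, Rch.next hz ⟨by omega, by omega⟩, ?_⟩
  change z.2 * s (j + a) = _
  simp [s]

end PS

end Pool.Agent.FlagOrb
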