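import Pool.Agent.Lib.MP_7157e1_co.FoType

/-! Walls, chambers and the Gram inequality for the reflections in the walls of a chamber. -/

namespace Pool.Agent.FlagOrb

open Equiv Set Real

/-- Positivity data for a set of involutions. -/
def Cox {G : Type} [Group G] [DecidableEq G] (S : Set G) : Prop :=
  ∃ C : G → G → ℝ, (∀ g ∈ S, ∀ k ∈ S, g ≠ k → 0 ≤ C g k) ∧
    (∀ g ∈ S, ∀ k ∈ S, ¬ Commute g k → 1 / 2 ≤ C g k) ∧
    (∀ g ∈ S, ∀ k ∈ S, ¬ Commute g k → (g * k) ^ 3 ≠ 1 → √2 / 2 ≤ C g k) ∧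
    ∀ Z : Finset G, (∀ g ∈ Z, g ∈ S) → Z.Nonempty → ∀ α : G → ℝ, (∀ g ∈ Z, 0 < α g) →
      ∃ g ∈ Z, ∑ k ∈ Z.erase g, C g k * α k < α g

section Defs

variable {F : Type} (r : ℕ → Perm F)

/-- Colour `c` is a wall at the flag `x`. -/
def Wl (x : F) (c : ℕ) : Prop := Eqv r x (r c x)

open Classical in
/-- The reflection in a wall. -/
noncomputable def rf (x : F) (c : ℕ) : Perm F := if h : Wl r x c then h.choose else 1

/-- The chamber of `x0` for the colours in `[a, b)`. -/
def InD (a b : ℕ) (x0 x : F) : Prop :=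
  Relation.ReflTransGen (fun y z => ∃ c ∈ Ico a b, ¬ Wl r y c ∧ z = r c y) x0 x

/-- The reflections in the walls of the chamber. -/
def Walls (a b : ℕ) (x0 : F) : Set (Perm F) :=
  {g | ∃ x c, InD r a b x0 x ∧ c ∈ Ico a b ∧ Wl r x c ∧ g = rf r x c}

/-- Alternating walk up to the next wall. -/
inductive Seg : ℕ → ℕ → F → ℕ → F → ℕ → Prop
  | zero (c c' : ℕ) (x : F) : Wl r x c' → Seg c c' x 0 x c'
  | succ (c c' : ℕ) (x : F) (t : ℕ) (x' : F) (e : ℕ) : ¬ Wl r x c' → Seg c' c (r c' x) t x' e →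
      Seg c c' x (t + 1) x' e

/-- Two walls meet in the chamber. -/
def Meet (a b : ℕ) (x0 : F) (g k : Perm F) : Prop :=
  ∃ x c c' t x' e, InD r a b x0 x ∧ c ∈ Ico a b ∧ c' ∈ Ico a b ∧ c ≠ c' ∧ Wl r x c ∧
    Seg r c c' x t x' e ∧ g = rf r x c ∧ k = rf r x' e

end Defs

section

variable {F : Type} {r : ℕ → Perm F}

lemma rf_aut (x : F) (c : ℕ) : rf r x c ∈ Aut r := by
  unfold rf
  split_ifs with h
  · exact h.choose_spec.1
  · exact one_mem _

lemma rf_app {x : F} {c : ℕ} (h : Wl r x c) : rf r x c x = r c x := by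
  unfold rf
  rw [dif_pos h]
  exact h.choose_spec.2

lemma Wl.eqv {x y : F} {c : ℕ} (h : Wl r x c) (e : Eqv r x y) : Wl r y c :=
  (e.symm.trans h).trans (e.step c)

lemma Wl.comm {x : F} {c : ℕ} (h : Wl r x c) {I : Set ℕ} {k : Perm F} (hk : k ∈ W r I)
    (hc : Commute k (r c)) : Wl r (k x) c := by
  have := Eqv.map h hk
  rwa [← Perm.mul_apply k, hc.eq] at this

lemma InD.refl {a b : ℕ} (x : F) : InD r a b x x := Relation.ReflTransGen.refl

lemma InD.next {a b : ℕ} {x0 x : F} (h : InD r a b x0 x) {c : ℕ} (hc : c ∈ Ico a b)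
    (hw : ¬ Wl r x c) : InD r a b x0 (r c x) := Relation.ReflTransGen.tail h ⟨c, hc, hw, rfl⟩

lemma InD.ind {a b : ℕ} {x0 x : F} {P : F → Prop} (h : InD r a b x0 x) (h0 : P x0)
    (hs : ∀ y c, InD r a b x0 y → c ∈ Ico a b → ¬ Wl r y c → P y → P (r c y)) : P x := by
  induction h with
  | refl => exact h0
  | tail h1 h2 ih =>
    obtain ⟨c, hc, hw, rfl⟩ := h2
    exact hs _ c h1 hc hw ih

lemma wall_mem {a b : ℕ} {x0 x : F} (h : InD r a b x0 x) {c : ℕ} (hc : c ∈ Ico a b)
    (hw : Wl r x c) : rf r x c ∈ Walls r a b x0 := ⟨x, c, h, hc, hw, rfl⟩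

lemma Seg.ind {a b : ℕ} {x0 : F} {c c' t e : ℕ} {x x' : F} (hs : Seg r c c' x t x' e)
    (hc : c ∈ Ico a b) (hc' : c' ∈ Ico a b) (hx : InD r a b x0 x) :
    InD r a b x0 x' ∧ e ∈ Ico a b ∧ Wl r x' e := by
  induction hs with
  | zero c c' x hw => exact ⟨hx, hc', hw⟩
  | succ c c' x t x' e hw _ ih => exact ih hc' hc (hx.next hc' hw)

end

namespace PS

variable {F L : Type} [Lattice L] {n : ℕ} {r : ℕ → Perm F} {φ : ℕ → F → L} (h : PS n r φ)
include h

lemma rf_eq {x : F} {c : ℕ} {g : Perm F} (hg : g ∈ Aut r) (hx : g x = r c x) : rf r x c = g :=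
  h.aut_ext (rf_aut x c) hg (x := x) (by rw [rf_app ⟨g, hg, hx⟩, hx])

lemma rf_sq (x : F) (c : ℕ) : rf r x c * rf r x c = 1 := by
  by_cases hw : Wl r x c
  · apply h.free (mul_mem (rf_aut x c) (rf_aut x c)) (x := x)
    rw [Perm.mul_apply, rf_app hw, Aut.app (rf_aut x c), rf_app hw, h.rr]
  · simp [rf, hw]

lemma wl_step {x : F} {c : ℕ} : Wl r (r c x) c ↔ Wl r x c := by
  unfold Wl
  rw [h.rr]
  exact ⟨Eqv.symm, Eqv.symm⟩

lemma rf_conj {x : F} {c : ℕ} (hw : Wl r x c) {g : Perm F} (hg : g ∈ Aut r) :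
    rf r (g x) c = g * rf r x c * g⁻¹ :=
  h.rf_eq (mul_mem (mul_mem hg (rf_aut x c)) (inv_mem hg)) (by
    simp only [Perm.mul_apply, Perm.coe_inv, symm_apply_apply, rf_app hw, Aut.app hg])

lemma rf_comm {x : F} {c : ℕ} (hw : Wl r x c) {I : Set ℕ} {k : Perm F} (hk : k ∈ W r I)
    (hc : Commute k (r c)) : rf r (k x) c = rf r x c :=
  h.rf_eq (rf_aut x c) (by
    rw [Aut.appW (rf_aut x c) hk, rf_app hw, ← Perm.mul_apply, hc.eq, Perm.mul_apply])

lemma seg_min {c c' t e : ℕ} {x x' : F} (hs : Seg r c c' x t x' e) :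
    ∀ i < t, ¬ Eqv r x (((r c' * r c) ^ i * r c') x) := by
  induction hs with
  | zero c c' x hw => intro i hi; omega
  | succ c c' x t x' e hw _ ih =>
    intro i hi he
    rcases i with _ | i
    · exact hw (by simpa [Wl] using he)
    · apply ih i (by omega)
      have := he.step c'
      rw [← Perm.mul_apply (r c'), ← mul_assoc, mul_pow_conj _ _ (h.inv c'), pow_succ] at this
      simpa [Perm.mul_apply] using this

lemma seg_ex (i : ℕ) : ∀ (c c' : ℕ) (x : F), Eqv r x (((r c' * r c) ^ i * r c') x) →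
    ∃ t x' e, Seg r c c' x t x' e := by
  induction i with
  | zero =>
    intro c c' x he
    exact ⟨0, x, c', Seg.zero c c' x (by simpa [Wl] using he)⟩
  | succ i ih =>
    intro c c' x he
    by_cases hw : Wl r x c'
    · exact ⟨0, x, c', Seg.zero c c' x hw⟩
    · have := he.step c'
      rw [← Perm.mul_apply (r c'), ← mul_assoc, mul_pow_conj _ _ (h.inv c'), pow_succ] at this
      obtain ⟨t, x', e, hs⟩ := ih c' c (r c' x) (by simpa [Perm.mul_apply] using this)
      exact ⟨t + 1, x', e, Seg.succ c c' x t x' e hw hs⟩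

lemma seg_app {c c' t e : ℕ} {x x' : F} (hs : Seg r c c' x t x' e) :
    ((r c' * r c) ^ t * r c') x = rf r x' e x := by
  induction hs with
  | zero c c' x hw => simp [rf_app hw]
  | succ c c' x t x' e hw _ ih =>
    rw [Aut.app (rf_aut x' e)] at ih
    apply (r c').injective
    rw [← ih, ← Perm.mul_apply (r c'), ← mul_assoc, mul_pow_conj _ _ (h.inv c'), pow_succ]
    simp [Perm.mul_apply]

lemma seg_dvd {c c' t e m : ℕ} {x x' : F} (hw : Wl r x c) (hs : Seg r c c' x t x' e)
    (hm : ((r c' * r c) ^ m) x = x) :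
    ∃ j, m = (t + 1) * j ∧ (rf r x c * rf r x' e) ^ j = 1 := by
  have hu : ∀ i, (r c' * r c) ^ i ∈ W r univ := fun i =>
    pow_mem (mul_mem (W_gen (mem_univ _)) (W_gen (mem_univ _))) i
  have hgg : ∀ j, (rf r x c * rf r x' e) ^ j ∈ Aut r := fun j =>
    pow_mem (mul_mem (rf_aut _ _) (rf_aut _ _)) j
  have h1 : ((r c' * r c) ^ (t + 1)) x = (rf r x c * rf r x' e) x := by
    rw [pow_succ, ← mul_assoc, Perm.mul_apply, ← rf_app hw,
      ← Aut.appW (rf_aut x c) (mul_mem (hu t) (W_gen (mem_univ _))), h.seg_app hs]; rfl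
  have h2 : ∀ j, ((r c' * r c) ^ ((t + 1) * j)) x = ((rf r x c * rf r x' e) ^ j) x := by
    intro j
    induction j with
    | zero => rfl
    | succ j ih =>
      rw [mul_add, mul_one, add_comm, pow_add, Perm.mul_apply, ih, ← Aut.appW (hgg j) (hu _), h1,
        pow_succ (rf r x c * rf r x' e)]; rfl
  have hdm := Nat.div_add_mod m (t + 1)
  have hlt := Nat.mod_lt m (show t + 1 > 0 by omega)
  set j := m / (t + 1)
  set i := m % (t + 1)
  rw [← hdm, add_comm, pow_add, Perm.mul_apply, h2, ← Aut.appW (hgg j) (hu _)] at hm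
  rcases i with _ | i
  · exact ⟨j, by omega, h.free (hgg j) (x := x) (by simpa using hm)⟩
  · exfalso
    apply h.seg_min hs i (by omega)
    have e1 : Eqv r x (((r c' * r c) ^ (i + 1)) x) := Eqv.symm ⟨_, hgg j, hm⟩
    rw [pow_succ, ← mul_assoc, Perm.mul_apply] at e1
    exact e1.trans (Eqv.map hw (mul_mem (hu i) (W_gen (mem_univ _)))).symm

theorem wall_gram [Finite F] [DecidableEq (Perm F)] {a b : ℕ} (hb : b ≤ n) (x0 : F)
    (M : Perm F → Perm F → ℕ) (hd : ∀ g, M g g = 1) (hsy : ∀ g k, M g k = M k g)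
    (hM : ∀ g k, g ≠ k → Meet r a b x0 g k → 2 ≤ M g k ∧ ∀ j, (g * k) ^ j = 1 → M g k ∣ j)
    (Z : Finset (Perm F)) (hZ : ∀ g ∈ Z, g ∈ Walls r a b x0) (hne : Z.Nonempty)
    (α : Perm F → ℝ) (hα : ∀ g ∈ Z, 0 < α g) :
    ∃ g ∈ Z, ∑ k ∈ Z.erase g, cos (π / (M g k : ℝ)) * α k < α g := by
  classical
  let S := {g // g ∈ Walls r a b x0}
  let _ : Fintype S := Fintype.ofFinite S
  let M' : S → S → ℕ := fun g k => M g.1 k.1
  have hd' : ∀ g, M' g g = 1 := fun g => hd _
  have hsy' : ∀ g k, M' g k = M' k g := fun g k => hsy _ _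
  let s : Perm F → ((S → ℝ) ≃ₗ[ℝ] (S → ℝ)) := fun g =>
    if hg : g ∈ Walls r a b x0 then gR hd' ⟨g, hg⟩ else 1
  have ss : ∀ g, s g * s g = 1 := by
    intro g
    simp only [s]
    split_ifs
    · exact gR_sq _ _
    · exact one_mul _
  let G := Aut r × ((S → ℝ) ≃ₗ[ℝ] (S → ℝ))
  let A : F → ℕ → G := fun x c => (⟨rf r x c, rf_aut x c⟩, s (rf r x c))
  have AA : ∀ x c, A x c * A x c = 1 := fun x c =>
    Prod.ext (Subtype.ext (h.rf_sq x c)) (ss _)
  let R0 : ℕ → F × G → F × G := fun c y =>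
    if Wl r y.1 c then (y.1, y.2 * A y.1 c) else (r c y.1, y.2)
  have R0w : ∀ c x g, Wl r x c → R0 c (x, g) = (x, g * A x c) := fun c x g hw => if_pos hw
  have R0n : ∀ c x g, ¬ Wl r x c → R0 c (x, g) = (r c x, g) := fun c x g hw => if_neg hw
  have R0i : ∀ c, Function.Involutive (R0 c) := by
    rintro c ⟨x, g⟩
    by_cases hw : Wl r x c
    · rw [R0w c x g hw, R0w c x _ hw, mul_assoc, AA, mul_one]
    · rw [R0n c x g hw, R0n c _ _ (by rwa [h.wl_step]), h.rr]
  let R : ℕ → Perm (F × G) := fun c => (R0i c).toPerm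
  have Rw : ∀ c x g, Wl r x c → R c (x, g) = (x, g * A x c) := R0w
  have Rn : ∀ c x g, ¬ Wl r x c → R c (x, g) = (r c x, g) := R0n
  have hR : ∀ c, R c * R c = 1 := fun c => by ext1 y; exact R0i c y
  let pr : F × G → F := fun y => (y.2.1 : Perm F) y.1
  have hpr : ∀ c y, pr (R c y) = r c (pr y) := by
    rintro c ⟨x, g⟩
    by_cases hw : Wl r x c
    · rw [Rw c x g hw]
      change (g.1 : Perm F) (rf r x c x) = r c ((g.1 : Perm F) x)
      rw [rf_app hw, Aut.app g.1.2]
    · rw [Rn c x g hw]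
      exact Aut.app g.1.2 c x
  have hP : ∀ c ∈ Ico a b, ∀ y : F × G, InD r a b x0 y.1 → InD r a b x0 (R c y).1 := by
    rintro c hc ⟨x, g⟩ hx
    by_cases hw : Wl r x c
    · rw [Rw c x g hw]; exact hx
    · rw [Rn c x g hw]; exact hx.next hc hw
  have hit : ∀ c c' x t x' e, Seg r c c' x t x' e → ∀ g,
      ((R c' * R c) ^ t * R c') (x, g) = (x, g * A x' e) := by
    intro c c' x t x' e hs
    induction hs with
    | zero c c' x hw => intro g; simpa using Rw c' x g hw
    | succ c c' x t x' e hw _ ih =>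
      intro g
      apply (R c').injective
      rw [Rn c' x _ hw, ← ih g, ← Perm.mul_apply (R c'), ← mul_assoc, mul_pow_conj _ _ (hR c'),
        pow_succ, ← Rn c' x g hw]
      simp [Perm.mul_apply, invol_apply (hR c')]
  -- the relation at a wall
  have relw : ∀ c ∈ Ico a b, ∀ c' ∈ Ico a b, c ≠ c' → ∀ (y : F × G), InD r a b x0 y.1 →
      Wl r y.1 c → ∀ m, ((r c' * r c) ^ m) (pr y) = pr y → ((R c' * R c) ^ m) y = y := by
    rintro c hc c' hc' hcc ⟨x, g⟩ hx hw m hm
    have hu : ∀ i, (r c' * r c) ^ i ∈ W r univ := fun i =>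
      pow_mem (mul_mem (W_gen (mem_univ _)) (W_gen (mem_univ _))) i
    have hm' : ((r c' * r c) ^ m) x = x := by
      apply (g.1 : Perm F).injective
      rw [Aut.appW g.1.2 (hu m)]; exact hm
    rcases m with _ | m
    · rfl
    have e1 : Eqv r x (((r c' * r c) ^ m * r c') x) := by
      have := Eqv.map hw (mul_mem (hu m) (W_gen (t := r) (c := c') (mem_univ _)))
      rw [← Perm.mul_apply, mul_assoc, ← pow_succ, hm'] at this
      exact this.symm
    obtain ⟨t, x', e, hs⟩ := h.seg_ex m c c' x e1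
    obtain ⟨j, hj, hj1⟩ := h.seg_dvd hw hs hm'
    obtain ⟨hx', he, hw'⟩ := hs.ind hc hc' hx
    have h2 : ∀ j g, ((R c' * R c) ^ ((t + 1) * j)) (x, g) = (x, g * (A x c * A x' e) ^ j) := by
      intro j
      induction j with
      | zero => intro g; simp
      | succ j ih =>
        intro g
        rw [mul_add, mul_one, add_comm, pow_add, Perm.mul_apply, ih, pow_succ, ← mul_assoc,
          Perm.mul_apply, Rw c x _ hw, hit _ _ _ _ _ _ hs, pow_succ]
        simp only [mul_assoc]
    rw [hj, h2]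
    have : (A x c * A x' e) ^ j = 1 := by
      refine Prod.ext (Subtype.ext hj1) ?_
      change (s (rf r x c) * s (rf r x' e)) ^ j = 1
      have m1 := wall_mem hx hc hw
      have m2 := wall_mem hx' he hw'
      simp only [s, dif_pos m1, dif_pos m2]
      by_cases hgk : rf r x c = rf r x' e
      · have : (⟨rf r x c, m1⟩ : S) = ⟨rf r x' e, m2⟩ := Subtype.ext hgk
        rw [this, gR_sq, one_pow]
      · obtain ⟨q1, q2⟩ := hM _ _ hgk ⟨x, c, c', t, x', e, hx, hc, hc', hcc, hw, hs, rfl, rfl⟩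
        exact gR_pow hd' hsy' _ _ (Or.inr q1) (q2 j hj1)
    rw [this, mul_one]
  have rel : ∀ c ∈ Ico a b, ∀ c' ∈ Ico a b, ∀ (y : F × G) (m : ℕ), InD r a b x0 y.1 →
      ((r c * r c') ^ m) (pr y) = pr y → ((R c * R c') ^ m) y = y := by
    intro c hc c' hc' y m hy hm
    by_cases hcc : c = c'
    · subst hcc
      rw [hR, one_pow]; rfl
    have hsub : ∀ d ∈ ({c, c'} : Set ℕ), d ∈ Ico a b := by
      rintro d (rfl | rfl) <;> assumption
    by_cases hP' : ∀ z, Rch R {c, c'} y z → ¬ Wl r z.1 c ∧ ¬ Wl r z.1 c'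
    · have key : ∀ m, Rch R {c, c'} y (((r c * r c') ^ m) y.1, y.2) ∧
          ((R c * R c') ^ m) y = (((r c * r c') ^ m) y.1, y.2) := by
        intro m
        induction m with
        | zero => exact ⟨Rch.refl _, rfl⟩
        | succ m ih =>
          have q1 := ih.1.next (c := c') (by simp)
          have w1 := Rn c' _ y.2 (hP' _ ih.1).2
          rw [w1] at q1
          have q2 := q1.next (c := c) (by simp)
          have w2 := Rn c _ y.2 (hP' _ q1).1
          rw [w2] at q2
          refine ⟨by rw [pow_succ']; exact q2, ?_⟩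
          rw [pow_succ', Perm.mul_apply, ih.2, Perm.mul_apply, w1, w2, pow_succ']; rfl
      rw [(key m).2]
      refine Prod.ext ?_ rfl
      apply (y.2.1 : Perm F).injective
      rw [Aut.appW y.2.1.2 (I := univ) (pow_mem (mul_mem (W_gen (mem_univ _)) (W_gen (mem_univ _))) m)]
      exact hm
    · push Not at hP'
      obtain ⟨z, hz, hwz⟩ := hP'
      have hzD : InD r a b x0 z.1 :=
        hz.ind (fun d _ => hR d) (P := fun z => InD r a b x0 z.1) hy
          fun z d hd _ ih => hP d (hsub d hd) z ih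
      let Q : F × G → Prop := fun z => ∀ m, ((r c * r c') ^ m) (pr z) = pr z →
        ((R c * R c') ^ m) z = z
      have Qz : Q z := by
        by_cases hw : Wl r z.1 c
        · intro m hm
          exact pow_swap_app (hR _) (hR _)
            (relw c hc c' hc' hcc z hzD hw m (pow_swap_app (h.inv _) (h.inv _) hm))
        · exact relw c' hc' c hc (Ne.symm hcc) z hzD (hwz hw)
      refine hz.symm.ind (fun d _ => hR d) (P := Q) Qz ?_ m hm
      rintro z d (rfl | rfl) _ ih m hm
      · apply pow_swap_app (hR _) (hR _)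
        rw [← mul_pow_conj _ _ (hR d)]
        simp only [Perm.mul_apply, invol_apply (hR d)]
        rw [ih m]
        have := pow_swap_app (h.inv _) (h.inv _) hm
        rw [← mul_pow_conj _ _ (h.inv d), hpr] at this
        simp only [Perm.mul_apply, h.rr] at this
        exact (r d).injective this
      · rw [← mul_pow_conj _ _ (hR d)]
        simp only [Perm.mul_apply, invol_apply (hR d)]
        rw [pow_swap_app (hR _) (hR _) (ih m _)]
        rw [← mul_pow_conj _ _ (h.inv d), hpr] at hm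
        simp only [Perm.mul_apply, h.rr] at hm
        exact pow_swap_app (h.inv _) (h.inv _) ((r d).injective hm)
  let O := {z | Rch R (Ico a b) (x0, 1) z}
  have hO : ∀ z ∈ O, InD r a b x0 z.1 := fun z hz =>
    Rch.ind (fun c _ => hR c) (P := fun z => InD r a b x0 z.1) (InD.refl _)
      (fun z c hc _ ih => hP c hc z ih) hz
  have hinj : InjOn pr O := fun z hz z' hz' he =>
    (h.sc a b hb).rel R pr (fun z => InD r a b x0 z.1) (fun c _ => hR c) (fun c _ => hpr c) hP
      rel (hO z hz) (Rch.trans (Rch.symm hz) hz') he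
  have hfin : O.Finite := Set.Finite.of_finite_image (Set.toFinite _) hinj
  have walk : ∀ x, InD r a b x0 x → ∀ g, Rch R (Ico a b) (x0, g) (x, g) := by
    intro x hx g
    refine hx.ind (P := fun x => Rch R (Ico a b) (x0, g) (x, g)) (Rch.refl _) ?_
    intro y c _ hc hw ih
    rw [← Rn c y g hw]
    exact ih.next hc
  have hcl : ∀ g ∈ (fun z : F × G => z.2.2) '' O, ∀ k, g * gR hd' k ∈ (fun z : F × G => z.2.2) '' O := by
    rintro _ ⟨⟨x, g⟩, hz, rfl⟩ ⟨k, hk⟩
    obtain ⟨x', c, hx', hc, hw, rfl⟩ := id hk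
    refine ⟨R c (x', g), Rch.next (Rch.trans (Rch.trans hz (walk x (hO _ hz) g).symm)
      (walk x' hx' g)) hc, ?_⟩
    rw [Rw c x' g hw]
    change g.2 * s (rf r x' c) = _
    simp only [s, dif_pos hk]
  obtain ⟨g0, hg0⟩ := hne
  obtain ⟨g, hg, hpos⟩ := gram_witness hd' ((fun z => z.2.2) '' O) (hfin.image _)
    ⟨_, Rch.refl _, rfl⟩ hcl (fun k => if k.1 ∈ Z then α k.1 else 0)
    (fun k => by split_ifs with hk; exacts [(hα _ hk).le, le_rfl])
    (fun he => by
      have := congrFun he ⟨g0, hZ g0 hg0⟩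
      simp only [if_pos hg0, Pi.zero_apply] at this
      exact (hα g0 hg0).ne' this)
  · have hgZ : g.1 ∈ Z := by
      by_contra hn
      simp [hn] at hg
    refine ⟨g.1, hgZ, ?_⟩
    have e1 : ∑ k : S, gB M' g k * (if k.1 ∈ Z then α k.1 else 0) =
        ∑ k ∈ Z, -cos (π / (M g.1 k : ℝ)) * α k := by
      refine (Finset.sum_subtype (p := fun g => g ∈ Walls r a b x0)
        (Set.toFinite (Walls r a b x0)).toFinset (by simp)
        (fun k => -cos (π / (M g.1 k : ℝ)) * (if k ∈ Z then α k else 0))).symm.trans ?_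
      rw [← Finset.sum_subset (s₁ := Z) (fun k hk => by simpa using hZ k hk)
        (fun k _ hk => by simp [hk])]
      exact Finset.sum_congr rfl fun k hk => by rw [if_pos hk]
    rw [e1, ← Finset.add_sum_erase _ _ hgZ, hd] at hpos
    simp only [Nat.cast_one, div_one, cos_pi, neg_neg, one_mul, neg_mul,
      Finset.sum_neg_distrib] at hpos
    linarith

lemma walls_sq {a b : ℕ} {x0 : F} {g : Perm F} (hg : g ∈ Walls r a b x0) : g * g = 1 := by
  obtain ⟨x, c, -, -, -, rfl⟩ := hg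
  exact h.rf_sq x c

theorem wall [Finite F] [DecidableEq (Perm F)] {a b : ℕ} (hb : b ≤ n) (x0 : F) :
    Cox (Walls r a b x0) ∧ ∀ g ∈ Walls r a b x0, ∀ k ∈ Walls r a b x0, g ≠ k →
      Meet r a b x0 g k ∨ Meet r a b x0 k g := by
  classical
  have := Fintype.ofFinite F
  let M : Perm F → Perm F → ℕ := fun g k => if g = k then 1 else
    if Meet r a b x0 g k ∨ Meet r a b x0 k g then orderOf (g * k) else 0
  have msq : ∀ g k, Meet r a b x0 g k → g * g = 1 ∧ k * k = 1 := by
    rintro g k ⟨x, c, c', t, x', e, -, -, -, -, -, -, rfl, rfl⟩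
    exact ⟨h.rf_sq _ _, h.rf_sq _ _⟩
  have hord : ∀ g k : Perm F, g * g = 1 → k * k = 1 → g ≠ k → 2 ≤ orderOf (g * k) := by
    intro g k hg hk hne
    have h0 := orderOf_pos (g * k)
    have h1 : orderOf (g * k) ≠ 1 := by
      rw [Ne, orderOf_eq_one_iff, mul_eq_one_iff_eq_inv, inv_eq_of_sq hk]
      exact hne
    omega
  have hord3 : ∀ g k : Perm F, g * g = 1 → k * k = 1 → ¬ Commute g k → 3 ≤ orderOf (g * k) := by
    intro g k hg hk hne
    have h0 := hord g k hg hk (by rintro rfl; exact hne (Commute.refl _))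
    have h1 : orderOf (g * k) ≠ 2 := by
      intro h2
      have := pow_orderOf_eq_one (g * k)
      rw [h2, pow_two, mul_eq_one_iff_eq_inv, mul_inv_rev, inv_eq_of_sq hg, inv_eq_of_sq hk]
        at this
      exact hne this
    omega
  have hsy : ∀ g k, M g k = M k g := by
    intro g k
    by_cases e : g = k
    · rw [e]
    · simp only [M, if_neg e, if_neg (Ne.symm e), or_comm (a := Meet r a b x0 k g)]
      split_ifs with hm
      · have : g * g = 1 ∧ k * k = 1 := hm.elim (msq g k) fun hh => (msq k g hh).symm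
        rw [← orderOf_inv, mul_inv_rev, inv_eq_of_sq this.1, inv_eq_of_sq this.2]
      · rfl
  have hM : ∀ g k, g ≠ k → Meet r a b x0 g k → 2 ≤ M g k ∧ ∀ j, (g * k) ^ j = 1 → M g k ∣ j := by
    intro g k hne hm
    simp only [M, if_neg hne, if_pos (Or.inl hm)]
    exact ⟨hord g k (msq g k hm).1 (msq g k hm).2 hne, fun j hj => orderOf_dvd_of_pow_eq_one hj⟩
  have key := h.wall_gram hb x0 M (fun g => if_pos rfl) hsy hM
  · refine ⟨⟨fun g k => cos (π / (M g k : ℝ)), ?_, ?_, ?_, key⟩, ?_⟩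
    · intro g hg k hk hne
      apply cos_ge2
      simp only [M, if_neg hne]
      split_ifs
      · exact Or.inr (hord g k (h.walls_sq hg) (h.walls_sq hk) hne)
      · exact Or.inl rfl
    · intro g hg k hk hne
      apply cos_ge3
      simp only [M, if_neg (show g ≠ k by rintro rfl; exact hne (Commute.refl _))]
      split_ifs
      · exact Or.inr (hord3 g k (h.walls_sq hg) (h.walls_sq hk) hne)
      · exact Or.inl rfl
    · intro g hg k hk hne h3
      apply cos_ge4
      simp only [M, if_neg (show g ≠ k by rintro rfl; exact hne (Commute.refl _))]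
      split_ifs
      · have := hord3 g k (h.walls_sq hg) (h.walls_sq hk) hne
        have h1 : orderOf (g * k) ≠ 3 := fun h2 => h3 (h2 ▸ pow_orderOf_eq_one (g * k))
        omega
      · exact Or.inl rfl
    · intro g hg k hk hne
      by_contra hcon
      obtain ⟨q, hq, hlt⟩ := key {g, k} (by simp [hg, hk]) (by simp) (fun _ => 1) (by simp)
      simp only [Finset.mem_insert, Finset.mem_singleton] at hq
      rcases hq with rfl | rfl
      · rw [Finset.erase_insert (by simpa using hne)] at hlt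
        simp [M, hne, hcon] at hlt
      · rw [Finset.pair_comm, Finset.erase_insert (by simpa using hne.symm)] at hlt
        simp [M, hne.symm, or_comm, hcon] at hlt

end PS

end Pool.Agent.FlagOrb
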