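import Pool.Agent.Lib.MP_7157e1_co.Sys58

/-! Flag systems with a group acting freely; windows, reversal, polygon sizes. -/

namespace Pool.Agent.Lib.MP_7157e1_co
open Function

theorem iter_swap {α : Type} {f g : α → α} (hf : ∀ x, f (f x) = x) (hg : ∀ x, g (g x) = x)
    (m : ℕ) (x : α) : (g ∘ f)^[m] ((f ∘ g)^[m] x) = x := by
  induction m generalizing x with
  | zero => rfl
  | succ m ih =>
    rw [iterate_succ_apply, iterate_succ_apply']
    simp only [comp_apply, hf, hg]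
    exact ih x

theorem per_swap {α : Type} {f g : α → α} (hf : ∀ x, f (f x) = x) (hg : ∀ x, g (g x) = x)
    {m : ℕ} {x : α} (h : (f ∘ g)^[m] x = x) : (g ∘ f)^[m] x = x := by
  have := iter_swap hf hg m x
  rwa [h] at this

theorem mp_swap {α : Type} {f g : α → α} (hf : ∀ x, f (f x) = x) (hg : ∀ x, g (g x) = x)
    (x : α) : minimalPeriod (f ∘ g) x = minimalPeriod (g ∘ f) x :=
  minimalPeriod_eq_minimalPeriod_iff.2 fun _ => ⟨per_swap hf hg, per_swap hg hf⟩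

/-- flags with a freely acting group and the quotient -/
structure GSys (n : ℕ) where
  F : Type
  X : Type
  fin : Finite F
  r : ℕ → F → F
  ρ : ℕ → X → X
  π : F → X
  Γ : Subgroup (Equiv.Perm F)
  inv : ∀ i Φ, r i (r i Φ) = Φ
  ne : ∀ i, i < n → ∀ Φ, r i Φ ≠ Φ
  ne2 : ∀ i j, i < n → j < n → i ≠ j → ∀ Φ, r i Φ ≠ r j Φ
  comm : ∀ i j, j < n → i + 2 ≤ j → ∀ Φ, r i (r j Φ) = r j (r i Φ)
  p2 : ∀ i, i + 1 < n → ∀ Φ, r i (r (i + 1) Φ) ≠ r (i + 1) (r i Φ)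
  sc : ∀ a b, b ≤ n → SC r (Set.Ico a b)
  πr : ∀ i Φ, π (r i Φ) = ρ i (π Φ)
  surj : Surjective π
  fib : ∀ Φ Ψ, π Φ = π Ψ ↔ ∃ g ∈ Γ, g Φ = Ψ
  gc : ∀ g ∈ Γ, ∀ i Φ, g (r i Φ) = r i (g Φ)
  free : ∀ g ∈ Γ, ∀ Φ, g Φ = Φ → g = 1

theorem SC.shift {F : Type} {r : ℕ → F → F} {a x y : ℕ} (h : SC r (Set.Ico (a + x) (a + y))) :
    SC (fun i => r (a + i)) (Set.Ico x y) := by
  intro Z π t h1 h2 h3 h4 z z' hc hπ
  beta_reduce at h2 h4
  refine h Z π (fun j => t (j - a)) ?_ ?_ ?_ ?_ z z' ?_ hπ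
  · intro i hi z
    exact h1 _ (by simp only [Set.mem_Ico] at hi ⊢; omega) z
  · intro i hi z
    have := h2 (i - a) (by simp only [Set.mem_Ico] at hi ⊢; omega) z
    rwa [show a + (i - a) = i by simp only [Set.mem_Ico] at hi; omega] at this
  · intro i hi j hj hij z
    simp only [Set.mem_Ico] at hi hj
    exact h3 _ (by simp only [Set.mem_Ico]; omega) _ (by simp only [Set.mem_Ico]; omega)
      (by omega) z
  · intro i hi hi' z m hm
    simp only [Set.mem_Ico] at hi hi'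
    have := h4 (i - a) (by simp only [Set.mem_Ico]; omega) (by simp only [Set.mem_Ico]; omega) z m
    rw [show a + (i - a) = i by omega, show a + (i - a + 1) = i + 1 by omega] at this
    rw [show i + 1 - a = i - a + 1 by omega]
    exact this hm
  · refine hc.map (r' := fun j => t (j - a)) (s' := Set.Ico (a + x) (a + y)) id ?_
    intro i hi
    simp only [Set.mem_Ico] at hi
    exact ⟨a + i, by simp only [Set.mem_Ico]; omega, fun x => by simp⟩

theorem SC.flip {F : Type} {r : ℕ → F → F} {n x y : ℕ} (hy : y ≤ n)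
    (hinv : ∀ i Φ, r i (r i Φ) = Φ) (h : SC r (Set.Ico (n - y) (n - x))) :
    SC (fun i => r (n - 1 - i)) (Set.Ico x y) := by
  intro Z π t h1 h2 h3 h4 z z' hc hπ
  beta_reduce at h2 h4
  refine h Z π (fun j => t (n - 1 - j)) ?_ ?_ ?_ ?_ z z' ?_ hπ
  · intro i hi z
    exact h1 _ (by simp only [Set.mem_Ico] at hi ⊢; omega) z
  · intro i hi z
    have := h2 (n - 1 - i) (by simp only [Set.mem_Ico] at hi ⊢; omega) z
    rwa [show n - 1 - (n - 1 - i) = i by simp only [Set.mem_Ico] at hi; omega] at this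
  · intro i hi j hj hij z
    simp only [Set.mem_Ico] at hi hj
    exact (h3 _ (by simp only [Set.mem_Ico]; omega) _ (by simp only [Set.mem_Ico]; omega)
      (by omega) z).symm
  · intro i hi hi' z m hm
    simp only [Set.mem_Ico] at hi hi'
    have m1 : n - 1 - (i + 1) ∈ Set.Ico x y := by simp only [Set.mem_Ico]; omega
    have m2 : n - 1 - (i + 1) + 1 ∈ Set.Ico x y := by simp only [Set.mem_Ico]; omega
    have := h4 (n - 1 - (i + 1)) m1 m2 z m
    rw [show n - 1 - (n - 1 - (i + 1)) = i + 1 by omega,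
      show n - 1 - (n - 1 - (i + 1) + 1) = i by omega] at this
    have h5 := this (per_swap (hinv _) (hinv _) hm)
    have h6 := per_swap (h1 _ m1) (h1 _ m2) h5
    rwa [show n - 1 - (i + 1) + 1 = n - 1 - i by omega] at h6
  · refine hc.map (r' := fun j => t (n - 1 - j)) (s' := Set.Ico (n - y) (n - x)) id ?_
    intro i hi
    simp only [Set.mem_Ico] at hi
    refine ⟨n - 1 - i, by simp only [Set.mem_Ico]; omega, fun x => ?_⟩
    simp only [id]
    rw [show n - 1 - (n - 1 - i) = i by omega]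

namespace GSys
variable {n : ℕ} (S : GSys n)

/-- window of `m` colours starting at `a` -/
@[reducible] def win (a m : ℕ) (h : a + m ≤ n) : GSys m where
  F := S.F
  X := S.X
  fin := S.fin
  r := fun i => S.r (a + i)
  ρ := fun i => S.ρ (a + i)
  π := S.π
  Γ := S.Γ
  inv := fun _ => S.inv _
  ne := fun _ hi => S.ne _ (by omega)
  ne2 := fun _ _ hi hj hij => S.ne2 _ _ (by omega) (by omega) (by omega)
  comm := fun _ _ hj hij => S.comm _ _ (by omega) (by omega)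
  p2 := fun i hi => S.p2 (a + i) (by omega)
  sc := fun _ _ hy => (S.sc _ _ (by omega)).shift
  πr := fun _ => S.πr _
  surj := S.surj
  fib := S.fib
  gc := fun g hg _ => S.gc g hg _
  free := S.free

/-- reversal of the colours -/
@[reducible] def rev : GSys n where
  F := S.F
  X := S.X
  fin := S.fin
  r := fun i => S.r (n - 1 - i)
  ρ := fun i => S.ρ (n - 1 - i)
  π := S.π
  Γ := S.Γ
  inv := fun _ => S.inv _
  ne := fun _ hi => S.ne _ (by omega)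
  ne2 := fun _ _ hi hj hij => S.ne2 _ _ (by omega) (by omega) (by omega)
  comm := fun _ _ hj hij Φ => (S.comm _ _ (by omega) (by omega) Φ).symm
  p2 := fun i hi Φ => by
    have := S.p2 (n - 1 - (i + 1)) (by omega) Φ
    rw [show n - 1 - (i + 1) + 1 = n - 1 - i by omega] at this
    exact this.symm
  sc := fun _ _ hy => SC.flip hy S.inv (S.sc _ _ (by omega))
  πr := fun _ => S.πr _
  surj := S.surj
  fib := S.fib
  gc := fun g hg _ => S.gc g hg _
  free := S.free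

theorem ρinv (i : ℕ) (x : S.X) : S.ρ i (S.ρ i x) = x := by
  obtain ⟨Φ, rfl⟩ := S.surj x
  rw [← S.πr, ← S.πr, S.inv]

theorem ρinj (i : ℕ) {x y : S.X} (h : S.ρ i x = S.ρ i y) : x = y := by
  rw [← S.ρinv i x, h, S.ρinv]

theorem rinj (i : ℕ) {x y : S.F} (h : S.r i x = S.r i y) : x = y := by
  rw [← S.inv i x, h, S.inv]

theorem comm' {i j : ℕ} (hi : i < n) (hj : j < n) (h : i + 2 ≤ j ∨ j + 2 ≤ i) (Φ : S.F) :
    S.r i (S.r j Φ) = S.r j (S.r i Φ) := by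
  rcases h with h | h
  · exact S.comm i j hj h Φ
  · exact (S.comm j i hi h Φ).symm

theorem ρcomm {i j : ℕ} (hi : i < n) (hj : j < n) (h : i + 2 ≤ j ∨ j + 2 ≤ i) (x : S.X) :
    S.ρ i (S.ρ j x) = S.ρ j (S.ρ i x) := by
  obtain ⟨Φ, rfl⟩ := S.surj x
  rw [← S.πr, ← S.πr, S.comm' hi hj h, S.πr, S.πr]

/-- a colour fixing a point fixes its image under a commuting colour -/
theorem fix_comm {i j : ℕ} (hi : i < n) (hj : j < n) (h : i + 2 ≤ j ∨ j + 2 ≤ i) {x : S.X}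
    (hx : S.ρ i x = x) : S.ρ i (S.ρ j x) = S.ρ j x := by
  rw [S.ρcomm hi hj h, hx]

theorem geq {g h : Equiv.Perm S.F} (hg : g ∈ S.Γ) (hh : h ∈ S.Γ) {Φ : S.F} (e : g Φ = h Φ) :
    g = h := by
  have : h⁻¹ * g = 1 := S.free _ (S.Γ.mul_mem (S.Γ.inv_mem hh) hg) Φ (by simp [e])
  exact (inv_mul_eq_one.1 this).symm

theorem wall {i : ℕ} {Φ : S.F} (h : S.ρ i (S.π Φ) = S.π Φ) : ∃ g ∈ S.Γ, g Φ = S.r i Φ :=
  (S.fib _ _).1 (by rw [S.πr, h])

theorem πg {g : Equiv.Perm S.F} (hg : g ∈ S.Γ) (Φ : S.F) : S.π (g Φ) = S.π Φ :=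
  ((S.fib _ _).2 ⟨g, hg, rfl⟩).symm

theorem gsq {g : Equiv.Perm S.F} (hg : g ∈ S.Γ) {i : ℕ} {Φ : S.F} (e : g Φ = S.r i Φ) :
    g * g = 1 :=
  S.free _ (S.Γ.mul_mem hg hg) Φ (by
    simp only [Equiv.Perm.coe_mul, comp_apply]
    rw [e, S.gc g hg, e, S.inv])

theorem gne {g : Equiv.Perm S.F} {i : ℕ} (hi : i < n) {Φ : S.F} (e : g Φ = S.r i Φ) : g ≠ 1 := by
  rintro rfl
  exact S.ne i hi Φ e.symm

/-- transport of a wall along a commuting colour -/
theorem tr {g : Equiv.Perm S.F} (hg : g ∈ S.Γ) {i j : ℕ} (hi : i < n) (hj : j < n)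
    (h : i + 2 ≤ j ∨ j + 2 ≤ i) {Φ : S.F} (e : g Φ = S.r i Φ) :
    g (S.r j Φ) = S.r i (S.r j Φ) := by
  rw [S.gc g hg, e, S.comm' hi hj h]

/-- polygon size -/
noncomputable def p (i : ℕ) (Φ : S.F) : ℕ := minimalPeriod (S.r i ∘ S.r (i + 1)) Φ

theorem p_win {a m : ℕ} (h : a + m ≤ n) (i : ℕ) (Φ : S.F) :
    (S.win a m h).p i Φ = S.p (a + i) Φ := rfl

theorem p_rev {i : ℕ} (hi : i + 1 < n) (Φ : S.F) : S.rev.p i Φ = S.p (n - 2 - i) Φ := by
  unfold p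
  rw [mp_swap (S.inv _) (S.inv _)]
  show minimalPeriod (S.r (n - 1 - (i + 1)) ∘ S.r (n - 1 - i)) Φ = _
  rw [show n - 1 - (i + 1) = n - 2 - i by omega, show n - 1 - i = n - 2 - i + 1 by omega]

theorem p_dvd {i m : ℕ} {Φ : S.F} : (S.r i ∘ S.r (i + 1))^[m] Φ = Φ ↔ S.p i Φ ∣ m :=
  isPeriodicPt_iff_minimalPeriod_dvd

theorem p_pos (i : ℕ) (Φ : S.F) : 0 < S.p i Φ := by
  have := S.fin
  refine minimalPeriod_pos_of_mem_periodicPts (Injective.mem_periodicPts ?_ Φ)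
  intro x y h
  exact S.rinj _ (S.rinj _ h)

theorem p_ge {i : ℕ} (hi : i + 1 < n) (Φ : S.F) : 3 ≤ S.p i Φ := by
  have h0 := S.p_pos i Φ
  have h1 : ¬ S.p i Φ ∣ 1 := by
    rw [← S.p_dvd]
    intro h
    have h' : S.r i (S.r (i + 1) Φ) = Φ := h
    apply S.ne2 i (i + 1) (by omega) hi (by omega) Φ
    rw [← h', S.inv, h']
  have h2 : ¬ S.p i Φ ∣ 2 := by
    rw [← S.p_dvd]
    intro h
    have h' : S.r i (S.r (i + 1) (S.r i (S.r (i + 1) Φ))) = Φ := h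
    apply S.p2 i hi Φ
    have := congrArg (fun x => S.r (i + 1) (S.r i x)) h'
    simpa only [S.inv] using this
  by_contra h
  have : S.p i Φ = 1 ∨ S.p i Φ = 2 := by omega
  rcases this with h | h
  · exact h1 (by rw [h])
  · exact h2 (by rw [h])

/-- invariance of the polygon size under a map commuting with both colours -/
theorem p_map {i : ℕ} {f : S.F → S.F} (hf : Injective f) (h1 : ∀ Φ, f (S.r i Φ) = S.r i (f Φ))
    (h2 : ∀ Φ, f (S.r (i + 1) Φ) = S.r (i + 1) (f Φ)) (Φ : S.F) : S.p i (f Φ) = S.p i Φ := by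
  have hs : Semiconj f (S.r i ∘ S.r (i + 1)) (S.r i ∘ S.r (i + 1)) := fun x => by
    simp only [comp_apply, h1, h2]
  refine minimalPeriod_eq_minimalPeriod_iff.2 fun m => ?_
  show _ = _ ↔ _ = _
  rw [← (hs.iterate_right m).eq]
  exact hf.eq_iff

theorem p_g {g : Equiv.Perm S.F} (hg : g ∈ S.Γ) (i : ℕ) (Φ : S.F) : S.p i (g Φ) = S.p i Φ :=
  S.p_map g.injective (S.gc g hg i) (S.gc g hg (i + 1)) Φ

theorem p_π {Φ Ψ : S.F} (h : S.π Φ = S.π Ψ) (i : ℕ) : S.p i Ψ = S.p i Φ := by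
  obtain ⟨g, hg, rfl⟩ := (S.fib _ _).1 h
  exact S.p_g hg i Φ

theorem p_r {i j : ℕ} (hi : i + 1 < n) (hj : j < n) (h1 : j + 1 ≠ i) (h2 : j ≠ i + 2) (Φ : S.F) :
    S.p i (S.r j Φ) = S.p i Φ := by
  have key : ∀ (f g : S.F → S.F), (∀ x, f (f x) = x) → (∀ x, g (g x) = x) → ∀ x,
      minimalPeriod (f ∘ g) (g x) = minimalPeriod (f ∘ g) x := by
    intro f g hf hg x
    rw [mp_swap hf hg (g x)]
    have hs : Semiconj g (f ∘ g) (g ∘ f) := fun y => rfl
    refine minimalPeriod_eq_minimalPeriod_iff.2 fun m => ?_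
    show _ = _ ↔ _ = _
    rw [← (hs.iterate_right m).eq]
    exact (LeftInverse.injective hg).eq_iff
  by_cases e1 : j = i + 1
  · subst e1; exact key _ _ (S.inv _) (S.inv _) Φ
  by_cases e2 : j = i
  · subst e2
    unfold p
    rw [mp_swap (S.inv _) (S.inv _), key _ _ (S.inv _) (S.inv _), mp_swap (S.inv _) (S.inv _)]
  refine S.p_map (fun x y h => S.rinj _ h) (fun Ψ => ?_) (fun Ψ => ?_) Φ
  · exact S.comm' hj (by omega) (by omega) Ψ
  · exact S.comm' hj (by omega) (by omega) Ψ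

theorem pow_eq_one_iff {g : Equiv.Perm S.F} (hg : g ∈ S.Γ) (Φ : S.F) (m : ℕ) :
    (g ^ m) Φ = Φ ↔ orderOf g ∣ m := by
  rw [orderOf_dvd_iff_pow_eq_one]
  exact ⟨S.free _ (S.Γ.pow_mem hg m) Φ, fun h => by rw [h]; rfl⟩

/-- two walls at one flag -/
theorem iter0 {g h : Equiv.Perm S.F} (hg : g ∈ S.Γ) (hh : h ∈ S.Γ) {i j : ℕ} {Φ : S.F}
    (e1 : g Φ = S.r i Φ) (e2 : h Φ = S.r j Φ) (m : ℕ) :
    (S.r j ∘ S.r i)^[m] Φ = ((g * h) ^ m) Φ := by
  induction m with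
  | zero => rfl
  | succ m ih =>
    have hm := S.Γ.pow_mem (S.Γ.mul_mem hg hh) m
    rw [iterate_succ_apply', ih, pow_succ]
    simp only [comp_apply, Equiv.Perm.coe_mul]
    rw [← S.gc _ hm, ← S.gc _ hm, e2, S.gc g hg, e1]

theorem ord0 {g h : Equiv.Perm S.F} (hg : g ∈ S.Γ) (hh : h ∈ S.Γ) {i : ℕ} {Φ : S.F}
    (e1 : g Φ = S.r i Φ) (e2 : h Φ = S.r (i + 1) Φ) : orderOf (g * h) = S.p i Φ := by
  have key : ∀ m, orderOf (g * h) ∣ m ↔ S.p i Φ ∣ m := by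
    intro m
    rw [← S.pow_eq_one_iff (S.Γ.mul_mem hg hh) Φ, ← S.iter0 hg hh e1 e2, ← S.p_dvd]
    exact ⟨per_swap (S.inv _) (S.inv _), per_swap (S.inv _) (S.inv _)⟩
  exact Nat.dvd_antisymm ((key _).2 dvd_rfl) ((key _).1 dvd_rfl)

theorem ord_comm (g h : Equiv.Perm S.F) : orderOf (g * h) = orderOf (h * g) := by
  have : g * h = g * (h * g) * g⁻¹ := by group
  rw [this]
  exact (MulAut.conj g).orderOf_eq (h * g)

/-- the two walls at the ends of an edge -/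
theorem iter1 {g h : Equiv.Perm S.F} (hg : g ∈ S.Γ) (hh : h ∈ S.Γ) {i j : ℕ} {Φ : S.F}
    (e1 : g Φ = S.r j Φ) (e2 : h (S.r i Φ) = S.r j (S.r i Φ)) (m : ℕ) :
    (S.r i ∘ S.r j)^[2 * m] Φ = ((g * h) ^ m) Φ := by
  induction m with
  | zero => rfl
  | succ m ih =>
    have hm := S.Γ.pow_mem (S.Γ.mul_mem hg hh) m
    rw [show 2 * (m + 1) = 2 * m + 1 + 1 by ring, iterate_succ_apply', iterate_succ_apply', ih,
      pow_succ]
    simp only [comp_apply, Equiv.Perm.coe_mul]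
    rw [← S.gc _ hm, ← S.gc _ hm, ← S.gc _ hm, ← S.gc _ hm, ← e1, ← S.gc g hg, ← S.gc g hg,
      ← S.gc g hg, ← e2, ← S.gc h hh, S.inv]

theorem ne1 {g : Equiv.Perm S.F} (hg : g ∈ S.Γ) {i j : ℕ} (hi : i < n) (hj : j < n)
    (hij : j = i + 1 ∨ i = j + 1) {Φ : S.F}
    (e1 : g Φ = S.r j Φ) (e2 : g (S.r i Φ) = S.r j (S.r i Φ)) : False := by
  rw [S.gc g hg, e1] at e2
  rcases hij with rfl | rfl
  · exact S.p2 i hj Φ e2
  · exact S.p2 j hi Φ e2.symm

end GSys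

end Pool.Agent.Lib.MP_7157e1_co
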