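import Pool.Agent.Lib.MP_7157e1_co.G9

/-! The path theorem for flag systems. -/

namespace Pool.Agent.Lib.MP_7157e1_co
open Function

namespace Sys
variable {d : ℕ} (S : Sys d)

theorem free {g : Equiv.Perm S.F} (hg : g ∈ S.aut) (Φ : S.F) (e : g Φ = Φ) : g = 1 := by
  ext Ψ
  refine (S.conn Φ Ψ).ind (fun Ψ => g Ψ = Ψ) e fun i _ x hx => ?_
  rw [hg i x, hx]

/-- the quotient system -/
@[reducible] noncomputable def toG : GSys d where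
  F := S.F
  X := MulAction.orbitRel.Quotient S.aut S.F
  fin := S.fin
  r := S.r
  ρ := fun i => Quotient.map' (S.r i) (by
    rintro a b ⟨g, rfl⟩
    exact ⟨g, g.2 i b⟩)
  π := Quotient.mk''
  Γ := S.aut
  inv := S.inv
  ne := S.ne
  ne2 := S.ne2
  comm := fun i j _ => S.comm i j
  p2 := S.p2
  sc := S.sc
  πr := fun _ _ => rfl
  surj := Quotient.mk''_surjective
  fib := fun Φ Ψ => by
    rw [eq_comm, Quotient.eq'']
    exact ⟨fun ⟨g, e⟩ => ⟨g, g.2, e⟩, fun ⟨g, hg, e⟩ => ⟨⟨g, hg⟩, e⟩⟩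
  gc := fun _ hg => hg
  free := fun _ hg => S.free hg

theorem func (B : S.F → S.F → Prop)
    (h1 : ∀ Φ Ψ, B Φ Ψ → ∀ i, i < d → B (S.r i Φ) (S.r i Ψ))
    (h2 : ∀ Φ Ψ, B Φ Ψ → ∀ i, i + 1 < d → S.toG.p i Ψ = S.toG.p i Φ) {Φ Ψ : S.F} (h : B Φ Ψ)
    {z z' : S.F × S.F} (c : Conn (fun i z => (S.r i z.1, S.r i z.2)) (Set.Iio d) (Φ, Ψ) z)
    (c' : Conn (fun i z => (S.r i z.1, S.r i z.2)) (Set.Iio d) (Φ, Ψ) z') (e : z.1 = z'.1) :
    z = z' := by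
  have h3 : ∀ Φ Ψ, B Φ Ψ → ∀ i, B (S.r i Φ) (S.r i Ψ) := by
    intro Φ Ψ k i
    by_cases hi : i < d
    · exact h1 Φ Ψ k i hi
    · rwa [S.out i (by omega), S.out i (by omega)]
  let t : ℕ → {z : S.F × S.F // B z.1 z.2} → {z : S.F × S.F // B z.1 z.2} :=
    fun i z => ⟨(S.r i z.1.1, S.r i z.1.2), h3 _ _ z.2 i⟩
  have lift : ∀ z, Conn (fun i z => (S.r i z.1, S.r i z.2)) (Set.Iio d) (Φ, Ψ) z →
      ∃ hz, Conn t (Set.Ico 0 d) ⟨(Φ, Ψ), h⟩ ⟨z, hz⟩ := by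
    intro z hz
    refine hz.ind (fun z => ∃ hz, Conn t (Set.Ico 0 d) ⟨(Φ, Ψ), h⟩ ⟨z, hz⟩) ⟨h, Conn.refl _⟩ ?_
    rintro i hi x ⟨k1, k2⟩
    exact ⟨h3 _ _ k1 i, k2.step ⟨Nat.zero_le _, hi⟩⟩
  obtain ⟨k1, k2⟩ := lift z c
  obtain ⟨k3, k4⟩ := lift z' c'
  have tinv : ∀ i z, t i (t i z) = z := fun i z => Subtype.ext (by simp only [t, S.inv])
  have it : ∀ i m z, ((t i ∘ t (i + 1))^[m] z).1 =
      ((S.r i ∘ S.r (i + 1))^[m] z.1.1, (S.r i ∘ S.r (i + 1))^[m] z.1.2) := by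
    intro i m
    induction m with
    | zero => exact fun _ => rfl
    | succ m ih => intro z; rw [iterate_succ_apply, ih]; rfl
  refine congrArg Subtype.val (S.sc 0 d le_rfl _ (fun z => z.1.1) t (fun i _ => tinv i)
    (fun _ _ _ => rfl) (fun i _ j _ hij z => Subtype.ext (by simp only [t, S.comm i j hij]))
    (fun i _ hi z m hm => Subtype.ext ?_) ⟨z, k1⟩ ⟨z', k3⟩
    ((k2.symm fun i _ => tinv i).trans k4) e)
  rw [it, hm, S.toG.p_dvd.2 (by rw [h2 _ _ z.2 i hi.2]; exact S.toG.p_dvd.1 hm)]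

theorem glob : S.toG.Glob where
  conn := fun x y => by
    obtain ⟨Φ, rfl⟩ := S.toG.surj x
    obtain ⟨Ψ, rfl⟩ := S.toG.surj y
    exact (S.conn Φ Ψ).map S.toG.π fun i hi => ⟨i, hi, fun _ => rfl⟩
  rig := fun B h1 h2 Φ Ψ h => by
    have ex : ∀ Θ, ∃ Θ', Conn (fun i z => (S.r i z.1, S.r i z.2)) (Set.Iio d) (Φ, Ψ) (Θ, Θ') :=
      fun Θ => (S.conn Φ Θ).ind (fun Θ => ∃ Θ', Conn (fun i z => (S.r i z.1, S.r i z.2))
        (Set.Iio d) (Φ, Ψ) (Θ, Θ')) ⟨Ψ, Conn.refl _⟩ fun i hi x ⟨y, hy⟩ => ⟨_, hy.step hi⟩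
    choose g hg using ex
    have gr : ∀ i Θ, g (S.r i Θ) = S.r i (g Θ) := by
      intro i Θ
      by_cases hi : i < d
      · exact congrArg Prod.snd (S.func B h1 h2 h (hg _) ((hg Θ).step hi) rfl)
      · rw [S.out i (by omega), S.out i (by omega)]
    have g0 : g Φ = Ψ := congrArg Prod.snd (S.func B h1 h2 h (hg _) (Conn.refl _) rfl)
    have surj : Surjective g := fun Θ => (S.conn Ψ Θ).ind (fun Θ => ∃ x, g x = Θ) ⟨Φ, g0⟩
      fun i _ x ⟨y, hy⟩ => ⟨S.r i y, by rw [gr, hy]⟩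
    have := S.fin
    exact (S.toG.fib _ _).2 ⟨Equiv.ofBijective g ⟨Finite.injective_iff_surjective.2 surj, surj⟩,
      gr, g0⟩

end Sys

/-- few flag orbits force the orbit graph to be a path -/
theorem path_thm {d : ℕ} (S : Sys d) (hk : 2 ≤ S.k)
    (hr : 63 * S.k + 864 * Nat.log 2 S.k + 674 < 64 * d) :
    ∃ a b, a + b ≤ 3 ∧ S.k + a + b = d + 1 ∧
      ∀ i, i < d → (i < a ∨ d ≤ i + b) → ∀ Φ, ∃ g ∈ S.aut, g Φ = S.r i Φ := by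
  have := S.fin
  have : Finite S.toG.X := Finite.of_surjective _ S.toG.surj
  have := Fintype.ofFinite S.toG.X
  have e : S.k = Fintype.card S.toG.X := Nat.card_eq_fintype_card
  obtain ⟨u, v, Φ, h⟩ := S.glob.exists_std (e ▸ hk) (e ▸ hr)
  obtain ⟨a, b, h1, h2, h3⟩ := h.final S.glob
  exact ⟨a, b, h1, h2, fun i i1 i2 Φ => S.toG.wall (h3 i i1 i2 _)⟩

end Pool.Agent.Lib.MP_7157e1_co
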