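import Pool.Agent.Lib.MP_7157e1_co.G1

/-! The numbers game: affine reflections, dihedral relations, the basic finiteness obstruction. -/

namespace Pool.Agent.Lib.MP_7157e1_co
open Function

section refl
variable {M : Type} [Fintype M] [DecidableEq M]

/-- the numbers of the game -/
def phi (A : M → M → ℝ) (v : M → ℝ) (m : M) : ℝ := 1 - ∑ m', A m m' * v m'

/-- firing a node -/
def fire (A : M → M → ℝ) (m : M) (v : M → ℝ) : M → ℝ := update v m (v m + phi A v m)

theorem sum_upd (c v : M → ℝ) (m : M) (t : ℝ) :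
    ∑ m', c m' * update v m t m' = ∑ m', c m' * v m' + c m * (t - v m) := by
  have : ∀ m', c m' * update v m t m' = c m' * v m' + if m' = m then c m * (t - v m) else 0 := by
    intro m'
    by_cases h : m' = m
    · subst h; simp; ring
    · simp [h]
  simp only [this, Finset.sum_add_distrib, Finset.sum_ite_eq', Finset.mem_univ, if_true]

theorem phi_upd (A : M → M → ℝ) (v : M → ℝ) (m m' : M) (t : ℝ) :
    phi A (update v m t) m' = phi A v m' - A m' m * (t - v m) := by
  unfold phi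
  rw [sum_upd]; ring

theorem phi_fire (A : M → M → ℝ) (v : M → ℝ) (m m' : M) :
    phi A (fire A m v) m' = phi A v m' - A m' m * phi A v m := by
  unfold fire
  rw [phi_upd]; ring

theorem fire_fire (A : M → M → ℝ) {m : M} (h : A m m = 2) (v : M → ℝ) :
    fire A m (fire A m v) = v := by
  conv_lhs => unfold fire
  have := phi_fire A v m m
  unfold fire at this
  rw [this, h]
  simp only [update_self, update_idem]
  rw [show v m + phi A v m + (phi A v m - 2 * phi A v m) = v m by ring, update_eq_self]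

theorem fire_pow (A : M → M → ℝ) {a b : M} (hab : a ≠ b) (ha : A a a = 2) (hb : A b b = 2)
    {m : ℕ} (hm : 2 ≤ m) (h1 : A a b = -2 * Real.cos (Real.pi / m))
    (h2 : A b a = -2 * Real.cos (Real.pi / m)) (v : M → ℝ) :
    (fire A a ∘ fire A b)^[m] v = v := by
  set θ := Real.pi / m with hθ
  have hm0 : (0 : ℝ) < m := by exact_mod_cast (by omega : 0 < m)
  have hm1 : (1 : ℝ) < m := by exact_mod_cast (by omega : 1 < m)
  have hs : 0 < Real.sin θ := by
    refine Real.sin_pos_of_pos_of_lt_pi (div_pos Real.pi_pos hm0) ?_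
    exact div_lt_self Real.pi_pos hm1
  set c := Real.cos θ with hc
  have hsc : Real.sin θ ^ 2 + c ^ 2 = 1 := Real.sin_sq_add_cos_sq θ
  have hd : 1 - c ^ 2 ≠ 0 := by nlinarith
  set w0 := -(phi A v b + c * phi A v a) / (2 * (1 - c ^ 2)) with hw0
  set w1 := -(phi A v a + c * phi A v b) / (2 * (1 - c ^ 2)) with hw1
  have e0 : phi A v b = -2 * w0 + 2 * c * w1 := by rw [hw0, hw1]; field_simp; ring
  have e1 : phi A v a = -2 * w1 + 2 * c * w0 := by rw [hw0, hw1]; field_simp; ring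
  set W : ℝ → ℝ := fun t => (w1 * Real.sin (t * θ) - w0 * Real.sin ((t - 1) * θ)) / Real.sin θ
    with hW
  have W0 : W 0 = w0 := by
    simp only [hW]; rw [zero_mul, zero_sub, neg_one_mul, Real.sin_neg, Real.sin_zero]
    field_simp; ring
  have W1 : W 1 = w1 := by
    simp only [hW]; rw [one_mul, sub_self, zero_mul, Real.sin_zero]
    field_simp; ring
  have Wr : ∀ t, W (t + 2) = 2 * c * W (t + 1) - W t := by
    intro t
    have s1 : ∀ s : ℝ, Real.sin ((s + 2) * θ) = 2 * c * Real.sin ((s + 1) * θ) - Real.sin (s * θ) := by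
      intro s
      rw [show (s + 2) * θ = (s + 1) * θ + θ by ring, show s * θ = (s + 1) * θ - θ by ring,
        Real.sin_add, Real.sin_sub]
      ring
    simp only [hW]
    rw [s1 t, show t + 2 - 1 = t - 1 + 2 by ring, s1 (t - 1), show t - 1 + 1 = t by ring,
      show t + 1 - 1 = t by ring]
    field_simp; ring
  have Wp : ∀ t, W (t + 2 * m) = W t := by
    intro t
    have s1 : ∀ s : ℝ, Real.sin ((s + 2 * m) * θ) = Real.sin (s * θ) := by
      intro s
      rw [show (s + 2 * m) * θ = s * θ + 2 * Real.pi by rw [hθ]; field_simp, Real.sin_add_two_pi]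
    simp only [hW]
    rw [s1, show t + 2 * m - 1 = t - 1 + 2 * m by ring, s1]
  have key : ∀ n : ℕ, (fire A a ∘ fire A b)^[n] v =
      update (update v a (v a - w1 + W (2 * n + 1))) b (v b - w0 + W (2 * n)) := by
    intro n
    induction n with
    | zero => simp [W0, W1]
    | succ n ih =>
      rw [iterate_succ_apply', ih]
      have r1 := Wr (2 * n)
      have r2 := Wr (2 * n + 1)
      push_cast
      rw [show (2 : ℝ) * (n + 1) = 2 * n + 2 by ring, show (2 : ℝ) * n + 2 + 1 = 2 * n + 1 + 2 by ring]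
      rw [show (2 : ℝ) * n + 1 + 1 = 2 * n + 2 by ring] at r2
      have f1 : fire A b (update (update v a (v a - w1 + W (2 * n + 1))) b (v b - w0 + W (2 * n))) =
          update (update v a (v a - w1 + W (2 * n + 1))) b (v b - w0 + W (2 * n + 2)) := by
        unfold fire
        rw [phi_upd, phi_upd, update_idem, update_self, update_of_ne hab.symm, hb, h2, e0, r1]
        congr 1; ring
      simp only [comp_apply]
      rw [f1]
      unfold fire
      rw [phi_upd, phi_upd, update_of_ne hab, update_self, update_of_ne hab.symm, ha, h1, e1,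
        update_comm hab.symm, update_idem, r2]
      congr 2; ring
  rw [key m, show (2 : ℝ) * m + 1 = 1 + 2 * m by ring, Wp, show (2 : ℝ) * m = 0 + 2 * m by ring, Wp,
    W0, W1]
  simp

/-- action of an optional node -/
def act (A : M → M → ℝ) : Option M → (M → ℝ) → M → ℝ
  | none, v => v
  | some m, v => fire A m v

end refl

section dih
variable {G K : Type} [Group G] [Group K]

/-- normal forms of a group generated by two involutions -/
def NF {H : Type} [Group H] (c d z : H) : Prop := ∃ m : ℤ, z = (c * d) ^ m ∨ z = (c * d) ^ m * c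

theorem NF.one {H : Type} [Group H] (c d : H) : NF c d 1 := ⟨0, Or.inl (by simp)⟩

theorem NF.mul_c {H : Type} [Group H] {c d z : H} (hc : c * c = 1) (h : NF c d z) :
    NF c d (z * c) := by
  obtain ⟨m, rfl | rfl⟩ := h
  · exact ⟨m, Or.inr rfl⟩
  · exact ⟨m, Or.inl (by rw [mul_assoc, hc, mul_one])⟩

theorem NF.mul_d {H : Type} [Group H] {c d z : H} (hd : d * d = 1) (h : NF c d z) :
    NF c d (z * d) := by
  obtain ⟨m, rfl | rfl⟩ := h
  · refine ⟨m - 1, Or.inr ?_⟩
    have : (c * d) ^ m = (c * d) ^ (m - 1) * (c * d) := by rw [← zpow_add_one]; simp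
    rw [this, mul_assoc, mul_assoc c, hd, mul_one]
  · exact ⟨m + 1, Or.inl (by rw [zpow_add_one, mul_assoc])⟩

theorem NF.fin {a b : G} {α β : K} (ha : a * a = 1) (hb : b * b = 1) (a1 : a ≠ 1) (b1 : b ≠ 1)
    (h : ∀ m : ℕ, (a * b) ^ m = 1 → (α * β) ^ m = 1) {T : K}
    (hz : NF (a, α) (b, β) ((1 : G), T)) : T = 1 := by
  obtain ⟨m, e | e⟩ := hz
  · have e1 : (1 : G) = (a * b) ^ m := congrArg Prod.fst e
    have e2 : T = (α * β) ^ m := congrArg Prod.snd e
    rw [e2]
    obtain ⟨l, rfl | rfl⟩ := Int.eq_nat_or_neg m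
    · rw [zpow_natCast] at e1 ⊢
      exact h l e1.symm
    · rw [zpow_neg, zpow_natCast] at e1 ⊢
      rw [inv_eq_one]
      exact h l (inv_eq_one.1 e1.symm)
  · exfalso
    have e1 : (1 : G) = (a * b) ^ m * a := congrArg Prod.fst e
    have ia : a⁻¹ = a := inv_eq_of_mul_eq_one_right ha
    have ib : b⁻¹ = b := inv_eq_of_mul_eq_one_right hb
    have sc : SemiconjBy a (a * b)⁻¹ (a * b) := by
      unfold SemiconjBy
      rw [mul_inv_rev, ia, ib, mul_assoc]
    have sl : ∀ l : ℤ, (a * b) ^ l * a = a * ((a * b) ^ l)⁻¹ := fun l => by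
      have := (sc.zpow_right l).eq
      rw [← this, inv_zpow]
    rcases Int.even_or_odd' m with ⟨l, rfl | rfl⟩
    · rw [two_mul, zpow_add, mul_assoc, sl, ← mul_assoc] at e1
      apply a1
      have : a = ((a * b) ^ l)⁻¹ * ((a * b) ^ l * a * ((a * b) ^ l)⁻¹) * (a * b) ^ l := by group
      rw [this, ← e1]; simp
    · rw [show 2 * l + 1 = l + 1 + l by ring, zpow_add, mul_assoc, sl, zpow_add_one] at e1
      apply b1
      have : b = a⁻¹ * (((a * b) ^ l)⁻¹ * ((a * b) ^ l * (a * b) * (a * ((a * b) ^ l)⁻¹)) *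
          (a * b) ^ l) * a⁻¹ := by group
      rw [this, ← e1, ia]; simp [ha]

end dih

namespace GSys
variable {n : ℕ} (S : GSys n)

theorem NG0 (Φ0 : S.F) {M : Type} [Fintype M] [DecidableEq M] (A : M → M → ℝ)
    (hA : ∀ m, A m m = 2) (ℓ : S.F → ℕ → Option M)
    (hℓ : ∀ i, i < n → ∀ Φ, Conn S.r (Set.Iio n) Φ0 Φ → ℓ (S.r i Φ) i = ℓ Φ i)
    (hol : ∀ i j, i < j → j < n → ∀ Φ, Conn S.r (Set.Iio n) Φ0 Φ → ∀ m v,
      (j = i + 1 ∨ m = 2) → (S.r i ∘ S.r j)^[m] Φ = Φ →
      (((fun z : S.F × (M → ℝ) => (S.r i z.1, act A (ℓ z.1 i) z.2)) ∘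
        (fun z : S.F × (M → ℝ) => (S.r j z.1, act A (ℓ z.1 j) z.2)))^[m] (Φ, v)).2 = v)
    (δ : M → ℝ) (h0 : ∀ m, 0 ≤ δ m) (h1 : ∃ m, 0 < δ m)
    (h2 : ∀ m, 0 < δ m → ∑ m', δ m' * A m' m ≤ 0)
    (acc : ∀ m, 0 < δ m → ∀ Φ, Conn S.r (Set.Iio n) Φ0 Φ → ∃ Ψ i, i < n ∧
      Relation.ReflTransGen (fun a b => ∃ j, j < n ∧ ℓ a j = none ∧ S.r j a = b) Φ Ψ ∧
      ℓ Ψ i = some m) : False := by
  classical
  have := S.fin
  let t0 : ℕ → S.F × (M → ℝ) → S.F × (M → ℝ) := fun i z => (S.r i z.1, act A (ℓ z.1 i) z.2)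
  let Z := {z : S.F × (M → ℝ) // Conn S.r (Set.Iio n) Φ0 z.1}
  let t : ℕ → Z → Z := fun i z => if h : i < n then ⟨t0 i z.1, z.2.step h⟩ else z
  have tv : ∀ i, i < n → ∀ z : Z, (t i z).1 = t0 i z.1 := fun i hi z => by simp only [t, dif_pos hi]
  have ainv : ∀ o v, act A o (act A o v) = v := by
    rintro (_ | m) v
    · rfl
    · exact fire_fire A (hA m) v
  have tinv : ∀ i, i < n → ∀ z, t i (t i z) = z := by
    intro i hi z
    apply Subtype.ext
    rw [tv i hi, tv i hi]
    simp only [t0]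
    rw [S.inv, hℓ i hi _ z.2, ainv]
  have tit : ∀ i j, i < n → j < n → ∀ m (z : Z),
      ((t i ∘ t j)^[m] z).1 = (t0 i ∘ t0 j)^[m] z.1 := by
    intro i j hi hj m z
    have : Semiconj Subtype.val (t i ∘ t j) (t0 i ∘ t0 j) := fun z => by
      simp only [comp_apply, tv i hi, tv j hj]
    exact (this.iterate_right m).eq z
  have tfst : ∀ i j m (z : S.F × (M → ℝ)),
      ((t0 i ∘ t0 j)^[m] z).1 = (S.r i ∘ S.r j)^[m] z.1 := by
    intro i j m z
    have : Semiconj Prod.fst (t0 i ∘ t0 j) (S.r i ∘ S.r j) := fun z => rfl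
    exact (this.iterate_right m).eq z
  have per : ∀ i j, i < j → j < n → ∀ m (z : Z), (j = i + 1 ∨ m = 2) →
      (S.r i ∘ S.r j)^[m] z.1.1 = z.1.1 → (t i ∘ t j)^[m] z = z := by
    intro i j hij hj m z hm h
    apply Subtype.ext
    rw [tit i j (by omega) hj]
    exact Prod.ext (by rw [tfst, h]) (hol i j hij hj z.1.1 z.2 m z.1.2 hm h)
  have hsc := S.sc 0 n le_rfl Z (fun z => z.1.1) t (fun i hi => tinv i hi.2)
    (fun i hi z => by simp only [tv i hi.2, t0])
    (fun i hi j hj hij z => by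
      have h := per i j (by omega) hj.2 2 z (Or.inr rfl) (by
        show S.r i (S.r j (S.r i (S.r j z.1.1))) = z.1.1
        rw [← S.comm i j hj.2 hij, S.inv, S.inv])
      have h' : t i (t j (t i (t j z))) = z := h
      have := congrArg (fun x => t j (t i x)) h'
      simpa only [tinv i hi.2, tinv j hj.2] using this)
    (fun i _ hi' z m h => per i (i + 1) (by omega) hi'.2 m z (Or.inl rfl) h)
  let z0 : Z := ⟨(Φ0, 0), Conn.refl _⟩
  let O : Set Z := {z | Conn t (Set.Ico 0 n) z0 z ∧ 0 < ∑ m, δ m * phi A z.1.2 m}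
  have hfin : O.Finite := by
    refine Set.Finite.of_finite_image (f := fun z => z.1.1) (Set.toFinite _) ?_
    intro z hz z' hz' e
    exact hsc z z' ((hz.1.symm fun i hi => tinv i hi.2).trans hz'.1) e
  have hne : O.Nonempty := by
    refine ⟨z0, Conn.refl _, ?_⟩
    obtain ⟨m, hm⟩ := h1
    simp only [z0, phi, Pi.zero_apply, mul_zero, Finset.sum_const_zero, sub_zero, mul_one]
    exact Finset.sum_pos' (fun m _ => h0 m) ⟨m, Finset.mem_univ _, hm⟩
  obtain ⟨z, hz, hmax⟩ := Set.exists_max_image O (fun z => ∑ m, 1 * z.1.2 m) hfin hne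
  have : ∃ m, 0 < δ m * phi A z.1.2 m := by
    by_contra hcon
    push Not at hcon
    exact absurd hz.2 (not_lt.2 (Finset.sum_nonpos fun m _ => hcon m))
  obtain ⟨m, hm⟩ := this
  have hδ : 0 < δ m := by
    rcases (h0 m).lt_or_eq with h | h
    · exact h
    · rw [← h, zero_mul] at hm; exact absurd hm (lt_irrefl _)
  have hφ : 0 < phi A z.1.2 m := (pos_iff_pos_of_mul_pos hm).1 hδ
  obtain ⟨Ψ, i, hi, hpath, hΨ⟩ := acc m hδ z.1.1 z.2
  have hw : ∃ w : Z, Conn t (Set.Ico 0 n) z0 w ∧ w.1 = (Ψ, z.1.2) := by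
    clear hΨ
    induction hpath with
    | refl => exact ⟨z, hz.1, rfl⟩
    | tail _ h ih =>
      obtain ⟨j, hj, hl, rfl⟩ := h
      obtain ⟨w, hw, e⟩ := ih
      refine ⟨t j w, hw.step ⟨Nat.zero_le _, hj⟩, ?_⟩
      rw [tv j hj, e]
      simp only [t0, hl, act]
  obtain ⟨w, hw, e⟩ := hw
  have e2 : (t i w).1.2 = fire A m z.1.2 := by
    rw [tv i hi, e]
    simp only [t0, hΨ, act]
  have hO : t i w ∈ O := by
    refine ⟨hw.step ⟨Nat.zero_le _, hi⟩, ?_⟩
    rw [e2]
    simp only [phi_fire, mul_sub, Finset.sum_sub_distrib, ← mul_assoc, ← Finset.sum_mul]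
    have := hz.2
    nlinarith [h2 m hδ]
  have := hmax _ hO
  simp only [e2, fire] at this
  rw [sum_upd] at this
  linarith

end GSys

end Pool.Agent.Lib.MP_7157e1_co
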