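import Pool.Agent.Lib.MP_7157e1_co.G2

/-! Numbers game with group elements as labels. -/

namespace Pool.Agent.Lib.MP_7157e1_co
open Function

theorem cos_le {m k : ℕ} (hk : 1 ≤ k) (h : k ≤ m) :
    -2 * Real.cos (Real.pi / m) ≤ -2 * Real.cos (Real.pi / k) := by
  have hk' : (1 : ℝ) ≤ k := by exact_mod_cast hk
  have h' : (k : ℝ) ≤ m := by exact_mod_cast h
  have := Real.cos_le_cos_of_nonneg_of_le_pi (x := Real.pi / m) (y := Real.pi / k)
    (div_nonneg Real.pi_pos.le (by linarith)) (div_le_self Real.pi_pos.le hk')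
    (div_le_div_of_nonneg_left Real.pi_pos.le (by linarith) h')
  linarith

theorem cos2 {m : ℕ} (h : 2 ≤ m) : -2 * Real.cos (Real.pi / m) ≤ 0 := by
  have := cos_le (by norm_num) h
  rw [Nat.cast_ofNat, Real.cos_pi_div_two] at this
  linarith

theorem cos3 {m : ℕ} (h : 3 ≤ m) : -2 * Real.cos (Real.pi / m) ≤ -1 := by
  have := cos_le (by norm_num) h
  rw [Nat.cast_ofNat, Real.cos_pi_div_three] at this
  linarith

theorem cos4 {m : ℕ} (h : 4 ≤ m) : -2 * Real.cos (Real.pi / m) ≤ -√2 := by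
  have := cos_le (by norm_num) h
  rw [Nat.cast_ofNat, Real.cos_pi_div_four] at this
  linarith

theorem iter_dvd {α : Type} {f : α → α} {x : α} {a m : ℕ} (h : f^[a] x = x) (hd : a ∣ m) :
    f^[m] x = x := IsPeriodicPt.trans_dvd h hd

namespace GSys

/-- an equivelar residue of rank five has a triangle in the second place -/
theorem X1 (S : GSys 5) (Φ : S.F)
    (h : ∀ Ψ, Conn S.r (Set.Iio 5) Φ Ψ → ∀ i, i < 4 → S.p i Ψ = S.p i Φ) : S.p 1 Φ = 3 := by
  by_contra hne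
  have h4 : 4 ≤ S.p 1 Φ := by have := S.p_ge (i := 1) (by norm_num) Φ; omega
  let mm : Fin 5 → Fin 5 → ℕ := fun i j =>
    if j.1 = i.1 + 1 then S.p i Φ else if i.1 = j.1 + 1 then S.p j Φ else 2
  let A : Fin 5 → Fin 5 → ℝ := fun i j =>
    if i = j then 2 else -2 * Real.cos (Real.pi / mm i j)
  have c0 := cos3 (S.p_ge (i := 0) (by norm_num) Φ)
  have c1 := cos4 h4
  have c2 := cos3 (S.p_ge (i := 2) (by norm_num) Φ)
  have c3 := cos3 (S.p_ge (i := 3) (by norm_num) Φ)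
  have s2 : √2 * √2 = (2 : ℝ) := Real.mul_self_sqrt (by norm_num)
  have s0 : (0 : ℝ) < √2 := by positivity
  refine S.NG0 Φ A (fun m => by simp [A]) (fun _ i => if h : i < 5 then some ⟨i, h⟩ else none)
    (fun _ _ _ _ => rfl) ?_ ![√2, 2 * √2, 3, 2, 1] ?_ ⟨4, by simp⟩ ?_ ?_
  · intro i j hij hj Ψ hΨ m v hm hper
    have hi : i < 5 := by omega
    simp only [dif_pos hi, dif_pos hj, act]
    have : Semiconj Prod.snd
        ((fun z : S.F × (Fin 5 → ℝ) => (S.r i z.1, fire A ⟨i, hi⟩ z.2)) ∘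
          (fun z : S.F × (Fin 5 → ℝ) => (S.r j z.1, fire A ⟨j, hj⟩ z.2)))
        (fire A ⟨i, hi⟩ ∘ fire A ⟨j, hj⟩) := fun z => rfl
    rw [(this.iterate_right m).eq]
    have hne : (⟨i, hi⟩ : Fin 5) ≠ ⟨j, hj⟩ := fun e => by simp at e; omega
    have hs : mm ⟨j, hj⟩ ⟨i, hi⟩ = mm ⟨i, hi⟩ ⟨j, hj⟩ := by
      simp only [mm]; split_ifs <;> first | rfl | omega
    have hd : 2 ≤ mm ⟨i, hi⟩ ⟨j, hj⟩ ∧ mm ⟨i, hi⟩ ⟨j, hj⟩ ∣ m := by
      simp only [mm]
      by_cases e : j = i + 1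
      · subst e
        rw [if_pos rfl]
        have := S.p_ge hj Φ
        refine ⟨by omega, ?_⟩
        rw [← h Ψ hΨ i (by omega)]
        exact S.p_dvd.1 hper
      · rw [if_neg e, if_neg (by omega)]
        rcases hm with hm | hm
        · exact absurd hm e
        · rw [hm]; exact ⟨le_rfl, dvd_rfl⟩
    refine iter_dvd (fire_pow A hne (by simp [A]) (by simp [A]) hd.1 ?_ ?_ v) hd.2
    · simp only [A, if_neg hne]
    · simp only [A, if_neg hne.symm, hs]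
  · intro m; fin_cases m <;> simp
  · intro m _
    fin_cases m <;> simp [Fin.sum_univ_five, A, mm] <;> nlinarith
  · intro m _ Ψ _
    exact ⟨Ψ, m.1, m.2, Relation.ReflTransGen.refl, by simp⟩

variable {n : ℕ} (S : GSys n)

/-- a rank two residue with a wall is a path -/
theorem pathD (c0 c1 : ℕ) (Φ0 : S.F) (h0 : S.ρ c0 (S.π Φ0) = S.π Φ0) :
    ∃ D : Set S.F, Φ0 ∈ D ∧
      (∀ Φ ∈ D, ∀ c, (c = c0 ∨ c = c1) → S.ρ c (S.π Φ) ≠ S.π Φ → S.r c Φ ∈ D) ∧
      Set.InjOn S.π D ∧ (∀ Φ ∈ D, Conn S.r {c0, c1} Φ0 Φ) ∧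
      ∃ w : S.X × ℕ, ∀ Φ ∈ D, ∀ c, (c = c0 ∨ c = c1) → S.ρ c (S.π Φ) = S.π Φ →
        (S.π Φ = S.π Φ0 ∧ c = c0) ∨ (S.π Φ, c) = w := by
  let col : ℕ → ℕ := fun m => if m % 2 = 0 then c1 else c0
  let sq : ℕ → S.F := fun m => Nat.rec Φ0 (fun l Φ => S.r (col l) Φ) m
  have sqs : ∀ m, sq (m + 1) = S.r (col m) (sq m) := fun _ => rfl
  have xs : ∀ m, S.π (sq (m + 1)) = S.ρ (col m) (S.π (sq m)) := fun m => S.πr _ _
  have xb : ∀ m, S.π (sq m) = S.ρ (col m) (S.π (sq (m + 1))) := fun m => by rw [xs, S.ρinv]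
  have cpar : ∀ a b, a % 2 = b % 2 → col a = col b := fun a b h => by simp only [col, h]
  have calt : ∀ m c, (c = c0 ∨ c = c1) → c = col m ∨ c = col (m + 1) := by
    intro m c hc
    simp only [col]
    rcases Nat.mod_two_eq_zero_or_one m with h | h
    · rw [if_pos h, if_neg (by omega)]; tauto
    · rw [if_neg (by omega), if_pos (by omega)]; tauto
  have c1' : col 1 = c0 := rfl
  let good : ℕ → Prop := fun m => ∀ l, l < m → S.π (sq (l + 1)) ≠ S.π (sq l)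
  have inj : ∀ j, good j → ∀ i, i < j → S.π (sq i) ≠ S.π (sq j) := by
    intro j
    induction j with
    | zero => intro _ i hi; omega
    | succ j ih =>
      intro hj i hi e
      have gj : good j := fun l hl => hj l (by omega)
      have e1 := xb j
      rw [← e] at e1
      by_cases hij : i = j
      · subst hij; exact hj i (by omega) e.symm
      by_cases hp : j % 2 = i % 2
      · rw [cpar j i hp, ← xs] at e1
        exact ih gj (i + 1) (by omega) e1.symm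
      · rcases i with _ | i
        · rw [cpar j 1 (by omega), c1'] at e1
          exact hj j (by omega) (by rw [e1, ← e]; exact h0.symm)
        · rw [cpar j i (by omega), ← xb] at e1
          exact ih gj i (by omega) e1.symm
  refine ⟨{Φ | ∃ m, good m ∧ sq m = Φ}, ⟨0, fun l hl => by omega, rfl⟩, ?_, ?_, ?_, ?_⟩
  · rintro _ ⟨m, hm, rfl⟩ c hc hw
    rcases calt m c hc with rfl | rfl
    · refine ⟨m + 1, fun l hl => ?_, rfl⟩
      rcases Nat.lt_succ_iff_lt_or_eq.1 hl with h | rfl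
      · exact hm l h
      · rwa [xs]
    · rcases m with _ | m
      · exact absurd h0 hw
      · refine ⟨m, fun l hl => hm l (by omega), ?_⟩
        rw [cpar (m + 1 + 1) m (by omega), sqs, S.inv]
  · rintro _ ⟨i, hi, rfl⟩ _ ⟨j, hj, rfl⟩ e
    rcases lt_trichotomy i j with h | rfl | h
    · exact absurd e (inj j hj i h)
    · rfl
    · exact absurd e.symm (inj i hi j h)
  · rintro _ ⟨m, -, rfl⟩
    induction m with
    | zero => exact Conn.refl _
    | succ m ih =>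
      refine ih.step ?_
      simp only [col]; split_ifs <;> simp
  · have key : ∀ m, good m → ∀ c, (c = c0 ∨ c = c1) → S.ρ c (S.π (sq m)) = S.π (sq m) →
        (S.π (sq m) = S.π Φ0 ∧ c = c0) ∨ (c = col m ∧ S.π (sq (m + 1)) = S.π (sq m)) := by
      intro m hm c hc hw
      rcases calt m c hc with rfl | rfl
      · exact Or.inr ⟨rfl, by rwa [xs]⟩
      · rcases m with _ | m
        · exact Or.inl ⟨rfl, rfl⟩
        · rw [cpar (m + 1 + 1) m (by omega), ← xb] at hw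
          exact absurd hw.symm (hm m (by omega))
    by_cases hN : ∃ N, good N ∧ S.π (sq (N + 1)) = S.π (sq N)
    · obtain ⟨N, hN, eN⟩ := hN
      refine ⟨(S.π (sq N), col N), ?_⟩
      rintro _ ⟨m, hm, rfl⟩ c hc hw
      rcases key m hm c hc hw with h | ⟨rfl, h⟩
      · exact Or.inl h
      · rcases lt_trichotomy m N with l | rfl | l
        · exact absurd h (hN m l)
        · exact Or.inr rfl
        · exact absurd eN (hm N l)
    · refine ⟨(S.π Φ0, c0), ?_⟩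
      rintro _ ⟨m, hm, rfl⟩ c hc hw
      rcases key m hm c hc hw with h | ⟨rfl, h⟩
      · exact Or.inl h
      · exact absurd ⟨m, hm, h⟩ hN

/-- points reachable from a point of a lift are covered by the lift -/
theorem cover {D : Set S.F} {s : Set ℕ}
    (hcl : ∀ Φ ∈ D, ∀ c ∈ s, S.ρ c (S.π Φ) ≠ S.π Φ → S.r c Φ ∈ D) {Φ0 : S.F} (h0 : Φ0 ∈ D)
    {y : S.X} (hy : Conn S.ρ s (S.π Φ0) y) : ∃ Φ ∈ D, S.π Φ = y := by
  refine hy.ind (fun y => ∃ Φ ∈ D, S.π Φ = y) ⟨Φ0, h0, rfl⟩ ?_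
  rintro c hc _ ⟨Φ, hΦ, rfl⟩
  by_cases h : S.ρ c (S.π Φ) = S.π Φ
  · exact ⟨Φ, hΦ, h.symm⟩
  · exact ⟨_, hcl Φ hΦ c hc h, S.πr _ _⟩

theorem conn_π {s : Set ℕ} {Φ Ψ : S.F} (h : Conn S.r s Φ Ψ) : Conn S.ρ s (S.π Φ) (S.π Ψ) :=
  h.map S.π fun i hi => ⟨i, hi, S.πr i⟩

theorem two_walls (c0 c1 : ℕ) (y0 : S.X) (h0 : S.ρ c0 y0 = y0) :
    ∃ w : S.X × ℕ, ∀ y c, Conn S.ρ {c0, c1} y0 y → (c = c0 ∨ c = c1) → S.ρ c y = y →
      (y, c) = (y0, c0) ∨ (y, c) = w := by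
  obtain ⟨Φ0, rfl⟩ := S.surj y0
  obtain ⟨D, h1, h2, -, -, w, hw⟩ := S.pathD c0 c1 Φ0 h0
  refine ⟨w, fun y c hy hc hf => ?_⟩
  obtain ⟨Φ, hΦ, rfl⟩ := S.cover (s := {c0, c1}) (fun Φ hΦ c hc => h2 Φ hΦ c (by simpa using hc))
    h1 hy
  rcases hw Φ hΦ c hc hf with ⟨e1, e2⟩ | h
  · exact Or.inl (by rw [e1, e2])
  · exact Or.inr h

end GSys

end Pool.Agent.Lib.MP_7157e1_co
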