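import Pool.Agent.Lib.MP_7157e1_co.G3

/-! The numbers game on a tree lift. -/

namespace Pool.Agent.Lib.MP_7157e1_co
open Function

namespace GSys
variable {n : ℕ} (S : GSys n)

/-- a lift of a tree shaped residue -/
structure Lift (D : Set S.F) : Prop where
  cl : ∀ Φ ∈ D, ∀ c, c < n → S.ρ c (S.π Φ) ≠ S.π Φ → S.r c Φ ∈ D
  inj : Set.InjOn S.π D

/-- admissible tags -/
def Tags (D : Set S.F) (τ : S.X → ℕ → Fin 3) : Prop :=
  ∀ i j, i < n → j < n → i ≠ j → ∀ Φ ∈ D, ∀ Ψ ∈ D, ∀ c, (c = i ∨ c = j) →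
    S.ρ i (S.π Φ) = S.π Φ → S.ρ c (S.π Ψ) = S.π Ψ → Conn S.ρ {i, j} (S.π Φ) (S.π Ψ) →
    τ (S.π Φ) i ≠ 0 →
    (∀ g ∈ S.Γ, g Φ = S.r i Φ → g Ψ = S.r c Ψ → τ (S.π Ψ) c = τ (S.π Φ) i) ∧
      (τ (S.π Ψ) c = 0 ∨ τ (S.π Ψ) c = τ (S.π Φ) i)

theorem NG1 (Φ0 : S.F) {D : Set S.F} (h0 : Φ0 ∈ D) (hL : S.Lift D) (τ : S.X → ℕ → Fin 3)
    (hτ : S.Tags D τ) {N : Type} [Fintype N] [Nonempty N] (Φs : N → S.F) (cs : N → ℕ)
    (gs : N → Equiv.Perm S.F) (hD : ∀ l, Φs l ∈ D) (hc : ∀ l, cs l < n) (hg : ∀ l, gs l ∈ S.Γ)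
    (he : ∀ l, gs l (Φs l) = S.r (cs l) (Φs l))
    (hconn : ∀ l, Conn S.ρ (Set.Iio n) (S.π Φ0) (S.π (Φs l)))
    (δ : N → ℝ) (hδ : ∀ l, 0 < δ l) (B : N → N → ℝ) (hB : ∀ l, B l l = 2)
    (hne : ∀ l m, l ≠ m → τ (S.π (Φs l)) (cs l) ≠ τ (S.π (Φs m)) (cs m) ∨ gs l ≠ gs m)
    (hB2 : ∀ l m, l ≠ m → 0 ≤ B l m ∨ -2 * Real.cos (Real.pi / orderOf (gs l * gs m)) ≤ B l m ∨
      ((τ (S.π (Φs l)) (cs l) ≠ 0 ∧ τ (S.π (Φs m)) (cs m) ≠ 0 ∧
        τ (S.π (Φs l)) (cs l) ≠ τ (S.π (Φs m)) (cs m)) ∧ -2 ≤ B l m))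
    (hsum : ∀ m, ∑ l, δ l * B l m ≤ 0) : False := by
  classical
  have := S.fin
  let _ : Fintype S.Γ := Fintype.ofFinite _
  let σ : S.X → S.F := fun x => if h : ∃ Φ ∈ D, S.π Φ = x then h.choose else Φ0
  have σD : ∀ Φ ∈ D, σ (S.π Φ) = Φ := by
    intro Φ hΦ
    have h : ∃ Ψ ∈ D, S.π Ψ = S.π Φ := ⟨Φ, hΦ, rfl⟩
    simp only [σ, dif_pos h]
    exact hL.inj h.choose_spec.1 hΦ h.choose_spec.2
  let gx : S.X → ℕ → S.Γ := fun x i =>
    if h : ∃ g ∈ S.Γ, g (σ x) = S.r i (σ x) then ⟨h.choose, h.choose_spec.1⟩ else 1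
  have gxD : ∀ Φ ∈ D, ∀ i, S.ρ i (S.π Φ) = S.π Φ → (gx (S.π Φ) i).1 Φ = S.r i Φ := by
    intro Φ hΦ i hw
    have h : ∃ g ∈ S.Γ, g (σ (S.π Φ)) = S.r i (σ (S.π Φ)) := by rw [σD Φ hΦ]; exact S.wall hw
    simp only [gx, dif_pos h]
    have := h.choose_spec.2
    generalize h.choose = g at this ⊢
    rwa [σD Φ hΦ] at this
  let lab : S.X → ℕ → Fin 3 × S.Γ := fun x i => (τ x i, gx x i)
  let A : Fin 3 × S.Γ → Fin 3 × S.Γ → ℝ := fun a b =>
    if a = b then 2 else if a.1 ≠ 0 ∧ b.1 ≠ 0 ∧ a.1 ≠ b.1 then -2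
    else min 0 (-2 * Real.cos (Real.pi / orderOf (a.2.1 * b.2.1)))
  have hA : ∀ a, A a a = 2 := fun a => by simp only [A, if_true]
  let ℓ : S.F → ℕ → Option (Fin 3 × S.Γ) := fun Φ i =>
    if S.ρ i (S.π Φ) = S.π Φ then some (lab (S.π Φ) i) else none
  have cov : ∀ y, Conn S.ρ (Set.Iio n) (S.π Φ0) y → ∃ Φ ∈ D, S.π Φ = y := fun y hy =>
    S.cover (s := Set.Iio n) hL.cl h0 hy
  have labs : ∀ l, lab (S.π (Φs l)) (cs l) = (τ (S.π (Φs l)) (cs l), ⟨gs l, hg l⟩) := by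
    intro l
    have hw : S.ρ (cs l) (S.π (Φs l)) = S.π (Φs l) := by rw [← S.πr, ← he l, S.πg (hg l)]
    refine Prod.ext rfl (Subtype.ext ?_)
    exact S.geq (gx _ _).2 (hg l) ((gxD _ (hD l) _ hw).trans (he l).symm)
  let δ' : Fin 3 × S.Γ → ℝ := fun a => ∑ l, if lab (S.π (Φs l)) (cs l) = a then δ l else 0
  have δl : ∀ a, 0 < δ' a → ∃ l, lab (S.π (Φs l)) (cs l) = a := by
    intro a ha
    by_contra hcon
    push Not at hcon
    simp only [δ', hcon, if_false, Finset.sum_const_zero] at ha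
    exact lt_irrefl _ ha
  have δ0 : ∀ l a, 0 ≤ if lab (S.π (Φs l)) (cs l) = a then δ l else 0 := by
    intro l a; split_ifs
    · exact (hδ l).le
    · exact le_rfl
  refine S.NG0 Φ0 A hA ℓ ?_ ?_ δ' (fun a => Finset.sum_nonneg fun l _ => δ0 l a) ?_ ?_ ?_
  · intro i _ Φ _
    simp only [ℓ, S.πr]
    by_cases h : S.ρ i (S.π Φ) = S.π Φ
    · simp only [h]
    · rw [if_neg h, if_neg]
      rw [S.ρinv]; exact fun e => h e.symm
  · intro i j hij hj Φ hΦ m v hm' hper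
    have hi : i < n := by omega
    have hsub : ({i, j} : Set ℕ) ⊆ Set.Iio n := by
      rintro c (rfl | rfl)
      · exact hi
      · exact hj
    have hx := S.conn_π hΦ
    have tfst : ∀ m (z : S.F × (Fin 3 × S.Γ → ℝ)),
        (((fun z : S.F × (Fin 3 × S.Γ → ℝ) => (S.r i z.1, act A (ℓ z.1 i) z.2)) ∘
        (fun z : S.F × (Fin 3 × S.Γ → ℝ) => (S.r j z.1, act A (ℓ z.1 j) z.2)))^[m] z).1 =
          (S.r i ∘ S.r j)^[m] z.1 := by
      intro m z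
      have : Semiconj Prod.fst
        ((fun z : S.F × (Fin 3 × S.Γ → ℝ) => (S.r i z.1, act A (ℓ z.1 i) z.2)) ∘
        (fun z : S.F × (Fin 3 × S.Γ → ℝ) => (S.r j z.1, act A (ℓ z.1 j) z.2)))
        (S.r i ∘ S.r j) := fun z => rfl
      exact (this.iterate_right m).eq z
    have main : ∀ P : S.F × (Fin 3 × S.Γ → ℝ) → Prop, P (Φ, v) →
        (∀ c, (c = i ∨ c = j) → ∀ z, P z → P (S.r c z.1, act A (ℓ z.1 c) z.2)) →
        P (((fun z : S.F × (Fin 3 × S.Γ → ℝ) => (S.r i z.1, act A (ℓ z.1 i) z.2)) ∘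
        (fun z : S.F × (Fin 3 × S.Γ → ℝ) => (S.r j z.1, act A (ℓ z.1 j) z.2)))^[m] (Φ, v)) := by
      intro P p0 ps
      clear hper hm'
      induction m with
      | zero => exact p0
      | succ m ih =>
        rw [iterate_succ_apply']
        exact ps i (Or.inl rfl) _ (ps j (Or.inr rfl) _ ih)
    have memc : ∀ c, (c = i ∨ c = j) → c ∈ ({i, j} : Set ℕ) := fun c hc => by simpa using hc
    by_cases hw : ∃ y c, Conn S.ρ {i, j} (S.π Φ) y ∧ (c = i ∨ c = j) ∧ S.ρ c y = y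
    swap
    · push Not at hw
      refine (main (fun z => Conn S.ρ {i, j} (S.π Φ) (S.π z.1) ∧ z.2 = v) ⟨Conn.refl _, rfl⟩ ?_).2
      rintro c hc z ⟨h1, h2⟩
      refine ⟨by rw [S.πr]; exact h1.step (memc c hc), ?_⟩
      simp only [ℓ, if_neg (hw _ c h1 hc), act, h2]
    obtain ⟨y0, c0, hy0, hc0, hw0⟩ := hw
    have ρs : ∀ {a b}, Conn S.ρ {i, j} a b → Conn S.ρ {i, j} b a := fun h =>
      h.symm fun c _ => S.ρinv c
    -- the second wall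
    have two : ∃ y1 c1, Conn S.ρ {i, j} (S.π Φ) y1 ∧ (c1 = i ∨ c1 = j) ∧ S.ρ c1 y1 = y1 ∧
        ∀ y c, Conn S.ρ {i, j} (S.π Φ) y → (c = i ∨ c = j) → S.ρ c y = y →
          (y, c) = (y0, c0) ∨ (y, c) = (y1, c1) := by
      have : ∃ w : S.X × ℕ, ∀ y c, Conn S.ρ {i, j} (S.π Φ) y → (c = i ∨ c = j) → S.ρ c y = y →
          (y, c) = (y0, c0) ∨ (y, c) = w := by
        rcases hc0 with rfl | rfl
        · obtain ⟨w, h⟩ := S.two_walls c0 j y0 hw0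
          exact ⟨w, fun y c hy hc => h y c ((ρs hy0).trans hy) hc⟩
        · obtain ⟨w, h⟩ := S.two_walls c0 i y0 hw0
          rw [Set.pair_comm] at h
          exact ⟨w, fun y c hy hc => h y c ((ρs hy0).trans hy) hc.symm⟩
      obtain ⟨w, h⟩ := this
      by_cases hh : Conn S.ρ {i, j} (S.π Φ) w.1 ∧ (w.2 = i ∨ w.2 = j) ∧ S.ρ w.2 w.1 = w.1
      · exact ⟨w.1, w.2, hh.1, hh.2.1, hh.2.2, h⟩
      · refine ⟨y0, c0, hy0, hc0, hw0, fun y c hy hc hf => ?_⟩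
        rcases h y c hy hc hf with e | e
        · exact Or.inl e
        · subst e; exact absurd ⟨hy, hc, hf⟩ hh
    obtain ⟨y1, c1, hy1, hc1, hw1, htwo⟩ := two
    have covr : ∀ y, Conn S.ρ {i, j} (S.π Φ) y → ∃ Ψ ∈ D, S.π Ψ = y := fun y hy =>
      cov y (hx.trans (hy.mono hsub))
    obtain ⟨Ψ0, hΨ0, rfl⟩ := covr y0 hy0
    obtain ⟨Ψ1, hΨ1, rfl⟩ := covr y1 hy1
    have lt : ∀ c, (c = i ∨ c = j) → c < n := fun c hc => hsub (memc c hc)
    let fp : Fin 3 × S.Γ → Equiv.Perm (Fin 3 × S.Γ → ℝ) := fun a =>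
      Involutive.toPerm (fire A a) (fire_fire A (hA a))
    have fp2 : ∀ a, fp a * fp a = 1 := fun a => Equiv.ext fun u => fire_fire A (hA a) u
    set la := lab (S.π Ψ0) c0 with hla
    set lb := lab (S.π Ψ1) c1 with hlb
    have ea := gxD Ψ0 hΨ0 c0 hw0
    have eb := gxD Ψ1 hΨ1 c1 hw1
    have sa : la.2.1 * la.2.1 = 1 := S.gsq la.2.2 ea
    have sb : lb.2.1 * lb.2.1 = 1 := S.gsq lb.2.2 eb
    have hdih : ∀ q : ℕ, (la.2.1 * lb.2.1) ^ q = 1 → (fp la * fp lb) ^ q = 1 := by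
      intro q hq
      by_cases e : la = lb
      · rw [← e, fp2, one_pow]
      have T1 : ∀ Ψ Ψ' c c', Ψ ∈ D → Ψ' ∈ D → (c = i ∨ c = j) → (c' = i ∨ c' = j) →
          S.ρ c (S.π Ψ) = S.π Ψ → S.ρ c' (S.π Ψ') = S.π Ψ' → Conn S.ρ {i, j} (S.π Ψ) (S.π Ψ') →
          τ (S.π Ψ) c ≠ 0 →
          (∀ g ∈ S.Γ, g Ψ = S.r c Ψ → g Ψ' = S.r c' Ψ' → τ (S.π Ψ') c' = τ (S.π Ψ) c) ∧
            (τ (S.π Ψ') c' = 0 ∨ τ (S.π Ψ') c' = τ (S.π Ψ) c) := by
        intro Ψ Ψ' c c' h1 h2 h3 h4 h5 h6 h7 h8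
        rcases h3 with rfl | rfl
        · exact hτ c j hi hj (by omega) Ψ h1 Ψ' h2 c' h4 h5 h6 h7 h8
        · rw [Set.pair_comm] at h7
          exact hτ c i hj hi (by omega) Ψ h1 Ψ' h2 c' h4.symm h5 h6 h7 h8
      have t1 := T1 Ψ0 Ψ1 c0 c1 hΨ0 hΨ1 hc0 hc1 hw0 hw1 ((ρs hy0).trans hy1)
      have t2 := T1 Ψ1 Ψ0 c1 c0 hΨ1 hΨ0 hc1 hc0 hw1 hw0 ((ρs hy1).trans hy0)
      have hU : ¬ (la.1 ≠ 0 ∧ lb.1 ≠ 0 ∧ la.1 ≠ lb.1) := by
        rintro ⟨u1, u2, u3⟩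
        rcases (t1 u1).2 with h | h
        · exact u2 h
        · exact u3 h.symm
      have hgne : la.2.1 ≠ lb.2.1 := by
        intro eg
        apply e
        refine Prod.ext ?_ (Subtype.ext eg)
        by_cases u1 : la.1 = 0
        · by_cases u2 : lb.1 = 0
          · rw [u1, u2]
          · exact (t2 u2).1 _ lb.2.2 eb (by rw [← eg]; exact ea)
        · exact ((t1 u1).1 _ la.2.2 ea (by rw [eg]; exact eb)).symm
      have ho : 2 ≤ orderOf (la.2.1 * lb.2.1) := by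
        have h1 : 0 < orderOf (la.2.1 * lb.2.1) := orderOf_pos _
        have h2 : orderOf (la.2.1 * lb.2.1) ≠ 1 := by
          rw [Ne, orderOf_eq_one_iff]
          intro h
          apply hgne
          rw [← mul_one la.2.1, ← sb, ← mul_assoc, h, one_mul]
        omega
      have A1 : A la lb = -2 * Real.cos (Real.pi / orderOf (la.2.1 * lb.2.1)) := by
        simp only [A, if_neg e, if_neg hU]
        exact min_eq_right (cos2 ho)
      have A2 : A lb la = -2 * Real.cos (Real.pi / orderOf (la.2.1 * lb.2.1)) := by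
        have hU' : ¬ (lb.1 ≠ 0 ∧ la.1 ≠ 0 ∧ lb.1 ≠ la.1) := fun h => hU ⟨h.2.1, h.1, h.2.2.symm⟩
        simp only [A, if_neg (Ne.symm e), if_neg hU']
        rw [S.ord_comm]
        exact min_eq_right (cos2 ho)
      refine Equiv.ext fun u => ?_
      rw [Equiv.Perm.coe_pow]
      exact iter_dvd (fire_pow A e (hA _) (hA _) ho A1 A2 u) (orderOf_dvd_of_pow_eq_one hq)
    obtain ⟨Φ', hΦ', eΦ'⟩ := covr _ (Conn.refl _)
    obtain ⟨γ, hγ, eγ⟩ := (S.fib _ _).1 eΦ'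
    have fin := main (fun z => Conn S.ρ {i, j} (S.π Φ) (S.π z.1) ∧
      ∃ h ∈ S.Γ, ∃ T, NF (la.2.1, fp la) (lb.2.1, fp lb) (h, T) ∧
        z.1 = γ (h (σ (S.π z.1))) ∧ T z.2 = v)
      ⟨Conn.refl _, 1, S.Γ.one_mem, 1, NF.one _ _, by
        simp only [Equiv.Perm.coe_one, id]; rw [← eΦ', σD Φ' hΦ', eγ], rfl⟩ (by
      rintro c hc z ⟨h1, h, hh, T, hN, e1, e2⟩
      refine ⟨by rw [S.πr]; exact h1.step (memc c hc), ?_⟩
      obtain ⟨Ψ, hΨ, eΨ⟩ := covr _ h1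
      by_cases hw : S.ρ c (S.π z.1) = S.π z.1
      · refine ⟨h * (gx (S.π z.1) c).1, S.Γ.mul_mem hh (gx _ _).2, T * fp (lab (S.π z.1) c), ?_, ?_,
          ?_⟩
        · rcases htwo _ c h1 hc hw with e | e
          · obtain ⟨e3, e4⟩ := Prod.ext_iff.1 e
            simp only at e3 e4
            rw [e3, e4]
            exact hN.mul_c (Prod.ext sa (fp2 _))
          · obtain ⟨e3, e4⟩ := Prod.ext_iff.1 e
            simp only at e3 e4
            rw [e3, e4]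
            exact hN.mul_d (Prod.ext sb (fp2 _))
        · simp only [S.πr, hw, Equiv.Perm.coe_mul, comp_apply]
          rw [← eΨ, σD Ψ hΨ, gxD Ψ hΨ c (by rw [eΨ]; exact hw), S.gc h hh, S.gc γ hγ]
          rw [← eΨ, σD Ψ hΨ] at e1
          rw [← e1]
        · simp only [ℓ, if_pos hw, act, Equiv.Perm.coe_mul, comp_apply]
          rw [← e2]
          congr 1
          exact fire_fire A (hA _) _
      · refine ⟨h, hh, T, hN, ?_, ?_⟩
        · simp only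
          rw [S.πr, ← eΨ, ← S.πr, σD _ (hL.cl Ψ hΨ c (lt c hc) (by rw [eΨ]; exact hw)),
            S.gc h hh, S.gc γ hγ]
          rw [← eΨ, σD Ψ hΨ] at e1
          rw [← e1]
        · simp only [ℓ, if_neg hw, act, e2])
    obtain ⟨-, h, hh, T, hN, e1, e2⟩ := fin
    rw [tfst, hper, ← eΦ', σD Φ' hΦ', ← eγ] at e1
    have h1 : h = 1 := S.free h hh Φ' (γ.injective e1).symm
    subst h1
    have := NF.fin sa sb (S.gne (lt c0 hc0) ea) (S.gne (lt c1 hc1) eb) hdih hN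
    subst this
    exact e2
  · obtain ⟨l⟩ := ‹Nonempty N›
    refine ⟨lab (S.π (Φs l)) (cs l), Finset.sum_pos' (fun l _ => δ0 l _) ⟨l, Finset.mem_univ _, ?_⟩⟩
    rw [if_pos rfl]; exact hδ l
  · intro a ha
    obtain ⟨m, rfl⟩ := δl a ha
    simp only [δ', Finset.sum_mul]
    rw [Finset.sum_comm]
    refine le_trans (Finset.sum_le_sum fun l _ => ?_) (hsum m)
    simp only [ite_mul, zero_mul, Finset.sum_ite_eq, Finset.mem_univ, if_true]
    refine mul_le_mul_of_nonneg_left ?_ (hδ l).le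
    by_cases e : l = m
    · subst e; rw [hA, hB]
    have hne' : lab (S.π (Φs l)) (cs l) ≠ lab (S.π (Φs m)) (cs m) := by
      rw [labs, labs]
      intro h
      obtain ⟨e1, e2⟩ := Prod.ext_iff.1 h
      rcases hne l m e with h | h
      · exact h e1
      · exact h (congrArg Subtype.val e2)
    simp only [A, if_neg hne']
    rw [labs, labs]
    have cm := Real.cos_le_one (Real.pi / orderOf (gs l * gs m))
    split_ifs with hU
    · rcases hB2 l m e with h | h | h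
      · linarith
      · linarith
      · exact h.2
    · rcases hB2 l m e with h | h | h
      · exact (min_le_left _ _).trans h
      · exact (min_le_right _ _).trans h
      · exact absurd h.1 hU
  · intro a ha Φ hΦ
    obtain ⟨l, rfl⟩ := δl a ha
    have hc' := ((S.conn_π hΦ).symm fun c _ => S.ρinv c).trans (hconn l)
    have : ∃ Ψ, Relation.ReflTransGen (fun a b => ∃ j, j < n ∧ ℓ a j = none ∧ S.r j a = b) Φ Ψ ∧
        S.π Ψ = S.π (Φs l) := by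
      refine hc'.ind (fun y => ∃ Ψ, Relation.ReflTransGen
        (fun a b => ∃ j, j < n ∧ ℓ a j = none ∧ S.r j a = b) Φ Ψ ∧ S.π Ψ = y)
        ⟨Φ, Relation.ReflTransGen.refl, rfl⟩ ?_
      rintro c hc _ ⟨Ψ, h1, rfl⟩
      by_cases hw : S.ρ c (S.π Ψ) = S.π Ψ
      · exact ⟨Ψ, h1, hw.symm⟩
      · exact ⟨_, h1.tail ⟨c, hc, by simp only [ℓ, if_neg hw], rfl⟩, S.πr _ _⟩
    obtain ⟨Ψ, h1, h2⟩ := this
    refine ⟨Ψ, cs l, hc l, h1, ?_⟩
    have hw : S.ρ (cs l) (S.π (Φs l)) = S.π (Φs l) := by rw [← S.πr, ← he l, S.πg (hg l)]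
    simp only [ℓ, h2, if_pos hw]

end GSys

end Pool.Agent.Lib.MP_7157e1_co
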