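import Pool.Agent.Lib.MP_7157e1_co.G4

/-! Local obstructions: affine diagrams. -/

namespace Pool.Agent.Lib.MP_7157e1_co
open Function

namespace GSys
section
variable {n : ℕ} (S : GSys n)

theorem tags0 (D : Set S.F) : S.Tags D (fun _ _ => 0) :=
  fun _ _ _ _ _ _ _ _ _ _ _ _ _ _ h => absurd rfl h

theorem gne2 {g h : Equiv.Perm S.F} {i j : ℕ} (hi : i < n) (hj : j < n) (hij : i ≠ j) {Φ : S.F}
    (e1 : g Φ = S.r i Φ) (e2 : h Φ = S.r j Φ) : g ≠ h := by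
  rintro rfl
  exact S.ne2 i j hi hj hij Φ (e1.symm.trans e2)

theorem ord3 {g h : Equiv.Perm S.F} (hg : g ∈ S.Γ) (hh : h ∈ S.Γ) {i : ℕ} (hi : i + 1 < n)
    {Φ : S.F} (e1 : g Φ = S.r i Φ) (e2 : h Φ = S.r (i + 1) Φ) : 3 ≤ orderOf (g * h) := by
  rw [S.ord0 hg hh e1 e2]; exact S.p_ge hi Φ

theorem A1 (Φ0 : S.F) {D : Set S.F} (h0 : Φ0 ∈ D) (hL : S.Lift D) (τ : S.X → ℕ → Fin 3)
    (hτ : S.Tags D τ) {Ψ : S.F} (hΨ : Ψ ∈ D) {c c' : ℕ} (hc : c < n) (hc' : c' < n)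
    (w : S.ρ c (S.π Φ0) = S.π Φ0) (w' : S.ρ c' (S.π Ψ) = S.π Ψ)
    (hconn : Conn S.ρ (Set.Iio n) (S.π Φ0) (S.π Ψ)) (t1 : τ (S.π Φ0) c = 1)
    (t2 : τ (S.π Ψ) c' = 2) : False := by
  obtain ⟨g, hg, eg⟩ := S.wall w
  obtain ⟨g', hg', eg'⟩ := S.wall w'
  refine S.NG1 Φ0 h0 hL τ hτ (N := Fin 2) ![Φ0, Ψ] ![c, c'] ![g, g'] ?_ ?_ ?_ ?_ ?_ (fun _ => 1)
    (fun _ => one_pos) ![![2, -2], ![-2, 2]] ?_ ?_ ?_ ?_
  · intro l; fin_cases l <;> assumption
  · intro l; fin_cases l <;> assumption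
  · intro l; fin_cases l <;> assumption
  · intro l; fin_cases l <;> assumption
  · intro l; fin_cases l
    · exact Conn.refl _
    · exact hconn
  · intro l; fin_cases l <;> rfl
  · intro l m h
    fin_cases l <;> fin_cases m <;> simp_all
  · intro l m h
    fin_cases l <;> fin_cases m <;> simp_all
  · intro m; fin_cases m <;> simp [Fin.sum_univ_two]

theorem E8 {D : Set S.F} (hL : S.Lift D) (τ : S.X → ℕ → Fin 3)
    (hτ : S.Tags D τ) {Ψ Θ : S.F} (hΨ : Ψ ∈ D) (hΘ : Θ ∈ D) {j c : ℕ} (hj : j + 8 ≤ n)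
    (hc : c < n) (hw : ∀ l, l < 8 → S.ρ (j + l) (S.π Ψ) = S.π Ψ) (t0 : ∀ l, τ (S.π Ψ) l = 0)
    (t1 : τ (S.π Θ) c ≠ 0) (hconn : Conn S.ρ (Set.Iio n) (S.π Ψ) (S.π Θ))
    {g h : Equiv.Perm S.F} (hg : g ∈ S.Γ) (hh : h ∈ S.Γ) (eg : g Θ = S.r c Θ)
    (eh : h Ψ = S.r (j + 2) Ψ) (ho : 3 ≤ orderOf (g * h)) : False := by
  have : ∀ l, ∃ G ∈ S.Γ, l < 8 → G Ψ = S.r (j + l) Ψ := by
    intro l
    by_cases hl : l < 8
    · obtain ⟨G, h1, h2⟩ := S.wall (hw l hl)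
      exact ⟨G, h1, fun _ => h2⟩
    · exact ⟨1, S.Γ.one_mem, fun h => absurd h hl⟩
  choose G hG eG using this
  have e2 : G 2 = h := S.geq (hG 2) hh ((eG 2 (by norm_num)).trans eh.symm)
  let B : Fin 9 → Fin 9 → ℝ := fun l m => if l = m then 2 else
    if (l.1 + 1 = m.1 ∧ m.1 < 8) ∨ (m.1 + 1 = l.1 ∧ l.1 < 8) ∨ (l.1 = 2 ∧ m.1 = 8) ∨
      (l.1 = 8 ∧ m.1 = 2) then -1 else 0
  refine S.NG1 Ψ hΨ hL τ hτ (N := Fin 9) (fun l => if l.1 < 8 then Ψ else Θ)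
    (fun l => if l.1 < 8 then j + l else c) (fun l => if l.1 < 8 then G l else g) ?_ ?_ ?_ ?_ ?_
    ![2, 4, 6, 5, 4, 3, 2, 1, 3] ?_ B (fun l => by simp [B]) ?_ ?_ ?_
  · intro l; split_ifs <;> assumption
  · intro l; split_ifs <;> omega
  · intro l; split_ifs
    · exact hG _
    · exact hg
  · intro l; split_ifs with h
    · exact eG _ h
    · exact eg
  · intro l; split_ifs
    · exact Conn.refl _
    · exact hconn
  · intro l; fin_cases l <;> simp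
  · intro l m hlm
    have : l.1 ≠ m.1 := fun e => hlm (Fin.ext e)
    split_ifs with h1 h2 h2
    · exact Or.inr (S.gne2 (by omega) (by omega) (by omega) (eG _ h1) (eG _ h2))
    · left; rw [t0]; exact t1.symm
    · left; rw [t0]; exact t1
    · omega
  · intro l m hlm
    simp only [B, if_neg hlm]
    by_cases hadj : (l.1 + 1 = m.1 ∧ m.1 < 8) ∨ (m.1 + 1 = l.1 ∧ l.1 < 8) ∨ (l.1 = 2 ∧ m.1 = 8) ∨
      (l.1 = 8 ∧ m.1 = 2)
    · rw [if_pos hadj]
      refine Or.inr (Or.inl (cos3 ?_))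
      rcases hadj with ⟨h1, h2⟩ | ⟨h1, h2⟩ | ⟨h1, h2⟩ | ⟨h1, h2⟩
      · rw [if_pos (by omega), if_pos h2]
        refine S.ord3 (hG _) (hG _) (by omega) (eG _ (by omega)) ?_
        rw [eG _ h2, ← h1, add_assoc]
      · rw [if_pos h2, if_pos (by omega), S.ord_comm]
        refine S.ord3 (hG _) (hG _) (by omega) (eG _ (by omega)) ?_
        rw [eG _ h2, ← h1, add_assoc]
      · rw [if_pos (by omega), if_neg (by omega), h1, e2, S.ord_comm]; exact ho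
      · rw [if_neg (by omega), if_pos (by omega), h2, e2]; exact ho
    · rw [if_neg hadj]; exact Or.inl le_rfl
  · intro m
    fin_cases m <;> simp [Fin.sum_univ_succ, B] <;> norm_num

/-- a residue which is a path -/
structure IsPath (a e : ℕ) (Φ : ℕ → S.F) : Prop where
  en : e ≤ n
  nx : ∀ i, a ≤ i → i < e → Φ (i + 1) = S.r i (Φ i)
  mv : ∀ i, a ≤ i → i < e → S.ρ i (S.π (Φ i)) ≠ S.π (Φ i)
  fx : ∀ j c, a ≤ j → j ≤ e → c < n → (c = j → j = e) → (c + 1 = j → j = a) →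
    S.ρ c (S.π (Φ j)) = S.π (Φ j)

variable {S}
namespace IsPath
variable {a e : ℕ} {Φ : ℕ → S.F} (h : S.IsPath a e Φ)
include h

theorem nx' {i : ℕ} (h1 : a ≤ i) (h2 : i < e) : S.r i (Φ (i + 1)) = Φ i := by
  rw [h.nx i h1 h2, S.inv]

theorem ρnx {i : ℕ} (h1 : a ≤ i) (h2 : i < e) : S.ρ i (S.π (Φ i)) = S.π (Φ (i + 1)) := by
  rw [h.nx i h1 h2, S.πr]

theorem ρnx' {i : ℕ} (h1 : a ≤ i) (h2 : i < e) : S.ρ i (S.π (Φ (i + 1))) = S.π (Φ i) := by
  rw [← S.πr, h.nx' h1 h2]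

theorem inj {i j : ℕ} (h1 : a ≤ i) (h2 : i ≤ e) (h3 : a ≤ j) (h4 : j ≤ e)
    (E : S.π (Φ i) = S.π (Φ j)) : i = j := by
  have en := h.en
  wlog hij : i < j generalizing i j
  · by_contra hne
    exact hne (this h3 h4 h1 h2 E.symm (by omega)).symm
  exfalso
  apply h.mv i h1 (by omega)
  by_cases e1 : j = i + 1
  · subst e1; rw [h.ρnx h1 (by omega), E]
  · rw [E]; exact h.fx j i h3 h4 (by omega) (by omega) (by omega)

theorem wl {u c : ℕ} (h1 : a ≤ u) (h2 : u ≤ e) (w : S.ρ c (S.π (Φ u)) = S.π (Φ u)) :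
    (c = u → u = e) ∧ (c + 1 = u → u = a) := by
  constructor
  · rintro rfl
    by_contra hne
    exact h.mv c h1 (by omega) w
  · rintro rfl
    by_contra hne
    rw [h.ρnx' (by omega) (by omega)] at w
    have := h.inj (by omega) (by omega) h1 h2 w
    omega

theorem lift : S.Lift (Φ '' Set.Icc a e) := by
  constructor
  · rintro _ ⟨u, ⟨h1, h2⟩, rfl⟩ c hc hw
    by_cases e1 : c = u ∧ u ≠ e
    · obtain ⟨rfl, e1⟩ := e1
      exact ⟨c + 1, ⟨by omega, by omega⟩, h.nx c h1 (by omega)⟩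
    by_cases e2 : c + 1 = u ∧ u ≠ a
    · obtain ⟨rfl, e2⟩ := e2
      exact ⟨c, ⟨by omega, by omega⟩, (h.nx' (by omega) (by omega)).symm⟩
    exact absurd (h.fx u c h1 h2 hc (by tauto) (by tauto)) hw
  · rintro _ ⟨u, ⟨h1, h2⟩, rfl⟩ _ ⟨v, ⟨h3, h4⟩, rfl⟩ E
    rw [h.inj h1 h2 h3 h4 E]

theorem conn {u v : ℕ} (h1 : a ≤ u) (h2 : u ≤ v) (h3 : v ≤ e) :
    Conn S.ρ (Set.Iio n) (S.π (Φ u)) (S.π (Φ v)) := by
  have en := h.en
  induction v, h2 using Nat.le_induction with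
  | base => exact Conn.refl _
  | succ v hv ih =>
    rw [← h.ρnx (by omega) (by omega)]
    exact (ih (by omega)).step (by simp only [Set.mem_Iio]; omega)

theorem btw {s : Set ℕ} (hs : ∀ c ∈ s, c < n) {u v : ℕ} (h1 : a ≤ u) (h2 : u ≤ e) (h3 : a ≤ v)
    (h4 : v ≤ e) (hc : Conn S.ρ s (S.π (Φ u)) (S.π (Φ v))) (c : ℕ)
    (hb : (u ≤ c ∧ c < v) ∨ (v ≤ c ∧ c < u)) : c ∈ s := by
  by_contra hcs
  have : ∃ w, a ≤ w ∧ w ≤ e ∧ (w ≤ c ↔ u ≤ c) ∧ S.π (Φ w) = S.π (Φ v) := by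
    refine hc.ind (fun y => ∃ w, a ≤ w ∧ w ≤ e ∧ (w ≤ c ↔ u ≤ c) ∧ S.π (Φ w) = y)
      ⟨u, h1, h2, Iff.rfl, rfl⟩ ?_
    rintro i hi _ ⟨w, w1, w2, w3, rfl⟩
    have hic : i ≠ c := fun e => hcs (e ▸ hi)
    by_cases e1 : i = w ∧ w ≠ e
    · obtain ⟨rfl, e1⟩ := e1
      exact ⟨i + 1, by omega, by omega, by omega, (h.ρnx w1 (by omega)).symm⟩
    by_cases e2 : i + 1 = w ∧ w ≠ a
    · obtain ⟨rfl, e2⟩ := e2
      exact ⟨i, by omega, by omega, by omega, (h.ρnx' (by omega) (by omega)).symm⟩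
    exact ⟨w, w1, w2, w3, (h.fx w i w1 w2 (hs i hi) (by tauto) (by tauto)).symm⟩
  obtain ⟨w, w1, w2, w3, w4⟩ := this
  have := h.inj w1 w2 h3 h4 w4
  omega

theorem trans {g : Equiv.Perm S.F} (hg : g ∈ S.Γ) {c u v : ℕ} (hc : c < n) (h1 : a ≤ u)
    (h2 : u ≤ v) (h3 : v ≤ e) (hcm : v + 1 ≤ c ∨ c + 2 ≤ u) :
    g (Φ u) = S.r c (Φ u) ↔ g (Φ v) = S.r c (Φ v) := by
  have en := h.en
  induction v, h2 using Nat.le_induction with
  | base => rfl
  | succ v hv ih =>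
    refine (ih (by omega) (by omega)).trans ?_
    constructor
    · intro E
      rw [h.nx v (by omega) (by omega)]
      exact S.tr hg hc (by omega) (by omega) E
    · intro E
      rw [← h.nx' (i := v) (by omega) (by omega)]
      exact S.tr hg hc (by omega) (by omega) E

theorem tags (T : ℕ → ℕ → Fin 3)
    (hT : ∀ i j u v c, i < n → j < n → i ≠ j → a ≤ u → u ≤ e → a ≤ v → v ≤ e → (c = i ∨ c = j) →
      (i = u → u = e) → (i + 1 = u → u = a) → (c = v → v = e) → (c + 1 = v → v = a) →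
      (∀ b, (u ≤ b ∧ b < v) ∨ (v ≤ b ∧ b < u) → b = i ∨ b = j) → T u i ≠ 0 →
      (∀ g ∈ S.Γ, g (Φ u) = S.r i (Φ u) → g (Φ v) = S.r c (Φ v) → T v c = T u i) ∧
        (T v c = 0 ∨ T v c = T u i)) :
    ∃ τ, S.Tags (Φ '' Set.Icc a e) τ ∧ ∀ u, a ≤ u → u ≤ e → τ (S.π (Φ u)) = T u := by
  classical
  let idx : S.X → ℕ := fun x => if h : ∃ u, a ≤ u ∧ u ≤ e ∧ S.π (Φ u) = x then h.choose else 0
  have hidx : ∀ u, a ≤ u → u ≤ e → idx (S.π (Φ u)) = u := by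
    intro u h1 h2
    have hh : ∃ v, a ≤ v ∧ v ≤ e ∧ S.π (Φ v) = S.π (Φ u) := ⟨u, h1, h2, rfl⟩
    simp only [idx, dif_pos hh]
    exact h.inj hh.choose_spec.1 hh.choose_spec.2.1 h1 h2 hh.choose_spec.2.2
  refine ⟨fun x => T (idx x), ?_, fun u h1 h2 => by simp only [hidx u h1 h2]⟩
  rintro i j hi hj hij _ ⟨u, ⟨u1, u2⟩, rfl⟩ _ ⟨v, ⟨v1, v2⟩, rfl⟩ c hc w1 w2 hcn
  simp only [hidx u u1 u2, hidx v v1 v2]
  refine hT i j u v c hi hj hij u1 u2 v1 v2 hc (h.wl u1 u2 w1).1 (h.wl u1 u2 w1).2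
    (h.wl v1 v2 w2).1 (h.wl v1 v2 w2).2 fun b hb => ?_
  have := h.btw (s := {i, j}) (by rintro c (rfl | rfl) <;> assumption) u1 u2 v1 v2 hcn b hb
  simpa using this

end IsPath
end

theorem fork (S : GSys 4) (Φ : S.F) (h0 : S.ρ 0 (S.π Φ) ≠ S.π Φ)
    (h1 : ∀ c, 1 ≤ c → c < 4 → S.ρ c (S.π Φ) = S.π Φ)
    (h2 : S.ρ 1 (S.ρ 0 (S.π Φ)) = S.ρ 0 (S.π Φ)) : S.p 0 Φ = 4 ∧ S.p 1 Φ = 3 := by
  have h3 : ∀ c, 1 ≤ c → c < 4 → S.ρ c (S.π (S.r 0 Φ)) = S.π (S.r 0 Φ) := by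
    intro c c1 c2
    rw [S.πr]
    by_cases e : c = 1
    · rw [e, h2]
    · exact S.fix_comm c2 (by norm_num) (by omega) (h1 c c1 c2)
  have hL : S.Lift {Φ, S.r 0 Φ} := by
    constructor
    · rintro Ψ (rfl | rfl) c hc hw
      · have : c = 0 := by by_contra e; exact hw (h1 c (by omega) hc)
        subst this; simp
      · have : c = 0 := by by_contra e; exact hw (h3 c (by omega) hc)
        subst this; rw [S.inv]; simp
    · rintro Ψ (rfl | rfl) Ψ' (rfl | rfl) E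
      · rfl
      · rw [S.πr] at E; exact absurd E.symm h0
      · rw [S.πr] at E; exact absurd E h0
      · rfl
  obtain ⟨b, hb, eb⟩ := S.wall (h1 1 le_rfl (by norm_num))
  obtain ⟨b', hb', eb'⟩ := S.wall (h3 1 le_rfl (by norm_num))
  obtain ⟨g2, hg2, e2⟩ := S.wall (h1 2 (by norm_num) (by norm_num))
  obtain ⟨g3, hg3, e3⟩ := S.wall (h1 3 (by norm_num) (by norm_num))
  have e2' := S.tr hg2 (by norm_num) (j := 0) (by norm_num) (by norm_num) e2
  have e3' := S.tr hg3 (by norm_num) (j := 0) (by norm_num) (by norm_num) e3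
  have n1 : b ≠ b' := by
    rintro rfl
    exact S.ne1 hb (i := 0) (j := 1) (by norm_num) (by norm_num) (by norm_num) eb eb'
  have n2 : b ≠ g2 := S.gne2 (by norm_num) (by norm_num) (by norm_num) eb e2
  have n3 : b ≠ g3 := S.gne2 (by norm_num) (by norm_num) (by norm_num) eb e3
  have n4 : b' ≠ g2 := S.gne2 (by norm_num) (by norm_num) (by norm_num) eb' e2'
  have n5 : b' ≠ g3 := S.gne2 (by norm_num) (by norm_num) (by norm_num) eb' e3'
  have n6 : g2 ≠ g3 := S.gne2 (by norm_num) (by norm_num) (by norm_num) e2 e3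
  have o1 := S.ord3 hb hg2 (by norm_num) eb e2
  have o2 := S.ord3 hb' hg2 (by norm_num) eb' e2'
  have o3 := S.ord3 hg2 hg3 (by norm_num) e2 e3
  have c1 := cos3 o1
  have c2 := cos3 o2
  have c3 := cos3 o3
  have c1' := cos3 (S.ord_comm _ _ ▸ o1)
  have c2' := cos3 (S.ord_comm _ _ ▸ o2)
  have c3' := cos3 (S.ord_comm _ _ ▸ o3)
  have cn : Conn S.ρ (Set.Iio 4) (S.π Φ) (S.π (S.r 0 Φ)) := by
    rw [S.πr]; exact (Conn.refl _).step (by simp)
  constructor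
  · have ho : orderOf (b * b') ≤ 2 := by
      by_contra ho
      have c0 := cos3 (m := orderOf (b * b')) (by omega)
      have c0' := cos3 (m := orderOf (b' * b)) (by rw [S.ord_comm]; omega)
      refine S.NG1 Φ (by simp) hL _ (S.tags0 _) (N := Fin 3) ![Φ, S.r 0 Φ, Φ] ![1, 1, 2]
        ![b, b', g2] ?_ ?_ ?_ ?_ ?_ (fun _ => 1) (fun _ => one_pos)
        ![![2, -1, -1], ![-1, 2, -1], ![-1, -1, 2]] ?_ ?_ ?_ ?_
      · intro l; fin_cases l <;> simp
      · intro l; fin_cases l <;> simp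
      · intro l; fin_cases l <;> assumption
      · intro l; fin_cases l <;> assumption
      · intro l; fin_cases l <;> first | exact Conn.refl _ | exact cn
      · intro l; fin_cases l <;> rfl
      · intro l m h
        right
        fin_cases l <;> fin_cases m <;> first | exact absurd rfl h | assumption | (symm; assumption)
      · intro l m h
        right; left
        fin_cases l <;> fin_cases m <;> first | exact absurd rfl h | assumption
      · intro m; fin_cases m <;> simp [Fin.sum_univ_three] <;> norm_num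
    have := S.fin
    have hp : 0 < orderOf (b * b') := orderOf_pos _
    have hd : S.p 0 Φ ∣ 2 * 2 := by
      rw [← S.p_dvd]
      have := S.iter1 hb hb' eb eb' 2
      rw [zero_add, this, S.pow_eq_one_iff (S.Γ.mul_mem hb hb')]
      interval_cases orderOf (b * b') <;> norm_num
    have h3 := S.p_ge (i := 0) (by norm_num) Φ
    have h4 := Nat.le_of_dvd (by norm_num) hd
    interval_cases S.p 0 Φ
    · norm_num at hd
    · rfl
  · by_contra hne
    have o4 : 4 ≤ orderOf (b * g2) := by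
      have := S.ord0 hb hg2 eb e2
      omega
    have c4 := cos4 o4
    have c4' := cos4 (S.ord_comm _ _ ▸ o4)
    have s2 : √2 * √2 = (2 : ℝ) := Real.mul_self_sqrt (by norm_num)
    refine S.NG1 Φ (by simp) hL _ (S.tags0 _) (N := Fin 4) ![Φ, S.r 0 Φ, Φ, Φ] ![1, 1, 2, 3]
      ![b, b', g2, g3] ?_ ?_ ?_ ?_ ?_ ![√2, 1, 2, 1] ?_
      ![![2, 0, -√2, 0], ![0, 2, -1, 0], ![-√2, -1, 2, -1], ![0, 0, -1, 2]] ?_ ?_ ?_ ?_
    · intro l; fin_cases l <;> simp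
    · intro l; fin_cases l <;> simp
    · intro l; fin_cases l <;> assumption
    · intro l; fin_cases l <;> assumption
    · intro l; fin_cases l <;> first | exact Conn.refl _ | exact cn
    · intro l; fin_cases l <;> simp
    · intro l; fin_cases l <;> rfl
    · intro l m h
      right
      fin_cases l <;> fin_cases m <;> first | exact absurd rfl h | assumption | (symm; assumption)
    · intro l m h
      fin_cases l <;> fin_cases m <;>
        first | exact absurd rfl h | exact Or.inl le_rfl | (right; left; assumption)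
    · intro m; fin_cases m <;> simp [Fin.sum_univ_four] <;> nlinarith

end GSys

end Pool.Agent.Lib.MP_7157e1_co
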