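import Pool.Agent.Lib.MP_7157e1_co.G5

/-! Local obstructions: paths, Gosset type residues. -/

namespace Pool.Agent.Lib.MP_7157e1_co
open Function

namespace GSys

theorem Q3 (S : GSys 3) {Φ : ℕ → S.F} (h : S.IsPath 0 3 Φ)
    (n1 : ∀ g ∈ S.Γ, g (Φ 3) = S.r 0 (Φ 3) → g (Φ 0) = S.r 1 (Φ 0) → False)
    (n2 : ∀ g ∈ S.Γ, g (Φ 3) = S.r 1 (Φ 3) → g (Φ 0) = S.r 2 (Φ 0) → False) : False := by
  obtain ⟨τ, hτ, ht⟩ := h.tags
    (fun u c => if c = 0 ∧ 2 ≤ u then 1 else if c = 2 ∧ u ≤ 1 then 2 else 0) (by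
      intro i j u v c hi hj hij u1 u2 v1 v2 hc w1 w2 w3 w4 hb hT
      have b0 := hb 0
      have b1 := hb 1
      have b2 := hb 2
      have hcase : (i = 0 ∧ 2 ≤ u) ∨ (i = 2 ∧ u ≤ 1) := by
        by_contra hcon
        rw [if_neg (fun h => hcon (Or.inl h)), if_neg (fun h => hcon (Or.inr h))] at hT
        exact hT rfl
      rcases hcase with ⟨rfl, hu⟩ | ⟨rfl, hu⟩
      · by_cases hs : c = 0 ∧ 2 ≤ v
        · simp [hs, hu]
        have : c = 1 ∧ ((v = 0 ∧ u = 2) ∨ v = u) := by omega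
        obtain ⟨rfl, ⟨rfl, rfl⟩ | rfl⟩ := this
        · refine ⟨fun g hg e1 e2 => (n1 g hg ?_ e2).elim, by simp⟩
          exact (h.trans hg (by norm_num) (by norm_num) (by norm_num) (by norm_num)
            (by norm_num)).1 e1
        · exact ⟨fun g hg e1 e2 => (S.gne2 (by norm_num) (by norm_num) (by norm_num) e1 e2 rfl).elim,
            by simp⟩
      · by_cases hs : c = 2 ∧ v ≤ 1
        · simp [hs, hu]
        have : c = 1 ∧ ((v = 3 ∧ u = 1) ∨ v = u) := by omega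
        obtain ⟨rfl, ⟨rfl, rfl⟩ | rfl⟩ := this
        · refine ⟨fun g hg e1 e2 => (n2 g hg e2 ?_).elim, by simp⟩
          exact (h.trans hg (by norm_num) (by norm_num) (by norm_num) (by norm_num)
            (by norm_num)).2 e1
        · exact ⟨fun g hg e1 e2 => (S.gne2 (by norm_num) (by norm_num) (by norm_num) e1 e2 rfl).elim,
            by simp⟩)
  refine S.A1 (Φ 2) (D := Φ '' Set.Icc 0 3) ⟨2, by simp, rfl⟩ h.lift τ hτ
    (Ψ := Φ 0) ⟨0, by simp, rfl⟩ (c := 0) (c' := 2) (by norm_num) (by norm_num) ?_ ?_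
    ((h.conn (by norm_num) (by norm_num) (by norm_num)).symm fun c _ => S.ρinv c) ?_ ?_
  · exact h.fx 2 0 (by norm_num) (by norm_num) (by norm_num) (by norm_num) (by norm_num)
  · exact h.fx 0 2 le_rfl (by norm_num) (by norm_num) (by norm_num) (by norm_num)
  · rw [ht 2 (by norm_num) (by norm_num)]; rfl
  · rw [ht 0 (by norm_num) (by norm_num)]; rfl

theorem IsPath.sub {n : ℕ} {S : GSys n} {a e : ℕ} {Φ : ℕ → S.F} (h : S.IsPath a e Φ) (u m : ℕ)
    (h1 : a ≤ u) (h2 : u + m ≤ e) :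
    (S.win u m (h2.trans h.en)).IsPath 0 m (fun i => Φ (u + i)) where
  en := le_rfl
  nx := fun i _ hi => h.nx (u + i) (by omega) (by omega)
  mv := fun i _ hi => h.mv (u + i) (by omega) (by omega)
  fx := fun j c _ hj hc k1 k2 =>
    h.fx (u + j) (u + c) (by omega) (by omega) (by have := h.en; omega) (by omega) (by omega)

theorem Q4 (S : GSys 4) {Φ : ℕ → S.F} (h : S.IsPath 0 4 Φ) {a1 b2 : Equiv.Perm S.F}
    (ha1 : a1 ∈ S.Γ) (hb2 : b2 ∈ S.Γ) (ea1 : a1 (Φ 4) = S.r 1 (Φ 4))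
    (eb2 : b2 (Φ 0) = S.r 2 (Φ 0)) : a1 = b2 := by
  by_contra hne
  have hmid : ∀ g ∈ S.Γ, g (Φ 4) = S.r 1 (Φ 4) → g (Φ 0) = S.r 2 (Φ 0) → False :=
    fun g hg e1 e2 => hne ((S.geq ha1 hg (ea1.trans e1.symm)).trans (S.geq hg hb2 (e2.trans eb2.symm)))
  by_cases k1 : ∃ g ∈ S.Γ, g (Φ 4) = S.r 0 (Φ 4) ∧ g (Φ 0) = S.r 1 (Φ 0)
  swap
  · refine Q3 _ (h.sub 0 3 le_rfl (by norm_num)) (fun g hg e1 e2 => k1 ⟨g, hg, ?_, e2⟩)
      (fun g hg e1 e2 => hmid g hg ?_ e2)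
    · exact (h.trans hg (by norm_num) (by norm_num) (by norm_num) (by norm_num) (by norm_num)).1 e1
    · exact (h.trans hg (by norm_num) (by norm_num) (by norm_num) (by norm_num) (by norm_num)).1 e1
  by_cases k2 : ∃ g ∈ S.Γ, g (Φ 4) = S.r 2 (Φ 4) ∧ g (Φ 0) = S.r 3 (Φ 0)
  swap
  · refine Q3 _ (h.sub 1 3 (by norm_num) (by norm_num)) (fun g hg e1 e2 => hmid g hg e1 ?_)
      (fun g hg e1 e2 => k2 ⟨g, hg, e1, ?_⟩)
    · exact (h.trans hg (by norm_num) (by norm_num) (by norm_num) (by norm_num) (by norm_num)).2 e2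
    · exact (h.trans hg (by norm_num) (by norm_num) (by norm_num) (by norm_num) (by norm_num)).2 e2
  obtain ⟨a0, ha0, ea0, eb1⟩ := k1
  obtain ⟨a2, ha2, ea2, eb3⟩ := k2
  have n1 : a0 ≠ a1 := S.gne2 (by norm_num) (by norm_num) (by norm_num) ea0 ea1
  have n2 : a0 ≠ a2 := S.gne2 (by norm_num) (by norm_num) (by norm_num) ea0 ea2
  have n3 : a1 ≠ a2 := S.gne2 (by norm_num) (by norm_num) (by norm_num) ea1 ea2
  have n4 : a0 ≠ b2 := S.gne2 (by norm_num) (by norm_num) (by norm_num) eb1 eb2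
  have n5 : a2 ≠ b2 := S.gne2 (by norm_num) (by norm_num) (by norm_num) eb3 eb2
  have o1 := S.ord3 ha0 ha1 (by norm_num) ea0 ea1
  have o2 := S.ord3 ha1 ha2 (by norm_num) ea1 ea2
  have o3 := S.ord3 ha0 hb2 (by norm_num) eb1 eb2
  have o4 := S.ord3 hb2 ha2 (by norm_num) eb2 eb3
  have c1 := cos3 o1
  have c2 := cos3 o2
  have c3 := cos3 o3
  have c4 := cos3 o4
  have c1' := cos3 (S.ord_comm _ _ ▸ o1)
  have c2' := cos3 (S.ord_comm _ _ ▸ o2)
  have c3' := cos3 (S.ord_comm _ _ ▸ o3)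
  have c4' := cos3 (S.ord_comm _ _ ▸ o4)
  have cn := h.conn (u := 0) (v := 4) le_rfl (by norm_num) le_rfl
  have m0 : Φ 0 ∈ Φ '' Set.Icc 0 4 := ⟨0, by simp, rfl⟩
  have m4 : Φ 4 ∈ Φ '' Set.Icc 0 4 := ⟨4, by simp, rfl⟩
  have hne' : a1 ≠ b2 := hne
  refine S.NG1 (Φ 0) m0 h.lift _ (S.tags0 _) (N := Fin 4) ![Φ 4, Φ 4, Φ 4, Φ 0] ![0, 1, 2, 2]
    ![a0, a1, a2, b2] ?_ ?_ ?_ ?_ ?_ (fun _ => 1) (fun _ => one_pos)
    ![![2, -1, 0, -1], ![-1, 2, -1, 0], ![0, -1, 2, -1], ![-1, 0, -1, 2]] ?_ ?_ ?_ ?_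
  · intro l; fin_cases l <;> assumption
  · intro l; fin_cases l <;> simp
  · intro l; fin_cases l <;> assumption
  · intro l; fin_cases l <;> assumption
  · intro l; fin_cases l <;> first | exact Conn.refl _ | exact cn
  · intro l; fin_cases l <;> rfl
  · intro l m h
    right
    fin_cases l <;> fin_cases m <;> first | exact absurd rfl h | assumption | (symm; assumption)
  · intro l m h
    fin_cases l <;> fin_cases m <;>
      first | exact absurd rfl h | exact Or.inl le_rfl | (right; left; assumption)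
  · intro m; fin_cases m <;> simp [Fin.sum_univ_four] <;> norm_num

/-- at most three trivial colours before a long path -/
theorem path_four (S : GSys 9) {Φ : ℕ → S.F} (h : S.IsPath 4 9 Φ) : False := by
  obtain ⟨τ, hτ, ht⟩ := h.tags (fun u c => if u = 4 ∧ c = 3 then 1 else 0) (by
    intro i j u v c hi hj hij u1 u2 v1 v2 hc w1 w2 w3 w4 hb hT
    have b0 := hb 4
    have b1 := hb 5
    have : u = 4 ∧ i = 3 := by
      by_contra hcon
      rw [if_neg hcon] at hT; exact hT rfl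
    obtain ⟨rfl, rfl⟩ := this
    refine ⟨fun g hg e1 e2 => ?_, by by_cases hh : v = 4 ∧ c = 3 <;> simp [hh]⟩
    have : (v = 4 ∧ c = 3) ∨ (v = 4 ∧ c ≠ 3) ∨ (v = 5 ∧ c = 3) := by omega
    rcases this with hh | ⟨rfl, hh⟩ | ⟨rfl, rfl⟩
    · simp [hh]
    · exact (S.gne2 (by norm_num) (by omega) (by omega) e1 e2 rfl).elim
    · rw [h.nx 4 le_rfl (by norm_num)] at e2
      exact (S.ne1 hg (by norm_num) (by norm_num) (by norm_num) e1 e2).elim)
  obtain ⟨g, hg, eg⟩ := S.wall (h.fx 4 3 le_rfl (by norm_num) (by norm_num) (by norm_num) (by norm_num))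
  obtain ⟨g2, hg2, e2⟩ :=
    S.wall (h.fx 4 2 le_rfl (by norm_num) (by norm_num) (by norm_num) (by norm_num))
  refine S.E8 h.lift τ hτ (Ψ := Φ 9) (Θ := Φ 4) ⟨9, by simp, rfl⟩ ⟨4, by simp, rfl⟩ (j := 0) (c := 3)
    (by norm_num) (by norm_num) ?_ ?_ ?_ ?_ hg hg2 eg ?_ ?_
  · intro l hl
    exact h.fx 9 _ (by norm_num) le_rfl (by omega) (by omega) (by omega)
  · intro l; rw [ht 9 (by norm_num) le_rfl]; simp
  · rw [ht 4 le_rfl (by norm_num)]; simp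
  · exact (h.conn le_rfl (by norm_num) le_rfl).symm fun c _ => S.ρinv c
  · exact (h.trans hg2 (by norm_num) le_rfl (by norm_num) le_rfl (by norm_num)).1 e2
  · rw [S.ord_comm]; exact S.ord3 hg2 hg (by norm_num) e2 eg

/-- trivial colours cannot occur on both sides of a path -/
theorem path_both {n : ℕ} (S : GSys (n + 1)) (hn : 3 ≤ n) {Φ : ℕ → S.F} (h : S.IsPath 1 n Φ) :
    False := by
  obtain ⟨τ, hτ, ht⟩ := h.tags
    (fun u c => if u = 1 ∧ c = 0 then 1 else if u = n ∧ c = n then 2 else 0) (by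
    intro i j u v c hi hj hij u1 u2 v1 v2 hc w1 w2 w3 w4 hb hT
    have : (u = 1 ∧ i = 0) ∨ (u = n ∧ i = n) := by
      by_contra hcon
      rw [if_neg (fun h => hcon (Or.inl h)), if_neg (fun h => hcon (Or.inr h))] at hT; exact hT rfl
    rcases this with ⟨rfl, rfl⟩ | ⟨rfl, rfl⟩
    · have b0 := hb 1
      have b1 := hb 2
      have : (v = 1 ∧ c = 0) ∨ (v = 1 ∧ c ≠ 0) ∨ (v = 2 ∧ c = 0) := by omega
      rcases this with hh | ⟨rfl, hh⟩ | ⟨rfl, rfl⟩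
      · simp [hh]
      · refine ⟨fun g hg e1 e2 => (S.gne2 (by omega) (by omega) (by omega) e1 e2 rfl).elim, ?_⟩
        left; rw [if_neg (by omega), if_neg (by omega)]
      · refine ⟨fun g hg e1 e2 => ?_, ?_⟩
        · rw [h.nx 1 le_rfl (by omega)] at e2
          exact (S.ne1 hg (by omega) (by omega) (by omega) e1 e2).elim
        · left; rw [if_neg (by omega), if_neg (by omega)]
    · have b0 := hb (i - 1)
      have b1 := hb (i - 2)
      have : (v = i ∧ c = i) ∨ (v = i ∧ c ≠ i) ∨ (v + 1 = i ∧ c = i) := by omega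
      rcases this with ⟨rfl, rfl⟩ | ⟨rfl, hh⟩ | ⟨rfl, rfl⟩
      · simp
      · refine ⟨fun g hg e1 e2 => (S.gne2 (by omega) (by omega) (by omega) e1 e2 rfl).elim, ?_⟩
        left; rw [if_neg (by omega), if_neg (by omega)]
      · refine ⟨fun g hg e1 e2 => ?_, ?_⟩
        · rw [h.nx v v1 (by omega)] at e1
          exact (S.ne1 hg (by omega) (by omega) (by omega) e2 e1).elim
        · left; rw [if_neg (by omega), if_neg (by omega)])
  refine S.A1 (Φ 1) (D := Φ '' Set.Icc 1 n) ⟨1, by simp; omega, rfl⟩ h.lift τ hτ (Ψ := Φ n) ⟨n, by simp; omega, rfl⟩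
    (c := 0) (c' := n) (by omega) (by omega) ?_ ?_ (h.conn le_rfl (by omega) le_rfl) ?_ ?_
  · exact h.fx 1 0 le_rfl (by omega) (by omega) (by omega) (by omega)
  · exact h.fx n n (by omega) le_rfl (by omega) (by omega) (by omega)
  · rw [ht 1 le_rfl (by omega)]; simp
  · rw [ht n (by omega) le_rfl]
    simp only [and_self, if_true]
    rw [if_neg (by omega)]

open Classical in
theorem tagsK {n : ℕ} (S : GSys n) {D : Set S.F} (hL : S.Lift D) (t : S.X)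
    (h1 : ∀ x, (x = t ∨ x = S.ρ 0 t) → ∀ c, 2 ≤ c → c < n → S.ρ c x = x)
    (h2 : ∀ x, (x = t ∨ x = S.ρ 0 t) → S.ρ 2 (S.ρ 1 x) = S.ρ 1 x) :
    S.Tags D (fun x c => if c = 2 ∧ (x = t ∨ x = S.ρ 0 t) then 1 else 0) := by
  intro i j hi hj hij Φ hΦ Ψ hΨ c hc w1 w2 cn hT
  have : i = 2 ∧ (S.π Φ = t ∨ S.π Φ = S.ρ 0 t) := by
    by_contra hcon
    simp only [if_neg hcon] at hT; exact hT rfl
  obtain ⟨rfl, hx⟩ := this
  simp only [hx, and_true, if_true]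
  refine ⟨fun g hg e1 e2 => ?_, by split_ifs <;> simp⟩
  have same : S.π Ψ = S.π Φ → (if c = 2 ∧ (S.π Ψ = t ∨ S.π Ψ = S.ρ 0 t) then (1 : Fin 3) else 0) = 1 := by
    intro e
    have := hL.inj hΨ hΦ e
    subst this
    by_cases hc2 : c = 2
    · simp [hc2, hx]
    · exact (S.gne2 hi (by omega) (Ne.symm hc2) e1 e2 rfl).elim
  have key : S.π Ψ = S.π Φ ∨ S.π Ψ = S.ρ j (S.π Φ) := by
    refine cn.ind (fun y => y = S.π Φ ∨ y = S.ρ j (S.π Φ)) (Or.inl rfl) ?_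
    rintro b (rfl | rfl) y (rfl | rfl)
    · exact Or.inl w1
    · right
      by_cases j1 : j = 1
      · subst j1; exact h2 _ hx
      by_cases j3 : j = 3
      · subst j3; rw [h1 _ hx 3 (by norm_num) hj, w1]
      · exact S.fix_comm hi hj (by omega) w1
    · exact Or.inr rfl
    · exact Or.inl (S.ρinv _ _)
  rcases key with k | k
  · exact same k
  by_cases hw : S.ρ j (S.π Φ) = S.π Φ
  · exact same (k.trans hw)
  have hc2 : c = 2 := by
    rcases hc with hc | hc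
    · exact hc
    · subst hc; rw [k, S.ρinv] at w2; exact absurd w2.symm hw
  subst hc2
  have hj2 : j < 2 := by
    by_contra hcon
    exact hw (h1 _ hx j (by omega) hj)
  have : j = 0 ∨ j = 1 := by omega
  rcases this with rfl | rfl
  · rw [if_pos]
    refine ⟨rfl, ?_⟩
    rcases hx with hx | hx
    · right; rw [k, hx]
    · left; rw [k, hx, S.ρinv]
  · have : Ψ = S.r 1 Φ := hL.inj hΨ (hL.cl Φ hΦ 1 hj hw) (by rw [k, S.πr])
    subst this
    exact (S.ne1 hg hj hi (by norm_num) e1 e2).elim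

theorem gosset (S : GSys 9) (z : S.X) (hz : S.ρ 1 z ≠ z)
    (hT : ∀ x, Conn S.ρ {0, 1} z x → ∀ c, 2 ≤ c → c < 9 → S.ρ c x = x) : False := by
  classical
  have st : ∀ {x}, Conn S.ρ {0, 1} z x → ∀ c, c < 2 → Conn S.ρ {0, 1} z (S.ρ c x) := by
    intro x hx c hc
    refine hx.step ?_
    interval_cases c <;> simp
  by_cases hA : ∀ x, Conn S.ρ {0, 1} z x → S.ρ 1 x ≠ x
  · obtain ⟨Φ, rfl⟩ := S.surj z
    have fk : ∀ Ψ, Conn S.ρ {0, 1} (S.π Φ) (S.π Ψ) → S.p 1 Ψ = 4 ∧ S.p 2 Ψ = 3 := fun Ψ hΨ =>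
      fork (S.win 1 4 (by norm_num)) Ψ (hA _ hΨ)
        (fun c c1 c2 => hT _ hΨ (1 + c) (by omega) (by omega))
        (hT _ (st hΨ 1 (by norm_num)) 2 le_rfl (by norm_num))
    have h3 : S.p (0 + 1) Φ = 3 := by
      refine X1 (S.win 0 5 (by norm_num)) Φ fun Ψ hΨ i hi => ?_
      have : Conn S.ρ {0, 1} (S.π Φ) (S.π Ψ) ∧ S.p 0 Ψ = S.p 0 Φ ∧ S.p 3 Ψ = S.p 3 Φ := by
        refine hΨ.ind (fun Ψ => Conn S.ρ {0, 1} (S.π Φ) (S.π Ψ) ∧ S.p 0 Ψ = S.p 0 Φ ∧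
          S.p 3 Ψ = S.p 3 Φ) ⟨Conn.refl _, rfl, rfl⟩ ?_
        rintro c hc Ψ ⟨k1, k2, k3⟩
        simp only [Set.mem_Iio, zero_add] at hc ⊢
        by_cases c2 : c < 2
        · rw [S.πr, S.p_r (by norm_num) (by omega) (by omega) (by omega),
            S.p_r (by norm_num) (by omega) (by omega) (by omega)]
          exact ⟨st k1 c c2, k2, k3⟩
        · have e : S.π Ψ = S.π (S.r c Ψ) := by rw [S.πr, hT _ k1 c (by omega) (by omega)]
          rw [S.p_π e, S.p_π e, ← e]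
          exact ⟨k1, k2, k3⟩
      obtain ⟨k1, k2, k3⟩ := this
      have f1 := fk Ψ k1
      have f2 := fk Φ (Conn.refl _)
      rw [p_win, p_win, zero_add]
      interval_cases i
      · exact k2
      · rw [f1.1, f2.1]
      · rw [f1.2, f2.2]
      · exact k3
    have := (fk Φ (Conn.refl _)).1
    rw [zero_add] at h3
    omega
  push Not at hA
  obtain ⟨t, ht, hw⟩ := hA
  obtain ⟨Ψ, rfl⟩ := S.surj t
  obtain ⟨D, d0, d1, d2, d3, -⟩ := S.pathD 1 0 Ψ hw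
  have dT : ∀ Φ ∈ D, Conn S.ρ {0, 1} z (S.π Φ) := fun Φ hΦ =>
    ht.trans (by have := S.conn_π (d3 Φ hΦ); rwa [Set.pair_comm] at this)
  have hL : S.Lift D := ⟨fun Φ hΦ c hc hm => d1 Φ hΦ c (by
    by_contra hcon
    exact hm (hT _ (dT Φ hΦ) c (by omega) hc)) hm, d2⟩
  have k2 : S.ρ 1 (S.ρ 0 (S.π Ψ)) ≠ S.ρ 0 (S.π Ψ) := by
    intro k
    have : z = S.π Ψ ∨ z = S.ρ 0 (S.π Ψ) := by
      refine (ht.symm fun c _ => S.ρinv c).ind (fun y => y = S.π Ψ ∨ y = S.ρ 0 (S.π Ψ))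
        (Or.inl rfl) ?_
      rintro b (rfl | rfl) y (rfl | rfl)
      · exact Or.inr rfl
      · exact Or.inl (S.ρinv _ _)
      · exact Or.inl hw
      · exact Or.inr k
    rcases this with rfl | rfl
    · exact hz hw
    · exact hz k
  have k1 : S.ρ 0 (S.π Ψ) ≠ S.π Ψ := fun k => k2 (by rw [k, hw])
  have m1 : S.r 0 Ψ ∈ D := hL.cl Ψ d0 0 (by norm_num) k1
  have m2 : S.r 1 (S.r 0 Ψ) ∈ D := hL.cl _ m1 1 (by norm_num) (by rw [S.πr]; exact k2)
  have t2 := dT _ m2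
  obtain ⟨g, hg, eg⟩ := S.wall (hT _ t2 2 le_rfl (by norm_num))
  obtain ⟨g3, hg3, e3⟩ := S.wall (hT _ ht 3 (by norm_num) (by norm_num))
  have e3' := S.tr hg3 (by norm_num) (j := 1) (by norm_num) (by norm_num)
    (S.tr hg3 (by norm_num) (j := 0) (by norm_num) (by norm_num) e3)
  refine S.E8 hL _ (S.tagsK hL (S.π (S.r 1 (S.r 0 Ψ))) ?_ ?_) d0 m2 (j := 1) (c := 2) (by norm_num)
    (by norm_num) ?_ ?_ (by simp) ?_ hg hg3 eg e3 (S.ord3 hg hg3 (by norm_num) eg e3')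
  · rintro x (rfl | rfl)
    · exact hT _ t2
    · exact hT _ (st t2 0 (by norm_num))
  · rintro x (rfl | rfl)
    · exact hT _ (st t2 1 (by norm_num)) 2 le_rfl (by norm_num)
    · exact hT _ (st (st t2 0 (by norm_num)) 1 (by norm_num)) 2 le_rfl (by norm_num)
  · intro l hl
    rcases Nat.eq_zero_or_pos l with rfl | h0
    · exact hw
    · exact hT _ ht _ (by omega) (by omega)
  · intro l
    rw [if_neg]
    rintro ⟨-, e | e⟩
    · rw [S.πr, S.πr] at e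
      apply k1
      rw [← S.ρinv 1 (S.ρ 0 (S.π Ψ)), ← e, hw]
    · rw [S.πr, S.πr] at e
      apply k2
      conv_rhs => rw [e, S.ρinv]
  · rw [S.πr, S.πr]
    exact ((Conn.refl _).step (by simp)).step (by simp)

theorem tail (S : GSys 9) (Φ : ℕ → S.F) (nx : ∀ i, 1 ≤ i → i < 9 → Φ (i + 1) = S.r i (Φ i))
    (mv : ∀ i, 1 ≤ i → i < 9 → S.ρ i (S.π (Φ i)) ≠ S.π (Φ i))
    (fx : ∀ j c, 2 ≤ j → j ≤ 9 → c < 9 → c ≠ j → c + 1 ≠ j → S.ρ c (S.π (Φ j)) = S.π (Φ j))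
    (hT : ∀ x, Conn S.ρ {0, 1} (S.π (Φ 2)) x → x ≠ S.π (Φ 2) → ∀ c, 2 ≤ c → c < 9 → S.ρ c x = x)
    (z : S.X) (hz : Conn S.ρ {0, 1} (S.π (Φ 2)) z) (z1 : z ≠ S.π (Φ 1)) (z2 : z ≠ S.π (Φ 2))
    (zm : S.ρ 1 z ≠ z) : False := by
  classical
  have st : ∀ {x}, Conn S.ρ {0, 1} (S.π (Φ 2)) x → ∀ c, c < 2 →
      Conn S.ρ {0, 1} (S.π (Φ 2)) (S.ρ c x) := by
    intro x hx c hc
    refine hx.step ?_
    interval_cases c <;> simp
  have e12 : S.r 1 (Φ 2) = Φ 1 := by rw [nx 1 le_rfl (by norm_num), S.inv]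
  have y12 : S.ρ 1 (S.π (Φ 2)) = S.π (Φ 1) := by rw [← S.πr, e12]
  have y21 : S.ρ 1 (S.π (Φ 1)) = S.π (Φ 2) := by rw [← y12, S.ρinv]
  have n12 : S.π (Φ 1) ≠ S.π (Φ 2) := fun e => mv 1 le_rfl (by norm_num) (by rw [y21, e])
  have T1 : Conn S.ρ {0, 1} (S.π (Φ 2)) (S.π (Φ 1)) := y12 ▸ st (Conn.refl _) 1 (by norm_num)
  have w0 : S.ρ 0 (S.π (Φ 2)) = S.π (Φ 2) :=
    fx 2 0 le_rfl (by norm_num) (by norm_num) (by norm_num) (by norm_num)
  have hp : (S.win 1 8 (by norm_num)).IsPath 0 8 (fun i => Φ (1 + i)) := by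
    refine ⟨le_rfl, fun i _ hi => nx (1 + i) (by omega) (by omega),
      fun i _ hi => mv (1 + i) (by omega) (by omega), fun j c _ hj hc k1 k2 => ?_⟩
    rcases Nat.eq_zero_or_pos j with rfl | h0
    · exact hT _ T1 n12 (1 + c) (by omega) (by omega)
    · exact fx (1 + j) (1 + c) (by omega) (by omega) (by omega) (by omega) (by omega)
  have yinj : ∀ i j, 1 ≤ i → i ≤ 9 → 1 ≤ j → j ≤ 9 → S.π (Φ i) = S.π (Φ j) → i = j := by
    intro i j a b c d e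
    have := hp.inj (i := i - 1) (j := j - 1) (by omega) (by omega) (by omega) (by omega) (by
      show S.π (Φ (1 + (i - 1))) = S.π (Φ (1 + (j - 1)))
      rw [show 1 + (i - 1) = i by omega, show 1 + (j - 1) = j by omega, e])
    omega
  have notT : ∀ j, 3 ≤ j → j ≤ 9 → ¬ Conn S.ρ {0, 1} (S.π (Φ 2)) (S.π (Φ j)) := by
    intro j j1 j2 hc
    obtain ⟨j, rfl⟩ : ∃ i, j = i + 1 := ⟨j - 1, by omega⟩
    have := hT _ hc (fun e => by have := yinj _ _ (by omega) j2 (by omega) (by omega) e; omega) j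
      (by omega) (by omega)
    rw [nx j (by omega) (by omega), S.πr, S.ρinv] at this
    exact mv j (by omega) (by omega) this.symm
  obtain ⟨D, d0, d1, d2, d3, -⟩ := S.pathD 0 1 (Φ 2) w0
  have dT : ∀ Ψ ∈ D, Conn S.ρ {0, 1} (S.π (Φ 2)) (S.π Ψ) := fun Ψ hΨ => S.conn_π (d3 Ψ hΨ)
  have hL : S.Lift (D ∪ Φ '' Set.Icc 3 9) := by
    constructor
    · rintro Ψ (hΨ | ⟨j, ⟨j1, j2⟩, rfl⟩) c hc hm
      · by_cases c2 : c < 2
        · exact Or.inl (d1 Ψ hΨ c (by omega) hm)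
        have e : S.π Ψ = S.π (Φ 2) := by
          by_contra hcon
          exact hm (hT _ (dT Ψ hΨ) hcon c (by omega) hc)
        have := d2 hΨ d0 e
        subst this
        have : c = 2 := by
          by_contra hcon
          exact hm (fx 2 c le_rfl (by norm_num) hc hcon (by omega))
        subst this
        exact Or.inr ⟨3, by simp, nx 2 (by norm_num) (by norm_num)⟩
      · by_cases e1 : c = j
        · subst e1
          exact Or.inr ⟨c + 1, ⟨by omega, by omega⟩, nx c (by omega) hc⟩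
        by_cases e2 : c + 1 = j
        · subst e2
          rw [nx c (by omega) hc, S.inv]
          by_cases e3 : c = 2
          · subst e3; exact Or.inl d0
          · exact Or.inr ⟨c, ⟨by omega, by omega⟩, rfl⟩
        exact absurd (fx j c (by omega) j2 hc e1 e2) hm
    · rintro Ψ (hΨ | ⟨j, ⟨j1, j2⟩, rfl⟩) Ψ' (hΨ' | ⟨j', ⟨j3, j4⟩, rfl⟩) e
      · exact d2 hΨ hΨ' e
      · exact absurd (e ▸ dT Ψ hΨ) (notT j' j3 j4)
      · exact absurd (e ▸ dT Ψ' hΨ') (notT j j1 j2)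
      · rw [yinj j j' (by omega) j2 (by omega) j4 e]
  have k2 : S.ρ 1 (S.ρ 0 (S.π (Φ 1))) ≠ S.ρ 0 (S.π (Φ 1)) ∧ S.ρ 0 (S.π (Φ 1)) ≠ S.π (Φ 1) := by
    by_contra hcon
    have : z = S.π (Φ 2) ∨ z = S.π (Φ 1) ∨ z = S.ρ 0 (S.π (Φ 1)) := by
      refine hz.ind (fun y => y = S.π (Φ 2) ∨ y = S.π (Φ 1) ∨ y = S.ρ 0 (S.π (Φ 1)))
        (Or.inl rfl) ?_
      rintro b (rfl | rfl) y (rfl | rfl | rfl)
      · exact Or.inl w0
      · exact Or.inr (Or.inr rfl)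
      · exact Or.inr (Or.inl (S.ρinv _ _))
      · exact Or.inr (Or.inl y12)
      · exact Or.inl y21
      · rcases not_and_or.1 hcon with k | k
        · exact Or.inr (Or.inr (not_not.1 k))
        · rw [not_not.1 k]; exact Or.inl y21
    rcases this with rfl | rfl | rfl
    · exact z2 rfl
    · exact z1 rfl
    · exact hcon ⟨zm, z1⟩
  obtain ⟨k2, k1⟩ := k2
  have m0 : Φ 1 ∈ D := e12 ▸ d1 _ d0 1 (Or.inr rfl) (by rw [y12]; exact n12)
  have m1 : S.r 0 (Φ 1) ∈ D := d1 _ m0 0 (Or.inl rfl) k1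
  have m2 : S.r 1 (S.r 0 (Φ 1)) ∈ D := d1 _ m1 1 (Or.inr rfl) (by rw [S.πr]; exact k2)
  have t3 := dT _ m2
  have e3 : S.π (S.r 1 (S.r 0 (Φ 1))) = S.ρ 1 (S.ρ 0 (S.π (Φ 1))) := by rw [S.πr, S.πr]
  have q1 : S.π (S.r 1 (S.r 0 (Φ 1))) ≠ S.π (Φ 2) := by
    rw [e3, ← y21]; exact fun e => k1 (S.ρinj _ e)
  have q2 : S.ρ 0 (S.π (S.r 1 (S.r 0 (Φ 1)))) ≠ S.π (Φ 2) := by
    rw [← w0]; exact fun e => q1 (S.ρinj _ e)
  have q3 : S.ρ 1 (S.π (S.r 1 (S.r 0 (Φ 1)))) ≠ S.π (Φ 2) := by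
    rw [e3, S.ρinv, ← w0]; exact fun e => n12 (S.ρinj _ e)
  have q4 : S.ρ 1 (S.ρ 0 (S.π (S.r 1 (S.r 0 (Φ 1))))) ≠ S.π (Φ 2) := by
    rw [← y21, e3]
    intro e
    apply k2
    conv_rhs => rw [← S.ρinj _ e, S.ρinv]
  obtain ⟨g, hg, eg⟩ := S.wall (hT _ t3 q1 2 le_rfl (by norm_num))
  obtain ⟨g3, hg3, f3⟩ := S.wall (hT _ T1 n12 3 (by norm_num) (by norm_num))
  have f3' := S.tr hg3 (by norm_num) (j := 1) (by norm_num) (by norm_num)
    (S.tr hg3 (by norm_num) (j := 0) (by norm_num) (by norm_num) f3)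
  obtain ⟨a2, ha2, ea2⟩ := S.wall (fx 5 2 (by norm_num) (by norm_num) (by norm_num) (by norm_num)
    (by norm_num))
  have hq : a2 = g3 := Q4 _ (hp.sub 0 4 le_rfl (by norm_num)) ha2 hg3 ea2 f3
  subst hq
  have ea9 : a2 (Φ 9) = S.r 2 (Φ 9) :=
    (hp.trans (c := 1) (u := 4) (v := 8) ha2 (by norm_num) (by norm_num) (by norm_num) le_rfl
      (by norm_num)).1 ea2
  refine S.E8 hL _ (S.tagsK hL (S.π (S.r 1 (S.r 0 (Φ 1)))) ?_ ?_) (Ψ := Φ 9)
    (Or.inr ⟨9, by simp, rfl⟩) (Or.inl m2) (j := 0) (c := 2) (by norm_num)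
    (by norm_num) ?_ ?_ (by simp) ?_ hg hg3 eg ea9 (S.ord3 hg hg3 (by norm_num) eg f3')
  · rintro x (rfl | rfl)
    · exact hT _ t3 q1
    · exact hT _ (st t3 0 (by norm_num)) q2
  · rintro x (rfl | rfl)
    · exact hT _ (st t3 1 (by norm_num)) q3 2 le_rfl (by norm_num)
    · exact hT _ (st (st t3 0 (by norm_num)) 1 (by norm_num)) q4 2 le_rfl (by norm_num)
  · intro l hl
    exact fx 9 _ (by norm_num) le_rfl (by omega) (by omega) (by omega)
  · intro l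
    rw [if_neg]
    rintro ⟨-, e | e⟩
    · exact notT 9 (by norm_num) le_rfl (e ▸ t3)
    · exact notT 9 (by norm_num) le_rfl (e ▸ st t3 0 (by norm_num))
  · have c1 : Conn S.ρ (Set.Iio 9) (S.π (Φ 2)) (S.π (Φ 9)) := by
      have := hp.conn (u := 1) (v := 8) (by norm_num) (by norm_num) le_rfl
      exact this.map (r' := S.ρ) (s' := Set.Iio 9) id fun i hi =>
        ⟨1 + i, by simp only [Set.mem_Iio] at hi ⊢; omega, fun _ => rfl⟩
    refine (c1.symm fun c _ => S.ρinv c).trans (t3.mono ?_)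
    rintro c (rfl | rfl) <;> simp

end GSys

end Pool.Agent.Lib.MP_7157e1_co
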