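import Pool.Agent.Lib.MP_7157e1_co.G6

/-! Global structure: long trivial runs and standard windows. -/

namespace Pool.Agent.Lib.MP_7157e1_co
open Function

namespace GSys
variable {d : ℕ} (S : GSys d)

/-- transitivity and rigidity -/
structure Glob : Prop where
  conn : ∀ x y, Conn S.ρ (Set.Iio d) x y
  rig : ∀ B : S.F → S.F → Prop, (∀ Φ Ψ, B Φ Ψ → ∀ i, i < d → B (S.r i Φ) (S.r i Ψ)) →
    (∀ Φ Ψ, B Φ Ψ → ∀ i, i + 1 < d → S.p i Ψ = S.p i Φ) → ∀ Φ Ψ, B Φ Ψ → S.π Φ = S.π Ψ

variable {S}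

theorem Glob.rev (h : S.Glob) : S.rev.Glob where
  conn := fun x y => (h.conn x y).map (r' := S.rev.ρ) (s' := Set.Iio d) id fun i hi => by
    simp only [Set.mem_Iio] at hi ⊢
    refine ⟨d - 1 - i, by omega, fun x => ?_⟩
    show _ = S.ρ (d - 1 - (d - 1 - i)) x
    rw [show d - 1 - (d - 1 - i) = i by omega]; rfl
  rig := fun B h1 h2 => h.rig B
    (fun Φ Ψ hB i hi => by
      have : B (S.r (d - 1 - (d - 1 - i)) Φ) (S.r (d - 1 - (d - 1 - i)) Ψ) :=
        h1 Φ Ψ hB (d - 1 - i) (by omega)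
      rwa [show d - 1 - (d - 1 - i) = i by omega] at this)
    (fun Φ Ψ hB i hi => by
      have := h2 Φ Ψ hB (d - 2 - i) (by omega)
      rwa [S.p_rev (by omega), S.p_rev (by omega), show d - 2 - (d - 2 - i) = i by omega] at this)

theorem triv_left (c : ℕ) (hc : c + 7 ≤ d) (ht : ∀ i, c ≤ i → i < c + 7 → ∀ x, S.ρ i x = x) :
    ∀ i, 1 ≤ i → i < c + 7 → ∀ x, S.ρ i x = x := by
  induction c with
  | zero => exact fun i _ => ht i (Nat.zero_le _)
  | succ c ih =>
    rcases c with _ | a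
    · exact ht
    have h1 : ∀ x, S.ρ (a + 1) x = x := by
      intro z
      by_contra hz
      exact gosset (S.win a 9 (by omega)) z hz fun x _ c c1 c2 => ht (a + c) (by omega) (by omega) x
    intro i i1 i2
    by_cases e : i = a + 8
    · exact ht i (by omega) i2
    refine ih (by omega) (fun j j1 j2 => ?_) i i1 (by omega)
    by_cases e : j = a + 1
    · rw [e]; exact h1
    · exact ht j (by omega) (by omega)

theorem p_zero (hd : 4 ≤ d) (ht : ∀ i, 1 ≤ i → i < 4 → ∀ x, S.ρ i x = x) (i : ℕ) (hi : i + 1 < d)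
    (Φ : S.F) : S.p i (S.r 0 Φ) = S.p i Φ := by
  by_cases hw : S.ρ 0 (S.π Φ) = S.π Φ
  · exact S.p_π (by rw [S.πr, hw]) i
  by_cases e : i = 1
  · subst e
    have f1 := (fork (S.win 0 4 (by omega)) Φ hw (fun c c1 c2 => ht _ (by omega) (by omega) _)
      (ht 1 le_rfl (by norm_num) _)).2
    have f2 := (fork (S.win 0 4 (by omega)) (S.r 0 Φ) (by
      show S.ρ 0 (S.π (S.r 0 Φ)) ≠ S.π (S.r 0 Φ)
      rw [S.πr, S.ρinv]; exact Ne.symm hw) (fun c c1 c2 => ht _ (by omega) (by omega) _)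
      (ht 1 le_rfl (by norm_num) _)).2
    exact f2.trans f1.symm
  · exact S.p_r hi (by omega) (by omega) (by omega) Φ

/-- seven consecutive trivial colours force flag transitivity -/
theorem Glob.lemG (h : S.Glob) (c : ℕ) (hc : c + 7 ≤ d)
    (ht : ∀ i, c ≤ i → i < c + 7 → ∀ x, S.ρ i x = x) (x y : S.X) : x = y := by
  have h1 := triv_left c hc ht
  have h2 := triv_left (S := S.rev) (d - 7 - c) (by omega)
    fun i i1 i2 => ht (d - 1 - i) (by omega) (by omega)
  have h3 : ∀ i, 1 ≤ i → i + 1 < d → ∀ x, S.ρ i x = x := by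
    intro i i1 i2 x
    by_cases e : i < c + 7
    · exact h1 i i1 e x
    · have : S.ρ (d - 1 - (d - 1 - i)) x = x := h2 (d - 1 - i) (by omega) (by omega) x
      rwa [show d - 1 - (d - 1 - i) = i by omega] at this
  have h4 : ∀ i j, i + 1 < d → j < d → ∀ Φ, S.p i (S.r j Φ) = S.p i Φ := by
    intro i j hi hj Φ
    by_cases e0 : j = 0
    · subst e0
      exact p_zero (by omega) (fun i i1 i2 => h3 i i1 (by omega)) i hi Φ
    by_cases e1 : j + 1 = d
    · have := p_zero (S := S.rev) (by omega)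
        (fun i i1 i2 => h3 (d - 1 - i) (by omega) (by omega)) (d - 2 - i) (by omega) Φ
      rw [S.p_rev (by omega), S.p_rev (by omega), show d - 2 - (d - 2 - i) = i by omega] at this
      rw [show j = d - 1 - 0 by omega]
      exact this
    · exact S.p_π (by rw [S.πr, h3 j (by omega) (by omega)]) i
  obtain ⟨Φ, rfl⟩ := S.surj x
  obtain ⟨Ψ, rfl⟩ := S.surj y
  refine h.rig (fun _ _ => True) (fun _ _ _ _ _ => trivial) (fun Φ Ψ _ i hi => ?_) Φ Ψ trivial
  refine (h.conn (S.π Φ) (S.π Ψ)).ind (fun y => ∀ Ψ, S.π Ψ = y → S.p i Ψ = S.p i Φ)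
    (fun Ψ e => S.p_π e.symm i) ?_ Ψ rfl
  intro j hj y hy Ψ e
  rw [← hy (S.r j Ψ) (by rw [S.πr, e, S.ρinv]), h4 i j hi hj]

variable (S) in
/-- a window of colours each acting as one transposition along a path -/
structure Std (u v : ℕ) (Φ : ℕ → S.F) : Prop where
  len : u + 7 ≤ v
  vd : v ≤ d
  nx : ∀ i, u ≤ i → i < v → Φ (i + 1) = S.r i (Φ i)
  only : ∀ i, u ≤ i → i < v → ∀ x, S.ρ i x ≠ x → x = S.π (Φ i) ∨ x = S.π (Φ (i + 1))
  inj : ∀ i j, u ≤ i → i ≤ v → u ≤ j → j ≤ v → S.π (Φ i) = S.π (Φ j) → i = j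

namespace Std
variable {u v : ℕ} {Φ : ℕ → S.F} (h : S.Std u v Φ)
include h

theorem ρnx {i : ℕ} (h1 : u ≤ i) (h2 : i < v) : S.ρ i (S.π (Φ i)) = S.π (Φ (i + 1)) := by
  rw [h.nx i h1 h2, S.πr]

theorem ρnx' {i : ℕ} (h1 : u ≤ i) (h2 : i < v) : S.ρ i (S.π (Φ (i + 1))) = S.π (Φ i) := by
  rw [← h.ρnx h1 h2, S.ρinv]

theorem mv {i : ℕ} (h1 : u ≤ i) (h2 : i < v) : S.ρ i (S.π (Φ i)) ≠ S.π (Φ i) := by
  rw [h.ρnx h1 h2]
  intro e
  have := h.inj _ _ (by omega) (by omega) h1 (by omega) e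
  omega

theorem mv' {i : ℕ} (h1 : u ≤ i) (h2 : i < v) : S.ρ i (S.π (Φ (i + 1))) ≠ S.π (Φ (i + 1)) := by
  rw [h.ρnx' h1 h2]
  intro e
  have := h.inj _ _ h1 (by omega) (by omega) (by omega) e
  omega

theorem fx0 {c lo hi : ℕ} (hc : c < d) (h1 : u ≤ lo) (h2 : lo + 2 ≤ hi) (h3 : hi ≤ v)
    (hcm : c + 2 ≤ lo ∨ hi + 1 ≤ c) (j : ℕ) (j1 : lo ≤ j) (j2 : j ≤ hi) :
    S.ρ c (S.π (Φ j)) = S.π (Φ j) := by
  have vd := h.vd
  have b : S.ρ c (S.π (Φ (lo + 1))) = S.π (Φ (lo + 1)) := by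
    have k1 := h.only lo h1 (by omega) (S.ρ c (S.π (Φ (lo + 1)))) (by
      rw [S.ρcomm (by omega) hc (by omega)]
      exact fun e => h.mv' h1 (by omega) (S.ρinj _ e))
    have k2 := h.only (lo + 1) (by omega) (by omega) (S.ρ c (S.π (Φ (lo + 1)))) (by
      rw [S.ρcomm (by omega) hc (by omega)]
      exact fun e => h.mv (by omega) (by omega) (S.ρinj _ e))
    rcases k1 with k1 | k1
    · rcases k2 with k2 | k2
      · exact k2
      · have := h.inj _ _ h1 (by omega) (by omega) (by omega) (k1.symm.trans k2)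
        omega
    · exact k1
  have b0 : S.ρ c (S.π (Φ lo)) = S.π (Φ lo) := by
    rw [← h.ρnx' h1 (by omega)]
    exact S.fix_comm hc (by omega) (by omega) b
  induction j, j1 using Nat.le_induction with
  | base => exact b0
  | succ j hj ih =>
    rw [← h.ρnx (by omega) (by omega)]
    exact S.fix_comm hc (by omega) (by omega) (ih (by omega))

theorem fx {j c : ℕ} (j1 : u ≤ j) (j2 : j ≤ v) (hc : c < d) (c1 : c ≠ j) (c2 : c + 1 ≠ j) :
    S.ρ c (S.π (Φ j)) = S.π (Φ j) := by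
  have len := h.len
  by_cases k1 : c < u
  · exact h.fx0 (lo := max u (c + 2)) (hi := v) hc (by omega) (by omega) le_rfl (by omega) j
      (by omega) j2
  by_cases k2 : v ≤ c
  · exact h.fx0 (lo := u) (hi := min v (c - 1)) hc le_rfl (by omega) (by omega) (by omega) j
      j1 (by omega)
  by_contra hm
  rcases h.only c (by omega) (by omega) _ hm with e | e
  · have := h.inj _ _ j1 j2 (by omega) (by omega) e; omega
  · have := h.inj _ _ j1 j2 (by omega) (by omega) e; omega

theorem Lfix {x : S.X} (hx : Conn S.ρ (Set.Iio u) (S.π (Φ u)) x) {c : ℕ} (hc : c < d)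
    (c1 : u + 1 ≤ c) : S.ρ c x = x := by
  have len := h.len
  refine hx.ind (fun x => S.ρ c x = x) (h.fx le_rfl (by omega) hc (by omega) (by omega)) ?_
  intro i hi x hx
  simp only [Set.mem_Iio] at hi
  exact S.fix_comm hc (by omega) (by omega) hx

theorem Rfix {x : S.X} (hx : Conn S.ρ (Set.Ico v d) (S.π (Φ v)) x) {c : ℕ} (c1 : c + 2 ≤ v) :
    S.ρ c x = x := by
  have len := h.len
  have vd := h.vd
  refine hx.ind (fun x => S.ρ c x = x) (h.fx (by omega) le_rfl (by omega) (by omega) (by omega)) ?_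
  intro i hi x hx
  simp only [Set.mem_Ico] at hi
  exact S.fix_comm (by omega) (by omega) (by omega) hx

theorem cover (hG : S.Glob) (x : S.X) : Conn S.ρ (Set.Iio u) (S.π (Φ u)) x ∨
    (∃ j, u ≤ j ∧ j ≤ v ∧ x = S.π (Φ j)) ∨ Conn S.ρ (Set.Ico v d) (S.π (Φ v)) x := by
  have len := h.len
  have vd := h.vd
  refine (hG.conn (S.π (Φ u)) x).ind (fun x => Conn S.ρ (Set.Iio u) (S.π (Φ u)) x ∨
    (∃ j, u ≤ j ∧ j ≤ v ∧ x = S.π (Φ j)) ∨ Conn S.ρ (Set.Ico v d) (S.π (Φ v)) x)
    (Or.inl (Conn.refl _)) ?_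
  intro c hc x hx
  simp only [Set.mem_Iio] at hc
  by_cases hm : S.ρ c x = x
  · rw [hm]; exact hx
  by_cases hw : u ≤ c ∧ c < v
  · rcases h.only c hw.1 hw.2 x hm with rfl | rfl
    · exact Or.inr (Or.inl ⟨c + 1, by omega, by omega, h.ρnx hw.1 hw.2⟩)
    · exact Or.inr (Or.inl ⟨c, by omega, by omega, h.ρnx' hw.1 hw.2⟩)
  rcases hx with hx | ⟨j, j1, j2, rfl⟩ | hx
  · by_cases k : c < u
    · exact Or.inl (hx.step k)
    · exact absurd (h.Lfix hx hc (by omega)) hm
  · by_cases e1 : c = j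
    · have : j = v := by omega
      subst e1; subst this
      exact Or.inr (Or.inr ((Conn.refl _).step ⟨le_rfl, hc⟩))
    by_cases e2 : c + 1 = j
    · have : j = u := by omega
      subst this
      exact Or.inl ((Conn.refl _).step (by simp only [Set.mem_Iio]; omega))
    exact absurd (h.fx j1 j2 hc e1 e2) hm
  · by_cases k : v ≤ c
    · exact Or.inr (Or.inr (hx.step ⟨k, hc⟩))
    · exact absurd (h.Rfix hx (by omega)) hm

theorem notL {j : ℕ} (j1 : u < j) (j2 : j ≤ v) :
    ¬ Conn S.ρ (Set.Iio u) (S.π (Φ u)) (S.π (Φ j)) := by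
  have len := h.len
  have vd := h.vd
  intro hx
  by_cases e : j = v
  · obtain ⟨i, rfl⟩ : ∃ i, j = i + 1 := ⟨j - 1, by omega⟩
    exact h.mv' (i := i) (by omega) (by omega) (h.Lfix hx (by omega) (by omega))
  · exact h.mv (i := j) (by omega) (by omega) (h.Lfix hx (by omega) (by omega))

theorem rev : S.rev.Std (d - v) (d - u) (fun i => Φ (d - i)) where
  len := by have := h.len; have := h.vd; omega
  vd := by omega
  nx := fun i i1 i2 => by
    have := h.vd
    show Φ (d - (i + 1)) = S.r (d - 1 - i) (Φ (d - i))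
    rw [show d - i = d - 1 - i + 1 by omega, h.nx _ (by omega) (by omega), S.inv,
      show d - (i + 1) = d - 1 - i by omega]
  only := fun i i1 i2 x hx => by
    have := h.vd
    have k := h.only (d - 1 - i) (by omega) (by omega) x hx
    rw [show d - 1 - i + 1 = d - i by omega, show d - 1 - i = d - (i + 1) by omega] at k
    exact k.symm
  inj := fun i j i1 i2 j1 j2 e => by
    have := h.vd
    have := h.len
    have := h.inj (d - i) (d - j) (by omega) (by omega) (by omega) (by omega) e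
    omega

end Std

theorem Std.ext {c v : ℕ} {Φ : ℕ → S.F} (h : S.Std (c + 1) v Φ) (hG : S.Glob) :
    (∀ i, i < c + 1 → ∀ x, S.ρ i x = x) ∨ ∃ Φ', S.Std c v Φ' := by
  have len := h.len
  have vd := h.vd
  by_cases hw : S.ρ c (S.π (Φ (c + 1))) = S.π (Φ (c + 1))
  · left
    have f0 : ∀ i, i < c + 1 → S.ρ i (S.π (Φ (c + 1))) = S.π (Φ (c + 1)) := by
      intro i hi
      by_cases e : i = c
      · rw [e, hw]
      · exact h.fx le_rfl (by omega) (by omega) (by omega) (by omega)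
    intro i hi x
    rcases h.cover hG x with hx | ⟨j, j1, j2, rfl⟩ | hx
    · have : x = S.π (Φ (c + 1)) := by
        refine hx.ind (fun x => x = S.π (Φ (c + 1))) rfl ?_
        rintro b hb _ rfl
        exact f0 b hb
      rw [this]; exact f0 i hi
    · by_cases e : j = c + 1
      · rw [e]; exact f0 i hi
      · exact h.fx j1 j2 (by omega) (by omega) (by omega)
    · exact h.Rfix hx (by omega)
  right
  let Φ' : ℕ → S.F := update Φ c (S.r c (Φ (c + 1)))
  have e0 : Φ' c = S.r c (Φ (c + 1)) := update_self _ _ _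
  have e1 : ∀ i, c + 1 ≤ i → Φ' i = Φ i := fun i hi => update_of_ne (by omega) _ _
  have y0 : S.π (Φ' c) = S.ρ c (S.π (Φ (c + 1))) := by rw [e0, S.πr]
  have L0 : Conn S.ρ (Set.Iio (c + 1)) (S.π (Φ (c + 1))) (S.π (Φ' c)) := by
    rw [y0]; exact (Conn.refl _).step (by simp)
  have nx : ∀ i, c ≤ i → i < v → Φ' (i + 1) = S.r i (Φ' i) := by
    intro i i1 i2
    by_cases e : i = c
    · subst e; rw [e0, S.inv, e1 _ le_rfl]
    · rw [e1 _ (by omega), e1 _ (by omega), h.nx i (by omega) i2]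
  have ne0 : ∀ j, c + 1 ≤ j → j ≤ v → S.π (Φ' c) ≠ S.π (Φ j) := by
    intro j j1 j2 e
    by_cases k : j = c + 1
    · subst k; exact hw (y0 ▸ e)
    · exact h.notL (by omega) j2 (e ▸ L0)
  refine ⟨Φ', by omega, vd, nx, ?_, ?_⟩
  · intro i i1 i2 z hz
    by_cases e : i ≠ c
    · rw [e1 _ (by omega), e1 _ (by omega)]
      exact h.only i (by omega) i2 z hz
    push Not at e
    subst e
    rw [e1 _ le_rfl]
    by_contra hcon
    push Not at hcon
    have Lz : Conn S.ρ (Set.Iio (i + 1)) (S.π (Φ (i + 1))) z := by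
      rcases h.cover hG z with hx | ⟨j, j1, j2, rfl⟩ | hx
      · exact hx
      · by_cases e : j = i + 1
        · subst e; exact Conn.refl _
        · exact absurd (h.fx j1 j2 (by omega) (by omega) (by omega)) hz
      · exact absurd (h.Rfix hx (by omega)) hz
    have LF : ∀ x, Conn S.ρ (Set.Iio (i + 1)) (S.π (Φ (i + 1))) x → x ≠ S.π (Φ (i + 1)) →
        ∀ b, i + 1 ≤ b → b < d → S.ρ b x = x := by
      intro x hx hne b b1 b2
      by_cases e : b = i + 1
      · subst e
        by_contra hm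
        rcases h.only _ le_rfl (by omega) x hm with k | k
        · exact hne k
        · exact h.notL (j := i + 1 + 1) (by omega) (by omega) (k ▸ hx)
      · exact h.Lfix hx b2 (by omega)
    rcases i with _ | a
    · have : z = S.π (Φ (0 + 1)) ∨ z = S.π (Φ' 0) := by
        refine Lz.ind (fun z => z = S.π (Φ (0 + 1)) ∨ z = S.π (Φ' 0)) (Or.inl rfl) ?_
        intro b hb z hz
        have : b = 0 := by simpa using hb
        subst this
        rcases hz with rfl | rfl
        · exact Or.inr y0.symm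
        · left; rw [y0, S.ρinv]
      tauto
    have toL : ∀ x y, Conn S.ρ (Set.Iio (a + 1 + 1)) (S.π (Φ (a + 1 + 1))) x →
        Conn (fun i => S.ρ (a + i)) {0, 1} x y →
        Conn S.ρ (Set.Iio (a + 1 + 1)) (S.π (Φ (a + 1 + 1))) y := by
      intro x y hx hy
      refine hy.ind _ hx ?_
      rintro b (rfl | rfl) y hy
      · exact hy.step (by simp)
      · exact hy.step (by simp)
    by_cases hzc : Conn (fun i => S.ρ (a + i)) {0, 1} z (S.π (Φ (a + 1 + 1)))
    · refine tail (S.win a 9 (by omega)) (fun i => Φ' (a + i))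
        (fun i i1 i2 => nx (a + i) (by omega) (by omega)) (fun i i1 i2 => ?_)
        (fun j b j1 j2 b1 b2 b3 => ?_) (fun x hx hne b b1 b2 => ?_) z ?_ hcon.1 ?_ hz
      · show S.ρ (a + i) (S.π (Φ' (a + i))) ≠ S.π (Φ' (a + i))
        by_cases e : i = 1
        · subst e; rw [y0, S.ρinv]; exact Ne.symm hw
        · rw [e1 _ (by omega)]; exact h.mv (by omega) (by omega)
      · show S.ρ (a + b) (S.π (Φ' (a + j))) = S.π (Φ' (a + j))
        rw [e1 _ (by omega)]
        exact h.fx (by omega) (by omega) (by omega) (by omega) (by omega)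
      · have e2 : Φ' (a + 2) = Φ (a + 1 + 1) := e1 _ le_rfl
        simp only [e2] at hx hne
        exact LF x (toL _ x (Conn.refl _) hx) hne (a + b) (by omega) (by omega)
      · have e2 : Φ' (a + 2) = Φ (a + 1 + 1) := e1 _ le_rfl
        simp only [e2]
        exact hzc.symm fun c _ => S.ρinv _
      · have e2 : Φ' (a + 2) = Φ (a + 1 + 1) := e1 _ le_rfl
        simp only [e2]
        exact hcon.2
    · refine gosset (S.win a 9 (by omega)) z hz fun x hx b b1 b2 => ?_
      exact LF x (toL z x Lz hx) (fun e => hzc (e ▸ hx)) (a + b) (by omega) (by omega)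
  · intro i j i1 i2 j1 j2 e
    by_cases k1 : i = c
    · by_cases k2 : j = c
      · omega
      · rw [k1, e1 j (by omega)] at e
        exact absurd e (ne0 j (by omega) j2)
    · by_cases k2 : j = c
      · rw [k2, e1 i (by omega)] at e
        exact absurd e.symm (ne0 i (by omega) i2)
      · rw [e1 i (by omega), e1 j (by omega)] at e
        exact h.inj i j (by omega) i2 (by omega) j2 e

theorem Std.max_left {u v : ℕ} {Φ : ℕ → S.F} (h : S.Std u v Φ) (hG : S.Glob) :
    ∃ a Φ', a ≤ u ∧ S.Std a v Φ' ∧ ∀ i, i < a → ∀ x, S.ρ i x = x := by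
  induction u generalizing Φ with
  | zero => exact ⟨0, Φ, le_rfl, h, fun i hi => by omega⟩
  | succ c ih =>
    rcases h.ext hG with k | ⟨Φ', k⟩
    · exact ⟨c + 1, Φ, le_rfl, h, k⟩
    · obtain ⟨a, Φ'', a1, a2, a3⟩ := ih k
      exact ⟨a, Φ'', by omega, a2, a3⟩

theorem Std.left3 {a e : ℕ} {Φ : ℕ → S.F} (h : S.Std a e Φ)
    (ht : ∀ i, i < a → ∀ x, S.ρ i x = x) : a ≤ 3 := by
  by_contra hcon
  have len := h.len
  have vd := h.vd
  obtain ⟨b, rfl⟩ : ∃ b, a = b + 4 := ⟨a - 4, by omega⟩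
  refine path_four (S.win b 9 (by omega)) (Φ := fun i => Φ (b + i)) ⟨le_rfl,
    fun i i1 i2 => h.nx (b + i) (by omega) (by omega), fun i i1 i2 => h.mv (by omega) (by omega),
    fun j c j1 j2 c1 k1 k2 => ?_⟩
  by_cases k : c < 4
  · exact ht (b + c) (by omega) _
  · exact h.fx (by omega) (by omega) (by omega) (by omega) (by omega)

/-- a long standard window determines everything -/
theorem Std.final {u v : ℕ} {Φ : ℕ → S.F} (h : S.Std u v Φ) (hG : S.Glob) :
    ∃ a b, a + b ≤ 3 ∧ Nat.card S.X + a + b = d + 1 ∧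
      ∀ i, i < d → (i < a ∨ d ≤ i + b) → ∀ x, S.ρ i x = x := by
  obtain ⟨b, Φ1, b1, b2, b3⟩ := h.rev.max_left hG.rev
  have hb := b2.left3 b3
  have h2 : S.Std (d - (d - u)) (d - b) (fun i => Φ1 (d - i)) := by
    have k := b2.rev
    refine ⟨k.len, k.vd, fun i i1 i2 => ?_, fun i i1 i2 x hx => ?_, k.inj⟩
    · have := k.nx i i1 i2
      rw [show S.rev.rev.r i = S.r i from congrArg S.r (by omega)] at this
      exact this
    · exact k.only i i1 i2 x (by
        rw [show S.rev.rev.ρ i = S.ρ i from congrArg S.ρ (by omega)]; exact hx)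
  obtain ⟨a, Ψ, a1, a2, a3⟩ := h2.max_left hG
  have ha := a2.left3 a3
  have len := a2.len
  have tb : ∀ i, i < d → d ≤ i + b → ∀ x, S.ρ i x = x := by
    intro i i1 i2 x
    have : S.ρ (d - 1 - (d - 1 - i)) x = x := b3 (d - 1 - i) (by omega) x
    rwa [show d - 1 - (d - 1 - i) = i by omega] at this
  have hab : a = 0 ∨ b = 0 := by
    by_contra hcon
    obtain ⟨a, rfl⟩ : ∃ a', a = a' + 1 := ⟨a - 1, by omega⟩
    refine path_both (n := d - b - a) (S.win a (d - b - a + 1) (by omega)) (by omega)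
      (Φ := fun i => Ψ (a + i)) ⟨by omega, fun i i1 i2 => a2.nx (a + i) (by omega) (by omega),
      fun i i1 i2 => a2.mv (by omega) (by omega), fun j c j1 j2 c1 k1 k2 => ?_⟩
    by_cases k : c = 0
    · exact a3 (a + c) (by omega) _
    by_cases k' : c = d - b - a
    · exact tb (a + c) (by omega) (by omega) _
    exact a2.fx (by omega) (by omega) (by omega) (by omega) (by omega)
  refine ⟨a, b, by omega, ?_, fun i i1 i2 => i2.elim (a3 i) (tb i i1)⟩
  have hbij : Bijective (fun j : Set.Icc a (d - b) => S.π (Ψ j)) := by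
    constructor
    · intro i j e
      exact Subtype.ext (a2.inj _ _ i.2.1 i.2.2 j.2.1 j.2.2 e)
    · intro x
      rcases a2.cover hG x with hx | ⟨j, j1, j2, rfl⟩ | hx
      · refine ⟨⟨a, le_rfl, by omega⟩, ?_⟩
        refine hx.ind (fun x => S.π (Ψ a) = x) rfl ?_
        rintro c hc _ rfl
        exact (a3 c hc _).symm
      · exact ⟨⟨j, j1, j2⟩, rfl⟩
      · refine ⟨⟨d - b, by omega, le_rfl⟩, ?_⟩
        refine hx.ind (fun x => S.π (Ψ (d - b)) = x) rfl ?_
        rintro c hc _ rfl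
        exact (tb c hc.2 (by have := hc.1; omega) _).symm
  rw [← Nat.card_eq_of_bijective _ hbij, Nat.card_eq_fintype_card, Fintype.card_ofFinset,
    Nat.card_Icc]
  omega

end GSys

end Pool.Agent.Lib.MP_7157e1_co
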