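import Pool.Agent.Lib.MP_7157e1_co.G7

/-! Counting, part one: gaps of a minimal transitive set of colours. -/

namespace Pool.Agent.Lib.MP_7157e1_co
open Function Finset

open Classical in
/-- class of a point -/
noncomputable def cls {X : Type} [Fintype X] (ρ : ℕ → X → X) (s : Set ℕ) (x : X) : Finset X :=
  univ.filter (Conn ρ s x)

section
variable {X : Type} [Fintype X] {ρ : ℕ → X → X} {s : Set ℕ}

theorem mem_cls {x y : X} : y ∈ cls ρ s x ↔ Conn ρ s x y := by simp [cls]

theorem cls_eq (hinv : ∀ i x, ρ i (ρ i x) = x) {x y : X} : cls ρ s x = cls ρ s y ↔ Conn ρ s x y := by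
  constructor
  · intro h
    rw [← mem_cls, h, mem_cls]; exact Conn.refl _
  · intro h
    ext z
    rw [mem_cls, mem_cls]
    exact ⟨(h.symm fun i _ => hinv i).trans, h.trans⟩

theorem cls_card_map (hinv : ∀ i x, ρ i (ρ i x) = x) {b : ℕ}
    (hb : ∀ i ∈ s, ∀ x, ρ b (ρ i x) = ρ i (ρ b x)) (x : X) :
    (cls ρ s (ρ b x)).card = (cls ρ s x).card := by
  have key : ∀ x, (cls ρ s x).card ≤ (cls ρ s (ρ b x)).card := by
    intro x
    refine card_le_card_of_injOn (ρ b) (fun y hy => ?_)
      (fun y _ z _ e => by rw [← hinv b y, e, hinv])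
    rw [mem_coe, mem_cls] at hy ⊢
    exact hy.map (ρ b) fun i hi => ⟨i, hi, hb i hi⟩
  refine le_antisymm ?_ (key x)
  have := key (ρ b x)
  rwa [hinv] at this

theorem cls_double (hinv : ∀ i x, ρ i (ρ i x) = x) {s' : Set ℕ} (hs : s ⊆ s') {x y : X}
    (h1 : ¬ Conn ρ s x y) (h2 : Conn ρ s' x y) :
    (cls ρ s x).card + (cls ρ s y).card ≤ (cls ρ s' x).card := by
  classical
  rw [← card_union_of_disjoint]
  · refine card_le_card fun z hz => ?_
    rw [mem_union, mem_cls, mem_cls] at hz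
    rw [mem_cls]
    exact hz.elim (fun h => h.mono hs) fun h => h2.trans (h.mono hs)
  · rw [disjoint_left]
    intro z k1 k2
    rw [mem_cls] at k1 k2
    exact h1 (k1.trans (k2.symm fun i _ => hinv i))

end

namespace GSys

theorem X1' (S : GSys 5) (h : ∀ i, i < 4 → ∀ Φ Ψ, S.p i Ψ = S.p i Φ) (Φ : S.F) :
    S.p 1 Φ = 3 ∧ S.p 2 Φ = 3 := by
  refine ⟨X1 S Φ fun Ψ _ i hi => h i hi _ _, ?_⟩
  have := X1 S.rev Φ fun Ψ _ i hi => by
    rw [S.p_rev (by omega), S.p_rev (by omega)]; exact h _ (by omega) _ _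
  rwa [S.p_rev (by norm_num)] at this

variable {d : ℕ} {S : GSys d}

theorem Glob.deep (hG : S.Glob) (hk : ∃ x y : S.X, x ≠ y) {J : Set ℕ} (hJ : ∀ i ∈ J, i < d)
    (htr : ∀ x y, Conn S.ρ J x y) {a : ℕ} (ha : a + 10 < d)
    (hdeep : ∀ i, a ≤ i → i ≤ a + 10 → i ∉ J)
    (hc : ∀ x, S.ρ (a + 7) (S.ρ (a + 8) x) = S.ρ (a + 8) (S.ρ (a + 7) x)) : False := by
  have pc : ∀ l, a + 1 ≤ l → l ≤ a + 8 → ∀ Φ Ψ, S.p l Ψ = S.p l Φ := by
    intro l l1 l2 Φ Ψ
    refine (htr (S.π Φ) (S.π Ψ)).ind (fun y => ∀ Ψ, S.π Ψ = y → S.p l Ψ = S.p l Φ)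
      (fun Ψ e => S.p_π e.symm l) ?_ Ψ rfl
    intro j hj y hy Ψ e
    have j1 : ¬ (a ≤ j ∧ j ≤ a + 10) := fun h => hdeep j h.1 h.2 hj
    rw [← hy (S.r j Ψ) (by rw [S.πr, e, S.ρinv]),
      S.p_r (by omega) (hJ j hj) (by omega) (by omega)]
  have p3 : ∀ i, a + 2 ≤ i → i ≤ a + 7 → ∀ Φ, S.p i Φ = 3 := by
    intro i i1 i2 Φ
    by_cases e : i = a + 7
    · subst e
      exact (X1' (S.win (a + 5) 5 (by omega))
        (fun l hl => pc (a + 5 + l) (by omega) (by omega)) Φ).2
    · obtain ⟨i, rfl⟩ : ∃ j, i = j + 1 := ⟨i - 1, by omega⟩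
      exact (X1' (S.win i 5 (by omega)) (fun l hl => pc (i + l) (by omega) (by omega)) Φ).1
  have br : ∀ i, a + 2 ≤ i → i ≤ a + 7 →
      (∀ x, S.ρ i (S.ρ (i + 1) x) = S.ρ (i + 1) (S.ρ i x)) → S.ρ i = S.ρ (i + 1) := by
    intro i i1 i2 hcm
    funext x
    obtain ⟨Φ, rfl⟩ := S.surj x
    have h3 : (S.r i ∘ S.r (i + 1))^[3] Φ = Φ := S.p_dvd.2 (by rw [p3 i i1 i2])
    have h4 := congrArg S.π h3
    simp only [iterate_succ, iterate_zero, comp_apply, id, S.πr] at h4
    rw [← hcm, S.ρinv, S.ρinv] at h4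
    conv_lhs => rw [← h4, S.ρinv]
  have eq1 : ∀ l, l ≤ 5 → S.ρ (a + 7 - l) = S.ρ (a + 7 - l + 1) := by
    intro l
    induction l with
    | zero => exact fun _ => br _ (by omega) (by omega) hc
    | succ l ih =>
      intro hl
      refine br _ (by omega) (by omega) fun x => ?_
      rw [show a + 7 - (l + 1) + 1 = a + 7 - l by omega, ih (by omega)]
      exact S.ρcomm (by omega) (by omega) (by omega) x
  have eq2 : ∀ l, l ≤ 6 → S.ρ (a + 8 - l) = S.ρ (a + 8) := by
    intro l
    induction l with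
    | zero => exact fun _ => rfl
    | succ l ih =>
      intro hl
      rw [show a + 8 - (l + 1) = a + 7 - l by omega, eq1 l (by omega),
        show a + 7 - l + 1 = a + 8 - l by omega, ih (by omega)]
  have triv : ∀ x, S.ρ (a + 8) x = x := by
    intro x
    obtain ⟨Φ, rfl⟩ := S.surj x
    rw [← S.πr]
    refine (hG.rig (fun Φ Ψ => S.π Ψ = S.ρ (a + 8) (S.π Φ)) ?_ ?_ Φ _ (S.πr _ _)).symm
    · intro Φ Ψ e i hi
      rw [S.πr, S.πr, e]
      by_cases k : i ≤ a + 6
      · exact S.ρcomm hi (by omega) (by omega) _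
      · rw [← eq2 6 le_rfl]; exact S.ρcomm hi (by omega) (by omega) _
    · intro Φ Ψ e i hi
      by_cases k : a + 8 + 1 ≠ i ∧ a + 8 ≠ i + 2
      · rw [← S.πr] at e
        rw [S.p_π e.symm, S.p_r hi (by omega) k.1 k.2]
      · rw [← eq2 1 (by norm_num), ← S.πr] at e
        rw [S.p_π e.symm, S.p_r hi (by omega) (by omega) (by omega)]
  obtain ⟨x, y, hxy⟩ := hk
  refine hxy (hG.lemG (a + 2) (by omega) (fun i i1 i2 x => ?_) x y)
  rw [show i = a + 8 - (a + 8 - i) by omega, eq2 _ (by omega)]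
  exact triv x

variable [Fintype S.X]

theorem Glob.deep_card (hG : S.Glob) (hk : ∃ x y : S.X, x ≠ y) {J : Set ℕ} (hJ : ∀ i ∈ J, i < d)
    (htr : ∀ x y, Conn S.ρ J x y) (Z : Finset ℕ)
    (hZ : ∀ h ∈ Z, 7 ≤ h ∧ h + 3 < d ∧ ∀ i, h ≤ i + 7 → i ≤ h + 3 → i ∉ J)
    (hp : ∀ h ∈ Z, h + 1 ∉ Z) : 2 ^ Z.card ≤ Fintype.card S.X := by
  obtain ⟨x0, -, -⟩ := id hk
  have key : ∀ t, 2 ^ (Z.filter (· < t)).card ≤ (cls S.ρ {h | h ∈ Z ∧ h < t} x0).card := by
    intro t
    induction t with
    | zero =>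
      simp only [Nat.not_lt_zero, filter_false, card_empty, pow_zero]
      exact card_pos.2 ⟨x0, mem_cls.2 (Conn.refl _)⟩
    | succ t ih =>
      have hsub : {h | h ∈ Z ∧ h < t} ⊆ {h | h ∈ Z ∧ h < t + 1} :=
        fun h hh => ⟨hh.1, by have := hh.2; omega⟩
      by_cases ht : t ∈ Z
      · have e : Z.filter (· < t + 1) = insert t (Z.filter (· < t)) := by
          ext h; simp only [mem_filter, mem_insert]
          constructor
          · rintro ⟨h1, h2⟩
            by_cases e : h = t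
            · exact Or.inl e
            · exact Or.inr ⟨h1, by omega⟩
          · rintro (rfl | ⟨h1, h2⟩)
            · exact ⟨ht, by omega⟩
            · exact ⟨h1, by omega⟩
        rw [e, card_insert_of_notMem (by simp), pow_succ]
        obtain ⟨t1, t2, t3⟩ := hZ t ht
        have far : ∀ h, h ∈ Z → h < t → h + 2 ≤ t := by
          intro h h1 h2
          by_contra hcon
          exact hp h h1 (by rw [show h + 1 = t by omega]; exact ht)
        have cJ : ∀ h ∈ Z, ∀ j ∈ J, ∀ x, S.ρ h (S.ρ j x) = S.ρ j (S.ρ h x) := by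
          intro h hh j hj x
          obtain ⟨u1, u2, u3⟩ := hZ h hh
          have : ¬ (h ≤ j + 7 ∧ j ≤ h + 3) := fun k => u3 j k.1 k.2 hj
          exact S.ρcomm (by omega) (hJ j hj) (by omega) x
        have hn : ¬ Conn S.ρ {h | h ∈ Z ∧ h < t} x0 (S.ρ t x0) := by
          intro hc
          obtain ⟨w, w1, w2, w3⟩ : ∃ w : S.X → S.X, (∀ j ∈ J, ∀ x, w (S.ρ j x) = S.ρ j (w x)) ∧
              (∀ x, w (S.ρ (t + 1) x) = S.ρ (t + 1) (w x)) ∧ w x0 = S.ρ t x0 := by
            refine hc.ind (fun y => ∃ w : S.X → S.X, (∀ j ∈ J, ∀ x, w (S.ρ j x) = S.ρ j (w x)) ∧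
              (∀ x, w (S.ρ (t + 1) x) = S.ρ (t + 1) (w x)) ∧ w x0 = y)
              ⟨id, fun _ _ _ => rfl, fun _ => rfl, rfl⟩ ?_
            rintro h ⟨h1, h2⟩ _ ⟨w, w1, w2, rfl⟩
            refine ⟨fun x => S.ρ h (w x), fun j hj x => ?_, fun x => ?_, rfl⟩
            · beta_reduce
              rw [w1 j hj, cJ h h1 j hj]
            · have := far h h1 h2
              beta_reduce
              rw [w2, S.ρcomm (by omega) (by omega) (by omega)]
          have ew : ∀ x, w x = S.ρ t x := by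
            intro x
            refine (htr x0 x).ind (fun x => w x = S.ρ t x) w3 fun j hj x hx => ?_
            rw [w1 j hj, hx, cJ t ht j hj]
          obtain ⟨a, rfl⟩ : ∃ a, t = a + 7 := ⟨t - 7, by omega⟩
          refine hG.deep hk hJ htr (a := a) (by omega) (fun i i1 i2 => t3 i (by omega) (by omega))
            fun x => ?_
          rw [← ew, ← ew]; exact w2 x
        have h2 := cls_double S.ρinv hsub hn ((Conn.refl _).step ⟨ht, by omega⟩)
        rw [cls_card_map S.ρinv fun i hi x => S.ρcomm (by omega) (by have := hi.2; omega)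
          (Or.inr (far i hi.1 hi.2)) x] at h2
        omega
      · have e : Z.filter (· < t + 1) = Z.filter (· < t) := by
          ext h; simp only [mem_filter]
          constructor
          · rintro ⟨h1, h2⟩
            refine ⟨h1, ?_⟩
            by_contra hcon
            exact ht (by rw [show t = h by omega]; exact h1)
          · rintro ⟨h1, h2⟩; exact ⟨h1, by omega⟩
        rw [e]
        refine ih.trans (card_le_card fun z hz => ?_)
        rw [mem_cls] at hz ⊢
        exact hz.mono hsub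
  have := key d
  rw [filter_true_of_mem fun h hh => by have := (hZ h hh).2.1; omega] at this
  exact this.trans (card_le_univ _)

theorem start_card {J : Finset ℕ} (hJ : ∀ i ∈ J, i < d) (htr : ∀ x y, Conn S.ρ J x y)
    (hmin : ∀ t ∈ J, ∃ x, ¬ Conn S.ρ {i | i ∈ J ∧ i < t} x (S.ρ t x)) (x0 : S.X) :
    2 ^ (J.filter (fun j => j = 0 ∨ j - 1 ∉ J)).card ≤ Fintype.card S.X := by
  set C := J.filter (fun j => j = 0 ∨ j - 1 ∉ J) with hC
  have hom : ∀ t, (t = 0 ∨ t - 1 ∉ J ∨ t ∉ J) → ∀ x y,
      (cls S.ρ {i | i ∈ J ∧ i < t} y).card = (cls S.ρ {i | i ∈ J ∧ i < t} x).card := by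
    intro t ht x y
    refine (htr x y).ind (fun y => (cls S.ρ {i | i ∈ J ∧ i < t} y).card = _) rfl ?_
    intro b hb y hy
    rw [← hy]
    by_cases k : b < t
    · rw [(cls_eq S.ρinv).2 ((Conn.refl y).step (s := {i | i ∈ J ∧ i < t}) ⟨hb, k⟩)]
    · refine cls_card_map S.ρinv (fun i hi x => S.ρcomm (hJ b hb) (hJ i hi.1) ?_ x) y
      have i2 := hi.2
      by_contra hcon
      have e1 : b = t := by omega
      have e2 : i = t - 1 := by omega
      rcases ht with h | h | h
      · omega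
      · exact h (e2 ▸ hi.1)
      · exact h (e1 ▸ hb)
  have key : ∀ t b, t ≤ b → (b = 0 ∨ b - 1 ∉ J ∨ b ∉ J) →
      2 ^ (C.filter (· < t)).card ≤ (cls S.ρ {i | i ∈ J ∧ i < b} x0).card := by
    intro t
    induction t with
    | zero =>
      intro b _ _
      simp only [Nat.not_lt_zero, filter_false, card_empty, pow_zero]
      exact card_pos.2 ⟨x0, mem_cls.2 (Conn.refl _)⟩
    | succ t ih =>
      intro b hb hcut
      by_cases ht : t ∈ C
      · have e : C.filter (· < t + 1) = insert t (C.filter (· < t)) := by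
          ext h; simp only [mem_filter (s := C), mem_insert]
          constructor
          · rintro ⟨h1, h2⟩
            by_cases e : h = t
            · exact Or.inl e
            · exact Or.inr ⟨h1, by omega⟩
          · rintro (rfl | ⟨h1, h2⟩)
            · exact ⟨ht, by omega⟩
            · exact ⟨h1, by omega⟩
        rw [e, card_insert_of_notMem (by simp), pow_succ]
        obtain ⟨t1, t2⟩ := mem_filter.1 ht
        have cut : t = 0 ∨ t - 1 ∉ J ∨ t ∉ J := by tauto
        obtain ⟨x, hx⟩ := hmin t t1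
        have h2 := cls_double S.ρinv (s' := {i | i ∈ J ∧ i < b})
          (fun i hi => ⟨hi.1, by have := hi.2; omega⟩) hx ((Conn.refl _).step ⟨t1, by omega⟩)
        rw [hom t cut x0 x, hom t cut x0 (S.ρ t x), hom b hcut x0 x] at h2
        have := ih t le_rfl cut
        omega
      · have e : C.filter (· < t + 1) = C.filter (· < t) := by
          ext h; simp only [mem_filter (s := C)]
          constructor
          · rintro ⟨h1, h2⟩
            refine ⟨h1, ?_⟩
            by_contra hcon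
            exact ht (by rw [show t = h by omega]; exact h1)
          · rintro ⟨h1, h2⟩; exact ⟨h1, by omega⟩
        rw [e]
        exact ih b (by omega) hcut
  have := key d d le_rfl (Or.inr (Or.inr fun h => lt_irrefl _ (hJ d h)))
  rw [filter_true_of_mem fun h hh => hJ h (mem_filter.1 hh).1] at this
  exact this.trans (card_le_univ _)

theorem Glob.gap (hG : S.Glob) (hk : ∃ x y : S.X, x ≠ y) {J : Finset ℕ} (hJ : ∀ i ∈ J, i < d)
    (htr : ∀ x y, Conn S.ρ J x y)
    (hmin : ∀ t ∈ J, ∃ x, ¬ Conn S.ρ {i | i ∈ J ∧ i < t} x (S.ρ t x)) :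
    ((range d).filter (· ∉ J)).card ≤ 12 * Nat.log 2 (Fintype.card S.X) + 10 := by
  classical
  obtain ⟨x0, -, -⟩ := id hk
  let deep : ℕ → Prop := fun h => 7 ≤ h ∧ h + 3 < d ∧ ∀ i, h ≤ i + 7 → i ≤ h + 3 → i ∉ J
  have z : ∀ ε, ((range d).filter (fun h => deep h ∧ h % 2 = ε)).card ≤
      Nat.log 2 (Fintype.card S.X) := by
    intro ε
    refine Nat.le_log_of_pow_le (by norm_num) (hG.deep_card hk (J := J) hJ htr _ ?_ ?_)
    · intro h hh; exact (mem_filter.1 hh).2.1
    · intro h h1 h2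
      have := (mem_filter.1 h1).2.2
      have := (mem_filter.1 h2).2.2
      omega
  have c := Nat.le_log_of_pow_le (by norm_num) (start_card hJ htr hmin x0)
  have ex : ∀ h, ∃ c, h < c ∧ (c ∈ J ∨ d ≤ c) := fun h => ⟨h + d + 1, by omega, Or.inr (by omega)⟩
  have n : ((range d).filter (fun h => h ∉ J ∧ ¬ deep h)).card ≤
      10 * (insert d (J.filter (fun j => j = 0 ∨ j - 1 ∉ J))).card := by
    refine card_le_mul_card_image_of_maps_to (f := fun h => Nat.find (ex h)) ?_ 10 ?_
    · intro h hh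
      obtain ⟨h1, h2, -⟩ := mem_filter.1 hh
      rw [mem_range] at h1
      obtain ⟨k1, k2⟩ := Nat.find_spec (ex h)
      have k3 := fun m => Nat.find_min (ex h) (m := m)
      generalize Nat.find (ex h) = c at k1 k2 k3
      rw [mem_insert, mem_filter]
      by_cases e : d ≤ c
      · left
        by_contra hcon
        exact k3 d (by omega) ⟨h1, Or.inr le_rfl⟩
      · right
        refine ⟨by tauto, Or.inr fun hc => ?_⟩
        by_cases e2 : c - 1 = h
        · exact h2 (e2 ▸ hc)
        · exact k3 (c - 1) (by omega) ⟨by omega, Or.inl hc⟩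
    · intro c _
      set Fc := ((range d).filter (fun h => h ∉ J ∧ ¬ deep h)).filter
        (fun h => Nat.find (ex h) = c) with hFc
      rcases Fc.eq_empty_or_nonempty with e | hne
      · rw [e]; simp
      have m0 := Fc.min'_mem hne
      have m1 : ∀ x ∈ Fc, Fc.min' hne ≤ x := fun x hx => Fc.min'_le x hx
      generalize Fc.min' hne = h0 at m0 m1
      have : Fc ⊆ Ico h0 (h0 + 7) ∪ Ico (c - 3) c := by
        intro h hh
        have q0 := m1 h hh
        obtain ⟨q1, q2⟩ := mem_filter.1 hh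
        obtain ⟨q3, q4, q5⟩ := mem_filter.1 q1
        obtain ⟨r1, r2⟩ := mem_filter.1 m0
        obtain ⟨-, r4, -⟩ := mem_filter.1 r1
        rw [mem_range] at q3
        obtain ⟨k1, k2⟩ := Nat.find_spec (ex h)
        have k3 := fun m => Nat.find_min (ex h) (m := m)
        have k4 := fun m => Nat.find_min (ex h0) (m := m)
        rw [q2] at k1 k2 k3
        rw [r2] at k4
        simp only [mem_union, mem_Ico]
        by_contra hcon
        apply q5
        have cd : c ≤ d := by
          by_contra hc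
          exact k3 d (by omega) ⟨q3, Or.inr le_rfl⟩
        refine ⟨by omega, by omega, fun i i1 i2 hi => ?_⟩
        by_cases e : i = h0
        · exact r4 (e ▸ hi)
        · exact k4 i (by omega) ⟨by omega, Or.inl hi⟩
      refine (card_le_card this).trans ((card_union_le _ _).trans ?_)
      simp only [Nat.card_Ico]
      omega
  have sub : (range d).filter (· ∉ J) ⊆ ((range d).filter (fun h => deep h ∧ h % 2 = 0) ∪
      (range d).filter (fun h => deep h ∧ h % 2 = 1)) ∪
      (range d).filter (fun h => h ∉ J ∧ ¬ deep h) := by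
    intro h hh
    obtain ⟨h1, h2⟩ := mem_filter.1 hh
    simp only [mem_union, mem_filter]
    have := Nat.mod_two_eq_zero_or_one h
    tauto
  have s1 := (card_le_card sub).trans (card_union_le _ _)
  have s2 := card_union_le ((range d).filter (fun h => deep h ∧ h % 2 = 0))
    ((range d).filter (fun h => deep h ∧ h % 2 = 1))
  have s3 := card_insert_le d (J.filter (fun j => j = 0 ∨ j - 1 ∉ J))
  have := z 0
  have := z 1
  omega

end GSys

end Pool.Agent.Lib.MP_7157e1_co
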