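import Pool.Agent.Lib.MP_7157e1_co.G8

/-! Counting, part two: merges and births along a minimal transitive set of colours. -/

namespace Pool.Agent.Lib.MP_7157e1_co
open Function Finset

theorem fib_bound {α β : Type} [DecidableEq α] [DecidableEq β] (f : α → β) (s N : Finset α)
    (hN : N ⊆ s) (h : ∀ a ∈ N, ∃ a' ∈ s, a' ≠ a ∧ f a' = f a) :
    N.card + 2 * (s.image f).card ≤ 2 * s.card := by
  rw [card_eq_sum_card_fiberwise (f := f) (s := N) (t := s.image f)
    (fun a ha => mem_coe.2 (mem_image_of_mem f (hN ha))), card_eq_sum_card_image f s,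
    card_eq_sum_ones (s.image f), mul_sum, mul_sum, ← sum_add_distrib]
  refine sum_le_sum fun b hb => ?_
  rcases (N.filter (fun a => f a = b)).eq_empty_or_nonempty with e | ⟨a, ha⟩
  · obtain ⟨a, ha, rfl⟩ := mem_image.1 hb
    have : 0 < (s.filter (fun x => f x = f a)).card := card_pos.2 ⟨a, by simp [ha]⟩
    rw [e, card_empty]; omega
  · obtain ⟨a1, a2⟩ := mem_filter.1 ha
    obtain ⟨a', b1, b2, b3⟩ := h a a1
    have h1 : 1 < (s.filter (fun x => f x = b)).card :=
      one_lt_card.2 ⟨a', by simp [b1, b3, a2], a, by simp [hN a1, a2], b2⟩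
    have h2 := card_le_card (filter_subset_filter (fun x => f x = b) hN)
    omega

namespace GSys
variable {d : ℕ} (S : GSys d) [Fintype S.X] (J : Finset ℕ)

/-- class for the colours of `J` below `t` -/
noncomputable def cl (t : ℕ) (x : S.X) : Finset S.X := cls S.ρ {i | i ∈ J ∧ i < t} x

open Classical in
/-- number of classes meeting `A` -/
noncomputable def nc (t : ℕ) (A : Finset S.X) : ℕ := (A.image (S.cl J t)).card

/-- not yet moved -/
def Un (t : ℕ) (x : S.X) : Prop := ∀ i ∈ J, i < t → S.ρ i x = x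

/-- moved for the first time -/
def Born (t : ℕ) (x : S.X) : Prop := S.Un J t x ∧ ¬ S.Un J (t + 1) x

variable {S J}

theorem cl_eq {t : ℕ} {x y : S.X} :
    S.cl J t x = S.cl J t y ↔ Conn S.ρ {i | i ∈ J ∧ i < t} x y := cls_eq S.ρinv

theorem cl_mono {t t' : ℕ} (h : t ≤ t') {x y : S.X} (e : S.cl J t x = S.cl J t y) :
    S.cl J t' x = S.cl J t' y :=
  cl_eq.2 ((cl_eq.1 e).mono (s' := {i | i ∈ J ∧ i < t'})
    fun _ hi => ⟨hi.1, lt_of_lt_of_le hi.2 h⟩)

theorem cl_step {t i : ℕ} (hi : i ∈ J) (h : i < t) (x : S.X) :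
    S.cl J t (S.ρ i x) = S.cl J t x := 
  (cl_eq.2 ((Conn.refl x).step (s := {i | i ∈ J ∧ i < t}) ⟨hi, h⟩)).symm

omit [Fintype S.X] in
theorem Un.mono {t t' : ℕ} (h : t ≤ t') {x : S.X} (hx : S.Un J t' x) : S.Un J t x :=
  fun i hi k => hx i hi (by omega)

theorem Un.eq {t : ℕ} {x y : S.X} (hx : S.Un J t x) (e : S.cl J t x = S.cl J t y) : x = y := by
  refine (cl_eq.1 e).ind (fun y => x = y) rfl ?_
  rintro i hi _ rfl
  exact (hx i hi.1 hi.2).symm

omit [Fintype S.X] in
theorem Born.spec {t : ℕ} {x : S.X} (h : S.Born J t x) : t ∈ J ∧ S.ρ t x ≠ x := by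
  by_contra hc
  refine h.2 fun i hi k => ?_
  by_cases e : i = t
  · subst e; by_contra k2; exact hc ⟨hi, k2⟩
  · exact h.1 i hi (by omega)

omit [Fintype S.X] in
theorem Born.of {t : ℕ} {x : S.X} (h : S.Un J t x) (ht : t ∈ J) (hx : S.ρ t x ≠ x) :
    S.Born J t x := ⟨h, fun k => hx (k t ht (by omega))⟩

omit [Fintype S.X] in
theorem Un.map (hJ : ∀ i ∈ J, i < d) {t s : ℕ} (hs : s < d) (h : t + 1 ≤ s) {x : S.X}
    (hx : S.Un J t x) : S.Un J t (S.ρ s x) :=
  fun i hi k => S.fix_comm (hJ i hi) hs (by omega) (hx i hi k)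

omit [Fintype S.X] in
theorem Born.map (hJ : ∀ i ∈ J, i < d) {t s : ℕ} (hs : s < d) (h : t + 2 ≤ s) {x : S.X}
    (hx : S.Born J t x) : S.Born J t (S.ρ s x) :=
  ⟨hx.1.map hJ hs (by omega), fun k => hx.2 (by
    have := k.map hJ hs h
    rwa [S.ρinv] at this)⟩

omit [Fintype S.X] in
theorem exists_born {t : ℕ} {x : S.X} (h : ¬ S.Un J t x) : ∃ b, b < t ∧ S.Born J b x := by
  induction t with
  | zero => exact absurd (fun i _ k => by omega) h
  | succ t ih =>
    by_cases k : S.Un J t x
    · exact ⟨t, by omega, k, h⟩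
    · obtain ⟨b, b1, b2⟩ := ih k
      exact ⟨b, by omega, b2⟩

theorem exists_up (t : ℕ) : ∃ f : Finset S.X → Finset S.X,
    ∀ x, f (S.cl J t x) = S.cl J (t + 1) x := by
  classical
  refine ⟨fun B => B.biUnion (S.cl J (t + 1)), fun x => ?_⟩
  ext z
  rw [mem_biUnion]
  constructor
  · rintro ⟨y, hy, hz⟩
    rwa [cl_mono (Nat.le_succ t) (cl_eq.2 (mem_cls.1 hy))]
  · exact fun hz => ⟨x, mem_cls.2 (Conn.refl _), hz⟩

theorem nc_drop (t : ℕ) (A N : Finset S.X) (hN : N ⊆ A)
    (h : ∀ a ∈ N, ∃ a' ∈ A, S.cl J t a' ≠ S.cl J t a ∧ S.cl J (t + 1) a' = S.cl J (t + 1) a) :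
    S.nc J t N + 2 * S.nc J (t + 1) A ≤ 2 * S.nc J t A := by
  classical
  obtain ⟨f, hf⟩ := exists_up (S := S) (J := J) t
  have e : A.image (S.cl J (t + 1)) = (A.image (S.cl J t)).image f := by
    rw [image_image]; exact image_congr fun x _ => (hf x).symm
  unfold nc
  convert fib_bound f (A.image (S.cl J t)) (N.image (S.cl J t)) (image_subset_image hN) ?_
  intro B hB
  obtain ⟨a, ha, rfl⟩ := mem_image.1 hB
  obtain ⟨a', b1, b2, b3⟩ := h a ha
  exact ⟨_, mem_image_of_mem _ b1, b2, by rw [hf, hf, b3]⟩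

theorem nc_le (t : ℕ) (A : Finset S.X) : S.nc J (t + 1) A ≤ S.nc J t A := by
  have := nc_drop (J := J) t A ∅ (empty_subset _) (by simp)
  omega

theorem nc_lt {t : ℕ} {A : Finset S.X} {x y : S.X} (hx : x ∈ A) (hy : y ∈ A)
    (h1 : S.cl J t y ≠ S.cl J t x) (h2 : S.cl J (t + 1) y = S.cl J (t + 1) x) :
    S.nc J (t + 1) A < S.nc J t A := by
  have := nc_drop (J := J) t A {x} (by simpa using hx) (by simpa using ⟨y, hy, h1, h2⟩)
  rw [show S.nc J t {x} = 1 by simp [nc]] at this
  omega

theorem nc_three {t : ℕ} {x y z w : S.X} (h1 : S.cl J t x ≠ S.cl J t y)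
    (h2 : S.cl J (t + 1) x = S.cl J (t + 1) y) (h3 : S.cl J t w ≠ S.cl J t z)
    (h4 : S.cl J (t + 1) w = S.cl J (t + 1) z) (h5 : S.cl J t x ≠ S.cl J t z)
    (h6 : S.cl J t y ≠ S.cl J t z) : S.nc J (t + 1) univ + 2 ≤ S.nc J t univ := by
  classical
  have := nc_drop (J := J) t univ {x, y, z} (subset_univ _) (by
    intro a ha
    simp only [mem_insert, mem_singleton] at ha
    rcases ha with rfl | rfl | rfl
    · exact ⟨y, mem_univ _, h1.symm, h2.symm⟩
    · exact ⟨x, mem_univ _, h1, h2⟩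
    · exact ⟨w, mem_univ _, h3, h4⟩)
  rw [show S.nc J t {x, y, z} = 3 by
    unfold nc
    rw [card_eq_three]
    exact ⟨_, _, _, h1, h5, h6, by simp⟩] at this
  omega

theorem Born.mrg {t : ℕ} {x : S.X} (h : S.Born J t x) :
    S.cl J t (S.ρ t x) ≠ S.cl J t x ∧ S.cl J (t + 1) (S.ρ t x) = S.cl J (t + 1) x :=
  ⟨fun e => h.spec.2 (h.1.eq e.symm).symm, cl_step h.spec.1 (by omega) x⟩

theorem two_born {b : ℕ} {x y : S.X} (hx : S.Born J b x) (hy : S.Born J b y)
    (h : S.cl J (b + 1) x ≠ S.cl J (b + 1) y) : S.nc J (b + 1) univ + 2 ≤ S.nc J b univ :=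
  nc_three hx.mrg.1 hx.mrg.2 hy.mrg.1 hy.mrg.2
    (fun e => h (hx.mrg.2.symm.trans (cl_mono (Nat.le_succ b) e)))
    (fun e => h (cl_mono (Nat.le_succ b) e))

variable (S J) in
/-- simple colours: one merge and one birth -/
def Good (t : ℕ) : Prop :=
  S.nc J t univ = S.nc J (t + 1) univ + 1 ∧ ∃ x, S.Born J t x ∧ ∀ y, S.Born J t y → y = x

open Classical in
theorem count (hJ : ∀ i ∈ J, i < d)
    (hmin : ∀ t ∈ J, ∃ x, ¬ Conn S.ρ {i | i ∈ J ∧ i < t} x (S.ρ t x)) (t : ℕ) :
    (J.filter (fun i => i < t ∧ ¬ S.Good J i)).card + 7 * (J.filter (· < t)).card +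
      6 * S.nc J t univ + 2 * S.nc J t (univ.filter fun x => ∃ b, b < t ∧ S.Born J b x ∧
        S.nc J (b + 1) univ + 2 ≤ S.nc J b univ) + (univ.filter (S.Un J t)).card ≤
      7 * Fintype.card S.X := by
  induction t with
  | zero =>
    have h1 : S.nc J 0 univ ≤ Fintype.card S.X := card_image_le
    have h2 : (univ.filter (S.Un J 0)).card ≤ Fintype.card S.X := card_le_univ _
    have h3 : ∀ t, S.nc J t ∅ = 0 := fun t => by simp [nc]
    simp only [Nat.not_lt_zero, false_and, filter_false, card_empty, exists_false, h3]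
    omega
  | succ t ih =>
    set H := univ.filter fun x => ∃ b, b < t ∧ S.Born J b x ∧
        S.nc J (b + 1) univ + 2 ≤ S.nc J b univ with hH
    set H' := univ.filter fun x => ∃ b, b < t + 1 ∧ S.Born J b x ∧
        S.nc J (b + 1) univ + 2 ≤ S.nc J b univ with hH'
    set N := univ.filter (S.Born J t) with hN
    have u1 : (univ.filter (S.Un J (t + 1))).card + N.card = (univ.filter (S.Un J t)).card := by
      rw [← card_filter_add_card_filter_not (s := univ.filter (S.Un J t)) (S.Un J (t + 1)),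
        filter_filter, filter_filter]
      congr 2
      · ext x
        simp only [mem_filter, mem_univ, true_and]
        exact ⟨fun h => ⟨h.mono (Nat.le_succ t), h⟩, fun h => h.2⟩
      · ext x
        simp only [hN, mem_filter, mem_univ, true_and]
        rfl
    have n1 : N.card + 2 * S.nc J (t + 1) univ ≤ 2 * S.nc J t univ := by
      have := nc_drop (J := J) t univ N (subset_univ _) fun a ha =>
        ⟨_, mem_univ _, (mem_filter.1 ha).2.mrg⟩
      rwa [show S.nc J t N = N.card from card_image_of_injOn fun x hx y _ e =>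
        (mem_filter.1 hx).2.1.eq e] at this
    have h1 := nc_le (J := J) t H
    have h2 : S.nc J (t + 1) H' ≤ S.nc J (t + 1) H + N.card := by
      have : H' ⊆ H ∪ N := by
        intro x hx
        obtain ⟨b, b1, b2, b3⟩ := (mem_filter.1 hx).2
        by_cases e : b = t
        · exact mem_union_right _ (mem_filter.2 ⟨mem_univ _, e ▸ b2⟩)
        · exact mem_union_left _ (mem_filter.2 ⟨mem_univ _, b, by omega, b2, b3⟩)
      unfold nc
      refine (card_le_card (image_subset_image this)).trans ?_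
      rw [image_union]
      exact (card_union_le _ _).trans (Nat.add_le_add_left card_image_le _)
    have h3 : S.nc J t univ ≤ S.nc J (t + 1) univ + 1 → H' = H := by
      intro k
      ext x
      simp only [hH, hH', mem_filter, mem_univ, true_and]
      constructor
      · rintro ⟨b, b1, b2, b3⟩
        refine ⟨b, ?_, b2, b3⟩
        by_contra hc
        rw [show b = t by omega] at b3
        omega
      · rintro ⟨b, b1, b2, b3⟩
        exact ⟨b, by omega, b2, b3⟩
    have c1 := nc_le (S := S) (J := J) t univ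
    by_cases ht : t ∈ J
    · have e1 : (J.filter (· < t + 1)).card = (J.filter (· < t)).card + 1 := by
        rw [← card_insert_of_notMem (a := t) (by simp)]
        congr 1
        ext i
        simp only [mem_filter, mem_insert]
        constructor
        · rintro ⟨k1, k2⟩
          by_cases e : i = t
          · exact Or.inl e
          · exact Or.inr ⟨k1, by omega⟩
        · rintro (rfl | ⟨k1, k2⟩)
          · exact ⟨ht, by omega⟩
          · exact ⟨k1, by omega⟩
      have e2 : (J.filter (fun i => i < t + 1 ∧ ¬ S.Good J i)).card ≤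
          (J.filter (fun i => i < t ∧ ¬ S.Good J i)).card + 1 := by
        refine (card_le_card fun i hi => ?_).trans (card_insert_le t _)
        simp only [mem_filter, mem_insert] at hi ⊢
        by_cases e : i = t
        · exact Or.inl e
        · exact Or.inr ⟨hi.1, by omega, hi.2.2⟩
      have e3 : S.Good J t → (J.filter (fun i => i < t + 1 ∧ ¬ S.Good J i)).card ≤
          (J.filter (fun i => i < t ∧ ¬ S.Good J i)).card := by
        intro hg
        refine card_le_card fun i hi => ?_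
        simp only [mem_filter] at hi ⊢
        refine ⟨hi.1, ?_, hi.2.2⟩
        by_contra hc
        exact hi.2.2 (by rw [show i = t by omega]; exact hg)
      obtain ⟨x, hx⟩ := hmin t ht
      have x1 : S.cl J t (S.ρ t x) ≠ S.cl J t x := fun e => hx (cl_eq.1 e.symm)
      have x2 : S.cl J (t + 1) (S.ρ t x) = S.cl J (t + 1) x := cl_step ht (by omega) x
      have c2 := nc_lt (mem_univ x) (mem_univ _) x1 x2
      by_cases m2 : S.nc J (t + 1) univ + 2 ≤ S.nc J t univ
      · omega
      rw [h3 (by omega)]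
      by_cases n0 : N.card = 0
      · have nb : ∀ y, ¬ S.Born J t y := fun y hy => by
          have : 0 < N.card := card_pos.2 ⟨y, mem_filter.2 ⟨mem_univ _, hy⟩⟩
          omega
        have mv : S.ρ t x ≠ x := fun e => x1 (by rw [e])
        have ux : ¬ S.Un J t x := fun k => nb x (Born.of k ht mv)
        have uy : ¬ S.Un J t (S.ρ t x) := fun k => nb _ (Born.of k ht (by
          rw [S.ρinv]; exact mv.symm))
        obtain ⟨b, b1, b2⟩ := exists_born ux
        have b3 : S.Born J b (S.ρ t x) := by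
          by_cases e : b + 2 ≤ t
          · exact b2.map hJ (hJ t ht) e
          · exact ⟨b2.1.map hJ (hJ t ht) (by omega), by rwa [show b + 1 = t by omega]⟩
        have b4 := two_born b3 b2 fun e => x1 (cl_mono (by omega) e)
        have := nc_lt (A := H) (mem_filter.2 ⟨mem_univ _, b, b1, b2, b4⟩)
          (mem_filter.2 ⟨mem_univ _, b, b1, b3, b4⟩) x1 x2
        omega
      by_cases n1 : N.card = 1
      · obtain ⟨y, hy⟩ := card_eq_one.1 n1
        have := e3 ⟨by omega, y, (mem_filter.1 (hN ▸ hy ▸ mem_singleton_self y)).2,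
          fun z hz => mem_singleton.1 (hy ▸ mem_filter.2 ⟨mem_univ _, hz⟩)⟩
        omega
      omega
    · have e1 : J.filter (· < t + 1) = J.filter (· < t) :=
        filter_congr fun i hi => ⟨fun k => by
          by_contra hc
          exact ht (by rwa [show t = i by omega]), fun k => by omega⟩
      have e2 : J.filter (fun i => i < t + 1 ∧ ¬ S.Good J i) =
          J.filter (fun i => i < t ∧ ¬ S.Good J i) :=
        filter_congr fun i hi => ⟨fun k => ⟨by
          by_contra hc
          exact ht (by rwa [show t = i by omega]), k.2⟩, fun k => ⟨by omega, k.2⟩⟩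
      have n0 : N.card = 0 := by
        rw [card_eq_zero, eq_empty_iff_forall_notMem]
        exact fun y hy => ht (mem_filter.1 hy).2.spec.1
      rw [e1, e2]
      omega

theorem only (hJ : ∀ i ∈ J, i < d) (htr : ∀ x y, Conn S.ρ J x y) {t : ℕ} {x0 x1 x2 : S.X}
    (b0 : S.Born J t x0) (u0 : ∀ y, S.Born J t y → y = x0)
    (b1 : S.Born J (t + 1) x1) (u1 : ∀ y, S.Born J (t + 1) y → y = x1)
    (u2 : ∀ y, S.Born J (t + 2) y → y = x2) (h2 : t + 2 ∈ J) (e : S.ρ (t + 1) x1 = x0)
    (m : S.nc J (t + 1) univ = S.nc J (t + 2) univ + 1) (z : S.X) (hz : S.ρ (t + 2) z ≠ z) :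
    z = x1 ∨ z = x2 := by
  have fx : ∀ s, s < d → t + 2 ≤ s → ∀ z, S.cl J (t + 1) x0 = S.cl J (t + 1) z → S.ρ s z = z := by
    intro s s1 s2 z hz
    refine (cl_eq.1 hz).ind (fun z => S.ρ s z = z) (u0 _ (b0.map hJ s1 s2)) fun i hi y hy => ?_
    exact S.fix_comm s1 (hJ i hi.1) (by have := hi.2; omega) hy
  have key : S.cl J (t + 1) x0 = S.cl J (t + 1) z ∨ S.Un J (t + 1) z := by
    refine (htr x0 z).ind (fun z => S.cl J (t + 1) x0 = S.cl J (t + 1) z ∨ S.Un J (t + 1) z)
      (Or.inl rfl) fun i hi y hy => ?_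
    by_cases mv : S.ρ i y = y
    · rwa [mv]
    rcases lt_trichotomy i (t + 1) with k | rfl | k
    · rcases hy with hy | hy
      · exact Or.inl (hy.trans (cl_step hi k y).symm)
      · exact absurd (hy i hi k) mv
    · rcases hy with hy | hy
      · by_contra hc
        push Not at hc
        have k1 := b1.mrg
        rw [e] at k1
        have := nc_three k1.1 k1.2 (w := y) (z := S.ρ (t + 1) y) (hy ▸ hc.1)
          (cl_step hi (by omega) y).symm hc.1 fun k => hc.2 (b1.1.eq k ▸ b1.1)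
        rw [show t + 1 + 1 = t + 2 from rfl] at this
        omega
      · left; rw [u1 y (Born.of hy hi mv), e]
    · rcases hy with hy | hy
      · exact absurd (fx i (hJ i hi) k y hy) mv
      · exact Or.inr (hy.map hJ (hJ i hi) k)
  rcases key with k | k
  · exact absurd (fx _ (hJ _ h2) le_rfl z k) hz
  · by_cases k2 : S.Un J (t + 2) z
    · exact Or.inr (u2 z (Born.of k2 h2 hz))
    · exact Or.inl (u1 z ⟨k, k2⟩)

theorem exists_std (hJ : ∀ i ∈ J, i < d) (htr : ∀ x y, Conn S.ρ J x y) {u : ℕ} (hu : u + 9 ≤ d)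
    (hg : ∀ i, u ≤ i → i < u + 9 → S.Good J i) : ∃ Φ, S.Std (u + 2) (u + 9) Φ := by
  have hx : ∀ i, ∃ x, u ≤ i → i < u + 9 → S.Born J i x ∧ ∀ y, S.Born J i y → y = x := by
    intro i
    by_cases k : u ≤ i ∧ i < u + 9
    · obtain ⟨x, hx⟩ := (hg i k.1 k.2).2
      exact ⟨x, fun _ _ => hx⟩
    · obtain ⟨x, -⟩ := (hg u le_rfl (by omega)).2
      exact ⟨x, fun k1 k2 => absurd ⟨k1, k2⟩ k⟩
  choose x hx using hx
  have lk : ∀ i, u ≤ i → i + 1 < u + 9 → S.ρ (i + 1) (x (i + 1)) = x i := by
    intro i i1 i2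
    obtain ⟨k1, k2⟩ := hx (i + 1) (by omega) i2
    refine (hx i i1 (by omega)).2 _ ⟨(k1.1.mono (Nat.le_succ i)).map hJ (by omega) le_rfl,
      fun k => k1.spec.2 (k2 _ (Born.of k k1.spec.1 ?_))⟩
    rw [S.ρinv]; exact k1.spec.2.symm
  obtain ⟨Φ0, h0⟩ := S.surj (x (u + 1))
  let Ψ : ℕ → S.F := fun j => Nat.rec Φ0 (fun j Θ => S.r (u + 2 + j) Θ) j
  have hΨ : ∀ j, j ≤ 7 → S.π (Ψ j) = x (u + 1 + j) := by
    intro j
    induction j with
    | zero => exact fun _ => h0
    | succ j ih =>
      intro hj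
      show S.π (S.r (u + 2 + j) (Ψ j)) = _
      rw [S.πr, ih (by omega), ← lk (u + 1 + j) (by omega) (by omega),
        show u + 2 + j = u + 1 + j + 1 by omega, S.ρinv]
      rfl
  have hΦ : ∀ i, u + 2 ≤ i → i ≤ u + 9 → S.π (Ψ (i - (u + 2))) = x (i - 1) := by
    intro i i1 i2
    rw [hΨ _ (by omega)]; congr 1; omega
  refine ⟨fun i => Ψ (i - (u + 2)), by omega, hu, fun i i1 i2 => ?_, fun i i1 i2 z hz => ?_,
    fun i j i1 i2 j1 j2 e => ?_⟩
  · show Ψ (i + 1 - (u + 2)) = _
    rw [show i + 1 - (u + 2) = i - (u + 2) + 1 by omega]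
    show S.r (u + 2 + (i - (u + 2))) _ = _
    rw [show u + 2 + (i - (u + 2)) = i by omega]
  · rw [hΦ i i1 (by omega), hΦ (i + 1) (by omega) (by omega)]
    obtain ⟨t, rfl⟩ : ∃ t, i = t + 2 := ⟨i - 2, by omega⟩
    exact only hJ htr (hx t (by omega) (by omega)).1 (hx t (by omega) (by omega)).2
      (hx (t + 1) (by omega) (by omega)).1 (hx (t + 1) (by omega) (by omega)).2
      (hx (t + 2) (by omega) (by omega)).2 (hx (t + 2) (by omega) (by omega)).1.spec.1
      (lk t (by omega) (by omega)) (hg (t + 1) (by omega) (by omega)).1 z hz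
  · rw [hΦ i i1 i2, hΦ j j1 j2] at e
    have k1 := (hx (i - 1) (by omega) (by omega)).1
    have k2 := (hx (j - 1) (by omega) (by omega)).1
    rw [e] at k1
    by_contra hc
    rcases lt_or_gt_of_ne hc with k | k
    · exact k1.2 (k2.1.mono (by omega))
    · exact k2.2 (k1.1.mono (by omega))

theorem Glob.exists_std (hG : S.Glob) (hk : 2 ≤ Fintype.card S.X)
    (hr : 63 * Fintype.card S.X + 864 * Nat.log 2 (Fintype.card S.X) + 674 < 64 * d) :
    ∃ u v Φ, S.Std u v Φ := by
  classical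
  have hk' : ∃ x y : S.X, x ≠ y := Fintype.one_lt_card_iff.1 hk
  obtain ⟨J, hJ0, hmin0⟩ := exists_min_image
    ((range d).powerset.filter fun J : Finset ℕ => ∀ x y, Conn S.ρ J x y) card
    ⟨range d, by simpa using hG.conn⟩
  obtain ⟨hJ1, htr⟩ := mem_filter.1 hJ0
  have hJ : ∀ i ∈ J, i < d := fun i hi => mem_range.1 (mem_powerset.1 hJ1 hi)
  have hmin : ∀ t ∈ J, ∃ x, ¬ Conn S.ρ {i | i ∈ J ∧ i < t} x (S.ρ t x) := by
    intro t ht
    by_contra hc
    push Not at hc
    have := hmin0 (J.erase t) (mem_filter.2 ⟨mem_powerset.2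
      ((erase_subset t J).trans (mem_powerset.1 hJ1)), fun x y => ?_⟩)
    · have := card_erase_lt_of_mem ht
      omega
    · refine (htr x y).ind (fun y => Conn S.ρ (J.erase t) x y) (Conn.refl _) fun i hi y hy => ?_
      by_cases e : i = t
      · subst e
        exact hy.trans ((hc y).mono fun j hj => mem_coe.2 (mem_erase.2 ⟨ne_of_lt hj.2, hj.1⟩))
      · exact hy.step (mem_coe.2 (mem_erase.2 ⟨e, hi⟩))
  have g := hG.gap hk' hJ htr hmin
  have c := count hJ hmin d
  rw [filter_true_of_mem hJ] at c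
  have c1 : 0 < S.nc J d univ := by
    obtain ⟨x, -⟩ := hk'
    exact card_pos.2 ⟨_, mem_image_of_mem _ (mem_univ x)⟩
  have g1 : J.card + ((range d).filter (· ∉ J)).card = d := by
    have := card_filter_add_card_filter_not (s := range d) (· ∈ J)
    rwa [card_range, filter_mem_eq_inter, inter_eq_right.2 (mem_powerset.1 hJ1)] at this
  by_contra hc
  have : range (d / 9) ⊆ ((range d).filter (· ∉ J) ∪
      J.filter (fun i => i < d ∧ ¬ S.Good J i)).image (· / 9) := by
    intro q hq
    rw [mem_range] at hq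
    by_contra hn
    obtain ⟨Φ, hΦ⟩ := GSys.exists_std hJ htr (u := 9 * q) (by omega) fun i i1 i2 => by
      by_contra hg
      refine hn (mem_image.2 ⟨i, ?_, by omega⟩)
      simp only [mem_union, mem_filter, mem_range]
      have : i < d := by omega
      tauto
    exact hc ⟨_, _, Φ, hΦ⟩
  have s := (card_le_card this).trans (card_image_le.trans (card_union_le _ _))
  rw [card_range] at s
  omega

end GSys

end Pool.Agent.Lib.MP_7157e1_co
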