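import Pool.Agent.Lib.MP_7157e1_co.G1

/-! Simple connectivity from a height function. -/

namespace Pool.Agent.Lib.MP_7157e1_co
open Function

theorem odd_word {α : Type} (m : ℕ) {f g : α → α} (hf : ∀ x, f (f x) = x) (hg : ∀ x, g (g x) = x)
    (nf : ∀ x, f x ≠ x) (ng : ∀ x, g x ≠ x) (x : α) : (f ∘ g)^[m] (f x) ≠ x := by
  induction m generalizing f g x with
  | zero => exact nf x
  | succ m ih =>
    intro h
    have hs : Semiconj f (g ∘ f) (f ∘ g) := fun y => rfl
    rw [← (hs.iterate_right (m + 1)).eq] at h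
    refine ih hg hf ng nf (f x) ?_
    have := congrArg f h
    rwa [hf] at this

theorem exists_lv {F : Type} [Finite F] (lev : F → ℝ) :
    ∃ lv : F → ℕ, ∀ x y, lv x < lv y ↔ lev x < lev y := by
  refine ⟨fun x => {y | lev y < lev x}.ncard, fun x y => ⟨fun h => ?_, fun h => ?_⟩⟩
  · by_contra hc
    exact absurd h (not_lt.2 (Set.ncard_le_ncard fun z hz => lt_of_lt_of_le hz (not_lt.1 hc)))
  · exact Set.ncard_lt_ncard ⟨fun z hz => lt_trans hz h, fun k => lt_irrefl (lev x) (k h)⟩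

theorem sc_step {F : Type} [Finite F] {r : ℕ → F → F} {a b : ℕ} (hab : a < b)
    (hinv : ∀ i Φ, r i (r i Φ) = Φ) (hne : ∀ i, i < b → ∀ Φ, r i Φ ≠ Φ)
    (hsc : SC r (Set.Ico (a + 1) b))
    (H : ∀ Φ0, ∃ (D : Set F) (lv : F → ℕ), Φ0 ∈ D ∧ (∀ i ∈ Set.Ico a b, ∀ x ∈ D, r i x ∈ D) ∧
      (∀ i ∈ Set.Ico (a + 1) b, ∀ x ∈ D, lv (r i x) = lv x) ∧
      (∀ x ∈ D, ∀ y ∈ D, lv x = lv y → Conn r (Set.Ico (a + 1) b) x y) ∧
      (∀ x ∈ D, lv (r a x) ≠ lv x) ∧
      (∀ x ∈ D, ∀ y ∈ D, lv x = lv y → lv (r a x) < lv x → lv (r a y) < lv y →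
        Relation.ReflTransGen (fun u v => (∃ i ∈ Set.Ico (a + 1) b, r i u = v) ∧
          lv (r a u) < lv u ∧ lv (r a v) < lv v) x y) ∧
      ∀ x ∈ D, a + 1 < b → lv (r a x) < lv x → lv (r a (r (a + 1) x)) < lv x →
        ∀ y, Conn r {a, a + 1} x y → lv y < lv x ∨ y = x ∨ y = r (a + 1) x) :
    SC r (Set.Ico a b) := by
  intro Z π t h1 h2 h3 h4 z z' hc hπ
  obtain ⟨D, lv, hD0, hD, L1, L2, L6, L4, L5⟩ := H (π z)
  have sub : Set.Ico (a + 1) b ⊆ Set.Ico a b := Set.Ico_subset_Ico_left (Nat.le_succ a)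
  have ma : a ∈ Set.Ico a b := ⟨le_rfl, hab⟩
  have inj := hsc Z π t (fun i hi => h1 i (sub hi)) (fun i hi => h2 i (sub hi))
    (fun i hi j hj => h3 i (sub hi) j (sub hj)) (fun i hi hi' => h4 i (sub hi) (sub hi'))
  have sh : ∀ {x y}, Conn t (Set.Ico (a + 1) b) x y → π x ∈ D → π y ∈ D ∧ lv (π y) = lv (π x) := by
    intro x y k hx
    refine k.ind (fun y => π y ∈ D ∧ lv (π y) = lv (π x)) ⟨hx, rfl⟩ fun i hi y hy => ?_
    rw [h2 i (sub hi)]
    exact ⟨hD i (sub hi) _ hy.1, (L1 i hi _ hy.1).trans hy.2⟩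
  obtain ⟨z0, hz0, hmin⟩ : ∃ z0, Conn t (Set.Ico a b) z z0 ∧
      ∀ y, Conn t (Set.Ico a b) z y → lv (π z0) ≤ lv (π y) := by
    obtain ⟨z0, k1, k2⟩ := (measure fun y => lv (π y)).wf.has_min {y | Conn t (Set.Ico a b) z y}
      ⟨z, Conn.refl z⟩
    exact ⟨z0, k1, fun y hy => not_lt.1 (k2 y hy)⟩
  have inD : ∀ y, Conn t (Set.Ico a b) z y → π y ∈ D := fun y hy =>
    hy.ind (fun y => π y ∈ D) hD0 fun i hi y hy => by rw [h2 i hi]; exact hD i hi _ hy
  let R : ℕ → Z → Prop := fun c y => lv (π z0) < c ∧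
    Relation.ReflTransGen (fun u v => (∃ i ∈ Set.Ico a b, t i u = v) ∧ lv (π v) < c) z0 y
  have R1 : ∀ {c y}, R c y → Conn t (Set.Ico a b) z y ∧ lv (π y) < c := by
    rintro c y ⟨k1, k2⟩
    induction k2 with
    | refl => exact ⟨hz0, k1⟩
    | tail _ k ih => obtain ⟨⟨i, hi, rfl⟩, k⟩ := k; exact ⟨ih.1.step hi, k⟩
  have R2 : ∀ {c y i}, R c y → i ∈ Set.Ico a b → lv (π (t i y)) < c → R c (t i y) :=
    fun k hi h => ⟨k.1, k.2.tail ⟨⟨_, hi, rfl⟩, h⟩⟩
  have R3 : ∀ {c y i}, R c y → i ∈ Set.Ico (a + 1) b → R c (t i y) := fun k hi =>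
    R2 k (sub hi) (by rw [h2 _ (sub hi), L1 _ hi _ (inD _ (R1 k).1)]; exact (R1 k).2)
  have K1 : ∀ c y i, π y ∈ D → lv (π y) = c → i ∈ Set.Ico (a + 1) b → R c (t a y) →
      lv (r a (r i (π y))) < c → R c (t a (t i y)) := by
    intro c y i yD yc hi hy hlow
    by_cases e : i ≠ a + 1
    · rw [h3 a ma i (sub hi) (by have := hi.1; omega)]
      exact R3 hy hi
    push Not at e
    subst e
    have low : lv (r a (π y)) < lv (π y) := by rw [← h2 a ma, yc]; exact (R1 hy).2
    have sc : Semiconj π (t a ∘ t (a + 1)) (r a ∘ r (a + 1)) := fun x => by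
      simp only [comp_apply, h2 a ma, h2 _ (sub hi)]
    by_contra hcon
    have key : ∀ m, R c ((t a ∘ t (a + 1))^[m] (t a y)) ∧
        Conn r {a, a + 1} (π y) (π ((t a ∘ t (a + 1))^[m] (t a y))) := by
      intro m
      induction m with
      | zero => exact ⟨hy, by
          rw [iterate_zero_apply, h2 a ma]; exact (Conn.refl _).step (by simp)⟩
      | succ m ih =>
        have c2 : Conn r {a, a + 1} (π y) (π ((t a ∘ t (a + 1))^[m + 1] (t a y))) := by
          rw [iterate_succ_apply', comp_apply, h2 a ma, h2 _ (sub hi)]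
          exact (ih.2.step (by simp)).step (by simp)
        refine ⟨?_, c2⟩
        rcases L5 _ yD hi.2 low (yc ▸ hlow) _ c2 with k | k | k
        · rw [iterate_succ_apply'] at k ⊢
          exact R2 (R3 ih.1 hi) ma (yc ▸ k)
        · rw [(sc.iterate_right _).eq, h2 a ma] at k
          exact absurd k (odd_word _ (hinv _) (hinv _) (hne _ hab) (hne _ hi.2) _)
        · exfalso
          have e1 : t a y = (t a ∘ t (a + 1)) (t (a + 1) y) := by
            rw [comp_apply, h1 _ (sub hi)]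
          rw [e1, ← iterate_succ_apply, (sc.iterate_right _).eq, ← h2 _ (sub hi)] at k
          have k2 := h4 a ma (sub hi) _ _ k
          rw [iterate_succ_apply, ← e1, iterate_succ_apply', comp_apply] at k2
          apply hcon
          rw [← k2, h1 a ma]
          exact R3 ih.1 hi
    obtain ⟨m, m0, hm⟩ : r (a + 1) (π y) ∈ periodicPts (r a ∘ r (a + 1)) :=
      Injective.mem_periodicPts ((LeftInverse.injective (hinv a)).comp
        (LeftInverse.injective (hinv (a + 1)))) _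
    obtain ⟨m, rfl⟩ : ∃ m', m = m' + 1 := ⟨m - 1, by omega⟩
    have k := (R1 (key m).1).2
    have hm' : (r a ∘ r (a + 1))^[m + 1] (r (a + 1) (π y)) = r (a + 1) (π y) := hm
    rw [iterate_succ_apply, comp_apply, hinv] at hm'
    rw [(sc.iterate_right _).eq, h2 a ma, hm', L1 _ hi _ yD] at k
    omega
  have K : ∀ c y y', π y ∈ D → lv (π y) = c → Conn t (Set.Ico (a + 1) b) y y' → R c (t a y) →
      lv (r a (π y')) < c → R c (t a y') := by
    intro c y y' yD yc hyy hy hlow
    obtain ⟨k1, k2⟩ := sh hyy yD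
    have low : lv (r a (π y)) < lv (π y) := by rw [← h2 a ma, yc]; exact (R1 hy).2
    have path := L4 _ yD _ k1 k2.symm low (by rw [k2, yc]; exact hlow)
    have : ∃ w, Conn t (Set.Ico (a + 1) b) y w ∧ π w = π y' ∧ R c (t a w) := by
      generalize π y' = Ψ at path
      induction path with
      | refl => exact ⟨y, Conn.refl _, rfl, hy⟩
      | tail _ k ih =>
        obtain ⟨w, w1, rfl, w3⟩ := ih
        obtain ⟨⟨i, hi, rfl⟩, -, k⟩ := k
        obtain ⟨k3, k4⟩ := sh w1 yD
        refine ⟨t i w, w1.step hi, h2 i (sub hi) w, K1 c w i k3 (k4.trans yc) hi w3 ?_⟩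
        rwa [L1 i hi _ k3, k4, yc] at k
    obtain ⟨w, w1, w2, w3⟩ := this
    rwa [← inj w y' ((w1.symm fun i hi => h1 i (sub hi)).trans hyy) w2]
  have main : ∀ c y y', R c y → R c y' → π y = π y' → y = y' := by
    intro c
    induction c with
    | zero => exact fun y _ k => absurd k.1 (Nat.not_lt_zero _)
    | succ c ih =>
      by_cases e : lv (π z0) = c
      · have : ∀ y, R (c + 1) y → Conn t (Set.Ico (a + 1) b) z0 y := by
          rintro y ⟨k1, k2⟩
          induction k2 with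
          | refl => exact Conn.refl _
          | tail k0 k ih =>
            obtain ⟨⟨i, hi, rfl⟩, k⟩ := k
            by_cases e2 : i = a
            · subst e2
              have k3 := (R1 ⟨k1, k0⟩).1
              have k4 := hmin _ (k3.step hi)
              have k5 := L6 _ (inD _ k3)
              rw [← h2 i hi, (sh ih (inD _ hz0)).2] at k5
              omega
            · exact ih.step ⟨by have := hi.1; omega, hi.2⟩
        exact fun y y' k k' => inj y y' (((this y k).symm fun i hi => h1 i (sub hi)).trans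
          (this y' k'))
      have : ∀ y, R (c + 1) y → R c y ∨ (lv (π y) = c ∧
          ∃ w, Conn t (Set.Ico (a + 1) b) y w ∧ R c (t a w)) := by
        rintro y ⟨k1, k2⟩
        induction k2 with
        | refl => exact Or.inl ⟨by omega, Relation.ReflTransGen.refl⟩
        | @tail y _ k0 k ih =>
          obtain ⟨⟨i, hi, rfl⟩, k⟩ := k
          have yD := inD _ (R1 ⟨k1, k0⟩).1
          by_cases e2 : i = a
          · subst e2
            rcases ih with ih | ⟨i1, w, w1, w2⟩
            · by_cases e3 : lv (π (t i y)) < c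
              · exact Or.inl (R2 ih hi e3)
              · exact Or.inr ⟨by omega, _, Conn.refl _, by rwa [h1 i hi]⟩
            · have k5 := L6 _ yD
              rw [h2 i hi] at k
              obtain ⟨k3, k4⟩ := sh w1 yD
              exact Or.inl (K c w y k3 (k4.trans i1) (w1.symm fun i hi => h1 i (sub hi)) w2
                (by omega))
          · have hi' : i ∈ Set.Ico (a + 1) b := ⟨by have := hi.1; omega, hi.2⟩
            rcases ih with ih | ⟨i1, w, w1, w2⟩
            · exact Or.inl (R3 ih hi')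
            · refine Or.inr ⟨by rw [h2 i hi, L1 i hi' _ yD, i1], w, ?_, w2⟩
              exact (((Conn.refl y).step hi').symm fun i hi => h1 i (sub hi)).trans w1
      intro y y' k k' e2
      have yD := inD _ (R1 k).1
      rcases this y k with p | ⟨p1, w, w1, w2⟩ <;> rcases this y' k' with q | ⟨q1, w', q2, q3⟩
      · exact ih y y' p q e2
      · have := (R1 p).2
        rw [e2] at this; omega
      · have := (R1 q).2
        rw [← e2] at this; omega
      · obtain ⟨k3, k4⟩ := sh w1 yD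
        obtain ⟨k5, k6⟩ := sh q2 (e2 ▸ yD)
        obtain ⟨u, u1, u2⟩ : ∃ u, Conn t (Set.Ico (a + 1) b) w u ∧ π u = π w' :=
          (L2 _ k3 _ k5 (by omega)).ind (fun Ψ => ∃ u, Conn t (Set.Ico (a + 1) b) w u ∧ π u = Ψ)
            ⟨w, Conn.refl _, rfl⟩ fun i hi x ⟨u, u1, u2⟩ =>
              ⟨t i u, u1.step hi, by rw [h2 i (sub hi), u2]⟩
        have k7 := K c w u k3 (k4.trans p1) u1 w2 (by rw [u2, ← h2 a ma]; exact (R1 q3).2)
        have k8 := ih _ _ k7 q3 (by rw [h2 a ma, h2 a ma, u2])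
        have k9 : u = w' := by rw [← h1 a ma u, k8, h1 a ma]
        subst k9
        exact inj y y' ((w1.trans u1).trans (q2.symm fun i hi => h1 i (sub hi))) e2
  obtain ⟨c, hc'⟩ := (Set.finite_range lv).bddAbove
  have all : ∀ y, Conn t (Set.Ico a b) z0 y → R (c + 1) y := fun y hy =>
    hy.ind (R (c + 1)) ⟨Nat.lt_succ_of_le (hc' ⟨_, rfl⟩), Relation.ReflTransGen.refl⟩
      fun i hi x hx => R2 hx hi (Nat.lt_succ_of_le (hc' ⟨_, rfl⟩))
  exact main _ z z' (all z (hz0.symm h1)) (all z' ((hz0.symm h1).trans hc)) hπ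

end Pool.Agent.Lib.MP_7157e1_co
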