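import Mathlib

/-! Faces as zero sets of nonnegative functions. -/

namespace Pool.Agent.Lib.MP_7157e1_co
open Module Filter Topology

variable {ι : Type}

/-- faces: zero sets of nonnegative elements of `E` -/
def IsF (E : Submodule ℝ (ι → ℝ)) (S : Set ι) : Prop :=
  ∃ f ∈ E, (∀ i, 0 ≤ f i) ∧ ∀ i, f i = 0 ↔ i ∈ S

/-- elements of `E` vanishing on `S` -/
def van (E : Submodule ℝ (ι → ℝ)) (S : Set ι) : Submodule ℝ (ι → ℝ) where
  carrier := {f | f ∈ E ∧ ∀ i ∈ S, f i = 0}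
  add_mem' := by
    intro a b ha hb
    exact ⟨E.add_mem ha.1 hb.1, fun i hi => by simp [ha.2 i hi, hb.2 i hi]⟩
  zero_mem' := ⟨E.zero_mem, fun _ _ => rfl⟩
  smul_mem' := by
    intro c a ha
    exact ⟨E.smul_mem c ha.1, fun i hi => by simp [ha.2 i hi]⟩

/-- corank of a set -/
noncomputable def cr (E : Submodule ℝ (ι → ℝ)) (S : Set ι) : ℕ := finrank ℝ (van E S)

variable {E : Submodule ℝ (ι → ℝ)} {A B G : Set ι}

theorem isF_univ : IsF E Set.univ := ⟨0, E.zero_mem, fun _ => le_rfl, fun _ => by simp⟩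

theorem IsF.inter (hA : IsF E A) (hB : IsF E B) : IsF E (A ∩ B) := by
  obtain ⟨f, f1, f2, f3⟩ := hA
  obtain ⟨g, g1, g2, g3⟩ := hB
  refine ⟨f + g, E.add_mem f1 g1, fun i => add_nonneg (f2 i) (g2 i), fun i => ?_⟩
  rw [Pi.add_apply, add_eq_zero_iff_of_nonneg (f2 i) (g2 i), f3, g3]; rfl

theorem IsF.fn (hA : IsF E A) : ∃ g ∈ van E A, (∀ i, 0 ≤ g i) ∧ ∀ i, i ∉ A → 0 < g i := by
  obtain ⟨f, f1, f2, f3⟩ := hA
  exact ⟨f, ⟨f1, fun i => (f3 i).2⟩, f2, fun i hi => (f2 i).lt_of_ne' fun h => hi ((f3 i).1 h)⟩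

theorem van_anti (h : A ⊆ B) : van E B ≤ van E A := fun _ hf => ⟨hf.1, fun i hi => hf.2 i (h hi)⟩

theorem cr_empty : cr E ∅ = finrank ℝ E := by
  have : van E ∅ = E := by
    ext f; exact ⟨fun h => h.1, fun h => ⟨h, fun _ hi => hi.elim⟩⟩
  rw [cr, this]

theorem cr_univ : cr E Set.univ = 0 := by
  have : van E Set.univ = ⊥ := by
    rw [eq_bot_iff]; intro f hf; exact funext fun i => hf.2 i trivial
  rw [cr, this, finrank_bot]

variable [Fintype ι]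

theorem IsF.cut (hB : IsF E B) {f : ι → ℝ} (hf : f ∈ E) (h : ∀ i ∈ B, 0 ≤ f i) :
    IsF E {i | i ∈ B ∧ f i = 0} := by
  obtain ⟨g, g1, g2, g3⟩ := hB.fn
  obtain ⟨M, hM⟩ := (Set.finite_range fun i => -f i / g i).bddAbove
  have k : ∀ i, i ∉ B → 0 < f i + (M + 1) * g i := by
    intro i hi
    have := (div_le_iff₀ (g3 i hi)).1 (hM ⟨i, rfl⟩)
    linarith [g3 i hi]
  refine ⟨f + (M + 1) • g, E.add_mem hf (E.smul_mem _ g1.1), fun i => ?_, fun i => ?_⟩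
  · by_cases hi : i ∈ B
    · simpa [g1.2 i hi] using h i hi
    · exact (k i hi).le
  · by_cases hi : i ∈ B
    · simp [g1.2 i hi, hi]
    · simpa [hi] using (k i hi).ne'

theorem cr_anti (h : A ⊆ B) : cr E B ≤ cr E A := Submodule.finrank_mono (van_anti h)

theorem cr_lt (hA : IsF E A) (h : A ⊆ B) {i : ι} (hi : i ∈ B) (hi' : i ∉ A) :
    cr E B < cr E A := by
  obtain ⟨g, g1, -, g3⟩ := hA.fn
  exact Submodule.finrank_lt_finrank_of_lt (lt_of_le_of_ne (van_anti h) fun e =>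
    (g3 i hi').ne' ((e ▸ g1 : g ∈ van E B).2 i hi))

theorem IsF.eq_of_cr (hA : IsF E A) (h : A ⊆ B) (hc : cr E A ≤ cr E B) : A = B := by
  refine h.antisymm fun i hi => ?_
  by_contra hi'
  exact absurd (cr_lt hA h hi hi') (not_lt.2 hc)

theorem exists_of_cr (h : cr E B < cr E A) : ∃ i ∈ B, i ∉ A := by
  by_contra hc
  push Not at hc
  exact absurd h (not_lt.2 (cr_anti hc))

theorem finrank_sup_span (U : Submodule ℝ (ι → ℝ)) {g : ι → ℝ} (hg : g ∉ U) :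
    finrank ℝ U + 1 ≤ finrank ℝ ↥(U ⊔ Submodule.span ℝ {g}) :=
  Submodule.finrank_lt_finrank_of_lt (lt_of_le_of_ne le_sup_left fun e => hg
    (e ▸ Submodule.mem_sup_right (Submodule.mem_span_singleton_self g)))

omit [Fintype ι] in
theorem mem_sup_span {U : Submodule ℝ (ι → ℝ)} {g f : ι → ℝ} :
    f ∈ U ⊔ Submodule.span ℝ {g} ↔ ∃ c : ℝ, f - c • g ∈ U := by
  rw [Submodule.mem_sup]
  constructor
  · rintro ⟨y, hy, z, hz, rfl⟩
    obtain ⟨c, rfl⟩ := Submodule.mem_span_singleton.1 hz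
    exact ⟨c, by simpa using hy⟩
  · rintro ⟨c, hc⟩
    exact ⟨_, hc, _, Submodule.mem_span_singleton.2 ⟨c, rfl⟩, by simp⟩

theorem one_dim (h : A ⊆ B) (hc : cr E A ≤ cr E B + 1) {g f : ι → ℝ} (hg : g ∈ van E A)
    {i : ι} (hi : i ∈ B) (gi : g i ≠ 0) (hf : f ∈ van E A) : ∃ c, ∀ i ∈ B, f i = c * g i := by
  have := Submodule.eq_of_le_of_finrank_le (sup_le (van_anti h)
    ((Submodule.span_singleton_le_iff_mem _ _).2 hg))
    (hc.trans (finrank_sup_span _ fun k : g ∈ van E B => gi (k.2 i hi)))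
  obtain ⟨c, hc⟩ := mem_sup_span.1 (this ▸ hf)
  exact ⟨c, fun i hi => sub_eq_zero.1 (hc.2 i hi)⟩

theorem two_dim (h : A ⊆ B) (hc : cr E A ≤ cr E B + 2) {g f k : ι → ℝ} (hg : g ∈ van E A)
    {i : ι} (hi : i ∈ B) (gi : g i ≠ 0) (hf : f ∈ van E A) (hfg : ∀ c, ∃ i ∈ B, f i ≠ c * g i)
    (hk : k ∈ van E A) : ∃ a b, ∀ i ∈ B, k i = a * g i + b * f i := by
  have h1 := finrank_sup_span _ fun k : g ∈ van E B => gi (k.2 i hi)
  have h2 := finrank_sup_span (van E B ⊔ Submodule.span ℝ {g}) (g := f) fun k => by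
    obtain ⟨c, hc⟩ := mem_sup_span.1 k
    obtain ⟨i, i1, i2⟩ := hfg c
    exact i2 (sub_eq_zero.1 (hc.2 i i1))
  have := Submodule.eq_of_le_of_finrank_le (sup_le (sup_le (van_anti h)
    ((Submodule.span_singleton_le_iff_mem _ _).2 hg))
    ((Submodule.span_singleton_le_iff_mem _ _).2 hf)) (hc.trans (by unfold cr; omega))
  obtain ⟨b, hb⟩ := mem_sup_span.1 (this ▸ hk)
  obtain ⟨a, ha⟩ := mem_sup_span.1 hb
  refine ⟨a, b, fun i hi => ?_⟩
  have := ha.2 i hi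
  simp only [Pi.sub_apply, Pi.smul_apply, smul_eq_mul] at this
  linarith

theorem argmin {g f : ι → ℝ} (hg : g ∈ van E A) (g3 : ∀ i, i ∉ A → 0 < g i) (hf : f ∈ van E A)
    {i : ι} (hi : i ∈ B) (hi' : i ∉ A) :
    ∃ c, (∀ j ∈ B, c * g j ≤ f j) ∧ ∃ j ∈ B, j ∉ A ∧ f j = c * g j := by
  obtain ⟨j, ⟨j1, j2⟩, hj⟩ := Set.exists_min_image {j | j ∈ B ∧ j ∉ A} (fun j => f j / g j)
    (Set.toFinite _) ⟨i, hi, hi'⟩
  refine ⟨f j / g j, fun l hl => ?_, j, j1, j2, (div_mul_cancel₀ _ (g3 j j2).ne').symm⟩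
  by_cases k : l ∈ A
  · rw [hg.2 l k, hf.2 l k, mul_zero]
  · exact (le_div_iff₀ (g3 l k)).1 (hj l ⟨hl, k⟩)

theorem between (hA : IsF E A) (hB : IsF E B) (h : A ⊆ B) (hc : cr E B + 2 ≤ cr E A) :
    ∃ G, IsF E G ∧ A ⊆ G ∧ G ⊆ B ∧ cr E B < cr E G ∧ cr E G < cr E A := by
  obtain ⟨g, g1, -, g3⟩ := hA.fn
  obtain ⟨i, hi, hi'⟩ := exists_of_cr (E := E) (A := A) (B := B) (by omega)
  obtain ⟨f, f1, f2⟩ : ∃ f ∈ van E A, f ∉ van E B ⊔ Submodule.span ℝ {g} := by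
    by_contra hcon
    push Not at hcon
    have h1 := Submodule.finrank_mono (show van E A ≤ _ from hcon)
    have h2 := Submodule.finrank_add_le_finrank_add_finrank (van E B) (Submodule.span ℝ {g})
    have h3 := finrank_span_singleton (K := ℝ) (v := g) fun e => (g3 i hi').ne' (congrFun e i)
    unfold cr at hc
    omega
  obtain ⟨c, c1, j, j1, j2, j3⟩ := argmin g1 g3 f1 hi hi'
  have k := (van E A).sub_mem f1 ((van E A).smul_mem c g1)
  have hG := hB.cut k.1 fun i hi => sub_nonneg.2 (c1 i hi)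
  have s1 : A ⊆ {i | i ∈ B ∧ (f - c • g) i = 0} := fun i hi => ⟨h hi, k.2 i hi⟩
  refine ⟨_, hG, s1, fun i hi => hi.1, ?_, cr_lt hA s1 ⟨j1, sub_eq_zero.2 j3⟩ j2⟩
  by_contra hcon
  have := hG.eq_of_cr (fun i hi => hi.1) (not_lt.1 hcon)
  exact f2 (mem_sup_span.2 ⟨c, k.1, fun i hi => (this ▸ hi : i ∈ {i | _ ∧ _}).2⟩)

theorem graded (hA : IsF E A) (hB : IsF E B) (h : A ⊆ B) {c : ℕ} (h1 : cr E B ≤ c)
    (h2 : c ≤ cr E A) : ∃ G, IsF E G ∧ A ⊆ G ∧ G ⊆ B ∧ cr E G = c := by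
  induction hn : cr E A - cr E B using Nat.strong_induction_on generalizing A B with
  | _ n ih =>
    by_cases e1 : c = cr E A
    · exact ⟨A, hA, subset_rfl, h, e1.symm⟩
    by_cases e2 : c = cr E B
    · exact ⟨B, hB, h, subset_rfl, e2.symm⟩
    obtain ⟨G, g1, g2, g3, g4, g5⟩ := between hA hB h (by omega)
    rcases le_total c (cr E G) with k | k
    · obtain ⟨H, k1, k2, k3, k4⟩ := ih _ (by omega) g1 hB g3 h1 k rfl
      exact ⟨H, k1, g2.trans k2, k3, k4⟩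
    · obtain ⟨H, k1, k2, k3, k4⟩ := ih _ (by omega) hA g1 g2 k h2 rfl
      exact ⟨H, k1, k2, k3.trans g3, k4⟩

theorem diamond (hA : IsF E A) (hG : IsF E G) (hB : IsF E B) (h1 : A ⊆ G) (h2 : G ⊆ B)
    (c1 : cr E A = cr E G + 1) (c2 : cr E G = cr E B + 1) :
    ∃ G', IsF E G' ∧ A ⊆ G' ∧ G' ⊆ B ∧ cr E G' = cr E G ∧ G' ≠ G ∧
      ∀ H, IsF E H → A ⊆ H → H ⊆ B → cr E H = cr E G → H = G ∨ H = G' := by
  obtain ⟨g, g1, g2, g3⟩ := hA.fn
  obtain ⟨f, f1, f2, f3⟩ := hG.fn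
  have f0 := van_anti h1 f1
  obtain ⟨i, i1, i2⟩ := exists_of_cr (E := E) (A := A) (B := G) (by omega)
  obtain ⟨l, l1, l2⟩ := exists_of_cr (E := E) (A := G) (B := B) (by omega)
  obtain ⟨c, d1, j, j1, j2, j3⟩ := argmin g1 g3 ((van E A).neg_mem f0) (h2 i1) i2
  have cn : c < 0 := by
    have := d1 l l1
    rw [Pi.neg_apply] at this
    by_contra hc
    nlinarith [f3 l l2, mul_nonneg (not_lt.1 hc) (g2 l)]
  have k := (van E A).sub_mem ((van E A).neg_mem f0) ((van E A).smul_mem c g1)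
  have hG' := hB.cut k.1 fun i hi => sub_nonneg.2 (d1 i hi)
  set G' := {i | i ∈ B ∧ (-f - c • g) i = 0} with e
  have s1 : A ⊆ G' := fun i hi => ⟨h1.trans h2 hi, k.2 i hi⟩
  have jG : j ∈ G' := ⟨j1, sub_eq_zero.2 j3⟩
  have iG : i ∉ G' := fun hi => by
    have := hi.2
    simp only [Pi.sub_apply, Pi.neg_apply, Pi.smul_apply, smul_eq_mul, f1.2 i i1] at this
    nlinarith [mul_neg_of_neg_of_pos cn (g3 i i2)]
  have r1 := cr_lt hA s1 jG j2
  have r2 := cr_lt hG' (fun i hi => hi.1) (h2 i1) iG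
  refine ⟨G', hG', s1, fun i hi => hi.1, by omega, fun e => iG (e ▸ i1), fun H hH s2 s3 c3 => ?_⟩
  obtain ⟨p, p1, p2, p3⟩ := hH.fn
  obtain ⟨a, b, hab⟩ := two_dim (h1.trans h2) (by omega) g1 (h2 i1) (g3 i i2).ne' f0 (fun c => by
    by_cases c0 : c = 0
    · exact ⟨l, l1, by rw [c0, zero_mul]; exact (f3 l l2).ne'⟩
    · exact ⟨i, h2 i1, by rw [f1.2 i i1]; exact (mul_ne_zero c0 (g3 i i2).ne').symm⟩)
    (van_anti s2 p1)
  obtain ⟨q, q1, q2⟩ := exists_of_cr (E := E) (A := A) (B := H) (by omega)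
  have inH : ∀ x, p x = 0 → x ∈ H := fun x hx => by
    by_contra hc; exact (p3 x hc).ne' hx
  have t1 := hab q (s3 q1)
  rw [p1.2 q q1] at t1
  have gq := g3 q q2
  rcases le_total 0 b with hb | hb
  · left
    have t2 := hab i (h2 i1)
    rw [f1.2 i i1] at t2
    have a0 : 0 ≤ a := by nlinarith [p2 i, g3 i i2]
    have a1 : a = 0 := by nlinarith [mul_nonneg hb (f2 q)]
    refine (hG.eq_of_cr (fun x hx => inH x ?_) c3.ge).symm
    rw [hab x (h2 hx), a1, f1.2 x hx]; ring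
  · right
    have t2 := hab j j1
    rw [Pi.neg_apply] at j3
    have t3 := d1 q (s3 q1)
    rw [Pi.neg_apply] at t3
    have a0 : 0 ≤ a - b * c := by
      have : 0 ≤ (a - b * c) * g j := by
        rw [show (a - b * c) * g j = p j by rw [t2, show f j = -(c * g j) by linarith]; ring]
        exact p2 j
      exact nonneg_of_mul_nonneg_left this (g3 j j2)
    have a1 : a - b * c = 0 := by
      nlinarith [mul_nonneg (neg_nonneg.2 hb) (sub_nonneg.2 t3)]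
    refine (hG'.eq_of_cr (fun x hx => inH x ?_) (by omega)).symm
    have := hx.2
    simp only [Pi.sub_apply, Pi.neg_apply, Pi.smul_apply, smul_eq_mul] at this
    rw [hab x hx.1, show f x = -(c * g x) by linarith, show a = b * c by linarith]; ring

theorem mono_edge (hA : IsF E A) (hB : IsF E B) (h : A ⊆ B) {f : ι → ℝ} (hf : f ∈ van E A)
    {i : ι} (hi : i ∈ B) (fi : f i < 0) :
    ∃ G, IsF E G ∧ A ⊆ G ∧ G ⊆ B ∧ cr E G + 1 = cr E A ∧ ∀ j ∈ G, j ∉ A → f j < 0 := by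
  obtain ⟨g, g1, g2, g3⟩ := hA.fn
  have hi' : i ∉ A := fun k => fi.ne (hf.2 i k)
  obtain ⟨c, c1, j, j1, j2, j3⟩ := argmin g1 g3 hf hi hi'
  have cn : c < 0 := by
    by_contra hc
    nlinarith [c1 i hi, mul_nonneg (not_lt.1 hc) (g2 i)]
  have k := (van E A).sub_mem hf ((van E A).smul_mem c g1)
  have hM := hB.cut k.1 fun i hi => sub_nonneg.2 (c1 i hi)
  have s1 : A ⊆ {i | i ∈ B ∧ (f - c • g) i = 0} := fun i hi => ⟨h hi, k.2 i hi⟩
  have r1 := cr_lt hA s1 ⟨j1, sub_eq_zero.2 j3⟩ j2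
  obtain ⟨G, k1, k2, k3, k4⟩ := graded hA hM s1 (c := cr E A - 1) (by omega) (by omega)
  refine ⟨G, k1, k2, fun x hx => (k3 hx).1, by omega, fun x hx hx' => ?_⟩
  rw [show f x = c * g x from sub_eq_zero.1 (k3 hx).2]
  exact mul_neg_of_neg_of_pos cn (g3 x hx')

theorem generic (V : Submodule ℝ (ι → ℝ)) (g : ι → ℝ) {φ : ι → ℝ} (hφ : φ ∈ V) :
    ∃ ψ ∈ V, (∀ i j, ψ i * g j = ψ j * g i → ∀ f ∈ V, f i * g j = f j * g i) ∧
      ∀ i j, φ i * g j < φ j * g i → ψ i * g j < ψ j * g i := by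
  let δ : ι × ι → Dual ℝ (ι → ℝ) := fun p =>
    g p.2 • LinearMap.proj p.1 - g p.1 • LinearMap.proj p.2
  have hδ : ∀ p f, δ p f = f p.1 * g p.2 - f p.2 * g p.1 := fun p f => by
    simp [δ, mul_comm]
  obtain ⟨χ, χ1, χ2⟩ := Module.Dual.exists_forall_mem_ne_zero_of_forall_exists V
    (fun p : {p // ∃ f ∈ V, δ p f ≠ 0} => δ p) fun p => p.2
  have ev : ∀ᶠ ε in 𝓝[>] (0 : ℝ), ∀ p, (δ p φ + ε * δ p χ = 0 → ∀ f ∈ V, δ p f = 0) ∧
      (δ p φ < 0 → δ p φ + ε * δ p χ < 0) := by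
    refine eventually_all.2 fun p => ?_
    have t : Tendsto (fun ε : ℝ => δ p φ + ε * δ p χ) (𝓝[>] 0) (𝓝 (δ p φ)) := by
      have : Continuous fun ε : ℝ => δ p φ + ε * δ p χ := by fun_prop
      simpa using (this.tendsto 0).mono_left nhdsWithin_le_nhds
    refine Eventually.and ?_ ?_
    · by_cases e : δ p φ = 0
      · filter_upwards [self_mem_nhdsWithin] with ε hε k f hf
        by_contra hc
        rw [e, zero_add] at k
        exact mul_ne_zero (ne_of_gt hε) (χ2 ⟨p, f, hf, hc⟩) k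
      · filter_upwards [t.eventually_ne e] with ε hε k using absurd k hε
    · by_cases e : δ p φ < 0
      · filter_upwards [t.eventually_lt_const e] with ε hε _ using hε
      · exact Eventually.of_forall fun _ k => absurd k e
  obtain ⟨ε, hε⟩ := ev.exists
  refine ⟨φ + ε • χ, V.add_mem hφ (V.smul_mem ε χ1), fun i j h f hf => ?_, fun i j h => ?_⟩
  · have := (hε (i, j)).1 (by
      simp only [hδ]
      simp only [Pi.add_apply, Pi.smul_apply, smul_eq_mul] at h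
      linarith) f hf
    rw [hδ] at this
    linarith
  · have := (hε (i, j)).2 (by rw [hδ]; linarith)
    simp only [hδ] at this
    simp only [Pi.add_apply, Pi.smul_apply, smul_eq_mul]
    linarith

end Pool.Agent.Lib.MP_7157e1_co
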