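import Pool.Agent.Lib.MP_7157e1_co.P1
import Pool.Agent.Lib.MP_7157e1_co.P2

/-! The flag system of a polytope. -/

namespace Pool.Agent.Lib.MP_7157e1_co
open Module Function

variable {ι : Type}

/-- flags as sequences of faces; position `j` holds the face of dimension `j - 1` -/
def Fl (E : Submodule ℝ (ι → ℝ)) (d : ℕ) : Type :=
  {Φ : ℕ → Set ι // ∀ j, IsF E (Φ j) ∧ cr E (Φ j) = d + 1 - j ∧ Φ j ⊆ Φ (j + 1)}

variable {E : Submodule ℝ (ι → ℝ)} {d : ℕ}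

namespace Fl

theorem isF (Φ : Fl E d) (j : ℕ) : IsF E (Φ.1 j) := (Φ.2 j).1

theorem cr (Φ : Fl E d) (j : ℕ) : cr E (Φ.1 j) = d + 1 - j := (Φ.2 j).2.1

theorem mono (Φ : Fl E d) {i j : ℕ} (h : i ≤ j) : Φ.1 i ⊆ Φ.1 j :=
  monotone_nat_of_le_succ (fun j => (Φ.2 j).2.2) h

theorem ext {Φ Ψ : Fl E d} (h : ∀ j, Φ.1 j = Ψ.1 j) : Φ = Ψ := Subtype.ext (funext h)

/-- agreement outside the window -/
def Ag (a b : ℕ) (Φ Ψ : Fl E d) : Prop := ∀ j, (j ≤ a ∨ b + 1 ≤ j) → Ψ.1 j = Φ.1 j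

/-- negativity on the new part -/
def Neg (φ : ι → ℝ) (a : ℕ) (Φ : Fl E d) : Prop := ∀ j ∈ Φ.1 (a + 1), j ∉ Φ.1 a → φ j < 0

variable [Fintype ι]

theorem top (Φ : Fl E d) {j : ℕ} (h : d + 1 ≤ j) : Φ.1 j = Set.univ :=
  (Φ.isF j).eq_of_cr (Set.subset_univ _) (by rw [Φ.cr]; omega)

theorem bot (hpos : IsF E ∅) (hd : finrank ℝ E = d + 1) (Φ : Fl E d) : Φ.1 0 = ∅ :=
  (hpos.eq_of_cr (Set.empty_subset _) (by rw [Φ.cr, cr_empty]; omega)).symm

instance : Finite (Fl E d) :=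
  Finite.of_injective (fun (Φ : Fl E d) (j : Fin (d + 1)) => Φ.1 j) fun Φ Ψ h => ext fun j => by
    by_cases k : j < d + 1
    · exact congrFun h ⟨j, k⟩
    · rw [Φ.top (by omega), Ψ.top (by omega)]

theorem exists_r (i : ℕ) (Φ : Fl E d) : ∃ Ψ : Fl E d, (d ≤ i → Ψ = Φ) ∧ (i < d →
    (∀ j, j ≠ i + 1 → Ψ.1 j = Φ.1 j) ∧ Ψ.1 (i + 1) ≠ Φ.1 (i + 1) ∧
      ∀ H, IsF E H → Φ.1 i ⊆ H → H ⊆ Φ.1 (i + 2) → MP_7157e1_co.cr E H = d - i →
        H = Φ.1 (i + 1) ∨ H = Ψ.1 (i + 1)) := by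
  by_cases hi : i < d
  swap
  · exact ⟨Φ, fun _ => rfl, fun h => absurd h hi⟩
  obtain ⟨G, g1, g2, g3, g4, g5, g6⟩ := diamond (Φ.isF i) (Φ.isF (i + 1)) (Φ.isF (i + 2))
    (Φ.mono (by omega)) (Φ.mono (by omega)) (by rw [Φ.cr, Φ.cr]; omega)
    (by rw [Φ.cr, Φ.cr]; omega)
  refine ⟨⟨update Φ.1 (i + 1) G, fun j => ?_⟩, fun h => by omega, fun _ =>
    ⟨fun j hj => update_of_ne hj _ _, by simpa using g5, fun H h1 h2 h3 h4 => ?_⟩⟩
  · by_cases e : j = i + 1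
    · subst e
      rw [update_self, update_of_ne (by omega)]
      exact ⟨g1, g4.trans (Φ.cr _), g3⟩
    · rw [update_of_ne e]
      refine ⟨Φ.isF j, Φ.cr j, ?_⟩
      by_cases e2 : j = i
      · subst e2; rw [update_self]; exact g2
      · rw [update_of_ne (by omega)]; exact Φ.mono (by omega)
  · simpa using g6 H h1 h2 h3 (by rw [h4, Φ.cr]; omega)

/-- the adjacent flag -/
noncomputable def r (i : ℕ) (Φ : Fl E d) : Fl E d := (exists_r i Φ).choose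

theorem r_out {i : ℕ} (h : d ≤ i) (Φ : Fl E d) : r i Φ = Φ := (exists_r i Φ).choose_spec.1 h

theorem r_off (i : ℕ) (Φ : Fl E d) {j : ℕ} (h : j ≠ i + 1) : (r i Φ).1 j = Φ.1 j := by
  by_cases hi : i < d
  · exact ((exists_r i Φ).choose_spec.2 hi).1 j h
  · rw [r_out (by omega)]

theorem r_ne {i : ℕ} (h : i < d) (Φ : Fl E d) : (r i Φ).1 (i + 1) ≠ Φ.1 (i + 1) :=
  ((exists_r i Φ).choose_spec.2 h).2.1

theorem r_two {i : ℕ} (h : i < d) (Φ Ψ : Fl E d) (h1 : Φ.1 i ⊆ Ψ.1 (i + 1))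
    (h2 : Ψ.1 (i + 1) ⊆ Φ.1 (i + 2)) :
    Ψ.1 (i + 1) = Φ.1 (i + 1) ∨ Ψ.1 (i + 1) = (r i Φ).1 (i + 1) :=
  ((exists_r i Φ).choose_spec.2 h).2.2 _ (Ψ.isF _) h1 h2 (by rw [Ψ.cr]; omega)

theorem eq_or {i : ℕ} (h : i < d) {Φ Ψ : Fl E d} (hj : ∀ j, j ≠ i + 1 → Ψ.1 j = Φ.1 j) :
    Ψ = Φ ∨ Ψ = r i Φ := by
  rcases r_two h Φ Ψ (hj i (by omega) ▸ Ψ.mono (by omega))
    (hj (i + 2) (by omega) ▸ Ψ.mono (by omega)) with k | k
  · refine Or.inl (ext fun j => ?_)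
    by_cases e : j = i + 1
    · rw [e, k]
    · exact hj j e
  · refine Or.inr (ext fun j => ?_)
    by_cases e : j = i + 1
    · rw [e, k]
    · rw [hj j e, r_off i Φ e]

theorem r_ne' {i : ℕ} (h : i < d) (Φ : Fl E d) : r i Φ ≠ Φ := fun e => r_ne h Φ (by rw [e])

theorem r_inv (i : ℕ) (Φ : Fl E d) : r i (r i Φ) = Φ := by
  by_cases hi : i < d
  · exact ((eq_or hi fun j hj => (r_off i Φ hj).symm).resolve_left (r_ne' hi Φ).symm).symm
  · rw [r_out (by omega), r_out (by omega)]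

theorem r_loc {i : ℕ} {Φ Ψ : Fl E d} (h0 : Ψ.1 i = Φ.1 i) (h1 : Ψ.1 (i + 1) = Φ.1 (i + 1))
    (h2 : Ψ.1 (i + 2) = Φ.1 (i + 2)) : (r i Ψ).1 (i + 1) = (r i Φ).1 (i + 1) := by
  by_cases hi : i < d
  · refine (r_two hi Φ (r i Ψ) ?_ ?_).resolve_left (h1 ▸ r_ne hi Ψ)
    · rw [← h0, ← r_off i Ψ (show i ≠ i + 1 by omega)]; exact mono _ (by omega)
    · rw [← h2, ← r_off i Ψ (show i + 2 ≠ i + 1 by omega)]; exact mono _ (by omega)
  · rw [r_out (by omega), r_out (by omega), h1]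

theorem r_comm {i j : ℕ} (h : i + 2 ≤ j) (Φ : Fl E d) : r i (r j Φ) = r j (r i Φ) := by
  refine ext fun l => ?_
  by_cases e1 : l = i + 1
  · subst e1
    rw [r_off j _ (by omega)]
    exact r_loc (r_off j _ (by omega)) (r_off j _ (by omega)) (r_off j _ (by omega))
  by_cases e2 : l = j + 1
  · subst e2
    rw [r_off i _ e1]
    exact (r_loc (r_off i _ (by omega)) (r_off i _ (by omega)) (r_off i _ (by omega))).symm
  rw [r_off i _ e1, r_off j _ e2, r_off j _ e2, r_off i _ e1]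

theorem inter_eq {i : ℕ} (h : i < d) (Φ : Fl E d) {x : ι} (h1 : x ∈ Φ.1 (i + 1))
    (h2 : x ∈ (r i Φ).1 (i + 1)) : x ∈ Φ.1 i := by
  by_contra hx
  have s : Φ.1 i ⊆ (r i Φ).1 (i + 1) := r_off i Φ (show i ≠ i + 1 by omega) ▸ mono _ (by omega)
  have c := cr_lt (B := Φ.1 (i + 1) ∩ (r i Φ).1 (i + 1)) (Φ.isF i)
    (Set.subset_inter (Φ.mono (by omega)) s) ⟨h1, h2⟩ hx
  have f := (Φ.isF (i + 1)).inter ((r i Φ).isF (i + 1))
  rw [Φ.cr] at c
  exact r_ne h Φ ((f.eq_of_cr Set.inter_subset_right (by rw [cr]; omega)).symm.trans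
    (f.eq_of_cr Set.inter_subset_left (by rw [cr]; omega)))

theorem r_p2 {i : ℕ} (h : i + 1 < d) (Φ : Fl E d) : r i (r (i + 1) Φ) ≠ r (i + 1) (r i Φ) := by
  intro e
  refine r_ne (by omega) Φ (((r i Φ).isF (i + 1)).eq_of_cr (fun x hx => inter_eq h Φ ?_ ?_)
    (by rw [cr, cr]))
  · rw [← r_off i Φ (show i + 1 + 1 ≠ i + 1 by omega)]; exact mono _ (by omega) hx
  · rw [← r_off i (r (i + 1) Φ) (show i + 1 + 1 ≠ i + 1 by omega), e]
    refine mono _ (Nat.le_succ _) ?_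
    rwa [r_off (i + 1) _ (show i + 1 ≠ i + 1 + 1 by omega)]

theorem chain (n : ℕ) {A B : Set ι} (hA : IsF E A) (hB : IsF E B) (h : A ⊆ B)
    (hc : MP_7157e1_co.cr E A = MP_7157e1_co.cr E B + n) :
    ∃ C : ℕ → Set ι, C 0 = A ∧ (∀ j, n ≤ j → C j = B) ∧ ∀ j, IsF E (C j) ∧
      (j ≤ n → MP_7157e1_co.cr E (C j) + j = MP_7157e1_co.cr E A) ∧ C j ⊆ C (j + 1) := by
  induction n generalizing A with
  | zero =>
    exact ⟨fun _ => A, rfl, fun _ _ => hA.eq_of_cr h hc.le,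
      fun j => ⟨hA, fun k => by rw [Nat.le_zero.1 k]; rfl, subset_rfl⟩⟩
  | succ n ih =>
    obtain ⟨G, g1, g2, g3, g4⟩ := graded hA hB h (c := MP_7157e1_co.cr E B + n) (by omega)
      (by omega)
    obtain ⟨C, c1, c2, c3⟩ := ih g1 g3 g4
    refine ⟨fun j => Nat.casesOn j A C, rfl, fun j hj => ?_, fun j => ?_⟩
    · obtain ⟨j, rfl⟩ : ∃ l, j = l + 1 := ⟨j - 1, by omega⟩
      exact c2 j (by omega)
    · rcases j with _ | j
      · exact ⟨hA, fun _ => rfl, g2.trans c1.ge⟩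
      · refine ⟨(c3 j).1, fun k => ?_, (c3 j).2.2⟩
        have := (c3 j).2.1 (by omega)
        show MP_7157e1_co.cr E (C j) + (j + 1) = _
        omega

theorem nonempty (hpos : IsF E ∅) (hd : finrank ℝ E = d + 1) : Nonempty (Fl E d) := by
  obtain ⟨C, -, c2, c3⟩ := chain (d + 1) hpos isF_univ (Set.empty_subset _)
    (by rw [cr_empty, cr_univ]; omega)
  refine ⟨⟨C, fun j => ⟨(c3 j).1, ?_, (c3 j).2.2⟩⟩⟩
  by_cases k : j ≤ d + 1
  · have := (c3 j).2.1 k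
    rw [cr_empty] at this; omega
  · rw [c2 j (by omega), cr_univ]; omega

theorem fill {a b : ℕ} (hab : a ≤ b) (hb : b ≤ d) (Φ : Fl E d) {G : Set ι} (hG : IsF E G)
    (h1 : Φ.1 a ⊆ G) (h2 : G ⊆ Φ.1 (b + 1)) (hc : MP_7157e1_co.cr E G = d - a) :
    ∃ Ψ, Ag a b Φ Ψ ∧ Ψ.1 (a + 1) = G := by
  obtain ⟨C, c1, c2, c3⟩ := chain (b - a) hG (Φ.isF (b + 1)) h2 (by rw [hc, Φ.cr]; omega)
  have e : ∀ j, j = b - a → C j = Φ.1 (b + 1) := fun j hj => c2 j hj.ge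
  refine ⟨⟨fun j => if a + 1 ≤ j ∧ j ≤ b + 1 then C (j - (a + 1)) else Φ.1 j, fun j => ?_⟩,
    fun j hj => ?_, ?_⟩
  · by_cases k : a + 1 ≤ j ∧ j ≤ b + 1
    · simp only [if_pos k]
      refine ⟨(c3 _).1, by have := (c3 (j - (a + 1))).2.1 (by omega); omega, ?_⟩
      split_ifs with k2
      · rw [show j + 1 - (a + 1) = j - (a + 1) + 1 by omega]; exact (c3 _).2.2
      · rw [e _ (by omega)]; exact Φ.mono (by omega)
    · simp only [if_neg k]
      refine ⟨Φ.isF j, Φ.cr j, ?_⟩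
      split_ifs with k2
      · rw [show j + 1 - (a + 1) = 0 by omega, c1, show j = a by omega]; exact h1
      · exact Φ.mono (by omega)
  · show (if _ then _ else _) = _
    split_ifs with k
    · rw [e _ (by omega), show j = b + 1 by omega]
    · rfl
  · show (if _ then _ else _) = _
    rw [if_pos (by omega), Nat.sub_self, c1]

theorem Ag.step {a b i : ℕ} {Φ Ψ : Fl E d} (h : Ag a b Φ Ψ) (hi : i ∈ Set.Ico a b) :
    Ag a b Φ (r i Ψ) := fun j hj => by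
  rw [r_off i Ψ (by have := hi.1; have := hi.2; omega), h j hj]

theorem low_iff {a : ℕ} (ha : a < d) {w : Fl E d} {g ψ : ι → ℝ} (g1 : g ∈ van E (w.1 a))
    (g3 : ∀ i, i ∉ w.1 a → 0 < g i) (hψ : ψ ∈ van E (w.1 a)) {c c' : ℝ}
    (h : ∀ j ∈ w.1 (a + 1), ψ j = c * g j) (h' : ∀ j ∈ (r a w).1 (a + 1), ψ j = c' * g j) :
    c' < c ↔ Neg (ψ - c • g) (a + 1) w := by
  obtain ⟨i, i1, i2⟩ := exists_of_cr (E := E) (A := w.1 a) (B := (r a w).1 (a + 1))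
    (by rw [cr, cr]; omega)
  have i3 : i ∈ w.1 (a + 1 + 1) := by
    rw [← r_off a w (show a + 1 + 1 ≠ a + 1 by omega)]; exact mono _ (by omega) i1
  have i4 : i ∉ w.1 (a + 1) := fun k => i2 (inter_eq ha w k i1)
  have e : (ψ - c • g) i = (c' - c) * g i := by
    simp only [Pi.sub_apply, Pi.smul_apply, smul_eq_mul, h' i i1]; ring
  constructor
  · intro k j j1 j2
    obtain ⟨f, f1, -, f3⟩ := (w.isF (a + 1)).fn
    obtain ⟨t, ht⟩ := one_dim (w.mono (Nat.le_succ (a + 1))) (by rw [cr, cr]; omega) f1 i3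
      (f3 i i4).ne' (f := ψ - c • g)
      ⟨E.sub_mem hψ.1 (E.smul_mem c g1.1), fun j hj => sub_eq_zero.2 (h j hj)⟩
    have := mul_neg_of_neg_of_pos (sub_neg.2 k) (g3 i i2)
    rw [← e, ht i i3] at this
    rw [ht j j1]
    exact mul_neg_of_neg_of_pos (neg_of_mul_neg_left this (f3 i i4).le) (f3 j j2)
  · intro k
    have := k i i3 i4
    rw [e] at this
    exact sub_neg.1 (neg_of_mul_neg_left this (g3 i i2).le)

theorem levels {a b : ℕ} (hab : a < b) (hb : b ≤ d) (Φ0 : Fl E d) {φ : ι → ℝ}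
    (hφ : φ ∈ van E (Φ0.1 a)) : ∃ lv : Fl E d → ℕ,
    (∀ x y, Ag a b Φ0 x → Ag a b Φ0 y → (lv x = lv y ↔ x.1 (a + 1) = y.1 (a + 1))) ∧
    (∀ x y, Ag a b Φ0 x → Ag a b Φ0 y → lv y < lv x → Neg φ a x → Neg φ a y) ∧
    (∀ x, Ag a b Φ0 x → ∃ φ' ∈ van E (x.1 (a + 1)), ∀ w, Ag (a + 1) b x w →
      (lv (r a w) < lv w ↔ Neg φ' (a + 1) w)) ∧
    ∀ b', a < b' → b' ≤ b → ∀ x y, Ag a b Φ0 x → Ag a b Φ0 y → y.1 (a + 1) ⊆ x.1 (b' + 1) →
      (lv y < lv x → ∃ w, Ag (a + 1) b' x w ∧ lv (r a w) < lv w) ∧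
      (lv x < lv y → ∃ w, Ag (a + 1) b' x w ∧ lv w < lv (r a w)) := by
  obtain ⟨g, g1, g2, g3⟩ := (Φ0.isF a).fn
  obtain ⟨ψ, ψ1, ψ2, ψ3⟩ := generic (van E (Φ0.1 a)) g hφ
  have pt : ∀ x : Fl E d, ∃ i ∈ x.1 (a + 1), i ∉ Φ0.1 a := fun x =>
    exists_of_cr (E := E) (by rw [cr, cr]; omega)
  have ex : ∀ f ∈ van E (Φ0.1 a), ∀ x : Fl E d, ∃ c, x.1 a = Φ0.1 a →
      ∀ j ∈ x.1 (a + 1), f j = c * g j := by
    intro f hf x
    by_cases k : x.1 a = Φ0.1 a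
    · obtain ⟨i, i1, i2⟩ := pt x
      obtain ⟨c, hc⟩ := one_dim (k ▸ x.mono (Nat.le_succ a)) (by rw [cr, cr]; omega) g1 i1
        (g3 i i2).ne' hf
      exact ⟨c, fun _ => hc⟩
    · exact ⟨0, fun h => absurd h k⟩
  choose lev hlev using ex ψ ψ1
  obtain ⟨lv, hlv⟩ := exists_lv lev
  have heq : ∀ x y, lv x = lv y ↔ lev x = lev y := fun x y => by
    rw [eq_iff_le_not_lt, eq_iff_le_not_lt, ← not_lt, ← not_lt, hlv, hlv]
  have A0 : ∀ {x}, Ag a b Φ0 x → x.1 a = Φ0.1 a := fun h => h a (Or.inl le_rfl)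
  have same : ∀ x y : Fl E d, x.1 a = Φ0.1 a → y.1 a = Φ0.1 a → x.1 (a + 1) = y.1 (a + 1) →
      lev x = lev y := by
    intro x y hx hy e
    obtain ⟨i, i1, i2⟩ := pt x
    exact mul_right_cancel₀ (g3 i i2).ne' ((hlev x hx i i1).symm.trans (hlev y hy i (e ▸ i1)))
  have desc : ∀ (ψ : ι → ℝ) (lev : Fl E d → ℝ), ψ ∈ van E (Φ0.1 a) →
      (∀ x, x.1 a = Φ0.1 a → ∀ j ∈ x.1 (a + 1), ψ j = lev x * g j) → ∀ b', a < b' → b' ≤ b →
      ∀ x y, Ag a b Φ0 x → Ag a b Φ0 y → y.1 (a + 1) ⊆ x.1 (b' + 1) → lev y < lev x →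
        ∃ w, Ag (a + 1) b' x w ∧ lev (r a w) < lev x := by
    intro ψ lev ψ1 hlev b' b1 b2 x y hx hy hs hl
    obtain ⟨i, i1, i2⟩ := pt y
    obtain ⟨G, k1, k2, k3, k4, k5⟩ := mono_edge (x.isF (a + 1)) (x.isF (b' + 1))
      (x.mono (by omega)) (f := ψ - lev x • g) ⟨E.sub_mem ψ1.1 (E.smul_mem _ g1.1),
        fun j hj => sub_eq_zero.2 (hlev x (A0 hx) j hj)⟩ (hs i1) (by
      simp only [Pi.sub_apply, Pi.smul_apply, smul_eq_mul, hlev y (A0 hy) i i1]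
      nlinarith [g3 i i2])
    obtain ⟨w, w1, w2⟩ := fill (a := a + 1) b1 (by omega) x k1 k2 k3 (by
      rw [cr] at k4; omega)
    have w3 : w.1 a = Φ0.1 a := (w1 a (by omega)).trans (A0 hx)
    have w4 := w1 (a + 1) (by omega)
    refine ⟨w, w1, (low_iff (by omega) (w3 ▸ g1) (w3 ▸ g3) (w3 ▸ ψ1) (w4 ▸ hlev x (A0 hx))
      (hlev _ ((r_off a w (by omega)).trans w3))).2 fun j j1 j2 => k5 j (w2 ▸ j1) (w4 ▸ j2)⟩
  refine ⟨lv, fun x y hx hy => ⟨fun e => ?_, fun e => (heq x y).2 (same x y (A0 hx) (A0 hy) e)⟩,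
    fun x y hx hy hl hn j j1 j2 => ?_, fun x hx => ⟨ψ - lev x • g,
      ⟨E.sub_mem ψ1.1 (E.smul_mem _ g1.1), fun j hj => sub_eq_zero.2 (hlev x (A0 hx) j hj)⟩,
      fun w hw => ?_⟩, fun b' b1 b2 x y hx hy hs => ⟨fun hl => ?_, fun hl => ?_⟩⟩
  · refine (x.isF _).eq_of_cr (fun i i1 => ?_) (by rw [cr, cr])
    by_cases i2 : i ∈ Φ0.1 a
    · exact y.mono (Nat.le_succ a) (A0 hy ▸ i2)
    obtain ⟨j, j1, j2⟩ := pt y
    obtain ⟨f, f1, -, f3⟩ := (y.isF (a + 1)).fn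
    have := ψ2 i j (by rw [hlev x (A0 hx) i i1, hlev y (A0 hy) j j1, (heq x y).1 e]; ring) f
      (van_anti (A0 hy ▸ y.mono (Nat.le_succ a)) f1)
    rw [f1.2 j j1, zero_mul] at this
    by_contra hc
    exact (mul_pos (f3 i hc) (g3 j j2)).ne' this
  · rw [A0 hy] at j2
    obtain ⟨i, i1, i2⟩ := pt x
    have k1 := hn i i1 (A0 hx ▸ i2)
    by_contra hc
    have := ψ3 i j (by nlinarith [g3 j j2, mul_nonneg (not_lt.1 hc) (g2 i)])
    rw [hlev x (A0 hx) i i1, hlev y (A0 hy) j j1] at this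
    nlinarith [mul_pos (g3 i i2) (g3 j j2), (hlv y x).1 hl]
  · have w3 : w.1 a = Φ0.1 a := (hw a (by omega)).trans (A0 hx)
    have w4 := hw (a + 1) (by omega)
    rw [hlv, same w x w3 (A0 hx) w4]
    exact low_iff (by omega) (w3 ▸ g1) (w3 ▸ g3) (w3 ▸ ψ1) (w4 ▸ hlev x (A0 hx))
      (hlev _ ((r_off a w (by omega)).trans w3))
  · obtain ⟨w, w1, w2⟩ := desc ψ lev ψ1 hlev b' b1 b2 x y hx hy hs ((hlv _ _).1 hl)
    refine ⟨w, w1, (hlv _ _).2 ?_⟩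
    rwa [same w x ((w1 a (by omega)).trans (A0 hx)) (A0 hx) (w1 (a + 1) (by omega))]
  · obtain ⟨w, w1, w2⟩ := desc (-ψ) (fun x => -lev x) ((van E _).neg_mem ψ1)
      (fun x hx j hj => by rw [Pi.neg_apply, hlev x hx j hj, neg_mul]) b' b1 b2 x y hx hy hs
      (neg_lt_neg ((hlv _ _).1 hl))
    refine ⟨w, w1, (hlv _ _).2 ?_⟩
    rw [same w x ((w1 a (by omega)).trans (A0 hx)) (A0 hx) (w1 (a + 1) (by omega))]
    exact neg_lt_neg_iff.1 w2

omit [Fintype ι] in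
theorem Ag.up {a b : ℕ} {Φ x y : Fl E d} (hx : Ag a b Φ x) (hy : Ag a b Φ y)
    (e : x.1 (a + 1) = y.1 (a + 1)) : Ag (a + 1) b x y := fun j hj => by
  by_cases k : j = a + 1
  · rw [k, e]
  · rw [hx j (by omega), hy j (by omega)]

omit [Fintype ι] in
theorem Ag.down {a b b' : ℕ} {Φ x y : Fl E d} (hx : Ag a b Φ x) (hy : Ag (a + 1) b' x y)
    (hb : b' ≤ b) : Ag a b Φ y := fun j hj => by rw [hy j (by omega), hx j hj]

theorem conn_of {a b : ℕ} (h : ∀ x y : Fl E d, Ag a b x y → ∀ φ ∈ van E (x.1 a), Neg φ a x →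
    Neg φ a y → Relation.ReflTransGen (fun u v => (∃ i ∈ Set.Ico a b, r i u = v) ∧
      Neg φ a u ∧ Neg φ a v) x y) {x y : Fl E d} (hxy : Ag a b x y) :
    Conn r (Set.Ico a b) x y := by
  obtain ⟨g, g1, -, g3⟩ := (x.isF a).fn
  have p := h x y hxy (-g) ((van E _).neg_mem g1) (fun j _ hj => neg_neg_of_pos (g3 j hj))
    fun j _ hj => neg_neg_of_pos (g3 j (hxy a (Or.inl le_rfl) ▸ hj))
  clear hxy
  induction p with
  | refl => exact Conn.refl _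
  | tail _ k ih => obtain ⟨⟨i, hi, rfl⟩, -⟩ := k; exact ih.step hi

theorem cn (n : ℕ) {a b : ℕ} (hn : a + n = b) (hb : b ≤ d) (x y : Fl E d) (hxy : Ag a b x y)
    (φ : ι → ℝ) (hφ : φ ∈ van E (x.1 a)) (nx : Neg φ a x) (ny : Neg φ a y) :
    Relation.ReflTransGen (fun u v => (∃ i ∈ Set.Ico a b, r i u = v) ∧
      Neg φ a u ∧ Neg φ a v) x y := by
  induction n generalizing a x y φ with
  | zero => rw [show x = y from ext fun j => (hxy j (by omega)).symm]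
  | succ n ih =>
    obtain ⟨lv, l1, l2, -, l4⟩ := levels (a := a) (by omega) hb x hφ
    have lift : ∀ u w : Fl E d, Ag (a + 1) b u w → Neg φ a u → Neg φ a w ∧ Relation.ReflTransGen
        (fun u v => (∃ i ∈ Set.Ico a b, r i u = v) ∧ Neg φ a u ∧ Neg φ a v) u w := by
      intro u w h nu
      refine (conn_of (ih (a := a + 1) (by omega)) h).ind (fun w => Neg φ a w ∧
        Relation.ReflTransGen _ u w) ⟨nu, Relation.ReflTransGen.refl⟩ fun i hi z hz => ?_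
      have k : Neg φ a (r i z) := by
        have := hi.1
        unfold Neg
        rw [r_off i z (by omega), r_off i z (by omega)]
        exact hz.1
      exact ⟨k, hz.2.tail ⟨⟨i, ⟨by have := hi.1; omega, hi.2⟩, rfl⟩, hz.1, k⟩⟩
    obtain ⟨m, m1, m2⟩ := (measure lv).wf.has_min {u | Ag a b x u} ⟨x, fun _ _ => rfl⟩
    have key : ∀ c u, lv u = c → Ag a b x u → Neg φ a u → Relation.ReflTransGen
        (fun u v => (∃ i ∈ Set.Ico a b, r i u = v) ∧ Neg φ a u ∧ Neg φ a v) u m := by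
      intro c
      induction c using Nat.strong_induction_on with
      | _ c ih2 =>
        intro u uc hu nu
        by_cases e : lv u = lv m
        · exact (lift u m (hu.up m1 ((l1 u m hu m1).1 e)) nu).2
        have k : lv m < lv u := lt_of_le_of_ne (not_lt.1 (m2 u hu)) (Ne.symm e)
        obtain ⟨w, w1, w2⟩ := (l4 b (by omega) le_rfl u m hu m1 (by
          rw [hu _ (Or.inr le_rfl), ← m1 _ (Or.inr le_rfl)]; exact m.mono (by omega))).1 k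
        obtain ⟨nw, p⟩ := lift u w w1 nu
        have hw := hu.down w1 le_rfl
        have ma : a ∈ Set.Ico a b := ⟨le_rfl, by omega⟩
        have nr := l2 _ _ hw (hw.step ma) w2 nw
        have e2 := (l1 w u hw hu).2 (w1 _ (Or.inl le_rfl))
        exact (p.tail ⟨⟨a, ma, rfl⟩, nw, nr⟩).trans (ih2 _ (by omega) _ rfl (hw.step ma) nr)
    refine (key _ x rfl (fun _ _ => rfl) nx).trans ?_
    have p := key _ y rfl hxy ny
    generalize m = z at p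
    induction p with
    | refl => exact Relation.ReflTransGen.refl
    | tail _ k ih =>
      obtain ⟨⟨i, hi, rfl⟩, k1, k2⟩ := k
      exact Relation.ReflTransGen.head ⟨⟨i, hi, r_inv i _⟩, k2, k1⟩ ih

theorem conn {a b : ℕ} (hab : a ≤ b) (hb : b ≤ d) {x y : Fl E d} (h : Ag a b x y) :
    Conn r (Set.Ico a b) x y := conn_of (cn (b - a) (by omega) hb) h

theorem sc (n : ℕ) {a b : ℕ} (hn : b ≤ a + n) (hb : b ≤ d) :
    SC (r : ℕ → Fl E d → Fl E d) (Set.Ico a b) := by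
  induction n generalizing a with
  | zero =>
    intro Z π t _ _ _ _ z z' hc _
    exact hc.ind (fun y => z = y) rfl fun i hi => by have := hi.1; have := hi.2; omega
  | succ n ih =>
    by_cases hab : b ≤ a
    · exact ih (by omega)
    refine sc_step (by omega) r_inv (fun i hi => r_ne' (by omega)) (ih (by omega)) fun Φ0 => ?_
    obtain ⟨lv, l1, -, l3, l4⟩ := levels (a := a) (by omega) hb Φ0 (van E _).zero_mem
    have ma : a ∈ Set.Ico a b := ⟨le_rfl, by omega⟩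
    refine ⟨{x | Ag a b Φ0 x}, lv, fun _ _ => rfl, fun i hi x hx => Ag.step hx hi,
      fun i hi x hx => ?_, fun x hx y hy e => conn (by omega) hb (Ag.up hx hy ((l1 x y hx hy).1 e)),
      fun x hx e => r_ne (by omega) x ((l1 _ _ (Ag.step hx ma) hx).1 e),
      fun x hx y hy e k1 k2 => ?_, fun x hx hb1 k1 k2 y hy => ?_⟩
    · exact (l1 _ _ (Ag.step hx ⟨by have := hi.1; omega, hi.2⟩) hx).2
        (r_off i x (by have := hi.1; omega))
    · obtain ⟨φ, φ1, φ2⟩ := l3 x hx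
      have hxy := Ag.up hx hy ((l1 x y hx hy).1 e)
      have p := cn (b - (a + 1)) (by omega) hb x y hxy φ φ1 ((φ2 x fun _ _ => rfl).1 k1)
        ((φ2 y hxy).1 k2)
      suffices h : Ag (a + 1) b x y ∧ Relation.ReflTransGen (fun u v =>
          (∃ i ∈ Set.Ico (a + 1) b, r i u = v) ∧ lv (r a u) < lv u ∧ lv (r a v) < lv v) x y from h.2
      clear hxy k2 e hy
      induction p with
      | refl => exact ⟨fun _ _ => rfl, Relation.ReflTransGen.refl⟩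
      | tail _ k ih =>
        obtain ⟨⟨i, hi, rfl⟩, n1, n2⟩ := k
        exact ⟨ih.1.step hi, ih.2.tail ⟨⟨i, hi, rfl⟩, (φ2 _ ih.1).2 n1,
          (φ2 _ (ih.1.step hi)).2 n2⟩⟩
    · have h2 : Ag a (a + 2) x y := hy.ind (Ag a (a + 2) x) (fun _ _ => rfl) (by
        rintro i (rfl | rfl) z hz
        · exact hz.step ⟨le_rfl, by omega⟩
        · exact hz.step ⟨by omega, by omega⟩)
      have h3 : Ag a b Φ0 y := fun j hj => by rw [h2 j (by omega), hx j hj]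
      rcases lt_trichotomy (lv y) (lv x) with k | k | k
      · exact Or.inl k
      · refine Or.inr (eq_or (by omega) fun j hj => ?_)
        by_cases e : j = a + 1
        · rw [e]; exact (l1 _ _ h3 hx).1 k
        · exact h2 j (by omega)
      · obtain ⟨w, w1, w2⟩ := (l4 (a + 2) (by omega) (by omega) x y hx h3 (by
          rw [← h2 _ (Or.inr le_rfl)]; exact y.mono (by omega))).2 k
        have e2 := (l1 w x (Ag.down hx w1 (by omega)) hx).2 (w1 _ (Or.inl le_rfl))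
        rcases eq_or (i := a + 1) (by omega) (fun j hj => w1 j (by omega)) with rfl | rfl <;> omega

end Fl

/-- the flag system -/
@[reducible] noncomputable def toSys [Fintype ι] (hpos : IsF E ∅) (hd : finrank ℝ E = d + 1) :
    Sys d where
  F := Fl E d
  fin := inferInstance
  ne0 := Fl.nonempty hpos hd
  r := Fl.r
  inv := Fl.r_inv
  out := fun _ h => Fl.r_out h
  ne := fun _ h => Fl.r_ne' h
  ne2 := fun i j hi _ hij Φ e => Fl.r_ne hi Φ (by rw [e, Fl.r_off j Φ (by omega)])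
  comm := fun _ _ h => Fl.r_comm h
  p2 := fun _ h => Fl.r_p2 h
  sc := fun _ b hb => Fl.sc b (by omega) hb
  conn := fun Φ Ψ => (Fl.conn (Nat.zero_le d) le_rfl fun j hj => by
    rcases hj with hj | hj
    · rw [show j = 0 by omega, Fl.bot hpos hd, Fl.bot hpos hd]
    · rw [Φ.top hj, Ψ.top hj]).mono fun _ hi => hi.2

end Pool.Agent.Lib.MP_7157e1_co
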