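import Pool.Agent.Lib.MP_7157e1_co.P4
import Pool.Agent.Lib.MP_7157e1_co.G10

/-! Counting flag orbits of polytopes with two standard chains of faces. -/

namespace Pool.Agent.Lib.MP_7157e1_co
open Module Function

variable {ι : Type} {E : Submodule ℝ (ι → ℝ)} {d : ℕ}

/-- linear involutions -/
def Sym (E : Submodule ℝ (ι → ℝ)) (σ : ι → ι) : Prop :=
  (∀ i, σ (σ i) = i) ∧ ∀ f ∈ E, f ∘ σ ∈ E

theorem Sym.iso {σ : ι → ι} (h : Sym E σ) :
    ∃ e : {G // IsF E G} ≃o {G // IsF E G}, ∀ G, (e G).1 = σ ⁻¹' G.1 := by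
  let f : {G // IsF E G} → {G // IsF E G} := fun G => ⟨σ ⁻¹' G.1, by
    obtain ⟨f, f1, f2, f3⟩ := G.2
    exact ⟨f ∘ σ, h.2 f f1, fun i => f2 _, fun i => f3 _⟩⟩
  have inv : ∀ G, f (f G) = G := fun G => Subtype.ext (Set.ext fun i => by simp [f, h.1])
  have mono : Monotone f := fun _ _ k => Set.preimage_mono k
  exact ⟨Equiv.toOrderIso ⟨f, f, inv, inv⟩ mono mono, fun _ => rfl⟩

theorem Sym.pre {σ : ι → ι} (h : Sym E σ) {G : Set ι} : σ ⁻¹' G = G ↔ Set.MapsTo σ G G :=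
  ⟨fun k _ hi => k.ge hi, fun k => Set.Subset.antisymm (fun i hi => h.1 i ▸ k hi) k⟩

variable [Fintype ι]

theorem cr_chain (hle : finrank ℝ E ≤ d + 1) {C : ℕ → Set ι} (h1 : ∀ j, IsF E (C j))
    (h2 : ∀ j, j ≤ d → C j ⊂ C (j + 1)) :
    finrank ℝ E = d + 1 ∧ ∀ j, j ≤ d + 1 → cr E (C j) = d + 1 - j := by
  have lt : ∀ j, j ≤ d → cr E (C (j + 1)) < cr E (C j) := fun j hj => by
    obtain ⟨i, i1, i2⟩ := Set.exists_of_ssubset (h2 j hj)
    exact cr_lt (h1 j) (h2 j hj).1 i1 i2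
  have k : ∀ l j, j + l ≤ d + 1 → cr E (C (j + l)) + l ≤ cr E (C j) := by
    intro l
    induction l with
    | zero => exact fun _ _ => le_rfl
    | succ l ih =>
      intro j hj
      have := ih j (by omega)
      have := lt (j + l) (by omega)
      show cr E (C (j + l + 1)) + (l + 1) ≤ _
      omega
  have c0 : cr E (C 0) ≤ finrank ℝ E := cr_empty (E := E) ▸ cr_anti (Set.empty_subset _)
  have := k (d + 1) 0 (by omega)
  refine ⟨by omega, fun j hj => ?_⟩
  have := k j 0 (by omega)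
  have := k (d + 1 - j) j (by omega)
  rw [zero_add] at *
  omega

theorem ncard_iso (hs : ∀ i, IsF E {i}) (hpos : IsF E ∅)
    (e : {G // IsF E G} ≃o {G // IsF E G}) (G : {G // IsF E G}) : (e G).1.ncard = G.1.ncard := by
  have ne : ∀ (e : {G // IsF E G} ≃o {G // IsF E G}) i, ∃ j, j ∈ (e ⟨{i}, hs i⟩).1 := by
    intro e i
    obtain ⟨j, hj, -⟩ := exists_of_cr (E := E) (A := ∅) (B := (e ⟨{i}, hs i⟩).1) (by
      rw [cr_iso]; exact cr_lt hpos (Set.empty_subset _) (Set.mem_singleton i) id)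
    exact ⟨j, hj⟩
  have key : ∀ (e : {G // IsF E G} ≃o {G // IsF E G}) (G : {G // IsF E G}),
      G.1.ncard ≤ (e G).1.ncard := by
    intro e G
    choose s hs' using ne e
    refine Set.ncard_le_ncard_of_injOn s (fun i hi => e.monotone
      (show (⟨{i}, hs i⟩ : {G // IsF E G}) ≤ G from Set.singleton_subset_iff.2 hi) (hs' i))
      fun i _ i' _ k => ?_
    obtain ⟨l, hl⟩ := ne e.symm (s i)
    have t : ∀ j, s i ∈ (e ⟨{j}, hs j⟩).1 → l = j := fun j hj =>
      (e.symm_apply_le.2 (show (⟨{s i}, hs _⟩ : {G // IsF E G}) ≤ e ⟨{j}, hs j⟩ from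
        Set.singleton_subset_iff.2 hj)) hl
    exact (t i (hs' i)).symm.trans (t i' (k ▸ hs' i'))
  refine le_antisymm ?_ (key e G)
  simpa using key e.symm (e G)

theorem ncard_ne {S T : Set ι} (h1 : (S \ T).Subsingleton) (h2 : (T \ S).Nontrivial) :
    S.ncard ≠ T.ncard := by
  have a := Set.ncard_inter_add_ncard_sdiff_eq_ncard S T
  have b := Set.ncard_inter_add_ncard_sdiff_eq_ncard T S
  have c := (Set.ncard_le_one_iff_subsingleton).2 h1
  have e := (Set.one_lt_ncard_iff_nontrivial).2 h2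
  rw [Set.inter_comm] at b
  omega

theorem ex_count (hpos : IsF E ∅) (hle : finrank ℝ E ≤ d + 1) {a : ℕ} (ha : a < d)
    (A B : ℕ → Set ι) (fA : ∀ j, IsF E (A j)) (fB : ∀ j, IsF E (B j))
    (sA : ∀ j, j < d → A j ⊂ A (j + 1)) (sB : ∀ j, a < j → j ≤ d → B j ⊂ B (j + 1))
    (sAB : ∀ j, a ≤ j → j ≤ d → A j ⊂ B (j + 1)) (nAB : ∀ j, a < j → j ≤ d → A j ≠ B j)
    (top : ∀ j, d + 1 ≤ j → B j = Set.univ)
    (hc : ∀ i, i + 2 ≤ d → ∃ σ, Sym E σ ∧ (∀ j, j ≤ d → (Set.MapsTo σ (A j) (A j) ↔ j ≠ i + 1)) ∧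
      ∀ j, a < j → (Set.MapsTo σ (B j) (B j) ↔ j ≠ i + 2))
    (hα : 0 < a → ∃ σ, Sym E σ ∧ (∀ j, j ≤ a → (Set.MapsTo σ (A j) (A j) ↔ j ≠ a)) ∧
      ∀ j, a < j → Set.MapsTo σ (B j) (B j))
    (hs : ∀ i, IsF E {i}) (hn : (A d).ncard ≠ (B d).ncard) :
    ∃ hd : finrank ℝ E = d + 1, (toSys hpos hd).k = d + 1 - a := by
  let C : ℕ → ℕ → Set ι := fun m j => if j ≤ m then A j else B j
  have c1 : ∀ m j, IsF E (C m j) := fun m j => by
    simp only [C]; split_ifs; exacts [fA j, fB j]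
  have c2 : ∀ m, a ≤ m → m ≤ d → ∀ j, j ≤ d → C m j ⊂ C m (j + 1) := fun m m1 m2 j hj => by
    simp only [C]
    split_ifs
    · exact sA j (by omega)
    · exact sAB j (by omega) hj
    · omega
    · exact sB j (by omega) hj
  have hd := (cr_chain hle (c1 a) (c2 a le_rfl ha.le)).1
  refine ⟨hd, ?_⟩
  have ex : ∀ m, ∃ Φ : Fl E d, a ≤ m → m ≤ d → Φ.1 = C m := by
    intro m
    by_cases k : a ≤ m ∧ m ≤ d
    · refine ⟨⟨C m, fun j => ⟨c1 m j, ?_, ?_⟩⟩, fun _ _ => rfl⟩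
      · by_cases e : j ≤ d + 1
        · exact (cr_chain hle (c1 m) (c2 m k.1 k.2)).2 j e
        · simp only [C]
          rw [if_neg (by omega), top j (by omega), cr_univ]; omega
      · by_cases e : j ≤ d
        · exact (c2 m k.1 k.2 j e).1
        · simp only [C]
          rw [if_neg (show ¬ j + 1 ≤ m by omega), top (j + 1) (by omega)]
          exact Set.subset_univ _
    · exact ⟨(Fl.nonempty hpos hd).some, fun k1 k2 => absurd ⟨k1, k2⟩ k⟩
  choose Φ hΦ using ex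
  set S := (toSys hpos hd).toG with hS
  have up : ∀ m, a ≤ m → m < d → S.ρ m (S.π (Φ m)) = S.π (Φ (m + 1)) := by
    intro m m1 m2
    rw [← S.πr]
    refine congrArg S.π ((Fl.eq_or m2 fun j hj => ?_).resolve_left fun k => ?_).symm
    · rw [hΦ m m1 m2.le, hΦ _ (by omega) m2]
      exact if_congr (by omega) rfl rfl
    · have := congrArg (fun Ψ : Fl E d => Ψ.1 (m + 1)) k
      simp only [hΦ m m1 m2.le, hΦ (m + 1) (by omega) m2, C] at this
      rw [if_pos le_rfl, if_neg (by omega)] at this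
      exact nAB _ (by omega) m2 this
  have sym : ∀ m i σ, a ≤ m → m ≤ d → i < d → Sym E σ →
      (∀ j, Set.MapsTo σ (C m j) (C m j) ↔ j ≠ i + 1) → S.ρ i (S.π (Φ m)) = S.π (Φ m) := by
    intro m i σ m1 m2 hi hσ h
    obtain ⟨e, he⟩ := hσ.iso
    have k : ∀ j, (Fl.act e (Φ m)).1 j = (Φ m).1 j ↔ j ≠ i + 1 := fun j => by
      rw [← h, ← hσ.pre, ← hΦ m m1 m2]
      exact Eq.congr_left (he ⟨_, (Φ m).isF j⟩)
    rw [← S.πr]
    refine ((S.fib _ _).2 ⟨Fl.act e, Fl.act_r e, ?_⟩).symm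
    exact (Fl.eq_or hi fun j => (k j).2).resolve_left fun h2 => (k (i + 1)).1 (by rw [h2]) rfl
  have fx : ∀ m i, a ≤ m → m ≤ d → i < d → i ≠ m → (i + 1 = m → m = a) →
      S.ρ i (S.π (Φ m)) = S.π (Φ m) := by
    intro m i m1 m2 hi k1 k2
    rcases lt_trichotomy (i + 1) m with k | k | k
    · obtain ⟨σ, s1, s2, s3⟩ := hc i (by omega)
      refine sym m i σ m1 m2 hi s1 fun j => ?_
      simp only [C]
      split_ifs
      · exact s2 j (by omega)
      · rw [s3 j (by omega)]; omega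
    · obtain ⟨σ, s1, s2, s3⟩ := hα (by omega)
      refine sym m i σ m1 m2 hi s1 fun j => ?_
      simp only [C]
      split_ifs
      · rw [s2 j (by omega)]; omega
      · exact ⟨fun _ => by omega, fun _ => s3 j (by omega)⟩
    · obtain ⟨σ, s1, s2, s3⟩ := hc (i - 1) (by omega)
      refine sym m i σ m1 m2 hi s1 fun j => ?_
      simp only [C]
      split_ifs
      · rw [s2 j (by omega)]; omega
      · rw [s3 j (by omega)]; omega
  have last : S.π (Φ (d - 1)) ≠ S.π (Φ d) := by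
    intro k
    obtain ⟨g, hg, k⟩ := (S.fib _ _).1 k
    obtain ⟨e, rfl⟩ := Fl.exists_iso hpos hd hg
    have h1 := ncard_iso hs hpos e ⟨_, (Φ (d - 1)).isF d⟩
    have h2 : (e ⟨_, (Φ (d - 1)).isF d⟩).1 = (Φ d).1 d := congrArg (fun Ψ : Fl E d => Ψ.1 d) k
    rw [h2] at h1
    simp only [hΦ d ha.le le_rfl, hΦ (d - 1) (by omega) (by omega), C] at h1
    rw [if_pos le_rfl, if_neg (by omega)] at h1
    exact hn h1
  have adj : ∀ l m, a ≤ m → m + l + 1 = d → S.π (Φ m) ≠ S.π (Φ (m + 1)) := by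
    intro l
    induction l with
    | zero =>
      intro m _ e
      rwa [show m = d - 1 by omega, show d - 1 + 1 = d by omega]
    | succ l ih =>
      intro m m1 e k
      apply ih (m + 1) (by omega) (by omega)
      rw [← up (m + 1) (by omega) (by omega), ← k,
        fx m (m + 1) m1 (by omega) (by omega) (by omega) (by omega)]
  have hbij : Bijective fun m : Set.Icc a d => S.π (Φ m) := by
    constructor
    · have key : ∀ m m', a ≤ m → m < m' → m' ≤ d → S.π (Φ m) ≠ S.π (Φ m') := by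
        intro m m' m1 m2 m3 k
        apply adj (d - m - 1) m m1 (by omega)
        by_cases e : m' = m + 1
        · rwa [← e]
        · rw [← up m m1 (by omega), k, fx m' m (by omega) m3 (by omega) (by omega) (by omega)]
      intro m m' k
      by_contra hne
      rcases lt_or_gt_of_ne hne with h | h
      · exact key m m' m.2.1 h m'.2.2 k
      · exact key m' m m'.2.1 h m.2.2 k.symm
    · intro x
      refine ((toSys hpos hd).glob.conn (S.π (Φ a)) x).ind
        (fun x => ∃ m : Set.Icc a d, S.π (Φ m) = x) ⟨⟨a, le_rfl, ha.le⟩, rfl⟩ ?_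
      rintro i hi _ ⟨⟨m, m1, m2⟩, rfl⟩
      by_cases e1 : i = m
      · subst e1
        exact ⟨⟨i + 1, by omega, hi⟩, (up i m1 hi).symm⟩
      by_cases e2 : i + 1 = m → m = a
      · exact ⟨⟨m, m1, m2⟩, (fx m i m1 m2 hi e1 e2).symm⟩
      push Not at e2
      obtain ⟨rfl, e2⟩ := e2
      exact ⟨⟨i, by omega, by omega⟩, by rw [← up i (by omega) hi]; exact (S.ρinv _ _).symm⟩
  refine (Nat.card_eq_of_bijective _ hbij).symm.trans ?_
  rw [Nat.card_eq_fintype_card, Fintype.card_ofFinset, Nat.card_Icc]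

end Pool.Agent.Lib.MP_7157e1_co
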