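import Pool.Agent.Lib.MP_7157e1_co.P5

/-! Four families of zero-one polytopes. -/

namespace Pool.Agent.Lib.MP_7157e1_co
open Module Function Finset

theorem IsF.biInter {ι : Type} {E : Submodule ℝ (ι → ℝ)} (s : Finset ℕ) {G : ℕ → Set ι}
    (h : ∀ j ∈ s, IsF E (G j)) : IsF E {i | ∀ j ∈ s, i ∈ G j} := by
  induction s using Finset.induction_on with
  | empty => simpa using isF_univ
  | insert j s _ ih =>
    have := (h j (mem_insert_self _ _)).inter (ih fun l hl => h l (mem_insert_of_mem hl))
    convert this using 1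
    ext i; simp

/-- vertex sets -/
def Pt (n : ℕ) (P : Finset ℕ → Prop) : Type := {y : Finset ℕ // y ⊆ range n ∧ P y}

namespace Pt
variable {n : ℕ} {P : Finset ℕ → Prop} {d : ℕ}

instance : Finite (Pt n P) :=
  Finite.of_injective (fun y : Pt n P => (⟨y.1, mem_powerset.2 y.2.1⟩ : (range n).powerset))
    fun _ _ h => Subtype.ext (Subtype.mk.inj h)

noncomputable instance : Fintype (Pt n P) := Fintype.ofFinite _

/-- coordinates -/
def X (j : ℕ) (y : Pt n P) : ℝ := if j ∈ y.1 then 1 else 0

/-- the vertices -/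
def vt (d : ℕ) (y : Pt n P) : EuclideanSpace ℝ (Fin d) := WithLp.toLp 2 fun j => X j y

/-- affine functions -/
noncomputable abbrev EE (d n : ℕ) (P : Finset ℕ → Prop) : Submodule ℝ (Pt n P → ℝ) :=
  (affT (vt d)).range

theorem one_mem : (1 : Pt n P → ℝ) ∈ EE d n P := ⟨(1, 0), funext fun _ => by simp [affT]⟩

theorem X_mem {j : ℕ} (h : j < d) : X j ∈ EE d n P :=
  ⟨(0, EuclideanSpace.proj ⟨j, h⟩), funext fun _ => by simp [affT, vt]⟩

theorem X_zero {j : ℕ} (h : n ≤ j) : (X j : Pt n P → ℝ) = 0 :=
  funext fun y => if_neg fun k => by have := mem_range.1 (y.2.1 k); omega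

theorem sum_X (y : Pt n P) : ∑ j ∈ range n, X j y = y.1.card := by
  simp only [X]
  rw [sum_boole, filter_mem_eq_inter, inter_eq_right.2 y.2.1]

theorem X_all (h : ∀ j, d ≤ j → j < n → X j ∈ EE d n P) (j : ℕ) : X j ∈ EE d n P := by
  by_cases k : j < d
  · exact X_mem k
  by_cases k2 : j < n
  · exact h j (by omega) k2
  · rw [X_zero (by omega)]; exact Submodule.zero_mem _

theorem sym_of {σ : Pt n P → Pt n P} (h1 : ∀ y, σ (σ y) = y)
    (h2 : ∀ j, j < d → X j ∘ σ ∈ EE d n P) : Sym (EE d n P) σ := by
  refine ⟨h1, ?_⟩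
  rintro _ ⟨⟨c, l⟩, rfl⟩
  have : affT (vt d) (c, l) ∘ σ = c • (1 : Pt n P → ℝ) +
      ∑ j : Fin d, l (EuclideanSpace.basisFun (Fin d) ℝ j) • (X j ∘ σ) := by
    funext y
    simp only [affT, LinearMap.coe_mk, AddHom.coe_mk, comp_apply, Pi.add_apply, Pi.smul_apply,
      Pi.one_apply, smul_eq_mul, mul_one, Finset.sum_apply]
    rw [← (EuclideanSpace.basisFun (Fin d) ℝ).sum_repr (vt d (σ y)), map_sum]
    simp [vt, mul_comm]
  rw [this]
  exact Submodule.add_mem _ (Submodule.smul_mem _ _ one_mem)
    (Submodule.sum_mem _ fun j _ => Submodule.smul_mem _ _ (h2 j j.2))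

theorem rank_le : finrank ℝ (EE d n P) ≤ d + 1 := by
  refine (LinearMap.finrank_range_le _).trans (le_of_eq ?_)
  rw [finrank_prod, ← (LinearMap.toContinuousLinearMap (𝕜 := ℝ)
    (E := EuclideanSpace ℝ (Fin d)) (F' := ℝ)).finrank_eq]
  simp [add_comm]

variable (hX : ∀ j, X j ∈ EE d n P)
include hX

theorem f_mem (j : ℕ) : IsF (EE d n P) {y | j ∈ y.1} :=
  ⟨1 - X j, Submodule.sub_mem _ one_mem (hX j), fun y => by
    simp only [Pi.sub_apply, Pi.one_apply, X]; split_ifs <;> norm_num, fun y => by
    simp only [Pi.sub_apply, Pi.one_apply, X, Set.mem_ofPred_eq]; split_ifs <;> simp [*]⟩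

theorem f_not (j : ℕ) : IsF (EE d n P) {y | j ∉ y.1} :=
  ⟨X j, hX j, fun y => by simp only [X]; split_ifs <;> norm_num, fun y => by simp [X]⟩

theorem f_sub (k : ℕ) : IsF (EE d n P) {y | y.1 ⊆ range k} := by
  convert IsF.biInter (range n \ range k) fun j _ => f_not hX j using 1
  ext y
  simp only [Set.mem_ofPred_eq, mem_sdiff]
  exact ⟨fun h j hj k => hj.2 (h k), fun h j hj => by
    by_contra hc; exact h j ⟨y.2.1 hj, hc⟩ hj⟩

theorem f_pt (y : Pt n P) : IsF (EE d n P) {y} := by
  convert (IsF.biInter y.1 fun j _ => f_mem hX j).inter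
    (IsF.biInter (range n \ y.1) fun j _ => f_not hX j) using 1
  ext z
  simp only [Set.mem_singleton_iff, Set.mem_inter_iff, Set.mem_ofPred_eq, mem_sdiff]
  constructor
  · rintro rfl; exact ⟨fun _ h => h, fun _ h => h.2⟩
  · rintro ⟨h1, h2⟩
    refine Subtype.ext (Subset.antisymm (fun j hj => ?_) h1)
    by_contra hc; exact h2 j ⟨z.2.1 hj, hc⟩ hj

end Pt

/-- exchange of two neighbours -/
def sw (i : ℕ) (y : Finset ℕ) : Finset ℕ := y.map (Equiv.swap i (i + 1)).toEmbedding

theorem mem_sw {i j : ℕ} {y : Finset ℕ} : j ∈ sw i y ↔ Equiv.swap i (i + 1) j ∈ y := by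
  simp [sw, mem_map_equiv]

theorem sw_sub {i k : ℕ} {y : Finset ℕ} (h : y ⊆ range k) (hk : k ≠ i + 1) :
    sw i y ⊆ range k := fun j hj => by
  have := mem_range.1 (h (mem_sw.1 hj))
  rw [Equiv.swap_apply_def] at this
  rw [mem_range]
  split_ifs at this <;> omega

theorem mem_sw' {i j : ℕ} {y : Finset ℕ} (h1 : j ≠ i) (h2 : j ≠ i + 1) : j ∈ sw i y ↔ j ∈ y := by
  rw [mem_sw, Equiv.swap_apply_of_ne_of_ne h1 h2]

theorem sw_out {i : ℕ} {y : Finset ℕ} (h : i ∈ y) : ¬ sw i y ⊆ range (i + 1) := fun k => by
  have := mem_range.1 (k (mem_sw.2 (by rwa [Equiv.swap_apply_right])))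
  omega

theorem sw_sw (i : ℕ) (y : Finset ℕ) : sw i (sw i y) = y := by
  ext j; rw [mem_sw, mem_sw, Equiv.swap_apply_self]

theorem Pt.sym_sw {n d : ℕ} {P : Finset ℕ → Prop} (hX : ∀ j, X j ∈ EE d n P) {i : ℕ}
    (hi : i + 1 < n) (hP : ∀ y, P y → P (sw i y)) :
    Sym (EE d n P) fun y => ⟨sw i y.1, sw_sub y.2.1 (by omega), hP _ y.2.2⟩ :=
  sym_of (fun y => Subtype.ext (sw_sw i _)) fun j _ => by
    convert hX (Equiv.swap i (i + 1) j) using 1
    funext y
    exact if_congr mem_sw rfl rfl

theorem ssub {α : Type} {S T : Set α} (h : ∀ x ∈ S, x ∈ T) (x : α) (h1 : x ∈ T) (h2 : x ∉ S) :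
    S ⊂ T := ⟨h, fun k => h2 (k h1)⟩

theorem one_sub {j k : ℕ} (h : j < k) : {j} ⊆ range k := by simpa using h

theorem two_sub {i j k : ℕ} (h : i < k) (h' : j < k) : {i, j} ⊆ range k := by
  simp [insert_subset_iff, h, h']

theorem not_sub {j k : ℕ} {y : Finset ℕ} (h : j ∈ y) (h' : k ≤ j) : ¬ y ⊆ range k := fun s => by
  have := mem_range.1 (s h); omega

open Pt

theorem hypersimplex {d : ℕ} (hd : 4 ≤ d) : Attained (d - 1) d := by
  let P : Finset ℕ → Prop := fun y => y.card = 2
  have hX : ∀ j, X j ∈ EE d (d + 1) P := X_all fun j j1 j2 => by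
    obtain rfl : j = d := by omega
    have : (X j : Pt (j + 1) P → ℝ) = (2 : ℝ) • 1 - ∑ l ∈ range j, X l := by
      funext y
      have := sum_X y
      rw [sum_range_succ, show y.1.card = 2 from y.2.2] at this
      simp only [Pi.sub_apply, Pi.smul_apply, Pi.one_apply, Finset.sum_apply, smul_eq_mul]
      push_cast at this; linarith
    rw [this]
    exact Submodule.sub_mem _ (Submodule.smul_mem _ _ one_mem)
      (Submodule.sum_mem _ fun l hl => X_mem (mem_range.1 hl))
  let p : ∀ i j, i < j → j ≤ d → Pt (d + 1) P := fun i j h1 h2 =>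
    ⟨{i, j}, two_sub (by omega) (by omega), card_pair (by omega)⟩
  have : Nonempty (Pt (d + 1) P) := ⟨p 0 1 (by omega) (by omega)⟩
  obtain ⟨h1, h2⟩ := ex_count (one_mem_aff _) rank_le (a := 2) (by omega)
    (fun j => {y | 0 ∈ y.1} ∩ {y | y.1 ⊆ range (j + 1)}) (fun j => {y | y.1 ⊆ range j})
    (fun j => (f_mem hX 0).inter (f_sub hX _)) (fun j => f_sub hX _)
    (fun j hj => ssub (fun y hy => ⟨hy.1, hy.2.trans (range_mono (by omega))⟩)
      (p 0 (j + 1) (by omega) hj) ⟨by simp [p], two_sub (by omega) (by omega)⟩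
      fun k => not_sub (j := j + 1) (by simp [p]) le_rfl k.2)
    (fun j j1 j2 => ssub (fun y hy => hy.trans (range_mono (by omega)))
      (p 0 j (by omega) j2) (two_sub (by omega) (by omega)) (not_sub (j := j) (by simp [p]) le_rfl))
    (fun j j1 j2 => ssub (fun y hy => hy.2) (p 1 2 (by omega) (by omega))
      (two_sub (by omega) (by omega)) fun k => by simpa [p] using k.1)
    (fun j j1 j2 e => not_sub (j := j) (y := {0, j}) (by simp) le_rfl
      ((Set.ext_iff.1 e (p 0 j (by omega) j2)).1 ⟨by simp [p], two_sub (by omega) (by omega)⟩))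
    (fun j hj => Set.eq_univ_of_forall fun y => y.2.1.trans (range_mono hj))
    (fun i hi => by
      have s1 := sym_sw hX (i := i + 1) (by omega) fun y hy => (card_map _).trans hy
      refine ⟨_, s1, fun j _ => ⟨fun k e => ?_, fun e y hy => ⟨?_, ?_⟩⟩,
        fun j _ => ⟨fun k e => ?_, fun e y hy => ?_⟩⟩
      · subst e
        exact sw_out (y := {0, i + 1}) (by simp) ((k (x := p 0 (i + 1) (by omega) (by omega))
          ⟨by simp [p], two_sub (by omega) (by omega)⟩).2)
      · exact (mem_sw' (by omega) (by omega)).2 hy.1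
      · exact sw_sub hy.2 (by omega)
      · subst e
        exact sw_out (y := {0, i + 1}) (by simp) (k (x := p 0 (i + 1) (by omega) (by omega))
          (two_sub (by omega) (by omega)))
      · exact sw_sub hy (by omega))
    (fun _ => by
      have s1 := sym_sw hX (i := 0) (by omega) fun y hy => (card_map _).trans hy
      refine ⟨_, s1, fun j hj => ⟨fun k e => ?_, fun e y hy => ?_⟩, fun j hj y hy => ?_⟩
      · subst e
        have := (k (x := p 0 2 (by omega) (by omega))
          ⟨by simp [p], two_sub (by omega) (by omega)⟩).1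
        simp only [Set.mem_ofPred_eq, mem_sw] at this
        simp [p] at this
      · have c := card_le_card hy.2
        rw [show y.1.card = 2 from y.2.2, card_range] at c
        obtain rfl : j = 1 := by omega
        have e2 := eq_of_subset_of_card_le hy.2 (by rw [show y.1.card = 2 from y.2.2, card_range])
        exact ⟨mem_sw.2 (by rw [e2]; simp), sw_sub hy.2 (by omega)⟩
      · exact sw_sub hy (by omega))
    (f_pt hX) (ncard_ne (fun y hy z hz => by
      have k : ∀ y : Pt (d + 1) P, 0 ∈ y.1 → ¬ y.1 ⊆ range d → {0, d} = y.1 := fun y k1 k2 => by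
        obtain ⟨j, j1, j2⟩ := not_subset.1 k2
        have := mem_range.1 (y.2.1 j1)
        rw [mem_range] at j2
        obtain rfl : j = d := by omega
        exact eq_of_subset_of_card_le (by simp [insert_subset_iff, k1, j1])
          (by rw [show y.1.card = 2 from y.2.2, card_pair (by omega)])
      exact Subtype.ext ((k y hy.1.1 hy.2).symm.trans (k z hz.1.1 hz.2)))
      ⟨p 1 2 (by omega) (by omega), ⟨two_sub (by omega) (by omega), fun k => by simpa [p] using k.1⟩,
        p 1 3 (by omega) (by omega),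
        ⟨two_sub (by omega) (by omega), fun k => by simpa [p] using k.1⟩,
        fun k => absurd (congrArg Subtype.val k) (by simp only [p]; decide)⟩)
  have := attained_of _ h1
  rwa [h2] at this

/-- toggling one element -/
def tg (j : ℕ) (y : Finset ℕ) : Finset ℕ := if j ∈ y then y.erase j else insert j y

theorem mem_tg {j t : ℕ} {y : Finset ℕ} : t ∈ tg j y ↔ if t = j then j ∉ y else t ∈ y := by
  unfold tg
  split_ifs <;> simp_all

theorem tg_tg (j : ℕ) (y : Finset ℕ) : tg j (tg j y) = y := by
  ext t; simp only [mem_tg]; split_ifs <;> simp_all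

theorem tg_sub {j k : ℕ} {y : Finset ℕ} (h : y ⊆ range k) (hk : j < k) : tg j y ⊆ range k :=
  fun t ht => by
    rw [mem_tg] at ht
    split_ifs at ht with e
    · exact mem_range.2 (e ▸ hk)
    · exact h ht

theorem tg_odd {j : ℕ} {y : Finset ℕ} : Odd (tg j y).card ↔ ¬ Odd y.card := by
  unfold tg
  split_ifs with h
  · rw [← card_erase_add_one h, Nat.odd_add_one, not_not]
  · rw [card_insert_of_notMem h, Nat.odd_add_one]

theorem prism {d : ℕ} (hd : 3 ≤ d) : Attained d d := by
  let P : Finset ℕ → Prop := fun y => (y.erase 0).card = 1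
  have hX : ∀ j, X j ∈ EE d (d + 1) P := X_all fun j j1 j2 => by
    obtain rfl : j = d := by omega
    have : (X j : Pt (j + 1) P → ℝ) = 1 + X 0 - ∑ l ∈ range j, X l := by
      funext y
      have := sum_X y
      have c : (y.1.card : ℝ) = 1 + X 0 y := by
        have k : (y.1.erase 0).card = 1 := y.2.2
        unfold X
        split_ifs with h
        · rw [← card_erase_add_one h, k]; norm_num
        · rw [erase_eq_of_notMem h] at k; rw [k]; norm_num
      rw [sum_range_succ, c] at this
      simp only [Pi.sub_apply, Pi.add_apply, Pi.one_apply, Finset.sum_apply]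
      linarith
    rw [this]
    exact Submodule.sub_mem _ (Submodule.add_mem _ one_mem (X_mem (by omega)))
      (Submodule.sum_mem _ fun l hl => X_mem (mem_range.1 hl))
  let p : ∀ j, 0 < j → j ≤ d → Pt (d + 1) P := fun j h1 h2 =>
    ⟨{j}, one_sub (by omega), by simp only [P]; rw [erase_eq_of_notMem (by simp; omega)]; simp⟩
  let q : ∀ j, 0 < j → j ≤ d → Pt (d + 1) P := fun j h1 h2 =>
    ⟨{0, j}, two_sub (by omega) (by omega), by
      simp only [P]; rw [erase_insert (by simp; omega)]; simp⟩
  have p0 : ∀ j h1 h2, 0 ∉ (p j h1 h2).1 := fun j h1 h2 => by simp [p]; omega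
  have : Nonempty (Pt (d + 1) P) := ⟨p 1 (by omega) (by omega)⟩
  obtain ⟨h1, h2⟩ := ex_count (one_mem_aff _) rank_le (a := 1) (by omega)
    (fun j => {y | 0 ∉ y.1} ∩ {y | y.1 ⊆ range (j + 1)}) (fun j => {y | y.1 ⊆ range j})
    (fun j => (f_not hX 0).inter (f_sub hX _)) (fun j => f_sub hX _)
    (fun j hj => ssub (fun y hy => ⟨hy.1, hy.2.trans (range_mono (by omega))⟩)
      (p (j + 1) (by omega) hj) ⟨p0 _ (by omega) (by omega), one_sub (by omega)⟩
      fun k => not_sub (j := j + 1) (by simp [p]) le_rfl k.2)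
    (fun j j1 j2 => ssub (fun y hy => hy.trans (range_mono (by omega)))
      (p j (by omega) j2) (one_sub (by omega)) (not_sub (j := j) (by simp [p]) le_rfl))
    (fun j j1 j2 => ssub (fun y hy => hy.2) (q 1 (by omega) (by omega))
      (two_sub (by omega) (by omega)) fun k => k.1 (by simp [q]))
    (fun j j1 j2 e => not_sub (j := j) (y := {j}) (by simp) le_rfl
      ((Set.ext_iff.1 e (p j (by omega) j2)).1 ⟨p0 _ (by omega) (by omega), one_sub (by omega)⟩))
    (fun j hj => Set.eq_univ_of_forall fun y => y.2.1.trans (range_mono hj))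
    (fun i hi => by
      have s1 := sym_sw hX (i := i + 1) (by omega) fun y hy => by
        have := map_erase (Equiv.swap (i + 1) (i + 1 + 1)).toEmbedding y 0
        rw [Equiv.coe_toEmbedding, Equiv.swap_apply_of_ne_of_ne (by omega) (by omega)] at this
        simp only [P, sw]
        rw [← this, card_map]; exact hy
      refine ⟨_, s1, fun j _ => ⟨fun k e => ?_, fun e y hy => ⟨?_, ?_⟩⟩,
        fun j _ => ⟨fun k e => ?_, fun e y hy => ?_⟩⟩
      · subst e
        exact sw_out (y := {i + 1}) (by simp) ((k (x := p (i + 1) (by omega) (by omega))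
          ⟨p0 _ (by omega) (by omega), one_sub (by omega)⟩).2)
      · exact fun k => hy.1 ((mem_sw' (by omega) (by omega)).1 (k))
      · exact sw_sub hy.2 (by omega)
      · subst e
        exact sw_out (y := {i + 1}) (by simp) (k (x := p (i + 1) (by omega) (by omega))
          (one_sub (by omega)))
      · exact sw_sub hy (by omega))
    (fun _ => by
      refine ⟨fun y => ⟨tg 0 y.1, tg_sub y.2.1 (by omega), Eq.trans (congrArg card ?_) y.2.2⟩,
        sym_of (fun y => Subtype.ext (tg_tg _ _)) fun j _ => ?_,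
        fun j hj => ⟨fun k e => ?_, fun e y hy => ?_⟩, fun j hj y hy => tg_sub hy (by omega)⟩
      · ext t; simp only [mem_erase, mem_tg]; split_ifs <;> simp_all
      · by_cases e : j = 0
        · convert Submodule.sub_mem _ one_mem (hX 0) using 1
          funext y; simp only [comp_apply, X, mem_tg, e, Pi.sub_apply, Pi.one_apply, if_true]
          split_ifs <;> simp_all
        · convert hX j using 1
          funext y; simp only [comp_apply, X, mem_tg, e, if_false]
      · subst e
        exact (k (x := p 1 (by omega) (by omega)) ⟨p0 _ (by omega) (by omega), one_sub (by omega)⟩).1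
          (mem_tg.2 (by simp [p]))
      · obtain rfl : j = 0 := by omega
        have k : (y.1.erase 0).card = 1 := y.2.2
        obtain ⟨t, ht⟩ := card_pos.1 (by omega : 0 < (y.1.erase 0).card)
        have := mem_range.1 (hy.2 (mem_erase.1 ht).2)
        have := (mem_erase.1 ht).1
        omega)
    (f_pt hX) (ncard_ne (fun y hy z hz => by
      have k : ∀ y : Pt (d + 1) P, 0 ∉ y.1 → ¬ y.1 ⊆ range d → {d} = y.1 := fun y k1 k2 => by
        obtain ⟨j, j1, j2⟩ := not_subset.1 k2
        have := mem_range.1 (y.2.1 j1)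
        rw [mem_range] at j2
        obtain rfl : j = d := by omega
        have k : (y.1.erase 0).card = 1 := y.2.2
        rw [erase_eq_of_notMem k1] at k
        exact eq_of_subset_of_card_le (by simpa using j1) (by rw [k, card_singleton])
      exact Subtype.ext ((k y hy.1.1 hy.2).symm.trans (k z hz.1.1 hz.2)))
      ⟨q 1 (by omega) (by omega), ⟨two_sub (by omega) (by omega), fun k => k.1 (by simp [q])⟩,
        q 2 (by omega) (by omega), ⟨two_sub (by omega) (by omega), fun k => k.1 (by simp [q])⟩,
        fun k => absurd (congrArg Subtype.val k) (by simp only [q]; decide)⟩)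
  have := attained_of _ h1
  rwa [h2] at this

theorem three_sub {i j l k : ℕ} (h : i < k) (h' : j < k) (h'' : l < k) : {i, j, l} ⊆ range k := by
  simp [insert_subset_iff, h, h', h'']

theorem demicube {d : ℕ} (hd : 5 ≤ d) : Attained (d - 2) d := by
  let P : Finset ℕ → Prop := fun y => Odd y.card
  have hX : ∀ j, X j ∈ EE d d P := X_all fun j j1 j2 => by omega
  let p : ∀ j, j < d → Pt d P := fun j h => ⟨{j}, one_sub h, by simp [P]⟩
  let q : ∀ j, 1 < j → j < d → Pt d P := fun j h1 h2 =>
    ⟨{0, 1, j}, three_sub (by omega) (by omega) h2, by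
      simp only [P]; rw [card_eq_three.2 ⟨0, 1, j, by omega, by omega, by omega, rfl⟩]; decide⟩
  have q3 : ∀ j h1 h2, (q j h1 h2).1.card ≠ 1 := fun j h1 h2 => by
    simp only [q]; rw [card_eq_three.2 ⟨0, 1, j, by omega, by omega, by omega, rfl⟩]; decide
  have f1 : IsF (EE d d P) {y | y.1.card = 1} := by
    refine ⟨∑ j ∈ range d, X j - 1, Submodule.sub_mem _ (Submodule.sum_mem _ fun j _ => hX j)
      one_mem, fun y => ?_, fun y => ?_⟩ <;>
    rw [Pi.sub_apply, Finset.sum_apply, sum_X, Pi.one_apply]
    · exact sub_nonneg.2 (by exact_mod_cast (y.2.2 : Odd _).pos)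
    · rw [sub_eq_zero]; exact_mod_cast Iff.rfl
  have : Nonempty (Pt d P) := ⟨p 1 (by omega)⟩
  obtain ⟨h1, h2⟩ := ex_count (one_mem_aff _) rank_le (a := 3) (by omega)
    (fun j => {y | y.1.card = 1} ∩ {y | y.1 ⊆ range j}) (fun j => {y | y.1 ⊆ range (j - 1)})
    (fun j => f1.inter (f_sub hX _)) (fun j => f_sub hX _)
    (fun j hj => ssub (fun y hy => ⟨hy.1, hy.2.trans (range_mono (by omega))⟩)
      (p j hj) ⟨rfl, one_sub (by omega)⟩ fun k => not_sub (j := j) (by simp [p]) le_rfl k.2)
    (fun j j1 j2 => ssub (fun y hy => hy.trans (range_mono (by omega)))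
      (p (j - 1) (by omega)) (one_sub (by omega)) (not_sub (j := j - 1) (by simp [p]) le_rfl))
    (fun j j1 j2 => ssub (fun y hy => hy.2) (q 2 (by omega) (by omega))
      (three_sub (by omega) (by omega) (by omega)) fun k => q3 _ (by omega) (by omega) k.1)
    (fun j j1 j2 e => not_sub (j := j - 1) (y := {j - 1}) (by simp) le_rfl
      ((Set.ext_iff.1 e (p (j - 1) (by omega))).1 ⟨rfl, one_sub (by omega)⟩))
    (fun j hj => Set.eq_univ_of_forall fun y => y.2.1.trans (range_mono (by omega)))
    (fun i hi => by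
      have s1 := sym_sw hX (i := i) (by omega) fun y hy => by
        simp only [P, sw, card_map]; exact hy
      refine ⟨_, s1, fun j _ => ⟨fun k e => ?_, fun e y hy => ⟨?_, ?_⟩⟩,
        fun j _ => ⟨fun k e => ?_, fun e y hy => ?_⟩⟩
      · subst e
        exact sw_out (y := {i}) (by simp) ((k (x := p i (by omega)) ⟨rfl, one_sub (by omega)⟩).2)
      · exact (card_map _).trans hy.1
      · exact sw_sub hy.2 e
      · subst e
        exact sw_out (y := {i}) (by simp) (k (x := p i (by omega)) (one_sub (by omega)))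
      · exact sw_sub hy (by omega))
    (fun _ => by
      have m : ∀ t y, t ∈ tg 0 (tg 1 (sw 0 y)) ↔
          if t = 0 then 1 ∉ y else if t = 1 then 0 ∉ y else t ∈ y := fun t y => by
        simp only [mem_tg, mem_sw, Equiv.swap_apply_def]
        split_ifs <;> simp_all
      have sb : ∀ k y, y ⊆ range k → 2 ≤ k → tg 0 (tg 1 (sw 0 y)) ⊆ range k := fun k y h hk =>
        tg_sub (tg_sub (sw_sub h (by omega)) hk) (by omega)
      refine ⟨fun y => ⟨tg 0 (tg 1 (sw 0 y.1)), sb _ _ y.2.1 (by omega), ?_⟩,
        sym_of (fun y => Subtype.ext ?_) fun j _ => ?_,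
        fun j hj => ⟨fun k e => ?_, fun e y hy => ?_⟩, fun j hj y hy => sb _ _ hy (by omega)⟩
      · simp only [P, tg_odd, not_not, sw, card_map]; exact y.2.2
      · ext t; simp only [m]; split_ifs <;> simp_all
      · by_cases e : j = 0
        · convert Submodule.sub_mem _ one_mem (hX 1) using 1
          funext y; simp only [comp_apply, X, m, e, Pi.sub_apply, Pi.one_apply, if_true]
          split_ifs <;> simp_all
        by_cases e1 : j = 1
        · convert Submodule.sub_mem _ one_mem (hX 0) using 1
          funext y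
          simp only [comp_apply, X, m, e1, Pi.sub_apply, Pi.one_apply, if_true, one_ne_zero,
            if_false]
          split_ifs <;> simp_all
        · convert hX j using 1
          funext y; simp only [comp_apply, X, m, e, e1, if_false]
      · subst e
        exact absurd (k (x := p 2 (by omega)) ⟨rfl, one_sub (by omega)⟩).1 (by
          simp only [p, Set.mem_ofPred_eq]; decide)
      · obtain ⟨t, ht⟩ := card_eq_one.1 hy.1
        have t2 := mem_range.1 (hy.2 (ht ▸ mem_singleton_self t))
        have : tg 0 (tg 1 (sw 0 y.1)) = y.1 := by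
          rw [ht]
          obtain rfl | rfl : t = 0 ∨ t = 1 := by omega
          all_goals decide
        exact ⟨(congrArg card this).trans hy.1, this.subset.trans hy.2⟩)
    (f_pt hX) (ncard_ne (fun y hy z hz => by
      have k : ∀ y : Pt d P, y.1.card = 1 → ¬ y.1 ⊆ range (d - 1) → {d - 1} = y.1 :=
        fun y k1 k2 => by
          obtain ⟨j, j1, j2⟩ := not_subset.1 k2
          have := mem_range.1 (y.2.1 j1)
          rw [mem_range] at j2
          obtain rfl : j = d - 1 := by omega
          exact eq_of_subset_of_card_le (by simpa using j1) (by rw [k1, card_singleton])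
      exact Subtype.ext ((k y hy.1.1 hy.2).symm.trans (k z hz.1.1 hz.2)))
      ⟨q 2 (by omega) (by omega), ⟨three_sub (by omega) (by omega) (by omega),
        fun k => q3 _ (by omega) (by omega) k.1⟩, q 3 (by omega) (by omega),
        ⟨three_sub (by omega) (by omega) (by omega), fun k => q3 _ (by omega) (by omega) k.1⟩,
        fun k => absurd (congrArg Subtype.val k) (by simp only [q]; decide)⟩)
  have := attained_of _ h1
  rwa [h2] at this

theorem pyramid {d : ℕ} (hd : 4 ≤ d) : Attained (d + 1) d := by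
  let P : Finset ℕ → Prop := fun y => 0 ∈ y → y = {0}
  have hX : ∀ j, X j ∈ EE d d P := X_all fun j j1 j2 => by omega
  let p : ∀ j, j < d → Pt d P := fun j h => ⟨{j}, one_sub h, by
    simp only [P, mem_singleton]; rintro rfl; rfl⟩
  let o : Pt d P := ⟨∅, empty_subset _, by simp [P]⟩
  have p0 : ∀ j h, 0 < j → 0 ∉ (p j h).1 := fun j h1 h2 => by simp [p]; omega
  have : Nonempty (Pt d P) := ⟨o⟩
  obtain ⟨h1, h2⟩ := ex_count (one_mem_aff _) rank_le (a := 0) (by omega)
    (fun j => {y | 0 < j ∧ 0 ∉ y.1 ∧ y.1 ⊆ range j})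
    (fun j => {y | if j ≤ 1 then 0 ∈ y.1 else y.1 ⊆ range (j - 1)})
    (fun j => by
      rcases Nat.eq_zero_or_pos j with rfl | h
      · simpa using one_mem_aff _
      · simp only [h, true_and]; exact (f_not hX 0).inter (f_sub hX j))
    (fun j => by split_ifs; exacts [f_mem hX 0, f_sub hX _])
    (fun j hj => by
      refine ssub (fun y hy => ⟨by omega, hy.2.1, hy.2.2.trans (range_mono (by omega))⟩)
        (if j = 0 then o else p j hj) ?_ ?_ <;> split_ifs with e
      · simp [o]
      · exact ⟨by omega, p0 _ (by omega) (by omega), one_sub (by omega)⟩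
      · simp [e]
      · exact fun k => not_sub (j := j) (by simp [p]) le_rfl k.2.2)
    (fun j j1 j2 => by
      simp only [if_neg (show ¬ j + 1 ≤ 1 by omega)]
      split_ifs with e
      · exact ssub (fun y hy => (y.2.2 hy).subset.trans (one_sub (by omega))) o (empty_subset _)
          (notMem_empty _)
      · exact ssub (fun y hy => hy.trans (range_mono (by omega))) (p (j - 1) (by omega))
          (one_sub (by omega)) (not_sub (j := j - 1) (by simp [p]) le_rfl))
    (fun j _ j2 => by
      refine ssub (fun y hy => ?_) (p 0 (by omega)) ?_ fun k => k.2.1 (by simp [p])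
      · exact (if_neg (show ¬ j + 1 ≤ 1 by have := hy.1; omega)).mpr hy.2.2
      · simp only [Set.mem_ofPred_eq]
        split_ifs
        · simp [p]
        · exact one_sub (by omega))
    (fun j j1 j2 e => ((Set.ext_iff.1 e (p 0 (by omega))).2 (by
      simp only [Set.mem_ofPred_eq]
      split_ifs
      · simp [p]
      · exact one_sub (by omega))).2.1 (by simp [p]))
    (fun j hj => Set.eq_univ_of_forall fun y =>
      (if_neg (show ¬ j ≤ 1 by omega)).mpr (y.2.1.trans (range_mono (by omega))))
    (fun i hi => by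
      rcases Nat.eq_zero_or_pos i with rfl | h
      · have m : ∀ t (y : Finset ℕ), t ∈ (if 0 ∈ y then y else tg 1 y) ↔
            if t = 1 ∧ 0 ∉ y then 1 ∉ y else t ∈ y := fun t y => by
          by_cases e : 0 ∈ y <;> simp [e, mem_tg]
        have sb : ∀ k (y : Finset ℕ), y ⊆ range k → 2 ≤ k →
            (if 0 ∈ y then y else tg 1 y) ⊆ range k := fun k y h hk => by
          split_ifs; exacts [h, tg_sub h hk]
        refine ⟨fun y => ⟨if 0 ∈ y.1 then y.1 else tg 1 y.1, sb _ _ y.2.1 (by omega), fun k => ?_⟩,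
          sym_of (fun y => Subtype.ext ?_) fun j _ => ?_,
          fun j hj => ⟨fun k e => ?_, fun e y hy => ?_⟩,
          fun j hj => ⟨fun k e => ?_, fun e y hy => ?_⟩⟩
        · have k2 : 0 ∈ y.1 := by simpa [m] using k
          rw [if_pos k2]; exact y.2.2 k2
        · by_cases e : 0 ∈ y.1 <;> simp [e, mem_tg, tg_tg]
        · by_cases e : j = 1
          · convert Submodule.sub_mem _ (Submodule.sub_mem _ one_mem (hX 0)) (hX 1) using 1
            funext y
            simp only [comp_apply, X, m, e, Pi.sub_apply, Pi.one_apply, true_and]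
            by_cases k : 0 ∈ y.1
            · simp [y.2.2 k]
            · by_cases k2 : 1 ∈ y.1 <;> simp [k, k2]
          · convert hX j using 1
            funext y; simp only [comp_apply, X, m, e, false_and, if_false]
        · subst e
          exact not_sub (j := 1) (by simp [mem_tg, o]) le_rfl (k (x := o) (by simp [o])).2.2
        · exact ⟨hy.1, by simpa [m] using hy.2.1, sb _ _ hy.2.2 (by have := hy.1; omega)⟩
        · subst e
          exact not_sub (j := 1) (by simp [mem_tg, o]) le_rfl (k (x := o) (by simp [o]))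
        · simp only [Set.mem_ofPred_eq] at hy ⊢
          split_ifs at hy ⊢
          · exact hy
          · exact hy
          · exact tg_sub hy (by omega)
      · have s1 := sym_sw hX (i := i) (by omega) fun y hy k => by
          rw [hy ((mem_sw' (by omega) (by omega)).1 k), sw, map_singleton, Equiv.coe_toEmbedding,
            Equiv.swap_apply_of_ne_of_ne (by omega) (by omega)]
        refine ⟨_, s1, fun j _ => ⟨fun k e => ?_, fun e y hy => ⟨hy.1, ?_, ?_⟩⟩,
          fun j _ => ⟨fun k e => ?_, fun e y hy => ?_⟩⟩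
        · subst e
          exact sw_out (y := {i}) (by simp) ((k (x := p i (by omega))
            ⟨by omega, p0 _ (by omega) h, one_sub (by omega)⟩).2.2)
        · exact fun k => hy.2.1 ((mem_sw' (by omega) (by omega)).1 (k))
        · exact sw_sub hy.2.2 e
        · subst e
          simp only [if_neg (show ¬ i + 2 ≤ 1 by omega)] at k
          exact sw_out (y := {i}) (by simp) (k (x := p i (by omega)) (one_sub (by omega)))
        · simp only [Set.mem_ofPred_eq] at hy ⊢
          split_ifs at hy ⊢
          · exact (mem_sw' (by omega) (by omega)).2 hy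
          · exact sw_sub hy (by omega))
    (fun h => absurd h (lt_irrefl 0)) (f_pt hX) (Ne.symm (ncard_ne (fun y hy z hz => by
      have k : ∀ y : Pt d P, ¬ (0 < d ∧ 0 ∉ y.1 ∧ y.1 ⊆ range d) → y.1 = {0} := fun y k =>
        y.2.2 (by by_contra hc; exact k ⟨by omega, hc, y.2.1⟩)
      exact Subtype.ext ((k y hy.2).trans (k z hz.2).symm))
      ⟨p (d - 1) (by omega), ⟨⟨by omega, p0 _ (by omega) (by omega), one_sub (by omega)⟩, fun k =>
        not_sub (j := d - 1) (by simp [p]) le_rfl ((if_neg (show ¬ d ≤ 1 by omega)).mp k)⟩,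
        ⟨{1, d - 1}, two_sub (by omega) (by omega), fun k => by simp at k; omega⟩,
        ⟨⟨by omega, by simp; omega, two_sub (by omega) (by omega)⟩, fun k =>
          not_sub (j := d - 1) (by simp) le_rfl ((if_neg (show ¬ d ≤ 1 by omega)).mp k)⟩,
        fun k => by
          have := congrArg (fun y : Pt d P => 1 ∈ y.1) k
          simp [p] at this; omega⟩))
  have := attained_of _ h1
  rwa [h2] at this

end Pool.Agent.Lib.MP_7157e1_co
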