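import Pool.Agent.Lib.MP_7157e1_co.QKit
import Pool.Agent.Lib.MP_7157e1_co.FoJoin

/-! Quadratic range: assembly of the steps. -/

namespace Pool.Agent.FlagOrb.Q

open Equiv Set Pool.Agent.Lib.MP_7157e1_co

theorem ps_main (hLOC : St_LOC) (hLINK : St_LINK) (hSIGN : St_SIGN) (hH3 : St_H3)
    (hNOPOS : St_NOPOS) (hDBL2 : St_DBL2) (hJUN : St_JUN) (hSTEP : St_STEP) (hTWO : St_TWO)
    (hCNT : St_CNT) {F L : Type} [Lattice L] [Finite F] [Nonempty F] {n : ℕ} {r : ℕ → Perm F}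
    {φ : ℕ → F → L} (h : PS n r φ) (hD : DI n r φ) (hn : 100 ≤ n)
    (hk : 4 * nty r + 10 * n + 2200 ≤ n ^ 2) :
    nty r = 1 ∨ ∃ s b, b ≤ 3 ∧ nty r + b = s * (n - 1) + 2 := by
  obtain ⟨u, u1, u2, hL⟩ := hLOC h hn hk
  have H := hH3 h _ _ (hSIGN h u (u + 43) (u + 13) (u + 29) hL (hLINK h u (by omega) (by omega) hL)
    (by omega) (by omega) (by omega) (by omega) (by omega)) (by omega) (by omega) (by omega)
  by_cases hp : ∃ x i, Ps n r x i
  swap
  · exact Or.inl (hNOPOS h (by omega) fun x c c1 c2 =>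
      (H.cov x).resolve_right (fun ⟨i, hi⟩ => hp ⟨x, i, hi⟩) c c1 c2)
  right
  have H' := h.H3_rev (by omega) H
  have N : ND n r := fun x i hx => ⟨hDBL2 h hD (by omega) H x i hx, by
    have := hDBL2 h.mirror (h.DI_rev hD) (by omega) H' x _ (h.ps_rev (by omega) hx)
    rwa [h.wl_rev (by omega)] at this⟩
  have N' := h.ND_rev (by omega) N
  have S' : ∀ i, i + 7 ≤ n → ∃ J w N, Side n (rev n r) (i + 3) J w N := by
    intro i
    induction i with
    | zero => exact fun _ => hJUN h.mirror (by omega) H' N'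
    | succ i ih =>
      exact fun hi => hSTEP h.mirror H' N' (i + 3) (by omega) (by omega) (ih (by omega))
  obtain ⟨J, w, β, M, Y, hT⟩ := hTWO h (by omega) H N
    (hSTEP h H N 3 le_rfl (by omega) (hJUN h (by omega) H N))
    (by have := S' (n - 8) (by omega); rwa [show n - 8 + 3 = n - 5 by omega] at this)
  obtain ⟨x, i, hx⟩ := hp
  have d : ∀ i x, Ps n r x (i + 3) → ∃ y, Ps n r y 3 := by
    intro i
    induction i with
    | zero => exact fun x hx => ⟨x, hx⟩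
    | succ i ih => exact fun x hx => ih _ (H.dn x (i + 3) hx (by omega))
  obtain ⟨y, hy⟩ := d (i - 3) x (by rwa [Nat.sub_add_cancel hx.1])
  exact hCNT h 4 _ J w β M Y hT _ (Or.inl (H.up y 3 hy (by omega)))

theorem poly_di {ι : Type} [Fintype ι] {E : Submodule ℝ (ι → ℝ)} {d : ℕ} :
    @DI _ _ (faceLat E) d (rp E d) fun i x => ⟨x.1 i, x.isF i⟩ := by
  intro c x G hc h1 h2
  change x.1 c ⊆ G.1 at h1
  change G.1 ⊆ x.1 (c + 2) at h2
  have a1 := cr_anti (E := E) h1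
  have a2 := cr_anti (E := E) h2
  rw [x.cr] at a1 a2
  by_cases e1 : cr E G.1 = d + 1 - c
  · exact Or.inl (Subtype.ext ((x.isF c).eq_of_cr h1 (by rw [x.cr]; omega)).symm)
  by_cases e2 : cr E G.1 = d - c
  · rcases ((Fl.exists_r c x).choose_spec.2 hc).2.2 G.1 G.2 h1 h2 e2 with k | k
    · exact Or.inr (Or.inl (Subtype.ext k))
    · exact Or.inr (Or.inr (Or.inl (Subtype.ext k)))
  · exact Or.inr (Or.inr (Or.inr (Subtype.ext (G.2.eq_of_cr h2 (by rw [x.cr]; omega)))))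

theorem quad (hLOC : St_LOC) (hLINK : St_LINK) (hSIGN : St_SIGN) (hH3 : St_H3)
    (hNOPOS : St_NOPOS) (hDBL2 : St_DBL2) (hJUN : St_JUN) (hSTEP : St_STEP) (hTWO : St_TWO)
    (hCNT : St_CNT) {k d : ℕ} (h : Attained k d) (hd : 100 ≤ d) (h2 : 2 ≤ k)
    (hk : 4 * k + 10 * d + 2200 ≤ d ^ 2) : (k + 1) % (d - 1) ≤ 3 := by
  have key : k = 1 ∨ ∃ s b, b ≤ 3 ∧ k + b = s * (d - 1) + 2 := by
    obtain ⟨V, h1, rfl⟩ := h
    have : Nonempty V := by
      rcases V.eq_empty_or_nonempty with rfl | ⟨x, hx⟩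
      · simp at h1
      · exact ⟨⟨x, hx⟩⟩
    rw [← Subtype.range_coe (s := (V : Set (EuclideanSpace ℝ (Fin d))))] at h1 hk ⊢
    have hr := (rank_aff _).1 h1
    rw [bridge, ← k_eq (one_mem_aff _) hr, ← nty_eq] at hk ⊢
    exact @ps_main hLOC hLINK hSIGN hH3 hNOPOS hDBL2 hJUN hSTEP hTWO hCNT _ _ (faceLat _) _
      (Fl.nonempty (one_mem_aff _) hr) _ _ _ (poly_ps (one_mem_aff _) hr) poly_di hd hk
  obtain ⟨s, b, hb, e⟩ := key.resolve_left (by omega)
  rw [show k + 1 = 3 - b + s * (d - 1) by omega, Nat.add_mul_mod_self_right,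
    Nat.mod_eq_of_lt (by omega)]
  omega

end Pool.Agent.FlagOrb.Q
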