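import Pool.Agent.Lib.MP_7157e1_co.FoCore

/-! Quadratic range: definitions and statements of the steps (flag systems). -/

namespace Pool.Agent.FlagOrb.Q

open Equiv Set

section Defs

variable {F : Type}

/-- related through the colours in `J`, up to automorphisms -/
def JR (r : ℕ → Perm F) (J : Set ℕ) (x y : F) : Prop := ∃ g ∈ W r J, Eqv r (g x) y

/-- the colours in `J` are far from `[a, b)` -/
def Far (J : Set ℕ) (a b : ℕ) : Prop := ∀ c ∈ J, c + 2 ≤ a ∨ b + 1 ≤ c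

/-- `m` flags in the `I`-orbit, pairwise not related through `J` -/
def Big (r : ℕ → Perm F) (I J : Set ℕ) (x : F) (m : ℕ) : Prop :=
  ∃ f : Fin m → F, (∀ i, Rch r I x (f i)) ∧ ∀ i j, JR r J (f i) (f j) → i = j

/-- the colours in `[a, b)` lead to one type -/
def Sm (r : ℕ → Perm F) (a b : ℕ) (x : F) : Prop :=
  ∀ c ∈ Ico a b, ∀ c' ∈ Ico a b, Eqv r (r c x) (r c' x)

/-- locality -/
def Loc (n : ℕ) (r : ℕ → Perm F) (u v : ℕ) : Prop :=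
  ∀ x, ∃ g, (∀ c, 1 ≤ c → c < g → c < v → Eqv r (r c x) (r 1 x)) ∧
    ∀ c, g + 4 ≤ c → u ≤ c → c + 2 ≤ n → Eqv r (r c x) (r (n - 2) x)

/-- the moving colours lie in a window of length four -/
def LW (n : ℕ) (r : ℕ → Perm F) : Prop :=
  ∀ x c c', c + 4 ≤ c' → c' < n → Wl r x c ∨ Wl r x c'

/-- exactly the colours `i - 1` and `i` move -/
def OP (r : ℕ → Perm F) (x : F) (i : ℕ) : Prop := ∀ c, ¬ Wl r x c ↔ c + 1 = i ∨ c = i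

/-- braid relations in `[lo, hi)` -/
def Brd (r : ℕ → Perm F) (lo hi : ℕ) : Prop := ∀ l x, lo ≤ l → l + 2 ≤ hi → per r l x = 3

/-- position `i` on a leg -/
def Pos (n : ℕ) (r : ℕ → Perm F) (a b : ℕ) (x : F) (i : ℕ) : Prop :=
  a ≤ i ∧ i ≤ b ∧ (∀ c, 1 ≤ c → c + 2 ≤ n → c ≠ i → c + 1 ≠ i → Wl r x c) ∧
    (i < b → ¬ Wl r x i) ∧ (a < i → ¬ Wl r x (i - 1))

/-- the leg structure on `[a, b)` -/
structure HH (n : ℕ) (r : ℕ → Perm F) (a b : ℕ) : Prop where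
  cov : ∀ x, (∀ c, a ≤ c → c < b → Wl r x c) ∨ ∃ i, Pos n r a b x i
  up : ∀ x i, Pos n r a b x i → i < b → Pos n r a b (r i x) (i + 1)
  dn : ∀ x i, Pos n r a b x (i + 1) → a ≤ i → Pos n r a b (r i x) i
  str : ∀ x i, Pos n r a b x i → i + 2 ≤ b → per r i x = 3

/-- positions on full legs -/
abbrev Ps (n : ℕ) (r : ℕ → Perm F) (x : F) (i : ℕ) : Prop := Pos n r 3 (n - 3) x i

/-- no doubling -/
def ND (n : ℕ) (r : ℕ → Perm F) : Prop := ∀ x i, Ps n r x i → Wl r x 0 ∧ Wl r x (n - 1)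

/-- the diamond property -/
def DI {L : Type} [Lattice L] (n : ℕ) (r : ℕ → Perm F) (φ : ℕ → F → L) : Prop :=
  ∀ c x G, c < n → φ c x ≤ G → G ≤ φ (c + 2) x →
    G = φ c x ∨ G = φ (c + 1) x ∨ G = φ (c + 1) (r c x) ∨ G = φ (c + 2) x

/-- the walls along the leg, seen from positions `i` and `i + 1` -/
def SS (n : ℕ) (r : ℕ → Perm F) (i : ℕ) (x : F) : Set (Perm F) :=
  {g | ∃ c, c < n ∧ c ≠ i ∧ ((c + 1 ≠ i ∧ g = rf r x c) ∨ (c ≠ i + 1 ∧ g = rf r (r i x) c))}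

/-- the part of the type graph below position `i` -/
structure Side (n : ℕ) (r : ℕ → Perm F) (i : ℕ) (J : F → F) (w : F → ℕ) (N : F → Prop) :
    Prop where
  eqv : ∀ g ∈ Aut r, ∀ x, J (g x) = g (J x) ∧ w (g x) = w x ∧ (N (g x) ↔ N x)
  inv : ∀ x, Ps n r x i → Ps n r (J x) i ∧ J (J x) = x ∧ w (J x) = w x ∧ (N (J x) ↔ N x) ∧
    InD r 0 i x (J x)
  wt : ∀ x, Ps n r x i → (J x = x ∧ w x ≤ i ∧ i ≤ w x + 3 ∧ (¬ N x → w x = i)) ∨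
    (¬ Eqv r x (J x) ∧ w x + 1 ≤ i ∧ i ≤ w x + 2 ∧ (¬ N x → w x + 1 = i))
  pos : ∀ x, Ps n r x i → ∀ j ≤ w x, ¬ Wl r (up r (i - j) j x) (i - j) ∧
    ∀ c, i - j < c → Wl r (up r (i - j) j x) c
  cl : ∀ x, Ps n r x i → ∀ j ≤ w x, ∀ c < i - j, ¬ Wl r (up r (i - j) j x) c →
    (j < w x ∧ c + 1 = i - j) ∨ r c (up r (i - j) j x) = up r (i - j) j (J x)
  new : ∀ x, Ps n r x i → N x → ∃ y c, InD r 0 i x y ∧ c < i ∧ Wl r y c ∧ rf r y c ∉ SS n r i x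
  old : ∀ x, Ps n r x i → ¬ N x → SS n r i (J x) = SS n r i x

/-- the walls at the two ends of the edge of colour `i` -/
def SB (n : ℕ) (r : ℕ → Perm F) (i : ℕ) (x : F) : Set (Perm F) :=
  {g | ∃ c, c < n ∧ ((Wl r x c ∧ g = rf r x c) ∨ (Wl r (r i x) c ∧ g = rf r (r i x) c))}

/-- the ends of the translates of that edge -/
def Sig (n : ℕ) (r : ℕ → Perm F) (i : ℕ) (x : F) : Set F :=
  {y | ∃ g ∈ Subgroup.closure (SB n r i x), y = g x ∨ y = g (r i x)}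

/-- the translates of the edge separate -/
def Cut (n : ℕ) (r : ℕ → Perm F) (i : ℕ) (x : F) : Prop :=
  ∃ f : F → Prop, ∀ y c, (f (r c y) ↔ f y) ↔ ¬ (c = i ∧ y ∈ Sig n r i x)

/-- reached by moving colours other than `i` -/
def Nv (n : ℕ) (r : ℕ → Perm F) (i : ℕ) : F → F → Prop :=
  Relation.ReflTransGen fun u v => ∃ c, c < n ∧ c ≠ i ∧ ¬ Wl r u c ∧ v = r c u

/-- reached by moving colours, avoiding the edges of the type of `x, r i x` -/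
def Av (n : ℕ) (r : ℕ → Perm F) (i : ℕ) (x : F) : F → F → Prop :=
  Relation.ReflTransGen fun u v =>
    ∃ c, c < n ∧ ¬ Wl r u c ∧ ¬ (c = i ∧ (Eqv r x u ∨ Eqv r (r i x) u)) ∧ v = r c u

/-- a new wall on the side of `x` -/
def New (n : ℕ) (r : ℕ → Perm F) (i : ℕ) (x : F) : Prop :=
  ∃ y c, Av n r i x x y ∧ c < n ∧ Wl r y c ∧ rf r y c ∉ SB n r i x

/-- both sides of the central edges -/
structure Two (n : ℕ) (r : ℕ → Perm F) (i : ℕ) (T : F → Prop) (J : F → F) (w β : F → ℕ)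
    (N : F → Prop) (Y : F → ℕ → F) : Prop where
  lt : i < n
  eqv : ∀ g ∈ Aut r, ∀ x, T x → T (g x) ∧ J (g x) = g (J x) ∧ w (g x) = w x ∧ β (g x) = β x ∧
    (N (g x) ↔ N x) ∧ ∀ j, Y (g x) j = g (Y x j)
  tau : ∀ x, T x → T (r i x) ∧ ¬ Wl r x i ∧ β x + β (r i x) + 1 = n
  inv : ∀ x, T x → T (J x) ∧ J (J x) = x ∧ (N (J x) ↔ N x) ∧ Nv n r i x (J x)
  wt : ∀ x, T x → (J x = x ∧ w x ≤ β x ∧ β x ≤ w x + 3 ∧ (¬ N x → w x = β x)) ∨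
    (¬ Eqv r x (J x) ∧ w x + 1 ≤ β x ∧ β x ≤ w x + 2 ∧ (¬ N x → w x + 1 = β x))
  inj : ∀ x x' j j', T x → T x' → j ≤ w x → j' ≤ w x' → Eqv r (Y x j) (Y x' j') →
    j = j' ∧ Eqv r x x'
  cl : ∀ x j c, T x → j ≤ w x → ∃ x' j', (x' = x ∨ x' = J x ∨ x' = r i x) ∧ j' ≤ w x' ∧
    Eqv r (r c (Y x j)) (Y x' j')
  new : ∀ x, T x → N x → ∃ y c, Nv n r i x y ∧ c < n ∧ Wl r y c ∧ rf r y c ∉ SB n r i x
  old : ∀ x, T x → ¬ N x → SB n r i (J x) = SB n r i x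
  cut : ∀ x, T x → Cut n r i x

/-- chains of ends -/
inductive Ch {E : Type} (τ J : E → E) (N : E → Prop) (e : E) : E → Prop
  | base : Ch τ J N e (τ e)
  | step (f : E) : Ch τ J N e f → ¬ N f → J f ≠ e → J f ≠ τ e → Ch τ J N e (τ (J f))

end Defs

def St_PROD : Prop := ∀ {F L : Type} [Lattice L] [Finite F] {n : ℕ} {r : ℕ → Perm F}
  {φ : ℕ → F → L}, PS n r φ → ∀ (I J : Set ℕ) (x : F) (m m' : ℕ),
  (∀ c ∈ I, ∀ c' ∈ J, Commute (r c) (r c')) → Big r I J x m → Big r J I x m' → m * m' ≤ nty r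

def St_SEC : Prop := ∀ {F L : Type} [Lattice L] [Finite F] {n : ℕ} {r : ℕ → Perm F}
  {φ : ℕ → F → L}, PS n r φ → ∀ (a b : ℕ) (x : F), a ≤ b → b ≤ n →
  ∃ (F' : Type) (_ : Finite F') (r' : ℕ → Perm F') (φ' : ℕ → F' → L) (e : F' → F),
    PS (b - a) r' φ' ∧ (∀ y, Rch r (Ico a b) x y ↔ ∃ z, e z = y) ∧
    (∀ c z, a + c < b → e (r' c z) = r (a + c) (e z)) ∧
    (∀ l z, a + l + 1 < b → per r' l z = per r (a + l) (e z)) ∧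
    ∀ J, Far J a b → ∀ z z', JR r J (e z) (e z') → Eqv r' z z'

def St_WC : Prop := ∀ {F L : Type} [Lattice L] [Finite F] {n : ℕ} {r : ℕ → Perm F}
  {φ : ℕ → F → L}, PS n r φ → ∀ (a b p : ℕ) (J : Set ℕ) (x : F), b ≤ n → Far J a b →
  (∀ y l, Rch r (Ico a b) x y → a ≤ l → l + 1 < b → per r l y = 3) →
  nty r < 3 ^ p → a + 3 * p + 1 ≤ b → Sm r a b x ∨ Big r (Ico a b) J x (b - a)

def St_LEMA : Prop := ∀ {F L : Type} [Lattice L] [Finite F] {n : ℕ} {r : ℕ → Perm F}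
  {φ : ℕ → F → L}, PS n r φ → ∀ (a b p : ℕ) (J : Set ℕ) (x : F), b ≤ n → Far J a b →
  a + 9 ≤ b → nty r < 3 ^ p → a + 3 * p + 3 ≤ b →
  Sm r (a + 1) (b - 1) x ∨ Big r (Ico a b) J x (b - a - 2)

def St_LOC : Prop := ∀ {F L : Type} [Lattice L] [Finite F] {n : ℕ} {r : ℕ → Perm F}
  {φ : ℕ → F → L}, PS n r φ → 100 ≤ n → 4 * nty r + 10 * n + 2200 ≤ n ^ 2 →
  ∃ u, 20 ≤ u ∧ u + 63 ≤ n ∧ Loc n r u (u + 43)

def St_IRR : Prop := ∀ {F L : Type} [Lattice L] [Finite F] {n : ℕ} {r : ℕ → Perm F}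
  {φ : ℕ → F → L}, PS n r φ → ∀ e, e + 2 < n → (∀ x, Wl r x 0) → (∀ x, Wl r x 1) →
  (∀ x c, e < c → Wl r x c) → ∀ x, Wl r x e

def St_NODBL : Prop := ∀ {F L : Type} [Lattice L] [Finite F] {n : ℕ} {r : ℕ → Perm F}
  {φ : ℕ → F → L}, PS n r φ → LW n r → ∀ e x, 10 ≤ e → e + 8 ≤ n →
  (∀ c, e < c → Wl r x c) → ¬ Wl r x e → ¬ Wl r (r e x) (e + 1)

def St_LEG : Prop := ∀ {F L : Type} [Lattice L] [Finite F] {n : ℕ} {r : ℕ → Perm F}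
  {φ : ℕ → F → L}, PS n r φ → LW n r → ∀ c x, 11 ≤ c → c + 12 ≤ n → ¬ Wl r x c →
  (OP r x c ∧ OP r (r c x) (c + 1)) ∨ (OP r x (c + 1) ∧ OP r (r c x) c)

def St_P3 : Prop := ∀ {F L : Type} [Lattice L] [Finite F] {n : ℕ} {r : ℕ → Perm F}
  {φ : ℕ → F → L}, PS n r φ → LW n r → ∀ l x, 13 ≤ l → l + 16 ≤ n → per r l x = 3

def St_LINK : Prop := ∀ {F L : Type} [Lattice L] [Finite F] {n : ℕ} {r : ℕ → Perm F}
  {φ : ℕ → F → L}, PS n r φ → ∀ u, 3 ≤ u → u + 46 ≤ n → Loc n r u (u + 43) →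
  Brd r (u + 13) (u + 29)

def St_SIGN : Prop := ∀ {F L : Type} [Lattice L] [Finite F] {n : ℕ} {r : ℕ → Perm F}
  {φ : ℕ → F → L}, PS n r φ → ∀ u v lo hi, Loc n r u v → Brd r lo hi → u ≤ lo → hi ≤ v →
  3 ≤ lo → hi + 3 ≤ n → lo + 16 ≤ hi → HH n r (lo + 4) (hi - 4)

def St_UW : Prop := ∀ {F L : Type} [Lattice L] [Finite F] {n : ℕ} {r : ℕ → Perm F}
  {φ : ℕ → F → L}, PS n r φ → ∀ a b x, a + 8 ≤ b → b ≤ n →
  (∀ z, InD r 0 b x z → ∀ c, a < c → c < b → Wl r z c) → ¬ Wl r x a → a = 0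

def St_RR : Prop := ∀ {F L : Type} [Lattice L] [Finite F] {n : ℕ} {r : ℕ → Perm F}
  {φ : ℕ → F → L}, PS n r φ → ∀ a b x, HH n r (a + 1) b → 2 ≤ a → a + 8 ≤ b → b < n →
  (∀ c, a < c → c < b → Wl r x c) → (∀ c, a < c → c < b → Wl r (r a x) c) → Wl r x a

def St_FOLD : Prop := ∀ {F L : Type} [Lattice L] [Finite F] {n : ℕ} {r : ℕ → Perm F}
  {φ : ℕ → F → L}, PS n r φ → ∀ a b x, HH n r (a + 1) b → 2 ≤ a → (3 ≤ a ∨ Wl r x 0) →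
  a + 3 ≤ b → a + 9 ≤ n → b < n → Pos n r (a + 1) b x (a + 1) → ¬ Wl r x a →
  Wl r (r a x) (a + 1) ∧ per r a x = 3

def St_TERM : Prop := ∀ {F L : Type} [Lattice L] [Finite F] {n : ℕ} {r : ℕ → Perm F}
  {φ : ℕ → F → L}, PS n r φ → ∀ a b x, HH n r (a + 1) b → 3 ≤ a → a + 3 ≤ b → a + 9 ≤ n →
  b < n → Pos n r (a + 1) b x (a + 1) → ¬ Wl r x a

def St_H3 : Prop := ∀ {F L : Type} [Lattice L] [Finite F] {n : ℕ} {r : ℕ → Perm F}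
  {φ : ℕ → F → L}, PS n r φ → ∀ a b, HH n r a b → 3 ≤ a → a + 7 ≤ b → b + 3 ≤ n →
  HH n r 3 (n - 3)

def St_NOPOS : Prop := ∀ {F L : Type} [Lattice L] [Finite F] [Nonempty F] {n : ℕ}
  {r : ℕ → Perm F} {φ : ℕ → F → L}, PS n r φ → 20 ≤ n →
  (∀ x c, 3 ≤ c → c < n - 3 → Wl r x c) → nty r = 1

def St_DBL0 : Prop := ∀ {F L : Type} [Lattice L] [Finite F] {n : ℕ} {r : ℕ → Perm F}
  {φ : ℕ → F → L}, PS n r φ → 20 ≤ n → HH n r 3 (n - 3) → ∀ x, Ps n r x 3 → ¬ Wl r x 0 →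
  Commute (rf r x 1) (rf r (r 0 x) 1) ∧ ∀ z, Rch r (Ico 0 3) x z →
    (¬ Wl r z 3 → Ps n r z 3 ∧ ¬ Wl r z 0 ∧ ¬ Wl r z 2 ∧ Wl r (r 2 z) 3 ∧
      ((rf r z 1 = rf r x 1 ∧ rf r (r 0 z) 1 = rf r (r 0 x) 1) ∨
        (rf r z 1 = rf r (r 0 x) 1 ∧ rf r (r 0 z) 1 = rf r x 1))) ∧
    (Wl r z 3 → ¬ Wl r z 2 → ¬ Wl r (r 2 z) 3) ∧
    (Wl r z 3 → Wl r z 2 →
      (rf r z 2 = rf r x 1 ∨ rf r z 2 = rf r (r 0 x) 1) ∧ per r 2 z = 3)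

def St_DBL1 : Prop := ∀ {F L : Type} [Lattice L] [Finite F] {n : ℕ} {r : ℕ → Perm F}
  {φ : ℕ → F → L}, PS n r φ → DI n r φ → 20 ≤ n → HH n r 3 (n - 3) → ∀ x, Ps n r x 3 →
  ¬ Wl r x 0 → Wl r (r 2 x) 3 ∧ Wl r (r 1 (r 2 x)) 2 ∧ per r 1 x = 3 ∧
    per r 2 (r 1 (r 2 x)) = 3 ∧ (per r 0 (r 2 x) = 3 ∨ (per r 0 (r 2 x) = 4 ∧
      Ps n r (r 2 (r 1 (r 0 (r 1 (r 2 x))))) 3 ∧ ¬ Wl r (r 2 (r 1 (r 0 (r 1 (r 2 x))))) 0))

def St_DBL2 : Prop := ∀ {F L : Type} [Lattice L] [Finite F] {n : ℕ} {r : ℕ → Perm F}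
  {φ : ℕ → F → L}, PS n r φ → DI n r φ → 20 ≤ n → HH n r 3 (n - 3) → ∀ x i, Ps n r x i →
  Wl r x 0

def St_JUN : Prop := ∀ {F L : Type} [Lattice L] [Finite F] {n : ℕ} {r : ℕ → Perm F}
  {φ : ℕ → F → L}, PS n r φ → 20 ≤ n → HH n r 3 (n - 3) → ND n r → ∃ J w N, Side n r 3 J w N

def St_STEP : Prop := ∀ {F L : Type} [Lattice L] [Finite F] {n : ℕ} {r : ℕ → Perm F}
  {φ : ℕ → F → L}, PS n r φ → HH n r 3 (n - 3) → ND n r → ∀ i, 3 ≤ i → i + 5 ≤ n →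
  (∃ J w N, Side n r i J w N) → ∃ J w N, Side n r (i + 1) J w N

def St_COC : Prop := ∀ {F L : Type} [Lattice L] [Finite F] {n : ℕ} {r : ℕ → Perm F}
  {φ : ℕ → F → L}, PS n r φ → HH n r 3 (n - 3) → ND n r → ∀ i x, 4 ≤ i → i + 5 ≤ n →
  Ps n r x i → Cut n r i x

def St_TWO : Prop := ∀ {F L : Type} [Lattice L] [Finite F] {n : ℕ} {r : ℕ → Perm F}
  {φ : ℕ → F → L}, PS n r φ → 20 ≤ n → HH n r 3 (n - 3) → ND n r →
  (∃ J w N, Side n r 4 J w N) → (∃ J w N, Side n (rev n r) (n - 5) J w N) →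
  ∃ J w β N Y, Two n r 4 (fun x => Ps n r x 4 ∨ Ps n r x 5) J w β N Y

def St_PAR : Prop := ∀ {F L : Type} [Lattice L] [Finite F] {n : ℕ} {r : ℕ → Perm F}
  {φ : ℕ → F → L}, PS n r φ → ∀ a b x0, b ≤ n →
  (∀ S ⊆ Walls r a b x0, ∀ t ∈ Walls r a b x0, t ∈ Subgroup.closure S → t ∈ S) ∧
  ∀ g ∈ Subgroup.closure (Walls r a b x0), ∀ y, InD r a b x0 y → InD r a b x0 (g y) → g = 1

def St_PP : Prop := ∀ {F L : Type} [Lattice L] [Finite F] {n : ℕ} {r : ℕ → Perm F}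
  {φ : ℕ → F → L}, PS n r φ → ∀ i x, i < n → ¬ Wl r x i → Cut n r i x → New n r i x →
  ¬ New n r i (r i x)

def St_CYC : Prop := ∀ {F L : Type} [Lattice L] [Finite F] {n : ℕ} {r : ℕ → Perm F}
  {φ : ℕ → F → L}, PS n r φ → ∀ i T J w β N Y, Two n r i T J w β N Y → ∀ x, T x →
  ∃ y, T y ∧ J y = y

def St_DIH : Prop := ∀ (E : Type) [Fintype E] (τ J : E → E) (N : E → Prop) (w β : E → ℕ) (m : ℕ),
  (∀ e, τ (τ e) = e) → (∀ e, J (J e) = e) → (∀ e, τ e ≠ e) →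
  (∀ P : E → Prop, (∃ e, P e) → (∀ e, P e → P (τ e) ∧ P (J e)) → ∀ e, P e) →
  (∃ e, J e = e) → (∀ e, N (J e) ↔ N e) → (∀ e, β e + β (τ e) = m) →
  (∀ e, J e = e → w e ≤ β e ∧ β e ≤ w e + 3 ∧ (¬ N e → w e = β e)) →
  (∀ e, J e ≠ e → w e + 1 ≤ β e ∧ β e ≤ w e + 2 ∧ (¬ N e → w e + 1 = β e)) →
  (∀ e f, N e → Ch τ J N e f → ¬ N f) →
  ∃ s b, b ≤ 3 ∧ ∑ e, (w e + 1) + b = s * m + 2

def St_CNT : Prop := ∀ {F L : Type} [Lattice L] [Finite F] {n : ℕ} {r : ℕ → Perm F}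
  {φ : ℕ → F → L}, PS n r φ → ∀ i T J w β N Y, Two n r i T J w β N Y → ∀ x, T x →
  ∃ s b, b ≤ 3 ∧ nty r + b = s * (n - 1) + 2

end Pool.Agent.FlagOrb.Q
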