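import Pool.Agent.Lib.MP_7157e1_co.X6
import Pool.Agent.Lib.MP_7157e1_co.P6

/-! Quadratic range: definitions and statements of the steps (existence). -/

namespace Pool.Agent.Lib.MP_7157e1_co.QE

open Module Equiv

/-- the number of facets through a vertex -/
noncomputable def cf {ι : Type} (E : Submodule ℝ (ι → ℝ)) (v : ι) : ℕ :=
  {G : Set ι | IsF E G ∧ cr E G = 1 ∧ v ∈ G}.ncard

/-- a polytope with a family of simplex facets and a set of symmetries -/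
structure TDs {ι : Type} (d k : ℕ) (E : Submodule ℝ (ι → ℝ)) (FF : Set (Set ι))
    (Γ : Set (Perm ι)) : Prop where
  one : (1 : ι → ℝ) ∈ E
  rk : finrank ℝ E = d + 1
  sing : ∀ i, IsF E {i}
  ne : FF.Nonempty
  fac : ∀ G ∈ FF, IsF E G ∧ cr E G = 1 ∧ G.ncard = d
  face : ∀ g ∈ Γ, ∀ S, IsF E (g '' S) ↔ IsF E S
  ff : ∀ g ∈ Γ, ∀ S, g '' S ∈ FF ↔ S ∈ FF
  cG : Γ.ncard = FF.ncard * d.factorial
  cF : Nat.card (Fl E d) = k * Γ.ncard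
  cov : ∀ v, (∃ G ∈ FF, v ∈ G) ∨ d < cf E v

def TD (d k : ℕ) : Prop := ∃ (ι : Type) (_ : Fintype ι) (E : Submodule ℝ (ι → ℝ))
  (FF : Set (Set ι)) (Γ : Set (Perm ι)), TDs d k E FF Γ

def St_EK : Prop := ∀ {ι : Type} [Fintype ι] {E : Submodule ℝ (ι → ℝ)} {d : ℕ},
  (1 : ι → ℝ) ∈ E → finrank ℝ E = d + 1 → (∀ i, IsF E {i}) →
  (∀ e : {G // IsF E G} ≃o {G // IsF E G}, ∃ σ : Perm ι, (∀ G, (e G).1 = σ '' G.1) ∧
    (∀ S, IsF E (σ '' S) ↔ IsF E S) ∧ ∀ v, cf E (σ v) = cf E v) ∧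
  (∀ σ : Perm ι, (∀ S, IsF E (σ '' S) ↔ IsF E S) →
    ∃ e : {G // IsF E G} ≃o {G // IsF E G}, ∀ G, (e G).1 = σ '' G.1) ∧
  (3 ≤ d → ∀ v, 3 ≤ cf E v) ∧
  ∀ (Γ : Set (Perm ι)) (X : Set (Fl E d)) (k : ℕ), X.Nonempty →
    (∀ Φ ∈ X, ∀ (Ψ : Fl E d) (σ : Perm ι), (∀ v, cf E (σ v) = cf E v) →
      (∀ j, Ψ.1 j = σ '' Φ.1 j) → Ψ ∈ X) → X.ncard ≤ Γ.ncard →
    (∀ g ∈ Γ, ∀ S, IsF E (g '' S) ↔ IsF E S) → Nat.card (Fl E d) = k * Γ.ncard → Attained k d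

def St_CORE : Prop := ∀ {ι : Type} [Fintype ι] {d k : ℕ} {E : Submodule ℝ (ι → ℝ)}
  {FF : Set (Set ι)} {Γ : Set (Perm ι)}, 3 ≤ d → TDs d k E FF Γ →
  (∀ G ∈ FF, ∀ A ⊆ G, IsF E A) ∧ ∃ a : Set ι → ((ι → ℝ) →ₗ[ℝ] ℝ), (∀ G ∈ FF, a G 1 = 1) ∧
    (∀ G ∈ FF, ∀ f ∈ E, (∀ i, 0 ≤ f i) → f ≠ 0 → a G f ≤ 0 →
      (∀ w, w ∉ G → 0 < f w) ∧ ∀ G' ∈ FF, G' ≠ G → 0 < a G' f) ∧
    (∀ G ∈ FF, ∀ f ∈ E, (∀ i, 0 ≤ f i) → f ≠ 0 → (∀ w ∈ G, f w = 0) → a G f < 0) ∧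
    (∀ G ∈ FF, ∀ A, A ⊂ G → ∃ f ∈ E, (∀ i, 0 ≤ f i) ∧ (∀ i, f i = 0 ↔ i ∈ A) ∧ a G f = 0) ∧
    ∀ S, IsF E S → S ≠ Set.univ → S ∉ FF →
      ∃ f ∈ E, (∀ i, 0 ≤ f i) ∧ (∀ i, f i = 0 ↔ i ∈ S) ∧ ∀ G ∈ FF, 0 < a G f

def St_STK : Prop := ∀ d k, 3 ≤ d → TD d k → Attained (k + (d - 1)) d

def St_CAP : Prop := ∀ d k, 3 ≤ d → TD d k →
  TD d (k + 2 * (d - 1)) ∧ Attained (k + 2 * (d - 1)) d

def St_B1 : Prop := ∀ d, 5 ≤ d → TD d 1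

def St_B2 : Prop := ∀ d, 5 ≤ d → TD d 2

def St_B3 : Prop := ∀ d, 5 ≤ d → TD d (d - 1)

def St_B4 : Prop := ∀ d, 5 ≤ d → TD d (d - 2)

theorem exist (hS : St_STK) (hC : St_CAP) (h1 : St_B1) (h2 : St_B2) (h3 : St_B3) (h4 : St_B4)
    {k d : ℕ} (hd : 5 ≤ d) (hk : d ≤ k + 2) (hm : (k + 1) % (d - 1) ≤ 3) : Attained k d := by
  have key : ∀ k0, TD d k0 → ∀ m, TD d (k0 + 2 * m * (d - 1)) ∧
      Attained (k0 + (m + 1) * (d - 1)) d := by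
    intro k0 h0
    have a : ∀ m, TD d (k0 + 2 * m * (d - 1)) := by
      intro m
      induction m with
      | zero => simpa using h0
      | succ m ih =>
        have := (hC d _ (by omega) ih).1
        rwa [show k0 + 2 * m * (d - 1) + 2 * (d - 1) = k0 + 2 * (m + 1) * (d - 1) by ring] at this
    refine fun m => ⟨a m, ?_⟩
    obtain ⟨j, rfl | rfl⟩ := Nat.even_or_odd' m
    · have := hS d _ (by omega) (a j)
      rwa [show k0 + 2 * j * (d - 1) + (d - 1) = k0 + (2 * j + 1) * (d - 1) by ring] at this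
    · have := (hC d _ (by omega) (a j)).2
      rwa [show k0 + 2 * j * (d - 1) + 2 * (d - 1) = k0 + (2 * j + 1 + 1) * (d - 1) by ring] at this
  obtain ⟨e, rfl⟩ : ∃ e, d = e + 5 := ⟨d - 5, by omega⟩
  have hq := Nat.div_add_mod (k + 1) (e + 5 - 1)
  generalize (k + 1) % (e + 5 - 1) = t at *
  generalize (k + 1) / (e + 5 - 1) = s at *
  simp only [show e + 5 - 1 = e + 4 from rfl] at hq key
  rcases s with _ | s
  · omega
  have c : t = 0 ∨ t = 1 ∨ t = 2 ∨ t = 3 := by omega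
  rcases c with rfl | rfl | rfl | rfl
  · rcases s with _ | s
    · rw [show k = e + 5 - 2 by omega]; exact demicube hd
    · have := (key _ (h4 _ hd) s).2
      rwa [show e + 5 - 2 + (s + 1) * (e + 4) = k by
        rw [show e + 5 - 2 = e + 3 from rfl]; nlinarith] at this
  · rcases s with _ | s
    · rw [show k = e + 5 - 1 by omega]; exact hypersimplex (by omega)
    · have := (key _ (h3 _ hd) s).2
      rwa [show e + 5 - 1 + (s + 1) * (e + 4) = k by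
        rw [show e + 5 - 1 = e + 4 from rfl]; nlinarith] at this
  · have := (key _ (h1 _ hd) s).2
    rwa [show 1 + (s + 1) * (e + 4) = k by nlinarith] at this
  · have := (key _ (h2 _ hd) s).2
    rwa [show 2 + (s + 1) * (e + 4) = k by nlinarith] at this

end Pool.Agent.Lib.MP_7157e1_co.QE
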