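import Pool.Agent.Lib.MP_7157e1_co.QBlue

/-! A long interval of colours acts in one way, or its orbit meets many classes. -/

namespace Pool.Agent.FlagOrb.Q

open Equiv Set

theorem stLEMA (hSEC : St_SEC) (hWC : St_WC) : St_LEMA := by
  intro F L _ _ n r φ h a b p J x hb hfar hab hk hp
  obtain ⟨F', _, r', φ', e, hS, e1, e2, e3, e4⟩ := hSEC h a b x (by omega) hb
  obtain ⟨z0, -⟩ := (e1 x).1 (Rch.refl x)
  have : Nonempty F' := ⟨z0⟩
  rcases hS.core (by omega) with h1 | h1
  · have hall : ∀ z z' : F', Eqv r' z z' := by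
      intro z z'
      have hs : Subsingleton (Quotient (tySetoid r')) := (Nat.card_eq_one_iff_unique.1 h1).1
      exact Quotient.exact (hs.elim (Quotient.mk (tySetoid r') z) (Quotient.mk _ z'))
    have h3 : ∀ l z, 1 ≤ l → l + 3 ≤ b - a → per r' l z = 3 := by
      intro l z l1 l2
      by_cases hl : l + 4 ≤ b - a
      · have := (hS.E4 (j := l - 1) (by omega) z fun y _ i _ => (hall y z).per_eq _).1
        rwa [show l - 1 + 1 = l by omega] at this
      · have := (hS.E4 (j := l - 2) (by omega) z fun y _ i _ => (hall y z).per_eq _).2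
        rwa [show l - 2 + 2 = l by omega] at this
    have hsub : Ico (a + 1) (b - 1) ⊆ Ico a b := Ico_subset_Ico (by omega) (by omega)
    have hfar' : Far J (a + 1) (b - 1) := fun c hc => by
      have := hfar c hc
      omega
    rcases hWC h (a + 1) (b - 1) p J x (by omega) hfar' (fun y l hy l1 l2 => by
      obtain ⟨z, rfl⟩ := (e1 y).1 (hy.mono hsub)
      have := h3 (l - a) z (by omega) (by omega)
      rwa [e3 _ z (by omega), show a + (l - a) = l by omega] at this) hk (by omega) with h4 | h4
    · exact Or.inl h4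
    · right
      rw [show b - 1 - (a + 1) = b - a - 2 by omega] at h4
      obtain ⟨f, f1, f2⟩ := h4
      exact ⟨f, fun i => (f1 i).mono hsub, f2⟩
  · right
    have := Fintype.ofFinite (Quotient (tySetoid r'))
    have hc : Fintype.card (Fin (b - a - 2)) ≤ Fintype.card (Quotient (tySetoid r')) := by
      rw [Fintype.card_fin, ← Nat.card_eq_fintype_card]
      unfold nty at h1
      omega
    obtain ⟨g⟩ := Function.Embedding.nonempty_of_card_le hc
    refine ⟨fun i => e (g i).out, fun i => (e1 _).2 ⟨_, rfl⟩, fun i j hij => g.injective ?_⟩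
    have := Quotient.sound (s := tySetoid r') (e4 J hfar _ _ hij)
    rwa [Quotient.out_eq, Quotient.out_eq] at this

end Pool.Agent.FlagOrb.Q
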