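import Pool.Agent.Lib.MP_7157e1_co.QBlue

/-! Two commuting sets of colours with many orbits give many types. -/

namespace Pool.Agent.FlagOrb.Q

open Equiv Set

theorem stPROD : St_PROD := by
  intro F L _ _ n r φ _ I J x m m' hc ⟨f, hf, hf'⟩ ⟨f', hg, hg'⟩
  choose g hgI hgx using hf
  choose k hkJ hkx using hg
  have cm : ∀ i j, g i (k j x) = k j (g i x) := fun i j => by
    rw [← Perm.mul_apply, (W_comm2 hc (hgI i) (hkJ j)).eq]; rfl
  have hinj : Function.Injective
      (fun p : Fin m × Fin m' => (Quotient.mk (tySetoid r) (g p.1 (k p.2 x)))) := by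
    rintro ⟨i, j⟩ ⟨i', j'⟩ e
    have e' : Eqv r (g i (k j x)) (g i' (k j' x)) := Quotient.exact e
    have h1 : i = i' := by
      refine hf' i i' ⟨(k j')⁻¹ * k j, mul_mem (inv_mem (hkJ j')) (hkJ j), ?_⟩
      have := e'.map (inv_mem (hkJ j'))
      rw [cm, cm, hgx, hgx] at this
      simpa using this
    have h2 : j = j' := by
      refine hg' j j' ⟨(g i')⁻¹ * g i, mul_mem (inv_mem (hgI i')) (hgI i), ?_⟩
      have := e'.map (inv_mem (hgI i'))
      rw [hkx, hkx] at this
      simpa using this
    rw [h1, h2]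
  have := Nat.card_le_card_of_injective _ hinj
  simpa [nty] using this

end Pool.Agent.FlagOrb.Q
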