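import Pool.Agent.Lib.MP_7157e1_co.QHalfA
import Pool.Agent.Lib.MP_7157e1_co.Q_PROD
import Pool.Agent.Lib.MP_7157e1_co.Q_LEMA

/-! Two far active windows force about half the square of the rank many types. -/

namespace Pool.Agent.FlagOrb.Q.Half

open Equiv Set

variable {F L : Type} [Lattice L] {n : ℕ} {r : ℕ → Perm F} {φ : ℕ → F → L}

lemma big_mul {I I' J : Set ℕ} {x : F} {m m' : ℕ}
    (hc : ∀ c ∈ I, ∀ c' ∈ I' ∪ J, Commute (r c) (r c'))
    (b1 : Big r I (I' ∪ J) x m) (b2 : Big r I' (I ∪ J) x m') : Big r (I ∪ I') J x (m * m') := by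
  obtain ⟨f, f1, f2⟩ := b1
  obtain ⟨f', g1, g2⟩ := b2
  choose g hg eg using f1
  choose k hk ek using g1
  have cm : ∀ {a b : Perm F}, a ∈ W r I → b ∈ W r I' → ∀ y, a (b y) = b (a y) := fun ha hb y => by
    rw [← Perm.mul_apply, (W_comm2 hc ha (W_mono subset_union_left hb)).eq, Perm.mul_apply]
  refine ⟨fun p => g (finProdFinEquiv.symm p).1 (k (finProdFinEquiv.symm p).2 x), fun p =>
    ⟨_ * _, mul_mem (W_mono subset_union_left (hg _)) (W_mono subset_union_right (hk _)), rfl⟩,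
    fun p q e => finProdFinEquiv.symm.injective ?_⟩
  beta_reduce at e
  generalize finProdFinEquiv.symm p = p at e ⊢
  generalize finProdFinEquiv.symm q = q at e ⊢
  obtain ⟨i, j⟩ := p
  obtain ⟨i', j'⟩ := q
  obtain ⟨l, hl, e⟩ := e
  dsimp only at e
  have a : i = i' := f2 i i' ⟨(k j')⁻¹ * (l * k j), mul_mem (W_mono subset_union_left
    (inv_mem (hk j'))) (mul_mem (W_mono subset_union_right hl) (W_mono subset_union_left (hk j))), by
      have := e.map (inv_mem (hk j'))
      rw [cm (hg i') (hk j'), cm (hg i) (hk j), eg, eg] at this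
      simpa using this⟩
  have b : j = j' := g2 j j' ⟨(g i')⁻¹ * (l * g i), mul_mem (W_mono subset_union_left
    (inv_mem (hg i'))) (mul_mem (W_mono subset_union_right hl) (W_mono subset_union_left (hg i))), by
      have := e.map (inv_mem (hg i'))
      rw [ek, ek] at this
      simpa using this⟩
  rw [a, b]

lemma pw (p : ℕ) (hp : 8 ≤ p) : (9 * p + 19) ^ 2 ≤ 2 * 3 ^ p := by
  induction p, hp using Nat.le_induction with
  | base => norm_num
  | succ p hp ih =>
    rw [pow_succ 3 p]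
    nlinarith

lemma nsm (h : PS n r φ) {a b : ℕ} {I : Set ℕ} {x y : F} (hy : Rch r I x y) (f : Far I a b)
    (s : ¬ Sm r a b x) : ¬ Sm r a b y := fun t => s (sm_rch h hy.symm f t)

variable [Finite F]

theorem tri (h : PS n r φ) (hn : 83 ≤ n) (hk : 2 * nty r < n ^ 2) {s t u : ℕ} {x : F}
    (h1 : 1 ≤ s) (h2 : s + 9 ≤ t) (h3 : t + 9 ≤ u) (h4 : u + 8 ≤ n) (a1 : ¬ Sm r s (s + 7) x)
    (a2 : ¬ Sm r t (t + 7) x) : Sm r u (u + 7) x := by
  by_contra a3
  obtain ⟨y, hy, b3⟩ := tr h (a := t + 8) (b := n) (s := n - 8) (x := x) le_rfl (by omega)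
    (by omega) fun k => a3 (sm_mono k (by omega) (by omega))
  have b1 := nsm h hy (fun c hc => Or.inr (by have := hc.1; omega)) a1
  have b2 := nsm h hy (fun c hc => Or.inr (by have := hc.1; omega)) a2
  obtain ⟨z, hz, c1⟩ := tr h (a := 0) (b := t - 1) (s := 1) (x := y) (by omega) le_rfl
    (by omega) fun k => b1 (sm_mono k (by omega) (by omega))
  have c2 := nsm h hz (fun c hc => Or.inl (by have := hc.2; omega)) b2
  have c3 := nsm h hz (fun c hc => Or.inl (by have := hc.2; omega)) b3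
  obtain ⟨m, m1, m2⟩ : ∃ m, 3 * m + 2 ≤ n ∧ n ≤ 3 * m + 4 := ⟨(n - 2) / 3, by omega, by omega⟩
  obtain ⟨p, p1, p2⟩ : ∃ p, 3 * p + 3 ≤ m ∧ m ≤ 3 * p + 5 := ⟨(m - 3) / 3, by omega, by omega⟩
  obtain ⟨w, hw, d2⟩ := tr h (a := 9) (b := n - 9) (s := m + 2) (x := z) (by omega) (by omega)
    (by omega) fun k => c2 (sm_mono k (by omega) (by omega))
  have d1 := nsm h hw (fun c hc => Or.inr (by have := hc.1; omega)) c1
  have d3 := nsm h hw (fun c hc => Or.inl (by have := hc.2; omega)) c3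
  have hp : nty r < 3 ^ p := by
    have := pw p (by omega)
    have : n ^ 2 ≤ (9 * p + 19) ^ 2 := Nat.pow_le_pow_left (by omega) 2
    omega
  have hL := stLEMA stSEC stWC h
  have B1 := (hL 0 m p (Ico (m + 1) (2 * m + 1) ∪ Ico (2 * m + 2) n) w (by omega)
    (by rintro c (hc | hc) <;> exact Or.inr (by have := hc.1; omega)) (by omega) hp
    (by omega)).resolve_left fun k => d1 (sm_mono k (by omega) (by omega))
  have B2 := (hL (m + 1) (2 * m + 1) p (Ico 0 m ∪ Ico (2 * m + 2) n) w (by omega)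
    (by
      rintro c (hc | hc)
      exacts [Or.inl (by have := hc.2; omega), Or.inr (by have := hc.1; omega)]) (by omega) hp
    (by omega)).resolve_left fun k => d2 (sm_mono k (by omega) (by omega))
  have B3 := (hL (2 * m + 2) n p (Ico 0 m ∪ Ico (m + 1) (2 * m + 1)) w le_rfl
    (by rintro c (hc | hc) <;> exact Or.inl (by have := hc.2; omega)) (by omega) hp
    (by omega)).resolve_left fun k => d3 (sm_mono k (by omega) (by omega))
  have B := stPROD h _ _ w _ _ (by
      rintro c (hc | hc) c' hc' <;>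
        exact h.comm c c' (by have := hc.2; have := hc'.1; omega))
    (big_mul (by
      rintro c hc c' (hc' | hc') <;>
        exact h.comm c c' (by have := hc.2; have := hc'.1; omega)) B1 B2) B3
  obtain ⟨q, rfl⟩ : ∃ q, m = q + 2 := ⟨m - 2, by omega⟩
  have e : q * q * q ≤ nty r :=
    (Nat.mul_le_mul (Nat.mul_le_mul (by omega) (by omega)) (by omega)).trans B
  have : n ^ 2 ≤ (3 * q + 10) ^ 2 := Nat.pow_le_pow_left (by omega) 2
  have : 25 * (q * q) ≤ q * q * q := by
    rw [mul_comm]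
    exact Nat.mul_le_mul_left _ (by omega)
  have : 25 * q ≤ q * q := Nat.mul_le_mul_right _ (by omega)
  nlinarith

omit [Finite F] in
lemma ivt (h : PS n r φ) {a t : ℕ} {z w : F} (hw : Rch r (Ico a (n - 1)) z w)
    (hz : ¬ Sm r t (n - 1) z) (h2 : Sm r (t + 1) (n - 1) w) :
    ∃ y, Rch r (Ico a (n - 1)) z y ∧ Sm r (t + 1) (n - 1) y ∧ ¬ Sm r t (n - 1) y := by
  by_contra hc
  push Not at hc
  refine hw.ind (fun c _ => h.inv c) (P := fun y => ¬ Sm r (t + 1) (n - 1) y)
    (fun k => hz (hc z (Rch.refl z) k)) ?_ h2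
  intro y c hI hy ih k
  apply ih
  rw [← h.rr c y]
  by_cases e : t ≤ c
  · exact sm_mono (sm_own h (hc _ (hy.next hI) k) ⟨e, hI.2⟩) (by omega) le_rfl
  · exact sm_far h k (Or.inl (by omega))

lemma gauss (N : ℕ) : 2 * ∑ i : Fin N, (15 + (i : ℕ)) = N * (N + 29) := by
  induction N with
  | zero => simp
  | succ N ih =>
    rw [Fin.sum_univ_castSucc, mul_add]
    simp only [Fin.val_castSucc, Fin.val_last, ih]
    ring

theorem twoact (h : PS n r φ) (hn : 83 ≤ n) (hk : 2 * nty r + 23 * n + 79 ≤ n ^ 2) (x : F) {j : ℕ}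
    (j1 : 9 ≤ j) (j2 : j + 11 ≤ n) : Sm r 1 (j - 1) x ∨ Sm r (j + 2) (n - 1) x := by
  by_contra hc
  rw [not_or] at hc
  obtain ⟨y, hy, b1⟩ := tr h (a := 0) (b := j) (s := 1) (by omega) le_rfl (by omega) hc.1
  have b2 := nsm h hy (fun c hc => Or.inl (by have := hc.2; omega)) hc.2
  obtain ⟨z, hz, c2⟩ := tr h (a := j + 1) (b := n) (s := n - 9) le_rfl (by omega) (by omega) b2
  have c1 := nsm h hz (fun c hc => Or.inr (by have := hc.1; omega)) b1
  obtain ⟨w, hw, d2⟩ := tr h (a := 9) (b := n - 1) (s := 10) (x := z) (by omega) le_rfl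
    (by omega) fun k => c2 (sm_mono k (by omega) (by omega))
  have f9 : Far (Ico 9 (n - 1)) 1 (1 + 7) := fun c hc => Or.inr (by have := hc.1; omega)
  have d3 : Sm r 19 (n - 1) w := sm_win (by omega) fun u u1 u2 =>
    tri h hn (by omega) le_rfl le_rfl u1 (by omega) (nsm h hw f9 c1) d2
  have key : ∀ i : Fin (n - 26), ∃ f : Fin (15 + (i : ℕ)) → F,
      (∀ l, Sm r (18 + i + 1) (n - 1) (f l) ∧ ¬ Sm r (18 + i) (n - 1) (f l)) ∧
      ∀ l l', Eqv r (f l) (f l') → l = l' := by
    intro i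
    have := i.2
    obtain ⟨v, hv, v1, v2⟩ := ivt h (t := 18 + i) hw
      (fun k => c2 (sm_mono k (by omega) (by omega))) (sm_mono d3 (by omega) le_rfl)
    have B := (lem0 h (a := 0) (b := 17 + i) v (by omega) (by omega)).resolve_left
      fun k => nsm h hv f9 c1 (sm_mono k (by omega) (by omega))
    rw [show 17 + (i : ℕ) - 0 - 2 = 15 + i by omega] at B
    obtain ⟨f, f1, f2⟩ := B
    exact ⟨f, fun l => ⟨sm_rch h (f1 l) (fun c hc => Or.inl (by have := hc.2; omega)) v1,
      nsm h (f1 l) (fun c hc => Or.inl (by have := hc.2; omega)) v2⟩,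
      fun l l' e => f2 l l' ⟨1, one_mem _, e⟩⟩
  choose f f1 f2 using key
  have inj : Function.Injective fun p : Σ i : Fin (n - 26), Fin (15 + (i : ℕ)) =>
      Quotient.mk (tySetoid r) (f p.1 p.2) := by
    rintro ⟨i, l⟩ ⟨i', l'⟩ e
    have e : Eqv r (f i l) (f i' l') := Quotient.exact e
    obtain rfl : i = i' := by
      apply Fin.ext
      by_contra ne
      rcases Nat.lt_or_gt_of_ne ne with k | k
      · exact (f1 i' l').2 (sm_mono (sm_eqv e (f1 i l).1) (by omega) le_rfl)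
      · exact (f1 i l).2 (sm_mono (sm_eqv e.symm (f1 i' l').1) (by omega) le_rfl)
    rw [f2 i l l' e]
  have le := Nat.card_le_card_of_injective _ inj
  rw [Nat.card_sigma] at le
  simp only [Nat.card_eq_fintype_card, Fintype.card_fin] at le
  have g := gauss (n - 26)
  generalize ∑ i : Fin (n - 26), (15 + (i : ℕ)) = S at le g
  obtain ⟨q, rfl⟩ : ∃ q, n = q + 26 := ⟨n - 26, by omega⟩
  rw [Nat.add_sub_cancel] at g
  unfold nty at hk
  nlinarith

theorem loc (h : PS n r φ) (hn : 83 ≤ n) (hk : 2 * nty r + 23 * n + 79 ≤ n ^ 2) :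
    Loc n r 11 (11 + 43) := by
  intro x
  have ind : ∀ t, t ≤ 46 → Sm r 1 (9 + t - 1) x ∨
      ∃ g, (∀ c, 1 ≤ c → c < g → c < 11 + 43 → Eqv r (r c x) (r 1 x)) ∧
        ∀ c, g + 4 ≤ c → 11 ≤ c → c + 2 ≤ n → Eqv r (r c x) (r (n - 2) x) := by
    intro t
    induction t with
    | zero =>
      intro _
      rcases twoact h hn hk x (j := 9) le_rfl (by omega) with ha | ha
      · exact Or.inl ha
      · refine Or.inr ⟨0, fun c _ hc _ => absurd hc (by omega), fun c _ hc hc' => ?_⟩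
        exact ha c ⟨hc, by omega⟩ (n - 2) ⟨by omega, by omega⟩
    | succ t ih =>
      intro ht
      rcases ih (by omega) with hL | hE
      · rcases twoact h hn hk x (j := 9 + (t + 1)) (by omega) (by omega) with ha | ha
        · exact Or.inl ha
        · refine Or.inr ⟨9 + t - 1, fun c h1 hc _ => ?_, fun c hc _ hc' => ?_⟩
          · exact hL c ⟨h1, hc⟩ 1 ⟨le_rfl, by omega⟩
          · exact ha c ⟨by omega, by omega⟩ (n - 2) ⟨by omega, by omega⟩
      · exact Or.inr hE
  rcases ind 46 le_rfl with hL | hE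
  · refine ⟨n, fun c h1 _ hc => ?_, fun c hc _ hc' => absurd hc (by omega)⟩
    exact hL c ⟨h1, by omega⟩ 1 ⟨le_rfl, by omega⟩
  · exact hE

end Pool.Agent.FlagOrb.Q.Half
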