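import Pool.Agent.Lib.MP_7157e1_co.QBlue

/-! Quadratic range: counting the types from the two sides of the central edges. -/

namespace Pool.Agent.FlagOrb.Q

open Equiv Set

namespace CNT

variable {F L : Type} [Lattice L] {n : ℕ} {r : ℕ → Perm F} {φ : ℕ → F → L}
  {i : ℕ} {T : F → Prop} {J : F → F} {w β : F → ℕ} {N : F → Prop} {Y : F → ℕ → F}

/-- same type, on the flags of `T` -/
def st (r : ℕ → Perm F) (T : F → Prop) : Setoid {x // T x} :=
  ⟨fun a b => Eqv r a.1 b.1, fun a => Eqv.refl a.1, Eqv.symm, Eqv.trans⟩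

/-- the ends -/
def En (r : ℕ → Perm F) (T : F → Prop) : Type := Quotient (st r T)

/-- the end of a flag -/
def mk (r : ℕ → Perm F) {T : F → Prop} (x : F) (hx : T x) : En r T := Quotient.mk (st r T) ⟨x, hx⟩

lemma mk_eq {x y : F} {hx : T x} {hy : T y} : mk r x hx = mk r y hy ↔ Eqv r x y :=
  ⟨fun e => Quotient.exact e, fun e => Quotient.sound e⟩

lemma ex_mk (e : En r T) : ∃ x hx, mk r x hx = e := by
  obtain ⟨⟨x, hx⟩, rfl⟩ := Quotient.exists_rep e
  exact ⟨x, hx, rfl⟩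

lemma fin_en [Finite F] : Finite (En r T) := Quotient.finite (st r T)

lemma tr (H : Two n r i T J w β N Y) {x y : F} (hx : T x) (e : Eqv r x y) :
    Eqv r (J x) (J y) ∧ w x = w y ∧ β x = β y ∧ (N x ↔ N y) ∧ ∀ j, Eqv r (Y x j) (Y y j) := by
  obtain ⟨g, hg, rfl⟩ := e
  obtain ⟨-, h1, h2, h3, h4, h5⟩ := H.eqv g hg x hx
  exact ⟨⟨g, hg, h1.symm⟩, h2.symm, h3.symm, h4.symm, fun j => ⟨g, hg, (h5 j).symm⟩⟩

/-- the other end of the edge -/
def tauE (H : Two n r i T J w β N Y) : En r T → En r T :=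
  Quotient.lift (s := st r T) (fun a => mk r (r i a.1) (H.tau a.1 a.2).1)
    fun _ _ e => mk_eq.2 (Eqv.step e i)

/-- the other end on the same side -/
def jE (H : Two n r i T J w β N Y) : En r T → En r T :=
  Quotient.lift (s := st r T) (fun a => mk r (J a.1) (H.inv a.1 a.2).1)
    fun a _ e => mk_eq.2 (tr H a.2 e).1

/-- the weight of an end -/
def wE (H : Two n r i T J w β N Y) : En r T → ℕ :=
  Quotient.lift (s := st r T) (fun a => w a.1) fun a _ e => (tr H a.2 e).2.1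

/-- the position of an end -/
def bE (H : Two n r i T J w β N Y) : En r T → ℕ :=
  Quotient.lift (s := st r T) (fun a => β a.1) fun a _ e => (tr H a.2 e).2.2.1

/-- the ends with a new wall -/
def nE (H : Two n r i T J w β N Y) : En r T → Prop :=
  Quotient.lift (s := st r T) (fun a => N a.1) fun a _ e => propext (tr H a.2 e).2.2.2.1

lemma tauE_mk (H : Two n r i T J w β N Y) (x : F) (hx : T x) :
    tauE H (mk r x hx) = mk r (r i x) (H.tau x hx).1 := rfl

lemma jE_mk (H : Two n r i T J w β N Y) (x : F) (hx : T x) :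
    jE H (mk r x hx) = mk r (J x) (H.inv x hx).1 := rfl

lemma wE_mk (H : Two n r i T J w β N Y) (x : F) (hx : T x) : wE H (mk r x hx) = w x := rfl

lemma bE_mk (H : Two n r i T J w β N Y) (x : F) (hx : T x) : bE H (mk r x hx) = β x := rfl

lemma nE_mk (H : Two n r i T J w β N Y) (x : F) (hx : T x) : nE H (mk r x hx) = N x := rfl

/-- every flag has the type of a listed flag -/
lemma cover (h : PS n r φ) (H : Two n r i T J w β N Y) (P : En r T → Prop) (x0 : F) (h0 : T x0)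
    (hP : P (mk r x0 h0)) (hc : ∀ e, P e → P (tauE H e) ∧ P (jE H e)) (y : F) :
    ∃ x, ∃ hx : T x, ∃ j, P (mk r x hx) ∧ j ≤ w x ∧ Eqv r y (Y x j) := by
  refine Rch.ind (fun c _ => h.inv c)
    (P := fun y => ∃ x, ∃ hx : T x, ∃ j, P (mk r x hx) ∧ j ≤ w x ∧ Eqv r y (Y x j))
    ⟨x0, h0, 0, hP, Nat.zero_le _, Eqv.refl _⟩ ?_ (h.all (Y x0 0) y)
  rintro y c - - ⟨x, hx, j, hp, hj, e⟩
  obtain ⟨x', j', hx', hj', e'⟩ := H.cl x j c hx hj
  have e2 := (e.step c).trans e'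
  rcases hx' with rfl | rfl | rfl
  · exact ⟨_, hx, j', hp, hj', e2⟩
  · exact ⟨_, (H.inv x hx).1, j', (hc _ hp).2, hj', e2⟩
  · exact ⟨_, (H.tau x hx).1, j', (hc _ hp).1, hj', e2⟩

lemma trans_en (h : PS n r φ) (H : Two n r i T J w β N Y) (P : En r T → Prop) (h0 : ∃ e, P e)
    (hc : ∀ e, P e → P (tauE H e) ∧ P (jE H e)) (e : En r T) : P e := by
  obtain ⟨e0, hP⟩ := h0
  obtain ⟨x0, h0, rfl⟩ := ex_mk e0
  obtain ⟨x, hx, rfl⟩ := ex_mk e
  obtain ⟨x', hx', j, hp, hj, e⟩ := cover h H P x0 h0 hP hc (Y x 0)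
  have := (H.inj x x' 0 j hx hx' (Nat.zero_le _) hj e).2
  rwa [mk_eq.2 this]

lemma count (h : PS n r φ) (H : Two n r i T J w β N Y) [Fintype (En r T)] (x0 : F) (h0 : T x0) :
    nty r = ∑ e, (wE H e + 1) := by
  choose o ho hoe using fun e : En r T => ex_mk e
  have hw : ∀ e, wE H e = w (o e) := fun e => by rw [← wE_mk H (o e) (ho e), hoe]
  have hb : Function.Bijective fun p : (Σ e : En r T, Fin (wE H e + 1)) =>
      Quotient.mk (tySetoid r) (Y (o p.1) p.2) := by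
    constructor
    · rintro ⟨e, j, hj⟩ ⟨e', j', hj'⟩ hq
      have hq' : Eqv r (Y (o e) j) (Y (o e') j') := Quotient.exact hq
      obtain ⟨h1, h2⟩ := H.inj _ _ _ _ (ho e) (ho e') (by rw [← hw]; omega) (by rw [← hw]; omega) hq'
      have h3 : e = e' := by rw [← hoe e, ← hoe e']; exact mk_eq.2 h2
      subst h1 h3
      rfl
    · intro q
      obtain ⟨y, rfl⟩ := Quotient.exists_rep q
      obtain ⟨x, hx, j, -, hj, e⟩ := cover h H (fun _ => True) x0 h0 trivial
        (fun _ _ => ⟨trivial, trivial⟩) y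
      have h1 : Eqv r x (o (mk r x hx)) := mk_eq.1 (hoe (mk r x hx)).symm
      refine ⟨⟨mk r x hx, j, by rw [wE_mk]; omega⟩, Quotient.sound ?_⟩
      exact (e.trans ((tr H hx h1).2.2.2.2 j)).symm
  rw [nty, ← Nat.card_eq_of_bijective _ hb, Nat.card_eq_fintype_card, Fintype.card_sigma]
  simp only [Fintype.card_fin]

lemma sb_step (h : PS n r φ) (x : F) : SB n r i (r i x) = SB n r i x := by
  ext g
  simp only [SB, mem_ofPred_eq, h.rr]
  exact exists_congr fun c => and_congr_right fun _ => or_comm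

lemma nv_av {x y z : F} (hn : Nv n r i y z) : Av n r i x y z := by
  induction hn with
  | refl => exact Relation.ReflTransGen.refl
  | tail _ h0 ih =>
    obtain ⟨c, h1, h2, h3, h4⟩ := h0
    exact Relation.ReflTransGen.tail ih ⟨c, h1, h3, fun hc => h2 hc.1, h4⟩

lemma lift_ch (h : PS n r φ) (H : Two n r i T J w β N Y) (x : F) (hx : T x) (f : En r T)
    (hf : Ch (tauE H) (jE H) (nE H) (mk r x hx) f) :
    ∃ z, ∃ hz : T z, mk r z hz = f ∧ Av n r i (r i x) (r i x) z ∧ SB n r i z = SB n r i x := by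
  induction hf with
  | base => exact ⟨r i x, (H.tau x hx).1, rfl, Relation.ReflTransGen.refl, sb_step h x⟩
  | step f _ h1 h2 h3 ih =>
    obtain ⟨z, hz, rfl, ha, hs⟩ := ih
    have hj := H.inv z hz
    refine ⟨r i (J z), (H.tau _ hj.1).1, rfl, ?_, ?_⟩
    · refine Relation.ReflTransGen.tail (Relation.ReflTransGen.trans ha (nv_av hj.2.2.2))
        ⟨i, H.lt, (H.tau _ hj.1).2.1, ?_, rfl⟩
      rintro ⟨-, e | e⟩
      · exact h3 (mk_eq.2 e.symm)
      · rw [h.rr] at e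
        exact h2 (mk_eq.2 e.symm)
    · rw [sb_step h, H.old z hz h1, hs]

end CNT

open CNT in
theorem stCNT (hPP : St_PP) (hCYC : St_CYC) (hDIH : St_DIH) : St_CNT := by
  intro F L _ _ n r φ h i T J w β N Y H x0 h0
  have := fin_en (r := r) (T := T)
  have := Fintype.ofFinite (En r T)
  rw [count h H x0 h0]
  refine hDIH (En r T) (tauE H) (jE H) (nE H) (wE H) (bE H) (n - 1) ?_ ?_ ?_ (trans_en h H) ?_ ?_ ?_
    ?_ ?_ ?_
  · intro e
    obtain ⟨x, hx, rfl⟩ := ex_mk e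
    refine mk_eq.2 ?_
    rw [h.rr]
    exact Eqv.refl x
  · intro e
    obtain ⟨x, hx, rfl⟩ := ex_mk e
    refine mk_eq.2 ?_
    rw [(H.inv x hx).2.1]
    exact Eqv.refl x
  · intro e he
    obtain ⟨x, hx, rfl⟩ := ex_mk e
    exact (H.tau x hx).2.1 (mk_eq.1 he).symm
  · obtain ⟨y, hy, e⟩ := hCYC h i T J w β N Y H x0 h0
    refine ⟨mk r y hy, mk_eq.2 ?_⟩
    rw [e]
    exact Eqv.refl y
  · intro e
    obtain ⟨x, hx, rfl⟩ := ex_mk e
    exact (H.inv x hx).2.2.1
  · intro e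
    obtain ⟨x, hx, rfl⟩ := ex_mk e
    have := (H.tau x hx).2.2
    rw [tauE_mk, bE_mk, bE_mk]
    omega
  · intro e he
    obtain ⟨x, hx, rfl⟩ := ex_mk e
    rcases H.wt x hx with h1 | h1
    · exact h1.2
    · exact absurd (mk_eq.1 he).symm h1.1
  · intro e he
    obtain ⟨x, hx, rfl⟩ := ex_mk e
    rcases H.wt x hx with h1 | h1
    · refine absurd (mk_eq.2 ?_) he
      rw [h1.1]
      exact Eqv.refl x
    · exact h1.2
  · intro e f he hf hn
    obtain ⟨x, hx, rfl⟩ := ex_mk e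
    obtain ⟨z, hz, rfl, ha, hs⟩ := lift_ch h H x hx f hf
    obtain ⟨y, c, h1, h2, h3, h4⟩ := H.new x hx he
    obtain ⟨y', c', k1, k2, k3, k4⟩ := H.new z hz hn
    refine hPP h i x H.lt (H.tau x hx).2.1 (H.cut x hx) ⟨y, c, nv_av h1, h2, h3, h4⟩
      ⟨y', c', Relation.ReflTransGen.trans ha (nv_av k1), k2, k3, ?_⟩
    rwa [sb_step h, ← hs]

end Pool.Agent.FlagOrb.Q
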