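import Pool.Agent.Lib.MP_7157e1_co.QBlue

/-! The translates of a central edge separate the flags. -/

namespace Pool.Agent.FlagOrb.Q

open Equiv Set

namespace COC

variable {F L : Type} [Lattice L] {n : ℕ} {r : ℕ → Perm F} {φ : ℕ → F → L} {i : ℕ} {x : F}

lemma aut {g : Perm F} (hg : g ∈ Subgroup.closure (SB n r i x)) : g ∈ Aut r := by
  refine (Subgroup.closure_le (Aut r)).2 ?_ hg
  rintro _ ⟨c, -, ⟨-, rfl⟩ | ⟨-, rfl⟩⟩ <;> exact rf_aut _ _

lemma sb_flip (h : PS n r φ) : SB n r i (r i x) = SB n r i x := by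
  ext g
  simp only [SB, mem_ofPred_eq, h.rr, or_comm]

lemma sig_flip (h : PS n r φ) : Sig n r i (r i x) = Sig n r i x := by
  ext y
  simp only [Sig, mem_ofPred_eq, sb_flip h, h.rr, or_comm]

lemma sig_step (h : PS n r φ) {y : F} (hy : y ∈ Sig n r i x) : r i y ∈ Sig n r i x := by
  obtain ⟨g, hg, rfl | rfl⟩ := hy
  · exact ⟨g, hg, Or.inr (Aut.app (aut hg) i x).symm⟩
  · exact ⟨g, hg, Or.inl (by rw [← Aut.app (aut hg), h.rr])⟩

lemma sig_iff (h : PS n r φ) {y : F} : r i y ∈ Sig n r i x ↔ y ∈ Sig n r i x :=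
  ⟨fun k => by simpa only [h.rr] using sig_step h k, sig_step h⟩

lemma sig_eqv {y : F} (hy : y ∈ Sig n r i x) : Eqv r x y ∨ Eqv r (r i x) y := by
  obtain ⟨g, hg, rfl | rfl⟩ := hy
  exacts [Or.inl ⟨g, aut hg, rfl⟩, Or.inr ⟨g, aut hg, rfl⟩]

/-- a potential on the residues of the colours `i` and `c` -/
lemma pot (h : PS n r φ) (hi : ¬ Wl r x i) {c : ℕ} (hc : c < n) (hw : Wl r x c) :
    ∃ g : F → Prop, (∀ z, g (r c z) ↔ g z) ∧ ∀ z, g (r i z) ↔ (g z ↔ z ∉ Sig n r i x) := by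
  let g : F → Prop := fun z => ∃ k ∈ Subgroup.closure (SB n r i x), z = k x
  have g1 : ∀ z, g z → g (r c z) := by
    rintro _ ⟨k, hk, rfl⟩
    exact ⟨k * rf r x c, mul_mem hk (Subgroup.subset_closure ⟨c, hc, Or.inl ⟨hw, rfl⟩⟩), by
      rw [Perm.mul_apply, rf_app hw, Aut.app (aut hk)]⟩
  have g2 : ∀ z, g z → z ∈ Sig n r i x := fun z ⟨k, hk, e⟩ => ⟨k, hk, Or.inl e⟩
  have g3 : ∀ z, g z → ¬ g (r i z) := by
    rintro _ ⟨k, hk, rfl⟩ ⟨k', hk', e⟩
    rw [← Aut.app (aut hk)] at e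
    exact hi (Eqv.trans ⟨k', aut hk', e.symm⟩ (Eqv.symm ⟨k, aut hk, rfl⟩))
  have g4 : ∀ z ∈ Sig n r i x, ¬ g z → g (r i z) := by
    rintro z ⟨k, hk, rfl | rfl⟩ hn
    · exact absurd ⟨k, hk, rfl⟩ hn
    · exact ⟨k, hk, by rw [← Aut.app (aut hk), h.rr]⟩
  refine ⟨g, fun z => ⟨fun k => by simpa only [h.rr] using g1 _ k, g1 z⟩, fun z => ?_⟩
  exact (show ∀ a b s : Prop, (a → s) → (a → ¬ b) → (s → ¬ a → b) → (b → s) → (b ↔ (a ↔ ¬ s))
    from fun _ _ _ _ _ _ _ => by tauto) _ _ _ (g2 z) (g3 z) (g4 z)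
    fun k => (sig_iff h).1 (g2 (r i z) k)

theorem cut (h : PS n r φ) (hn : i < n) (hi : ¬ Wl r x i)
    (hw : ∀ c < n, c ≠ i → Wl r x c ∨ Wl r (r i x) c) : Cut n r i x := by
  let e : ℕ → F → Prop := fun c y => ¬ (c = i ∧ y ∈ Sig n r i x)
  have ee : ∀ c y, e c (r c y) ↔ e c y := fun c y =>
    not_congr (and_congr_right fun k => by rw [k, sig_iff h])
  have inv : ∀ c, Function.Involutive fun y : F × Prop => (r c y.1, y.2 ↔ e c y.1) := by
    rintro c ⟨y, s⟩
    refine Prod.ext (h.rr c y) (propext ?_)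
    have := ee c y
    dsimp only
    tauto
  let R : ℕ → Perm (F × Prop) := fun c => (inv c).toPerm
  have hR : ∀ c, R c * R c = 1 := fun c => by ext1 y; exact inv c y
  have pots : ∀ c < n, ∃ g : F → Prop, (∀ z, g (r c z) ↔ (g z ↔ e c z)) ∧
      ∀ z, g (r i z) ↔ (g z ↔ e i z) := by
    intro c hc
    have key : ∀ c < n, c ≠ i → ∃ g : F → Prop, (∀ z, g (r c z) ↔ g z) ∧
        ∀ z, g (r i z) ↔ (g z ↔ z ∉ Sig n r i x) := fun c hc ci =>
      (hw c hc ci).elim (pot h hi hc) fun k => by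
        rw [← sig_flip h]
        exact pot h (by rwa [h.wl_step]) hc k
    by_cases ci : c = i
    · subst ci
      let g : F → Prop := fun z => z ∈ Sig n r c x ∧ Eqv r x z
      have : ∀ z, g (r c z) ↔ (g z ↔ e c z) := fun z => by
        have a1 := sig_iff h (i := c) (x := x) (y := z)
        have a2 := sig_eqv (n := n) (r := r) (i := c) (x := x) (y := z)
        have a3 : Eqv r x z → ¬ Eqv r x (r c z) := fun k k' =>
          hi (k'.trans (k.step c).symm)
        have a4 : Eqv r (r c x) z → Eqv r x (r c z) := fun k => by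
          simpa only [h.rr] using k.step c
        simp only [g, e, true_and]
        tauto
      exact ⟨g, this, this⟩
    · obtain ⟨g, g1, g2⟩ := key c hc ci
      exact ⟨g, fun z => by simp only [e, ci, false_and, not_false_iff, iff_true, g1],
        fun z => by simp only [e, true_and, g2]⟩
  have rel : ∀ c ∈ Ico 0 n, ∀ c' ∈ Ico 0 n, ∀ (y : F × Prop) (m : ℕ),
      ((r c * r c') ^ m) y.1 = y.1 → ((R c * R c') ^ m) y = y := by
    intro c hc c' hc' y m hm
    obtain ⟨g, g1, g2⟩ : ∃ g : F → Prop, (∀ z, g (r c z) ↔ (g z ↔ e c z)) ∧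
        ∀ z, g (r c' z) ↔ (g z ↔ e c' z) := by
      by_cases k : c = i
      · obtain ⟨g, g1, g2⟩ := pots c' hc'.2
        exact ⟨g, k ▸ g2, g1⟩
      by_cases k' : c' = i
      · obtain ⟨g, g1, g2⟩ := pots c hc.2
        exact ⟨g, g1, k' ▸ g2⟩
      exact ⟨fun _ => True, fun z => by simp [e, k], fun z => by simp [e, k']⟩
    have st : ∀ d, (∀ z, g (r d z) ↔ (g z ↔ e d z)) → ∀ z : F × Prop,
        ((R d z).2 ↔ g (R d z).1) ↔ (z.2 ↔ g z.1) := fun d gd z => by
      change ((z.2 ↔ e d z.1) ↔ g (r d z.1)) ↔ _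
      rw [gd]
      tauto
    have key : ∀ m, ((((R c * R c') ^ m) y).2 ↔ g (((R c * R c') ^ m) y).1) ↔ (y.2 ↔ g y.1) := by
      intro m
      induction m with
      | zero => exact Iff.rfl
      | succ m ih => rw [pow_succ', Perm.mul_apply, Perm.mul_apply, st c g1, st c' g2, ih]
    have e1 : (((R c * R c') ^ m) y).1 = y.1 :=
      (pow_equiv (pr := Prod.fst) (fun _ => rfl) (fun _ => rfl) m y).trans hm
    refine Prod.ext e1 (propext ?_)
    have := key m
    rw [e1] at this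
    tauto
  have uniq : ∀ y s s', Rch R (Ico 0 n) (x, True) (y, s) → Rch R (Ico 0 n) (x, True) (y, s') →
      (s ↔ s') := fun y s s' a b => Iff.of_eq (congrArg Prod.snd
    (h.sc 0 n le_rfl _ R Prod.fst (fun c _ => hR c) (fun _ _ _ => rfl) rel _ _ (a.symm.trans b) rfl))
  have ex : ∀ y, ∃ s, Rch R (Ico 0 n) (x, True) (y, s) := fun y =>
    (h.all x y).ind (fun c _ => h.inv c) (P := fun y => ∃ s, Rch R (Ico 0 n) (x, True) (y, s))
      ⟨True, Rch.refl _⟩ fun y c hc _ ⟨s, hs⟩ => ⟨_, hs.next hc⟩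
  choose f hf using ex
  refine ⟨f, fun y c => ?_⟩
  by_cases hc : c < n
  · have := uniq _ _ _ (hf (r c y)) ((hf y).next ⟨Nat.zero_le c, hc⟩)
    change _ ↔ e c y
    tauto
  · rw [h.triv c (by omega)]
    exact ⟨fun _ k => by omega, fun _ => Iff.rfl⟩

end COC

theorem stCOC : St_COC := by
  intro F L _ _ n r φ h H D i x h4 hn hp
  refine COC.cut h (by omega) (hp.2.2.2.1 (by omega)) fun c hc ci => ?_
  by_cases k : c + 1 = i
  · exact Or.inr ((H.up x i hp (by omega)).2.2.1 c (by omega) (by omega) (by omega) (by omega))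
  left
  rcases Nat.eq_zero_or_pos c with rfl | c0
  · exact (D x i hp).1
  by_cases k' : c = n - 1
  · exact k' ▸ (D x i hp).2
  · exact hp.2.2.1 c c0 (by omega) ci k

end Pool.Agent.FlagOrb.Q
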