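import Pool.Agent.Lib.MP_7157e1_co.Q_PP

/-! The chain of legs does not close up. -/

namespace Pool.Agent.FlagOrb.Q

open Equiv Set

theorem stCYC (hPAR : St_PAR) : St_CYC := by
  intro F L _ _ n r φ h i T J w β N Y H x hx
  by_contra hcon
  push Not at hcon
  obtain ⟨f, hf⟩ := H.cut x hx
  have hi := (H.tau x hx).2.1
  have i1 : Function.Involutive fun y : {y // T y} => (⟨r i y.1, (H.tau _ y.2).1⟩ : {y // T y}) :=
    fun y => Subtype.ext (h.rr i y.1)
  have i2 : Function.Involutive fun y : {y // T y} => (⟨J y.1, (H.inv _ y.2).1⟩ : {y // T y}) :=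
    fun y => Subtype.ext (H.inv _ y.2).2.1
  let a : Perm {y // T y} := i1.toPerm
  let b : Perm {y // T y} := i2.toPerm
  have aa : a * a = 1 := by ext1 y; exact i1 y
  have bb : b * b = 1 := by ext1 y; exact i2 y
  have fa : ∀ y, a y ≠ y := fun y e => h.fpf H.lt y.1 (congrArg Subtype.val e)
  have fb : ∀ y, b y ≠ y := fun y e => hcon y.1 y.2 (congrArg Subtype.val e)
  let x0 : {y // T y} := ⟨x, hx⟩
  have nv : ∀ u v, Nv n r i u v → (f v ↔ f u) ∧ (InD r 0 n x u → InD r 0 n x v) := by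
    intro u v huv
    induction huv with
    | refl => exact ⟨Iff.rfl, id⟩
    | tail _ k ih =>
      obtain ⟨d, hd, di, hw, rfl⟩ := k
      exact ⟨((hf _ d).2 fun q => di q.1).trans ih.1,
        fun q => (ih.2 q).next ⟨Nat.zero_le d, hd⟩ hw⟩
  have st : ∀ j, (((a * b) ^ (j + 1)) x0).1 = r i (J (((a * b) ^ j) x0).1) := fun j => by
    rw [pow_succ']; rfl
  have D : ∀ j, InD r 0 n x (((a * b) ^ j) x0).1 := by
    intro j
    induction j with
    | zero => exact InD.refl x
    | succ j ih =>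
      rw [st]
      exact ((nv _ _ (H.inv _ (((a * b) ^ j) x0).2).2.2.2).2 ih).next ⟨Nat.zero_le i, H.lt⟩
        (H.tau _ (H.inv _ (((a * b) ^ j) x0).2).1).2.1
  have par : ∀ z ∈ Sig n r i x, InD r 0 n x z → z = x ∨ z = r i x := by
    rintro z ⟨g, hg, rfl | rfl⟩ hz
    · rw [(hPAR h 0 n x le_rfl).2 g (Subgroup.closure_mono (PP.sb_sub H.lt hi) hg) x
        (InD.refl x) hz]
      exact Or.inl rfl
    · rw [(hPAR h 0 n x le_rfl).2 g (Subgroup.closure_mono (PP.sb_sub H.lt hi) hg) _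
        ((InD.refl x).next ⟨Nat.zero_le i, H.lt⟩ hi) hz]
      exact Or.inr rfl
  have key : ∀ j, (∀ l, 0 < l → l ≤ j → ((a * b) ^ l) x0 ≠ x0) →
      (f (((a * b) ^ j) x0).1 ↔ f x) := by
    intro j
    induction j with
    | zero => exact fun _ => Iff.rfl
    | succ j ih =>
      intro hl
      have q := nv _ _ (H.inv _ (((a * b) ^ j) x0).2).2.2.2
      rw [← ih fun l l1 l2 => hl l l1 (by omega), st, ← q.1, hf]
      rintro ⟨-, k⟩
      rcases par _ k (q.2 (D j)) with e | e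
      · exact pal (j + 1) a b aa bb fa fb x0 (Subtype.ext (by rw [st, e]; rfl))
      · exact hl (j + 1) (by omega) le_rfl (Subtype.ext (by rw [st, e, h.rr]))
  have ex : ∃ m, ((a * b) ^ (m + 1)) x0 = x0 := by
    have := orderOf_pos (a * b)
    exact ⟨orderOf (a * b) - 1, by
      rw [Nat.sub_add_cancel this, pow_orderOf_eq_one]; rfl⟩
  classical
  have h1 := Nat.find_spec ex
  have h2 := key (Nat.find ex) fun l l1 l2 e =>
    Nat.find_min ex (m := l - 1) (by omega) (by rwa [Nat.sub_add_cancel l1])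
  have q := nv _ _ (H.inv _ (((a * b) ^ Nat.find ex) x0).2).2.2.2
  have h3 := congrArg Subtype.val h1
  rw [st] at h3
  have h4 : J (((a * b) ^ Nat.find ex) x0).1 = r i x := by
    rw [← h.rr i (J _), h3]
  rw [h4, h2] at q
  exact (hf x i).1 q.1 ⟨rfl, 1, one_mem _, Or.inl rfl⟩

end Pool.Agent.FlagOrb.Q
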