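import Pool.Agent.Lib.MP_7157e1_co.QKit

/-! Quadratic range: the flags near a doubled low end of a leg. -/

namespace Pool.Agent.FlagOrb.Q

open Equiv Set

namespace DBL0

variable {F L : Type} [Lattice L] [Finite F] {n : ℕ} {r : ℕ → Perm F} {φ : ℕ → F → L}

/-- the walls along a leg that starts at position three -/
lemma path3 (h : PS n r φ) (hn : 20 ≤ n) (H : HH n r 3 (n - 3)) {x z : F}
    (hz : InD r 0 n x z) (hp : Ps n r z 3) :
    ∃ q, IsPath (Walls r 0 n x) q 6 ∧ q 0 = rf r z 1 ∧ q 1 = rf r (r 3 z) 2 ∧ q 2 = rf r z 4 ∧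
      q 3 = rf r z 5 :=
  ⟨_, h.leg_path H hp (by omega) (by omega) (by omega) hz (c := 1) (m := 6) (Or.inl le_rfl)
    (Or.inl (by omega)), lg_lo (by omega), lg_mid (a := 2), lg_hi (by omega), lg_hi (by omega)⟩

omit [Finite F] in
lemma keep (h : PS n r φ) {x z : F} (hx : Ps n r x 3) (hz : Rch r (Ico 0 3) x z) {c : ℕ}
    (c1 : 4 ≤ c) (c2 : c + 2 ≤ n) : Wl r z c ∧ rf r z c = rf r x c := by
  have w : Wl r x c := hx.wl (by omega) c2 (by omega) (by omega)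
  refine ⟨?_, h.rf_rch w hz fun c' hc' => by have := hc'.2; omega⟩
  refine hz.ind (fun c _ => h.inv c) (P := fun z => Wl r z c) w fun y c' hc' _ ih => ?_
  have := hc'.2
  exact (h.wl_far (by omega) (by omega)).2 ih

omit [Finite F] in
lemma ps3 (h : PS n r φ) (hn : 20 ≤ n) (H : HH n r 3 (n - 3)) {x z : F} (hx : Ps n r x 3)
    (hz : Rch r (Ico 0 3) x z) (hw : ¬ Wl r z 3) : Ps n r z 3 :=
  H.pos_up (by omega) (by omega) le_rfl (by omega) hw (keep h hx hz le_rfl (by omega)).1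

/-- the facts on the chamber of the colours below three -/
lemma cham (h : PS n r φ) (hn : 20 ≤ n) (H : HH n r 3 (n - 3)) {x : F} (hx : Ps n r x 3)
    (h0 : ¬ Wl r x 0) :
    Commute (rf r x 1) (rf r (r 0 x) 1) ∧ ∀ z, InD r 0 3 x z →
    (¬ Wl r z 3 → ¬ Wl r z 0 ∧ ¬ Wl r z 2 ∧ Wl r (r 2 z) 3 ∧
      ((rf r z 1 = rf r x 1 ∧ rf r (r 0 z) 1 = rf r (r 0 x) 1) ∨
        (rf r z 1 = rf r (r 0 x) 1 ∧ rf r (r 0 z) 1 = rf r x 1))) ∧
    (Wl r z 3 → ¬ Wl r z 2 → ¬ Wl r (r 2 z) 3) ∧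
    (Wl r z 3 → Wl r z 2 →
      (rf r z 2 = rf r x 1 ∨ rf r z 2 = rf r (r 0 x) 1) ∧ per r 2 z = 3) ∧
    ∀ c < 3, Wl r z c → Commute (rf r z c) (rf r x 1) ∧ Commute (rf r z c) (rf r (r 0 x) 1) := by
  classical
  obtain ⟨C, K⟩ := (h.wall (a := 0) (b := n) le_rfl x).1.exC
  have i0 : (0 : ℕ) ∈ Ico 0 3 := ⟨le_rfl, by omega⟩
  have i2 : (2 : ℕ) ∈ Ico 0 3 := ⟨by omega, by omega⟩
  have up : ∀ {z}, InD r 0 3 x z → InD r 0 n x z := fun hz => hz.mono le_rfl (by omega)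
  have mem : ∀ {z c}, InD r 0 n x z → c < n → Wl r z c → rf r z c ∈ Walls r 0 n x :=
    fun hz hc hw => wall_mem hz ⟨Nat.zero_le _, hc⟩ hw
  have m3 : ¬ Wl r x 3 := hx.mv (by omega)
  have d0 : InD r 0 3 x (r 0 x) := (InD.refl x).next i0 h0
  have hx' : Ps n r (r 0 x) 3 := ps3 h hn H hx d0.toRch (by rwa [h.wl_far (by omega) (by omega)])
  have w1 : ∀ {z}, Ps n r z 3 → Wl r z 1 := fun hz =>
    hz.wl le_rfl (by omega) (by omega) (by omega)
  have w2 : ∀ {z}, Ps n r z 3 → Wl r (r 3 z) 2 := fun hz =>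
    (H.up _ _ hz (by omega)).wl (by omega) (by omega) (by omega) (by omega)
  obtain ⟨q, hq, q0, q1, q2, q3⟩ := path3 h hn H (InD.refl x) hx
  obtain ⟨p, hp, p0, p1, p2, -⟩ := path3 h hn H (up d0) hx'
  have pq1 : p 1 = q 1 := by
    rw [p1, q1, ← h.capp (by omega), h.rf_step (w2 hx) (by omega) (by omega)]
  have pq2 : p 2 = q 2 := by rw [p2, q2, (keep h hx d0.toRch le_rfl (by omega)).2]
  rw [← q0, ← p0]
  have sA : q 0 ∈ Walls r 0 n x := hq.mem 0 (by omega)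
  have sA' : p 0 ∈ Walls r 0 n x := hp.mem 0 (by omega)
  have sB : q 1 ∈ Walls r 0 n x := hq.mem 1 (by omega)
  have sU : q 2 ∈ Walls r 0 n x := hq.mem 2 (by omega)
  have AA : q 0 ≠ p 0 := by
    rw [q0, p0]
    exact h.rf_step_ne (w1 hx) (w1 hx') (Or.inr ⟨rfl, by omega⟩)
  have AU : q 0 ≠ q 2 := fun e => by have := hq.inj _ (by omega) _ (by omega) e; omega
  have A'U : p 0 ≠ q 2 := fun e => by
    have := hp.inj _ (by omega) _ (by omega) (e.trans pq2.symm); omega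
  have BA : ¬ Commute (q 1) (q 0) := adj_symm (hq.adj 0 (by omega))
  have BA' : ¬ Commute (q 1) (p 0) := pq1 ▸ adj_symm (hp.adj 0 (by omega))
  have BU : ¬ Commute (q 1) (q 2) := hq.adj 1 (by omega)
  have dead : ∀ g ∈ Walls r 0 n x, g ≠ q 1 → Commute g (q 0) ∧ Commute g (p 0) := by
    intro g hg hn
    constructor
    · by_contra hc
      exact hn (K.dead hq sA' AA.symm A'U BA' hg (adj_symm hc))
    · by_contra hc
      exact hn ((K.dead hp sA AA (pq2 ▸ AU) (pq1 ▸ BA) hg (adj_symm hc)).trans pq1)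
  have dead' : ∀ g ∈ Walls r 0 n x, ∀ t, (t = q 0 ∨ t = p 0) → ¬ Commute g t → g = q 1 := by
    intro g hg t ht hc
    by_contra hn
    rcases ht with rfl | rfl
    exacts [hc (dead g hg hn).1, hc (dead g hg hn).2]
  have nbU : ∀ t ∈ Walls r 0 n x, ¬ Commute (q 2) t → t ≠ q 3 → t = q 1 := fun t ht hc hn =>
    (K.fork2 hq (j := 1) sA' AA.symm A'U BA' le_rfl (by omega) ht hc).resolve_right hn
  have nbB : ∀ t ∈ Walls r 0 n x, ¬ Commute (q 1) t → t ≠ q 2 → t = q 0 ∨ t = p 0 := by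
    intro t ht hc hn
    rcases K.val4 sB sA sA' sU ht BA BA' BU hc AA AU A'U with e | e | e
    exacts [Or.inl e, Or.inr e, absurd e hn]
  have k4 : ∀ {z}, InD r 0 3 x z → Wl r z 4 ∧ rf r z 4 = q 2 := fun hz =>
    q2 ▸ keep h hx hz.toRch le_rfl (by omega)
  have k5 : ∀ {z}, InD r 0 3 x z → Wl r z 5 ∧ rf r z 5 = q 3 := fun hz =>
    q3 ▸ keep h hx hz.toRch (by omega) (by omega)
  have wallB : ∀ {z}, InD r 0 3 x z → Wl r z 3 → rf r z 3 = q 1 := by
    intro z hz hw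
    refine nbU _ (mem (up hz) (by omega) hw) ?_ ?_
    · rw [← (k4 hz).2]
      exact adj_symm (h.rf_adj hw (k4 hz).1 (by omega))
    · rw [← (k5 hz).2]
      exact h.rf_ne hw (k5 hz).1 (by omega) (by omega)
  have X1 : ∀ {z}, InD r 0 3 x z → ¬ Wl r z 3 →
      rf r (r 3 z) 2 = q 1 ∧ (rf r z 1 = q 0 ∨ rf r z 1 = p 0) := by
    intro z hz hw
    have pz := ps3 h hn H hx hz.toRch hw
    obtain ⟨s, hs, s0, s1, s2, s3⟩ := path3 h hn H (up hz) pz
    have e2 : s 2 = q 2 := s2.trans (k4 hz).2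
    have e3 : s 3 = q 3 := s3.trans (k5 hz).2
    have e1 : s 1 = q 1 := nbU _ (hs.mem 1 (by omega)) (e2 ▸ adj_symm (hs.adj 1 (by omega)))
      fun e => by have := hs.inj _ (by omega) _ (by omega) (e.trans e3.symm); omega
    refine ⟨s1.symm.trans e1, s0 ▸ nbB _ (hs.mem 0 (by omega))
      (e1 ▸ adj_symm (hs.adj 0 (by omega))) fun e => ?_⟩
    have := hs.inj _ (by omega) _ (by omega) (e.trans e2.symm)
    omega
  have X2 : ∀ {z}, InD r 0 3 x z → ¬ Wl r z 3 → ¬ Wl r z 0 ∧ ¬ Wl r z 2 := by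
    intro z hz hw
    have pz := ps3 h hn H hx hz.toRch hw
    obtain ⟨e1, e2⟩ := X1 hz hw
    constructor
    · intro w0
      have := dead' _ (mem (up hz) (by omega) w0) _ e2 (h.rf_adj w0 (w1 pz) (by omega))
      rw [← e1, ← h.rf_step (c' := 3) w0 (by omega) (by omega)] at this
      exact h.rf_ne ((h.wl_far (by omega) (by omega)).2 w0) (w2 pz) (by omega) (by omega) this
    · intro w
      have := dead' _ (mem (up hz) (by omega) w) _ e2
        (adj_symm (h.rf_adj (w1 pz) w (by omega)))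
      exact h.rf_step_ne w (w2 pz) (Or.inl ⟨rfl, by omega⟩) (this.trans e1.symm)
  have X3 : ∀ {z}, InD r 0 3 x z → ¬ Wl r z 3 →
      Wl r (r 0 z) 1 ∧ ((rf r z 1 = q 0 ∧ rf r (r 0 z) 1 = p 0) ∨
        (rf r z 1 = p 0 ∧ rf r (r 0 z) 1 = q 0)) := by
    intro z hz hw
    have hz' := hz.next i0 (X2 hz hw).1
    have hw' : ¬ Wl r (r 0 z) 3 := by rwa [h.wl_far (by omega) (by omega)]
    have pz := ps3 h hn H hx hz.toRch hw
    have pz' := ps3 h hn H hx hz'.toRch hw'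
    have ne := h.rf_step_ne (c' := 0) (w1 pz) (w1 pz') (Or.inr ⟨rfl, by omega⟩)
    refine ⟨w1 pz', ?_⟩
    rcases (X1 hz hw).2 with e | e <;> rcases (X1 hz' hw').2 with e' | e'
    · exact absurd (e.trans e'.symm) ne
    · exact Or.inl ⟨e, e'⟩
    · exact Or.inr ⟨e, e'⟩
    · exact absurd (e.trans e'.symm) ne
  refine ⟨(dead _ sA' fun e => BA' (e ▸ Commute.refl _)).1.symm, fun z hz => ⟨fun hw => ?_,
    fun hw w hw' => ?_, fun hw w => ?_, fun c hc w => dead _ (mem (up hz) (by omega) w) ?_⟩⟩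
  · refine ⟨(X2 hz hw).1, (X2 hz hw).2, ?_, (X3 hz hw).2⟩
    by_contra hw'
    have hz' := hz.next i2 (X2 hz hw).2
    have pz := ps3 h hn H hx hz.toRch hw
    have pz' := ps3 h hn H hx hz'.toRch hw'
    have ne := h.rf_step_ne (c' := 2) (w1 pz) (w1 pz') (Or.inl ⟨rfl, by omega⟩)
    apply h.cross_ne (a := 0) (by omega) (w1 pz') (X3 hz hw).1
    rcases (X3 hz hw).2 with e | e <;> rcases (X1 hz' hw').2 with e' | e'
    · exact absurd (e.1.trans e'.symm) ne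
    · exact e'.trans e.2.symm
    · exact e'.trans e.2.symm
    · exact absurd (e.1.trans e'.symm) ne
  · exact h.rf_step_ne (c' := 2) hw hw' (Or.inr ⟨rfl, by omega⟩)
      ((wallB hz hw).trans (wallB (hz.next i2 w) hw').symm)
  · have e := wallB hz hw
    have k := nbB _ (mem (up hz) (by omega) w) (e ▸ adj_symm (h.rf_adj w hw (by omega)))
      ((k4 hz).2 ▸ h.rf_ne w (k4 hz).1 (by omega) (by omega))
    refine ⟨k, h.per_three w hw (by omega) ?_⟩
    rw [e, pow_swap (h.walls_sq sB) (h.rf_sq z 2), inv_eq_one]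
    rcases k with k | k <;> rw [k]
    · exact K.lab3 sB sA sA' sU BA BA' BU AA AU A'U
    · exact K.lab3 sB sA' sA sU BA' BA BU AA.symm A'U AU
  · by_cases hw : Wl r z 3
    · rw [← wallB hz hw]
      exact h.rf_ne w hw (by omega) (by omega)
    · obtain rfl : c = 1 := by
        have := X2 hz hw
        by_contra hn
        have : c = 0 ∨ c = 2 := by omega
        rcases this with rfl | rfl
        exacts [(X2 hz hw).1 w, (X2 hz hw).2 w]
      rcases (X1 hz hw).2 with e | e <;> rw [e]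
      exacts [(ne_of_adj BA).symm, (ne_of_adj BA').symm]

end DBL0

theorem stDBL0 : St_DBL0 := by
  intro F L _ _ n r φ h hn H x hx h0
  obtain ⟨k0, k⟩ := DBL0.cham h hn H hx h0
  refine ⟨k0, fun y hy => ?_⟩
  obtain ⟨γ, hγ, z, hz, rfl⟩ := h.decomp (a := 0) (b := 3) subset_rfl hy
  have ha := WallsI.aut subset_rfl hγ
  have hc : Commute γ (rf r x 1) ∧ Commute γ (rf r (r 0 x) 1) := by
    clear ha hy
    induction hγ using Subgroup.closure_induction with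
    | mem g hg =>
      obtain ⟨u, c, hu, hc, hw, rfl⟩ := hg
      exact (k u hu).2.2.2 c hc.2 hw
    | one => exact ⟨Commute.one_left _, Commute.one_left _⟩
    | mul g g' _ _ i1 i2 => exact ⟨i1.1.mul_left i2.1, i1.2.mul_left i2.2⟩
    | inv g _ i => exact ⟨i.1.inv_left, i.2.inv_left⟩
  have e : Eqv r z (γ z) := ⟨γ, ha, rfl⟩
  have wl : ∀ c, Wl r (γ z) c ↔ Wl r z c := fun c => (e.wl c).symm
  have wl2 : Wl r (r 2 (γ z)) 3 ↔ Wl r (r 2 z) 3 := ((e.step 2).wl 3).symm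
  have cj : ∀ {u c g}, Wl r u c → Commute γ g → rf r u c = g → rf r (γ u) c = g := by
    intro u c g w hg he
    rw [h.rf_conj w ha, he, hg.eq, mul_inv_cancel_right]
  obtain ⟨k1, k2, k3, -⟩ := k z hz
  simp only [wl, wl2]
  refine ⟨fun hw => ?_, k2, fun hw w => ⟨?_, (e.per_eq 2).symm.trans (k3 hw w).2⟩⟩
  · obtain ⟨a1, a2, a3, a4⟩ := k1 hw
    have pz := DBL0.ps3 h hn H hx hz.toRch hw
    have pz' := DBL0.ps3 h hn H hx (hz.toRch.next (c := 0) ⟨le_rfl, by omega⟩)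
      (by rwa [h.wl_far (by omega) (by omega)])
    have w : Wl r z 1 := pz.wl le_rfl (by omega) (by omega) (by omega)
    have w' : Wl r (r 0 z) 1 := pz'.wl le_rfl (by omega) (by omega) (by omega)
    refine ⟨pz.eqv e, a1, a2, a3, ?_⟩
    rw [← Aut.app ha]
    exact a4.imp (fun t => ⟨cj w hc.1 t.1, cj w' hc.2 t.2⟩) fun t => ⟨cj w hc.2 t.1, cj w' hc.1 t.2⟩
  · exact (k3 hw w).1.imp (cj w hc.1) (cj w hc.2)

end Pool.Agent.FlagOrb.Q
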