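import Pool.Agent.Lib.MP_7157e1_co.QKit

/-! Quadratic range: the geometry at a doubled low end of a leg. -/

namespace Pool.Agent.FlagOrb.Q

open Equiv Set

namespace DBL1

variable {F L : Type} [Lattice L] {n : ℕ} {r : ℕ → Perm F} {φ : ℕ → F → L}

/-- automorphisms act on vertices -/
lemma act (h : PS n r φ) (hn : 1 ≤ n) {g : Perm F} (hg : g ∈ Aut r) {x z : F}
    (e : φ 1 x = φ 1 z) : φ 1 (g x) = φ 1 (g z) := by
  have k : Rch r (Ico 1 n) x z := by
    refine h.conn 1 n x z hn le_rfl (fun i hi => ?_) fun i h1 h2 => ?_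
    · have : i = 0 ∨ i = 1 := by omega
      rcases this with rfl | rfl
      exacts [h.bot _ _, e]
    · obtain rfl : i = n + 1 := by omega
      exact h.top _ _
  exact (h.sameR (Aut.rch hg k) fun c hc => by have := hc.1; omega).symm

/-- the far vertex is not on the edge -/
lemma off (h : PS n r φ) (hn : 2 ≤ n) (z : F) : ¬ φ 1 (r 0 (r 1 (r 0 z))) ≤ φ 2 z := by
  intro e
  have e1 : φ 1 (r 0 (r 1 (r 0 z))) ≤ φ 2 (r 1 (r 0 z)) := by
    rw [← h.same 0 2 (r 1 (r 0 z)) (by omega)]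
    exact (h.lt 1 _ (by omega)).le
  rw [← h.same 0 2 z (by omega)] at e
  have e2 := le_inf e1 e
  rw [h.meet 1 (r 0 z) (by omega), ← h.same 1 1 (r 0 z) (by omega)] at e2
  have e3 := le_inf (le_refl _) e2
  rw [h.meet 0 (r 1 (r 0 z)) (by omega), h.bot _ (r 0 (r 1 (r 0 z)))] at e3
  exact absurd (h.lt 0 (r 0 (r 1 (r 0 z))) (by omega)) (not_lt_of_ge e3)

/-- opposite vertices of a square span it -/
lemma diag (h : PS n r φ) (hd : DI n r φ) (hn : 2 ≤ n) {z : F}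
    (h4 : r 0 (r 1 (r 0 (r 1 z))) = r 1 (r 0 (r 1 (r 0 z)))) :
    φ 1 z ⊔ φ 1 (r 0 (r 1 (r 0 z))) = φ 3 z := by
  have u : φ 1 (r 0 (r 1 (r 0 z))) ≤ φ 3 z := by
    rw [← h.same 0 3 z (by omega), ← h.same 1 3 (r 0 z) (by omega),
      ← h.same 0 3 (r 1 (r 0 z)) (by omega)]
    exact h.mono (by omega) (by omega) _
  rcases hd 1 z (φ 1 z ⊔ φ 1 (r 0 (r 1 (r 0 z)))) (by omega) le_sup_left
    (sup_le (h.mono (by omega) (by omega) z) u) with e | e | e | e
  · exact absurd ((le_sup_right.trans e.le).trans (h.lt 1 z (by omega)).le) (off h hn z)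
  · exact absurd (le_sup_right.trans e.le) (off h hn z)
  · refine absurd ?_ (off h hn (r 1 z))
    rw [h4, h.same 1 1 _ (by omega)]
    exact le_sup_right.trans e.le
  · exact e

/-- two flags of one polygon with the same wall of colour two share the edge -/
lemma two (h : PS n r φ) (hn : 3 ≤ n) {u v : F} (hr : Rch r (Ico 0 2) u v) (hu : Wl r u 2)
    (hv : Wl r v 2) (e : rf r u 2 = rf r v 2) : v = u ∨ v = r 0 u := by
  have k := Aut.rch (rf_aut (r := r) u 2) hr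
  rw [rf_app hu, e, rf_app hv] at k
  have hI : ∀ i, 3 ≤ i → ∀ c ∈ Ico 0 2, i ≠ c + 1 := fun i hi c hc => by have := hc.2; omega
  have e2 : φ 2 u = φ 2 v := by
    rw [← h.meet 2 u (by omega), ← h.meet 2 v (by omega), h.sameR hr (hI 3 le_rfl),
      h.sameR k (hI 3 le_rfl)]
  have k1 : Rch r (Ico 0 1) u v := by
    refine h.conn 0 1 u v (by omega) (by omega) (fun i hi => ?_) fun i h1 _ => ?_
    · obtain rfl : i = 0 := by omega
      exact h.bot _ _
    · by_cases h2 : i = 2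
      · rw [h2]; exact e2
      · exact (h.sameR hr (hI i (by omega))).symm
  refine k1.ind (fun c _ => h.inv c) (P := fun v => v = u ∨ v = r 0 u) (Or.inl rfl) ?_
  intro y c hc _ ih
  obtain rfl : c = 0 := by have := hc.2; omega
  rcases ih with rfl | rfl
  · exact Or.inr rfl
  · exact Or.inl (h.rr 0 u)

lemma far_app {z : F} (h : PS n r φ) (w : Wl r (r 0 z) 1) :
    rf r (r 0 z) 1 z = r 0 (r 1 (r 0 z)) := by
  rw [← rf_app w, Aut.app (rf_aut _ _), h.rr]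

lemma sq4 {z : F} (h : PS n r φ) (w : Wl r z 1) (w' : Wl r (r 0 z) 1)
    (hc : Commute (rf r z 1) (rf r (r 0 z) 1)) :
    r 0 (r 1 (r 0 (r 1 z))) = r 1 (r 0 (r 1 (r 0 z))) := by
  have := congrArg (fun g : Perm F => g z) hc.eq
  simpa only [Perm.mul_apply, far_app h w', rf_app w, Aut.app (rf_aut _ _)] using this

variable [Finite F]

/-- the flag behind the corner has a wall of colour two, the wall of colour one of `x` -/
lemma core (hD : St_DBL0) (h : PS n r φ) (hd : DI n r φ) (hn : 20 ≤ n) (H : HH n r 3 (n - 3))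
    {x : F} (hx : Ps n r x 3) (h0 : ¬ Wl r x 0) :
    Wl r (r 1 (r 2 x)) 2 ∧ rf r (r 1 (r 2 x)) 2 = rf r x 1 := by
  obtain ⟨hc, K⟩ := hD h hn H x hx h0
  have i0 : (0 : ℕ) ∈ Ico 0 3 := ⟨le_rfl, by omega⟩
  have i1 : (1 : ℕ) ∈ Ico 0 3 := ⟨by omega, by omega⟩
  have i2 : (2 : ℕ) ∈ Ico 0 3 := ⟨by omega, by omega⟩
  have w1 : ∀ {z}, Ps n r z 3 → Wl r z 1 := fun hz =>
    hz.wl le_rfl (by omega) (by omega) (by omega)
  have w1' : ∀ {z}, Rch r (Ico 0 3) x z → ¬ Wl r z 3 → Wl r (r 0 z) 1 := fun hz hw =>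
    w1 ((K _ (hz.next i0)).1 (by rwa [h.wl_far (by omega) (by omega)])).1
  have m3 : ¬ Wl r x 3 := hx.mv (by omega)
  have wx' := w1' (Rch.refl x) m3
  have mv : ∀ {z}, φ 1 x = φ 1 z → φ 1 (rf r (r 0 x) 1 z) = φ 1 (r 0 (r 1 (r 0 x))) := by
    intro z e
    rw [← act h (by omega) (rf_aut _ _) e, far_app h wx']
  have ne : φ 1 (r 0 (r 1 (r 0 x))) ≠ φ 1 x := fun e =>
    off h (by omega) x (e.le.trans (h.lt 1 x (by omega)).le)
  have rp : Rch r (Ico 0 3) x (r 1 (r 2 x)) := (Rch.step i2 x).next i1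
  have w3 : Wl r (r 1 (r 2 x)) 3 :=
    (h.wl_far (by omega) (by omega)).2 ((K x (Rch.refl x)).1 m3).2.2.2.1
  have v1 : φ 1 x = φ 1 (r 1 (r 2 x)) := by
    rw [h.same 1 1 _ (by omega), h.same 2 1 _ (by omega)]
  have v2 : φ 1 x = φ 1 (r 2 (r 1 (r 2 x))) := by rw [h.same 2 1 _ (by omega), ← v1]
  have w2 : Wl r (r 1 (r 2 x)) 2 := by
    by_contra hw
    have mz := (K _ rp).2.1 w3 hw
    have rz := rp.next i2
    obtain ⟨pz, -, -, -, e | e⟩ := (K _ rz).1 mz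
    · have d1 := diag h hd (by omega) (sq4 h (w1 hx) wx' hc)
      have d2 := diag h hd (by omega) (sq4 h (w1 pz) (w1' rz mz) (by rw [e.1, e.2]; exact hc))
      rw [← far_app h (w1' rz mz), e.2, mv v2, ← v2, d1] at d2
      apply h.ne_face (c := 1) (by omega) (r 2 x)
      rw [← h.meet 2 (r 1 (r 2 x)) (by omega), ← d2, h.same 1 3 _ (by omega), inf_comm,
        h.meet 2 x (by omega), h.same 2 2 _ (by omega)]
    · apply ne
      rw [← mv v2, ← e.1, rf_app (w1 pz), h.same 1 1 _ (by omega), ← v2]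
  refine ⟨w2, ((K _ rp).2.2 w3 w2).1.resolve_right fun e => ne ?_⟩
  rw [← mv v1, ← e, rf_app w2, ← v2]

end DBL1

theorem stDBL1 (hDBL0 : St_DBL0) : St_DBL1 := by
  intro F L _ _ n r φ h hd hn H x hx h0
  obtain ⟨-, K⟩ := hDBL0 h hn H x hx h0
  have i0 : (0 : ℕ) ∈ Ico 0 3 := ⟨le_rfl, by omega⟩
  have i1 : (1 : ℕ) ∈ Ico 0 3 := ⟨by omega, by omega⟩
  have i2 : (2 : ℕ) ∈ Ico 0 3 := ⟨by omega, by omega⟩
  have j0 : (0 : ℕ) ∈ Ico 0 2 := ⟨le_rfl, by omega⟩
  have j1 : (1 : ℕ) ∈ Ico 0 2 := ⟨by omega, by omega⟩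
  have w1 : ∀ {z}, Ps n r z 3 → Wl r z 1 := fun hz =>
    hz.wl le_rfl (by omega) (by omega) (by omega)
  have m3 : ¬ Wl r x 3 := hx.mv (by omega)
  have nx : ∀ {z}, Rch r (Ico 0 3) x z → ¬ Wl r z 3 → Ps n r (r 0 z) 3 ∧
      Wl r (r 1 (r 0 (r 2 z))) 2 ∧ rf r (r 1 (r 0 (r 2 z))) 2 = rf r (r 0 z) 1 := by
    intro z hz hw
    have k := (K _ (hz.next i0)).1 (by rwa [h.wl_far (by omega) (by omega)])
    rw [h.capp (c := 0) (c' := 2) le_rfl]
    exact ⟨k.1, DBL1.core hDBL0 h hd hn H k.1 k.2.1⟩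
  have wp : Wl r (r 2 x) 3 := ((K x (Rch.refl x)).1 m3).2.2.2.1
  have rp : Rch r (Ico 0 3) x (r 1 (r 2 x)) := (Rch.step i2 x).next i1
  have w3 : Wl r (r 1 (r 2 x)) 3 := (h.wl_far (by omega) (by omega)).2 wp
  obtain ⟨w2, e2⟩ := DBL1.core hDBL0 h hd hn H hx h0
  obtain ⟨px, wc, ec⟩ := nx (Rch.refl x) m3
  have wa : Wl r (r 0 (r 1 (r 2 x))) 2 := (h.wl_far (by omega) (by omega)).2 w2
  have ea : rf r (r 0 (r 1 (r 2 x))) 2 = rf r x 1 := by
    rw [h.rf_step w2 (by omega) (by omega), e2]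
  have rw' : Rch r (Ico 0 3) x (r 1 (r 0 (r 1 (r 2 x)))) := (rp.next i0).next i1
  have ww : Wl r (r 1 (r 0 (r 1 (r 2 x)))) 3 :=
    (h.wl_far (by omega) (by omega)).2 ((h.wl_far (by omega) (by omega)).2 w3)
  have rc : Rch r (Ico 0 2) (r 1 (r 0 (r 2 x))) (r 1 (r 0 (r 1 (r 2 x)))) :=
    ((Rch.step j0 (r 2 x)).next j1).symm.trans (((Rch.step j1 (r 2 x)).next j0).next j1)
  refine ⟨wp, w2, (h.hex' (l := 1) (by omega) (w1 hx) w2).2 e2.symm,
    ((K _ rp).2.2 w3 w2).2, ?_⟩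
  by_cases hw : Wl r (r 1 (r 0 (r 1 (r 2 x)))) 2
  · left
    have e := ((K _ rw').2.2 ww hw).1.resolve_left fun e =>
      h.rf_step_ne (c' := 1) wa hw (Or.inr ⟨rfl, by omega⟩) (ea.trans e.symm)
    rcases DBL1.two h (by omega) rc wc hw (ec.trans e.symm) with t | t
    · exact absurd ((r 0).injective ((r 1).injective t)) (h.fpf (by omega) _)
    · exact h.per_of_braid (l := 0) (by omega) t.symm
  · right
    have my := (K _ rw').2.1 ww hw
    have ry := rw'.next i2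
    obtain ⟨py, y0, -, -, ey⟩ := (K _ ry).1 my
    refine ⟨?_, py, y0⟩
    have c1 := (DBL1.core hDBL0 h hd hn H py y0).2
    obtain ⟨-, wb, eb⟩ := nx ry my
    rw [h.rr] at wb eb
    rw [h.rr, h.rr, ea] at c1
    have AA : rf r x 1 ≠ rf r (r 0 x) 1 :=
      h.rf_step_ne (w1 hx) (w1 px) (Or.inr ⟨rfl, by omega⟩)
    have e := (ey.resolve_right fun t => AA (c1.trans t.1)).2
    rcases DBL1.two h (by omega) ((rc.next j0).next j1) wc wb (ec.trans (eb.trans e).symm)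
      with t | t
    · have t1 := congrArg (r 1) ((r 0).injective ((r 1).injective t))
      rw [h.rr] at t1
      exact absurd t1 (h.fpf (by omega) _)
    · have h1 : per r 0 (r 2 x) ∣ 4 := by
        rw [per_dvd, show 4 = 1 + 1 + 1 + 1 from rfl]
        simp only [pow_succ, pow_zero, one_mul, Perm.mul_apply, zero_add]
        rw [t]
        simp only [h.rr]
      have h2 := h.per_ge (l := 0) (by omega) (r 2 x)
      have h3 := Nat.le_of_dvd (by norm_num) h1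
      have : per r 0 (r 2 x) = 3 ∨ per r 0 (r 2 x) = 4 := by omega
      rcases this with t3 | t3
      · rw [t3] at h1
        exact absurd h1 (by decide)
      · exact t3

end Pool.Agent.FlagOrb.Q
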