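import Pool.Agent.Lib.MP_7157e1_co.QKit

/-! Quadratic range: a flag on a full leg has a wall of colour zero. -/

namespace Pool.Agent.FlagOrb.Q

open Equiv Set

set_option linter.unusedSectionVars false

namespace DBL2

variable {F : Type}

/-- doubled end of a leg -/
def X (n : ℕ) (r : ℕ → Perm F) (y : F) : Prop := Ps n r y 3 ∧ ¬ Wl r y 0

/-- upper flags -/
def U (n : ℕ) (r : ℕ → Perm F) (y : F) : Prop :=
  ¬ Wl r y 0 ∧ Wl r y 1 ∧ Wl r (r 0 y) 1 ∧ (Wl r y 2 ∨ Ps n r y 3)

/-- the relation used for typing -/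
def E (n : ℕ) (r : ℕ → Perm F) (y y' : F) : Prop :=
  ((U n r y ∨ X n r (r 2 y)) ∧ Eqv r (r 0 y) y') ∨
    (X n r (r 2 (r 1 y)) ∧ Eqv r (r 1 (r 0 (r 1 y))) y') ∨
    (X n r (r 2 (r 1 (r 0 y))) ∧ per r 0 y = 3 ∧ Eqv r (r 1 y) y')

variable {n : ℕ} {r : ℕ → Perm F} {x y z y' : F}

lemma X.eqv (hx : X n r x) (e : Eqv r x y) : X n r y :=
  ⟨hx.1.eqv e, fun k => hx.2 (k.eqv e.symm)⟩

lemma U.eqv (hx : U n r x) (e : Eqv r x y) : U n r y :=
  ⟨fun k => hx.1 (k.eqv e.symm), hx.2.1.eqv e, hx.2.2.1.eqv (e.step 0),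
    hx.2.2.2.imp (fun k => k.eqv e) fun k => k.eqv e⟩

lemma E.eqv (hx : E n r x y) (e : Eqv r x z) (e' : Eqv r y y') : E n r z y' := by
  rcases hx with ⟨k, q⟩ | ⟨k, q⟩ | ⟨k, p, q⟩
  · exact Or.inl ⟨k.imp (fun k => k.eqv e) fun k => k.eqv (e.step 2),
      ((e.step 0).symm.trans q).trans e'⟩
  · exact Or.inr (Or.inl ⟨k.eqv ((e.step 1).step 2),
      ((((e.step 1).step 0).step 1).symm.trans q).trans e'⟩)
  · exact Or.inr (Or.inr ⟨k.eqv (((e.step 0).step 1).step 2), (e.per_eq 0) ▸ p,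
      ((e.step 1).symm.trans q).trans e'⟩)

/-- a colour that is a wall on both sides -/
lemma E.wall (hx : E n r x y) {c : ℕ} (w : Wl r x c) (q : Eqv r z y) (w' : Wl r z c) :
    E n r (r c x) (r c y) := hx.eqv w (w'.eqv q)

variable {L : Type} [Lattice L] [Finite F] {φ : ℕ → F → L}

section

variable (h : PS n r φ) (hn : 20 ≤ n) (H : HH n r 3 (n - 3))
include h hn H

omit [Finite F] in
lemma ps_far (hp : Ps n r x 3) {c : ℕ} (hc : c = 0 ∨ 4 ≤ c) : Ps n r (r c x) 3 := by
  by_cases k : c = 4 ∨ c = 5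
  · exact hp.eqv (hp.wl (by omega) (by omega) (by omega) (by omega))
  · refine H.pos_up (by omega) (by omega) le_rfl (by omega) ?_ ?_
    · rw [h.wl_far (by omega) (by omega)]
      exact hp.mv (by omega)
    · rw [h.wl_far (by omega) (by omega)]
      exact hp.wl (by omega) (by omega) (by omega) (by omega)

lemma X.zero (hx : X n r x) : X n r (r 0 x) :=
  ⟨ps_far h hn H hx.1 (Or.inl rfl), by rw [h.wl_step]; exact hx.2⟩

lemma X.far (hx : X n r x) {c : ℕ} (hc : 4 ≤ c) : X n r (r c x) :=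
  ⟨ps_far h hn H hx.1 (Or.inr hc), by rw [h.wl_far (by omega) (by omega)]; exact hx.2⟩

lemma X.toU (hx : X n r x) : U n r x :=
  ⟨hx.2, hx.1.wl le_rfl (by omega) (by omega) (by omega),
    (hx.zero h hn H).1.wl le_rfl (by omega) (by omega) (by omega), Or.inr hx.1⟩

lemma U.zero (hx : U n r x) : U n r (r 0 x) :=
  ⟨by rw [h.wl_step]; exact hx.1, hx.2.2.1, by rw [h.rr]; exact hx.2.1,
    hx.2.2.2.imp (fun k => by rw [h.wl_far (by omega) (by omega)]; exact k)
      fun k => ps_far h hn H k (Or.inl rfl)⟩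

lemma U.far (hx : U n r x) {c : ℕ} (hc : 3 ≤ c) : U n r (r c x) := by
  refine ⟨by rw [h.wl_far (by omega) (by omega)]; exact hx.1,
    by rw [h.wl_far (by omega) (by omega)]; exact hx.2.1,
    by rw [h.capp (by omega), h.wl_far (by omega) (by omega)]; exact hx.2.2.1, ?_⟩
  rcases hc.eq_or_lt with rfl | hc
  · by_cases w : Wl r x 3
    · exact (hx.eqv w).2.2.2
    · rcases H.pos_of (by omega) (by omega) le_rfl (by omega) w with k | k
      · exact Or.inl ((H.up x 3 k (by omega)).wl (by omega) (by omega) (by omega) (by omega))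
      · exact Or.inr (H.dn x 3 k le_rfl)
  · exact hx.2.2.2.imp (fun k => by rw [h.wl_far (by omega) (by omega)]; exact k)
      fun k => ps_far h hn H k (Or.inr hc)

omit H in
lemma per_walls (hx : U n r x) (w2 : Wl r x 2) (w3 : Wl r x 3) : per r 1 x = 3 := by
  classical
  obtain ⟨C, hC⟩ := (h.wall (a := 0) (b := n) le_rfl x).1.exC
  have d0 : InD r 0 n x x := InD.refl x
  have d1 : InD r 0 n x (r 0 x) := d0.next ⟨le_rfl, by omega⟩ hx.1
  have w2' : Wl r (r 0 x) 2 := by rw [h.wl_far (by omega) (by omega)]; exact w2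
  have w3' : Wl r (r 0 x) 3 := by rw [h.wl_far (by omega) (by omega)]; exact w3
  have e2 : rf r (r 0 x) 2 = rf r x 2 := h.rf_step w2 (by omega) (by omega)
  have e3 : rf r (r 0 x) 3 = rf r x 3 := h.rf_step w3 (by omega) (by omega)
  have := hC.lab3 (wall_mem d0 (c := 2) ⟨by omega, by omega⟩ w2)
    (wall_mem d0 (c := 1) ⟨by omega, by omega⟩ hx.2.1)
    (wall_mem d1 (c := 1) ⟨by omega, by omega⟩ hx.2.2.1)
    (wall_mem d0 (c := 3) ⟨by omega, by omega⟩ w3)
    (fun k => h.rf_adj hx.2.1 w2 (by omega) k.symm)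
    (fun k => h.rf_adj hx.2.2.1 w2' (by omega) (e2 ▸ k.symm))
    (h.rf_adj w2 w3 (by omega))
    (h.rf_step_ne hx.2.1 hx.2.2.1 (Or.inr ⟨rfl, by omega⟩))
    (h.rf_ne hx.2.1 w3 (by omega) (by omega))
    (e3 ▸ h.rf_ne hx.2.2.1 w3' (by omega) (by omega))
  refine h.per_three hx.2.1 w2 (by omega) ?_
  rw [pow_swap (h.rf_sq _ _) (h.rf_sq _ _), this, inv_one]

end

section

variable (h : PS n r φ) (hn : 20 ≤ n) (H : HH n r 3 (n - 3))
  (D : ∀ x, X n r x → Wl r (r 2 x) 3 ∧ Wl r (r 1 (r 2 x)) 2 ∧ per r 1 x = 3 ∧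
    per r 2 (r 1 (r 2 x)) = 3 ∧ (per r 0 (r 2 x) = 3 ∨ (per r 0 (r 2 x) = 4 ∧
      X n r (r 2 (r 1 (r 0 (r 1 (r 2 x))))))))
include h hn H D

lemma U.per1 (hx : U n r x) : per r 1 x = 3 := by
  by_cases k : Ps n r x 3
  · exact (D x ⟨k, hx.1⟩).2.2.1
  have w2 := hx.2.2.2.resolve_right k
  by_cases w : Wl r x 3
  · exact per_walls h hn hx w2 w
  have k4 := (H.pos_of (by omega) (by omega) le_rfl (by omega) w).resolve_left k
  have k5 := H.up x 4 k4 (by omega)
  rw [← h.per_step (c := 4) (by omega) (by omega)]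
  exact per_walls h hn (hx.far h hn H (by omega))
    (k5.wl (by omega) (by omega) (by omega) (by omega))
    (k5.wl (by omega) (by omega) (by omega) (by omega))

omit [Finite F] hn H in
/-- facts at a flag of the third kind -/
lemma ca (hx : X n r (r 2 (r 1 y))) : Wl r y 2 ∧ Wl r y 3 ∧ per r 1 y = 3 ∧ per r 2 y = 3 ∧
    (per r 0 y = 3 ∨ (per r 0 y = 4 ∧ X n r (r 2 (r 1 (r 0 y))))) := by
  obtain ⟨d1, d2, d3, d4, d5⟩ := D _ hx
  simp only [h.rr] at d1 d2 d4 d5
  rw [h.wl_far (by omega) (by omega)] at d1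
  rw [h.per_step (by omega) (by omega), h.per_step (by omega) (by omega)] at d3
  rw [h.per_step (by omega) (by omega)] at d5
  exact ⟨d2, d1, d3, d4, d5⟩

omit D in
lemma ca_flip (hx : X n r (r 2 (r 1 y))) : X n r (r 2 (r 1 (r 1 (r 0 (r 1 y))))) := by
  rw [h.rr, ← h.capp le_rfl]
  exact hx.zero h hn H

omit D in
lemma co_flip (hx : X n r (r 2 (r 1 (r 0 y)))) (p : per r 0 y = 3) :
    X n r (r 2 (r 1 (r 0 (r 1 y)))) := by
  have b := h.braid p
  simp only [zero_add] at b
  rw [← b, ← h.capp le_rfl]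
  exact hx.zero h hn H

lemma stable (c : ℕ) (hx : E n r y y') : E n r (r c y) (r c y') := by
  have hx0 := hx
  rcases hx with ⟨k | k, q⟩ | ⟨k, q⟩ | ⟨k, p, q⟩
  · obtain rfl | rfl | rfl | hc : c = 0 ∨ c = 1 ∨ c = 2 ∨ 3 ≤ c := by omega
    · exact Or.inl ⟨Or.inl (k.zero h hn H), q.step 0⟩
    · exact hx0.wall k.2.1 q k.2.2.1
    · rcases k.2.2.2 with w | w
      · exact hx0.wall w q (by rw [h.wl_far (by omega) (by omega)]; exact w)
      · exact Or.inl ⟨Or.inr (by rw [h.rr]; exact ⟨w, k.1⟩), by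
          rw [h.capp le_rfl]; exact q.step 2⟩
    · exact Or.inl ⟨Or.inl (k.far h hn H hc), by rw [h.capp (by omega)]; exact q.step c⟩
  · obtain rfl | rfl | rfl | rfl | hc : c = 0 ∨ c = 1 ∨ c = 2 ∨ c = 3 ∨ 4 ≤ c := by omega
    · exact Or.inl ⟨Or.inr (by rw [← h.capp le_rfl]; exact k.zero h hn H), q.step 0⟩
    · exact Or.inr (Or.inl ⟨by rw [h.rr]; exact k, by rw [h.rr]; exact q.step 1⟩)
    · exact Or.inl ⟨Or.inl (k.toU h hn H), by rw [h.capp le_rfl]; exact q.step 2⟩
    · have w := (D _ k).1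
      rw [h.rr] at w
      exact hx0.wall w q (by rw [h.wl_far (by omega) (by omega)]; exact w)
    · exact Or.inl ⟨Or.inr (by rw [h.capp hc]; exact k.far h hn H hc), by
        rw [h.capp (by omega)]; exact q.step c⟩
  · have c1 := ca h D k
    have c2 := ca h D (ca_flip h hn H k)
    obtain rfl | rfl | rfl | rfl | hc : c = 0 ∨ c = 1 ∨ c = 2 ∨ c = 3 ∨ 4 ≤ c := by omega
    · rcases c1.2.2.2.2 with p | ⟨p, k'⟩
      · have b := h.braid p
        simp only [zero_add] at b
        refine Or.inr (Or.inr ⟨by rw [h.rr]; exact k,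
          by rw [h.per_step (by omega) (by omega)]; exact p, ?_⟩)
        have := q.step 0
        rwa [← b, h.rr] at this
      · refine Or.inr (Or.inl ⟨k', ?_⟩)
        have b := per_dvd.1 (show per r 0 y ∣ 4 by rw [p])
        simp only [pow_succ, pow_zero, one_mul, Perm.mul_apply, zero_add] at b
        have b' := congrArg (fun z => r 1 (r 0 (r 1 (r 0 z)))) b
        simp only [h.rr] at b'
        rw [← b']
        exact q.step 0
    · exact Or.inl ⟨Or.inr k, by have := q.step 1; rwa [h.rr] at this⟩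
    · exact hx0.wall c1.1 q c2.1
    · exact hx0.wall c1.2.1 q c2.2.1
    · refine Or.inr (Or.inl ⟨?_, ?_⟩)
      · rw [h.capp (c := 1) (by omega), h.capp hc]
        exact k.far h hn H hc
      · rw [h.capp (c := 1) (c' := c) (by omega), h.capp (c := 0) (c' := c) (by omega),
          h.capp (c := 1) (c' := c) (by omega)]
        exact q.step c
  · have k' := co_flip h hn H k p
    have c1 := ca h D k
    have c2 := ca h D k'
    have f2 := fun z => h.wl_far (x := z) (c := 2) (c' := 0) (by omega) (by omega)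
    have f3 := fun z => h.wl_far (x := z) (c := 3) (c' := 0) (by omega) (by omega)
    rw [f2, f3] at c1 c2
    obtain rfl | rfl | rfl | rfl | hc : c = 0 ∨ c = 1 ∨ c = 2 ∨ c = 3 ∨ 4 ≤ c := by omega
    · have b := h.braid p
      simp only [zero_add] at b
      refine Or.inr (Or.inl ⟨k, ?_⟩)
      rw [b, h.rr]
      exact q.step 0
    · exact Or.inr (Or.inr ⟨k', by rw [h.per_step (by omega) (by omega)]; exact p, q.step 1⟩)
    · exact hx0.wall c1.1 q c2.1
    · exact hx0.wall c1.2.1 q c2.2.1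
    · refine Or.inr (Or.inr ⟨?_, by rw [h.per_step (by omega) (by omega)]; exact p, ?_⟩)
      · rw [h.capp (c := 0) (by omega), h.capp (c := 1) (by omega), h.capp hc]
        exact k.far h hn H hc
      · rw [h.capp (by omega)]
        exact q.step c

lemma periods (l : ℕ) (hx : E n r y y') : per r l y = per r l y' := by
  rcases hx with ⟨k, q⟩ | ⟨k, q⟩ | ⟨k, p, q⟩
  · rw [← q.per_eq l]
    by_cases e : l = 1
    · subst e
      rcases k with k | k
      · rw [k.per1 h hn H D, (k.zero h hn H).per1 h hn H D]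
      · have a := (D _ k).2.2.1
        have b := (D _ (k.zero h hn H)).2.2.1
        rw [h.capp le_rfl] at b
        rw [h.per_step (by omega) (by omega)] at a b
        rw [a, b]
    · rw [h.per_step (by omega) (by omega)]
  · rw [← q.per_eq l]
    have c1 := ca h D k
    have c2 := ca h D (ca_flip h hn H k)
    obtain rfl | rfl | e : l = 1 ∨ l = 2 ∨ (l ≠ 1 ∧ l ≠ 2) := by omega
    · rw [c1.2.2.1, c2.2.2.1]
    · rw [c1.2.2.2.1, c2.2.2.2.1]
    · rw [h.per_step (by omega) (by omega), h.per_step (by omega) (by omega),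
        h.per_step (by omega) (by omega)]
  · rw [← q.per_eq l]
    by_cases e : l = 2
    · subst e
      have c1 := (ca h D k).2.2.2.1
      have c2 := (ca h D (co_flip h hn H k p)).2.2.2.1
      rw [h.per_step (by omega) (by omega)] at c1 c2
      rw [c1, c2]
    · rw [h.per_step (by omega) (by omega)]

end

end DBL2

theorem stDBL2 (hDBL1 : St_DBL1) : St_DBL2 := by
  intro F L _ _ n r φ h hD hn H x i hp
  have D := fun x (k : DBL2.X n r x) => hDBL1 h hD hn H x k.1 k.2
  have h3 := hp.1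
  induction i, h3 using Nat.le_induction generalizing x with
  | base =>
    by_contra w
    exact w (h.typing (DBL2.E n r) (fun _ _ c => DBL2.stable h hn H D c)
      (fun _ _ l k _ => DBL2.periods h hn H D l k)
      (Or.inl ⟨Or.inl (DBL2.X.toU h hn H ⟨hp, w⟩), Eqv.refl _⟩))
  | succ i hi ih =>
    have := ih _ (H.dn x i hp hi)
    rwa [h.wl_far (by omega) (by omega)] at this

end Pool.Agent.FlagOrb.Q
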