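import Pool.Agent.Lib.MP_7157e1_co.QBlue

/-! Quadratic range, step DIH: counting along a path with two involutions. -/

namespace Pool.Agent.FlagOrb.Q

namespace DIH

variable {E : Type}

theorem ends {τ J : E → E} {N : E → Prop} (hτ : ∀ e, τ (τ e) = e) (hJ : ∀ e, J (J e) = e)
    (htr : ∀ P : E → Prop, (∃ e, P e) → (∀ e, P e → P (τ e) ∧ P (J e)) → ∀ e, P e)
    (hN : ∀ e, N (J e) ↔ N e) (hch : ∀ e f, N e → Ch τ J N e f → ¬ N f) (e : E) (he : N e)
    (f : E) (hf : N f) : f = e ∨ f = J e := by
  have A : ∀ u, N u → ∀ g, (Ch τ J N u g ∨ Ch τ J N u (J g)) →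
      τ g = u ∨ Ch τ J N u (τ g) ∨ Ch τ J N u (J (τ g)) := by
    intro u hu g hg
    rcases hg with hg | hg
    · cases hg with
      | base => exact Or.inl (hτ u)
      | step f' h1 _ _ _ =>
        right; right
        rw [hτ, hJ]; exact h1
    · have h2 := hch u _ hu hg
      by_cases h3 : g = u
      · right; left
        rw [h3]; exact Ch.base
      · by_cases h4 : g = τ u
        · left
          rw [h4, hτ]
        · right; left
          have := Ch.step (J g) hg h2 (by rw [hJ]; exact h3) (by rw [hJ]; exact h4)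
          rw [hJ] at this
          exact this
  have hJe : N (J e) := (hN e).2 he
  have B := htr (fun g => g = e ∨ g = J e ∨ (Ch τ J N e g ∨ Ch τ J N e (J g)) ∨
      (Ch τ J N (J e) g ∨ Ch τ J N (J e) (J g))) ⟨e, Or.inl rfl⟩ (by
    intro g hg
    constructor
    · rcases hg with hg | hg | hg | hg
      · right; right; left; left
        rw [hg]; exact Ch.base
      · right; right; right; left
        rw [hg]; exact Ch.base
      · rcases A e he g hg with h | h
        · exact Or.inl h
        · exact Or.inr (Or.inr (Or.inl h))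
      · rcases A (J e) hJe g hg with h | h
        · exact Or.inr (Or.inl h)
        · exact Or.inr (Or.inr (Or.inr h))
    · rcases hg with hg | hg | hg | hg
      · right; left
        rw [hg]
      · left
        rw [hg, hJ]
      · right; right; left
        rw [hJ]; exact hg.symm
      · right; right; right
        rw [hJ]; exact hg.symm) f
  have hJf : N (J f) := (hN f).2 hf
  rcases B with h | h | (h | h) | (h | h)
  · exact Or.inl h
  · exact Or.inr h
  · exact absurd hf (hch _ _ he h)
  · exact absurd hJf (hch _ _ he h)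
  · exact absurd hf (hch _ _ hJe h)
  · exact absurd hJf (hch _ _ hJe h)

theorem path [Fintype E] [DecidableEq E] {τ J : E → E} (hτ : ∀ e, τ (τ e) = e)
    (hJ : ∀ e, J (J e) = e) (hne : ∀ e, τ e ≠ e)
    (htr : ∀ P : E → Prop, (∃ e, P e) → (∀ e, P e → P (τ e) ∧ P (J e)) → ∀ e, P e)
    (e0 : E) (h0 : J e0 = e0) :
    (∃ s, Fintype.card E = 2 * s) ∧ (Finset.univ.filter fun e => J e = e).card = 2 := by
  obtain ⟨ρ, hρ⟩ : ∃ ρ : E → E, ∀ e, ρ e = τ (J e) := ⟨_, fun _ => rfl⟩
  have hinj : Function.Injective ρ := by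
    intro a b hab
    rw [hρ, hρ] at hab
    have h1 := congrArg (fun z => J (τ z)) hab
    simpa only [hτ, hJ] using h1
  have hper : e0 ∈ Function.periodicPts ρ := hinj.mem_periodicPts e0
  have hp : 0 < Function.minimalPeriod ρ e0 := Function.minimalPeriod_pos_of_mem_periodicPts hper
  have hio := Function.iterate_injOn_Iio_minimalPeriod (f := ρ) (x := e0)
  have hpp : ρ^[Function.minimalPeriod ρ e0] e0 = e0 := Function.iterate_minimalPeriod
  have hmod : ∀ k, ρ^[k % Function.minimalPeriod ρ e0] e0 = ρ^[k] e0 := fun k =>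
    Function.iterate_mod_minimalPeriod_eq
  generalize Function.minimalPeriod ρ e0 = p at hp hio hpp hmod
  have K : ∀ k, ρ^[k] (J (ρ^[k] e0)) = e0 := by
    intro k
    induction k with
    | zero => exact h0
    | succ k ih =>
      rw [Function.iterate_succ_apply, Function.iterate_succ_apply' ρ k e0, hρ, hJ, hρ, hτ]
      exact ih
  have KJ : ∀ k, k ≤ p → J (ρ^[k] e0) = ρ^[p - k] e0 := by
    intro k hk
    apply hinj.iterate k
    rw [K, ← Function.iterate_add_apply, Nat.add_sub_cancel' hk, hpp]
  have Kτ : ∀ k, k ≤ p → τ (ρ^[k] e0) = ρ^[p - k + 1] e0 := by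
    intro k hk
    rw [Function.iterate_succ_apply', ← KJ k hk, hρ, hJ]
  have S : ∀ e, ∃ k, k < p ∧ e = ρ^[k] e0 := by
    have S0 := htr (fun e => ∃ k, e = ρ^[k] e0) ⟨e0, 0, rfl⟩ (by
      rintro e ⟨k, rfl⟩
      have hk : k % p ≤ p := (Nat.mod_lt k hp).le
      rw [← hmod k]
      exact ⟨⟨_, Kτ _ hk⟩, ⟨_, KJ _ hk⟩⟩)
    intro e
    obtain ⟨k, hk⟩ := S0 e
    exact ⟨k % p, Nat.mod_lt k hp, by rw [hmod k]; exact hk⟩
  have hev : ∃ s, p = 2 * s := by
    rcases Nat.even_or_odd' p with ⟨s, hs | hs⟩
    · exact ⟨s, hs⟩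
    · exfalso
      apply hne (ρ^[s + 1] e0)
      rw [Kτ (s + 1) (by omega)]
      have : p - (s + 1) + 1 = s + 1 := by omega
      rw [this]
  obtain ⟨s, hs⟩ := hev
  constructor
  · refine ⟨s, ?_⟩
    have h1 : (Finset.univ : Finset E) = (Finset.range p).image fun k => ρ^[k] e0 := by
      ext e
      obtain ⟨k, hk, rfl⟩ := S e
      simp only [Finset.mem_univ, Finset.mem_image, Finset.mem_range, true_iff]
      exact ⟨k, hk, rfl⟩
    rw [← Finset.card_univ, h1, Finset.card_image_of_injOn, Finset.card_range, hs]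
    intro a ha b hb hab
    exact hio (Finset.mem_range.1 ha) (Finset.mem_range.1 hb) hab
  · have h1 : (Finset.univ.filter fun e => J e = e) = {e0, ρ^[s] e0} := by
      ext e
      simp only [Finset.mem_filter, Finset.mem_univ, true_and, Finset.mem_insert,
        Finset.mem_singleton]
      constructor
      · intro he
        obtain ⟨k, hk, rfl⟩ := S e
        by_cases hk0 : k = 0
        · left
          rw [hk0]; rfl
        · right
          rw [KJ k hk.le] at he
          have h2 : p - k = k := hio (show p - k < p by omega) hk he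
          have h3 : k = s := by omega
          rw [h3]
      · rintro (rfl | rfl)
        · exact h0
        · rw [KJ s (by omega)]
          have : p - s = s := by omega
          rw [this]
    rw [h1, Finset.card_pair]
    intro h
    have h2 : 0 = s := hio (show 0 < p from hp) (show s < p by omega) h
    omega

end DIH

theorem stDIH : St_DIH := by
  intro E _ τ J N w β m hτ hJ hne htr hfix hN hβ hw1 hw2 hch
  classical
  obtain ⟨e0, h0⟩ := hfix
  obtain ⟨⟨s, hs⟩, hc⟩ := DIH.path hτ hJ hne htr e0 h0
  obtain ⟨d, hd⟩ : ∃ d : E → ℕ, ∀ e, d e = β e - w e - if J e = e then 0 else 1 :=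
    ⟨_, fun _ => rfl⟩
  have h1 : ∀ e, w e + 1 + d e = β e + if J e = e then 1 else 0 := by
    intro e
    rw [hd]
    by_cases h : J e = e
    · have := hw1 e h
      rw [if_pos h, if_pos h]
      omega
    · have := hw2 e h
      rw [if_neg h, if_neg h]
      omega
  have h2 : ∀ e, ¬ N e → d e = 0 := by
    intro e he
    rw [hd]
    by_cases h : J e = e
    · have := (hw1 e h).2.2 he
      rw [if_pos h]
      omega
    · have := (hw2 e h).2.2 he
      rw [if_neg h]
      omega
  have h3 : ∀ e, J e = e → d e ≤ 3 := by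
    intro e h
    have := hw1 e h
    rw [hd, if_pos h]
    omega
  have h4 : ∀ e, J e ≠ e → d e ≤ 1 := by
    intro e h
    have := hw2 e h
    rw [hd, if_neg h]
    omega
  have h5 : ∑ e, β e = s * m := by
    have a1 : ∑ e, β (τ e) = ∑ e, β e :=
      Equiv.sum_comp (Function.Involutive.toPerm τ hτ) β
    have a2 : ∑ e, (β e + β (τ e)) = ∑ _e : E, m := Finset.sum_congr rfl fun e _ => hβ e
    rw [Finset.sum_add_distrib, a1, Finset.sum_const, Finset.card_univ, hs, smul_eq_mul,
      Nat.mul_assoc] at a2
    omega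
  have h6 : ∑ e, (if J e = e then 1 else 0) = 2 := by
    rw [← hc, Finset.card_filter]
  refine ⟨s, ∑ e, d e, ?_, ?_⟩
  · by_cases hex : ∃ e, N e
    · obtain ⟨e, he⟩ := hex
      have a1 : ∑ f ∈ ({e, J e} : Finset E), d f = ∑ f, d f := by
        apply Finset.sum_subset (Finset.subset_univ _)
        intro f _ hf
        apply h2
        intro hNf
        apply hf
        rcases DIH.ends hτ hJ htr hN hch e he f hNf with h | h
        · rw [h]; exact Finset.mem_insert_self _ _
        · rw [h]; exact Finset.mem_insert_of_mem (Finset.mem_singleton_self _)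
      rw [← a1]
      by_cases h : J e = e
      · rw [h, Finset.pair_eq_singleton, Finset.sum_singleton]
        exact h3 e h
      · rw [Finset.sum_pair (Ne.symm h)]
        have b1 := h4 e h
        have b2 := h4 (J e) (by rw [hJ]; exact Ne.symm h)
        omega
    · have a1 : ∑ e, d e = 0 := Finset.sum_eq_zero fun e _ => h2 e fun he => hex ⟨e, he⟩
      omega
  · rw [← Finset.sum_add_distrib, Finset.sum_congr rfl fun e _ => h1 e, Finset.sum_add_distrib,
      h5, h6]

end Pool.Agent.FlagOrb.Q
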