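import Pool.Agent.Lib.MP_7157e1_co.QKit

/-! Quadratic range: the end of a leg folds. -/

namespace Pool.Agent.FlagOrb.Q

open Equiv Set

theorem stFOLD : St_FOLD := by
  intro F L _ _ n r φ h a b x H ha h0 hab hn hb hp hm
  classical
  obtain ⟨k, rfl⟩ : ∃ k, a = k + 2 := ⟨a - 2, by omega⟩
  obtain ⟨C, hC⟩ := (h.wall (a := 0) (b := n) le_rfl x).1.exC
  have d0 : InD r 0 n x x := InD.refl x
  have d1 : InD r 0 n x (r (k + 2) x) := d0.next ⟨by omega, by omega⟩ hm
  have c0 : 1 ≤ k ∨ Wl r x 0 := h0.imp_left fun _ => by omega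
  have w4 : Wl r x (k + 4) := hp.wl (by omega) (by omega) (by omega) (by omega)
  have w4' : Wl r (r (k + 2) x) (k + 4) := (h.wl_far (by omega) (by omega)).2 w4
  have e4 : rf r (r (k + 2) x) (k + 4) = rf r x (k + 4) := h.rf_step w4 (by omega) (by omega)
  have w3 : Wl r (r (k + 2) x) (k + 2 + 1) := by
    by_contra hw
    have hq : Pos n r (k + 2 + 1) b (r (k + 2) x) (k + 2 + 1) :=
      H.pos_up (by omega) hb le_rfl (by omega) hw w4'
    have c0' : 1 ≤ k ∨ Wl r (r (k + 2) x) 0 :=
      c0.imp_right fun w => (h.wl_far (by omega) (by omega)).2 w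
    have p := h.leg_path H hp (by omega) (by omega) hb d0 (c := k) (m := 3) c0 (Or.inl (by omega))
    have p' := h.leg_path H hq (by omega) (by omega) hb d1 (c := k) (m := 3) c0'
      (Or.inl (by omega))
    have wk : Wl r x k := by
      rcases Nat.eq_zero_or_pos k with rfl | k0
      · exact c0.resolve_left (by omega)
      · exact hp.wl k0 (by omega) (by omega) (by omega)
    have f0 : lg r (r (k + 2) x) (k + 2 + 1) (k + 0) = lg r x (k + 2 + 1) (k + 0) := by
      rw [lg_lo (by omega), lg_lo (by omega)]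
      exact h.rf_step wk (by omega) (by omega)
    have f3 : lg r (r (k + 2) x) (k + 2 + 1) (k + 3) = lg r x (k + 2 + 1) (k + 3) := by
      rw [lg_hi (by omega), lg_hi (by omega)]
      exact e4
    have m1 : ∀ j, 1 ≤ j → j ≤ 3 → lg r x (k + 2 + 1) (k + j) ∈
        Walls r 0 n x \ {lg r x (k + 2 + 1) (k + 0)} := fun j j1 j3 =>
      ⟨p.mem j j3, fun he => by have := p.inj j j3 0 (by omega) he; omega⟩
    have m2 : ∀ j, 1 ≤ j → j ≤ 3 → lg r (r (k + 2) x) (k + 2 + 1) (k + j) ∈
        Walls r 0 n x \ {lg r x (k + 2 + 1) (k + 0)} := fun j j1 j3 =>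
      ⟨p'.mem j j3, fun he => by
        have := p'.inj j j3 0 (by omega) (Eq.trans he f0.symm)
        omega⟩
    have key : lg r x (k + 2 + 1) (k + 1) = lg r (r (k + 2) x) (k + 2 + 1) (k + 1) := by
      refine hC.sep (p.mem 0 (by omega)) (p.mem 1 (by omega)) (p.adj 0 (by omega))
        (f0 ▸ p'.adj 0 (by omega)) ?_
      refine (((Relation.ReflTransGen.single ⟨m1 2 (by omega) (by omega), p.adj 1 (by omega)⟩).tail
        ⟨m1 3 (by omega) (by omega), p.adj 2 (by omega)⟩).tail
        ⟨m2 2 (by omega) (by omega), ?_⟩).tail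
        ⟨m2 1 (by omega) (by omega), adj_symm (p'.adj 1 (by omega))⟩
      rw [← f3]
      exact adj_symm (p'.adj 2 (by omega))
    rw [lg_lo (by omega), lg_lo (by omega)] at key
    exact h.rf_step_ne (hp.wl (by omega) (by omega) (by omega) (by omega))
      (hq.wl (by omega) (by omega) (by omega) (by omega)) (Or.inl ⟨rfl, by omega⟩) key
  refine ⟨w3, ?_⟩
  have p := h.leg_path H hp (by omega) (by omega) hb d0 (c := k + 1) (m := 7) (Or.inl (by omega))
    (Or.inl (by omega))
  have w2 : Wl r (r (k + 2 + 1) x) (k + 2) :=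
    (H.up x _ hp (by omega)).wl (by omega) (by omega) (by omega) (by omega)
  have st := hC.star5 p (wall_mem (c := k + 2 + 1) d1 ⟨by omega, by omega⟩ w3) (by
    change ¬ Commute (lg r x (k + 2 + 1) (k + 1 + 2)) _
    rw [lg_hi (by omega), show k + 1 + 2 + 1 = k + 4 by omega, ← e4]
    exact adj_symm (h.rf_adj w3 w4' (by omega)))
  rcases st with e | e
  · change _ = lg r x (k + 2 + 1) (k + 2) at e
    rw [lg_mid] at e
    rw [← h.per_step (l := k + 2) (c := k + 2) (by omega) (by omega) x]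
    refine (h.hex (by omega) w3 ?_).2 ?_
    · rwa [h.rr]
    · rwa [h.rr]
  · exfalso
    change _ = lg r x (k + 2 + 1) (k + 1 + 3) at e
    have w5 : Wl r x (k + 1 + 3 + 1) := hp.wl (by omega) (by omega) (by omega) (by omega)
    rw [lg_hi (by omega), ← h.rf_step (c' := k + 2) w5 (by omega) (by omega)] at e
    exact h.rf_ne w3 ((h.wl_far (by omega) (by omega)).2 w5) (by omega) (by omega) e

end Pool.Agent.FlagOrb.Q
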