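import Pool.Agent.Lib.MP_7157e1_co.QBlue

/-! Extension of the leg structure to the full range of colours. -/

namespace Pool.Agent.FlagOrb.Q

open Equiv Set

namespace H3

variable {F L : Type} [Lattice L] {n : ℕ} {r : ℕ → Perm F} {φ : ℕ → F → L}

lemma rev_rev (h : PS n r φ) : rev n (rev n r) = r := by
  funext c
  by_cases hc : c < n
  · rw [rev_lt hc, rev_lt (by omega), show n - 1 - (n - 1 - c) = c by omega]
  · rw [rev_ge (by omega), h.triv c (by omega)]

lemma per_rev (h : PS n r φ) {l l' : ℕ} (hl : l + l' + 2 = n) (x : F) :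
    per (rev n r) l x = per r l' x := by
  have e1 : rev n r l = r (l' + 1) := by rw [rev_lt (by omega)]; congr 1; omega
  have e2 : rev n r (l + 1) = r l' := by rw [rev_lt (by omega)]; congr 1; omega
  apply Nat.dvd_antisymm
  · rw [per_dvd, e1, e2]
    exact pow_swap_app (h.inv _) (h.inv _) (per_dvd.1 dvd_rfl)
  · have := per_dvd.1 (dvd_refl (per (rev n r) l x))
    rw [e1, e2] at this
    rw [per_dvd]
    exact pow_swap_app (h.inv _) (h.inv _) this

lemma wl_rev' (h : PS n r φ) {c c' : ℕ} (hc : c + c' + 1 = n) (x : F) :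
    Wl (rev n r) x c ↔ Wl r x c' := by
  rw [h.wl_rev (by omega), show n - 1 - c = c' by omega]

lemma pos_rev (h : PS n r φ) {a b a' b' i i' : ℕ} (ha : a + b' = n) (hb : b + a' = n)
    (hi : i + i' = n) (x : F) : Pos n (rev n r) a' b' x i' ↔ Pos n r a b x i := by
  constructor
  · rintro ⟨h1, h2, h3, h4, h5⟩
    refine ⟨by omega, by omega, fun c c1 c2 c3 c4 => ?_, fun hb => ?_, fun ha => ?_⟩
    · exact (wl_rev' h (c := n - 1 - c) (by omega) x).1
        (h3 _ (by omega) (by omega) (by omega) (by omega))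
    · exact fun hw => h5 (by omega) ((wl_rev' h (by omega) x).2 hw)
    · exact fun hw => h4 (by omega) ((wl_rev' h (by omega) x).2 hw)
  · rintro ⟨h1, h2, h3, h4, h5⟩
    refine ⟨by omega, by omega, fun c c1 c2 c3 c4 => ?_, fun hb => ?_, fun ha => ?_⟩
    · exact (wl_rev' h (c' := n - 1 - c) (by omega) x).2
        (h3 _ (by omega) (by omega) (by omega) (by omega))
    · exact fun hw => h5 (by omega) ((wl_rev' h (by omega) x).1 hw)
    · exact fun hw => h4 (by omega) ((wl_rev' h (by omega) x).1 hw)

lemma hh_rev (h : PS n r φ) {a b a' b' : ℕ} (ha : a + b' = n) (hb : b + a' = n)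
    (H : HH n r a b) : HH n (rev n r) a' b' where
  cov x := by
    rcases H.cov x with h1 | ⟨i, hi⟩
    · exact Or.inl fun c c1 c2 =>
        (wl_rev' h (c' := n - 1 - c) (by omega) x).2 (h1 _ (by omega) (by omega))
    · have := hi.2.1
      exact Or.inr ⟨n - i, (pos_rev h ha hb (by omega) x).2 hi⟩
  up x i hi hlt := by
    have h1 := (pos_rev h ha hb (i := n - 1 - i + 1) (by omega) x).1 hi
    rw [rev_lt (by omega)]
    exact (pos_rev h ha hb (by omega) _).2 (H.dn x _ h1 (by omega))
  dn x i hi hle := by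
    have h0 := hi.2.1
    have h1 := (pos_rev h ha hb (i := n - 1 - i) (by omega) x).1 hi
    rw [rev_lt (by omega)]
    exact (pos_rev h ha hb (by omega) _).2 (H.up x _ h1 (by omega))
  str x i hi hle := by
    have h0 := hi.1
    have h1 := (pos_rev h ha hb (i := n - 2 - i + 1 + 1) (by omega) x).1 hi
    have h2 := H.dn _ _ (H.dn x _ h1 (by omega)) (by omega)
    have h3 := H.str _ _ h2 (by omega)
    rw [h.per_step (by omega) (by omega), h.per_step (by omega) (by omega)] at h3
    rw [per_rev h (l' := n - 2 - i) (by omega), h3]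

lemma pos_of {a b i : ℕ} {x : F} (hi : Pos n r a b x i) (hlt : a < i) :
    Pos n r (a + 1) b x i :=
  ⟨hlt, hi.2.1, hi.2.2.1, hi.2.2.2.1, fun _ => hi.2.2.2.2 hlt⟩

theorem ext [Finite F] (hRR : St_RR) (hFOLD : St_FOLD) (hTERM : St_TERM) (h : PS n r φ)
    {a b : ℕ} (H : HH n r (a + 1) b) (ha : 3 ≤ a) (hab : a + 8 ≤ b) (hb : b < n) :
    HH n r a b := by
  have toP : ∀ x i, Pos n r (a + 1) b x i → Pos n r a b x i := by
    intro x i hi
    refine ⟨by have := hi.1; omega, hi.2.1, hi.2.2.1, hi.2.2.2.1, fun hlt => ?_⟩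
    by_cases e : i = a + 1
    · subst e
      exact hTERM h a b x H ha (by omega) (by omega) hb hi
    · exact hi.2.2.2.2 (by omega)
  have K : ∀ x, (∀ c, a < c → c < b → Wl r x c) → ¬ Wl r x a →
      Pos n r (a + 1) b (r a x) (a + 1) := by
    intro x hx hw
    have far : ∀ c, a + 1 < c → c < b → Wl r (r a x) c := fun c c1 c2 =>
      (h.wl_far (by omega) (by omega)).2 (hx c (by omega) c2)
    have h1 : ¬ Wl r (r a x) (a + 1) := by
      intro h1
      refine hw (hRR h a b x H (by omega) hab hb hx fun c c1 c2 => ?_)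
      by_cases e : c = a + 1
      · rw [e]; exact h1
      · exact far c (by omega) c2
    rcases H.cov (r a x) with h2 | ⟨i, hi⟩
    · exact absurd (h2 _ le_rfl (by omega)) h1
    · by_cases e : i = a + 1
      · rwa [e] at hi
      · by_cases e2 : i = a + 2
        · subst e2
          exact absurd (far _ (by omega) (by omega)) (hi.2.2.2.1 (by omega))
        · exact absurd (hi.2.2.1 (a + 1) (by omega) (by omega) (by omega) (by omega)) h1
  have D : ∀ x, Pos n r (a + 1) b x (a + 1) → Pos n r a b (r a x) a ∧ per r a x = 3 := by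
    intro x hx
    have hw := hTERM h a b x H ha (by omega) (by omega) hb hx
    obtain ⟨f1, f2⟩ := hFOLD h a b x H (by omega) (Or.inl ha) (by omega) (by omega) hb hx hw
    refine ⟨⟨le_rfl, by omega, fun c c1 c2 c3 c4 => ?_, fun _ h1 => ?_, fun h1 => by omega⟩, f2⟩
    · by_cases e : c = a + 1
      · rw [e]; exact f1
      · exact (h.wl_far e (by omega)).2 (hx.2.2.1 c c1 c2 e (by omega))
    · exact hw ((h.wl_far (by omega) (by omega)).1 h1)
  have U : ∀ x, Pos n r a b x a → Pos n r (a + 1) b (r a x) (a + 1) := fun x hx =>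
    K x (fun c c1 c2 => hx.2.2.1 c (by omega) (by omega) (by omega) (by omega))
      (hx.2.2.2.1 (by omega))
  refine ⟨fun x => ?_, fun x i hi hlt => ?_, fun x i hi hle => ?_, fun x i hi hle => ?_⟩
  · rcases H.cov x with h1 | ⟨i, hi⟩
    · by_cases hw : Wl r x a
      · refine Or.inl fun c c1 c2 => ?_
        by_cases e : c = a
        · rw [e]; exact hw
        · exact h1 c (by omega) c2
      · have := (D _ (K x (fun c c1 c2 => h1 c c1 c2) hw)).1
        rw [h.rr] at this
        exact Or.inr ⟨a, this⟩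
    · exact Or.inr ⟨i, toP x i hi⟩
  · by_cases e : i = a
    · subst e
      exact toP _ _ (U x hi)
    · exact toP _ _ (H.up x i (pos_of hi (by have := hi.1; omega)) hlt)
  · by_cases e : i = a
    · subst e
      exact (D x (pos_of hi (by omega))).1
    · exact toP _ _ (H.dn x i (pos_of hi (by omega)) (by omega))
  · by_cases e : i = a
    · subst e
      have := (D _ (U x hi)).2
      rwa [h.per_step (by omega) (by omega)] at this
    · exact H.str x i (pos_of hi (by have := hi.1; omega)) hle

theorem down [Finite F] (hRR : St_RR) (hFOLD : St_FOLD) (hTERM : St_TERM) (h : PS n r φ)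
    {a b : ℕ} (H : HH n r a b) (ha : 3 ≤ a) (hab : a + 7 ≤ b) (hb : b < n) : HH n r 3 b := by
  induction a, ha using Nat.le_induction with
  | base => exact H
  | succ a ha ih => exact ih (ext hRR hFOLD hTERM h H ha (by omega) hb) (by omega)

end H3

theorem stH3 (hRR : St_RR) (hFOLD : St_FOLD) (hTERM : St_TERM) : St_H3 := by
  intro F L _ _ n r φ h a b H ha hab hb
  have h1 := H3.down hRR hFOLD hTERM h H ha hab (by omega)
  have h2 := H3.hh_rev h (a' := n - b) (b' := n - 3) (by omega) (by omega) h1
  have h3 := H3.down hRR hFOLD hTERM h.mirror h2 (by omega) (by omega) (by omega)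
  have h4 := H3.hh_rev h.mirror (a' := 3) (b' := n - 3) (by omega) (by omega) h3
  rwa [H3.rev_rev h] at h4

end Pool.Agent.FlagOrb.Q
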