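import Pool.Agent.Lib.MP_7157e1_co.QBlue

/-! The junctions at the lower end of a leg. -/

namespace Pool.Agent.FlagOrb.Q.JUN

open Equiv Set

lemma star5 {G : Type} [Group G] [DecidableEq G] {S : Set G} {C : G → G → ℝ} (h : CoxC S C)
    {q : ℕ → G} (hq : IsPath S q 7) {t : G} (ht : t ∈ S) (ha : ¬ Commute t (q 2)) :
    t = q 1 ∨ t = q 3 := by
  by_contra hcon
  have hne : ∀ i ≤ 7, t ≠ q i := by
    intro i hi he
    by_cases h1 : i = 1
    · exact hcon (Or.inl (h1 ▸ he))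
    by_cases h3 : i = 3
    · exact hcon (Or.inr (h3 ▸ he))
    apply ha
    rw [he]
    rcases lt_trichotomy i 2 with h2 | h2 | h2
    · exact h.path_comm hq (by omega) (by omega)
    · rw [h2]
    · exact (h.path_comm hq (by omega) hi).symm
  have p1 : IsPath S (fun i => q (2 - i)) 2 := by
    refine ⟨fun i _ => hq.mem _ (by omega), fun i hi j hj he => ?_, fun i hi => ?_⟩
    · have := hq.inj _ (by omega) _ (by omega) he
      omega
    · have := hq.adj (2 - (i + 1)) (by omega)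
      rw [show 2 - (i + 1) + 1 = 2 - i by omega] at this
      exact adj_symm this
  have p2 : IsPath S (fun i => if i = 0 then q 2 else t) 1 := by
    refine ⟨fun i _ => ?_, fun i hi j hj he => ?_, fun i hi => ?_⟩
    · split_ifs
      · exact hq.mem 2 (by omega)
      · exact ht
    · split_ifs at he with h1 h2 h2
      · omega
      · exact absurd he.symm (hne 2 (by omega))
      · exact absurd he (hne 2 (by omega))
      · omega
    · obtain rfl : i = 0 := by omega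
      simpa using adj_symm ha
  have p3 : IsPath S (fun i => q (2 + i)) 5 := hq.shift (a := 2) (by omega)
  have := h.star p1 p2 p3 (by simp) (by simp)
    (fun i j i1 i2 j1 j2 he => by
      rw [if_neg (by omega)] at he
      exact hne _ (by omega) he.symm)
    (fun i j i1 i2 j1 j2 he => by
      have := hq.inj _ (by omega) _ (by omega) he
      omega)
    (fun i j i1 i2 j1 j2 he => by
      rw [if_neg (by omega)] at he
      exact hne _ (by omega) he)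
  norm_num at this

section Defs

variable {F : Type} (r : ℕ → Perm F) (x : F)

/-- the fold at colour one -/
def F1 : Prop := ¬ Wl r x 2 ∧ ¬ Wl r (r 2 x) 1 ∧ ¬ Wl r (r 1 (r 2 x)) 2

/-- the leg goes down to colour zero -/
def B2 : Prop := ¬ Wl r x 2 ∧ ¬ Wl r (r 2 x) 1 ∧ Wl r (r 1 (r 2 x)) 2 ∧ ¬ Wl r (r 1 (r 2 x)) 0

/-- the fold at colour zero -/
def F0 : Prop := B2 r x ∧ ¬ Wl r (r 0 (r 1 (r 2 x))) 1

/-- the full end -/
def A0 : Prop := B2 r x ∧ Wl r (r 0 (r 1 (r 2 x))) 1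

open Classical in
/-- the partner -/
noncomputable def Jf : F :=
  if F1 r x then r 2 (r 1 (r 2 x)) else if F0 r x then r 2 (r 1 (r 0 (r 1 (r 2 x)))) else x

open Classical in
/-- the weight -/
noncomputable def wf : ℕ :=
  if Wl r x 2 then 0 else if Wl r (r 2 x) 1 ∨ ¬ Wl r (r 1 (r 2 x)) 2 then 1 else
    if A0 r x then 3 else 2

/-- a new wall -/
def Nf : Prop := ¬ A0 r x ∧ ¬ (F0 r x ∧ rf r (Jf r x) 0 = rf r x 0)

lemma up0 : up r (3 - 0) 0 x = x := rfl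
lemma up1 : up r (3 - 1) 1 x = r 2 x := rfl
lemma up2 : up r (3 - 2) 2 x = r 1 (r 2 x) := rfl
lemma up3 : up r (3 - 3) 3 x = r 0 (r 1 (r 2 x)) := rfl

variable {r x}

lemma J_F1 (h : F1 r x) : Jf r x = r 2 (r 1 (r 2 x)) := if_pos h

lemma J_F0 (h : F0 r x) : Jf r x = r 2 (r 1 (r 0 (r 1 (r 2 x)))) := by
  unfold Jf
  rw [if_neg fun h1 => h1.2.2 h.1.2.2.1, if_pos h]

lemma J_fix (h1 : ¬ F1 r x) (h0 : ¬ F0 r x) : Jf r x = x := by
  unfold Jf
  rw [if_neg h1, if_neg h0]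

lemma w_F1 (h : F1 r x) : wf r x = 1 := by
  unfold wf
  rw [if_neg h.1, if_pos (Or.inr h.2.2)]

lemma w_F0 (h : F0 r x) : wf r x = 2 := by
  unfold wf
  rw [if_neg h.1.1, if_neg (fun h' => h'.elim h.1.2.1 fun h' => h' h.1.2.2.1),
    if_neg fun h' => h.2 h'.2]

lemma w_A0 (h : A0 r x) : wf r x = 3 := by
  unfold wf
  rw [if_neg h.1.1, if_neg (fun h' => h'.elim h.1.2.1 fun h' => h' h.1.2.2.1), if_pos h]

lemma w_le : wf r x ≤ 3 := by
  unfold wf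
  split_ifs <;> omega

lemma w_1 : 1 ≤ wf r x ↔ ¬ Wl r x 2 := by
  unfold wf
  split_ifs with h1 <;> simp [h1]

lemma w_2 : 2 ≤ wf r x ↔ ¬ Wl r x 2 ∧ ¬ Wl r (r 2 x) 1 ∧ Wl r (r 1 (r 2 x)) 2 := by
  unfold wf
  split_ifs with h1 h2 h3
  · simp [h1]
  · exact ⟨fun h => by omega, fun h => (h2.elim h.2.1 fun h' => h' h.2.2).elim⟩
  · exact ⟨fun _ => ⟨h1, fun h => h2 (Or.inl h), by_contra fun h => h2 (Or.inr h)⟩,
      fun _ => by omega⟩
  · exact ⟨fun _ => ⟨h1, fun h => h2 (Or.inl h), by_contra fun h => h2 (Or.inr h)⟩,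
      fun _ => by omega⟩

lemma w_3 (h : 3 ≤ wf r x) : A0 r x := by
  unfold wf at h
  split_ifs at h with h1 h2 h3
  · omega
  · omega
  · exact h3
  · omega

lemma wl_aut {g : Perm F} (hg : g ∈ Aut r) (y : F) (c : ℕ) : Wl r (g y) c ↔ Wl r y c :=
  ⟨fun h => h.eqv (Eqv.symm ⟨g, hg, rfl⟩), fun h => h.eqv ⟨g, hg, rfl⟩⟩

lemma F1_aut {g : Perm F} (hg : g ∈ Aut r) : F1 r (g x) ↔ F1 r x := by
  simp only [F1, ← Aut.app hg, wl_aut hg]

lemma F0_aut {g : Perm F} (hg : g ∈ Aut r) : F0 r (g x) ↔ F0 r x := by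
  simp only [F0, B2, ← Aut.app hg, wl_aut hg]

lemma A0_aut {g : Perm F} (hg : g ∈ Aut r) : A0 r (g x) ↔ A0 r x := by
  simp only [A0, B2, ← Aut.app hg, wl_aut hg]

lemma J_aut {g : Perm F} (hg : g ∈ Aut r) : Jf r (g x) = g (Jf r x) := by
  by_cases h1 : F1 r x
  · rw [J_F1 h1, J_F1 ((F1_aut hg).2 h1)]
    simp only [Aut.app hg]
  by_cases h0 : F0 r x
  · rw [J_F0 h0, J_F0 ((F0_aut hg).2 h0)]
    simp only [Aut.app hg]
  rw [J_fix h1 h0, J_fix (mt (F1_aut hg).1 h1) (mt (F0_aut hg).1 h0)]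

lemma w_aut {g : Perm F} (hg : g ∈ Aut r) : wf r (g x) = wf r x := by
  have a2 : (Wl r (r 2 (g x)) 1 ∨ ¬ Wl r (r 1 (r 2 (g x))) 2) ↔
      (Wl r (r 2 x) 1 ∨ ¬ Wl r (r 1 (r 2 x)) 2) := by
    simp only [← Aut.app hg, wl_aut hg]
  unfold wf
  by_cases b1 : Wl r x 2
  · rw [if_pos b1, if_pos ((wl_aut hg _ _).2 b1)]
  rw [if_neg b1, if_neg (mt (wl_aut hg _ _).1 b1)]
  by_cases b2 : Wl r (r 2 x) 1 ∨ ¬ Wl r (r 1 (r 2 x)) 2
  · rw [if_pos b2, if_pos (a2.2 b2)]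
  rw [if_neg b2, if_neg (mt a2.1 b2)]
  by_cases b3 : A0 r x
  · rw [if_pos b3, if_pos ((A0_aut hg).2 b3)]
  · rw [if_neg b3, if_neg (mt (A0_aut hg).1 b3)]

end Defs

section Main

variable {F L : Type} [Lattice L] {n : ℕ} {r : ℕ → Perm F} {φ : ℕ → F → L} (h : PS n r φ)
include h

lemma rf_g {g : Perm F} (hg : g ∈ Aut r) (y : F) (c : ℕ) : rf r (g y) c = g * rf r y c * g⁻¹ := by
  by_cases hw : Wl r y c
  · exact h.rf_conj hw hg
  · have hw' : ¬ Wl r (g y) c := mt (wl_aut hg y c).1 hw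
    simp [rf, hw, hw']

lemma N_aut {g : Perm F} (hg : g ∈ Aut r) {x : F} : Nf r (g x) ↔ Nf r x := by
  unfold Nf
  rw [A0_aut hg, F0_aut hg, J_aut hg, rf_g h hg, rf_g h hg, mul_left_inj, mul_right_inj]

lemma far_comm {y : F} {c c' : ℕ} (hw : Wl r y c) (hw' : Wl r y c') (hc : c + 2 ≤ c') :
    Commute (rf r y c) (rf r y c') := by
  apply h.aut_ext (mul_mem (rf_aut _ _) (rf_aut _ _)) (mul_mem (rf_aut _ _) (rf_aut _ _)) (x := y)
  simp only [Perm.mul_apply, rf_app hw, rf_app hw', Aut.app (rf_aut _ _)]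
  exact (h.capp hc y).symm

lemma not_ss {x : F} {t : Perm F} (w0 : Wl r x 0) (w1 : Wl r x 1) (w4 : ∀ c, 4 ≤ c → Wl r x c)
    (t0 : t ≠ rf r x 0) (t1 : t ≠ rf r x 1) (t2 : t ≠ rf r (r 3 x) 2)
    (t4 : ∀ c, 4 ≤ c → c < n → t ≠ rf r x c) : t ∉ SS n r 3 x := by
  rintro ⟨c, hc, c3, ⟨c2, he⟩ | ⟨c4, he⟩⟩
  · rcases (by omega : c = 0 ∨ c = 1 ∨ 4 ≤ c) with rfl | rfl | h4
    exacts [t0 he, t1 he, t4 c h4 hc he]
  · rcases (by omega : c = 0 ∨ c = 1 ∨ c = 2 ∨ 5 ≤ c) with rfl | rfl | rfl | h4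
    · exact t0 (he.trans (h.rf_step w0 (by omega) (by omega)))
    · exact t1 (he.trans (h.rf_step w1 (by omega) (by omega)))
    · exact t2 he
    · exact t4 c (by omega) hc (he.trans (h.rf_step (w4 c (by omega)) (by omega) (by omega)))

lemma ss_sub {x y : F} (hn : 20 ≤ n) (w0 : Wl r x 0) (w1 : Wl r x 1)
    (w4 : ∀ c, 4 ≤ c → Wl r x c)
    (t0 : rf r x 0 = rf r y 0) (t1 : rf r x 1 = rf r y 1) (t2 : rf r (r 3 x) 2 = rf r (r 3 y) 2)
    (t4 : ∀ c, 4 ≤ c → rf r x c = rf r y c) : SS n r 3 x ⊆ SS n r 3 y := by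
  intro t ht
  by_contra hcon
  refine not_ss h w0 w1 w4 (fun he => hcon ?_) (fun he => hcon ?_) (fun he => hcon ?_)
    (fun c c1 c2 he => hcon ?_) ht
  · exact ⟨0, by omega, by omega, Or.inl ⟨by omega, he.trans t0⟩⟩
  · exact ⟨1, by omega, by omega, Or.inl ⟨by omega, he.trans t1⟩⟩
  · exact ⟨2, by omega, by omega, Or.inr ⟨by omega, he.trans t2⟩⟩
  · exact ⟨c, c2, by omega, Or.inl ⟨by omega, he.trans (t4 c c1)⟩⟩

variable (hn : 20 ≤ n) (hH : HH n r 3 (n - 3)) (hD : ND n r)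
include hn hH hD

lemma base {x : F} (hx : Ps n r x 3) : Wl r x 0 ∧ Wl r x 1 ∧ ¬ Wl r x 3 ∧
    (∀ c, 4 ≤ c → Wl r x c) ∧ Wl r (r 3 x) 2 := by
  refine ⟨(hD x 3 hx).1, hx.2.2.1 1 (by omega) (by omega) (by omega) (by omega),
    hx.2.2.2.1 (by omega), fun c hc => ?_,
    (hH.up x 3 hx (by omega)).2.2.1 2 (by omega) (by omega) (by omega) (by omega)⟩
  rcases (by omega : c + 2 ≤ n ∨ c = n - 1 ∨ n ≤ c) with h1 | rfl | h1
  · exact hx.2.2.1 c (by omega) h1 (by omega) (by omega)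
  · exact (hD x 3 hx).2
  · unfold Wl
    rw [h.triv c h1]
    exact Eqv.refl x

variable [Finite F]

omit hD in
lemma back (hRR : St_RR) {y : F} (w3 : ∀ c, 3 ≤ c → Wl r y c) (m2 : ¬ Wl r y 2) :
    Ps n r (r 2 y) 3 := by
  have w4 : ∀ c, 4 ≤ c → Wl r (r 2 y) c := fun c hc =>
    (h.wl_far (by omega) (by omega)).2 (w3 c (by omega))
  rcases hH.cov (r 2 y) with hc | ⟨i, hi⟩
  · exact absurd (hRR h 2 (n - 3) y hH le_rfl (by omega) (by omega)
      (fun c c1 _ => w3 c c1) (fun c c1 c2 => hc c c1 c2)) m2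
  · have i3 := hi.1
    rcases (by omega : i = 3 ∨ i = 4 ∨ 5 ≤ i) with rfl | rfl | h5
    · exact hi
    · exact absurd (w4 4 le_rfl) (hi.2.2.2.1 (by omega))
    · exact absurd (w4 (i - 1) (by omega)) (hi.2.2.2.2 (by omega))

variable (hF : St_FOLD)
include hF

lemma atp {x : F} (hx : Ps n r x 3) (m2 : ¬ Wl r x 2) : Wl r (r 2 x) 0 ∧
    (∀ c, 3 ≤ c → Wl r (r 2 x) c) ∧ rf r (r 3 x) 2 = rf r (r 2 x) 3 ∧
    rf r (r 2 x) 0 = rf r x 0 ∧ ∀ c, 4 ≤ c → rf r (r 2 x) c = rf r x c := by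
  obtain ⟨w0, w1, m3, w4, w2⟩ := base h hn hH hD hx
  obtain ⟨f1, f2⟩ := hF h 2 (n - 3) x hH le_rfl (Or.inr w0) (by omega) (by omega) (by omega) hx m2
  refine ⟨(h.wl_far (by omega) (by omega)).2 w0, fun c hc => ?_, ?_,
    h.rf_step w0 (by omega) (by omega), fun c hc => h.rf_step (w4 c hc) (by omega) (by omega)⟩
  · rcases (by omega : c = 3 ∨ 4 ≤ c) with rfl | h4
    · exact f1
    · exact (h.wl_far (by omega) (by omega)).2 (w4 c h4)
  · apply h.rf_eq (rf_aut _ _)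
    have e : ((r 2 * r (2 + 1)) ^ 3) x = x := per_dvd.1 (by rw [f2])
    have e2 : r 3 (r 2 (r 3 (r 2 (r 3 (r 2 x))))) = x := pow_swap_app (h.inv _) (h.inv _) e
    have e3 : r 3 x = r 3 (r 2 (r 2 x)) := by rw [h.rr]
    have e4 : rf r (r 2 x) 3 (r 2 x) = r 3 (r 2 x) := rf_app f1
    calc rf r (r 2 x) 3 (r 3 x) = rf r (r 2 x) 3 (r 3 (r 2 (r 2 x))) := by rw [← e3]
      _ = r 3 (r 2 (r 3 (r 2 x))) := by
        rw [Aut.app (rf_aut _ _), Aut.app (rf_aut _ _), e4]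
      _ = r 2 (r 3 (r 3 (r 2 (r 3 (r 2 (r 3 (r 2 x))))))) := by simp only [h.rr]
      _ = r 2 (r 3 x) := by rw [e2]

lemma star {x z : F} (hx : Ps n r x 3) (m2 : ¬ Wl r x 2) (hz : InD r 0 n x z) (z2 : Wl r z 2)
    (z3 : Wl r z 3) (z4 : Wl r z 4) (e3 : rf r z 3 = rf r (r 2 x) 3)
    (e4 : rf r z 4 = rf r (r 2 x) 4) : rf r z 2 = rf r x 1 := by
  classical
  obtain ⟨w0, w1, m3, w4, w2⟩ := base h hn hH hD hx
  obtain ⟨p0, p3, s2, s0, s4⟩ := atp h hn hH hD hF hx m2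
  obtain ⟨C, hC⟩ := (h.wall (a := 0) le_rfl x).1.exC
  have hp : InD r 0 n x (r 2 x) := (InD.refl x).next ⟨by omega, by omega⟩ m2
  have a12 : ¬ Commute (rf r x 1) (rf r (r 2 x) 3) := by
    rw [← s2, ← h.rf_step (c' := 3) w1 (by omega) (by omega)]
    exact h.rf_adj ((h.wl_far (by omega) (by omega)).2 w1) w2 (by omega)
  let q : ℕ → Perm F := fun j =>
    if j = 1 then rf r x 1 else rf r (r 2 x) (if j = 0 then 0 else j + 1)
  have wq : ∀ j, j ≠ 1 → Wl r (r 2 x) (if j = 0 then 0 else j + 1) := by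
    intro j hj
    split_ifs
    · exact p0
    · exact p3 _ (by omega)
  have n1 : ∀ j ≤ 7, j ≠ 1 → rf r x 1 ≠ rf r (r 2 x) (if j = 0 then 0 else j + 1) := by
    intro j j7 hj
    split_ifs with j0
    · rw [s0]; exact h.rf_ne w1 w0 (by omega) (by omega)
    · rcases (by omega : j = 2 ∨ 3 ≤ j) with rfl | j3
      · exact ne_of_adj a12
      · rw [s4 _ (by omega)]
        exact h.rf_ne w1 (w4 _ (by omega)) (by omega) (by omega)
  have hq : IsPath (Walls r 0 n x) q 7 := by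
    refine ⟨fun i hi => ?_, fun i hi j hj he => ?_, fun i hi => ?_⟩
    · by_cases i1 : i = 1
      · simp only [q, if_pos i1]
        exact wall_mem (InD.refl x) ⟨by omega, by omega⟩ w1
      · simp only [q, if_neg i1]
        exact wall_mem hp ⟨by omega, by split_ifs <;> omega⟩ (wq i i1)
    · by_contra hij
      by_cases i1 : i = 1
      · have j1 : j ≠ 1 := by omega
        simp only [q, if_pos i1, if_neg j1] at he
        exact n1 j hj j1 he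
      · by_cases j1 : j = 1
        · simp only [q, if_pos j1, if_neg i1] at he
          exact n1 i hi i1 he.symm
        · simp only [q, if_neg j1, if_neg i1] at he
          exact h.rf_ne (wq i i1) (wq j j1) (by split_ifs <;> omega) (by split_ifs <;> omega) he
    · rcases (by omega : i = 0 ∨ i = 1 ∨ 2 ≤ i) with rfl | rfl | i2
      · change ¬ Commute (rf r (r 2 x) 0) (rf r x 1)
        rw [s0]
        exact h.rf_adj w0 w1 (by omega)
      · exact a12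
      · simp only [q, if_neg (show i ≠ 1 by omega), if_neg (show i ≠ 0 by omega),
          if_neg (show i + 1 ≠ 1 by omega), if_neg (show i + 1 ≠ 0 by omega)]
        exact h.rf_adj (p3 _ (by omega)) (p3 _ (by omega)) (by omega)
  have ha : ¬ Commute (rf r z 2) (q 2) := by
    change ¬ Commute (rf r z 2) (rf r (r 2 x) 3)
    rw [← e3]
    exact h.rf_adj z2 z3 (by omega)
  rcases star5 hC hq (wall_mem hz ⟨by omega, by omega⟩ z2) ha with e | e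
  · exact e
  · exact absurd (e.trans e4.symm) (h.rf_ne z2 z4 (by omega) (by omega))

lemma atq {x : F} (hx : Ps n r x 3) (m2 : ¬ Wl r x 2) :
    (∀ c, 3 ≤ c → Wl r (r 1 (r 2 x)) c) ∧ rf r (r 3 x) 2 = rf r (r 1 (r 2 x)) 3 ∧
    (∀ c, 4 ≤ c → rf r (r 1 (r 2 x)) c = rf r x c) ∧
    (Wl r (r 1 (r 2 x)) 0 → rf r (r 1 (r 2 x)) 0 ≠ rf r x 0) ∧
    (¬ Wl r (r 2 x) 1 → Wl r (r 1 (r 2 x)) 2 → rf r (r 1 (r 2 x)) 2 = rf r x 1) := by
  obtain ⟨p0, p3, s2, s0, s4⟩ := atp h hn hH hD hF hx m2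
  have q3 : ∀ c, 3 ≤ c → Wl r (r 1 (r 2 x)) c := fun c hc =>
    (h.wl_far (by omega) (by omega)).2 (p3 c hc)
  have e3 : ∀ c, 3 ≤ c → rf r (r 1 (r 2 x)) c = rf r (r 2 x) c := fun c hc =>
    h.rf_step (p3 c hc) (by omega) (by omega)
  refine ⟨q3, s2.trans (e3 3 le_rfl).symm, fun c hc => (e3 c (by omega)).trans (s4 c hc),
    fun q0 => ?_, fun m1 q2 => ?_⟩
  · rw [← s0]
    exact (h.rf_step_ne p0 q0 (Or.inl ⟨rfl, by omega⟩)).symm
  · exact star h hn hH hD hF hx m2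
      (((InD.refl x).next ⟨by omega, by omega⟩ m2).next ⟨by omega, by omega⟩ m1) q2
      (q3 3 le_rfl) (q3 4 (by omega)) (e3 3 le_rfl) (e3 4 (by omega))

lemma atu {x : F} (hx : Ps n r x 3) (f : F0 r x) :
    (∀ c, 3 ≤ c → Wl r (r 1 (r 0 (r 1 (r 2 x)))) c) ∧ ¬ Wl r (r 1 (r 0 (r 1 (r 2 x)))) 2 ∧
    ∀ c, 3 ≤ c → rf r (r 1 (r 0 (r 1 (r 2 x)))) c = rf r (r 2 x) c := by
  obtain ⟨⟨m2, m1, q2, m0⟩, m1'⟩ := f
  obtain ⟨p0, p3, s2, s0, s4⟩ := atp h hn hH hD hF hx m2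
  obtain ⟨q3, -, -, -, s1⟩ := atq h hn hH hD hF hx m2
  have o2 : Wl r (r 0 (r 1 (r 2 x))) 2 := (h.wl_far (by omega) (by omega)).2 q2
  have o3 : ∀ c, 3 ≤ c → Wl r (r 0 (r 1 (r 2 x))) c := fun c hc =>
    (h.wl_far (by omega) (by omega)).2 (q3 c hc)
  have u3 : ∀ c, 3 ≤ c → Wl r (r 1 (r 0 (r 1 (r 2 x)))) c := fun c hc =>
    (h.wl_far (by omega) (by omega)).2 (o3 c hc)
  have e3 : ∀ c, 3 ≤ c → rf r (r 1 (r 0 (r 1 (r 2 x)))) c = rf r (r 2 x) c := fun c hc => by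
    rw [h.rf_step (o3 c hc) (by omega) (by omega), h.rf_step (q3 c hc) (by omega) (by omega),
      h.rf_step (p3 c hc) (by omega) (by omega)]
  refine ⟨u3, fun u2 => ?_, e3⟩
  have := star h hn hH hD hF hx m2
    (((((InD.refl x).next ⟨by omega, by omega⟩ m2).next ⟨by omega, by omega⟩ m1).next
      ⟨by omega, by omega⟩ m0).next ⟨by omega, by omega⟩ m1') u2
    (u3 3 le_rfl) (u3 4 (by omega)) (e3 3 le_rfl) (e3 4 (by omega))
  apply h.rf_step_ne o2 u2 (Or.inr ⟨rfl, by omega⟩)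
  rw [this, h.rf_step q2 (by omega) (by omega), s1 m1 q2]

variable (hRR : St_RR)
include hRR

lemma fold1 {x : F} (hx : Ps n r x 3) (f : F1 r x) :
    Ps n r (r 2 (r 1 (r 2 x))) 3 ∧ F1 r (r 2 (r 1 (r 2 x))) := by
  refine ⟨back h hn hH hRR (atq h hn hH hD hF hx f.1).1 f.2.2, ?_⟩
  unfold F1
  simp only [h.rr, h.wl_step]
  exact ⟨f.2.2, f.2.1, f.1⟩

lemma fold0 {x : F} (hx : Ps n r x 3) (f : F0 r x) :
    Ps n r (r 2 (r 1 (r 0 (r 1 (r 2 x))))) 3 ∧ F0 r (r 2 (r 1 (r 0 (r 1 (r 2 x))))) := by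
  obtain ⟨u3, u2, -⟩ := atu h hn hH hD hF hx f
  refine ⟨back h hn hH hRR u3 u2, ?_⟩
  unfold F0 B2
  simp only [h.rr, h.wl_step]
  exact ⟨⟨u2, f.2, (h.wl_far (by omega) (by omega)).2 f.1.2.2.1, f.1.2.2.2⟩, f.1.2.1⟩

lemma same0 {x : F} (hx : Ps n r x 3) (f : F0 r x) :
    rf r (r 2 (r 1 (r 0 (r 1 (r 2 x))))) 1 = rf r x 1 ∧
    rf r (r 3 (r 2 (r 1 (r 0 (r 1 (r 2 x)))))) 2 = rf r (r 3 x) 2 ∧
    ∀ c, 4 ≤ c → rf r (r 2 (r 1 (r 0 (r 1 (r 2 x))))) c = rf r x c := by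
  obtain ⟨hy, fy⟩ := fold0 h hn hH hD hF hRR hx f
  obtain ⟨u3, u2, e3⟩ := atu h hn hH hD hF hx f
  obtain ⟨-, -, s2, -, s4⟩ := atp h hn hH hD hF hx f.1.1
  obtain ⟨-, -, s2', -, s4'⟩ := atp h hn hH hD hF hy fy.1.1
  have s1 := (atq h hn hH hD hF hx f.1.1).2.2.2.2 f.1.2.1 f.1.2.2.1
  have s1' := (atq h hn hH hD hF hy fy.1.1).2.2.2.2 fy.1.2.1 fy.1.2.2.1
  simp only [h.rr] at s2' s4' s1'
  refine ⟨?_, ?_, fun c hc => ?_⟩
  · rw [← s1', ← s1]
    exact h.rf_step f.1.2.2.1 (by omega) (by omega)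
  · rw [s2', s2, e3 3 le_rfl]
  · rw [← s4' c hc, e3 c (by omega), s4 c hc]

end Main

end Pool.Agent.FlagOrb.Q.JUN

namespace Pool.Agent.FlagOrb.Q

open Equiv Set JUN

theorem stJUN (hRR : St_RR) (hFOLD : St_FOLD) : St_JUN := by
  intro F L _ _ n r φ h hn hH hD
  refine ⟨Jf r, wf r, Nf r, fun g hg x => ⟨J_aut hg, w_aut hg, N_aut h hg⟩, ?_, ?_, ?_, ?_, ?_, ?_⟩
  · intro x hx
    by_cases h1 : F1 r x
    · obtain ⟨hy, fy⟩ := fold1 h hn hH hD hFOLD hRR hx h1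
      rw [J_F1 h1]
      refine ⟨hy, by rw [J_F1 fy]; simp only [h.rr], by rw [w_F1 fy, w_F1 h1], ?_, ?_⟩
      · exact ⟨fun _ => ⟨fun a => h1.2.2 a.1.2.2.1, fun a => h1.2.2 a.1.1.2.2.1⟩,
          fun _ => ⟨fun a => fy.2.2 a.1.2.2.1, fun a => fy.2.2 a.1.1.2.2.1⟩⟩
      · exact (((InD.refl x).next ⟨by omega, by omega⟩ h1.1).next ⟨by omega, by omega⟩
          h1.2.1).next ⟨by omega, by omega⟩ h1.2.2
    by_cases h0 : F0 r x
    · obtain ⟨hy, fy⟩ := fold0 h hn hH hD hFOLD hRR hx h0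
      have jj : Jf r (Jf r x) = x := by rw [J_F0 h0, J_F0 fy]; simp only [h.rr]
      refine ⟨by rwa [J_F0 h0], jj, by rw [J_F0 h0, w_F0 fy, w_F0 h0], ?_, ?_⟩
      · unfold Nf
        rw [jj]
        rw [← J_F0 h0] at fy
        exact ⟨fun a => ⟨fun b => h0.2 b.2, fun b => a.2 ⟨fy, b.2.symm⟩⟩,
          fun a => ⟨fun b => fy.2 b.2, fun b => a.2 ⟨h0, b.2.symm⟩⟩⟩
      · rw [J_F0 h0]
        exact (((((InD.refl x).next ⟨by omega, by omega⟩ h0.1.1).next ⟨by omega, by omega⟩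
          h0.1.2.1).next ⟨by omega, by omega⟩ h0.1.2.2.2).next ⟨by omega, by omega⟩ h0.2).next
          ⟨by omega, by omega⟩ (atu h hn hH hD hFOLD hx h0).2.1
    · rw [J_fix h1 h0]
      exact ⟨hx, J_fix h1 h0, rfl, Iff.rfl, InD.refl x⟩
  · intro x hx
    by_cases h1 : F1 r x
    · right
      rw [J_F1 h1, w_F1 h1]
      refine ⟨fun e => h1.2.1 ?_, by omega, by omega, fun a => (a ?_).elim⟩
      · have := e.step 2
        rwa [h.rr] at this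
      · exact ⟨fun a => h1.2.2 a.1.2.2.1, fun a => h1.2.2 a.1.1.2.2.1⟩
    by_cases h0 : F0 r x
    · right
      rw [J_F0 h0, w_F0 h0]
      refine ⟨fun e => h0.1.2.2.2 ?_, by omega, by omega, fun _ => rfl⟩
      have := (e.step 2).step 1
      rwa [h.rr, h.rr] at this
    · left
      refine ⟨J_fix h1 h0, w_le, by omega, fun a => w_A0 ?_⟩
      by_contra b
      exact a ⟨b, fun c => h0 c.1⟩
  · intro x hx j hj
    obtain ⟨w0, w1, m3, w4, w2⟩ := base h hn hH hD hx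
    have h3 := w_le (r := r) (x := x)
    rcases (by omega : j = 0 ∨ j = 1 ∨ j = 2 ∨ j = 3) with rfl | rfl | rfl | rfl
    · rw [up0]
      exact ⟨m3, fun c hc => w4 c (by omega)⟩
    · rw [up1]
      have m2 := w_1.1 hj
      exact ⟨mt h.wl_step.1 m2, fun c hc => (atp h hn hH hD hFOLD hx m2).2.1 c (by omega)⟩
    · rw [up2]
      obtain ⟨m2, m1, q2⟩ := w_2.1 hj
      refine ⟨mt h.wl_step.1 m1, fun c hc => ?_⟩
      rcases (by omega : c = 2 ∨ 3 ≤ c) with rfl | c3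
      exacts [q2, (atq h hn hH hD hFOLD hx m2).1 c c3]
    · rw [up3]
      obtain ⟨⟨m2, m1, q2, m0⟩, o1⟩ := w_3 hj
      refine ⟨mt h.wl_step.1 m0, fun c hc => ?_⟩
      rcases (by omega : c = 1 ∨ c = 2 ∨ 3 ≤ c) with rfl | rfl | c3
      exacts [o1, (h.wl_far (by omega) (by omega)).2 q2,
        (h.wl_far (by omega) (by omega)).2 ((atq h hn hH hD hFOLD hx m2).1 c c3)]
  · intro x hx j hj c hc mc
    obtain ⟨w0, w1, m3, w4, w2⟩ := base h hn hH hD hx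
    have h3 := w_le (r := r) (x := x)
    rcases (by omega : j = 0 ∨ j = 1 ∨ j = 2 ∨ j = 3) with rfl | rfl | rfl | rfl
    · rw [up0] at mc
      rcases (by omega : c = 0 ∨ c = 1 ∨ c = 2) with rfl | rfl | rfl
      exacts [absurd w0 mc, absurd w1 mc, Or.inl ⟨w_1.2 mc, rfl⟩]
    · rw [up1] at mc
      have m2 := w_1.1 hj
      rcases (by omega : c = 0 ∨ c = 1) with rfl | rfl
      · exact absurd (atp h hn hH hD hFOLD hx m2).1 mc
      by_cases q2 : Wl r (r 1 (r 2 x)) 2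
      · exact Or.inl ⟨w_2.2 ⟨m2, mc, q2⟩, rfl⟩
      · right
        rw [up1, up1, J_F1 ⟨m2, mc, q2⟩, h.rr]
    · rw [up2] at mc
      obtain ⟨m2, m1, q2⟩ := w_2.1 hj
      obtain rfl : c = 0 := by omega
      by_cases o1 : Wl r (r 0 (r 1 (r 2 x))) 1
      · exact Or.inl ⟨by rw [w_A0 ⟨⟨m2, m1, q2, mc⟩, o1⟩]; omega, rfl⟩
      · right
        rw [up2, up2, J_F0 ⟨⟨m2, m1, q2, mc⟩, o1⟩, h.rr, h.rr]
    · omega
  · intro x hx hN
    obtain ⟨w0, w1, m3, w4, w2⟩ := base h hn hH hD hx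
    by_cases m2 : Wl r x 2
    · refine ⟨x, 2, InD.refl x, by omega, m2, not_ss h w0 w1 w4
        (h.rf_ne m2 w0 (by omega) (by omega)) (h.rf_ne m2 w1 (by omega) (by omega))
        (h.rf_step_ne m2 w2 (Or.inl ⟨rfl, by omega⟩))
        fun c c1 c2 => h.rf_ne m2 (w4 c c1) (by omega) (by omega)⟩
    obtain ⟨p0, p3, s2, s0, s4⟩ := atp h hn hH hD hFOLD hx m2
    have hp : InD r 0 3 x (r 2 x) := (InD.refl x).next ⟨by omega, by omega⟩ m2
    by_cases m1 : Wl r (r 2 x) 1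
    · refine ⟨r 2 x, 1, hp, by omega, m1, not_ss h w0 w1 w4 ?_
        (h.rf_step_ne w1 m1 (Or.inl ⟨rfl, by omega⟩)).symm ?_ fun c c1 c2 => ?_⟩
      · rw [← s0]; exact h.rf_ne m1 p0 (by omega) (by omega)
      · rw [s2]; exact h.rf_ne m1 (p3 3 le_rfl) (by omega) (by omega)
      · rw [← s4 c c1]; exact h.rf_ne m1 (p3 c (by omega)) (by omega) (by omega)
    obtain ⟨q3, t2, t4, t0, t1⟩ := atq h hn hH hD hFOLD hx m2
    have hq : InD r 0 3 x (r 1 (r 2 x)) := hp.next ⟨by omega, by omega⟩ m1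
    by_cases q0 : Wl r (r 1 (r 2 x)) 0
    · refine ⟨r 1 (r 2 x), 0, hq, by omega, q0, not_ss h w0 w1 w4 (t0 q0) (fun he => ?_) ?_
        fun c c1 c2 => ?_⟩
      · have a := far_comm h q0 (q3 3 le_rfl) (by omega)
        rw [he, ← t2, ← h.rf_step (c' := 3) w1 (by omega) (by omega)] at a
        exact h.rf_adj ((h.wl_far (by omega) (by omega)).2 w1) w2 (by omega) a
      · rw [t2]; exact h.rf_ne q0 (q3 3 le_rfl) (by omega) (by omega)
      · rw [← t4 c c1]; exact h.rf_ne q0 (q3 c (by omega)) (by omega) (by omega)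
    by_cases q2 : Wl r (r 1 (r 2 x)) 2
    swap
    · have := (hD _ 3 (fold1 h hn hH hD hFOLD hRR hx ⟨m2, m1, q2⟩).1).1
      exact absurd ((h.wl_far (by omega) (by omega)).1 this) q0
    have h0 : F0 r x := ⟨⟨m2, m1, q2, q0⟩, fun o1 => hN.1 ⟨⟨m2, m1, q2, q0⟩, o1⟩⟩
    obtain ⟨hy, fy⟩ := fold0 h hn hH hD hFOLD hRR hx h0
    obtain ⟨e1, e2, e4⟩ := same0 h hn hH hD hFOLD hRR hx h0
    obtain ⟨y0, y1, -, y4, y2⟩ := base h hn hH hD hy
    refine ⟨_, 0, ((hq.next ⟨by omega, by omega⟩ q0).next ⟨by omega, by omega⟩ h0.2).next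
      ⟨by omega, by omega⟩ (atu h hn hH hD hFOLD hx h0).2.1, by omega, y0,
      not_ss h w0 w1 w4 (fun he => hN.2 ⟨h0, by rwa [J_F0 h0]⟩) ?_ ?_ fun c c1 c2 => ?_⟩
    · rw [← e1]; exact h.rf_ne y0 y1 (by omega) (by omega)
    · rw [← e2, ← h.rf_step (c' := 3) y0 (by omega) (by omega)]
      exact h.rf_ne ((h.wl_far (by omega) (by omega)).2 y0) y2 (by omega) (by omega)
    · rw [← e4 c c1]; exact h.rf_ne y0 (y4 c c1) (by omega) (by omega)
  · intro x hx hN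
    by_cases hA : A0 r x
    · rw [J_fix (fun a => a.2.2 hA.1.2.2.1) fun a => a.2 hA.2]
    have hb : F0 r x ∧ rf r (Jf r x) 0 = rf r x 0 := by
      by_contra b
      exact hN ⟨hA, b⟩
    obtain ⟨h0, e0⟩ := hb
    rw [J_F0 h0] at e0 ⊢
    obtain ⟨hy, fy⟩ := fold0 h hn hH hD hFOLD hRR hx h0
    obtain ⟨e1, e2, e4⟩ := same0 h hn hH hD hFOLD hRR hx h0
    obtain ⟨w0, w1, -, w4, -⟩ := base h hn hH hD hx
    obtain ⟨y0, y1, -, y4, -⟩ := base h hn hH hD hy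
    exact Subset.antisymm (ss_sub h hn y0 y1 y4 e0 e1 e2 e4)
      (ss_sub h hn w0 w1 w4 e0.symm e1.symm e2.symm fun c hc => (e4 c hc).symm)

end Pool.Agent.FlagOrb.Q
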