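import Pool.Agent.Lib.MP_7157e1_co.QBlue

namespace Pool.Agent.FlagOrb.Q

open Equiv Set

namespace LEG

variable {F L : Type} [Lattice L] [Finite F] {n : ℕ} {r : ℕ → Perm F} {φ : ℕ → F → L}

omit [Finite F] in
lemma wl_ge (h : PS n r φ) (x : F) {c : ℕ} (hc : n ≤ c) : Wl r x c := by
  unfold Wl
  rw [h.triv c hc]
  exact Eqv.refl x

omit [Finite F] in
lemma lw_rev (h : PS n r φ) (hl : LW n r) : LW n (rev n r) := by
  intro x c c' h1 h2
  rw [h.wl_rev (by omega), h.wl_rev h2]
  exact (hl x (n - 1 - c') (n - 1 - c) (by omega) (by omega)).symm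

lemma mir (hN : St_NODBL) (h : PS n r φ) (hl : LW n r) {e : ℕ} {x : F} (h1 : 8 ≤ e)
    (h2 : e + 11 ≤ n) (hw : ∀ c, c < e → Wl r x c) (hm : ¬ Wl r x e) :
    ¬ Wl r (r e x) (e - 1) := by
  have := hN h.mirror (lw_rev h hl) (n - 1 - e) x (by omega) (by omega) (fun c hc => by
    by_cases hn : c < n
    · rw [h.wl_rev hn]; exact hw _ (by omega)
    · exact wl_ge h.mirror x (by omega))
    (by rw [h.wl_rev (by omega), show n - 1 - (n - 1 - e) = e by omega]; exact hm)
  rwa [h.wl_rev (by omega), rev_lt (by omega), show n - 1 - (n - 1 - e) = e by omega,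
    show n - 1 - (n - 1 - e + 1) = e - 1 by omega] at this

lemma push (hN : St_NODBL) (h : PS n r φ) (hl : LW n r) (lo : ℕ) (hlo : lo + 11 ≤ n) (t : ℕ) :
    ∀ (x : F) (hi : ℕ), hi + t = lo + 4 → lo + 2 ≤ hi → 10 ≤ hi → ¬ Wl r x lo → ¬ Wl r x hi →
      (∀ c, hi < c → Wl r x c) → False := by
  induction t with
  | zero =>
    intro x hi e _ _ a b _
    exact (hl x lo hi (by omega) (by omega)).elim a b
  | succ t ih =>
    intro x hi e h1 h2 a b hw
    refine ih (r hi x) (hi + 1) (by omega) (by omega) (by omega) ?_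
      (hN h hl hi x h2 (by omega) hw b) fun c hc => ?_
    · rw [h.wl_far (by omega) (by omega)]; exact a
    · rw [h.wl_far (by omega) (by omega)]; exact hw c (by omega)

lemma span (hN : St_NODBL) (h : PS n r φ) (hl : LW n r) {c : ℕ} {x : F} (h1 : 11 ≤ c)
    (h2 : c + 12 ≤ n) (hm : ¬ Wl r x c) {a b : ℕ} (hab : a + 2 ≤ b) (ha : ¬ Wl r x a)
    (hb : ¬ Wl r x b) : False := by
  classical
  have ex : ∃ k, ∀ d, k < d → Wl r x d := ⟨n, fun d hd => wl_ge h x hd.le⟩
  have hk := Nat.find_spec ex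
  have hkc : c ≤ Nat.find ex := by
    by_contra hc
    exact hm (hk c (by omega))
  have hkb : b ≤ Nat.find ex := by
    by_contra hc
    exact hb (hk b (by omega))
  have hmk : ¬ Wl r x (Nat.find ex) := by
    intro hw
    refine Nat.find_min ex (m := Nat.find ex - 1) (by omega) fun d hd => ?_
    by_cases e : d = Nat.find ex
    · rw [e]; exact hw
    · exact hk d (by omega)
  have hkn : Nat.find ex < n := by
    by_contra hc
    exact hmk (wl_ge h x (by omega))
  have h3 : Nat.find ex ≤ c + 3 := by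
    by_contra hc
    exact (hl x c _ (by omega) hkn).elim hm hmk
  have h4 : Nat.find ex ≤ a + 3 := by
    by_contra hc
    exact (hl x a _ (by omega) hkn).elim ha hmk
  exact push hN h hl a (by omega) (a + 4 - Nat.find ex) x _ (by omega) (by omega) (by omega)
    ha hmk hk

lemma op_of (hN : St_NODBL) (h : PS n r φ) (hl : LW n r) {c i : ℕ} {x : F} (h1 : 11 ≤ c)
    (h2 : c + 12 ≤ n) (hm : ¬ Wl r x c) (ha : ¬ Wl r x i) (hb : ¬ Wl r x (i + 1)) :
    OP r x (i + 1) := by
  intro d
  constructor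
  · intro hd
    by_contra hc
    rcases lt_or_gt_of_ne (show d ≠ i by omega) with e | e
    · exact span hN h hl h1 h2 hm (a := d) (b := i + 1) (by omega) hd hb
    · exact span hN h hl h1 h2 hm (a := i) (b := d) (by omega) ha hd
  · rintro (e | e)
    · rwa [show d = i by omega]
    · rwa [e]

end LEG

open LEG in
theorem stLEG (hNODBL : St_NODBL) : St_LEG := by
  intro F L _ _ n r φ h hl c x h1 h2 hm
  have hm' : ¬ Wl r (r c x) c := by rwa [h.wl_step]
  obtain ⟨b, rfl⟩ : ∃ b, c = b + 1 := ⟨c - 1, by omega⟩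
  have up : Wl r x (b + 1 + 1) → ¬ Wl r (r (b + 1) x) (b + 1 + 1) := fun hw =>
    hNODBL h hl (b + 1) x (by omega) (by omega) (fun d hd => by
      by_cases e : d = b + 1 + 1
      · rwa [e]
      · by_contra hc
        exact span hNODBL h hl h1 h2 hm (a := b + 1) (b := d) (by omega) hm hc) hm
  have dn : Wl r x b → ¬ Wl r (r (b + 1) x) b := fun hw =>
    mir hNODBL h hl (e := b + 1) (by omega) (by omega) (fun d hd => by
      by_cases e : d = b
      · rwa [e]
      · by_contra hc
        exact span hNODBL h hl h1 h2 hm (a := d) (b := b + 1) (by omega) hc hm) hm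
  by_cases hu : Wl r x (b + 1 + 1)
  · by_cases hd : Wl r x b
    · exact (span hNODBL h hl h1 h2 hm' (a := b) (b := b + 1 + 1) (by omega) (dn hd) (up hu)).elim
    · exact Or.inl ⟨op_of hNODBL h hl h1 h2 hm hd hm, op_of hNODBL h hl h1 h2 hm' hm' (up hu)⟩
  · have hd : Wl r x b := by
      by_contra hd
      exact span hNODBL h hl h1 h2 hm (a := b) (b := b + 1 + 1) (by omega) hd hu
    exact Or.inr ⟨op_of hNODBL h hl h1 h2 hm hm hu, op_of hNODBL h hl h1 h2 hm' (dn hd) hm'⟩

end Pool.Agent.FlagOrb.Q
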