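import Pool.Agent.Lib.MP_7157e1_co.QBlue

/-! Locality gives braid relations in a window. -/

namespace Pool.Agent.FlagOrb.Q

open Equiv Set

theorem stLINK (hSEC : St_SEC) (hP3 : St_P3) : St_LINK := by
  intro F L _ _ n r φ h u hu hn hloc l x h1 h2
  obtain ⟨F', _, r', φ', e, hS, e1, e2, e3, e4⟩ := hSEC h u (u + 43) x (by omega) (by omega)
  rw [Nat.add_sub_cancel_left] at hS
  have hfar : Far {1, n - 2} u (u + 43) := by
    rintro c (rfl | rfl) <;> omega
  have hLW : LW 43 r' := by
    intro z c c' hc hc'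
    obtain ⟨g, g1, g2⟩ := hloc (e z)
    by_cases hg : u + c < g
    · refine Or.inl (e4 _ hfar z _ ⟨r 1, W_gen (Or.inl rfl), ?_⟩)
      rw [e2 c z (by omega)]
      exact (g1 _ (by omega) hg (by omega)).symm
    · refine Or.inr (e4 _ hfar z _ ⟨r (n - 2), W_gen (Or.inr rfl), ?_⟩)
      rw [e2 c' z (by omega)]
      exact (g2 _ (by omega) (by omega) (by omega)).symm
  obtain ⟨z, rfl⟩ := (e1 x).1 (Rch.refl x)
  have := hP3 hS hLW (l - u) z (by omega) (by omega)
  rwa [e3 _ z (by omega), show u + (l - u) = l by omega] at this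

end Pool.Agent.FlagOrb.Q
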