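import Pool.Agent.Lib.MP_7157e1_co.QKit

/-! Quadratic range: the top moving colour is pushed up. -/

namespace Pool.Agent.FlagOrb.Q

open Equiv Set

namespace NODBL

variable {F L : Type} [Lattice L] [Finite F] {n : ℕ} {r : ℕ → Perm F} {φ : ℕ → F → L}

omit [Finite F] in
lemma keep (h : PS n r φ) {a c : ℕ} {y z : F} (hz : Rch r (Ico 0 a) y z) (hc : a < c)
    (hw : Wl r y c) : Wl r z c ∧ rf r z c = rf r y c :=
  ⟨hz.ind (fun c _ => h.inv c) (P := fun z => Wl r z c) hw fun _ c' hc' _ ih =>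
    (h.wl_far (by have := hc'.2; omega) (by have := hc'.2; omega)).2 ih,
    h.rf_rch hw hz fun c' hc' => by have := hc'.2; omega⟩

lemma forkU (h : PS n r φ) {e : ℕ} {y z : F} (he : e + 8 ≤ n)
    (hw : ∀ j ≤ 6, Wl r y (e + 1 + j)) (hm : ¬ Wl r y e) (hw' : Wl r (r e y) (e + 1))
    (hz : InD r 0 (e + 1) y z) (h1 : Wl r z (e + 1)) : ¬ Wl r z e := by
  intro h0
  classical
  obtain ⟨C, hC⟩ := (h.wall (a := 0) (b := n) le_rfl y).1.exC
  have dy : InD r 0 n y (r e y) := (InD.refl y).next ⟨by omega, by omega⟩ hm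
  have dz : InD r 0 n y z := hz.mono le_rfl (by omega)
  have ry : Rch r (Ico 0 (e + 1)) y (r e y) := Rch.step (mem_Ico.2 ⟨by omega, by omega⟩) y
  have hw2 : ∀ j ≤ 6, Wl r (r e y) (e + 1 + j) := by
    rintro (_ | j) hj
    · exact hw'
    · exact (keep h ry (by omega) (hw _ hj)).1
  have p := h.wl_path le_rfl (InD.refl y) (Nat.zero_le _) (by omega) hw
  have p' := h.wl_path le_rfl dy (Nat.zero_le _) (by omega) hw2
  have y2 := keep h ry (c := e + 1 + 1) (by omega) (hw 1 (by omega))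
  have y3 := keep h ry (c := e + 1 + 2) (by omega) (hw 2 (by omega))
  have z2 := keep h hz.toRch (c := e + 1 + 1) (by omega) (hw 1 (by omega))
  have z3 := keep h hz.toRch (c := e + 1 + 2) (by omega) (hw 2 (by omega))
  have ne : rf r y (e + 1) ≠ rf r (r e y) (e + 1) :=
    h.rf_step_ne (hw 0 (by omega)) hw' (Or.inr ⟨rfl, by omega⟩)
  have a1 : ¬ Commute (rf r y (e + 1 + 1)) (rf r y (e + 1)) := adj_symm (p.adj 0 (by omega))
  have a2 : ¬ Commute (rf r y (e + 1 + 1)) (rf r (r e y) (e + 1)) := by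
    rw [← y2.2]; exact adj_symm (p'.adj 0 (by omega))
  have a3 : ¬ Commute (rf r y (e + 1 + 1)) (rf r y (e + 1 + 2)) := p.adj 1 (by omega)
  have a4 : ¬ Commute (rf r y (e + 1 + 1)) (rf r z (e + 1)) := by
    rw [← z2.2]; exact adj_symm (h.rf_adj h1 z2.1 (by omega))
  have n1 : rf r y (e + 1) ≠ rf r y (e + 1 + 2) :=
    h.rf_ne (hw 0 (by omega)) (hw 2 (by omega)) (by omega) (by omega)
  have n2 : rf r (r e y) (e + 1) ≠ rf r y (e + 1 + 2) := by
    rw [← y3.2]; exact h.rf_ne hw' y3.1 (by omega) (by omega)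
  have m0 : rf r z e ∈ Walls r 0 n y := wall_mem dz ⟨by omega, by omega⟩ h0
  have a5 : ¬ Commute (rf r z (e + 1)) (rf r z e) := adj_symm (h.rf_adj h0 h1 (by omega))
  have n3 : rf r z e ≠ rf r y (e + 1 + 1) := by
    rw [← z2.2]; exact h.rf_ne h0 z2.1 (by omega) (by omega)
  rcases hC.val4 (p.mem 1 (by omega)) (p.mem 0 (by omega)) (p'.mem 0 (by omega))
    (p.mem 2 (by omega)) (wall_mem dz ⟨by omega, by omega⟩ h1) a1 a2 a3 a4 ne n1 n2 with k | k | k
  · exact n3 (hC.dead p (p'.mem 0 (by omega)) ne.symm n2 a2 m0 (k ▸ a5))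
  · refine n3 ((hC.dead p' (p.mem 0 (by omega)) ne ?_ ?_ m0 (k ▸ a5)).trans y2.2)
    · change rf r y (e + 1) ≠ rf r (r e y) (e + 1 + 2)
      rwa [y3.2]
    · change ¬ Commute (rf r (r e y) (e + 1 + 1)) (rf r y (e + 1))
      rwa [y2.2]
  · change rf r z (e + 1) = rf r y (e + 1 + 2) at k
    rw [← z3.2] at k
    exact h.rf_ne h1 z3.1 (by omega) (by omega) k

lemma forkD (h : PS n r φ) {c : ℕ} {y z : F} (h7 : 7 ≤ c) (hc : c < n)
    (hw : ∀ j < c, Wl r y j) (hm : ¬ Wl r y c) (hw' : Wl r (r c y) (c - 1))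
    (hz : InD r c n y z) (h1 : Wl r z (c - 1)) : ¬ Wl r z c := by
  have e0 : n - 1 - (n - 1 - c) = c := by omega
  have e1 : n - 1 - (n - 1 - c + 1) = c - 1 := by omega
  have := forkU h.mirror (e := n - 1 - c) (y := y) (z := z) (by omega)
    (fun j hj => by rw [h.wl_rev (by omega)]; exact hw _ (by omega))
    (by rwa [h.wl_rev (by omega), e0])
    (by rwa [h.wl_rev (by omega), rev_lt (by omega), e0, e1])
    (by
      have := h.mirror.InD_rev (a := c) (b := n) le_rfl (x := y) (y := z) (by rwa [h.rev_rev])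
      rwa [Nat.sub_self, show n - c = n - 1 - c + 1 by omega] at this)
    (by rwa [h.wl_rev (by omega), e1])
  rwa [h.wl_rev (by omega), e0] at this

end NODBL

open NODBL in
theorem stNODBL (hIRR : St_IRR) : St_NODBL := by
  intro F L _ _ n r φ h H e x e10 e8 hw hm hw'
  classical
  have hi : ∀ z, InD r 0 (e + 1) x z → ∀ c, e + 1 < c → Wl r z c ∧ rf r z c = rf r x c :=
    fun z hz c hc => keep h hz.toRch hc (hw c (by omega))
  have mv : ∀ z, InD r 0 (e + 1) x z → Wl r z (e + 1) → ¬ Wl r z e := fun z hz =>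
    forkU h e8 (fun j _ => hw _ (by omega)) hm hw' hz
  have ex : ∃ c, ∃ z, InD r 0 (e + 1) x z ∧ ¬ Wl r z c := ⟨e, x, InD.refl x, hm⟩
  obtain ⟨c, ⟨z0, hz0, m0⟩, lo⟩ : ∃ c, (∃ z, InD r 0 (e + 1) x z ∧ ¬ Wl r z c) ∧
      ∀ c' < c, ∀ z, InD r 0 (e + 1) x z → Wl r z c' :=
    ⟨Nat.find ex, Nat.find_spec ex, fun c' hc' z hz => by
      by_contra k
      exact Nat.find_min ex hc' ⟨z, hz, k⟩⟩
  have ce : c ≤ e := by
    by_contra k
    exact hm (lo e (by omega) x (InD.refl x))
  have c7 : 7 ≤ c := by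
    by_contra k
    by_cases k1 : Wl r z0 (e + 1)
    · exact mv z0 hz0 k1 ((H z0 c e (by omega) (by omega)).resolve_left m0)
    · exact k1 ((H z0 c (e + 1) (by omega) (by omega)).resolve_left m0)
  have cm : ∀ z, InD r 0 (e + 1) x z → ¬ Wl r z c := by
    intro z hz
    refine forkD h c7 (by omega) (fun j hj => lo j hj z0 hz0) m0
      (lo _ (by omega) _ (hz0.next ⟨by omega, by omega⟩ m0)) ?_ (lo _ (by omega) z hz)
    refine ((h.InD_symm hz0).trans hz).ind (P := fun z => InD r c n z0 z) (InD.refl z0)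
      fun y c' hy hc' k ih => ih.next ⟨?_, by have := hc'.2; omega⟩ k
    by_contra k'
    exact k (lo c' (by omega) y (hz0.trans hy))
  have top : ∀ z, InD r 0 (e + 1) x z → Wl r z (e + 1) := by
    intro z hz
    by_contra m1
    have ce' : c ≠ e := by
      rintro rfl
      have : z = x ∨ z = r c x := by
        refine hz.ind (P := fun z => z = x ∨ z = r c x) (Or.inl rfl) fun y c' hy hc' k ih => ?_
        have : c' = c := by
          by_contra k'
          exact k (lo c' (by have := hc'.2; omega) y hy)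
        subst this
        rcases ih with rfl | rfl
        · exact Or.inr rfl
        · exact Or.inl (h.rr _ _)
      rcases this with rfl | rfl
      · exact m1 (hw _ (by omega))
      · exact m1 hw'
    obtain ⟨C, hC⟩ := (h.wall (a := 0) (b := n) le_rfl x).1.exC
    have dx : InD r 0 (e + 1) x (r e x) := (InD.refl x).next ⟨by omega, by omega⟩ hm
    have p := h.wl_path (c := e + 1) (m := 6) le_rfl (InD.refl x) (Nat.zero_le _) (by omega)
      fun j _ => hw _ (by omega)
    have x2 := hi _ dx (e + 1 + 1) (by omega)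
    have x3 := hi _ dx (e + 1 + 2) (by omega)
    have fk := fun j j1 j2 t ht => hC.fork2 (j := j) (t' := t) p
      (wall_mem (dx.mono le_rfl (show e + 1 ≤ n by omega)) ⟨by omega, by omega⟩ hw')
      (h.rf_step_ne (hw _ (by omega)) hw' (Or.inr ⟨rfl, by omega⟩)).symm
      (by
        change rf r (r e x) (e + 1) ≠ rf r x (e + 1 + 2)
        rw [← x3.2]; exact h.rf_ne hw' x3.1 (by omega) (by omega))
      (by
        change ¬ Commute (rf r x (e + 1 + 1)) (rf r (r e x) (e + 1))
        rw [← x2.2]; exact adj_symm (h.rf_adj hw' x2.1 (by omega))) j1 j2 ht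
    have push : ∀ j, 1 ≤ j → j ≤ 2 → ∀ y, InD r 0 (e + j) x y → ¬ Wl r y (e + j) →
        ¬ Wl r (r (e + j) y) (e + 1 + j) := by
      intro j j1 j2 y hy k k'
      have hy' : InD r 0 (e + j + 1) x (r (e + j) y) :=
        (hy.mono le_rfl (by omega)).next ⟨by omega, by omega⟩ k
      have b0 := keep h hy.toRch (c := e + 1 + j) (by omega) (hw _ (by omega))
      have b1 := keep h hy'.toRch (c := e + 1 + (j + 1)) (by omega) (hw _ (by omega))
      have b2 := keep h hy'.toRch (c := e + 1 + (j + 2)) (by omega) (hw _ (by omega))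
      rcases fk j j1 (by omega) _
        (wall_mem (hy'.mono le_rfl (show e + j + 1 ≤ n by omega)) ⟨by omega, by omega⟩ k')
        (by
          change ¬ Commute (rf r x (e + 1 + (j + 1))) _
          rw [← b1.2]; exact adj_symm (h.rf_adj k' b1.1 (by omega))) with q | q
      · change _ = rf r x (e + 1 + j) at q
        rw [← b0.2] at q
        exact h.rf_step_ne b0.1 k' (Or.inr ⟨by omega, by omega⟩) q.symm
      · change _ = rf r x (e + 1 + (j + 2)) at q
        rw [← b2.2] at q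
        exact h.rf_ne k' b2.1 (by omega) (by omega) q
    have m2 := push 1 le_rfl (by omega) z hz m1
    have m3 := push 2 (by omega) le_rfl _
      ((hz.mono le_rfl (show e + 1 ≤ e + 2 by omega)).next ⟨by omega, by omega⟩ m1) m2
    refine m3 ((H _ c _ (by omega) (by omega)).resolve_left ?_)
    rw [h.wl_far (by omega) (by omega), h.wl_far (by omega) (by omega)]
    exact cm z hz
  have up : ∀ z, InD r 0 (e + 1) x z → ∀ c', e < c' → Wl r z c' := fun z hz c' hc' => by
    rcases (Nat.succ_le_of_lt hc').eq_or_lt with rfl | k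
    exacts [top z hz, (hi z hz c' k).1]
  have all : ∀ y, ∃ z, InD r 0 (e + 1) x z ∧ Eqv r z y := by
    intro y
    obtain ⟨γ, hγ, z, hz, rfl⟩ := h.decomp (a := 0) (b := n) subset_rfl (h.all x y)
    refine ⟨z, ?_, γ, WallsI.aut subset_rfl hγ, rfl⟩
    refine hz.ind (InD.refl x) fun y c' _ _ k ih => ih.next ⟨Nat.zero_le _, ?_⟩ k
    by_contra k'
    exact k (up y ih c' (by omega))
  refine hm (hIRR h e (by omega) (fun y => ?_) (fun y => ?_) (fun y c' hc' => ?_) x)
  all_goals obtain ⟨z, hz, k⟩ := all y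
  exacts [(lo 0 (by omega) z hz).eqv k, (lo 1 (by omega) z hz).eqv k, (up z hz c' hc').eqv k]

end Pool.Agent.FlagOrb.Q
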