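import Pool.Agent.Lib.MP_7157e1_co.QKit

/-! No leg: a single type. -/

namespace Pool.Agent.FlagOrb.Q

open Equiv Set

namespace NOPOS

lemma low (hUW : St_UW) {F L : Type} [Lattice L] [Finite F] {n : ℕ} {r : ℕ → Perm F}
    {φ : ℕ → F → L} (h : PS n r φ) (hn : 20 ≤ n) (hw : ∀ x c, 3 ≤ c → c < n - 3 → Wl r x c) :
    ∀ x c, 1 ≤ c → c < n - 3 → Wl r x c := by
  have h2 : ∀ x c, 2 ≤ c → c < n - 3 → Wl r x c := by
    intro x c c1 c2
    by_cases e : c = 2
    · subst e
      by_contra hx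
      have := hUW h 2 (n - 3) x (by omega) (by omega) (fun z _ c a b => hw z c (by omega) b) hx
      omega
    · exact hw x c (by omega) c2
  intro x c c1 c2
  by_cases e : c = 1
  · subst e
    by_contra hx
    have := hUW h 1 (n - 3) x (by omega) (by omega) (fun z _ c a b => h2 z c (by omega) b) hx
    omega
  · exact h2 x c (by omega) c2

end NOPOS

theorem stNOPOS (hUW : St_UW) : St_NOPOS := by
  intro F L _ _ _ n r φ h hn hw
  have h1 := NOPOS.low hUW h hn hw
  have h2 := NOPOS.low hUW h.mirror hn fun x c c1 c2 => by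
    rw [h.wl_rev (by omega)]
    exact hw x _ (by omega) (by omega)
  have h3 : ∀ x c, 1 ≤ c → c + 2 ≤ n → Wl r x c := by
    intro x c c1 c2
    by_cases e : c < n - 3
    · exact h1 x c c1 e
    · have := h2 x (n - 1 - c) (by omega) (by omega)
      rwa [h.wl_rev (by omega), show n - 1 - (n - 1 - c) = c by omega] at this
  obtain ⟨x0⟩ := ‹Nonempty F›
  have hc : ∀ x, r 0 (r (n - 1) x) = r (n - 1) (r 0 x) := fun x => h.capp (by omega) x
  let f : Fin 4 → F := ![x0, r 0 x0, r (n - 1) x0, r 0 (r (n - 1) x0)]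
  have key : ∀ y, ∃ i, Eqv r y (f i) := by
    intro y
    refine (h.all x0 y).ind (fun c _ => h.inv c) (P := fun y => ∃ i, Eqv r y (f i))
      ⟨0, Eqv.refl _⟩ ?_
    rintro y c hcI _ ⟨i, hi⟩
    have s := hi.step c
    by_cases e0 : c = 0
    · subst e0
      fin_cases i
      · exact ⟨1, s⟩
      · exact ⟨0, by have t : Eqv r (r 0 y) (r 0 (r 0 x0)) := s; rwa [h.rr] at t⟩
      · exact ⟨3, s⟩
      · exact ⟨2, by have t : Eqv r (r 0 y) (r 0 (r 0 (r (n - 1) x0))) := s; rwa [h.rr] at t⟩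
    by_cases e1 : c = n - 1
    · subst e1
      fin_cases i
      · exact ⟨2, s⟩
      · exact ⟨3, by have t : Eqv r (r (n - 1) y) (r (n - 1) (r 0 x0)) := s; rwa [← hc] at t⟩
      · exact ⟨0, by
          have t : Eqv r (r (n - 1) y) (r (n - 1) (r (n - 1) x0)) := s
          rwa [h.rr] at t⟩
      · exact ⟨1, by
          have t : Eqv r (r (n - 1) y) (r (n - 1) (r 0 (r (n - 1) x0))) := s
          rwa [hc, h.rr] at t⟩
    · have := hcI.2
      exact ⟨i, Eqv.trans (Eqv.symm (h3 y c (by omega) (by omega))) hi⟩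
  have hle : nty r ≤ 4 := by
    have := Nat.card_le_card_of_surjective
      (fun i : Fin 4 => (Quotient.mk (tySetoid r) (f i))) (by
        rintro ⟨y⟩
        obtain ⟨i, hi⟩ := key y
        exact ⟨i, Quotient.sound hi.symm⟩)
    simpa [nty] using this
  have : Nonempty F := ⟨x0⟩
  rcases h.core (by omega) with k | k
  · exact k
  · omega

end Pool.Agent.FlagOrb.Q
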