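import Pool.Agent.Lib.MP_7157e1_co.QBlue

/-! All periods in the middle are three when the moving colours lie in a short window. -/

namespace Pool.Agent.FlagOrb.Q

open Equiv Set

namespace P3

variable {F L : Type} [Lattice L] {n : ℕ} {r : ℕ → Perm F} {φ : ℕ → F → L} {x : F} {i c : ℕ}

lemma wl (o : OP r x i) (h1 : c + 1 ≠ i) (h2 : c ≠ i) : Wl r x c := by
  by_contra hw
  rcases (o c).1 hw with e | e
  exacts [h1 e, h2 e]

lemma mv (o : OP r x i) : ¬ Wl r x i := (o i).2 (Or.inr rfl)

lemma mv' (o : OP r x (i + 1)) : ¬ Wl r x i := (o i).2 (Or.inl rfl)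

lemma win [Finite F] (h : PS n r φ) {j : ℕ} (hj : j + 5 ≤ n)
    (hw : ∀ c, j ≤ c → c < j + 5 → Wl r x c) : per r (j + 1) x = 3 ∧ per r (j + 2) x = 3 := by
  refine h.E4 hj x fun y hy i _ => (Eqv.per_eq ?_ _).symm
  exact hy.ind (fun c _ => h.inv c) (P := fun y => Eqv r x y) (Eqv.refl x)
    fun y c hc _ ih => ih.trans ((hw c hc.1 hc.2).eqv ih)

lemma hex [Finite F] (h : PS n r φ) {j : ℕ} (hj : j + 1 < n) (w0 : Wl r x (j + 1))
    (w2 : Wl r (r (j + 1) (r j x)) j) (e : rf r x (j + 1) = rf r (r (j + 1) (r j x)) j) :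
    per r j x = 3 := by
  have e1 := rf_app w2
  rw [← e, Aut.app (rf_aut _ _), Aut.app (rf_aut _ _), rf_app w0] at e1
  have e2 : ((r j * r (j + 1)) ^ 3) x = x := by
    simp only [pow_three, Perm.mul_apply]
    rw [e1, h.rr, h.rr, h.rr]
  have h1 := Nat.le_of_dvd (by norm_num) (per_dvd.2 e2)
  have h2 := h.per_ge hj x
  omega

lemma two [Finite F] (h : PS n r φ) {j : ℕ} (hn : j + 3 ≤ n) {y y1 y2 y3 : F} (e1 : y1 = r j y)
    (e2 : y2 = r (j + 1) y1) (e3 : y3 = r (j + 2) y2) (o0 : OP r y j) (o1 : OP r y1 (j + 1))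
    (o2 : OP r y2 (j + 2)) (o3 : OP r y3 (j + 3)) :
    rf r y (j + 1) = rf r y2 j ∨ rf r y1 (j + 2) = rf r y3 (j + 1) := by
  classical
  have hm := (h.wall (a := j) (b := j + 3) hn y).2
  have f1 : r j y1 = y := by rw [e1, h.rr]
  have f2 : r (j + 1) y2 = y1 := by rw [e2, h.rr]
  have f3 : r (j + 2) y3 = y2 := by rw [e3, h.rr]
  have hD : ∀ w, InD r j (j + 3) y w → w = y ∨ w = y1 ∨ w = y2 ∨ w = y3 := by
    intro w hw
    refine hw.ind (P := fun w => w = y ∨ w = y1 ∨ w = y2 ∨ w = y3) (Or.inl rfl) ?_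
    intro z c _ hc hw ih
    have c1 := hc.1
    have c2 := hc.2
    rcases ih with e | e | e | e <;> rw [e] at hw ⊢
    · obtain rfl : c = j := by have := (o0 c).1 hw; omega
      exact Or.inr (Or.inl e1.symm)
    · obtain rfl | rfl : c = j ∨ c = j + 1 := by have := (o1 c).1 hw; omega
      exacts [Or.inl f1, Or.inr (Or.inr (Or.inl e2.symm))]
    · obtain rfl | rfl : c = j + 1 ∨ c = j + 2 := by have := (o2 c).1 hw; omega
      exacts [Or.inr (Or.inl f2), Or.inr (Or.inr (Or.inr e3.symm))]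
    · obtain rfl : c = j + 2 := by have := (o3 c).1 hw; omega
      exact Or.inr (Or.inr (Or.inl f3))
  have u2 : rf r y1 (j + 2) = rf r y (j + 2) := by
    rw [e1]
    exact h.rf_step (wl o0 (by omega) (by omega)) (by omega) (by omega)
  have l0 : rf r y3 j = rf r y2 j := by
    rw [e3]
    exact h.rf_step (wl o2 (by omega) (by omega)) (by omega) (by omega)
  have hM : ∀ g k, Meet r j (j + 3) y g k →
      (g = rf r y1 (j + 2) ∨ g = rf r y2 j) ∨ k = rf r y1 (j + 2) ∨ k = rf r y2 j := by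
    rintro g k ⟨w, c, c', t, w', e, hw, hc, hc', hcc, hwl, hs, rfl, rfl⟩
    have c1 := hc.1
    have c2 := hc.2
    have c3 := hc'.1
    have c4 := hc'.2
    rcases hD w hw with e | e | e | e <;> rw [e] at hwl hs ⊢
    · have := mt (o0 c).2 (not_not.2 hwl)
      obtain rfl | rfl : c = j + 1 ∨ c = j + 2 := by omega
      swap
      · exact Or.inl (Or.inl u2.symm)
      right
      obtain rfl | rfl : c' = j ∨ c' = j + 2 := by omega
      · cases hs with
        | zero => exact absurd ‹_› (mv o0)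
        | succ _ _ _ _ _ _ _ hs =>
          rw [← e1] at hs
          cases hs with
          | zero => exact absurd ‹_› (mv o1)
          | succ _ _ _ _ _ _ _ hs =>
            rw [← e2] at hs
            cases hs with
            | zero => exact Or.inr rfl
            | succ _ _ _ _ _ _ hn _ => exact absurd (wl o2 (by omega) (by omega)) hn
      · cases hs with
        | zero => exact Or.inl u2.symm
        | succ _ _ _ _ _ _ hn _ => exact absurd (wl o0 (by omega) (by omega)) hn
    · have := mt (o1 c).2 (not_not.2 hwl)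
      obtain rfl : c = j + 2 := by omega
      exact Or.inl (Or.inl rfl)
    · have := mt (o2 c).2 (not_not.2 hwl)
      obtain rfl : c = j := by omega
      exact Or.inl (Or.inr rfl)
    · have := mt (o3 c).2 (not_not.2 hwl)
      obtain rfl | rfl : c = j ∨ c = j + 1 := by omega
      · exact Or.inl (Or.inr l0)
      right
      obtain rfl | rfl : c' = j ∨ c' = j + 2 := by omega
      · cases hs with
        | zero => exact Or.inr l0
        | succ _ _ _ _ _ _ hn _ => exact absurd (wl o3 (by omega) (by omega)) hn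
      · cases hs with
        | zero => exact absurd ‹_› (mv' o3)
        | succ _ _ _ _ _ _ _ hs =>
          rw [f3] at hs
          cases hs with
          | zero => exact absurd ‹_› (mv' o2)
          | succ _ _ _ _ _ _ _ hs =>
            rw [f2] at hs
            cases hs with
            | zero => exact Or.inl rfl
            | succ _ _ _ _ _ _ hn _ => exact absurd (wl o1 (by omega) (by omega)) hn
  have w0 : Wl r y (j + 1) := wl o0 (by omega) (by omega)
  have w3 : Wl r y3 (j + 1) := wl o3 (by omega) (by omega)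
  have ne : rf r y (j + 1) ≠ rf r y3 (j + 1) := by
    intro he
    have a1 := rf_app w3
    rw [← he, e3, e2, e1, Aut.app (rf_aut _ _), Aut.app (rf_aut _ _), Aut.app (rf_aut _ _),
      rf_app w0] at a1
    have a2 := congrArg (φ (j + 1)) a1
    rw [h.same (j + 2) (j + 1) _ (by omega), h.same (j + 1) (j + 1) _ (by omega),
      h.same (j + 1) (j + 1) _ (by omega), h.same (j + 2) (j + 1) _ (by omega),
      h.same (j + 1) (j + 1) _ (by omega)] at a2
    apply h.ne_face (c := j + 1) (by omega) y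
    rw [← h.join j _ (by omega), ← h.join j y (by omega), a2, h.same (j + 1) (j + 1) _ (by omega)]
  have d1 : InD r j (j + 3) y y1 := e1 ▸ (InD.refl y).next ⟨by omega, by omega⟩ (mv o0)
  have d2 : InD r j (j + 3) y y2 := e2 ▸ d1.next ⟨by omega, by omega⟩ (mv o1)
  have d3 : InD r j (j + 3) y y3 := e3 ▸ d2.next ⟨by omega, by omega⟩ (mv o2)
  have n1 : rf r y (j + 1) ≠ rf r y1 (j + 2) := by
    rw [u2]
    exact h.rf_ne w0 (wl o0 (by omega) (by omega)) (by omega) (by omega)
  have n2 : rf r y3 (j + 1) ≠ rf r y2 j := by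
    rw [← l0]
    exact h.rf_ne w3 (wl o3 (by omega) (by omega)) (by omega) (by omega)
  rcases hm _ (wall_mem (InD.refl y) ⟨by omega, by omega⟩ w0) _
    (wall_mem d3 ⟨by omega, by omega⟩ w3) ne with hh | hh <;>
  rcases hM _ _ hh with (e | e) | e | e
  exacts [absurd e n1, Or.inl e, Or.inr e.symm, absurd e n2, Or.inr e.symm, absurd e n2,
    absurd e n1, Or.inl e]

lemma leg [Finite F] (h : PS n r φ) {k : ℕ} (hn : k + 4 ≤ n) {y0 y1 y2 y3 y4 : F}
    (e1 : y1 = r k y0) (e2 : y2 = r (k + 1) y1) (e3 : y3 = r (k + 2) y2) (e4 : y4 = r (k + 3) y3)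
    (o0 : OP r y0 k) (o1 : OP r y1 (k + 1)) (o2 : OP r y2 (k + 2)) (o3 : OP r y3 (k + 3))
    (o4 : OP r y4 (k + 4)) : per r (k + 1) y1 = 3 := by
  classical
  have key : rf r y1 (k + 2) = rf r y3 (k + 1) := by
    by_contra hne
    have p0 := (two h (by omega) e1 e2 e3 o0 o1 o2 o3).resolve_right hne
    have p2 := (two h (j := k + 1) (by omega) e2 e3 e4 o1 o2 o3 o4).resolve_left hne
    obtain ⟨C, hC⟩ := (h.wall (a := k) (b := k + 4) hn y0).1.exC
    have d1 : InD r k (k + 4) y0 y1 := e1 ▸ (InD.refl y0).next ⟨by omega, by omega⟩ (mv o0)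
    have d2 : InD r k (k + 4) y0 y2 := e2 ▸ d1.next ⟨by omega, by omega⟩ (mv o1)
    have d3 : InD r k (k + 4) y0 y3 := e3 ▸ d2.next ⟨by omega, by omega⟩ (mv o2)
    have d4 : InD r k (k + 4) y0 y4 := e4 ▸ d3.next ⟨by omega, by omega⟩ (mv o3)
    have w0 : Wl r y4 k := wl o4 (by omega) (by omega)
    have w1 : Wl r y4 (k + 1) := wl o4 (by omega) (by omega)
    have w2 : Wl r y4 (k + 2) := wl o4 (by omega) (by omega)
    have wu : Wl r y1 (k + 2) := wl o1 (by omega) (by omega)
    have s0 : rf r y4 k = rf r y2 k := by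
      rw [e4, h.rf_step (wl o3 (by omega) (by omega)) (by omega) (by omega), e3,
        h.rf_step (wl o2 (by omega) (by omega)) (by omega) (by omega)]
    have s1 : rf r y4 (k + 1) = rf r y3 (k + 1) := by
      rw [e4, h.rf_step (wl o3 (by omega) (by omega)) (by omega) (by omega)]
    have s2 : rf r y2 (k + 3) = rf r y1 (k + 3) := by
      rw [e2, h.rf_step (wl o1 (by omega) (by omega)) (by omega) (by omega)]
    have s3 : rf r y1 (k + 2) = rf r y0 (k + 2) := by
      rw [e1, h.rf_step (wl o0 (by omega) (by omega)) (by omega) (by omega)]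
    have a1 : ¬ Commute (rf r y4 (k + 1)) (rf r y4 k) := adj_symm (h.rf_adj w0 w1 (by omega))
    have a2 : ¬ Commute (rf r y4 (k + 2)) (rf r y4 (k + 1)) :=
      adj_symm (h.rf_adj w1 w2 (by omega))
    have a3 : ¬ Commute (rf r y1 (k + 2)) (rf r y4 (k + 2)) := by
      rw [← show rf r y2 (k + 3) = rf r y4 (k + 2) from p2, s2]
      exact h.rf_adj wu (wl o1 (by omega) (by omega)) (by omega)
    have a4 : ¬ Commute (rf r y1 (k + 2)) (rf r y4 k) := by
      rw [s0, ← p0, s3]
      exact adj_symm (h.rf_adj (wl o0 (by omega) (by omega)) (wl o0 (by omega) (by omega))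
        (by omega))
    have q0 := IsPath.single (wall_mem d4 ⟨by omega, by omega⟩ w0) (fun _ => rf r y4 k) rfl
    have q1 := q0.cons (wall_mem d4 ⟨by omega, by omega⟩ w1) (fun _ _ => ne_of_adj a1) a1
    have q2 := q1.cons (wall_mem d4 ⟨by omega, by omega⟩ w2) (by
      rintro (_ | i) _
      exacts [ne_of_adj a2, h.rf_ne w2 w0 (by omega) (by omega)]) a2
    have q3 := q2.cons (wall_mem d1 ⟨by omega, by omega⟩ wu) (by
      rintro (_ | _ | i) _
      exacts [ne_of_adj a3, fun e => hne (e.trans s1), ne_of_adj a4]) a3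
    exact a4 (hC.no_cycle q3 (by omega))
  refine hex h (by omega) (wl o1 (by omega) (by omega)) ?_ ?_
  · rw [← e2, ← e3]
    exact wl o3 (by omega) (by omega)
  · rw [← e2, ← e3]
    exact key

end P3

open P3 in
theorem stP3 (hLEG : St_LEG) : St_P3 := by
  intro F L _ _ n r φ h hLW l x h1 h2
  obtain ⟨m, rfl⟩ : ∃ m, l = m + 2 := ⟨l - 2, by omega⟩
  have up : ∀ c y, m ≤ c → c ≤ m + 5 → OP r y c → OP r (r c y) (c + 1) := fun c y c1 c2 o =>
    ((hLEG h hLW c y (by omega) (by omega) (mv o)).resolve_right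
      fun k => mv k.1 (wl o (by omega) (by omega))).2
  have dn : ∀ c y, m ≤ c → c ≤ m + 5 → OP r y (c + 1) → OP r (r c y) c := fun c y c1 c2 o =>
    ((hLEG h hLW c y (by omega) (by omega) (mv' o)).resolve_left
      fun k => mv o (wl k.1 (by omega) (by omega))).2
  have p2 : ∀ y, OP r y (m + 2) → per r (m + 2) y = 3 := fun y o => by
    have o2 := up _ _ (by omega) (by omega) o
    have o3 := up _ _ (by omega) (by omega) o2
    exact leg h (k := m + 1) (by omega) (h.rr _ y).symm rfl rfl rfl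
      (dn _ _ (by omega) (by omega) o) o o2 o3 (up _ _ (by omega) (by omega) o3)
  have p3 : ∀ y, OP r y (m + 3) → per r (m + 2) y = 3 := fun y o => by
    rw [← h.per_step (c := m + 2) (by omega) (by omega)]
    exact p2 _ (dn _ _ (by omega) (by omega) o)
  have p4 : ∀ y, OP r y (m + 4) → per r (m + 2) y = 3 := fun y o => by
    rw [← h.per_step (c := m + 3) (by omega) (by omega)]
    exact p3 _ (dn _ _ (by omega) (by omega) o)
  have p0 : ∀ y i, i ≤ m → OP r y i → per r (m + 2) y = 3 := fun y i hi o =>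
    (P3.win h (j := m + 1) (by omega) fun c c1 c2 => wl o (by omega) (by omega)).1
  have p6 : ∀ y, OP r y (m + 6) → per r (m + 2) y = 3 := fun y o =>
    (P3.win h (j := m) (by omega) fun c c1 c2 => wl o (by omega) (by omega)).2
  have p1 : ∀ y, OP r y (m + 1) → per r (m + 2) y = 3 := fun y o => by
    rw [← h.per_step (c := m) (by omega) (by omega)]
    exact p0 _ m le_rfl (dn _ _ (by omega) (by omega) o)
  have p5 : ∀ y, OP r y (m + 5) → per r (m + 2) y = 3 := fun y o => by
    rw [← h.per_step (c := m + 5) (by omega) (by omega)]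
    exact p6 _ (up _ _ (by omega) (by omega) o)
  by_cases hw : ∀ c, m ≤ c → c < m + 5 → Wl r x c
  · exact (P3.win h (by omega) hw).2
  push Not at hw
  obtain ⟨c, c1, c2, hc⟩ := hw
  obtain ⟨i, i1, i2, o⟩ : ∃ i, m ≤ i ∧ i ≤ m + 5 ∧ OP r x i := by
    rcases hLEG h hLW c x (by omega) (by omega) hc with k | k
    exacts [⟨c, c1, by omega, k.1⟩, ⟨c + 1, by omega, by omega, k.1⟩]
  obtain rfl | rfl | rfl | rfl | rfl | rfl :
    i = m ∨ i = m + 1 ∨ i = m + 2 ∨ i = m + 3 ∨ i = m + 4 ∨ i = m + 5 := by omega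
  exacts [p0 x _ le_rfl o, p1 x o, p2 x o, p3 x o, p4 x o, p5 x o]

end Pool.Agent.FlagOrb.Q
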