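import Pool.Agent.Lib.MP_7157e1_co.QBlue

/-! The chamber is a fundamental domain and its walls are independent generators. -/

namespace Pool.Agent.FlagOrb.Q

open Equiv Set

namespace PAR

theorem cover {F L : Type} [Lattice L] {n : ℕ} {r : ℕ → Perm F} {φ : ℕ → F → L} (h : PS n r φ)
    {a b : ℕ} (hb : b ≤ n) (x0 : F) {H : Type} [Group H] (s : Perm F → H)
    (ss : ∀ g, s g * s g = 1)
    (hs' : ∀ g ∈ Walls r a b x0, ∀ k ∈ Walls r a b x0, ∀ j : ℕ, (g * k) ^ j = 1 →
      (s g * s k) ^ j = 1) :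
    ∃ Γ : Set (Perm F × H), (1, 1) ∈ Γ ∧
      (∀ γ ∈ Γ, ∀ k ∈ Walls r a b x0, (γ.1 * k, γ.2 * s k) ∈ Γ) ∧
      ∀ γ ∈ Γ, ∀ γ' ∈ Γ, ∀ x x', InD r a b x0 x → InD r a b x0 x' → γ.1 x = γ'.1 x' → γ = γ' := by
  classical
  let G := Aut r × H
  let A : F → ℕ → G := fun x c => (⟨rf r x c, rf_aut x c⟩, s (rf r x c))
  have AA : ∀ x c, A x c * A x c = 1 := fun x c =>
    Prod.ext (Subtype.ext (h.rf_sq x c)) (ss _)
  let R0 : ℕ → F × G → F × G := fun c y =>
    if Wl r y.1 c then (y.1, y.2 * A y.1 c) else (r c y.1, y.2)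
  have R0w : ∀ c x g, Wl r x c → R0 c (x, g) = (x, g * A x c) := fun c x g hw => if_pos hw
  have R0n : ∀ c x g, ¬ Wl r x c → R0 c (x, g) = (r c x, g) := fun c x g hw => if_neg hw
  have R0i : ∀ c, Function.Involutive (R0 c) := by
    rintro c ⟨x, g⟩
    by_cases hw : Wl r x c
    · rw [R0w c x g hw, R0w c x _ hw, mul_assoc, AA, mul_one]
    · rw [R0n c x g hw, R0n c _ _ (by rwa [h.wl_step]), h.rr]
  let R : ℕ → Perm (F × G) := fun c => (R0i c).toPerm
  have Rw : ∀ c x g, Wl r x c → R c (x, g) = (x, g * A x c) := R0w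
  have Rn : ∀ c x g, ¬ Wl r x c → R c (x, g) = (r c x, g) := R0n
  have hR : ∀ c, R c * R c = 1 := fun c => by ext1 y; exact R0i c y
  let pr : F × G → F := fun y => (y.2.1 : Perm F) y.1
  have hpr : ∀ c y, pr (R c y) = r c (pr y) := by
    rintro c ⟨x, g⟩
    by_cases hw : Wl r x c
    · rw [Rw c x g hw]
      change (g.1 : Perm F) (rf r x c x) = r c ((g.1 : Perm F) x)
      rw [rf_app hw, Aut.app g.1.2]
    · rw [Rn c x g hw]
      exact Aut.app g.1.2 c x
  have hP : ∀ c ∈ Ico a b, ∀ y : F × G, InD r a b x0 y.1 → InD r a b x0 (R c y).1 := by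
    rintro c hc ⟨x, g⟩ hx
    by_cases hw : Wl r x c
    · rw [Rw c x g hw]; exact hx
    · rw [Rn c x g hw]; exact hx.next hc hw
  have hit : ∀ c c' x t x' e, Seg r c c' x t x' e → ∀ g,
      ((R c' * R c) ^ t * R c') (x, g) = (x, g * A x' e) := by
    intro c c' x t x' e hs
    induction hs with
    | zero c c' x hw => intro g; simpa using Rw c' x g hw
    | succ c c' x t x' e hw _ ih =>
      intro g
      apply (R c').injective
      rw [Rn c' x _ hw, ← ih g, ← Perm.mul_apply (R c'), ← mul_assoc, mul_pow_conj _ _ (hR c'),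
        pow_succ, ← Rn c' x g hw]
      simp [Perm.mul_apply, invol_apply (hR c')]
  -- the relation at a wall
  have relw : ∀ c ∈ Ico a b, ∀ c' ∈ Ico a b, c ≠ c' → ∀ (y : F × G), InD r a b x0 y.1 →
      Wl r y.1 c → ∀ m, ((r c' * r c) ^ m) (pr y) = pr y → ((R c' * R c) ^ m) y = y := by
    rintro c hc c' hc' hcc ⟨x, g⟩ hx hw m hm
    have hu : ∀ i, (r c' * r c) ^ i ∈ W r univ := fun i =>
      pow_mem (mul_mem (W_gen (mem_univ _)) (W_gen (mem_univ _))) i
    have hm' : ((r c' * r c) ^ m) x = x := by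
      apply (g.1 : Perm F).injective
      rw [Aut.appW g.1.2 (hu m)]; exact hm
    rcases m with _ | m
    · rfl
    have e1 : Eqv r x (((r c' * r c) ^ m * r c') x) := by
      have := Eqv.map hw (mul_mem (hu m) (W_gen (t := r) (c := c') (mem_univ _)))
      rw [← Perm.mul_apply, mul_assoc, ← pow_succ, hm'] at this
      exact this.symm
    obtain ⟨t, x', e, hs⟩ := h.seg_ex m c c' x e1
    obtain ⟨j, hj, hj1⟩ := h.seg_dvd hw hs hm'
    obtain ⟨hx', he, hw'⟩ := hs.ind hc hc' hx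
    have h2 : ∀ j g, ((R c' * R c) ^ ((t + 1) * j)) (x, g) = (x, g * (A x c * A x' e) ^ j) := by
      intro j
      induction j with
      | zero => intro g; simp
      | succ j ih =>
        intro g
        rw [mul_add, mul_one, add_comm, pow_add, Perm.mul_apply, ih, pow_succ, ← mul_assoc,
          Perm.mul_apply, Rw c x _ hw, hit _ _ _ _ _ _ hs, pow_succ]
        simp only [mul_assoc]
    rw [hj, h2]
    have : (A x c * A x' e) ^ j = 1 := by
      refine Prod.ext (Subtype.ext hj1) ?_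
      change (s (rf r x c) * s (rf r x' e)) ^ j = 1
      exact hs' _ (wall_mem hx hc hw) _ (wall_mem hx' he hw') j hj1
    rw [this, mul_one]
  have rel : ∀ c ∈ Ico a b, ∀ c' ∈ Ico a b, ∀ (y : F × G) (m : ℕ), InD r a b x0 y.1 →
      ((r c * r c') ^ m) (pr y) = pr y → ((R c * R c') ^ m) y = y := by
    intro c hc c' hc' y m hy hm
    by_cases hcc : c = c'
    · subst hcc
      rw [hR, one_pow]; rfl
    have hsub : ∀ d ∈ ({c, c'} : Set ℕ), d ∈ Ico a b := by
      rintro d (rfl | rfl) <;> assumption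
    by_cases hP' : ∀ z, Rch R {c, c'} y z → ¬ Wl r z.1 c ∧ ¬ Wl r z.1 c'
    · have key : ∀ m, Rch R {c, c'} y (((r c * r c') ^ m) y.1, y.2) ∧
          ((R c * R c') ^ m) y = (((r c * r c') ^ m) y.1, y.2) := by
        intro m
        induction m with
        | zero => exact ⟨Rch.refl _, rfl⟩
        | succ m ih =>
          have q1 := ih.1.next (c := c') (by simp)
          have w1 := Rn c' _ y.2 (hP' _ ih.1).2
          rw [w1] at q1
          have q2 := q1.next (c := c) (by simp)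
          have w2 := Rn c _ y.2 (hP' _ q1).1
          rw [w2] at q2
          refine ⟨by rw [pow_succ']; exact q2, ?_⟩
          rw [pow_succ', Perm.mul_apply, ih.2, Perm.mul_apply, w1, w2, pow_succ']; rfl
      rw [(key m).2]
      refine Prod.ext ?_ rfl
      apply (y.2.1 : Perm F).injective
      rw [Aut.appW y.2.1.2 (I := univ) (pow_mem (mul_mem (W_gen (mem_univ _)) (W_gen (mem_univ _))) m)]
      exact hm
    · push Not at hP'
      obtain ⟨z, hz, hwz⟩ := hP'
      have hzD : InD r a b x0 z.1 :=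
        hz.ind (fun d _ => hR d) (P := fun z => InD r a b x0 z.1) hy
          fun z d hd _ ih => hP d (hsub d hd) z ih
      let Q : F × G → Prop := fun z => ∀ m, ((r c * r c') ^ m) (pr z) = pr z →
        ((R c * R c') ^ m) z = z
      have Qz : Q z := by
        by_cases hw : Wl r z.1 c
        · intro m hm
          exact pow_swap_app (hR _) (hR _)
            (relw c hc c' hc' hcc z hzD hw m (pow_swap_app (h.inv _) (h.inv _) hm))
        · exact relw c' hc' c hc (Ne.symm hcc) z hzD (hwz hw)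
      refine hz.symm.ind (fun d _ => hR d) (P := Q) Qz ?_ m hm
      rintro z d (rfl | rfl) _ ih m hm
      · apply pow_swap_app (hR _) (hR _)
        rw [← mul_pow_conj _ _ (hR d)]
        simp only [Perm.mul_apply, invol_apply (hR d)]
        rw [ih m]
        have := pow_swap_app (h.inv _) (h.inv _) hm
        rw [← mul_pow_conj _ _ (h.inv d), hpr] at this
        simp only [Perm.mul_apply, h.rr] at this
        exact (r d).injective this
      · rw [← mul_pow_conj _ _ (hR d)]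
        simp only [Perm.mul_apply, invol_apply (hR d)]
        rw [pow_swap_app (hR _) (hR _) (ih m _)]
        rw [← mul_pow_conj _ _ (h.inv d), hpr] at hm
        simp only [Perm.mul_apply, h.rr] at hm
        exact pow_swap_app (h.inv _) (h.inv _) ((r d).injective hm)
  let O := {z | Rch R (Ico a b) (x0, 1) z}
  have hO : ∀ z ∈ O, InD r a b x0 z.1 := fun z hz =>
    Rch.ind (fun c _ => hR c) (P := fun z => InD r a b x0 z.1) (InD.refl _)
      (fun z c hc _ ih => hP c hc z ih) hz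
  have hinj : InjOn pr O := fun z hz z' hz' he =>
    (h.sc a b hb).rel R pr (fun z => InD r a b x0 z.1) (fun c _ => hR c) (fun c _ => hpr c) hP
      rel (hO z hz) (Rch.trans (Rch.symm hz) hz') he
  have walk : ∀ x, InD r a b x0 x → ∀ g, Rch R (Ico a b) (x0, g) (x, g) := by
    intro x hx g
    refine hx.ind (P := fun x => Rch R (Ico a b) (x0, g) (x, g)) (Rch.refl _) ?_
    intro y c _ hc hw ih
    rw [← Rn c y g hw]
    exact ih.next hc
  refine ⟨{γ | ∃ g : G, (x0, g) ∈ O ∧ γ = ((g.1 : Perm F), g.2)}, ⟨1, Rch.refl _, rfl⟩, ?_, ?_⟩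
  · rintro _ ⟨g, hg, rfl⟩ _ ⟨x, c, hx, hc, hw, rfl⟩
    refine ⟨g * A x c, ?_, rfl⟩
    have h1 := Rch.next (Rch.trans hg (walk x hx g)) hc
    rw [Rw c x g hw] at h1
    exact Rch.trans h1 (walk x hx _).symm
  · rintro _ ⟨g, hg, rfl⟩ _ ⟨g', hg', rfl⟩ x x' hx hx' he
    have := hinj (Rch.trans hg (walk x hx g)) (Rch.trans hg' (walk x' hx' g')) he
    rw [show g = g' from (Prod.ext_iff.1 this).2]

theorem reach {G H : Type} [Group G] [Group H] {s : G → H} {Γ : Set (G × H)} {T : Set G}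
    (hT : ∀ k ∈ T, k * k = 1) (P : H → Prop) (h1 : (1, 1) ∈ Γ) (p1 : P 1)
    (hΓ : ∀ γ ∈ Γ, ∀ k ∈ T, (γ.1 * k, γ.2 * s k) ∈ Γ) (hP : ∀ u, ∀ k ∈ T, P u → P (u * s k))
    {g : G} (hg : g ∈ Subgroup.closure T) : ∃ u, (g, u) ∈ Γ ∧ P u := by
  induction hg using Subgroup.closure_induction_right with
  | one => exact ⟨1, h1, p1⟩
  | mul_right x _ k hk ih =>
    obtain ⟨u, h2, h3⟩ := ih
    exact ⟨u * s k, hΓ _ h2 k hk, hP u k hk h3⟩
  | mul_inv_cancel x _ k hk ih =>
    obtain ⟨u, h2, h3⟩ := ih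
    rw [inv_eq_of_mul_eq_one_right (hT k hk)]
    exact ⟨u * s k, hΓ _ h2 k hk, hP u k hk h3⟩

end PAR

open PAR in
theorem stPAR : St_PAR := by
  intro F L _ _ n r φ h a b x0 hb
  classical
  have := Fintype.ofFinite F
  let S := {g // g ∈ Walls r a b x0}
  let _ : Fintype S := Fintype.ofFinite S
  let M : S → S → ℕ := fun g k => orderOf (g.1 * k.1)
  have hd : ∀ g, M g g = 1 := fun g => orderOf_eq_one_iff.2 (h.walls_sq g.2)
  have hsy : ∀ g k, M g k = M k g := fun g k => by
    simp only [M]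
    rw [← orderOf_inv, mul_inv_rev, inv_eq_of_mul_eq_one_right (h.walls_sq g.2),
      inv_eq_of_mul_eq_one_right (h.walls_sq k.2)]
  let s : Perm F → ((S → ℝ) ≃ₗ[ℝ] (S → ℝ)) := fun g =>
    if hg : g ∈ Walls r a b x0 then gR hd ⟨g, hg⟩ else 1
  have ss : ∀ g, s g * s g = 1 := by
    intro g
    simp only [s]
    split_ifs
    · exact gR_sq _ _
    · exact one_mul _
  have sw : ∀ g (hg : g ∈ Walls r a b x0), s g = gR hd ⟨g, hg⟩ := fun g hg => dif_pos hg
  obtain ⟨Γ, h1, h2, h3⟩ := cover h hb x0 s ss (by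
    intro g hg k hk j hj
    rw [sw g hg, sw k hk]
    refine gR_pow hd hsy _ _ ?_ (orderOf_dvd_of_pow_eq_one hj)
    by_cases e : g = k
    · exact Or.inl (Subtype.ext e)
    · have h0 := orderOf_pos (g * k)
      have h1 : orderOf (g * k) ≠ 1 := by
        rw [Ne, orderOf_eq_one_iff, mul_eq_one_iff_eq_inv,
          inv_eq_of_mul_eq_one_right (h.walls_sq hk)]
        exact e
      exact Or.inr (show 2 ≤ orderOf (g * k) by omega))
  refine ⟨fun T hT t ht hc => ?_, fun g hg y hy hgy => ?_⟩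
  · by_contra hn
    obtain ⟨u, q1, q2⟩ := reach (s := s) (Γ := Γ) (fun k hk => h.walls_sq (hT hk))
      (fun u => ∀ v, u.symm v ⟨t, ht⟩ = v ⟨t, ht⟩) h1 (fun v => rfl)
      (fun γ hγ k hk => h2 γ hγ k (hT hk)) (fun u k hk hu v => by
        have e : (u * s k).symm v = gR hd ⟨k, hT hk⟩ (u.symm v) := by
          rw [sw k (hT hk)]
          rfl
        have ne : (⟨t, ht⟩ : S) ≠ ⟨k, hT hk⟩ := fun e => hn (by
          rwa [show t = k from Subtype.ext_iff.1 e])
        rw [e, gR, Module.reflection_apply, Pi.sub_apply, hu, Pi.smul_apply,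
          Pi.single_eq_of_ne ne, smul_zero, sub_zero]) hc
    have q3 := h2 _ h1 t ht
    simp only [one_mul] at q3
    have q4 : u = s t := (Prod.ext_iff.1 (h3 _ q1 _ q3 x0 x0 (InD.refl _) (InD.refl _) rfl)).2
    have q5 := q2 (Pi.single ⟨t, ht⟩ 1)
    have e : u.symm (Pi.single ⟨t, ht⟩ 1) = gR hd ⟨t, ht⟩ (Pi.single ⟨t, ht⟩ 1) := by
      rw [q4, sw t ht]
      rfl
    rw [e, gR, Module.reflection_apply_self, Pi.neg_apply, Pi.single_eq_same] at q5
    norm_num at q5
  · obtain ⟨u, q1, -⟩ := reach (s := s) (Γ := Γ) (fun k hk => h.walls_sq hk) (fun _ => True) h1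
      trivial h2 (fun _ _ _ _ => trivial) hg
    exact (Prod.ext_iff.1 (h3 _ q1 _ h1 y (g y) hy hgy rfl)).1

end Pool.Agent.FlagOrb.Q
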