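import Pool.Agent.Lib.MP_7157e1_co.Q_COC

/-! Ping-pong: new walls occur on at most one side of a central edge. -/

namespace Pool.Agent.FlagOrb.Q

open Equiv Set

namespace PP

variable {F L : Type} [Lattice L] {n : ℕ} {r : ℕ → Perm F} {φ : ℕ → F → L} {i : ℕ} {x : F}

lemma sb_sub (hn : i < n) (hi : ¬ Wl r x i) : SB n r i x ⊆ Walls r 0 n x := by
  rintro _ ⟨c, hc, ⟨hw, rfl⟩ | ⟨hw, rfl⟩⟩
  · exact wall_mem (InD.refl x) ⟨Nat.zero_le c, hc⟩ hw
  · exact wall_mem ((InD.refl x).next ⟨Nat.zero_le i, hn⟩ hi) ⟨Nat.zero_le c, hc⟩ hw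

lemma side [Finite F] (hPAR : St_PAR) (h : PS n r φ) (hn : i < n) (hi : ¬ Wl r x i) {f : F → Prop}
    (hf : ∀ y c, (f (r c y) ↔ f y) ↔ ¬ (c = i ∧ y ∈ Sig n r i x)) (hN : New n r i x) :
    {y | ¬ (f y ↔ f x)}.ncard < {y | f y ↔ f x}.ncard := by
  obtain ⟨y, c, hy, hc, hw, ht⟩ := hN
  have hi' : ¬ Wl r (r i x) i := by rwa [h.wl_step]
  have yD : InD r 0 n x y := by
    clear hw ht
    induction hy with
    | refl => exact InD.refl x
    | tail _ k ih =>
      obtain ⟨d, hd, hw, -, rfl⟩ := k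
      exact ih.next ⟨Nat.zero_le d, hd⟩ hw
  have tK : rf r y c ∉ Subgroup.closure (SB n r i x) := fun k =>
    ht ((hPAR h 0 n x le_rfl).1 _ (sb_sub hn hi) _ (wall_mem yD ⟨Nat.zero_le c, hc⟩ hw) k)
  have tA := rf_aut (r := r) y c
  have tt : ∀ z, rf r y c (rf r y c z) = z := invol_apply (h.rf_sq y c)
  have ty : rf r y c y = r c y := rf_app hw
  generalize rf r y c = t at tK tA tt ty
  have path : ∀ g ∈ Aut r, ∀ u, Av n r i x x u → (f (g u) ↔ f (g x)) := by
    intro g hg u hu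
    induction hu with
    | refl => rfl
    | tail _ k ih =>
      obtain ⟨d, -, -, hd, rfl⟩ := k
      rw [Aut.app hg, ← ih, hf]
      exact fun k => hd ⟨k.1, (COC.sig_eqv k.2).imp (fun e => e.trans (Eqv.symm ⟨g, hg, rfl⟩))
        fun e => e.trans (Eqv.symm ⟨g, hg, rfl⟩)⟩
  have b : f (t x) ↔ f x := by
    rw [← path t tA y hy, ty]
    refine Iff.trans ?_ (path 1 (one_mem _) y hy)
    refine (hf y c).2 fun k => ?_
    obtain ⟨rfl, k⟩ := k
    exact (COC.sig_eqv k).elim (fun e => hi (hw.eqv e.symm)) fun e => hi' (hw.eqv e.symm)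
  have c1 : ∀ g ∈ Subgroup.closure (SB n r i x), t (g x) ∉ Sig n r i x := by
    rintro g hg ⟨k, hk, e | e⟩
    · have : t * g = k := h.aut_ext (mul_mem tA (COC.aut hg)) (COC.aut hk) e
      exact tK (by rw [eq_mul_inv_of_mul_eq this]; exact mul_mem hk (inv_mem hg))
    · exact hi (Eqv.trans ⟨t * g, mul_mem tA (COC.aut hg), e⟩ (Eqv.symm ⟨k, COC.aut hk, rfl⟩))
  have c2 : ∀ g ∈ Subgroup.closure (SB n r i x), (f (t (g (r i x))) ↔ f (t (g x))) := by
    intro g hg
    rw [Aut.app (COC.aut hg), Aut.app tA, hf]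
    exact fun k => c1 g hg k.2
  have d0 : ∀ g ∈ Subgroup.closure (SB n r i x), ∀ s ∈ SB n r i x,
      (f (t ((g * s) x)) ↔ f (t (g x))) := by
    intro g hg s hs
    have hgs := mul_mem hg (Subgroup.subset_closure hs)
    obtain ⟨d, -, ⟨hd, rfl⟩ | ⟨hd, rfl⟩⟩ := hs
    · rw [Perm.mul_apply, rf_app hd, Aut.app (COC.aut hg), Aut.app tA, hf]
      exact fun k => hi (k.1 ▸ hd)
    · rw [← c2 _ hgs, ← c2 _ hg, Perm.mul_apply, rf_app hd, Aut.app (COC.aut hg) d,
        Aut.app tA d, hf]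
      exact fun k => hi' (k.1 ▸ hd)
  have d1 : ∀ g ∈ Subgroup.closure (SB n r i x), (f (t (g x)) ↔ f x) := by
    intro g hg
    induction hg using Subgroup.closure_induction_right with
    | one => exact b
    | mul_right g hg s hs ih => exact (d0 g hg s hs).trans ih
    | mul_inv_cancel g hg s hs ih =>
      rw [inv_eq_of_sq (h.walls_sq (sb_sub hn hi hs))]
      exact (d0 g hg s hs).trans ih
  have d : ∀ z ∈ Sig n r i x, (f (t z) ↔ f x) := by
    rintro _ ⟨g, hg, rfl | rfl⟩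
    exacts [d1 g hg, (c2 g hg).trans (d1 g hg)]
  have e : ∀ z, ¬ (f z ↔ f x) → (f (t z) ↔ f x) := fun z =>
    (h.all x z).ind (fun c _ => h.inv c) (P := fun z => ¬ (f z ↔ f x) → (f (t z) ↔ f x))
      (fun k => absurd Iff.rfl k) fun z c _ _ ih hz => by
      by_cases k : r c z ∈ Sig n r i x
      · exact d _ k
      have k1 : f (r c z) ↔ f z := (hf z c).2 fun q => k (by rw [q.1]; exact COC.sig_step h q.2)
      rw [k1] at hz
      rw [Aut.app tA, ← ih hz, hf]
      exact fun q => hz (by simpa only [tt] using d _ q.2)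
  refine lt_of_le_of_lt (ncard_le_ncard_of_injOn t (t := {y | f y ↔ f x} \ {x})
    (fun z hz => ⟨e z hz, fun k => hz ?_⟩) t.injective.injOn)
    (ncard_sdiff_singleton_lt_of_mem (show x ∈ {y | f y ↔ f x} from Iff.rfl))
  rw [← tt z, show t z = x from k]
  exact b

end PP

theorem stPP (hPAR : St_PAR) : St_PP := by
  intro F L _ _ n r φ h i x hn hi ⟨f, hf⟩ h1 h2
  have a := PP.side hPAR h hn hi hf h1
  have b := PP.side hPAR h hn (by rwa [h.wl_step]) (f := f) (by rwa [COC.sig_flip h]) h2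
  have e : ¬ (f (r i x) ↔ f x) := fun k =>
    (hf x i).1 k ⟨rfl, 1, one_mem _, Or.inl rfl⟩
  have e1 : {y | ¬ (f y ↔ f (r i x))} = {y | f y ↔ f x} := by
    ext y; simp only [mem_ofPred_eq]; tauto
  have e2 : {y | f y ↔ f (r i x)} = {y | ¬ (f y ↔ f x)} := by
    ext y; simp only [mem_ofPred_eq]; tauto
  rw [e1, e2] at b
  omega

end Pool.Agent.FlagOrb.Q
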