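import Pool.Agent.Lib.MP_7157e1_co.QKit

/-! Quadratic range: two walls above a moving colour leave no room for a leg. -/

namespace Pool.Agent.FlagOrb.Q

open Equiv Set

namespace RR

lemma fork {G : Type} [Group G] [DecidableEq G] {S : Set G} {C : G → G → ℝ} (hC : CoxC S C)
    {q q' p : ℕ → G} (hq : IsPath S q 6) (hq' : IsPath S q' 6) (e1 : q' 1 = q 1)
    (e2 : q' 2 = q 2) (ne : q 0 ≠ q' 0) (hp : IsPath S p 3) (p2 : p 2 = q 1) (p3 : p 3 = q 2) :
    False := by
  have a0 : ¬ Commute (q 1) (q 0) := adj_symm (hq.adj 0 (by omega))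
  have a0' : ¬ Commute (q 1) (q' 0) := e1 ▸ adj_symm (hq'.adj 0 (by omega))
  have n2 : q 0 ≠ q 2 := fun he => by have := hq.inj 0 (by omega) 2 (by omega) he; omega
  have n2' : q' 0 ≠ q 2 := fun he => by
    have := hq'.inj 0 (by omega) 2 (by omega) (he.trans e2.symm); omega
  have b0 : ¬ Commute (p 1) (p 0) := adj_symm (hp.adj 0 (by omega))
  have n0 : p 0 ≠ q 1 := fun he => by
    have := hp.inj 0 (by omega) 2 (by omega) (he.trans p2.symm); omega
  rcases hC.val4 (hq.mem 1 (by omega)) (hq.mem 0 (by omega)) (hq'.mem 0 (by omega))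
    (hq.mem 2 (by omega)) (hp.mem 1 (by omega)) a0 a0' (hq.adj 1 (by omega))
    (p2 ▸ adj_symm (hp.adj 1 (by omega))) ne n2 n2' with e | e | e
  · exact n0 (hC.dead hq (hq'.mem 0 (by omega)) ne.symm n2' a0' (hp.mem 0 (by omega)) (e ▸ b0))
  · exact n0 ((hC.dead hq' (hq.mem 0 (by omega)) ne (e2 ▸ n2) (e1 ▸ a0) (hp.mem 0 (by omega))
      (e ▸ b0)).trans e1)
  · have := hp.inj 1 (by omega) 3 (by omega) (e.trans p3.symm)
    omega

end RR

theorem stRR (hUW : St_UW) : St_RR := by
  intro F L _ _ n r φ h a b x H ha hab hb w w'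
  classical
  by_contra hn
  obtain ⟨C, hC⟩ := (h.wall (a := 0) (b := n) le_rfl x).1.exC
  have hq := h.wl_path (a := 0) (b := n) (c := a + 1) (m := 6) le_rfl (InD.refl x) (by omega)
    (by omega) fun j hj => w _ (by omega) (by omega)
  have hq' := h.wl_path (a := 0) (b := n) (c := a + 1) (m := 6) le_rfl
    ((InD.refl x).next ⟨by omega, by omega⟩ hn) (by omega) (by omega)
    fun j hj => w' _ (by omega) (by omega)
  have key : ∀ z, InD r 0 b x z → (∀ c, a < c → c < b → Wl r z c) ∧
      ∀ c, a + 2 ≤ c → c < b → rf r z c = rf r x c := by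
    intro z hz
    refine hz.ind (P := fun z => (∀ c, a < c → c < b → Wl r z c) ∧
      ∀ c, a + 2 ≤ c → c < b → rf r z c = rf r x c) ⟨w, fun _ _ _ => rfl⟩ ?_
    rintro y d hy hd hw ⟨k1, k2⟩
    have hda : d ≤ a := by
      by_contra hc
      exact hw (k1 d (by omega) hd.2)
    have w2 : ∀ c, a + 2 ≤ c → c < b → Wl r (r d y) c := fun c c1 c2 =>
      (h.wl_far (by omega) (by omega)).2 (k1 c (by omega) c2)
    have r2 : ∀ c, a + 2 ≤ c → c < b → rf r (r d y) c = rf r x c := fun c c1 c2 =>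
      (h.rf_step (k1 c (by omega) c2) (by omega) (by omega)).trans (k2 c c1 c2)
    refine ⟨fun c c1 c2 => ?_, r2⟩
    by_cases e : c = a + 1
    swap
    · exact w2 c (by omega) c2
    subst e
    by_contra hm
    have hp := H.pos_up (by omega) hb le_rfl (by omega) hm (w2 _ le_rfl (by omega))
    have pl := h.leg_path H hp (by omega) (by omega) hb
      ((hy.next hd hw).mono le_rfl hb.le) (c := a - 1) (m := 3) (Or.inl (by omega))
      (Or.inl (by omega))
    refine RR.fork hC hq hq' ?_ ?_ ?_ pl ?_ ?_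
    · exact h.rf_step (w _ (by omega) (by omega)) (by omega) (by omega)
    · exact h.rf_step (w _ (by omega) (by omega)) (by omega) (by omega)
    · exact h.rf_step_ne (w _ (by omega) (by omega)) (w' _ (by omega) (by omega))
        (Or.inr ⟨rfl, by omega⟩)
    · change lg r (r d y) (a + 1) (a - 1 + 2) = rf r x (a + 1 + 1)
      rw [lg_hi (by omega), show a - 1 + 2 + 1 = a + 1 + 1 by omega]
      exact r2 _ le_rfl (by omega)
    · change lg r (r d y) (a + 1) (a - 1 + 3) = rf r x (a + 1 + 2)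
      rw [lg_hi (by omega), show a - 1 + 3 + 1 = a + 1 + 2 by omega]
      exact r2 _ (by omega) (by omega)
  have := hUW h a b x hab hb.le (fun z hz => (key z hz).1) hn
  omega

end Pool.Agent.FlagOrb.Q
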