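import Pool.Agent.Lib.MP_7157e1_co.QBlue

/-! From braid relations in a window to the leg structure. -/

namespace Pool.Agent.FlagOrb.Q

open Equiv Set

namespace SIGN

variable {F L : Type} [Lattice L] {n : ℕ} {r : ℕ → Perm F} {φ : ℕ → F → L}

/-- the colour `c` acts at `x` like an element of the group of the colours `1`, `n - 2` -/
def Hf (n : ℕ) (r : ℕ → Perm F) (x : F) (c : ℕ) : Prop :=
  ∃ g ∈ W r {1, n - 2}, Eqv r (g x) (r c x)

/-- the data of the window -/
structure Win (n : ℕ) (r : ℕ → Perm F) (lo hi : ℕ) : Prop where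
  lo3 : 3 ≤ lo
  hin : hi + 3 ≤ n
  len : lo + 16 ≤ hi
  brd : Brd r lo hi
  loc : ∀ x, ∃ g, (∀ c, 1 ≤ c → c < g → c < hi → Eqv r (r c x) (r 1 x)) ∧
    ∀ c, g + 4 ≤ c → lo ≤ c → c + 2 ≤ n → Eqv r (r c x) (r (n - 2) x)

lemma canc {x y : F} {I : Set ℕ} {k : Perm F} (hk : k ∈ W r I) (e : Eqv r (k x) (k y)) :
    Eqv r x y := by
  simpa using e.map (inv_mem hk)

lemma hf_of_wl {x : F} {c : ℕ} (hw : Wl r x c) : Hf n r x c := ⟨1, one_mem _, hw⟩

lemma gc (h : PS n r φ) {g : Perm F} (hg : g ∈ W r {1, n - 2}) {c : ℕ} (h1 : 3 ≤ c)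
    (h2 : c + 4 ≤ n) (x : F) : r c (g x) = g (r c x) := by
  have : Commute (r c) g := W_comm (fun c' hc' => by
    rcases hc' with rfl | rfl
    · exact h.comm' (by omega) (by omega)
    · exact h.comm' (by omega) (by omega)) hg
  rw [← Perm.mul_apply, this.eq, Perm.mul_apply]

lemma gg (h : PS n r φ) (hn : 5 ≤ n) {g k : Perm F} (hg : g ∈ W r {1, n - 2})
    (hk : k ∈ W r {1, n - 2}) (x : F) : g (k x) = k (g x) := by
  have : Commute g k := W_comm2 (fun c hc c' hc' => by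
    rcases hc with rfl | rfl <;> rcases hc' with rfl | rfl
    · exact Commute.refl _
    · exact h.comm' (by omega) (by omega)
    · exact h.comm' (by omega) (by omega)
    · exact Commute.refl _) hg hk
  rw [← Perm.mul_apply, this.eq, Perm.mul_apply]

lemma capp' (h : PS n r φ) {c c' : ℕ} (h1 : c ≠ c' + 1) (h2 : c' ≠ c + 1) (x : F) :
    r c (r c' x) = r c' (r c x) := by
  rw [← Perm.mul_apply, (h.comm' h1 h2).eq, Perm.mul_apply]

variable {lo hi : ℕ}

lemma braid0 (h : PS n r φ) (w : Win n r lo hi) {l : ℕ} (h1 : lo ≤ l) (h2 : l + 2 ≤ hi) (x : F) :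
    r l (r (l + 1) (r l x)) = r (l + 1) (r l (r (l + 1) x)) := by
  have := per_dvd.1 (show per r l (r (l + 1) (r l (r (l + 1) x))) ∣ 3 by
    rw [w.brd l _ h1 h2])
  simpa [pow_succ, h.rr] using this

lemma braid (h : PS n r φ) (w : Win n r lo hi) {c c' : ℕ} (h1 : lo ≤ c) (h2 : c < hi)
    (h3 : lo ≤ c') (h4 : c' < hi) (ha : c' = c + 1 ∨ c = c' + 1) (x : F) :
    r c (r c' (r c x)) = r c' (r c (r c' x)) := by
  rcases ha with rfl | rfl
  · exact braid0 h w h1 (by omega) x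
  · exact (braid0 h w h3 (by omega) x).symm

lemma hf_far (h : PS n r φ) (w : Win n r lo hi) {c c' : ℕ} (h3 : lo ≤ c') (h4 : c' < hi)
    (h1 : c ≠ c' + 1) (h2 : c' ≠ c + 1) {x : F} (hx : Hf n r x c) : Hf n r (r c' x) c := by
  obtain ⟨g, hg, e⟩ := hx
  have := w.lo3
  have := w.hin
  refine ⟨g, hg, ?_⟩
  rw [← gc h hg (by omega) (by omega), capp' h h1 h2]
  exact e.step c'

lemma nf_far (h : PS n r φ) (w : Win n r lo hi) {c c' : ℕ} (h3 : lo ≤ c') (h4 : c' < hi)
    (h1 : c ≠ c' + 1) (h2 : c' ≠ c + 1) {x : F} (hx : ¬ Hf n r x c) : ¬ Hf n r (r c' x) c :=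
  fun hy => hx (by simpa [h.rr] using hf_far h w h3 h4 h1 h2 hy)

lemma push (h : PS n r φ) (w : Win n r lo hi) {c c' : ℕ} (h1 : lo ≤ c) (h2 : c < hi)
    (h3 : lo ≤ c') (h4 : c' < hi) (ha : c' = c + 1 ∨ c = c' + 1) {x : F} (hx : ¬ Hf n r x c)
    (hx' : Hf n r x c') : ¬ Hf n r (r c x) c' := by
  rintro ⟨k, hk, e'⟩
  obtain ⟨g, hg, e⟩ := hx'
  have := w.lo3
  have := w.hin
  have e1 : Eqv r (k x) (r c (r c' (r c x))) := by
    have := e'.step c
    rwa [gc h hk (by omega) (by omega), h.rr] at this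
  have e2 : Eqv r (g (k (r c x))) (r c' (r c (r c' x))) := by
    have a1 := (e.step c).step c'
    rw [gc h hg (by omega) (by omega), gc h hg (by omega) (by omega)] at a1
    exact (e'.map hg).trans a1
  rw [braid h w h1 h2 h3 h4 ha] at e1
  refine hx ⟨(g * k)⁻¹ * k, mul_mem (inv_mem (mul_mem hg hk)) hk, ?_⟩
  apply canc (mul_mem hg hk)
  simpa using e1.trans e2.symm

lemma span (w : Win n r lo hi) {c c' : ℕ} (h1 : lo ≤ c) (h2 : c + 4 ≤ c') (h4 : c' < hi) {x : F}
    (hx : ¬ Hf n r x c) : Hf n r x c' := by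
  obtain ⟨g, l1, l2⟩ := w.loc x
  have := w.lo3
  have := w.hin
  by_cases hg : c < g
  · exact absurd ⟨r 1, W_gen (Or.inl rfl), (l1 c (by omega) hg (by omega)).symm⟩ hx
  · exact ⟨r (n - 2), W_gen (Or.inr rfl), (l2 c' (by omega) (by omega) (by omega)).symm⟩

lemma lemA (h : PS n r φ) (w : Win n r lo hi) {c c' : ℕ} (h1 : lo ≤ c) (h2 : c + 2 ≤ c')
    (h3 : c + 4 < hi) (h4 : c' < hi) {x : F} (hx : ¬ Hf n r x c) : Hf n r x c' := by
  have k3 : ∀ y, ¬ Hf n r y c → Hf n r y (c + 3) := by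
    intro y hy
    by_contra hy'
    exact push h w (c := c + 3) (c' := c + 4) (by omega) (by omega) (by omega) h3 (Or.inl rfl) hy'
      (span w h1 le_rfl h3 hy)
      (span w h1 le_rfl h3 (nf_far h w (by omega) (by omega) (by omega) (by omega) hy))
  rcases (by omega : c' = c + 2 ∨ c' = c + 3 ∨ c + 4 ≤ c') with rfl | rfl | h5
  · by_contra hx'
    exact push h w (c := c + 2) (c' := c + 3) (by omega) (by omega) (by omega) (by omega)
      (Or.inl rfl) hx' (k3 x hx)
      (k3 _ (nf_far h w (by omega) (by omega) (by omega) (by omega) hx))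
  · exact k3 x hx
  · exact span w h1 h5 h4 hx

/-- exactly the colours `i - 1`, `i` of the window are not of the easy kind -/
def Two (n : ℕ) (r : ℕ → Perm F) (lo hi : ℕ) (x : F) (i : ℕ) : Prop :=
  lo + 1 ≤ i ∧ i + 4 ≤ hi ∧ ∀ c, lo ≤ c → c < hi → (¬ Hf n r x c ↔ c + 1 = i ∨ c = i)

lemma two_of (h : PS n r φ) (w : Win n r lo hi) {i : ℕ} (h1 : lo ≤ i) (h2 : i + 4 < hi) {x : F}
    (hx : ¬ Hf n r x i) (hx' : ¬ Hf n r x (i + 1)) : Two n r lo hi x (i + 1) := by
  refine ⟨by omega, by omega, fun c h3 h4 => ⟨fun hc => ?_, ?_⟩⟩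
  · by_contra hn
    rcases (by omega : c + 1 ≤ i ∨ i + 2 ≤ c) with h5 | h5
    · exact hx' (lemA h w h3 (by omega) (by omega) (by omega) hc)
    · exact hc (lemA h w h1 h5 h2 h4 hx)
  · rintro (h5 | rfl)
    · obtain rfl : c = i := by omega
      exact hx
    · exact hx'

lemma lemB (h : PS n r φ) (w : Win n r lo hi) {c : ℕ} (h1 : lo + 1 ≤ c) (h2 : c + 4 < hi) {x : F}
    (hx : ¬ Hf n r x c) : ∃ i, Two n r lo hi x i := by
  obtain ⟨d, rfl⟩ : ∃ d, c = d + 1 := ⟨c - 1, by omega⟩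
  by_cases a1 : Hf n r x d
  · by_cases a2 : Hf n r x (d + 1 + 1)
    · exact absurd (lemA h w (c := d) (c' := d + 1 + 1) (by omega) (by omega) (by omega) (by omega)
        (push h w (by omega) (by omega) (by omega) (by omega) (Or.inr rfl) hx a1))
        (push h w (by omega) (by omega) (by omega) (by omega) (Or.inl rfl) hx a2)
    · exact ⟨_, two_of h w (by omega) h2 hx a2⟩
  · exact ⟨_, two_of h w (by omega) (by omega) a1 hx⟩

lemma adj (h : PS n r φ) (w : Win n r lo hi) {c : ℕ} (h1 : lo ≤ c) (h2 : c + 1 < hi) {x : F}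
    (hx : Hf n r x c) (hx' : Hf n r x (c + 1)) : Eqv r (r c x) (r (c + 1) x) := by
  obtain ⟨g, hg, e⟩ := hx
  obtain ⟨k, hk, e'⟩ := hx'
  have := w.lo3
  have := w.hin
  have key : ∀ {a b : ℕ} {s t : Perm F}, 3 ≤ a → a + 4 ≤ n → 3 ≤ b → b + 4 ≤ n →
      s ∈ W r {1, n - 2} → t ∈ W r {1, n - 2} → Eqv r (s x) (r a x) → Eqv r (t x) (r b x) →
      Eqv r (s (t (s x))) (r a (r b (r a x))) := by
    intro a b s t a1 a2 b1 b2 hs ht es et
    have e1 := (es.step b).step a
    rw [gc h hs b1 b2, gc h hs a1 a2] at e1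
    have e2 := (et.step a).map hs
    rw [gc h ht a1 a2] at e2
    exact (((es.map ht).map hs).trans e2).trans e1
  have e1 := key (a := c) (b := c + 1) (by omega) (by omega) (by omega) (by omega) hg hk e e'
  have e2 := key (a := c + 1) (b := c) (by omega) (by omega) (by omega) (by omega) hk hg e' e
  rw [braid0 h w h1 (by omega)] at e1
  have e3 := e1.trans e2.symm
  rw [gg h (by omega) hk hg (k x)] at e3
  exact (e.symm.trans (canc hk (canc hg e3))).trans e'

lemma chain (h : PS n r φ) (w : Win n r lo hi) {a c : ℕ} (h1 : lo ≤ a) (hac : a ≤ c) (h2 : c < hi)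
    {x : F} (hx : ∀ d, a ≤ d → d ≤ c → Hf n r x d) : Eqv r (r a x) (r c x) := by
  induction c, hac using Nat.le_induction with
  | base => exact Eqv.refl _
  | succ c hc ih =>
    exact (ih (by omega) fun d a1 a2 => hx d a1 (by omega)).trans
      (adj h w (by omega) h2 (hx c hc (by omega)) (hx _ (by omega) le_rfl))

lemma across (h : PS n r φ) (w : Win n r lo hi) {c : ℕ} (h1 : lo ≤ c) {x : F}
    (hx : Two n r lo hi x (c + 2)) : Eqv r (r c x) (r (c + 3) x) := by
  obtain ⟨-, h2, hx⟩ := hx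
  have := w.lo3
  have := w.hin
  have a0 : Hf n r x c := by
    by_contra hn
    have := (hx c h1 (by omega)).1 hn
    omega
  have a3 : Hf n r x (c + 3) := by
    by_contra hn
    have := (hx (c + 3) (by omega) (by omega)).1 hn
    omega
  have a1 : ¬ Hf n r x (c + 1) := (hx _ (by omega) (by omega)).2 (Or.inl rfl)
  have b2 : Hf n r (r c (r (c + 1) x)) (c + 2) :=
    hf_far h w h1 (by omega) (by omega) (by omega)
      (lemA h w (c := c) h1 le_rfl (by omega) (by omega)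
        (push h w (by omega) (by omega) h1 (by omega) (Or.inr rfl) a1 a0))
  obtain ⟨g, hg, e⟩ := a0
  obtain ⟨k, hk, e'⟩ := a3
  have c1 : Eqv r (g (r c (r (c + 1) x))) (r (c + 1) (r c (r (c + 1) x))) := by
    rw [← braid0 h w h1 (by omega), ← gc h hg (by omega) (by omega),
      ← gc h hg (by omega) (by omega)]
    exact (e.step _).step _
  have c3 : Eqv r (k (r c (r (c + 1) x))) (r (c + 3) (r c (r (c + 1) x))) := by
    rw [capp' h (c := c + 3) (by omega) (by omega), capp' h (c := c + 3) (by omega) (by omega),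
      ← gc h hk (by omega) (by omega), ← gc h hk (by omega) (by omega)]
    exact (e'.step _).step _
  have c4 := ((c1.trans (adj h w (by omega) (by omega) ⟨g, hg, c1⟩ b2)).trans
    (adj h w (c := c + 2) (by omega) (by omega) b2 ⟨k, hk, c3⟩)).trans c3.symm
  rw [← gc h hg (by omega) (by omega), ← gc h hg (by omega) (by omega),
    ← gc h hk (by omega) (by omega), ← gc h hk (by omega) (by omega)] at c4
  have c5 : Eqv r (g x) (k x) := by simpa [h.rr] using (c4.step c).step (c + 1)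
  exact (e.symm.trans c5).trans e'

lemma two_eq (h : PS n r φ) (w : Win n r lo hi) {i : ℕ} {x : F} (hx : Two n r lo hi x i) (c : ℕ)
    (h1 : lo ≤ c) (h2 : c < hi) (h3 : c ≠ i) (h4 : c + 1 ≠ i) : Eqv r (r c x) (r (i + 1) x) := by
  have hf : ∀ d, lo ≤ d → d < hi → d ≠ i → d + 1 ≠ i → Hf n r x d := by
    intro d a1 a2 a3 a4
    by_contra hn
    have := (hx.2.2 d a1 a2).1 hn
    omega
  have := hx.1
  have := hx.2.1
  rcases (by omega : c + 2 ≤ i ∨ i + 1 ≤ c) with h5 | h5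
  · obtain ⟨j, rfl⟩ : ∃ j, i = j + 2 := ⟨i - 2, by omega⟩
    exact (chain h w h1 (c := j) (by omega) (by omega) fun d a1 a2 =>
      hf d (by omega) (by omega) (by omega) (by omega)).trans (across h w (by omega) hx)
  · exact (chain h w (by omega) h5 h2 fun d a1 a2 =>
      hf d (by omega) (by omega) (by omega) (by omega)).symm

/-- all but two colours of the inner window lead to the type of `y` -/
def E (r : ℕ → Perm F) (lo hi : ℕ) (x y : F) : Prop :=
  ∃ i, ∀ c, lo + 1 ≤ c → c + 4 < hi → c ≠ i → c + 1 ≠ i → Eqv r (r c x) y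

lemma cases2 (h : PS n r φ) (w : Win n r lo hi) (x : F) :
    (∀ c, lo + 1 ≤ c → c + 4 < hi → Eqv r (r c x) (r (lo + 1) x)) ∨ ∃ i, Two n r lo hi x i := by
  by_cases hx : ∀ c, lo + 1 ≤ c → c + 4 < hi → Hf n r x c
  · exact Or.inl fun c h1 h2 => (chain h w (by omega) h1 (by omega) fun d a1 a2 =>
      hx d a1 (by omega)).symm
  · push Not at hx
    obtain ⟨c, h1, h2, hc⟩ := hx
    exact Or.inr (lemB h w h1 h2 hc)

lemma exE (h : PS n r φ) (w : Win n r lo hi) (x : F) : ∃ y, E r lo hi x y := by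
  rcases cases2 h w x with hx | ⟨i, hx⟩
  · exact ⟨_, 0, fun c h1 h2 _ _ => hx c h1 h2⟩
  · exact ⟨_, i, fun c h1 h2 h3 h4 => two_eq h w hx c (by omega) (by omega) h3 h4⟩

lemma pick (a : ℕ) (s : Finset ℕ) (hs : s.card ≤ 6) : ∃ c, a ≤ c ∧ c < a + 7 ∧ c ∉ s := by
  by_contra hn
  push Not at hn
  have : Finset.Ico a (a + 7) ⊆ s := fun c hc =>
    hn c (Finset.mem_Ico.1 hc).1 (Finset.mem_Ico.1 hc).2
  have := Finset.card_le_card this
  simp at this
  omega

lemma pick6 (a s1 s2 s3 s4 s5 s6 : ℕ) : ∃ c, a ≤ c ∧ c < a + 7 ∧ c ≠ s1 ∧ c ≠ s2 ∧ c ≠ s3 ∧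
    c ≠ s4 ∧ c ≠ s5 ∧ c ≠ s6 := by
  obtain ⟨c, h1, h2, h3⟩ := pick a {s1, s2, s3, s4, s5, s6} Finset.card_le_six
  simp only [Finset.mem_insert, Finset.mem_singleton, not_or] at h3
  exact ⟨c, h1, h2, h3⟩

lemma eqvE [Finite F] (h : PS n r φ) (w : Win n r lo hi) {x y : F} (hxy : E r lo hi x y) :
    Eqv r x y := by
  have := w.len
  refine h.typing (E r lo hi) ?_ ?_ hxy
  · rintro x y d ⟨i, hi'⟩
    obtain ⟨y', i', hy'⟩ := exE h w (r d x)
    obtain ⟨c, a1, a2, a3, a4, a5, a6, a7, a8⟩ :=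
      pick6 (lo + 1) i (i - 1) i' (i' - 1) (d + 1) (d - 1)
    have e1 := hy' c a1 (by omega) a5 (by omega)
    rw [capp' h a7 (by omega)] at e1
    have e2 := e1.symm.trans ((hi' c a1 (by omega) a3 (by omega)).step d)
    exact ⟨i', fun c b1 b2 b3 b4 => (hy' c b1 b2 b3 b4).trans e2⟩
  · rintro x y l ⟨i, hi'⟩ _
    obtain ⟨c, a1, a2, a3, a4, a5, a6, -, -⟩ := pick6 (lo + 1) i (i - 1) (l - 1) (l + 2) 0 0
    rw [← (hi' c a1 (by omega) a3 (by omega)).per_eq l, h.per_step (by omega) a6]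

lemma two_wl [Finite F] (h : PS n r φ) (w : Win n r lo hi) {i : ℕ} {x : F}
    (hx : Two n r lo hi x i) (c : ℕ) (h1 : lo ≤ c) (h2 : c < hi) (h3 : c ≠ i) (h4 : c + 1 ≠ i) :
    Wl r x c :=
  (eqvE h w ⟨i, fun d a1 a2 a3 a4 => two_eq h w hx d (by omega) (by omega) a3 a4⟩).trans
    (two_eq h w hx c h1 h2 h3 h4).symm

lemma cases3 [Finite F] (h : PS n r φ) (w : Win n r lo hi) (x : F) :
    (∀ c, lo + 1 ≤ c → c + 4 < hi → Wl r x c) ∨ ∃ i, Two n r lo hi x i := by
  rcases cases2 h w x with hx | hx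
  · exact Or.inl fun c h1 h2 =>
      (eqvE h w ⟨0, fun d a1 a2 _ _ => hx d a1 a2⟩).trans (hx c h1 h2).symm
  · exact Or.inr hx

lemma two_pos [Finite F] (h : PS n r φ) (w : Win n r lo hi) {i : ℕ} {x : F}
    (hx : Two n r lo hi x i) (hi4 : lo + 4 ≤ i) : Pos n r (lo + 4) (hi - 4) x i := by
  have := w.lo3
  have := w.hin
  have := hx.2.1
  have n1 : ¬ Hf n r x (i - 1) := (hx.2.2 _ (by omega) (by omega)).2 (Or.inl (by omega))
  have n0 : ¬ Hf n r x i := (hx.2.2 _ (by omega) (by omega)).2 (Or.inr rfl)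
  refine ⟨hi4, by omega, fun c h1 h2 h3 h4 => ?_, fun _ hw => n0 (hf_of_wl hw),
    fun _ hw => n1 (hf_of_wl hw)⟩
  obtain ⟨g, l1, l2⟩ := w.loc x
  have g1 : g ≤ i - 1 := by
    by_contra hg
    exact n1 ⟨r 1, W_gen (Or.inl rfl), (l1 _ (by omega) (by omega) (by omega)).symm⟩
  have g2 : i < g + 4 := by
    by_contra hg
    exact n0 ⟨r (n - 2), W_gen (Or.inr rfl), (l2 _ (by omega) (by omega) (by omega)).symm⟩
  rcases (by omega : c < g ∨ g + 4 ≤ c ∨ (lo ≤ c ∧ c < hi)) with h5 | h5 | h5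
  · exact ((two_wl h w hx (i - 4) (by omega) (by omega) (by omega) (by omega)).trans
      (l1 _ (by omega) (by omega) (by omega))).trans (l1 c h1 h5 (by omega)).symm
  · exact ((two_wl h w hx (i + 3) (by omega) (by omega) (by omega) (by omega)).trans
      (l2 _ (by omega) (by omega) (by omega))).trans (l2 c h5 (by omega) h2).symm
  · exact two_wl h w hx c h5.1 h5.2 h3 h4

lemma main [Finite F] (h : PS n r φ) (w : Win n r lo hi) : HH n r (lo + 4) (hi - 4) := by
  have := w.lo3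
  have := w.hin
  have := w.len
  have key : ∀ x c, lo + 1 ≤ c → c + 4 < hi → ¬ Wl r x c → ∃ i, Two n r lo hi x i ∧
      (c + 1 = i ∨ c = i) := by
    intro x c h1 h2 hw
    rcases cases3 h w x with hx | ⟨i, hx⟩
    · exact absurd (hx c h1 h2) hw
    · refine ⟨i, hx, ?_⟩
      by_contra hn
      exact hw (two_wl h w hx c (by omega) (by omega) (by omega) (by omega))
  refine ⟨fun x => ?_, fun x i hx hb => ?_, fun x i hx ha => ?_,
    fun x i hx hb => w.brd i x (by have := hx.1; omega) (by omega)⟩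
  · rcases cases3 h w x with hx | ⟨i, hx⟩
    · exact Or.inl fun c h1 h2 => hx c (by omega) (by omega)
    · by_cases h4 : lo + 4 ≤ i
      · exact Or.inr ⟨i, two_pos h w hx h4⟩
      · exact Or.inl fun c h1 h2 => two_wl h w hx c (by omega) (by omega) (by omega) (by omega)
  · obtain ⟨a1, a2, a3, a4, -⟩ := hx
    obtain ⟨j, hj, e⟩ := key x i (by omega) (by omega) (a4 hb)
    have b1 : Hf n r x (i + 1) := hf_of_wl (a3 _ (by omega) (by omega) (by omega) (by omega))
    have b0 : ¬ Hf n r x i := (hj.2.2 _ (by omega) (by omega)).2 e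
    exact two_pos h w (two_of h w (by omega) (by omega)
      (nf_far h w (by omega) (by omega) (by omega) (by omega) b0)
      (push h w (by omega) (by omega) (by omega) (by omega) (Or.inl rfl) b0 b1)) (by omega)
  · obtain ⟨a1, a2, a3, -, a5⟩ := hx
    obtain ⟨j, hj, e⟩ := key x i (by omega) (by omega) (a5 (by omega))
    obtain ⟨d, rfl⟩ : ∃ d, i = d + 1 := ⟨i - 1, by omega⟩
    have b1 : Hf n r x d := hf_of_wl (a3 _ (by omega) (by omega) (by omega) (by omega))
    have b0 : ¬ Hf n r x (d + 1) := (hj.2.2 _ (by omega) (by omega)).2 e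
    exact two_pos h w (two_of h w (by omega) (by omega)
      (push h w (by omega) (by omega) (by omega) (by omega) (Or.inr rfl) b0 b1)
      (nf_far h w (by omega) (by omega) (by omega) (by omega) b0)) (by omega)

end SIGN

theorem stSIGN : St_SIGN := by
  intro F L _ _ n r φ h u v lo hi hl hb h1 h2 h3 h4 h5
  refine SIGN.main h ⟨h3, h4, h5, hb, fun x => ?_⟩
  obtain ⟨g, l1, l2⟩ := hl x
  exact ⟨g, fun c a1 a2 a3 => l1 c a1 a2 (by omega), fun c a1 a2 a3 => l2 c a1 (by omega) a3⟩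

end Pool.Agent.FlagOrb.Q
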