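import Pool.Agent.Lib.MP_7157e1_co.QKit

/-! Moving the lower side one step up the leg. -/

namespace Pool.Agent.FlagOrb.Q

open Equiv Set

namespace STEP

variable {F L : Type} [Lattice L] [Finite F] {n : ℕ} {r : ℕ → Perm F} {φ : ℕ → F → L}

omit [Finite F] in
lemma wl (h : PS n r φ) (hD : ND n r) {y : F} {j c : ℕ} (hy : Ps n r y j) (c1 : c ≠ j)
    (c2 : c + 1 ≠ j) : Wl r y c := by
  rcases (by omega : c = 0 ∨ c = n - 1 ∨ n ≤ c ∨ (1 ≤ c ∧ c + 2 ≤ n)) with rfl | rfl | a | ⟨a, b⟩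
  exacts [(hD y j hy).1, (hD y j hy).2, h.wl_ge a y, hy.wl a b c1 c2]

lemma ss (h : PS n r φ) (hH : HH n r 3 (n - 3)) (hD : ND n r) {i : ℕ} (i5 : i + 5 ≤ n) {y : F}
    (hy : Ps n r y i) : SS n r (i + 1) (r i y) = SS n r i y := by
  have hx : Ps n r (r i y) (i + 1) := hH.up y i hy (by omega)
  have hz : Ps n r (r (i + 1) (r i y)) (i + 1 + 1) := hH.up _ _ hx (by omega)
  have e := (h.hex (by omega) (wl h hD hy (c := i + 1) (by omega) (by omega))
    (wl h hD hz (c := i) (by omega) (by omega))).1 (hH.str y i hy (by omega))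
  ext g
  constructor
  · rintro ⟨c, hc, c1, ⟨c2, rfl⟩ | ⟨c2, rfl⟩⟩
    · exact ⟨c, hc, by omega, Or.inr ⟨c1, rfl⟩⟩
    · by_cases ci : c = i
      · subst ci
        exact ⟨c + 1, by omega, by omega, Or.inl ⟨by omega, e.symm⟩⟩
      · exact ⟨c, hc, ci, Or.inr ⟨c1, h.rf_step (wl h hD hx c1 (by omega)) c2 (by omega)⟩⟩
  · rintro ⟨c, hc, c1, ⟨c2, rfl⟩ | ⟨c2, rfl⟩⟩
    · by_cases ci : c = i + 1
      · subst ci
        exact ⟨i, by omega, by omega, Or.inr ⟨by omega, e⟩⟩
      · exact ⟨c, hc, ci, Or.inl ⟨by omega, (h.rf_step (wl h hD hy c1 c2) ci c2.symm).symm⟩⟩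
    · exact ⟨c, hc, c2, Or.inl ⟨by omega, rfl⟩⟩

omit [Finite F] in
lemma up_e (r : ℕ → Perm F) {i j : ℕ} (hj : j ≤ i) (x : F) :
    up r (i + 1 - (j + 1)) (j + 1) x = up r (i - j) j (r i x) := by
  rw [show i + 1 - (j + 1) = i - j by omega]
  change up r (i - j) j (r (i - j + j) x) = _
  rw [show i - j + j = i by omega]

end STEP

theorem stSTEP : St_STEP := by
  intro F L _ _ n r φ h hH hD i i3 i5 ⟨J, w, N, S⟩
  have dn : ∀ x, Ps n r x (i + 1) → Ps n r (r i x) i := fun x hx => hH.dn x i hx i3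
  have wi : ∀ x, Ps n r x i → w x ≤ i := fun x hx => by
    rcases S.wt x hx with a | a
    · exact a.2.1
    · have := a.2.1
      omega
  have sx : ∀ x, Ps n r x (i + 1) → SS n r (i + 1) x = SS n r i (r i x) := fun x hx => by
    have := STEP.ss h hH hD i5 (dn x hx)
    rwa [h.rr] at this
  refine ⟨fun x => r i (J (r i x)), fun x => w (r i x) + 1, fun x => N (r i x),
    fun g hg x => ?_, fun x hx => ?_, fun x hx => ?_, fun x hx j hj => ?_,
    fun x hx j hj c hc mc => ?_, fun x hx hN => ?_, fun x hx hN => ?_⟩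
  · obtain ⟨a, b, c⟩ := S.eqv g hg (r i x)
    simp only [← Aut.app hg]
    exact ⟨by rw [a, Aut.app hg], by rw [b], c⟩
  · obtain ⟨a, b, c, d, e⟩ := S.inv _ (dn x hx)
    simp only [h.rr]
    exact ⟨hH.up _ i a (by omega), by rw [b, h.rr], by rw [c], d,
      (((InD.refl x).next ⟨by omega, by omega⟩ (hx.mv' i3)).trans (e.mono le_rfl (by omega))).next
        ⟨by omega, by omega⟩ (a.mv (by omega))⟩
  · rcases S.wt _ (dn x hx) with ⟨a, b, c, d⟩ | ⟨a, b, c, d⟩
    · exact Or.inl ⟨by rw [a, h.rr], by omega, by omega, fun e => by rw [d e]⟩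
    · refine Or.inr ⟨fun e => a ?_, by omega, by omega, fun e => by rw [d e]⟩
      have := e.step i
      rwa [h.rr] at this
  · rcases j with _ | j
    · exact ⟨hx.mv (by omega), fun c hc => STEP.wl h hD hx (by omega) (by omega)⟩
    · have := wi _ (dn x hx)
      rw [STEP.up_e r (by omega), show i + 1 - (j + 1) = i - j by omega]
      exact S.pos _ (dn x hx) j (by omega)
  · rcases j with _ | j
    · refine Or.inl ⟨by omega, ?_⟩
      by_contra a
      exact mc (STEP.wl h hD hx (by omega) a)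
    · have := wi _ (dn x hx)
      rw [STEP.up_e r (by omega)] at mc
      rw [STEP.up_e r (by omega), STEP.up_e r (by omega), h.rr]
      exact (S.cl _ (dn x hx) j (by omega) c (by omega) mc).imp_left fun a => by omega
  · obtain ⟨y, c, a, b, d, e⟩ := S.new _ (dn x hx) hN
    exact ⟨y, c, ((InD.refl x).next ⟨by omega, by omega⟩ (hx.mv' i3)).trans
      (a.mono le_rfl (by omega)), by omega, d, by rwa [sx x hx]⟩
  · rw [sx x hx, STEP.ss h hH hD i5 (S.inv _ (dn x hx)).1]
    exact S.old _ (dn x hx) hN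

end Pool.Agent.FlagOrb.Q

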