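import Pool.Agent.Lib.MP_7157e1_co.QKit

/-! Quadratic range: both sides of the central edges. -/

namespace Pool.Agent.FlagOrb.Q

open Equiv Set

namespace TWO

variable {F L : Type} [Lattice L] {n : ℕ} {r : ℕ → Perm F} {φ : ℕ → F → L}

lemma nv_of {a b i : ℕ} {x y : F} (hd : InD r a b x y) (hb : b ≤ n) (hi : i < a ∨ b ≤ i) :
    Nv n r i x y :=
  hd.ind (P := fun y => Nv n r i x y) Relation.ReflTransGen.refl fun y c _ hc hw ih =>
    Relation.ReflTransGen.tail ih
      ⟨c, by have := hc.2; omega, by have := hc.1; have := hc.2; omega, hw, rfl⟩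

lemma sb_ss (H : HH n r 3 (n - 3)) (hN : ND n r) {i : ℕ} (i4 : 4 ≤ i) (i5 : i + 5 ≤ n) {x : F}
    (hp : Ps n r x i) : SB n r i x = SS n r i x := by
  have hq : Ps n r (r i x) (i + 1) := H.up x i hp (by omega)
  have wl : ∀ {y : F} {j c : ℕ}, Ps n r y j → c < n → c ≠ j → c + 1 ≠ j → Wl r y c := by
    intro y j c hy hc h1 h2
    by_cases c0 : c = 0
    · rw [c0]; exact (hN y j hy).1
    by_cases c1 : c = n - 1
    · rw [c1]; exact (hN y j hy).2
    exact hy.wl (by omega) (by omega) h1 h2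
  ext g
  constructor
  · rintro ⟨c, hc, ⟨hw, rfl⟩ | ⟨hw, rfl⟩⟩
    · refine ⟨c, hc, ?_, Or.inl ⟨?_, rfl⟩⟩
      · rintro rfl
        exact hp.mv (by omega) hw
      · rintro rfl
        exact hp.mv' (by omega) hw
    · refine ⟨c, hc, ?_, Or.inr ⟨?_, rfl⟩⟩
      · rintro rfl
        exact hq.mv' (by omega) hw
      · rintro rfl
        exact hq.mv (by omega) hw
  · rintro ⟨c, hc, h0, ⟨h1, rfl⟩ | ⟨h1, rfl⟩⟩
    · exact ⟨c, hc, Or.inl ⟨wl hp hc h0 h1, rfl⟩⟩
    · exact ⟨c, hc, Or.inr ⟨wl hq hc h1 (by omega), rfl⟩⟩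

lemma sb_rev (h : PS n r φ) {i : ℕ} (hi : i < n) (x : F) :
    SB n (rev n r) (n - 1 - i) x = SB n r i x := by
  have e : rev n r (n - 1 - i) = r i := by
    rw [rev_lt (by omega), show n - 1 - (n - 1 - i) = i by omega]
  ext g
  constructor
  · rintro ⟨c, hc, hg⟩
    rw [e, h.wl_rev hc, h.wl_rev hc, h.rf_rev hc, h.rf_rev hc] at hg
    exact ⟨n - 1 - c, by omega, hg⟩
  · rintro ⟨c, hc, hg⟩
    have hc' : n - 1 - c < n := by omega
    refine ⟨n - 1 - c, hc', ?_⟩
    rw [e, h.wl_rev hc', h.wl_rev hc', h.rf_rev hc', h.rf_rev hc',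
      show n - 1 - (n - 1 - c) = c by omega]
    exact hg

lemma sb_swap (h : PS n r φ) (i : ℕ) (x : F) : SB n r i (r i x) = SB n r i x := by
  ext g
  simp only [SB, h.rr, mem_setOf_eq, or_comm]

lemma cut_swap (h : PS n r φ) {i : ℕ} {x : F} (hc : Cut n r i (r i x)) : Cut n r i x := by
  have e : Sig n r i (r i x) = Sig n r i x := by
    ext y
    simp only [Sig, sb_swap h, h.rr, mem_setOf_eq, or_comm]
  obtain ⟨f, hf⟩ := hc
  exact ⟨f, fun y c => by rw [hf, e]⟩

section Half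

variable {i : ℕ} {J : F → F} {w : F → ℕ} {N : F → Prop}

lemma w_le (S : Side n r i J w N) {x : F} (hp : Ps n r x i) : w x ≤ i := by
  rcases S.wt x hp with k | k <;> omega

lemma half_inj (S : Side n r i J w N) {x x' : F} {j j' : ℕ} (hp : Ps n r x i)
    (hp' : Ps n r x' i) (hj : j ≤ w x) (hj' : j' ≤ w x')
    (e : Eqv r (up r (i - j) j x) (up r (i - j') j' x')) : j = j' ∧ Eqv r x x' := by
  have a1 := w_le S hp
  have a2 := w_le S hp'
  obtain ⟨p1, p2⟩ := S.pos x hp j hj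
  obtain ⟨q1, q2⟩ := S.pos x' hp' j' hj'
  have k1 : ¬ i - j' < i - j := fun k => p1 ((q2 _ k).eqv e.symm)
  have k2 : ¬ i - j < i - j' := fun k => q1 ((p2 _ k).eqv e)
  obtain rfl : j = j' := by omega
  refine ⟨rfl, ?_⟩
  simpa using e.map (inv_mem (up_mem r (i - j) j))

lemma half_cl (h : PS n r φ) (S : Side n r i J w N) {x : F} (hp : Ps n r x i) {j : ℕ}
    (hj : j ≤ w x) (c : ℕ) :
    (∃ j' ≤ w x, Eqv r (r c (up r (i - j) j x)) (up r (i - j') j' x)) ∨
      r c (up r (i - j) j x) = up r (i - j) j (J x) ∨ r c (up r (i - j) j x) = r i x := by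
  have a1 := w_le S hp
  by_cases hw : Wl r (up r (i - j) j x) c
  · exact Or.inl ⟨j, hj, Eqv.symm hw⟩
  have k : ¬ i - j < c := fun k => hw ((S.pos x hp j hj).2 c k)
  rcases (not_lt.1 k).eq_or_lt with rfl | k'
  · rcases j with _ | j
    · exact Or.inr (Or.inr rfl)
    · refine Or.inl ⟨j, by omega, ?_⟩
      rw [up_succ', Perm.mul_apply, h.rr, show i - (j + 1) + 1 = i - j by omega]
      exact Eqv.refl _
  · rcases S.cl x hp j hj c k' hw with ⟨k1, k2⟩ | k1
    · refine Or.inl ⟨j + 1, k1, ?_⟩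
      rw [up_succ', Perm.mul_apply, show i - (j + 1) = c by omega, k2]
      exact Eqv.refl _
    · exact Or.inr (Or.inl k1)

end Half

end TWO

open TWO Classical in
theorem stTWO (hCOC : St_COC) : St_TWO := by
  intro F L _ _ n r φ h hn H hN ⟨J1, w1, N1, S1⟩ ⟨J2, w2, N2, S2⟩
  have h' := h.mirror
  have H' := h.H3_rev (by omega) H
  have hN' := h.ND_rev (by omega) hN
  have e4 : rev n r (n - 5) = r 4 := by
    rw [rev_lt (by omega), show n - 1 - (n - 5) = 4 by omega]
  have to5 : ∀ {x}, Ps n r x 5 → Ps n (rev n r) x (n - 5) := fun hp => h.ps_rev (by omega) hp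
  have of5 : ∀ {x}, Ps n (rev n r) x (n - 5) → Ps n r x 5 := fun hp => by
    have := h.ps_rev' (by omega) hp
    rwa [show n - (n - 5) = 5 by omega] at this
  have n4 : ∀ {x}, Ps n r x 5 → ¬ Ps n r x 4 := fun hp hq => by
    have := hp.unique hq (by omega) (by omega) (by omega)
    omega
  have sb5 : ∀ x, SB n (rev n r) (n - 5) x = SB n r 4 x := fun x => by
    rw [← sb_rev h (i := 4) (by omega), show n - 1 - 4 = n - 5 by omega]
  have up4 : ∀ {x}, Ps n r x 4 → Ps n r (r 4 x) 5 := fun hp => H.up _ 4 hp (by omega)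
  have dn5 : ∀ {x}, Ps n r x 5 → Ps n r (r 4 x) 4 := fun hp => H.dn _ 4 hp (by omega)
  refine ⟨fun x => if Ps n r x 4 then J1 x else J2 x, fun x => if Ps n r x 4 then w1 x else w2 x,
    fun x => if Ps n r x 4 then 4 else n - 5, fun x => if Ps n r x 4 then N1 x else N2 x,
    fun x j => if Ps n r x 4 then up r (4 - j) j x else up (rev n r) (n - 5 - j) j x,
    by omega, ?_, ?_, ?_, ?_, ?_, ?_, ?_, ?_, ?_⟩
  · rintro g hg x (hp | hp)
    · have hq : Ps n r (g x) 4 := hp.eqv ⟨g, hg, rfl⟩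
      obtain ⟨a1, a2, a3⟩ := S1.eqv g hg x
      simp only [if_pos hp, if_pos hq]
      exact ⟨Or.inl hq, a1, a2, trivial, a3, fun j => (Aut.appW hg (up_mem r _ j) x).symm⟩
    · have hq : Ps n r (g x) 5 := hp.eqv ⟨g, hg, rfl⟩
      have hg' : g ∈ Aut (rev n r) := h.aut_rev ▸ hg
      obtain ⟨a1, a2, a3⟩ := S2.eqv g hg' x
      simp only [if_neg (n4 hp), if_neg (n4 hq)]
      exact ⟨Or.inr hq, a1, a2, trivial, a3, fun j => (Aut.appW hg' (up_mem _ _ j) x).symm⟩
  · rintro x (hp | hp)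
    · simp only [if_pos hp, if_neg (n4 (up4 hp))]
      exact ⟨Or.inr (up4 hp), hp.mv (by omega), by omega⟩
    · simp only [if_neg (n4 hp), if_pos (dn5 hp)]
      exact ⟨Or.inl (dn5 hp), hp.mv' (by omega), by omega⟩
  · rintro x (hp | hp)
    · obtain ⟨a1, a2, -, a4, a5⟩ := S1.inv x hp
      simp only [if_pos hp, if_pos a1]
      exact ⟨Or.inl a1, a2, a4, nv_of a5 (by omega) (Or.inr le_rfl)⟩
    · obtain ⟨a1, a2, -, a4, a5⟩ := S2.inv x (to5 hp)
      simp only [if_neg (n4 hp), if_neg (n4 (of5 a1))]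
      exact ⟨Or.inr (of5 a1), a2, a4,
        nv_of (h.InD_rev (by omega) a5) (by omega) (Or.inl (by omega))⟩
  · rintro x (hp | hp)
    · simp only [if_pos hp]
      exact S1.wt x hp
    · simp only [if_neg (n4 hp)]
      rw [← h.eqv_rev]
      exact S2.wt x (to5 hp)
  · have mix : ∀ x x' j j', Ps n r x 4 → Ps n r x' 5 → j ≤ w1 x → j' ≤ w2 x' →
        Eqv r (up r (4 - j) j x) (up (rev n r) (n - 5 - j') j' x') → j = j' ∧ Eqv r x x' := by
      intro x x' j j' hp hp' hj hj' e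
      have a1 := w_le S1 hp
      have a2 := w_le S2 (to5 hp')
      have p1 := (S1.pos x hp j hj).1
      have q2 := (S2.pos x' (to5 hp') j' hj').2 (n - 1 - (4 - j))
      rw [h.wl_rev (by omega), show n - 1 - (n - 1 - (4 - j)) = 4 - j by omega] at q2
      have k : ¬ n - 5 - j' < n - 1 - (4 - j) := fun k => p1 ((q2 k).eqv e.symm)
      obtain rfl : j = 0 := by omega
      obtain rfl : j' = 0 := by omega
      exact ⟨rfl, e⟩
    rintro x x' j j' (hp | hp) (hp' | hp')
    · simp only [if_pos hp, if_pos hp']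
      exact half_inj S1 hp hp'
    · simp only [if_pos hp, if_neg (n4 hp')]
      exact mix x x' j j' hp hp'
    · simp only [if_neg (n4 hp), if_pos hp']
      intro hj hj' e
      obtain ⟨a, b⟩ := mix x' x j' j hp' hp hj' hj e.symm
      exact ⟨a.symm, b.symm⟩
    · simp only [if_neg (n4 hp), if_neg (n4 hp')]
      rw [← h.eqv_rev, ← h.eqv_rev]
      exact half_inj S2 (to5 hp) (to5 hp')
  · rintro x j c (hp | hp)
    · obtain ⟨a1, -, a3, -, -⟩ := S1.inv x hp
      simp only [if_pos hp]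
      intro hj
      rcases half_cl h S1 hp hj c with ⟨j', k1, k2⟩ | k | k
      · exact ⟨x, j', Or.inl rfl, by rwa [if_pos hp], by rwa [if_pos hp]⟩
      · refine ⟨J1 x, j, Or.inr (Or.inl rfl), by rwa [if_pos a1, a3], ?_⟩
        rw [if_pos a1, k]
        exact Eqv.refl _
      · refine ⟨r 4 x, 0, Or.inr (Or.inr rfl), Nat.zero_le _, ?_⟩
        rw [if_neg (n4 (up4 hp)), k]
        exact Eqv.refl _
    · obtain ⟨a1, -, a3, -, -⟩ := S2.inv x (to5 hp)
      simp only [if_neg (n4 hp)]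
      intro hj
      obtain ⟨c', e⟩ : ∃ c', r c = rev n r c' := by
        by_cases hc : c < n
        · exact ⟨n - 1 - c, by rw [rev_lt (by omega), show n - 1 - (n - 1 - c) = c by omega]⟩
        · exact ⟨c, by rw [rev_ge (by omega), h.triv c (by omega)]⟩
      rw [e]
      rcases half_cl h' S2 (to5 hp) hj c' with ⟨j', k1, k2⟩ | k | k
      · exact ⟨x, j', Or.inl rfl, by rwa [if_neg (n4 hp)], by rwa [if_neg (n4 hp), ← h.eqv_rev]⟩
      · refine ⟨J2 x, j, Or.inr (Or.inl rfl), by rwa [if_neg (n4 (of5 a1)), a3], ?_⟩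
        rw [if_neg (n4 (of5 a1)), k]
        exact Eqv.refl _
      · refine ⟨r 4 x, 0, Or.inr (Or.inr rfl), Nat.zero_le _, ?_⟩
        rw [if_pos (dn5 hp), k, e4]
        exact Eqv.refl _
  · rintro x (hp | hp)
    · simp only [if_pos hp]
      intro hx
      obtain ⟨y, c, a1, a2, a3, a4⟩ := S1.new x hp hx
      exact ⟨y, c, nv_of a1 (by omega) (Or.inr le_rfl), by omega, a3,
        by rwa [sb_ss H hN le_rfl (by omega) hp]⟩
    · simp only [if_neg (n4 hp)]
      intro hx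
      obtain ⟨y, c, a1, a2, a3, a4⟩ := S2.new x (to5 hp) hx
      rw [h.wl_rev (by omega)] at a3
      rw [h.rf_rev (by omega), ← sb_ss H' hN' (by omega) (by omega) (to5 hp), sb5] at a4
      exact ⟨y, n - 1 - c, nv_of (h.InD_rev (by omega) a1) (by omega) (Or.inl (by omega)),
        by omega, a3, a4⟩
  · rintro x (hp | hp)
    · simp only [if_pos hp]
      intro hx
      rw [sb_ss H hN le_rfl (by omega) hp, sb_ss H hN le_rfl (by omega) (S1.inv x hp).1]
      exact S1.old x hp hx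
    · simp only [if_neg (n4 hp)]
      intro hx
      rw [← sb5, ← sb5, sb_ss H' hN' (by omega) (by omega) (to5 hp),
        sb_ss H' hN' (by omega) (by omega) (S2.inv x (to5 hp)).1]
      exact S2.old x (to5 hp) hx
  · rintro x (hp | hp)
    · exact hCOC h H hN 4 x le_rfl (by omega) hp
    · exact cut_swap h (hCOC h H hN 4 _ le_rfl (by omega) (dn5 hp))

end Pool.Agent.FlagOrb.Q
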