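import Pool.Agent.Lib.MP_7157e1_co.QAsm
import Pool.Agent.Lib.MP_7157e1_co.QHalfB
import Pool.Agent.Lib.MP_7157e1_co.Q_CNT
import Pool.Agent.Lib.MP_7157e1_co.Q_COC
import Pool.Agent.Lib.MP_7157e1_co.Q_CYC
import Pool.Agent.Lib.MP_7157e1_co.Q_DBL0
import Pool.Agent.Lib.MP_7157e1_co.Q_DBL1
import Pool.Agent.Lib.MP_7157e1_co.Q_DBL2
import Pool.Agent.Lib.MP_7157e1_co.Q_DIH
import Pool.Agent.Lib.MP_7157e1_co.Q_FOLD
import Pool.Agent.Lib.MP_7157e1_co.Q_H3
import Pool.Agent.Lib.MP_7157e1_co.Q_IRR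
import Pool.Agent.Lib.MP_7157e1_co.Q_JUN
import Pool.Agent.Lib.MP_7157e1_co.Q_LEG
import Pool.Agent.Lib.MP_7157e1_co.Q_LINK
import Pool.Agent.Lib.MP_7157e1_co.Q_NODBL
import Pool.Agent.Lib.MP_7157e1_co.Q_NOPOS
import Pool.Agent.Lib.MP_7157e1_co.Q_P3
import Pool.Agent.Lib.MP_7157e1_co.Q_PAR
import Pool.Agent.Lib.MP_7157e1_co.Q_PP
import Pool.Agent.Lib.MP_7157e1_co.Q_RR
import Pool.Agent.Lib.MP_7157e1_co.Q_SIGN
import Pool.Agent.Lib.MP_7157e1_co.Q_STEP
import Pool.Agent.Lib.MP_7157e1_co.Q_TERM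
import Pool.Agent.Lib.MP_7157e1_co.Q_TWO

/-! One moving window: the number of types is determined modulo the rank minus one. -/

namespace Pool.Agent.FlagOrb.Q

open Equiv Set Pool.Agent.Lib.MP_7157e1_co

theorem of_loc {F L : Type} [Lattice L] [Finite F] [Nonempty F] {n : ℕ} {r : ℕ → Perm F}
    {φ : ℕ → F → L} (h : PS n r φ) (hD : DI n r φ) {u : ℕ} (u1 : 3 ≤ u) (u2 : u + 46 ≤ n)
    (hL : Loc n r u (u + 43)) : nty r = 1 ∨ ∃ s b, b ≤ 3 ∧ nty r + b = s * (n - 1) + 2 := by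
  have hRR : St_RR := stRR stUW
  have hDBL2 : St_DBL2 := stDBL2 (stDBL1 stDBL0)
  have hJUN : St_JUN := stJUN hRR stFOLD
  have H := stH3 hRR stFOLD stTERM h _ _ (stSIGN h u (u + 43) (u + 13) (u + 29) hL
    (stLINK stSEC (stP3 (stLEG (stNODBL stIRR))) h u (by omega) (by omega) hL)
    (by omega) (by omega) (by omega) (by omega) (by omega)) (by omega) (by omega) (by omega)
  by_cases hp : ∃ x i, Ps n r x i
  swap
  · exact Or.inl (stNOPOS stUW h (by omega) fun x c c1 c2 =>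
      (H.cov x).resolve_right (fun ⟨i, hi⟩ => hp ⟨x, i, hi⟩) c c1 c2)
  right
  have H' := h.H3_rev (by omega) H
  have N : ND n r := fun x i hx => ⟨hDBL2 h hD (by omega) H x i hx, by
    have := hDBL2 h.mirror (h.DI_rev hD) (by omega) H' x _ (h.ps_rev (by omega) hx)
    rwa [h.wl_rev (by omega)] at this⟩
  have N' := h.ND_rev (by omega) N
  have S' : ∀ i, i + 7 ≤ n → ∃ J w N, Side n (rev n r) (i + 3) J w N := by
    intro i
    induction i with
    | zero => exact fun _ => hJUN h.mirror (by omega) H' N'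
    | succ i ih =>
      exact fun hi => stSTEP h.mirror H' N' (i + 3) (by omega) (by omega) (ih (by omega))
  obtain ⟨J, w, β, M, Y, hT⟩ := stTWO stCOC h (by omega) H N
    (stSTEP h H N 3 le_rfl (by omega) (hJUN h (by omega) H N))
    (by have := S' (n - 8) (by omega); rwa [show n - 8 + 3 = n - 5 by omega] at this)
  obtain ⟨x, i, hx⟩ := hp
  have d : ∀ i x, Ps n r x (i + 3) → ∃ y, Ps n r y 3 := by
    intro i
    induction i with
    | zero => exact fun x hx => ⟨x, hx⟩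
    | succ i ih => exact fun x hx => ih _ (H.dn x (i + 3) hx (by omega))
  obtain ⟨y, hy⟩ := d (i - 3) x (by rwa [Nat.sub_add_cancel hx.1])
  exact stCNT (stPP stPAR) (stCYC stPAR) stDIH h 4 _ J w β M Y hT _
    (Or.inl (H.up y 3 hy (by omega)))

theorem half {k d : ℕ} (h : Attained k d) (hd : 83 ≤ d) (h2 : 2 ≤ k)
    (hk : 2 * k + 23 * d + 79 ≤ d ^ 2) : (k + 1) % (d - 1) ≤ 3 := by
  have key : k = 1 ∨ ∃ s b, b ≤ 3 ∧ k + b = s * (d - 1) + 2 := by
    obtain ⟨V, h1, rfl⟩ := h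
    have : Nonempty V := by
      rcases V.eq_empty_or_nonempty with rfl | ⟨x, hx⟩
      · simp at h1
      · exact ⟨⟨x, hx⟩⟩
    rw [← Subtype.range_coe (s := (V : Set (EuclideanSpace ℝ (Fin d))))] at h1 hk ⊢
    have hr := (rank_aff _).1 h1
    rw [bridge, ← k_eq (one_mem_aff _) hr, ← nty_eq] at hk ⊢
    have hP := poly_ps (one_mem_aff _) hr
    exact @of_loc _ _ (faceLat _) _ (Fl.nonempty (one_mem_aff _) hr) _ _ _ hP poly_di 11
      (by omega) (by omega) (@Half.loc _ _ (faceLat _) _ _ _ _ hP hd hk)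
  obtain ⟨s, b, hb, e⟩ := key.resolve_left (by omega)
  rw [show k + 1 = 3 - b + s * (d - 1) by omega, Nat.add_mul_mod_self_right,
    Nat.mod_eq_of_lt (by omega)]
  omega

end Pool.Agent.FlagOrb.Q
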