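import Pool.Agent.Lib.MP_7157e1_co.QBlue

/-! Sections of a flag system. -/

namespace Pool.Agent.FlagOrb.Q

open Equiv Set

namespace SEC

variable {F : Type} {r : ℕ → Perm F} {a b : ℕ} {x : F}

lemma pres {k : Perm F} (hk : ∀ c ∈ Ico a b, Commute k (r c)) {z : F}
    (hz : Rch r (Ico a b) x z) (hz' : Rch r (Ico a b) x (k z)) (w : F) :
    Rch r (Ico a b) x (k w) ↔ Rch r (Ico a b) x w := by
  constructor
  · intro hw
    have h1 := (hz'.symm.trans hw).map (g := k⁻¹) fun c hc => (hk c hc).inv_left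
    simp only [Perm.coe_inv, symm_apply_apply] at h1
    exact hz.trans h1
  · intro hw
    exact hz'.trans ((hz.symm.trans hw).map hk)

lemma pres1 (hi : ∀ c, r c * r c = 1) {c : ℕ} (hc : a + c < b) (w : F) :
    Rch r (Ico a b) x (r (a + c) w) ↔ Rch r (Ico a b) x w := by
  have m : a + c ∈ Ico a b := ⟨by omega, hc⟩
  constructor
  · intro hw
    have h1 := hw.next m
    rwa [invol_apply (hi _)] at h1
  · intro hw
    exact hw.next m

/-- the moves of the section -/
def rs (hi : ∀ c, r c * r c = 1) (a b : ℕ) (x : F) (c : ℕ) :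
    Perm {y // Rch r (Ico a b) x y} :=
  if hc : a + c < b then (r (a + c)).subtypePerm (pres1 hi hc) else 1

lemma rs_lt (hi : ∀ c, r c * r c = 1) {c : ℕ} (hc : a + c < b)
    (z : {y // Rch r (Ico a b) x y}) : (rs hi a b x c z : F) = r (a + c) z := by
  simp only [rs, dif_pos hc]
  rfl

lemma rs_ge (hi : ∀ c, r c * r c = 1) {c : ℕ} (hc : ¬ a + c < b) : rs hi a b x c = 1 :=
  dif_neg hc

lemma lift (hi : ∀ c, r c * r c = 1) {u v : ℕ} (hv : a + v ≤ b)
    (z z' : {y // Rch r (Ico a b) x y}) (h : Rch r (Ico (a + u) (a + v)) (z : F) z') :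
    Rch (rs hi a b x) (Ico u v) z z' := by
  have key : ∃ w : {y // Rch r (Ico a b) x y}, (w : F) = z' ∧
      Rch (rs hi a b x) (Ico u v) z w := by
    refine h.ind (fun c _ => hi c) (P := fun y => ∃ w : {y // Rch r (Ico a b) x y},
      (w : F) = y ∧ Rch (rs hi a b x) (Ico u v) z w) ⟨z, rfl, Rch.refl _⟩ ?_
    rintro y c ⟨h1, h2⟩ _ ⟨w, rfl, hw⟩
    refine ⟨rs hi a b x (c - a) w, ?_, hw.next ⟨by omega, by omega⟩⟩
    rw [rs_lt hi (by omega), show a + (c - a) = c by omega]
  obtain ⟨w, hw, h'⟩ := key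
  rwa [Subtype.ext hw] at h'

variable {L : Type} [Lattice L] {n : ℕ} {φ : ℕ → F → L}

lemma face (h : PS n r φ) (z z' : {y // Rch r (Ico a b) x y}) {i : ℕ} (hi : i ≤ a ∨ b < i) :
    φ i z = φ i z' :=
  h.sameR (z'.2.symm.trans z.2) fun c hc => by have := hc.1; have := hc.2; omega

lemma ps (h : PS n r φ) (hab : a ≤ b) (hb : b ≤ n) :
    PS (b - a) (rs h.inv a b x) fun i z => φ (a + i) z where
  inv c := by
    by_cases hc : a + c < b
    · ext z
      rw [Perm.mul_apply, rs_lt _ hc, rs_lt _ hc, h.rr]; rfl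
    · rw [rs_ge _ hc, one_mul]
  comm c c' hc := by
    by_cases h1 : a + c' < b
    · have h2 : a + c < b := by omega
      ext z
      rw [Perm.mul_apply, Perm.mul_apply, rs_lt _ h2, rs_lt _ h1, rs_lt _ h1, rs_lt _ h2,
        h.capp (by omega)]
    · rw [rs_ge _ h1]; exact Commute.one_right _
  triv c hc := rs_ge _ (by omega)
  lt i z hi := h.lt (a + i) z (by omega)
  same c i z hi := by
    by_cases hc : a + c < b
    · rw [rs_lt _ hc]; exact h.same _ _ _ (by omega)
    · rw [rs_ge _ hc]; rfl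
  meet c z hc := by
    rw [rs_lt _ (by omega)]; exact h.meet (a + c) z (by omega)
  join c z hc := by
    rw [rs_lt _ (by omega)]; exact h.join (a + c) z (by omega)
  conn u v z z' huv hv h1 h2 := by
    apply lift _ (by omega)
    apply h.conn _ _ _ _ (by omega) (by omega)
    · intro i hi
      by_cases hia : i ≤ a
      · exact face h z z' (Or.inl hia)
      · have := h1 (i - a) (by omega)
        rwa [show a + (i - a) = i by omega] at this
    · intro i hi hi'
      by_cases hib : b < i
      · exact face h z z' (Or.inr hib)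
      · have := h2 (i - a) (by omega) (by omega)
        rwa [show a + (i - a) = i by omega] at this
  bot z z' := face h z z' (Or.inl le_rfl)
  top z z' := face h z z' (Or.inr (by omega))
  sc u v hv := by
    intro Y R π h1 h2 h3 y y' hr he
    have m : ∀ c ∈ Ico (a + u) (a + v), c - a ∈ Ico u v := fun c hc =>
      ⟨by have := hc.1; omega, by have := hc.1; have := hc.2; omega⟩
    have e : ∀ c ∈ Ico (a + u) (a + v), ∀ z : {y // Rch r (Ico a b) x y},
        (rs h.inv a b x (c - a) z : F) = r c z := fun c hc z => by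
      have := hc.1
      have := hc.2
      rw [rs_lt _ (by omega), show a + (c - a) = c by omega]
    refine h.sc (a + u) (a + v) (by omega) Y (fun c => R (c - a)) (fun y => (π y : F))
      (fun c hc => h1 _ (m c hc)) (fun c hc y => by rw [h2 _ (m c hc), e c hc])
      (fun c hc c' hc' y k hk => h3 _ (m c hc) _ (m c' hc') y k ?_) y y' ?_
      (congrArg Subtype.val he)
    · apply Subtype.ext
      rw [pow_equiv (pr := Subtype.val) (e c hc) (e c' hc')]
      exact hk
    · obtain ⟨g, hg, rfl⟩ := hr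
      refine ⟨g, W_le (fun c hc => ?_) hg, rfl⟩
      have := W_gen (t := fun c => R (c - a)) (I := Ico (a + u) (a + v)) (c := a + c)
        ⟨by have := hc.1; omega, by have := hc.2; omega⟩
      simpa only [Nat.add_sub_cancel_left] using this

end SEC

theorem stSEC : St_SEC := by
  intro F L _ _ n r φ h a b x hab hb
  refine ⟨{y // Rch r (Ico a b) x y}, inferInstance, SEC.rs h.inv a b x, fun i z => φ (a + i) z,
    Subtype.val, SEC.ps h hab hb, fun y => ⟨fun hy => ⟨⟨y, hy⟩, rfl⟩, ?_⟩,
    fun c z hc => SEC.rs_lt _ hc z, fun l z hl => ?_, fun J hJ z z' hr => ?_⟩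
  · rintro ⟨z, rfl⟩
    exact z.2
  · have key := fun m => pow_equiv (pr := Subtype.val) (SEC.rs_lt (x := x) h.inv (c := l)
      (by omega : a + l < b)) (SEC.rs_lt h.inv (c := l + 1) hl) m z
    apply Nat.dvd_antisymm
    · rw [per_dvd]
      apply Subtype.ext
      rw [key]
      exact per_dvd.1 dvd_rfl
    · rw [per_dvd]
      exact (key _).symm.trans (congrArg Subtype.val (per_dvd.1 dvd_rfl))
  · obtain ⟨g, hg, k, hk, he⟩ := hr
    have hc : ∀ c ∈ Ico a b, Commute (k * g) (r c) := fun c hc =>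
      (hk c).mul_left (W_comm (fun c' hc' => by
        have := hc.1
        have := hc.2
        have := hJ c' hc'
        exact h.comm' (by omega) (by omega)) hg).symm
    have he' : (k * g) z = z' := he
    refine ⟨(k * g).subtypePerm (SEC.pres hc z.2 (he' ▸ z'.2)), fun c => ?_, Subtype.ext he'⟩
    by_cases h1 : a + c < b
    · ext w
      refine Eq.trans ?_ (SEC.rs_lt h.inv h1 _).symm
      show (k * g) (SEC.rs h.inv a b x c w : F) = r (a + c) ((k * g) w)
      rw [SEC.rs_lt _ h1, ← Perm.mul_apply, (hc _ ⟨by omega, h1⟩).eq, Perm.mul_apply]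
    · rw [SEC.rs_ge _ h1]; exact Commute.one_right _

end Pool.Agent.FlagOrb.Q
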