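import Pool.Agent.Lib.MP_7157e1_co.QKit

/-! A long block of walls over a whole chamber forces the colour below it to be a wall. -/

namespace Pool.Agent.FlagOrb.Q

open Equiv Set

theorem stUW : St_UW := by
  intro F L _ _ n r φ h a b x hab hb hw hx
  by_contra ha0
  obtain ⟨a, rfl⟩ : ∃ k, a = k + 1 := ⟨a - 1, by omega⟩
  classical
  obtain ⟨C, hC⟩ := (h.wall (a := 0) hb x).1.exC
  have x0 : InD r 0 b x x := InD.refl x
  have x1 : InD r 0 b x (r (a + 1) x) := x0.next ⟨by omega, by omega⟩ hx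
  have cst : ∀ z, InD r 0 b x z → ∀ c, a + 3 ≤ c → c < b → rf r z c = rf r x c := by
    intro z hz c c1 c2
    refine hz.ind (P := fun z => rf r z c = rf r x c) rfl fun y c' hy hc' hn ih => ?_
    have hl : c' ≤ a + 1 := by
      by_contra hl
      exact hn (hw y hy c' (by omega) hc'.2)
    rw [h.rf_step (hw y hy c (by omega) c2) (by omega) (by omega), ih]
  have path : ∀ z, InD r 0 b x z →
      IsPath (Walls r 0 b x) (fun j => rf r z (a + 2 + j)) 6 := fun z hz =>
    h.wl_path hb hz (by omega) (by omega) fun j hj => hw z hz _ (by omega) (by omega)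
  have mem : ∀ z, InD r 0 b x z → ∀ c, a + 2 ≤ c → c < b → rf r z c ∈ Walls r 0 b x :=
    fun z hz c c1 c2 => wall_mem hz ⟨by omega, c2⟩ (hw z hz c (by omega) c2)
  have adj : ∀ z, InD r 0 b x z → ¬ Commute (rf r x (a + 3)) (rf r z (a + 2)) := by
    intro z hz
    rw [← cst z hz (a + 3) le_rfl (by omega)]
    exact adj_symm (h.rf_adj (hw z hz _ (by omega) (by omega)) (hw z hz _ (by omega) (by omega))
      (by omega))
  have ne4 : ∀ z, InD r 0 b x z → rf r z (a + 2) ≠ rf r x (a + 4) := by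
    intro z hz
    rw [← cst z hz (a + 4) (by omega) (by omega)]
    exact h.rf_ne (hw z hz _ (by omega) (by omega)) (hw z hz _ (by omega) (by omega)) (by omega)
      (by omega)
  have uu : rf r x (a + 2) ≠ rf r (r (a + 1) x) (a + 2) :=
    h.rf_step_ne (hw _ x0 _ (by omega) (by omega)) (hw _ x1 _ (by omega) (by omega))
      (Or.inr ⟨rfl, by omega⟩)
  have two : ∀ z, InD r 0 b x z →
      rf r z (a + 2) = rf r x (a + 2) ∨ rf r z (a + 2) = rf r (r (a + 1) x) (a + 2) := by
    intro z hz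
    have a4 : ¬ Commute (rf r x (a + 3)) (rf r x (a + 4)) :=
      h.rf_adj (hw _ x0 _ (by omega) (by omega)) (hw _ x0 _ (by omega) (by omega)) (by omega)
    rcases hC.val4 (mem _ x0 (a + 3) (by omega) (by omega)) (mem _ x0 (a + 2) le_rfl (by omega))
      (mem _ x1 (a + 2) le_rfl (by omega)) (mem _ x0 (a + 4) (by omega) (by omega))
      (mem _ hz (a + 2) le_rfl (by omega)) (adj _ x0) (adj _ x1) a4 (adj _ hz) uu (ne4 _ x0)
      (ne4 _ x1) with e | e | e
    exacts [Or.inl e, Or.inr e, absurd e (ne4 _ hz)]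
  have dead : ∀ y, InD r 0 b x y → ∀ g ∈ WallsI r 0 b x (Ico 0 (a + 2)),
      Commute (rf r y (a + 2)) g := by
    intro y hy g hg
    obtain ⟨y', hy', hne⟩ : ∃ y', InD r 0 b x y' ∧ rf r y' (a + 2) ≠ rf r y (a + 2) := by
      by_cases e : rf r x (a + 2) = rf r y (a + 2)
      · exact ⟨_, x1, fun e' => uu (e.trans e'.symm)⟩
      · exact ⟨_, x0, e⟩
    by_contra hc
    have e := hC.dead (path y hy) (mem y' hy' (a + 2) le_rfl (by omega)) hne
      (by
        change _ ≠ rf r y (a + 4)
        rw [cst y hy (a + 4) (by omega) (by omega)]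
        exact ne4 y' hy')
      (by
        change ¬ Commute (rf r y (a + 3)) _
        rw [cst y hy (a + 3) le_rfl (by omega)]
        exact adj y' hy')
      (WallsI.sub (Ico_subset_Ico_right (by omega)) hg) hc
    obtain ⟨z, c, hz, hc', hwz, rfl⟩ := hg
    change _ = rf r y (a + 3) at e
    rw [cst y hy (a + 3) le_rfl (by omega), ← cst z hz (a + 3) le_rfl (by omega)] at e
    have := hc'.2
    exact h.rf_ne hwz (hw z hz _ (by omega) (by omega)) (by omega) (by omega) e
  have orb : ∀ y, Rch r (Ico 0 (a + 2)) x y → Wl r y (a + 2) ∧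
      (rf r y (a + 2) = rf r x (a + 2) ∨ rf r y (a + 2) = rf r (r (a + 1) x) (a + 2)) := by
    intro y hy
    obtain ⟨γ, hγ, z, hz, rfl⟩ := h.decomp (a := 0) (b := b) (Ico_subset_Ico_right (by omega)) hy
    have hA := WallsI.aut subset_rfl hγ
    have wz := hw z hz (a + 2) (by omega) (by omega)
    have cm : Commute (rf r z (a + 2)) γ := by
      have : Subgroup.closure (WallsI r 0 b x (Ico 0 (a + 2))) ≤
          Subgroup.centralizer {rf r z (a + 2)} := by
        rw [Subgroup.closure_le]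
        intro g hg
        rw [SetLike.mem_coe, Subgroup.mem_centralizer_iff]
        rintro _ rfl
        exact dead z hz g hg
      exact Subgroup.mem_centralizer_iff.1 (this hγ) _ rfl
    refine ⟨wz.eqv ⟨γ, hA, rfl⟩, ?_⟩
    rw [h.rf_conj wz hA, ← cm.eq, mul_inv_cancel_right]
    exact two z hz
  have r1 : Rch r (Ico 0 (a + 2)) x (r a x) := Rch.step (mem_Ico.2 ⟨by omega, by omega⟩) x
  have r2 : Rch r (Ico 0 (a + 2)) x (r (a + 1) (r a x)) := r1.next ⟨by omega, by omega⟩
  have n1 := h.rf_step_ne (orb _ r1).1 (orb _ r2).1 (Or.inr ⟨rfl, by omega⟩)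
  rw [h.rf_step (hw _ x0 (a + 2) (by omega) (by omega)) (by omega) (by omega)] at n1
  have n2 := h.three_walls (a := a) (by omega) (hw _ x1 (a + 2) (by omega) (by omega)) (orb _ r2).1
  rcases (orb _ r2).2 with e | e
  exacts [n1 e.symm, n2 e.symm]

end Pool.Agent.FlagOrb.Q
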