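import Pool.Agent.Lib.MP_7157e1_co.QBlue

/-! Braid systems acting on types: either a sign or a large orbit. -/

namespace Pool.Agent.FlagOrb.Q

open Equiv Set

namespace WC

/-- involutions with the braid relations -/
structure BS {G : Type} [Group G] (N : ℕ) (t : ℕ → G) : Prop where
  inv : ∀ c, t c * t c = 1
  comm : ∀ c c', c + 2 ≤ c' → Commute (t c) (t c')
  triv : ∀ c, N ≤ c → t c = 1
  br : ∀ c, c + 1 < N → (t c * t (c + 1)) ^ 3 = 1

section Grp

variable {G : Type} [Group G] {N : ℕ} {t : ℕ → G} (h : BS N t)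
include h

lemma BS.spread {c : ℕ} (hc : c + 1 < N) (he : t c = t (c + 1)) :
    ∀ i, i < N → ∀ j, j < N → t i = t j := by
  have up : ∀ k, c + k + 1 < N → t (c + k) = t (c + k + 1) := by
    intro k
    induction k with
    | zero => exact fun _ => he
    | succ k ih =>
      intro hk
      refine eq_of_comm_cube (h.inv _) (h.inv _) (h.br _ hk) ?_
      have := h.comm (c + k) (c + (k + 1) + 1) (by omega)
      rwa [ih (by omega)] at this
  have dn : ∀ k i, i + k = c → t i = t (i + 1) := by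
    intro k
    induction k with
    | zero => intro i hi; obtain rfl : i = c := hi; exact he
    | succ k ih =>
      intro i hi
      refine eq_of_comm_cube (h.inv _) (h.inv _) (h.br _ (by omega)) ?_
      have := h.comm i (i + 1 + 1) le_rfl
      rwa [← ih (i + 1) (by omega)] at this
  have all : ∀ i, i < N → t i = t 0 := by
    intro i
    induction i with
    | zero => exact fun _ => rfl
    | succ i ih =>
      intro hi
      rw [← ih (by omega)]
      by_cases h1 : i ≤ c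
      · exact (dn (c - i) i (by omega)).symm
      · obtain ⟨k, rfl⟩ : ∃ k, i = c + k := ⟨i - c, by omega⟩
        exact (up k hi).symm
  exact fun i hi j hj => (all i hi).trans (all j hj).symm

lemma BS.dc_of {c : ℕ} (key : ∀ u ∈ W t (Ico 0 c), t c * u * t c ∈ W t (Ico 0 c) ∨
      ∃ u' ∈ W t (Ico 0 c), ∃ v' ∈ W t (Ico 0 c), t c * u * t c = u' * t c * v') :
    ∀ g ∈ W t (Ico 0 (c + 1)), g ∈ W t (Ico 0 c) ∨
      ∃ u ∈ W t (Ico 0 c), ∃ v ∈ W t (Ico 0 c), g = u * t c * v := by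
  refine W_ind (fun c _ => h.inv c) (Or.inl (one_mem _)) ?_
  intro g i hi _ ih
  rcases (Nat.lt_succ_iff.1 hi.2).eq_or_lt with rfl | hl
  · rcases ih with ih | ⟨u, hu, v, hv, rfl⟩
    · exact Or.inr ⟨1, one_mem _, g, ih, by rw [one_mul]⟩
    · rw [← mul_assoc, ← mul_assoc]
      rcases key u hu with k | ⟨u', hu', v', hv', k⟩
      · exact Or.inl (mul_mem k hv)
      · exact Or.inr ⟨u', hu', v' * v, mul_mem hv' hv, by rw [k, mul_assoc _ v']⟩
  · have m : t i ∈ W t (Ico 0 c) := W_gen ⟨hi.1, hl⟩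
    rcases ih with ih | ⟨u, hu, v, hv, rfl⟩
    · exact Or.inl (mul_mem m ih)
    · exact Or.inr ⟨t i * u, mul_mem m hu, v, hv, by simp only [mul_assoc]⟩

lemma BS.far {c d : ℕ} (hd : c + 1 ≤ d) {u : G} (hu : u ∈ W t (Ico 0 c)) : Commute (t d) u :=
  W_comm (fun i hi => (h.comm i d (by have := hi.2; omega)).symm) hu

lemma BS.dc (c : ℕ) : c < N → ∀ g ∈ W t (Ico 0 (c + 1)), g ∈ W t (Ico 0 c) ∨
      ∃ u ∈ W t (Ico 0 c), ∃ v ∈ W t (Ico 0 c), g = u * t c * v := by
  classical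
  induction c with
  | zero =>
    intro _
    refine h.dc_of fun u hu => Or.inl ?_
    rw [Ico_self] at hu
    rw [W_empty hu, mul_one, h.inv]
    exact one_mem _
  | succ c ih =>
    intro hc
    refine h.dc_of fun u hu => ?_
    have sub : W t (Ico 0 c) ≤ W t (Ico 0 (c + 1)) := W_mono (Ico_subset_Ico_right (by omega))
    have m : t c ∈ W t (Ico 0 (c + 1)) := W_gen ⟨by omega, by omega⟩
    rcases ih (by omega) u hu with k | ⟨u', hu', v', hv', rfl⟩
    · left
      rw [(h.far le_rfl k).eq, mul_assoc, h.inv, mul_one]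
      exact hu
    · refine Or.inr ⟨u' * t c, mul_mem (sub hu') m, t c * v', mul_mem m (sub hv'), ?_⟩
      have b := braid_of_cube (h.inv c) (h.inv (c + 1)) (h.br c hc)
      calc t (c + 1) * (u' * t c * v') * t (c + 1)
          = (t (c + 1) * u') * t c * (v' * t (c + 1)) := by simp only [mul_assoc]
        _ = u' * (t (c + 1) * t c * t (c + 1)) * v' := by
          rw [(h.far le_rfl hu').eq, ← (h.far le_rfl hv').eq]; simp only [mul_assoc]
        _ = _ := by rw [← b]; simp only [mul_assoc]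

lemma BS.desc (ne : ∀ c, c + 1 < N → t c ≠ t (c + 1)) {z : G}
    (hz : ∀ c ∈ Ico 0 N, Commute z (t c)) (m : ℕ) : m < N → z ∈ W t (Ico 0 m) → z = 1 := by
  induction m with
  | zero => intro _ hu; rw [Ico_self] at hu; exact W_empty hu
  | succ c ih =>
    intro hc hu
    rcases h.dc c (by omega) z hu with k | ⟨u, hu', v, hv, rfl⟩
    · exact ih (by omega) k
    · exfalso
      refine ne c hc (eq_of_comm_cube (h.inv _) (h.inv _) (h.br c hc) ?_)
      have e := (hz (c + 1) ⟨by omega, hc⟩).symm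
      have e1 := ((h.far (d := c + 1) le_rfl hu').inv_right.mul_right e).mul_right
        (h.far (d := c + 1) le_rfl hv).inv_right
      simpa [mul_assoc] using e1.symm

end Grp

lemma BS.big {X : Type} [Finite X] {N : ℕ} {t : ℕ → Perm X} (h : BS N t) (x0 : X)
    (tr : orb t (Ico 0 N) x0 = univ) (ne : ∀ c, c + 1 < N → t c ≠ t (c + 1)) :
    N ≤ Nat.card X := by
  by_cases hN : N ≤ 1
  · have : Nonempty X := ⟨x0⟩
    exact hN.trans Nat.card_pos
  have hS : Str N t fun l _ => if l + 1 < N then 3 else 2 := by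
    refine ⟨h.inv, h.comm, fun _ _ _ _ _ => rfl, fun l x => ?_, fun j x hj _ => Or.inl ?_,
      fun j x hj _ => Or.inl ?_, fun j x hj _ => ⟨?_, ?_⟩⟩
    · split_ifs with hl
      · rw [h.br l hl]; rfl
      · rw [h.triv (l + 1) (by omega), mul_one, pow_two, h.inv]; rfl
    all_goals exact if_pos (by omega)
  have one : ∀ {a : Perm X}, a * a = 1 → a ^ 3 = 1 → a = 1 := fun {a} h1 h2 => by
    rwa [pow_succ, pow_two, h1, one_mul] at h2
  have hG : Gd t 0 N x0 := by
    refine ⟨fun g _ hf => ?_, fun c hc he => ?_, fun z h1 h2 => ?_⟩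
    · ext y
      exact hf y (tr ▸ mem_univ y)
    · by_cases h1 : c + 1 < N
      · have := h.br c h1
        rw [he, one_mul] at this
        exact ne c h1 (he.trans (one (h.inv _) this).symm)
      · obtain ⟨d, rfl⟩ : ∃ d, c = d + 1 := ⟨c - 1, by have := hc.2; omega⟩
        have := h.br d hc.2
        rw [he, mul_one] at this
        exact ne d hc.2 ((one (h.inv _) this).trans he.symm)
    · refine h.desc ne h1 (N - 1) (by omega) (W_mono ?_ (h2 N))
      rintro c ⟨⟨-, c1⟩, c2⟩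
      simp only [Dl, mem_ofPred_eq, not_or] at c2
      exact ⟨by omega, by omega⟩
  have := str hS _ 0 N x0 rfl (by omega) le_rfl hG
  unfold Concl at this
  rw [tr, Set.ncard_univ] at this
  omega

section Flags

variable {F : Type} {r : ℕ → Perm F} {J : Set ℕ}

lemma jr_refl (x : F) : JR r J x x := ⟨1, one_mem _, Eqv.refl _⟩

lemma jr_symm {x y : F} (h : JR r J x y) : JR r J y x := by
  obtain ⟨g, hg, he⟩ := h
  exact ⟨g⁻¹, inv_mem hg, by simpa using (he.map (inv_mem hg)).symm⟩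

lemma jr_trans {x y z : F} (h : JR r J x y) (h' : JR r J y z) : JR r J x z := by
  obtain ⟨g, hg, he⟩ := h
  obtain ⟨k, hk, he'⟩ := h'
  exact ⟨k * g, mul_mem hk hg, (he.map hk).trans he'⟩

/-- the elements acting trivially on the classes -/
def PP (r : ℕ → Perm F) (I J : Set ℕ) (x : F) : Subgroup (Perm F) where
  carrier := {g | g ∈ W r I ∧ ∀ y, Rch r I x y → JR r J y (g y)}
  mul_mem' := fun {g k} hg hk => ⟨mul_mem hg.1 hk.1, fun y hy =>
    jr_trans (hk.2 y hy) (hg.2 _ (hy.trans ⟨k, hk.1, rfl⟩))⟩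
  one_mem' := ⟨one_mem _, fun y _ => jr_refl y⟩
  inv_mem' := fun {g} hg => ⟨inv_mem hg.1, fun y hy => jr_symm (by
    simpa using hg.2 _ (hy.trans ⟨g⁻¹, inv_mem hg.1, rfl⟩))⟩

/-- those fixing the type of `x` -/
def KK (r : ℕ → Perm F) (I J : Set ℕ) (x : F) : Subgroup (Perm F) where
  carrier := {g | g ∈ PP r I J x ∧ Eqv r x (g x)}
  mul_mem' := fun {g k} hg hk => ⟨mul_mem hg.1 hk.1, hg.2.trans (hk.2.map hg.1.1)⟩
  one_mem' := ⟨one_mem _, Eqv.refl _⟩
  inv_mem' := fun {g} hg => ⟨inv_mem hg.1, by simpa using (hg.2.map (inv_mem hg.1.1)).symm⟩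

lemma kk_all {I : Set ℕ} {x : F} (hc : ∀ c ∈ I, ∀ c' ∈ J, Commute (r c) (r c')) {g s : Perm F}
    (hg : g ∈ KK r I J x) (hs : s ∈ PP r I J x) : Eqv r (s x) (g (s x)) := by
  obtain ⟨k, hk, he⟩ := hs.2 x (Rch.refl x)
  have e1 := he.map hg.1.1
  rw [← Perm.mul_apply, (W_comm2 hc hg.1.1 hk).eq, Perm.mul_apply] at e1
  exact (he.symm.trans (hg.2.map hk)).trans e1

lemma kk_conj {I : Set ℕ} {x : F} (hc : ∀ c ∈ I, ∀ c' ∈ J, Commute (r c) (r c')) {g s : Perm F}
    (hg : g ∈ KK r I J x) (hs : s ∈ PP r I J x) : s⁻¹ * g * s ∈ KK r I J x :=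
  ⟨mul_mem (mul_mem (inv_mem hs) hg.1) hs, by simpa using (kk_all hc hg hs).map (inv_mem hs.1)⟩

variable {L : Type} [Lattice L] {n : ℕ} {φ : ℕ → F → L}

lemma quot [Finite F] (h : PS n r φ) {a b : ℕ} {x : F}
    (hp : ∀ y l, Rch r (Ico a b) x y → a ≤ l → l + 1 < b → per r l y = 3) (S : Setoid F)
    (hS : ∀ c ∈ Ico a b, ∀ y y', S.r y y' → S.r (r c y) (r c y')) :
    ∃ (X : Type) (_ : Finite X) (t : ℕ → Perm X) (π : (y : F) → Rch r (Ico a b) x y → X),
      BS (b - a) t ∧ (∀ y hy c (hc : a + c < b),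
        t c (π y hy) = π (r (a + c) y) (hy.next ⟨Nat.le_add_right _ _, hc⟩)) ∧
      (∀ w, ∃ y hy, π y hy = w) ∧ ∀ y hy y' hy', π y hy = π y' hy' ↔ S.r y y' := by
  let O := {y // Rch r (Ico a b) x y}
  let S' : Setoid O := S.comap Subtype.val
  let f : (c : ℕ) → a + c < b → Quotient S' → Quotient S' := fun c hc =>
    Quotient.map (fun y : O => (⟨r (a + c) y.1, y.2.next ⟨Nat.le_add_right _ _, hc⟩⟩ : O))
      fun y y' e => hS _ ⟨Nat.le_add_right _ _, hc⟩ _ _ e
  have hf : ∀ c hc, Function.Involutive (f c hc) := by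
    rintro c hc ⟨y, hy⟩
    exact congrArg (Quotient.mk S') (Subtype.ext (h.rr _ _))
  let t : ℕ → Perm (Quotient S') := fun c => if hc : a + c < b then (hf c hc).toPerm _ else 1
  have ht : ∀ c (hc : a + c < b) y hy, t c (Quotient.mk S' ⟨y, hy⟩) =
      Quotient.mk S' ⟨r (a + c) y, hy.next ⟨Nat.le_add_right _ _, hc⟩⟩ := by
    intro c hc y hy
    simp only [t, dif_pos hc]
    rfl
  have h1 : ∀ c, ¬ a + c < b → t c = 1 := fun c hc => dif_neg hc
  refine ⟨Quotient S', inferInstance, t, fun y hy => Quotient.mk S' ⟨y, hy⟩, ⟨fun c => ?_,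
    fun c c' hc => ?_, fun c hc => h1 c (by omega), fun c hc => ?_⟩, fun y hy c hc => ht c hc y hy,
    ?_, fun y hy y' hy' => Quotient.eq⟩
  · by_cases hc : a + c < b
    · ext ⟨y, hy⟩
      change t c (t c (Quotient.mk S' ⟨y, hy⟩)) = Quotient.mk S' ⟨y, hy⟩
      rw [ht c hc, ht c hc]
      exact congrArg (Quotient.mk S') (Subtype.ext (h.rr _ _))
    · rw [h1 c hc, mul_one]
  · by_cases hc' : a + c' < b
    · ext ⟨y, hy⟩
      change t c (t c' (Quotient.mk S' ⟨y, hy⟩)) = t c' (t c (Quotient.mk S' ⟨y, hy⟩))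
      rw [ht c' hc', ht c (by omega), ht c (by omega), ht c' hc']
      exact congrArg (Quotient.mk S') (Subtype.ext (h.capp (by omega) _))
    · rw [h1 c' hc']; exact Commute.one_right _
  · ext ⟨y, hy⟩
    have c1 : a + c < b := by omega
    have c2 : a + (c + 1) < b := by omega
    change t c (t (c + 1) (t c (t (c + 1) (t c (t (c + 1) (Quotient.mk S' ⟨y, hy⟩)))))) =
      Quotient.mk S' ⟨y, hy⟩
    rw [ht _ c2, ht _ c1, ht _ c2, ht _ c1, ht _ c2, ht _ c1]
    exact congrArg (Quotient.mk S') (Subtype.ext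
      (per_dvd.1 (hp y (a + c) hy (Nat.le_add_right _ _) c2 ▸ dvd_rfl : per r (a + c) y ∣ 3)))
  · rintro ⟨y, hy⟩
    exact ⟨y, hy, rfl⟩

end Flags

end WC

open WC

theorem stWC : St_WC := by
  intro F L _ _ n r φ h a b p J x hb hJ hp hk hab
  have hc : ∀ c ∈ Ico a b, ∀ c' ∈ J, Commute (r c) (r c') := fun c hc c' hc' => by
    have := hc.1
    have := hc.2
    rcases hJ c' hc' with k | k
    exacts [(h.comm c' c (by omega)).symm, h.comm c c' (by omega)]
  obtain ⟨X, _, t, π, hB, ht, hs, he⟩ := quot h hp ⟨JR r J, jr_refl, jr_symm, jr_trans⟩ (by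
    rintro c hc' y y' ⟨g, hg, e⟩
    refine ⟨g, hg, ?_⟩
    rw [← Perm.mul_apply, ← (W_comm (hc c hc') hg).eq]
    exact e.step c)
  by_cases ne : ∀ c, c + 1 < b - a → t c ≠ t (c + 1)
  · right
    have := hB.big (π x (Rch.refl x)) (by
      rw [eq_univ_iff_forall]
      intro w
      obtain ⟨y, hy, rfl⟩ := hs w
      refine hy.ind (fun c _ => h.inv c)
        (P := fun y => ∀ hy, Rch t (Ico 0 (b - a)) (π x (Rch.refl x)) (π y hy))
        (fun _ => Rch.refl _) ?_ hy
      intro y c hc hy ih _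
      obtain ⟨d, rfl⟩ : ∃ d, c = a + d := ⟨c - a, by have := hc.1; omega⟩
      rw [← ht y hy d hc.2]
      exact (ih hy).next ⟨by omega, by have := hc.2; omega⟩) ne
    obtain ⟨e⟩ : Nonempty (Fin (b - a) ↪ X) := by
      have := Fintype.ofFinite X
      exact Function.Embedding.nonempty_of_card_le
        (by rwa [Fintype.card_fin, ← Nat.card_eq_fintype_card])
    choose f f1 f2 using hs
    refine ⟨fun i => f (e i), fun i => f1 _, fun i j k => e.injective ?_⟩
    rw [← f2 (e i), ← f2 (e j)]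
    exact (he _ _ _ _).2 k
  left
  push Not at ne
  obtain ⟨c0, c1, c2⟩ := ne
  have pm : ∀ c ∈ Ico a b, ∀ c' ∈ Ico a b, r c * r c' ∈ PP r (Ico a b) J x := by
    intro c hc c' hc'
    refine ⟨mul_mem (W_gen hc) (W_gen hc'), fun y hy => ?_⟩
    obtain ⟨d, rfl⟩ : ∃ d, c = a + d := ⟨c - a, by have := hc.1; omega⟩
    obtain ⟨d', rfl⟩ : ∃ d, c' = a + d := ⟨c' - a, by have := hc'.1; omega⟩
    have e := hB.spread c1 c2 d (by have := hc.2; omega) d' (by have := hc'.2; omega)
    refine (he y hy _ ((hy.next hc').next hc)).1 ?_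
    rw [← ht _ (hy.next hc') d hc.2, ← ht y hy d' hc'.2, e, invol_apply (hB.inv d')]
  by_cases hz : ∃ c, a ≤ c ∧ c + 1 < b ∧ r c * r (c + 1) ∈ KK r (Ico a b) J x
  · obtain ⟨c, k1, k2, k3⟩ := hz
    have m1 : c ∈ Ico a b := ⟨k1, by omega⟩
    have key : ∀ y, Rch r (Ico a b) x y → Eqv r (r c y) (r (c + 1) y) := by
      intro y hy
      obtain ⟨g, hg, e⟩ := hy.ind (fun c _ => h.inv c)
        (P := fun y => ∃ g ∈ PP r (Ico a b) J x, y = g x ∨ y = r c (g x))
        ⟨1, one_mem _, Or.inl rfl⟩ (by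
          rintro y d hd _ ⟨g, hg, rfl | rfl⟩
          · exact ⟨r c * r d * g, mul_mem (pm c m1 d hd) hg, Or.inr (h.rr _ _).symm⟩
          · exact ⟨r d * r c * g, mul_mem (pm d hd c m1) hg, Or.inl rfl⟩)
      rcases e with rfl | rfl
      · have := (kk_all hc k3 hg).step c
        rwa [Perm.mul_apply, h.rr] at this
      · have := kk_all hc (inv_mem k3) hg
        rwa [mul_inv_rev, inv_eq_of_sq (h.inv _), inv_eq_of_sq (h.inv _), Perm.mul_apply,
          ← h.rr c (g x), h.rr c (r c (g x))] at this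
    obtain ⟨X', _, t', π', hB', ht', hs', he'⟩ := quot h hp (tySetoid r)
      fun c _ y y' e => Eqv.step e c
    obtain ⟨d, rfl⟩ : ∃ d, c = a + d := ⟨c - a, by omega⟩
    have sp := hB'.spread (c := d) (by omega) (by
      ext w
      obtain ⟨y, hy, rfl⟩ := hs' w
      rw [ht' y hy d (by omega), ht' y hy (d + 1) k2]
      exact (he' _ _ _ _).2 (key y hy))
    intro c hc c' hc'
    obtain ⟨e, rfl⟩ : ∃ d, c = a + d := ⟨c - a, by have := hc.1; omega⟩
    obtain ⟨e', rfl⟩ : ∃ d, c' = a + d := ⟨c' - a, by have := hc'.1; omega⟩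
    refine (he' _ ((Rch.refl x).next hc) _ ((Rch.refl x).next hc')).1 ?_
    rw [← ht' x (Rch.refl x) e hc.2, ← ht' x (Rch.refl x) e' hc'.2,
      sp e (by have := hc.2; omega) e' (by have := hc'.2; omega)]
  exfalso
  have main : ∀ q, q ≤ p → ∃ (ι : Type) (_ : Finite ι) (f : ι → Perm F), Nat.card ι = 3 ^ q ∧
      (∀ i, f i ∈ PP r (Ico a b) J x ∧ f i ∈ W r {c | c + 2 ≤ a + 3 * q}) ∧
      ∀ i j, Eqv r (f i x) (f j x) → i = j := by
    intro q
    induction q with
    | zero => exact fun _ => ⟨Unit, inferInstance, fun _ => 1, by simp,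
        fun _ => ⟨one_mem _, one_mem _⟩, fun _ _ _ => rfl⟩
    | succ q ih =>
      intro hq
      obtain ⟨ι, _, f, f1, f2, f3⟩ := ih (by omega)
      obtain ⟨c, hcq⟩ : ∃ c, c = a + 3 * q := ⟨_, rfl⟩
      rw [← hcq] at f2
      have m1 : c ∈ Ico a b := ⟨by omega, by omega⟩
      have m2 : c + 1 ∈ Ico a b := ⟨by omega, by omega⟩
      have m3 : a + 3 * p ∈ Ico a b := ⟨by omega, by omega⟩
      have zP := pm _ m1 _ m2
      have far : ∀ d, c ≤ d → ∀ v ∈ W r {e | e + 2 ≤ c}, Commute (r d) v := fun d hd v hv =>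
        W_comm (fun e he => (h.comm e d (le_trans he hd)).symm) hv
      obtain ⟨z, hzz⟩ : ∃ z, z = r c * r (c + 1) := ⟨_, rfl⟩
      obtain ⟨s, hss⟩ : ∃ s, s = r c * r (a + 3 * p) := ⟨_, rfl⟩
      have zv : ∀ v ∈ W r {e | e + 2 ≤ c}, Commute z v := fun v hv =>
        hzz ▸ (far c le_rfl v hv).mul_left (far _ (by omega) v hv)
      have sv : ∀ v ∈ W r {e | e + 2 ≤ c}, Commute s v := fun v hv =>
        hss ▸ (far c le_rfl v hv).mul_left (far _ (by omega) v hv)
      have sz : s⁻¹ * z * s = z⁻¹ := by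
        have a1 := (h.comm c (a + 3 * p) (by omega)).eq
        have a2 := (h.comm (c + 1) (a + 3 * p) (by omega)).eq
        rw [hss, hzz, mul_inv_rev, mul_inv_rev, inv_eq_of_sq (h.inv _), inv_eq_of_sq (h.inv _),
          inv_eq_of_sq (h.inv _)]
        calc r (a + 3 * p) * r c * (r c * r (c + 1)) * (r c * r (a + 3 * p))
            = r (a + 3 * p) * (r c * r c) * r (c + 1) * (r c * r (a + 3 * p)) := by
              simp only [mul_assoc]
          _ = r (c + 1) * (r (a + 3 * p) * r (a + 3 * p)) * r c := by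
              rw [h.inv c, mul_one, ← a2, a1]; simp only [mul_assoc]
          _ = _ := by rw [h.inv, mul_one]
      have z3 : z ^ (3 : ℤ) ∈ KK r (Ico a b) J x := by
        refine ⟨hzz ▸ zpow_mem zP _, ?_⟩
        have : (z ^ (3 : ℤ)) x = x :=
          hzz ▸ per_dvd.1 (hp x c (Rch.refl x) m1.1 m2.2 ▸ dvd_rfl : per r c x ∣ 3)
        rw [this]
        exact Eqv.refl _
      refine ⟨ι × Fin 3, inferInstance, fun i => f i.1 * z ^ ((i.2 : ℕ) : ℤ), ?_, fun i => ⟨?_, ?_⟩,
        ?_⟩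
      · rw [Nat.card_prod, f1, pow_succ]; simp
      · exact mul_mem (f2 _).1 (hzz ▸ zpow_mem zP _)
      · refine mul_mem (W_mono (fun e he => ?_) (f2 _).2) (zpow_mem ?_ _)
        · simp only [mem_ofPred_eq] at he ⊢; omega
        · rw [hzz]
          refine mul_mem (W_gen ?_) (W_gen ?_) <;> simp only [mem_ofPred_eq] <;> omega
      rintro ⟨i, j⟩ ⟨i', j'⟩ e
      obtain ⟨v, hv⟩ : ∃ v, v = (f i')⁻¹ * f i := ⟨_, rfl⟩
      have vW : v ∈ W r {e | e + 2 ≤ c} := hv ▸ mul_mem (inv_mem (f2 _).2) (f2 _).2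
      have gP : ∀ i (j : ℤ), f i * z ^ j ∈ PP r (Ico a b) J x := fun i j =>
        mul_mem (f2 _).1 (hzz ▸ zpow_mem zP _)
      have k1 : v * z ^ (((j : ℕ) : ℤ) - ((j' : ℕ) : ℤ)) ∈ KK r (Ico a b) J x := by
        have : (f i' * z ^ ((j' : ℕ) : ℤ))⁻¹ * (f i * z ^ ((j : ℕ) : ℤ)) ∈ KK r (Ico a b) J x :=
          ⟨mul_mem (inv_mem (gP _ _)) (gP _ _), by
            have := (e.map (inv_mem (gP i' ((j' : ℕ) : ℤ)).1)).symm
            beta_reduce at this
            rwa [← Perm.mul_apply _ (f i' * _), inv_mul_cancel] at this⟩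
        rwa [mul_inv_rev, mul_assoc, ← mul_assoc (f i')⁻¹, ← hv, ← mul_assoc, ← zpow_neg,
          ((zv v vW).zpow_left _).eq, mul_assoc, ← zpow_add, neg_add_eq_sub] at this
      have jj : j = j' := by
        by_contra hj
        generalize hd : ((j : ℕ) : ℤ) - ((j' : ℕ) : ℤ) = d at k1
        have k2 := kk_conj hc k1 (hss ▸ pm _ m1 _ m3 : s ∈ _)
        have e2 : s⁻¹ * (v * z ^ d) * s = v * z ^ (-d) := by
          have : s⁻¹ * z ^ d * s = z ^ (-d) := by
            rw [zpow_neg, ← inv_zpow, ← sz]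
            simpa using (conj_zpow (a := s⁻¹) (b := z) (i := d)).symm
          rw [← this, ← mul_assoc s⁻¹, (sv v vW).inv_left.eq]
          simp only [mul_assoc]
        rw [e2] at k2
        have k3 := mul_mem (inv_mem k2) k1
        rw [mul_inv_rev, mul_assoc, inv_mul_cancel_left, ← zpow_neg, neg_neg, ← zpow_add] at k3
        obtain ⟨u, w, huw⟩ : ∃ u w : ℤ, (d + d) * u + 3 * w = 1 := by
          have := j.2
          have := j'.2
          have : (j : ℕ) ≠ j' := fun k => hj (Fin.ext k)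
          have : d = 1 ∨ d = 2 ∨ d = -1 ∨ d = -2 := by omega
          rcases this with rfl | rfl | rfl | rfl
          exacts [⟨-1, 1, by norm_num⟩, ⟨1, -1, by norm_num⟩, ⟨1, 1, by norm_num⟩,
            ⟨-1, -1, by norm_num⟩]
        have k4 := mul_mem (zpow_mem k3 u) (zpow_mem z3 w)
        rw [← zpow_mul, ← zpow_mul, ← zpow_add, huw, zpow_one, hzz] at k4
        exact hz ⟨c, m1.1, m2.2, k4⟩
      subst jj
      rw [sub_self, zpow_zero, mul_one, hv] at k1
      have := k1.2.map (f2 i').2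
      rw [← Perm.mul_apply, mul_inv_cancel_left] at this
      rw [f3 _ _ this]
  obtain ⟨ι, _, f, f1, -, f3⟩ := main p le_rfl
  have := Nat.card_le_card_of_injective (fun i => Quotient.mk (tySetoid r) (f i x))
    fun i j e => f3 i j (Quotient.exact e)
  unfold nty at hk
  omega

end Pool.Agent.FlagOrb.Q
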