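import Pool.Agent.Lib.MP_7157e1_co.QKit
import Pool.Agent.Lib.MP_7157e1_co.Q_SEC
import Pool.Agent.Lib.MP_7157e1_co.Q_WC
import Pool.Agent.Lib.MP_7157e1_co.Q_UW

/-! Active windows of colours can be moved inside a region. -/

namespace Pool.Agent.FlagOrb.Q.Half

open Equiv Set

variable {F L : Type} [Lattice L] {n : ℕ} {r : ℕ → Perm F} {φ : ℕ → F → L}

lemma sm_mono {a b a' b' : ℕ} {x : F} (s : Sm r a b x) (h1 : a ≤ a') (h2 : b' ≤ b) :
    Sm r a' b' x := fun c hc c' hc' =>
  s c ⟨h1.trans hc.1, hc.2.trans_le h2⟩ c' ⟨h1.trans hc'.1, hc'.2.trans_le h2⟩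

lemma sm_eqv {a b : ℕ} {x y : F} (e : Eqv r x y) (s : Sm r a b x) : Sm r a b y :=
  fun c hc c' hc' => ((e.step c).symm.trans (s c hc c' hc')).trans (e.step c')

lemma sm_own (h : PS n r φ) {a b c : ℕ} {x : F} (s : Sm r a b x) (hc : c ∈ Ico a b) :
    Sm r a b (r c x) := by
  have k : ∀ d ∈ Ico a b, Eqv r (r d (r c x)) x := fun d hd => by
    have := (s c hc d hd).step d
    rwa [h.rr] at this
  exact fun d hd d' hd' => (k d hd).trans (k d' hd').symm

lemma sm_far (h : PS n r φ) {a b c : ℕ} {x : F} (s : Sm r a b x) (hc : c + 2 ≤ a ∨ b + 1 ≤ c) :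
    Sm r a b (r c x) := by
  have k : ∀ d ∈ Ico a b, r d (r c x) = r c (r d x) := fun d hd => by
    have := hd.1
    have := hd.2
    rcases hc with hc | hc
    exacts [(h.capp (by omega) x).symm, h.capp (by omega) x]
  intro d hd d' hd'
  rw [k d hd, k d' hd']
  exact (s d hd d' hd').step c

lemma sm_rch (h : PS n r φ) {a b : ℕ} {I : Set ℕ} {x y : F} (hy : Rch r I x y) (f : Far I a b)
    (s : Sm r a b x) : Sm r a b y :=
  hy.ind (fun c _ => h.inv c) (P := fun y => Sm r a b y) s fun _ c hc _ ih => sm_far h ih (f c hc)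

lemma sm_win {a b : ℕ} {x : F} (hab : a + 7 ≤ b)
    (s : ∀ u, a ≤ u → u + 7 ≤ b → Sm r u (u + 7) x) : Sm r a b x := by
  have k : ∀ m, a + m < b → Eqv r (r (a + m) x) (r a x) := by
    intro m
    induction m with
    | zero => exact fun _ => Eqv.refl _
    | succ m ih =>
      intro hm
      refine Eqv.trans ?_ (ih (by omega))
      by_cases e : a + m + 7 ≤ b
      · exact s (a + m) (by omega) e _ ⟨by omega, by omega⟩ _ ⟨le_rfl, by omega⟩
      · exact s (b - 7) (by omega) (by omega) _ ⟨by omega, by omega⟩ _ ⟨by omega, by omega⟩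
  intro c hc c' hc'
  obtain ⟨m, rfl⟩ := Nat.exists_eq_add_of_le hc.1
  obtain ⟨m', rfl⟩ := Nat.exists_eq_add_of_le hc'.1
  exact (k m hc.2).trans (k m' hc'.2).symm

variable [Finite F]

lemma spr (h : PS n r φ) {a b c : ℕ} {x : F}
    (hp : ∀ y l, Rch r (Ico a b) x y → a ≤ l → l + 1 < b → per r l y = 3) (k1 : a ≤ c)
    (k2 : c + 1 < b) (key : ∀ y, Rch r (Ico a b) x y → Eqv r (r c y) (r (c + 1) y)) :
    Sm r a b x := by
  obtain ⟨X', _, t', π', hB', ht', hs', he'⟩ := WC.quot h hp (tySetoid r)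
    fun c _ y y' e => Eqv.step e c
  obtain ⟨d, rfl⟩ : ∃ d, c = a + d := ⟨c - a, by omega⟩
  have sp := hB'.spread (c := d) (by omega) (by
    ext w
    obtain ⟨y, hy, rfl⟩ := hs' w
    rw [ht' y hy d (by omega), ht' y hy (d + 1) k2]
    exact (he' _ _ _ _).2 (key y hy))
  intro c hc c' hc'
  obtain ⟨e, rfl⟩ : ∃ d, c = a + d := ⟨c - a, by have := hc.1; omega⟩
  obtain ⟨e', rfl⟩ : ∃ d, c' = a + d := ⟨c' - a, by have := hc'.1; omega⟩
  refine (he' _ ((Rch.refl x).next hc) _ ((Rch.refl x).next hc')).1 ?_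
  rw [← ht' x (Rch.refl x) e hc.2, ← ht' x (Rch.refl x) e' hc'.2,
    sp e (by have := hc.2; omega) e' (by have := hc'.2; omega)]

omit [Finite F] in
lemma jr_empty {x y : F} (e : JR r ∅ x y) : Eqv r x y := by
  obtain ⟨g, hg, e⟩ := e
  rwa [W_empty hg] at e

lemma wc0 (h : PS n r φ) {a b : ℕ} {x : F}
    (hp : ∀ y l, Rch r (Ico a b) x y → a ≤ l → l + 1 < b → per r l y = 3) :
    Sm r a b x ∨ Big r (Ico a b) ∅ x (b - a) := by
  obtain ⟨X, _, t, π, hB, ht, hs, he⟩ := WC.quot h hp (tySetoid r)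
    fun c _ y y' e => Eqv.step e c
  by_cases ne : ∀ c, c + 1 < b - a → t c ≠ t (c + 1)
  · right
    have := hB.big (π x (Rch.refl x)) (by
      rw [eq_univ_iff_forall]
      intro w
      obtain ⟨y, hy, rfl⟩ := hs w
      refine hy.ind (fun c _ => h.inv c)
        (P := fun y => ∀ hy, Rch t (Ico 0 (b - a)) (π x (Rch.refl x)) (π y hy))
        (fun _ => Rch.refl _) ?_ hy
      intro y c hc hy ih _
      obtain ⟨d, rfl⟩ : ∃ d, c = a + d := ⟨c - a, by have := hc.1; omega⟩
      rw [← ht y hy d hc.2]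
      exact (ih hy).next ⟨by omega, by have := hc.2; omega⟩) ne
    obtain ⟨e⟩ : Nonempty (Fin (b - a) ↪ X) := by
      have := Fintype.ofFinite X
      exact Function.Embedding.nonempty_of_card_le
        (by rwa [Fintype.card_fin, ← Nat.card_eq_fintype_card])
    choose f f1 f2 using hs
    refine ⟨fun i => f (e i), fun i => f1 _, fun i j k => e.injective ?_⟩
    rw [← f2 (e i), ← f2 (e j)]
    exact (he _ _ _ _).2 (jr_empty k)
  left
  push Not at ne
  obtain ⟨c0, c1, c2⟩ := ne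
  refine spr h hp (c := a + c0) (by omega) (by omega) fun y hy => ?_
  refine (he _ (hy.next ⟨by omega, by omega⟩) _ (hy.next ⟨by omega, by omega⟩)).1 ?_
  rw [← ht y hy c0 (by omega), c2]
  exact ht y hy (c0 + 1) (by omega)

lemma one_brd {m : ℕ} (hS : PS m r φ) (hm : 9 ≤ m) (h1 : nty r = 1) (l : ℕ) (z : F) (l1 : 1 ≤ l)
    (l2 : l + 3 ≤ m) : per r l z = 3 := by
  have hall : ∀ z z' : F, Eqv r z z' := by
    intro z z'
    have hs : Subsingleton (Quotient (tySetoid r)) := (Nat.card_eq_one_iff_unique.1 h1).1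
    exact Quotient.exact (hs.elim (Quotient.mk (tySetoid r) z) (Quotient.mk _ z'))
  by_cases hl : l + 4 ≤ m
  · have := (hS.E4 (j := l - 1) (by omega) z fun y _ i _ => (hall y z).per_eq _).1
    rwa [show l - 1 + 1 = l by omega] at this
  · have := (hS.E4 (j := l - 2) (by omega) z fun y _ i _ => (hall y z).per_eq _).2
    rwa [show l - 2 + 2 = l by omega] at this

lemma lem0 (h : PS n r φ) {a b : ℕ} (x : F) (hb : b ≤ n) (hab : a + 9 ≤ b) :
    Sm r (a + 1) (b - 1) x ∨ Big r (Ico a b) ∅ x (b - a - 2) := by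
  obtain ⟨F', _, r', φ', e, hS, e1, e2, e3, e4⟩ := stSEC h a b x (by omega) hb
  obtain ⟨z0, -⟩ := (e1 x).1 (Rch.refl x)
  have : Nonempty F' := ⟨z0⟩
  have hsub : Ico (a + 1) (b - 1) ⊆ Ico a b := Ico_subset_Ico (by omega) (by omega)
  rcases hS.core (by omega) with h1 | h1
  · rcases wc0 h (a := a + 1) (b := b - 1) (x := x) (fun y l hy l1 l2 => by
      obtain ⟨z, rfl⟩ := (e1 y).1 (hy.mono hsub)
      have := one_brd hS (by omega) h1 (l - a) z (by omega) (by omega)
      rwa [e3 _ z (by omega), show a + (l - a) = l by omega] at this) with h4 | h4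
    · exact Or.inl h4
    · right
      rw [show b - 1 - (a + 1) = b - a - 2 by omega] at h4
      obtain ⟨f, f1, f2⟩ := h4
      exact ⟨f, fun i => (f1 i).mono hsub, f2⟩
  · right
    have := Fintype.ofFinite (Quotient (tySetoid r'))
    have hc : Fintype.card (Fin (b - a - 2)) ≤ Fintype.card (Quotient (tySetoid r')) := by
      rw [Fintype.card_fin, ← Nat.card_eq_fintype_card]
      unfold nty at h1
      omega
    obtain ⟨g⟩ := Function.Embedding.nonempty_of_card_le hc
    refine ⟨fun i => e (g i).out, fun i => (e1 _).2 ⟨_, rfl⟩, fun i j hij => g.injective ?_⟩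
    have := Quotient.sound (s := tySetoid r') (e4 ∅ (fun _ hc => hc.elim) _ _ hij)
    rwa [Quotient.out_eq, Quotient.out_eq] at this

lemma low (h : PS n r φ) {s t : ℕ} (hs : 1 ≤ s) (hst : s + 7 ≤ t) (ht : t ≤ n)
    (hw : ∀ x c, s ≤ c → c < t → Wl r x c) : ∀ x c, 1 ≤ c → c < t → Wl r x c := by
  induction s, hs using Nat.le_induction with
  | base => exact hw
  | succ s hs ih =>
    refine ih (by omega) fun x c c1 c2 => ?_
    by_cases e : c = s
    · subst e
      by_contra hx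
      have := stUW h c t x (by omega) ht (fun z _ c a b => hw z c (by omega) b) hx
      omega
    · exact hw x c (by omega) c2

lemma four [Nonempty F] (h : PS n r φ) (hn : 9 ≤ n) (h3 : ∀ x c, 1 ≤ c → c + 2 ≤ n → Wl r x c) :
    nty r = 1 := by
  obtain ⟨x0⟩ := ‹Nonempty F›
  have hc : ∀ x, r 0 (r (n - 1) x) = r (n - 1) (r 0 x) := fun x => h.capp (by omega) x
  let f : Fin 4 → F := ![x0, r 0 x0, r (n - 1) x0, r 0 (r (n - 1) x0)]
  have key : ∀ y, ∃ i, Eqv r y (f i) := by
    intro y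
    refine (h.all x0 y).ind (fun c _ => h.inv c) (P := fun y => ∃ i, Eqv r y (f i))
      ⟨0, Eqv.refl _⟩ ?_
    rintro y c hcI _ ⟨i, hi⟩
    have s := hi.step c
    by_cases e0 : c = 0
    · subst e0
      fin_cases i
      · exact ⟨1, s⟩
      · exact ⟨0, by have t : Eqv r (r 0 y) (r 0 (r 0 x0)) := s; rwa [h.rr] at t⟩
      · exact ⟨3, s⟩
      · exact ⟨2, by have t : Eqv r (r 0 y) (r 0 (r 0 (r (n - 1) x0))) := s; rwa [h.rr] at t⟩
    by_cases e1 : c = n - 1
    · subst e1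
      fin_cases i
      · exact ⟨2, s⟩
      · exact ⟨3, by have t : Eqv r (r (n - 1) y) (r (n - 1) (r 0 x0)) := s; rwa [← hc] at t⟩
      · exact ⟨0, by
          have t : Eqv r (r (n - 1) y) (r (n - 1) (r (n - 1) x0)) := s
          rwa [h.rr] at t⟩
      · exact ⟨1, by
          have t : Eqv r (r (n - 1) y) (r (n - 1) (r 0 (r (n - 1) x0))) := s
          rwa [hc, h.rr] at t⟩
    · have := hcI.2
      exact ⟨i, Eqv.trans (Eqv.symm (h3 y c (by omega) (by omega))) hi⟩
  have hle : nty r ≤ 4 := by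
    have := Nat.card_le_card_of_surjective
      (fun i : Fin 4 => (Quotient.mk (tySetoid r) (f i))) (by
        rintro ⟨y⟩
        obtain ⟨i, hi⟩ := key y
        exact ⟨i, Quotient.sound hi.symm⟩)
    simpa [nty] using this
  rcases h.core hn with k | k
  · exact k
  · omega

lemma walls_one [Nonempty F] (h : PS n r φ) {s : ℕ} (hs : 1 ≤ s) (hn : s + 8 ≤ n)
    (hw : ∀ x c, s ≤ c → c < s + 7 → Wl r x c) : nty r = 1 := by
  have h1 := low h hs le_rfl (by omega) hw
  have h2 := low h.mirror (s := n - (s + 7)) (t := n - s) (by omega) (by omega) (by omega)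
    fun x c c1 c2 => by
      rw [h.wl_rev (by omega)]
      exact hw x _ (by omega) (by omega)
  refine four h (by omega) fun x c c1 c2 => ?_
  by_cases e : c < s + 7
  · exact h1 x c c1 e
  · have := h2 x (n - 1 - c) (by omega) (by omega)
    rwa [h.wl_rev (by omega), show n - 1 - (n - 1 - c) = c by omega] at this

/-- transport of activity -/
theorem tr (h : PS n r φ) {a b s : ℕ} {x : F} (hb : b ≤ n) (h1 : a + 1 ≤ s) (h2 : s + 8 ≤ b)
    (hx : ¬ Sm r (a + 1) (b - 1) x) : ∃ y, Rch r (Ico a b) x y ∧ ¬ Sm r s (s + 7) y := by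
  by_contra hc
  push Not at hc
  apply hx
  obtain ⟨F', _, r', φ', e, hS, e1, e2, e3, e4⟩ := stSEC h a b x (by omega) hb
  obtain ⟨z0, -⟩ := (e1 x).1 (Rch.refl x)
  have : Nonempty F' := ⟨z0⟩
  have hz : ∀ z, Sm r s (s + 7) (e z) := fun z => hc _ ((e1 _).2 ⟨z, rfl⟩)
  have s0 : s ∈ Ico s (s + 7) := ⟨le_rfl, by omega⟩
  have ty : ∀ z z', Eqv r (r s (e z)) (e z') → Eqv r' z z' := by
    intro z z' hzz
    refine hS.typing (fun z z' => Eqv r (r s (e z)) (e z')) ?_ ?_ hzz
    · intro z z' c k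
      by_cases hc : a + c < b
      swap
      · rw [hS.triv c (by omega)]
        exact k
      obtain ⟨d, hd, d1, d2⟩ : ∃ d ∈ Ico s (s + 7), d ≠ a + c + 1 ∧ a + c ≠ d + 1 := by
        by_cases p : s ≠ a + c + 1 ∧ a + c ≠ s + 1
        · exact ⟨s, s0, p⟩
        · exact ⟨s + 3, ⟨by omega, by omega⟩, by omega, by omega⟩
      refine (hz _ s s0 d hd).trans ?_
      rw [e2 c z hc, e2 c z' hc, ← Perm.mul_apply, (h.comm' d1 d2).eq, Perm.mul_apply]
      exact ((hz z d hd s s0).trans k).step _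
    · intro z z' l k hl
      obtain ⟨d, hd, d1, d2⟩ : ∃ d ∈ Ico s (s + 7), d + 1 ≠ a + l ∧ d ≠ a + l + 2 := by
        by_cases p : s + 1 ≠ a + l ∧ s ≠ a + l + 2
        · exact ⟨s, s0, p⟩
        · exact ⟨s + 1, ⟨by omega, by omega⟩, by omega, by omega⟩
      rw [e3 l z (by omega), e3 l z' (by omega), ← ((hz z d hd s s0).trans k).per_eq,
        h.per_step d1 d2]
  have one : nty r' = 1 := walls_one hS (s := s - a) (by omega) (by omega) fun z c c1 c2 => by
    refine ty z _ ?_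
    rw [e2 c z (by omega)]
    exact hz z s s0 _ ⟨by omega, by omega⟩
  have hsub : Ico (a + 1) (b - 1) ⊆ Ico a b := Ico_subset_Ico (by omega) (by omega)
  refine spr h (c := s) (fun y l hy l1 l2 => ?_) h1 (by omega) fun y hy =>
    hc y (hy.mono hsub) s s0 _ ⟨by omega, by omega⟩
  obtain ⟨z, rfl⟩ := (e1 y).1 (hy.mono hsub)
  have := one_brd hS (by omega) one (l - a) z (by omega) (by omega)
  rwa [e3 _ z (by omega), show a + (l - a) = l by omega] at this

end Pool.Agent.FlagOrb.Q.Half
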