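import Pool.Agent.Lib.MP_7157e1_co.QBlue

/-! Quadratic range: small tools on diagrams, walls, mirrors and legs. -/

namespace Pool.Agent.FlagOrb

open Equiv Set

namespace CoxC

variable {G : Type} [Group G] [DecidableEq G] {S : Set G} {C : G → G → ℝ} (h : CoxC S C)
include h

lemma adj_path {q : ℕ → G} {m i j : ℕ} (hq : IsPath S q m) (hi : i ≤ m) (hj : j ≤ m)
    (ha : ¬ Commute (q i) (q j)) : i = j + 1 ∨ j = i + 1 := by
  by_contra hc
  rcases lt_trichotomy i j with hl | rfl | hl
  · exact ha (h.path_comm hq (by omega) hj)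
  · exact ha (Commute.refl _)
  · exact ha (h.path_comm hq (by omega) hi).symm

lemma star5 {q : ℕ → G} (hq : IsPath S q 7) {t : G} (ht : t ∈ S) (ha : ¬ Commute (q 2) t) :
    t = q 1 ∨ t = q 3 := by
  by_contra hc
  push Not at hc
  have nq : ∀ i ≤ 7, t ≠ q i := by
    rintro i hi rfl
    rcases h.adj_path hq (by omega) hi ha with e | e
    · exact hc.1 (by rw [show i = 1 by omega])
    · exact hc.2 (by rw [e])
  have p1 : IsPath S (fun i => q (2 - i)) 2 :=
    ⟨fun i _ => hq.mem _ (by omega),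
      fun i hi j hj he => by have := hq.inj _ (by omega) _ (by omega) he; omega,
      fun i hi => by
        have := adj_symm (hq.adj (2 - (i + 1)) (by omega))
        rwa [show 2 - (i + 1) + 1 = 2 - i by omega] at this⟩
  have p2 := (IsPath.single ht (fun _ => t) rfl).cons (hq.mem 2 (by omega))
    (fun _ _ => (nq 2 (by omega)).symm) ha
  have p3 := hq.shift (a := 2) (by omega)
  have := h.star p1 p2 p3 rfl rfl ?_ ?_ ?_
  · norm_num at this
  · intro i j i1 i2 j1 j2
    obtain rfl : j = 1 := by omega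
    exact (nq _ (by omega)).symm
  · intro i j i1 i2 j1 j2 he
    have := hq.inj _ (by omega) _ (by omega) he
    omega
  · intro i j i1 i2 j1 j2
    obtain rfl : i = 1 := by omega
    exact nq _ (by omega)

lemma val4 {v a b c d : G} (hv : v ∈ S) (ha : a ∈ S) (hb : b ∈ S) (hc : c ∈ S) (hd : d ∈ S)
    (va : ¬ Commute v a) (vb : ¬ Commute v b) (vc : ¬ Commute v c) (vd : ¬ Commute v d)
    (ab : a ≠ b) (ac : a ≠ c) (bc : b ≠ c) : d = a ∨ d = b ∨ d = c := by
  by_contra hn
  push Not at hn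
  refine h.br_false hv (h.br_union (h.br_two hv ha hb ab va vb)
    (h.br_two hv hc hd hn.2.2.symm vc vd) ?_) (by norm_num)
  simp only [Finset.disjoint_insert_left, Finset.mem_insert, Finset.mem_singleton, not_or,
    Finset.disjoint_singleton_left]
  exact ⟨⟨ac, hn.1.symm⟩, bc, hn.2.1.symm⟩

lemma no_tri {a b c : G} (ha : a ∈ S) (hb : b ∈ S) (hc : c ∈ S) (ab : ¬ Commute a b)
    (bc : ¬ Commute b c) : Commute a c := by
  by_cases e : a = c
  · rw [e]
  have p := ((IsPath.single hc (fun _ => c) rfl).cons hb (fun _ _ => ne_of_adj bc) bc).cons ha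
    (by
      rintro (_ | i) _
      exacts [ne_of_adj ab, e]) ab
  exact h.no_cycle p le_rfl

/-- a leaf of a fork with a long tail has no other neighbour -/
lemma dead {q : ℕ → G} (hq : IsPath S q 6) {a : G} (ha : a ∈ S) (h0 : a ≠ q 0) (h2 : a ≠ q 2)
    (h1 : ¬ Commute (q 1) a) {g : G} (hg : g ∈ S) (hc : ¬ Commute (q 0) g) : g = q 1 := by
  by_contra hn
  have p := hq.cons hg (by
    rintro i hi rfl
    rcases h.adj_path hq (by omega) hi hc with e | e
    · omega
    · exact hn (by rw [e])) (adj_symm hc)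
  rcases h.star5 p ha h1 with e | e
  exacts [h0 e, h2 e]

lemma fork2 {q : ℕ → G} {m j : ℕ} (hq : IsPath S q m) {t t' : G} (ht : t ∈ S) (h0 : t ≠ q 0)
    (h2 : t ≠ q 2) (h1 : ¬ Commute (q 1) t) (hj : 1 ≤ j) (hm : j + 2 ≤ m) (ht' : t' ∈ S)
    (ha : ¬ Commute (q (j + 1)) t') : t' = q j ∨ t' = q (j + 2) := by
  by_contra hc
  push Not at hc
  have nq : ∀ i ≤ m, t ≠ q i := by
    rintro i hi rfl
    rcases h.adj_path hq (by omega) hi h1 with e | e
    · exact h0 (by rw [show i = 0 by omega])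
    · exact h2 (by rw [e])
  have nq' : ∀ i ≤ m, t' ≠ q i := by
    rintro i hi rfl
    rcases h.adj_path hq (by omega) hi ha with e | e
    · exact hc.1 (by rw [show i = j by omega])
    · exact hc.2 (by rw [e])
  have p := (hq.shift (a := 1) (by omega)).le (m' := j) (by omega)
  have tt : t ≠ t' := by
    rintro rfl
    have := h.no_cycle (p.cons ht (fun i hi => nq _ (by omega)) (adj_symm h1)) (by omega)
    apply ha
    rw [add_comm]
    exact this.symm
  have e : 1 + j = j + 1 := add_comm _ _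
  refine h.fork p (h.br_two (p.mem j le_rfl) (hq.mem (j + 2) hm) ht' hc.2.symm ?_ ?_) ?_
    (hq.mem 0 (by omega)) ht h0.symm (adj_symm (hq.adj 0 (by omega))) h1 ?_ ?_ ?_ ?_
  · rw [e]; exact hq.adj _ (by omega)
  · rwa [e]
  · intro i hi
    simp only [Finset.mem_insert, Finset.mem_singleton, not_or]
    exact ⟨fun he => by have := hq.inj _ (by omega) _ hm he; omega, (nq' _ (by omega)).symm⟩
  · simp only [Finset.mem_insert, Finset.mem_singleton, not_or]
    exact ⟨fun he => by have := hq.inj _ (by omega) _ hm he; omega, (nq' _ (by omega)).symm⟩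
  · simp only [Finset.mem_insert, Finset.mem_singleton, not_or]
    exact ⟨nq _ hm, tt⟩
  · intro i hi he
    have := hq.inj _ (by omega) _ (by omega) he
    omega
  · exact fun i hi => nq _ (by omega)

lemma lab3 {v a b c : G} (hv : v ∈ S) (ha : a ∈ S) (hb : b ∈ S) (hc : c ∈ S)
    (va : ¬ Commute v a) (vb : ¬ Commute v b) (vc : ¬ Commute v c)
    (ab : a ≠ b) (ac : a ≠ c) (bc : b ≠ c) : (v * a) ^ 3 = 1 := by
  by_contra hn
  refine h.br_false hv (h.br_union (h.br_leaf4 hv ha va hn) (h.br_two hv hb hc bc vb vc) ?_)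
    (by norm_num)
  simp only [Finset.mem_insert, Finset.mem_singleton, not_or, Finset.disjoint_singleton_left]
  exact ⟨ab, ac⟩

/-- two neighbours of `g` are not joined away from `g` -/
lemma sep {g a b : G} (hg : g ∈ S) (ha : a ∈ S) (ga : ¬ Commute g a) (gb : ¬ Commute g b)
    (hr : Relation.ReflTransGen (fun u v => v ∈ S \ {g} ∧ ¬ Commute u v) a b) : a = b := by
  by_contra hn
  obtain ⟨q, m, hq, q0, qm⟩ := IsPath.of_conn (S := S \ {g}) ⟨ha, (ne_of_adj ga).symm⟩ hr
  have hm : 1 ≤ m := by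
    by_contra hm
    obtain rfl : m = 0 := by omega
    exact hn (q0.symm.trans qm)
  have := h.no_cycle ((hq.mono sdiff_subset).cons hg (fun i hi he => (hq.mem i hi).2 he.symm)
    (q0 ▸ ga)) (by omega)
  change Commute g (q m) at this
  exact gb (qm ▸ this)

end CoxC

lemma up_succ' {F : Type} (r : ℕ → Perm F) (u j : ℕ) :
    up r u (j + 1) = r u * up r (u + 1) j := by
  induction j with
  | zero => simp [up]
  | succ j ih =>
    rw [up, ih, up, mul_assoc, show u + (j + 1) = u + 1 + j by omega]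

lemma Eqv.wl {F : Type} {r : ℕ → Perm F} {x y : F} (e : Eqv r x y) (c : ℕ) :
    Wl r x c ↔ Wl r y c := ⟨fun h => h.eqv e, fun h => h.eqv e.symm⟩

lemma InD.trans {F : Type} {r : ℕ → Perm F} {a b : ℕ} {x y z : F} (h : InD r a b x y)
    (h' : InD r a b y z) : InD r a b x z := Relation.ReflTransGen.trans h h'

lemma InD.mono {F : Type} {r : ℕ → Perm F} {a b a' b' : ℕ} {x y : F} (h : InD r a b x y)
    (ha : a' ≤ a) (hb : b ≤ b') : InD r a' b' x y :=
  h.ind (InD.refl x) fun _ _ _ hc hw ih => ih.next (Ico_subset_Ico ha hb hc) hw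

lemma InD.toRch {F : Type} {r : ℕ → Perm F} {a b : ℕ} {x y : F} (h : InD r a b x y) :
    Rch r (Ico a b) x y := h.rch fun _ hc hn => absurd hc hn

namespace Q

variable {F : Type} {n : ℕ} {r : ℕ → Perm F} {a b i : ℕ} {x y : F}

lemma Pos.eqv (hp : Pos n r a b x i) (e : Eqv r x y) : Pos n r a b y i :=
  ⟨hp.1, hp.2.1, fun c c1 c2 c3 c4 => (hp.2.2.1 c c1 c2 c3 c4).eqv e,
    fun hi hw => hp.2.2.2.1 hi (hw.eqv e.symm), fun hi hw => hp.2.2.2.2 hi (hw.eqv e.symm)⟩

lemma Pos.wl (hp : Pos n r a b x i) {c : ℕ} (c1 : 1 ≤ c) (c2 : c + 2 ≤ n) (c3 : c ≠ i)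
    (c4 : c + 1 ≠ i) : Wl r x c := hp.2.2.1 c c1 c2 c3 c4

lemma Pos.mv (hp : Pos n r a b x i) (hi : i < b) : ¬ Wl r x i := hp.2.2.2.1 hi

lemma Pos.mv' (hp : Pos n r a b x (i + 1)) (hi : a ≤ i) : ¬ Wl r x i :=
  hp.2.2.2.2 (by omega)

/-- a moving colour in the window gives a position -/
lemma HH.pos_of (H : HH n r a b) (ha : 1 ≤ a) (hb : b < n) {c : ℕ} (c1 : a ≤ c) (c2 : c < b)
    (hw : ¬ Wl r x c) : Pos n r a b x c ∨ Pos n r a b x (c + 1) := by
  obtain ⟨i, hi⟩ := (H.cov x).resolve_left fun k => hw (k c c1 c2)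
  by_cases e : c = i
  · exact Or.inl (e ▸ hi)
  by_cases e' : c + 1 = i
  · exact Or.inr (e' ▸ hi)
  exact absurd (hi.wl (by omega) (by omega) e e') hw

lemma HH.pos_up (H : HH n r a b) (ha : 1 ≤ a) (hb : b < n) {c : ℕ} (c1 : a ≤ c) (c2 : c + 1 < b)
    (hw : ¬ Wl r x c) (hw' : Wl r x (c + 1)) : Pos n r a b x c :=
  (H.pos_of ha hb c1 (by omega) hw).resolve_right fun k => k.mv c2 hw'

lemma Pos.unique (hp : Pos n r a b x i) {j : ℕ} (hq : Pos n r a b x j) (ha : 1 ≤ a) (hb : b < n)
    (hab : a + 2 ≤ b) : i = j := by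
  have key : ∀ i j, Pos n r a b x i → Pos n r a b x j → ¬ i < j := by
    intro i j hp hq hl
    have p1 := hp.1
    have q2 := hq.2.1
    have e : i + 1 = j := by
      by_contra hn
      exact hp.mv (by omega) (hq.wl (by omega) (by omega) (by omega) hn)
    subst e
    by_cases k : i + 1 < b
    · exact hq.mv k (hp.wl (by omega) (by omega) (by omega) (by omega))
    · exact hp.2.2.2.2 (by omega) (hq.wl (by omega) (by omega) (by omega) (by omega))
  have := key i j hp hq
  have := key j i hq hp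
  omega

/-- the walls along the leg through a flag at position `a` -/
noncomputable def lg (r : ℕ → Perm F) (x : F) (a j : ℕ) : Perm F :=
  if j + 2 ≤ a then rf r x j else if j + 1 = a then rf r (r a x) j else rf r x (j + 1)

lemma lg_lo {j : ℕ} (hj : j + 2 ≤ a) : lg r x a j = rf r x j := if_pos hj

lemma lg_mid : lg r x (a + 1) a = rf r (r (a + 1) x) a := by
  rw [lg, if_neg (by omega), if_pos rfl]

lemma lg_hi {j : ℕ} (hj : a ≤ j) : lg r x a j = rf r x (j + 1) := by
  rw [lg, if_neg (by omega), if_neg (by omega)]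

end Q

namespace PS

open Q

variable {F L : Type} [Lattice L] {n : ℕ} {r : ℕ → Perm F} {φ : ℕ → F → L} (h : PS n r φ)
include h

lemma wl_ge {c : ℕ} (hc : n ≤ c) (x : F) : Wl r x c := by
  unfold Wl
  rw [h.triv c hc]
  exact Eqv.refl _

lemma InD_symm {a b : ℕ} {x y : F} (hd : InD r a b x y) : InD r a b y x := by
  refine hd.ind (P := fun y => InD r a b y x) (InD.refl x) fun y c _ hc hw ih => ?_
  have := (InD.refl (r := r) (a := a) (b := b) (r c y)).next hc (by rwa [h.wl_step])
  rw [h.rr] at this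
  exact this.trans ih

lemma rf_far {x : F} {c c' : ℕ} (hw : Wl r x c) (hw' : Wl r x c') (hc : c + 2 ≤ c') :
    Commute (rf r x c) (rf r x c') :=
  h.aut_ext (mul_mem (rf_aut _ _) (rf_aut _ _)) (mul_mem (rf_aut _ _) (rf_aut _ _)) (x := x) (by
    simp only [Perm.mul_apply, rf_app hw, rf_app hw', Aut.app (rf_aut _ _)]
    exact (h.capp hc x).symm)

lemma braid {l : ℕ} {x : F} (h3 : per r l x = 3) :
    r l (r (l + 1) (r l x)) = r (l + 1) (r l (r (l + 1) x)) := by
  have := per_dvd.1 (show per r l x ∣ 3 by rw [h3])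
  rw [pow_three] at this
  simp only [Perm.mul_apply] at this
  have e := congrArg (fun z => r l (r (l + 1) (r l z))) this
  simp only [h.rr] at e
  exact e.symm

lemma per_of_braid [Finite F] {l : ℕ} (hl : l + 1 < n) {x : F}
    (hb : r l (r (l + 1) (r l x)) = r (l + 1) (r l (r (l + 1) x))) : per r l x = 3 := by
  have h1 : per r l x ∣ 3 := by
    rw [per_dvd, pow_three]
    simp only [Perm.mul_apply]
    rw [← hb]
    simp only [h.rr]
  have := Nat.le_of_dvd (by norm_num) h1
  have := h.per_ge hl x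
  omega

lemma hex [Finite F] {l : ℕ} (hl : l + 1 < n) {x : F} (hw : Wl r x (l + 1))
    (hw' : Wl r (r (l + 1) (r l x)) l) :
    per r l x = 3 ↔ rf r x (l + 1) = rf r (r (l + 1) (r l x)) l := by
  constructor
  · intro h3
    refine (h.rf_eq (rf_aut _ _) ?_).symm
    rw [Aut.app (rf_aut _ _), Aut.app (rf_aut _ _), rf_app hw, h.braid h3]
  · intro he
    have := rf_app hw'
    rw [← he, Aut.app (rf_aut _ _), Aut.app (rf_aut _ _), rf_app hw] at this
    exact h.per_of_braid hl this.symm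

lemma hex' [Finite F] {l : ℕ} (hl : l + 1 < n) {x : F} (hw : Wl r x l)
    (hw' : Wl r (r l (r (l + 1) x)) (l + 1)) :
    per r l x = 3 ↔ rf r x l = rf r (r l (r (l + 1) x)) (l + 1) := by
  constructor
  · intro h3
    refine (h.rf_eq (rf_aut _ _) ?_).symm
    rw [Aut.app (rf_aut _ _), Aut.app (rf_aut _ _), rf_app hw, h.braid h3]
  · intro he
    have := rf_app hw'
    rw [← he, Aut.app (rf_aut _ _), Aut.app (rf_aut _ _), rf_app hw] at this
    exact h.per_of_braid hl this

/-- walls of consecutive colours at one flag, upwards -/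
lemma wl_path {a b c m : ℕ} {x0 x : F} (hb : b ≤ n) (hx : InD r a b x0 x) (ha : a ≤ c)
    (hm : c + m < b) (hw : ∀ j ≤ m, Wl r x (c + j)) :
    IsPath (Walls r a b x0) (fun j => rf r x (c + j)) m :=
  ⟨fun j hj => wall_mem hx ⟨by omega, by omega⟩ (hw j hj), fun i hi j hj he => by
    by_contra hij
    exact h.rf_ne (hw i hi) (hw j hj) (by omega) (by omega) he,
    fun i hi => h.rf_adj (hw i hi.le) (hw (i + 1) hi) (by omega)⟩

/-- walls of consecutive colours at one flag, downwards -/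
lemma wl_path' {a b c m : ℕ} {x0 x : F} (hb : b ≤ n) (hx : InD r a b x0 x) (ha : a + m ≤ c)
    (hm : c < b) (hw : ∀ j ≤ m, Wl r x (c - j)) :
    IsPath (Walls r a b x0) (fun j => rf r x (c - j)) m :=
  ⟨fun j hj => wall_mem hx ⟨by omega, by omega⟩ (hw j hj), fun i hi j hj he => by
    by_contra hij
    exact h.rf_ne (hw i hi) (hw j hj) (by omega) (by omega) he,
    fun i hi => by
      have e : c - i = c - (i + 1) + 1 := by omega
      have w := hw i hi.le
      rw [e] at w ⊢
      exact adj_symm (h.rf_adj (hw (i + 1) hi) w (by omega))⟩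

lemma three_walls {a : ℕ} (ha : a + 2 < n) {y : F} (h1 : Wl r (r (a + 1) y) (a + 2))
    (h2 : Wl r (r (a + 1) (r a y)) (a + 2)) :
    rf r (r (a + 1) y) (a + 2) ≠ rf r (r (a + 1) (r a y)) (a + 2) := by
  intro he
  have hr : Rch r (Iio (a + 2)) (r (a + 1) y) (r (a + 1) (r a y)) :=
    ((Rch.step (c := a + 1) (by simp) y).symm.trans (Rch.step (c := a) (by simp) y)).next
      (by simp)
  have k := Aut.rch (rf_aut (r := r) (r (a + 1) y) (a + 2)) hr
  rw [rf_app h1, he, rf_app h2] at k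
  have hI : ∀ c ∈ Iio (a + 2), a + 2 + 1 ≠ c + 1 := fun c hc => by have := mem_Iio.1 hc; omega
  have e1 : φ (a + 2) (r (a + 1) (r a y)) = φ (a + 2) (r (a + 1) y) := by
    rw [← h.meet (a + 2) _ ha, ← h.meet (a + 2) (r (a + 1) y) ha, h.sameR hr hI, h.sameR k hI]
  apply h.ne_face (c := a) (by omega) y
  rw [← h.meet (a + 1) _ (by omega), ← h.meet (a + 1) y (by omega), e1,
    h.same a (a + 1 + 1) y (by omega)]

lemma cross_ne {a : ℕ} (ha : a + 1 < n) {x : F} (h1 : Wl r (r (a + 2) x) (a + 1))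
    (h2 : Wl r (r a x) (a + 1)) : rf r (r (a + 2) x) (a + 1) ≠ rf r (r a x) (a + 1) := by
  intro he
  have e1 := rf_app h1
  have e2 := rf_app h2
  rw [Aut.app (rf_aut _ _)] at e1 e2
  rw [he] at e1
  have e3 := congrArg (fun z => φ (a + 1) (r (a + 2) z)) e1
  have e4 := congrArg (fun z => φ (a + 1) (r a z)) e2
  simp only [h.rr] at e3 e4
  rw [h.same (a + 2) (a + 1) _ (by omega), h.same (a + 1) (a + 1) _ (by omega),
    h.same (a + 2) (a + 1) _ (by omega), e4] at e3
  apply h.ne_face ha (r a x)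
  rw [← h.join a _ (by omega), e3, h.same (a + 1) (a + 1) _ (by omega), sup_comm,
    h.join a x (by omega), h.same a (a + 1 + 1) x (by omega)]

lemma skew_ne {a : ℕ} (ha : a + 1 < n) {x : F} (h1 : Wl r x (a + 1))
    (h2 : Wl r (r (a + 2) (r (a + 1) (r a x))) (a + 1)) :
    rf r x (a + 1) ≠ rf r (r (a + 2) (r (a + 1) (r a x))) (a + 1) := by
  intro he
  have e := rf_app h2
  rw [← he, Aut.app (rf_aut _ _), Aut.app (rf_aut _ _), Aut.app (rf_aut _ _), rf_app h1] at e
  have e3 := congrArg (φ (a + 1)) e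
  rw [h.same (a + 2) (a + 1) _ (by omega), h.same (a + 1) (a + 1) _ (by omega),
    h.same (a + 1) (a + 1) _ (by omega), h.same (a + 2) (a + 1) _ (by omega),
    h.same (a + 1) (a + 1) _ (by omega)] at e3
  apply h.ne_face ha x
  rw [← h.join a _ (by omega), ← h.join a x (by omega), e3, h.same (a + 1) (a + 1) _ (by omega)]

lemma rev_rev : rev n (rev n r) = r := by
  funext c
  by_cases hc : c < n
  · rw [rev_lt hc, rev_lt (by omega), show n - 1 - (n - 1 - c) = c by omega]
  · rw [rev_ge (by omega), h.triv c (by omega)]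

lemma eqv_rev {x y : F} : Eqv (rev n r) x y ↔ Eqv r x y := by
  unfold Eqv
  rw [h.aut_rev]

lemma rf_rev {c : ℕ} (hc : c < n) (x : F) : rf (rev n r) x c = rf r x (n - 1 - c) := by
  by_cases hw : Wl r x (n - 1 - c)
  · exact h.mirror.rf_eq (h.aut_rev ▸ rf_aut _ _) (by rw [rf_app hw, rev_lt hc])
  · have hw' := mt (h.wl_rev hc x).1 hw
    simp [rf, hw, hw']

lemma InD_rev {a b : ℕ} (hb : b ≤ n) {x y : F} (hd : InD (rev n r) a b x y) :
    InD r (n - b) (n - a) x y := by
  refine hd.ind (InD.refl x) fun y c _ hc hw ih => ?_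
  have := hc.1
  have := hc.2
  rw [h.wl_rev (by omega)] at hw
  rw [rev_lt (by omega)]
  exact ih.next ⟨by omega, by omega⟩ hw

lemma per_rev {l : ℕ} (hl : l + 1 < n) (x : F) : per (rev n r) l x = per r (n - 2 - l) x := by
  have e1 : rev n r l = r (n - 2 - l + 1) := by rw [rev_lt (by omega)]; congr 1; omega
  have e2 : rev n r (l + 1) = r (n - 2 - l) := by rw [rev_lt hl]; congr 1; omega
  apply Nat.dvd_antisymm
  · rw [per_dvd, e1, e2]
    exact pow_swap_app (h.inv _) (h.inv _) (per_dvd.1 dvd_rfl)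
  · rw [per_dvd]
    apply pow_swap_app (h.inv _) (h.inv _)
    rw [← e1, ← e2]
    exact per_dvd.1 dvd_rfl

lemma LW_rev (H : LW n r) : LW n (rev n r) := fun x c c' h1 h2 => by
  rw [h.wl_rev (by omega), h.wl_rev h2]
  exact (H x _ _ (by omega) (by omega)).symm

lemma pos_rev {a b i : ℕ} (hb : b ≤ n) {x : F} (hp : Pos n r a b x i) :
    Pos n (rev n r) (n - b) (n - a) x (n - i) := by
  have p1 := hp.1
  have p2 := hp.2.1
  refine ⟨by omega, by omega, fun c c1 c2 c3 c4 => ?_, fun hi => ?_, fun hi => ?_⟩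
  · rw [h.wl_rev (by omega)]
    exact hp.wl (by omega) (by omega) (by omega) (by omega)
  · rw [h.wl_rev (by omega), show n - 1 - (n - i) = i - 1 by omega]
    exact hp.2.2.2.2 (by omega)
  · rw [h.wl_rev (by omega), show n - 1 - (n - i - 1) = i by omega]
    exact hp.mv (by omega)

lemma pos_rev' {a b i : ℕ} (hab : a ≤ b) (hb : b ≤ n) {x : F}
    (hp : Pos n (rev n r) (n - b) (n - a) x i) : Pos n r a b x (n - i) := by
  have := h.mirror.pos_rev (by omega) hp
  rwa [h.rev_rev, show n - (n - a) = a by omega, show n - (n - b) = b by omega] at this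

lemma HH_rev {a b : ℕ} (hab : a ≤ b) (hb : b ≤ n) (H : HH n r a b) :
    HH n (rev n r) (n - b) (n - a) where
  cov x := (H.cov x).imp (fun k c c1 c2 => by
    rw [h.wl_rev (by omega)]; exact k _ (by omega) (by omega))
    fun ⟨i, hi⟩ => ⟨_, h.pos_rev hb hi⟩
  up x i hp hi := by
    have p1 := hp.1
    have q := h.pos_rev' hab hb hp
    rw [show n - i = n - 1 - i + 1 by omega] at q
    have := h.pos_rev hb (H.dn x _ q (by omega))
    rwa [show n - (n - 1 - i) = i + 1 by omega, ← rev_lt (r := r) (show i < n by omega)] at this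
  dn x i hp hi := by
    have p2 := hp.2.1
    have q := h.pos_rev' hab hb hp
    rw [show n - (i + 1) = n - 1 - i by omega] at q
    have := h.pos_rev hb (H.up x _ q (by omega))
    rwa [show n - (n - 1 - i + 1) = i by omega, ← rev_lt (r := r) (show i < n by omega)] at this
  str x i hp hi := by
    have p1 := hp.1
    have q := h.pos_rev' hab hb hp
    rw [show n - i = n - 2 - i + 1 + 1 by omega] at q
    have := H.str _ _ (H.dn _ _ (H.dn x _ q (by omega)) (by omega)) (by omega)
    rwa [h.per_step (by omega) (by omega), h.per_step (by omega) (by omega),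
      ← h.per_rev (by omega)] at this

lemma ps_rev {i : ℕ} (hn : 6 ≤ n) {x : F} (hp : Ps n r x i) : Ps n (rev n r) x (n - i) := by
  have := h.pos_rev (by omega) hp
  rwa [show n - (n - 3) = 3 by omega] at this

lemma ps_rev' {i : ℕ} (hn : 6 ≤ n) {x : F} (hp : Ps n (rev n r) x i) : Ps n r x (n - i) := by
  have := h.mirror.ps_rev hn hp
  rwa [h.rev_rev] at this

lemma H3_rev (hn : 6 ≤ n) (H : HH n r 3 (n - 3)) : HH n (rev n r) 3 (n - 3) := by
  have := h.HH_rev (by omega) (by omega) H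
  rwa [show n - (n - 3) = 3 by omega] at this

lemma ND_rev (hn : 6 ≤ n) (H : ND n r) : ND n (rev n r) := fun x i hp => by
  have := H x _ (h.ps_rev' hn hp)
  rw [h.wl_rev (by omega), h.wl_rev (by omega), show n - 1 - (n - 1) = 0 by omega]
  exact this.symm

lemma DI_rev (H : DI n r φ) :
    DI n (rev n r) fun i x => OrderDual.toDual (φ (n + 1 - i) x) := by
  intro c x G hc h1 h2
  have e0 : n + 1 - c = n - 1 - c + 2 := by omega
  have e1 : n + 1 - (c + 1) = n - 1 - c + 1 := by omega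
  have e2 : n + 1 - (c + 2) = n - 1 - c := by omega
  simp only [e0, e1, e2, rev_lt hc] at h1 h2 ⊢
  rcases H (n - 1 - c) x (OrderDual.ofDual G) (by omega) h2 h1 with k | k | k | k
  · exact Or.inr (Or.inr (Or.inr k))
  · exact Or.inr (Or.inl k)
  · exact Or.inr (Or.inr (Or.inl k))
  · exact Or.inl k

section Leg

variable [Finite F] {a b : ℕ} (H : HH n r a b) {x : F} (hp : Pos n r a b x a) (ha : 2 ≤ a)
  (hab : a + 2 ≤ b) (hb : b < n)
include H hp ha hab hb

/-- the walls of the leg at position `a` -/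
lemma lg_x {j : ℕ} (j0 : 1 ≤ j ∨ Wl r x 0) (j1 : j + 3 ≤ n ∨ (j + 2 = n ∧ Wl r x (n - 1)))
    (hj : j + 1 ≠ a) : Wl r x (if j < a then j else j + 1) ∧
      lg r x a j = rf r x (if j < a then j else j + 1) := by
  split_ifs with k
  · refine ⟨?_, lg_lo (by omega)⟩
    rcases Nat.eq_zero_or_pos j with rfl | k0
    · exact j0.resolve_left (by omega)
    · exact hp.wl k0 (by omega) (by omega) hj
  · refine ⟨?_, lg_hi (by omega)⟩
    rcases j1 with k1 | ⟨k1, k2⟩
    · exact hp.wl (by omega) (by omega) (by omega) (by omega)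
    · rwa [show j + 1 = n - 1 by omega]

/-- the walls of the leg at position `a + 1` -/
lemma lg_y {j : ℕ} (j0 : 1 ≤ j ∨ Wl r x 0) (j1 : j + 3 ≤ n ∨ (j + 2 = n ∧ Wl r x (n - 1)))
    (hj : j ≠ a) : Wl r (r a x) (if j < a then j else j + 1) ∧
      lg r x a j = rf r (r a x) (if j < a then j else j + 1) := by
  by_cases e : j + 1 = a
  · subst e
    rw [if_pos (by omega)]
    exact ⟨(H.up x _ hp (by omega)).wl (by omega) (by omega) (by omega) (by omega), lg_mid⟩
  obtain ⟨w, e'⟩ := h.lg_x H hp ha hab hb j0 j1 e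
  have f1 : (if j < a then j else j + 1) ≠ a + 1 := by split_ifs <;> omega
  have f2 : a ≠ (if j < a then j else j + 1) + 1 := by split_ifs <;> omega
  exact ⟨(h.wl_far f1 f2).2 w, e'.trans (h.rf_step w f1 f2).symm⟩

/-- the walls of the leg at position `a + 2` -/
lemma lg_z {j : ℕ} (j0 : 1 ≤ j ∨ Wl r x 0) (j1 : j + 3 ≤ n ∨ (j + 2 = n ∧ Wl r x (n - 1)))
    (hj : j ≠ a + 1) : Wl r (r (a + 1) (r a x)) (if j ≤ a then j else j + 1) ∧
      lg r x a j = rf r (r (a + 1) (r a x)) (if j ≤ a then j else j + 1) := by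
  by_cases e : j = a
  · subst e
    have w : Wl r (r (j + 1) (r j x)) j :=
      (H.up _ _ (H.up x _ hp (by omega)) (by omega)).wl (by omega) (by omega) (by omega) (by omega)
    rw [if_pos le_rfl, lg_hi le_rfl]
    exact ⟨w, (h.hex (by omega) (hp.wl (by omega) (by omega) (by omega) (by omega)) w).1
      (H.str x j hp hab)⟩
  obtain ⟨w, e'⟩ := h.lg_y H hp ha hab hb j0 j1 e
  rw [show (if j ≤ a then j else j + 1) = if j < a then j else j + 1 by split_ifs <;> omega]
  have f1 : (if j < a then j else j + 1) ≠ a + 1 + 1 := by split_ifs <;> omega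
  have f2 : a + 1 ≠ (if j < a then j else j + 1) + 1 := by split_ifs <;> omega
  exact ⟨(h.wl_far f1 f2).2 w, e'.trans (h.rf_step w f1 f2).symm⟩

/-- the walls along a leg form a path -/
lemma leg_path {x0 : F} (hx : InD r 0 n x0 x) {c m : ℕ} (c0 : 1 ≤ c ∨ Wl r x 0)
    (c1 : c + m + 3 ≤ n ∨ (c + m + 2 = n ∧ Wl r x (n - 1))) :
    IsPath (Walls r 0 n x0) (fun j => lg r x a (c + j)) m := by
  have j0 : ∀ j, 1 ≤ c + j ∨ Wl r x 0 := fun j => c0.imp_left fun _ => by omega
  have j1 : ∀ j ≤ m, c + j + 3 ≤ n ∨ (c + j + 2 = n ∧ Wl r x (n - 1)) := fun j hj => by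
    rcases c1 with k | k
    · exact Or.inl (by omega)
    · rcases hj.eq_or_lt with rfl | hj
      exacts [Or.inr k, Or.inl (by omega)]
  have j2 : ∀ j ≤ m, c + j + 1 < n := fun j hj => by have := j1 j hj; omega
  have X := fun j hj => h.lg_x H hp ha hab hb (j0 j) (j1 j hj)
  have Y := fun j hj => h.lg_y H hp ha hab hb (j0 j) (j1 j hj)
  have Z := fun j hj => h.lg_z H hp ha hab hb (j0 j) (j1 j hj)
  refine ⟨fun j hj => ?_, fun i hi j hj he => ?_, fun j hj => ?_⟩
  · have := j2 j hj
    by_cases e : c + j = a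
    · rw [(X j hj (by omega)).2]
      exact wall_mem hx ⟨by omega, by split_ifs <;> omega⟩ (X j hj (by omega)).1
    · rw [(Y j hj e).2]
      exact wall_mem (hx.next ⟨by omega, by omega⟩ (hp.mv (by omega)))
        ⟨by omega, by split_ifs <;> omega⟩ (Y j hj e).1
  · by_contra hij
    have := j2 i hi
    change lg r x a (c + i) = lg r x a (c + j) at he
    by_cases e1 : c + i + 1 ≠ a ∧ c + j + 1 ≠ a
    · rw [(X i hi e1.1).2, (X j hj e1.2).2] at he
      exact h.rf_ne (X i hi e1.1).1 (X j hj e1.2).1 (by split_ifs <;> omega)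
        (by split_ifs <;> omega) he
    by_cases e2 : c + i ≠ a ∧ c + j ≠ a
    · rw [(Y i hi e2.1).2, (Y j hj e2.2).2] at he
      exact h.rf_ne (Y i hi e2.1).1 (Y j hj e2.2).1 (by split_ifs <;> omega)
        (by split_ifs <;> omega) he
    · have e3 : c + i ≠ a + 1 ∧ c + j ≠ a + 1 := by omega
      rw [(Z i hi e3.1).2, (Z j hj e3.2).2] at he
      exact h.rf_ne (Z i hi e3.1).1 (Z j hj e3.2).1 (by split_ifs <;> omega)
        (by split_ifs <;> omega) he
  · have := j2 (j + 1) hj
    change ¬ Commute (lg r x a (c + j)) (lg r x a (c + (j + 1)))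
    by_cases e : a ≤ c + j
    · have k1 := X j hj.le (by omega)
      have k2 := X (j + 1) hj (by omega)
      rw [if_neg (by omega)] at k1 k2
      rw [k1.2, k2.2]
      exact h.rf_adj k1.1 k2.1 (by omega)
    · have k1 := Z j hj.le (by omega)
      have k2 := Z (j + 1) hj (by omega)
      rw [if_pos (by omega)] at k1 k2
      rw [k1.2, k2.2]
      exact h.rf_adj k1.1 k2.1 (by omega)

end Leg

end PS

end Pool.Agent.FlagOrb
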