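import Pool.Agent.Lib.MP_7157e1_co.QBlueE

/-! Automorphisms of the face lattice as vertex permutations. -/

namespace Pool.Agent.Lib.MP_7157e1_co.QE

open Module Equiv

namespace EK

variable {ι : Type} [Fintype ι] {E : Submodule ℝ (ι → ℝ)} {d : ℕ}

theorem cf_eq (e : {G // IsF E G} ≃o {G // IsF E G}) (σ : Perm ι)
    (h : ∀ G, (e G).1 = σ '' G.1) (v : ι) : cf E (σ v) = cf E v := by
  rw [cf, cf, ← Set.ncard_image_of_injective {G : Set ι | IsF E G ∧ cr E G = 1 ∧ v ∈ G}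
    (Set.image_injective.2 σ.injective)]
  refine congrArg Set.ncard (Set.ext fun G => ⟨fun ⟨g1, g2, g3⟩ => ?_, ?_⟩)
  · have k := h (e.symm ⟨G, g1⟩)
    rw [e.apply_symm_apply] at k
    refine ⟨(e.symm ⟨G, g1⟩).1, ⟨(e.symm _).2, (cr_iso e.symm _).trans g2, ?_⟩, k.symm⟩
    have g4 : σ v ∈ σ '' (e.symm ⟨G, g1⟩).1 := k ▸ g3
    exact (σ.injective.mem_set_image).1 g4
  · rintro ⟨H, ⟨h1, h2, h3⟩, rfl⟩
    have k : (e ⟨H, h1⟩).1 = σ '' H := h ⟨H, h1⟩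
    exact ⟨k ▸ (e _).2, k ▸ (cr_iso e _).trans h2, v, h3, rfl⟩

theorem one (hs : ∀ i, IsF E {i}) (hpos : IsF E ∅) (e : {G // IsF E G} ≃o {G // IsF E G}) :
    ∃ σ : Perm ι, (∀ G, (e G).1 = σ '' G.1) ∧
      (∀ S, IsF E (σ '' S) ↔ IsF E S) ∧ ∀ v, cf E (σ v) = cf E v := by
  have a : ∀ (e : {G // IsF E G} ≃o {G // IsF E G}) i, ∃ j, e ⟨{i}, hs i⟩ = ⟨{j}, hs j⟩ := by
    intro e i
    obtain ⟨j, hj⟩ := Set.ncard_eq_one.1 ((ncard_iso hs hpos e ⟨{i}, hs i⟩).trans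
      (Set.ncard_singleton i))
    exact ⟨j, Subtype.ext hj⟩
  choose s h1 using a e
  have inj : Function.Injective s := fun i j k => by
    have := e.injective ((h1 i).trans (k ▸ (h1 j).symm))
    exact Set.singleton_injective (congrArg Subtype.val this)
  let σ : Perm ι := Equiv.ofBijective s (Finite.injective_iff_bijective.1 inj)
  have h : ∀ G, (e G).1 = σ '' G.1 := fun G => Set.ext fun x => by
    obtain ⟨i, rfl⟩ := σ.surjective x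
    rw [σ.injective.mem_set_image, ← Set.singleton_subset_iff, ← Set.singleton_subset_iff (a := i)]
    show (⟨{s i}, hs _⟩ : {G // IsF E G}) ≤ e G ↔ (⟨{i}, hs _⟩ : {G // IsF E G}) ≤ G
    rw [← h1, e.le_iff_le]
  refine ⟨σ, h, fun S => ⟨fun k => ?_, fun k => ?_⟩, cf_eq e σ h⟩
  · have t := h (e.symm ⟨_, k⟩)
    rw [e.apply_symm_apply] at t
    have u : S = (e.symm ⟨_, k⟩).1 := Set.image_injective.2 σ.injective t
    exact u ▸ (e.symm _).2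
  · have t : (e ⟨S, k⟩).1 = σ '' S := h ⟨S, k⟩
    exact t ▸ (e _).2

omit [Fintype ι] in
theorem two (σ : Perm ι) (h : ∀ S, IsF E (σ '' S) ↔ IsF E S) :
    ∃ e : {G // IsF E G} ≃o {G // IsF E G}, ∀ G, (e G).1 = σ '' G.1 :=
  ⟨{ toFun := fun G => ⟨σ '' G.1, (h _).2 G.2⟩
     invFun := fun G => ⟨σ.symm '' G.1, (h _).1 (by rw [σ.image_symm_image]; exact G.2)⟩
     left_inv := fun G => Subtype.ext (σ.symm_image_image G.1)
     right_inv := fun G => Subtype.ext (σ.image_symm_image G.1)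
     map_rel_iff' := fun {_ _} => Set.image_subset_image_iff σ.injective }, fun _ => rfl⟩

theorem pt (hd : finrank ℝ E = d + 1) (Φ : Fl E d) : ∃ x, x ∈ Φ.1 1 := by
  obtain ⟨x, hx, -⟩ := exists_of_cr (E := E) (A := ∅) (B := Φ.1 1) (by
    rw [Φ.cr, cr_empty]; omega)
  exact ⟨x, hx⟩

theorem three (hs : ∀ i, IsF E {i}) (hpos : IsF E ∅) (hd : finrank ℝ E = d + 1) (h3 : 3 ≤ d)
    (v : ι) : 3 ≤ cf E v := by
  obtain ⟨n, rfl⟩ : ∃ n, d = n + 3 := ⟨d - 3, by omega⟩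
  obtain ⟨Φ, i, -, -, hi, -⟩ := Fl.exists_two hpos hd (le_refl (⟨{v}, hs v⟩ : {G // IsF E G}))
  have hi' : {v} = Φ.1 i := congrArg Subtype.val hi
  have hv : v ∈ Φ.1 1 := by
    rcases i with _ | i
    · exact Φ.mono (Nat.zero_le 1) (hi' ▸ Set.mem_singleton v)
    · obtain ⟨x, hx⟩ := pt hd Φ
      have : x ∈ ({v} : Set ι) := hi' ▸ Φ.mono (by omega) hx
      exact (show x = v from this) ▸ hx
  have m : ∀ Ψ : Fl E (n + 3), v ∈ Ψ.1 1 →
      Ψ.1 (n + 3) ∈ {G : Set ι | IsF E G ∧ cr E G = 1 ∧ v ∈ G} := fun Ψ k =>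
    ⟨Ψ.isF _, by rw [Ψ.cr]; omega, Ψ.mono (by omega) k⟩
  have e : (Fl.r (n + 1) Φ).1 (n + 3) = Φ.1 (n + 3) := Fl.r_off _ _ (by omega)
  refine (Set.two_lt_ncard (Set.toFinite _)).2 ⟨_, m Φ hv, _, m (Fl.r (n + 2) Φ) ?_, _,
    m (Fl.r (n + 2) (Fl.r (n + 1) Φ)) ?_, (Fl.r_ne (i := n + 2) (by omega) Φ).symm,
    e ▸ (Fl.r_ne (i := n + 2) (by omega) (Fl.r (n + 1) Φ)).symm, fun k => ?_⟩
  · rwa [Fl.r_off _ _ (by omega)]
  · rwa [Fl.r_off _ _ (by omega), Fl.r_off _ _ (by omega)]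
  · refine Fl.r_ne (i := n + 1) (by omega) Φ (((Fl.r (n + 1) Φ).isF _).eq_of_cr
      (fun x hx => Fl.inter_eq (i := n + 2) (by omega) Φ ?_ ?_) (by rw [Fl.cr, Fl.cr]))
    · exact e ▸ Fl.mono _ (by omega) hx
    · show x ∈ (Fl.r (n + 2) Φ).1 (n + 3)
      rw [k]
      refine Fl.mono _ (show n + 2 ≤ n + 3 by omega) ?_
      rwa [Fl.r_off _ _ (by omega)]

end EK

theorem stEK : St_EK := by
  intro ι _ E d h1 hd hs
  have hpos : IsF E ∅ := ⟨1, h1, fun _ => zero_le_one, fun i => by simp⟩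
  refine ⟨EK.one hs hpos, EK.two, EK.three hs hpos hd, ?_⟩
  rintro Γ X k ⟨Φ, hΦ⟩ hX hc hΓ hk
  obtain ⟨x, -⟩ := EK.pt hd Φ
  have : Nonempty ι := ⟨x⟩
  choose s hs' using fun g : Γ => EK.two g.1 (hΓ g.1 g.2)
  have key := k_mul hpos hd X Φ (fun e => by
    obtain ⟨σ, a, -, b⟩ := EK.one hs hpos e
    exact hX Φ hΦ _ σ b fun j => a ⟨Φ.1 j, Φ.isF j⟩) s (fun a b e => by
      refine Subtype.ext (Equiv.ext fun i => Set.singleton_injective ?_)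
      have t := hs' a ⟨{i}, hs i⟩
      rw [e, hs' b] at t
      simpa using t.symm) (by rwa [Nat.card_coe_set_eq])
  have p : 0 < X.ncard := (Set.ncard_pos (Set.toFinite X)).2 ⟨Φ, hΦ⟩
  rw [Nat.card_coe_set_eq, hk] at key
  rw [← Nat.eq_of_mul_eq_mul_right (by omega) key]
  exact attained_sub hpos hd

end Pool.Agent.Lib.MP_7157e1_co.QE
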