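import Pool.Agent.Lib.MP_7157e1_co.QBlue

/-! A colour between trivial colours is trivial. -/

namespace Pool.Agent.FlagOrb.Q

open Equiv Set

theorem stIRR : St_IRR := by
  intro F L _ _ n r φ h m hn h0 h1 hw x0
  by_contra hx
  have h2 : ∀ x, Wl r x (m + 1) := fun x => hw x _ (by omega)
  have h3 : ∀ x, Wl r x (m + 2) := fun x => hw x _ (by omega)
  classical
  obtain ⟨C, hC⟩ := (h.wall (a := 0) (b := n) le_rfl x0).1.exC
  have hm2 : 2 ≤ m := by
    by_contra hm
    have : m = 0 ∨ m = 1 := by omega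
    rcases this with rfl | rfl
    exacts [hx (h0 _), hx (h1 _)]
  set S := WallsI r 0 n x0 (Ico 0 (m + 2)) with hS
  have hSsub : S ⊆ Walls r 0 n x0 := WallsI.sub (Ico_subset_Ico_right (by omega))
  have hD : ∀ x, InD r 0 n x0 x → Rch r (Ico 2 (m + 1)) x0 x := fun x hx => hx.rch (by
    intro c hc hn y
    simp only [mem_Ico] at hc hn
    have : c = 0 ∨ c = 1 ∨ m < c := by omega
    rcases this with rfl | rfl | hmc
    exacts [h0 y, h1 y, hw y c hmc])
  let Rl : Perm F → Perm F → Prop := fun a b => b ∈ S ∧ ¬ Commute a b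
  have g0S : rf r x0 0 ∈ S := ⟨x0, 0, InD.refl _, ⟨le_rfl, by omega⟩, h0 _, rfl⟩
  have conn : ∀ g ∈ S, Relation.ReflTransGen Rl (rf r x0 0) g := by
    intro g hg
    by_contra hcon
    let S2 : Set (Perm F) := {g | g ∈ S ∧ ¬ Relation.ReflTransGen Rl (rf r x0 0) g}
    have hS2 : S2 ⊆ S := fun g hg => hg.1
    have nrm : ∀ γ ∈ Subgroup.closure S, ∀ k ∈ Subgroup.closure S2,
        γ⁻¹ * k * γ ∈ Subgroup.closure S2 := by
      have one : ∀ s ∈ S, ∀ k ∈ Subgroup.closure S2, s * k * s ∈ Subgroup.closure S2 := by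
        intro s hs k hk
        by_cases hs2 : Relation.ReflTransGen Rl (rf r x0 0) s
        · have : Commute s k := by
            have : Subgroup.closure S2 ≤ Subgroup.centralizer {s} := by
              rw [Subgroup.closure_le]
              intro g hg
              rw [SetLike.mem_coe, Subgroup.mem_centralizer_iff]
              rintro _ rfl
              by_contra hc
              exact hg.2 (hs2.tail ⟨hg.1, hc⟩)
            exact Subgroup.mem_centralizer_iff.1 (this hk) s rfl
          rwa [this.eq, mul_assoc, h.walls_sq (hSsub hs), mul_one]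
        · have : s ∈ Subgroup.closure S2 := Subgroup.subset_closure ⟨hs, hs2⟩
          exact mul_mem (mul_mem this hk) this
      intro γ hγ
      induction hγ using Subgroup.closure_induction_left with
      | one => intro k hk; simpa using hk
      | mul_left s hs y _ ih =>
        intro k hk
        have := ih _ (one s hs k hk)
        rw [mul_inv_rev, inv_eq_of_sq (h.walls_sq (hSsub hs))]
        simpa only [mul_assoc] using this
      | inv_mul_cancel s hs y _ ih =>
        intro k hk
        have := ih _ (one s hs k hk)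
        rw [mul_inv_rev, inv_inv, inv_eq_of_sq (h.walls_sq (hSsub hs))]
        simpa only [mul_assoc] using this
    have hD1 : ∀ x, InD r 0 n x0 x → Rch r (Ico 1 (m + 2)) x0 x := fun x hx =>
      (hD x hx).mono (Ico_subset_Ico (by omega) (by omega))
    have fix : ∀ k ∈ Subgroup.closure S2, ∀ x, InD r 0 n x0 x →
        Rch r (Ico 1 (m + 2)) x (k x) := by
      intro k hk x hx
      refine h.closure_rch hS2 ?_ hD1 hk (hD1 x hx)
      rintro _ ⟨⟨y, c, hy, hc, hw, rfl⟩, hn⟩
      refine ⟨y, c, hy, ⟨?_, hc.2⟩, hw, rfl⟩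
      by_contra hc0
      obtain rfl : c = 0 := by omega
      apply hn
      rw [h.rf_rch (h0 x0) (hD y hy) fun c hc => by have := hc.1; omega]
    have hg2 : g ∈ Subgroup.closure S2 := Subgroup.subset_closure ⟨hg, hcon⟩
    have hga : g ∈ Aut r := WallsI.aut hS2 hg2
    have p1 : ∀ y, Rch r (Ico 0 (m + 2)) x0 y → φ 1 (g y) = φ 1 y := by
      intro y hy
      obtain ⟨γ, hγ, x, hx, rfl⟩ := h.decomp (a := 0) (b := n)
        (Ico_subset_Ico_right (by omega)) hy
      have := Aut.rch (WallsI.aut subset_rfl hγ) (fix _ (nrm γ hγ g hg2) x hx)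
      simp only [Perm.mul_apply, Perm.coe_inv, apply_symm_apply] at this
      exact h.sameR this fun c hc => by have := hc.1; omega
    have p2 : ∀ i, i ≤ m + 2 → ∀ y, Rch r (Ico 0 (m + 2)) x0 y →
        φ i (g y) = φ i y ∧ φ (i + 1) (g y) = φ (i + 1) y := by
      intro i
      induction i with
      | zero => exact fun _ y hy => ⟨h.bot _ _, p1 y hy⟩
      | succ i ih =>
        intro hi y hy
        refine ⟨(ih (by omega) y hy).2, ?_⟩
        rw [← h.join i _ (by omega), ← h.join i y (by omega), ← Aut.app hga,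
          (ih (by omega) y hy).2, (ih (by omega) _ (hy.next ⟨by omega, by omega⟩)).2]
    obtain ⟨x, c, hx, hc, hw, rfl⟩ := hg
    have hr := (hD x hx).mono (J := Ico 0 (m + 2)) (Ico_subset_Ico (by omega) (by omega))
    have := (p2 c (by have := hc.2; omega) x hr).2
    rw [rf_app hw] at this
    exact h.ne_face (by have := hc.2; omega) x this
  have symm : ∀ g, Relation.ReflTransGen Rl (rf r x0 0) g →
      g ∈ S ∧ Relation.ReflTransGen Rl g (rf r x0 0) := by
    intro g hg
    induction hg with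
    | refl => exact ⟨g0S, Relation.ReflTransGen.refl⟩
    | tail _ h2 ih => exact ⟨h2.1, Relation.ReflTransGen.head ⟨ih.1, adj_symm h2.2⟩ ih.2⟩
  have d1 : InD r 0 n x0 (r m x0) := (InD.refl x0).next ⟨by omega, by omega⟩ hx
  have k1 : rf r x0 (m + 1) ∈ S := ⟨x0, _, InD.refl _, ⟨by omega, by omega⟩, h2 _, rfl⟩
  have k2 : rf r (r m x0) (m + 1) ∈ S := ⟨_, _, d1, ⟨by omega, by omega⟩, h2 _, rfl⟩
  obtain ⟨q, k, hq, q0, qk⟩ := IsPath.of_conn k1 ((symm _ (conn _ k1)).2.trans (conn _ k2))
  have hk : 1 ≤ k := by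
    by_contra hk
    obtain rfl : k = 0 := by omega
    exact h.rf_step_ne (h2 _) (h2 _) (Or.inr ⟨rfl, by omega⟩) (q0.symm.trans qk)
  have pc := (hq.mono hSsub).cons (g := rf r x0 (m + 2))
    (wall_mem (InD.refl _) ⟨by omega, by omega⟩ (h3 _)) (by
      intro i hi
      obtain ⟨y, c, hy, hc, hw, he⟩ := hq.mem i hi
      rw [he]
      exact h.rf_sep ((hD y hy).mono (Ico_subset_Ico (by omega) (by omega))) (by simp) hc (h3 _)
        hw (by omega))
    (by rw [q0]; exact adj_symm (h.rf_adj (h2 _) (h3 _) (by omega)))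
  have := hC.no_cycle pc (by omega)
  change Commute (rf r x0 (m + 2)) (q k) at this
  rw [qk, ← h.rf_step (c' := m) (h3 x0) (by omega) (by omega)] at this
  exact h.rf_adj (h2 _) (h3 _) (by omega) this.symm

end Pool.Agent.FlagOrb.Q
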