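import Pool.Agent.Lib.MP_7157e1_co.QBlue

namespace Pool.Agent.FlagOrb.Q

open Equiv Set

namespace LOC

lemma pw (p : ℕ) (hp : 7 ≤ p) : 9 * p ^ 2 + 159 * p + 146 < 3 ^ p := by
  induction p, hp using Nat.le_induction with
  | base => norm_num
  | succ p hp ih =>
    rw [pow_succ 3 p]
    nlinarith

lemma klt (n k p : ℕ) (hp : 7 ≤ p) (hn : 100 ≤ n) (hnp : n ≤ 6 * p + 58)
    (hk : 4 * k + 10 * n + 2200 ≤ n ^ 2) : k < 3 ^ p := by
  have h1 := pw p hp
  have h2 : n ^ 2 + 10 * (6 * p + 58) ≤ (6 * p + 58) ^ 2 + 10 * n := by nlinarith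
  nlinarith

lemma prod_gt (n k a b : ℕ) (hab : a + b + 5 = n) (h1 : a ≤ b + 47) (h2 : b ≤ a + 47)
    (hk : 4 * k + 10 * n + 2200 ≤ n ^ 2) : k < a * b := by
  subst hab
  have h3 : ((a : ℤ) - b) ^ 2 ≤ 47 ^ 2 := by
    apply sq_le_sq'
    · omega
    · omega
  have h4 : (4 * k + 10 * (a + b + 5) + 2200 : ℤ) ≤ (a + b + 5) ^ 2 := by exact_mod_cast hk
  have h5 : (k : ℤ) < a * b := by nlinarith
  exact_mod_cast h5

end LOC

theorem stLOC (hPROD : St_PROD) (hLEMA : St_LEMA) : St_LOC := by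
  intro F L _ _ n r φ h hn hk
  obtain ⟨j0, hj0, hj1⟩ : ∃ j0, 2 * j0 + 47 ≤ n ∧ n ≤ 2 * j0 + 48 :=
    ⟨(n - 1) / 2 - 23, by omega, by omega⟩
  obtain ⟨p, hp0, hp1⟩ : ∃ p, 3 * p + 3 ≤ j0 ∧ j0 ≤ 3 * p + 5 := ⟨(j0 - 3) / 3, by omega, by omega⟩
  have hp : nty r < 3 ^ p := LOC.klt n _ p (by omega) hn (by omega) hk
  have key : ∀ x j, j0 ≤ j → j ≤ j0 + 46 → Sm r 1 (j - 1) x ∨ Sm r (j + 2) (n - 1) x := by
    intro x j h1 h2
    rcases hLEMA h 0 j p (Ico (j + 1) n) x (by omega) (fun c hc => Or.inr hc.1) (by omega) hp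
      (by omega) with ha | ha
    · exact Or.inl ha
    rcases hLEMA h (j + 1) n p (Ico 0 j) x le_rfl
      (fun c hc => Or.inl (by have := hc.2; omega)) (by omega) hp (by omega) with hb | hb
    · exact Or.inr hb
    exfalso
    have hle := hPROD h (Ico 0 j) (Ico (j + 1) n) x _ _
      (fun c hc c' hc' => h.comm c c' (by have := hc.2; have := hc'.1; omega)) ha hb
    have := LOC.prod_gt n (nty r) (j - 0 - 2) (n - (j + 1) - 2) (by omega) (by omega) (by omega) hk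
    omega
  refine ⟨j0 + 2, by omega, by omega, fun x => ?_⟩
  have ind : ∀ t, t ≤ 46 → Sm r 1 (j0 + t - 1) x ∨
      ∃ g, (∀ c, 1 ≤ c → c < g → c < j0 + 2 + 43 → Eqv r (r c x) (r 1 x)) ∧
        ∀ c, g + 4 ≤ c → j0 + 2 ≤ c → c + 2 ≤ n → Eqv r (r c x) (r (n - 2) x) := by
    intro t
    induction t with
    | zero =>
      intro _
      rcases key x j0 le_rfl (by omega) with ha | ha
      · exact Or.inl ha
      · refine Or.inr ⟨0, fun c _ hc _ => absurd hc (by omega), fun c _ hc hc' => ?_⟩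
        exact ha c ⟨hc, by omega⟩ (n - 2) ⟨by omega, by omega⟩
    | succ t ih =>
      intro ht
      rcases ih (by omega) with hL | hE
      · rcases key x (j0 + (t + 1)) (by omega) (by omega) with ha | ha
        · exact Or.inl ha
        · refine Or.inr ⟨j0 + t - 1, fun c h1 hc _ => ?_, fun c hc _ hc' => ?_⟩
          · exact hL c ⟨h1, hc⟩ 1 ⟨le_rfl, by omega⟩
          · exact ha c ⟨by omega, by omega⟩ (n - 2) ⟨by omega, by omega⟩
      · exact Or.inr hE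
  rcases ind 46 le_rfl with hL | hE
  · refine ⟨n, fun c h1 _ hc => ?_, fun c hc _ hc' => absurd hc (by omega)⟩
    exact hL c ⟨h1, by omega⟩ 1 ⟨le_rfl, by omega⟩
  · exact hE

end Pool.Agent.FlagOrb.Q
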