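import Pool.Agent.Lib.MP_7157e1_co.QKit

/-! Quadratic range: a leg does not end at a position `≥ 4`. -/

namespace Pool.Agent.FlagOrb.Q

open Equiv Set

theorem stTERM : St_TERM := by
  intro F L _ _ n r φ h a b x H ha hab hn hb hp hw
  classical
  obtain ⟨C, hC⟩ := (h.wall (a := 0) (b := n) le_rfl x).1.exC
  have m0 : InD r 0 n x x := InD.refl x
  have mv : ¬ Wl r x (a + 1) := hp.mv (by omega)
  have m1 : InD r 0 n x (r (a + 1) x) := m0.next ⟨by omega, by omega⟩ mv
  have wz : Wl r (r (a + 1) x) a :=
    (H.up x _ hp (by omega)).wl (by omega) (by omega) (by omega) (by omega)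
  have tz : rf r x a ≠ rf r (r (a + 1) x) a := h.rf_step_ne hw wz (Or.inl ⟨rfl, by omega⟩)
  have tm : rf r x a ∈ Walls r 0 n x := wall_mem m0 ⟨by omega, by omega⟩ hw
  by_cases c0 : 1 ≤ a - 3 ∨ Wl r x 0
  · obtain ⟨e, rfl⟩ : ∃ e, a = e + 3 := ⟨a - 3, by omega⟩
    have hq := h.leg_path H hp (by omega) (by omega) hb m0 (c := e) (m := 7)
      (by simpa using c0) (Or.inl (by omega))
    have w1 : Wl r x (e + 1) := hp.wl (by omega) (by omega) (by omega) (by omega)
    have w2 : Wl r x (e + 2) := hp.wl (by omega) (by omega) (by omega) (by omega)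
    have ad : ¬ Commute (lg r x (e + 3 + 1) (e + 2)) (rf r x (e + 3)) := by
      rw [lg_lo (by omega)]
      exact h.rf_adj w2 hw (by omega)
    rcases hC.star5 hq tm ad with k | k
    · rw [lg_lo (by omega)] at k
      exact h.rf_ne hw w1 (by omega) (by omega) k
    · rw [lg_mid] at k
      exact tz k
  · push Not at c0
    obtain rfl : a = 3 := by omega
    have m2 : InD r 0 n x (r 0 x) := m0.next ⟨by omega, by omega⟩ c0.2
    have w1 : Wl r x 1 := hp.wl (by omega) (by omega) (by omega) (by omega)
    have w2 : Wl r x 2 := hp.wl (by omega) (by omega) (by omega) (by omega)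
    have w5 : Wl r x 5 := hp.wl (by omega) (by omega) (by omega) (by omega)
    have py : Pos n r 4 b (r 0 x) 4 := H.pos_up (by omega) hb le_rfl (by omega)
      (by rwa [h.wl_far (by omega) (by omega)]) (by rwa [h.wl_far (by omega) (by omega)])
    have y1 : Wl r (r 0 x) 1 := py.wl (by omega) (by omega) (by omega) (by omega)
    have y2 : Wl r (r 0 x) 2 := py.wl (by omega) (by omega) (by omega) (by omega)
    have y3 : Wl r (r 0 x) 3 := by rwa [h.wl_far (by omega) (by omega)]
    have z1 : Wl r (r 4 x) 1 := by rwa [h.wl_far (by omega) (by omega)]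
    have z2 : Wl r (r 4 x) 2 := by rwa [h.wl_far (by omega) (by omega)]
    have u1 : Wl r (r 4 (r 0 x)) 1 := by rwa [h.wl_far (by omega) (by omega)]
    have cm : r 0 (r 4 x) = r 4 (r 0 x) := h.capp (c := 0) (c' := 4) (by omega) x
    have u3 : Wl r (r 4 (r 0 x)) 3 := by
      rw [← cm, h.wl_far (by omega) (by omega)]
      exact wz
    have k := hC.val4 (v := rf r x 2) (a := rf r x 1) (b := rf r x 3) (c := rf r (r 4 x) 3)
      (d := rf r (r 0 x) 1) (wall_mem m0 ⟨by omega, by omega⟩ w2)
      (wall_mem m0 ⟨by omega, by omega⟩ w1) tm (wall_mem m1 ⟨by omega, by omega⟩ wz)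
      (wall_mem m2 ⟨by omega, by omega⟩ y1) (adj_symm (h.rf_adj w1 w2 (by omega)))
      (h.rf_adj w2 hw (by omega))
      (by
        rw [← h.rf_step (c' := 4) w2 (by omega) (by omega)]
        exact h.rf_adj z2 wz (by omega))
      (by
        rw [← h.rf_step (c' := 0) w2 (by omega) (by omega)]
        exact adj_symm (h.rf_adj y1 y2 (by omega)))
      (h.rf_ne w1 hw (by omega) (by omega))
      (by
        rw [← h.rf_step (c' := 4) w1 (by omega) (by omega)]
        exact h.rf_ne z1 wz (by omega) (by omega))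
      tz
    rcases k with k | k | k
    · exact h.rf_step_ne w1 y1 (Or.inr ⟨rfl, by omega⟩) k.symm
    · rw [← h.rf_step (c' := 0) hw (by omega) (by omega)] at k
      exact h.rf_ne y1 y3 (by omega) (by omega) k
    · rw [← h.rf_step (c' := 4) y1 (by omega) (by omega),
        ← h.rf_step (c' := 0) wz (by omega) (by omega), cm] at k
      exact h.rf_ne u1 u3 (by omega) (by omega) k

end Pool.Agent.FlagOrb.Q
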