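import Pool.Agent.Lib.MP_7157e1_co.RKitC
import Pool.Agent.Lib.MP_7157e1_co.QFin

/-! Cubic range: assembly of the steps. -/

namespace Pool.Agent.FlagOrb.R

open Equiv Set Q Half Pool.Agent.Lib.MP_7157e1_co

lemma loc_of {F : Type} {n : ℕ} {r : ℕ → Perm F} (hn : 3 ≤ n)
    (d : ∀ x j, Sm r 1 j x ∨ Sm r (j + 2) (n - 1) x) : Loc n r 11 (11 + 43) := by
  intro x
  have ind : ∀ t, Sm r 1 t x ∨
      ∃ g, (∀ c, 1 ≤ c → c < g → c < 11 + 43 → Eqv r (r c x) (r 1 x)) ∧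
        ∀ c, g + 4 ≤ c → 11 ≤ c → c + 2 ≤ n → Eqv r (r c x) (r (n - 2) x) := by
    intro t
    induction t with
    | zero => exact Or.inl (sm_empty (by omega))
    | succ t ih =>
      rcases ih with hL | hE
      · rcases d x (t + 1) with ha | ha
        · exact Or.inl ha
        · refine Or.inr ⟨t, fun c h1 hc _ => ?_, fun c hc _ hc' => ?_⟩
          · exact hL c ⟨h1, hc⟩ 1 ⟨le_rfl, by omega⟩
          · exact ha c ⟨by omega, by omega⟩ (n - 2) ⟨by omega, by omega⟩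
      · exact Or.inr hE
  rcases ind 54 with hL | hE
  · refine ⟨n, fun c h1 _ hc => ?_, fun c hc _ hc' => absurd hc (by omega)⟩
    exact hL c ⟨h1, by omega⟩ 1 ⟨le_rfl, by omega⟩
  · exact hE

theorem ps_main (hT3 : St_T3) (hWALL : St_WALL) (hGRID : St_GRID) (hCV : St_CV)
    (hPLEG : St_PLEG) (hJC : St_JC) (hNS : St_NS) (hNP : St_NP) (hXC : St_XC) (hOT : St_OT)
    (hCC : St_CC) (hPART : St_PART) {F L : Type} [Lattice L] [Finite F] [Nonempty F] {n : ℕ}
    {r : ℕ → Perm F} {φ : ℕ → F → L} (h : PS n r φ) (hD : DI n r φ) (hn : 110 ≤ n)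
    (hk : 27 * nty r < (n - 10) ^ 3) :
    (nty r = 1 ∨ ∃ s b, b ≤ 3 ∧ nty r + b = s * (n - 1) + 2) ∨
      ∃ A s e1 e2, 1 ≤ A ∧ e1 ≤ 5596 * A ∧ e2 ≤ 15808 * A ∧ 2 * nty r + e1 = s * (n - 1) + e2 ∧
        A * (n * (n - 19)) ≤ 2 * nty r := by
  have t3 := hT3 h hn hk
  have b8 : B8 n r := ⟨hn, t3, hWALL h hn t3⟩
  have H := hGRID h b8
  generalize cnt r (Bs n r) = A at H
  generalize GG n r = G at H
  by_cases hg : ∃ g, InG G g
  swap
  · refine Or.inl (of_loc h hD (u := 11) (by omega) (by omega) (loc_of (by omega) fun x j => ?_))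
    by_contra hc
    rw [not_or] at hc
    obtain ⟨z, -, z1, z2⟩ := h.park (a := 0) (b := n) (s := 14) (t := 50) le_rfl (by omega)
      (by omega) (by omega) hc.1 hc.2
    obtain ⟨c, c1, c2, c3⟩ := mv_of_nsm z1
    obtain ⟨c', d1, d2, d3⟩ := mv_of_nsm z2
    exact hg ⟨z, H.far z c c' c3 d3 (by omega) (by omega) d1 (by omega)⟩
  right
  have V := hCV h b8 A G H
  obtain ⟨P, R, hP⟩ := hPLEG h A G H V hn
  have R' := h.RH_rev R
  have J := hJC h hD P R
  have J' := hJC h.mirror (h.DI_rev hD) _ R'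
  obtain ⟨p1, p2⟩ := hPART h A G P H V hn R J J'
  have b1 : cnt r (fun x => T1 n r G x 18 ∧ ¬ P x 18) ≤ 20 * A :=
    (cnt_mono fun x k => ⟨k.1, fun q => k.2 (hP x q)⟩).trans (hNP h A G H V hn)
  have x1 := hXC h hD A G P H V hn R b1
  have x2 := hXC h.mirror (h.DI_rev hD) A _ _ (h.GS_rev H) (h.CV_rev H (by omega) V) hn R' (by
    rw [h.cnt_rev]
    refine le_trans (cnt_mono fun x k => ?_) (p1.le.trans b1)
    exact ⟨((h.T1_rev H (by omega)).1 k.1).2, fun q => k.2 ⟨by omega, q⟩⟩)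
  rw [h.cnt_rev] at x2
  have tw : Two2 n r := by
    obtain ⟨g, i, j, k⟩ := hg
    have := H.rng g i j k
    obtain ⟨i, rfl⟩ : ∃ i', i = i' + 1 := ⟨i - 1, by omega⟩
    exact ⟨g, i, j, by omega, by omega, by omega, H.m1 g i j k, H.m4 g _ j k⟩
  have a1 : 1 ≤ A := by
    obtain ⟨g, i, j, k⟩ := hg
    obtain ⟨i1, i2, j1, j2, ij⟩ := H.rng g i j k
    rw [← H.num i j i1 i2 j1 j2 ij]
    exact cnt_pos k
  have ns := hNS h P R J J' tw
  have ot := hOT h A G P H V hn R J J' b1 (p1.le.trans b1) hg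
  obtain ⟨s, s1, s2⟩ := hCC h P R J J'
  generalize cnt r (fun x => T1 n r G x 18 ∧ ¬ P x 18) = b at *
  generalize cnt r (Cov n r P) = C at *
  generalize cnt r (Oth n r G P) = O at *
  obtain ⟨m, rfl⟩ : ∃ m, n = m + 35 := ⟨n - 35, by omega⟩
  rw [show m + 35 - 1 = m + 34 by omega] at *
  rw [show m + 35 - 18 = m + 17 by omega, show m + 35 - 35 = m by omega] at p2
  refine ⟨A, (m + 17) * A + 2 * b + 2 * s, 12 * A + 68 * b + 2 * (s * (m + 34) - C),
    2 * (C - s * (m + 34)) + 2 * O, a1, by omega, by omega, ?_, ?_⟩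
  · have e : ((m + 17) * A + 2 * b + 2 * s) * (m + 34) =
        (m + 34) * (m + 17) * A + 2 * (m * b) + 68 * b + 2 * (s * (m + 34)) := by ring
    omega
  · rw [show m + 35 - 19 = m + 16 by omega]
    have e : (m + 34) * (m + 17) * A = A * ((m + 35) * (m + 16)) + 18 * A := by ring
    omega

theorem cubic (hT3 : St_T3) (hWALL : St_WALL) (hGRID : St_GRID) (hCV : St_CV)
    (hPLEG : St_PLEG) (hJC : St_JC) (hNS : St_NS) (hNP : St_NP) (hXC : St_XC) (hOT : St_OT)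
    (hCC : St_CC) (hPART : St_PART) {k d : ℕ} (h : Attained k d) (hd : 110 ≤ d) (h2 : 2 ≤ k)
    (k1 : 2 * k < d * (d - 19) ∨ (15808 * (2 * k / (d * (d - 19))) < 2 * k % (d - 1) ∧
      2 * k % (d - 1) + 5596 * (2 * k / (d * (d - 19))) < d - 1)) : (k + 1) % (d - 1) ≤ 3 := by
  have hD : 0 < d * (d - 19) := Nat.mul_pos (by omega) (by omega)
  have hk : 27 * k < (d - 10) ^ 3 := by
    have a := Nat.lt_mul_div_succ (2 * k) hD
    have b : 14 * (2 * k / (d * (d - 19)) + 1) ≤ d - 10 := by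
      rcases k1 with k1 | k1
      · rw [Nat.div_eq_of_lt k1]
        omega
      · omega
    have c : d * (d - 19) ≤ (d - 10) ^ 2 + (d - 10) := by
      obtain ⟨m, rfl⟩ : ∃ m, d = m + 19 := ⟨d - 19, by omega⟩
      rw [show m + 19 - 19 = m by omega, show m + 19 - 10 = m + 9 by omega]
      nlinarith
    generalize 2 * k / (d * (d - 19)) + 1 = q at a b
    generalize d * (d - 19) = D at a c
    have e : 100 ≤ d - 10 := by omega
    generalize d - 10 = m at *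
    have f1 : D * q ≤ (m ^ 2 + m) * q := Nat.mul_le_mul_right _ c
    have f2 : (m ^ 2 + m) * (14 * q) ≤ (m ^ 2 + m) * m := Nat.mul_le_mul_left _ b
    have f3 : 100 * m ^ 2 ≤ m * m ^ 2 := Nat.mul_le_mul_right _ e
    nlinarith
  have key : (k = 1 ∨ ∃ s b, b ≤ 3 ∧ k + b = s * (d - 1) + 2) ∨
      ∃ A s e1 e2, 1 ≤ A ∧ e1 ≤ 5596 * A ∧ e2 ≤ 15808 * A ∧ 2 * k + e1 = s * (d - 1) + e2 ∧
        A * (d * (d - 19)) ≤ 2 * k := by
    clear k1
    obtain ⟨V, h1, rfl⟩ := h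
    have : Nonempty V := by
      rcases V.eq_empty_or_nonempty with rfl | ⟨x, hx⟩
      · simp at h1
      · exact ⟨⟨x, hx⟩⟩
    rw [← Subtype.range_coe (s := (V : Set (EuclideanSpace ℝ (Fin d))))] at h1 hk ⊢
    have hr := (rank_aff _).1 h1
    rw [bridge, ← k_eq (one_mem_aff _) hr, ← nty_eq] at hk ⊢
    exact @ps_main hT3 hWALL hGRID hCV hPLEG hJC hNS hNP hXC hOT hCC hPART _ _ (faceLat _) _
      (Fl.nonempty (one_mem_aff _) hr) _ _ _ (poly_ps (one_mem_aff _) hr) poly_di hd hk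
  rcases key with key | ⟨A, s, e1, e2, a0, a1, a2, e, a3⟩
  · obtain ⟨s, b, hb, e⟩ := key.resolve_left (by omega)
    rw [show k + 1 = 3 - b + s * (d - 1) by omega, Nat.add_mul_mod_self_right,
      Nat.mod_eq_of_lt (by omega)]
    omega
  · exfalso
    have l1 : A ≤ 2 * k / (d * (d - 19)) := (Nat.le_div_iff_mul_le hD).2 a3
    rcases k1 with k1 | k1
    · rw [Nat.div_eq_of_lt k1] at l1
      omega
    have m1 : (2 * k + e1) % (d - 1) = 2 * k % (d - 1) + e1 := by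
      rw [← Nat.mod_add_mod, Nat.mod_eq_of_lt (by omega)]
    rw [e, Nat.mul_add_mod', Nat.mod_eq_of_lt (by omega)] at m1
    omega

end Pool.Agent.FlagOrb.R
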