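import Pool.Agent.Lib.MP_7157e1_co.QKit
import Pool.Agent.Lib.MP_7157e1_co.Q_JUN

/-! Cubic range: definitions and statements of the steps (flag systems). -/

namespace Pool.Agent.FlagOrb.R

open Equiv Set Q

section Defs

variable {F : Type}

/-- the word that moves a token from position `i` to position `j` -/
def mov (r : ℕ → Perm F) (i j : ℕ) : Perm F := (up r 0 j)⁻¹ * up r 0 i

/-- the number of types of flags in `S` -/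
noncomputable def cnt (r : ℕ → Perm F) (S : F → Prop) : ℕ :=
  ((fun x => Quotient.mk (tySetoid r) x) '' {x | S x}).ncard

/-- no two far activities on the `[a, b)`-orbit of `x` -/
def Dich (r : ℕ → Perm F) (a b : ℕ) (x : F) : Prop :=
  ∀ y j, Rch r (Ico a b) x y → Sm r (a + 1) j y ∨ Sm r (j + 2) (b - 1) y

/-- no three far activities -/
def T3 (n : ℕ) (r : ℕ → Perm F) : Prop :=
  ∀ x α β, Sm r 1 α x ∨ Sm r (α + 2) β x ∨ Sm r (β + 2) (n - 1) x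

/-- long inactive windows consist of walls -/
def WA (n : ℕ) (r : ℕ → Perm F) : Prop :=
  ∀ x a b c, 1 ≤ a → a + 7 ≤ b → b + 1 ≤ n → Sm r a b x → a ≤ c → c < b → Wl r x c

/-- the basic facts -/
structure B8 (n : ℕ) (r : ℕ → Perm F) : Prop where
  big : 110 ≤ n
  t3 : T3 n r
  wa : WA n r

/-- the colour `c` acts at `x` like an element of the group of the colours in `J` -/
def Hj (r : ℕ → Perm F) (J : Set ℕ) (x : F) (c : ℕ) : Prop := ∃ g ∈ W r J, Eqv r (g x) (r c x)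

/-- exactly the colours `i - 1`, `i` of the window are not of that kind -/
def Tw (r : ℕ → Perm F) (J : Set ℕ) (lo hi : ℕ) (x : F) (i : ℕ) : Prop :=
  lo + 1 ≤ i ∧ i + 4 ≤ hi ∧ ∀ c, lo ≤ c → c < hi → (¬ Hj r J x c ↔ c + 1 = i ∨ c = i)

/-- exactly the colours `i - 1`, `i` of `[a + 1, b - 1)` move -/
def Tk (r : ℕ → Perm F) (a b : ℕ) (x : F) (i : ℕ) : Prop :=
  ∀ c, a + 1 ≤ c → c + 2 ≤ b → (¬ Wl r x c ↔ c + 1 = i ∨ c = i)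

/-- simple tokens on the `[a, b)`-orbit of `x0` with position in `[lo, hi]` -/
def TO (r : ℕ → Perm F) (a b : ℕ) (x0 : F) (lo hi : ℕ) (x : F) (i : ℕ) : Prop :=
  Rch r (Ico a b) x0 x ∧ lo ≤ i ∧ i ≤ hi ∧ Tk r a b x i

/-- a family of legs with positions in `[lo, hi]` and walls on `[lam, mu)` -/
structure Lg (r : ℕ → Perm F) (lam mu lo hi : ℕ) (Q : F → ℕ → Prop) : Prop where
  rng : ∀ x i, Q x i → lo ≤ i ∧ i ≤ hi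
  wl : ∀ x i c, Q x i → lam ≤ c → c < mu → c ≠ i → c + 1 ≠ i → Wl r x c
  mv : ∀ x i, Q x i → i < hi → ¬ Wl r x i
  mv' : ∀ x i, Q x (i + 1) → lo ≤ i → ¬ Wl r x i
  up : ∀ x i, Q x i → i < hi → Q (r i x) (i + 1)
  dn : ∀ x i, Q x (i + 1) → lo ≤ i → Q (r i x) i
  str : ∀ x i, Q x i → i + 2 ≤ hi → per r i x = 3

/-- the push from `e` to `f` runs along moving colours -/
def Pu (r : ℕ → Perm F) (x : F) (e f : ℕ) : Prop :=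
  ∀ t, e ≤ t → t ≤ f → ¬ Wl r (mov r e t x) t

/-- the two-token grid -/
structure GS (n : ℕ) (r : ℕ → Perm F) (A : ℕ) (G : F → ℕ → ℕ → Prop) : Prop where
  rng : ∀ x i j, G x i j → 5 ≤ i ∧ i + 12 ≤ n ∧ 12 ≤ j ∧ j + 5 ≤ n ∧ i < j
  eqv : ∀ x y i j, G x i j → Eqv r x y → G y i j
  wl : ∀ x i j c, G x i j → 1 ≤ c → c + 2 ≤ n → c + 1 ≠ i → c ≠ i → c + 1 ≠ j → c ≠ j → Wl r x c
  m1 : ∀ x i j, G x (i + 1) j → ¬ Wl r x i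
  m2 : ∀ x i j, G x i j → i + 2 ≤ j → ¬ Wl r x i
  m3 : ∀ x i j, G x i (j + 1) → i + 1 ≤ j → ¬ Wl r x j
  m4 : ∀ x i j, G x i j → ¬ Wl r x j
  u1 : ∀ x i j, G x i j → i + 2 ≤ j → i + 13 ≤ n → G (r i x) (i + 1) j
  d1 : ∀ x i j, G x (i + 1) j → 5 ≤ i → G (r i x) i j
  u2 : ∀ x i j, G x i j → j + 6 ≤ n → G (r j x) i (j + 1)
  d2 : ∀ x i j, G x i (j + 1) → i + 1 ≤ j → 12 ≤ j → G (r j x) i j
  p1 : ∀ x i j, G x i j → i + 3 ≤ j → i + 14 ≤ n → per r i x = 3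
  p2 : ∀ x i j, G x i j → j + 7 ≤ n → per r j x = 3
  num : ∀ i j, 5 ≤ i → i + 12 ≤ n → 12 ≤ j → j + 5 ≤ n → i < j → cnt r (fun x => G x i j) = A
  far : ∀ x c c', ¬ Wl r x c → ¬ Wl r x c' → 5 ≤ c → c + 7 ≤ c' → 50 ≤ c' → c' + 8 ≤ n →
    ∃ i j, G x i j
  far' : ∀ x c c', ¬ Wl r x c → ¬ Wl r x c' → 7 ≤ c → c + 7 ≤ c' → c + 51 ≤ n → c' + 6 ≤ n →
    ∃ i j, G x i j

/-- both tokens are parked -/
def Bs (n : ℕ) (r : ℕ → Perm F) (x : F) : Prop :=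
  ∀ c, 1 ≤ c → c + 2 ≤ n → (¬ Wl r x c ↔ c = 4 ∨ c = 5 ∨ c + 6 = n ∨ c + 5 = n)

/-- the grid obtained from the parked flags -/
def GG (n : ℕ) (r : ℕ → Perm F) (x : F) (i j : ℕ) : Prop :=
  (5 ≤ i ∧ i + 12 ≤ n ∧ 12 ≤ j ∧ j + 5 ≤ n ∧ i < j) ∧ Bs n r (mov r j (n - 5) (mov r i 5 x))

/-- in the grid -/
def InG (G : F → ℕ → ℕ → Prop) (x : F) : Prop := ∃ i j, G x i j

/-- the mirror image of a grid -/
def mG (n : ℕ) (G : F → ℕ → ℕ → Prop) (x : F) (i j : ℕ) : Prop :=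
  i ≤ n ∧ j ≤ n ∧ G x (n - j) (n - i)

/-- the mirror image of a family of legs -/
def mP (n : ℕ) (P : F → ℕ → Prop) (x : F) (i : ℕ) : Prop := i ≤ n ∧ P x (n - i)

/-- one token in the central window -/
def T1 (n : ℕ) (r : ℕ → Perm F) (G : F → ℕ → ℕ → Prop) (x : F) (i : ℕ) : Prop :=
  ¬ InG G x ∧ 18 ≤ i ∧ i + 18 ≤ n ∧ Tk r 13 (n - 13) x i

/-- the flags outside the grid -/
structure CV (n : ℕ) (r : ℕ → Perm F) (G : F → ℕ → ℕ → Prop) : Prop where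
  rc : ∀ x c, InG G x → 13 ≤ c → c + 14 ≤ n → InG G (r c x)
  leg : Lg r 14 (n - 14) 18 (n - 18) (T1 n r G)
  cov : ∀ x c, ¬ InG G x → 18 ≤ c → c + 19 ≤ n → ¬ Wl r x c → T1 n r G x c ∨ T1 n r G x (c + 1)

/-- a pure token in the central window -/
def Q0 (n : ℕ) (r : ℕ → Perm F) (G : F → ℕ → ℕ → Prop) (x : F) (i : ℕ) : Prop :=
  T1 n r G x i ∧ (∀ c, 1 ≤ c → c + 2 ≤ n → c ≠ i → c + 1 ≠ i → Wl r x c) ∧
    Wl r (r 0 x) 1 ∧ Wl r (r (n - 1) x) (n - 2)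

/-- full pure legs -/
structure RH (n : ℕ) (r : ℕ → Perm F) (P : F → ℕ → Prop) : Prop where
  big : 20 ≤ n
  leg : Lg r 1 (n - 1) 3 (n - 3) P
  eqv : ∀ x y i, P x i → Eqv r x y → P y i
  z0 : ∀ x i, P x i → P (r 0 x) i
  z1 : ∀ x i, P x i → P (r (n - 1) x) i

/-- a good lower end -/
def Gd (r : ℕ → Perm F) (P : F → ℕ → Prop) (x : F) : Prop :=
  ∀ z, Rch r (Ico 0 3) x z → ¬ Wl r z 3 → P z 3

/-- the fold at colour zero -/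
def F0 (r : ℕ → Perm F) (x : F) : Prop := JUN.B2 r x ∧ ¬ Wl r (r 1 (r 0 (r 1 (r 2 x)))) 2

open Classical in
/-- the partner of a lower end -/
noncomputable def Jf (r : ℕ → Perm F) (x : F) : F :=
  if JUN.F1 r x then r 2 (r 1 (r 2 x)) else
    if F0 r x then r 2 (r 1 (r 0 (r 1 (r 2 x)))) else x

/-- the chain below `x` has at least `j` further flags -/
def Wt (r : ℕ → Perm F) (x : F) (j : ℕ) : Prop :=
  j ≤ 3 ∧ (1 ≤ j → ¬ Wl r x 2) ∧ (2 ≤ j → ¬ Wl r (r 2 x) 1 ∧ Wl r (r 1 (r 2 x)) 2) ∧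
    (3 ≤ j → ¬ Wl r (r 1 (r 2 x)) 0 ∧ Wl r (r 1 (r 0 (r 1 (r 2 x)))) 2)

/-- the junctions at the good lower ends -/
structure JN (r : ℕ → Perm F) (P : F → ℕ → Prop) : Prop where
  inv : ∀ x, P x 3 → Gd r P x → P (Jf r x) 3 ∧ Jf r (Jf r x) = x ∧
    (JUN.F1 r (Jf r x) ↔ JUN.F1 r x) ∧ InD r 0 3 x (Jf r x)
  ms : ∀ x, P x 3 → Gd r P x →
    rf r (Jf r x) 1 = rf r x 1 ∧ rf r (r 3 (Jf r x)) 2 = rf r (r 3 x) 2
  f1 : ∀ x, P x 3 → Gd r P x → JUN.F1 r x →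
    Wl r x 0 ∧ Wl r (Jf r x) 0 ∧ rf r (Jf r x) 0 ≠ rf r x 0
  sig : ∀ x, P x 3 → Gd r P x → Eqv r (Jf r (r 0 x)) (r 0 (Jf r x))
  w3 : ∀ x, P x 3 → Gd r P x → ¬ Wl r x 2 → Wl r (r 2 x) 3
  cl : ∀ x j c, P x 3 → Gd r P x → Wt r x j → c < 3 → ∃ x' j',
    (x' = x ∨ x' = Jf r x ∨ x' = r 0 x) ∧ Wt r x' j' ∧
      Eqv r (r c (mov r 3 (3 - j) x)) (mov r 3 (3 - j') x')

/-- bad lower ends -/
def XL (r : ℕ → Perm F) (P : F → ℕ → Prop) (x : F) : Prop := P x 3 ∧ ¬ Gd r P x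

/-- lower ends that are not of standard weight -/
def NL (r : ℕ → Perm F) (P : F → ℕ → Prop) (x : F) : Prop :=
  P x 3 ∧ ¬ (Gd r P x ∧ Wt r x 2 ∧ ¬ Wt r x 3)

/-- the chains below the good lower ends -/
def Chn (r : ℕ → Perm F) (P : F → ℕ → Prop) (y : F) : Prop :=
  ∃ x j, P x 3 ∧ Gd r P x ∧ 1 ≤ j ∧ Wt r x j ∧ Eqv r y (mov r 3 (3 - j) x)

/-- the pure part -/
def Cov (n : ℕ) (r : ℕ → Perm F) (P : F → ℕ → Prop) (y : F) : Prop :=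
  (∃ i, P y i) ∨ Chn r P y ∨ Chn (rev n r) (mP n P) y

/-- the remaining flags -/
def Oth (n : ℕ) (r : ℕ → Perm F) (G : F → ℕ → ℕ → Prop) (P : F → ℕ → Prop) (y : F) : Prop :=
  ¬ InG G y ∧ (∀ c, 18 ≤ c → c + 19 ≤ n → Wl r y c) ∧ ¬ Cov n r P y

/-- the inner walls along the leg with lower end `x` -/
def ML (n : ℕ) (r : ℕ → Perm F) (x : F) : Set (Perm F) :=
  {g | ∃ j, 1 ≤ j ∧ j + 3 ≤ n ∧ g = lg r x 3 j}

/-- chains of ends, on flags -/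
inductive ChF (r : ℕ → Perm F) (τ J : F → F) (N : F → Prop) (x : F) : F → Prop
  | base : ChF r τ J N x (τ x)
  | step (z : F) : ChF r τ J N x z → ¬ N z → ¬ Eqv r (J z) x → ¬ Eqv r (J z) (τ x) →
      ChF r τ J N x (τ (J z))

/-- the ends -/
def eT (n : ℕ) (P : F → ℕ → Prop) (x : F) : Prop := P x 3 ∨ P x (n - 3)

open Classical in
/-- the other end of the leg -/
noncomputable def eL (n : ℕ) (r : ℕ → Perm F) (P : F → ℕ → Prop) (x : F) : F :=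
  if P x 3 then mov r 3 (n - 3) x else mov r (n - 3) 3 x

open Classical in
/-- the partner of an end -/
noncomputable def eJ (n : ℕ) (r : ℕ → Perm F) (P : F → ℕ → Prop) (x : F) : F :=
  if P x 3 then (if Gd r P x then Jf r x else x) else
    if Gd (rev n r) (mP n P) x then Jf (rev n r) x else x

/-- the bad ends -/
def eX (n : ℕ) (r : ℕ → Perm F) (P : F → ℕ → Prop) (x : F) : Prop :=
  XL r P x ∨ XL (rev n r) (mP n P) x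

/-- the short folds -/
def eN (n : ℕ) (r : ℕ → Perm F) (P : F → ℕ → Prop) (x : F) : Prop :=
  (P x 3 ∧ Gd r P x ∧ JUN.F1 r x) ∨
    (mP n P x 3 ∧ Gd (rev n r) (mP n P) x ∧ JUN.F1 (rev n r) x)

/-- every closed family of ends contains a bad end -/
def Free (r : ℕ → Perm F) (T X : F → Prop) (τ J : F → F) : Prop :=
  ∀ S : F → Prop, (∃ x, T x ∧ S x) → (∀ x, T x → S x → S (τ x) ∧ S (J x)) →
    (∀ x y, S x → Eqv r x y → S y) → ∃ x, T x ∧ S x ∧ X x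

/-- the abstract system of ends -/
structure EN (r : ℕ → Perm F) (T X N : F → Prop) (τ J : F → F) : Prop where
  eqv : ∀ g ∈ Aut r, ∀ x, T x → T (g x) ∧ τ (g x) = g (τ x) ∧ J (g x) = g (J x) ∧
    (X (g x) ↔ X x) ∧ (N (g x) ↔ N x)
  tau : ∀ x, T x → T (τ x) ∧ τ (τ x) = x ∧ ¬ Eqv r x (τ x)
  inv : ∀ x, T x → T (J x) ∧ J (J x) = x ∧ (N (J x) ↔ N x) ∧ (X x → J x = x)
  free : Free r T X τ J
  chain : ∀ x z, T x → N x → ChF r τ J N x z → ¬ N z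

/-- some flag has two far moving colours -/
def Two2 (n : ℕ) (r : ℕ → Perm F) : Prop :=
  ∃ g c c', 3 ≤ c ∧ c + 2 ≤ c' ∧ c' + 4 ≤ n ∧ ¬ Wl r g c ∧ ¬ Wl r g c'

end Defs

def St_T3 : Prop := ∀ {F L : Type} [Lattice L] [Finite F] {n : ℕ} {r : ℕ → Perm F}
  {φ : ℕ → F → L}, PS n r φ → 110 ≤ n → 27 * nty r < (n - 10) ^ 3 → T3 n r

def St_SG : Prop := ∀ {F L : Type} [Lattice L] [Finite F] {n : ℕ} {r : ℕ → Perm F}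
  {φ : ℕ → F → L}, PS n r φ → ∀ (J : Set ℕ) (O : F → Prop) (lo hi : ℕ), Far J lo hi →
  (∀ c ∈ J, ∀ c' ∈ J, Commute (r c) (r c')) → (∀ x c, O x → lo ≤ c → c < hi → O (r c x)) →
  (∀ x l, O x → lo ≤ l → l + 2 ≤ hi → per r l x = 3) →
  (∀ x c c', O x → lo ≤ c → c + 4 ≤ c' → c' < hi → Hj r J x c ∨ Hj r J x c') → ∀ x, O x →
  (∀ c, lo + 1 ≤ c → c + 4 < hi → ¬ Hj r J x c → Tw r J lo hi x c ∨ Tw r J lo hi x (c + 1)) ∧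
  (∀ i c c', Tw r J lo hi x i → lo + 2 ≤ i → lo ≤ c → c < hi → c ≠ i → c + 1 ≠ i → lo ≤ c' →
    c' < hi → c' ≠ i → c' + 1 ≠ i → Eqv r (r c x) (r c' x)) ∧
  (∀ i, Tw r J lo hi x i → i + 5 ≤ hi → Tw r J lo hi (r i x) (i + 1)) ∧
  (∀ i, Tw r J lo hi x (i + 1) → lo + 1 ≤ i → Tw r J lo hi (r i x) i) ∧
  ∀ c, lo ≤ c → c + 1 < hi → Hj r J x c → Hj r J x (c + 1) → Eqv r (r c x) (r (c + 1) x)

def St_X1 : Prop := ∀ {F L : Type} [Lattice L] [Finite F] {n : ℕ} {r : ℕ → Perm F}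
  {φ : ℕ → F → L}, PS n r φ → ∀ (p q a b : ℕ) (x : F), p + 2 ≤ a → b + 1 ≤ q → q < n →
  a + 49 ≤ b → (∀ y j, Rch r (Ico a b) x y → Sm r p j y ∨ Sm r (j + 2) (q + 1) y) →
  ¬ Sm r (a + 1) (b - 1) x → Eqv r (r p x) (r q x)

def St_XX : Prop := ∀ {F L : Type} [Lattice L] [Finite F] {n : ℕ} {r : ℕ → Perm F}
  {φ : ℕ → F → L}, PS n r φ → 110 ≤ n → T3 n r → ∀ x s t, 1 ≤ s → s < t → t + 8 ≤ n →
  Sm r s (s + 7) x → Sm r t (t + 7) x → Eqv r (r s x) (r t x)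

def St_WALL : Prop := ∀ {F L : Type} [Lattice L] [Finite F] {n : ℕ} {r : ℕ → Perm F}
  {φ : ℕ → F → L}, PS n r φ → 110 ≤ n → T3 n r → WA n r

def St_TOK : Prop := ∀ {F L : Type} [Lattice L] [Finite F] {n : ℕ} {r : ℕ → Perm F}
  {φ : ℕ → F → L}, PS n r φ → WA n r → ∀ a b x0, a + 49 ≤ b → b ≤ n → Dich r a b x0 →
  Lg r (a + 1) (b - 1) (a + 19) (b - 21) (TO r a b x0 (a + 19) (b - 21)) ∧
  ∀ x c, Rch r (Ico a b) x0 x → a + 19 ≤ c → c + 22 ≤ b → ¬ Wl r x c →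
    Tk r a b x c ∨ Tk r a b x (c + 1)

def St_PUSH : Prop := ∀ {F L : Type} [Lattice L] [Finite F] {n : ℕ} {r : ℕ → Perm F}
  {φ : ℕ → F → L}, PS n r φ → ∀ x e f b, 1 ≤ e → e ≤ f → f + 7 ≤ b → b ≤ n → ¬ Wl r x e →
  (∀ c, e < c → c < b → Wl r x c) →
  (Pu r x e f ∨ (¬ Wl r x (e - 1) ∧ Pu r (r (e - 1) x) e f)) ∧
  ∀ x0 g, InD r 0 n x0 x → g ∈ Walls r 0 n x0 → ¬ Commute (rf r x (e + 1)) g →
    g ≠ rf r x (e + 2) → Pu r x e f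

def St_EXT : Prop := ∀ {F L : Type} [Lattice L] [Finite F] {n : ℕ} {r : ℕ → Perm F}
  {φ : ℕ → F → L}, PS n r φ → ∀ (lam mu lo hi a : ℕ) (Q : F → ℕ → Prop), Lg r lam mu lo hi Q →
  1 ≤ lam → mu ≤ n → hi < mu → lo + 2 ≤ hi → lo + 8 ≤ mu → a ≤ lo →
  (lam + 3 ≤ a ∨ (lam = 1 ∧ a = 3 ∧ ∀ x, Q x lo → Q (r 0 x) lo)) →
  (∀ x y, Q x lo → InD r a lo x y → ¬ Wl r y lo → (∀ c, lo < c → c < mu → Wl r y c) → Q y lo) →
  Lg r lam mu a hi fun x i => (lo ≤ i ∧ Q x i) ∨ (a ≤ i ∧ i < lo ∧ Q (mov r i lo x) lo)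

def St_TOK1 : Prop := ∀ {F L : Type} [Lattice L] [Finite F] {n : ℕ} {r : ℕ → Perm F}
  {φ : ℕ → F → L}, PS n r φ → WA n r → ∀ a b x0, a + 49 ≤ b → b ≤ n → Dich r a b x0 →
  Lg r (a + 1) (b - 1) (a + 5) (b - 21) (TO r a b x0 (a + 5) (b - 21)) ∧
  ∀ x c, Rch r (Ico a b) x0 x → a + 5 ≤ c → c + 22 ≤ b → ¬ Wl r x c →
    Tk r a b x c ∨ Tk r a b x (c + 1)

def St_TOKP : Prop := ∀ {F L : Type} [Lattice L] [Finite F] {n : ℕ} {r : ℕ → Perm F}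
  {φ : ℕ → F → L}, PS n r φ → WA n r → ∀ a b x0, a + 49 ≤ b → b ≤ n → Dich r a b x0 →
  Lg r (a + 1) (b - 1) (a + 5) (b - 5) (TO r a b x0 (a + 5) (b - 5)) ∧
  ∀ x c, Rch r (Ico a b) x0 x → a + 5 ≤ c → c + 6 ≤ b → ¬ Wl r x c →
    Tk r a b x c ∨ Tk r a b x (c + 1)

def St_FAR : Prop := ∀ {F L : Type} [Lattice L] [Finite F] {n : ℕ} {r : ℕ → Perm F}
  {φ : ℕ → F → L}, PS n r φ → B8 n r →
  (∀ x c c', ¬ Wl r x c → ¬ Wl r x c' → 5 ≤ c → c + 7 ≤ c' → 50 ≤ c' → c' + 8 ≤ n →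
    ∃ i j, GG n r x i j) ∧
  ∀ x c c', ¬ Wl r x c → ¬ Wl r x c' → 7 ≤ c → c + 7 ≤ c' → c + 51 ≤ n → c' + 6 ≤ n →
    ∃ i j, GG n r x i j

def St_GRID : Prop := ∀ {F L : Type} [Lattice L] [Finite F] {n : ℕ} {r : ℕ → Perm F}
  {φ : ℕ → F → L}, PS n r φ → B8 n r → GS n r (cnt r (Bs n r)) (GG n r)

def St_SW : Prop := ∀ {F L : Type} [Lattice L] [Finite F] {n : ℕ} {r : ℕ → Perm F}
  {φ : ℕ → F → L}, PS n r φ → ∀ A G, GS n r A G → 110 ≤ n → ∀ x i, G x i (i + 1) → 13 ≤ i →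
  i + 14 ≤ n → G (r i x) i (i + 1)

def St_CV : Prop := ∀ {F L : Type} [Lattice L] [Finite F] {n : ℕ} {r : ℕ → Perm F}
  {φ : ℕ → F → L}, PS n r φ → B8 n r → ∀ A G, GS n r A G → CV n r G

def St_KD : Prop := ∀ {F L : Type} [Lattice L] [Finite F] {n : ℕ} {r : ℕ → Perm F}
  {φ : ℕ → F → L}, PS n r φ → ∀ A G, GS n r A G → ∀ x0 g i j (q : ℕ → Perm F), InD r 0 n x0 g →
  G g i j → j + 17 ≤ n → IsPath (Walls r 0 n x0) q (n - 4) → rf r g (n - 3) = q (n - 5) →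
  rf r g (n - 4) = q (n - 6) → ∃ g', Rch r (Ici 2) g g' ∧ Wl r g' 1 ∧ rf r g' 1 = q 1

def St_H0 : Prop := ∀ {F L : Type} [Lattice L] [Finite F] {n : ℕ} {r : ℕ → Perm F}
  {φ : ℕ → F → L}, PS n r φ → ∀ A G, GS n r A G → CV n r G → 110 ≤ n →
  Lg r 1 (n - 1) 18 (n - 18) (Q0 n r G) ∧ (∀ x, Q0 n r G x 18 → Q0 n r G (r 0 x) 18) ∧
  ∀ x y, Q0 n r G x 18 → InD r 3 18 x y → ¬ Wl r y 18 → (∀ c, 18 < c → c < n - 1 → Wl r y c) →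
    Q0 n r G y 18

def St_PLEG : Prop := ∀ {F L : Type} [Lattice L] [Finite F] {n : ℕ} {r : ℕ → Perm F}
  {φ : ℕ → F → L}, PS n r φ → ∀ A G, GS n r A G → CV n r G → 110 ≤ n →
  ∃ P, RH n r P ∧ ∀ x, Q0 n r G x 18 → P x 18

def St_JA : Prop := ∀ {F L : Type} [Lattice L] [Finite F] {n : ℕ} {r : ℕ → Perm F}
  {φ : ℕ → F → L}, PS n r φ → ∀ P, RH n r P → ∀ x, P x 3 → Gd r P x → Wl r x 0 →
  (∀ z, InD r 0 3 x z → P z 3 →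
    Wl r z 0 ∧ rf r z 1 = rf r x 1 ∧ rf r (r 3 z) 2 = rf r (r 3 x) 2) ∧
  (¬ Wl r x 2 → Wl r (r 2 x) 3) ∧ (JUN.F1 r x → P (r 2 (r 1 (r 2 x))) 3) ∧
  (JUN.B2 r x → (Wl r (r 0 (r 1 (r 2 x))) 1 ↔ Wl r (r 1 (r 0 (r 1 (r 2 x)))) 2)) ∧
  (F0 r x → P (r 2 (r 1 (r 0 (r 1 (r 2 x))))) 3)

def St_JB0 : Prop := ∀ {F L : Type} [Lattice L] [Finite F] {n : ℕ} {r : ℕ → Perm F}
  {φ : ℕ → F → L}, PS n r φ → ∀ P, RH n r P → ∀ x, P x 3 → Gd r P x → ¬ Wl r x 0 →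
  Commute (rf r x 1) (rf r (r 0 x) 1) ∧ rf r (r 2 x) 3 = rf r (r 3 x) 2 ∧
  ∀ z, Rch r (Ico 0 3) x z →
    (¬ Wl r z 3 → ¬ Wl r z 0 ∧ ¬ Wl r z 2 ∧ Wl r (r 2 z) 3 ∧
      ((rf r z 1 = rf r x 1 ∧ rf r (r 0 z) 1 = rf r (r 0 x) 1) ∨
        (rf r z 1 = rf r (r 0 x) 1 ∧ rf r (r 0 z) 1 = rf r x 1))) ∧
    (Wl r z 3 → ¬ Wl r z 2 → ¬ Wl r (r 2 z) 3) ∧
    (Wl r z 3 → Wl r z 2 → rf r z 2 = rf r x 1 ∨ rf r z 2 = rf r (r 0 x) 1)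

def St_JB : Prop := ∀ {F L : Type} [Lattice L] [Finite F] {n : ℕ} {r : ℕ → Perm F}
  {φ : ℕ → F → L}, PS n r φ → DI n r φ → ∀ P, RH n r P → ∀ x, P x 3 → Gd r P x → ¬ Wl r x 0 →
  Wt r x 2 ∧ Wl r (r 2 x) 3 ∧ rf r (r 2 x) 3 = rf r (r 3 x) 2 ∧
  rf r (r 1 (r 2 x)) 2 = rf r x 1 ∧
  ((per r 0 (r 2 x) = 3 ∧ Wl r (r 1 (r 0 (r 1 (r 2 x)))) 2) ∨
    (per r 0 (r 2 x) = 4 ∧ ¬ Wl r (r 1 (r 0 (r 1 (r 2 x)))) 2 ∧
      P (r 2 (r 1 (r 0 (r 1 (r 2 x))))) 3 ∧ ¬ Wl r (r 2 (r 1 (r 0 (r 1 (r 2 x))))) 0))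

def St_JC : Prop := ∀ {F L : Type} [Lattice L] [Finite F] {n : ℕ} {r : ℕ → Perm F}
  {φ : ℕ → F → L}, PS n r φ → DI n r φ → ∀ P, RH n r P → JN r P

def St_MB : Prop := ∀ {F L : Type} [Lattice L] [Finite F] {n : ℕ} {r : ℕ → Perm F}
  {φ : ℕ → F → L}, PS n r φ → DI n r φ → ∀ P, RH n r P → ∀ z,
  cnt r (fun x => Rch r (Ico 0 3) z x ∧ P x 3) ≤ 4

def St_DIH2 : Prop := ∀ (E : Type) [Finite E] (τ J : E → E) (X N : E → Prop),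
  (∀ e, τ (τ e) = e) → (∀ e, J (J e) = e) → (∀ e, τ e ≠ e) → (∀ e, X e → J e = e) →
  (∀ e, N (J e) ↔ N e) → (∀ e f, N e → Ch τ J N e f → ¬ N f) →
  (∀ S : E → Prop, (∃ e, S e) → (∀ e, S e → S (τ e) ∧ S (J e)) → ∃ e, S e ∧ X e) →
  {e | J e = e ∨ N e}.ncard ≤ 4 * {e | X e}.ncard

def St_EC : Prop := ∀ {F : Type} [Finite F] {r : ℕ → Perm F} (T X N : F → Prop) (τ J : F → F),
  EN r T X N τ J → cnt r (fun x => T x ∧ (J x = x ∨ N x)) ≤ 4 * cnt r fun x => T x ∧ X x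

def St_FREE : Prop := ∀ {F L : Type} [Lattice L] [Finite F] {n : ℕ} {r : ℕ → Perm F}
  {φ : ℕ → F → L}, PS n r φ → ∀ P, RH n r P → JN r P → JN (rev n r) (mP n P) → Two2 n r →
  Free r (eT n P) (eX n r P) (eL n r P) (eJ n r P)

def St_LEGP : Prop := ∀ {F L : Type} [Lattice L] [Finite F] {n : ℕ} {r : ℕ → Perm F}
  {φ : ℕ → F → L}, PS n r φ → ∀ P, RH n r P → ∀ x, P x 3 →
  ML n (rev n r) (mov r 3 (n - 3) x) = ML n r x ∧ ML n r x ⊆ SB n r 4 (r 3 x) ∧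
  (JN r P → Gd r P x → ML n r (Jf r x) = ML n r x ∧ (JUN.F1 r x → Wl r x (n - 1) ∧
    ∀ x0 (q : ℕ → Perm F) m, IsPath (Walls r 0 n x0) q m → (∀ g ∈ ML n r x, ∃ k ≤ m, g = q k) →
      (∀ k ≤ m, rf r x 0 ≠ q k) ∨ ∀ k ≤ m, rf r (Jf r x) 0 ≠ q k))

def St_CHAIN : Prop := ∀ {F L : Type} [Lattice L] [Finite F] {n : ℕ} {r : ℕ → Perm F}
  {φ : ℕ → F → L}, PS n r φ → ∀ P, RH n r P → JN r P → JN (rev n r) (mP n P) → ∀ x z,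
  eT n P x → eN n r P x → ChF r (eL n r P) (eJ n r P) (eN n r P) x z → ¬ eN n r P z

def St_NS : Prop := ∀ {F L : Type} [Lattice L] [Finite F] {n : ℕ} {r : ℕ → Perm F}
  {φ : ℕ → F → L}, PS n r φ → ∀ P, RH n r P → JN r P → JN (rev n r) (mP n P) → Two2 n r →
  cnt r (NL r P) + cnt r (NL (rev n r) (mP n P)) ≤
    4 * (cnt r (XL r P) + cnt r (XL (rev n r) (mP n P)))

def St_NP : Prop := ∀ {F L : Type} [Lattice L] [Finite F] {n : ℕ} {r : ℕ → Perm F}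
  {φ : ℕ → F → L}, PS n r φ → ∀ A G, GS n r A G → CV n r G → 110 ≤ n →
  cnt r (fun x => T1 n r G x 18 ∧ ¬ Q0 n r G x 18) ≤ 20 * A

def St_XC : Prop := ∀ {F L : Type} [Lattice L] [Finite F] {n : ℕ} {r : ℕ → Perm F}
  {φ : ℕ → F → L}, PS n r φ → DI n r φ → ∀ A G P, GS n r A G → CV n r G → 110 ≤ n → RH n r P →
  cnt r (fun x => T1 n r G x 18 ∧ ¬ P x 18) ≤ 20 * A → cnt r (XL r P) ≤ 132 * A

def St_O1 : Prop := ∀ {F L : Type} [Lattice L] [Finite F] {n : ℕ} {r : ℕ → Perm F}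
  {φ : ℕ → F → L}, PS n r φ → ∀ A G P, GS n r A G → CV n r G → 110 ≤ n → RH n r P → JN r P →
  cnt r (fun x => T1 n r G x 18 ∧ ¬ P x 18) ≤ 20 * A → ∀ E ≤ 17,
  cnt r (fun y => Oth n r G P y ∧ ∃ e, 1 ≤ e ∧ e ≤ E ∧ ¬ Wl r y e ∧
    ∀ c, e < c → c < 18 → Wl r y c) ≤ 92 * E * A + 3 * cnt r (XL r P)

def St_OT : Prop := ∀ {F L : Type} [Lattice L] [Finite F] {n : ℕ} {r : ℕ → Perm F}
  {φ : ℕ → F → L}, PS n r φ → ∀ A G P, GS n r A G → CV n r G → 110 ≤ n → RH n r P → JN r P →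
  JN (rev n r) (mP n P) → cnt r (fun x => T1 n r G x 18 ∧ ¬ P x 18) ≤ 20 * A →
  cnt r (fun x => T1 n r G x (n - 18) ∧ ¬ P x (n - 18)) ≤ 20 * A → (∃ g, InG G g) →
  cnt r (Oth n r G P) ≤ 3680 * A + 12 * (cnt r (XL r P) + cnt r (XL (rev n r) (mP n P)))

def St_CC : Prop := ∀ {F L : Type} [Lattice L] [Finite F] {n : ℕ} {r : ℕ → Perm F}
  {φ : ℕ → F → L}, PS n r φ → ∀ P, RH n r P → JN r P → JN (rev n r) (mP n P) →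
  ∃ s, s * (n - 1) ≤ cnt r (Cov n r P) + 2 * (cnt r (NL r P) + cnt r (NL (rev n r) (mP n P))) ∧
    cnt r (Cov n r P) ≤ s * (n - 1) + (cnt r (NL r P) + cnt r (NL (rev n r) (mP n P)))

def St_PART : Prop := ∀ {F L : Type} [Lattice L] [Finite F] {n : ℕ} {r : ℕ → Perm F}
  {φ : ℕ → F → L}, PS n r φ → ∀ A G P, GS n r A G → CV n r G → 110 ≤ n → RH n r P → JN r P →
  JN (rev n r) (mP n P) →
  cnt r (fun x => T1 n r G x (n - 18) ∧ ¬ P x (n - 18)) =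
    cnt r (fun x => T1 n r G x 18 ∧ ¬ P x 18) ∧
  2 * nty r + 12 * A = (n - 1) * (n - 18) * A + 2 * ((n - 35) *
    cnt r (fun x => T1 n r G x 18 ∧ ¬ P x 18) + cnt r (Cov n r P) + cnt r (Oth n r G P))

end Pool.Agent.FlagOrb.R
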