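import Pool.Agent.Lib.MP_7157e1_co.RKitC

/-! Cubic range: the number of types in the pure part. -/

namespace Pool.Agent.FlagOrb.R

open Equiv Set Q

namespace CC

variable {F L : Type} [Lattice L] {n : ℕ} {r : ℕ → Perm F} {φ : ℕ → F → L} {P : F → ℕ → Prop}

lemma chn_eqv {x y : F} (k : Chn r P x) (e : Eqv r x y) : Chn r P y :=
  let ⟨z, j, a, b, c, d, q⟩ := k
  ⟨z, j, a, b, c, d, e.symm.trans q⟩

lemma cov_eqv (h : PS n r φ) (H : RH n r P) {x y : F} (k : Cov n r P x) (e : Eqv r x y) :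
    Cov n r P y := by
  rcases k with ⟨i, k⟩ | k | k
  · exact Or.inl ⟨i, H.eqv _ _ _ k e⟩
  · exact Or.inr (Or.inl (chn_eqv k e))
  · exact Or.inr (Or.inr (chn_eqv k (h.eqv_rev.2 e)))

/-- chain flags have walls on `[3, n - 2]` -/
lemma chn_wl (h : PS n r φ) (H : RH n r P) (J : JN r P) {y : F} (k : Chn r P y) {c : ℕ}
    (c1 : 3 ≤ c) (c2 : c + 2 ≤ n) : Wl r y c := by
  obtain ⟨x, j, p, g, j1, w, e⟩ := k
  refine Wl.eqv ?_ e.symm
  have j3 := w.1
  have a : Wl r (r 2 x) c := by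
    rcases eq_or_lt_of_le c1 with rfl | c3
    · exact J.w3 x p g (w.2.1 j1)
    · exact (h.wl_far (by omega) (by omega)).2 (H.leg.wl x 3 c p (by omega) (by omega) (by omega)
        (by omega))
  have := (h.wl_mov (i := 2) (j := 3 - j) (c := c) (Or.inr ⟨by omega, by omega⟩) (r 2 x)).2 a
  rwa [h.mov_from' 2] at this

/-- the mirror image -/
lemma chn_wl' (h : PS n r φ) (H : RH n r P) (J : JN (rev n r) (mP n P)) {y : F}
    (k : Chn (rev n r) (mP n P) y) {c : ℕ} (c1 : 1 ≤ c) (c2 : c + 4 ≤ n) : Wl r y c := by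
  have := chn_wl h.mirror (h.RH_rev H) J k (c := n - 1 - c) (by omega) (by omega)
  rwa [h.wl_rev (by omega), show n - 1 - (n - 1 - c) = c by omega] at this

/-- leg flags have a moving colour in `[3, n - 4]` -/
lemma leg_mv (H : RH n r P) {y : F} {i : ℕ} (k : P y i) :
    ∃ c, 3 ≤ c ∧ c + 4 ≤ n ∧ ¬ Wl r y c := by
  have := H.big
  obtain ⟨i1, i2⟩ := H.leg.rng y i k
  rcases eq_or_lt_of_le i2 with e | e
  · obtain ⟨d, rfl⟩ : ∃ d, i = d + 1 := ⟨i - 1, by omega⟩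
    exact ⟨d, by omega, by omega, H.leg.mv' y d k (by omega)⟩
  · exact ⟨i, i1, by omega, H.leg.mv y i k e⟩

/-- the chain flags at depth `j` -/
def Cj (r : ℕ → Perm F) (P : F → ℕ → Prop) (j : ℕ) (y : F) : Prop :=
  ∃ x, P x 3 ∧ Gd r P x ∧ Wt r x j ∧ Eqv r y (mov r 3 (3 - j) x)

variable [Finite F]

lemma cj_cnt (H : RH n r P) (j : ℕ) :
    cnt r (fun x => P x 3 ∧ Gd r P x ∧ Wt r x j) = cnt r (Cj r P j) :=
  cnt_word (mov_univ 3 (3 - j)) fun x => ⟨fun k => ⟨x, k.1, k.2.1, k.2.2, Eqv.refl _⟩,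
    fun ⟨z, a, b, c, e⟩ => by
      have e' := eqv_mov e.symm (3 - j) 3
      rw [mov_back, mov_back] at e'
      exact ⟨H.eqv _ _ _ a e', H.gd_eqv b e', (Wt_eqv e' j).1 c⟩⟩

lemma side (h : PS n r φ) (H : RH n r P) :
    cnt r (Chn r P) ≤ 2 * cnt r (fun x => P x 3) + cnt r (NL r P) ∧
    ∃ C : F → Prop, (∀ y, C y → Chn r P y ∧ (¬ Wl r y 1 ∨ ¬ Wl r y 2)) ∧
      2 * cnt r (fun x => P x 3) ≤ cnt r C + 2 * cnt r (NL r P) := by
  have le : ∀ j, cnt r (Cj r P j) ≤ cnt r fun x => P x 3 := fun j =>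
    cj_cnt H j ▸ cnt_mono fun _ k => k.1
  have ge : ∀ j ≤ 2, cnt r (fun x => P x 3) ≤ cnt r (Cj r P j) + cnt r (NL r P) := fun j hj => by
    rw [← cj_cnt H j]
    refine le_trans (cnt_mono fun x p => ?_) cnt_or_le
    by_cases k : NL r P x
    · exact Or.inr k
    · have k' : Gd r P x ∧ Wt r x 2 ∧ ¬ Wt r x 3 := by
        by_contra q
        exact k ⟨p, q⟩
      exact Or.inl ⟨p, k'.1, by omega, fun _ => k'.2.1.2.1 (by omega),
        fun _ => k'.2.1.2.2.1 le_rfl, fun q => by omega⟩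
  have l3 : cnt r (Cj r P 3) ≤ cnt r (NL r P) :=
    cj_cnt H 3 ▸ cnt_mono fun _ k => ⟨k.1, fun q => q.2.2 k.2.2⟩
  refine ⟨?_, fun y => Cj r P 1 y ∨ Cj r P 2 y, ?_, ?_⟩
  · have : cnt r (Chn r P) ≤ cnt r fun y => Cj r P 1 y ∨ Cj r P 2 y ∨ Cj r P 3 y :=
      cnt_mono fun y ⟨x, j, a, b, c, d, e⟩ => by
        have := d.1
        interval_cases j
        exacts [Or.inl ⟨x, a, b, d, e⟩, Or.inr (Or.inl ⟨x, a, b, d, e⟩),
          Or.inr (Or.inr ⟨x, a, b, d, e⟩)]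
    have a1 := cnt_or_le (r := r) (S := Cj r P 1) (T := fun y => Cj r P 2 y ∨ Cj r P 3 y)
    have a2 := cnt_or_le (r := r) (S := Cj r P 2) (T := Cj r P 3)
    have := le 1
    have := le 2
    omega
  · rintro y (⟨x, a, b, d, e⟩ | ⟨x, a, b, d, e⟩)
    · refine ⟨⟨x, 1, a, b, le_rfl, d, e⟩, Or.inr fun w => d.2.1 le_rfl ?_⟩
      rw [h.mov31] at e
      exact h.wl_step.1 (w.eqv e)
    · refine ⟨⟨x, 2, a, b, by omega, d, e⟩, Or.inl fun w => (d.2.2.1 le_rfl).1 ?_⟩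
      rw [h.mov32] at e
      exact h.wl_step.1 (w.eqv e)
  · rw [cnt_or_eq]
    · have := ge 1 (by omega)
      have := ge 2 le_rfl
      omega
    · rintro y z ⟨x, -, -, d, e⟩ ⟨x', -, -, d', e'⟩ q
      rw [h.mov31] at e
      rw [h.mov32] at e'
      exact d.2.1 le_rfl (h.wl_step.1 ((d'.2.2.1 le_rfl).2.eqv (e'.symm.trans (q.symm.trans e))))

lemma legs (h : PS n r φ) (H : RH n r P) :
    cnt r (fun y => ∃ i, P y i) = (n - 5) * cnt r fun x => P x 3 := by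
  have := H.big
  rw [cnt_congr (T := fun y => ∃ i ∈ Finset.Icc 3 (n - 3), P y i) fun y =>
    ⟨fun ⟨i, k⟩ => ⟨i, Finset.mem_Icc.2 (H.leg.rng y i k), k⟩, fun ⟨i, _, k⟩ => ⟨i, k⟩⟩,
    cnt_ex_eq _ (fun i y => P y i) fun i _ j _ x y a b e =>
      H.leg.uniq (H.eqv _ _ _ a e) b (by omega) (by omega) (by omega),
    Finset.sum_congr rfl (g := fun _ => cnt r fun x => P x 3) fun i hi => cnt_word (mov_univ i 3)
      fun x => (h.lg_iff H.leg (Finset.mem_Icc.1 hi).1 (Finset.mem_Icc.1 hi).2 le_rfl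
        (by omega)).symm]
  simp only [Finset.sum_const, Nat.card_Icc, smul_eq_mul]
  rw [show n - 3 + 1 - 3 = n - 5 by omega]

end CC

open CC in
theorem stCC : St_CC := by
  intro F L _ _ n r φ h P H J J'
  have hn := H.big
  obtain ⟨u1, C, c1, l1⟩ := side h H
  obtain ⟨u2, C', c2, l2⟩ := side h.mirror (h.RH_rev H)
  have e : cnt r (fun x => mP n P x 3) = cnt r fun x => P x 3 :=
    cnt_word (mov_univ (n - 3) 3) fun x => ⟨fun k => (h.lg_iff H.leg (by omega) le_rfl le_rfl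
      (by omega)).2 k.2, fun k => ⟨by omega, (h.lg_iff H.leg (by omega) le_rfl le_rfl
        (by omega)).1 k⟩⟩
  simp only [h.cnt_rev] at u2 l2
  rw [e] at u2 l2
  have lg := legs h H
  refine ⟨cnt r fun x => P x 3, ?_, ?_⟩
  · have : cnt r (fun y => (∃ i, P y i) ∨ C y ∨ C' y) ≤ cnt r (Cov n r P) :=
      cnt_mono fun y k => k.imp id fun k => k.imp (fun k => (c1 y k).1) fun k => (c2 y k).1
    rw [cnt_or_eq, cnt_or_eq, lg] at this
    · obtain ⟨m, rfl⟩ : ∃ m, n = m + 5 := ⟨n - 5, by omega⟩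
      rw [show m + 5 - 1 = m + 4 by omega]
      rw [show m + 5 - 5 = m by omega] at this
      nlinarith
    · intro x y a b q
      have w := fun c c3 c4 => (chn_wl' h H J' (c2 y b).1 (c := c) c3 c4).eqv q.symm
      rcases (c1 x a).2 with k | k
      exacts [k (w 1 le_rfl (by omega)), k (w 2 (by omega) (by omega))]
    · rintro x y ⟨i, a⟩ b q
      obtain ⟨c, d1, d2, d3⟩ := leg_mv H a
      rcases b with b | b
      · exact d3 ((chn_wl h H J (c1 y b).1 d1 (by omega)).eqv q.symm)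
      · exact d3 ((chn_wl' h H J' (c2 y b).1 (by omega) d2).eqv q.symm)
  · have a1 := cnt_or_le (r := r) (S := fun y => ∃ i, P y i)
      (T := fun y => Chn r P y ∨ Chn (rev n r) (mP n P) y)
    have a2 := cnt_or_le (r := r) (S := Chn r P) (T := Chn (rev n r) (mP n P))
    rw [lg] at a1
    change cnt r (Cov n r P) ≤ _ at a1
    obtain ⟨m, rfl⟩ : ∃ m, n = m + 5 := ⟨n - 5, by omega⟩
    rw [show m + 5 - 1 = m + 4 by omega]
    rw [show m + 5 - 5 = m by omega] at a1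
    nlinarith

end Pool.Agent.FlagOrb.R
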