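import Pool.Agent.Lib.MP_7157e1_co.RKitC
import Pool.Agent.Lib.MP_7157e1_co.Q_PP
import Pool.Agent.Lib.MP_7157e1_co.Q_PAR

/-! A chain that starts at a short fold does not end at a short fold. -/

namespace Pool.Agent.FlagOrb.R

open Equiv Set Q

namespace CHAIN

variable {F L : Type} [Lattice L] [Finite F] {n : ℕ} {r : ℕ → Perm F} {φ : ℕ → F → L}
  {P : F → ℕ → Prop}

/-- The invariant along the chain: `w` is the lower end of the leg of `z`. -/
def Inv (n : ℕ) (r : ℕ → Perm F) (P : F → ℕ → Prop) (B : Set (Perm F)) (u z : F) : Prop :=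
  Av n r 4 u u z ∧ ∃ w, P w 3 ∧ (z = w ∨ z = mov r 3 (n - 3) w) ∧ ML n r w ⊆ B

omit [Finite F] in
lemma av_inD {u y z : F} {a b : ℕ} (hb : b ≤ n) (h4 : b ≤ 4 ∨ 5 ≤ a) (d : InD r a b y z) :
    Av n r 4 u y z := by
  induction d with
  | refl => exact Relation.ReflTransGen.refl
  | tail _ s ih =>
    obtain ⟨c, hc, mv, rfl⟩ := s
    exact ih.tail ⟨c, by have := hc.2; omega, mv,
      fun k => by have := hc.1; have := hc.2; have := k.1; omega, rfl⟩

variable (hL : St_LEGP) (h : PS n r φ) (H : RH n r P) (J : JN r P) (J' : JN (rev n r) (mP n P))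
include h H

omit [Finite F] in
lemma pos {x : F} (p : P x 3) {i : ℕ} (i1 : 3 ≤ i) (i2 : i + 3 ≤ n) : P (mov r 3 i x) i :=
  (h.lg_norm H.leg p i1 (by omega)).1

omit [Finite F] h in
lemma uq {x : F} {i j : ℕ} (p : P x i) (q : P x j) : i = j :=
  H.leg.uniq p q (by omega) (by have := H.big; omega) (by have := H.big; omega)

omit [Finite F] in
lemma ntop {w : F} (p : P w 3) : ¬ P (mov r 3 (n - 3) w) 3 := fun k => by
  have := H.big
  have := uq H k (pos h H p (i := n - 3) (by omega) (by omega))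
  omega

omit [Finite F] in
lemma mtop {w : F} (p : P w 3) : mP n P (mov r 3 (n - 3) w) 3 := by
  have := H.big
  exact ⟨by omega, pos h H p (by omega) (by omega)⟩

omit [Finite F] h H in
lemma eL_lo {w : F} (p : P w 3) : eL n r P w = mov r 3 (n - 3) w := if_pos p

omit [Finite F] in
lemma eL_hi {w : F} (p : P w 3) : eL n r P (mov r 3 (n - 3) w) = w :=
  (if_neg (ntop h H p)).trans (mov_back _ _ _)

omit [Finite F] in
/-- A leg of another type avoids the cut. -/
lemma av_leg {x0 u w : F} (p0 : P x0 3) (hu : u = mov r 3 4 x0 ∨ u = mov r 3 5 x0) (p : P w 3)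
    (ne : ¬ Eqv r w x0) {i : ℕ} (i1 : 3 ≤ i) (i2 : i + 3 ≤ n) :
    Av n r 4 u w (mov r 3 i w) ∧ Av n r 4 u (mov r 3 i w) w := by
  have hn := H.big
  have key : ∀ j, 3 ≤ j → j + 3 ≤ n → ¬ (Eqv r u (mov r 3 j w) ∨ Eqv r (r 4 u) (mov r 3 j w)) := by
    have k0 : ∀ a j, 3 ≤ a → a + 3 ≤ n → 3 ≤ j → j + 3 ≤ n → ¬ Eqv r (mov r 3 a x0) (mov r 3 j w) := by
      intro a j a1 a2 j1 j2 e
      obtain rfl := uq H (H.eqv _ _ _ (pos h H p0 a1 a2) e) (pos h H p j1 j2)
      have := eqv_mov e a 3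
      rw [mov_back, mov_back] at this
      exact ne this.symm
    intro j j1 j2
    rcases hu with rfl | rfl
    · rw [← h.mov_succ]
      exact not_or.2 ⟨k0 _ _ (by omega) (by omega) j1 j2, k0 _ _ (by omega) (by omega) j1 j2⟩
    · rw [← h.mov_pred]
      exact not_or.2 ⟨k0 _ _ (by omega) (by omega) j1 j2, k0 _ _ (by omega) (by omega) j1 j2⟩
  induction i, i1 using Nat.le_induction with
  | base =>
    rw [mov_self]
    exact ⟨Relation.ReflTransGen.refl, Relation.ReflTransGen.refl⟩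
  | succ i i1 ih =>
    obtain ⟨a, b⟩ := ih (by omega)
    exact ⟨a.tail ⟨i, by omega, H.leg.mv _ _ (pos h H p i1 (by omega)) (by omega),
      fun k => key i i1 (by omega) k.2, h.mov_succ _ _ _⟩,
      b.head ⟨i, by omega, H.leg.mv' _ _ (pos h H p (by omega) i2) i1,
      fun k => key (i + 1) (by omega) i2 k.2, h.mov_pred _ _ _⟩⟩

omit [Finite F] in
lemma inv_L {x0 u z : F} {B : Set (Perm F)} (p0 : P x0 3)
    (hu : u = mov r 3 4 x0 ∨ u = mov r 3 5 x0) (I : Inv n r P B u z) (n1 : ¬ Eqv r z x0)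
    (n2 : ¬ Eqv r z (mov r 3 (n - 3) x0)) : Inv n r P B u (eL n r P z) := by
  have hn := H.big
  obtain ⟨a, w, p, rfl | rfl, s⟩ := I
  · rw [eL_lo p]
    exact ⟨a.trans (av_leg h H p0 hu p n1 (by omega) (by omega)).1, z, p, Or.inr rfl, s⟩
  · rw [eL_hi h H p]
    exact ⟨a.trans (av_leg h H p0 hu p (fun e => n2 (eqv_mov e _ _)) (by omega) (by omega)).2, w, p,
      Or.inl rfl, s⟩

include hL J J'

lemma inv_J {u z : F} {B : Set (Perm F)} (I : Inv n r P B u z) : Inv n r P B u (eJ n r P z) := by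
  classical
  have hn := H.big
  obtain ⟨a, w, p, rfl | rfl, s⟩ := I
  · by_cases g : Gd r P z
    · rw [show eJ n r P z = Jf r z from (if_pos p).trans (if_pos g)]
      exact ⟨a.trans (av_inD (by omega) (by omega) (J.inv z p g).2.2.2), _, (J.inv z p g).1,
        Or.inl rfl, by rwa [((hL h P H z p).2.2 J g).1]⟩
    · rw [show eJ n r P z = z from (if_pos p).trans (if_neg g)]
      exact ⟨a, z, p, Or.inl rfl, s⟩
  · by_cases g : Gd (rev n r) (mP n P) (mov r 3 (n - 3) w)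
    · rw [show eJ n r P (mov r 3 (n - 3) w) = Jf (rev n r) (mov r 3 (n - 3) w) from
        (if_neg (ntop h H p)).trans (if_pos g)]
      have m := mtop h H p
      obtain ⟨p', -, -, d⟩ := J'.inv _ m g
      have q : P (mov r (n - 3) 3 (Jf (rev n r) (mov r 3 (n - 3) w))) 3 :=
        (h.lg_norm H.leg p'.2 le_rfl (by omega)).1
      refine ⟨a.trans (av_inD (by omega) (by omega) (h.InD_rev (by omega) d)), _, q,
        Or.inr (mov_back _ _ _).symm, ?_⟩
      rwa [← (hL h P H _ q).1, mov_back, ((hL h.mirror _ (h.RH_rev H) _ m).2.2 J' g).1,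
        (hL h P H _ p).1]
    · rw [show eJ n r P (mov r 3 (n - 3) w) = mov r 3 (n - 3) w from
        (if_neg (ntop h H p)).trans (if_neg g)]
      exact ⟨a, w, p, Or.inr rfl, s⟩

lemma new_of {x0 u z : F} {B : Set (Perm F)} {q : ℕ → Perm F} {m : ℕ}
    (hq : IsPath (Walls r 0 n x0) q m) (hB : ∀ g ∈ B, ∃ k ≤ m, g = q k) (eB : SB n r 4 u = B)
    (I : Inv n r P B u z) (N : eN n r P z) : New n r 4 u := by
  have hn := H.big
  obtain ⟨a, w, p, hz, s⟩ := I
  have fin : ∀ y c, Av n r 4 u u y → c < n → Wl r y c → (∀ k ≤ m, rf r y c ≠ q k) → New n r 4 u :=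
    fun y c ay c1 wy ne => ⟨y, c, ay, c1, wy, fun k => by
      rw [eB] at k
      obtain ⟨j, hj, e⟩ := hB _ k
      exact ne j hj e⟩
  rcases N with ⟨pz, g, f⟩ | ⟨pz, g, f⟩
  · obtain rfl : z = w := hz.resolve_right fun e => ntop h H p (e ▸ pz)
    obtain ⟨w0, w1, -⟩ := J.f1 z pz g f
    rcases (((hL h P H z pz).2.2 J g).2 f).2 x0 q m hq fun g hg => hB g (s hg) with k | k
    · exact fin z 0 a (by omega) w0 k
    · exact fin _ 0 (a.trans (av_inD (by omega) (by omega) (J.inv z pz g).2.2.2)) (by omega) w1 k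
  · obtain rfl : z = mov r 3 (n - 3) w := hz.resolve_left fun e => by
      have := uq H pz.2 (e ▸ p)
      omega
    obtain ⟨w0, w1, -⟩ := J'.f1 _ pz g f
    rw [h.wl_rev (by omega)] at w0 w1
    rw [← (hL h P H w p).1] at s
    rw [← h.walls_rev] at hq
    rcases (((hL h.mirror _ (h.RH_rev H) _ pz).2.2 J' g).2 f).2 x0 q m hq
      fun g hg => hB g (s hg) with k | k
    · rw [h.rf_rev (by omega)] at k
      exact fin _ _ a (by omega) w0 k
    · rw [h.rf_rev (by omega)] at k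
      exact fin _ _ (a.trans (av_inD (by omega) (by omega)
        (h.InD_rev (by omega) (J'.inv _ pz g).2.2.2))) (by omega) w1 k

lemma both {x0 z z' : F} (p : P x0 3) (w0 : Wl r x0 0) (w1 : Wl r x0 (n - 1))
    (I : Inv n r P (SB n r 4 (r 3 x0)) (r 3 x0) z) (N : eN n r P z)
    (I' : Inv n r P (SB n r 4 (r 3 x0)) (r 4 (r 3 x0)) z') (N' : eN n r P z') : False := by
  have hn := H.big
  have p4 := H.leg.up _ 3 p (by omega)
  have p5 := H.leg.up _ 4 p4 (by omega)
  have m4 := H.leg.mv _ 4 p4 (by omega)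
  have m3 := H.leg.mv' _ 3 p4 le_rfl
  have m5 := H.leg.mv _ 5 p5 (by omega)
  have m4' := H.leg.mv' _ 4 p5 (by omega)
  have wl : ∀ c, c < n → c ≠ 3 → c ≠ 4 → Wl r (r 3 x0) c := by
    intro c c1 c2 c3
    by_cases k0 : c = 0
    · rw [k0]
      exact (h.wl_far (by omega) (by omega)).2 w0
    by_cases k1 : c = n - 1
    · rw [k1]
      exact (h.wl_far (by omega) (by omega)).2 w1
    exact H.leg.wl _ 4 c p4 (by omega) (by omega) c3 (by omega)
  have w3 : Wl r (r 4 (r 3 x0)) 3 := H.leg.wl _ 5 3 p5 (by omega) (by omega) (by omega) (by omega)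
  have cut := COC.cut h (i := 4) (by omega) m4 fun c c1 c2 => by
    by_cases k : c = 3
    · exact Or.inr (k ▸ w3)
    · exact Or.inl (wl c c1 k c2)
  have hq := h.lg_path H.leg (a := 3) (l := 0) (m := n) (InD.refl (r 3 x0)) p4 (by omega) (by omega)
    (by omega) (by omega) (by omega) le_rfl (fun c _ c2 => wl c (by omega) (by omega) (by omega))
    fun c c1 c2 => wl c c2 (by omega) (by omega)
  have a4 : ∀ c, c < n → c ≠ 3 → c ≠ 4 →
      ∃ k ≤ n - 2 - 0, rf r (r 3 x0) c = lg r (r 3 x0) (3 + 1) (0 + k) := by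
    intro c c1 c2 c3
    rcases Nat.lt_or_ge c 3 with k | k
    · exact ⟨c, by omega, by rw [Nat.zero_add, lg_lo (by omega)]⟩
    · exact ⟨c - 1, by omega, by rw [Nat.zero_add, lg_hi (by omega), show c - 1 + 1 = c by omega]⟩
  have hB : ∀ g ∈ SB n r 4 (r 3 x0), ∃ k ≤ n - 2 - 0, g = lg r (r 3 x0) (3 + 1) (0 + k) := by
    rintro g ⟨c, c1, ⟨wc, rfl⟩ | ⟨wc, rfl⟩⟩
    · exact a4 c c1 (fun k => m3 (k ▸ wc)) fun k => m4 (k ▸ wc)
    · by_cases k : c = 3
      · exact ⟨3, by omega, by rw [k]; exact (lg_mid (a := 3)).symm⟩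
      have k4 : c ≠ 4 := fun k => m4' (k ▸ wc)
      have k5 : c ≠ 5 := fun k => m5 (k ▸ wc)
      rw [h.rf_step (wl c c1 k k4) k5 (by omega)]
      exact a4 c c1 k k4
  exact stPP stPAR h 4 _ (by omega) m4 cut (new_of hL h H J J' hq hB rfl I N)
    (new_of hL h H J J' hq hB (COC.sb_flip h) I' N')

end CHAIN

open CHAIN in
theorem stCHAIN (hL : St_LEGP) : St_CHAIN := by
  intro F L _ _ n r φ h P H J J' x z _ N c N'
  have hn := H.big
  have base : ∀ x0, P x0 3 → Inv n r P (SB n r 4 (r 3 x0)) (r 3 x0) x0 ∧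
      Inv n r P (SB n r 4 (r 3 x0)) (r 4 (r 3 x0)) (mov r 3 (n - 3) x0) := by
    intro x0 p
    have p4 := H.leg.up _ 3 p (by omega)
    have p5 := H.leg.up _ 4 p4 (by omega)
    have s := (hL h P H x0 p).2.1
    have d4 := (h.lg_norm H.leg p4 (j := 3) le_rfl (by omega)).2
    have d5 := (h.lg_norm H.leg p5 (j := n - 3) (by omega) le_rfl).2
    rw [h.mov_from, mov_self] at d4
    rw [h.mov_from, h.mov_from] at d5
    exact ⟨⟨av_inD (by omega) (by omega) d4, x0, p, Or.inl rfl, s⟩,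
      av_inD (by omega) (by omega) d5, x0, p, Or.inr rfl, s⟩
  rcases id N with ⟨p, g, f⟩ | ⟨p, g, f⟩
  · refine both hL h H J J' p (J.f1 x p g f).1 (((hL h P H x p).2.2 J g).2 f).1 (base x p).1 N ?_ N'
    clear N'
    induction c with
    | base => exact eL_lo p ▸ (base x p).2
    | step z _ _ n1 n2 ih =>
      exact inv_L h H p (Or.inr (by rw [h.mov_succ 3 4, h.mov_up])) (inv_J hL h H J J' ih) n1
        (eL_lo p ▸ n2)
  · have q : P (mov r (n - 3) 3 x) 3 := (h.lg_norm H.leg p.2 le_rfl (by omega)).1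
    have w1 := (J'.f1 x p g f).1
    have w0 := (((hL h.mirror _ (h.RH_rev H) x p).2.2 J' g).2 f).1
    rw [h.wl_rev (by omega)] at w0 w1
    rw [show n - 1 - (n - 1) = 0 by omega] at w0
    obtain ⟨x0, e⟩ : ∃ x0, x0 = mov r (n - 3) 3 x := ⟨_, rfl⟩
    rw [← h.wl_mov (i := n - 3) (j := 3) (by omega), ← e] at w0 w1
    rw [← e] at q
    obtain rfl : x = mov r 3 (n - 3) x0 := by rw [e, mov_back]
    refine both hL h H J J' q w0 w1 ?_ N' (base x0 q).2 N
    clear N'
    induction c with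
    | base =>
      rw [eL_hi h H q]
      exact (base x0 q).1
    | step z _ _ n1 n2 ih =>
      rw [eL_hi h H q] at n2
      exact inv_L h H q (Or.inl (h.mov_up 3 x0).symm) (inv_J hL h H J J' ih) n2 n1

end Pool.Agent.FlagOrb.R
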