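import Pool.Agent.Lib.MP_7157e1_co.RKitC

/-! The flags outside the grid carry at most one token in the central window. -/

namespace Pool.Agent.FlagOrb.R

open Equiv Set Q

theorem stCV (hTOKP : St_TOKP) (hSW : St_SW) : St_CV := by
  intro F L _ _ n r φ h B A G H
  have hn := B.big
  have rc : ∀ x c, InG G x → 13 ≤ c → c + 14 ≤ n → InG G (r c x) := by
    rintro x c ⟨i, j, g⟩ c1 c2
    have rg := H.rng _ _ _ g
    by_cases e1 : i = c + 1
    · exact ⟨_, _, H.d1 _ _ _ (e1 ▸ g) (by omega)⟩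
    by_cases e2 : j = c
    · exact ⟨_, _, H.u2 _ _ _ (e2 ▸ g) (by omega)⟩
    by_cases e3 : i = c
    · subst e3
      by_cases e4 : j = i + 1
      · exact ⟨_, _, hSW h A G H hn x i (e4 ▸ g) c1 c2⟩
      · exact ⟨_, _, H.u1 _ _ _ g (by omega) (by omega)⟩
    by_cases e5 : j = c + 1
    · exact ⟨_, _, H.d2 _ _ _ (e5 ▸ g) (by omega) (by omega)⟩
    · exact H.inG_eqv ⟨_, _, g⟩
        (H.wl _ _ _ _ g (by omega) (by omega) (by omega) (by omega) (by omega) (by omega))
  have ro : ∀ x y, Rch r (Ico 13 (n - 13)) x y → InG G x → InG G y := fun x y k g =>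
    k.ind (fun c _ => h.inv c) g fun z c hc _ q => rc z c q hc.1 (by have := hc.2; omega)
  have di : ∀ x, ¬ InG G x → Dich r 13 (n - 13) x := by
    intro x nx y j k
    by_contra hc
    rw [not_or] at hc
    obtain ⟨z, hz, a1, a2⟩ := h.park (a := 13) (b := n - 13) (s := 14) (t := 50) (by omega)
      (by omega) (by omega) (by omega) hc.1 hc.2
    obtain ⟨c, c1, c2, c3⟩ := mv_of_nsm a1
    obtain ⟨d, d1, d2, d3⟩ := mv_of_nsm a2
    exact nx (ro _ _ (k.trans hz).symm
      (H.far z c d c3 d3 (by omega) (by omega) (by omega) (by omega)))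
  have T := fun x (nx : ¬ InG G x) =>
    hTOKP h B.wa 13 (n - 13) x (by omega) (by omega) (di x nx)
  rw [show n - 13 - 1 = n - 14 by omega, show n - 13 - 5 = n - 18 by omega] at T
  have o : ∀ x i, T1 n r G x i → TO r 13 (n - 13) x (13 + 5) (n - 18) x i := fun x i k =>
    ⟨Rch.refl x, k.2.1, by have := k.2.2.1; omega, k.2.2.2⟩
  have b : ∀ x y i, ¬ InG G x → TO r 13 (n - 13) x (13 + 5) (n - 18) y i → T1 n r G y i :=
    fun x y i nx k => ⟨fun q => nx (ro _ _ k.1.symm q), k.2.1, by have := k.2.2.1; omega, k.2.2.2⟩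
  refine ⟨rc, ⟨fun x i k => (T x k.1).1.rng x i (o x i k),
    fun x i c k => (T x k.1).1.wl x i c (o x i k), fun x i k => (T x k.1).1.mv x i (o x i k),
    fun x i k => (T x k.1).1.mv' x i (o x _ k),
    fun x i k q => b x _ _ k.1 ((T x k.1).1.up x i (o x i k) q),
    fun x i k q => b x _ _ k.1 ((T x k.1).1.dn x i (o x _ k) q),
    fun x i k => (T x k.1).1.str x i (o x i k)⟩, fun x c nx c1 c2 mv => ?_⟩
  exact ((T x nx).2 x c (Rch.refl x) c1 (by omega) mv).imp
    (fun k => ⟨nx, c1, by omega, k⟩) fun k => ⟨nx, by omega, by omega, k⟩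

end Pool.Agent.FlagOrb.R
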