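import Pool.Agent.Lib.MP_7157e1_co.RKitC
import Pool.Agent.Lib.MP_7157e1_co.Q_DIH

/-! Cubic range: two involutions, counting special points orbit by orbit. -/

namespace Pool.Agent.FlagOrb.R

open Set Q

namespace DIH2

variable {E : Type} {τ J : E → E} {N : E → Prop}

/-- the orbit relation -/
def Orb (τ J : E → E) (x y : E) : Prop :=
  Relation.ReflTransGen (fun a b => b = τ a ∨ b = J a) x y

lemma Orb.tau {x y : E} (h : Orb τ J x y) : Orb τ J x (τ y) := h.tail (Or.inl rfl)

lemma Orb.jay {x y : E} (h : Orb τ J x y) : Orb τ J x (J y) := h.tail (Or.inr rfl)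

lemma Orb.symm (hτ : ∀ e, τ (τ e) = e) (hJ : ∀ e, J (J e) = e) {x y : E} (h : Orb τ J x y) :
    Orb τ J y x := by
  induction h with
  | refl => exact Relation.ReflTransGen.refl
  | tail _ k ih =>
    refine Relation.ReflTransGen.head ?_ ih
    rcases k with rfl | rfl
    exacts [Or.inl (hτ _).symm, Or.inr (hJ _).symm]

lemma four [Finite E] (hτ : ∀ e, τ (τ e) = e) (hJ : ∀ e, J (J e) = e) (hne : ∀ e, τ e ≠ e)
    (hN : ∀ e, N (J e) ↔ N e) (hch : ∀ e f, N e → Ch τ J N e f → ¬ N f) {x : E} (hx : J x = x) :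
    {e | Orb τ J x e ∧ (J e = e ∨ N e)}.ncard ≤ 4 := by
  classical
  let τ' : {e // Orb τ J x e} → {e // Orb τ J x e} := fun e => ⟨τ e.1, e.2.tau⟩
  let J' : {e // Orb τ J x e} → {e // Orb τ J x e} := fun e => ⟨J e.1, e.2.jay⟩
  have t1 : ∀ e, τ' (τ' e) = e := fun e => Subtype.ext (hτ e.1)
  have j1 : ∀ e, J' (J' e) = e := fun e => Subtype.ext (hJ e.1)
  have htr : ∀ P : {e // Orb τ J x e} → Prop, (∃ e, P e) → (∀ e, P e → P (τ' e) ∧ P (J' e)) →
      ∀ e, P e := by
    rintro P ⟨e0, h0⟩ hc e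
    have key : ∀ y, Orb τ J e0.1 y → ∃ hy : Orb τ J x y, P ⟨y, hy⟩ := by
      intro y hy
      induction hy with
      | refl => exact ⟨e0.2, h0⟩
      | tail _ k ih =>
        obtain ⟨hy, py⟩ := ih
        rcases k with rfl | rfl
        exacts [⟨hy.tau, (hc _ py).1⟩, ⟨hy.jay, (hc _ py).2⟩]
    exact (key e.1 ((e0.2.symm hτ hJ).trans e.2)).2
  have ch : ∀ e f : {e // Orb τ J x e}, Ch τ' J' (fun e => N e.1) e f → Ch τ J N e.1 f.1 := by
    intro e f k
    induction k with
    | base => exact Ch.base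
    | step f _ a b c ih =>
      exact Ch.step f.1 ih a (fun q => b (Subtype.ext q)) fun q => c (Subtype.ext q)
  have := Fintype.ofFinite {e // Orb τ J x e}
  have p := (DIH.path t1 j1 (fun e q => hne e.1 (congrArg Subtype.val q)) htr
    ⟨x, Relation.ReflTransGen.refl⟩ (Subtype.ext hx)).2
  have b1 : {e | Orb τ J x e ∧ J e = e}.ncard ≤ 2 := by
    rw [← p, ← ncard_coe_finset, ← ncard_image_of_injective _ Subtype.val_injective]
    refine ncard_le_ncard (fun e he => ⟨⟨e, he.1⟩, ?_, rfl⟩) (toFinite _)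
    simpa using Subtype.ext he.2
  have b2 : {e | Orb τ J x e ∧ N e}.ncard ≤ 2 := by
    by_cases k : ∃ e, Orb τ J x e ∧ N e
    · obtain ⟨e, he, ne⟩ := k
      have sub : {e | Orb τ J x e ∧ N e} ⊆ {e, J e} := by
        intro f hf
        rcases DIH.ends (N := fun e => N e.1) t1 j1 htr (fun e => hN e.1)
          (fun e f a b => hch e.1 f.1 a (ch e f b)) ⟨e, he⟩ ne ⟨f, hf.1⟩ hf.2 with q | q
        exacts [Or.inl (congrArg Subtype.val q), Or.inr (congrArg Subtype.val q)]
      have e1 := ncard_le_ncard sub (toFinite _)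
      have e2 := ncard_insert_le e ({J e} : Set E)
      rw [ncard_singleton] at e2
      omega
    · have : {e | Orb τ J x e ∧ N e} = ∅ := eq_empty_of_forall_notMem fun e he => k ⟨e, he⟩
      rw [this, ncard_empty]; omega
  have e : {e | Orb τ J x e ∧ (J e = e ∨ N e)} =
      {e | Orb τ J x e ∧ J e = e} ∪ {e | Orb τ J x e ∧ N e} := by
    ext e; simp only [mem_ofPred_eq, mem_union, and_or_left]
  have := ncard_union_le {e | Orb τ J x e ∧ J e = e} {e | Orb τ J x e ∧ N e}
  rw [e]; omega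

end DIH2

theorem stDIH2 : St_DIH2 := by
  intro E _ τ J X N hτ hJ hne hX hN hch hfree
  classical
  have := Fintype.ofFinite E
  have ex : ∀ e, ∃ x, X x ∧ DIH2.Orb τ J x e := fun e => by
    obtain ⟨x, h1, h2⟩ := hfree (DIH2.Orb τ J e) ⟨e, Relation.ReflTransGen.refl⟩
      fun y hy => ⟨hy.tau, hy.jay⟩
    exact ⟨x, h2, h1.symm hτ hJ⟩
  choose f f1 f2 using ex
  rw [ncard_eq_toFinset_card', ncard_eq_toFinset_card']
  refine Finset.card_le_mul_card_image_of_maps_to (f := f) (fun e _ => by simpa using f1 e) 4 ?_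
  intro x hx
  refine le_trans ?_ (DIH2.four hτ hJ hne hN hch (hX x (by simpa using hx)))
  rw [← ncard_coe_finset]
  refine ncard_le_ncard (fun e he => ?_) (toFinite _)
  simp only [Finset.coe_filter, mem_toFinset, mem_ofPred_eq] at he
  exact ⟨he.2 ▸ f2 e, he.1⟩

end Pool.Agent.FlagOrb.R
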