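import Pool.Agent.Lib.MP_7157e1_co.RKitC
import Pool.Agent.Lib.MP_7157e1_co.Q_CNT

/-! Cubic range: the count of special ends, on types. -/

namespace Pool.Agent.FlagOrb.R

open Equiv Set Q Q.CNT

namespace EC

variable {F : Type} {r : ℕ → Perm F} {T X N : F → Prop} {τ J : F → F}

lemma tr (H : EN r T X N τ J) {x y : F} (hx : T x) (e : Eqv r x y) :
    Eqv r (τ x) (τ y) ∧ Eqv r (J x) (J y) ∧ (X x ↔ X y) ∧ (N x ↔ N y) := by
  obtain ⟨g, hg, rfl⟩ := e
  obtain ⟨-, h1, h2, h3, h4⟩ := H.eqv g hg x hx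
  exact ⟨⟨g, hg, h1.symm⟩, ⟨g, hg, h2.symm⟩, h3.symm, h4.symm⟩

/-- the other end of the leg -/
def tE (H : EN r T X N τ J) : En r T → En r T :=
  Quotient.lift (s := st r T) (fun a => mk r (τ a.1) (H.tau a.1 a.2).1)
    fun a _ e => mk_eq.2 (tr H a.2 e).1

/-- the partner -/
def jE (H : EN r T X N τ J) : En r T → En r T :=
  Quotient.lift (s := st r T) (fun a => mk r (J a.1) (H.inv a.1 a.2).1)
    fun a _ e => mk_eq.2 (tr H a.2 e).2.1

/-- the bad ends -/
def xE (H : EN r T X N τ J) : En r T → Prop :=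
  Quotient.lift (s := st r T) (fun a => X a.1) fun a _ e => propext (tr H a.2 e).2.2.1

/-- the short folds -/
def nE (H : EN r T X N τ J) : En r T → Prop :=
  Quotient.lift (s := st r T) (fun a => N a.1) fun a _ e => propext (tr H a.2 e).2.2.2

/-- the type of an end -/
def ty (r : ℕ → Perm F) (T : F → Prop) : En r T → Quotient (tySetoid r) :=
  Quotient.lift (s := st r T) (fun a => Quotient.mk (tySetoid r) a.1)
    fun _ _ e => Quotient.sound e

lemma ty_inj : Function.Injective (ty r T) := by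
  intro e f q
  obtain ⟨x, hx, rfl⟩ := ex_mk e
  obtain ⟨y, hy, rfl⟩ := ex_mk f
  exact mk_eq.2 (Quotient.exact q)

lemma lift (H : EN r T X N τ J) {x : F} (hx : T x) {f : En r T}
    (k : Ch (tE H) (jE H) (nE H) (mk r x hx) f) :
    ∃ z hz, mk r z hz = f ∧ ChF r τ J N x z := by
  induction k with
  | base => exact ⟨τ x, (H.tau x hx).1, rfl, ChF.base⟩
  | step f _ a b c ih =>
    obtain ⟨z, hz, rfl, k⟩ := ih
    exact ⟨τ (J z), (H.tau _ (H.inv z hz).1).1, rfl,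
      ChF.step z k a (fun q => b (mk_eq.2 q)) fun q => c (mk_eq.2 q)⟩

end EC

theorem stEC (hDIH2 : St_DIH2) : St_EC := by
  intro F _ r T X N τ J H
  have := fin_en (r := r) (T := T)
  have key := hDIH2 (En r T) (EC.tE H) (EC.jE H) (EC.xE H) (EC.nE H)
    (fun e => by
      obtain ⟨x, hx, rfl⟩ := ex_mk e
      exact mk_eq.2 (by rw [(H.tau x hx).2.1]; exact Eqv.refl x))
    (fun e => by
      obtain ⟨x, hx, rfl⟩ := ex_mk e
      exact mk_eq.2 (by rw [(H.inv x hx).2.1]; exact Eqv.refl x))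
    (fun e => by
      obtain ⟨x, hx, rfl⟩ := ex_mk e
      exact fun q => (H.tau x hx).2.2 (mk_eq.1 q).symm)
    (fun e => by
      obtain ⟨x, hx, rfl⟩ := ex_mk e
      exact fun q => mk_eq.2 (by rw [(H.inv x hx).2.2.2 q]; exact Eqv.refl x))
    (fun e => by
      obtain ⟨x, hx, rfl⟩ := ex_mk e
      exact (H.inv x hx).2.2.1)
    (fun e f => by
      obtain ⟨x, hx, rfl⟩ := ex_mk e
      intro ne k
      obtain ⟨z, hz, rfl, k'⟩ := EC.lift H hx k
      exact H.chain x z hx ne k')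
    (fun S hS hc => by
      obtain ⟨e, he⟩ := hS
      obtain ⟨x, hx, rfl⟩ := ex_mk e
      obtain ⟨y, hy, ⟨hy', sy⟩, xy⟩ := H.free (fun y => ∃ hy : T y, S (mk r y hy))
        ⟨x, hx, hx, he⟩
        (fun y hy s => ⟨⟨(H.tau y hy).1, (hc _ s.2).1⟩, ⟨(H.inv y hy).1, (hc _ s.2).2⟩⟩)
        (fun y z s q => by
          obtain ⟨hy, s⟩ := s
          obtain ⟨g, hg, rfl⟩ := q
          have hz := (H.eqv g hg y hy).1
          exact ⟨hz, (mk_eq.2 ⟨g, hg, rfl⟩ : mk r y hy = mk r (g y) hz) ▸ s⟩)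
      exact ⟨_, sy, xy⟩)
  have b1 : cnt r (fun x => T x ∧ (J x = x ∨ N x)) ≤ {e | EC.jE H e = e ∨ EC.nE H e}.ncard := by
    rw [← ncard_image_of_injective _ EC.ty_inj]
    refine ncard_le_ncard ?_ (toFinite _)
    rintro _ ⟨x, ⟨hx, k⟩, rfl⟩
    refine ⟨mk r x hx, k.imp (fun q => mk_eq.2 ?_) id, rfl⟩
    rw [q]; exact Eqv.refl x
  have b2 : {e | EC.xE H e}.ncard ≤ cnt r fun x => T x ∧ X x := by
    rw [← ncard_image_of_injective _ EC.ty_inj]
    have : Finite (Quotient (tySetoid r)) := Quotient.finite _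
    refine ncard_le_ncard ?_ (toFinite _)
    rintro _ ⟨e, k, rfl⟩
    obtain ⟨x, hx, rfl⟩ := ex_mk e
    exact ⟨x, ⟨hx, k⟩, rfl⟩
  omega

end Pool.Agent.FlagOrb.R
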