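import Pool.Agent.Lib.MP_7157e1_co.RKitC

/-! Cubic range: a family of legs extends downwards. -/

namespace Pool.Agent.FlagOrb.R

open Equiv Set Q

namespace EXT

variable {F L : Type} [Lattice L] [Finite F] {n : ℕ} {r : ℕ → Perm F} {φ : ℕ → F → L}
  (h : PS n r φ) {lam mu hi : ℕ} {Q : F → ℕ → Prop}
include h

/-- a leg does not end -/
lemma term {k : ℕ} (H : Lg r lam mu (k + 1) hi Q) (h1 : mu ≤ n) (h2 : hi < mu) (h3 : k + 3 ≤ hi)
    (h4 : k + 9 ≤ mu) (hz : lam + 3 ≤ k ∨ (lam = 1 ∧ k = 3 ∧ ∀ x, Q x 4 → Q (r 0 x) 4)) {x : F}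
    (hp : Q x (k + 1)) : ¬ Wl r x k := by
  classical
  intro hw
  obtain ⟨C, hC⟩ := (h.wall (a := 0) (b := n) le_rfl x).1.exC
  have lk : lam + 2 ≤ k ∧ 3 ≤ k := by omega
  have m0 : InD r 0 n x x := InD.refl x
  have mv : ¬ Wl r x (k + 1) := H.mv _ _ hp (by omega)
  have m1 : InD r 0 n x (r (k + 1) x) := m0.next ⟨by omega, by omega⟩ mv
  have wz : Wl r (r (k + 1) x) k :=
    H.wl _ _ _ (H.up x _ hp (by omega)) (by omega) (by omega) (by omega) (by omega)
  have tz : rf r x k ≠ rf r (r (k + 1) x) k := h.rf_step_ne hw wz (Or.inl ⟨rfl, by omega⟩)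
  have tm : rf r x k ∈ Walls r 0 n x := wall_mem m0 ⟨by omega, by omega⟩ hw
  by_cases c0 : lam + 3 ≤ k ∨ Wl r x 0
  · obtain ⟨e, rfl⟩ : ∃ e, k = e + 3 := ⟨k - 3, by omega⟩
    have hq := (h.lg_path H m0 hp (l := e) (m := mu) (by omega) (by omega) h3 h2.le (by omega) h1
      (fun c c1 c2 => by
        rcases c0 with c0 | c0
        · omega
        · obtain rfl : c = 0 := by omega
          exact c0)
      (fun c c1 c2 => by omega)).le (m' := 7) (by omega)
    have w1 : Wl r x (e + 1) := H.wl _ _ _ hp (by omega) (by omega) (by omega) (by omega)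
    have w2 : Wl r x (e + 2) := H.wl _ _ _ hp (by omega) (by omega) (by omega) (by omega)
    have ad : ¬ Commute (lg r x (e + 3 + 1) (e + 2)) (rf r x (e + 3)) := by
      rw [lg_lo (by omega)]
      exact h.rf_adj w2 hw (by omega)
    rcases hC.star5 hq tm ad with k | k
    · rw [lg_lo (by omega)] at k
      exact h.rf_ne hw w1 (by omega) (by omega) k
    · rw [lg_mid] at k
      exact tz k
  · rw [not_or] at c0
    obtain ⟨rfl, rfl, h0⟩ := hz.resolve_left c0.1
    have m2 : InD r 0 n x (r 0 x) := m0.next ⟨by omega, by omega⟩ c0.2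
    have w1 : Wl r x 1 := H.wl _ _ _ hp (by omega) (by omega) (by omega) (by omega)
    have w2 : Wl r x 2 := H.wl _ _ _ hp (by omega) (by omega) (by omega) (by omega)
    have py : Q (r 0 x) 4 := h0 x hp
    have y1 : Wl r (r 0 x) 1 := H.wl _ _ _ py (by omega) (by omega) (by omega) (by omega)
    have y2 : Wl r (r 0 x) 2 := H.wl _ _ _ py (by omega) (by omega) (by omega) (by omega)
    have y3 : Wl r (r 0 x) 3 := by rwa [h.wl_far (by omega) (by omega)]
    have z1 : Wl r (r 4 x) 1 := by rwa [h.wl_far (by omega) (by omega)]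
    have z2 : Wl r (r 4 x) 2 := by rwa [h.wl_far (by omega) (by omega)]
    have u1 : Wl r (r 4 (r 0 x)) 1 := by rwa [h.wl_far (by omega) (by omega)]
    have cm : r 0 (r 4 x) = r 4 (r 0 x) := h.capp (c := 0) (c' := 4) (by omega) x
    have u3 : Wl r (r 4 (r 0 x)) 3 := by
      rw [← cm, h.wl_far (by omega) (by omega)]
      exact wz
    have k := hC.val4 (v := rf r x 2) (a := rf r x 1) (b := rf r x 3) (c := rf r (r 4 x) 3)
      (d := rf r (r 0 x) 1) (wall_mem m0 ⟨by omega, by omega⟩ w2)
      (wall_mem m0 ⟨by omega, by omega⟩ w1) tm (wall_mem m1 ⟨by omega, by omega⟩ wz)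
      (wall_mem m2 ⟨by omega, by omega⟩ y1) (adj_symm (h.rf_adj w1 w2 (by omega)))
      (h.rf_adj w2 hw (by omega))
      (by
        rw [← h.rf_step (c' := 4) w2 (by omega) (by omega)]
        exact h.rf_adj z2 wz (by omega))
      (by
        rw [← h.rf_step (c' := 0) w2 (by omega) (by omega)]
        exact adj_symm (h.rf_adj y1 y2 (by omega)))
      (h.rf_ne w1 hw (by omega) (by omega))
      (by
        rw [← h.rf_step (c' := 4) w1 (by omega) (by omega)]
        exact h.rf_ne z1 wz (by omega) (by omega))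
      tz
    rcases k with k | k | k
    · exact h.rf_step_ne w1 y1 (Or.inr ⟨rfl, by omega⟩) k.symm
    · rw [← h.rf_step (c' := 0) hw (by omega) (by omega)] at k
      exact h.rf_ne y1 y3 (by omega) (by omega) k
    · rw [← h.rf_step (c' := 4) y1 (by omega) (by omega),
        ← h.rf_step (c' := 0) wz (by omega) (by omega), cm] at k
      exact h.rf_ne u1 u3 (by omega) (by omega) k

/-- the leg goes on straight -/
lemma fold {j : ℕ} (H : Lg r lam mu (j + 2 + 1) hi Q) (h0 : lam ≤ j) (h1 : mu ≤ n) (h2 : hi < mu)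
    (h3 : j + 5 ≤ hi) (h4 : j + 11 ≤ mu) {x : F} (hp : Q x (j + 2 + 1)) (hm : ¬ Wl r x (j + 2))
    (back : ∀ g ∈ Walls r 0 n x, ¬ Wl r (r (j + 2) x) (j + 2 + 1) →
      ¬ Commute (rf r (r (j + 2) x) (j + 4)) g → g ≠ rf r (r (j + 2) x) (j + 5) →
      Q (r (j + 2) x) (j + 2 + 1)) :
    Wl r (r (j + 2) x) (j + 2 + 1) ∧ per r (j + 2) (r (j + 2) x) = 3 := by
  classical
  obtain ⟨C, hC⟩ := (h.wall (a := 0) (b := n) le_rfl x).1.exC
  have d0 : InD r 0 n x x := InD.refl x
  have d1 : InD r 0 n x (r (j + 2) x) := d0.next ⟨by omega, by omega⟩ hm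
  have p := h.lg_path H d0 hp (l := j) (m := mu) (by omega) (by omega) (by omega) h2.le (by omega)
    h1 (fun c c1 c2 => by omega) (fun c c1 c2 => by omega)
  have w4 : Wl r x (j + 4) := H.wl _ _ _ hp (by omega) (by omega) (by omega) (by omega)
  have w5 : Wl r x (j + 5) := H.wl _ _ _ hp (by omega) (by omega) (by omega) (by omega)
  have v4 : Wl r (r (j + 2) x) (j + 4) := (h.wl_far (by omega) (by omega)).2 w4
  have v5 : Wl r (r (j + 2) x) (j + 5) := (h.wl_far (by omega) (by omega)).2 w5
  have e3 : rf r (r (j + 2) x) (j + 4) = lg r x (j + 2 + 1) (j + 3) := by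
    rw [lg_hi (by omega)]
    exact h.rf_step w4 (by omega) (by omega)
  have e4 : rf r (r (j + 2) x) (j + 5) = lg r x (j + 2 + 1) (j + 4) := by
    rw [lg_hi (by omega)]
    exact h.rf_step w5 (by omega) (by omega)
  have w3 : Wl r (r (j + 2) x) (j + 2 + 1) := by
    by_contra hw
    have hq := back (lg r x (j + 2 + 1) (j + 2)) (p.mem 2 (by omega)) hw
      (by
        rw [e3]
        exact adj_symm (p.adj 2 (by omega)))
      (by
        rw [e4]
        intro he
        have := p.inj 2 (by omega) 4 (by omega) he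
        omega)
    have p' := h.lg_path H d1 hq (l := j) (m := mu) (by omega) (by omega) (by omega) h2.le
      (by omega) h1 (fun c c1 c2 => by omega) (fun c c1 c2 => by omega)
    have f3 : lg r (r (j + 2) x) (j + 2 + 1) (j + 3) = lg r x (j + 2 + 1) (j + 3) := by
      rw [← e3, lg_hi (by omega)]
    have f4 : lg r (r (j + 2) x) (j + 2 + 1) (j + 4) = lg r x (j + 2 + 1) (j + 4) := by
      rw [← e4, lg_hi (by omega)]
    have f2 : lg r (r (j + 2) x) (j + 2 + 1) (j + 2) = lg r x (j + 2 + 1) (j + 2) := by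
      rcases hC.pu p (m := 2) (by omega) (by omega) (by omega) (p'.mem 2 (by omega))
        (by
          change ¬ Commute (lg r x (j + 2 + 1) (j + 3)) _
          rw [← f3]
          exact adj_symm (p'.adj 2 (by omega))) with k | k
      · exact k
      · have := p'.inj 2 (by omega) 4 (by omega) (Eq.trans k f4.symm)
        omega
    rcases hC.pu p (m := 1) (by omega) (by omega) (by omega) (p'.mem 1 (by omega))
      (by
        change ¬ Commute (lg r x (j + 2 + 1) (j + 2)) _
        rw [← f2]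
        exact adj_symm (p'.adj 1 (by omega))) with k | k
    · change lg r _ _ (j + 1) = lg r _ _ (j + 1) at k
      rw [lg_lo (by omega), lg_lo (by omega)] at k
      exact h.rf_step_ne (H.wl _ _ _ hp (by omega) (by omega) (by omega) (by omega))
        (H.wl _ _ _ hq (by omega) (by omega) (by omega) (by omega)) (Or.inl ⟨rfl, by omega⟩) k.symm
    · have := p'.inj 1 (by omega) 3 (by omega) (Eq.trans k f3.symm)
      omega
  refine ⟨w3, ?_⟩
  have w2 : Wl r (r (j + 2 + 1) x) (j + 2) :=
    H.wl _ _ _ (H.up x _ hp (by omega)) (by omega) (by omega) (by omega) (by omega)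
  rcases hC.pu p (m := 2) (by omega) (by omega) (by omega)
    (wall_mem (c := j + 2 + 1) d1 ⟨by omega, by omega⟩ w3)
    (by
      change ¬ Commute (lg r x (j + 2 + 1) (j + 3)) _
      rw [← e3]
      exact adj_symm (h.rf_adj w3 v4 (by omega))) with e | e
  · change _ = lg r x (j + 2 + 1) (j + 2) at e
    rw [lg_mid] at e
    refine (h.hex (by omega) w3 ?_).2 ?_
    · rwa [h.rr]
    · rwa [h.rr]
  · exfalso
    change _ = lg r x (j + 2 + 1) (j + 4) at e
    rw [← e4] at e
    exact h.rf_ne w3 v5 (by omega) (by omega) e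

omit [Finite F] in
/-- one more position -/
lemma step {k : ℕ} (H : Lg r lam mu (k + 1) hi Q) (t : ∀ x, Q x (k + 1) → ¬ Wl r x k)
    (f : ∀ x, Q x (k + 1) → Wl r (r k x) (k + 1) ∧ per r k (r k x) = 3) :
    Lg r lam mu k hi fun x i => Q x i ∨ (i = k ∧ Q (r k x) (k + 1)) where
  rng x i hx := by
    rcases hx with hx | ⟨rfl, hx⟩
    · have := H.rng _ _ hx
      omega
    · have := H.rng _ _ hx
      omega
  wl x i c hx c1 c2 c3 c4 := by
    rcases hx with hx | ⟨rfl, hx⟩
    · exact H.wl _ _ _ hx c1 c2 c3 c4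
    · by_cases e : c = i + 1
      · have := (f _ hx).1
        rwa [h.rr, ← e] at this
      · exact (h.wl_far e (by omega)).1 (H.wl _ _ _ hx c1 c2 e (by omega))
  mv x i hx hi' := by
    rcases hx with hx | ⟨rfl, hx⟩
    · exact H.mv _ _ hx hi'
    · exact fun w => t _ hx (h.wl_step.2 w)
  mv' x i hx hi' := by
    rcases hx with hx | ⟨e, _⟩
    · rcases Nat.eq_or_lt_of_le hi' with rfl | k1
      · exact t _ hx
      · exact H.mv' _ _ hx k1
    · omega
  up x i hx hi' := by
    rcases hx with hx | ⟨rfl, hx⟩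
    · exact Or.inl (H.up _ _ hx hi')
    · exact Or.inl hx
  dn x i hx hi' := by
    rcases hx with hx | ⟨e, _⟩
    · rcases Nat.eq_or_lt_of_le hi' with rfl | k1
      · exact Or.inr ⟨rfl, by rwa [h.rr]⟩
      · exact Or.inl (H.dn _ _ hx k1)
    · omega
  str x i hx hi' := by
    rcases hx with hx | ⟨rfl, hx⟩
    · exact H.str _ _ hx hi'
    · have := (f _ hx).2
      rwa [h.rr] at this

end EXT

theorem stEXT (hPUSH : St_PUSH) : St_EXT := by
  intro F L _ _ n r φ h lam mu lo hi a Q H l1 h1 h2 h3 h4 ha hz hc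
  have main : ∀ d k, k + d = lo → a ≤ k → Lg r lam mu k hi
      fun x i => (lo ≤ i ∧ Q x i) ∨ (k ≤ i ∧ i < lo ∧ Q (mov r i lo x) lo) := by
    intro d
    induction d with
    | zero =>
      intro k e _
      obtain rfl : k = lo := by omega
      refine H.congr fun x i => ⟨fun hx => ?_, fun hx => Or.inl ⟨(H.rng _ _ hx).1, hx⟩⟩
      rcases hx with hx | hx
      · exact hx.2
      · omega
    | succ d ih =>
      intro k e ak
      have H' := ih (k + 1) (by omega) (by omega)
      have iff : ∀ x, ((lo ≤ k + 1 ∧ Q x (k + 1)) ∨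
          (k + 1 ≤ k + 1 ∧ k + 1 < lo ∧ Q (mov r (k + 1) lo x) lo)) ↔
          Q (mov r (k + 1) lo x) lo := by
        intro x
        rcases Nat.eq_or_lt_of_le (show k + 1 ≤ lo by omega) with e1 | e1
        · subst e1
          rw [mov_self]
          exact ⟨fun hx => hx.elim And.right fun k1 => by omega, fun hx => Or.inl ⟨le_rfl, hx⟩⟩
        · exact ⟨fun hx => hx.elim (fun k1 => by omega) fun k1 => k1.2.2,
            fun hx => Or.inr ⟨le_rfl, e1, hx⟩⟩
      have t := fun x hp => EXT.term h H' h1 h2 (by omega) (by omega) (x := x) (hp := hp) (by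
        by_cases k1 : lam + 3 ≤ k
        · exact Or.inl k1
        obtain ⟨e1, e2, h0⟩ := hz.resolve_left (by omega)
        obtain rfl : k = 3 := by omega
        refine Or.inr ⟨e1, rfl, fun y hy => (iff _).2 ?_⟩
        rw [← h.cap_mov (Or.inl ⟨by omega, by omega⟩)]
        exact h0 _ ((iff _).1 hy))
      obtain ⟨j, rfl⟩ : ∃ j, k = j + 2 := ⟨k - 2, by omega⟩
      have f := fun x hp => EXT.fold h H' (by omega) h1 h2 (by omega) (by omega) (x := x) hp
        (t x hp) (fun g hg hw g1 g2 => by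
          have wy : ∀ c, j + 2 + 1 < c → c < mu → Wl r (r (j + 2) x) c := fun c c1 c2 =>
            (h.wl_far (by omega) (by omega)).2
              (H'.wl _ _ _ hp (by omega) c2 (by omega) (by omega))
          have pu : Pu r (r (j + 2) x) (j + 2 + 1) lo :=
            (hPUSH h _ (j + 2 + 1) lo mu (by omega) (by omega) (by omega) h1 hw wy).2 x g
              ((InD.refl x).next ⟨by omega, by omega⟩ (t x hp)) hg g1 g2
          have n1 := (h.lg_norm H' hp (j := lo) (by omega) (by omega)).2
          rw [min_eq_left (by omega), max_eq_right (by omega)] at n1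
          refine (iff _).2 (hc _ _ ((iff _).1 hp) ?_ (pu lo (by omega) le_rfl) fun c c1 c2 => ?_)
          · exact (((h.InD_symm n1).mono (by omega) le_rfl).next ⟨by omega, by omega⟩
              (t x hp)).trans ((h.pu_inD pu (by omega) le_rfl).mono (by omega) le_rfl)
          · exact (h.wl_mov (Or.inr ⟨by omega, by omega⟩) _).2 (wy c (by omega) c2))
      refine (EXT.step h H' t f).congr fun x i => ⟨fun hx => ?_, fun hx => ?_⟩
      · rcases hx with hx | ⟨k1, k2, hx⟩
        · exact Or.inl (Or.inl hx)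
        · rcases Nat.eq_or_lt_of_le k1 with rfl | k3
          · exact Or.inr ⟨rfl, (iff _).2 (by rwa [h.mov_from])⟩
          · exact Or.inl (Or.inr ⟨k3, k2, hx⟩)
      · rcases hx with (hx | ⟨k1, k2, hx⟩) | ⟨rfl, hx⟩
        · exact Or.inl hx
        · exact Or.inr ⟨by omega, k2, hx⟩
        · have := (iff _).1 hx
          rw [h.mov_from] at this
          exact Or.inr ⟨le_rfl, by omega, this⟩
  exact main (lo - a) a (by omega) le_rfl

end Pool.Agent.FlagOrb.R
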