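import Pool.Agent.Lib.MP_7157e1_co.RKitC

/-! Cubic range: two far moving colours put a flag into the grid. -/

namespace Pool.Agent.FlagOrb.R

open Equiv Set Q

namespace FAR

variable {F L : Type} [Lattice L] {n : ℕ} {r : ℕ → Perm F} {φ : ℕ → F → L}

/-- an activity above `b` gives the dichotomy below `b` -/
lemma dich_lo (h : PS n r φ) (t : T3 n r) {b : ℕ} {x : F} (hb : 1 ≤ b)
    (s : ¬ Sm r (b + 1) (n - 1) x) : Dich r 0 b x := by
  intro y j hy
  have s' : ¬ Sm r (b + 1) (n - 1) y :=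
    Half.nsm h hy (fun c hc => Or.inl (by have := hc.2; omega)) s
  rcases t y j (b - 1) with k | k | k
  · exact Or.inl k
  · exact Or.inr k
  · rw [show b - 1 + 2 = b + 1 by omega] at k
    exact absurd k s'

/-- an activity below `7` gives the dichotomy above `7` -/
lemma dich_hi (h : PS n r φ) (t : T3 n r) {x : F} (s : ¬ Sm r 1 6 x) : Dich r 7 n x := by
  intro y j hy
  have s' : ¬ Sm r 1 6 y := Half.nsm h hy (fun c hc => Or.inr (by have := hc.1; omega)) s
  rcases t y 6 j with k | k | k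
  · exact absurd k s'
  · exact Or.inl k
  · exact Or.inr k

lemma bs_rev (h : PS n r φ) {y : F} (k : Bs n (rev n r) y) : Bs n r y := by
  intro c c1 c2
  have := k (n - 1 - c) (by omega) (by omega)
  rw [h.wl_rev (by omega), show n - 1 - (n - 1 - c) = c by omega] at this
  rw [this]
  omega

lemma gg_rev (h : PS n r φ) {x : F} {i j : ℕ} (k : GG n (rev n r) x i j) :
    GG n r x (n - j) (n - i) := by
  obtain ⟨⟨k1, k2, k3, k4, k5⟩, k6⟩ := k
  refine ⟨⟨by omega, by omega, by omega, by omega, by omega⟩, ?_⟩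
  have := bs_rev h k6
  rw [h.mov_rev (by omega) (by omega), h.mov_rev (by omega) (by omega),
    show n - (n - 5) = 5 by omega,
    h.mov_comm (by omega) (by omega) (by omega) (by omega)] at this
  exact this

lemma one [Finite F] (hT : St_TOKP) (h : PS n r φ) (b : B8 n r) (x : F) (c c' : ℕ)
    (m : ¬ Wl r x c) (m' : ¬ Wl r x c') (h1 : 5 ≤ c) (h2 : c + 7 ≤ c') (h3 : 50 ≤ c')
    (h4 : c' + 8 ≤ n) : ∃ i j, GG n r x i j := by
  have hn := b.big
  have d1 : Dich r 0 (c' - 1) x := dich_lo h b.t3 (by omega) (by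
    rw [show c' - 1 + 1 = c' by omega]
    exact b.wa.nsm (by omega) (by omega) (by omega) le_rfl (by omega) m')
  obtain ⟨H1, C1⟩ := hT h b.wa 0 (c' - 1) x (by omega) (by omega) d1
  obtain ⟨i, i1, i2, ti⟩ : ∃ i, c ≤ i ∧ i ≤ c + 1 ∧ Tk r 0 (c' - 1) x i := by
    rcases C1 x c (Rch.refl x) (by omega) (by omega) m with k | k
    exacts [⟨c, le_rfl, by omega, k⟩, ⟨c + 1, by omega, le_rfl, k⟩]
  have t1 : Tk r 0 (c' - 1) (mov r i 5 x) 5 :=
    (h.lg_norm H1 (j := 5) ⟨Rch.refl x, by omega, by omega, ti⟩ (by omega) (by omega)).1.2.2.2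
  have m1 : ¬ Wl r (mov r i 5 x) c' := by rwa [h.wl_mov (Or.inr ⟨by omega, by omega⟩)]
  have d2 : Dich r 7 n (mov r i 5 x) := dich_hi h b.t3 (nsm_of (c := 1) (d := 5)
    (by
      by_contra k
      have := (t1 1 (by omega) (by omega)).1 k
      omega)
    ((t1 5 (by omega) (by omega)).2 (Or.inr rfl)) le_rfl (by omega) (by omega) (by omega))
  obtain ⟨H2, C2⟩ := hT h b.wa 7 n _ (by omega) le_rfl d2
  obtain ⟨j, j1, j2, tj⟩ : ∃ j, c' ≤ j ∧ j ≤ c' + 1 ∧ Tk r 7 n (mov r i 5 x) j := by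
    rcases C2 _ c' (Rch.refl _) (by omega) (by omega) m1 with k | k
    exacts [⟨c', le_rfl, by omega, k⟩, ⟨c' + 1, by omega, le_rfl, k⟩]
  have t2 : Tk r 7 n (mov r j (n - 5) (mov r i 5 x)) (n - 5) :=
    (h.lg_norm H2 (j := n - 5) ⟨Rch.refl _, by omega, by omega, tj⟩ (by omega) le_rfl).1.2.2.2
  refine ⟨i, j, ⟨by omega, by omega, by omega, by omega, by omega⟩, fun d e1 e2 => ?_⟩
  by_cases k : 8 ≤ d
  · rw [t2 d k e2]
    omega
  · rw [h.wl_mov (Or.inl ⟨by omega, by omega⟩), t1 d e1 (by omega)]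
    omega

end FAR

theorem stFAR (hTOKP : St_TOKP) : St_FAR := by
  intro F L _ _ n r φ h b
  refine ⟨fun x c c' => FAR.one hTOKP h b x c c', fun x c c' m m' h1 h2 h3 h4 => ?_⟩
  obtain ⟨i, j, k⟩ := FAR.one hTOKP h.mirror (h.B8_rev b) x (n - 1 - c') (n - 1 - c)
    (by rwa [h.wl_rev (by omega), show n - 1 - (n - 1 - c') = c' by omega])
    (by rwa [h.wl_rev (by omega), show n - 1 - (n - 1 - c) = c by omega])
    (by omega) (by omega) (by omega) (by omega)
  exact ⟨_, _, FAR.gg_rev h k⟩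

end Pool.Agent.FlagOrb.R
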