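import Pool.Agent.Lib.MP_7157e1_co.RKitC

/-! Every closed family of ends contains a bad end. -/

namespace Pool.Agent.FlagOrb.R

open Equiv Set Q

namespace FREE

variable {F L : Type} [Lattice L] {n : ℕ} {r : ℕ → Perm F} {φ : ℕ → F → L} {P : F → ℕ → Prop}

lemma farc (h : PS n r φ) {c : ℕ} (hc : 4 ≤ c) (x : F) :
    Jf r (r c x) = r c (Jf r x) ∧ ∀ j, (Wt r (r c x) j ↔ Wt r x j) := by
  have e0 : ∀ x, r 0 (r c x) = r c (r 0 x) := h.capp (by omega)
  have e1 : ∀ x, r 1 (r c x) = r c (r 1 x) := h.capp (by omega)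
  have e2 : ∀ x, r 2 (r c x) = r c (r 2 x) := h.capp (by omega)
  have w0 : ∀ x, Wl r (r c x) 0 ↔ Wl r x 0 := fun x => h.wl_far (by omega) (by omega)
  have w1 : ∀ x, Wl r (r c x) 1 ↔ Wl r x 1 := fun x => h.wl_far (by omega) (by omega)
  have w2 : ∀ x, Wl r (r c x) 2 ↔ Wl r x 2 := fun x => h.wl_far (by omega) (by omega)
  have f1 : JUN.F1 r (r c x) ↔ JUN.F1 r x := by simp only [JUN.F1, e1, e2, w1, w2]
  have f0 : F0 r (r c x) ↔ F0 r x := by simp only [F0, JUN.B2, e0, e1, e2, w0, w1, w2]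
  refine ⟨?_, fun j => by simp only [Wt, e0, e1, e2, w0, w1, w2]⟩
  unfold Jf
  rw [f1, f0]
  split_ifs <;> simp only [e0, e1, e2]

lemma pz (h : PS n r φ) (H : RH n r P) {c : ℕ} (hc : c = 0 ∨ c = n - 1) {x : F} {i : ℕ} :
    P (r c x) i ↔ P x i := by
  have k : ∀ x, P x i → P (r c x) i := fun x p => by
    rcases hc with rfl | rfl
    exacts [H.z0 _ _ p, H.z1 _ _ p]
  exact ⟨fun p => h.rr c x ▸ k _ p, k x⟩

lemma gdz (h : PS n r φ) (H : RH n r P) {c : ℕ} (hc : c = 0 ∨ c = n - 1) {x : F}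
    (g : Gd r P x) : Gd r P (r c x) := by
  have big := H.big
  rcases hc with rfl | rfl
  · exact g.orb (Rch.step (I := Ico 0 3) ⟨le_rfl, by omega⟩ _)
  · intro z hz hw
    have k := hz.map (g := r (n - 1)) fun c hc => h.comm' (by have := hc.2; omega)
      (by have := hc.2; omega)
    rw [h.rr] at k
    exact (pz h H (Or.inr rfl)).1 (g _ k fun w => hw ((h.wl_far (by omega) (by omega)).1 w))

lemma jz (h : PS n r φ) (H : RH n r P) (J : JN r P) {c : ℕ} (hc : c = 0 ∨ c = n - 1) {x : F}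
    (p : P x 3) (g : Gd r P x) : Eqv r (Jf r (r c x)) (r c (Jf r x)) := by
  have big := H.big
  rcases hc with rfl | rfl
  · exact J.sig x p g
  · rw [(farc h (by omega) x).1]
    exact Eqv.refl _

/-- the chains below the lower ends of a family -/
def Low (r : ℕ → Perm F) (P : F → ℕ → Prop) (S : F → Prop) (y : F) : Prop :=
  ∃ x j, S x ∧ P x 3 ∧ Wt r x j ∧ Eqv r y (mov r 3 (3 - j) x)

/-- a family closed under the moves at the lower ends -/
def Cl (n : ℕ) (r : ℕ → Perm F) (P : F → ℕ → Prop) (S : F → Prop) : Prop :=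
  ∀ x, S x → P x 3 → Gd r P x ∧ S (Jf r x) ∧ S (r 0 x) ∧ S (r (n - 1) x)

variable {S : F → Prop}

lemma low0 {x y : F} (s : S x) (p : P x 3) (e : Eqv r y x) : Low r P S y :=
  ⟨x, 0, s, p, ⟨by omega, by omega, by omega, by omega⟩, by rwa [mov_self]⟩

lemma lowA (H : RH n r P) (J : JN r P) (K : Cl n r P S) {y : F} (ly : Low r P S y) {c : ℕ}
    (hc : c < 3) : Low r P S (r c y) := by
  obtain ⟨x, j, s, p, w, e⟩ := ly
  obtain ⟨g, s1, s2, -⟩ := K x s p
  obtain ⟨x', j', q, w', e'⟩ := J.cl x j c p g w hc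
  refine ⟨x', j', ?_, ?_, w', (e.step c).trans e'⟩
  · rcases q with rfl | rfl | rfl
    exacts [s, s1, s2]
  · rcases q with rfl | rfl | rfl
    exacts [p, (J.inv _ p g).1, H.z0 _ _ p]

lemma lowW (h : PS n r φ) (H : RH n r P) {y : F} (ly : Low r P S y) {c : ℕ} (c1 : 4 ≤ c)
    (c2 : c + 2 ≤ n) : Wl r y c := by
  obtain ⟨x, j, -, p, -, e⟩ := ly
  exact ((h.wl_mov (Or.inr ⟨by omega, by omega⟩) x).2
    (H.leg.wl _ _ _ p (by omega) (by omega) (by omega) (by omega))).eqv e.symm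

lemma lowS (h : PS n r φ) (H : RH n r P) (J : JN r P) (K : Cl n r P S) {y : F}
    (ly : Low r P S y) {c : ℕ} (hc : c < n) :
    Low r P S (r c y) ∨ ∃ x, S x ∧ P x 3 ∧ Eqv r y x := by
  have big := H.big
  by_cases c3 : c < 3
  · exact Or.inl (lowA H J K ly c3)
  have wall : Wl r y c → Low r P S (r c y) := fun w =>
    let ⟨x, j, s, p, t, e⟩ := ly
    ⟨x, j, s, p, t, (Eqv.symm w).trans e⟩
  by_cases c4 : 4 ≤ c ∧ c + 2 ≤ n
  · exact Or.inl (wall (lowW h H ly c4.1 c4.2))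
  obtain ⟨x, j, s, p, t, e⟩ := ly
  obtain ⟨g, -, -, s3⟩ := K x s p
  by_cases c5 : c = n - 1
  · subst c5
    refine Or.inl ⟨_, j, s3, H.z1 _ _ p, ((farc h (by omega) x).2 j).2 t, ?_⟩
    rw [← h.cap_mov (Or.inr ⟨by omega, by omega⟩)]
    exact e.step _
  obtain rfl : c = 3 := by omega
  by_cases j0 : j = 0
  · subst j0
    exact Or.inr ⟨x, s, p, by rwa [mov_self] at e⟩
  have w : Wl r (mov r 2 (3 - j) (r 2 x)) 3 :=
    (h.wl_mov (Or.inr ⟨by omega, by omega⟩) _).2 (J.w3 x p g (t.2.1 (by omega)))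
  rw [h.mov_from'] at w
  exact Or.inl (wall (w.eqv e.symm))

lemma gd_iff (H : RH n r P) {x y : F} (e : Eqv r x y) : Gd r P x ↔ Gd r P y :=
  ⟨fun g => H.gd_eqv g e, fun g => H.gd_eqv g e.symm⟩

lemma p_iff (H : RH n r P) {x y : F} (e : Eqv r x y) (i : ℕ) : P x i ↔ P y i :=
  ⟨fun p => H.eqv _ _ _ p e, fun p => H.eqv _ _ _ p e.symm⟩

lemma eL_eqv (H : RH n r P) {x y : F} (e : Eqv r x y) : Eqv r (eL n r P x) (eL n r P y) := by
  unfold eL
  rw [p_iff H e]
  split_ifs <;> exact eqv_mov e _ _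

lemma eJ_eqv (h : PS n r φ) (H : RH n r P) {x y : F} (e : Eqv r x y) :
    Eqv r (eJ n r P x) (eJ n r P y) := by
  have e' := h.eqv_rev.2 e
  unfold eJ
  rw [p_iff H e, gd_iff H e, gd_iff (h.RH_rev H) e']
  split_ifs
  exacts [Jf_eqv e, e, h.eqv_rev.1 (Jf_eqv e'), e]

/-- good ends -/
def Go (n : ℕ) (r : ℕ → Perm F) (P : F → ℕ → Prop) (x : F) : Prop :=
  eT n P x ∧ ¬ eX n r P x

lemma go_eqv (h : PS n r φ) (H : RH n r P) {x y : F} (e : Eqv r x y) (g : Go n r P x) :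
    Go n r P y := by
  have e' := h.eqv_rev.2 e
  unfold Go eT eX XL at g ⊢
  rwa [← p_iff H e, ← p_iff H e, ← gd_iff H e, ← gd_iff (h.RH_rev H) e',
    ← p_iff (h.RH_rev H) e']

lemma rz (H : RH n r P) {c : ℕ} (hc : c = 0 ∨ c = n - 1) :
    (n - 1 - c = 0 ∨ n - 1 - c = n - 1) ∧ rev n r (n - 1 - c) = r c := by
  have big := H.big
  refine ⟨by omega, ?_⟩
  rw [rev_lt (by omega), show n - 1 - (n - 1 - c) = c by omega]

lemma go_z (h : PS n r φ) (H : RH n r P) {c : ℕ} (hc : c = 0 ∨ c = n - 1) {x : F}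
    (g : Go n r P x) : Go n r P (r c x) := by
  obtain ⟨k, e⟩ := rz H hc
  refine ⟨g.1.imp (pz h H hc).2 (pz h H hc).2, ?_⟩
  rintro (⟨p, q⟩ | ⟨p, q⟩)
  · exact g.2 (Or.inl ⟨(pz h H hc).1 p, fun t => q (gdz h H hc t)⟩)
  · rw [← e] at p q
    exact g.2 (Or.inr ⟨(pz h.mirror (h.RH_rev H) k).1 p,
      fun t => q (gdz h.mirror (h.RH_rev H) k t)⟩)

lemma eL_z (h : PS n r φ) (H : RH n r P) {c : ℕ} (hc : c = 0 ∨ c = n - 1) (x : F) :
    eL n r P (r c x) = r c (eL n r P x) := by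
  have big := H.big
  unfold eL
  rw [pz h H hc]
  split_ifs <;> exact (h.cap_mov (by omega) x).symm

lemma eJ_z (h : PS n r φ) (H : RH n r P) (J : JN r P) (J' : JN (rev n r) (mP n P)) {c : ℕ}
    (hc : c = 0 ∨ c = n - 1) {x : F} (g : Go n r P x) :
    Eqv r (eJ n r P (r c x)) (r c (eJ n r P x)) := by
  have big := H.big
  obtain ⟨k, e⟩ := rz H hc
  unfold eJ
  rw [pz h H hc]
  by_cases p : P x 3
  · have t : Gd r P x := by_contra fun t => g.2 (Or.inl ⟨p, t⟩)
    rw [if_pos p, if_pos p, if_pos t, if_pos (gdz h H hc t)]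
    exact jz h H J hc p t
  · have p' : mP n P x 3 := ⟨by omega, g.1.resolve_left p⟩
    have t : Gd (rev n r) (mP n P) x := by_contra fun t => g.2 (Or.inr ⟨p', t⟩)
    have t' := gdz h.mirror (h.RH_rev H) k t
    have q := jz h.mirror (h.RH_rev H) J' k p' t
    rw [e] at t' q
    rw [if_neg p, if_neg p, if_pos t, if_pos t']
    exact h.eqv_rev.1 q

lemma eT_L (h : PS n r φ) (H : RH n r P) {x : F} (t : eT n P x) : eT n P (eL n r P x) := by
  have big := H.big
  unfold eL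
  split_ifs with p
  · exact Or.inr (h.lg_norm H.leg p (by omega) le_rfl).1
  · exact Or.inl (h.lg_norm H.leg (t.resolve_left p) le_rfl (by omega)).1

lemma eT_J (H : RH n r P) (J : JN r P) (J' : JN (rev n r) (mP n P)) {x : F} (t : eT n P x) :
    eT n P (eJ n r P x) := by
  have big := H.big
  unfold eJ
  split_ifs with p g g
  · exact Or.inl (J.inv x p g).1
  · exact t
  · exact Or.inr (J'.inv x ⟨by omega, t.resolve_left p⟩ g).1.2
  · exact t

/-- all successors are good -/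
def Fr (n : ℕ) (r : ℕ → Perm F) (P : F → ℕ → Prop) (x : F) : Prop :=
  ∀ y, Relation.ReflTransGen (fun a b => b = eL n r P a ∨ b = eJ n r P a ∨ Eqv r a b) x y →
    Go n r P y

lemma fr_z (h : PS n r φ) (H : RH n r P) (J : JN r P) (J' : JN (rev n r) (mP n P)) {c : ℕ}
    (hc : c = 0 ∨ c = n - 1) {x : F} (f : Fr n r P x) : Fr n r P (r c x) := by
  intro y hy
  suffices k : ∃ z, Fr n r P z ∧ Eqv r (r c z) y by
    obtain ⟨z, k, e⟩ := k
    exact go_eqv h H e (go_z h H hc (k z .refl))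
  induction hy with
  | refl => exact ⟨x, f, Eqv.refl _⟩
  | tail _ s ih =>
    obtain ⟨z, k, e⟩ := ih
    rcases s with rfl | rfl | s
    · exact ⟨eL n r P z, fun w hw => k w (.head (Or.inl rfl) hw),
        eL_z h H hc z ▸ eL_eqv H e⟩
    · exact ⟨eJ n r P z, fun w hw => k w (.head (Or.inr (Or.inl rfl)) hw),
        (eJ_z h H J J' hc (k z .refl)).symm.trans (eJ_eqv h H e)⟩
    · exact ⟨z, k, e.trans s⟩

end FREE

open FREE in
theorem stFREE : St_FREE := by
  intro F L _ _ n r φ h P H J J' T2 S ⟨x0, t0, s0⟩ cS eS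
  have big := H.big
  have H' := h.RH_rev H
  by_contra hno
  have f0 : Fr n r P x0 := fun y hy => by
    suffices k : eT n P y ∧ S y from ⟨k.1, fun q => hno ⟨y, k.1, k.2, q⟩⟩
    induction hy with
    | refl => exact ⟨t0, s0⟩
    | tail _ s ih =>
      rcases s with rfl | rfl | s
      · exact ⟨eT_L h H ih.1, (cS _ ih.1 ih.2).1⟩
      · exact ⟨eT_J H J J' ih.1, (cS _ ih.1 ih.2).2⟩
      · exact ⟨ih.1.imp (fun p => H.eqv _ _ _ p s) fun p => H.eqv _ _ _ p s, eS _ _ ih.2 s⟩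
  have fL : ∀ x, Fr n r P x → Fr n r P (eL n r P x) := fun x k w hw =>
    k w (.head (Or.inl rfl) hw)
  have fJ : ∀ x, Fr n r P x → Fr n r P (eJ n r P x) := fun x k w hw =>
    k w (.head (Or.inr (Or.inl rfl)) hw)
  have ex : ∀ x, P x 3 → ¬ P x (n - 3) := fun x p q => by
    have := H.leg.uniq p q (by omega) (by omega) (by omega)
    omega
  have K : Cl n r P (Fr n r P) := fun x f p => by
    have t : Gd r P x := by_contra fun t => (f x .refl).2 (Or.inl ⟨p, t⟩)
    have q := fJ x f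
    rw [eJ, if_pos p, if_pos t] at q
    exact ⟨t, q, fr_z h H J J' (Or.inl rfl) f, fr_z h H J J' (Or.inr rfl) f⟩
  have K' : Cl n (rev n r) (mP n P) (Fr n r P) := fun x f p => by
    have t : Gd (rev n r) (mP n P) x := by_contra fun t => (f x .refl).2 (Or.inr ⟨p, t⟩)
    have q := fJ x f
    rw [eJ, if_neg fun k => ex x k p.2, if_pos t] at q
    rw [rev_lt (by omega), rev_lt (by omega)]
    exact ⟨t, q, fr_z h H J J' (Or.inr rfl) f, fr_z h H J J' (Or.inl (by omega)) f⟩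
  obtain ⟨Leg, hLeg⟩ : ∃ Leg : F → Prop, Leg = fun y =>
      ∃ x i, Fr n r P x ∧ P x 3 ∧ 3 ≤ i ∧ i ≤ n - 3 ∧ Eqv r y (mov r 3 i x) := ⟨_, rfl⟩
  have top : ∀ x y, Fr n r P x → P x (n - 3) → Eqv r y x → Leg y := fun x y f p e => by
    have q := fL x f
    rw [eL, if_neg fun k => ex x k p] at q
    rw [hLeg]
    exact ⟨_, n - 3, q, (h.lg_norm H.leg p le_rfl (by omega)).1, by omega, le_rfl,
      by rwa [mov_back]⟩
  have bot : ∀ x y, Fr n r P x → P x 3 → Eqv r y x → Leg y := fun x y f p e => by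
    rw [hLeg]
    exact ⟨x, 3, f, p, le_rfl, by omega, by rwa [mov_self]⟩
  have leg : ∀ y c, c < n → Leg y →
      Leg (r c y) ∨ Low r P (Fr n r P) (r c y) ∨ Low (rev n r) (mP n P) (Fr n r P) (r c y) := by
    rw [hLeg]
    rintro y c hc ⟨x, i, f, p, i1, i2, e⟩
    have pi := (h.lg_norm H.leg p i1 i2).1
    by_cases c0 : c = 0 ∨ c = n - 1
    · refine Or.inl ⟨r c x, i, fr_z h H J J' c0 f, (pz h H c0).2 p, i1, i2, ?_⟩
      rw [← h.cap_mov (by omega)]
      exact e.step c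
    by_cases c1 : c = i
    · subst c1
      by_cases c2 : c < n - 3
      · exact Or.inl ⟨x, c + 1, f, p, by omega, by omega, h.mov_succ 3 c x ▸ e.step c⟩
      obtain rfl : c = n - 3 := by omega
      have q := fL x f
      rw [eL, if_pos p] at q
      have k := lowA H' J' K' (low0 q ⟨by omega, pi⟩ (h.eqv_rev.2 e)) (c := 2) (by omega)
      rw [rev_lt (by omega), show n - 1 - 2 = n - 3 by omega] at k
      exact Or.inr (Or.inr k)
    by_cases c2 : c + 1 = i
    · subst c2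
      by_cases c3 : 3 ≤ c
      · exact Or.inl ⟨x, c, f, p, c3, by omega, h.mov_pred 3 c x ▸ e.step c⟩
      obtain rfl : c = 2 := by omega
      exact Or.inr (Or.inl (lowA H J K (low0 f p (by rwa [mov_self] at e)) (by omega)))
    have w : Wl r y c := (H.leg.wl _ _ c pi (by omega) (by omega) c1 c2).eqv e.symm
    exact Or.inl ⟨x, i, f, p, i1, i2, (Eqv.symm w).trans e⟩
  obtain ⟨g, c, c', c1, c2, c3, w, w'⟩ := T2
  have all : Leg g ∨ Low r P (Fr n r P) g ∨ Low (rev n r) (mP n P) (Fr n r P) g := by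
    refine (h.all x0 g).ind (fun c _ => h.inv c) (P := fun y =>
      Leg y ∨ Low r P (Fr n r P) y ∨ Low (rev n r) (mP n P) (Fr n r P) y)
      (Or.inl (t0.elim (fun p => bot x0 x0 f0 p (Eqv.refl _))
        fun p => top x0 x0 f0 p (Eqv.refl _))) ?_
    rintro y d ⟨-, hd⟩ - (k | k | k)
    · exact leg y d hd k
    · rcases lowS h H J K k hd with q | ⟨x, f, p, e⟩
      · exact Or.inr (Or.inl q)
      · exact leg y d hd (bot x y f p e)
    · rcases lowS h.mirror H' J' K' k (c := n - 1 - d) (by omega) with q | ⟨x, f, p, e⟩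
      · rw [rev_lt (by omega), show n - 1 - (n - 1 - d) = d by omega] at q
        exact Or.inr (Or.inr q)
      · exact leg y d hd (top x y f p.2 (h.eqv_rev.1 e))
  rcases all with k | k | k
  · rw [hLeg] at k
    obtain ⟨x, i, -, p, i1, i2, e⟩ := k
    have pi := H.eqv _ _ _ (h.lg_norm H.leg p i1 i2).1 e.symm
    by_cases q : c = i ∨ c + 1 = i
    · exact w' (H.leg.wl _ _ _ pi (by omega) (by omega) (by omega) (by omega))
    · exact w (H.leg.wl _ _ _ pi (by omega) (by omega) (by omega) (by omega))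
  · exact w' (lowW h H k (by omega) (by omega))
  · have q := lowW h.mirror H' k (c := n - 1 - c) (by omega) (by omega)
    rw [h.wl_rev (by omega), show n - 1 - (n - 1 - c) = c by omega] at q
    exact w q

end Pool.Agent.FlagOrb.R
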