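import Pool.Agent.Lib.MP_7157e1_co.RKitC

/-! Cubic range: the two-token grid. -/

namespace Pool.Agent.FlagOrb.R

open Equiv Set Q

namespace GRID

variable {F L : Type} [Lattice L] {n : ℕ} {r : ℕ → Perm F} {φ : ℕ → F → L}

lemma bs_eqv {x y : F} (k : Bs n r x) (e : Eqv r x y) : Bs n r y := by
  intro c c1 c2
  rw [← k c c1 c2]
  exact ⟨fun a w => a (w.eqv e), fun a w => a (w.eqv e.symm)⟩

variable [Finite F] (hT : St_TOKP) (h : PS n r φ) (b : B8 n r)
include hT h b

/-- the lower token of a parked flag -/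
lemma low {x : F} (k : Bs n r x) {i : ℕ} (i1 : 5 ≤ i) (i2 : i + 12 ≤ n) :
    Tk r 0 (n - 7) (mov r 5 i x) i ∧ (i + 14 ≤ n → per r i (mov r 5 i x) = 3) := by
  have hn := b.big
  have s : ¬ Sm r (n - 6) (n - 1) x := nsm_of (c := n - 2) (d := n - 6)
    (by
      by_contra a
      have := (k (n - 2) (by omega) (by omega)).1 a
      omega)
    ((k (n - 6) (by omega) (by omega)).2 (by omega)) (by omega) (by omega) le_rfl (by omega)
  have d : Dich r 0 (n - 7) x := by
    intro y j hy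
    have s' : ¬ Sm r (n - 6) (n - 1) y :=
      Half.nsm h hy (fun c hc => Or.inl (by have := hc.2; omega)) s
    rcases b.t3 y j (n - 7 - 1) with a | a | a
    · exact Or.inl a
    · exact Or.inr a
    · rw [show n - 7 - 1 + 2 = n - 6 by omega] at a
      exact absurd a s'
  obtain ⟨H, -⟩ := hT h b.wa 0 (n - 7) x (by omega) (by omega) d
  have t : Tk r 0 (n - 7) x 5 := by
    intro c c1 c2
    rw [k c c1 (by omega)]
    omega
  have q := (h.lg_norm H (j := i) ⟨Rch.refl x, le_rfl, by omega, t⟩ i1 (by omega)).1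
  exact ⟨q.2.2.2, fun a => H.str _ _ q (by omega)⟩

/-- the upper token of a parked flag -/
lemma high {x : F} (k : Bs n r x) {j : ℕ} (j1 : 12 ≤ j) (j2 : j + 5 ≤ n) :
    Tk r 7 n (mov r (n - 5) j x) j ∧ (j + 7 ≤ n → per r j (mov r (n - 5) j x) = 3) := by
  have hn := b.big
  have s : ¬ Sm r 1 6 x := nsm_of (c := 1) (d := 5)
    (by
      by_contra a
      have := (k 1 le_rfl (by omega)).1 a
      omega)
    ((k 5 (by omega) (by omega)).2 (by omega)) le_rfl (by omega) (by omega) (by omega)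
  have d : Dich r 7 n x := by
    intro y j hy
    have s' : ¬ Sm r 1 6 y := Half.nsm h hy (fun c hc => Or.inr (by have := hc.1; omega)) s
    rcases b.t3 y 6 j with a | a | a
    · exact absurd a s'
    · exact Or.inl a
    · exact Or.inr a
  obtain ⟨H, -⟩ := hT h b.wa 7 n x (by omega) le_rfl d
  have t : Tk r 7 n x (n - 5) := by
    intro c c1 c2
    rw [k c (by omega) c2]
    omega
  have q := (h.lg_norm H (j := j) ⟨Rch.refl x, by omega, le_rfl, t⟩ j1 (by omega)).1
  exact ⟨q.2.2.2, fun a => H.str _ _ q (by omega)⟩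

/-- what is read below the upper token -/
lemma rdA {x : F} {i j : ℕ} (g : GG n r x i j) :
    (∀ c, 1 ≤ c → c + 2 ≤ j → c + 9 ≤ n → (¬ Wl r x c ↔ c + 1 = i ∨ c = i)) ∧
      (i + 3 ≤ j → i + 14 ≤ n → per r i x = 3) := by
  obtain ⟨⟨k1, k2, k3, k4, k5⟩, k6⟩ := g
  obtain ⟨t, p⟩ := low hT h b k6 k1 k2
  rw [h.mov_comm (by omega) (by omega) (by omega) (by omega), mov_back] at t p
  refine ⟨fun c c1 c2 c3 => ?_, fun a1 a2 => ?_⟩
  · rw [← t c c1 (by omega), h.wl_mov (Or.inl ⟨by omega, by omega⟩)]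
  · rw [← p a2, h.per_mov (Or.inl ⟨by omega, by omega⟩)]

/-- what is read above the lower token -/
lemma rdB {x : F} {i j : ℕ} (g : GG n r x i j) :
    (∀ c, 8 ≤ c → i + 1 ≤ c → c + 2 ≤ n → (¬ Wl r x c ↔ c + 1 = j ∨ c = j)) ∧
      (j + 7 ≤ n → per r j x = 3) := by
  obtain ⟨⟨k1, k2, k3, k4, k5⟩, k6⟩ := g
  obtain ⟨t, p⟩ := high hT h b k6 k3 k4
  rw [mov_back] at t p
  refine ⟨fun c c1 c2 c3 => ?_, fun a1 => ?_⟩
  · rw [← t c c1 c3, h.wl_mov (Or.inr ⟨by omega, by omega⟩)]
  · rw [← p a1, h.per_mov (Or.inr ⟨by omega, by omega⟩)]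

end GRID

theorem stGRID (hTOKP : St_TOKP) (hFAR : St_FAR) : St_GRID := by
  intro F L _ _ n r φ h b
  have hn := b.big
  refine
    { rng := fun x i j g => g.1
      eqv := fun x y i j g e => ⟨g.1, GRID.bs_eqv g.2 (eqv_mov (eqv_mov e _ _) _ _)⟩
      wl := fun x i j c g c1 c2 a1 a2 a3 a4 => ?_
      m1 := fun x i j g => ?_
      m2 := fun x i j g a => ?_
      m3 := fun x i j g a => ?_
      m4 := fun x i j g => ?_
      u1 := fun x i j g a1 a2 => ?_
      d1 := fun x i j g a => ?_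
      u2 := fun x i j g a => ?_
      d2 := fun x i j g a1 a2 => ?_
      p1 := fun x i j g => (GRID.rdA hTOKP h b g).2
      p2 := fun x i j g => (GRID.rdB hTOKP h b g).2
      num := fun i j k1 k2 k3 k4 k5 => ?_
      far := (hFAR h b).1
      far' := (hFAR h b).2 }
  · have k := g.1
    by_contra w
    by_cases q : 8 ≤ c ∧ i + 1 ≤ c
    · have := ((GRID.rdB hTOKP h b g).1 c q.1 q.2 c2).1 w
      omega
    · have := ((GRID.rdA hTOKP h b g).1 c c1 (by omega) (by omega)).1 w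
      omega
  · have k := g.1
    exact ((GRID.rdA hTOKP h b g).1 i (by omega) (by omega) (by omega)).2 (Or.inl rfl)
  · have k := g.1
    exact ((GRID.rdA hTOKP h b g).1 i (by omega) a (by omega)).2 (Or.inr rfl)
  · have k := g.1
    exact ((GRID.rdB hTOKP h b g).1 j (by omega) a (by omega)).2 (Or.inl rfl)
  · have k := g.1
    exact ((GRID.rdB hTOKP h b g).1 j (by omega) (by omega) (by omega)).2 (Or.inr rfl)
  · have k := g.1
    refine ⟨by omega, ?_⟩
    rw [h.mov_from]
    exact g.2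
  · have k := g.1
    refine ⟨by omega, ?_⟩
    rw [h.mov_from']
    exact g.2
  · have k := g.1
    refine ⟨by omega, ?_⟩
    rw [← h.cap_mov (Or.inr ⟨by omega, by omega⟩), h.mov_from]
    exact g.2
  · have k := g.1
    refine ⟨by omega, ?_⟩
    rw [← h.cap_mov (Or.inr ⟨by omega, by omega⟩), h.mov_from']
    exact g.2
  · exact cnt_word (mul_mem (mov_univ j (n - 5)) (mov_univ i 5))
      fun x => ⟨fun g => g.2, fun g => ⟨⟨k1, k2, k3, k4, k5⟩, g⟩⟩

end Pool.Agent.FlagOrb.R
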