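import Pool.Agent.Lib.MP_7157e1_co.RKitC

/-! Cubic range: the flags near a simple good lower end of a leg. -/

namespace Pool.Agent.FlagOrb.R

open Equiv Set Q

theorem stJA : St_JA := by
  intro F L _ _ n r φ h P H x hx hg h0
  classical
  have hn := H.big
  obtain ⟨C, K⟩ := (h.wall (a := 0) (b := n) le_rfl x).1.exC
  have i0 : (0 : ℕ) ∈ Ico 0 3 := ⟨le_rfl, by omega⟩
  have i1 : (1 : ℕ) ∈ Ico 0 3 := ⟨by omega, by omega⟩
  have i2 : (2 : ℕ) ∈ Ico 0 3 := ⟨by omega, by omega⟩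
  have up : ∀ {z}, InD r 0 3 x z → InD r 0 n x z := fun hz => hz.mono le_rfl (by omega)
  have mem : ∀ {z c}, InD r 0 n x z → c < n → Wl r z c → rf r z c ∈ Walls r 0 n x :=
    fun hz hc hw => wall_mem hz ⟨Nat.zero_le _, hc⟩ hw
  have w1 : ∀ {z}, P z 3 → Wl r z 1 := fun hz =>
    H.leg.wl _ 3 1 hz le_rfl (by omega) (by omega) (by omega)
  have w2 : ∀ {z}, P z 3 → Wl r (r 3 z) 2 := fun hz =>
    H.leg.wl _ 4 2 (H.leg.up _ _ hz (by omega)) (by omega) (by omega) (by omega) (by omega)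
  obtain ⟨q, hq, q1, q2, q3, q4⟩ : ∃ q, IsPath (Walls r 0 n x) q 10 ∧ q 1 = rf r x 1 ∧
      q 2 = rf r (r 3 x) 2 ∧ q 3 = rf r x 4 ∧ q 4 = rf r x 5 :=
    ⟨_, h.lg_path H.leg (a := 2) (l := 0) (m := 12) (InD.refl x) hx (by omega) (by omega)
      (by omega) (by omega) (by omega) (by omega)
      (fun c _ k => by rwa [show c = 0 by omega]) (fun _ _ _ => by omega),
      lg_lo (by omega), lg_mid (a := 2), lg_hi (by omega), lg_hi (by omega)⟩
  have keep : ∀ {z c}, InD r 0 3 x z → 4 ≤ c → c ≤ 5 → Wl r z c ∧ rf r z c = rf r x c := by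
    intro z c hz c1 c2
    have w : Wl r x c := H.leg.wl x 3 c hx (by omega) (by omega) (by omega) (by omega)
    exact ⟨(h.wl_rch hz.toRch fun c' hc' => by have := hc'.2; omega).2 w,
      h.rf_rch w hz.toRch fun c' hc' => by have := hc'.2; omega⟩
  have k4 : ∀ {z}, InD r 0 3 x z → Wl r z 4 ∧ rf r z 4 = q 3 := fun hz =>
    q3 ▸ keep hz le_rfl (by omega)
  have k5 : ∀ {z}, InD r 0 3 x z → Wl r z 5 ∧ rf r z 5 = q 4 := fun hz =>
    q4 ▸ keep hz (by omega) le_rfl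
  have nbU : ∀ t ∈ Walls r 0 n x, ¬ Commute (q 3) t → t ≠ q 4 → t = q 2 := fun t ht hc hn =>
    (K.pu hq (m := 2) (by omega) (by omega) (by omega) ht hc).resolve_right hn
  have nbB : ∀ t ∈ Walls r 0 n x, ¬ Commute (q 2) t → t ≠ q 3 → t = q 1 := fun t ht hc hn =>
    (K.pu hq (m := 1) (by omega) (by omega) (by omega) ht hc).resolve_right hn
  have X1 : ∀ {z}, InD r 0 3 x z → P z 3 → rf r z 1 = q 1 ∧ rf r (r 3 z) 2 = q 2 := by
    intro z hz pz
    obtain ⟨s, hs, s0, s1, s2, s3⟩ : ∃ s, IsPath (Walls r 0 n x) s 6 ∧ s 0 = rf r z 1 ∧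
        s 1 = rf r (r 3 z) 2 ∧ s 2 = rf r z 4 ∧ s 3 = rf r z 5 :=
      ⟨_, h.lg_path H.leg (a := 2) (l := 1) (m := 9) (up hz) pz (by omega) (by omega) (by omega)
        (by omega) (by omega) (by omega) (fun _ _ _ => by omega) (fun _ _ _ => by omega),
        lg_lo (by omega), lg_mid (a := 2), lg_hi (by omega), lg_hi (by omega)⟩
    have e2 : s 2 = q 3 := s2.trans (k4 hz).2
    have e3 : s 3 = q 4 := s3.trans (k5 hz).2
    have e1 : s 1 = q 2 := nbU _ (hs.mem 1 (by omega)) (e2 ▸ adj_symm (hs.adj 1 (by omega)))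
      fun e => by have := hs.inj _ (by omega) _ (by omega) (e.trans e3.symm); omega
    refine ⟨s0 ▸ nbB _ (hs.mem 0 (by omega)) (e1 ▸ adj_symm (hs.adj 0 (by omega))) fun e => ?_,
      s1.symm.trans e1⟩
    have := hs.inj _ (by omega) _ (by omega) (e.trans e2.symm)
    omega
  have wallB : ∀ {z}, InD r 0 3 x z → Wl r z 3 → rf r z 3 = q 2 := by
    intro z hz hw
    refine nbU _ (mem (up hz) (by omega) hw) ?_ ?_
    · rw [← (k4 hz).2]
      exact adj_symm (h.rf_adj hw (k4 hz).1 (by omega))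
    · rw [← (k5 hz).2]
      exact h.rf_ne hw (k5 hz).1 (by omega) (by omega)
  have wallA : ∀ {z}, InD r 0 3 x z → Wl r z 3 → Wl r z 2 → rf r z 2 = q 1 := fun hz hw w =>
    nbB _ (mem (up hz) (by omega) w) (wallB hz hw ▸ adj_symm (h.rf_adj w hw (by omega)))
      ((k4 hz).2 ▸ h.rf_ne w (k4 hz).1 (by omega) (by omega))
  have back : ∀ {z}, InD r 0 3 x z → Wl r z 3 → ¬ Wl r z 2 → P (r 2 z) 3 := fun hz hw w =>
    hg _ (hz.next i2 w).toRch fun hw' => h.rf_step_ne (c' := 2) hw hw' (Or.inr ⟨rfl, by omega⟩)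
      ((wallB hz hw).trans (wallB (hz.next i2 w) hw').symm)
  have wp : ¬ Wl r x 2 → Wl r (r 2 x) 3 := by
    intro m2
    by_contra hw
    have hz := (InD.refl (r := r) (a := 0) (b := 3) x).next i2 m2
    have pz := hg _ hz.toRch hw
    exact h.rf_step_ne (c' := 2) (w1 hx) (w1 pz) (Or.inl ⟨rfl, by omega⟩)
      (q1.symm.trans (X1 hz pz).1.symm)
  have dq : ¬ Wl r x 2 → ¬ Wl r (r 2 x) 1 →
      InD r 0 3 x (r 1 (r 2 x)) ∧ Wl r (r 1 (r 2 x)) 3 := fun m2 m1 =>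
    ⟨((InD.refl x).next i2 m2).next i1 m1, (h.wl_far (by omega) (by omega)).2 (wp m2)⟩
  have du : JUN.B2 r x → ¬ Wl r (r 0 (r 1 (r 2 x))) 1 →
      InD r 0 3 x (r 1 (r 0 (r 1 (r 2 x)))) ∧ Wl r (r 1 (r 0 (r 1 (r 2 x)))) 3 := fun b m =>
    ⟨((dq b.1 b.2.1).1.next i0 b.2.2.2).next i1 m, (h.wl_far (by omega) (by omega)).2
      ((h.wl_far (by omega) (by omega)).2 (dq b.1 b.2.1).2)⟩
  have wo : JUN.B2 r x → Wl r (r 0 (r 1 (r 2 x))) 2 := fun b =>
    (h.wl_far (by omega) (by omega)).2 b.2.2.1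
  refine ⟨fun z hz pz => ⟨?_, (X1 hz pz).1.trans q1, (X1 hz pz).2.trans q2⟩, wp,
    fun f => back (dq f.1 f.2.1).1 (dq f.1 f.2.1).2 f.2.2,
    fun b => ⟨fun w => (wo b).eqv w, fun w => ?_⟩, fun f => ?_⟩
  · by_contra m0
    have pz' := H.z0 _ _ pz
    exact h.rf_step_ne (c' := 0) (w1 pz) (w1 pz') (Or.inr ⟨rfl, by omega⟩)
      ((X1 hz pz).1.trans (X1 (hz.next i0 m0) pz').1.symm)
  · by_contra m
    have ho := (dq b.1 b.2.1).1.next i0 b.2.2.2
    exact h.rf_step_ne (c' := 1) (wo b) w (Or.inr ⟨rfl, by omega⟩)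
      ((wallA ho ((h.wl_far (by omega) (by omega)).2 (dq b.1 b.2.1).2) (wo b)).trans
        (wallA (du b m).1 (du b m).2 w).symm)
  · have m : ¬ Wl r (r 0 (r 1 (r 2 x))) 1 := fun w => f.2 ((wo f.1).eqv w)
    exact back (du f.1 m).1 (du f.1 m).2 f.2

end Pool.Agent.FlagOrb.R
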