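import Pool.Agent.Lib.MP_7157e1_co.RKitC
import Pool.Agent.Lib.MP_7157e1_co.Q_DBL1

/-! Cubic range: the geometry at a doubled good low end of a leg. -/

namespace Pool.Agent.FlagOrb.R

open Equiv Set Q DBL1

namespace JB

variable {F L : Type} [Lattice L] [Finite F] {n : ℕ} {r : ℕ → Perm F} {φ : ℕ → F → L}
  {P : F → ℕ → Prop}

/-- the flag behind the corner has a wall of colour two, the wall of colour one of `x` -/
lemma cor (hD : St_JB0) (h : PS n r φ) (hd : DI n r φ) (H : RH n r P) {x : F} (hx : P x 3)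
    (g : Gd r P x) (h0 : ¬ Wl r x 0) :
    Wl r (r 1 (r 2 x)) 2 ∧ rf r (r 1 (r 2 x)) 2 = rf r x 1 := by
  have hn := H.big
  obtain ⟨hc, -, K⟩ := hD h P H x hx g h0
  have i1 : (1 : ℕ) ∈ Ico 0 3 := ⟨by omega, by omega⟩
  have i2 : (2 : ℕ) ∈ Ico 0 3 := ⟨by omega, by omega⟩
  have w1 : ∀ {z}, P z 3 → Wl r z 1 := fun hz =>
    H.leg.wl _ 3 1 hz le_rfl (by omega) (by omega) (by omega)
  have w1' : ∀ {z}, Rch r (Ico 0 3) x z → ¬ Wl r z 3 → Wl r (r 0 z) 1 := fun hz hw =>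
    w1 (H.z0 _ _ (g _ hz hw))
  have m3 : ¬ Wl r x 3 := H.leg.mv x 3 hx (by omega)
  have wx' := w1' (Rch.refl x) m3
  have mv : ∀ {z}, φ 1 x = φ 1 z → φ 1 (rf r (r 0 x) 1 z) = φ 1 (r 0 (r 1 (r 0 x))) := by
    intro z e
    rw [← act h (by omega) (rf_aut _ _) e, far_app h wx']
  have ne : φ 1 (r 0 (r 1 (r 0 x))) ≠ φ 1 x := fun e =>
    off h (by omega) x (e.le.trans (h.lt 1 x (by omega)).le)
  have rp : Rch r (Ico 0 3) x (r 1 (r 2 x)) := (Rch.step i2 x).next i1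
  have w3 : Wl r (r 1 (r 2 x)) 3 :=
    (h.wl_far (by omega) (by omega)).2 ((K x (Rch.refl x)).1 m3).2.2.1
  have v1 : φ 1 x = φ 1 (r 1 (r 2 x)) := by
    rw [h.same 1 1 _ (by omega), h.same 2 1 _ (by omega)]
  have v2 : φ 1 x = φ 1 (r 2 (r 1 (r 2 x))) := by rw [h.same 2 1 _ (by omega), ← v1]
  have w2 : Wl r (r 1 (r 2 x)) 2 := by
    by_contra hw
    have mz := (K _ rp).2.1 w3 hw
    have rz := rp.next i2
    have pz := g _ rz mz
    obtain ⟨-, -, -, e | e⟩ := (K _ rz).1 mz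
    · have d1 := diag h hd (by omega) (sq4 h (w1 hx) wx' hc)
      have d2 := diag h hd (by omega) (sq4 h (w1 pz) (w1' rz mz) (by rw [e.1, e.2]; exact hc))
      rw [← far_app h (w1' rz mz), e.2, mv v2, ← v2, d1] at d2
      apply h.ne_face (c := 1) (by omega) (r 2 x)
      rw [← h.meet 2 (r 1 (r 2 x)) (by omega), ← d2, h.same 1 3 _ (by omega), inf_comm,
        h.meet 2 x (by omega), h.same 2 2 _ (by omega)]
    · apply ne
      rw [← mv v2, ← e.1, rf_app (w1 pz), h.same 1 1 _ (by omega), ← v2]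
  refine ⟨w2, ((K _ rp).2.2 w3 w2).resolve_right fun e => ne ?_⟩
  rw [← mv v1, ← e, rf_app w2, ← v2]

end JB

theorem stJB (hJB0 : St_JB0) : St_JB := by
  intro F L _ _ n r φ h hd P H x hx g h0
  have hn := H.big
  obtain ⟨-, eB, K⟩ := hJB0 h P H x hx g h0
  have i0 : (0 : ℕ) ∈ Ico 0 3 := ⟨le_rfl, by omega⟩
  have i1 : (1 : ℕ) ∈ Ico 0 3 := ⟨by omega, by omega⟩
  have i2 : (2 : ℕ) ∈ Ico 0 3 := ⟨by omega, by omega⟩
  have j0 : (0 : ℕ) ∈ Ico 0 2 := ⟨le_rfl, by omega⟩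
  have j1 : (1 : ℕ) ∈ Ico 0 2 := ⟨by omega, by omega⟩
  have w1 : ∀ {z}, P z 3 → Wl r z 1 := fun hz =>
    H.leg.wl _ 3 1 hz le_rfl (by omega) (by omega) (by omega)
  have m3 : ¬ Wl r x 3 := H.leg.mv x 3 hx (by omega)
  have nx : ∀ {z}, Rch r (Ico 0 3) x z → ¬ Wl r z 3 →
      Wl r (r 1 (r 0 (r 2 z))) 2 ∧ rf r (r 1 (r 0 (r 2 z))) 2 = rf r (r 0 z) 1 := by
    intro z hz hw
    have k := (K _ (hz.next i0)).1 (by rwa [h.wl_far (by omega) (by omega)])
    rw [h.capp (c := 0) (c' := 2) le_rfl]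
    exact JB.cor hJB0 h hd H (H.z0 _ _ (g _ hz hw)) (g.orb (hz.next i0)) k.1
  have m2 : ¬ Wl r x 2 := ((K x (Rch.refl x)).1 m3).2.1
  have wp : Wl r (r 2 x) 3 := ((K x (Rch.refl x)).1 m3).2.2.1
  have rp : Rch r (Ico 0 3) x (r 1 (r 2 x)) := (Rch.step i2 x).next i1
  have w3 : Wl r (r 1 (r 2 x)) 3 := (h.wl_far (by omega) (by omega)).2 wp
  obtain ⟨w2, e2⟩ := JB.cor hJB0 h hd H hx g h0
  have px := H.z0 _ _ hx
  obtain ⟨wc, ec⟩ := nx (Rch.refl x) m3
  have wa : Wl r (r 0 (r 1 (r 2 x))) 2 := (h.wl_far (by omega) (by omega)).2 w2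
  have ea : rf r (r 0 (r 1 (r 2 x))) 2 = rf r x 1 := by
    rw [h.rf_step w2 (by omega) (by omega), e2]
  have rw' : Rch r (Ico 0 3) x (r 1 (r 0 (r 1 (r 2 x)))) := (rp.next i0).next i1
  have ww : Wl r (r 1 (r 0 (r 1 (r 2 x)))) 3 :=
    (h.wl_far (by omega) (by omega)).2 ((h.wl_far (by omega) (by omega)).2 w3)
  have rc : Rch r (Ico 0 2) (r 1 (r 0 (r 2 x))) (r 1 (r 0 (r 1 (r 2 x)))) :=
    ((Rch.step j0 (r 2 x)).next j1).symm.trans (((Rch.step j1 (r 2 x)).next j0).next j1)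
  refine ⟨⟨by omega, fun _ => m2, fun _ => ⟨fun w => m2 (h.wl_step.1 (w2.eqv (Eqv.symm w))), w2⟩,
    fun k => by omega⟩, wp, eB, e2, ?_⟩
  by_cases hw : Wl r (r 1 (r 0 (r 1 (r 2 x)))) 2
  · refine Or.inl ⟨?_, hw⟩
    have e := ((K _ rw').2.2 ww hw).resolve_left fun e =>
      h.rf_step_ne (c' := 1) wa hw (Or.inr ⟨rfl, by omega⟩) (ea.trans e.symm)
    rcases two h (by omega) rc wc hw (ec.trans e.symm) with t | t
    · exact absurd ((r 0).injective ((r 1).injective t)) (h.fpf (by omega) _)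
    · exact h.per_of_braid (l := 0) (by omega) t.symm
  · right
    have my := (K _ rw').2.1 ww hw
    have ry := rw'.next i2
    have py := g _ ry my
    obtain ⟨y0, -, -, ey⟩ := (K _ ry).1 my
    refine ⟨?_, hw, py, y0⟩
    have c1 := (JB.cor hJB0 h hd H py (g.orb ry) y0).2
    obtain ⟨wb, eb⟩ := nx ry my
    rw [h.rr] at wb eb
    rw [h.rr, h.rr, ea] at c1
    have AA : rf r x 1 ≠ rf r (r 0 x) 1 :=
      h.rf_step_ne (w1 hx) (w1 px) (Or.inr ⟨rfl, by omega⟩)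
    have e := (ey.resolve_right fun t => AA (c1.trans t.1)).2
    rcases two h (by omega) ((rc.next j0).next j1) wc wb (ec.trans (eb.trans e).symm)
      with t | t
    · have t1 := congrArg (r 1) ((r 0).injective ((r 1).injective t))
      rw [h.rr] at t1
      exact absurd t1 (h.fpf (by omega) _)
    · have h1 : per r 0 (r 2 x) ∣ 4 := by
        rw [per_dvd, show 4 = 1 + 1 + 1 + 1 from rfl]
        simp only [pow_succ, pow_zero, one_mul, Perm.mul_apply, zero_add]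
        rw [t]
        simp only [h.rr]
      have h2 := h.per_ge (l := 0) (by omega) (r 2 x)
      have h3 := Nat.le_of_dvd (by norm_num) h1
      have : per r 0 (r 2 x) = 3 ∨ per r 0 (r 2 x) = 4 := by omega
      rcases this with t3 | t3
      · rw [t3] at h1
        exact absurd h1 (by decide)
      · exact t3

end Pool.Agent.FlagOrb.R
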