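import Pool.Agent.Lib.MP_7157e1_co.RKitC

/-! Cubic range: the junctions at the good lower ends. -/

namespace Pool.Agent.FlagOrb.R

open Equiv Set Q

namespace JC

section Pure

variable {F : Type} {r : ℕ → Perm F} {x : F}

lemma J_F1 (k : JUN.F1 r x) : Jf r x = r 2 (r 1 (r 2 x)) := by
  unfold Jf; rw [if_pos k]

lemma nF1 (k : F0 r x) : ¬ JUN.F1 r x := fun f => f.2.2 k.1.2.2.1

lemma J_F0 (k : F0 r x) : Jf r x = r 2 (r 1 (r 0 (r 1 (r 2 x)))) := by
  unfold Jf; rw [if_neg (nF1 k), if_pos k]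

lemma J_fix (k1 : ¬ JUN.F1 r x) (k0 : ¬ F0 r x) : Jf r x = x := by
  unfold Jf; rw [if_neg k1, if_neg k0]

lemma wt0 (x : F) : Wt r x 0 :=
  ⟨by omega, fun k => by omega, fun k => by omega, fun k => by omega⟩

lemma wt1 (k : ¬ Wl r x 2) : Wt r x 1 :=
  ⟨by omega, fun _ => k, fun k => by omega, fun k => by omega⟩

lemma wt2 (k : ¬ Wl r x 2) (k1 : ¬ Wl r (r 2 x) 1) (k2 : Wl r (r 1 (r 2 x)) 2) : Wt r x 2 :=
  ⟨by omega, fun _ => k, fun _ => ⟨k1, k2⟩, fun k => by omega⟩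

lemma wt3 (k : Wt r x 2) (k1 : ¬ Wl r (r 1 (r 2 x)) 0)
    (k2 : Wl r (r 1 (r 0 (r 1 (r 2 x)))) 2) : Wt r x 3 :=
  ⟨by omega, fun _ => k.2.1 (by omega), fun _ => k.2.2.1 (by omega), fun _ => ⟨k1, k2⟩⟩

end Pure

variable {F L : Type} [Lattice L] {n : ℕ} {r : ℕ → Perm F} {φ : ℕ → F → L} (h : PS n r φ)
include h

lemma w02 (y : F) : Wl r (r 0 y) 2 ↔ Wl r y 2 := h.wl_far (by omega) (by omega)

lemma w20 (y : F) : Wl r (r 2 y) 0 ↔ Wl r y 0 := h.wl_far (by omega) (by omega)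

lemma c02 (y : F) : r 2 (r 0 y) = r 0 (r 2 y) := (h.capp (c := 0) (c' := 2) (by omega) y).symm

lemma F1_back {x : F} (k : JUN.F1 r x) : JUN.F1 r (r 2 (r 1 (r 2 x))) := by
  obtain ⟨k1, k2, k3⟩ := k
  refine ⟨fun w => k3 (h.wl_step.1 w), ?_, ?_⟩
  · rw [h.rr]; exact fun w => k2 (h.wl_step.1 w)
  · rw [h.rr, h.rr]; exact fun w => k1 (h.wl_step.1 w)

lemma F1_inD {x : F} (k : JUN.F1 r x) : InD r 0 3 x (r 2 (r 1 (r 2 x))) := by
  have _ := h
  exact (((InD.refl x).next (by simp) k.1).next (by simp) k.2.1).next (by simp) k.2.2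

lemma F0_mv {x : F} (k : F0 r x) : ¬ Wl r (r 0 (r 1 (r 2 x))) 1 := fun w =>
  k.2 (((w02 h _).2 k.1.2.2.1).eqv w)

lemma F0_back {x : F} (k : F0 r x) : F0 r (r 2 (r 1 (r 0 (r 1 (r 2 x))))) := by
  have m := F0_mv h k
  obtain ⟨⟨k1, k2, k3, k4⟩, k5⟩ := k
  refine ⟨⟨fun w => k5 (h.wl_step.1 w), ?_, ?_, ?_⟩, ?_⟩
  · rw [h.rr]; exact fun w => m (h.wl_step.1 w)
  · rw [h.rr, h.rr]; exact (w02 h _).2 k3
  · rw [h.rr, h.rr]; exact fun w => k4 (h.wl_step.1 w)
  · rw [h.rr, h.rr, h.rr, h.rr]; exact fun w => k1 (h.wl_step.1 w)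

lemma F0_inD {x : F} (k : F0 r x) : InD r 0 3 x (r 2 (r 1 (r 0 (r 1 (r 2 x))))) :=
  (((((InD.refl x).next (by simp) k.1.1).next (by simp) k.1.2.1).next (by simp)
    k.1.2.2.2).next (by simp) (F0_mv h k)).next (by simp) k.2

lemma oct {p : F} (k : per r 0 p = 4) :
    r 1 (r 0 (r 1 (r 0 p))) = r 0 (r 1 (r 0 (r 1 p))) := by
  have e : ((r 0 * r (0 + 1)) ^ 4) p = p := per_dvd.1 (by rw [k])
  have e' : r 0 (r 1 (r 0 (r 1 (r 0 (r 1 (r 0 (r 1 p))))))) = p := by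
    simpa [pow_succ, Perm.mul_apply] using e
  conv_lhs => rw [← e']
  rw [h.rr, h.rr, h.rr, h.rr]

lemma oct_wl {p : F} (k : per r 0 p = 4) (w : Wl r (r 1 p) 0) : Wl r (r 1 (r 0 p)) 0 := by
  have e1 : Eqv r (r 1 (r 0 (r 1 (r 1 p)))) (r 1 (r 0 (r 1 (r 0 (r 1 p))))) :=
    ((Eqv.step w 1).step 0).step 1
  rw [h.rr, ← oct h k, h.rr] at e1
  exact e1

end JC

open JC in
theorem stJC (hJA : St_JA) (hJB : St_JB) : St_JC := by
  intro F L _ _ n r φ h hD P H
  have hn := H.big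
  have r0 : ∀ x : F, Rch r (Ico 0 3) x (r 0 x) := fun x => Rch.step (by simp) x
  have f10 : ∀ x, P x 3 → Gd r P x → JUN.F1 r x → Wl r x 0 := fun x p g f => by
    by_contra w
    exact f.2.2 ((hJB h hD P H x p g w).1.2.2.1 le_rfl).2
  have pF0 : ∀ x, P x 3 → Gd r P x → F0 r x → P (r 2 (r 1 (r 0 (r 1 (r 2 x))))) 3 :=
    fun x p g f => by
      by_cases w : Wl r x 0
      · exact (hJA h P H x p g w).2.2.2.2 f
      · rcases (hJB h hD P H x p g w).2.2.2.2 with k | k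
        · exact absurd k.2 f.2
        · exact k.2.2.1
  have inv : ∀ x, P x 3 → Gd r P x → P (Jf r x) 3 ∧ Jf r (Jf r x) = x ∧
      (JUN.F1 r (Jf r x) ↔ JUN.F1 r x) ∧ InD r 0 3 x (Jf r x) := fun x p g => by
    by_cases f : JUN.F1 r x
    · rw [J_F1 f]
      refine ⟨(hJA h P H x p g (f10 x p g f)).2.2.1 f, ?_, iff_of_true (F1_back h f) f,
        F1_inD h f⟩
      rw [J_F1 (F1_back h f), h.rr, h.rr, h.rr]
    · by_cases f0 : F0 r x
      · rw [J_F0 f0]
        refine ⟨pF0 x p g f0, ?_, iff_of_false (nF1 (F0_back h f0)) f, F0_inD h f0⟩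
        rw [J_F0 (F0_back h f0), h.rr, h.rr, h.rr, h.rr, h.rr]
      · rw [J_fix f f0, J_fix f f0]
        exact ⟨p, rfl, Iff.rfl, InD.refl x⟩
  refine ⟨inv, fun x p g => ?_, fun x p g f => ?_, fun x p g => ?_, fun x p g m => ?_,
    fun x j c p g wt hc => ?_⟩
  · by_cases w : Wl r x 0
    · exact ((hJA h P H x p g w).1 _ (inv x p g).2.2.2 (inv x p g).1).2
    · obtain ⟨b1, b2, b3, b4, b5⟩ := hJB h hD P H x p g w
      have f : ¬ JUN.F1 r x := fun f => w (f10 x p g f)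
      by_cases f0 : F0 r x
      · rw [J_F0 f0]
        rcases b5 with k | k
        · exact absurd k.2 f0.2
        · obtain ⟨-, -, d3, d4, -⟩ :=
            hJB h hD P H _ k.2.2.1 (g.orb (F0_inD h f0).toRch) k.2.2.2
          rw [h.rr] at d3
          rw [h.rr, h.rr] at d4
          refine ⟨?_, ?_⟩
          · rw [← d4, ← b4]
            exact h.rf_step f0.1.2.2.1 (by omega) (by omega)
          · have a1 : Wl r (r 1 (r 2 x)) 3 := (h.wl_far (by omega) (by omega)).2 b2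
            have a2 : Wl r (r 0 (r 1 (r 2 x))) 3 := (h.wl_far (by omega) (by omega)).2 a1
            rw [← d3, ← b3, h.rf_step a2 (by omega) (by omega),
              h.rf_step a1 (by omega) (by omega), h.rf_step b2 (by omega) (by omega)]
      · rw [J_fix f f0]
        exact ⟨rfl, rfl⟩
  · have w := f10 x p g f
    have wz := ((hJA h P H x p g w).1 _ (inv x p g).2.2.2 (inv x p g).1).1
    refine ⟨w, wz, ?_⟩
    rw [J_F1 f] at wz ⊢
    have wq := (w20 h _).1 wz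
    rw [h.rf_step wq (by omega) (by omega), ← h.rf_step (c' := 2) w (by omega) (by omega)]
    exact (h.rf_step_ne ((w20 h _).2 w) wq (Or.inl ⟨rfl, by omega⟩)).symm
  · by_cases w : Wl r x 0
    · have wz := ((hJA h P H x p g w).1 _ (inv x p g).2.2.2 (inv x p g).1).1
      exact (Jf_eqv (Eqv.symm w)).trans wz
    · obtain ⟨b1, -, -, -, b5⟩ := hJB h hD P H x p g w
      obtain ⟨d1, -, -, -, d5⟩ := hJB h hD P H _ (H.z0 x 3 p) (g.orb (r0 x))
        fun k => w (h.wl_step.1 k)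
      have f : ¬ JUN.F1 r x := fun f => f.2.2 (b1.2.2.1 le_rfl).2
      have f' : ¬ JUN.F1 r (r 0 x) := fun f => f.2.2 (d1.2.2.1 le_rfl).2
      have ep : per r 0 (r 2 (r 0 x)) = per r 0 (r 2 x) := by
        rw [c02 h]; exact h.per_step (by omega) (by omega) _
      have triv : ¬ F0 r x → ¬ F0 r (r 0 x) → Eqv r (Jf r (r 0 x)) (r 0 (Jf r x)) :=
        fun a b => by rw [J_fix f a, J_fix f' b]; exact Eqv.refl _
      rcases b5 with k | k
      · rcases d5 with k' | k'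
        · exact triv (fun a => a.2 k.2) fun a => a.2 k'.2
        · omega
      · rcases d5 with k' | k'
        · omega
        · by_cases wq : Wl r (r 1 (r 2 x)) 0
          · refine triv (fun a => a.1.2.2.2 wq) fun a => a.1.2.2.2 ?_
            rw [c02 h]; exact oct_wl h k.1 wq
          · have wq' : ¬ Wl r (r 1 (r 2 (r 0 x))) 0 := fun a => by
              have := oct_wl h k'.1 a
              rw [c02 h, h.rr] at this
              exact wq this
            have a : F0 r x :=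
              ⟨⟨b1.2.1 (by omega), (b1.2.2.1 le_rfl).1, (b1.2.2.1 le_rfl).2, wq⟩, k.2.1⟩
            have a' : F0 r (r 0 x) :=
              ⟨⟨d1.2.1 (by omega), (d1.2.2.1 le_rfl).1, (d1.2.2.1 le_rfl).2, wq'⟩, k'.2.1⟩
            rw [J_F0 a, J_F0 a', c02 h x, oct h k.1, c02 h]
            exact Eqv.refl _
  · by_cases w : Wl r x 0
    · exact (hJA h P H x p g w).2.1 m
    · exact (hJB h hD P H x p g w).2.1
  · by_cases w : Wl r (mov r 3 (3 - j) x) c
    · exact ⟨x, j, Or.inl rfl, wt, Eqv.symm w⟩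
    have hj := wt.1
    obtain rfl | rfl | rfl | rfl : j = 0 ∨ j = 1 ∨ j = 2 ∨ j = 3 := by omega
    · rw [h.mov30] at w ⊢
      obtain rfl | rfl | rfl : c = 0 ∨ c = 1 ∨ c = 2 := by omega
      · exact ⟨r 0 x, 0, Or.inr (Or.inr rfl), wt0 _, by rw [h.mov30]; exact Eqv.refl _⟩
      · exact absurd (H.leg.wl x 3 1 p (by omega) (by omega) (by omega) (by omega)) w
      · exact ⟨x, 1, Or.inl rfl, wt1 w, by rw [h.mov31]; exact Eqv.refl _⟩
    · rw [h.mov31] at w ⊢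
      have m := wt.2.1 le_rfl
      obtain rfl | rfl | rfl : c = 0 ∨ c = 1 ∨ c = 2 := by omega
      · exact ⟨r 0 x, 1, Or.inr (Or.inr rfl), wt1 fun k => m ((w02 h _).1 k),
          by rw [h.mov31, c02 h]; exact Eqv.refl _⟩
      · by_cases wq : Wl r (r 1 (r 2 x)) 2
        · exact ⟨x, 2, Or.inl rfl, wt2 m w wq, by rw [h.mov32]; exact Eqv.refl _⟩
        · have f : JUN.F1 r x := ⟨m, w, wq⟩
          refine ⟨Jf r x, 1, Or.inr (Or.inl rfl), ?_, ?_⟩
          · rw [J_F1 f]; exact wt1 (F1_back h f).1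
          · rw [J_F1 f, h.mov31, h.rr]; exact Eqv.refl _
      · exact ⟨x, 0, Or.inl rfl, wt0 _, by rw [h.mov30, h.rr]; exact Eqv.refl _⟩
    · rw [h.mov32] at w ⊢
      have m := wt.2.1 (by omega)
      obtain ⟨m1, m2⟩ := wt.2.2.1 le_rfl
      obtain rfl | rfl | rfl : c = 0 ∨ c = 1 ∨ c = 2 := by omega
      · by_cases wu : Wl r (r 1 (r 0 (r 1 (r 2 x)))) 2
        · exact ⟨x, 3, Or.inl rfl, wt3 wt w wu, by rw [h.mov33]; exact Eqv.refl _⟩
        · have f : F0 r x := ⟨⟨m, m1, m2, w⟩, wu⟩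
          have b := (F0_back h f).1
          refine ⟨Jf r x, 2, Or.inr (Or.inl rfl), ?_, ?_⟩
          · rw [J_F0 f]; exact wt2 b.1 b.2.1 b.2.2.1
          · rw [J_F0 f, h.mov32, h.rr, h.rr]; exact Eqv.refl _
      · exact ⟨x, 1, Or.inl rfl, wt1 m, by rw [h.mov31, h.rr]; exact Eqv.refl _⟩
      · exact absurd m2 w
    · rw [h.mov33] at w ⊢
      have m := wt.2.1 (by omega)
      obtain ⟨m1, m2⟩ := wt.2.2.1 (by omega)
      obtain ⟨m3, m4⟩ := wt.2.2.2 le_rfl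
      obtain rfl | rfl | rfl : c = 0 ∨ c = 1 ∨ c = 2 := by omega
      · exact ⟨x, 2, Or.inl rfl, wt2 m m1 m2, by rw [h.mov32, h.rr]; exact Eqv.refl _⟩
      · by_cases w0 : Wl r x 0
        · exact absurd (((hJA h P H x p g w0).2.2.2.1 ⟨m, m1, m2, m3⟩).2 m4) w
        · obtain ⟨-, -, -, -, b5⟩ := hJB h hD P H x p g w0
          obtain ⟨d1, -, -, -, d5⟩ := hJB h hD P H _ (H.z0 x 3 p) (g.orb (r0 x))
            fun k => w0 (h.wl_step.1 k)
          have ep : per r 0 (r 2 (r 0 x)) = per r 0 (r 2 x) := by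
            rw [c02 h]; exact h.per_step (by omega) (by omega) _
          have p3 : per r 0 (r 2 x) = 3 := by
            rcases b5 with k | k
            · exact k.1
            · exact absurd m4 k.2.1
          have br : r 0 (r 1 (r 2 (r 0 x))) = r 1 (r 0 (r 1 (r 2 x))) := by
            rw [c02 h]; exact h.braid p3
          refine ⟨r 0 x, 3, Or.inr (Or.inr rfl), wt3 d1 (fun a => ?_) ?_, ?_⟩
          · have e : Eqv r (r 1 (r 1 (r 2 (r 0 x)))) (r 1 (r 0 (r 1 (r 2 (r 0 x))))) :=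
              Eqv.step a 1
            rw [br, h.rr, h.rr] at e
            exact d1.2.1 (by omega) (h.wl_step.1 (((w02 h _).2 m2).eqv e.symm))
          · rcases d5 with k | k
            · exact k.2
            · omega
          · rw [h.mov33, br]; exact Eqv.refl _
      · exact absurd ((w02 h _).2 m2) w

end Pool.Agent.FlagOrb.R
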