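import Pool.Agent.Lib.MP_7157e1_co.RKitC

/-! Descent along the walls of a grid flag. -/

namespace Pool.Agent.FlagOrb.R

open Equiv Set Q

theorem stKD : St_KD := by
  intro F L _ _ n r φ h A G H x0 g i j q hg k hj hq e1 e2
  classical
  obtain ⟨C, K⟩ := (h.wall le_rfl x0).1.exC
  obtain ⟨i1, i2, j1, j2, ij⟩ := H.rng g i j k
  have d1 : ∀ t, t ≤ 5 → rf r g (j + 1 + t) = q (j - 1 + t) := fun t ht =>
    h.desc K hq (by omega) hg (c := j + 1) (m := j - 1) (n - 5 - j) (by omega) (by omega)
      (by omega) (fun d a b => H.wl g i j d k (by omega) (by omega) (by omega) (by omega)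
        (by omega) (by omega))
      (by rwa [show j + 1 + (n - 5 - j) = n - 4 by omega, show j - 1 + (n - 5 - j) = n - 6 by omega])
      (by rwa [show j + 1 + (n - 5 - j) + 1 = n - 3 by omega,
        show j - 1 + (n - 5 - j) + 1 = n - 5 by omega]) t (by omega)
  have u2 : ∀ t, t ≤ 7 → G (mov r j (j + t) g) i (j + t) ∧ InD r 0 n x0 (mov r j (j + t) g) := by
    intro t
    induction t with
    | zero => exact fun _ => by rw [Nat.add_zero, mov_self]; exact ⟨k, hg⟩
    | succ t ih =>
      intro ht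
      obtain ⟨a, b⟩ := ih (by omega)
      rw [← Nat.add_assoc, h.mov_succ]
      exact ⟨H.u2 _ _ _ a (by omega), b.next ⟨by omega, by omega⟩ (H.m4 _ _ _ a)⟩
  have f1 : ∀ t, t ≤ 5 → Wl r (mov r j (j + t + 1 + 1) g) (j + t) ∧
      rf r (mov r j (j + t + 1 + 1) g) (j + t) = q (j - 1 + t) := by
    intro t ht
    have w := H.wl g i j (j + t + 1) k (by omega) (by omega) (by omega) (by omega) (by omega)
      (by omega)
    have w' := H.wl _ i _ (j + t) (u2 (t + 1 + 1) (by omega)).1 (by omega) (by omega) (by omega)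
      (by omega) (by omega) (by omega)
    refine ⟨w', ?_⟩
    rw [← d1 t ht, show j + 1 + t = j + t + 1 by omega,
      ← h.rf_mov (i := j) (j := j + t) (by omega) w]
    rw [← Nat.add_assoc, ← Nat.add_assoc, h.mov_succ, h.mov_succ] at w'
    rw [h.mov_succ, h.mov_succ]
    exact ((h.hex (by omega) ((h.wl_mov (by omega) g).2 w) w').1
      (H.p2 _ _ _ (u2 t (by omega)).1 (by omega))).symm
  obtain ⟨k7, hy⟩ := u2 7 le_rfl
  have a4 : rf r (mov r j (j + 7) g) (j + 4) = q (j - 1 + 4) := by
    rw [← (f1 4 (by omega)).2, show j + 7 = j + 4 + 1 + 1 + 1 by omega, h.mov_succ,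
      h.rf_step (f1 4 (by omega)).1 (by omega) (by omega)]
  have a5 : rf r (mov r j (j + 7) g) (j + 5) = q (j - 1 + 5) := (f1 5 le_rfl).2
  have ry : Rch r (Ici 2) g (mov r j (j + 7) g) :=
    (h.mov_rch (a := 2) (b := n) (by omega) (by omega) (by omega) (by omega) g).mono
      Ico_subset_Ici_self
  generalize mov r j (j + 7) g = y at k7 hy a4 a5 ry
  have d2 : ∀ t, t ≤ 1 → rf r y (i + 1 + t) = q (i + t) := fun t ht =>
    h.desc K hq (by omega) hy (c := i + 1) (m := i) (j + 3 - i) (by omega) (by omega)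
      (by omega) (fun d a b => H.wl y i _ d k7 (by omega) (by omega) (by omega) (by omega)
        (by omega) (by omega))
      (by rwa [show i + 1 + (j + 3 - i) = j + 4 by omega,
        show i + (j + 3 - i) = j - 1 + 4 by omega])
      (by rwa [show i + 1 + (j + 3 - i) + 1 = j + 5 by omega,
        show i + (j + 3 - i) + 1 = j - 1 + 5 by omega]) t (by omega)
  have u1 : ∀ t, t ≤ 3 → G (mov r i (i + t) y) (i + t) (j + 7) ∧
      InD r 0 n x0 (mov r i (i + t) y) := by
    intro t
    induction t with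
    | zero => exact fun _ => by rw [Nat.add_zero, mov_self]; exact ⟨k7, hy⟩
    | succ t ih =>
      intro ht
      obtain ⟨a, b⟩ := ih (by omega)
      rw [← Nat.add_assoc, h.mov_succ]
      exact ⟨H.u1 _ _ _ a (by omega) (by omega),
        b.next ⟨by omega, by omega⟩ (H.m2 _ _ _ a (by omega))⟩
  have f2 : ∀ t, t ≤ 1 → Wl r (mov r i (i + t + 1 + 1) y) (i + t) ∧
      rf r (mov r i (i + t + 1 + 1) y) (i + t) = q (i + t) := by
    intro t ht
    have w := H.wl y i _ (i + t + 1) k7 (by omega) (by omega) (by omega) (by omega) (by omega)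
      (by omega)
    have w' := H.wl _ _ _ (i + t) (u1 (t + 1 + 1) (by omega)).1 (by omega) (by omega) (by omega)
      (by omega) (by omega) (by omega)
    refine ⟨w', ?_⟩
    rw [← d2 t ht, show i + 1 + t = i + t + 1 by omega,
      ← h.rf_mov (i := i) (j := i + t) (by omega) w]
    rw [← Nat.add_assoc, ← Nat.add_assoc, h.mov_succ, h.mov_succ] at w'
    rw [h.mov_succ, h.mov_succ]
    exact ((h.hex (by omega) ((h.wl_mov (by omega) y).2 w) w').1
      (H.p1 _ _ _ (u1 t (by omega)).1 (by omega) (by omega))).symm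
  obtain ⟨k3, hz⟩ := u1 3 le_rfl
  have b0 : rf r (mov r i (i + 3) y) i = q i := by
    have : Wl r (mov r i (i + 1 + 1) y) i ∧ rf r (mov r i (i + 1 + 1) y) i = q i := f2 0 (by omega)
    rw [← this.2, show i + 3 = i + 1 + 1 + 1 by omega, h.mov_succ,
      h.rf_step this.1 (by omega) (by omega)]
  have b1 : rf r (mov r i (i + 3) y) (i + 1) = q (i + 1) := (f2 1 le_rfl).2
  refine ⟨_, ry.trans ((h.mov_rch (a := 2) (b := n) (i := i) (j := i + 3) (by omega) (by omega)
    (by omega) (by omega) y).mono Ico_subset_Ici_self),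
    H.wl _ _ _ 1 k3 le_rfl (by omega) (by omega) (by omega) (by omega) (by omega), ?_⟩
  exact h.desc K hq (by omega) hz (c := 1) (m := 1) (i - 1) le_rfl (by omega)
    (by omega) (fun d a b => H.wl _ _ _ d k3 (by omega) (by omega) (by omega) (by omega)
      (by omega) (by omega))
    (by rwa [show 1 + (i - 1) = i by omega]) (by rwa [show 1 + (i - 1) = i by omega]) 0 (by omega)

end Pool.Agent.FlagOrb.R
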