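import Pool.Agent.Lib.MP_7157e1_co.RKitC

/-! The walls along a full pure leg. -/

namespace Pool.Agent.FlagOrb.R

open Equiv Set Q

namespace LEGP

variable {F L : Type} [Lattice L] [Finite F] {n : ℕ} {r : ℕ → Perm F} {φ : ℕ → F → L}
  {P : F → ℕ → Prop} (h : PS n r φ) (H : RH n r P) {x : F} (p : P x 3)
include h H p

omit [Finite F] in
lemma pos {i : ℕ} (i1 : 3 ≤ i) (i2 : i + 3 ≤ n) : P (mov r 3 i x) i :=
  (h.lg_norm H.leg p i1 (by omega)).1

omit [Finite F] in
lemma hi {i c : ℕ} (i1 : 3 ≤ i) (c1 : i + 1 ≤ c) (c2 : c + 2 ≤ n) :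
    rf r (mov r 3 i x) c = lg r x 3 (c - 1) := by
  rw [h.rf_mov (Or.inr ⟨by omega, c1⟩) (H.leg.wl x 3 c p (by omega) (by omega) (by omega) (by omega)),
    lg_hi (by omega), show c - 1 + 1 = c by omega]

lemma lo {i c : ℕ} (i2 : i + 3 ≤ n) (c1 : 1 ≤ c) (c2 : c + 2 ≤ i) :
    rf r (mov r 3 i x) c = lg r x 3 c := by
  have hn := H.big
  have w : Wl r (mov r 3 (c + 2) x) c :=
    H.leg.wl _ (c + 2) c (pos h H p (by omega) (by omega)) c1 (by omega) (by omega) (by omega)
  rw [← mov_mov 3 (c + 2) i x, h.rf_mov (Or.inl ⟨le_rfl, c2⟩) w]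
  rcases Nat.lt_or_ge c 3 with k | k
  · obtain rfl | rfl : c = 1 ∨ c = 2 := by omega
    · rw [mov_self, lg_lo (by omega)]
    · rw [h.mov_up 3 x]
      exact (lg_mid (a := 2)).symm
  · have py := pos h H p k (by omega)
    have e : mov r 3 (c + 2) x = r (c + 1) (r c (mov r 3 c x)) := by
      rw [h.mov_succ 3 (c + 1), h.mov_succ 3 c]
    rw [e] at w ⊢
    have wy : Wl r (mov r 3 c x) (c + 1) :=
      H.leg.wl _ c _ py (by omega) (by omega) (by omega) (by omega)
    rw [← (h.hex (by omega) wy w).1 (H.leg.str _ c py (by omega)), hi h H p k le_rfl (by omega),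
      show c + 1 - 1 = c by omega]

lemma top {j : ℕ} (j1 : 1 ≤ j) (j2 : j + 3 ≤ n) :
    lg (rev n r) (mov r 3 (n - 3) x) 3 j = lg r x 3 (n - 2 - j) := by
  have hn := H.big
  rcases Nat.lt_or_ge j 3 with k | k
  · obtain rfl | rfl : j = 1 ∨ j = 2 := by omega
    · rw [lg_lo (by omega), h.rf_rev (by omega), hi h H p (by omega) (by omega) (by omega)]
      congr 1
    · rw [show lg (rev n r) (mov r 3 (n - 3) x) 3 2 =
        rf (rev n r) (rev n r 3 (mov r 3 (n - 3) x)) 2 from lg_mid (a := 2), h.rf_rev (by omega),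
        rev_lt (by omega), show n - 3 = n - 1 - 3 + 1 by omega, ← h.mov_pred,
        hi h H p (by omega) (by omega) (by omega)]
      congr 1
  · rw [lg_hi k, h.rf_rev (by omega), lo h H p (by omega) (by omega) (by omega)]
    congr 1
    omega

lemma one : ML n (rev n r) (mov r 3 (n - 3) x) = ML n r x := by
  have hn := H.big
  ext g
  constructor
  · rintro ⟨j, j1, j2, rfl⟩
    exact ⟨n - 2 - j, by omega, by omega, top h H p j1 j2⟩
  · rintro ⟨j, j1, j2, rfl⟩
    refine ⟨n - 2 - j, by omega, by omega, ?_⟩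
    rw [top h H p (by omega) (by omega)]
    congr 1
    omega

lemma two : ML n r x ⊆ SB n r 4 (r 3 x) := by
  have hn := H.big
  have p4 := pos h H p (i := 4) (by omega) (by omega)
  have p5 := pos h H p (i := 5) (by omega) (by omega)
  have e4 : mov r 3 4 x = r 3 x := h.mov_up 3 x
  have e5 : mov r 3 5 x = r 4 (r 3 x) := by rw [h.mov_succ 3 4, e4]
  rintro g ⟨j, j1, j2, rfl⟩
  rcases Nat.lt_or_ge j 4 with k | k
  · rcases Nat.lt_or_ge j 3 with k' | k'
    · refine ⟨j, by omega, Or.inl ?_⟩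
      rw [← e4]
      exact ⟨H.leg.wl _ 4 _ p4 j1 (by omega) (by omega) (by omega),
        (lo h H p (by omega) j1 (by omega)).symm⟩
    · refine ⟨j, by omega, Or.inr ?_⟩
      rw [← e5]
      exact ⟨H.leg.wl _ 5 _ p5 j1 (by omega) (by omega) (by omega),
        (lo h H p (by omega) j1 (by omega)).symm⟩
  · refine ⟨j + 1, by omega, Or.inl ?_⟩
    rw [← e4]
    exact ⟨H.leg.wl _ 4 _ p4 (by omega) (by omega) (by omega) (by omega),
      (hi h H p (c := j + 1) (by omega) (by omega) (by omega)).symm⟩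

omit [Finite F] in
lemma lgJ (J : JN r P) (g : Gd r P x) {j : ℕ} (j1 : 1 ≤ j) (j2 : j + 3 ≤ n) :
    lg r (Jf r x) 3 j = lg r x 3 j := by
  rcases Nat.lt_or_ge j 3 with k | k
  · obtain rfl | rfl : j = 1 ∨ j = 2 := by omega
    · rw [lg_lo (by omega), lg_lo (by omega)]
      exact (J.ms x p g).1
    · exact (lg_mid (a := 2)).trans ((J.ms x p g).2.trans (lg_mid (a := 2)).symm)
  · rw [lg_hi k, lg_hi k]
    exact h.rf_rch (H.leg.wl x 3 _ p (by omega) (by omega) (by omega) (by omega))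
      (J.inv x p g).2.2.2.toRch fun c hc => by have := hc.2; omega

omit [Finite F] in
lemma three (J : JN r P) (g : Gd r P x) : ML n r (Jf r x) = ML n r x := by
  ext k
  constructor
  · rintro ⟨j, j1, j2, rfl⟩
    exact ⟨j, j1, j2, lgJ h H p J g j1 j2⟩
  · rintro ⟨j, j1, j2, rfl⟩
    exact ⟨j, j1, j2, (lgJ h H p J g j1 j2).symm⟩

lemma path (w : Wl r x 0) : IsPath (Walls r 0 n x) (fun j => lg r x 3 (0 + j)) (n - 1 - 2 - 0) := by
  have hn := H.big
  exact h.lg_path H.leg (a := 2) (InD.refl x) p (by omega) (by omega) (by omega) (by omega)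
    (by omega) (by omega) (fun c _ c2 => by rwa [show c = 0 by omega]) fun c c1 c2 => by omega

omit [Finite F] in
lemma leaf (J : JN r P) (g : Gd r P x) (f : JUN.F1 r x) :
    ¬ Commute (lg r x 3 1) (rf r (Jf r x) 0) ∧ rf r (Jf r x) 0 ≠ lg r x 3 2 := by
  have hn := H.big
  obtain ⟨-, w, -⟩ := J.f1 x p g f
  have p' := (J.inv x p g).1
  constructor
  · rw [← lgJ h H p J g le_rfl (by omega), lg_lo (by omega)]
    exact adj_symm (h.rf_adj w (H.leg.wl _ 3 1 p' le_rfl (by omega) (by omega) (by omega)) (by omega))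
  · rw [← lgJ h H p J g (by omega) (by omega), show lg r (Jf r x) 3 2 = rf r (r 3 (Jf r x)) 2 from
      lg_mid (a := 2), ← h.rf_step (c' := 3) w (by omega) (by omega)]
    exact h.rf_ne ((h.wl_far (by omega) (by omega)).2 w)
      (H.leg.wl _ 4 2 (H.leg.up _ 3 p' (by omega)) (by omega) (by omega) (by omega) (by omega))
      (by omega) (by omega)

lemma four (J : JN r P) (g : Gd r P x) (f : JUN.F1 r x) : Wl r x (n - 1) := by
  classical
  have hn := H.big
  obtain ⟨w0, w, ne⟩ := J.f1 x p g f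
  obtain ⟨a1, a2⟩ := leaf h H p J g f
  obtain ⟨C, K⟩ := (h.wall le_rfl x).1.exC
  by_contra mv
  have p' := H.z1 x 3 p
  have d' : InD r 0 n x (r (n - 1) x) := (InD.refl x).next ⟨by omega, by omega⟩ mv
  have wl' : ∀ c, 4 ≤ c → c + 2 ≤ n → Wl r (r (n - 1) x) c := fun c c1 c2 =>
    H.leg.wl _ 3 c p' (by omega) (by omega) (by omega) (by omega)
  have wl : ∀ c, 4 ≤ c → c + 2 ≤ n → Wl r x c := fun c c1 c2 =>
    H.leg.wl _ 3 c p (by omega) (by omega) (by omega) (by omega)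
  have e : ∀ j, 3 ≤ j → j + 4 ≤ n → lg r x 3 (0 + j) = rf r (r (n - 1) x) (j + 1) := fun j j1 j2 => by
    rw [Nat.zero_add, lg_hi j1, h.rf_step (wl _ (by omega) (by omega)) (by omega) (by omega)]
  have k := K.fork2 (j := n - 5) (path h H p w0) (t := rf r (Jf r x) 0)
    (t' := rf r (r (n - 1) x) (n - 2))
    (wall_mem ((J.inv x p g).2.2.2.mono le_rfl (by omega)) ⟨le_rfl, by omega⟩ w)
    (by rwa [Nat.zero_add, lg_lo (by omega)]) a2 a1 (by omega) (by omega)
    (wall_mem d' ⟨by omega, by omega⟩ (wl' _ (by omega) (by omega))) (by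
      rw [e _ (by omega) (by omega), show n - 2 = n - 5 + 1 + 1 + 1 by omega]
      exact h.rf_adj (wl' _ (by omega) (by omega)) (wl' _ (by omega) (by omega)) (by omega))
  rcases k with k | k
  · rw [e _ (by omega) (by omega)] at k
    exact h.rf_ne (wl' _ (by omega) (by omega)) (wl' _ (by omega) (by omega)) (by omega) (by omega) k
  · rw [Nat.zero_add, lg_hi (by omega), show n - 5 + 2 + 1 = n - 2 by omega] at k
    exact h.rf_step_ne (wl _ (by omega) (by omega)) (wl' _ (by omega) (by omega))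
      (Or.inl ⟨by omega, by omega⟩) k.symm

lemma five (J : JN r P) (g : Gd r P x) (f : JUN.F1 r x) (x0 : F) (q : ℕ → Perm F) (m : ℕ)
    (hq : IsPath (Walls r 0 n x0) q m) (s : ∀ g ∈ ML n r x, ∃ k ≤ m, g = q k) :
    (∀ k ≤ m, rf r x 0 ≠ q k) ∨ ∀ k ≤ m, rf r (Jf r x) 0 ≠ q k := by
  classical
  have hn := H.big
  obtain ⟨w0, -, ne⟩ := J.f1 x p g f
  obtain ⟨a1, a2⟩ := leaf h H p J g f
  obtain ⟨C, K⟩ := (h.wall le_rfl x0).1.exC
  by_contra hc
  push Not at hc
  obtain ⟨⟨a, ha, ea⟩, b, hb, eb⟩ := hc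
  obtain ⟨u, hu, eu⟩ := s _ ⟨1, le_rfl, by omega, rfl⟩
  obtain ⟨v, hv, ev⟩ := s _ ⟨2, by omega, by omega, rfl⟩
  have pa := path h H p w0
  have e0 : lg r x 3 0 = q a := (lg_lo (by omega)).trans ea
  have b1 : ¬ Commute (lg r x 3 0) (lg r x 3 1) := pa.adj 0 (by omega)
  have b2 : ¬ Commute (lg r x 3 1) (lg r x 3 2) := pa.adj 1 (by omega)
  have b3 : lg r x 3 0 ≠ lg r x 3 2 := fun k => by
    have := pa.inj 0 (by omega) 2 (by omega) k
    omega
  rw [e0, eu] at b1
  rw [eu, ev] at b2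
  rw [e0, ev] at b3
  rw [eu, eb] at a1
  rw [eb, ev] at a2
  rw [ea, eb] at ne
  have c1 := K.adj_path hq ha hu b1
  have c2 := K.adj_path hq hu hv b2
  have c3 := K.adj_path hq hu hb a1
  have d1 : a ≠ v := fun k => b3 (by rw [k])
  have d2 : b ≠ v := fun k => a2 (by rw [k])
  have d3 : b ≠ a := fun k => ne (by rw [k])
  omega

end LEGP

theorem stLEGP : St_LEGP := by
  intro F L _ _ n r φ h P H x p
  exact ⟨LEGP.one h H p, LEGP.two h H p, fun J g => ⟨LEGP.three h H p J g, fun f =>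
    ⟨LEGP.four h H p J g f, LEGP.five h H p J g f⟩⟩⟩

end Pool.Agent.FlagOrb.R
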