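import Pool.Agent.Lib.MP_7157e1_co.RKitC

/-! Cubic range: at most four types of lower ends in one orbit of the colours below three. -/

namespace Pool.Agent.FlagOrb.R

open Equiv Set Q

namespace MB

variable {F L : Type} [Lattice L] {n : ℕ} {r : ℕ → Perm F} {φ : ℕ → F → L}

lemma gap (h : PS n r φ) {c : ℕ} (hc : c + 1 < n) (w : F) :
    ¬ φ (c + 1) w ≤ φ (c + 2) (r (c + 1) (r c w)) := by
  intro e
  have e1 : φ (c + 1) w ≤ φ (c + 2) (r c w) := by
    rw [h.same c (c + 2) w (by omega)]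
    exact (h.lt (c + 1) w (by omega)).le
  have e2 := le_inf e e1
  rw [h.meet (c + 1) (r c w) hc] at e2
  have e3 := le_inf e2 (le_refl _)
  rw [h.meet c w (by omega)] at e3
  exact absurd (h.lt c w (by omega)) (not_lt_of_ge e3)

lemma one (h : PS n r φ) {c : ℕ} (hc : c < n) {y z : F} (e1 : ∀ i ≤ c, φ i y = φ i z)
    (e2 : ∀ i, c + 2 ≤ i → i ≤ n + 1 → φ i y = φ i z) : z = y ∨ z = r c y := by
  have k : Rch r (Ico c (c + 1)) y z := h.conn c (c + 1) y z (by omega) hc e1 e2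
  refine k.ind (fun c _ => h.inv c) (P := fun v => v = y ∨ v = r c y) (Or.inl rfl) ?_
  intro u d hd _ ih
  obtain rfl : d = c := by have := hd.1; have := hd.2; omega
  rcases ih with rfl | rfl
  · exact Or.inr rfl
  · exact Or.inl (h.rr _ _)

lemma rank (h : PS n r φ) (hd : DI n r φ) (hn : 1 ≤ n) (y : F) {g k : L} (h0 : φ 0 y < g)
    (h1 : g < k) (h2 : k < φ 2 y) : False := by
  have m := h.meet 0 y hn
  have l1 := h.lt 0 y (by omega)
  have l2 := h.lt 0 (r 0 y) (by omega)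
  rw [h.bot (r 0 y) y] at l2
  rcases hd 0 y g hn h0.le (h1.trans h2).le with e | e | e | e
  · exact h0.ne' e
  · rcases hd 0 y k hn (h0.trans h1).le h2.le with f | f | f | f
    · exact (h0.trans h1).ne' f
    · exact h1.ne (e.trans f.symm)
    · rw [e, f] at h1
      rw [inf_eq_right.2 h1.le] at m
      exact l1.ne' m
    · exact h2.ne f
  · rcases hd 0 y k hn (h0.trans h1).le h2.le with f | f | f | f
    · exact (h0.trans h1).ne' f
    · rw [e, f] at h1
      rw [inf_eq_left.2 h1.le] at m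
      exact l2.ne' m
    · exact h1.ne (e.trans f.symm)
    · exact h2.ne f
  · exact (h1.trans h2).ne e

/-- a face strictly described by the diamond property -/
lemma dia (h : PS n r φ) (hd : DI n r φ) {c : ℕ} (hc : c < n) (z : F) {G : L} (h1 : φ c z ≤ G)
    (h2 : G ≤ φ (c + 2) z) (h3 : ¬ φ (c + 1) z ≤ G) : G = φ c z ∨ G = φ (c + 1) (r c z) := by
  rcases hd c z G hc h1 h2 with e | e | e | e
  · exact Or.inl e
  · exact absurd e.ge h3
  · exact Or.inr e
  · exact absurd ((h.lt (c + 1) z (by omega)).le.trans e.ge) h3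

/-- flags of one polygon whose neighbours have the same wall of colour one -/
lemma two (h : PS n r φ) (hd : DI n r φ) (hn : 3 ≤ n) (x0 : F) (S : F → Prop) {t : Perm F}
    (ht : t ∈ Aut r) (h1 : ∀ z, S z → t z = r 1 z)
    (h2 : ∀ z z', S z → S z' → ∀ i, 3 ≤ i → i ≤ n + 1 → φ i (r 2 z) = φ i (r 2 z')) :
    ∃ a b, ∀ z, S z → z = a ∨ z = b := by
  by_cases hS : ∃ z, S z
  swap
  · exact ⟨x0, x0, fun z hz => absurd ⟨z, hz⟩ hS⟩
  obtain ⟨z1, s1⟩ := hS
  have c3 : ∀ z, S z → φ 3 (r 2 (r 1 z)) = φ 3 (r 2 (r 1 z1)) := by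
    intro z hz
    have k : Rch r (Ico 0 2) (r 2 z1) (r 2 z) := by
      refine h.conn 0 2 _ _ (by omega) (by omega) (fun i hi => ?_) (h2 z1 z s1 hz)
      obtain rfl : i = 0 := by omega
      exact h.bot _ _
    have k' := Aut.rch ht k
    rw [Aut.app ht, Aut.app ht, h1 z hz, h1 z1 s1] at k'
    exact h.sameR k' fun c hc => by have := hc.2; omega
  obtain ⟨T, hT⟩ : ∃ T, T = φ 3 (r 2 z1) ⊓ φ 3 (r 2 (r 1 z1)) := ⟨_, rfl⟩
  have key : ∀ z, S z → T = φ 1 (r 2 z) ∨ T = φ 2 (r 1 (r 2 z)) := by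
    intro z hz
    have e : T = φ 3 (r 2 z) ⊓ φ 3 (r 2 (r 1 z)) := by
      rw [hT, c3 z hz, h2 z z1 hz s1 3 le_rfl (by omega)]
    refine dia h hd (c := 1) (by omega) (r 2 z) ?_ ?_ ?_
    · rw [e]
      refine le_inf (h.mono (by omega) (by omega) _) ?_
      rw [h.same 2 1 z (by omega), ← h.same 1 1 z (by omega), ← h.same 2 1 (r 1 z) (by omega)]
      exact h.mono (by omega) (by omega) _
    · rw [e]; exact inf_le_left
    · rw [e, h.same 2 2 z (by omega)]
      exact fun k => gap h (c := 1) (by omega) z (k.trans inf_le_right)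
  by_cases hA : ∃ z0, S z0 ∧ T = φ 1 (r 2 z0)
  · obtain ⟨z0, s0, e0⟩ := hA
    refine ⟨z0, r 2 (r 1 (r 2 z0)), fun z hz => ?_⟩
    rcases key z hz with e | e
    · have k : r 2 z = r 2 z0 ∨ r 2 z = r 1 (r 2 z0) := by
        refine one h (c := 1) (by omega) (fun i hi => ?_) (h2 z0 z s0 hz)
        have : i = 0 ∨ i = 1 := by omega
        rcases this with rfl | rfl
        exacts [h.bot _ _, e0.symm.trans e]
      rcases k with k | k
      · exact Or.inl ((r 2).injective k)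
      · exact Or.inr (by rw [← k, h.rr])
    · exfalso
      refine rank h hd (by omega) (r 2 z0) (g := φ 1 (r 1 (r 2 z))) (k := T) ?_ ?_ ?_
      · rw [h.bot _ (r 1 (r 2 z))]; exact h.lt 0 _ (by omega)
      · rw [e]; exact h.lt 1 _ (by omega)
      · rw [e0]; exact h.lt 1 _ (by omega)
  · have k2 : ∀ z, S z → T = φ 2 (r 1 (r 2 z)) := fun z hz =>
      (key z hz).resolve_left fun e => hA ⟨z, hz, e⟩
    refine ⟨z1, r 2 (r 1 (r 0 (r 1 (r 2 z1)))), fun z hz => ?_⟩
    have k : r 1 (r 2 z) = r 1 (r 2 z1) ∨ r 1 (r 2 z) = r 0 (r 1 (r 2 z1)) := by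
      refine one h (c := 0) (by omega) (fun i hi => ?_) fun i i1 i2 => ?_
      · obtain rfl : i = 0 := by omega
        exact h.bot _ _
      · by_cases h3 : i = 2
        · rw [h3, ← k2 z hz, ← k2 z1 s1]
        · rw [h.same 1 i _ (by omega), h.same 1 i _ (by omega)]
          exact h2 z1 z s1 hz i (by omega) i2
    rcases k with k | k
    · exact Or.inl ((r 2).injective ((r 1).injective k))
    · exact Or.inr (by rw [← k, h.rr, h.rr])

/-- the lattice part -/
lemma four (h : PS n r φ) (hd : DI n r φ) (hn : 4 ≤ n) {x0 : F} (S : F → Prop) {B t u : Perm F}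
    (hB : B ∈ Aut r) (ht : t ∈ Aut r) (hu : u ∈ Aut r) (h0 : ∀ z, S z → Rch r (Ico 0 3) x0 z)
    (h1 : ∀ z, S z → t z = r 1 z ∨ u z = r 1 z) (h2 : ∀ z, S z → B z = r 3 (r 2 (r 3 z))) :
    ∃ a b c d, ∀ z, S z → z = a ∨ z = b ∨ z = c ∨ z = d := by
  have up : ∀ z, S z → ∀ i, 4 ≤ i → φ i z = φ i x0 := fun z hz i hi =>
    h.sameR (h0 z hz) fun c hc => by have := hc.2; omega
  obtain ⟨T, hT⟩ : ∃ T, T = φ 4 x0 ⊓ φ 4 (B x0) := ⟨_, rfl⟩
  have key : ∀ z, S z → T = φ 2 z ∨ T = φ 3 (r 2 z) := by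
    intro z hz
    have e : T = φ 4 z ⊓ φ 4 (r 3 (r 2 (r 3 z))) := by
      rw [hT, up z hz 4 le_rfl, ← h2 z hz,
        h.sameR (Aut.rch hB (h0 z hz)) fun c hc => by have := hc.2; omega]
    refine dia h hd (c := 2) (by omega) z ?_ ?_ ?_
    · rw [e]
      refine le_inf (h.mono (by omega) (by omega) _) ?_
      rw [← h.same 3 2 z (by omega), ← h.same 2 2 (r 3 z) (by omega),
        ← h.same 3 2 (r 2 (r 3 z)) (by omega)]
      exact h.mono (by omega) (by omega) _
    · rw [e]; exact inf_le_left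
    · rw [e, ← h.same 3 3 z (by omega)]
      exact fun k => gap h (c := 2) (by omega) (r 3 z) (k.trans inf_le_right)
  by_cases hA : ∃ z0, S z0 ∧ T = φ 2 z0
  · obtain ⟨z0, s0, e0⟩ := hA
    refine ⟨z0, r 0 z0, r 2 z0, r 0 (r 2 z0), fun z hz => ?_⟩
    have e : T = φ 2 z := by
      refine (key z hz).resolve_right fun e => ?_
      refine rank h hd (by omega) z0 (g := φ 1 (r 2 z)) (k := φ 2 (r 2 z)) ?_ ?_ ?_
      · rw [h.bot _ (r 2 z)]; exact h.lt 0 _ (by omega)
      · exact h.lt 1 _ (by omega)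
      · rw [← e0, e]; exact h.lt 2 _ (by omega)
    have e2 : φ 2 z0 = φ 2 z := e0.symm.trans e
    have e4 : ∀ i, 4 ≤ i → φ i z0 = φ i z := fun i hi => by rw [up z hz i hi, up z0 s0 i hi]
    have fin : ∀ y, φ 2 y = φ 2 z → φ 3 y = φ 3 z → (∀ i, 4 ≤ i → φ i y = φ i z) →
        z = y ∨ z = r 0 y := by
      intro y a2 a3 a4
      refine one h (c := 0) (by omega) (fun i hi => ?_) fun i i1 _ => ?_
      · obtain rfl : i = 0 := by omega
        exact h.bot _ _
      · have : i = 2 ∨ i = 3 ∨ 4 ≤ i := by omega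
        rcases this with rfl | rfl | k
        exacts [a2, a3, a4 i k]
    have l2 := h.lt 2 z (by omega)
    have l3 := h.lt 3 z (by omega)
    rcases hd 2 z0 (φ 3 z) (by omega) (e2 ▸ l2.le) (e4 4 le_rfl ▸ l3.le) with f | f | f | f
    · exact absurd (f.trans e2) l2.ne'
    · rcases fin z0 e2 f.symm e4 with k | k
      exacts [Or.inl k, Or.inr (Or.inl k)]
    · rcases fin (r 2 z0) (by rw [h.same 2 2 _ (by omega), e2]) f.symm
        (fun i hi => by rw [h.same 2 i _ (by omega), e4 i hi]) with k | k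
      exacts [Or.inr (Or.inr (Or.inl k)), Or.inr (Or.inr (Or.inr k))]
    · exact absurd (f.trans (e4 4 le_rfl)) l3.ne
  · have k3 : ∀ z, S z → T = φ 3 (r 2 z) := fun z hz =>
      (key z hz).resolve_left fun e => hA ⟨z, hz, e⟩
    have eq : ∀ z z', S z → S z' → ∀ i, 3 ≤ i → i ≤ n + 1 → φ i (r 2 z) = φ i (r 2 z') := by
      intro z z' hz hz' i i1 _
      by_cases h3 : i = 3
      · rw [h3, ← k3 z hz, ← k3 z' hz']
      · rw [h.same 2 i _ (by omega), h.same 2 i _ (by omega), up z hz i (by omega),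
          up z' hz' i (by omega)]
    obtain ⟨a, b, hab⟩ := two h hd (by omega) x0 (fun z => S z ∧ t z = r 1 z) ht
      (fun z hz => hz.2) fun z z' hz hz' => eq z z' hz.1 hz'.1
    obtain ⟨c, d, hcd⟩ := two h hd (by omega) x0 (fun z => S z ∧ u z = r 1 z) hu
      (fun z hz => hz.2) fun z z' hz hz' => eq z z' hz.1 hz'.1
    refine ⟨a, b, c, d, fun z hz => ?_⟩
    rcases h1 z hz with k | k
    · rcases hab z ⟨hz, k⟩ with e | e
      exacts [Or.inl e, Or.inr (Or.inl e)]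
    · exact Or.inr (Or.inr (hcd z ⟨hz, k⟩))

variable [Finite F]

/-- the walls at the lower ends of one chamber -/
lemma walls (h : PS n r φ) {P : F → ℕ → Prop} (H : RH n r P) {x0 : F} (p0 : P x0 3) :
    (∀ z, InD r 0 3 x0 z → P z 3 → rf r (r 3 z) 2 = rf r (r 3 x0) 2) ∧
    ∃ u ∈ Aut r, ∀ z, InD r 0 3 x0 z → P z 3 → rf r z 1 = rf r x0 1 ∨ rf r z 1 = u := by
  classical
  have hn := H.big
  obtain ⟨C, K⟩ := (h.wall le_rfl x0).1.exC
  have path : ∀ z, InD r 0 3 x0 z → P z 3 →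
      IsPath (Walls r 0 n x0) (fun j => lg r z (2 + 1) (1 + j)) (n - 1 - 2 - 1) := fun z hz pz =>
    h.lg_path H.leg (hz.mono le_rfl (by omega)) pz (by omega) (by omega) (by omega) (by omega)
      (by omega) (by omega) (fun c _ _ => by omega) fun c _ _ => by omega
  have hi : ∀ z, InD r 0 3 x0 z → ∀ c, 4 ≤ c → c + 2 ≤ n → rf r z c = rf r x0 c :=
    fun z hz c c1 c2 => h.rf_rch (H.leg.wl x0 3 c p0 (by omega) (by omega) (by omega) (by omega))
      hz.toRch fun c' hc' => by have := hc'.2; omega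
  have v1 : ∀ z, lg r z (2 + 1) (1 + 0) = rf r z 1 := fun z => lg_lo (by omega)
  have v2 : ∀ z, lg r z (2 + 1) (1 + 1) = rf r (r 3 z) 2 := fun z => lg_mid
  have v3 : ∀ z, lg r z (2 + 1) (1 + 2) = rf r z 4 := fun z => lg_hi (by omega)
  have v4 : ∀ z, lg r z (2 + 1) (1 + 3) = rf r z 5 := fun z => lg_hi (by omega)
  have q0 := path x0 (InD.refl x0) p0
  have A : ∀ z, InD r 0 3 x0 z → P z 3 → rf r (r 3 z) 2 = rf r (r 3 x0) 2 := by
    intro z hz pz
    have q := path z hz pz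
    have a := q.adj 1 (by omega)
    have m := q.mem 1 (by omega)
    simp only [v2, v3, hi z hz 4 le_rfl (by omega)] at a m
    rcases K.pu (m := 1) q0 (by omega) le_rfl (by omega) m
      (by simp only [v3]; exact adj_symm a) with e | e
    · simpa only [v2] using e
    · exfalso
      have := q.inj 1 (by omega) 3 (by omega)
        (by simp only [v2, v4, hi z hz 5 (by omega) (by omega)] at e ⊢; exact e)
      omega
  refine ⟨A, ?_⟩
  have N : ∀ z, InD r 0 3 x0 z → P z 3 → rf r z 1 ∈ Walls r 0 n x0 ∧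
      ¬ Commute (rf r (r 3 x0) 2) (rf r z 1) ∧ rf r z 1 ≠ rf r x0 4 := by
    intro z hz pz
    have q := path z hz pz
    have a := q.adj 0 (by omega)
    have m := q.mem 0 (by omega)
    simp only [v1, Nat.zero_add, v2, A z hz pz] at a m
    refine ⟨m, adj_symm a, fun e => ?_⟩
    have := q.inj 0 (by omega) 2 (by omega)
      (by simp only [v1, v3, hi z hz 4 le_rfl (by omega)]; exact e)
    omega
  by_cases hu : ∃ z, InD r 0 3 x0 z ∧ P z 3 ∧ rf r z 1 ≠ rf r x0 1
  · obtain ⟨y, hy, py, ne⟩ := hu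
    refine ⟨rf r y 1, rf_aut _ _, fun z hz pz => ?_⟩
    obtain ⟨a1, a2, a3⟩ := N x0 (InD.refl x0) p0
    obtain ⟨b1, b2, b3⟩ := N y hy py
    obtain ⟨c1, c2, c3⟩ := N z hz pz
    have m2 := q0.mem 1 (by omega)
    have m3 := q0.mem 2 (by omega)
    have a := q0.adj 1 (by omega)
    simp only [v2, v3] at m2 m3 a
    rcases K.val4 m2 a1 b1 m3 c1 a2 b2 a c2 ne.symm a3 b3 with e | e | e
    exacts [Or.inl e, Or.inr e, absurd e c3]
  · exact ⟨1, one_mem _, fun z hz pz => Or.inl (by_contra fun e => hu ⟨z, hz, pz, e⟩)⟩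

end MB

theorem stMB : St_MB := by
  intro F L _ _ n r φ h hd P H z
  have hn := H.big
  by_cases hS : ∃ x, Rch r (Ico 0 3) z x ∧ P x 3
  swap
  · rw [cnt_false fun x hx => hS ⟨x, hx⟩]; omega
  obtain ⟨x0, r0, p0⟩ := hS
  obtain ⟨A, u, hu, hU⟩ := MB.walls h H p0
  have w1 : ∀ y, P y 3 → Wl r y 1 := fun y py =>
    H.leg.wl y 3 1 py le_rfl (by omega) (by omega) (by omega)
  obtain ⟨a, b, c, d, K⟩ := MB.four h hd (by omega) (x0 := x0)
    (fun y => InD r 0 3 x0 y ∧ P y 3) (rf_aut (r 3 x0) 2) (rf_aut x0 1) hu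
    (fun y hy => hy.1.toRch)
    (fun y hy => by
      rcases hU y hy.1 hy.2 with e | e
      · exact Or.inl (by rw [← e, rf_app (w1 y hy.2)])
      · exact Or.inr (by rw [← e, rf_app (w1 y hy.2)]))
    (fun y hy => by
      have w : Wl r (r 3 y) 2 := H.leg.wl (r 3 y) 4 2 (H.leg.up y 3 hy.2 (by omega)) (by omega)
        (by omega) (by omega) (by omega)
      rw [← A y hy.1 hy.2, ← rf_app w, ← Aut.app (rf_aut _ _), h.rr])
  calc cnt r (fun x => Rch r (Ico 0 3) z x ∧ P x 3)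
      ≤ cnt r (fun y => y = a ∨ y = b ∨ y = c ∨ y = d) := by
        refine cnt_mono' fun x hx => ?_
        obtain ⟨γ, hγ, y, hy, e⟩ := h.decomp (a := 0) (b := 3) subset_rfl (r0.symm.trans hx.1)
        have q : Eqv r y x := ⟨γ, WallsI.aut subset_rfl hγ, e.symm⟩
        exact ⟨y, K y ⟨hy, H.eqv x y 3 hx.2 q.symm⟩, q⟩
    _ ≤ ({a, b, c, d} : Set F).ncard := cnt_le_ncard
    _ ≤ 4 := by
        have e1 := ncard_insert_le a ({b, c, d} : Set F)
        have e2 := ncard_insert_le b ({c, d} : Set F)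
        have e3 := ncard_insert_le c ({d} : Set F)
        rw [ncard_singleton] at e3
        omega

end Pool.Agent.FlagOrb.R
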