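import Pool.Agent.Lib.MP_7157e1_co.R_PART

/-! Cubic range: few central tokens are not pure. -/

namespace Pool.Agent.FlagOrb.R

open Equiv Set Q

namespace NP

variable {F L : Type} [Lattice L] [Finite F] {n A : ℕ} {r : ℕ → Perm F} {φ : ℕ → F → L}
  {G : F → ℕ → ℕ → Prop}

/-- two words lead from `S` into `T` -/
lemma cnt_two {S T : F → Prop} (e f : ℕ)
    (k : ∀ y, S y → T (mov r e f y) ∨ T (mov r e f (r (e - 1) y))) : cnt r S ≤ 2 * cnt r T := by
  have a := cnt_mono (r := r) k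
  have b := cnt_or_le (r := r) (S := fun y => T (mov r e f y))
    (T := fun y => T (mov r e f (r (e - 1) y)))
  have c := cnt_word_le (S := fun y => T (mov r e f y)) (T := T) (mov_univ e f) fun _ q => q
  have d := cnt_word_le (S := fun y => T (mov r e f (r (e - 1) y))) (T := T)
    (g := mov r e f * r (e - 1)) (mul_mem (mov_univ e f) (W_gen (mem_univ _))) fun _ q => q
  omega

/-- a low moving colour next to a token at `n - 18` -/
def Lw (n : ℕ) (r : ℕ → Perm F) (e : ℕ) (y : F) : Prop :=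
  ¬ Wl r y e ∧ (∀ c, e < c → c < n - 19 → Wl r y c) ∧ ¬ Wl r y (n - 19) ∧ ¬ Wl r y (n - 18)

omit [Finite F] in
lemma toG (h : PS n r φ) (H : GS n r A G) (hn : 110 ≤ n) {y : F} {e : ℕ} (e2 : e ≤ 4)
    (p : Pu r y e 5) (w : Wl r y 6) (m1 : ¬ Wl r y (n - 19)) (m2 : ¬ Wl r y (n - 18)) :
    G (mov r e 5 y) 5 (n - 18) := by
  have a := p 5 (by omega) le_rfl
  rw [← h.wl_mov (i := e) (j := 5) (Or.inr ⟨by omega, by omega⟩)] at w m1 m2
  obtain ⟨i, j, g⟩ := H.far _ 5 (n - 18) a m2 le_rfl (by omega) (by omega) (by omega)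
  have b := H.rng _ i j g
  have c1 : ¬ (5 + 1 ≠ i ∧ 5 ≠ i ∧ 5 + 1 ≠ j ∧ 5 ≠ j) := fun z =>
    a (H.wl _ i j _ g (by omega) (by omega) z.1 z.2.1 z.2.2.1 z.2.2.2)
  have c2 : ¬ (n - 19 + 1 ≠ i ∧ n - 19 ≠ i ∧ n - 19 + 1 ≠ j ∧ n - 19 ≠ j) := fun z =>
    m1 (H.wl _ i j _ g (by omega) (by omega) z.1 z.2.1 z.2.2.1 z.2.2.2)
  have c3 : ¬ (n - 18 + 1 ≠ i ∧ n - 18 ≠ i ∧ n - 18 + 1 ≠ j ∧ n - 18 ≠ j) := fun z =>
    m2 (H.wl _ i j _ g (by omega) (by omega) z.1 z.2.1 z.2.2.1 z.2.2.2)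
  have c4 : i ≠ 6 := by
    rintro rfl
    exact H.m2 _ 6 j g (by omega) w
  rwa [show i = 5 by omega, show j = n - 18 by omega] at g

lemma cnt_Lw (hP : St_PUSH) (h : PS n r φ) (H : GS n r A G) (hn : 110 ≤ n) {e : ℕ} (e1 : 1 ≤ e)
    (e2 : e ≤ 4) : cnt r (Lw n r e) ≤ 2 * A := by
  rw [← H.num 5 (n - 18) le_rfl (by omega) (by omega) (by omega) (by omega)]
  refine cnt_two e 5 fun y ⟨a, b, c, d⟩ => ?_
  have w := b 6 (by omega) (by omega)
  rcases (hP h y e 5 (n - 19) e1 (by omega) (by omega) (by omega) a b).1 with k | ⟨-, k⟩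
  · exact Or.inl (toG h H hn e2 k w c d)
  · rw [← h.wl_far (c' := e - 1) (by omega) (by omega)] at w c d
    exact Or.inr (toG h H hn e2 k w c d)

/-- a defect on the low side -/
def Df (r : ℕ → Perm F) (x : F) : Prop := (∃ c, 1 ≤ c ∧ c < 14 ∧ ¬ Wl r x c) ∨ ¬ Wl r (r 0 x) 1

lemma low (hP : St_PUSH) (h : PS n r φ) (H : GS n r A G) (hn : 110 ≤ n) :
    cnt r (fun x => T1 n r G x (n - 18) ∧ Df r x) ≤ 10 * A := by
  have a := cnt_ex_mul (r := r) (Finset.Icc 1 4) (fun e => Lw n r e) fun e he =>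
    cnt_Lw hP h H hn (Finset.mem_Icc.1 he).1 (Finset.mem_Icc.1 he).2
  have b := (cnt_word_le (S := fun x => Lw n r 1 (r 0 x)) (W_gen (mem_univ 0)) fun _ q => q).trans
    (cnt_Lw hP h H hn le_rfl (by omega))
  have c := cnt_or_le (r := r) (S := fun x => ∃ e ∈ Finset.Icc 1 4, Lw n r e x)
    (T := fun x => Lw n r 1 (r 0 x))
  refine le_trans (cnt_mono fun x ⟨t, d⟩ => ?_) (c.trans (by rw [Nat.card_Icc] at a; omega))
  have m1 : ¬ Wl r x (n - 19) := (t.2.2.2 _ (by omega) (by omega)).2 (Or.inl (by omega))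
  have m2 : ¬ Wl r x (n - 18) := (t.2.2.2 _ (by omega) (by omega)).2 (Or.inr rfl)
  have w : ∀ c, 14 ≤ c → c < n - 19 → Wl r x c := fun c c1 c2 => by
    by_contra q
    have := (t.2.2.2 c (by omega) (by omega)).1 q
    omega
  by_cases k : ∃ c, 1 ≤ c ∧ c < 14 ∧ ¬ Wl r x c
  · obtain ⟨c, c1, c2, c3⟩ := k
    obtain ⟨e, d1, d2, d3, d4⟩ := exists_top c2 c3
    have : e ≤ 4 := by
      by_contra q
      exact t.1 (H.far x e (n - 18) d3 m2 (by omega) (by omega) (by omega) (by omega))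
    exact Or.inl ⟨e, Finset.mem_Icc.2 ⟨by omega, this⟩, d3,
      fun c c1 c2 => (lt_or_ge c 14).elim (d4 c c1) fun q => w c q c2, m1, m2⟩
  · refine Or.inr ⟨d.resolve_left k, fun c c1 c2 => (h.wl_far (by omega) (by omega)).2 ?_,
      by rwa [h.wl_far (by omega) (by omega)], by rwa [h.wl_far (by omega) (by omega)]⟩
    by_contra q
    exact (lt_or_ge c 14).elim (fun z => k ⟨c, by omega, z, q⟩) fun z => q (w c z c2)

end NP

open NP in
theorem stNP (hPUSH : St_PUSH) : St_NP := by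
  intro F L _ _ n r φ h A G H V hn
  have a := low hPUSH h H hn
  have b := low hPUSH h.mirror (h.GS_rev H) hn
  rw [h.cnt_rev] at b
  have a' : cnt r (fun x => T1 n r G x 18 ∧ Df r x) ≤ 10 * A :=
    le_trans (cnt_word_le (mov_univ 18 (n - 18)) fun x ⟨t, d⟩ =>
      ⟨(h.lg_norm V.leg t (by omega) le_rfl).1, d.imp
        (fun ⟨c, c1, c2, c3⟩ => ⟨c, c1, c2, by rwa [h.wl_mov (Or.inl ⟨by omega, by omega⟩)]⟩)
        fun q => by rwa [h.cap_mov (Or.inl ⟨by omega, by omega⟩),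
          h.wl_mov (Or.inl ⟨by omega, by omega⟩)]⟩) a
  have c := cnt_or_le (r := r) (S := fun x => T1 n r G x 18 ∧ Df r x)
    (T := fun x => T1 n (rev n r) (mG n G) x (n - 18) ∧ Df (rev n r) x)
  refine le_trans (cnt_mono fun x ⟨t, q⟩ => ?_) (c.trans (by omega))
  by_contra z
  rw [not_or, not_and, not_and] at z
  have z1 := z.1 t
  have z2 := z.2 ((h.T1_rev H (by omega)).2 ⟨by omega, by rwa [show n - (n - 18) = 18 by omega]⟩)
  simp only [Df, not_or, not_exists, not_and, not_not] at z1 z2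
  refine q ⟨t, fun c c1 c2 c3 c4 => ?_, z1.2, ?_⟩
  · by_cases k1 : c < 14
    · exact z1.1 c c1 k1
    · by_cases k2 : c + 15 ≤ n
      · by_contra w
        have := (t.2.2.2 c (by omega) (by omega)).1 w
        omega
      · have := z2.1 (n - 1 - c) (by omega) (by omega)
        rwa [h.wl_rev (by omega), show n - 1 - (n - 1 - c) = c by omega] at this
  · have := z2.2
    rwa [h.wl_rev (by omega), rev_lt (by omega), show n - 1 - 1 = n - 2 by omega] at this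

end Pool.Agent.FlagOrb.R
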