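import Pool.Agent.Lib.MP_7157e1_co.RKitC

/-! Cubic range: the ends that are not of standard weight are few. -/

namespace Pool.Agent.FlagOrb.R

open Equiv Set Q

namespace NS

variable {F L : Type} [Lattice L] {n : ℕ} {r : ℕ → Perm F} {φ : ℕ → F → L} {P : F → ℕ → Prop}

lemma nl {x : F} (k : NL r P x) (g : Gd r P x) : JUN.F1 r x ∨ Jf r x = x := by
  by_cases f1 : JUN.F1 r x
  · exact Or.inl f1
  by_cases f0 : F0 r x
  · exact absurd ⟨g, ⟨by omega, fun _ => f0.1.1, fun _ => ⟨f0.1.2.1, f0.1.2.2.1⟩,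
      fun q => by omega⟩, fun w => f0.2 (w.2.2.2 le_rfl).2⟩ k.2
  · exact Or.inr (by rw [Jf, if_neg f1, if_neg f0])

lemma excl (H : RH n r P) {x : F} (a : P x 3) (b : P x (n - 3)) : False := by
  have := H.big
  have := H.leg.uniq a b (by omega) (by omega) (by omega)
  omega

lemma mp (H : RH n r P) {x : F} : mP n P x 3 ↔ P x (n - 3) :=
  ⟨fun k => k.2, fun k => ⟨by have := H.big; omega, k⟩⟩

lemma jlo {x : F} (a : P x 3) (g : Gd r P x) : eJ n r P x = Jf r x := by
  rw [eJ, if_pos a, if_pos g]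

lemma jlo' {x : F} (a : P x 3) (g : ¬ Gd r P x) : eJ n r P x = x := by
  rw [eJ, if_pos a, if_neg g]

lemma jhi {x : F} (a : ¬ P x 3) (g : Gd (rev n r) (mP n P) x) : eJ n r P x = Jf (rev n r) x := by
  rw [eJ, if_neg a, if_pos g]

lemma jhi' {x : F} (a : ¬ P x 3) (g : ¬ Gd (rev n r) (mP n P) x) : eJ n r P x = x := by
  rw [eJ, if_neg a, if_neg g]

lemma en (h : PS n r φ) (H : RH n r P) (J : JN r P) (J' : JN (rev n r) (mP n P))
    (fr : Free r (eT n P) (eX n r P) (eL n r P) (eJ n r P))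
    (ch : ∀ x z, eT n P x → eN n r P x → ChF r (eL n r P) (eJ n r P) (eN n r P) x z →
      ¬ eN n r P z) : EN r (eT n P) (eX n r P) (eN n r P) (eL n r P) (eJ n r P) := by
  have hn := H.big
  have H' := h.RH_rev H
  refine ⟨fun g hg x hx => ?_, fun x hx => ?_, fun x hx => ?_, fr, ch⟩
  · have e : Eqv r x (g x) := ⟨g, hg, rfl⟩
    have e' : Eqv (rev n r) x (g x) := h.eqv_rev.2 e
    have hg' : g ∈ Aut (rev n r) := by rw [h.aut_rev]; exact hg
    have p : ∀ i, P (g x) i ↔ P x i := fun i => ⟨fun k => H.eqv _ _ i k e.symm,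
      fun k => H.eqv _ _ i k e⟩
    have p' : mP n P (g x) 3 ↔ mP n P x 3 := by rw [mp H, mp H, p]
    have d : Gd r P (g x) ↔ Gd r P x := ⟨fun k => H.gd_eqv k e.symm, fun k => H.gd_eqv k e⟩
    have d' : Gd (rev n r) (mP n P) (g x) ↔ Gd (rev n r) (mP n P) x :=
      ⟨fun k => H'.gd_eqv k e'.symm, fun k => H'.gd_eqv k e'⟩
    refine ⟨by rw [eT, p, p]; exact hx, ?_, ?_, ?_, ?_⟩
    · by_cases a : P x 3
      · rw [eL, eL, if_pos a, if_pos ((p 3).2 a), mov_aut hg]
      · rw [eL, eL, if_neg a, if_neg (mt (p 3).1 a), mov_aut hg]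
    · by_cases a : P x 3
      · by_cases b : Gd r P x
        · rw [jlo a b, jlo ((p 3).2 a) (d.2 b), Jf_aut hg]
        · rw [jlo' a b, jlo' ((p 3).2 a) (mt d.1 b)]
      · by_cases b : Gd (rev n r) (mP n P) x
        · rw [jhi a b, jhi (mt (p 3).1 a) (d'.2 b), Jf_aut hg']
        · rw [jhi' a b, jhi' (mt (p 3).1 a) (mt d'.1 b)]
    · rw [eX, eX, XL, XL, XL, XL, p, p', d, d']
    · rw [eN, eN, p, p', d, d', F1_eqv e, F1_eqv e']
  · by_cases a : P x 3
    · have b := (h.lg_norm H.leg a (j := n - 3) (by omega) le_rfl).1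
      have e : eL n r P x = mov r 3 (n - 3) x := by rw [eL, if_pos a]
      rw [e]
      refine ⟨Or.inr b, ?_, fun q => excl H (H.eqv _ _ 3 a q) b⟩
      rw [eL, if_neg fun k => excl H k b, mov_back]
    · have a' := hx.resolve_left a
      have b := (h.lg_norm H.leg a' (j := 3) le_rfl (by omega)).1
      have e : eL n r P x = mov r (n - 3) 3 x := by rw [eL, if_neg a]
      rw [e]
      refine ⟨Or.inl b, ?_, fun q => a (H.eqv _ _ 3 b q.symm)⟩
      rw [eL, if_pos b, mov_back]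
  · by_cases a : P x 3
    · have na : ¬ mP n P x 3 := fun k => excl H a k.2
      by_cases b : Gd r P x
      · obtain ⟨k1, k2, k3, k4⟩ := J.inv x a b
        have b1 := b.orb k4.toRch
        have na1 : ¬ mP n P (Jf r x) 3 := fun k => excl H k1 k.2
        rw [jlo a b, jlo k1 b1]
        refine ⟨Or.inl k1, k2, ?_, ?_⟩
        · simp only [eN, a, b, k1, b1, k3, na, na1, true_and, false_and, or_false]
        · rintro (k | k)
          exacts [absurd b k.2, absurd k.1 na]
      · rw [jlo' a b, jlo' a b]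
        exact ⟨hx, rfl, Iff.rfl, fun _ => rfl⟩
    · have a' := (mp H).2 (hx.resolve_left a)
      by_cases b : Gd (rev n r) (mP n P) x
      · obtain ⟨k1, k2, k3, k4⟩ := J'.inv x a' b
        have b1 := b.orb k4.toRch
        have na1 : ¬ P (Jf (rev n r) x) 3 := fun k => excl H k k1.2
        rw [jhi a b, jhi na1 b1]
        refine ⟨Or.inr k1.2, k2, ?_, ?_⟩
        · simp only [eN, a, a', b, k1, b1, k3, na1, true_and, false_and, false_or]
        · rintro (k | k)
          exacts [absurd k.1 a, absurd b k.2]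
      · rw [jhi' a b, jhi' a b]
        exact ⟨hx, rfl, Iff.rfl, fun _ => rfl⟩

end NS

theorem stNS (hEC : St_EC) (hFREE : St_FREE) (hCHAIN : St_CHAIN) : St_NS := by
  intro F L _ _ n r φ h P H J J' two
  have key := hEC _ _ _ _ _ (NS.en h H J J' (hFREE h P H J J' two) (hCHAIN h P H J J'))
  have b1 : cnt r (fun x => NL r P x ∨ NL (rev n r) (mP n P) x) ≤
      cnt r fun x => eT n P x ∧ (eJ n r P x = x ∨ eN n r P x) := by
    refine cnt_mono ?_
    rintro x (k | k)
    · refine ⟨Or.inl k.1, ?_⟩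
      by_cases g : Gd r P x
      · rcases NS.nl k g with f | f
        · exact Or.inr (Or.inl ⟨k.1, g, f⟩)
        · exact Or.inl ((NS.jlo k.1 g).trans f)
      · exact Or.inl (NS.jlo' k.1 g)
    · have a : ¬ P x 3 := fun q => NS.excl H q k.1.2
      refine ⟨Or.inr k.1.2, ?_⟩
      by_cases g : Gd (rev n r) (mP n P) x
      · rcases NS.nl k g with f | f
        · exact Or.inr (Or.inr ⟨k.1, g, f⟩)
        · exact Or.inl ((NS.jhi a g).trans f)
      · exact Or.inl (NS.jhi' a g)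
  rw [cnt_or_eq fun x y a b e => NS.excl H (H.eqv _ _ 3 a.1 e) b.1.2] at b1
  have b2 : cnt r (fun x => eT n P x ∧ eX n r P x) ≤
      cnt r (XL r P) + cnt r (XL (rev n r) (mP n P)) :=
    (cnt_mono fun x k => k.2).trans cnt_or_le
  omega

end Pool.Agent.FlagOrb.R
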