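import Pool.Agent.Lib.MP_7157e1_co.RKitC

/-! Cubic range: the remaining flags with a low moving colour. -/

namespace Pool.Agent.FlagOrb.R

open Equiv Set Q

namespace O1

variable {F L : Type} [Lattice L] [Finite F] {n : ℕ} {r : ℕ → Perm F} {φ : ℕ → F → L} {A : ℕ}
  {G : F → ℕ → ℕ → Prop} {P : F → ℕ → Prop}

/-- the flags reached by the push -/
def Tg (n : ℕ) (r : ℕ → Perm F) (G : F → ℕ → ℕ → Prop) (P : F → ℕ → Prop) (z : F) : Prop :=
  ((∃ i ∈ Finset.Icc 5 17, G z i 18) ∨ ∃ j ∈ Finset.Icc (n - 17) (n - 5), G z 18 j) ∨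
    (T1 n r G z 18 ∧ ¬ P z 18)

lemma cnt_Tg (H : GS n r A G) (hn : 110 ≤ n)
    (hb : cnt r (fun x => T1 n r G x 18 ∧ ¬ P x 18) ≤ 20 * A) : cnt r (Tg n r G P) ≤ 46 * A := by
  have h1 := cnt_ex_mul (r := r) (Finset.Icc 5 17) (fun i z => G z i 18) (A := A) fun i hi => by
    have := Finset.mem_Icc.1 hi
    exact (H.num i 18 (by omega) (by omega) (by omega) (by omega) (by omega)).le
  have h2 := cnt_ex_mul (r := r) (Finset.Icc (n - 17) (n - 5)) (fun j z => G z 18 j) (A := A)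
    fun j hj => by
      have := Finset.mem_Icc.1 hj
      exact (H.num 18 j (by omega) (by omega) (by omega) (by omega) (by omega)).le
  rw [Nat.card_Icc, show n - 5 + 1 - (n - 17) = 13 by omega] at h2
  rw [Nat.card_Icc] at h1
  refine cnt_or_le.trans ((Nat.add_le_add (cnt_or_le.trans (Nat.add_le_add h1 h2)) hb).trans ?_)
  omega

omit [Finite F] in
lemma tg (H : GS n r A G) (V : CV n r G) (hn : 110 ≤ n) {z : F} (m : ¬ Wl r z 18)
    (w : ∀ c, 19 ≤ c → c + 19 ≤ n → Wl r z c) : Tg n r G P z ∨ P z 18 := by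
  by_cases g : InG G z
  · obtain ⟨i, j, g⟩ := g
    have k := H.rng _ _ _ g
    have k1 : ¬ (19 ≤ j ∧ j + 19 ≤ n) := fun e => H.m4 _ _ _ g (w j e.1 e.2)
    have k2 : ¬ (i = 19 ∧ i + 2 ≤ j) := fun e =>
      H.m2 _ _ _ g e.2 (w i (by omega) (by omega))
    have k3 : ¬ (18 + 1 ≠ i ∧ 18 ≠ i ∧ 18 + 1 ≠ j ∧ 18 ≠ j) := fun e =>
      m (H.wl _ _ _ 18 g (by omega) (by omega) e.1 e.2.1 e.2.2.1 e.2.2.2)
    by_cases e : j = 18
    · subst e
      exact .inl (.inl (.inl ⟨i, Finset.mem_Icc.2 (by omega), g⟩))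
    · obtain rfl : i = 18 := by omega
      obtain ⟨j, rfl⟩ : ∃ j', j = j' + 1 := ⟨j - 1, by omega⟩
      have k4 : ¬ j + 19 ≤ n := fun e' => H.m3 _ _ _ g (by omega) (w j (by omega) e')
      exact .inl (.inl (.inr ⟨j + 1, Finset.mem_Icc.2 (by omega), g⟩))
  · rcases V.cov z 18 g le_rfl (by omega) m with t | t
    · by_cases p : P z 18
      · exact .inr p
      · exact .inl (.inr ⟨t, p⟩)
    · exact absurd (w 19 le_rfl (by omega)) ((t.2.2.2 19 (by omega) (by omega)).2 (.inr rfl))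

omit [Finite F] in
lemma low (h : PS n r φ) (R : RH n r P) (J : JN r P) (hn : 110 ≤ n) {y : F} {e : ℕ} (he : e ≤ 17)
    (c : ¬ Cov n r P y) (p : P (mov r e 18 y) 18) :
    ∃ k ∈ Finset.range 3, XL r P (mov r k 3 y) := by
  by_cases e3 : 3 ≤ e
  · exact absurd (.inl ⟨e, (h.lg_iff R.leg e3 (by omega) (by omega) (by omega)).1 p⟩) c
  have p3 := (h.lg_iff R.leg (i := 18) (j := 3) (by omega) (by omega) le_rfl (by omega)).2 p
  rw [mov_mov] at p3
  refine ⟨e, Finset.mem_range.2 (by omega), p3, fun g => c ?_⟩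
  obtain ⟨x, j, p1, g1, w1, e1⟩ := h.jn_orb R J p3 g
    (h.mov_rch (Nat.zero_le e) (by omega) (Nat.zero_le 3) le_rfl y).symm
  rcases Nat.eq_zero_or_pos j with rfl | hj
  · rw [h.mov30] at e1
    exact .inl ⟨3, R.eqv _ _ _ p1 e1.symm⟩
  · exact .inr (.inl ⟨x, j, p1, g1, hj, w1, e1⟩)

end O1

open O1 in
theorem stO1 (hPUSH : St_PUSH) : St_O1 := by
  intro F L _ _ n r φ h A G P H V hn R J hb E hE
  rcases Nat.eq_zero_or_pos E with rfl | E1
  · rw [cnt_false fun y ⟨_, e, h1, h2, _⟩ => by omega]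
    exact Nat.zero_le _
  have h1 := cnt_words (r := r) (S := fun y => ∃ e ∈ Finset.range (E + 1),
    Tg n r G P (mov r e 18 y)) _ (fun e => mov r e 18) (fun e _ => mov_univ e 18) fun _ k => k
  have h2 := cnt_words (r := r) (S := fun y => ∃ k ∈ Finset.range 3, XL r P (mov r k 3 y)) _
    (fun e => mov r e 3) (fun e _ => mov_univ e 3) fun _ k => k
  rw [Finset.card_range] at h1 h2
  refine ((cnt_mono ?_).trans (cnt_or_le.trans (Nat.add_le_add (h1.trans
    (Nat.mul_le_mul_left _ (cnt_Tg H hn hb))) h2))).trans (Nat.add_le_add_right (by nlinarith) _)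
  rintro y ⟨⟨-, w, c⟩, e, e1, e2, m, w'⟩
  obtain ⟨k, k1, k2⟩ : ∃ k, k ≤ e ∧ ¬ Wl r (mov r k 18 y) 18 := by
    rcases (hPUSH h y e 18 (n - 18) e1 (by omega) (by omega) (by omega) m fun d d1 d2 =>
      if d3 : d < 18 then w' d d1 d3 else w d (by omega) (by omega)).1 with p | ⟨-, p⟩
    · exact ⟨e, le_rfl, p 18 (by omega) le_rfl⟩
    · obtain ⟨e, rfl⟩ : ∃ e', e = e' + 1 := ⟨e - 1, by omega⟩
      have := p 18 (by omega) le_rfl
      rw [Nat.add_sub_cancel, h.mov_from] at this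
      exact ⟨e, by omega, this⟩
  rcases tg (P := P) H V hn k2 (fun d d1 d2 => (h.wl_mov (.inr ⟨by omega, by omega⟩) y).2
    (w d (by omega) d2)) with t | p
  · exact .inl ⟨k, Finset.mem_range.2 (by omega), t⟩
  · exact .inr (low h R J hn (by omega) c p)

end Pool.Agent.FlagOrb.R
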