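import Pool.Agent.Lib.MP_7157e1_co.R_CC

/-! Cubic range: the partition of the types. -/

namespace Pool.Agent.FlagOrb.R

open Equiv Set Q

namespace PART

/-- the index pairs of the grid -/
def prs (n : ℕ) : Finset (ℕ × ℕ) :=
  (Finset.Icc 12 (n - 5)).biUnion fun j => (Finset.Icc 5 (min (j - 1) (n - 12))).image (·, j)

lemma mem_prs {n : ℕ} (hn : 20 ≤ n) {p : ℕ × ℕ} : p ∈ prs n ↔
    5 ≤ p.1 ∧ p.1 + 12 ≤ n ∧ 12 ≤ p.2 ∧ p.2 + 5 ≤ n ∧ p.1 < p.2 := by
  obtain ⟨i, j⟩ := p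
  simp only [prs, Finset.mem_biUnion, Finset.mem_Icc, Finset.mem_image, Prod.mk.injEq]
  exact ⟨fun ⟨a, b, c, d, e⟩ => by omega, fun k => ⟨j, by omega, i, by omega, rfl, rfl⟩⟩

lemma sum_lin (m : ℕ) : 2 * ∑ j ∈ Finset.range m, (j + 7) = m * (m + 13) := by
  induction m with
  | zero => simp
  | succ m ih => rw [Finset.sum_range_succ, mul_add, ih]; ring

lemma card_prs {n : ℕ} (hn : 30 ≤ n) : 2 * (prs n).card + 12 = (n - 1) * (n - 18) := by
  obtain ⟨m, rfl⟩ : ∃ m, n = m + 23 := ⟨n - 23, by omega⟩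
  rw [prs, Finset.card_biUnion]
  · have : ∀ j, ((Finset.Icc 5 (min (j - 1) (m + 23 - 12))).image (·, j)).card =
        min (j - 5) (m + 7) := fun j => by
      rw [Finset.card_image_of_injective _ (Prod.mk_left_injective j), Nat.card_Icc]
      omega
    simp only [this]
    rw [show m + 23 - 5 = m + 18 by omega, ← Finset.Ico_add_one_right_eq_Icc,
      Finset.sum_Ico_eq_sum_range, show m + 18 + 1 - 12 = m + 7 by omega, Finset.sum_range_add,
      Finset.sum_congr rfl (g := fun j => j + 7) fun j hj => by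
        have := Finset.mem_range.1 hj; omega,
      Finset.sum_congr rfl (s₁ := Finset.range 7) (g := fun _ => m + 7) fun j _ => by omega,
      mul_add, sum_lin, show m + 23 - 1 = m + 22 by omega, show m + 23 - 18 = m + 5 by omega]
    simp
    ring
  · intro a _ b _ hab
    simp only [Function.onFun, Finset.disjoint_left, Finset.mem_image]
    rintro _ ⟨i, -, rfl⟩ ⟨i', -, e⟩
    exact hab (Prod.mk.inj e).2.symm

variable {F L : Type} [Lattice L] {n A : ℕ} {r : ℕ → Perm F} {φ : ℕ → F → L}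
  {G : F → ℕ → ℕ → Prop} {P : F → ℕ → Prop}

lemma lo_mv (H : GS n r A G) {x : F} {i j : ℕ} (k : G x i j) : ¬ Wl r x (i - 1) := by
  have := H.rng x i j k
  obtain ⟨d, rfl⟩ : ∃ d, i = d + 1 := ⟨i - 1, by omega⟩
  exact H.m1 x d j k

lemma g_uniq (H : GS n r A G) {x : F} {i j i' j' : ℕ} (k : G x i j) (k' : G x i' j') :
    i = i' ∧ j = j' := by
  have a := H.rng x i j k
  have a' := H.rng x i' j' k'
  by_contra q
  have c1 : ¬ (i - 1 + 1 ≠ i' ∧ i - 1 ≠ i' ∧ i - 1 + 1 ≠ j' ∧ i - 1 ≠ j') := fun z =>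
    lo_mv H k (H.wl x i' j' _ k' (by omega) (by omega) z.1 z.2.1 z.2.2.1 z.2.2.2)
  have c2 : ¬ (i' - 1 + 1 ≠ i ∧ i' - 1 ≠ i ∧ i' - 1 + 1 ≠ j ∧ i' - 1 ≠ j) := fun z =>
    lo_mv H k' (H.wl x i j _ k (by omega) (by omega) z.1 z.2.1 z.2.2.1 z.2.2.2)
  have c3 : ¬ (j + 1 ≠ i' ∧ j ≠ i' ∧ j + 1 ≠ j' ∧ j ≠ j') := fun z =>
    H.m4 x i j k (H.wl x i' j' _ k' (by omega) (by omega) z.1 z.2.1 z.2.2.1 z.2.2.2)
  have c4 : ¬ (j' + 1 ≠ i ∧ j' ≠ i ∧ j' + 1 ≠ j ∧ j' ≠ j) := fun z =>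
    H.m4 x i' j' k' (H.wl x i j _ k (by omega) (by omega) z.1 z.2.1 z.2.2.1 z.2.2.2)
  omega

/-- the pure part avoids the grid -/
lemma cov_notG (h : PS n r φ) (H : GS n r A G) (R : RH n r P) (J : JN r P)
    (J' : JN (rev n r) (mP n P)) {x : F} (k : Cov n r P x) : ¬ InG G x := by
  rintro ⟨i, j, g⟩
  have a := H.rng x i j g
  rcases k with ⟨l, k⟩ | k | k
  · have c1 : ¬ (i - 1 ≠ l ∧ i - 1 + 1 ≠ l) := fun z =>
      lo_mv H g (R.leg.wl x l _ k (by omega) (by omega) z.1 z.2)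
    have c2 : ¬ (j ≠ l ∧ j + 1 ≠ l) := fun z =>
      H.m4 x i j g (R.leg.wl x l _ k (by omega) (by omega) z.1 z.2)
    omega
  · exact lo_mv H g (CC.chn_wl h R J k (by omega) (by omega))
  · exact lo_mv H g (CC.chn_wl' h R J' k (by omega) (by omega))

variable [Finite F]

lemma cnt_G (H : GS n r A G) (hn : 30 ≤ n) : cnt r (InG G) = (prs n).card * A := by
  rw [cnt_congr (T := fun x => ∃ p ∈ prs n, G x p.1 p.2) fun x =>
    ⟨fun ⟨i, j, k⟩ => ⟨(i, j), (mem_prs (by omega)).2 (H.rng x i j k), k⟩,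
      fun ⟨_, _, k⟩ => ⟨_, _, k⟩⟩,
    cnt_ex_eq _ (fun (p : ℕ × ℕ) x => G x p.1 p.2) fun p _ q _ x y a b e =>
      Prod.ext_iff.2 (g_uniq H (H.eqv _ _ _ _ a e) b),
    Finset.sum_congr rfl (g := fun _ => A) fun p hp => by
      obtain ⟨a, b, c, d, e⟩ := (mem_prs (by omega)).1 hp
      exact H.num _ _ a b c d e]
  simp

lemma cnt_T (h : PS n r φ) (V : CV n r G) (hn : 110 ≤ n) (R : RH n r P) {i : ℕ} (i1 : 18 ≤ i)
    (i2 : i + 18 ≤ n) : cnt r (fun x => T1 n r G x i ∧ ¬ P x i) =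
      cnt r (fun x => T1 n r G x 18 ∧ ¬ P x 18) :=
  cnt_word (mov_univ i 18) fun x => by
    rw [h.lg_iff V.leg i1 (by omega) le_rfl (by omega),
      h.lg_iff R.leg (by omega) (by omega) (by omega) (by omega)]

end PART

open PART in
theorem stPART : St_PART := by
  intro F L _ _ n r φ h A G P H V hn R J J'
  refine ⟨cnt_T h V hn R (by omega) (by omega), ?_⟩
  have mv : ∀ x i c, T1 n r G x i → c + 1 = i ∨ c = i → ¬ Wl r x c := fun x i c k e =>
    (k.2.2.2 c (by have := k.2.1; omega) (by have := k.2.2.1; omega)).2 e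
  have t : cnt r (fun x => ∃ i ∈ Finset.Icc 18 (n - 18), T1 n r G x i ∧ ¬ P x i) =
      (n - 35) * cnt r (fun x => T1 n r G x 18 ∧ ¬ P x 18) := by
    rw [cnt_ex_eq _ (fun i x => T1 n r G x i ∧ ¬ P x i) fun i _ j _ x y a b e =>
      V.leg.uniq (a.1.eqv H e) b.1 (by omega) (by omega) (by omega),
      Finset.sum_congr rfl fun i hi => cnt_T h V hn R (Finset.mem_Icc.1 hi).1
        (by have := (Finset.mem_Icc.1 hi).2; omega)]
    simp only [Finset.sum_const, Nat.card_Icc, smul_eq_mul]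
    rw [show n - 18 + 1 - 18 = n - 35 by omega]
  have all : cnt r (fun x => InG G x ∨ (∃ i ∈ Finset.Icc 18 (n - 18), T1 n r G x i ∧ ¬ P x i) ∨
      Cov n r P x ∨ Oth n r G P x) = nty r := cnt_true fun x => by
    by_contra q
    simp only [not_or] at q
    refine q.2.2.2 ⟨q.1, fun c c1 c2 => ?_, q.2.2.1⟩
    by_contra w
    rcases V.cov x c q.1 c1 c2 w with k | k
    · exact q.2.1 ⟨c, Finset.mem_Icc.2 ⟨c1, by omega⟩, k, fun p => q.2.2.1 (Or.inl ⟨_, p⟩)⟩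
    · exact q.2.1 ⟨c + 1, Finset.mem_Icc.2 ⟨by omega, by omega⟩, k,
        fun p => q.2.2.1 (Or.inl ⟨_, p⟩)⟩
  rw [cnt_or_eq, cnt_or_eq, cnt_or_eq, t, cnt_G H (by omega)] at all
  · rw [← all, ← card_prs (by omega)]
    ring
  · exact fun x y a b e => b.2.2 (CC.cov_eqv h R a e)
  · rintro x y ⟨i, -, a, b⟩ k e
    have i1 := a.2.1
    have i2 := a.2.2.1
    rcases k with (⟨l, k⟩ | k | k) | k
    · have k' := R.eqv _ _ _ k e.symm
      have c1 : ¬ (i ≠ l ∧ i + 1 ≠ l) := fun z =>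
        mv x i i a (Or.inr rfl) (R.leg.wl x l _ k' (by omega) (by omega) z.1 z.2)
      have c2 : ¬ (i - 1 ≠ l ∧ i - 1 + 1 ≠ l) := fun z =>
        mv x i (i - 1) a (Or.inl (by omega)) (R.leg.wl x l _ k' (by omega) (by omega) z.1 z.2)
      exact b ((show l = i by omega) ▸ k')
    · exact mv x i i a (Or.inr rfl) ((CC.chn_wl h R J k (by omega) (by omega)).eqv e.symm)
    · exact mv x i i a (Or.inr rfl) ((CC.chn_wl' h R J' k (by omega) (by omega)).eqv e.symm)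
    · by_cases z : i + 19 ≤ n
      · exact mv x i i a (Or.inr rfl) ((k.2.1 i i1 z).eqv e.symm)
      · exact mv x i (i - 1) a (Or.inl (by omega))
          ((k.2.1 (i - 1) (by omega) (by omega)).eqv e.symm)
  · rintro x y a (⟨i, -, b, -⟩ | b | b) e
    exacts [b.1 (H.inG_eqv a e), cov_notG h H R J J' b (H.inG_eqv a e), b.1 (H.inG_eqv a e)]

end Pool.Agent.FlagOrb.R
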