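import Pool.Agent.Lib.MP_7157e1_co.RKitC

/-! Full pure legs. -/

namespace Pool.Agent.FlagOrb.R

open Equiv Set Q

theorem stPLEG (hEXT : St_EXT) (hH0 : St_H0) : St_PLEG := by
  intro F L _ _ n r φ h A G H V hn
  obtain ⟨H1, z1, l1⟩ := hH0 h A G H V hn
  obtain ⟨H2, z2, l2⟩ := hH0 h.mirror A _ (h.GS_rev H) (h.CV_rev H (by omega) V) hn
  have E1 := hEXT h _ _ _ _ 3 _ H1 le_rfl (by omega) (by omega) (by omega) (by omega) (by omega)
    (Or.inr ⟨rfl, rfl, z1⟩) l1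
  have E2 := h.mirror.Lg_rev (hEXT h.mirror _ _ _ _ 3 _ H2 le_rfl (by omega) (by omega) (by omega)
    (by omega) (by omega) (Or.inr ⟨rfl, rfl, z2⟩) l2) (by omega)
  rw [h.rev_rev, show n - (n - 1) = 1 by omega, show n - (n - 18) = 18 by omega] at E2
  have top : ∀ y, Q0 n (rev n r) (mG n G) y 18 ↔ Q0 n r G (mov r (n - 18) 18 y) 18 := fun y => by
    rw [h.Q0_rev H (by omega), h.lg_iff H1 (by omega) le_rfl le_rfl (by omega)]
    exact ⟨fun k => k.2, fun k => ⟨by omega, k⟩⟩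
  refine ⟨fun x i => 3 ≤ i ∧ i ≤ n - 3 ∧ Q0 n r G (mov r i 18 x) 18, ⟨by omega,
    E1.glue E2 (by omega) (fun x i k => ⟨k.1, k.2.1⟩) (fun x i k => ⟨?_, ?_⟩)
      fun x i k => ⟨?_, ?_⟩, ?_, ?_, ?_⟩, fun x k => ⟨by omega, by omega, by rwa [mov_self]⟩⟩
  · rintro ⟨i1, -, q⟩
    by_cases c : 18 ≤ i
    · exact Or.inl ⟨c, (h.lg_iff H1 c k le_rfl (by omega)).1 q⟩
    · exact Or.inr ⟨i1, by omega, q⟩
  · rintro (⟨c, q⟩ | ⟨i1, -, q⟩)
    · exact ⟨by omega, by omega, (h.lg_iff H1 c k le_rfl (by omega)).2 q⟩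
    · exact ⟨i1, by omega, q⟩
  · rintro ⟨i1, i2, q⟩
    refine ⟨by omega, ?_⟩
    by_cases c : 18 ≤ n - i
    · refine Or.inl ⟨c, (h.Q0_rev H (by omega)).2 ⟨by omega, ?_⟩⟩
      rw [show n - (n - i) = i by omega]
      exact (h.lg_iff H1 k (by omega) le_rfl (by omega)).1 q
    · refine Or.inr ⟨by omega, by omega, (top _).2 ?_⟩
      rwa [h.mov_rev (by omega) (by omega), show n - (n - i) = i by omega, mov_mov]
  · rintro ⟨i0, ⟨c, q⟩ | ⟨i1, i2, q⟩⟩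
    · have := ((h.Q0_rev H (by omega)).1 q).2
      rw [show n - (n - i) = i by omega] at this
      exact ⟨by omega, by omega, (h.lg_iff H1 k (by omega) le_rfl (by omega)).2 this⟩
    · have := (top _).1 q
      rw [h.mov_rev (by omega) (by omega), show n - (n - i) = i by omega, mov_mov] at this
      exact ⟨by omega, by omega, this⟩
  · rintro x y i ⟨i1, i2, q⟩ e
    exact ⟨i1, i2, q.eqv H (eqv_mov e i 18)⟩
  · rintro x i ⟨i1, i2, q⟩
    refine ⟨i1, i2, ?_⟩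
    rw [← h.cap_mov (by omega)]
    exact z1 _ q
  · rintro x i ⟨i1, i2, q⟩
    refine ⟨i1, i2, ?_⟩
    have := (top _).1 (z2 (mov r i (n - 18) x) ((top _).2 (by rwa [mov_mov])))
    rwa [rev_lt (by omega), Nat.sub_zero, h.cap_mov (by omega), mov_mov] at this

end Pool.Agent.FlagOrb.R
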