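import Pool.Agent.Lib.MP_7157e1_co.RKitC

/-! Cubic range: a moving colour below a long row of walls can be pushed upwards. -/

namespace Pool.Agent.FlagOrb.R

open Equiv Set Q

namespace PUSH

variable {F L : Type} [Lattice L] [Finite F] {n : ℕ} {r : ℕ → Perm F} {φ : ℕ → F → L}
  (h : PS n r φ)
include h

/-- no fork: a second neighbour of the first wall forces the next colour to move -/
lemma nf {x0 y : F} {t b : ℕ} (hb : b ≤ n) (ht : t + 8 ≤ b) (hy : InD r 0 n x0 y)
    (hm : ¬ Wl r y t) (hw : ∀ c, t < c → c < b → Wl r y c) {g : Perm F}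
    (hg : g ∈ Walls r 0 n x0) (h1 : ¬ Commute (rf r y (t + 1)) g) (h2 : g ≠ rf r y (t + 2)) :
    ¬ Wl r (r t y) (t + 1) := by
  classical
  intro wa
  obtain ⟨C, hC⟩ := (h.wall (a := 0) (b := n) le_rfl x0).1.exC
  have d1 : InD r 0 n x0 (r t y) := hy.next ⟨by omega, by omega⟩ hm
  have p := h.wl_path (c := t + 1) (m := 6) le_rfl hy (by omega) (by omega)
    (fun j hj => hw _ (by omega) (by omega))
  have w1 : Wl r y (t + 1) := hw _ (by omega) (by omega)
  have w2 : Wl r y (t + 2) := hw _ (by omega) (by omega)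
  have w3 : Wl r y (t + 3) := hw _ (by omega) (by omega)
  refine h2 (hC.dead p (a := rf r (r t y) (t + 1)) (wall_mem d1 ⟨by omega, by omega⟩ wa)
    (h.rf_step_ne w1 wa (Or.inr ⟨rfl, by omega⟩)).symm ?_ ?_ hg h1)
  · change _ ≠ rf r y (t + 3)
    rw [← h.rf_step (c' := t) w3 (by omega) (by omega)]
    exact h.rf_ne wa ((h.wl_far (by omega) (by omega)).2 w3) (by omega) (by omega)
  · change ¬ Commute (rf r y (t + 2)) _
    rw [← h.rf_step (c' := t) w2 (by omega) (by omega)]
    exact adj_symm (h.rf_adj wa ((h.wl_far (by omega) (by omega)).2 w2) (by omega))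

lemma run {x0 : F} {b : ℕ} (hb : b ≤ n) (k : ℕ) : ∀ (y : F) (t : ℕ), t + k + 7 ≤ b →
    InD r 0 n x0 y → ¬ Wl r y t → (∀ c, t < c → c < b → Wl r y c) → ∀ g ∈ Walls r 0 n x0,
    ¬ Commute (rf r y (t + 1)) g → g ≠ rf r y (t + 2) → ¬ Wl r (mov r t (t + k) y) (t + k) := by
  induction k with
  | zero =>
    intro y t _ _ hm _ _ _ _ _
    rwa [Nat.add_zero, mov_self]
  | succ k ih =>
    intro y t ht hy hm hw g hg h1 h2
    have m1 := nf h hb (by omega) hy hm hw hg h1 h2
    have w1 : Wl r y (t + 1) := hw _ (by omega) (by omega)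
    have w2 : Wl r y (t + 2) := hw _ (by omega) (by omega)
    have w3 : Wl r y (t + 3) := hw _ (by omega) (by omega)
    have k1 := ih (r t y) (t + 1) (by omega) (hy.next ⟨by omega, by omega⟩ hm) m1
      (fun c c1 c2 => (h.wl_far (by omega) (by omega)).2 (hw c (by omega) c2))
      (rf r y (t + 1)) (wall_mem hy ⟨by omega, by omega⟩ w1)
      (by
        rw [h.rf_step (c := t + 1 + 1) (c' := t) w2 (by omega) (by omega)]
        exact adj_symm (h.rf_adj w1 w2 (by omega)))
      (by
        rw [h.rf_step (c := t + 1 + 2) (c' := t) w3 (by omega) (by omega)]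
        exact h.rf_ne w1 w3 (by omega) (by omega))
    rwa [h.mov_from, show t + 1 + k = t + (k + 1) by omega] at k1

/-- two moving steps give the whole push -/
lemma two {x : F} {e f b : ℕ} (hb : b ≤ n) (hf : f + 7 ≤ b) (hm : ¬ Wl r x e)
    (hw : ∀ c, e < c → c < b → Wl r x c) (m1 : ¬ Wl r (r e x) (e + 1)) : Pu r x e f := by
  intro t t1 t2
  rcases Nat.eq_or_lt_of_le t1 with rfl | t3
  · rwa [mov_self]
  obtain ⟨k, rfl⟩ : ∃ k, t = e + 1 + k := ⟨t - (e + 1), by omega⟩
  have d0 : InD r 0 n x x := InD.refl x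
  have w1 : Wl r x (e + 1) := hw _ (by omega) (by omega)
  have w2 : Wl r x (e + 2) := hw _ (by omega) (by omega)
  have w3 : Wl r x (e + 3) := hw _ (by omega) (by omega)
  have k1 := run h hb k (r e x) (e + 1) (by omega) (d0.next ⟨by omega, by omega⟩ hm) m1
    (fun c c1 c2 => (h.wl_far (by omega) (by omega)).2 (hw c (by omega) c2))
    (rf r x (e + 1)) (wall_mem d0 ⟨by omega, by omega⟩ w1)
    (by
      rw [h.rf_step (c := e + 1 + 1) (c' := e) w2 (by omega) (by omega)]
      exact adj_symm (h.rf_adj w1 w2 (by omega)))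
    (by
      rw [h.rf_step (c := e + 1 + 2) (c' := e) w3 (by omega) (by omega)]
      exact h.rf_ne w1 w3 (by omega) (by omega))
  rwa [h.mov_from] at k1

/-- at a fork the colour below moves and its neighbour can be pushed -/
lemma fork {x : F} {d b : ℕ} (hb : b ≤ n) (hd : d + 9 ≤ b) (hm : ¬ Wl r x (d + 1))
    (hw : ∀ c, d + 1 < c → c < b → Wl r x c) (wa : Wl r (r (d + 1) x) (d + 2)) :
    ¬ Wl r x d ∧ ¬ Wl r (r d x) (d + 1) ∧ ¬ Wl r (r (d + 1) (r d x)) (d + 2) := by
  classical
  obtain ⟨C, hC⟩ := (h.wall (a := 0) (b := n) le_rfl x).1.exC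
  have d0 : InD r 0 n x x := InD.refl x
  have d1 : InD r 0 n x (r (d + 1) x) := d0.next ⟨by omega, by omega⟩ hm
  have w2 : Wl r x (d + 2) := hw _ (by omega) (by omega)
  have w3 : Wl r x (d + 3) := hw _ (by omega) (by omega)
  have w4 : Wl r x (d + 4) := hw _ (by omega) (by omega)
  have v3 : Wl r (r (d + 1) x) (d + 3) := (h.wl_far (by omega) (by omega)).2 w3
  have v4 : Wl r (r (d + 1) x) (d + 4) := (h.wl_far (by omega) (by omega)).2 w4
  have e3 : rf r (r (d + 1) x) (d + 3) = rf r x (d + 3) := h.rf_step w3 (by omega) (by omega)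
  have e4 : rf r (r (d + 1) x) (d + 4) = rf r x (d + 4) := h.rf_step w4 (by omega) (by omega)
  have ma : rf r (r (d + 1) x) (d + 2) ∈ Walls r 0 n x := wall_mem d1 ⟨by omega, by omega⟩ wa
  have m2 : rf r x (d + 2) ∈ Walls r 0 n x := wall_mem d0 ⟨by omega, by omega⟩ w2
  have m3 : rf r x (d + 3) ∈ Walls r 0 n x := wall_mem d0 ⟨by omega, by omega⟩ w3
  have m4 : rf r x (d + 4) ∈ Walls r 0 n x := wall_mem d0 ⟨by omega, by omega⟩ w4
  have n1 : rf r x (d + 2) ≠ rf r (r (d + 1) x) (d + 2) :=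
    h.rf_step_ne w2 wa (Or.inr ⟨rfl, by omega⟩)
  have n2 : rf r (r (d + 1) x) (d + 2) ≠ rf r x (d + 4) := by
    rw [← e4]
    exact h.rf_ne wa v4 (by omega) (by omega)
  have n3 : rf r x (d + 2) ≠ rf r x (d + 4) := h.rf_ne w2 w4 (by omega) (by omega)
  have a1 : ¬ Commute (rf r x (d + 3)) (rf r x (d + 2)) := adj_symm (h.rf_adj w2 w3 (by omega))
  have a2 : ¬ Commute (rf r x (d + 3)) (rf r (r (d + 1) x) (d + 2)) := by
    rw [← e3]
    exact adj_symm (h.rf_adj wa v3 (by omega))
  have a3 : ¬ Commute (rf r x (d + 3)) (rf r x (d + 4)) := h.rf_adj w3 w4 (by omega)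
  have md : ¬ Wl r x d := by
    intro wd
    have p := h.wl_path (c := d + 2) (m := 6) le_rfl d1 (by omega) (by omega) (fun j hj => by
      rcases Nat.eq_zero_or_pos j with rfl | j0
      · exact wa
      · exact (h.wl_far (by omega) (by omega)).2 (hw _ (by omega) (by omega)))
    have cm : Commute (rf r (r (d + 1) x) (d + 2)) (rf r x d) := by
      by_contra hc
      have k := hC.dead p (a := rf r x (d + 2)) m2 n1
        (by
          change _ ≠ rf r (r (d + 1) x) (d + 4)
          rw [e4]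
          exact n3)
        (by
          change ¬ Commute (rf r (r (d + 1) x) (d + 3)) _
          rw [e3]
          exact a1)
        (wall_mem d0 ⟨by omega, by omega⟩ wd) hc
      change _ = rf r (r (d + 1) x) (d + 3) at k
      rw [e3] at k
      exact h.rf_ne wd w3 (by omega) (by omega) k
    have eg : r (d + 1) (r d x) = rf r x d (r (d + 1) x) := by
      rw [Aut.app (rf_aut x d), rf_app wd]
    have wb : Wl r (r (d + 1) (r d x)) (d + 2) := by
      rw [eg]
      exact wa.eqv ⟨_, rf_aut x d, rfl⟩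
    refine h.three_walls (by omega) wa wb ?_
    rw [eg, h.rf_conj wa (rf_aut x d), ← cm.eq, mul_inv_cancel_right]
  have d2 : InD r 0 n x (r d x) := d0.next ⟨by omega, by omega⟩ md
  have y2 : Wl r (r d x) (d + 2) := (h.wl_far (by omega) (by omega)).2 w2
  have y3 : Wl r (r d x) (d + 3) := (h.wl_far (by omega) (by omega)).2 w3
  have y4 : Wl r (r d x) (d + 4) := (h.wl_far (by omega) (by omega)).2 w4
  have f2 : rf r (r d x) (d + 2) = rf r x (d + 2) := h.rf_step w2 (by omega) (by omega)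
  have f3 : rf r (r d x) (d + 3) = rf r x (d + 3) := h.rf_step w3 (by omega) (by omega)
  have f4 : rf r (r d x) (d + 4) = rf r x (d + 4) := h.rf_step w4 (by omega) (by omega)
  have my : ¬ Wl r (r d x) (d + 1) := by
    intro wy
    have p := h.wl_path (c := d + 2) (m := 6) le_rfl d0 (by omega) (by omega)
      (fun j hj => hw _ (by omega) (by omega))
    have k := hC.dead p (a := rf r (r (d + 1) x) (d + 2)) ma n1.symm n2 a2
      (wall_mem d2 ⟨by omega, by omega⟩ wy)
      (by
        change ¬ Commute (rf r x (d + 2)) _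
        rw [← f2]
        exact adj_symm (h.rf_adj wy y2 (by omega)))
    change _ = rf r x (d + 3) at k
    rw [← f3] at k
    exact h.rf_ne wy y3 (by omega) (by omega) k
  refine ⟨md, my, fun wz => ?_⟩
  have d3 : InD r 0 n x (r (d + 1) (r d x)) := d2.next ⟨by omega, by omega⟩ my
  have z3 : Wl r (r (d + 1) (r d x)) (d + 3) := (h.wl_far (by omega) (by omega)).2 y3
  have z4 : Wl r (r (d + 1) (r d x)) (d + 4) := (h.wl_far (by omega) (by omega)).2 y4
  have k := hC.val4 m3 m2 ma m4 (wall_mem d3 ⟨by omega, by omega⟩ wz) a1 a2 a3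
    (by
      rw [← f3, ← h.rf_step (c' := d + 1) y3 (by omega) (by omega)]
      exact adj_symm (h.rf_adj wz z3 (by omega)))
    n1 n3 n2
  rcases k with k | k | k
  · rw [← f2] at k
    exact h.rf_step_ne y2 wz (Or.inr ⟨rfl, by omega⟩) k.symm
  · exact h.three_walls (by omega) wa wz k.symm
  · rw [← f4, ← h.rf_step (c' := d + 1) y4 (by omega) (by omega)] at k
    exact h.rf_ne wz z4 (by omega) (by omega) k

end PUSH

theorem stPUSH : St_PUSH := by
  intro F L _ _ n r φ h x e f b e1 ef hf hb hm hw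
  refine ⟨?_, fun x0 g hx hg h1 h2 t t1 t2 => ?_⟩
  · rcases Nat.eq_or_lt_of_le ef with rfl | ef'
    · refine Or.inl fun t t1 t2 => ?_
      obtain rfl : t = e := by omega
      rwa [mov_self]
    by_cases wa : Wl r (r e x) (e + 1)
    · obtain ⟨d, rfl⟩ : ∃ d, e = d + 1 := ⟨e - 1, by omega⟩
      obtain ⟨k1, k2, k3⟩ := PUSH.fork h hb (by omega) hm hw wa
      exact Or.inr ⟨k1, PUSH.two h hb hf k2
        (fun c c1 c2 => (h.wl_far (by omega) (by omega)).2 (hw c c1 c2)) k3⟩
    · exact Or.inl (PUSH.two h hb hf hm hw wa)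
  · obtain ⟨k, rfl⟩ : ∃ k, t = e + k := ⟨t - e, by omega⟩
    exact PUSH.run h hb k x e (by omega) hx hm hw g hg h1 h2

end Pool.Agent.FlagOrb.R
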