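import Pool.Agent.Lib.MP_7157e1_co.RKitC
import Pool.Agent.Lib.MP_7157e1_co.Q_SIGN

/-! The sign argument on an orbit, relative to a set of far colours. -/

namespace Pool.Agent.FlagOrb.R

open Equiv Set Q

namespace SG

open SIGN (canc capp')

variable {F L : Type} [Lattice L] {n : ℕ} {r : ℕ → Perm F} {φ : ℕ → F → L}

/-- the data of the window -/
structure Win (r : ℕ → Perm F) (J : Set ℕ) (O : F → Prop) (lo hi : ℕ) : Prop where
  far : Far J lo hi
  cm : ∀ c ∈ J, ∀ c' ∈ J, Commute (r c) (r c')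
  cl : ∀ x c, O x → lo ≤ c → c < hi → O (r c x)
  brd : ∀ x l, O x → lo ≤ l → l + 2 ≤ hi → per r l x = 3
  span : ∀ x c c', O x → lo ≤ c → c + 4 ≤ c' → c' < hi → Hj r J x c ∨ Hj r J x c'

variable {J : Set ℕ} {O : F → Prop} {lo hi : ℕ} (h : PS n r φ) (w : Win r J O lo hi)
include h w

lemma gc {g : Perm F} (hg : g ∈ W r J) {c : ℕ} (h1 : lo ≤ c) (h2 : c < hi) (x : F) :
    r c (g x) = g (r c x) :=
  h.capW hg (fun c' hc' => by have := w.far c' hc'; omega) x

omit h in
lemma gg {g k : Perm F} (hg : g ∈ W r J) (hk : k ∈ W r J) (x : F) : g (k x) = k (g x) := by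
  rw [← Perm.mul_apply, (W_comm2 w.cm hg hk).eq, Perm.mul_apply]

lemma braid {c c' : ℕ} (h1 : lo ≤ c) (h2 : c < hi) (h3 : lo ≤ c') (h4 : c' < hi)
    (ha : c' = c + 1 ∨ c = c' + 1) {x : F} (o : O x) :
    r c (r c' (r c x)) = r c' (r c (r c' x)) := by
  rcases ha with rfl | rfl
  · exact h.braid (w.brd x _ o h1 (by omega))
  · exact (h.braid (w.brd x _ o h3 (by omega))).symm

lemma hf_far {c c' : ℕ} (h3 : lo ≤ c') (h4 : c' < hi) (h1 : c ≠ c' + 1) (h2 : c' ≠ c + 1) {x : F}
    (hx : Hj r J x c) : Hj r J (r c' x) c := by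
  obtain ⟨g, hg, e⟩ := hx
  refine ⟨g, hg, ?_⟩
  rw [← gc h w hg h3 h4, capp' h h1 h2]
  exact e.step c'

lemma nf_far {c c' : ℕ} (h3 : lo ≤ c') (h4 : c' < hi) (h1 : c ≠ c' + 1) (h2 : c' ≠ c + 1) {x : F}
    (hx : ¬ Hj r J x c) : ¬ Hj r J (r c' x) c :=
  fun hy => hx (by simpa [h.rr] using hf_far h w h3 h4 h1 h2 hy)

lemma push {c c' : ℕ} (h1 : lo ≤ c) (h2 : c < hi) (h3 : lo ≤ c') (h4 : c' < hi)
    (ha : c' = c + 1 ∨ c = c' + 1) {x : F} (o : O x) (hx : ¬ Hj r J x c) (hx' : Hj r J x c') :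
    ¬ Hj r J (r c x) c' := by
  rintro ⟨k, hk, e'⟩
  obtain ⟨g, hg, e⟩ := hx'
  have e1 : Eqv r (k x) (r c (r c' (r c x))) := by
    have := e'.step c
    rwa [gc h w hk h1 h2, h.rr] at this
  have e2 : Eqv r (g (k (r c x))) (r c' (r c (r c' x))) := by
    have a1 := (e.step c).step c'
    rw [gc h w hg h1 h2, gc h w hg h3 h4] at a1
    exact (e'.map hg).trans a1
  rw [braid h w h1 h2 h3 h4 ha o] at e1
  refine hx ⟨(g * k)⁻¹ * k, mul_mem (inv_mem (mul_mem hg hk)) hk, ?_⟩
  apply canc (mul_mem hg hk)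
  simpa using e1.trans e2.symm

lemma lemA {c c' : ℕ} (h1 : lo ≤ c) (h2 : c + 2 ≤ c') (h3 : c + 4 < hi) (h4 : c' < hi) {x : F}
    (o : O x) (hx : ¬ Hj r J x c) : Hj r J x c' := by
  have span : ∀ y d, O y → c + 4 ≤ d → d < hi → ¬ Hj r J y c → Hj r J y d :=
    fun y d oy d1 d2 k => (w.span y c d oy h1 d1 d2).resolve_left k
  have k3 : ∀ y, O y → ¬ Hj r J y c → Hj r J y (c + 3) := by
    intro y oy hy
    by_contra hy'
    exact push h w (c := c + 3) (c' := c + 4) (by omega) (by omega) (by omega) h3 (Or.inl rfl) oy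
      hy' (span _ _ oy le_rfl h3 hy) (span _ _ (w.cl _ _ oy (by omega) (by omega)) le_rfl h3
        (nf_far h w (by omega) (by omega) (by omega) (by omega) hy))
  rcases (by omega : c' = c + 2 ∨ c' = c + 3 ∨ c + 4 ≤ c') with rfl | rfl | h5
  · by_contra hx'
    exact push h w (c := c + 2) (c' := c + 3) (by omega) (by omega) (by omega) (by omega)
      (Or.inl rfl) o hx' (k3 x o hx) (k3 _ (w.cl _ _ o (by omega) (by omega))
        (nf_far h w (by omega) (by omega) (by omega) (by omega) hx))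
  · exact k3 x o hx
  · exact span _ _ o h5 h4 hx

lemma two_of {i : ℕ} (h1 : lo ≤ i) (h2 : i + 4 < hi) {x : F} (o : O x) (hx : ¬ Hj r J x i)
    (hx' : ¬ Hj r J x (i + 1)) : Tw r J lo hi x (i + 1) := by
  refine ⟨by omega, by omega, fun c h3 h4 => ⟨fun hc => ?_, ?_⟩⟩
  · by_contra hn
    rcases (by omega : c + 1 ≤ i ∨ i + 2 ≤ c) with h5 | h5
    · exact hx' (lemA h w h3 (by omega) (by omega) (by omega) o hc)
    · exact hc (lemA h w h1 h5 h2 h4 o hx)
  · rintro (h5 | rfl)
    · obtain rfl : c = i := by omega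
      exact hx
    · exact hx'

lemma lemB {c : ℕ} (h1 : lo + 1 ≤ c) (h2 : c + 4 < hi) {x : F} (o : O x) (hx : ¬ Hj r J x c) :
    ∃ i, Tw r J lo hi x i := by
  obtain ⟨d, rfl⟩ : ∃ d, c = d + 1 := ⟨c - 1, by omega⟩
  by_cases a1 : Hj r J x d
  · by_cases a2 : Hj r J x (d + 1 + 1)
    · exact absurd (lemA h w (c := d) (c' := d + 1 + 1) (by omega) (by omega) (by omega) (by omega)
        (w.cl _ _ o (by omega) (by omega))
        (push h w (by omega) (by omega) (by omega) (by omega) (Or.inr rfl) o hx a1))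
        (push h w (by omega) (by omega) (by omega) (by omega) (Or.inl rfl) o hx a2)
    · by_cases k : d + 1 + 4 < hi
      · exact ⟨_, two_of h w (by omega) k o hx a2⟩
      · omega
  · exact ⟨_, two_of h w (by omega) (by omega) o a1 hx⟩

lemma adj {c : ℕ} (h1 : lo ≤ c) (h2 : c + 1 < hi) {x : F} (o : O x) (hx : Hj r J x c)
    (hx' : Hj r J x (c + 1)) : Eqv r (r c x) (r (c + 1) x) := by
  obtain ⟨g, hg, e⟩ := hx
  obtain ⟨k, hk, e'⟩ := hx'
  have key : ∀ {a b : ℕ} {s t : Perm F}, lo ≤ a → a < hi → lo ≤ b → b < hi →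
      s ∈ W r J → t ∈ W r J → Eqv r (s x) (r a x) → Eqv r (t x) (r b x) →
      Eqv r (s (t (s x))) (r a (r b (r a x))) := by
    intro a b s t a1 a2 b1 b2 hs ht es et
    have e1 := (es.step b).step a
    rw [gc h w hs b1 b2, gc h w hs a1 a2] at e1
    have e2 := (et.step a).map hs
    rw [gc h w ht a1 a2] at e2
    exact (((es.map ht).map hs).trans e2).trans e1
  have e1 := key (a := c) (b := c + 1) (by omega) (by omega) (by omega) (by omega) hg hk e e'
  have e2 := key (a := c + 1) (b := c) (by omega) (by omega) (by omega) (by omega) hk hg e' e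
  rw [h.braid (w.brd x c o h1 (by omega))] at e1
  have e3 := e1.trans e2.symm
  rw [gg w hk hg (k x)] at e3
  exact (e.symm.trans (canc hk (canc hg e3))).trans e'

lemma chain {a c : ℕ} (h1 : lo ≤ a) (hac : a ≤ c) (h2 : c < hi) {x : F} (o : O x)
    (hx : ∀ d, a ≤ d → d ≤ c → Hj r J x d) : Eqv r (r a x) (r c x) := by
  induction c, hac using Nat.le_induction with
  | base => exact Eqv.refl _
  | succ c hc ih =>
    exact (ih (by omega) fun d a1 a2 => hx d a1 (by omega)).trans
      (adj h w (by omega) h2 o (hx c hc (by omega)) (hx _ (by omega) le_rfl))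

lemma across {c : ℕ} (h1 : lo ≤ c) {x : F} (o : O x) (hx : Tw r J lo hi x (c + 2)) :
    Eqv r (r c x) (r (c + 3) x) := by
  obtain ⟨-, h2, hx⟩ := hx
  have a0 : Hj r J x c := by
    by_contra hn
    have := (hx c h1 (by omega)).1 hn
    omega
  have a3 : Hj r J x (c + 3) := by
    by_contra hn
    have := (hx (c + 3) (by omega) (by omega)).1 hn
    omega
  have a1 : ¬ Hj r J x (c + 1) := (hx _ (by omega) (by omega)).2 (Or.inl rfl)
  have o1 := w.cl _ (c + 1) o (by omega) (by omega)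
  have o2 := w.cl _ c o1 h1 (by omega)
  have b2 : Hj r J (r c (r (c + 1) x)) (c + 2) :=
    hf_far h w h1 (by omega) (by omega) (by omega)
      (lemA h w (c := c) h1 le_rfl (by omega) (by omega) o1
        (push h w (by omega) (by omega) h1 (by omega) (Or.inr rfl) o a1 a0))
  obtain ⟨g, hg, e⟩ := a0
  obtain ⟨k, hk, e'⟩ := a3
  have c1 : Eqv r (g (r c (r (c + 1) x))) (r (c + 1) (r c (r (c + 1) x))) := by
    rw [← h.braid (w.brd x c o h1 (by omega)), ← gc h w hg (by omega) (by omega),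
      ← gc h w hg (by omega) (by omega)]
    exact (e.step _).step _
  have c3 : Eqv r (k (r c (r (c + 1) x))) (r (c + 3) (r c (r (c + 1) x))) := by
    rw [capp' h (c := c + 3) (by omega) (by omega), capp' h (c := c + 3) (by omega) (by omega),
      ← gc h w hk (by omega) (by omega), ← gc h w hk (by omega) (by omega)]
    exact (e'.step _).step _
  have c4 := ((c1.trans (adj h w (by omega) (by omega) o2 ⟨g, hg, c1⟩ b2)).trans
    (adj h w (c := c + 2) (by omega) (by omega) o2 b2 ⟨k, hk, c3⟩)).trans c3.symm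
  rw [← gc h w hg (by omega) (by omega), ← gc h w hg (by omega) (by omega),
    ← gc h w hk (by omega) (by omega), ← gc h w hk (by omega) (by omega)] at c4
  have c5 : Eqv r (g x) (k x) := by simpa [h.rr] using (c4.step c).step (c + 1)
  exact (e.symm.trans c5).trans e'

lemma two_eq {i : ℕ} {x : F} (o : O x) (hx : Tw r J lo hi x i) (c : ℕ) (h1 : lo ≤ c) (h2 : c < hi)
    (h3 : c ≠ i) (h4 : c + 1 ≠ i) : Eqv r (r c x) (r (i + 1) x) := by
  have hf : ∀ d, lo ≤ d → d < hi → d ≠ i → d + 1 ≠ i → Hj r J x d := by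
    intro d a1 a2 a3 a4
    by_contra hn
    have := (hx.2.2 d a1 a2).1 hn
    omega
  have := hx.1
  have := hx.2.1
  rcases (by omega : c + 2 ≤ i ∨ i + 1 ≤ c) with h5 | h5
  · obtain ⟨j, rfl⟩ : ∃ j, i = j + 2 := ⟨i - 2, by omega⟩
    exact (chain h w h1 (c := j) (by omega) (by omega) o fun d a1 a2 =>
      hf d (by omega) (by omega) (by omega) (by omega)).trans (across h w (by omega) o hx)
  · exact (chain h w (by omega) h5 h2 o fun d a1 a2 =>
      hf d (by omega) (by omega) (by omega) (by omega)).symm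

end SG

theorem stSG : St_SG := by
  intro F L _ _ n r φ h J O lo hi f cm cl brd span x o
  have w : SG.Win r J O lo hi := ⟨f, cm, cl, brd, span⟩
  refine ⟨fun c c1 c2 k => ?_, fun i c c' t _ a1 a2 a3 a4 b1 b2 b3 b4 =>
    (SG.two_eq h w o t c a1 a2 a3 a4).trans (SG.two_eq h w o t c' b1 b2 b3 b4).symm,
    fun i t k => ?_, fun i t k => ?_, fun c c1 c2 => SG.adj h w c1 c2 o⟩
  · obtain ⟨i, t⟩ := SG.lemB h w c1 c2 o k
    rcases (t.2.2 c (by omega) (by omega)).1 k with rfl | rfl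
    exacts [Or.inr t, Or.inl t]
  · have := t.1
    have b0 : ¬ Hj r J x i := (t.2.2 _ (by omega) (by omega)).2 (Or.inr rfl)
    have b1 : Hj r J x (i + 1) := by
      by_contra q
      have := (t.2.2 _ (by omega) (by omega)).1 q
      omega
    exact SG.two_of h w (by omega) (by omega) (cl _ _ o (by omega) (by omega))
      (SG.nf_far h w (by omega) (by omega) (by omega) (by omega) b0)
      (SG.push h w (by omega) (by omega) (by omega) (by omega) (Or.inl rfl) o b0 b1)
  · have := t.2.1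
    obtain ⟨d, rfl⟩ : ∃ d, i = d + 1 := ⟨i - 1, by omega⟩
    have b0 : ¬ Hj r J x (d + 1) := (t.2.2 _ (by omega) (by omega)).2 (Or.inl rfl)
    have b1 : Hj r J x d := by
      by_contra q
      have := (t.2.2 _ (by omega) (by omega)).1 q
      omega
    exact SG.two_of h w (by omega) (by omega) (cl _ _ o (by omega) (by omega))
      (SG.push h w (by omega) (by omega) (by omega) (by omega) (Or.inr rfl) o b0 b1)
      (SG.nf_far h w (by omega) (by omega) (by omega) (by omega) b0)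

end Pool.Agent.FlagOrb.R
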