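import Pool.Agent.Lib.MP_7157e1_co.RKitC

/-! Two adjacent tokens: the middle colour keeps the positions. -/

namespace Pool.Agent.FlagOrb.R

open Equiv Set Q

namespace SW

variable {F L : Type} [Lattice L] [Finite F] {n : ℕ} {r : ℕ → Perm F} {φ : ℕ → F → L}

lemma side (h : PS n r φ) {A : ℕ} {G : F → ℕ → ℕ → Prop} (H : GS n r A G) {x : F} {k : ℕ}
    (g : G x (k + 2) (k + 3)) (hk : 11 ≤ k) (mv : ¬ Wl r x (k + 2)) :
    ¬ Wl r (r (k + 2) x) (k + 3) ∧ ∃ t ∈ Walls r 0 n x,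
      ¬ Commute (rf r (r (k + 2) x) (k + 4)) t ∧ t ≠ rf r (r (k + 2) x) (k + 5) := by
  classical
  obtain ⟨C, hC⟩ := (h.wall (a := 0) (b := n) le_rfl x).1.exC
  have rg := H.rng _ _ _ g
  have g1 := H.d1 _ (k + 1) _ g (by omega)
  have g2 := H.d2 _ _ (k + 2) g1 le_rfl (by omega)
  have g3 := H.d1 _ k _ g2 (by omega)
  have g4 := H.d2 _ _ (k + 1) g3 le_rfl (by omega)
  have m0 : InD r 0 n x x := InD.refl x
  have my : InD r 0 n x (r (k + 2) x) := m0.next ⟨by omega, by omega⟩ mv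
  have m4 := (((m0.next (c := k + 1) ⟨by omega, by omega⟩ (H.m1 _ _ _ g)).next (c := k + 2)
    ⟨by omega, by omega⟩ (H.m3 _ _ _ g1 le_rfl)).next (c := k) ⟨by omega, by omega⟩
    (H.m1 _ _ _ g2)).next (c := k + 1) ⟨by omega, by omega⟩ (H.m3 _ _ _ g3 le_rfl)
  have hq := h.wl_path (c := k + 2) (m := 7) le_rfl m4 (by omega) (by omega) fun j hj =>
    H.wl _ _ _ _ g4 (by omega) (by omega) (by omega) (by omega) (by omega) (by omega)
  have w2 : ∀ c, k + 3 ≤ c → c ≤ k + 5 → Wl r (r (k + 2) (r (k + 1) x)) c := fun c c1 c2 =>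
    H.wl _ _ _ _ g2 (by omega) (by omega) (by omega) (by omega) (by omega) (by omega)
  have e2 : ∀ c, k + 3 ≤ c → c ≤ k + 5 → rf r (r (k + 1) (r k (r (k + 2) (r (k + 1) x)))) c =
      rf r (r (k + 2) (r (k + 1) x)) c := fun c c1 c2 => by
    rw [h.rf_step ((h.wl_far (by omega) (by omega)).2 (w2 c c1 c2)) (by omega) (by omega),
      h.rf_step (w2 c c1 c2) (by omega) (by omega)]
  have w0 : ∀ c, k + 4 ≤ c → c ≤ k + 5 → Wl r x c := fun c c1 c2 =>
    H.wl _ _ _ _ g (by omega) (by omega) (by omega) (by omega) (by omega) (by omega)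
  have wy : ∀ c, k + 4 ≤ c → c ≤ k + 5 → Wl r (r (k + 2) x) c := fun c c1 c2 =>
    (h.wl_far (by omega) (by omega)).2 (w0 c c1 c2)
  have e0 : ∀ c, k + 4 ≤ c → c ≤ k + 5 → rf r (r (k + 2) x) c =
      rf r (r (k + 1) (r k (r (k + 2) (r (k + 1) x)))) c := fun c c1 c2 => by
    rw [e2 c (by omega) c2,
      h.rf_step ((h.wl_far (by omega) (by omega)).2 (w0 c c1 c2)) (by omega) (by omega),
      h.rf_step (w0 c c1 c2) (by omega) (by omega), h.rf_step (w0 c c1 c2) (by omega) (by omega)]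
  refine ⟨fun w => ?_, _, hq.mem 1 (by omega), ?_, ?_⟩
  · rcases hC.star5 hq (wall_mem my ⟨by omega, by omega⟩ w) (by
      change ¬ Commute (rf r _ (k + 4)) _
      rw [← e0 _ le_rfl (by omega)]
      exact adj_symm (h.rf_adj w (wy _ le_rfl (by omega)) (by omega))) with e | e
    · change _ = rf r _ (k + 3) at e
      rw [e2 _ le_rfl (by omega)] at e
      exact h.three_walls (a := k + 1) (by omega) w (w2 _ le_rfl (by omega)) e
    · change _ = rf r _ (k + 5) at e
      rw [← e0 _ (by omega) le_rfl] at e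
      exact h.rf_ne w (wy _ (by omega) le_rfl) (by omega) (by omega) e
  · rw [e0 _ le_rfl (by omega)]
    exact adj_symm (hq.adj 1 (by omega))
  · rw [e0 _ (by omega) le_rfl]
    exact fun e => absurd (hq.inj 1 (by omega) 3 (by omega) e) (by omega)

end SW

theorem stSW (hPUSH : St_PUSH) : St_SW := by
  intro F L _ _ n r φ h A G H hn x i g i1 i2
  by_cases mv : Wl r x i
  · exact H.eqv _ _ _ _ g mv
  obtain ⟨k, rfl⟩ : ∃ k, i = k + 2 := ⟨i - 2, by omega⟩
  obtain ⟨a1, t, tm, t1, t2⟩ := SW.side h H g (by omega) mv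
  obtain ⟨l, rfl⟩ : ∃ l, n = k + l + 5 := ⟨n - k - 5, by omega⟩
  have b1 : ¬ Wl r (r (k + 2) x) (k + 1) := by
    have := (SW.side h.mirror (h.GS_rev H) (x := x) (k := l) ⟨by omega, by omega, by
      rwa [show k + l + 5 - (l + 3) = k + 2 by omega, show k + l + 5 - (l + 2) = k + 2 + 1 by omega]⟩
      (by omega) (by
        rwa [h.wl_rev (by omega), show k + l + 5 - 1 - (l + 2) = k + 2 by omega])).1
    rwa [h.wl_rev (by omega), rev_lt (by omega), show k + l + 5 - 1 - (l + 2) = k + 2 by omega,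
      show k + l + 5 - 1 - (l + 3) = k + 1 by omega] at this
  obtain ⟨f, hf⟩ : ∃ f, f + 8 = k + l + 5 := ⟨k + l - 3, by omega⟩
  have wy : ∀ c, 1 ≤ c → c + 2 ≤ k + l + 5 → c ≤ k ∨ k + 3 < c → Wl r (r (k + 2) x) c :=
    fun c c1 c2 c3 => (h.wl_far (by omega) (by omega)).2
      (H.wl _ _ _ _ g c1 c2 (by omega) (by omega) (by omega) (by omega))
  have pu := (hPUSH h (r (k + 2) x) (k + 3) f (f + 7) (by omega) (by omega) le_rfl (by omega) a1
    fun c c1 c2 => wy c (by omega) (by omega) (Or.inr c1)).2 x t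
    ((InD.refl x).next ⟨by omega, by omega⟩ mv) tm t1 t2
  have z1 := pu f (by omega) le_rfl
  have z2 : ¬ Wl r (mov r (k + 3) f (r (k + 2) x)) (k + 1) := by
    rwa [h.wl_mov (Or.inl ⟨by omega, by omega⟩)]
  have z3 : Wl r (mov r (k + 3) f (r (k + 2) x)) k :=
    (h.wl_mov (Or.inl ⟨by omega, by omega⟩) _).2 (wy _ (by omega) (by omega) (Or.inl le_rfl))
  have z4 : Wl r (mov r (k + 3) f (r (k + 2) x)) (f + 1) :=
    (h.wl_mov (Or.inr ⟨by omega, by omega⟩) _).2 (wy _ (by omega) (by omega) (Or.inr (by omega)))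
  obtain ⟨i, j, q⟩ := H.far _ _ _ z2 z1 (by omega) (by omega) (by omega) (by omega)
  have rg := H.rng _ _ _ q
  obtain rfl : j = f := by
    by_contra hj
    by_cases e : j = f + 1
    · exact H.m4 _ _ _ q (e ▸ z4)
    · exact z1 (H.wl _ _ _ _ q (by omega) (by omega) (by omega) (by omega) (by omega) (by omega))
  obtain rfl : i = k + 2 := by
    by_contra hi
    by_cases e : i = k + 1
    · exact H.m1 _ k _ (e ▸ q) z3
    · exact z2 (H.wl _ _ _ _ q (by omega) (by omega) (by omega) (by omega) (by omega) (by omega))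
  have key : ∀ d s, s + d = j → k + 3 ≤ s → G (mov r (k + 3) s (r (k + 2) x)) (k + 2) s := by
    intro d
    induction d with
    | zero => exact fun s e _ => by rwa [show s = j by omega]
    | succ d ih =>
      intro s e hs
      rw [h.mov_pred]
      exact H.d2 _ _ _ (ih (s + 1) (by omega) (by omega)) hs (by omega)
  have := key (j - (k + 3)) (k + 3) (by omega) le_rfl
  rwa [mov_self] at this

end Pool.Agent.FlagOrb.R
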