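import Pool.Agent.Lib.MP_7157e1_co.RKitC

/-! Three far activities force about the cube of a third of the rank many types. -/

namespace Pool.Agent.FlagOrb.R

open Equiv Set Q Half

lemma pw3 (p : ℕ) (hp : 10 ≤ p) : (3 * p + 3) ^ 3 ≤ 3 ^ p := by
  induction p, hp using Nat.le_induction with
  | base => norm_num
  | succ p hp ih =>
    have : (3 * (p + 1) + 3) ^ 3 ≤ 3 * (3 * p + 3) ^ 3 := by
      obtain ⟨q, rfl⟩ : ∃ q, p = q + 10 := ⟨p - 10, by omega⟩
      ring_nf
      omega
    rw [pow_succ 3 p]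
    omega

theorem stT3 : St_T3 := by
  intro F L _ _ n r φ h hn hk x α β
  by_contra hc
  push Not at hc
  obtain ⟨a1, a2, a3⟩ := hc
  obtain ⟨m, m1, m2⟩ : ∃ m, 3 * m + 2 ≤ n ∧ n ≤ 3 * m + 4 := ⟨(n - 2) / 3, by omega, by omega⟩
  obtain ⟨p, p1, p2⟩ : ∃ p, 3 * p + 3 ≤ m ∧ m ≤ 3 * p + 5 := ⟨(m - 3) / 3, by omega, by omega⟩
  have l1 : 3 ≤ α := by
    by_contra k
    exact a1 (sm_empty (by omega))
  have l2 : α + 4 ≤ β := by
    by_contra k
    exact a2 (sm_empty (by omega))
  have l3 : β + 5 ≤ n := by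
    by_contra k
    exact a3 (sm_empty (by omega))
  obtain ⟨w, d1, d2, d3⟩ : ∃ w, ¬ Sm r 1 (1 + 7) w ∧ ¬ Sm r (m + 2) (m + 2 + 7) w ∧
      ¬ Sm r (n - 8) (n - 8 + 7) w := by
    by_cases k1 : β + 10 ≤ n
    · obtain ⟨y, hy, b3⟩ := tr h (a := β + 1) (b := n) (s := n - 8) (x := x) le_rfl (by omega)
        (by omega) a3
      have b1 := nsm h hy (fun c hc => Or.inr (by have := hc.1; omega)) a1
      have b2 := nsm h hy (fun c hc => Or.inr (by have := hc.1; omega)) a2
      obtain ⟨z, hz, c1, c2⟩ := h.park (a := 0) (b := n - 9) (j := α) (s := 1) (t := m + 2) (y := y)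
        (by omega) le_rfl (by omega) (by omega) b1 fun k => b2 (sm_mono k le_rfl (by omega))
      exact ⟨z, c1, c2, nsm h hz (fun c hc => Or.inl (by have := hc.2; omega)) b3⟩
    by_cases k2 : 8 ≤ α
    · obtain ⟨y, hy, b1⟩ := tr h (a := 0) (b := α + 1) (s := 1) (x := x) (by omega) le_rfl
        (by omega) a1
      have b2 := nsm h hy (fun c hc => Or.inl (by have := hc.2; omega)) a2
      have b3 := nsm h hy (fun c hc => Or.inl (by have := hc.2; omega)) a3
      obtain ⟨z, hz, c2, c3⟩ := h.park (a := 9) (b := n) (j := β) (s := m + 2) (t := n - 8) (y := y)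
        le_rfl (by omega) (by omega) (by omega) (fun k => b2 (sm_mono k (by omega) le_rfl)) b3
      exact ⟨z, nsm h hz (fun c hc => Or.inr (by have := hc.1; omega)) b1, c2, c3⟩
    · obtain ⟨y, hy, b2⟩ := tr h (a := α + 1) (b := β + 1) (s := m + 2) (x := x) (by omega)
        (by omega) (by omega) a2
      have b1 := nsm h hy (fun c hc => Or.inr (by have := hc.1; omega)) a1
      have b3 := nsm h hy (fun c hc => Or.inl (by have := hc.2; omega)) a3
      exact ⟨y, fun k => b1 (sm_mono k le_rfl (by omega)), b2,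
        fun k => b3 (sm_mono k (by omega) (by omega))⟩
  have hp : nty r < 3 ^ p := by
    have := pw3 p (by omega)
    have : (n - 10) ^ 3 ≤ (3 * (3 * p + 3)) ^ 3 := Nat.pow_le_pow_left (by omega) 3
    rw [mul_pow] at this
    omega
  have hL := stLEMA stSEC stWC h
  have B1 := (hL 0 m p (Ico (m + 1) (2 * m + 1) ∪ Ico (2 * m + 2) n) w (by omega)
    (by rintro c (hc | hc) <;> exact Or.inr (by have := hc.1; omega)) (by omega) hp
    (by omega)).resolve_left fun k => d1 (sm_mono k (by omega) (by omega))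
  have B2 := (hL (m + 1) (2 * m + 1) p (Ico 0 m ∪ Ico (2 * m + 2) n) w (by omega)
    (by
      rintro c (hc | hc)
      exacts [Or.inl (by have := hc.2; omega), Or.inr (by have := hc.1; omega)]) (by omega) hp
    (by omega)).resolve_left fun k => d2 (sm_mono k (by omega) (by omega))
  have B3 := (hL (2 * m + 2) n p (Ico 0 m ∪ Ico (m + 1) (2 * m + 1)) w le_rfl
    (by rintro c (hc | hc) <;> exact Or.inl (by have := hc.2; omega)) (by omega) hp
    (by omega)).resolve_left fun k => d3 (sm_mono k (by omega) (by omega))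
  have B := stPROD h _ _ w _ _ (by
      rintro c (hc | hc) c' hc' <;>
        exact h.comm c c' (by have := hc.2; have := hc'.1; omega))
    (big_mul (by
      rintro c hc c' (hc' | hc') <;>
        exact h.comm c c' (by have := hc.2; have := hc'.1; omega)) B1 B2) B3
  obtain ⟨q, rfl⟩ : ∃ q, m = q + 2 := ⟨m - 2, by omega⟩
  have e : q * q * q ≤ nty r :=
    (Nat.mul_le_mul (Nat.mul_le_mul (by omega) (by omega)) (by omega)).trans B
  have : (n - 10) ^ 3 ≤ (3 * q) ^ 3 := Nat.pow_le_pow_left (by omega) 3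
  have e3 : (3 * q) ^ 3 = 27 * (q * q * q) := by ring
  omega

end Pool.Agent.FlagOrb.R
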