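import Pool.Agent.Lib.MP_7157e1_co.RKitC

/-! Tokens in the middle of a window. -/

namespace Pool.Agent.FlagOrb.R

open Equiv Set Q Half

theorem stTOK (hSG : St_SG) : St_TOK := by
  intro F L _ _ n r φ h wa a b x0 h1 h2 D
  have S := hSG h ∅ (fun y => Rch r (Ico a b) x0 y) (a + 16) (b - 17)
    (fun c hc => hc.elim) (fun c hc => hc.elim)
    (fun y c k c1 c2 => k.next ⟨by omega, by omega⟩)
    (fun y l k l1 l2 => h.brd h2 h1 (D.orb k) l1 (by omega))
    (fun y c c' k c1 c2 c3 => (D y (c + 1) k).imp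
      (fun s => hj_empty.2 (wa y _ _ c (by omega) (by omega) (by omega) s (by omega) (by omega)))
      fun s => hj_empty.2 (wa y _ _ c' (by omega) (by omega) (by omega) s (by omega) (by omega)))
  have tk : ∀ x i, Rch r (Ico a b) x0 x → a + 19 ≤ i → Tw r ∅ (a + 16) (b - 17) x i →
      Tk r a b x i := by
    rintro x i k i1 ⟨-, i2, t⟩ c c1 c2
    simp only [hj_empty] at t
    by_cases q1 : c < a + 16
    · have s := (D x (i - 3) k).resolve_right fun s =>
        (t (i - 1) (by omega) (by omega)).2 (Or.inl (by omega))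
          (wa x _ _ _ (by omega) (by omega) (by omega) s (by omega) (by omega))
      exact ⟨fun m => absurd (wa x _ _ c (by omega) (by omega) (by omega) s c1 (by omega)) m,
        fun e => by omega⟩
    by_cases q2 : c < b - 17
    · exact t c (by omega) q2
    · have s := (D x (i + 1) k).resolve_left fun s =>
        (t i (by omega) (by omega)).2 (Or.inr rfl)
          (wa x _ _ _ (by omega) (by omega) (by omega) s (by omega) (by omega))
      exact ⟨fun m => absurd
        (wa x _ _ c (by omega) (by omega) (by omega) s (by omega) (by omega)) m, fun e => by omega⟩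
  have tw : ∀ x i, a + 19 ≤ i → i ≤ b - 21 → Tk r a b x i → Tw r ∅ (a + 16) (b - 17) x i :=
    fun x i i1 i2 t => ⟨by omega, by omega, fun c c1 c2 => by
      rw [hj_empty]
      exact t c (by omega) (by omega)⟩
  refine ⟨⟨fun x i k => ⟨k.2.1, k.2.2.1⟩, ?_, ?_, ?_, ?_, ?_, ?_⟩, fun x c k c1 c2 m => ?_⟩
  · rintro x i c ⟨-, -, -, t⟩ c1 c2 c3 c4
    by_contra m
    have := (t c c1 (by omega)).1 m
    omega
  · rintro x i ⟨-, i1, i2, t⟩ -
    exact (t i (by omega) (by omega)).2 (Or.inr rfl)
  · rintro x i ⟨-, i1, i2, t⟩ -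
    exact (t i (by omega) (by omega)).2 (Or.inl rfl)
  · rintro x i ⟨k, i1, i2, t⟩ i3
    have k' := k.next (c := i) ⟨by omega, by omega⟩
    exact ⟨k', by omega, i3, tk _ _ k' (by omega)
      ((S x k).2.2.1 i (tw x i i1 i2 t) (by omega))⟩
  · rintro x i ⟨k, i1, i2, t⟩ i3
    have k' := k.next (c := i) ⟨by omega, by omega⟩
    exact ⟨k', i3, by omega, tk _ _ k' i3
      ((S x k).2.2.2.1 i (tw x _ i1 i2 t) (by omega))⟩
  · rintro x i ⟨k, i1, i2, -⟩ -
    exact h.brd h2 h1 (D.orb k) (by omega) (by omega)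
  · exact ((S x k).1 c (by omega) (by omega) (by rwa [hj_empty])).imp (tk x c k c1)
      (tk x _ k (by omega))

end Pool.Agent.FlagOrb.R
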