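import Pool.Agent.Lib.MP_7157e1_co.RKitC

/-! Tokens down to the lower end of a window. -/

namespace Pool.Agent.FlagOrb.R

open Equiv Set Q Half

theorem stTOK1 (hTOK : St_TOK) (hPUSH : St_PUSH) (hEXT : St_EXT) : St_TOK1 := by
  intro F L _ _ n r φ h wa a b x0 h1 h2 D
  obtain ⟨H, cov⟩ := hTOK h wa a b x0 h1 h2 D
  have lo : ∀ y, Rch r (Ico a b) x0 y → ¬ Wl r y (a + 19) →
      (∀ c, a + 19 < c → c < b - 1 → Wl r y c) → TO r a b x0 (a + 19) (b - 21) y (a + 19) :=
    fun y k m w => ⟨k, le_rfl, by omega, (cov y _ k le_rfl (by omega) m).resolve_right fun t =>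
      (t (a + 19 + 1) (by omega) (by omega)).2 (Or.inr rfl) (w _ (by omega) (by omega))⟩
  have E := hEXT h _ _ _ _ (a + 4) _ H (by omega) (by omega) (by omega) (by omega) (by omega)
    (by omega) (Or.inl le_rfl) fun x y k d m w =>
      lo y (k.1.trans (d.toRch.mono (Ico_subset_Ico (by omega) (by omega)))) m w
  have tk : ∀ x i, a + 5 ≤ i → i < a + 19 →
      TO r a b x0 (a + 19) (b - 21) (mov r i (a + 19) x) (a + 19) → Tk r a b x i := by
    intro x i i1 i2 k c c1 c2
    have q := Or.inr (a := a + 19 ≤ i ∧ TO r a b x0 (a + 19) (b - 21) x i)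
      (And.intro (show a + 4 ≤ i by omega) (And.intro i2 k))
    constructor
    · intro m
      by_contra e
      exact m (E.wl x i c q c1 (by omega) (by omega) (by omega))
    · rintro (rfl | rfl)
      · exact E.mv' x c q (by omega)
      · exact E.mv x c q (by omega)
  have push : ∀ x e, Rch r (Ico a b) x0 x → a + 5 ≤ e → e < a + 19 → ¬ Wl r x e →
      (∀ c, e < c → c < b - 1 → Wl r x c) →
      TO r a b x0 (a + 19) (b - 21) (mov r e (a + 19) x) (a + 19) := by
    intro x e k e1 e2 m w
    have key : ∀ y, Rch r (Ico a b) x0 y → (∀ c, a + 19 < c → c < b - 1 → Wl r y c) →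
        Pu r y e (a + 19) → TO r a b x0 (a + 19) (b - 21) (mov r e (a + 19) y) (a + 19) :=
      fun y k w p => lo _ (k.trans (h.mov_rch (by omega) (by omega) (by omega) (by omega) y))
        (p _ (by omega) le_rfl) fun c c1 c2 => (h.wl_mov (by omega) y).2 (w c c1 c2)
    rcases (hPUSH h x e (a + 19) (b - 1) (by omega) (by omega) (by omega) (by omega) m w).1 with
      p | ⟨-, p⟩
    · exact key x k (fun c c1 c2 => w c (by omega) c2) p
    · exfalso
      obtain ⟨e, rfl⟩ : ∃ e', e = e' + 1 := ⟨e - 1, by omega⟩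
      rw [Nat.add_sub_cancel] at p
      have q := E.dn _ e (Or.inr ⟨by omega, e2, key _ (k.next ⟨by omega, by omega⟩)
        (fun c c1 c2 => (h.wl_far (by omega) (by omega)).2 (w c (by omega) c2)) p⟩) (by omega)
      rw [h.rr] at q
      exact m (E.wl x e _ q (by omega) (by omega) (by omega) (by omega))
  refine ⟨E.restrict (by omega) le_rfl fun x i => ⟨?_, ?_⟩, fun x c k c1 c2 m => ?_⟩
  · rintro ⟨k, i1, i2, t⟩
    refine ⟨i1, i2, ?_⟩
    by_cases q : a + 19 ≤ i
    · exact Or.inl ⟨q, k, q, i2, t⟩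
    · refine Or.inr ⟨by omega, by omega, push x i k i1 (by omega)
        ((t i (by omega) (by omega)).2 (Or.inr rfl)) fun c c1 c2 => ?_⟩
      by_contra m
      have := (t c (by omega) (by omega)).1 m
      omega
  · rintro ⟨i1, i2, ⟨-, k⟩ | ⟨-, i3, k⟩⟩
    · exact ⟨k.1, i1, i2, k.2.2.2⟩
    · exact ⟨k.1.trans (h.mov_rch (by omega) (by omega) (by omega) (by omega) x).symm, i1, i2,
        tk x i i1 i3 k⟩
  by_cases q : a + 19 ≤ c
  · exact cov x c k q c2 m
  have s := (D x (max (c + 1) (a + 8)) k).resolve_left fun s =>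
    m (wa x _ _ c (by omega) (by omega) (by omega) s (by omega) (by omega))
  obtain ⟨e, e1, e2, e3, e4⟩ := exists_top (b := b - 1) (by omega) m
  have e5 : e ≤ a + 20 := by
    by_contra q
    exact e3 (wa x _ _ e (by omega) (by omega) (by omega) s (by omega) e2)
  have t : Tk r a b x e := by
    by_cases q : a + 19 ≤ e
    · exact (cov x e k q (by omega) e3).resolve_right fun t =>
        (t (e + 1) (by omega) (by omega)).2 (Or.inr rfl) (e4 _ (by omega) (by omega))
    · exact tk x e (by omega) (by omega) (push x e k (by omega) (by omega) e3 e4)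
  rcases (t c (by omega) (by omega)).1 m with rfl | rfl
  exacts [Or.inr t, Or.inl t]

end Pool.Agent.FlagOrb.R
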