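import Pool.Agent.Lib.MP_7157e1_co.RKitC

/-! Tokens up to both ends of a window. -/

namespace Pool.Agent.FlagOrb.R

open Equiv Set Q

theorem stTOKP (hTOK1 : St_TOK1) : St_TOKP := by
  intro F L _ _ n r φ h wa a b x0 h1 h2 D
  obtain ⟨H1, c1⟩ := hTOK1 h wa a b x0 h1 h2 D
  obtain ⟨H2, c2⟩ := hTOK1 h.mirror (h.WA_rev wa) (n - b) (n - a) x0 (by omega) (by omega)
    (h.Dich_rev (by omega) h2 D)
  have H3 := h.mirror.Lg_rev H2 (by omega)
  rw [h.rev_rev, show n - (n - a - 1) = a + 1 by omega, show n - (n - b + 1) = b - 1 by omega,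
    show n - (n - a - 21) = a + 21 by omega, show n - (n - b + 5) = b - 5 by omega] at H3
  have rc : ∀ x, Rch (rev n r) (Ico (n - b) (n - a)) x0 x ↔ Rch r (Ico a b) x0 x := fun x => by
    rw [rch_rev (by omega), show n - (n - a) = a by omega, show n - (n - b) = b by omega]
  refine ⟨H1.glue H3 (by omega) (fun x i k => ⟨k.2.1, k.2.2.1⟩)
    (fun x i k => ⟨fun q => ⟨q.1, q.2.1, k, q.2.2.2⟩, fun q => ⟨q.1, q.2.1, by omega, q.2.2.2⟩⟩)
    fun x i k => ⟨?_, ?_⟩, fun x c k d1 d2 m => ?_⟩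
  · rintro ⟨q, i1, i2, t⟩
    exact ⟨by omega, (rc x).2 q, by omega, by omega, h.Tk_rev h2 (by omega) t⟩
  · rintro ⟨i0, q, i1, i2, t⟩
    have := h.Tk_rev' (by omega) h2 (by omega) t
    rw [show n - (n - i) = i by omega] at this
    exact ⟨(rc x).1 q, by omega, by omega, this⟩
  by_cases q : c + 22 ≤ b
  · exact c1 x c k d1 q m
  rcases c2 x (n - 1 - c) ((rc x).2 k) (by omega) (by omega) (by
    rwa [h.wl_rev (by omega), show n - 1 - (n - 1 - c) = c by omega]) with t | t
  · have := h.Tk_rev' (by omega) h2 (by omega) t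
    rw [show n - (n - 1 - c) = c + 1 by omega] at this
    exact Or.inr this
  · have := h.Tk_rev' (by omega) h2 (by omega) t
    rw [show n - (n - 1 - c + 1) = c by omega] at this
    exact Or.inl this

end Pool.Agent.FlagOrb.R
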