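import Pool.Agent.Lib.MP_7157e1_co.RKitC

/-! Long inactive windows consist of walls. -/

namespace Pool.Agent.FlagOrb.R

open Equiv Set Q Half

theorem stWALL (hXX : St_XX) : St_WALL := by
  intro F L _ _ n r φ h hn t3 x a b c h1 h2 h3 sm c1 c2
  refine h.typing (fun x y => ∃ s, 1 ≤ s ∧ s + 8 ≤ n ∧ Sm r s (s + 7) x ∧ Eqv r (r s x) y)
    ?_ ?_ ⟨a, h1, by omega, sm_mono sm le_rfl h2, sm a ⟨le_rfl, by omega⟩ c ⟨c1, c2⟩⟩
  · rintro x y d ⟨s, s1, s2, s3, s4⟩
    have tri : ∀ u v w, 1 ≤ u → u + 9 ≤ v → v + 9 ≤ w → w + 8 ≤ n →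
        Sm r u (u + 7) x ∨ Sm r v (v + 7) x ∨ Sm r w (w + 7) x := fun u v w k1 k2 k3 k4 =>
      (t3 x (u + 7) (v + 7)).imp (fun q => sm_mono q k1 le_rfl) (Or.imp
        (fun q => sm_mono q (by omega) le_rfl) fun q => sm_mono q (by omega) (by omega))
    have two : ∃ u v, 1 ≤ u ∧ u + 9 ≤ v ∧ v + 8 ≤ n ∧ Sm r u (u + 7) x ∧ Sm r v (v + 7) x := by
      have k1 := tri 1 10 19 (by omega) (by omega) (by omega) (by omega)
      have k2 := tri 1 10 28 (by omega) (by omega) (by omega) (by omega)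
      have k3 := tri 1 19 28 (by omega) (by omega) (by omega) (by omega)
      have k4 := tri 10 19 28 (by omega) (by omega) (by omega) (by omega)
      by_cases a1 : Sm r 1 (1 + 7) x
      · rcases k4 with q | q | q
        all_goals exact ⟨1, _, le_rfl, by omega, by omega, a1, q⟩
      by_cases a2 : Sm r 10 (10 + 7) x
      · rcases k3.resolve_left a1 with q | q
        all_goals exact ⟨10, _, by omega, by omega, by omega, a2, q⟩
      exact ⟨19, 28, by omega, by omega, by omega, (k1.resolve_left a1).resolve_left a2,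
        (k2.resolve_left a1).resolve_left a2⟩
    have one : ∃ t, 1 ≤ t ∧ t + 8 ≤ n ∧ Sm r t (t + 7) x ∧ d + 1 ≠ t ∧ d ≠ t + 7 := by
      obtain ⟨u, v, k1, k2, k3, k4, k5⟩ := two
      by_cases q : d + 1 ≠ u ∧ d ≠ u + 7
      · exact ⟨u, k1, by omega, k4, q⟩
      · exact ⟨v, by omega, k3, k5, by omega, by omega⟩
    obtain ⟨t, t1, t2, t4, t5, t6⟩ := one
    have sd : Sm r t (t + 7) (r d x) := by
      by_cases q : t ≤ d ∧ d < t + 7
      · exact sm_own h t4 q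
      · exact sm_far h t4 (by omega)
    have ts : Eqv r (r t x) (r s x) := by
      rcases lt_trichotomy s t with q | rfl | q
      · exact (hXX h hn t3 x s t s1 q t2 s3 t4).symm
      · exact Eqv.refl _
      · exact hXX h hn t3 x t s t1 q s2 t4 s3
    obtain ⟨e, e1, e2, e3, e4⟩ : ∃ e, t ≤ e ∧ e < t + 7 ∧ e ≠ d + 1 ∧ d ≠ e + 1 := by
      by_cases q : d = t + 1
      · exact ⟨t + 4, by omega, by omega, by omega, by omega⟩
      · exact ⟨t, le_rfl, by omega, by omega, q⟩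
    refine ⟨t, t1, t2, sd, (sd t ⟨le_rfl, by omega⟩ e ⟨e1, e2⟩).trans ?_⟩
    rw [← Perm.mul_apply, (h.comm' e3 e4).eq, Perm.mul_apply]
    exact (((t4 e ⟨e1, e2⟩ t ⟨le_rfl, by omega⟩).trans ts).trans s4).step d
  · rintro x y l ⟨s, -, -, s3, s4⟩ -
    obtain ⟨e, e1, e2, e3, e4⟩ : ∃ e, s ≤ e ∧ e < s + 7 ∧ e + 1 ≠ l ∧ e ≠ l + 2 := by
      by_cases q : s + 1 ≠ l ∧ s ≠ l + 2
      · exact ⟨s, le_rfl, by omega, q⟩
      · exact ⟨s + 1, by omega, by omega, by omega, by omega⟩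
    rw [← ((s3 e ⟨e1, e2⟩ s ⟨le_rfl, by omega⟩).trans s4).per_eq l, h.per_step e3 e4]

end Pool.Agent.FlagOrb.R
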