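import Pool.Agent.Lib.MP_7157e1_co.RKitC

/-! Cubic range: few lower ends are bad. -/

namespace Pool.Agent.FlagOrb.R

open Equiv Set Q

theorem stXC (hPUSH : St_PUSH) (hMB : St_MB) : St_XC := by
  intro F L _ _ n r φ h hD A G P H V hn R b
  have a1 : cnt r (XL r P) ≤
      4 * cnt r fun z => ¬ Wl r z 3 ∧ ¬ P z 3 ∧ ∃ x, P x 3 ∧ Rch r (Ico 0 3) x z := by
    refine cnt_fib (fun z x => Rch r (Ico 0 3) z x ∧ P x 3) (fun x ⟨p, g⟩ => ?_) (hMB h hD P R) ?_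
    · simp only [Gd, not_forall] at g
      obtain ⟨z, k, w, q⟩ := g
      exact ⟨z, ⟨w, q, x, p, k⟩, k.symm, p⟩
    · rintro z _ x ⟨a, ha, rfl⟩ ⟨k, p⟩
      exact ⟨a x, ⟨Aut.rch ha k, R.eqv _ _ _ p ⟨a, ha, rfl⟩⟩, Eqv.symm ⟨a, ha, rfl⟩⟩
  have a2 := cnt_ex_mul (r := r) (A := A) (Finset.Icc 5 17) (fun i x => G x i 18) fun i hi => by
    have := Finset.mem_Icc.1 hi
    exact (H.num i 18 (by omega) (by omega) (by omega) (by omega) (by omega)).le
  rw [Nat.card_Icc] at a2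
  have a3 := cnt_or_le (r := r) (S := fun x => ∃ i ∈ Finset.Icc 5 17, G x i 18)
    (T := fun x => T1 n r G x 18 ∧ ¬ P x 18)
  have a4 := cnt_word_le (S := fun z => (∃ i ∈ Finset.Icc 5 17, G (mov r 3 18 z) i 18) ∨
      T1 n r G (mov r 3 18 z) 18 ∧ ¬ P (mov r 3 18 z) 18)
    (T := fun x => (∃ i ∈ Finset.Icc 5 17, G x i 18) ∨ T1 n r G x 18 ∧ ¬ P x 18)
    (mov_univ 3 18) fun _ k => k
  refine a1.trans (le_trans (Nat.mul_le_mul_left 4 (le_trans (cnt_mono' ?_) a4)) (by omega))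
  rintro z ⟨w, q, x, p, k⟩
  obtain ⟨γ, hγ, y, hy, rfl⟩ := h.decomp (a := 0) (b := 3) subset_rfl k
  have e : Eqv r y (γ y) := ⟨γ, WallsI.aut subset_rfl hγ, rfl⟩
  refine ⟨y, ?_, e⟩
  have w' : ¬ Wl r y 3 := fun s => w (s.eqv e)
  have far : ∀ c, 3 < c → ∀ c' ∈ Ico 0 3, c ≠ c' + 1 ∧ c' ≠ c + 1 := fun c hc c' hc' => by
    have := hc'.2; omega
  have wx : ∀ c, 3 < c → c < n - 1 → Wl r x c := fun c c1 c2 =>
    R.leg.wl x 3 c p (by omega) c2 (by omega) (by omega)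
  have wy : ∀ c, 3 < c → c < n - 1 → Wl r y c := fun c c1 c2 =>
    (h.wl_rch hy.toRch (far c c1)).2 (wx c c1 c2)
  have pa := h.lg_path R.leg (a := 2) (l := 1) (m := n - 1) (InD.refl x) p (by omega) (by omega)
    (by omega) (by omega) (by omega) (by omega) (by omega) (by omega)
  have pu : Pu r y 3 18 := by
    refine (hPUSH h y 3 18 (n - 1) (by omega) (by omega) (by omega) (by omega) w' wy).2 x
      (lg r x 3 2) (hy.mono le_rfl (by omega)) (pa.mem 1 (by omega)) ?_ ?_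
    · rw [h.rf_rch (wx 4 (by omega) (by omega)) hy.toRch (far 4 (by omega)),
        ← lg_hi (a := 3) (j := 3) le_rfl]
      exact adj_symm (pa.adj 1 (by omega))
    · rw [h.rf_rch (wx 5 (by omega) (by omega)) hy.toRch (far 5 (by omega)),
        ← lg_hi (a := 3) (j := 4) (by omega)]
      exact fun s => absurd (pa.inj 1 (by omega) 3 (by omega) s) (by omega)
  have m := pu 18 (by omega) le_rfl
  have wz : ∀ c, 18 < c → c < n - 1 → Wl r (mov r 3 18 y) c := fun c c1 c2 =>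
    (h.wl_mov (Or.inr ⟨by omega, by omega⟩) y).2 (wy c (by omega) c2)
  by_cases g : InG G (mov r 3 18 y)
  · obtain ⟨i, j, g⟩ := g
    have := H.rng _ i j g
    have c1 : ¬ (18 + 1 ≠ i ∧ 18 ≠ i ∧ 18 + 1 ≠ j ∧ 18 ≠ j) := fun s =>
      m (H.wl _ i j _ g (by omega) (by omega) s.1 s.2.1 s.2.2.1 s.2.2.2)
    have c2 : ¬ 18 < j := fun s => H.m4 _ i j g (wz j s (by omega))
    obtain rfl : j = 18 := by omega
    exact Or.inl ⟨i, Finset.mem_Icc.2 ⟨by omega, by omega⟩, g⟩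
  · refine Or.inr ⟨(V.cov _ 18 g le_rfl (by omega) m).resolve_right fun t => ?_, fun s =>
      q (R.eqv _ _ _ ((h.lg_iff R.leg le_rfl (by omega) (by omega) (by omega)).1 s) e)⟩
    exact (t.2.2.2 19 (by omega) (by omega)).2 (Or.inr rfl) (wz 19 (by omega) (by omega))

end Pool.Agent.FlagOrb.R
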