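import Pool.Agent.Lib.MP_7157e1_co.R_X1

/-! Two inactive windows act in the same way. -/

namespace Pool.Agent.FlagOrb.R

open Equiv Set Q Half

namespace XX

open X1

variable {F L : Type} [Lattice L] [Finite F] {n : ℕ} {r : ℕ → Perm F} {φ : ℕ → F → L}
  (hX1 : St_X1) (h : PS n r φ) (hn : 110 ≤ n) (t3 : T3 n r)
include hX1 h hn t3

lemma xa {a t : ℕ} {y : F} (h1 : a ≤ 8) (s1 : ¬ Sm r 1 a y) (s2 : Sm r (a + 2) (a + 6) y)
    (s3 : Sm r t (n - 1) y) (h2 : t + 5 ≤ n) : Eqv r (r (a + 2) y) (r (n - 2) y) := by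
  by_cases s4 : Sm r (a + 4 + 1) (n - 3 - 1) y
  · have s5 := sm_join s2 s4 (by omega) (by omega) (by omega)
    have s6 : Sm r (a + 2) (n - 1) y := by
      by_cases k : a + 2 ≤ t
      · exact sm_join s5 s3 k (by omega) (by omega)
      · exact sm_mono s3 (by omega) le_rfl
    exact s6 _ ⟨le_rfl, by omega⟩ _ ⟨by omega, by omega⟩
  · refine hX1 h (a + 2) (n - 2) (a + 4) (n - 3) y le_rfl (by omega) (by omega) (by omega)
      (fun w j k => ?_) s4
    rw [show n - 2 + 1 = n - 1 by omega]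
    exact (t3 w a j).resolve_left (nsm h k (fun c hc => Or.inr (by have := hc.1; omega)) s1)

lemma caseA {s t : ℕ} {x : F} (h2 : s + 7 ≤ t) (h3 : t + 8 ≤ n) (a1 : Sm r s (s + 7) x)
    (a2 : Sm r t (t + 7) x) (a3 : ¬ Sm r s (t + 7) x) (a4 : ¬ Sm r 1 (s + 1) x) :
    Eqv r (r s x) (r t x) := by
  have b1 : Sm r (t + 1 + 2) (n - 1) x := ((t3 x (s + 1) (t + 1)).resolve_left a4).resolve_left
    fun k => a3 (sm_join (sm_join a1 k (by omega) (by omega) (by omega)) a2 (by omega) (by omega)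
      (by omega))
  have b2 : Sm r (s + 1 + 2) (s + 1 + 6) x := sm_mono a1 (by omega) (by omega)
  refine ((a1 s ⟨le_rfl, by omega⟩ (s + 1 + 2) ⟨by omega, by omega⟩).trans ?_).trans
    ((b1 (n - 2) ⟨by omega, by omega⟩ (t + 1 + 2) ⟨le_rfl, by omega⟩).trans
      (a2 _ ⟨by omega, by omega⟩ t ⟨le_rfl, by omega⟩))
  by_cases k : s ≤ 6
  · exact xa hX1 h hn t3 (by omega) a4 b2 b1 (by omega)
  obtain ⟨y, hy, c1⟩ := tr h (a := 0) (b := s + 2) (s := 1) (x := x) (by omega) le_rfl
    (by omega) a4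
  have c2 := sm_rch h hy (fun c hc => Or.inl (by have := hc.2; omega)) b2
  have c3 := sm_rch h hy (fun c hc => Or.inl (by have := hc.2; omega)) b1
  refine back h hy (fun c hc => by have := hc.2; omega) (fun c hc => by have := hc.2; omega) ?_
  rcases (t3 y 8 (s + 4)).resolve_left c1 with q | q
  · have c4 := sm_join q c2 (by omega) (by omega) (by omega)
    exact (c4 _ ⟨by omega, by omega⟩ (8 + 2) ⟨le_rfl, by omega⟩).trans
      (xa hX1 h hn t3 le_rfl c1 (sm_mono c4 le_rfl (by omega)) c3 (by omega))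
  · exact sm_join c2 q (by omega) (by omega) (by omega) _ ⟨le_rfl, by omega⟩ _
      ⟨by omega, by omega⟩

lemma caseC {x : F} (a1 : Sm r 1 8 x) (a2 : Sm r (n - 8) (n - 1) x) :
    Eqv r (r 1 x) (r (n - 2) x) := by
  by_cases d : ∀ y j, Rch r (Ico 6 (n - 6)) x y → Sm r 1 j y ∨ Sm r (j + 2) (n - 2 + 1) y
  · by_cases s4 : Sm r (6 + 1) (n - 6 - 1) x
    · exact sm_join (sm_join a1 s4 (by omega) (by omega) (by omega)) a2 (by omega) (by omega)
        (by omega) _ ⟨le_rfl, by omega⟩ _ ⟨by omega, by omega⟩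
    · exact hX1 h 1 (n - 2) 6 (n - 6) x (by omega) (by omega) (by omega) (by omega) d s4
  push Not at d
  obtain ⟨y, j, hy, d1, d2⟩ := d
  have b1 : Sm r 1 5 y := sm_rch h hy (fun c hc => Or.inr (by have := hc.1; omega))
    (sm_mono a1 le_rfl (by omega))
  have b2 : Sm r (n - 5) (n - 1) y := sm_rch h hy (fun c hc => Or.inl (by have := hc.2; omega))
    (sm_mono a2 (by omega) le_rfl)
  obtain ⟨z, hz, z1, z2⟩ := h.park (a := 3) (b := n - 3) (j := j) (s := 7) (t := n - 14) (y := y)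
    (by omega) (by omega) (by omega) (by omega)
    (fun k => d1 (by
      by_cases q : 4 < j
      · exact sm_join b1 k (by omega) (by omega) q
      · exact sm_mono b1 le_rfl (by omega)))
    (fun k => d2 (by
      by_cases q : j + 2 ≤ n - 5
      · exact sm_mono (sm_join k b2 q (by omega) (by omega)) le_rfl (by omega)
      · exact sm_mono b2 (by omega) (by omega)))
  refine back h ((hy.mono (Ico_subset_Ico (by omega) (by omega))).trans hz)
    (fun c hc => by have := hc.1; omega) (fun c hc => by have := hc.2; omega) ?_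
  have e1 := hX1 h 1 (n - 17) 3 (n - 18) z le_rfl (by omega) (by omega) (by omega)
    (fun w i k => (or_assoc.2 (t3 w i (n - 17 + 1))).resolve_right fun q =>
      nsm h k (fun c hc => Or.inl (by have := hc.2; omega)) z2 (sm_mono q (by omega) (by omega)))
    fun q => z1 (sm_mono q (by omega) (by omega))
  have e2 := hX1 h (14 + 2) (n - 2) 18 (n - 3) z le_rfl (by omega) (by omega) (by omega)
    (fun w i k => by
      rw [show n - 2 + 1 = n - 1 by omega]
      exact (t3 w 14 i).resolve_left fun q =>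
        nsm h k (fun c hc => Or.inr (by have := hc.1; omega)) z1 (sm_mono q (by omega) le_rfl))
    fun q => z2 (sm_mono q (by omega) (by omega))
  have e3 := ((t3 z 14 (n - 16)).resolve_left
    fun q => z1 (sm_mono q (by omega) le_rfl)).resolve_right
    fun q => z2 (sm_mono q (by omega) (by omega))
  exact (e1.trans (e3 _ ⟨by omega, by omega⟩ _ ⟨le_rfl, by omega⟩)).trans e2

end XX

open XX in
theorem stXX (hX1 : St_X1) : St_XX := by
  intro F L _ _ n r φ h hn t3 x s t h1 h2 h3 a1 a2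
  by_cases a3 : Sm r s (t + 7) x
  · exact a3 s ⟨le_rfl, by omega⟩ t ⟨by omega, by omega⟩
  have h4 : s + 7 ≤ t := by
    by_contra k
    exact a3 (sm_join a1 a2 (by omega) (by omega) (by omega))
  by_cases a4 : Sm r 1 (s + 1) x
  swap
  · exact caseA hX1 h hn t3 h4 h3 a1 a2 a3 a4
  by_cases a5 : Sm r (t + 6) (n - 1) x
  · have b1 := sm_join a4 a1 h1 (by omega) (by omega)
    have b2 := sm_join a2 a5 (by omega) (by omega) (by omega)
    exact ((b1 s ⟨h1, by omega⟩ 1 ⟨le_rfl, by omega⟩).trans (caseC hX1 h hn t3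
      (sm_mono b1 le_rfl (by omega)) (sm_mono b2 (by omega) le_rfl))).trans
      (b2 _ ⟨by omega, by omega⟩ t ⟨le_rfl, by omega⟩)
  have e := caseA hX1 h.mirror hn (h.T3_rev t3) (s := n - (t + 7)) (t := n - (s + 7)) (x := x)
    (by omega) (by omega)
    ((h.sm_rev (by omega)).2 (sm_mono a2 (by omega) (by omega)))
    ((h.sm_rev (by omega)).2 (sm_mono a1 (by omega) (by omega)))
    (fun k => a3 (sm_mono ((h.sm_rev (by omega)).1 k) (by omega) (by omega)))
    (fun k => a5 (sm_mono ((h.sm_rev (by omega)).1 k) (by omega) (by omega)))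
  rw [h.eqv_rev, rev_lt (by omega), rev_lt (by omega)] at e
  exact ((a1 s ⟨le_rfl, by omega⟩ _ ⟨by omega, by omega⟩).trans e.symm).trans
    (a2 _ ⟨by omega, by omega⟩ t ⟨le_rfl, by omega⟩)

end Pool.Agent.FlagOrb.R
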