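import Pool.Agent.Lib.MP_7157e1_co.RAsm
import Pool.Agent.Lib.MP_7157e1_co.R_CC
import Pool.Agent.Lib.MP_7157e1_co.R_CHAIN
import Pool.Agent.Lib.MP_7157e1_co.R_CV
import Pool.Agent.Lib.MP_7157e1_co.R_DIH2
import Pool.Agent.Lib.MP_7157e1_co.R_EC
import Pool.Agent.Lib.MP_7157e1_co.R_EXT
import Pool.Agent.Lib.MP_7157e1_co.R_FAR
import Pool.Agent.Lib.MP_7157e1_co.R_FREE
import Pool.Agent.Lib.MP_7157e1_co.R_GRID
import Pool.Agent.Lib.MP_7157e1_co.R_H0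
import Pool.Agent.Lib.MP_7157e1_co.R_JA
import Pool.Agent.Lib.MP_7157e1_co.R_JB
import Pool.Agent.Lib.MP_7157e1_co.R_JB0
import Pool.Agent.Lib.MP_7157e1_co.R_JC
import Pool.Agent.Lib.MP_7157e1_co.R_KD
import Pool.Agent.Lib.MP_7157e1_co.R_LEGP
import Pool.Agent.Lib.MP_7157e1_co.R_MB
import Pool.Agent.Lib.MP_7157e1_co.R_NP
import Pool.Agent.Lib.MP_7157e1_co.R_NS
import Pool.Agent.Lib.MP_7157e1_co.R_O1
import Pool.Agent.Lib.MP_7157e1_co.R_OT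
import Pool.Agent.Lib.MP_7157e1_co.R_PART
import Pool.Agent.Lib.MP_7157e1_co.R_PLEG
import Pool.Agent.Lib.MP_7157e1_co.R_PUSH
import Pool.Agent.Lib.MP_7157e1_co.R_SG
import Pool.Agent.Lib.MP_7157e1_co.R_SW
import Pool.Agent.Lib.MP_7157e1_co.R_T3
import Pool.Agent.Lib.MP_7157e1_co.R_TOK
import Pool.Agent.Lib.MP_7157e1_co.R_TOK1
import Pool.Agent.Lib.MP_7157e1_co.R_TOKP
import Pool.Agent.Lib.MP_7157e1_co.R_WALL
import Pool.Agent.Lib.MP_7157e1_co.R_X1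
import Pool.Agent.Lib.MP_7157e1_co.R_XC
import Pool.Agent.Lib.MP_7157e1_co.R_XX

/-! Cubic range: all steps together. -/

namespace Pool.Agent.FlagOrb.R

open Pool.Agent.Lib.MP_7157e1_co

theorem cube {k d : ℕ} (h : Attained k d) (hd : 110 ≤ d) (h2 : 2 ≤ k)
    (k1 : 2 * k < d * (d - 19) ∨ (15808 * (2 * k / (d * (d - 19))) < 2 * k % (d - 1) ∧
      2 * k % (d - 1) + 5596 * (2 * k / (d * (d - 19))) < d - 1)) : (k + 1) % (d - 1) ≤ 3 := by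
  have hEXT : St_EXT := stEXT stPUSH
  have hTOKP : St_TOKP := stTOKP (stTOK1 (stTOK stSG) stPUSH hEXT)
  exact cubic stT3 (stWALL (stXX (stX1 stSG))) (stGRID hTOKP (stFAR hTOKP))
    (stCV hTOKP (stSW stPUSH)) (stPLEG hEXT (stH0 stPUSH stKD)) (stJC stJA (stJB stJB0))
    (stNS (stEC stDIH2) stFREE (stCHAIN stLEGP)) (stNP stPUSH) (stXC stPUSH stMB)
    (stOT (stO1 stPUSH)) stCC stPART h hd h2 k1

end Pool.Agent.FlagOrb.R
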