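import Pool.Agent.Lib.MP_7157e1_co.RBlue
import Pool.Agent.Lib.MP_7157e1_co.QHalfB
import Pool.Agent.Lib.MP_7157e1_co.Q_P3
import Pool.Agent.Lib.MP_7157e1_co.Q_LEG
import Pool.Agent.Lib.MP_7157e1_co.Q_NODBL
import Pool.Agent.Lib.MP_7157e1_co.Q_IRR

/-! Cubic range: tools on words, windows, legs and paths. -/

namespace Pool.Agent.FlagOrb

open Equiv Set Q R

namespace R

variable {F : Type} {r : ℕ → Perm F}

lemma mov_self (i : ℕ) (x : F) : mov r i i x = x := by simp [mov]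

lemma mov_mov (i j k : ℕ) (x : F) : mov r j k (mov r i j x) = mov r i k x := by simp [mov]

lemma mov_back (i j : ℕ) (x : F) : mov r j i (mov r i j x) = x := by rw [mov_mov, mov_self]

lemma mov_univ (i j : ℕ) : mov r i j ∈ W r univ :=
  mul_mem (inv_mem (W_mono (subset_univ _) (up_mem r 0 j))) (W_mono (subset_univ _) (up_mem r 0 i))

lemma mov_aut {g : Perm F} (hg : g ∈ Aut r) (i j : ℕ) (x : F) :
    mov r i j (g x) = g (mov r i j x) := (Aut.appW hg (mov_univ i j) x).symm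

lemma eqv_mov {x y : F} (e : Eqv r x y) (i j : ℕ) : Eqv r (mov r i j x) (mov r i j y) :=
  e.map (mov_univ i j)

lemma Pu.eqv {x y : F} {e f : ℕ} (hp : Pu r x e f) (q : Eqv r x y) : Pu r y e f :=
  fun t h1 h2 hw => hp t h1 h2 (hw.eqv (eqv_mov q e t).symm)

/-- the top moving colour below `b` -/
lemma exists_top {x : F} {c b : ℕ} (hc : c < b) (hw : ¬ Wl r x c) :
    ∃ e, c ≤ e ∧ e < b ∧ ¬ Wl r x e ∧ ∀ d, e < d → d < b → Wl r x d := by
  induction b with
  | zero => omega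
  | succ b ih =>
    by_cases hb : Wl r x b
    · have : c ≠ b := by rintro rfl; exact hw hb
      obtain ⟨e, e1, e2, e3, e4⟩ := ih (by omega)
      refine ⟨e, e1, by omega, e3, fun d d1 d2 => ?_⟩
      by_cases k : d = b
      · rwa [k]
      · exact e4 d d1 (by omega)
    · exact ⟨b, by omega, by omega, hb, fun d d1 d2 => by omega⟩

lemma sm_join {a b c d : ℕ} {x : F} (s : Sm r a b x) (t : Sm r c d x) (h1 : a ≤ c) (h2 : c < b)
    (h3 : c < d) : Sm r a d x := by
  have k : ∀ e ∈ Ico a d, Eqv r (r e x) (r c x) := fun e he => by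
    by_cases q : e < b
    · exact s e ⟨he.1, q⟩ c ⟨h1, h2⟩
    · exact t e ⟨by omega, he.2⟩ c ⟨le_rfl, h3⟩
  exact fun e he e' he' => (k e he).trans (k e' he').symm

lemma nsm_of {a b c d : ℕ} {x : F} (hc : Wl r x c) (hd : ¬ Wl r x d) (c1 : a ≤ c) (c2 : c < b)
    (d1 : a ≤ d) (d2 : d < b) : ¬ Sm r a b x :=
  fun s => hd (Eqv.trans hc (s c ⟨c1, c2⟩ d ⟨d1, d2⟩))

lemma sm_of_wl {a b : ℕ} {x : F} (hw : ∀ c, a ≤ c → c < b → Wl r x c) : Sm r a b x :=
  fun c hc d hd => Eqv.trans (Eqv.symm (hw c hc.1 hc.2)) (hw d hd.1 hd.2)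

lemma mv_of_nsm {a b : ℕ} {x : F} (s : ¬ Sm r a b x) : ∃ c, a ≤ c ∧ c < b ∧ ¬ Wl r x c := by
  by_contra hn
  push Not at hn
  exact s (sm_of_wl hn)

lemma WA.nsm {n a b c : ℕ} {x : F} (w : WA n r) (h1 : 1 ≤ a) (h2 : a + 7 ≤ b) (h3 : b + 1 ≤ n)
    (c1 : a ≤ c) (c2 : c < b) (hc : ¬ Wl r x c) : ¬ Sm r a b x :=
  fun s => hc (w x a b c h1 h2 h3 s c1 c2)

lemma Dich.orb {a b : ℕ} {x y : F} (d : Dich r a b x) (hy : Rch r (Ico a b) x y) : Dich r a b y :=
  fun z j hz => d z j (hy.trans hz)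

lemma hj_empty {x : F} {c : ℕ} : Hj r ∅ x c ↔ Wl r x c :=
  ⟨fun ⟨g, hg, e⟩ => by rwa [W_empty hg] at e, fun hw => ⟨1, one_mem _, hw⟩⟩

lemma Tk.uniq {a b i j : ℕ} {x : F} (h1 : Tk r a b x i) (h2 : Tk r a b x j) (i1 : a + 2 ≤ i)
    (i2 : i + 2 ≤ b) : i = j := by
  have k1 := (h2 i (by omega) i2).1 ((h1 i (by omega) i2).2 (Or.inr rfl))
  have k2 := (h2 (i - 1) (by omega) (by omega)).1
    ((h1 (i - 1) (by omega) (by omega)).2 (Or.inl (by omega)))
  omega

namespace Lg

variable {lam mu lo hi : ℕ} {Q Q' : F → ℕ → Prop}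

lemma congr (H : Lg r lam mu lo hi Q) (e : ∀ x i, Q' x i ↔ Q x i) : Lg r lam mu lo hi Q' := by
  have : Q' = Q := by funext x i; exact propext (e x i)
  rwa [this]

/-- restriction of the range of positions -/
lemma restrict (H : Lg r lam mu lo hi Q) {lo' hi' : ℕ} (h1 : lo ≤ lo') (h2 : hi' ≤ hi)
    (e : ∀ x i, Q' x i ↔ lo' ≤ i ∧ i ≤ hi' ∧ Q x i) : Lg r lam mu lo' hi' Q' where
  rng x i q := ⟨((e x i).1 q).1, ((e x i).1 q).2.1⟩
  wl x i c q := H.wl x i c ((e x i).1 q).2.2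
  mv x i q k := H.mv x i ((e x i).1 q).2.2 (by omega)
  mv' x i q k := H.mv' x i ((e x _).1 q).2.2 (by omega)
  up x i q k := (e _ _).2 ⟨by have := ((e x i).1 q).1; omega, k,
    H.up x i ((e x i).1 q).2.2 (by omega)⟩
  dn x i q k := (e _ _).2 ⟨k, by have := ((e x _).1 q).2.1; omega,
    H.dn x i ((e x _).1 q).2.2 (by omega)⟩
  str x i q k := H.str x i ((e x i).1 q).2.2 (by omega)

/-- two overlapping ranges -/
lemma glue {m1 m2 : ℕ} {Q1 Q2 : F → ℕ → Prop} (H1 : Lg r lam mu lo m2 Q1)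
    (H2 : Lg r lam mu m1 hi Q2) (hm : m1 + 1 ≤ m2) (rg : ∀ x i, Q x i → lo ≤ i ∧ i ≤ hi)
    (e1 : ∀ x i, i ≤ m2 → (Q x i ↔ Q1 x i)) (e2 : ∀ x i, m1 ≤ i → (Q x i ↔ Q2 x i)) :
    Lg r lam mu lo hi Q where
  rng := rg
  wl x i c q := by
    by_cases k : i ≤ m2
    exacts [H1.wl x i c ((e1 x i k).1 q), H2.wl x i c ((e2 x i (by omega)).1 q)]
  mv x i q k := by
    by_cases k' : i < m2
    exacts [H1.mv x i ((e1 x i k'.le).1 q) k', H2.mv x i ((e2 x i (by omega)).1 q) k]
  mv' x i q k := by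
    by_cases k' : i < m2
    exacts [H1.mv' x i ((e1 x _ k').1 q) k, H2.mv' x i ((e2 x _ (by omega)).1 q) (by omega)]
  up x i q k := by
    by_cases k' : i < m2
    exacts [(e1 _ _ k').2 (H1.up x i ((e1 x i k'.le).1 q) k'),
      (e2 _ _ (by omega)).2 (H2.up x i ((e2 x i (by omega)).1 q) k)]
  dn x i q k := by
    by_cases k' : i < m2
    exacts [(e1 _ _ k'.le).2 (H1.dn x i ((e1 x _ k').1 q) k),
      (e2 _ _ (by omega)).2 (H2.dn x i ((e2 x _ (by omega)).1 q) (by omega))]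
  str x i q k := by
    by_cases k' : i + 2 ≤ m2
    exacts [H1.str x i ((e1 x i (by omega)).1 q) k', H2.str x i ((e2 x i (by omega)).1 q) k]

lemma uniq (H : Lg r lam mu lo hi Q) {x : F} {i j : ℕ} (hi' : Q x i) (hj : Q x j) (h1 : lam ≤ lo)
    (h2 : hi ≤ mu) (h3 : lo + 2 ≤ hi) : i = j := by
  have key : ∀ i j, Q x i → Q x j → ¬ i < j := by
    intro i j hp hq hl
    have p1 := H.rng x i hp
    have q2 := H.rng x j hq
    have e : i + 1 = j := by
      by_contra hn
      exact H.mv x i hp (by omega) (H.wl x j i hq (by omega) (by omega) (by omega) hn)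
    subst e
    by_cases k : i + 1 < hi
    · exact H.mv x _ hq k (H.wl x i _ hp (by omega) (by omega) (by omega) (by omega))
    · obtain ⟨d, rfl⟩ : ∃ d, i = d + 1 := ⟨i - 1, by omega⟩
      exact H.mv' x d hp (by omega) (H.wl x _ d hq (by omega) (by omega) (by omega) (by omega))
  have := key i j hi' hj
  have := key j i hj hi'
  omega

end Lg

end R

namespace CoxC

variable {G : Type} [Group G] [DecidableEq G] {S : Set G} {C : G → G → ℝ} (h : CoxC S C)
include h

omit h [DecidableEq G] in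
lemma path_rev {q : ℕ → G} {m : ℕ} (hq : IsPath S q m) : IsPath S (fun i => q (m - i)) m :=
  ⟨fun i _ => hq.mem _ (by omega),
    fun i hi j hj he => by have := hq.inj _ (by omega) _ (by omega) he; omega,
    fun i hi => by
      have := adj_symm (hq.adj (m - (i + 1)) (by omega))
      rwa [show m - (i + 1) + 1 = m - i by omega] at this⟩

/-- an inner node of a long path has no further neighbour -/
lemma pu {q : ℕ → G} {M m : ℕ} (hq : IsPath S q M) (hM : 9 ≤ M) (h1 : 1 ≤ m) (h2 : m + 3 ≤ M)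
    {t : G} (ht : t ∈ S) (ha : ¬ Commute (q (m + 1)) t) : t = q m ∨ t = q (m + 2) := by
  by_cases k : m + 6 ≤ M
  · have p := (hq.shift (a := m - 1) (by omega)).le (m' := 7) (by omega)
    have := h.star5 p ht (by rwa [show m - 1 + 2 = m + 1 by omega])
    rwa [show m - 1 + 1 = m by omega, show m - 1 + 3 = m + 2 by omega] at this
  · have p := ((path_rev hq).shift (a := M - (m + 3)) (by omega)).le (m' := 7) (by omega)
    have := h.star5 p ht (by rwa [show M - (M - (m + 3) + 2) = m + 1 by omega])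
    rw [show M - (M - (m + 3) + 1) = m + 2 by omega,
      show M - (M - (m + 3) + 3) = m by omega] at this
    exact this.symm

end CoxC

namespace PS

variable {F L : Type} [Lattice L] {n : ℕ} {r : ℕ → Perm F} {φ : ℕ → F → L} (h : PS n r φ)
include h

lemma mov_succ (i j : ℕ) (x : F) : mov r i (j + 1) x = r j (mov r i j x) := by
  simp only [mov, up, zero_add, mul_inv_rev, inv_eq_of_sq (h.inv j), Perm.mul_apply]

lemma mov_pred (i j : ℕ) (x : F) : mov r i j x = r j (mov r i (j + 1) x) := by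
  rw [h.mov_succ, h.rr]

lemma mov_up (i : ℕ) (x : F) : mov r i (i + 1) x = r i x := by rw [h.mov_succ, mov_self]

lemma mov_dn (i : ℕ) (x : F) : mov r (i + 1) i x = r i x := by rw [h.mov_pred, mov_self]

lemma mov_from (i j : ℕ) (x : F) : mov r (i + 1) j (r i x) = mov r i j x := by
  rw [← h.mov_up, mov_mov]

lemma mov_from' (i j : ℕ) (x : F) : mov r i j (r i x) = mov r (i + 1) j x := by
  rw [← h.mov_dn, mov_mov]

lemma mov30 (x : F) : mov r 3 (3 - 0) x = x := mov_self _ _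

lemma mov31 (x : F) : mov r 3 (3 - 1) x = r 2 x := h.mov_dn 2 x

lemma mov32 (x : F) : mov r 3 (3 - 2) x = r 1 (r 2 x) := by
  rw [← h.mov31]; exact h.mov_pred 3 1 x

lemma mov33 (x : F) : mov r 3 (3 - 3) x = r 0 (r 1 (r 2 x)) := by
  rw [← h.mov32]; exact h.mov_pred 3 0 x

lemma mov_mem {a b i j : ℕ} (i1 : a ≤ i) (i2 : i ≤ b) (j1 : a ≤ j) (j2 : j ≤ b) :
    mov r i j ∈ W r (Ico a b) := by
  have key : ∀ i j, a ≤ i → i ≤ j → j ≤ b → mov r i j ∈ W r (Ico a b) := by
    intro i j h1 h2 h3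
    induction j, h2 using Nat.le_induction with
    | base =>
      have : mov r i i = 1 := Equiv.ext (mov_self i)
      rw [this]
      exact one_mem _
    | succ j hj ih =>
      have : mov r i (j + 1) = r j * mov r i j := Equiv.ext (h.mov_succ i j)
      rw [this]
      exact mul_mem (W_gen ⟨by omega, by omega⟩) (ih (by omega))
  rcases le_total i j with k | k
  · exact key i j i1 k j2
  · have : mov r i j = (mov r j i)⁻¹ := by simp [mov]
    rw [this]
    exact inv_mem (key j i j1 k i2)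

lemma mov_rch {a b i j : ℕ} (i1 : a ≤ i) (i2 : i ≤ b) (j1 : a ≤ j) (j2 : j ≤ b) (x : F) :
    Rch r (Ico a b) x (mov r i j x) := ⟨_, h.mov_mem i1 i2 j1 j2, rfl⟩

lemma capW {I : Set ℕ} {g : Perm F} (hg : g ∈ W r I) {c : ℕ}
    (hI : ∀ c' ∈ I, c ≠ c' + 1 ∧ c' ≠ c + 1) (x : F) : r c (g x) = g (r c x) := by
  rw [← Perm.mul_apply, (W_comm (fun c' hc' => h.comm' (hI c' hc').1 (hI c' hc').2) hg).eq,
    Perm.mul_apply]

lemma wl_rch {I : Set ℕ} {x y : F} {c : ℕ} (hr : Rch r I x y)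
    (hI : ∀ c' ∈ I, c ≠ c' + 1 ∧ c' ≠ c + 1) : Wl r y c ↔ Wl r x c :=
  hr.ind (fun c _ => h.inv c) (P := fun y => Wl r y c ↔ Wl r x c) Iff.rfl
    fun _ c' hc' _ ih => (h.wl_far (hI c' hc').1 (hI c' hc').2).trans ih

lemma per_rch {I : Set ℕ} {x y : F} {l : ℕ} (hr : Rch r I x y)
    (hI : ∀ c ∈ I, c + 1 ≠ l ∧ c ≠ l + 2) : per r l y = per r l x :=
  hr.ind (fun c _ => h.inv c) (P := fun y => per r l y = per r l x) rfl
    fun y c hc _ ih => (h.per_step (hI c hc).1 (hI c hc).2 y).trans ih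

lemma cap_mov {i j c : ℕ} (hc : (c + 2 ≤ i ∧ c + 2 ≤ j) ∨ (i + 1 ≤ c ∧ j + 1 ≤ c)) (x : F) :
    r c (mov r i j x) = mov r i j (r c x) :=
  h.capW (h.mov_mem (min_le_left i j) (le_max_left i j) (min_le_right i j) (le_max_right i j))
    (fun c' hc' => by have := hc'.1; have := hc'.2; omega) x

lemma wl_mov {i j c : ℕ} (hc : (c + 2 ≤ i ∧ c + 2 ≤ j) ∨ (i + 1 ≤ c ∧ j + 1 ≤ c)) (x : F) :
    Wl r (mov r i j x) c ↔ Wl r x c :=
  h.wl_rch (h.mov_rch (min_le_left i j) (le_max_left i j) (min_le_right i j) (le_max_right i j) x)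
    fun c' hc' => by have := hc'.1; have := hc'.2; omega

lemma rf_mov {i j c : ℕ} (hc : (c + 2 ≤ i ∧ c + 2 ≤ j) ∨ (i + 1 ≤ c ∧ j + 1 ≤ c)) {x : F}
    (hw : Wl r x c) : rf r (mov r i j x) c = rf r x c :=
  h.rf_rch hw
    (h.mov_rch (min_le_left i j) (le_max_left i j) (min_le_right i j) (le_max_right i j) x)
    fun c' hc' => by have := hc'.1; have := hc'.2; omega

lemma per_mov {i j l : ℕ} (hl : (l + 3 ≤ i ∧ l + 3 ≤ j) ∨ (i + 1 ≤ l ∧ j + 1 ≤ l)) (x : F) :
    per r l (mov r i j x) = per r l x :=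
  h.per_rch (h.mov_rch (min_le_left i j) (le_max_left i j) (min_le_right i j) (le_max_right i j) x)
    fun c' hc' => by have := hc'.1; have := hc'.2; omega

lemma mov_comm {i j k l : ℕ} (h1 : i < k) (h2 : i < l) (h3 : j < k) (h4 : j < l) (x : F) :
    mov r i j (mov r k l x) = mov r k l (mov r i j x) := by
  have := W_comm2 (t := r) (I := Ico (min i j) (max i j)) (J := Ico (min k l) (max k l))
    (fun c hc c' hc' => h.comm c c' (by have := hc.2; have := hc'.1; omega))
    (h.mov_mem (min_le_left i j) (le_max_left i j) (min_le_right i j) (le_max_right i j))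
    (h.mov_mem (min_le_left k l) (le_max_left k l) (min_le_right k l) (le_max_right k l))
  rw [← Perm.mul_apply, this.eq, Perm.mul_apply]

lemma mov_rev {i j : ℕ} (hi : i ≤ n) (hj : j ≤ n) (x : F) :
    mov (rev n r) i j x = mov r (n - i) (n - j) x := by
  have key : ∀ i j x, i ≤ j → j ≤ n → mov (rev n r) i j x = mov r (n - i) (n - j) x := by
    intro i j x h1 h2
    induction j, h1 using Nat.le_induction with
    | base => rw [mov_self, mov_self]
    | succ j hj ih =>
      rw [h.mirror.mov_succ, ih (by omega), rev_lt (by omega), h.mov_pred _ (n - (j + 1)),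
        show n - (j + 1) + 1 = n - j by omega, show n - 1 - j = n - (j + 1) by omega]
  rcases le_total i j with k | k
  · exact key i j x k hj
  · apply (mov (rev n r) j i).injective
    rw [mov_back, key j i _ k hi, mov_back]

lemma pu_inD {x : F} {e f t : ℕ} (hp : Pu r x e f) (h1 : e ≤ t) (h2 : t ≤ f) :
    InD r e f x (mov r e t x) := by
  induction t, h1 using Nat.le_induction with
  | base => rw [mov_self]; exact InD.refl x
  | succ t ht ih =>
    rw [h.mov_succ]
    exact (ih (by omega)).next ⟨ht, h2⟩ (hp t ht (by omega))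

section Legs

variable {lam mu lo hi : ℕ} {Q : F → ℕ → Prop} (H : Lg r lam mu lo hi Q)
include H

lemma lg_norm {x : F} {i j : ℕ} (hx : Q x i) (j1 : lo ≤ j) (j2 : j ≤ hi) :
    Q (mov r i j x) j ∧ InD r (min i j) (max i j) x (mov r i j x) := by
  have i1 := H.rng x i hx
  rcases le_total i j with k | k
  · rw [min_eq_left k, max_eq_right k]
    induction j, k using Nat.le_induction with
    | base => rw [mov_self]; exact ⟨hx, InD.refl x⟩
    | succ j hj ih =>
      obtain ⟨a1, a2⟩ := ih (by omega) (by omega)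
      rw [h.mov_succ]
      exact ⟨H.up _ _ a1 j2, (a2.mono le_rfl (by omega)).next ⟨hj, by omega⟩ (H.mv _ _ a1 j2)⟩
  · rw [min_eq_right k, max_eq_left k]
    obtain ⟨d, rfl⟩ : ∃ d, i = j + d := ⟨i - j, by omega⟩
    clear k j2
    induction d generalizing j with
    | zero => rw [add_zero, mov_self]; exact ⟨hx, InD.refl x⟩
    | succ d ih =>
      rw [show j + (d + 1) = j + 1 + d by omega] at hx i1 ⊢
      obtain ⟨a1, a2⟩ := ih (j := j + 1) (by omega) hx i1
      rw [h.mov_pred _ j]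
      exact ⟨H.dn _ _ a1 j1, (a2.mono (by omega) le_rfl).next ⟨le_rfl, by omega⟩ (H.mv' _ _ a1 j1)⟩

lemma lg_iff {x : F} {i j : ℕ} (i1 : lo ≤ i) (i2 : i ≤ hi) (j1 : lo ≤ j) (j2 : j ≤ hi) :
    Q (mov r i j x) j ↔ Q x i :=
  ⟨fun k => by have := (h.lg_norm H k i1 i2).1; rwa [mov_back] at this,
    fun k => (h.lg_norm H k j1 j2).1⟩

end Legs

variable [Finite F]

/-- the walls along a leg form a path; local form -/
lemma lpath {x0 x : F} {a lam mu : ℕ} (hx : InD r 0 n x0 x) (h1 : lam ≤ a) (h2 : a + 3 ≤ mu)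
    (h3 : mu ≤ n) (mv : ¬ Wl r x (a + 1))
    (wx : ∀ c, lam ≤ c → c < mu → c ≠ a → c ≠ a + 1 → Wl r x c) (wy : Wl r (r (a + 1) x) a)
    (wz : Wl r (r (a + 2) (r (a + 1) x)) (a + 1)) (h4 : per r (a + 1) x = 3) :
    IsPath (Walls r 0 n x0) (fun j => lg r x (a + 1) (lam + j)) (mu - 2 - lam) := by
  have X : ∀ j, lam ≤ j → j + 2 ≤ mu → j ≠ a → Wl r x (if j ≤ a then j else j + 1) ∧
      lg r x (a + 1) j = rf r x (if j ≤ a then j else j + 1) := by
    intro j j1 j2 j3
    split_ifs with k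
    · exact ⟨wx j j1 (by omega) j3 (by omega), lg_lo (by omega)⟩
    · exact ⟨wx _ (by omega) (by omega) (by omega) (by omega), lg_hi (by omega)⟩
  have Y : ∀ j, lam ≤ j → j + 2 ≤ mu → j ≠ a + 1 →
      Wl r (r (a + 1) x) (if j ≤ a then j else j + 1) ∧
      lg r x (a + 1) j = rf r (r (a + 1) x) (if j ≤ a then j else j + 1) := by
    intro j j1 j2 j3
    by_cases e : j = a
    · subst e
      rw [if_pos le_rfl]
      exact ⟨wy, lg_mid⟩
    obtain ⟨w, e'⟩ := X j j1 j2 e
    have f1 : (if j ≤ a then j else j + 1) ≠ a + 1 + 1 := by split_ifs <;> omega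
    have f2 : a + 1 ≠ (if j ≤ a then j else j + 1) + 1 := by split_ifs <;> omega
    exact ⟨(h.wl_far f1 f2).2 w, e'.trans (h.rf_step w f1 f2).symm⟩
  have Z : ∀ j, lam ≤ j → j + 2 ≤ mu → j ≠ a + 2 →
      Wl r (r (a + 2) (r (a + 1) x)) (if j ≤ a + 1 then j else j + 1) ∧
      lg r x (a + 1) j = rf r (r (a + 2) (r (a + 1) x)) (if j ≤ a + 1 then j else j + 1) := by
    intro j j1 j2 j3
    by_cases e : j = a + 1
    · subst e
      rw [if_pos le_rfl, lg_hi le_rfl]
      exact ⟨wz, (h.hex (by omega) (wx _ (by omega) (by omega) (by omega) (by omega)) wz).1 h4⟩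
    obtain ⟨w, e'⟩ := Y j j1 j2 e
    rw [show (if j ≤ a + 1 then j else j + 1) = if j ≤ a then j else j + 1 by
      split_ifs <;> omega]
    have f1 : (if j ≤ a then j else j + 1) ≠ a + 2 + 1 := by split_ifs <;> omega
    have f2 : a + 2 ≠ (if j ≤ a then j else j + 1) + 1 := by split_ifs <;> omega
    exact ⟨(h.wl_far f1 f2).2 w, e'.trans (h.rf_step w f1 f2).symm⟩
  refine ⟨fun j hj => ?_, fun i hi j hj he => ?_, fun j hj => ?_⟩
  · by_cases e : lam + j = a + 1
    · have k := X (lam + j) (by omega) (by omega) (by omega)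
      rw [k.2]
      exact wall_mem hx ⟨by omega, by split_ifs <;> omega⟩ k.1
    · have k := Y (lam + j) (by omega) (by omega) e
      rw [k.2]
      exact wall_mem (hx.next ⟨by omega, by omega⟩ mv) ⟨by omega, by split_ifs <;> omega⟩ k.1
  · by_contra hij
    change lg r x (a + 1) (lam + i) = lg r x (a + 1) (lam + j) at he
    by_cases e1 : lam + i ≠ a ∧ lam + j ≠ a
    · have k1 := X (lam + i) (by omega) (by omega) e1.1
      have k2 := X (lam + j) (by omega) (by omega) e1.2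
      rw [k1.2, k2.2] at he
      exact h.rf_ne k1.1 k2.1 (by split_ifs <;> omega) (by split_ifs <;> omega) he
    by_cases e2 : lam + i ≠ a + 1 ∧ lam + j ≠ a + 1
    · have k1 := Y (lam + i) (by omega) (by omega) e2.1
      have k2 := Y (lam + j) (by omega) (by omega) e2.2
      rw [k1.2, k2.2] at he
      exact h.rf_ne k1.1 k2.1 (by split_ifs <;> omega) (by split_ifs <;> omega) he
    · have k1 := Z (lam + i) (by omega) (by omega) (by omega)
      have k2 := Z (lam + j) (by omega) (by omega) (by omega)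
      rw [k1.2, k2.2] at he
      exact h.rf_ne k1.1 k2.1 (by split_ifs <;> omega) (by split_ifs <;> omega) he
  · change ¬ Commute (lg r x (a + 1) (lam + j)) (lg r x (a + 1) (lam + (j + 1)))
    by_cases e : a + 1 ≤ lam + j
    · have k1 := X (lam + j) (by omega) (by omega) (by omega)
      have k2 := X (lam + (j + 1)) (by omega) (by omega) (by omega)
      rw [if_neg (by omega)] at k1 k2
      rw [k1.2, k2.2]
      exact h.rf_adj k1.1 k2.1 (by omega)
    · have k1 := Z (lam + j) (by omega) (by omega) (by omega)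
      have k2 := Z (lam + (j + 1)) (by omega) (by omega) (by omega)
      rw [if_pos (by omega)] at k1 k2
      rw [k1.2, k2.2]
      exact h.rf_adj k1.1 k2.1 (by omega)

/-- the walls along a leg form a path; `[l, m)` may exceed `[lam, mu)` if the extra colours are
walls at `x` -/
lemma lg_path {lam mu lo hi : ℕ} {Q : F → ℕ → Prop} (H : Lg r lam mu lo hi Q) {x0 x : F}
    {a l m : ℕ} (hx : InD r 0 n x0 x) (hq : Q x (a + 1)) (h0 : lam ≤ a) (h1 : l ≤ a)
    (h2 : a + 3 ≤ hi) (h3 : hi ≤ mu) (h4 : a + 3 ≤ m) (h5 : m ≤ n)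
    (wl : ∀ c, l ≤ c → c < lam → Wl r x c) (wu : ∀ c, mu ≤ c → c < m → Wl r x c) :
    IsPath (Walls r 0 n x0) (fun j => lg r x (a + 1) (l + j)) (m - 2 - l) := by
  have q1 := H.up _ _ hq (by omega)
  have q2 := H.up _ _ q1 (by omega)
  refine h.lpath hx h1 h4 h5 (H.mv _ _ hq (by omega)) (fun c c1 c2 c3 c4 => ?_)
    (H.wl _ _ _ q1 h0 (by omega) (by omega) (by omega))
    (H.wl _ _ _ q2 (by omega) (by omega) (by omega) (by omega)) (H.str _ _ hq (by omega))
  by_cases k : c < lam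
  · exact wl c c1 k
  by_cases k' : mu ≤ c
  · exact wu c k' c2
  · exact H.wl _ _ _ hq (by omega) (by omega) c4 (by omega)

omit [Finite F] in
/-- descent along the walls of one flag -/
lemma desc [DecidableEq (Perm F)] {C : Perm F → Perm F → ℝ} {x0 y : F}
    (K : CoxC (Walls r 0 n x0) C) {q : ℕ → Perm F} {M : ℕ} (hq : IsPath (Walls r 0 n x0) q M)
    (hM : 9 ≤ M) (hy : InD r 0 n x0 y) {c m : ℕ} (k : ℕ) (h1 : 1 ≤ m) (h2 : m + k + 2 ≤ M)
    (h3 : c + k + 1 < n) (hw : ∀ d, c ≤ d → d ≤ c + k + 1 → Wl r y d)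
    (e1 : rf r y (c + k) = q (m + k)) (e2 : rf r y (c + k + 1) = q (m + k + 1)) :
    ∀ j ≤ k + 1, rf r y (c + j) = q (m + j) := by
  induction k with
  | zero =>
    intro j hj
    rcases (by omega : j = 0 ∨ j = 1) with rfl | rfl
    exacts [e1, e2]
  | succ k ih =>
    have w0 := hw (c + k) (by omega) (by omega)
    have w1 := hw (c + k + 1) (by omega) (by omega)
    have w2 := hw (c + (k + 1) + 1) (by omega) (by omega)
    have e0 : rf r y (c + k) = q (m + k) := by
      refine (K.pu hq hM (m := m + k) (by omega) (by omega)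
        (wall_mem hy ⟨by omega, by omega⟩ w0) ?_).resolve_right fun e => ?_
      · rw [show m + k + 1 = m + (k + 1) from rfl, ← e1]
        exact adj_symm (h.rf_adj w0 w1 (by omega))
      · exact h.rf_ne w0 w2 (by omega) (by omega) (e.trans e2.symm)
    intro j hj
    by_cases e : j = k + 1 + 1
    · rw [e]; exact e2
    · exact ih (by omega) (by omega) (fun d d1 d2 => hw d d1 (by omega)) e0 e1 j (by omega)

/-- two activities are parked in two given windows -/
lemma park {a b j s t : ℕ} {y : F} (hb : b ≤ n) (h1 : a + 1 ≤ s) (h2 : s + 9 ≤ t) (h3 : t + 8 ≤ b)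
    (a1 : ¬ Sm r (a + 1) j y) (a2 : ¬ Sm r (j + 2) (b - 1) y) :
    ∃ z, Rch r (Ico a b) y z ∧ ¬ Sm r s (s + 7) z ∧ ¬ Sm r t (t + 7) z := by
  have ja : a + 1 ≤ j := by
    by_contra k
    exact a1 fun c hc => by have := hc.1; have := hc.2; omega
  have jb : j + 2 ≤ b - 1 := by
    by_contra k
    exact a2 fun c hc => by have := hc.1; have := hc.2; omega
  by_cases k : j + 2 ≤ t
  · obtain ⟨u, hu, b2⟩ := Half.tr h (a := j + 1) (b := b) (s := t) hb k h3 a2
    have b1 := Half.nsm h hu (fun c hc => Or.inr (by have := hc.1; omega)) a1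
    obtain ⟨z, hz, c1⟩ := Half.tr h (a := a) (b := t - 1) (s := s) (x := u) (by omega) h1
      (by omega) fun q => b1 (Half.sm_mono q le_rfl (by omega))
    exact ⟨z, (hu.mono (Ico_subset_Ico (by omega) le_rfl)).trans
      (hz.mono (Ico_subset_Ico le_rfl (by omega))), c1,
      Half.nsm h hz (fun c hc => Or.inl (by have := hc.2; omega)) b2⟩
  · obtain ⟨u, hu, b1⟩ := Half.tr h (a := a) (b := j + 1) (s := s) (x := y) (by omega) h1
      (by omega) a1
    have b2 := Half.nsm h hu (fun c hc => Or.inl (by have := hc.2; omega)) a2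
    obtain ⟨z, hz, c2⟩ := Half.tr h (a := s + 8) (b := b) (s := t) (x := u) hb h2 h3
      fun q => b2 (Half.sm_mono q (by omega) le_rfl)
    exact ⟨z, (hu.mono (Ico_subset_Ico le_rfl (by omega))).trans
      (hz.mono (Ico_subset_Ico (by omega) le_rfl)),
      Half.nsm h hz (fun c hc => Or.inr (by have := hc.1; omega)) b1, c2⟩

/-- braid relations on an orbit without two far activities -/
lemma brd {a b l : ℕ} {x : F} (hb : b ≤ n) (hab : a + 49 ≤ b) (d : Dich r a b x)
    (h1 : a + 16 ≤ l) (h2 : l + 19 ≤ b) : per r l x = 3 := by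
  obtain ⟨u, u1, u2, u3, u4⟩ : ∃ u, a + 3 ≤ u ∧ u + 46 ≤ b ∧ u + 13 ≤ l ∧ l ≤ u + 27 :=
    ⟨max (a + 3) (l - 27), by omega, by omega, by omega, by omega⟩
  obtain ⟨F', _, r', φ', e, hS, e1, e2, e3, e4⟩ := stSEC h u (u + 43) x (by omega) (by omega)
  rw [Nat.add_sub_cancel_left] at hS
  have hfar : Far {a + 1, b - 2} u (u + 43) := by
    rintro c (rfl | rfl) <;> omega
  have hLW : LW 43 r' := by
    intro z c c' hc hc'
    rcases d (e z) (u + c + 1) (((e1 _).2 ⟨z, rfl⟩).mono (Ico_subset_Ico (by omega) (by omega)))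
      with k | k
    · refine Or.inl (e4 _ hfar z _ ⟨r (a + 1), W_gen (Or.inl rfl), ?_⟩)
      rw [e2 c z (by omega)]
      exact k _ ⟨le_rfl, by omega⟩ _ ⟨by omega, by omega⟩
    · refine Or.inr (e4 _ hfar z _ ⟨r (b - 2), W_gen (Or.inr rfl), ?_⟩)
      rw [e2 c' z (by omega)]
      exact k _ ⟨by omega, by omega⟩ _ ⟨by omega, by omega⟩
  obtain ⟨z, rfl⟩ := (e1 x).1 (Rch.refl x)
  have := stP3 (stLEG (stNODBL stIRR)) hS hLW (l - u) z (by omega) (by omega)
  rwa [e3 _ z (by omega), show u + (l - u) = l by omega] at this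

end PS

end Pool.Agent.FlagOrb
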