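import Pool.Agent.Lib.MP_7157e1_co.RKitA

/-! Cubic range: counting types. -/

namespace Pool.Agent.FlagOrb.R

open Equiv Set Q

variable {F : Type} {r : ℕ → Perm F} {S T : F → Prop}

/-- the set of types of flags in `S` -/
def tys (r : ℕ → Perm F) (S : F → Prop) : Set (Quotient (tySetoid r)) :=
  (fun x => Quotient.mk (tySetoid r) x) '' {x | S x}

lemma cnt_eq : cnt r S = (tys r S).ncard := rfl

lemma mem_tys {y : F} : Quotient.mk (tySetoid r) y ∈ tys r S ↔ ∃ x, S x ∧ Eqv r x y :=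
  ⟨fun ⟨x, hx, e⟩ => ⟨x, hx, Quotient.exact e⟩, fun ⟨x, hx, e⟩ => ⟨x, hx, Quotient.sound e⟩⟩

lemma cnt_congr (e : ∀ x, S x ↔ T x) : cnt r S = cnt r T := by
  have : S = T := funext fun x => propext (e x)
  rw [this]

lemma cnt_false (e : ∀ x, ¬ S x) : cnt r S = 0 := by
  have : {x | S x} = ∅ := eq_empty_of_forall_notMem e
  simp [cnt, this]

lemma cnt_true (e : ∀ x, S x) : cnt r S = nty r := by
  have : tys r S = univ := eq_univ_of_forall fun q => by
    obtain ⟨x, rfl⟩ := Quotient.exists_rep q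
    exact ⟨x, e x, rfl⟩
  rw [cnt_eq, this, ncard_univ, nty]

lemma tys_or : tys r (fun x => S x ∨ T x) = tys r S ∪ tys r T := by
  rw [tys, tys, tys, ← image_union]
  rfl

variable [Finite F]

lemma cnt_mono' (e : ∀ x, S x → ∃ y, T y ∧ Eqv r y x) : cnt r S ≤ cnt r T :=
  ncard_le_ncard (by
    rintro _ ⟨x, hx, rfl⟩
    exact mem_tys.2 (e x hx))

lemma cnt_mono (e : ∀ x, S x → T x) : cnt r S ≤ cnt r T :=
  cnt_mono' fun x hx => ⟨x, e x hx, Eqv.refl x⟩

lemma cnt_le_nty : cnt r S ≤ nty r := by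
  rw [← cnt_true (S := fun _ => True) fun _ => trivial]
  exact cnt_mono fun _ _ => trivial

lemma cnt_pos {x : F} (hx : S x) : 1 ≤ cnt r S :=
  (ncard_pos (toFinite _)).2 ⟨_, x, hx, rfl⟩

lemma cnt_le_ncard : cnt r S ≤ {x | S x}.ncard := ncard_image_le (toFinite _)

lemma cnt_or_le : cnt r (fun x => S x ∨ T x) ≤ cnt r S + cnt r T := by
  rw [cnt_eq, tys_or]
  exact ncard_union_le _ _

lemma cnt_or_eq (d : ∀ x y, S x → T y → ¬ Eqv r x y) :
    cnt r (fun x => S x ∨ T x) = cnt r S + cnt r T := by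
  rw [cnt_eq, tys_or]
  refine ncard_union_eq (disjoint_left.2 ?_)
  rintro _ ⟨x, hx, rfl⟩ ⟨y, hy, e⟩
  exact d x y hx hy (Eqv.symm (Quotient.exact e))

lemma cnt_word_le {g : Perm F} (hg : g ∈ W r univ) (e : ∀ x, S x → T (g x)) :
    cnt r S ≤ cnt r T := by
  let f : Quotient (tySetoid r) → Quotient (tySetoid r) :=
    Quotient.map g fun _ _ k => Eqv.map k hg
  refine ncard_le_ncard_of_injOn f ?_ ?_
  · rintro _ ⟨x, hx, rfl⟩
    exact ⟨g x, e x hx, rfl⟩
  · rintro _ ⟨x, -, rfl⟩ _ ⟨y, -, rfl⟩ k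
    have := Eqv.map (Quotient.exact k : Eqv r (g x) (g y)) (inv_mem hg)
    have e' : Eqv r x y := by simpa using this
    exact Quotient.sound e'

lemma cnt_word {g : Perm F} (hg : g ∈ W r univ) (e : ∀ x, S x ↔ T (g x)) : cnt r S = cnt r T :=
  le_antisymm (cnt_word_le hg fun x => (e x).1)
    (cnt_word_le (inv_mem hg) fun x hx => (e _).2 (by simpa using hx))

lemma cnt_ex_le {ι : Type} (I : Finset ι) (S : ι → F → Prop) :
    cnt r (fun x => ∃ i ∈ I, S i x) ≤ ∑ i ∈ I, cnt r (S i) := by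
  classical
  induction I using Finset.induction_on with
  | empty => simp [cnt_false]
  | insert a I ha ih =>
    rw [Finset.sum_insert ha, cnt_congr (T := fun x => S a x ∨ ∃ i ∈ I, S i x) (by simp)]
    exact cnt_or_le.trans (Nat.add_le_add_left ih _)

lemma cnt_ex_eq {ι : Type} (I : Finset ι) (S : ι → F → Prop)
    (d : ∀ i ∈ I, ∀ j ∈ I, ∀ x y, S i x → S j y → Eqv r x y → i = j) :
    cnt r (fun x => ∃ i ∈ I, S i x) = ∑ i ∈ I, cnt r (S i) := by
  classical
  induction I using Finset.induction_on with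
  | empty => simp [cnt_false]
  | insert a I ha ih =>
    rw [Finset.sum_insert ha, cnt_congr (T := fun x => S a x ∨ ∃ i ∈ I, S i x) (by simp),
      cnt_or_eq, ih fun i hi j hj => d i (Finset.mem_insert_of_mem hi) j
        (Finset.mem_insert_of_mem hj)]
    rintro x y hx ⟨i, hi, hy⟩ e
    exact ha (d a (Finset.mem_insert_self _ _) i (Finset.mem_insert_of_mem hi) x y hx hy e ▸ hi)

/-- a union of `I.card` classes of size at most `A` -/
lemma cnt_ex_mul {ι : Type} (I : Finset ι) (S : ι → F → Prop) {A : ℕ}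
    (b : ∀ i ∈ I, cnt r (S i) ≤ A) : cnt r (fun x => ∃ i ∈ I, S i x) ≤ I.card * A :=
  (cnt_ex_le I S).trans (by simpa using Finset.sum_le_card_nsmul I _ A b)

/-- finitely many words lead from `S` into `T` -/
lemma cnt_words {ι : Type} (I : Finset ι) (g : ι → Perm F) (hg : ∀ i ∈ I, g i ∈ W r univ)
    (e : ∀ x, S x → ∃ i ∈ I, T (g i x)) : cnt r S ≤ I.card * cnt r T :=
  (cnt_mono (T := fun x => ∃ i ∈ I, T (g i x)) e).trans
    (cnt_ex_mul I _ fun i hi => cnt_word_le (hg i hi) fun _ k => k)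

/-- bounded fibres -/
lemma cnt_fib (ρ : F → F → Prop) {M : ℕ} (e : ∀ x, S x → ∃ z, T z ∧ ρ z x)
    (b : ∀ z, cnt r (ρ z) ≤ M)
    (q : ∀ z z' x, Eqv r z z' → ρ z x → ∃ x', ρ z' x' ∧ Eqv r x' x) :
    cnt r S ≤ M * cnt r T := by
  classical
  have hf := toFinite (tys r T)
  refine (cnt_mono' (T := fun x => ∃ t ∈ hf.toFinset, ρ t.out x) fun x hx => ?_).trans ?_
  · obtain ⟨z, hz, k⟩ := e x hx
    obtain ⟨x', k1, k2⟩ := q z (Quotient.mk (tySetoid r) z).out x
      (Eqv.symm (Quotient.exact (Quotient.out_eq (Quotient.mk (tySetoid r) z)))) k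
    exact ⟨x', ⟨_, hf.mem_toFinset.2 ⟨z, hz, rfl⟩, k1⟩, k2⟩
  · rw [mul_comm, cnt_eq (S := T), ncard_eq_toFinset_card _ hf]
    exact cnt_ex_mul _ _ fun t _ => b _

end Pool.Agent.FlagOrb.R
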