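import Pool.Agent.Lib.MP_7157e1_co.RKitB

/-! Cubic range: mirror images and invariance. -/

namespace Pool.Agent.FlagOrb

open Equiv Set Q R

namespace R

variable {F : Type} {r : ℕ → Perm F} {n : ℕ}

lemma sm_empty {a b : ℕ} {x : F} (k : b ≤ a + 1) : Sm r a b x := fun c hc d hd => by
  have := hc.1; have := hc.2; have := hd.1; have := hd.2
  rw [show c = d by omega]
  exact Eqv.refl _

lemma rch_rev {a b : ℕ} (hb : b ≤ n) {x y : F} :
    Rch (rev n r) (Ico a b) x y ↔ Rch r (Ico (n - b) (n - a)) x y := by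
  unfold Rch
  rw [W_rev hb fun c hc => rev_lt (by have := hc.2; omega)]

lemma mP_mP {P : F → ℕ → Prop} (hP : ∀ x i, P x i → i ≤ n) : mP n (mP n P) = P := by
  funext x i
  refine propext ⟨fun k => ?_, fun k => ?_⟩
  · have := k.2.2
    rwa [show n - (n - i) = i by have := k.1; omega] at this
  · have := hP x i k
    exact ⟨this, by omega, by rwa [show n - (n - i) = i by omega]⟩

lemma GS.inG_rev {A : ℕ} {G : F → ℕ → ℕ → Prop} (H : GS n r A G) {x : F} :
    InG (mG n G) x ↔ InG G x :=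
  ⟨fun ⟨_, _, k⟩ => ⟨_, _, k.2.2⟩, fun ⟨i, j, k⟩ => by
    have := H.rng x i j k
    exact ⟨n - j, n - i, by omega, by omega,
      by rwa [show n - (n - i) = i by omega, show n - (n - j) = j by omega]⟩⟩

lemma GS.mG_mG {A : ℕ} {G : F → ℕ → ℕ → Prop} (H : GS n r A G) : mG n (mG n G) = G := by
  funext x i j
  refine propext ⟨fun k => ?_, fun k => ?_⟩
  · have := k.2.2.2.2
    rwa [show n - (n - i) = i by have := k.1; omega,
      show n - (n - j) = j by have := k.2.1; omega] at this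
  · have := H.rng x i j k
    exact ⟨by omega, by omega, by omega, by omega,
      by rwa [show n - (n - i) = i by omega, show n - (n - j) = j by omega]⟩

lemma GS.inG_eqv {A : ℕ} {G : F → ℕ → ℕ → Prop} (H : GS n r A G) {x y : F} (k : InG G x)
    (e : Eqv r x y) : InG G y :=
  let ⟨i, j, k⟩ := k
  ⟨i, j, H.eqv x y i j k e⟩

lemma Tk.eqv {a b i : ℕ} {x y : F} (k : Tk r a b x i) (e : Eqv r x y) : Tk r a b y i :=
  fun c c1 c2 => by rw [← e.wl]; exact k c c1 c2

lemma T1.eqv {A : ℕ} {G : F → ℕ → ℕ → Prop} (H : GS n r A G) {x y : F} {i : ℕ}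
    (k : T1 n r G x i) (e : Eqv r x y) : T1 n r G y i :=
  ⟨fun q => k.1 (H.inG_eqv q e.symm), k.2.1, k.2.2.1, k.2.2.2.eqv e⟩

lemma Q0.eqv {A : ℕ} {G : F → ℕ → ℕ → Prop} (H : GS n r A G) {x y : F} {i : ℕ}
    (k : Q0 n r G x i) (e : Eqv r x y) : Q0 n r G y i :=
  ⟨k.1.eqv H e, fun c c1 c2 c3 c4 => (k.2.1 c c1 c2 c3 c4).eqv e, k.2.2.1.eqv (e.step _),
    k.2.2.2.eqv (e.step _)⟩

lemma Gd.orb {P : F → ℕ → Prop} {x y : F} (g : Gd r P x) (k : Rch r (Ico 0 3) x y) : Gd r P y :=
  fun z hz => g z (k.trans hz)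

lemma RH.gd_eqv {P : F → ℕ → Prop} (H : RH n r P) {x y : F} (g : Gd r P x) (e : Eqv r x y) :
    Gd r P y := fun z hz hw => by
  obtain ⟨a, ha, rfl⟩ := e
  have e' : Eqv r z (a⁻¹ z) := ⟨a⁻¹, inv_mem ha, rfl⟩
  have := Aut.rch (inv_mem ha) hz
  rw [show a⁻¹ (a x) = x by simp] at this
  exact H.eqv _ _ _ (g _ this fun w => hw (w.eqv e'.symm)) e'.symm

lemma F1_eqv {x y : F} (e : Eqv r x y) : JUN.F1 r x ↔ JUN.F1 r y := by
  unfold JUN.F1
  rw [e.wl, (e.step 2).wl, ((e.step 2).step 1).wl]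

lemma B2_eqv {x y : F} (e : Eqv r x y) : JUN.B2 r x ↔ JUN.B2 r y := by
  unfold JUN.B2
  rw [e.wl, (e.step 2).wl, ((e.step 2).step 1).wl 2, ((e.step 2).step 1).wl 0]

lemma F0_eqv {x y : F} (e : Eqv r x y) : F0 r x ↔ F0 r y := by
  unfold F0
  rw [B2_eqv e, ((((e.step 2).step 1).step 0).step 1).wl]

lemma Wt_eqv {x y : F} (e : Eqv r x y) (j : ℕ) : Wt r x j ↔ Wt r y j := by
  unfold Wt
  rw [e.wl, (e.step 2).wl, ((e.step 2).step 1).wl 2, ((e.step 2).step 1).wl 0,
    ((((e.step 2).step 1).step 0).step 1).wl]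

lemma Jf_aut {g : Perm F} (hg : g ∈ Aut r) (x : F) : Jf r (g x) = g (Jf r x) := by
  have e : Eqv r x (g x) := ⟨g, hg, rfl⟩
  unfold Jf
  rw [← F1_eqv e, ← F0_eqv e]
  split_ifs <;> simp only [Aut.app hg]

lemma Jf_eqv {x y : F} (e : Eqv r x y) : Eqv r (Jf r x) (Jf r y) := by
  obtain ⟨g, hg, rfl⟩ := e
  exact ⟨g, hg, (Jf_aut hg x).symm⟩

end R

namespace PS

variable {F L : Type} [Lattice L] {n : ℕ} {r : ℕ → Perm F} {φ : ℕ → F → L} (h : PS n r φ)
include h

lemma sm_rev {a b : ℕ} (hb : b ≤ n) {x : F} :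
    Sm (rev n r) a b x ↔ Sm r (n - b) (n - a) x := by
  refine ⟨fun s c hc d hd => ?_, fun s c hc d hd => ?_⟩
  · have := hc.1; have := hc.2; have := hd.1; have := hd.2
    have k := s (n - 1 - c) ⟨by omega, by omega⟩ (n - 1 - d) ⟨by omega, by omega⟩
    rwa [h.eqv_rev, rev_lt (by omega), rev_lt (by omega), show n - 1 - (n - 1 - c) = c by omega,
      show n - 1 - (n - 1 - d) = d by omega] at k
  · have := hc.1; have := hc.2; have := hd.1; have := hd.2
    rw [h.eqv_rev, rev_lt (by omega), rev_lt (by omega)]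
    exact s _ ⟨by omega, by omega⟩ _ ⟨by omega, by omega⟩

lemma T3_rev (t : T3 n r) : T3 n (rev n r) := fun x α β => by
  by_cases k1 : β ≤ α + 2
  · exact Or.inr (Or.inl (sm_empty (by omega)))
  by_cases k2 : n - 1 ≤ β + 2
  · exact Or.inr (Or.inr (sm_empty (by omega)))
  rw [h.sm_rev (by omega), h.sm_rev (by omega), h.sm_rev (by omega)]
  rcases t x (n - (β + 2)) (n - (α + 2)) with k | k | k
  · exact Or.inr (Or.inr (by rwa [show n - (n - 1) = 1 by omega]))
  · exact Or.inr (Or.inl (by rwa [show n - (β + 2) + 2 = n - β by omega] at k))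
  · exact Or.inl (by rwa [show n - (α + 2) + 2 = n - α by omega] at k)

lemma WA_rev (w : WA n r) : WA n (rev n r) := fun x a b c h1 h2 h3 s c1 c2 => by
  rw [h.sm_rev (by omega)] at s
  rw [h.wl_rev (by omega)]
  exact w x _ _ _ (by omega) (by omega) (by omega) s (by omega) (by omega)

lemma B8_rev (b : B8 n r) : B8 n (rev n r) := ⟨b.big, h.T3_rev b.t3, h.WA_rev b.wa⟩

lemma Dich_rev {a b : ℕ} (hab : a ≤ b) (hb : b ≤ n) {x : F} (d : Dich r a b x) :
    Dich (rev n r) (n - b) (n - a) x := fun y j hy => by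
  rw [rch_rev (by omega), show n - (n - a) = a by omega, show n - (n - b) = b by omega] at hy
  by_cases k1 : j ≤ n - b + 1
  · exact Or.inl (sm_empty (by omega))
  by_cases k2 : n - a - 1 ≤ j + 2
  · exact Or.inr (sm_empty (by omega))
  rw [h.sm_rev (by omega), h.sm_rev (by omega)]
  rcases d y (n - (j + 2)) hy with k | k
  · exact Or.inr (by rwa [show n - (n - a - 1) = a + 1 by omega])
  · exact Or.inl (by
      rwa [show n - (n - b + 1) = b - 1 by omega, show n - j = n - (j + 2) + 2 by omega])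

lemma Tk_rev {a b i : ℕ} (hb : b ≤ n) (hi : i ≤ n) {x : F} (t : Tk r a b x i) :
    Tk (rev n r) (n - b) (n - a) x (n - i) := fun c c1 c2 => by
  rw [h.wl_rev (by omega), t _ (by omega) (by omega)]
  omega

lemma Tk_rev' {a b i : ℕ} (hab : a ≤ b) (hb : b ≤ n) (hi : i ≤ n) {x : F}
    (t : Tk (rev n r) (n - b) (n - a) x i) : Tk r a b x (n - i) := by
  have := h.mirror.Tk_rev (by omega) hi t
  rwa [h.rev_rev, show n - (n - a) = a by omega, show n - (n - b) = b by omega] at this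

lemma per_own (l : ℕ) (x : F) : per r l (r l (r (l + 1) x)) = per r l x := by
  rw [h.per_step (by omega) (by omega), h.per_step (by omega) (by omega)]

lemma Lg_rev {lam mu lo hi : ℕ} {Q : F → ℕ → Prop} (H : Lg r lam mu lo hi Q) (h2 : hi ≤ n) :
    Lg (rev n r) (n - mu) (n - lam) (n - hi) (n - lo) (mP n Q) where
  rng x i q := by have := H.rng _ _ q.2; have := q.1; omega
  wl x i c q c1 c2 c3 c4 := by
    have := q.1
    rw [h.wl_rev (by omega)]
    exact H.wl _ _ _ q.2 (by omega) (by omega) (by omega) (by omega)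
  mv x i q k := by
    rw [h.wl_rev (by omega)]
    exact H.mv' _ _ (by rw [show n - 1 - i + 1 = n - i by omega]; exact q.2) (by omega)
  mv' x i q k := by
    have := q.1
    rw [h.wl_rev (by omega)]
    exact H.mv _ _ (by rw [show n - 1 - i = n - (i + 1) by omega]; exact q.2) (by omega)
  up x i q k := by
    refine ⟨by omega, ?_⟩
    rw [rev_lt (by omega), show n - (i + 1) = n - 1 - i by omega]
    exact H.dn _ _ (by rw [show n - 1 - i + 1 = n - i by omega]; exact q.2) (by omega)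
  dn x i q k := by
    have := q.1
    refine ⟨by omega, ?_⟩
    rw [rev_lt (by omega), show n - i = n - 1 - i + 1 by omega]
    exact H.up _ _ (by rw [show n - 1 - i = n - (i + 1) by omega]; exact q.2) (by omega)
  str x i q k := by
    have k1 := H.rng _ _ q.2
    rw [h.per_rev (by omega), ← h.per_own]
    refine H.str _ _ (H.dn _ _ (H.dn _ _ ?_ (by omega)) (by omega)) (by omega)
    rw [show n - 2 - i + 1 + 1 = n - i by omega]
    exact q.2

lemma cnt_rev (S : F → Prop) : cnt (rev n r) S = cnt r S := by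
  have : tySetoid (rev n r) = tySetoid r := Setoid.ext fun _ _ => h.eqv_rev
  exact congrArg (fun s : Setoid F => ((fun x => Quotient.mk s x) '' {x | S x}).ncard) this

lemma walls_rev (x0 : F) : Walls (rev n r) 0 n x0 = Walls r 0 n x0 := by
  have key : ∀ {φ' : ℕ → F → L} {r : ℕ → Perm F}, PS n r φ' →
      Walls (rev n r) 0 n x0 ⊆ Walls r 0 n x0 := by
    rintro φ' r h _ ⟨x, c, hx, hc, hw, rfl⟩
    have := hc.2
    have hx' := h.InD_rev le_rfl hx
    rw [Nat.sub_self, Nat.sub_zero] at hx'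
    rw [h.wl_rev this] at hw
    rw [h.rf_rev this]
    exact wall_mem hx' ⟨by omega, by omega⟩ hw
  refine (key h).antisymm ?_
  rintro _ ⟨x, c, hx, hc, hw, rfl⟩
  have := hc.2
  have hx' : InD (rev n r) 0 n x0 x := by
    have := h.mirror.InD_rev (a := 0) le_rfl (x := x0) (y := x) (by rwa [h.rev_rev])
    rwa [Nat.sub_self, Nat.sub_zero] at this
  have e : c = n - 1 - (n - 1 - c) := by omega
  rw [e, ← h.rf_rev (by omega)]
  exact wall_mem hx' ⟨by omega, by omega⟩ (by rwa [h.wl_rev (by omega), ← e])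

lemma InD_rev' {a b : ℕ} (hb : b ≤ n) {x y : F} (hd : InD r a b x y) :
    InD (rev n r) (n - b) (n - a) x y :=
  h.mirror.InD_rev hb (by rwa [h.rev_rev])

lemma GS_rev {A : ℕ} {G : F → ℕ → ℕ → Prop} (H : GS n r A G) : GS n (rev n r) A (mG n G) where
  rng x i j q := by have := H.rng _ _ _ q.2.2; have := q.1; have := q.2.1; omega
  eqv x y i j q e := ⟨q.1, q.2.1, H.eqv _ _ _ _ q.2.2 (h.eqv_rev.1 e)⟩
  wl x i j c q c1 c2 c3 c4 c5 c6 := by
    have := q.1; have := q.2.1
    rw [h.wl_rev (by omega)]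
    exact H.wl _ _ _ _ q.2.2 (by omega) (by omega) (by omega) (by omega) (by omega) (by omega)
  m1 x i j q := by
    have := q.1
    rw [h.wl_rev (by omega), show n - 1 - i = n - (i + 1) by omega]
    exact H.m4 _ _ _ q.2.2
  m2 x i j q k := by
    have := q.2.1
    rw [h.wl_rev (by omega)]
    exact H.m3 _ (n - j) _ (by rw [show n - 1 - i + 1 = n - i by omega]; exact q.2.2) (by omega)
  m3 x i j q k := by
    have := q.2.1
    rw [h.wl_rev (by omega), show n - 1 - j = n - (j + 1) by omega]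
    exact H.m2 _ _ _ q.2.2 (by omega)
  m4 x i j q := by
    have := H.rng _ _ _ q.2.2
    rw [h.wl_rev (by omega)]
    exact H.m1 _ _ (n - i) (by rw [show n - 1 - j + 1 = n - j by omega]; exact q.2.2)
  u1 x i j q k k' := by
    have := q.2.1
    refine ⟨by omega, this, ?_⟩
    rw [rev_lt (by omega), show n - (i + 1) = n - 1 - i by omega]
    exact H.d2 _ _ _ (by rw [show n - 1 - i + 1 = n - i by omega]; exact q.2.2) (by omega)
      (by omega)
  d1 x i j q k := by
    have := q.1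
    refine ⟨by omega, q.2.1, ?_⟩
    rw [rev_lt (by omega), show n - i = n - 1 - i + 1 by omega]
    exact H.u2 _ _ _ (by rw [show n - 1 - i = n - (i + 1) by omega]; exact q.2.2) (by omega)
  u2 x i j q k := by
    refine ⟨q.1, by omega, ?_⟩
    rw [rev_lt (by omega), show n - (j + 1) = n - 1 - j by omega]
    exact H.d1 _ _ _ (by rw [show n - 1 - j + 1 = n - j by omega]; exact q.2.2) (by omega)
  d2 x i j q k k' := by
    have := q.2.1
    refine ⟨q.1, by omega, ?_⟩
    rw [rev_lt (by omega), show n - j = n - 1 - j + 1 by omega]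
    exact H.u1 _ _ _ (by rw [show n - 1 - j = n - (j + 1) by omega]; exact q.2.2) (by omega)
      (by omega)
  p1 x i j q k k' := by
    have k1 := H.rng _ _ _ q.2.2
    have := q.2.1
    rw [h.per_rev (by omega), ← h.per_own]
    refine H.p2 _ (n - j) _ (H.d2 _ _ _ (H.d2 _ _ _ ?_ (by omega) (by omega)) (by omega)
      (by omega)) (by omega)
    rw [show n - 2 - i + 1 + 1 = n - i by omega]
    exact q.2.2
  p2 x i j q k := by
    have k1 := H.rng _ _ _ q.2.2
    have := q.1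
    rw [h.per_rev (by omega), ← h.per_own]
    refine H.p1 _ _ (n - i) (H.d1 _ _ _ (H.d1 _ _ _ ?_ (by omega)) (by omega)) (by omega)
      (by omega)
    rw [show n - 2 - j + 1 + 1 = n - j by omega]
    exact q.2.2
  num i j i1 i2 j1 j2 k := by
    rw [h.cnt_rev, ← H.num (n - j) (n - i) (by omega) (by omega) (by omega) (by omega) (by omega)]
    exact cnt_congr fun x => ⟨fun q => q.2.2, fun q => ⟨by omega, by omega, q⟩⟩
  far x c c' w w' c1 c2 c3 c4 := by
    rw [h.wl_rev (by omega)] at w w'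
    exact H.inG_rev.2 (H.far' x _ _ w' w (by omega) (by omega) (by omega) (by omega))
  far' x c c' w w' c1 c2 c3 c4 := by
    rw [h.wl_rev (by omega)] at w w'
    exact H.inG_rev.2 (H.far x _ _ w' w (by omega) (by omega) (by omega) (by omega))

lemma T1_rev {A : ℕ} {G : F → ℕ → ℕ → Prop} (H : GS n r A G) (hn : 26 ≤ n) {x : F} {i : ℕ} :
    R.T1 n (rev n r) (mG n G) x i ↔ mP n (R.T1 n r G) x i := by
  refine ⟨fun ⟨k1, k2, k3, k4⟩ => ⟨by omega, fun q => k1 (H.inG_rev.2 q), by omega, by omega, ?_⟩,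
    fun ⟨k0, k1, k2, k3, k4⟩ => ⟨fun q => k1 (H.inG_rev.1 q), by omega, by omega, ?_⟩⟩
  · exact h.Tk_rev' (by omega) (by omega) (by omega)
      (by rwa [show n - (n - 13) = 13 by omega])
  · have := h.Tk_rev (by omega) (by omega) k4
    rwa [show n - (n - 13) = 13 by omega, show n - (n - i) = i by omega] at this

lemma CV_rev {A : ℕ} {G : F → ℕ → ℕ → Prop} (H : GS n r A G) (hn : 36 ≤ n) (V : CV n r G) :
    CV n (rev n r) (mG n G) where
  rc x c k c1 c2 := by
    rw [rev_lt (by omega)]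
    exact H.inG_rev.2 (V.rc x _ (H.inG_rev.1 k) (by omega) (by omega))
  leg := by
    have := h.Lg_rev V.leg (by omega)
    rw [show n - (n - 14) = 14 by omega, show n - (n - 18) = 18 by omega] at this
    exact this.congr fun x i => h.T1_rev H (by omega)
  cov x c k c1 c2 w := by
    rw [h.wl_rev (by omega)] at w
    rw [h.T1_rev H (by omega), h.T1_rev H (by omega)]
    rcases V.cov x _ (fun q => k (H.inG_rev.2 q)) (by omega) (by omega) w with q | q
    · exact Or.inr ⟨by omega, by rwa [show n - (c + 1) = n - 1 - c by omega]⟩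
    · exact Or.inl ⟨by omega, by rwa [show n - c = n - 1 - c + 1 by omega]⟩

lemma Q0_rev {A : ℕ} {G : F → ℕ → ℕ → Prop} (H : GS n r A G) (hn : 26 ≤ n) {x : F} {i : ℕ} :
    Q0 n (rev n r) (mG n G) x i ↔ mP n (Q0 n r G) x i := by
  unfold Q0 mP
  rw [h.T1_rev H hn, h.wl_rev (by omega), h.wl_rev (by omega), rev_lt (by omega),
    rev_lt (by omega), show n - 1 - (n - 1) = 0 by omega, show n - 1 - (n - 2) = 1 by omega,
    show n - 1 - 1 = n - 2 by omega, Nat.sub_zero]
  refine ⟨fun ⟨k1, k2, k3, k4⟩ => ⟨k1.1, k1.2, fun c c1 c2 c3 c4 => ?_, k4, k3⟩,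
    fun ⟨k0, k1, k2, k3, k4⟩ => ⟨⟨k0, k1⟩, fun c c1 c2 c3 c4 => ?_, k4, k3⟩⟩
  · have := k1.1
    have k := k2 (n - 1 - c) (by omega) (by omega) (by omega) (by omega)
    rwa [h.wl_rev (by omega), show n - 1 - (n - 1 - c) = c by omega] at k
  · rw [h.wl_rev (by omega)]
    exact k2 _ (by omega) (by omega) (by omega) (by omega)

lemma RH_rev {P : F → ℕ → Prop} (H : RH n r P) : RH n (rev n r) (mP n P) where
  big := H.big
  leg := by
    have := H.big
    have := h.Lg_rev H.leg (by omega)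
    rwa [show n - (n - 1) = 1 by omega, show n - (n - 3) = 3 by omega] at this
  eqv x y i q e := ⟨q.1, H.eqv _ _ _ q.2 (h.eqv_rev.1 e)⟩
  z0 x i q := by
    have := H.big
    rw [rev_lt (by omega)]
    exact ⟨q.1, H.z1 _ _ q.2⟩
  z1 x i q := by
    have := H.big
    rw [rev_lt (by omega), Nat.sub_self]
    exact ⟨q.1, H.z0 _ _ q.2⟩

/-- the orbit of a good lower end consists of good lower ends and their chains -/
lemma jn_orb {P : F → ℕ → Prop} (H : RH n r P) (J : JN r P) {x y : F} (p : P x 3)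
    (g : R.Gd r P x) (k : Rch r (Ico 0 3) x y) :
    ∃ x' j, P x' 3 ∧ R.Gd r P x' ∧ Wt r x' j ∧ Eqv r y (mov r 3 (3 - j) x') := by
  refine k.ind (fun c _ => h.inv c)
    (P := fun y => ∃ x' j, P x' 3 ∧ R.Gd r P x' ∧ Wt r x' j ∧ Eqv r y (mov r 3 (3 - j) x'))
    ⟨x, 0, p, g, ⟨by omega, by omega, by omega, by omega⟩, by rw [mov_self]; exact Eqv.refl x⟩ ?_
  rintro y c hc - ⟨x', j, p', g', w, e⟩
  obtain ⟨x'', j', q, w', e'⟩ := J.cl x' j c p' g' w hc.2
  refine ⟨x'', j', ?_, ?_, w', (e.step c).trans e'⟩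
  · rcases q with rfl | rfl | rfl
    exacts [p', (J.inv _ p' g').1, H.z0 _ _ p']
  · rcases q with rfl | rfl | rfl
    exacts [g', g'.orb (J.inv _ p' g').2.2.2.toRch,
      g'.orb (Rch.step (I := Ico 0 3) (c := 0) ⟨le_rfl, by omega⟩ _)]

end PS

end Pool.Agent.FlagOrb
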