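import Pool.Agent.Lib.MP_7157e1_co.RKitC

/-! Cubic range: the pure tokens in the central window. -/

namespace Pool.Agent.FlagOrb.R

open Equiv Set Q

namespace H0

variable {F L : Type} [Lattice L] {n : ℕ} {r : ℕ → Perm F} {φ : ℕ → F → L} {A : ℕ}
  {G : F → ℕ → ℕ → Prop}

/-- the two side conditions pass along middle colours -/
lemma side (h : PS n r φ) {x y : F} (k : Rch r (Ico 3 (n - 3)) x y) (a : Wl r (r 0 x) 1)
    (b : Wl r (r (n - 1) x) (n - 2)) : Wl r (r 0 y) 1 ∧ Wl r (r (n - 1) y) (n - 2) := by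
  constructor
  · have k' : Rch r (Ico 3 (n - 3)) (r 0 x) (r 0 y) :=
      k.map fun c hc => h.comm 0 c (by have := hc.1; omega)
    exact (h.wl_rch k' fun c hc => by have := hc.1; omega).2 a
  · have k' : Rch r (Ico 3 (n - 3)) (r (n - 1) x) (r (n - 1) y) :=
      k.map fun c hc => (h.comm c (n - 1) (by have := hc.2; omega)).symm
    exact (h.wl_rch k' fun c hc => by have := hc.2; omega).2 b

lemma step (h : PS n r φ) (V : CV n r G) {x : F} {i j c : ℕ} (q : Q0 n r G x i)
    (t : T1 n r G (r c x) j) (c1 : 18 ≤ c) (c2 : c + 19 ≤ n) : Q0 n r G (r c x) j := by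
  have i1 := q.1.2.1
  have i2 := q.1.2.2.1
  refine ⟨t, fun d d1 d2 d3 d4 => ?_,
    side h (Rch.step (mem_Ico.2 ⟨by omega, by omega⟩) x) q.2.2.1 q.2.2.2⟩
  by_cases k : 14 ≤ d ∧ d < n - 14
  · exact V.leg.wl _ j d t k.1 k.2 d3 d4
  · exact (h.wl_far (by omega) (by omega)).2 (q.2.1 d d1 d2 (by omega) (by omega))

lemma leg (h : PS n r φ) (V : CV n r G) : Lg r 1 (n - 1) 18 (n - 18) (Q0 n r G) where
  rng x i q := V.leg.rng x i q.1
  wl x i c q c1 c2 := q.2.1 c c1 (by omega)
  mv x i q := V.leg.mv x i q.1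
  mv' x i q := V.leg.mv' x i q.1
  up x i q k := step h V q (V.leg.up x i q.1 k) q.1.2.1 (by omega)
  dn x i q k := step h V q (V.leg.dn x i q.1 k) k (by have := q.1.2.2.1; omega)
  str x i q := V.leg.str x i q.1

lemma zero (h : PS n r φ) (H : GS n r A G) (hn : 110 ≤ n) {x : F} (q : Q0 n r G x 18) :
    Q0 n r G (r 0 x) 18 := by
  have w : ∀ c, 1 ≤ c → c + 2 ≤ n → c ≠ 18 → c + 1 ≠ 18 → Wl r (r 0 x) c := by
    intro c c1 c2 c3 c4
    by_cases k : c = 1
    · rw [k]; exact q.2.2.1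
    · exact (h.wl_far (by omega) (by omega)).2 (q.2.1 c c1 c2 c3 c4)
  refine ⟨⟨?_, le_rfl, by omega, fun c c1 c2 => ?_⟩, w, ?_, ?_⟩
  · rintro ⟨i, j, g⟩
    obtain ⟨a1, a2, a3, a4, a5⟩ := H.rng _ i j g
    obtain ⟨i, rfl⟩ : ∃ k, i = k + 1 := ⟨i - 1, by omega⟩
    by_cases k : i = 17 ∨ i = 18
    · exact H.m4 _ _ _ g (w j (by omega) (by omega) (by omega) (by omega))
    · exact H.m1 _ _ _ g (w i (by omega) (by omega) (by omega) (by omega))
  · rw [h.wl_far (by omega) (by omega)]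
    exact q.1.2.2.2 c c1 c2
  · rw [h.rr]
    exact q.2.1 1 le_rfl (by omega) (by omega) (by omega)
  · rw [← h.capp (c := 0) (c' := n - 1) (by omega), h.wl_far (by omega) (by omega)]
    exact q.2.2.2

variable [Finite F]

lemma claim (hKD : St_KD) (h : PS n r φ) (H : GS n r A G) (V : CV n r G) (hn : 110 ≤ n) {x g : F}
    (q : Q0 n r G x 18) (k : InD r 2 (n - 17) x g) : ¬ InG G g := by
  rintro ⟨i, j, hg⟩
  obtain ⟨a1, a2, a3, a4, a5⟩ := H.rng _ i j hg
  have far : ∀ c, n ≤ c + 16 → ∀ c' ∈ Ico 2 (n - 17), c ≠ c' + 1 ∧ c' ≠ c + 1 :=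
    fun c hc c' hc' => by have := hc'.2; omega
  have j1 : j + 17 ≤ n := by
    by_contra b
    exact H.m4 _ _ _ hg ((h.wl_rch k.toRch (far j (by omega))).2
      (q.2.1 j (by omega) (by omega) (by omega) (by omega)))
  have p : IsPath (Walls r 0 n x) (fun j => lg r x (17 + 1) (1 + j)) (n - 1 - 2 - 1) :=
    h.lg_path (leg h V) (InD.refl x) q (by omega) (by omega) (by omega) (by omega) (by omega)
      (by omega) (fun c _ _ => by omega) fun c _ _ => by omega
  have hi : ∀ c, n ≤ c + 16 → c + 2 ≤ n → rf r g c = lg r x (17 + 1) (1 + (c - 2)) := by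
    intro c c1 c2
    rw [lg_hi (by omega), h.rf_rch (q.2.1 c (by omega) c2 (by omega) (by omega)) k.toRch (far c c1)]
    exact congrArg _ (by omega)
  obtain ⟨g', r1, w1, e1⟩ := hKD h A G H x g i j (fun j => lg r x (17 + 1) (1 + j))
    (k.mono (by omega) (by omega)) hg j1 (p.le (by omega))
    ((hi (n - 3) (by omega) (by omega)).trans (congrArg _ (by omega)))
    ((hi (n - 4) (by omega) (by omega)).trans (congrArg _ (by omega)))
  have r2 : Rch r (Ici 2) g' x := ((k.toRch.mono fun c hc => hc.1).trans r1).symm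
  refine h.rf_sep r2 (e := 1) (c := 2) (by simp) (by simp) w1
    (q.2.1 2 (by omega) (by omega) (by omega) (by omega)) (by omega) (e1.trans ?_)
  exact lg_lo (by omega)

end H0

theorem stH0 (hPUSH : St_PUSH) (hKD : St_KD) : St_H0 := by
  intro F L _ _ n r φ h A G H V hn
  refine ⟨H0.leg h V, fun x q => H0.zero h H hn q, fun x y q k m18 hw => ?_⟩
  have t : T1 n r G y 18 := by
    refine (V.cov y 18 (H0.claim hKD h H V hn q (k.mono (by omega) (by omega))) le_rfl
      (by omega) m18).resolve_right fun t => ?_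
    exact (t.2.2.2 19 (by omega) (by omega)).2 (Or.inr rfl) (hw 19 (by omega) (by omega))
  have w1 : Wl r y 1 := (h.wl_rch k.toRch fun c hc => by have := hc.1; omega).2
    (q.2.1 1 le_rfl (by omega) (by omega) (by omega))
  refine ⟨t, fun c c1 c2 c3 c4 => ?_, H0.side h (k.toRch.mono (Ico_subset_Ico le_rfl (by omega)))
    q.2.2.1 q.2.2.2⟩
  by_cases b1 : 18 < c
  · exact hw c b1 (by omega)
  by_cases b2 : 14 ≤ c
  · exact V.leg.wl y 18 c t b2 (by omega) c3 c4
  by_contra mc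
  obtain ⟨t1, k1⟩ := h.lg_norm V.leg t (j := n - 18) (by omega) le_rfl
  have k2 : InD r 2 (n - 17) x (mov r 18 (n - 18) y) :=
    (k.mono (by omega) (by omega)).trans (k1.mono (by omega) (by omega))
  have v1 : Wl r (mov r 18 (n - 18) y) 1 := (h.wl_mov (by omega) y).2 w1
  have mc1 : ¬ Wl r (mov r 18 (n - 18) y) c := by rwa [h.wl_mov (by omega)]
  have top : ¬ Wl r (mov r 18 (n - 18) y) (n - 18) :=
    (t1.2.2.2 (n - 18) (by omega) (by omega)).2 (Or.inr rfl)
  generalize mov r 18 (n - 18) y = y1 at t1 k2 v1 mc1 top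
  obtain ⟨e, e1, e2, me, we⟩ := exists_top (b := 14) (by omega) mc1
  have e3 : 2 ≤ e := by
    by_contra b
    obtain rfl : e = 1 := by omega
    exact me v1
  have fin : ∀ z, InD r 2 (n - 17) x z → ¬ Wl r z (n - 18) → ¬ Pu r z e 13 := by
    intro z hz mz pz
    refine H0.claim hKD h H V hn q
      (hz.trans ((h.pu_inD pz (t := 13) (by omega) le_rfl).mono e3 (by omega))) ?_
    exact H.far _ 13 (n - 18) (pz 13 (by omega) le_rfl) (by rwa [h.wl_mov (by omega)])
      (by omega) (by omega) (by omega) (by omega)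
  rcases (hPUSH h y1 e 13 (n - 19) (by omega) (by omega) (by omega) (by omega) me
    fun d d1 d2 => if b : d < 14 then we d d1 b else
      V.leg.wl y1 (n - 18) d t1 (by omega) (by omega) (by omega) (by omega)).1 with p | ⟨m, p⟩
  · exact fin y1 k2 top p
  · have e4 : 2 ≤ e - 1 := by
      by_contra b
      have : e - 1 = 1 := by omega
      exact m (by rw [this]; exact v1)
    exact fin _ (k2.next ⟨e4, by omega⟩ m) (by rwa [h.wl_far (by omega) (by omega)]) p

end Pool.Agent.FlagOrb.R
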