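import Pool.Agent.Lib.MP_7157e1_co.RKitC

/-! Cubic range: the number of the remaining types of flags. -/

namespace Pool.Agent.FlagOrb.R

open Equiv Set Q

namespace OT

variable {F L : Type} [Lattice L] {n : ℕ} {r : ℕ → Perm F} {φ : ℕ → F → L}
  {P : F → ℕ → Prop} {A : ℕ} {G : F → ℕ → ℕ → Prop}

lemma chn_hi (h : PS n r φ) (H : RH n r P) {y : F} (k : Chn r P y) : Chn r P (r (n - 1) y) := by
  have hn := H.big
  obtain ⟨x, j, p, g, j1, w, e⟩ := k
  have k : ∀ c ≤ 3, ∀ y, r c (r (n - 1) y) = r (n - 1) (r c y) :=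
    fun c hc y => h.capp (by omega) y
  have v : ∀ c ≤ 3, ∀ y, Wl r (r (n - 1) y) c ↔ Wl r y c :=
    fun c hc y => h.wl_far (by omega) (by omega)
  refine ⟨r (n - 1) x, j, H.z1 _ _ p, fun z hz m => ?_, j1, ?_, ?_⟩
  · have hz' := hz.map (g := r (n - 1))
      (fun c hc => (h.comm c (n - 1) (by have := hc.2; omega)).symm)
    rw [h.rr] at hz'
    have := H.z1 _ _ (g _ hz' (by rwa [v 3 le_rfl]))
    rwa [h.rr] at this
  · unfold Wt at w ⊢
    simpa only [k 2 (by omega), k 1 (by omega), k 0 (by omega), v 2 (by omega), v 1 (by omega),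
      v 0 (by omega)] using w
  · rw [← h.cap_mov (Or.inr ⟨by omega, by omega⟩)]
    exact e.step _

lemma chn_lo [Finite F] (h : PS n r φ) (H : RH n r P) (J : JN r P) {y : F} (k : Chn r P y) :
    P (r 0 y) 3 ∨ Chn r P (r 0 y) := by
  obtain ⟨x, j, p, g, -, -, e⟩ := k
  obtain ⟨x', j', p', g', w', e'⟩ := h.jn_orb H J p g
    ((h.mov_rch (a := 0) (b := 3) (i := 3) (j := 3 - j) (by omega) le_rfl (by omega) (by omega)
      x).next (c := 0) ⟨le_rfl, by omega⟩)
  have e2 := (e.step 0).trans e'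
  rcases Nat.eq_zero_or_pos j' with rfl | q
  · rw [h.mov30] at e2
    exact Or.inl (H.eqv _ _ _ p' e2.symm)
  · exact Or.inr ⟨x', j', p', g', q, w', e2⟩

lemma cov0 [Finite F] (h : PS n r φ) (H : RH n r P) (J : JN r P) {y : F} (k : Cov n r P y) :
    Cov n r P (r 0 y) := by
  have hn := H.big
  rcases k with ⟨i, k⟩ | k | k
  · exact Or.inl ⟨i, H.z0 _ _ k⟩
  · rcases chn_lo h H J k with k | k
    exacts [Or.inl ⟨_, k⟩, Or.inr (Or.inl k)]
  · have := chn_hi h.mirror (h.RH_rev H) k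
    rw [rev_lt (by omega), Nat.sub_self] at this
    exact Or.inr (Or.inr this)

lemma cov1 [Finite F] (h : PS n r φ) (H : RH n r P) (J : JN (rev n r) (mP n P)) {y : F}
    (k : Cov n r P y) : Cov n r P (r (n - 1) y) := by
  have hn := H.big
  rcases k with ⟨i, k⟩ | k | k
  · exact Or.inl ⟨i, H.z1 _ _ k⟩
  · exact Or.inr (Or.inl (chn_hi h H k))
  · have := chn_lo h.mirror (h.RH_rev H) J k
    rw [rev_lt (by omega), Nat.sub_zero] at this
    rcases this with k | k
    exacts [Or.inl ⟨_, k.2⟩, Or.inr (Or.inr k)]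

lemma oth_rev (h : PS n r φ) (S : GS n r A G) (H : RH n r P) (hn : 110 ≤ n) {y : F}
    (k : Oth n r G P y) : Oth n (rev n r) (mG n G) (mP n P) y := by
  have hP : ∀ x i, P x i → i ≤ n := fun x i p => by
    have := H.leg.rng x i p
    omega
  refine ⟨fun a => k.1 (S.inG_rev.1 a), fun c c1 c2 => ?_, fun a => k.2.2 ?_⟩
  · rw [h.wl_rev (by omega)]
    exact k.2.1 _ (by omega) (by omega)
  · rcases a with ⟨i, a⟩ | a | a
    · exact Or.inl ⟨_, a.2⟩
    · exact Or.inr (Or.inr a)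
    · rw [h.rev_rev, mP_mP hP] at a
      exact Or.inr (Or.inl a)

/-- a flag with inner walls has a neighbour with a moving inner colour -/
lemma nbr (h : PS n r φ) (S : GS n r A G) (hn : 110 ≤ n) (hg : ∃ g, InG G g) {y : F}
    (w : ∀ c, 1 ≤ c → c + 2 ≤ n → Wl r y c) :
    ∃ z c, (z = r 0 y ∨ z = r (n - 1) y ∨ z = r 0 (r (n - 1) y)) ∧ 1 ≤ c ∧ c + 2 ≤ n ∧
      ¬ Wl r z c := by
  by_contra a
  have a' : ∀ z, (z = y ∨ z = r 0 y ∨ z = r (n - 1) y ∨ z = r 0 (r (n - 1) y)) →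
      ∀ c, 1 ≤ c → c + 2 ≤ n → Wl r z c := by
    intro z hz c c1 c2
    rcases hz with rfl | hz
    · exact w c c1 c2
    · by_contra m
      exact a ⟨z, c, hz, c1, c2, m⟩
  obtain ⟨g, i, j, k⟩ := hg
  have k' := S.rng _ _ _ k
  have q : ∃ z, (z = y ∨ z = r 0 y ∨ z = r (n - 1) y ∨ z = r 0 (r (n - 1) y)) ∧ Eqv r z g := by
    refine (h.all y g).ind (fun c _ => h.inv c) (P := fun g => ∃ z,
      (z = y ∨ z = r 0 y ∨ z = r (n - 1) y ∨ z = r 0 (r (n - 1) y)) ∧ Eqv r z g)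
      ⟨y, Or.inl rfl, Eqv.refl y⟩ ?_
    rintro u c hc - ⟨z, hz, e⟩
    have cm : ∀ x, r (n - 1) (r 0 x) = r 0 (r (n - 1) x) := fun x => (h.capp (by omega) x).symm
    by_cases c0 : c = 0
    · subst c0
      refine ⟨r 0 z, ?_, e.step 0⟩
      rcases hz with rfl | rfl | rfl | rfl <;> simp only [h.rr, true_or, or_true]
    · by_cases c1 : c = n - 1
      · subst c1
        refine ⟨r (n - 1) z, ?_, e.step _⟩
        rcases hz with rfl | rfl | rfl | rfl <;> simp only [cm, h.rr, true_or, or_true]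
      · exact ⟨z, hz, e.trans ((a' z hz c (by omega) (by have := hc.2; omega)).eqv e)⟩
  obtain ⟨z, hz, e⟩ := q
  exact S.m4 _ _ _ k ((a' z hz j (by omega) (by omega)).eqv e)

/-- the classes bounded by the one-sided count -/
def Cl (n : ℕ) (r : ℕ → Perm F) (G : F → ℕ → ℕ → Prop) (P : F → ℕ → Prop) (E : ℕ) (y : F) :
    Prop :=
  Oth n r G P y ∧ ∃ e, 1 ≤ e ∧ e ≤ E ∧ ¬ Wl r y e ∧ ∀ c, e < c → c < 18 → Wl r y c

lemma cl_of {y : F} (k : Oth n r G P y) {c : ℕ} (c1 : 1 ≤ c) (c2 : c < 18) (m : ¬ Wl r y c) :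
    Cl n r G P 17 y := by
  obtain ⟨e, e1, e2, e3, e4⟩ := exists_top c2 m
  exact ⟨k, e, by omega, by omega, e3, e4⟩

lemma rest [Finite F] (h : PS n r φ) (S : GS n r A G) (H : RH n r P) (J : JN r P)
    (J' : JN (rev n r) (mP n P)) (hn : 110 ≤ n) (hg : ∃ g, InG G g) {y : F} (k : Oth n r G P y)
    (w : ∀ c, 1 ≤ c → c + 2 ≤ n → Wl r y c) :
    ∃ z, (z = r 0 y ∨ z = r (n - 1) y ∨ z = r 0 (r (n - 1) y)) ∧
      (Cl n r G P 1 z ∨ Cl n (rev n r) (mG n G) (mP n P) 1 z) := by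
  obtain ⟨z, c, hz, c1, c2, m⟩ := nbr h S hn hg w
  have w' : ∀ c, 2 ≤ c → c + 3 ≤ n → Wl r z c := by
    intro d d1 d2
    have a := w d (by omega) (by omega)
    rcases hz with rfl | rfl | rfl
    · exact (h.wl_far (by omega) (by omega)).2 a
    · exact (h.wl_far (by omega) (by omega)).2 a
    · exact (h.wl_far (by omega) (by omega)).2 ((h.wl_far (by omega) (by omega)).2 a)
  have o : Oth n r G P z := by
    refine ⟨?_, fun d d1 d2 => w' d (by omega) (by omega), fun a => k.2.2 ?_⟩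
    · rintro ⟨i, j, g⟩
      have := S.rng _ _ _ g
      exact S.m4 _ _ _ g (w' j (by omega) (by omega))
    · rcases hz with rfl | rfl | rfl
      · simpa only [h.rr] using cov0 h H J a
      · simpa only [h.rr] using cov1 h H J' a
      · have a1 := cov0 h H J a
        rw [h.rr] at a1
        have a2 := cov1 h H J' a1
        rwa [h.rr] at a2
  refine ⟨z, hz, ?_⟩
  by_cases q : c = 1
  · subst q
    exact Or.inl ⟨o, 1, le_rfl, le_rfl, m, fun d d1 d2 => w' d (by omega) (by omega)⟩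
  · have q' : c = n - 1 - 1 := by
      by_contra q'
      exact m (w' c (by omega) (by omega))
    subst q'
    refine Or.inr ⟨oth_rev h S H hn o, 1, le_rfl, le_rfl, by rwa [h.wl_rev (by omega)],
      fun d d1 d2 => ?_⟩
    rw [h.wl_rev (by omega)]
    exact w' _ (by omega) (by omega)

end OT

theorem stOT (hO1 : St_O1) : St_OT := by
  intro F L _ _ n r φ h A G P S V hn H J J' b1 b2 hg
  have u1 : ∀ E ≤ 17, cnt r (OT.Cl n r G P E) ≤ 92 * E * A + 3 * cnt r (XL r P) :=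
    hO1 h A G P S V hn H J b1
  have u2 : ∀ E ≤ 17, cnt r (OT.Cl n (rev n r) (mG n G) (mP n P) E) ≤
      92 * E * A + 3 * cnt r (XL (rev n r) (mP n P)) := by
    intro E hE
    rw [← h.cnt_rev, ← h.cnt_rev (XL _ _)]
    refine hO1 h.mirror A _ _ (h.GS_rev S) (h.CV_rev S (by omega) V) hn (h.RH_rev H) J' ?_ E hE
    rw [h.cnt_rev]
    refine le_trans (cnt_mono fun x k => ?_) b2
    exact ⟨((h.T1_rev S (by omega)).1 k.1).2, fun a => k.2 ⟨by omega, a⟩⟩
  have u3 : cnt r (fun y => Oth n r G P y ∧ ∀ c, 1 ≤ c → c + 2 ≤ n → Wl r y c) ≤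
      (Finset.univ : Finset (Fin 3)).card * cnt r
        (fun z => OT.Cl n r G P 1 z ∨ OT.Cl n (rev n r) (mG n G) (mP n P) 1 z) := by
    refine cnt_words _ ![r 0, r (n - 1), r 0 * r (n - 1)] (fun i _ => ?_) fun y k => ?_
    · have a := W_gen (t := r) (mem_univ 0)
      have b := W_gen (t := r) (mem_univ (n - 1))
      fin_cases i
      exacts [a, b, mul_mem a b]
    · obtain ⟨z, hz, q⟩ := OT.rest h S H J J' hn hg k.1 k.2
      rcases hz with rfl | rfl | rfl
      exacts [⟨0, Finset.mem_univ _, q⟩, ⟨1, Finset.mem_univ _, q⟩, ⟨2, Finset.mem_univ _, q⟩]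
  have u4 : cnt r (Oth n r G P) ≤ cnt r (fun y => OT.Cl n r G P 17 y ∨
      (OT.Cl n (rev n r) (mG n G) (mP n P) 17 y ∨
        (Oth n r G P y ∧ ∀ c, 1 ≤ c → c + 2 ≤ n → Wl r y c))) := by
    refine cnt_mono fun y k => ?_
    by_cases w : ∀ c, 1 ≤ c → c + 2 ≤ n → Wl r y c
    · exact Or.inr (Or.inr ⟨k, w⟩)
    · simp only [not_forall] at w
      obtain ⟨c, c1, c2, m⟩ := w
      by_cases q : c < 18
      · exact Or.inl (OT.cl_of k c1 q m)
      · have q' : n < c + 19 := by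
          by_contra q'
          exact m (k.2.1 c (by omega) (by omega))
        refine Or.inr (Or.inl (OT.cl_of (OT.oth_rev h S H hn k) (c := n - 1 - c) (by omega)
          (by omega) ?_))
        rwa [h.wl_rev (by omega), show n - 1 - (n - 1 - c) = c by omega]
  have v1 := u4.trans (cnt_or_le.trans (Nat.add_le_add_left cnt_or_le _))
  have v2 := u3.trans (Nat.mul_le_mul_left _ cnt_or_le)
  rw [Finset.card_univ, Fintype.card_fin] at v2
  have a1 := u1 17 le_rfl
  have a2 := u2 17 le_rfl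
  have a3 := u1 1 (by omega)
  have a4 := u2 1 (by omega)
  omega

end Pool.Agent.FlagOrb.R
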