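import Pool.Agent.Lib.MP_7157e1_co.RKitC

/-! Two inactive ends around one active window act in the same way. -/

namespace Pool.Agent.FlagOrb.R

open Equiv Set Q Half

namespace X1

variable {F L : Type} [Lattice L] {n : ℕ} {r : ℕ → Perm F} {φ : ℕ → F → L}

lemma back (h : PS n r φ) {I : Set ℕ} {p q : ℕ} {x y : F} (k : Rch r I x y)
    (hp : ∀ c ∈ I, p ≠ c + 1 ∧ c ≠ p + 1) (hq : ∀ c ∈ I, q ≠ c + 1 ∧ c ≠ q + 1)
    (e : Eqv r (r p y) (r q y)) : Eqv r (r p x) (r q x) := by
  obtain ⟨g, hg, rfl⟩ := k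
  rw [h.capW hg hp, h.capW hg hq] at e
  simpa using e.map (inv_mem hg)

lemma sm_chain {a k : ℕ} {x : F}
    (e : ∀ c, a ≤ c → c + 1 < a + k → Eqv r (r c x) (r (c + 1) x)) : Sm r a (a + k) x := by
  have key : ∀ t, t < k → Eqv r (r a x) (r (a + t) x) := by
    intro t
    induction t with
    | zero => exact fun _ => Eqv.refl _
    | succ t ih => exact fun ht => (ih (by omega)).trans (e (a + t) (by omega) (by omega))
  intro c hc c' hc'
  have a1 := key (c - a) (by have := hc.1; have := hc.2; omega)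
  have a2 := key (c' - a) (by have := hc'.1; have := hc'.2; omega)
  rw [Nat.add_sub_cancel' hc.1] at a1
  rw [Nat.add_sub_cancel' hc'.1] at a2
  exact a1.symm.trans a2

end X1

open X1 in
theorem stX1 (hSG : St_SG) : St_X1 := by
  intro F L _ _ n r φ h p q a b x h1 h2 h3 h4 d ns
  have D : Dich r a b x := fun y j k => (d y j k).imp (fun s => sm_mono s (by omega) le_rfl)
    fun s => sm_mono s le_rfl (by omega)
  obtain ⟨y, hy, ny⟩ := tr h (a := a) (b := b) (s := a + 20) (by omega) (by omega) (by omega) ns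
  obtain ⟨s1, s2, -, -, s5⟩ := hSG h {p, q} (fun y => Rch r (Ico a b) x y) (a + 16) (b - 17)
    (by rintro c (rfl | rfl) <;> omega)
    (by
      rintro c (rfl | rfl) c' (rfl | rfl)
      exacts [Commute.refl _, h.comm _ _ (by omega), (h.comm _ _ (by omega)).symm, Commute.refl _])
    (fun y c k c1 c2 => k.next ⟨by omega, by omega⟩)
    (fun y l k l1 l2 => h.brd (by omega) h4 (D.orb k) l1 (by omega))
    (fun y c c' k c1 c2 c3 => (d y (c + 1) k).imp
      (fun s => ⟨r p, W_gen (Or.inl rfl), s p ⟨le_rfl, by omega⟩ c ⟨by omega, by omega⟩⟩)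
      fun s => ⟨r q, W_gen (Or.inr rfl), s q ⟨by omega, by omega⟩ c' ⟨by omega, by omega⟩⟩) y hy
  refine back h hy (fun c hc => by have := hc.1; omega) (fun c hc => by have := hc.2; omega) ?_
  have e1 := (d y (a + 18) hy).resolve_right fun s => ny (sm_mono s le_rfl (by omega))
  have e2 := (d y (a + 27) hy).resolve_left fun s => ny (sm_mono s (by omega) le_rfl)
  have ex : ∃ c, a + 20 ≤ c ∧ c < a + 27 ∧ ¬ Hj r {p, q} y c := by
    by_contra hc
    push Not at hc
    exact ny (sm_chain fun c c1 c2 => s5 c (by omega) (by omega) (hc c c1 (by omega))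
      (hc (c + 1) (by omega) (by omega)))
  obtain ⟨c, c1, c2, c3⟩ := ex
  have ex : ∃ i, a + 20 ≤ i ∧ i ≤ a + 27 ∧ Tw r {p, q} (a + 16) (b - 17) y i := by
    rcases s1 c (by omega) (by omega) c3 with k | k
    exacts [⟨c, c1, by omega, k⟩, ⟨c + 1, by omega, by omega, k⟩]
  obtain ⟨i, i1, i2, i3⟩ := ex
  exact ((e1 p ⟨le_rfl, by omega⟩ (a + 16) ⟨by omega, by omega⟩).trans
    (s2 i (a + 16) (b - 18) i3 (by omega) le_rfl (by omega) (by omega) (by omega) (by omega)
      (by omega) (by omega) (by omega))).trans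
    (e2 (b - 18) ⟨by omega, by omega⟩ q ⟨by omega, by omega⟩)

end Pool.Agent.FlagOrb.R
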