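import Mathlib

/-! Abstract flag systems: interface between polytope geometry and the group theoretic part. -/

namespace Pool.Agent.Lib.MP_7157e1_co

/-- reachability using colours in `s` -/
def Conn {α : Type} (r : ℕ → α → α) (s : Set ℕ) : α → α → Prop :=
  Relation.ReflTransGen (fun a b => ∃ i ∈ s, r i a = b)

/-- simple connectivity of the `s`-residues, covering form -/
def SC {F : Type} (r : ℕ → F → F) (s : Set ℕ) : Prop :=
  ∀ (Z : Type) (π : Z → F) (t : ℕ → Z → Z),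
    (∀ i ∈ s, ∀ z, t i (t i z) = z) →
    (∀ i ∈ s, ∀ z, π (t i z) = r i (π z)) →
    (∀ i ∈ s, ∀ j ∈ s, i + 2 ≤ j → ∀ z, t i (t j z) = t j (t i z)) →
    (∀ i ∈ s, i + 1 ∈ s → ∀ z m, (r i ∘ r (i + 1))^[m] (π z) = π z → (t i ∘ t (i + 1))^[m] z = z) →
    ∀ z z', Conn t s z z' → π z = π z' → z = z'

/-- flags of a rank `d` polytope with the adjacency involutions -/
structure Sys (d : ℕ) where
  F : Type
  fin : Finite F
  ne0 : Nonempty F
  r : ℕ → F → F
  inv : ∀ i Φ, r i (r i Φ) = Φ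
  out : ∀ i, d ≤ i → ∀ Φ, r i Φ = Φ
  ne : ∀ i, i < d → ∀ Φ, r i Φ ≠ Φ
  ne2 : ∀ i j, i < d → j < d → i ≠ j → ∀ Φ, r i Φ ≠ r j Φ
  comm : ∀ i j, i + 2 ≤ j → ∀ Φ, r i (r j Φ) = r j (r i Φ)
  p2 : ∀ i, i + 1 < d → ∀ Φ, r i (r (i + 1) Φ) ≠ r (i + 1) (r i Φ)
  sc : ∀ a b, b ≤ d → SC r (Set.Ico a b)
  conn : ∀ Φ Ψ, Conn r (Set.Iio d) Φ Ψ

/-- the automorphism group: permutations of the flags commuting with all adjacencies -/
def Sys.aut {d : ℕ} (S : Sys d) : Subgroup (Equiv.Perm S.F) where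
  carrier := {g | ∀ i Φ, g (S.r i Φ) = S.r i (g Φ)}
  mul_mem' := by
    intro a b ha hb i Φ
    simp only [Equiv.Perm.coe_mul, Function.comp_apply]
    rw [hb, ha]
  one_mem' := by intro i Φ; rfl
  inv_mem' := by
    intro g hg i Φ
    apply g.injective
    rw [hg]; simp

/-- number of flag orbits -/
noncomputable def Sys.k {d : ℕ} (S : Sys d) : ℕ :=
  Nat.card (MulAction.orbitRel.Quotient S.aut S.F)

namespace Conn
variable {α : Type} {r : ℕ → α → α} {s : Set ℕ}

theorem refl (a : α) : Conn r s a a := Relation.ReflTransGen.refl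

theorem trans {a b c : α} (h : Conn r s a b) (h' : Conn r s b c) : Conn r s a c :=
  Relation.ReflTransGen.trans h h'

theorem step {a b : α} (h : Conn r s a b) {i : ℕ} (hi : i ∈ s) : Conn r s a (r i b) :=
  Relation.ReflTransGen.tail h ⟨i, hi, rfl⟩

theorem ind {a : α} (P : α → Prop) (h0 : P a) (hs : ∀ i ∈ s, ∀ x, P x → P (r i x)) {b : α}
    (h : Conn r s a b) : P b := by
  induction h with
  | refl => exact h0
  | tail _ h2 ih => obtain ⟨i, hi, rfl⟩ := h2; exact hs i hi _ ih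

theorem symm (hinv : ∀ i ∈ s, ∀ x, r i (r i x) = x) {a b : α} (h : Conn r s a b) :
    Conn r s b a := by
  refine h.ind (fun x => Conn r s x a) (refl a) ?_
  intro i hi x hx
  have : Conn r s (r i x) (r i (r i x)) := (refl _).step hi
  rw [hinv i hi] at this
  exact this.trans hx

theorem mono {s' : Set ℕ} (hs : s ⊆ s') {a b : α} (h : Conn r s a b) : Conn r s' a b :=
  h.ind (fun x => Conn r s' a x) (refl a) fun _ hi _ hx => hx.step (hs hi)

theorem map {β : Type} {r' : ℕ → β → β} {s' : Set ℕ} (f : α → β)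
    (hf : ∀ i ∈ s, ∃ j ∈ s', ∀ x, f (r i x) = r' j (f x)) {a b : α} (h : Conn r s a b) :
    Conn r' s' (f a) (f b) := by
  refine h.ind (fun x => Conn r' s' (f a) (f x)) (refl _) ?_
  intro i hi x hx
  obtain ⟨j, hj, e⟩ := hf i hi
  rw [e]; exact hx.step hj

end Conn

end Pool.Agent.Lib.MP_7157e1_co
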