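import Mathlib

/-! Counting maximal chains below an element of a finite poset. -/

namespace Pool.Agent.Lib.MP_7157e1_co
open Finset

open Classical in
/-- number of saturated chains from a minimal element up to `x` -/
noncomputable def nc {P : Type} [PartialOrder P] [Fintype P] : P → ℕ :=
  (wellFounded_lt (α := P)).fix fun x ih =>
    if IsMin x then 1 else ∑ y : {y : P // y ⋖ x}, ih y.1 y.2.lt

open Classical in
theorem nc_eq {P : Type} [PartialOrder P] [Fintype P] (x : P) :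
    nc x = if IsMin x then 1 else ∑ y ∈ univ.filter (· ⋖ x), nc y := by
  rw [nc, WellFounded.fix_eq]
  congr 1
  rw [Finset.sum_subtype (univ.filter (· ⋖ x)) (p := fun y => y ⋖ x) (by simp)]

theorem nc_min {P : Type} [PartialOrder P] [Fintype P] {x : P} (h : IsMin x) : nc x = 1 := by
  rw [nc_eq, if_pos h]

theorem nc_sum {P : Type} [PartialOrder P] [Fintype P] {x : P} (h : ¬ IsMin x) (s : Finset P)
    (hs : ∀ y, y ∈ s ↔ y ⋖ x) : nc x = ∑ y ∈ s, nc y := by
  rw [nc_eq, if_neg h]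
  refine Finset.sum_congr ?_ fun _ _ => rfl
  ext y; simp [hs]

theorem nc_congr {P Q : Type} [PartialOrder P] [Fintype P] [PartialOrder Q] [Fintype Q]
    (f : P → Q) (x : P) (h1 : ∀ a, a ≤ x → ∀ b, b ≤ x → (f a ≤ f b ↔ a ≤ b))
    (h2 : ∀ c, c ≤ f x → ∃ a, a ≤ x ∧ f a = c) : nc (f x) = nc x := by
  classical
  induction x using WellFoundedLT.induction with
  | ind x ih =>
  have lt : ∀ a, a ≤ x → ∀ b, b ≤ x → (f a < f b ↔ a < b) := fun a ha b hb => by
    rw [lt_iff_le_not_ge, lt_iff_le_not_ge, h1 a ha b hb, h1 b hb a ha]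
  by_cases hx : IsMin x
  · rw [nc_min hx, nc_min]
    intro c hc
    obtain ⟨a, ha, rfl⟩ := h2 c hc
    exact (h1 x le_rfl a ha).2 (hx ha)
  have hx' : ¬ IsMin (f x) := fun k => by
    obtain ⟨a, ha⟩ := not_isMin_iff.1 hx
    exact not_isMin_of_lt ((lt a ha.le x le_rfl).2 ha) k
  rw [nc_sum hx (univ.filter (· ⋖ x)) (by simp),
    nc_sum hx' ((univ.filter (· ⋖ x)).image f) ?_, Finset.sum_image]
  · refine Finset.sum_congr rfl fun y hy => ?_
    have hy := (mem_filter.1 hy).2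
    refine ih y hy.lt (fun a ha b hb => h1 a (ha.trans hy.le) b (hb.trans hy.le)) fun c hc => ?_
    obtain ⟨a, ha, rfl⟩ := h2 c (hc.trans ((h1 y hy.le x le_rfl).2 hy.le))
    exact ⟨a, (h1 a ha y hy.le).1 hc, rfl⟩
  · intro a ha b hb e
    have ha := (mem_filter.1 ha).2.le
    have hb := (mem_filter.1 hb).2.le
    exact le_antisymm ((h1 a ha b hb).1 e.le) ((h1 b hb a ha).1 e.ge)
  · intro c
    simp only [mem_image, mem_filter, mem_univ, true_and]
    constructor
    · rintro ⟨a, ha, rfl⟩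
      refine ⟨(lt a ha.le x le_rfl).2 ha.lt, fun c c1 c2 => ?_⟩
      obtain ⟨b, hb, rfl⟩ := h2 c c2.le
      exact ha.2 ((lt a ha.le b hb).1 c1) ((lt b hb x le_rfl).1 c2)
    · intro hc
      obtain ⟨a, ha, rfl⟩ := h2 c hc.le
      exact ⟨a, ⟨(lt a ha x le_rfl).1 hc.lt, fun b b1 b2 =>
        hc.2 ((lt a ha b b2.le).2 b1) ((lt b b2.le x le_rfl).2 b2)⟩, rfl⟩

section Fam
variable {ι : Type} [Fintype ι] {F : Set ι → Prop}

noncomputable instance famFintype : Fintype {G // F G} := Fintype.ofFinite _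

/-- a set all of whose subsets are faces -/
theorem nc_simplex (n : ℕ) (G : {G // F G}) (h : ∀ S, S ⊆ G.1 → F S) (hn : G.1.ncard = n) :
    nc G = n.factorial := by
  classical
  induction n generalizing G with
  | zero =>
    have : G.1 = ∅ := (Set.ncard_eq_zero).1 hn
    refine nc_min fun H _ => ?_
    show G.1 ⊆ H.1
    rw [this]; exact Set.empty_subset _
  | succ n ih =>
    let c : G.1 → {G // F G} := fun x => ⟨G.1 \ {x.1}, h _ Set.sdiff_subset⟩
    have clt : ∀ x, c x < G := fun x => Set.sdiff_singleton_ssubset.2 x.2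
    obtain ⟨x0, hx0⟩ : G.1.Nonempty := Set.nonempty_of_ncard_ne_zero (by omega)
    rw [nc_sum (not_isMin_of_lt (clt ⟨x0, hx0⟩)) (univ.image c), Finset.sum_image]
    · rw [Finset.sum_congr rfl (g := fun _ => n.factorial), sum_const, card_univ,
        ← Nat.card_eq_fintype_card, Nat.card_coe_set_eq, hn, smul_eq_mul, Nat.factorial_succ]
      intro x _
      refine ih _ (fun S hS => h S (hS.trans Set.sdiff_subset)) ?_
      show (G.1 \ {x.1}).ncard = n
      rw [Set.ncard_sdiff_singleton_of_mem x.2, hn]; rfl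
    · intro x _ y _ e
      by_contra hne
      have : x.1 ∈ (c y).1 := ⟨x.2, fun k => hne (Subtype.ext k)⟩
      rw [← e] at this
      exact this.2 rfl
    · intro H
      simp only [mem_image, mem_univ, true_and]
      constructor
      · rintro ⟨x, rfl⟩
        refine ⟨clt x, fun K k1 k2 => ?_⟩
        obtain ⟨z, z1, z2⟩ := Set.exists_of_ssubset (show (c x).1 ⊂ K.1 from k1)
        have hz : z = x.1 := by
          by_contra hne
          exact z2 ⟨k2.le z1, hne⟩
        refine k2.not_ge fun t ht => ?_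
        by_cases e : t = x.1
        · rw [e, ← hz]; exact z1
        · exact k1.le ⟨ht, e⟩
      · intro hH
        obtain ⟨z, z1, z2⟩ := Set.exists_of_ssubset (show H.1 ⊂ G.1 from hH.lt)
        refine ⟨⟨z, z1⟩, ?_⟩
        have : H ≤ c ⟨z, z1⟩ := fun t ht => ⟨hH.le ht, fun k => z2 ((show t = z from k) ▸ ht)⟩
        exact ((hH.eq_or_eq this (clt _).le).resolve_right (clt _).ne)

/-- number of flags of the `u`-fold pyramid over the prism over a simplex with `l` vertices -/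
def pw (l u : ℕ) : ℕ := 2 * l * l.factorial * (l + 2).ascFactorial u

theorem pw_rec (l u : ℕ) : pw (l + 1) u = 2 * (l + 1 + u).factorial + (l + 1) * pw l u +
    u * pw (l + 1) (u - 1) := by
  have h1 : (l + 1 + u).factorial = (l + 1).factorial * (l + 2).ascFactorial u :=
    (Nat.factorial_mul_ascFactorial (l + 1) u).symm
  rcases u with _ | u
  · simp [pw, Nat.factorial_succ]; ring
  · have h2 : (l + 2).ascFactorial (u + 1) = (l + 2) * (l + 3).ascFactorial u := by
      rw [Nat.succ_ascFactorial, Nat.ascFactorial_succ]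
    have h3 : (l + 3).ascFactorial (u + 1) = (l + 3 + u) * (l + 3).ascFactorial u :=
      Nat.ascFactorial_succ
    simp only [pw, h1, h2, Nat.add_sub_cancel, show l + 1 + 2 = l + 3 from rfl, h3,
      Nat.factorial_succ]
    ring

theorem nc_prism {α : Type} {x y : α → ι} (hx : Function.Injective x) (hy : Function.Injective y)
    (hxy : ∀ i j, x i ≠ y j) (n : ℕ) (L : Finset α) (U : Finset ι) (hn : L.card + U.card = n)
    (hU : ∀ i, x i ∉ U ∧ y i ∉ U) (hL : L.Nonempty) (G : {G // F G})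
    (hG : G.1 = x '' L ∪ y '' L ∪ U)
    (h : ∀ S, S ⊆ G.1 → (F S ↔ ∀ i j, x i ∈ S → y j ∈ S → y i ∈ S ∧ x j ∈ S)) :
    nc G = pw L.card U.card := by
  classical
  induction n using Nat.strong_induction_on generalizing L U G with
  | _ n ih =>
  have mx : ∀ (A B : Finset α) (V : Finset ι), V ⊆ U → ∀ i,
      x i ∈ x '' A ∪ y '' B ∪ (V : Set ι) ↔ i ∈ A := fun A B V hV i => by
    refine ⟨?_, fun k => Or.inl (Or.inl ⟨i, k, rfl⟩)⟩
    rintro ((⟨j, j1, j2⟩ | ⟨j, -, j2⟩) | k)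
    · exact hx j2 ▸ j1
    · exact absurd j2.symm (hxy _ _)
    · exact absurd (hV k) (hU i).1
  have my : ∀ (A B : Finset α) (V : Finset ι), V ⊆ U → ∀ i,
      y i ∈ x '' A ∪ y '' B ∪ (V : Set ι) ↔ i ∈ B := fun A B V hV i => by
    refine ⟨?_, fun k => Or.inl (Or.inr ⟨i, k, rfl⟩)⟩
    rintro ((⟨j, -, j2⟩ | ⟨j, j1, j2⟩) | k)
    · exact absurd j2 (hxy _ _)
    · exact hy j2 ▸ j1
    · exact absurd (hV k) (hU i).2
  have mu : ∀ (A B : Finset α) (V : Finset ι), ∀ u ∈ U,
      u ∈ x '' A ∪ y '' B ∪ (V : Set ι) ↔ u ∈ V := fun A B V u hu => by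
    refine ⟨?_, fun k => Or.inr k⟩
    rintro ((⟨j, -, j2⟩ | ⟨j, -, j2⟩) | k)
    · exact absurd (j2 ▸ hu) (hU j).1
    · exact absurd (j2 ▸ hu) (hU j).2
    · exact k
  have sub : ∀ (A B : Finset α) (V : Finset ι), A ⊆ L → B ⊆ L → V ⊆ U →
      x '' A ∪ y '' B ∪ (V : Set ι) ⊆ G.1 := fun A B V hA hB hV => by
    rw [hG]
    exact Set.union_subset_union (Set.union_subset_union (Set.image_mono hA) (Set.image_mono hB)) hV
  have le : ∀ (K : Set ι) (A B : Finset α) (V : Finset ι), K ⊆ G.1 → (∀ i ∈ L, x i ∈ K → i ∈ A) →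
      (∀ i ∈ L, y i ∈ K → i ∈ B) → (∀ u ∈ U, u ∈ K → u ∈ V) →
      K ⊆ x '' A ∪ y '' B ∪ (V : Set ι) := fun K A B V hK h1 h2 h3 z hz => by
    have := hK hz
    rw [hG] at this
    rcases this with (⟨j, j1, rfl⟩ | ⟨j, j1, rfl⟩) | k
    · exact Or.inl (Or.inl ⟨j, h1 j j1 hz, rfl⟩)
    · exact Or.inl (Or.inr ⟨j, h2 j j1 hz, rfl⟩)
    · exact Or.inr (h3 z k hz)
  obtain ⟨L', hL'⟩ : ∃ L' : Finset α, ∀ i, i ∈ L' ↔ i ∈ L ∧ (L.erase i).Nonempty :=
    ⟨L.filter fun i => (L.erase i).Nonempty, fun i => mem_filter⟩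
  have q1 : ∀ i : L', i.1 ∈ L := fun i => ((hL' i).1 i.2).1
  have q2 : ∀ i : L', (L.erase i).Nonempty := fun i => ((hL' i).1 i.2).2
  let T : Bool ⊕ L' ⊕ U → Finset α × Finset α × Finset ι :=
    fun j => match j with
      | Sum.inl true => (L, ∅, U)
      | Sum.inl false => (∅, L, U)
      | Sum.inr (Sum.inl i) => (L.erase i, L.erase i, U)
      | Sum.inr (Sum.inr u) => (L, L, U.erase u)
  have T1 : ∀ j, (T j).1 ⊆ L ∧ (T j).2.1 ⊆ L ∧ (T j).2.2 ⊆ U := by
    rintro ((_ | _) | i | u) <;> simp [T, erase_subset]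
  have T2 : ∀ j i i', i ∈ (T j).1 → i' ∈ (T j).2.1 → i ∈ (T j).2.1 ∧ i' ∈ (T j).1 := by
    rintro ((_ | _) | i | u) <;> simp [T] <;> tauto
  let c : Bool ⊕ L' ⊕ U → {G // F G} := fun j =>
    ⟨x '' (T j).1 ∪ y '' (T j).2.1 ∪ (T j).2.2,
      (h _ (sub _ _ _ (T1 j).1 (T1 j).2.1 (T1 j).2.2)).2 fun i i' => by
        simp only [mx _ _ _ (T1 j).2.2, my _ _ _ (T1 j).2.2]; exact T2 j i i'⟩
  have cle : ∀ j, c j ≤ G := fun j => sub _ _ _ (T1 j).1 (T1 j).2.1 (T1 j).2.2
  have cT : ∀ j (A B : Finset α) (V : Finset ι), V ⊆ U →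
      x '' A ∪ y '' B ∪ (V : Set ι) ⊆ (c j).1 → A ⊆ (T j).1 ∧ B ⊆ (T j).2.1 ∧ V ⊆ (T j).2.2 :=
    fun j A B V hV k => ⟨fun i hi => (mx _ _ _ (T1 j).2.2 i).1 (k ((mx _ _ _ hV i).2 hi)),
      fun i hi => (my _ _ _ (T1 j).2.2 i).1 (k ((my _ _ _ hV i).2 hi)),
      fun u hu => (mu _ _ _ u (hV hu)).1 (k ((mu _ _ _ u (hV hu)).2 hu))⟩
  obtain ⟨i0, hi0⟩ := hL
  have clt : ∀ j, c j < G := fun j => lt_of_le_not_ge (cle j) fun k => by
    have := cT j L L U Subset.rfl (hG ▸ k)
    revert this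
    rcases j with ((_ | _) | i | u) <;> simp only [T]
    · exact fun k => by simpa using k.1 hi0
    · exact fun k => by simpa using k.2.1 hi0
    · exact fun k => by simpa using k.1 (q1 i)
    · exact fun k => by simpa using k.2.2 u.2
  have anti : ∀ j j', c j ≤ c j' → j = j' := fun j j' k => by
    have := cT j' _ _ _ (T1 j).2.2 k
    revert this
    rcases j with ((_ | _) | i | u) <;> rcases j' with ((_ | _) | i' | u') <;> simp only [T]
    · exact fun _ => trivial
    · exact fun k => by simpa using k.2.1 hi0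
    · exact fun k => by simpa using k.2.1 (q1 i')
    · exact fun k => by simpa using k.2.2 u'.2
    · exact fun k => by simpa using k.1 hi0
    · exact fun _ => trivial
    · exact fun k => by simpa using k.1 (q1 i')
    · exact fun k => by simpa using k.2.2 u'.2
    · exact fun k => by obtain ⟨t, ht⟩ := (q2 i); simpa using k.1 ht
    · exact fun k => by obtain ⟨t, ht⟩ := (q2 i); simpa using k.2.1 ht
    · intro k
      by_contra hne
      have : i'.1 ∈ L.erase i := mem_erase.2 ⟨fun e => hne (by rw [Subtype.ext e]), (q1 i')⟩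
      simpa using k.1 this
    · exact fun k => by simpa using k.2.2 u'.2
    · exact fun k => by simpa using k.1 hi0
    · exact fun k => by simpa using k.2.1 hi0
    · exact fun k => by simpa using k.1 (q1 i')
    · intro k
      by_contra hne
      have : u'.1 ∈ U.erase u := mem_erase.2 ⟨fun e => hne (by rw [Subtype.ext e]), u'.2⟩
      simpa using k.2.2 this
  have below : ∀ K, K < G → ∃ j, K ≤ c j := fun K hK => by
    have cond := (h K.1 hK.le).1 K.2
    by_cases a1 : ∃ u ∈ U, u ∉ K.1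
    · obtain ⟨u, u1, u2⟩ := a1
      exact ⟨Sum.inr (Sum.inr ⟨u, u1⟩), le _ _ _ _ hK.le (fun _ k _ => k) (fun _ k _ => k)
        fun v v1 v2 => mem_erase.2 ⟨fun e => u2 ((show v = u from e) ▸ v2), v1⟩⟩
    by_cases a2 : ∃ i, y i ∈ K.1
    swap
    · exact ⟨Sum.inl true, le _ _ _ _ hK.le (fun _ k _ => k) (fun i _ k => absurd ⟨i, k⟩ a2)
        fun _ k _ => k⟩
    by_cases a3 : ∃ i, x i ∈ K.1
    swap
    · exact ⟨Sum.inl false, le _ _ _ _ hK.le (fun i _ k => absurd ⟨i, k⟩ a3) (fun _ k _ => k)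
        fun _ k _ => k⟩
    obtain ⟨b, hb⟩ := a2
    obtain ⟨a, ha⟩ := a3
    obtain ⟨z, z1, z2⟩ := Set.exists_of_ssubset (show K.1 ⊂ G.1 from hK)
    obtain ⟨i, i1, i2, i3⟩ : ∃ i ∈ L, x i ∉ K.1 ∧ y i ∉ K.1 := by
      rw [hG] at z1
      rcases z1 with (⟨j, j1, rfl⟩ | ⟨j, j1, rfl⟩) | k
      · exact ⟨j, j1, z2, fun k => z2 (cond a j ha k).2⟩
      · exact ⟨j, j1, fun k => z2 (cond j b k hb).1, z2⟩
      · exact absurd ⟨z, k, z2⟩ a1
    have haL : a ∈ L := (mx L L U Subset.rfl a).1 (hG ▸ hK.le ha)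
    exact ⟨Sum.inr (Sum.inl ⟨i, (hL' i).2 ⟨i1, a, mem_erase.2 ⟨fun e => i2 (e ▸ ha), haL⟩⟩⟩),
      le _ _ _ _ hK.le (fun t t1 t2 => mem_erase.2 ⟨fun e => i2 ((show t = i from e) ▸ t2), t1⟩)
        (fun t t1 t2 => mem_erase.2 ⟨fun e => i3 ((show t = i from e) ▸ t2), t1⟩) fun _ k _ => k⟩
  rw [nc_sum (not_isMin_of_lt (clt (Sum.inl true))) (univ.image c),
    Finset.sum_image fun j _ j' _ e => anti j j' e.le]
  swap
  · intro H
    simp only [mem_image, mem_univ, true_and]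
    constructor
    · rintro ⟨j, rfl⟩
      refine ⟨clt j, fun K k1 k2 => ?_⟩
      obtain ⟨j', hj'⟩ := below K k2
      obtain rfl := anti j j' (k1.le.trans hj')
      exact k1.not_ge hj'
    · intro hH
      obtain ⟨j, hj⟩ := below H hH.lt
      exact ⟨j, (hH.eq_or_eq hj (cle j)).resolve_right (clt j).ne⟩
  obtain ⟨l, hl⟩ : ∃ l, L.card = l + 1 := ⟨L.card - 1, by have := card_pos.2 ⟨i0, hi0⟩; omega⟩
  have hsub : ∀ j S, S ⊆ (c j).1 → (F S ↔ ∀ i j, x i ∈ S → y j ∈ S → y i ∈ S ∧ x j ∈ S) :=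
    fun j S hS => h S (hS.trans (cle j))
  have e1 : nc (c (Sum.inl true)) = (l + 1 + U.card).factorial := by
    refine nc_simplex _ _ (fun S hS => (hsub (Sum.inl true) S hS).2 fun i j _ k => ?_) ?_
    · exact absurd ((my L ∅ U Subset.rfl j).1 (hS k)) (notMem_empty _)
    · show (x '' L ∪ y '' (∅ : Finset α) ∪ (U : Set ι)).ncard = _
      rw [coe_empty, Set.image_empty, Set.union_empty, Set.ncard_union_eq,
        Set.ncard_image_of_injective _ hx, Set.ncard_coe_finset, Set.ncard_coe_finset, hl]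
      rw [Set.disjoint_left]
      rintro _ ⟨i, -, rfl⟩ k
      exact (hU i).1 k
  have e2 : nc (c (Sum.inl false)) = (l + 1 + U.card).factorial := by
    refine nc_simplex _ _ (fun S hS => (hsub (Sum.inl false) S hS).2 fun i j k _ => ?_) ?_
    · exact absurd ((mx ∅ L U Subset.rfl i).1 (hS k)) (notMem_empty _)
    · show (x '' (∅ : Finset α) ∪ y '' L ∪ (U : Set ι)).ncard = _
      rw [coe_empty, Set.image_empty, Set.empty_union, Set.ncard_union_eq,
        Set.ncard_image_of_injective _ hy, Set.ncard_coe_finset, Set.ncard_coe_finset, hl]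
      rw [Set.disjoint_left]
      rintro _ ⟨i, -, rfl⟩ k
      exact (hU i).2 k
  have e3 : ∀ i, nc (c (Sum.inr (Sum.inl i))) = pw l U.card := fun i => by
    have hc : (L.erase i).card = l := by rw [card_erase_of_mem (q1 i), hl]; rfl
    rw [← hc]
    exact ih _ (by omega) (L.erase i) U rfl hU (q2 i) _ rfl (hsub (Sum.inr (Sum.inl i)))
  have e4 : ∀ u, nc (c (Sum.inr (Sum.inr u))) = pw (l + 1) (U.card - 1) := fun u => by
    have hc : (U.erase u).card = U.card - 1 := card_erase_of_mem u.2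
    have := card_pos.2 ⟨_, u.2⟩
    rw [← hc, ← hl]
    exact ih _ (by omega) L (U.erase u) rfl
      (fun i => ⟨fun k => (hU i).1 (mem_of_mem_erase k), fun k => (hU i).2 (mem_of_mem_erase k)⟩)
      ⟨i0, hi0⟩ _ rfl (hsub (Sum.inr (Sum.inr u)))
  rw [Fintype.sum_sum_type, Fintype.sum_sum_type, Fintype.sum_bool, e1, e2, hl, pw_rec]
  simp only [e3, e4, sum_const, card_univ, smul_eq_mul, Fintype.card_coe]
  have : L'.card * pw l U.card = (l + 1) * pw l U.card := by
    rcases l with _ | l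
    · simp [pw]
    · congr 1
      rw [← hl]
      congr 1
      ext i
      rw [hL']
      refine and_iff_left_of_imp fun k => ?_
      rw [← card_pos, card_erase_of_mem k]; omega
  omega

end Fam

end Pool.Agent.Lib.MP_7157e1_co
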