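import Pool.Agent.Lib.MP_7157e1_co.P5
import Pool.Agent.Lib.MP_7157e1_co.X1

/-! Counting flags and flag orbits; polytopes from subspaces of functions. -/

namespace Pool.Agent.Lib.MP_7157e1_co
open Module Function

variable {ι : Type} [Fintype ι] {E : Submodule ℝ (ι → ℝ)} {d : ℕ}

theorem cr_lt' {G H : {G // IsF E G}} (h : H < G) : cr E G < cr E H := by
  obtain ⟨i, i1, i2⟩ := Set.exists_of_ssubset (show H.1 ⊂ G.1 from h)
  exact cr_lt H.2 h.le i1 i2

theorem covBy_iff_cr {G H : {G // IsF E G}} : H ⋖ G ↔ H ≤ G ∧ cr E H = cr E G + 1 := by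
  constructor
  · intro h
    refine ⟨h.le, ?_⟩
    have := cr_lt' h.lt
    by_contra hne
    obtain ⟨K, k1, k2, k3, k4, k5⟩ := between H.2 G.2 h.le (by omega)
    rcases h.eq_or_eq (c := ⟨K, k1⟩) k2 k3 with e | e
    · rw [← e] at k5; exact k5.false
    · rw [← e] at k4; exact k4.false
  · rintro ⟨h1, h2⟩
    refine ⟨lt_of_le_of_ne h1 fun e => by rw [e] at h2; omega, fun K k1 k2 => ?_⟩
    have := cr_lt' k1
    have := cr_lt' k2
    omega

theorem splice (hpos : IsF E ∅) (hd : finrank ℝ E = d + 1) (Φ : Fl E d) {j : ℕ} (hj : j ≤ d)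
    {H : Set ι} (hH : IsF E H) (h1 : H ⊆ Φ.1 (j + 1)) (h2 : cr E H = d + 1 - j) :
    ∃ Ψ : Fl E d, Ψ.1 j = H ∧ ∀ l, j + 1 ≤ l → Ψ.1 l = Φ.1 l := by
  obtain ⟨C, -, c2, c3⟩ := Fl.chain j hpos hH (Set.empty_subset _) (by rw [cr_empty]; omega)
  refine ⟨⟨fun l => if l ≤ j then C l else Φ.1 l, fun l => ?_⟩, ?_, fun l hl => ?_⟩
  · by_cases e : l ≤ j
    · simp only [if_pos e]
      refine ⟨(c3 l).1, ?_, ?_⟩
      · have := (c3 l).2.1 e
        rw [cr_empty] at this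
        omega
      · split_ifs
        · exact (c3 l).2.2
        · rw [show l = j by omega, c2 j le_rfl]; exact h1
    · simp only [if_neg e, if_neg (show ¬ l + 1 ≤ j by omega)]
      exact Φ.2 l
  · exact (if_pos le_rfl).trans (c2 j le_rfl)
  · exact if_neg (by omega)

theorem card_agree (hpos : IsF E ∅) (hd : finrank ℝ E = d + 1) (j : ℕ) (hj : j ≤ d + 1)
    (Φ : Fl E d) : {Ψ : Fl E d | ∀ l, j ≤ l → Ψ.1 l = Φ.1 l}.ncard =
      nc (⟨Φ.1 j, Φ.isF j⟩ : {G // IsF E G}) := by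
  classical
  induction j generalizing Φ with
  | zero =>
    rw [nc_min, Set.ncard_eq_one]
    · exact ⟨Φ, Set.eq_singleton_iff_unique_mem.2 ⟨fun _ _ => rfl,
        fun Ψ h => Fl.ext fun l => h l (Nat.zero_le _)⟩⟩
    · intro H _
      show Φ.1 0 ⊆ H.1
      rw [Fl.bot hpos hd]; exact Set.empty_subset _
  | succ j ih =>
    have : Fintype (Fl E d) := Fintype.ofFinite _
    have cov : ∀ Ψ : Fl E d, Ψ.1 (j + 1) = Φ.1 (j + 1) →
        (⟨Ψ.1 j, Ψ.isF j⟩ : {G // IsF E G}) ⋖ ⟨Φ.1 (j + 1), Φ.isF _⟩ := fun Ψ h =>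
      covBy_iff_cr.2 ⟨show Ψ.1 j ⊆ Φ.1 (j + 1) from h ▸ Ψ.mono (by omega), by
        simp only [Fl.cr]; omega⟩
    rw [nc_sum (not_isMin_of_lt (cov Φ rfl).lt) (Finset.univ.filter (· ⋖ ⟨Φ.1 (j + 1), Φ.isF _⟩)) (by simp),
      Set.ncard_eq_toFinset_card', Finset.card_eq_sum_card_fiberwise
        (f := fun Ψ : Fl E d => (⟨Ψ.1 j, Ψ.isF j⟩ : {G // IsF E G}))
        (t := Finset.univ.filter (· ⋖ ⟨Φ.1 (j + 1), Φ.isF _⟩))]
    · refine Finset.sum_congr rfl fun H hH => ?_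
      obtain ⟨h1, h2⟩ := covBy_iff_cr.1 (Finset.mem_filter.1 hH).2
      obtain ⟨Ψ, p1, p2⟩ := splice hpos hd Φ (j := j) (by omega) H.2 h1 (by
        rw [h2]; simp only [Fl.cr]; omega)
      rw [show H = ⟨Ψ.1 j, Ψ.isF j⟩ from Subtype.ext p1.symm, ← ih (by omega) Ψ,
        Set.ncard_eq_toFinset_card']
      congr 1
      ext X
      simp only [Finset.mem_filter, Set.mem_toFinset, Set.mem_ofPred_eq, Subtype.mk.injEq]
      constructor
      · rintro ⟨k1, k2⟩ l hl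
        rcases hl.eq_or_lt with rfl | hl
        · exact k2
        · rw [k1 l hl, p2 l hl]
      · exact fun k => ⟨fun l hl => by rw [k l (by omega), p2 l hl], k j le_rfl⟩
    · intro Ψ hΨ
      simp only [Set.coe_toFinset, Set.mem_ofPred_eq] at hΨ
      simpa using cov Ψ (hΨ _ le_rfl)

theorem card_fl (hpos : IsF E ∅) (hd : finrank ℝ E = d + 1) :
    Nat.card (Fl E d) = nc (⟨Set.univ, isF_univ⟩ : {G // IsF E G}) := by
  obtain ⟨Φ⟩ := Fl.nonempty hpos hd
  have := card_agree hpos hd (d + 1) le_rfl Φ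
  rw [show (⟨Φ.1 (d + 1), Φ.isF _⟩ : {G // IsF E G}) = ⟨Set.univ, isF_univ⟩ from
    Subtype.ext (Φ.top le_rfl)] at this
  rw [← this, ← Set.ncard_univ]
  congr 1
  exact (Set.eq_univ_of_forall fun Ψ l hl => by rw [Ψ.top hl, Φ.top hl]).symm

theorem facet_cov (Φ : Fl E d) :
    (⟨Φ.1 d, Φ.isF d⟩ : {G // IsF E G}) ⋖ ⟨Set.univ, isF_univ⟩ :=
  covBy_iff_cr.2 ⟨Set.subset_univ _, by simp only [Fl.cr, cr_univ]; omega⟩

theorem exists_facet (hpos : IsF E ∅) (hd : finrank ℝ E = d + 1) {G : {G // IsF E G}}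
    (hG : G ⋖ ⟨Set.univ, isF_univ⟩) : ∃ Φ : Fl E d, Φ.1 d = G.1 := by
  obtain ⟨Φ⟩ := Fl.nonempty hpos hd
  obtain ⟨Ψ, p1, -⟩ := splice hpos hd Φ le_rfl G.2 (Φ.top le_rfl ▸ Set.subset_univ _) (by
    rw [(covBy_iff_cr.1 hG).2, cr_univ]; omega)
  exact ⟨Ψ, p1⟩

theorem card_facet (hpos : IsF E ∅) (hd : finrank ℝ E = d + 1) {G : {G // IsF E G}}
    (hG : G ⋖ ⟨Set.univ, isF_univ⟩) : {Ψ : Fl E d | Ψ.1 d = G.1}.ncard = nc G := by
  obtain ⟨Φ, hΦ⟩ := exists_facet hpos hd hG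
  rw [show G = ⟨Φ.1 d, Φ.isF d⟩ from Subtype.ext hΦ.symm, ← card_agree hpos hd d (by omega) Φ]
  congr 1
  ext Ψ
  refine ⟨fun k l hl => ?_, fun k => k d le_rfl⟩
  rcases hl.eq_or_lt with rfl | hl
  · exact k
  · rw [Ψ.top hl, Φ.top hl]

/-- flags whose facet lies in a given set of facets -/
theorem card_facets (hpos : IsF E ∅) (hd : finrank ℝ E = d + 1) (s : Finset {G // IsF E G})
    (hs : ∀ G ∈ s, G ⋖ ⟨Set.univ, isF_univ⟩) :
    {Ψ : Fl E d | (⟨Ψ.1 d, Ψ.isF d⟩ : {G // IsF E G}) ∈ s}.ncard = ∑ G ∈ s, nc G := by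
  classical
  have : Fintype (Fl E d) := Fintype.ofFinite _
  rw [Set.ncard_eq_toFinset_card', Finset.card_eq_sum_card_fiberwise
    (f := fun Ψ : Fl E d => (⟨Ψ.1 d, Ψ.isF d⟩ : {G // IsF E G})) (t := s)]
  · refine Finset.sum_congr rfl fun G hG => ?_
    rw [← card_facet hpos hd (hs G hG), Set.ncard_eq_toFinset_card']
    congr 1
    ext X
    simp only [Finset.mem_filter, Set.mem_toFinset, Set.mem_ofPred_eq]
    exact ⟨fun k => congrArg Subtype.val k.2, fun k => by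
      have : (⟨X.1 d, X.isF d⟩ : {G // IsF E G}) = G := Subtype.ext k
      exact ⟨this ▸ hG, this⟩⟩
  · intro Ψ hΨ
    simpa using hΨ

theorem act_inj (hpos : IsF E ∅) (hd : finrank ℝ E = d + 1) :
    Injective (Fl.act (E := E) (d := d)) := fun e e' h => by
  refine RelIso.ext fun G => ?_
  obtain ⟨Ψ, a, -, -, rfl, -⟩ := Fl.exists_two hpos hd (le_refl G)
  exact Subtype.ext (congrArg (fun g : Equiv.Perm (Fl E d) => (g Ψ).1 a) h)

theorem k_mul_aut (hpos : IsF E ∅) (hd : finrank ℝ E = d + 1) :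
    (toSys hpos hd).k * Nat.card (toSys hpos hd).aut = Nat.card (Fl E d) := by
  rw [Sys.k, ← Nat.card_prod]
  refine (Nat.card_congr (MulAction.selfEquivOrbitsQuotientProd fun Φ => ?_)).symm
  rw [eq_bot_iff]
  intro g hg
  exact Subtype.ext ((toSys hpos hd).free g.2 Φ hg)

theorem k_mul (hpos : IsF E ∅) (hd : finrank ℝ E = d + 1) (X : Set (Fl E d)) (Φ : Fl E d)
    (h1 : ∀ e, Fl.act e Φ ∈ X) {Γ : Type} (s : Γ → ({G // IsF E G} ≃o {G // IsF E G}))
    (hs : Injective s) (hc : X.ncard ≤ Nat.card Γ) :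
    (toSys hpos hd).k * Nat.card Γ = Nat.card (Fl E d) := by
  rw [← k_mul_aut hpos hd]
  congr 1
  apply le_antisymm
  · exact Nat.card_le_card_of_injective
      (fun γ => (⟨Fl.act (s γ), Fl.act_r _⟩ : (toSys hpos hd).aut))
      fun a b h => hs (act_inj hpos hd (congrArg Subtype.val h))
  · refine le_trans ?_ hc
    rw [← Nat.card_coe_set_eq]
    refine Nat.card_le_card_of_injective (fun g : (toSys hpos hd).aut => (⟨g.1 Φ, ?_⟩ : X))
      fun a b h => ?_
    · obtain ⟨e, he⟩ := Fl.exists_iso hpos hd g.2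
      exact he ▸ h1 e
    · have h' : a.1 Φ = b.1 Φ := congrArg Subtype.val h
      have := (toSys hpos hd).free (b⁻¹ * a).2 Φ (by simp [h'])
      exact (inv_mul_eq_one.1 (Subtype.ext this)).symm

theorem attained_sub [Nonempty ι] (hpos : IsF E ∅) (hd : finrank ℝ E = d + 1) :
    Attained (toSys hpos hd).k d := by
  obtain ⟨g, g1, -, g3⟩ := hpos.fn
  have gp : ∀ i, 0 < g i := fun i => g3 i id
  obtain ⟨i0⟩ := ‹Nonempty ι›
  let ev : E →ₗ[ℝ] ℝ := (LinearMap.proj i0).comp E.subtype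
  have hr : ev.range = ⊤ := LinearMap.range_eq_top.2 fun c =>
    ⟨(c / g i0) • ⟨g, g1.1⟩, by simp [ev, (gp i0).ne']⟩
  have hk : finrank ℝ ev.ker = d := by
    have := ev.finrank_range_add_finrank_ker
    rw [hr, finrank_top, finrank_self, hd] at this
    omega
  have : Module.Free ℝ ev.ker := Module.Free.of_divisionRing ℝ ev.ker
  let b := finBasisOfFinrankEq ℝ ev.ker hk
  let v : ι → EuclideanSpace ℝ (Fin d) := fun i => WithLp.toLp 2 fun j => (b j).1.1 i / g i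
  let D : (ι → ℝ) ≃ₗ[ℝ] (ι → ℝ) := LinearEquiv.piCongrRight fun i =>
    LinearEquiv.smulOfNeZero ℝ ℝ (g i)⁻¹ (inv_ne_zero (gp i).ne')
  have hD : ∀ f i, D f i = (g i)⁻¹ * f i := fun f i => rfl
  have hv : ∀ (l : StrongDual ℝ (EuclideanSpace ℝ (Fin d))) i,
      l (v i) = (∑ j, l (EuclideanSpace.single j 1) * (b j).1.1 i) / g i := fun l i => by
    have : v i = ∑ j, ((b j).1.1 i / g i) • EuclideanSpace.single j (1 : ℝ) := by
      ext j
      simp [v, Finset.sum_apply, Pi.single_apply]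
    rw [this, map_sum, Finset.sum_div]
    exact Finset.sum_congr rfl fun j _ => by rw [map_smul, smul_eq_mul]; ring
  have he : (affT v).range = E.map (D : (ι → ℝ) →ₗ[ℝ] (ι → ℝ)) := by
    apply le_antisymm
    · rintro _ ⟨⟨c, l⟩, rfl⟩
      refine ⟨c • g + ∑ j, l (EuclideanSpace.single j 1) • (b j).1.1, E.add_mem
        (E.smul_mem _ g1.1) (E.sum_mem fun j _ => E.smul_mem _ (b j).1.2), funext fun i => ?_⟩
      have := (gp i).ne'
      simp only [LinearEquiv.coe_coe, hD, affT, LinearMap.coe_mk, AddHom.coe_mk, hv, Pi.add_apply,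
        Pi.smul_apply, smul_eq_mul, Finset.sum_apply]
      field_simp
    · rintro _ ⟨f, hf, rfl⟩
      let k : ev.ker := ⟨⟨f - (f i0 / g i0) • g, E.sub_mem hf (E.smul_mem _ g1.1)⟩, by
        simp [ev, (gp i0).ne']⟩
      refine ⟨(f i0 / g i0, ∑ j, b.repr k j • EuclideanSpace.proj j), funext fun i => ?_⟩
      have h1 := congrArg (fun z : ev.ker => z.1.1 i) (b.sum_repr k)
      have := (gp i).ne'
      simp only [AddSubmonoidClass.coe_finsetSum, SetLike.val_smul, Finset.sum_apply,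
        Pi.smul_apply, smul_eq_mul, k, Pi.sub_apply] at h1
      simp only [LinearEquiv.coe_coe, hD, affT, LinearMap.coe_mk, AddHom.coe_mk,
        FunLike.coe_sum, Finset.sum_apply, FunLike.coe_smul,
        Pi.smul_apply, EuclideanSpace.coe_proj, smul_eq_mul, v, ← mul_div_assoc, ← Finset.sum_div]
      rw [h1]
      field_simp
      ring
  have hF : ∀ G, IsF (affT v).range G ↔ IsF E G := fun G => by
    rw [he]
    constructor
    · rintro ⟨_, ⟨f, hf, rfl⟩, f2, f3⟩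
      simp only [LinearEquiv.coe_coe, hD] at f2 f3
      refine ⟨f, hf, fun i => (mul_nonneg_iff_of_pos_left (inv_pos.2 (gp i))).1 (f2 i), fun i => ?_⟩
      rw [← f3, mul_eq_zero, or_iff_right (inv_ne_zero (gp i).ne')]
    · rintro ⟨f, hf, f2, f3⟩
      refine ⟨_, ⟨f, hf, rfl⟩, fun i => mul_nonneg (inv_pos.2 (gp i)).le (f2 i), fun i => ?_⟩
      simp only [LinearEquiv.coe_coe, hD]
      rw [← f3, mul_eq_zero, or_iff_right (inv_ne_zero (gp i).ne')]
  have hd' : finrank ℝ (affT v).range = d + 1 := by rw [he, LinearEquiv.finrank_map_eq, hd]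
  have := attained_of v hd'
  rw [k_eq] at this ⊢
  rwa [show IsF (affT v).range = IsF E from funext fun G => propext (hF G)] at this

end Pool.Agent.Lib.MP_7157e1_co
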