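import Pool.Agent.Lib.MP_7157e1_co.X2

/-! Cut simplex towers: the space of functions and its faces. -/

namespace Pool.Agent.Lib.MP_7157e1_co
open Module Function Finset

section General
variable {ι : Type} [Fintype ι] {E : Submodule ℝ (ι → ℝ)}

theorem isF_of_cut {B S : Set ι} (hB : IsF E B) (hS : S ⊆ B)
    (h : ∀ z ∈ B, z ∉ S → ∃ f ∈ E, (∀ w ∈ B, 0 ≤ f w) ∧ (∀ w ∈ S, f w = 0) ∧ f z ≠ 0) :
    IsF E S := by
  classical
  choose! f f1 f2 f3 f4 using h
  let T : Finset ι := univ.filter fun z => z ∈ B ∧ z ∉ S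
  have hT : ∀ z ∈ T, z ∈ B ∧ z ∉ S := fun z hz => (mem_filter.1 hz).2
  have := hB.cut (f := ∑ z ∈ T, f z) (E.sum_mem fun z hz => f1 z (hT z hz).1 (hT z hz).2)
    fun w hw => by
      rw [Finset.sum_apply]
      exact sum_nonneg fun z hz => f2 z (hT z hz).1 (hT z hz).2 w hw
  convert this using 1
  ext w
  simp only [Set.mem_ofPred_eq, Finset.sum_apply]
  refine ⟨fun hw => ⟨hS hw, sum_eq_zero fun z hz => f3 z (hT z hz).1 (hT z hz).2 w hw⟩,
    fun ⟨h1, h2⟩ => ?_⟩
  by_contra hw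
  rw [sum_eq_zero_iff_of_nonneg fun z hz => f2 z (hT z hz).1 (hT z hz).2 w h1] at h2
  exact f4 w h1 hw (h2 w (mem_filter.2 ⟨mem_univ _, h1, hw⟩))

theorem comp_inv_mem {π : Equiv.Perm ι} (h : ∀ f ∈ E, f ∘ π ∈ E) : 
    ∀ f ∈ E, f ∘ ⇑(π⁻¹) ∈ E := by
  have k : ∀ n : ℕ, ∀ f ∈ E, f ∘ ⇑(π ^ n) ∈ E := fun n => by
    induction n with
    | zero => exact fun f hf => hf
    | succ n ih => exact fun f hf => by rw [pow_succ]; exact h _ (ih f hf)
  have : π⁻¹ = π ^ (orderOf π - 1) := by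
    rw [inv_eq_iff_mul_eq_one, ← pow_succ', Nat.sub_add_cancel (orderOf_pos π), pow_orderOf_eq_one]
  rw [this]
  exact k _

omit [Fintype ι] in
theorem IsF.pre {π : ι → ι} (h : ∀ f ∈ E, f ∘ π ∈ E) {G : Set ι} (hG : IsF E G) :
    IsF E (π ⁻¹' G) := by
  obtain ⟨f, f1, f2, f3⟩ := hG
  exact ⟨f ∘ π, h f f1, fun i => f2 _, fun i => f3 _⟩

/-- the automorphism of the face lattice given by a linear symmetry -/
def permIso (π : Equiv.Perm ι) (h : ∀ f ∈ E, f ∘ π ∈ E) : {G // IsF E G} ≃o {G // IsF E G} where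
  toFun G := ⟨π ⁻¹' G.1, G.2.pre h⟩
  invFun G := ⟨⇑(π⁻¹) ⁻¹' G.1, G.2.pre (comp_inv_mem h)⟩
  left_inv G := Subtype.ext (Set.ext fun i => by simp)
  right_inv G := Subtype.ext (Set.ext fun i => by simp)
  map_rel_iff' := fun {_ _} => Set.preimage_subset_preimage_iff (by simp)

theorem permIso_inj (hs : ∀ i, IsF E {i}) {π π' : Equiv.Perm ι} {h h'}
    (e : permIso (E := E) π h = permIso π' h') : π = π' := by
  ext i
  have : i ∈ (permIso π h ⟨{π i}, hs _⟩).1 := rfl
  rw [e] at this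
  exact (show π' i = π i from this).symm

end General

namespace Cut

/-- index set -/
abbrev I (d N : ℕ) : Type := Fin d × Option (Fin (N + 1))

variable {d N : ℕ} (a0 j : ℕ)

/-- lower constraints -/
noncomputable def lam (N : ℕ) (a : ℕ) (c t : ℝ) : ℝ :=
  ((N + 1) ^ 2 + a * (a + 1)) * c + (2 * a0 + j - 2 * a) * t

/-- upper constraint -/
noncomputable def psi (d N : ℕ) : ℝ := (d - 1) * ((N + 1) ^ 2 + (a0 + 1 / 2) * (a0 + j + 1 / 2))

/-- the functions -/
noncomputable def mk (c t : ℝ) (x : Fin d → ℝ) : I d N → ℝ := fun z =>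
  match z.2 with
  | some a => x z.1 + lam a0 j N a c t
  | none => psi a0 j d N * c - x z.1

@[simp] theorem mk_some (c t : ℝ) (x : Fin d → ℝ) (i : Fin d) (a : Fin (N + 1)) :
    mk a0 j c t x (i, some a) = x i + lam a0 j N a c t := rfl

@[simp] theorem mk_none (c t : ℝ) (x : Fin d → ℝ) (i : Fin d) :
    mk a0 j c t x ((i, none) : I d N) = psi a0 j d N * c - x i := rfl

variable (d N) in
/-- parametrisation -/
noncomputable def par : (ℝ × (Fin d → ℝ)) →ₗ[ℝ] (I d N → ℝ) where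
  toFun p := mk a0 j p.1 (∑ i, p.2 i) fun i => p.2 i - (∑ i, p.2 i) / d
  map_add' p q := by
    ext ⟨i, _ | a⟩ <;> simp [lam, sum_add_distrib] <;> ring
  map_smul' r p := by
    ext ⟨i, _ | a⟩ <;> simp [lam, ← mul_sum] <;> ring

variable (d N) in
/-- the space -/
noncomputable abbrev EE : Submodule ℝ (I d N → ℝ) := (par d N a0 j).range

variable {a0 j}

theorem mem_EE (hd : 3 ≤ d) {f : I d N → ℝ} :
    f ∈ EE d N a0 j ↔ ∃ c t x, ∑ i, x i = 0 ∧ f = mk a0 j c t x := by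
  have : (d : ℝ) ≠ 0 := by positivity
  constructor
  · rintro ⟨p, rfl⟩
    refine ⟨p.1, ∑ i, p.2 i, fun i => p.2 i - (∑ i, p.2 i) / d, ?_, rfl⟩
    rw [sum_sub_distrib, sum_const, card_univ, Fintype.card_fin, nsmul_eq_mul]
    field_simp; ring
  · rintro ⟨c, t, x, hx, rfl⟩
    have k : ∑ i, (x i + t / d) = t := by
      rw [sum_add_distrib, hx, sum_const, card_univ, Fintype.card_fin, nsmul_eq_mul]
      field_simp; ring
    refine ⟨(c, fun i => x i + t / d), ?_⟩
    simp only [par, LinearMap.coe_mk, AddHom.coe_mk, k, add_sub_cancel_right]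

theorem rank_le : finrank ℝ (EE d N a0 j) ≤ d + 1 :=
  (LinearMap.finrank_range_le _).trans (by simp [add_comm])

/-- patterns -/
def G (L : Finset (Fin d)) (A : Finset (Fin (N + 1))) (U : Finset (Fin d)) : Finset (I d N) :=
  L ×ˢ A.image some ∪ U ×ˢ {none}

@[simp] theorem G_some {L A U} {i : Fin d} {a : Fin (N + 1)} :
    (i, some a) ∈ G L A U ↔ i ∈ L ∧ a ∈ A := by simp [G]

@[simp] theorem G_none {L U} {A : Finset (Fin (N + 1))} {i : Fin d} :
    (i, none) ∈ G L A U ↔ i ∈ U := by simp [G]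

theorem G_card (L : Finset (Fin d)) (A : Finset (Fin (N + 1))) (U : Finset (Fin d)) :
    (G L A U).card = L.card * A.card + U.card := by
  rw [G, card_union_of_disjoint, card_product, card_product,
    card_image_of_injective _ (Option.some_injective _), card_singleton, mul_one]
  rw [disjoint_left]
  rintro ⟨i, _ | a⟩ <;> simp

theorem cond (hd : 3 ≤ d) {S : Set (I d N)} (hS : IsF (EE d N a0 j) S) {i i' a b}
    (h1 : (i, some a) ∈ S) (h2 : (i', some b) ∈ S) : (i, some b) ∈ S := by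
  obtain ⟨f, f1, f2, f3⟩ := hS
  obtain ⟨c, t, x, -, rfl⟩ := (mem_EE hd).1 f1
  rw [← f3] at h1 h2 ⊢
  have k1 := f2 (i, some b)
  have k2 := f2 (i', some a)
  simp only [mk_some] at *
  linarith

theorem psi_pos (hd : 3 ≤ d) : 0 < psi a0 j d N := by
  have : (3 : ℝ) ≤ d := by exact_mod_cast hd
  exact mul_pos (by linarith) (by positivity)

theorem lam_sub (a b : ℕ) (t : ℝ) :
    lam a0 j N a 1 t - lam a0 j N b 1 t = (b - a) * (2 * t - (a + b + 1)) := by
  simp only [lam]; ring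

/-- the sign function -/
theorem lam_g (a : ℕ) (t : ℝ) : (d - 1) * lam a0 j N a 1 t - psi a0 j d N =
    (d - 1) * (a * (a + 1) + (2 * a0 + j - 2 * a) * t - (a0 + 1 / 2) * (a0 + j + 1 / 2)) := by
  simp only [lam, psi]; ring

/-- slab number -/
def sl (N a : ℕ) : Fin (N + 1) := Fin.ofNat (N + 1) a

theorem sl_val {a : ℕ} (h : a ≤ N) : (sl N a).val = a := Nat.mod_eq_of_lt (by omega)

theorem eq_sl {a : ℕ} (h : a ≤ N) {b : Fin (N + 1)} : b = sl N a ↔ b.val = a := by
  rw [Fin.ext_iff, sl_val h]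

variable (d N a0 j) in
/-- index of the facets -/
abbrev J : Type := Bool ⊕ (Fin d × ↥(range a0 ∪ Ico (a0 + j) N)) ⊕ (Fin d × Bool) ⊕
  (↥(univ : Finset (Fin d)).offDiag × ↥(Ico a0 (a0 + j)))

/-- the facets as triples -/
def tr : J d N a0 j → Finset (Fin d) × Finset (Fin (N + 1)) × Finset (Fin d)
  | Sum.inl b => (univ, {sl N (if b then N else 0)}, ∅)
  | Sum.inr (Sum.inl (i, a)) => ({i}ᶜ, {sl N a, sl N (a + 1)}, ∅)
  | Sum.inr (Sum.inr (Sum.inl (u, b))) => ({u}ᶜ, {sl N (if b then a0 + j else a0)}, {u})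
  | Sum.inr (Sum.inr (Sum.inr (p, a))) => ({p.1.1, p.1.2}ᶜ, {sl N a, sl N (a + 1)}, {p.1.1})

/-- the facets -/
def fac (x : J d N a0 j) : Finset (I d N) := G (tr x).1 (tr x).2.1 (tr x).2.2

theorem g_layer (a : ℕ) : (d - 1) * lam a0 j N a 1 (a + 1) - psi a0 j d N =
    (d - 1) * ((a + 1 / 2 - a0) * (a0 + j - a - 1 / 2)) := by
  rw [lam_g]; ring

theorem lam_pos {a : ℕ} (ha : a ≤ N) {t : ℝ} (h1 : a ≤ t) (h2 : t ≤ a + 1) :
    0 < lam a0 j N a 1 t := by
  have : (a : ℝ) ≤ N := by exact_mod_cast ha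
  have h0 : (0 : ℝ) ≤ a := by positivity
  have h3 : 0 ≤ (2 * a0 + j : ℝ) * t := mul_nonneg (by positivity) (by linarith)
  simp only [lam]
  nlinarith

theorem sub_fac1 (hd : 3 ≤ d) (ha0 : 1 ≤ a0) (hj : 1 ≤ j) (hN : a0 + j ≤ N) {t : ℝ}
    {x : Fin d → ℝ} (hx : ∑ i, x i = 0) (h0 : ∀ z : I d N, 0 ≤ mk a0 j 1 t x z) :
    ∃ y : J d N a0 j, ∀ z, mk a0 j 1 t x z = 0 → z ∈ fac y := by
  have hd' : (3 : ℝ) ≤ d := by exact_mod_cast hd
  have hd1 : (0 : ℝ) < d - 1 := by linarith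
  have hl : ∀ i a, a ≤ N → 0 ≤ x i + lam a0 j N a 1 t := fun i a ha => by
    have := h0 (i, some (sl N a))
    rwa [mk_some, sl_val ha] at this
  have hu : ∀ i, x i ≤ psi a0 j d N := fun i => by
    have := h0 (i, none)
    rw [mk_none] at this; linarith
  have hp := psi_pos (N := N) (a0 := a0) (j := j) hd
  obtain ⟨a, aN, a1, a2⟩ : ∃ a : ℕ, a ≤ N ∧ (a = 0 ∨ a < t) ∧ (a = N ∨ t ≤ a + 1) := by
    refine ⟨min N (⌈t⌉₊ - 1), min_le_left _ _, ?_, ?_⟩
    · refine or_iff_not_imp_left.2 fun k => Nat.lt_ceil.1 (by omega)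
    · refine or_iff_not_imp_left.2 fun k => ?_
      have : ⌈t⌉₊ ≤ min N (⌈t⌉₊ - 1) + 1 := by omega
      exact_mod_cast Nat.ceil_le.1 this
  obtain ⟨φ, hφ⟩ : ∃ φ, φ = lam a0 j N a 1 t := ⟨_, rfl⟩
  have tight : ∀ i (b : Fin (N + 1)), x i + lam a0 j N b 1 t = 0 →
      x i + φ = 0 ∧ (b.val = a ∨ (b.val = a + 1 ∧ t = a + 1)) := fun i b hb => by
    have bN : b.val ≤ N := Nat.lt_succ_iff.1 b.2
    rcases lt_trichotomy b.val a with k | k | k
    · exfalso
      have e := lam_sub (a0 := a0) (j := j) (N := N) b.val (b.val + 1) t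
      have := hl i (b.val + 1) (by omega)
      have k' : (b.val + 1 : ℝ) ≤ a := by exact_mod_cast k
      have := a1.resolve_left (by omega)
      push_cast at e
      linarith
    · exact ⟨by rw [hφ, ← k, hb], Or.inl k⟩
    · obtain ⟨c, hc⟩ : ∃ c, b.val = c + 1 := ⟨b.val - 1, by omega⟩
      have e := lam_sub (a0 := a0) (j := j) (N := N) (c + 1) c t
      have := hl i c (by omega)
      have := a2.resolve_left (by omega)
      rw [hc] at hb k
      push_cast at e
      have k1 : (c : ℝ) ≤ a := by linarith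
      have k2 : c = a := le_antisymm (by exact_mod_cast k1) (by omega)
      subst k2
      exact ⟨by rw [hφ]; linarith, Or.inr ⟨hc, by linarith⟩⟩
  have y0 : ∀ i, 0 ≤ x i + φ := fun i => hφ ▸ hl i a aN
  have ys : ∑ i, (x i + φ) = d * φ := by
    rw [sum_add_distrib, hx, sum_const, card_univ, Fintype.card_fin, nsmul_eq_mul, zero_add]
  have φ0 : 0 ≤ φ := by
    have : 0 ≤ ∑ i, (x i + φ) := sum_nonneg fun i _ => y0 i
    rw [ys] at this
    exact nonneg_of_mul_nonneg_right this (by linarith) 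
  have red : ∀ y : J d N a0 j, (∀ i, x i + φ = 0 → i ∈ (tr y).1) → sl N a ∈ (tr y).2.1 →
      (a < N → t = a + 1 → sl N (a + 1) ∈ (tr y).2.1) →
      (∀ i, x i = psi a0 j d N → i ∈ (tr y).2.2) →
      ∀ z, mk a0 j 1 t x z = 0 → z ∈ fac y := by
    rintro y k1 k2 k3 k4 ⟨i, _ | b⟩ hz
    · rw [mk_none] at hz
      exact G_none.2 (k4 i (by linarith))
    · obtain ⟨t1, t2⟩ := tight i b hz
      refine G_some.2 ⟨k1 i t1, ?_⟩
      rcases t2 with t2 | ⟨t2, t3⟩
      · rwa [(eq_sl aN).2 t2]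
      · have := b.2
        rw [(eq_sl (by omega)).2 t2]; exact k3 (by omega) t3
  have G1 : a + 1 ≤ a0 → (d - 1) * φ < psi a0 j d N := fun k => by
    have k' : (a + 1 : ℝ) ≤ a0 := by exact_mod_cast k
    have := a2.resolve_left (by omega)
    rw [← sub_neg, hφ, lam_g]
    refine mul_neg_of_pos_of_neg hd1 ?_
    have h5 : (0 : ℝ) ≤ j := by positivity
    nlinarith [mul_le_mul_of_nonneg_left this (show (0 : ℝ) ≤ 2 * a0 + j - 2 * a by linarith)]
  have G2 : a0 + j + 1 ≤ a → (d - 1) * φ < psi a0 j d N := fun k => by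
    have k' : (a0 + j + 1 : ℝ) ≤ a := by exact_mod_cast k
    have := a1.resolve_left (by omega)
    rw [← sub_neg, hφ, lam_g]
    refine mul_neg_of_pos_of_neg hd1 ?_
    have h5 : (0 : ℝ) ≤ j := by positivity
    nlinarith [mul_le_mul_of_nonneg_left this.le (show (0 : ℝ) ≤ 2 * a - (2 * a0 + j) by linarith)]
  have G3 : a0 + 1 ≤ a → a + 1 ≤ a0 + j → psi a0 j d N < (d - 1) * φ := fun k1 k2 => by
    have k1' : (a0 + 1 : ℝ) ≤ a := by exact_mod_cast k1
    have k2' : (a + 1 : ℝ) ≤ a0 + j := by exact_mod_cast k2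
    have t1 := a1.resolve_left (by omega)
    have t2 := a2.resolve_left (by omega)
    rw [← sub_pos, hφ, lam_g]
    refine mul_pos hd1 ?_
    have e1 : 0 < (a - a0 - 1 / 2 : ℝ) * (a0 + j + 1 / 2 - a) := mul_pos (by linarith) (by linarith)
    have e2 : 0 < (a + 1 / 2 - a0 : ℝ) * (a0 + j - a - 1 / 2) := mul_pos (by linarith) (by linarith)
    nlinarith [mul_nonneg e1.le (sub_nonneg.2 t2), mul_pos e2 (sub_pos.2 t1)]
  have G4 : t = a + 1 → a0 ≤ a → a < a0 + j → psi a0 j d N < (d - 1) * φ := fun e k1 k2 => by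
    have k1' : (a0 : ℝ) ≤ a := by exact_mod_cast k1
    have k2' : (a + 1 : ℝ) ≤ a0 + j := by exact_mod_cast k2
    rw [← sub_pos, hφ, e, g_layer]
    exact mul_pos hd1 (mul_pos (by linarith) (by linarith))
  have G5 : t = a + 1 → a0 + j ≤ a → (d - 1) * φ < psi a0 j d N := fun e k => by
    have k' : (a0 + j : ℝ) ≤ a := by exact_mod_cast k
    have h5 : (0 : ℝ) ≤ j := by positivity
    rw [← sub_neg, hφ, e, g_layer]
    exact mul_neg_of_pos_of_neg hd1 (mul_neg_of_pos_of_neg (by linarith) (by linarith))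
  have f2 : ∀ i b, (b < a0 ∨ (a0 + j ≤ b ∧ b < N)) → (a = b ∨ (a = b + 1 ∧ (a < N → t ≠ a + 1))) →
      x i + φ ≠ 0 → (∀ i, x i ≠ psi a0 j d N) →
      ∃ y : J d N a0 j, ∀ z, mk a0 j 1 t x z = 0 → z ∈ fac y := fun i b k1 k2 k3 k4 => by
    refine ⟨Sum.inr (Sum.inl (i, ⟨b, by simpa using k1⟩)), red _ (fun i' e => ?_) ?_
      (fun e1 e2 => ?_) fun i e => absurd e (k4 i)⟩
    · simpa [tr] using fun e' : i' = i => k3 (e' ▸ e)
    · rcases k2 with rfl | ⟨rfl, -⟩ <;> simp [tr]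
    · rcases k2 with rfl | ⟨-, k⟩
      · simp [tr]
      · exact absurd e2 (k e1)
  have f4 : ∀ u i b, u ≠ i → a0 ≤ b → b < a0 + j → (a = b ∨ (a = b + 1 ∧ (a < N → t ≠ a + 1))) →
      x u + φ ≠ 0 → x i + φ ≠ 0 → (∀ i, x i = psi a0 j d N → i = u) →
      ∃ y : J d N a0 j, ∀ z, mk a0 j 1 t x z = 0 → z ∈ fac y := fun u i b k0 k1 k1' k2 k3 k3' k4 => by
    refine ⟨Sum.inr (Sum.inr (Sum.inr (⟨(u, i), by simpa using k0⟩, ⟨b, by simp [k1, k1']⟩))),
      red _ (fun i' e => ?_) ?_ (fun e1 e2 => ?_) fun i e => by simpa [tr] using k4 i e⟩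
    · simpa [tr] using ⟨fun e' => k3 (e' ▸ e), fun e' => k3' (e' ▸ e)⟩
    · rcases k2 with rfl | ⟨rfl, -⟩ <;> simp [tr]
    · rcases k2 with rfl | ⟨-, k⟩
      · simp [tr]
      · exact absurd e2 (k e1)
  by_cases c1 : ∀ i, x i + φ = 0
  · have : φ = 0 := by
      rw [sum_eq_zero fun i _ => c1 i] at ys
      exact (mul_eq_zero.1 ys.symm).resolve_left (by linarith)
    have k : ¬ ((a : ℝ) ≤ t ∧ t ≤ a + 1) := fun k => (lam_pos aN k.1 k.2).ne' (hφ ▸ this)
    have k2 : a = N ∨ a = 0 := by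
      by_contra hc
      push Not at hc
      exact k ⟨(a1.resolve_left hc.2).le, a2.resolve_left hc.1⟩
    refine ⟨Sum.inl (decide (a = N)), red _ (fun i _ => mem_univ _) ?_ (fun _ e => ?_)
      fun i e => ?_⟩
    · rcases k2 with rfl | rfl
      · simp [tr]
      · simp [tr, show 0 ≠ N by omega]
    · exact absurd ⟨by linarith, by linarith⟩ k
    · have := c1 i; linarith
  push Not at c1
  obtain ⟨i0, hi0⟩ := c1
  by_cases c2 : ∃ u, x u = psi a0 j d N
  swap
  · push Not at c2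
    by_cases c3 : ∃ i1, i1 ≠ i0 ∧ x i1 + φ ≠ 0
    · obtain ⟨i1, e1, e2⟩ := c3
      obtain ⟨b, b1, b2⟩ : ∃ b, b < N ∧ (a = b ∨ (a = b + 1 ∧ (a < N → t ≠ a + 1))) := by
        by_cases k : a < N
        · exact ⟨a, k, Or.inl rfl⟩
        · exact ⟨a - 1, by omega, Or.inr ⟨by omega, fun k' => absurd k' k⟩⟩
      by_cases k : b < a0 ∨ (a0 + j ≤ b ∧ b < N)
      · exact f2 i0 b k b2 hi0 c2
      · exact f4 i0 i1 b e1.symm (by omega) (by omega) b2 hi0 e2 fun i e => absurd e (c2 i)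
    · push Not at c3
      rw [sum_eq_single i0 (fun i _ e => c3 i e) (by simp)] at ys
      have g : (d - 1) * φ < psi a0 j d N := by
        have := lt_of_le_of_ne (hu i0) (c2 i0); linarith
      by_cases k : a < a0 ∨ (a0 + j ≤ a ∧ a < N)
      · exact f2 i0 a k (Or.inl rfl) hi0 c2
      have nt : a < N → t ≠ a + 1 := fun k1 e => (G4 e (by omega) (by omega)).not_gt g
      by_cases k' : a - 1 < a0 ∨ (a0 + j ≤ a - 1 ∧ a - 1 < N)
      · exact f2 i0 (a - 1) k' (Or.inr ⟨by omega, nt⟩) hi0 c2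
      have : a = N := by
        by_contra hc
        exact (G3 (by omega) (by omega)).not_gt g
      exact ⟨Sum.inl true, red _ (fun i _ => mem_univ _) (by simp [tr, this]) (by omega)
        fun i e => absurd e (c2 i)⟩
  obtain ⟨u, hu'⟩ := c2
  have uL : x u + φ ≠ 0 := by linarith [hu', hp, φ0, show 0 < x u + φ by linarith] 
  have uniq : ∀ i, x i = psi a0 j d N → i = u := fun i e => by
    by_contra hne
    have key : ∀ b, b ≤ N → lam a0 j N b 1 t ≤ 2 * (N + 1) ^ 2 → False := fun b hb k => by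
      have s1 := add_le_sum (s := univ) (f := fun i => x i + lam a0 j N b 1 t)
        (fun i _ => hl i b hb) (mem_univ i) (mem_univ u) hne
      rw [sum_add_distrib, hx, sum_const, card_univ, Fintype.card_fin, nsmul_eq_mul, e, hu'] at s1
      have s2 : (d - 1 : ℝ) * (N + 1) ^ 2 ≤ psi a0 j d N :=
        mul_le_mul_of_nonneg_left (le_add_of_nonneg_right (by positivity)) hd1.le
      have s3 : (0 : ℝ) < (N + 1) ^ 2 := by positivity
      nlinarith [mul_le_mul_of_nonneg_left k (show (0 : ℝ) ≤ d - 2 by linarith)]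
    have hN' : (a0 + j : ℝ) ≤ N := by exact_mod_cast hN
    have h5 : (0 : ℝ) ≤ j := by positivity
    have h6 : (0 : ℝ) ≤ a0 := by positivity
    rcases le_total t 0 with k | k
    · refine key 0 (by omega) ?_
      simp only [lam, Nat.cast_zero]
      have s3 : (0 : ℝ) < (N + 1) ^ 2 := by positivity
      nlinarith [mul_nonneg (show (0 : ℝ) ≤ 2 * a0 + j by positivity) (neg_nonneg.2 k)]
    · refine key N le_rfl ?_
      simp only [lam]
      nlinarith [mul_nonneg (show (0 : ℝ) ≤ 2 * N - (2 * a0 + j) by linarith) k]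
  by_cases c3 : ∃ i1, i1 ≠ u ∧ x i1 + φ ≠ 0
  · obtain ⟨i1, e1, e2⟩ := c3
    have s1 := add_le_sum (s := univ) (f := fun i => x i + φ) (fun i _ => y0 i) (mem_univ i1)
      (mem_univ u) e1
    have g : psi a0 j d N < (d - 1) * φ := by
      have := lt_of_le_of_ne (y0 i1) e2.symm
      simp only [ys, hu'] at s1
      linarith
    have b1 : a0 ≤ a := by by_contra k; exact (G1 (by omega)).not_gt g
    have b2 : a ≤ a0 + j := by by_contra k; exact (G2 (by omega)).not_gt g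
    by_cases k : a < a0 + j
    · exact f4 u i1 a e1.symm b1 k (Or.inl rfl) uL e2 uniq
    · exact f4 u i1 (a - 1) e1.symm (by omega) (by omega)
        (Or.inr ⟨by omega, fun _ e => (G5 e (by omega)).not_gt g⟩) uL e2 uniq
  · push Not at c3
    rw [sum_eq_single u (fun i _ e => c3 i e) (by simp)] at ys
    have g : psi a0 j d N = (d - 1) * φ := by linarith
    have b1 : a0 ≤ a := by by_contra k; exact (G1 (by omega)).ne' g
    have b2 : a ≤ a0 + j := by by_contra k; exact (G2 (by omega)).ne' g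
    have b3 : a = a0 + j ∨ a = a0 := by by_contra k; exact (G3 (by omega) (by omega)).ne g
    refine ⟨Sum.inr (Sum.inr (Sum.inl (u, decide (a = a0 + j)))), red _ (fun i e => ?_) ?_
      (fun _ e => ?_) fun i e => by simpa [tr] using uniq i e⟩
    · simpa [tr] using fun e' : i = u => uL (e' ▸ e)
    · rcases b3 with rfl | rfl
      · simp [tr]
      · simp [tr, show j ≠ 0 by omega]
    · rcases b3 with k | k
      · exact absurd g (G5 e k.ge).ne'
      · exact absurd g (G4 e k.ge (by omega)).ne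

theorem sub_fac (hd : 3 ≤ d) (ha0 : 1 ≤ a0) (hj : 1 ≤ j) (hN : a0 + j ≤ N) {S : Set (I d N)}
    (hS : IsF (EE d N a0 j) S) (hne : S ≠ Set.univ) : ∃ y : J d N a0 j, S ⊆ fac y := by
  obtain ⟨f, f1, f2, f3⟩ := hS
  obtain ⟨c, t, x, hx, rfl⟩ := (mem_EE hd).1 f1
  have hd' : (3 : ℝ) ≤ d := by exact_mod_cast hd
  have hp := psi_pos (N := N) (a0 := a0) (j := j) hd
  have sm : ∀ (r : ℝ), (∀ i, 0 ≤ x i + r) → 0 ≤ r := fun r h => by
    have : 0 ≤ ∑ i, (x i + r) := sum_nonneg fun i _ => h i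
    rw [sum_add_distrib, hx, sum_const, card_univ, Fintype.card_fin, nsmul_eq_mul, zero_add] at this
    exact nonneg_of_mul_nonneg_right this (by linarith)
  have c0 : 0 ≤ c := by
    have : 0 ≤ ∑ i, (psi a0 j d N * c - x i) := sum_nonneg fun i _ => f2 (i, none)
    rw [sum_sub_distrib, hx, sum_const, card_univ, Fintype.card_fin, nsmul_eq_mul, sub_zero] at this
    exact nonneg_of_mul_nonneg_right (nonneg_of_mul_nonneg_right this (by linarith)) hp
  rcases c0.eq_or_lt with rfl | c0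
  · exfalso
    have x0 : ∀ i, x i = 0 := fun i => (sum_eq_zero_iff_of_nonpos fun i _ => by
      have := f2 (i, none); rw [mk_none] at this; linarith).1 hx i (mem_univ _)
    have t1 := sm _ fun i => f2 (i, some 0)
    have t2 := sm _ fun i => f2 (i, some (Fin.last N))
    have hN' : (a0 + j : ℝ) ≤ N := by exact_mod_cast hN
    have h5 : (1 : ℝ) ≤ j := by exact_mod_cast hj
    have h6 : (0 : ℝ) ≤ a0 := by positivity
    simp only [lam, Fin.val_zero, Fin.val_last, mul_zero, zero_add, Nat.cast_zero, sub_zero] at t1 t2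
    have t0 : t = 0 := le_antisymm (nonpos_of_mul_nonneg_right t2 (by linarith))
      (nonneg_of_mul_nonneg_right t1 (by linarith))
    refine hne (Set.eq_univ_of_forall fun z => (f3 z).1 ?_)
    rcases z with ⟨i, _ | a⟩ <;> simp [x0, lam, t0]
  have e : ∀ z : I d N, mk a0 j c t x z = c * mk a0 j 1 (t / c) (fun i => x i / c) z := by
    rintro ⟨i, _ | a⟩ <;> simp only [mk_some, mk_none, lam] <;> field_simp
  obtain ⟨y, hy⟩ := sub_fac1 (N := N) (t := t / c) (x := fun i => x i / c) hd ha0 hj hN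
    (by rw [← sum_div, hx, zero_div]) fun z => nonneg_of_mul_nonneg_right (e z ▸ f2 z) c0
  exact ⟨y, fun z hz => hy z ((mul_eq_zero.1 (e z ▸ (f3 z).2 hz)).resolve_left c0.ne')⟩

end Cut

end Pool.Agent.Lib.MP_7157e1_co
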