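import Pool.Agent.Lib.MP_7157e1_co.X3

/-! Cut simplex towers: the listed facets and their subfaces are faces. -/

namespace Pool.Agent.Lib.MP_7157e1_co
open Module Function Finset

theorem all_sub {ι : Type} [Fintype ι] {E : Submodule ℝ (ι → ℝ)} {B : Set ι} (hB : IsF E B)
    (h : ∀ z ∈ B, ∃ f ∈ E, (∀ w ∈ B, w ≠ z → f w = 0) ∧ 0 < f z) {S : Set ι} (hS : S ⊆ B) :
    IsF E S :=
  isF_of_cut hB hS fun z hz hz' => by
    obtain ⟨f, f1, f2, f3⟩ := h z hz
    refine ⟨f, f1, fun w hw => ?_, fun w hw => f2 w (hS hw) fun e => hz' (e ▸ hw), f3.ne'⟩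
    by_cases e : w = z
    · rw [e]; exact f3.le
    · exact (f2 w hw e).ge

namespace Cut
variable {d N a0 j : ℕ}

theorem isF_G (hd : 3 ≤ d) (t φ : ℝ) (x : Fin d → ℝ) (hx : ∑ i, x i = 0) {L U : Finset (Fin d)}
    {A : Finset (Fin (N + 1))}
    (h1 : ∀ b : Fin (N + 1), φ ≤ lam a0 j N b 1 t ∧ (lam a0 j N b 1 t = φ ↔ b ∈ A))
    (h2 : ∀ i, 0 ≤ x i + φ ∧ (x i + φ = 0 ↔ i ∈ L))
    (h3 : ∀ i, x i ≤ psi a0 j d N ∧ (x i = psi a0 j d N ↔ i ∈ U)) :
    IsF (EE d N a0 j) (G L A U : Set (I d N)) := by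
  refine ⟨mk a0 j 1 t x, (mem_EE hd).2 ⟨1, t, x, hx, rfl⟩, ?_, ?_⟩
  · rintro ⟨i, _ | b⟩
    · rw [mk_none]; linarith [(h3 i).1]
    · rw [mk_some]; linarith [(h1 b).1, (h2 i).1]
  · rintro ⟨i, _ | b⟩
    · rw [mk_none, mem_coe, G_none, ← (h3 i).2, mul_one, sub_eq_zero, eq_comm]
    · rw [mk_some, mem_coe, G_some, ← (h1 b).2, ← (h2 i).2]
      have := (h1 b).1
      have := (h2 i).1
      exact ⟨fun k => ⟨by linarith, by linarith⟩, fun k => by linarith [k.1, k.2]⟩

theorem loc1 {a : ℕ} (ha : a ≤ N) {t : ℝ} (h1 : a = 0 ∨ a < t) (h2 : a = N ∨ t < a + 1)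
    (b : Fin (N + 1)) : lam a0 j N a 1 t ≤ lam a0 j N b 1 t ∧
      (lam a0 j N b 1 t = lam a0 j N a 1 t ↔ b ∈ ({sl N a} : Finset _)) := by
  have hb := b.2
  rw [mem_singleton, eq_sl ha]
  have e := lam_sub (a0 := a0) (j := j) (N := N) a b t
  rcases lt_trichotomy b.val a with k | k | k
  · have k' : (b.val + 1 : ℝ) ≤ a := by exact_mod_cast k
    have := h1.resolve_left (by omega)
    have : ((b.val : ℝ) - a) * (2 * t - (a + b.val + 1)) < 0 :=
      mul_neg_of_neg_of_pos (by linarith) (by linarith)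
    exact ⟨by linarith, fun e => by linarith, fun e => by omega⟩
  · rw [k]; simp
  · have k' : (a + 1 : ℝ) ≤ b.val := by exact_mod_cast k
    have := h2.resolve_left (by omega)
    have : ((b.val : ℝ) - a) * (2 * t - (a + b.val + 1)) < 0 :=
      mul_neg_of_pos_of_neg (by linarith) (by linarith)
    exact ⟨by linarith, fun e => by linarith, fun e => by omega⟩

theorem loc2 {a : ℕ} (ha : a < N) (b : Fin (N + 1)) :
    lam a0 j N a 1 (a + 1) ≤ lam a0 j N b 1 (a + 1) ∧
      (lam a0 j N b 1 (a + 1) = lam a0 j N a 1 (a + 1) ↔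
        b ∈ ({sl N a, sl N (a + 1)} : Finset _)) := by
  rw [mem_insert, mem_singleton, eq_sl ha.le, eq_sl ha]
  have e := lam_sub (a0 := a0) (j := j) (N := N) a b (a + 1)
  rcases lt_trichotomy b.val a with k | k | k
  · have k' : (b.val + 1 : ℝ) ≤ a := by exact_mod_cast k
    have : ((b.val : ℝ) - a) * (2 * (a + 1) - (a + b.val + 1)) < 0 :=
      mul_neg_of_neg_of_pos (by linarith) (by linarith)
    exact ⟨by linarith, fun e => by linarith, fun e => by omega⟩
  · rw [k]; simp
  · rcases (Nat.succ_le_of_lt k).eq_or_lt with k | k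
    · rw [← k] at e ⊢
      push_cast at e
      exact ⟨by linarith, fun _ => Or.inr rfl, fun _ => by linarith⟩
    · have k' : (a + 2 : ℝ) ≤ b.val := by exact_mod_cast k
      have : ((b.val : ℝ) - a) * (2 * (a + 1) - (a + b.val + 1)) < 0 :=
        mul_neg_of_pos_of_neg (by linarith) (by linarith)
      exact ⟨by linarith, fun e => by linarith, fun e => by omega⟩

theorem sum_one (i : Fin d) (r s : ℝ) : ∑ k : Fin d, (r + if k = i then s else 0) = d * r + s := by
  rw [sum_add_distrib, sum_const, card_univ, Fintype.card_fin, nsmul_eq_mul, sum_ite_eq']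
  simp

theorem isF_fac (hd : 3 ≤ d) (ha0 : 1 ≤ a0) (hj : 1 ≤ j) (hN : a0 + j ≤ N) (y : J d N a0 j) :
    IsF (EE d N a0 j) (fac y : Set (I d N)) := by
  have hd' : (3 : ℝ) ≤ d := by exact_mod_cast hd
  have hd1 : (0 : ℝ) < d - 1 := by linarith
  have hp := psi_pos (N := N) (a0 := a0) (j := j) hd
  have hN' : (a0 + j : ℝ) ≤ N := by exact_mod_cast hN
  have hj' : (1 : ℝ) ≤ j := by exact_mod_cast hj
  have ha' : (1 : ℝ) ≤ a0 := by exact_mod_cast ha0
  rcases y with b | ⟨i, a, ha⟩ | ⟨u, b⟩ | ⟨⟨⟨u, i⟩, hui⟩, a, ha⟩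
  · obtain ⟨t, t1, t2, t3⟩ : ∃ t : ℝ, lam a0 j N (if b then N else 0) 1 t = 0 ∧
        ((if b then N else 0) = 0 ∨ ((if b then N else 0 : ℕ) : ℝ) < t) ∧
        ((if b then N else 0) = N ∨ t < (if b then N else 0 : ℕ) + 1) := by
      cases b
      · have : (0 : ℝ) < 2 * a0 + j := by linarith
        refine ⟨-(N + 1) ^ 2 / (2 * a0 + j), ?_, Or.inl rfl, Or.inr ?_⟩
        · simp only [lam, Bool.false_eq_true, if_false, Nat.cast_zero, mul_zero, sub_zero]
          field_simp; ring
        · simp only [Bool.false_eq_true, if_false, Nat.cast_zero]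
          rw [div_lt_iff₀ this]
          nlinarith [sq_nonneg (N + 1 : ℝ)]
      · have : (0 : ℝ) < 2 * N - (2 * a0 + j) := by linarith
        refine ⟨((N + 1) ^ 2 + N * (N + 1)) / (2 * N - (2 * a0 + j)), ?_, Or.inr ?_, Or.inl rfl⟩
        · simp only [lam, if_true]
          rw [show (2 * a0 + j - 2 * N : ℝ) = -(2 * N - (2 * a0 + j)) by ring, neg_mul,
            mul_div_cancel₀ _ this.ne']
          ring
        · simp only [if_true]
          rw [lt_div_iff₀ this]
          nlinarith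
    refine isF_G hd t 0 0 (by simp) (fun c => t1 ▸ loc1 (by split_ifs <;> omega) t2 t3 c)
      (by simp [tr]) fun i => ⟨hp.le, by simp [tr, hp.ne]⟩
  · have ha1 : a < a0 ∨ (a0 + j ≤ a ∧ a < N) := by simpa using ha
    have aN : a < N := by omega
    have φ0 := lam_pos (a0 := a0) (j := j) aN.le (t := a + 1) (by linarith) le_rfl
    have g := g_layer (d := d) (N := N) (a0 := a0) (j := j) a
    have g' : ((a : ℝ) + 1 / 2 - a0) * (a0 + j - a - 1 / 2) < 0 := by
      rcases ha1 with k | k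
      · have : (a + 1 : ℝ) ≤ a0 := by exact_mod_cast k
        exact mul_neg_of_neg_of_pos (by linarith) (by linarith)
      · have : (a0 + j : ℝ) ≤ a := by exact_mod_cast k.1
        exact mul_neg_of_pos_of_neg (by linarith) (by linarith)
    have g2 := mul_neg_of_pos_of_neg hd1 g'
    set φ := lam a0 j N a 1 (a + 1)
    have dφ : 0 < d * φ := by positivity
    refine isF_G hd (a + 1) φ (fun k => -φ + if k = i then d * φ else 0) (by rw [sum_one]; ring)
      (loc2 aN) (fun k => ?_) fun k => ?_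
    · by_cases e : k = i <;> simp [tr, e, dφ.le, φ0.ne']
      omega
    · have : -φ + (if k = i then d * φ else 0) < psi a0 j d N := by split_ifs <;> linarith
      exact ⟨this.le, by simp [tr, this.ne]⟩
  · obtain ⟨t, t1, t2, t3⟩ : ∃ t : ℝ, (d - 1) * lam a0 j N (if b then a0 + j else a0) 1 t =
        psi a0 j d N ∧ ((if b then a0 + j else a0 : ℕ) : ℝ) < t ∧
        t < (if b then a0 + j else a0 : ℕ) + 1 := by
      have k1 : (0 : ℝ) < 1 / (4 * j) := by positivity
      have k2 : (1 : ℝ) / (4 * j) < 1 / 2 := one_div_lt_one_div_of_lt (by norm_num) (by linarith)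
      cases b
      · refine ⟨a0 + 1 / 2 + 1 / (4 * j), ?_, show (a0 : ℝ) < _ by linarith,
          show _ < (a0 : ℝ) + 1 by linarith⟩
        rw [← sub_eq_zero, lam_g]
        simp only [Bool.false_eq_true, if_false]
        field_simp; ring
      · refine ⟨a0 + j + 1 / 2 - 1 / (4 * j), ?_, show ((a0 + j : ℕ) : ℝ) < _ by push_cast; linarith,
          show _ < ((a0 + j : ℕ) : ℝ) + 1 by push_cast; linarith⟩
        rw [← sub_eq_zero, lam_g]
        simp only [if_true]
        push_cast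
        field_simp; ring
    have aN : (if b then a0 + j else a0) ≤ N := by split_ifs <;> omega
    have φ0 := lam_pos (a0 := a0) (j := j) aN t2.le t3.le
    set φ := lam a0 j N (if b then a0 + j else a0) 1 t
    have dφ : 0 < d * φ := by positivity
    refine isF_G hd t φ (fun k => -φ + if k = u then d * φ else 0) (by rw [sum_one]; ring)
      (loc1 aN (Or.inr t2) (Or.inr t3)) (fun k => ?_) fun k => ?_
    · by_cases e : k = u <;> simp [tr, e, dφ.le, φ0.ne']
      omega
    · by_cases e : k = u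
      · simp only [tr, e, if_true, mem_singleton, iff_true]
        exact ⟨by linarith, by linarith⟩
      · simp only [tr, e, if_false, mem_singleton, iff_false]
        exact ⟨by linarith, by linarith⟩
  · have ha1 : a0 ≤ a ∧ a < a0 + j := by simpa using ha
    have hui' : u ≠ i := by simpa using hui
    have aN : a < N := by omega
    have φ0 := lam_pos (a0 := a0) (j := j) aN.le (t := a + 1) (by linarith) le_rfl
    have g := g_layer (d := d) (N := N) (a0 := a0) (j := j) a
    have k1 : (a0 : ℝ) ≤ a := by exact_mod_cast ha1.1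
    have k2 : (a + 1 : ℝ) ≤ a0 + j := by exact_mod_cast ha1.2
    have g2 : 0 < (d - 1 : ℝ) * (((a : ℝ) + 1 / 2 - a0) * (a0 + j - a - 1 / 2)) :=
      mul_pos hd1 (mul_pos (by linarith) (by linarith))
    have φ1 : lam a0 j N a 1 (a + 1) ≤ 2 * (N + 1) ^ 2 := by
      simp only [lam]
      nlinarith [mul_le_mul (show (a + 1 : ℝ) ≤ N + 1 by linarith)
        (show (2 * a0 + j - a : ℝ) ≤ N + 1 by linarith) (by linarith) (by positivity)]
    have s2 : (d - 1 : ℝ) * (N + 1) ^ 2 ≤ psi a0 j d N :=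
      mul_le_mul_of_nonneg_left (le_add_of_nonneg_right (by positivity)) hd1.le
    have s3 : (0 : ℝ) < (N + 1) ^ 2 := by positivity
    set φ := lam a0 j N a 1 (a + 1)
    have g3 : (d - 2) * φ < 2 * psi a0 j d N := by
      nlinarith [mul_le_mul_of_nonneg_left φ1 (show (0 : ℝ) ≤ d - 2 by linarith)]
    refine isF_G hd (a + 1) φ (fun k => (-φ + if k = u then psi a0 j d N + φ else 0) +
      if k = i then (d - 1) * φ - psi a0 j d N else 0) ?_ (loc2 aN) (fun k => ?_) fun k => ?_
    · rw [sum_add_distrib, sum_one, sum_ite_eq']; simp; ring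
    · by_cases e : k = u
      · simp only [tr, e, if_true, if_neg hui', mem_compl, mem_insert, true_or, not_true, iff_false]
        exact ⟨by linarith, by linarith⟩
      · by_cases e' : k = i
        · simp only [tr, e', if_true, if_neg hui'.symm, mem_compl, mem_insert, mem_singleton,
            or_true, not_true, iff_false]
          exact ⟨by linarith, by linarith⟩
        · simp [tr, e, e']
    · by_cases e : k = u
      · simp [tr, e, hui']
      · simp only [tr, e, if_false, mem_singleton, iff_false]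
        split_ifs
        · exact ⟨by linarith, by linarith⟩
        · exact ⟨by linarith, by linarith⟩

theorem sub_free (hd : 3 ≤ d) {L U : Finset (Fin d)} {a : ℕ} (ha : a < N) {i : Fin d}
    (hL : i ∉ L) (hU : i ∉ U) (hLU : ∀ k ∈ L, k ∉ U)
    (hB : IsF (EE d N a0 j) (G L {sl N a, sl N (a + 1)} U : Set (I d N))) {S : Set (I d N)}
    (hS : S ⊆ G L {sl N a, sl N (a + 1)} U)
    (hc : ∀ k k' b b', (k, some b) ∈ S → (k', some b') ∈ S → (k, some b') ∈ S) :
    IsF (EE d N a0 j) S := by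
  have sm : ∀ (k : Fin d) (r : ℝ), ∑ l : Fin d,
      ((if l = k then r else 0) - if l = i then r else 0) = 0 := fun k r => by
    rw [sum_sub_distrib, sum_ite_eq', sum_ite_eq']; simp
  refine isF_of_cut hB hS ?_
  rintro ⟨k, _ | b⟩ hz hz'
  · have kU : k ∈ U := G_none.1 hz
    have ki : k ≠ i := fun e => hU (e ▸ kU)
    refine ⟨mk a0 j 0 0 _, (mem_EE hd).2 ⟨0, 0, _, sm k (-1), rfl⟩, ?_, ?_, by simp [ki]⟩
    · rintro ⟨l, _ | c⟩ hw
      · have : l ≠ i := fun e => hU (e ▸ G_none.1 hw)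
        simp only [mk_none, this, if_false]
        split_ifs <;> simp
      · have h1 := (G_some.1 hw).1
        have : l ≠ i := fun e => hL (e ▸ h1)
        have : l ≠ k := fun e => hLU l h1 (e ▸ kU)
        simp [lam, *]
    · rintro ⟨l, _ | c⟩ hw
      · have : l ≠ i := fun e => hU (e ▸ G_none.1 (hS hw))
        have : l ≠ k := fun e => hz' (e ▸ hw)
        simp [*]
      · have h1 := (G_some.1 (hS hw)).1
        have : l ≠ i := fun e => hL (e ▸ h1)
        have : l ≠ k := fun e => hLU l h1 (e ▸ kU)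
        simp [lam, *]
  obtain ⟨kL, hb⟩ := G_some.1 hz
  have ki : k ≠ i := fun e => hL (e ▸ kL)
  by_cases c1 : ∃ b', (k, some b') ∈ S
  swap
  · refine ⟨mk a0 j 0 0 _, (mem_EE hd).2 ⟨0, 0, _, sm k 1, rfl⟩, ?_, ?_, by simp [ki, lam]⟩
    · rintro ⟨l, _ | c⟩ hw
      · have h1 := G_none.1 hw
        have : l ≠ i := fun e => hU (e ▸ h1)
        have : l ≠ k := fun e => hLU k kL (e ▸ h1)
        simp [*]
      · have : l ≠ i := fun e => hL (e ▸ (G_some.1 hw).1)
        simp only [mk_some, this, if_false, lam]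
        split_ifs <;> simp
    · rintro ⟨l, _ | c⟩ hw
      · have h1 := G_none.1 (hS hw)
        have : l ≠ i := fun e => hU (e ▸ h1)
        have : l ≠ k := fun e => hLU k kL (e ▸ h1)
        simp [*]
      · have : l ≠ i := fun e => hL (e ▸ (G_some.1 (hS hw)).1)
        have : l ≠ k := fun e => c1 ⟨c, e ▸ hw⟩
        simp [lam, *]
  obtain ⟨b', hb'⟩ := c1
  have bb : b' ≠ b := fun e => hz' (e ▸ hb')
  have hb2 := (G_some.1 (hS hb')).2
  have two : ∀ c ∈ ({sl N a, sl N (a + 1)} : Finset _), c = b ∨ c = b' := fun c hc => by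
    simp only [mem_insert, mem_singleton] at hb hb2 hc
    rcases hb with rfl | rfl <;> rcases hb2 with rfl | rfl <;> tauto
  obtain ⟨c, t, e1, e2⟩ : ∃ c t : ℝ, lam a0 j N b' c t = 0 ∧ 0 < lam a0 j N b c t := by
    have φ0 := lam_pos (a0 := a0) (j := j) ha.le (t := a + 1) (by linarith) le_rfl
    simp only [mem_insert, mem_singleton, eq_sl ha.le, eq_sl ha] at hb hb2
    have : b'.val ≠ b.val := fun e => bb (Fin.ext e)
    rcases hb with k1 | k1
    · refine ⟨-(2 * a0 + j - 2 * b'.val), (N + 1) ^ 2 + b'.val * (b'.val + 1), by simp only [lam]; ring,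
        ?_⟩
      rw [k1, show b'.val = a + 1 by omega]
      simp only [lam] at φ0 ⊢
      push_cast
      linarith
    · refine ⟨2 * a0 + j - 2 * b'.val, -((N + 1) ^ 2 + b'.val * (b'.val + 1)),
        by simp only [lam]; ring, ?_⟩
      rw [k1, show b'.val = a by omega]
      simp only [lam] at φ0 ⊢
      push_cast
      linarith
  let x : Fin d → ℝ := fun l => (if l ∈ U then psi a0 j d N * c else 0) -
    if l = i then U.card * (psi a0 j d N * c) else 0
  have x1 : ∀ l ∈ L, x l = 0 := fun l hl => by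
    have : l ≠ i := fun e => hL (e ▸ hl)
    simp [x, hLU l hl, this]
  have x2 : ∀ l ∈ U, x l = psi a0 j d N * c := fun l hl => by
    have : l ≠ i := fun e => hU (e ▸ hl)
    simp [x, hl, this]
  refine ⟨mk a0 j c t x, (mem_EE hd).2 ⟨c, t, x, ?_, rfl⟩, ?_, ?_, ?_⟩
  · simp [x, sum_sub_distrib, sum_ite_mem]
  · rintro ⟨l, _ | q⟩ hw
    · rw [mk_none, x2 l (G_none.1 hw), sub_self]
    · rw [mk_some, x1 l (G_some.1 hw).1, zero_add]
      rcases two q (G_some.1 hw).2 with rfl | rfl
      exacts [e2.le, e1.ge]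
  · rintro ⟨l, _ | q⟩ hw
    · rw [mk_none, x2 l (G_none.1 (hS hw)), sub_self]
    · rw [mk_some, x1 l (G_some.1 (hS hw)).1, zero_add]
      rcases two q (G_some.1 (hS hw)).2 with rfl | rfl
      exacts [absurd (hc _ _ _ _ hb' hw) hz', e1]
  · rw [mk_some, x1 k kL, zero_add]; exact e2.ne'

theorem sub_isF (hd : 3 ≤ d) (ha0 : 1 ≤ a0) (hj : 1 ≤ j) (hN : a0 + j ≤ N) (y : J d N a0 j)
    {S : Set (I d N)} (hS : S ⊆ fac y)
    (hc : ∀ k k' b b', (k, some b) ∈ S → (k', some b') ∈ S → (k, some b') ∈ S) :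
    IsF (EE d N a0 j) S := by
  have hB := isF_fac hd ha0 hj hN y
  have hd' : (3 : ℝ) ≤ d := by exact_mod_cast hd
  have hj' : (1 : ℝ) ≤ j := by exact_mod_cast hj
  rcases y with b | ⟨i, a, ha⟩ | ⟨u, b⟩ | ⟨⟨⟨u, i⟩, hui⟩, a, ha⟩
  · refine all_sub hB ?_ hS
    rintro ⟨k, _ | q⟩ hz
    · exact absurd (G_none.1 hz) (notMem_empty _)
    have e : lam a0 j N q (1 / ((N + 1) ^ 2 + q.val * (q.val + 1))) 0 = 1 := by
      simp only [lam]; field_simp; ring
    refine ⟨mk a0 j (1 / ((N + 1) ^ 2 + q.val * (q.val + 1))) 0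
      fun l => -1 + if l = k then (d : ℝ) else 0,
      (mem_EE hd).2 ⟨_, _, _, by rw [sum_one]; ring, rfl⟩,
      ?_, by rw [mk_some, e, if_pos rfl]; linarith⟩
    rintro ⟨l, _ | q'⟩ hw hne
    · exact absurd (G_none.1 hw) (notMem_empty _)
    · obtain rfl : q' = q := (mem_singleton.1 (G_some.1 hw).2).trans
        (mem_singleton.1 (G_some.1 hz).2).symm
      rw [mk_some, e, if_neg fun e => hne (by rw [e])]; ring
  · have ha1 : a < a0 ∨ (a0 + j ≤ a ∧ a < N) := by simpa using ha
    exact sub_free hd (a := a) (by omega) (i := i) (by simp [tr]) (by simp [tr]) (by simp [tr])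
      hB hS hc
  · refine all_sub hB ?_ hS
    have aN : (if b then a0 + j else a0) ≤ N := by split_ifs <;> omega
    have ex : ∀ r : ℝ, ∃ t, lam a0 j N (sl N (if b then a0 + j else a0)) 0 t = r := fun r => by
      rw [sl_val aN]
      cases b
      · exact ⟨r / j, by simp [lam]; field_simp⟩
      · exact ⟨-r / j, by simp [lam]; field_simp; ring⟩
    rintro ⟨k, _ | q⟩ hz
    · obtain rfl : k = u := mem_singleton.1 (G_none.1 hz)
      obtain ⟨t, ht⟩ := ex (-1)
      refine ⟨mk a0 j 0 t fun l => 1 + if l = k then -(d : ℝ) else 0,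
        (mem_EE hd).2 ⟨_, _, _, by rw [sum_one]; ring, rfl⟩, ?_, by simp; linarith⟩
      rintro ⟨l, _ | q'⟩ hw hne
      · exact absurd (by rw [mem_singleton.1 (G_none.1 hw)]) hne
      · obtain ⟨h1, h2⟩ := G_some.1 hw
        have h3 : l ≠ k := by simpa [tr] using h1
        rw [mk_some, mem_singleton.1 h2, ht, if_neg h3]; ring
    · obtain ⟨h1, h2⟩ := G_some.1 hz
      have h3 : k ≠ u := by simpa [tr] using h1
      obtain ⟨t, ht⟩ := ex 1
      refine ⟨mk a0 j 0 t fun l => (-1 + if l = k then (d : ℝ) - 1 else 0) + if l = u then 1 else 0,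
        (mem_EE hd).2 ⟨_, _, _, by rw [sum_add_distrib, sum_one, sum_ite_eq']; simp; ring, rfl⟩, ?_,
        by rw [mk_some, mem_singleton.1 h2, ht, if_pos rfl, if_neg h3]; linarith⟩
      rintro ⟨l, _ | q'⟩ hw hne
      · obtain rfl : l = u := mem_singleton.1 (G_none.1 hw)
        simp [h3.symm]
      · obtain ⟨h4, h5⟩ := G_some.1 hw
        have h6 : l ≠ u := by simpa [tr] using h4
        have h7 : l ≠ k := fun e => hne (by rw [e, mem_singleton.1 h5, mem_singleton.1 h2])
        rw [mk_some, mem_singleton.1 h5, ht, if_neg h6, if_neg h7]; ring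
  · have ha1 : a0 ≤ a ∧ a < a0 + j := by simpa using ha
    have hui' : u ≠ i := by simpa using hui
    exact sub_free hd (a := a) (by omega) (i := i) (by simp [tr]) (by simp [tr, hui'.symm])
      (by simp [tr]; tauto) hB hS hc

end Cut

end Pool.Agent.Lib.MP_7157e1_co
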