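import Pool.Agent.Lib.MP_7157e1_co.X4

/-! Cut simplex towers: counting flags and automorphisms. -/

namespace Pool.Agent.Lib.MP_7157e1_co
open Module Function Finset

namespace Cut
variable {d N a0 j : ℕ}

theorem pair_card {a : ℕ} (ha : a < N) : ({sl N a, sl N (a + 1)} : Finset _).card = 2 :=
  card_pair fun e => by have := (eq_sl ha).1 e; rw [sl_val ha.le] at this; omega

/-- sizes of the three parts -/
def sz : J d N a0 j → ℕ × ℕ × ℕ
  | Sum.inl _ => (d, 1, 0)
  | Sum.inr (Sum.inl _) => (d - 1, 2, 0)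
  | Sum.inr (Sum.inr (Sum.inl _)) => (d - 1, 1, 1)
  | Sum.inr (Sum.inr (Sum.inr _)) => (d - 2, 2, 1)

theorem tr_card (hN : a0 + j ≤ N) (y : J d N a0 j) : (tr y).1.card = (sz y).1 ∧
    (tr y).2.1.card = (sz y).2.1 ∧ (tr y).2.2.card = (sz y).2.2 := by
  rcases y with b | ⟨i, a, ha⟩ | ⟨u, b⟩ | ⟨⟨⟨u, i⟩, hui⟩, a, ha⟩
  · simp [tr, sz]
  · have ha1 : a < a0 ∨ (a0 + j ≤ a ∧ a < N) := by simpa using ha
    exact ⟨by simp [tr, sz, card_compl], pair_card (a := a) (by omega), rfl⟩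
  · simp [tr, sz, card_compl]
  · have ha1 : a0 ≤ a ∧ a < a0 + j := by simpa using ha
    have hui' : u ≠ i := by simpa using hui
    exact ⟨by simp only [tr, sz]; rw [card_compl, card_pair hui', Fintype.card_fin],
      pair_card (a := a) (by omega), rfl⟩

theorem pair_inj {a b : ℕ} (ha : a < N) (hb : b < N)
    (e : ({sl N a, sl N (a + 1)} : Finset _) = {sl N b, sl N (b + 1)}) : a = b := by
  have h1 : sl N a ∈ ({sl N b, sl N (b + 1)} : Finset _) := e ▸ mem_insert_self _ _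
  have h2 : sl N b ∈ ({sl N a, sl N (a + 1)} : Finset _) := e ▸ mem_insert_self _ _
  simp only [mem_insert, mem_singleton, eq_sl ha, eq_sl ha.le, eq_sl hb, eq_sl hb.le,
    sl_val ha.le, sl_val hb.le] at h1 h2
  omega

theorem tr_inj (hj : 1 ≤ j) (hN : a0 + j ≤ N) {y y' : J d N a0 j} (e : tr y = tr y') : y = y' := by
  have c := tr_card hN y
  have c' := tr_card hN y'
  rw [e] at c
  have e2 : (sz y).2 = (sz y').2 := Prod.ext (c.2.1.symm.trans c'.2.1) (c.2.2.symm.trans c'.2.2)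
  rcases y with b | ⟨i, a, ha⟩ | ⟨u, b⟩ | ⟨⟨⟨u, i⟩, hui⟩, a, ha⟩ <;>
    rcases y' with b' | ⟨i', a', ha'⟩ | ⟨u', b'⟩ | ⟨⟨⟨u', i'⟩, hui'⟩, a', ha'⟩ <;>
    simp only [sz, Prod.mk.injEq, OfNat.one_ne_ofNat, OfNat.ofNat_ne_one, zero_ne_one, one_ne_zero,
      and_false, false_and] at e2 <;> simp only [tr, Prod.mk.injEq] at e
  · have := congrArg Fin.val (singleton_injective e.2.1)
    rw [sl_val (by split_ifs <;> omega), sl_val (by split_ifs <;> omega)] at this
    cases b <;> cases b' <;> simp at this ⊢ <;> omega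
  · have h1 : a < a0 ∨ (a0 + j ≤ a ∧ a < N) := by simpa using ha
    have h2 : a' < a0 ∨ (a0 + j ≤ a' ∧ a' < N) := by simpa using ha'
    obtain rfl := pair_inj (by omega) (by omega) e.2.1
    obtain rfl := singleton_injective (compl_injective e.1)
    rfl
  · obtain rfl := singleton_injective e.2.2
    have := congrArg Fin.val (singleton_injective e.2.1)
    rw [sl_val (by split_ifs <;> omega), sl_val (by split_ifs <;> omega)] at this
    cases b <;> cases b' <;> simp at this ⊢ <;> omega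
  · have h1 : a0 ≤ a ∧ a < a0 + j := by simpa using ha
    have h2 : a0 ≤ a' ∧ a' < a0 + j := by simpa using ha'
    obtain rfl := pair_inj (by omega) (by omega) e.2.1
    obtain rfl := singleton_injective e.2.2
    have h3 : i ∈ ({u, i'} : Finset _) := compl_injective e.1 ▸ mem_insert_of_mem (mem_singleton_self _)
    have h4 : u ≠ i := by simpa using hui
    obtain rfl : i = i' := by simpa [h4.symm] using h3
    rfl

theorem sz_sum (hd : 3 ≤ d) (y : J d N a0 j) : (sz y).1 + (sz y).2.1 + (sz y).2.2 = d + 1 ∧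
    1 ≤ (sz y).1 ∧ 1 ≤ (sz y).2.1 ∧ (sz y).2.2 ≤ 1 := by
  rcases y with b | _ | _ | _ <;> simp [sz] <;> omega

theorem anti (hd : 3 ≤ d) (hj : 1 ≤ j) (hN : a0 + j ≤ N) {y y' : J d N a0 j}
    (h : (fac y : Set (I d N)) ⊆ fac y') : y = y' := by
  have c := tr_card hN y
  have c' := tr_card hN y'
  have s := sz_sum hd y
  have s' := sz_sum hd y'
  obtain ⟨i0, hi0⟩ : (tr y).1.Nonempty := card_pos.1 (by omega)
  obtain ⟨b0, hb0⟩ : (tr y).2.1.Nonempty := card_pos.1 (by omega)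
  have h1 : (tr y).1 ⊆ (tr y').1 := fun i hi => (G_some.1 (h (G_some.2 ⟨hi, hb0⟩))).1
  have h2 : (tr y).2.1 ⊆ (tr y').2.1 := fun i hi => (G_some.1 (h (G_some.2 ⟨hi0, hi⟩))).2
  have h3 : (tr y).2.2 ⊆ (tr y').2.2 := fun i hi => G_none.1 (h (G_none.2 hi))
  have := card_le_card h1
  have := card_le_card h2
  have := card_le_card h3
  exact tr_inj hj hN (Prod.ext (eq_of_subset_of_card_le h1 (by omega))
    (Prod.ext (eq_of_subset_of_card_le h2 (by omega)) (eq_of_subset_of_card_le h3 (by omega))))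

theorem fac_ne (hd : 3 ≤ d) (hN : a0 + j ≤ N) (y : J d N a0 j) :
    (fac y : Set (I d N)) ≠ Set.univ := fun e => by
  have c := tr_card hN y
  have s := sz_sum hd y
  have : (tr y).2.2 = univ := eq_univ_of_forall fun i => G_none.1
    (show (i, none) ∈ (fac y : Set (I d N)) from e ▸ trivial)
  rw [this, card_univ, Fintype.card_fin] at c
  omega

variable (hd : 3 ≤ d) (ha0 : 1 ≤ a0) (hj : 1 ≤ j) (hN : a0 + j ≤ N)
include hd ha0 hj hN

/-- the facets as elements of the face lattice -/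
def fc (y : J d N a0 j) : {G // IsF (EE d N a0 j) G} := ⟨fac y, isF_fac hd ha0 hj hN y⟩

theorem cov_iff (H : {G // IsF (EE d N a0 j) G}) :
    H ⋖ ⟨Set.univ, isF_univ⟩ ↔ ∃ y, fc hd ha0 hj hN y = H := by
  have lt : ∀ y, fc hd ha0 hj hN y < ⟨Set.univ, isF_univ⟩ := fun y =>
    lt_of_le_of_ne (Set.subset_univ _) fun e => fac_ne hd hN y (congrArg Subtype.val e)
  constructor
  · intro h
    obtain ⟨y, hy⟩ := sub_fac hd ha0 hj hN H.2 fun e => h.ne (Subtype.ext e)
    exact ⟨y, (h.eq_or_eq (c := fc hd ha0 hj hN y) hy (lt y).le).resolve_right (lt y).ne⟩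
  · rintro ⟨y, rfl⟩
    refine ⟨lt y, fun K k1 k2 => ?_⟩
    obtain ⟨y', hy'⟩ := sub_fac hd ha0 hj hN K.2 fun e => k2.ne (Subtype.ext e)
    obtain rfl := anti hd hj hN (Set.Subset.trans k1.le hy')
    exact k1.not_ge hy'

theorem fc_inj : Injective (fc hd ha0 hj hN) := fun _ _ e =>
  anti hd hj hN (congrArg Subtype.val e).le

theorem fc_ncard (y : J d N a0 j) :
    (fc hd ha0 hj hN y).1.ncard = (sz y).1 * (sz y).2.1 + (sz y).2.2 := by
  have c := tr_card hN y
  rw [← c.1, ← c.2.1, ← c.2.2, ← G_card]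
  exact Set.ncard_coe_finset _

theorem nc_one (y : J d N a0 j) (h : (sz y).2.1 = 1) : nc (fc hd ha0 hj hN y) = d.factorial := by
  have s := sz_sum hd y
  refine nc_simplex _ _ (fun S hS => sub_isF hd ha0 hj hN y hS fun k k' b b' h1 h2 => ?_)
    (by rw [fc_ncard, h]; omega)
  rwa [card_le_one.1 ((tr_card hN y).2.1.trans h).le b' (G_some.1 (hS h2)).2 b
    (G_some.1 (hS h1)).2]

theorem nc_two (y : J d N a0 j) {a : ℕ} (ha : a < N) (h : (tr y).2.1 = {sl N a, sl N (a + 1)}) :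
    nc (fc hd ha0 hj hN y) = pw (sz y).1 (sz y).2.2 := by
  have c := tr_card hN y
  have s := sz_sum hd y
  have ne : sl N a ≠ sl N (a + 1) := fun e => by
    have := (eq_sl ha).1 e; rw [sl_val ha.le] at this; omega
  rw [← c.1, ← c.2.2, ← card_image_of_injective (tr y).2.2
    (f := fun i => ((i, none) : I d N)) fun _ _ e => congrArg Prod.fst e]
  refine nc_prism (x := fun i => ((i, some (sl N a)) : I d N)) (y := fun i => (i, some (sl N (a + 1))))
    (fun _ _ e => congrArg Prod.fst e) (fun _ _ e => congrArg Prod.fst e)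
    (fun _ _ e => ne (Option.some_injective _ (congrArg Prod.snd e))) _ _ _ rfl (by simp)
    (card_pos.1 (by omega)) _ ?_ fun S hS => ⟨fun k i i' h1 h2 =>
      ⟨cond hd k h1 h2, cond hd k h2 h1⟩, fun k => sub_isF hd ha0 hj hN y hS
        fun i i' b b' h1 h2 => ?_⟩
  · ext ⟨i, _ | b⟩
    · simp [fc, fac]
    · simp only [fc, fac, h, mem_coe, G_some, mem_insert, mem_singleton, Set.mem_union,
        Set.mem_image, Prod.mk.injEq, Option.some.injEq, mem_image, reduceCtorEq, and_false,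
        exists_false, or_false]
      constructor
      · rintro ⟨h1, rfl | rfl⟩
        exacts [Or.inl ⟨i, h1, rfl, rfl⟩, Or.inr ⟨i, h1, rfl, rfl⟩]
      · rintro (⟨_, h1, rfl, rfl⟩ | ⟨_, h1, rfl, rfl⟩)
        exacts [⟨h1, Or.inl rfl⟩, ⟨h1, Or.inr rfl⟩]
  · have b1 := (G_some.1 (hS h1)).2
    have b2 := (G_some.1 (hS h2)).2
    rw [h, mem_insert, mem_singleton] at b1 b2
    rcases b1 with rfl | rfl <;> rcases b2 with rfl | rfl
    exacts [h1, (k _ _ h1 h2).1, (k _ _ h2 h1).2, h1]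

theorem sing (z : I d N) : IsF (EE d N a0 j) {z} := by
  obtain ⟨y, hy⟩ : ∃ y : J d N a0 j, z ∈ fac y := by
    rcases z with ⟨i, _ | b⟩
    · exact ⟨Sum.inr (Sum.inr (Sum.inl (i, true))), G_none.2 (mem_singleton_self _)⟩
    obtain ⟨u, hu, -⟩ := Fin.exists_ne_and_ne_of_two_lt i i hd
    obtain ⟨v, hv, hv'⟩ := Fin.exists_ne_and_ne_of_two_lt i u hd
    have hb := b.2
    by_cases k : b.val = N
    · exact ⟨Sum.inl true, G_some.2 ⟨mem_univ _, mem_singleton.2 ((eq_sl le_rfl).2 k)⟩⟩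
    have m : b ∈ ({sl N b, sl N (b + 1)} : Finset _) :=
      mem_insert.2 (Or.inl ((eq_sl (by omega)).2 rfl))
    by_cases k' : a0 ≤ b.val ∧ b.val < a0 + j
    · exact ⟨Sum.inr (Sum.inr (Sum.inr (⟨(u, v), by simpa using hv'.symm⟩, ⟨b, by simpa using k'⟩))),
        G_some.2 ⟨by simp [tr, hu.symm, hv.symm], m⟩⟩
    · exact ⟨Sum.inr (Sum.inl (u, ⟨b, by simp; omega⟩)), G_some.2 ⟨by simp [tr, hu.symm], m⟩⟩
  refine sub_isF hd ha0 hj hN y (Set.singleton_subset_iff.2 hy) fun k k' b b' h1 h2 => ?_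
  rw [Set.mem_singleton_iff] at *
  have := h1.trans h2.symm
  rw [← h1, Option.some_injective _ (congrArg Prod.snd this)]

theorem pos : IsF (EE d N a0 j) ∅ :=
  sub_isF hd ha0 hj hN (Sum.inl true) (Set.empty_subset _) fun _ _ _ _ h => h.elim

theorem rank_eq : finrank ℝ (EE d N a0 j) = d + 1 := by
  let C : ℕ → Set (I d N) := fun l => if l ≤ d then {z | z.1.val < l ∧ z.2 = some 0} else Set.univ
  refine (cr_chain (C := C) rank_le (fun l => ?_) fun l hl => ?_).1
  · simp only [C]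
    split_ifs
    · refine sub_isF hd ha0 hj hN (Sum.inl false) ?_ fun k k' b b' h1 h2 => ⟨h1.1, h2.2⟩
      rintro ⟨i, _⟩ ⟨-, rfl⟩
      exact G_some.2 ⟨mem_univ _, mem_singleton.2 rfl⟩
    · exact isF_univ
  · simp only [C, if_pos hl]
    split_ifs with k
    · exact ⟨fun z hz => ⟨by have := hz.1; omega, hz.2⟩, fun h =>
        (h (a := (⟨l, k⟩, some 0)) ⟨Nat.lt_succ_self l, rfl⟩).1.false⟩
    · exact ⟨Set.subset_univ _, fun h => by
        simpa using (h (a := (⟨0, by omega⟩, none)) trivial).2⟩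

theorem card_flags : Nat.card (Fl (EE d N a0 j) d) =
    (2 + 2 * d + 2 * (d - 1) * (N - j) + 2 * j * (d * (d - 2))) * d.factorial := by
  classical
  rw [card_fl (pos hd ha0 hj hN) (rank_eq hd ha0 hj hN), nc_sum (not_isMin_of_lt
    ((cov_iff hd ha0 hj hN _).2 ⟨Sum.inl true, rfl⟩).lt) (univ.image (fc hd ha0 hj hN))
    (fun H => by simp [cov_iff hd ha0 hj hN]), sum_image fun _ _ _ _ e => fc_inj hd ha0 hj hN e,
    Fintype.sum_sum_type, Fintype.sum_sum_type, Fintype.sum_sum_type]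
  rw [sum_congr rfl fun y _ => nc_one hd ha0 hj hN (Sum.inl y) rfl,
    sum_congr rfl fun y _ => nc_one hd ha0 hj hN (Sum.inr (Sum.inr (Sum.inl y))) rfl,
    sum_congr rfl fun y _ => nc_two hd ha0 hj hN (Sum.inr (Sum.inl y)) (a := y.2.1)
      (by have := y.2.2; rw [mem_union, mem_range, mem_Ico] at this; omega) rfl,
    sum_congr rfl fun y _ => nc_two hd ha0 hj hN (Sum.inr (Sum.inr (Sum.inr y))) (a := y.2.1)
      (by have := y.2.2; rw [mem_Ico] at this; omega) rfl]
  have c1 : (range a0 ∪ Ico (a0 + j) N).card = N - j := by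
    rw [card_union_of_disjoint, card_range, Nat.card_Ico]
    · omega
    · rw [disjoint_left]; intro a h1 h2; simp at h1 h2; omega
  simp only [sz, sum_const, card_univ, Fintype.card_prod, Fintype.card_bool, Fintype.card_fin,
    Fintype.card_coe, smul_eq_mul, c1, offDiag_card, Nat.card_Ico, pw]
  obtain ⟨e, rfl⟩ : ∃ e, d = e + 2 := ⟨d - 2, by omega⟩
  have : (e + 2) * (e + 2) - (e + 2) = (e + 2) * (e + 1) := by
    rw [Nat.sub_eq_iff_eq_add (Nat.le_mul_self _)]; ring
  simp only [this, Nat.add_sub_cancel, show e + 2 - 1 = e + 1 from rfl, Nat.add_sub_cancel_left,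
    Nat.factorial_succ, Nat.ascFactorial_zero, Nat.ascFactorial_succ]
  ring

end Cut

end Pool.Agent.Lib.MP_7157e1_co
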