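import Pool.Agent.Lib.MP_7157e1_co.X5

/-! Cut simplex towers: automorphism groups; all large numbers of flag orbits occur. -/

namespace Pool.Agent.Lib.MP_7157e1_co
open Module Function Finset

section
variable {ι : Type} [Fintype ι] {E : Submodule ℝ (ι → ℝ)}

omit [Fintype ι] in
theorem iso_top (e : {G // IsF E G} ≃o {G // IsF E G}) :
    e ⟨Set.univ, isF_univ⟩ = ⟨Set.univ, isF_univ⟩ :=
  le_antisymm (Set.subset_univ _) (e.symm_apply_le.1 (Set.subset_univ _))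

omit [Fintype ι] in
theorem iso_cov (e : {G // IsF E G} ≃o {G // IsF E G}) {H : {G // IsF E G}}
    (h : H ⋖ ⟨Set.univ, isF_univ⟩) : e H ⋖ ⟨Set.univ, isF_univ⟩ := by
  rw [← iso_top e]; exact (apply_covBy_apply_iff e).2 h

/-- a simplex facet all of whose neighbours have `2 (d - 1)` vertices -/
def Tip (d : ℕ) (G : {G // IsF E G}) : Prop :=
  G.1.ncard = d ∧ ∀ H, H ⋖ ⟨Set.univ, isF_univ⟩ → ∀ R, R ≤ G → R ≤ H → R.1.ncard = d - 1 →
    H = G ∨ H.1.ncard = 2 * (d - 1)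

theorem Tip.map (hs : ∀ i, IsF E {i}) (hpos : IsF E ∅) {d : ℕ} {G : {G // IsF E G}} (h : Tip d G)
    (e : {G // IsF E G} ≃o {G // IsF E G}) : Tip d (e G) := by
  refine ⟨(ncard_iso hs hpos e G).trans h.1, fun H hH R h1 h2 h3 => ?_⟩
  rcases h.2 (e.symm H) (iso_cov e.symm hH) (e.symm R) (e.symm_apply_le.2 h1) (e.symm.monotone h2)
    ((ncard_iso hs hpos e.symm R).trans h3) with k | k
  · exact Or.inl (e.symm_apply_eq.1 k)
  · exact Or.inr ((ncard_iso hs hpos e.symm H).symm.trans k)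

end

namespace Cut
variable {d N a0 j : ℕ} (hd : 3 ≤ d) (ha0 : 1 ≤ a0) (hj : 1 ≤ j) (hN : a0 + j ≤ N)
include hd ha0 hj hN

theorem tip0 : Tip d (fc hd ha0 hj hN (Sum.inl false)) := by
  refine ⟨by rw [fc_ncard]; simp [sz], fun H hH R h1 h2 h3 => ?_⟩
  obtain ⟨y, rfl⟩ := (cov_iff hd ha0 hj hN H).1 hH
  obtain ⟨⟨i, _ | b⟩, hz⟩ : R.1.Nonempty := Set.nonempty_of_ncard_ne_zero (by omega)
  · exact absurd (G_none.1 (h1 hz)) (notMem_empty _)
  have b0 : b.val = 0 := (eq_sl (Nat.zero_le _)).1 (mem_singleton.1 (G_some.1 (h1 hz)).2)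
  have b1 := (G_some.1 (h2 hz)).2
  rcases y with (_ | _) | ⟨i, a, ha⟩ | ⟨u, q⟩ | ⟨⟨⟨u, i⟩, hui⟩, a, ha⟩
  · exact Or.inl rfl
  · have := (eq_sl le_rfl).1 (mem_singleton.1 b1); omega
  · exact Or.inr (by rw [fc_ncard]; simp [sz, mul_comm])
  · have := (eq_sl (by split_ifs <;> omega)).1 (mem_singleton.1 b1)
    split_ifs at this <;> omega
  · have ha1 : a0 ≤ a ∧ a < a0 + j := by simpa using ha
    simp only [tr, mem_insert, mem_singleton, eq_sl (show a ≤ N by omega),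
      eq_sl (show a + 1 ≤ N by omega)] at b1
    omega

theorem of_tip {y : J d N a0 j} (h : Tip d (fc hd ha0 hj hN y)) :
    y = Sum.inl false ∨ (y = Sum.inl true ∧ a0 + j < N) := by
  have key : ∀ (y' : J d N a0 j) L A U, L ⊆ (tr y).1 → A ⊆ (tr y).2.1 → U ⊆ (tr y).2.2 →
      L ⊆ (tr y').1 → A ⊆ (tr y').2.1 → U ⊆ (tr y').2.2 → L.card * A.card + U.card = d - 1 →
      y' ≠ y → (sz y').1 * (sz y').2.1 + (sz y').2.2 = 2 * (d - 1) := by
    intro y' L A U h1 h2 h3 h4 h5 h6 h7 h8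
    have sub : ∀ z : J d N a0 j, L ⊆ (tr z).1 → A ⊆ (tr z).2.1 → U ⊆ (tr z).2.2 →
        (G L A U : Set (I d N)) ⊆ fac z := by
      rintro z k1 k2 k3 ⟨i, _ | b⟩ hz
      · exact G_none.2 (k3 (G_none.1 hz))
      · exact G_some.2 ⟨k1 (G_some.1 hz).1, k2 (G_some.1 hz).2⟩
    rw [← fc_ncard hd ha0 hj hN]
    exact (h.2 _ ((cov_iff hd ha0 hj hN _).2 ⟨y', rfl⟩) ⟨_, sub_isF hd ha0 hj hN y (sub y h1 h2 h3)
      fun _ _ _ _ k1 k2 => G_some.2 ⟨(G_some.1 k1).1, (G_some.1 k2).2⟩⟩ (sub y h1 h2 h3)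
      (sub y' h4 h5 h6) (by rw [← h7, ← G_card]; exact Set.ncard_coe_finset _)).resolve_left
      fun e => h8 (fc_inj hd ha0 hj hN e)
  have h1 := h.1
  rw [fc_ncard] at h1
  rcases y with (_ | _) | ⟨i, a, ha⟩ | ⟨u, q⟩ | ⟨⟨⟨u, i⟩, hui⟩, a, ha⟩
  · exact Or.inl rfl
  · refine Or.inr ⟨rfl, lt_of_le_of_ne hN fun e => ?_⟩
    have := key (Sum.inr (Sum.inr (Sum.inl (⟨0, by omega⟩, true)))) {⟨0, by omega⟩}ᶜ {sl N N} ∅
      (subset_univ _) Subset.rfl Subset.rfl Subset.rfl (by simp [tr, e]) (empty_subset _)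
      (by simp [card_compl]) (by simp)
    simp only [sz] at this
    omega
  · simp only [sz] at h1; omega
  · obtain ⟨i, hi, -⟩ := Fin.exists_ne_and_ne_of_two_lt u u hd
    have := key (Sum.inr (Sum.inr (Sum.inr (⟨(u, i), by simpa using hi.symm⟩,
      ⟨if q then a0 + j - 1 else a0, by rw [mem_Ico]; split_ifs <;> omega⟩)))) {u, i}ᶜ
      {sl N (if q then a0 + j else a0)} {u} (compl_subset_compl.2 (by simp)) Subset.rfl Subset.rfl
      Subset.rfl (by cases q <;> simp [tr, show a0 + j - 1 + 1 = a0 + j by omega]) Subset.rfl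
      (by rw [card_compl, card_pair hi.symm]; simp; omega) (by simp)
    simp only [sz] at this
    omega
  · have ha1 : a0 ≤ a ∧ a < a0 + j := by simpa using ha
    have hui' : u ≠ i := by simpa using hui
    simp only [sz] at h1
    have := key (Sum.inr (Sum.inr (Sum.inr (⟨(i, u), by simpa using hui'.symm⟩, ⟨a, ha⟩)))) {u, i}ᶜ
      {sl N a, sl N (a + 1)} ∅ Subset.rfl Subset.rfl (empty_subset _)
      (by simp only [tr, pair_comm i u]; exact Subset.rfl) Subset.rfl (empty_subset _)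
      (by rw [card_compl, card_pair hui', pair_card (by omega)]; simp; omega) (by simp [hui'])
    simp only [sz] at this
    omega

theorem orbit_sub : ∃ Φ : Fl (EE d N a0 j) d, ∀ e, ∃ y,
    (y = Sum.inl false ∨ (y = Sum.inl true ∧ a0 + j < N)) ∧
    (⟨(Fl.act e Φ).1 d, (Fl.act e Φ).isF d⟩ : {G // IsF (EE d N a0 j) G}) = fc hd ha0 hj hN y := by
  obtain ⟨Φ, hΦ⟩ := exists_facet (pos hd ha0 hj hN) (rank_eq hd ha0 hj hN)
    ((cov_iff hd ha0 hj hN _).2 ⟨Sum.inl false, rfl⟩)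
  refine ⟨Φ, fun e => ?_⟩
  obtain ⟨y, hy⟩ := (cov_iff hd ha0 hj hN _).1 (facet_cov (Fl.act e Φ))
  refine ⟨y, of_tip hd ha0 hj hN ?_, hy.symm⟩
  have := (tip0 hd ha0 hj hN).map (sing hd ha0 hj hN) (pos hd ha0 hj hN) e
  rwa [show fc hd ha0 hj hN (Sum.inl false) = ⟨Φ.1 d, Φ.isF d⟩ from Subtype.ext hΦ.symm,
    show e ⟨Φ.1 d, Φ.isF d⟩ = fc hd ha0 hj hN y from hy.symm] at this

omit ha0 hj hN in
theorem perm_mem (σ : Equiv.Perm (Fin d)) : ∀ f ∈ EE d N a0 j,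
    f ∘ (Equiv.prodCongr σ (Equiv.refl _) : Equiv.Perm (I d N)) ∈ EE d N a0 j := fun f hf => by
  obtain ⟨c, t, x, hx, rfl⟩ := (mem_EE hd).1 hf
  refine (mem_EE hd).2 ⟨c, t, x ∘ σ, (Equiv.sum_comp σ x).trans hx, ?_⟩
  ext ⟨i, _ | b⟩ <;> rfl

omit ha0 hj hN in
theorem mirror_mem (h : N = 2 * a0 + j) (σ : Equiv.Perm (Fin d)) : ∀ f ∈ EE d N a0 j,
    f ∘ (Equiv.prodCongr σ (Equiv.optionCongr Fin.revPerm) : Equiv.Perm (I d N)) ∈ EE d N a0 j :=
  fun f hf => by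
  obtain ⟨c, t, x, hx, rfl⟩ := (mem_EE hd).1 hf
  refine (mem_EE hd).2 ⟨c, (N + 1) * c - t, x ∘ σ, (Equiv.sum_comp σ x).trans hx, ?_⟩
  ext ⟨i, _ | b⟩
  · rfl
  · have e : ((Fin.rev b).val : ℝ) = N - b.val := by
      rw [Fin.val_rev, Nat.add_sub_add_right, Nat.cast_sub (Nat.lt_succ_iff.1 b.2)]
    have e2 : (2 * a0 + j : ℝ) = N := by rw [h]; push_cast; ring
    show x (σ i) + lam a0 j N (Fin.rev b) c t = x (σ i) + lam a0 j N b c _
    simp only [lam, e, e2]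
    ring

omit hN in
theorem asym : Attained (2 + 2 * d + 2 * (d - 1) * a0 + 2 * j * (d * (d - 2))) d := by
  classical
  have hN := le_refl (a0 + j)
  have : Nonempty (I d (a0 + j)) := ⟨(⟨0, by omega⟩, none)⟩
  obtain ⟨Φ, hΦ⟩ := orbit_sub hd ha0 hj hN
  have c := card_facets (pos hd ha0 hj hN) (rank_eq hd ha0 hj hN) {fc hd ha0 hj hN (Sum.inl false)}
    fun G hG => (cov_iff hd ha0 hj hN _).2 ⟨_, (mem_singleton.1 hG).symm⟩
  rw [sum_singleton, nc_one hd ha0 hj hN _ rfl] at c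
  have k := k_mul (pos hd ha0 hj hN) (rank_eq hd ha0 hj hN) _ Φ (fun e => ?_)
    (fun σ => permIso _ (perm_mem hd σ)) (fun σ τ e => ?_) 
    (c.trans (by simp [Fintype.card_perm])).le
  · rw [card_flags hd ha0 hj hN, Nat.card_perm, Nat.card_eq_fintype_card, Fintype.card_fin,
      Nat.add_sub_cancel] at k
    rw [← Nat.eq_of_mul_eq_mul_right d.factorial_pos k]
    exact attained_sub _ _
  · obtain ⟨y, h1 | h1, h2⟩ := hΦ e
    · exact mem_singleton.2 (h1 ▸ h2)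
    · omega
  · have := permIso_inj (sing hd ha0 hj hN) e
    exact Equiv.ext fun i => congrArg (fun π : Equiv.Perm (I d (a0 + j)) => (π (i, none)).1) this

omit hN in
theorem symm : Attained (1 + d + 2 * (d - 1) * a0 + j * (d * (d - 2))) d := by
  classical
  have hN : a0 + j ≤ 2 * a0 + j := by omega
  have : Nonempty (I d (2 * a0 + j)) := ⟨(⟨0, by omega⟩, none)⟩
  obtain ⟨Φ, hΦ⟩ := orbit_sub hd ha0 hj hN
  have c := card_facets (pos hd ha0 hj hN) (rank_eq hd ha0 hj hN)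
    {fc hd ha0 hj hN (Sum.inl false), fc hd ha0 hj hN (Sum.inl true)}
    fun G hG => (cov_iff hd ha0 hj hN _).2 (by
      rcases mem_insert.1 hG with k | k
      exacts [⟨_, k.symm⟩, ⟨_, (mem_singleton.1 k).symm⟩])
  rw [sum_pair fun e => by simpa using fc_inj hd ha0 hj hN e, nc_one hd ha0 hj hN _ rfl,
    nc_one hd ha0 hj hN _ rfl] at c
  let π : Equiv.Perm (Fin d) × Bool → Equiv.Perm (I d (2 * a0 + j)) := fun p =>
    Equiv.prodCongr p.1 (if p.2 then Equiv.optionCongr Fin.revPerm else Equiv.refl _)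
  have hπ : ∀ p, ∀ f ∈ EE d (2 * a0 + j) a0 j, f ∘ π p ∈ EE d (2 * a0 + j) a0 j := by
    rintro ⟨σ, _ | _⟩
    exacts [perm_mem hd σ, mirror_mem hd rfl σ]
  have k := k_mul (pos hd ha0 hj hN) (rank_eq hd ha0 hj hN) _ Φ (fun e => ?_)
    (fun p => permIso _ (hπ p)) (fun σ τ e => ?_)
    (c.trans (by simp [Fintype.card_perm, mul_two])).le
  · rw [card_flags hd ha0 hj hN, Nat.card_prod, Nat.card_perm, Nat.card_eq_fintype_card,
      Fintype.card_fin, Nat.add_sub_cancel, Nat.card_eq_fintype_card, Fintype.card_bool] at k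
    have : (toSys (pos hd ha0 hj hN) (rank_eq hd ha0 hj hN)).k =
        1 + d + 2 * (d - 1) * a0 + j * (d * (d - 2)) :=
      Nat.eq_of_mul_eq_mul_right (m := d.factorial * 2) (by positivity) (by rw [k]; ring)
    rw [← this]
    exact attained_sub _ _
  · obtain ⟨y, h1 | h1, h2⟩ := hΦ e
    · rw [Set.mem_ofPred_eq, h2, h1]; simp
    · rw [Set.mem_ofPred_eq, h2, h1.1]; simp
  · have := permIso_inj (sing hd ha0 hj hN) e
    refine Prod.ext (Equiv.ext fun i =>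
      congrArg (fun π : Equiv.Perm (I d (2 * a0 + j)) => (π (i, none)).1) this) ?_
    have h2 := congrArg (fun π : Equiv.Perm (I d (2 * a0 + j)) => (π (⟨0, by omega⟩, some 0)).2) this
    rcases σ with ⟨σ, _ | _⟩ <;> rcases τ with ⟨τ, _ | _⟩ <;> simp [π, Fin.ext_iff] at h2 ⊢ <;> omega

end Cut

theorem attained_large {k d : ℕ} (hd : 3 ≤ d) (hk : 2 * (d - 1) ^ 3 + 6 ≤ k) : Attained k d := by
  obtain ⟨e, rfl⟩ : ∃ e, d = e + 3 := ⟨d - 3, by omega⟩
  have cop : Nat.gcd (e + 2) ((e + 3) * (e + 1)) = 1 := by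
    have : (e + 2) * (e + 2) = (e + 3) * (e + 1) + 1 := by ring
    exact Nat.eq_one_of_dvd_one ((Nat.dvd_add_right (Nat.gcd_dvd_right _ _)).1
      (this ▸ Dvd.dvd.mul_right (Nat.gcd_dvd_left _ _) _))
  have rep : ∀ m, (e + 1) * (e * e + 4 * e + 2) ≤ m →
      ∃ a b, a * (e + 2) + b * ((e + 3) * (e + 1)) = m := fun m hm =>
    Nat.exists_add_mul_eq_of_gcd_dvd_of_mul_pred_le _ _ m (by rw [cop]; exact one_dvd _) (by
      rwa [show (e + 3) * (e + 1) = (e * e + 4 * e + 2) + 1 by ring])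
  rw [show e + 3 - 1 = e + 2 from rfl] at hk
  obtain ⟨m, rfl | rfl⟩ := Nat.even_or_odd' k
  · obtain ⟨m, rfl⟩ : ∃ m', m = m' + (e + 3) ^ 2 := ⟨m - (e + 3) ^ 2, by
      rw [Nat.sub_add_cancel]; nlinarith [Nat.zero_le (e * e * e), Nat.zero_le (e * e)]⟩
    obtain ⟨a, b, rfl⟩ := rep m (by nlinarith)
    convert Cut.asym (a0 := a + 1) (j := b + 1) hd (by omega) (by omega) using 1
    rw [show e + 3 - 1 = e + 2 from rfl, show e + 3 - 2 = e + 1 from rfl]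
    ring
  · obtain ⟨t, ht⟩ : Even (e * (e + 1)) := Nat.even_mul_succ_self e
    obtain ⟨m, rfl⟩ : ∃ m', m = m' + (t + 3 * e + 5) := ⟨m - (t + 3 * e + 5), by
      rw [Nat.sub_add_cancel]; nlinarith [Nat.zero_le (e * e * e), Nat.zero_le (e * e)]⟩
    obtain ⟨a, b, rfl⟩ := rep m (by nlinarith)
    convert Cut.symm (a0 := a + 1) (j := 2 * b + 1) hd (by omega) (by omega) using 1
    rw [show e + 3 - 1 = e + 2 from rfl, show e + 3 - 2 = e + 1 from rfl]
    nlinarith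

end Pool.Agent.Lib.MP_7157e1_co
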